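import Pool.Agent.Mg.X8299d6.G6efaac

section

open Matrix
open Classical

noncomputable section

namespace Pool.Agent.MP_8299d6_al.Up

open Pool.Agent.MP_810665_al (IrrChar)

variable {M : Type} [Ring M] [Fintype M] {τ : AddChar M ℂ}

theorem frob_tau (n N : ℕ) [NeZero N] : Frob (tau n N) := by
  refine ⟨fun x y => ?_, fun x hx => ?_⟩
  · simp only [tau, AddChar.compAddMonoidHom_apply, traceAddMonoidHom_apply]
    rw [trace_mul_comm]
  · ext i j
    have h := hx (single j i 1)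
    simp only [tau, AddChar.compAddMonoidHom_apply, traceAddMonoidHom_apply] at h
    rw [trace_mul_single] at h
    simpa using ((ZMod.isPrimitive_stdAddChar N).zmod_char_eq_one_iff N _).1 h

theorem sum_tau (J : AddSubgroup M) (A : M) :
    ∑ x : J, τ (A * x) = if A ∈ perp τ J then (Nat.card J : ℂ) else 0 := by
  have h := AddChar.sum_eq_ite (τ.compAddMonoidHom ((AddMonoidHom.mulLeft A).comp J.subtype))
  have e : τ.compAddMonoidHom ((AddMonoidHom.mulLeft A).comp J.subtype) = 0 ↔ A ∈ perp τ J := by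
    rw [AddChar.ext_iff]
    exact ⟨fun h x hx => h ⟨x, hx⟩, fun h x => h x x.2⟩
  rw [Nat.card_eq_fintype_card]
  simp only [e] at h
  exact h

theorem Frob.sum_all (h : Frob τ) (x : M) :
    ∑ A : M, τ (A * x) = if x = 0 then (Nat.card M : ℂ) else 0 := by
  have h₁ := AddChar.sum_eq_ite (τ.compAddMonoidHom (AddMonoidHom.mulLeft x))
  have e : τ.compAddMonoidHom (AddMonoidHom.mulLeft x) = 0 ↔ x = 0 := by
    rw [AddChar.ext_iff]
    exact ⟨fun h₂ => h.nd x h₂, fun h₂ y => by simp [h₂]⟩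
  rw [Nat.card_eq_fintype_card]
  simp only [e] at h₁
  simp only [fun A => h.comm A x]
  exact h₁

theorem Frob.card_perp (h : Frob τ) (J : AddSubgroup M) :
    Nat.card J * Nat.card (perp τ J) = Nat.card M := by
  have h₁ : ∑ A : M, ∑ x : J, τ (A * x) = (Nat.card J : ℂ) * Nat.card (perp τ J) := by
    simp only [sum_tau]
    rw [← Finset.sum_filter, Finset.sum_const, nsmul_eq_mul, mul_comm,
      Nat.card_eq_fintype_card (α := perp τ J), Fintype.card_subtype]
  have h₂ : ∑ x : J, ∑ A : M, τ (A * x) = (Nat.card M : ℂ) := by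
    simp only [h.sum_all, ZeroMemClass.coe_eq_zero]
    simp
  rw [Finset.sum_comm, h₂] at h₁
  exact_mod_cast h₁.symm

theorem Frob.perp_perp (h : Frob τ) (J : AddSubgroup M) : perp τ (perp τ J) = J := by
  have h₁ : J ≤ perp τ (perp τ J) := fun x hx A hA => (h.comm x A).trans (hA x hx)
  refine (AddSubgroup.eq_of_le_of_card_ge h₁ (le_of_eq ?_)).symm
  have h₂ := h.card_perp J
  have h₃ := h.card_perp (perp τ J)
  rw [← h₂, mul_comm] at h₃
  exact Nat.eq_of_mul_eq_mul_right Nat.card_pos h₃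

theorem Frob.exists_rep (h : Frob τ) (S : AddSubgroup M) (φ : AddChar S ℂ) :
    ∃ B : M, ∀ x : S, φ x = τ (B * x) := by
  by_contra hn
  have h₁ : ∀ B : M, ∑ x : S, φ x * τ (B * (-x)) = 0 := by
    intro B
    have h₂ := (AddChar.sum_eq_zero_iff_ne_zero
      (ψ := φ + τ.compAddMonoidHom ((AddMonoidHom.mulLeft (-B)).comp S.subtype))).2 (by
        intro e
        refine hn ⟨B, fun x => ?_⟩
        have h₃ : φ x * τ (-B * x) = 1 := DFunLike.congr_fun e x
        have h₄ : τ (-B * x) * τ (B * x) = 1 := by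
          rw [← AddChar.map_add_eq_mul, ← add_mul, neg_add_cancel, zero_mul, AddChar.map_zero_eq_one]
        rw [← mul_one (φ x), ← h₄, ← mul_assoc, h₃, one_mul])
    simp only [mul_neg, ← neg_mul]
    exact h₂
  have h₂ : ∑ B : M, ∑ x : S, φ x * τ (B * (-x)) = 0 := Finset.sum_eq_zero fun B _ => h₁ B
  rw [Finset.sum_comm] at h₂
  simp only [← Finset.mul_sum, h.sum_all, neg_eq_zero, ZeroMemClass.coe_eq_zero] at h₂
  simp only [mul_ite, mul_zero, Finset.sum_ite_eq', Finset.mem_univ, if_true,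
    AddChar.map_zero_eq_one, one_mul, Nat.cast_eq_zero] at h₂
  exact Nat.card_pos.ne' h₂

omit [Fintype M] in
theorem perp_anti {J J' : AddSubgroup M} (h : J ≤ J') : perp τ J' ≤ perp τ J := by
  exact fun _ hA x hx => hA x (h hx)

omit [Fintype M] in
theorem cj_mul (g h : Mˣ) (A : M) : cj (g * h) A = cj g (cj h A) := by
  simp only [cj, _root_.mul_inv_rev, Units.val_mul, mul_assoc]
omit [Fintype M] in
theorem cj_one (A : M) : cj 1 A = A := by
  simp [cj]
omit [Fintype M] in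
theorem cj_add (g : Mˣ) (A B : M) : cj g (A + B) = cj g A + cj g B := by
  simp only [cj, mul_add, add_mul]
omit [Fintype M] in
theorem cj_sub (g : Mˣ) (A B : M) : cj g (A - B) = cj g A - cj g B := by
  simp only [cj, mul_sub, sub_mul]
omit [Fintype M] in
theorem cj_mul_cj (g : Mˣ) (A B : M) : cj g A * cj g B = cj g (A * B) := by
  simp only [cj, mul_assoc, Units.inv_mul_cancel_left]
omit [Fintype M] in
theorem Frob.tau_cj (h : Frob τ) (g : Mˣ) (A : M) : τ (cj g A) = τ A := by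
  rw [cj, h.comm, ← mul_assoc, Units.inv_mul, one_mul]

omit [Fintype M] in
theorem Frob.cj_perp (h : Frob τ) {K : Subgroup Mˣ} {J : NonUnitalSubring M} (hK : Norm K J)
    {g : Mˣ} (hg : g ∈ K) {A : M} (hA : A ∈ perp τ J.toAddSubgroup) :
    cj g A ∈ perp τ J.toAddSubgroup := by
  intro x hx
  have h₁ := hA _ (hK g⁻¹ (inv_mem hg) x hx)
  rw [← h.tau_cj g, ← cj_mul_cj, ← cj_mul, mul_inv_cancel, cj_one] at h₁
  exact h₁

omit [Fintype M] in
theorem self_mem_cls (J : NonUnitalSubring M) (K : Subgroup Mˣ) (A : M) : A ∈ cls τ J K A := by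
  exact ⟨1, one_mem _, by rw [cj_one, sub_self]; exact zero_mem _⟩

omit [Fintype M] in
theorem Frob.cls_eq (h : Frob τ) {K : Subgroup Mˣ} {J : NonUnitalSubring M} (hK : Norm K J)
    {A B : M} (hB : B ∈ cls τ J K A) : cls τ J K B = cls τ J K A := by
  obtain ⟨g, hg, hB⟩ := hB
  ext C
  constructor
  · rintro ⟨u, hu, hC⟩
    refine ⟨u * g, mul_mem hu hg, ?_⟩
    have h₁ := add_mem hC (h.cj_perp hK hu hB)
    rwa [cj_sub, ← cj_mul, sub_add_sub_cancel] at h₁
  · rintro ⟨u, hu, hC⟩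
    have hu' := mul_mem hu (inv_mem hg)
    refine ⟨u * g⁻¹, hu', ?_⟩
    have h₁ := sub_mem hC (h.cj_perp hK hu' hB)
    rwa [cj_sub, ← cj_mul, inv_mul_cancel_right, sub_sub_sub_cancel_right] at h₁

omit [Fintype M] in
theorem rt0_cj_cls' (h : Frob τ) {J : NonUnitalSubring M} {K H : Subgroup Mˣ} (hH : Norm H J)
    (hKH : ∀ g ∈ H, ∀ u ∈ K, g * u * g⁻¹ ∈ K) {g : Mˣ} (hg : g ∈ H) {A B : M}
    (hB : B ∈ cls τ J K A) : cj g B ∈ cls τ J K (cj g A) := by
  obtain ⟨u, hu, hB⟩ := hB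
  refine ⟨g * u * g⁻¹, hKH g hg u hu, ?_⟩
  have h₁ := h.cj_perp hH hg hB
  rwa [← cj_mul, inv_mul_cancel_right, cj_mul, ← cj_sub]

omit [Fintype M] in
theorem rt0_cj_cls (h : Frob τ) {J : NonUnitalSubring M} {K H : Subgroup Mˣ} (hH : Norm H J)
    (hKH : ∀ g ∈ H, ∀ u ∈ K, g * u * g⁻¹ ∈ K) {g : Mˣ} (hg : g ∈ H) {A B : M} :
    cj g B ∈ cls τ J K (cj g A) ↔ B ∈ cls τ J K A := by
  refine ⟨fun h₁ => ?_, rt0_cj_cls' h hH hKH hg⟩
  have h₂ := rt0_cj_cls' h hH hKH (inv_mem hg) h₁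
  rwa [← cj_mul, ← cj_mul, inv_mul_cancel, cj_one, cj_one] at h₂

theorem rt0_UU {J : NonUnitalSubring M} {H : Subgroup Mˣ} (hH : Norm H J) {g u : Mˣ} (hg : g ∈ H)
    (hu : u ∈ UU J) : g * u * g⁻¹ ∈ UU J := by
  have h₁ := hH g hg _ hu
  rw [cj_sub] at h₁
  simpa [cj, mem_UU] using h₁

/-- `H` permutes the classes -/
theorem Sit.cj_cls {J J' : NonUnitalSubring M} {L : M → M} {H : Subgroup Mˣ}
    (h : Sit τ J J' L H) {g : Mˣ} (hg : g ∈ H) {A B : M} :
    cj g B ∈ cls τ J (UU J') (cj g A) ↔ B ∈ cls τ J (UU J') A := by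
  exact rt0_cj_cls h.frob h.norm (fun g hg u hu => rt0_UU h.norm' hg hu) hg

/-- orbit-stabiliser for classes -/
theorem Frob.card_cls (h : Frob τ) {J : NonUnitalSubring M} {K H H₁ : Subgroup Mˣ} (hK : K ≤ H)
    (hH : Norm H J) (hKH : ∀ g ∈ H, ∀ u ∈ K, g * u * g⁻¹ ∈ K) (A : M)
    (h1 : ∀ g, g ∈ H₁ ↔ g ∈ H ∧ cj g A ∈ cls τ J K A) :
    (cls τ J H A).ncard * Nat.card H₁ = Nat.card H * (cls τ J K A).ncard := by
  have hKn : Norm K J := fun g hg => hH g (hK hg)
  have key := Finset.card_mul_eq_card_mul (s := Finset.univ.filter (· ∈ cls τ J H A))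
    (t := Finset.univ.filter (· ∈ H)) (fun (B : M) (g : Mˣ) => B ∈ cls τ J K (cj g A))
    (m := Nat.card H₁) (n := (cls τ J K A).ncard) (by
      intro B hB
      obtain ⟨g₀, hg₀, hB⟩ := (Finset.mem_filter.1 hB).2
      have e : cls τ J K B = cls τ J K (cj g₀ A) :=
        h.cls_eq hKn ⟨1, one_mem _, by rwa [cj_one]⟩
      have e₂ : ∀ g ∈ H, B ∈ cls τ J K (cj g A) ↔ cj (g⁻¹ * g₀) A ∈ cls τ J K A := by
        intro g hg
        rw [← rt0_cj_cls h hH hKH hg (B := cj (g⁻¹ * g₀) A), ← cj_mul, mul_inv_cancel_left]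
        constructor
        · intro h₁
          rw [← h.cls_eq hKn h₁, e]
          exact self_mem_cls _ _ _
        · intro h₁
          rw [← h.cls_eq hKn h₁, ← e]
          exact self_mem_cls _ _ _
      rw [Nat.card_eq_fintype_card, Fintype.card_subtype]
      refine Finset.card_bij' (fun g _ => g⁻¹ * g₀) (fun u _ => g₀ * u⁻¹) ?_ ?_ ?_ ?_
      · intro g hg
        simp only [Finset.mem_bipartiteAbove, Finset.mem_filter, Finset.mem_univ, true_and] at hg ⊢
        exact (h1 _).2 ⟨mul_mem (inv_mem hg.1) hg₀, (e₂ g hg.1).1 hg.2⟩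
      · intro u hu
        simp only [Finset.mem_bipartiteAbove, Finset.mem_filter, Finset.mem_univ, true_and] at hu ⊢
        obtain ⟨h₁, h₂⟩ := (h1 u).1 hu
        have h₃ := mul_mem hg₀ (inv_mem h₁)
        exact ⟨h₃, (e₂ _ h₃).2 (by simpa using h₂)⟩
      · intro g _
        simp
      · intro g _
        simp) (by
      intro g hg
      have hg := (Finset.mem_filter.1 hg).2
      rw [Set.ncard_eq_toFinset_card', Set.toFinset_card, Fintype.card_subtype]
      refine Finset.card_bij' (fun B _ => cj g⁻¹ B) (fun B _ => cj g B) ?_ ?_ ?_ ?_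
      · intro B hB
        simp only [Finset.mem_bipartiteBelow, Finset.mem_filter, Finset.mem_univ, true_and] at hB ⊢
        rw [← rt0_cj_cls h hH hKH hg, ← cj_mul, mul_inv_cancel, cj_one]
        exact hB.2
      · intro B hB
        simp only [Finset.mem_bipartiteBelow, Finset.mem_filter, Finset.mem_univ, true_and] at hB ⊢
        have h₁ := (rt0_cj_cls h hH hKH hg).2 hB
        refine ⟨?_, h₁⟩
        obtain ⟨u, hu, h₂⟩ := h₁
        exact ⟨u * g, mul_mem (hK hu) hg, by rwa [cj_mul]⟩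
      · intro B _
        rw [← cj_mul, mul_inv_cancel, cj_one]
      · intro B _
        rw [← cj_mul, inv_mul_cancel, cj_one])
  rw [Set.ncard_eq_toFinset_card' (cls τ J H A), Set.toFinset_card, Fintype.card_subtype,
    Nat.card_eq_fintype_card (α := H), Fintype.card_subtype]
  exact key

theorem Sit.exists_stab {J J' : NonUnitalSubring M} {L : M → M} {H : Subgroup Mˣ}
    (h : Sit τ J J' L H) (A : M) :
    ∃ H₁ : Subgroup Mˣ, (∀ g, g ∈ H₁ ↔ g ∈ H ∧ cj g A ∈ cls τ J (UU J') A) ∧ Sit τ J J' L H₁ := by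
  have hKn : Norm (UU J') J := fun g hg => h.norm g (h.sub hg)
  refine ⟨{ carrier := {g | g ∈ H ∧ cj g A ∈ cls τ J (UU J') A}
            one_mem' := ⟨one_mem _, by rw [cj_one]; exact self_mem_cls _ _ _⟩
            mul_mem' := ?_
            inv_mem' := ?_ }, fun g => Iff.rfl, h.frob, h.om, h.le,
    fun u hu => ⟨h.sub hu, u, hu, by rw [sub_self]; exact zero_mem _⟩,
    fun g hg => h.norm g hg.1, fun g hg => h.norm' g hg.1⟩
  · rintro a b ⟨a₁, a₂⟩ ⟨b₁, b₂⟩
    refine ⟨mul_mem a₁ b₁, ?_⟩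
    rw [cj_mul, ← h.frob.cls_eq hKn a₂]
    exact (h.cj_cls a₁).2 b₂
  · rintro a ⟨a₁, a₂⟩
    refine ⟨inv_mem a₁, ?_⟩
    rw [← h.cj_cls a₁, ← cj_mul, mul_inv_cancel, cj_one, h.frob.cls_eq hKn a₂]
    exact self_mem_cls _ _ _

theorem card_UU {J : NonUnitalSubring M} (h : ∀ x ∈ J, IsUnit (1 + x)) :
    Nat.card (UU J) = Nat.card J := by
  refine Nat.card_congr
    { toFun := fun u => ⟨(u.1 : M) - 1, u.2⟩
      invFun := fun x => ⟨(h x.1 x.2).unit, by simp [mem_UU]⟩
      left_inv := fun u => Subtype.ext (Units.ext (by simp))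
      right_inv := fun x => Subtype.ext (by simp) }

end Pool.Agent.MP_8299d6_al.Up

end
end

section

open Matrix
open Classical

noncomputable section

namespace Pool.Agent.MP_8299d6_al.Up

open Pool.Agent.MP_810665_al (IrrChar)

variable {M : Type} [Ring M] [Fintype M] {τ : AddChar M ℂ} {J J' : NonUnitalSubring M}
  {L : M → M} {H : Subgroup Mˣ} {V : Type} [AddCommGroup V] [Module ℂ V]

/-- the elements of `H` in `1 + J` -/
def rt1U (J : NonUnitalSubring M) (H : Subgroup Mˣ) : Finset H :=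
  Finset.univ.filter fun u => u.1 ∈ UU J

def rt1J (J : NonUnitalSubring M) : Finset M := Finset.univ.filter (· ∈ J)

def rt1C (τ : AddChar M ℂ) (J : NonUnitalSubring M) (K : Subgroup Mˣ) (A : M) : Finset M :=
  Finset.univ.filter (· ∈ cls τ J K A)

/-- Fourier transform of a class -/
def rt1F (τ : AddChar M ℂ) (J : NonUnitalSubring M) (K : Subgroup Mˣ) (A y : M) : ℂ :=
  ∑ B ∈ rt1C τ J K A, τ (-(B * y))

lemma rt1_memU {u : H} : u ∈ rt1U J H ↔ (u.1 : M) - 1 ∈ J := by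
  simp only [rt1U, Finset.mem_filter, Finset.mem_univ, true_and, mem_UU]

lemma rt1_memJ {y : M} : y ∈ rt1J J ↔ y ∈ J := by
  simp only [rt1J, Finset.mem_filter, Finset.mem_univ, true_and]

lemma rt1_memC {K : Subgroup Mˣ} {A B : M} : B ∈ rt1C τ J K A ↔ B ∈ cls τ J K A := by
  simp only [rt1C, Finset.mem_filter, Finset.mem_univ, true_and]

lemma rt1_cardC (K : Subgroup Mˣ) (A : M) : (cls τ J K A).ncard = (rt1C τ J K A).card := by
  rw [← Set.ncard_coe_finset]
  congr 1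
  ext B
  rw [Finset.mem_coe, rt1_memC]

lemma rt1_card_ne (K : Subgroup Mˣ) (A : M) : ((cls τ J K A).ncard : ℂ) ≠ 0 := by
  rw [rt1_cardC]
  exact_mod_cast (Finset.card_pos.2 ⟨A, rt1_memC.2 (self_mem_cls J K A)⟩).ne'

lemma rt1_N : (Nat.card M : ℂ) ≠ 0 := by exact_mod_cast (Nat.card_pos (α := M)).ne'

lemma rt1_EE (ρ : Representation ℂ H V) (A : M) : EE τ J J' L H ρ A = (Nat.card M : ℂ)⁻¹ •
    ∑ u ∈ rt1U J H, rt1F τ J (UU J') A (L ((u.1 : M) - 1)) • ρ u := by
  unfold EE rt1U rt1F rt1C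
  congr 1
  rw [Finset.sum_comm, Finset.sum_filter]
  refine Finset.sum_congr rfl fun u _ => ?_
  by_cases hu : u.1 ∈ UU J
  · simp only [hu, and_true, if_true]
    rw [Finset.sum_smul, Finset.sum_filter]
  · simp only [hu, and_false, if_false, Finset.sum_const_zero]

lemma rt1_fc (χ : H → ℂ) (A : M) :
    fc τ J L H χ A = ∑ u ∈ rt1U J H, χ u * τ (-(A * L ((u.1 : M) - 1))) := by
  unfold fc rt1U
  rw [Finset.sum_filter]

lemma rt1_tau (A : M) : ∑ y ∈ rt1J J, τ (A * y) =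
    if A ∈ perp τ J.toAddSubgroup then (Nat.card J.toAddSubgroup : ℂ) else 0 := by
  rw [← sum_tau]
  exact Finset.sum_subtype (p := fun y => y ∈ J.toAddSubgroup) _ (fun _ => rt1_memJ)
    fun y => τ (A * y)

omit [Fintype M] in
lemma rt1_cj_inv (g : Mˣ) (A : M) : cj g (cj g⁻¹ A) = A := by
  rw [← cj_mul, mul_inv_cancel, cj_one]

omit [Fintype M] in
lemma rt1_cj_neg (g : Mˣ) (A : M) : cj g (-A) = -cj g A := by
  simp only [cj, mul_neg, neg_mul]

omit [Fintype M] in
lemma rt1_cj_unit (g u : Mˣ) : ((g * u * g⁻¹ : Mˣ) : M) - 1 = cj g ((u : M) - 1) := by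
  simp only [cj, Units.val_mul, mul_sub, sub_mul, mul_one, Units.mul_inv]

omit [Fintype M] in
lemma rt1_tau_cj (h : Frob τ) (g : Mˣ) (B y : M) : τ (-(cj g B * cj g y)) = τ (-(B * y)) := by
  rw [cj_mul_cj, ← rt1_cj_neg, h.tau_cj]

omit [Fintype M] in
lemma rt1_coset {K : Subgroup Mˣ} {A B B' : M} (hB : B ∈ cls τ J K A)
    (hp : B' - B ∈ perp τ J.toAddSubgroup) : B' ∈ cls τ J K A := by
  obtain ⟨g, hg, h1⟩ := hB
  refine ⟨g, hg, ?_⟩
  have := add_mem hp h1
  rwa [sub_add_sub_cancel] at this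

omit [Fintype M] in
lemma rt1_neg {K : Subgroup Mˣ} {A B : M} (hB : B ∈ cls τ J K A) : -B ∈ cls τ J K (-A) := by
  obtain ⟨g, hg, h1⟩ := hB
  refine ⟨g, hg, ?_⟩
  have := neg_mem h1
  rwa [rt1_cj_neg, neg_sub_neg, ← neg_sub]

lemma Sit.rt1_norm (h : Sit τ J J' L H) : Norm (UU J') J := fun g hg => h.norm g (h.sub hg)

lemma Sit.rt1_cls (h : Sit τ J J' L H) {A B : M} (hB : B ∈ cls τ J (UU J') A) :
    cls τ J (UU J') B = cls τ J (UU J') A := h.frob.cls_eq h.rt1_norm hB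

lemma Sit.rt1_symm (h : Sit τ J J' L H) {A B : M} (hB : B ∈ cls τ J (UU J') A) :
    A ∈ cls τ J (UU J') B := by
  rw [h.rt1_cls hB]
  exact self_mem_cls _ _ _

lemma Sit.rt1_C (h : Sit τ J J' L H) {A B : M} (hB : B ∈ cls τ J (UU J') A) :
    rt1C τ J (UU J') B = rt1C τ J (UU J') A := by
  unfold rt1C
  rw [h.rt1_cls hB]

lemma Sit.rt1_bij0 (h : Sit τ J J' L H) :
    Set.BijOn (fun u : H => (u.1 : M) - 1) (rt1U J H) J := by
  refine ⟨fun u hu => rt1_memU.1 hu, fun u _ v _ e => ?_, fun x hx => ?_⟩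
  · exact Subtype.ext (Units.ext (sub_left_injective e))
  · obtain ⟨u, hu⟩ := h.om.unit x hx
    have h1 : (u : M) - 1 = x := by rw [hu, add_sub_cancel_left]
    have h2 : u ∈ H := h.sub (mem_UU.2 (h.le (h1 ▸ hx)))
    exact ⟨⟨u, h2⟩, rt1_memU.2 (h1 ▸ hx), h1⟩

lemma Sit.rt1_bij (h : Sit τ J J' L H) :
    Set.BijOn (fun u : H => L ((u.1 : M) - 1)) (rt1U J H) J :=
  h.om.bij.comp h.rt1_bij0

lemma Sit.rt1_re (h : Sit τ J J' L H) {N : Type} [AddCommMonoid N] (f : M → N) :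
    ∑ u ∈ rt1U J H, f (L ((u.1 : M) - 1)) = ∑ y ∈ rt1J J, f y := by
  refine Finset.sum_nbij (fun u : H => L ((u.1 : M) - 1))
    (fun u hu => rt1_memJ.2 (h.rt1_bij.mapsTo hu)) h.rt1_bij.injOn (fun y hy => ?_)
    fun _ _ => rfl
  exact h.rt1_bij.surjOn (rt1_memJ.1 hy)

lemma Sit.rt1_L (h : Sit τ J J' L H) (g : H) {u : H} (hu : u ∈ rt1U J H) :
    g * u * g⁻¹ ∈ rt1U J H ∧
      L (((g * u * g⁻¹ : H).1 : M) - 1) = cj g.1 (L ((u.1 : M) - 1)) := by
  have h1 : (((g * u * g⁻¹ : H).1 : Mˣ) : M) - 1 = cj g.1 ((u.1 : M) - 1) := rt1_cj_unit g.1 u.1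
  have h2 := h.norm g.1 g.2 _ (rt1_memU.1 hu)
  refine ⟨rt1_memU.2 (h1 ▸ h2), ?_⟩
  rw [h1]
  exact h.om.conj _ _ (rt1_memU.1 hu) h2

/-- conjugation permutes the elements of `1 + J` -/
lemma Sit.rt1_conj (h : Sit τ J J' L H) (g : H) {N : Type} [AddCommMonoid N] (f : H → N) :
    ∑ u ∈ rt1U J H, f (g * u * g⁻¹) = ∑ u ∈ rt1U J H, f u := by
  refine Finset.sum_nbij' (fun u => g * u * g⁻¹) (fun u => g⁻¹ * u * g⁻¹⁻¹)
    (fun u hu => (h.rt1_L g hu).1) (fun u hu => (h.rt1_L g⁻¹ hu).1) (fun u _ => ?_)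
    (fun u _ => ?_) fun _ _ => rfl
  · group
  · group

lemma Sit.rt1_F (h : Sit τ J J' L H) {g : Mˣ} (hg : g ∈ H) (A y : M) :
    rt1F τ J (UU J') (cj g A) (cj g y) = rt1F τ J (UU J') A y := by
  unfold rt1F
  symm
  refine Finset.sum_nbij' (cj g) (cj g⁻¹) (fun B hB => ?_) (fun B hB => ?_) (fun B _ => ?_)
    (fun B _ => rt1_cj_inv g B) fun B _ => (rt1_tau_cj h.frob g B y).symm
  · exact rt1_memC.2 ((h.cj_cls hg).2 (rt1_memC.1 hB))
  · refine rt1_memC.2 ((h.cj_cls hg).1 ?_)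
    rw [rt1_cj_inv]
    exact rt1_memC.1 hB
  · rw [← cj_mul, inv_mul_cancel, cj_one]

lemma Sit.rt1_F' (h : Sit τ J J' L H) {g : Mˣ} (hg : g ∈ UU J') (A y : M) :
    rt1F τ J (UU J') A (cj g y) = rt1F τ J (UU J') A y := by
  rw [← h.rt1_F (h.sub hg) A y]
  have h1 : cj g A ∈ cls τ J (UU J') A := ⟨g, hg, by rw [sub_self]; exact zero_mem _⟩
  unfold rt1F
  rw [h.rt1_C h1]

lemma Sit.rt1_cnt (h : Sit τ J J' L H) (A B : M) :
    ∑ A' ∈ rt1C τ J (UU J') A, ∑ y ∈ rt1J J, τ ((B - A') * y) =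
      if B ∈ cls τ J (UU J') A then (Nat.card M : ℂ) else 0 := by
  simp only [rt1_tau]
  split_ifs with hB
  · rw [Finset.sum_subset (Finset.subset_univ _) fun A' _ hA' => if_neg fun hp =>
      hA' (rt1_memC.2 (rt1_coset hB (by rw [← neg_sub]; exact neg_mem hp)))]
    rw [← h.frob.card_perp J.toAddSubgroup]
    refine (Equiv.sum_comp (Equiv.subLeft B) fun P =>
      if P ∈ perp τ J.toAddSubgroup then (Nat.card J.toAddSubgroup : ℂ) else 0).trans ?_
    rw [← Finset.sum_filter, Finset.sum_const, nsmul_eq_mul, mul_comm, Nat.cast_mul]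
    congr 2
    rw [Nat.card_eq_fintype_card, Fintype.card_subtype]
  · exact Finset.sum_eq_zero fun A' hA' => if_neg fun hp => hB (rt1_coset (rt1_memC.1 hA') hp)

lemma Sit.rt1_conv (h : Sit τ J J' L H) (A B z : M) :
    ∑ y ∈ rt1J J, rt1F τ J (UU J') A y * rt1F τ J (UU J') B (z - y) =
      if B ∈ cls τ J (UU J') A then (Nat.card M : ℂ) * rt1F τ J (UU J') A z else 0 := by
  have h1 : ∑ y ∈ rt1J J, rt1F τ J (UU J') A y * rt1F τ J (UU J') B (z - y) =
      ∑ B' ∈ rt1C τ J (UU J') B, τ (-(B' * z)) *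
        ∑ A' ∈ rt1C τ J (UU J') A, ∑ y ∈ rt1J J, τ ((B' - A') * y) := by
    unfold rt1F
    simp only [Finset.mul_sum, Finset.sum_mul]
    rw [Finset.sum_comm]
    refine Finset.sum_congr rfl fun B' _ => ?_
    rw [Finset.sum_comm]
    refine Finset.sum_congr rfl fun A' _ => Finset.sum_congr rfl fun y _ => ?_
    rw [← AddChar.map_add_eq_mul, ← AddChar.map_add_eq_mul]
    congr 1
    noncomm_ring
  rw [h1]
  simp only [h.rt1_cnt]
  split_ifs with hB
  · unfold rt1F
    rw [h.rt1_C hB, Finset.mul_sum]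
    refine Finset.sum_congr rfl fun B' hB' => ?_
    rw [if_pos (rt1_memC.1 hB'), mul_comm]
  · refine Finset.sum_eq_zero fun B' hB' => ?_
    rw [if_neg, mul_zero]
    intro hc
    apply hB
    rw [← h.rt1_cls hc]
    exact h.rt1_symm (rt1_memC.1 hB')

theorem Sit.E_mul (h : Sit τ J J' L H) (ρ : Representation ℂ H V) (A B : M) :
    EE τ J J' L H ρ A * EE τ J J' L H ρ B =
      if B ∈ cls τ J (UU J') A then EE τ J J' L H ρ A else 0 := by
  obtain ⟨g, k, hk, hinj⟩ := h.om.kv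
  obtain ⟨w, hw⟩ : ∃ w : M → H, ∀ u ∈ rt1U J H, w (L ((u.1 : M) - 1)) = u :=
    ⟨_, fun u hu => h.rt1_bij.injOn.leftInvOn_invFunOn hu⟩
  have hΦ : Set.BijOn (fun z : M × M => (cj (g z.1 z.2) (L z.1), cj (k z.1 z.2) (L z.2)))
      ((J : Set M) ×ˢ (J : Set M)) ((J : Set M) ×ˢ (J : Set M)) := by
    refine ((Set.toFinite _).injOn_iff_bijOn_of_mapsTo fun z hz => ?_).1 hinj
    obtain ⟨a1, a2, -⟩ := hk z.1 hz.1 z.2 hz.2
    exact ⟨h.rt1_norm _ a1 _ (h.om.bij.mapsTo hz.1), h.rt1_norm _ a2 _ (h.om.bij.mapsTo hz.2)⟩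
  have hΨ := hΦ.comp (h.rt1_bij0.prodMap h.rt1_bij0)
  have h1 : ∑ u ∈ rt1U J H, ∑ v ∈ rt1U J H, (rt1F τ J (UU J') A (L ((u.1 : M) - 1)) *
      rt1F τ J (UU J') B (L ((v.1 : M) - 1))) • ρ (u * v) =
      ∑ y ∈ rt1J J, ∑ y' ∈ rt1J J,
        (rt1F τ J (UU J') A y * rt1F τ J (UU J') B y') • ρ (w (y + y')) := by
    rw [← Finset.sum_product', ← Finset.sum_product']
    refine Finset.sum_nbij _ (fun p hp => ?_) (by rw [Finset.coe_product]; exact hΨ.injOn)
      (fun q hq => ?_) fun p hp => ?_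
    · have := hΨ.mapsTo (Finset.mem_product.1 hp)
      exact Finset.mem_product.2 ⟨rt1_memJ.2 this.1, rt1_memJ.2 this.2⟩
    · rw [Finset.coe_product]
      have := Finset.mem_product.1 hq
      exact hΨ.surjOn ⟨rt1_memJ.1 this.1, rt1_memJ.1 this.2⟩
    · obtain ⟨p1, p2⟩ := Finset.mem_product.1 hp
      obtain ⟨a1, a2, a3⟩ := hk _ (rt1_memU.1 p1) _ (rt1_memU.1 p2)
      have a4 : (((p.1 * p.2 : H).1 : Mˣ) : M) - 1 = ((p.1.1 : M) - 1) + ((p.2.1 : M) - 1) +
          ((p.1.1 : M) - 1) * ((p.2.1 : M) - 1) := by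
        rw [Subgroup.coe_mul, Units.val_mul]
        noncomm_ring
      have a5 : p.1 * p.2 ∈ rt1U J H := by
        rw [rt1_memU, a4]
        exact add_mem (add_mem (rt1_memU.1 p1) (rt1_memU.1 p2))
          (mul_mem (rt1_memU.1 p1) (rt1_memU.1 p2))
      have a6 := hw _ a5
      rw [a4, a3] at a6
      simp only [Function.comp]
      rw [h.rt1_F' a1, h.rt1_F' a2, a6]
  have h2 : ∀ y ∈ rt1J J, ∑ y' ∈ rt1J J,
      (rt1F τ J (UU J') A y * rt1F τ J (UU J') B y') • ρ (w (y + y')) =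
      ∑ z ∈ rt1J J, (rt1F τ J (UU J') A y * rt1F τ J (UU J') B (z - y)) • ρ (w z) := by
    intro y hy
    refine Finset.sum_nbij' (fun y' => y + y') (fun z => z - y) (fun a ha => ?_) (fun a ha => ?_)
      (fun a _ => add_sub_cancel_left y a) (fun a _ => add_sub_cancel y a) fun a _ => ?_
    · exact rt1_memJ.2 (add_mem (rt1_memJ.1 hy) (rt1_memJ.1 ha))
    · exact rt1_memJ.2 (sub_mem (rt1_memJ.1 ha) (rt1_memJ.1 hy))
    · rw [add_sub_cancel_left]
  have h3 : ∑ u ∈ rt1U J H, rt1F τ J (UU J') A (L ((u.1 : M) - 1)) • ρ u =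
      ∑ z ∈ rt1J J, rt1F τ J (UU J') A z • ρ (w z) := by
    rw [← h.rt1_re fun z => rt1F τ J (UU J') A z • ρ (w z)]
    exact Finset.sum_congr rfl fun u hu => by rw [hw u hu]
  rw [rt1_EE, rt1_EE, smul_mul_smul_comm, Finset.sum_mul_sum]
  simp only [smul_mul_smul_comm, ← map_mul]
  rw [h1, Finset.sum_congr rfl h2, Finset.sum_comm]
  simp only [← Finset.sum_smul, h.rt1_conv]
  split_ifs with hB
  · simp only [mul_smul]
    rw [← Finset.smul_sum, inv_smul_smul₀ rt1_N, h3]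
  · simp only [zero_smul, Finset.sum_const_zero, smul_zero]

theorem Sit.E_congr (h : Sit τ J J' L H) (ρ : Representation ℂ H V) {A B : M}
    (hB : B ∈ cls τ J (UU J') A) : EE τ J J' L H ρ B = EE τ J J' L H ρ A := by
  unfold EE
  rw [h.rt1_cls hB]

theorem Sit.E_conj (h : Sit τ J J' L H) (ρ : Representation ℂ H V) (g : H) (A : M) :
    ρ g * EE τ J J' L H ρ A = EE τ J J' L H ρ (cj g.1 A) * ρ g := by
  rw [rt1_EE, rt1_EE, mul_smul_comm, smul_mul_assoc, Finset.mul_sum, Finset.sum_mul,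
    ← h.rt1_conj g fun u => (rt1F τ J (UU J') (cj g.1 A) (L ((u.1 : M) - 1)) • ρ u) * ρ g]
  congr 1
  refine Finset.sum_congr rfl fun u hu => ?_
  rw [(h.rt1_L g hu).2, h.rt1_F g.2, mul_smul_comm, smul_mul_assoc, ← map_mul, ← map_mul,
    inv_mul_cancel_right]

lemma Sit.rt1_comb (h : Sit τ J J' L H) (ρ : Representation ℂ H V) (φ : M → ℂ)
    (hφ : ∀ A B, B ∈ cls τ J (UU J') A → φ B = φ A) :
    ∑ A : M, (φ A * ((cls τ J (UU J') A).ncard : ℂ)⁻¹) • EE τ J J' L H ρ A =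
      (Nat.card M : ℂ)⁻¹ •
        ∑ u ∈ rt1U J H, (∑ B : M, φ B * τ (-(B * L ((u.1 : M) - 1)))) • ρ u := by
  have h1 : ∀ y : M, ∑ A : M, (φ A * ((cls τ J (UU J') A).ncard : ℂ)⁻¹) * rt1F τ J (UU J') A y =
      ∑ B : M, φ B * τ (-(B * y)) := by
    intro y
    unfold rt1F
    simp only [Finset.mul_sum]
    rw [Finset.sum_comm' (t' := Finset.univ) (s' := fun B => rt1C τ J (UU J') B) fun A B => by
      simp only [Finset.mem_univ, true_and, and_true, rt1_memC]
      exact ⟨h.rt1_symm, h.rt1_symm⟩]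
    refine Finset.sum_congr rfl fun B _ => ?_
    rw [Finset.sum_congr rfl fun A hA => by
      rw [hφ B A (rt1_memC.1 hA), h.rt1_cls (rt1_memC.1 hA)]]
    rw [Finset.sum_const, nsmul_eq_mul, ← rt1_cardC]
    have := rt1_card_ne (τ := τ) (J := J) (UU J') B
    field_simp
  simp only [rt1_EE, ← h1, Finset.sum_smul, Finset.smul_sum]
  rw [Finset.sum_comm]
  refine Finset.sum_congr rfl fun u _ => Finset.sum_congr rfl fun A _ => ?_
  rw [smul_comm, mul_smul (φ A * _)]

lemma Sit.rt1_all (h : Sit τ J J' L H) {u v : H} (hu : u ∈ rt1U J H) (hv : v ∈ rt1U J H) :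
    ∑ A : M, τ (A * (L ((u.1 : M) - 1) - L ((v.1 : M) - 1))) =
      if v = u then (Nat.card M : ℂ) else 0 := by
  rw [h.frob.sum_all]
  refine if_congr ⟨fun e => h.rt1_bij.injOn hv hu (sub_eq_zero.1 e).symm, fun e => ?_⟩ rfl rfl
  rw [e, sub_self]

lemma rt1_one : (1 : H) ∈ rt1U J H := by
  rw [rt1_memU, Subgroup.coe_one, Units.val_one, sub_self]
  exact zero_mem _

theorem Sit.E_sum (h : Sit τ J J' L H) (ρ : Representation ℂ H V) :
    ∑ A : M, (((cls τ J (UU J') A).ncard : ℂ))⁻¹ • EE τ J J' L H ρ A = 1 := by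
  have h1 := h.rt1_comb ρ (fun _ => 1) fun _ _ _ => rfl
  simp only [one_mul] at h1
  rw [h1]
  have h2 : ∀ u ∈ rt1U J H, (∑ B : M, τ (-(B * L ((u.1 : M) - 1)))) • ρ u =
      if u = 1 then (Nat.card M : ℂ) • ρ u else 0 := by
    intro u hu
    have h3 := h.rt1_all rt1_one hu
    rw [Subgroup.coe_one, Units.val_one, sub_self, h.om.zero, zero_sub] at h3
    simp only [mul_neg] at h3
    rw [h3, ite_smul, zero_smul]
  rw [Finset.sum_congr rfl h2, Finset.sum_ite_eq', if_pos rt1_one, inv_smul_smul₀ rt1_N, map_one]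

lemma Sit.rt1_fc_inv (h : Sit τ J J' L H) {K : Subgroup Mˣ} (hK : K ≤ H) {χ : H → ℂ}
    (hχ : ∀ g u : H, g.1 ∈ K → χ (g * u * g⁻¹) = χ u) {A B : M} (hB : B ∈ cls τ J K A) :
    fc τ J L H χ B = fc τ J L H χ A := by
  obtain ⟨g, hg, hp⟩ := hB
  rw [rt1_fc, rt1_fc, ← h.rt1_conj ⟨g, hK hg⟩ fun u => χ u * τ (-(B * L ((u.1 : M) - 1)))]
  refine Finset.sum_congr rfl fun u hu => ?_
  rw [(h.rt1_L ⟨g, hK hg⟩ hu).2, hχ _ _ hg, ← rt1_tau_cj h.frob g A]
  congr 1
  have h1 : cj g (L ((u.1 : M) - 1)) ∈ J := h.norm g (hK hg) _ (h.rt1_bij.mapsTo hu)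
  have h2 := hp _ (neg_mem h1)
  rw [← mul_one (τ (-(cj g A * _))), ← h2, ← AddChar.map_add_eq_mul]
  congr 1
  noncomm_ring

theorem Sit.trace_E (h : Sit τ J J' L H) [FiniteDimensional ℂ V] (ρ : Representation ℂ H V)
    (A : M) : (Nat.card M : ℂ) * LinearMap.trace ℂ V (EE τ J J' L H ρ A) =
      ((cls τ J (UU J') A).ncard : ℂ) * fc τ J L H ρ.character A := by
  rw [rt1_EE, map_smul, smul_eq_mul, mul_inv_cancel_left₀ rt1_N, map_sum, rt1_cardC,
    ← nsmul_eq_mul, ← Finset.sum_const, ← Finset.sum_congr rfl fun B hB =>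
      h.rt1_fc_inv h.sub (fun g u _ => ρ.char_conj u g) (rt1_memC.1 hB)]
  simp only [rt1_fc]
  rw [Finset.sum_comm]
  refine Finset.sum_congr rfl fun u _ => ?_
  rw [map_smul, smul_eq_mul, ← Finset.mul_sum, mul_comm]
  rfl

lemma Sit.rt1_idem (h : Sit τ J J' L H) (ρ : Representation ℂ H V) (A : M) :
    IsIdempotentElem (EE τ J J' L H ρ A) := by
  have := h.E_mul ρ A A
  rwa [if_pos (self_mem_cls _ _ _)] at this

theorem Sit.E_ne_zero (h : Sit τ J J' L H) [FiniteDimensional ℂ V] (ρ : Representation ℂ H V)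
    (A : M) : EE τ J J' L H ρ A ≠ 0 ↔ A ∈ Sup τ J L H ρ.character := by
  have h1 := h.trace_E ρ A
  refine not_congr ?_
  rw [← LinearMap.IsIdempotentElem.trace_eq_zero_iff (h.rt1_idem ρ A)]
  constructor
  · intro e
    rw [e, mul_zero] at h1
    exact (mul_eq_zero.1 h1.symm).resolve_left (rt1_card_ne _ _)
  · intro e
    rw [e, mul_zero] at h1
    exact (mul_eq_zero.1 h1).resolve_left rt1_N

theorem Sit.E_eq_one (h : Sit τ J J' L H) [FiniteDimensional ℂ V] (ρ : Representation ℂ H V)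
    {A : M} (hA : Sup τ J L H ρ.character ⊆ cls τ J (UU J') A) : EE τ J J' L H ρ A = 1 := by
  rw [← mul_one (EE τ J J' L H ρ A), ← h.E_sum ρ, Finset.mul_sum]
  refine Finset.sum_congr rfl fun B _ => ?_
  rw [mul_smul_comm]
  congr 1
  by_cases hB : EE τ J J' L H ρ B = 0
  · rw [hB, mul_zero]
  · have h1 := hA ((h.E_ne_zero ρ B).1 hB)
    rw [h.E_mul, if_pos h1, h.E_congr ρ h1]

lemma Sit.rt1_inv (h : Sit τ J J' L H) (χ : H → ℂ) {u : H} (hu : u ∈ rt1U J H) :
    (Nat.card M : ℂ) * χ u = ∑ A : M, fc τ J L H χ A * τ (A * L ((u.1 : M) - 1)) := by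
  simp only [rt1_fc, Finset.sum_mul]
  rw [Finset.sum_comm]
  have h1 : ∀ v ∈ rt1U J H,
      ∑ A : M, χ v * τ (-(A * L ((v.1 : M) - 1))) * τ (A * L ((u.1 : M) - 1)) =
        if v = u then (Nat.card M : ℂ) * χ v else 0 := by
    intro v hv
    rw [← zero_mul (χ v), ← ite_mul, ← h.rt1_all hu hv, Finset.sum_mul]
    refine Finset.sum_congr rfl fun A _ => ?_
    rw [mul_assoc, ← AddChar.map_add_eq_mul, mul_comm, mul_sub, neg_add_eq_sub]
  rw [Finset.sum_congr rfl h1, Finset.sum_ite_eq', if_pos hu]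

/-- invariant functions act on a block by a scalar -/
theorem Sit.center (h : Sit τ J J' L H) (β : H → ℂ)
    (hβ : ∀ g u : H, g.1 ∈ UU J' → β (g * u * g⁻¹) = β u) (A : M) :
    ∃ c : ℂ, ∀ {V : Type} [AddCommGroup V] [Module ℂ V] (ρ : Representation ℂ H V),
      (∑ u : H, if u.1 ∈ UU J then β u • ρ u else 0) * EE τ J J' L H ρ A
        = c • EE τ J J' L H ρ A := by
  refine ⟨∑ B : M, if A ∈ cls τ J (UU J') B then
    fc τ J L H β (-B) * ((cls τ J (UU J') B).ncard : ℂ)⁻¹ else 0, fun ρ => ?_⟩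
  have h1 := h.rt1_comb ρ (fun B => fc τ J L H β (-B))
    fun _ _ hB => h.rt1_fc_inv h.sub hβ (rt1_neg hB)
  have h2 : ∀ u ∈ rt1U J H, (∑ B : M, fc τ J L H β (-B) * τ (-(B * L ((u.1 : M) - 1)))) • ρ u =
      (Nat.card M : ℂ) • β u • ρ u := by
    intro u hu
    rw [← mul_smul, h.rt1_inv β hu, ← Equiv.sum_comp (Equiv.neg M)
      fun A => fc τ J L H β A * τ (A * L ((u.1 : M) - 1))]
    simp only [Equiv.neg_apply, neg_mul]
  rw [Finset.sum_congr rfl h2, ← Finset.smul_sum, inv_smul_smul₀ rt1_N] at h1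
  rw [← Finset.sum_filter]
  refine (congrArg (· * EE τ J J' L H ρ A) h1.symm).trans ?_
  simp only [Finset.sum_mul, Finset.sum_smul]
  refine Finset.sum_congr rfl fun B _ => ?_
  rw [smul_mul_assoc, h.E_mul]
  split_ifs with hB
  · rw [h.E_congr ρ hB]
  · rw [smul_zero, zero_smul]

/-- Fourier inversion -/
theorem Sit.inversion (h : Sit τ J J' L H) (χ : H → ℂ) (u : H) (hu : u.1 ∈ UU J) :
    (Nat.card M : ℂ) * χ u = ∑ A : M, fc τ J L H χ A * τ (A * L ((u.1 : M) - 1)) :=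
  h.rt1_inv χ (rt1_memU.2 hu)

theorem Sit.sup_nonempty (h : Sit τ J J' L H) {χ : H → ℂ} (hχ : χ ∈ Irr H) :
    (Sup τ J L H χ).Nonempty := by
  obtain ⟨d, hd, h1⟩ := Pool.Agent.MP_810665_al.irr_one (mem_Irr.1 hχ)
  by_contra hn
  have h2 := h.rt1_inv χ rt1_one
  rw [Finset.sum_eq_zero fun A _ => by
    rw [show fc τ J L H χ A = 0 from by_contra fun e => hn ⟨A, e⟩, zero_mul], h1] at h2
  exact mul_ne_zero rt1_N (by exact_mod_cast hd.ne') h2

theorem Sit.sup_stable (h : Sit τ J J' L H) {χ : H → ℂ} (hχ : χ ∈ Irr H) {A : M}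
    (hA : A ∈ Sup τ J L H χ) : cls τ J H A ⊆ Sup τ J L H χ := by
  intro B hB
  show fc τ J L H χ B ≠ 0
  rw [h.rt1_fc_inv le_rfl
    (fun g u _ => Pool.Agent.MP_810665_al.irr_conj (mem_Irr.1 hχ) u g) hB]
  exact hA

open ComplexOrder in
lemma Sit.rt1_nonneg (h : Sit τ J J' L H) {χ : H → ℂ} (hχ : χ ∈ Irr H) (A : M) :
    0 ≤ fc τ J L H χ A := by
  obtain ⟨V, _, _, _, ρ, -, rfl⟩ := mem_Irr.1 hχ
  have h1 := h.trace_E ρ A
  rw [(LinearMap.IsIdempotentElem.isProj_range _ (h.rt1_idem ρ A)).trace] at h1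
  rw [← inv_mul_cancel_left₀ (rt1_card_ne (τ := τ) (J := J) (UU J') A)
    (fc τ J L H ρ.character A), ← h1]
  exact mul_nonneg (inv_nonneg.2 (Nat.cast_nonneg _))
    (mul_nonneg (Nat.cast_nonneg _) (Nat.cast_nonneg _))

open ComplexOrder in
theorem Sit.sup_mono (h : Sit τ J J' L H) {J₀ J₀' : NonUnitalSubring M} (h₀ : Sit τ J₀ J₀' L H)
    (hle : J₀ ≤ J) {χ : H → ℂ} (hχ : χ ∈ Irr H) : Sup τ J L H χ ⊆ Sup τ J₀ L H χ := by
  intro A hA e
  have h1 : (Nat.card M : ℂ) * fc τ J₀ L H χ A = ∑ B : M, fc τ J L H χ B *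
      if B - A ∈ perp τ J₀.toAddSubgroup then (Nat.card J₀.toAddSubgroup : ℂ) else 0 := by
    have h2 : ∀ B : M, (if B - A ∈ perp τ J₀.toAddSubgroup then
        (Nat.card J₀.toAddSubgroup : ℂ) else 0) =
        ∑ u ∈ rt1U J₀ H, τ ((B - A) * L ((u.1 : M) - 1)) := fun B => by
      rw [h₀.rt1_re fun y => τ ((B - A) * y), rt1_tau]
    simp only [h2, Finset.mul_sum]
    rw [Finset.sum_comm, rt1_fc, Finset.mul_sum]
    refine Finset.sum_congr rfl fun u hu => ?_
    rw [← mul_assoc, h.rt1_inv χ (rt1_memU.2 (hle (rt1_memU.1 hu))), Finset.sum_mul]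
    refine Finset.sum_congr rfl fun B _ => ?_
    rw [mul_assoc, ← AddChar.map_add_eq_mul, sub_mul, sub_eq_add_neg (B * _)]
  rw [e, mul_zero] at h1
  have h3 := (Finset.sum_eq_zero_iff_of_nonneg fun B _ => mul_nonneg (h.rt1_nonneg hχ B) (by
    split_ifs
    · exact Nat.cast_nonneg _
    · exact le_rfl)).1 h1.symm A (Finset.mem_univ A)
  rw [sub_self, if_pos (zero_mem _)] at h3
  refine mul_ne_zero hA ?_ h3
  exact_mod_cast (Nat.card_pos (α := J₀.toAddSubgroup)).ne'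

end Pool.Agent.MP_8299d6_al.Up

end
end

section

open Matrix

noncomputable section

namespace Pool.Agent.MP_8299d6_al.Up

open Pool.Agent.MP_810665_al (IrrChar)

section abstract
open Pool.Agent.MP_810665_al

variable {G S V : Type} [Group G] [Fintype G] [Group S] [Finite S] [AddCommGroup V] [Module ℂ V]
  [FiniteDimensional ℂ V]

/-- the induced class function -/
def rt2_ind (ι : S →* G) (ψ : S → ℂ) (g : G) : ℂ :=
  (Nat.card S : ℂ)⁻¹ * ∑ t : G, Function.extend ι ψ 0 (t⁻¹ * g * t)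

omit [Finite S] in
lemma rt2_ind_one (ι : S →* G) (hι : Function.Injective ι) (ψ : S → ℂ) :
    ‖rt2_ind ι ψ 1‖ = (Nat.card G : ℝ) / Nat.card S * ‖ψ 1‖ := by
  have h1 : Function.extend ι ψ 0 (1 : G) = ψ 1 := by
    rw [← map_one ι, hι.extend_apply]
  simp only [rt2_ind, mul_one, inv_mul_cancel, h1, Finset.sum_const, Finset.card_univ,
    nsmul_eq_mul, norm_mul, norm_inv, Complex.norm_natCast, Nat.card_eq_fintype_card (α := G)]
  ring

lemma rt2_avg (ι : S →* G) (hι : Function.Injective ι) {ρ : Representation ℂ G V}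
    (hρ : ρ.IsIrreducible) {E : Module.End ℂ V} (hE : E ≠ 0) (hEE : E * E = E)
    (h1 : ∀ s, ρ (ι s) * E = E * ρ (ι s)) (h2 : ∀ g ∉ Set.range ι, E * ρ g * E = 0) :
    ∑ t : G, ρ t * E * ρ t⁻¹ = (Nat.card S : ℂ) • (1 : Module.End ℂ V) := by
  obtain ⟨c, hc⟩ := schur hρ (∑ t : G, ρ t * E * ρ t⁻¹) (fun g v => by
    rw [← Module.End.mul_apply, ← Module.End.mul_apply, Finset.sum_mul, Finset.mul_sum]
    congr 1
    refine (Fintype.sum_equiv (Equiv.mulLeft g) _ _ (fun t => ?_)).symm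
    simp only [Equiv.coe_mulLeft, _root_.mul_inv_rev, map_mul, mul_assoc]
    rw [← map_mul ρ g⁻¹ g, inv_mul_cancel, map_one, mul_one])
  have h3 : ∑ t : G, ρ t * E * ρ t⁻¹ = c • (1 : Module.End ℂ V) := LinearMap.ext hc
  have := Fintype.ofFinite S
  have h4 : ∑ _s : S, E = ∑ t : G, E * (ρ t * E * ρ t⁻¹) := by
    refine Fintype.sum_of_injective ι hι _ _ (fun g hg => ?_) (fun s => ?_)
    · rw [← mul_assoc, ← mul_assoc, h2 g hg, zero_mul]
    · rw [h1, mul_assoc E, ← map_mul, mul_inv_cancel, map_one, mul_one, hEE]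
  rw [← Finset.mul_sum, h3, mul_smul_comm, mul_one, Finset.sum_const, Finset.card_univ,
    ← Nat.cast_smul_eq_nsmul ℂ, ← Nat.card_eq_fintype_card] at h4
  rw [h3, smul_left_injective ℂ hE h4]

lemma rt2_cliff (ι : S →* G) (hι : Function.Injective ι) {ρ : Representation ℂ G V}
    (hρ : ρ.IsIrreducible) {E : Module.End ℂ V} (hE : E ≠ 0) (hEE : E * E = E)
    (h1 : ∀ s, ρ (ι s) * E = E * ρ (ι s)) (h2 : ∀ g ∉ Set.range ι, E * ρ g * E = 0) :
    ∃ σ : Representation ℂ S (LinearMap.range E), σ.IsIrreducible ∧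
      (∀ s w, (σ s w : V) = ρ (ι s) w) ∧ ρ.character = rt2_ind ι σ.character := by
  have hfix : ∀ w : LinearMap.range E, E w = w := by
    rintro ⟨_, v, rfl⟩
    exact LinearMap.congr_fun hEE v
  have hc : ∀ s v, ρ (ι s) (E v) = E (ρ (ι s) v) := fun s v => LinearMap.congr_fun (h1 s) v
  let W : Subrepresentation (ρ.comp ι : Representation ℂ S V) := ⟨LinearMap.range E, by
    rintro s _ ⟨v, rfl⟩
    exact ⟨_, (hc s v).symm⟩⟩
  let σ : Representation ℂ S (LinearMap.range E) := W.toRepresentation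
  have hσ : ∀ s w, (σ s w : V) = ρ (ι s) w := fun _ _ => rfl
  refine ⟨σ, (irreducible_iff _).2 ⟨?_, fun T hT => ?_⟩, hσ, ?_⟩
  · obtain ⟨v, hv⟩ : ∃ v, E v ≠ 0 := by
      by_contra hn
      push Not at hn
      exact hE (LinearMap.ext hn)
    exact ⟨⟨E v, v, rfl⟩, fun h => hv (congrArg Subtype.val h)⟩
  · let U : Submodule ℂ V := ⨅ g : G, T.comap (E.rangeRestrict ∘ₗ ρ g)
    have mU : ∀ v, v ∈ U ↔ ∀ g, E.rangeRestrict (ρ g v) ∈ T := fun v => by
      simp only [U, Submodule.mem_iInf, Submodule.mem_comap, LinearMap.comp_apply]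
    rcases ((irreducible_iff ρ).1 hρ).2 U (fun g v hv => (mU _).2 fun g' => by
      rw [← Module.End.mul_apply, ← map_mul]
      exact (mU v).1 hv _) with h | h
    · left
      rw [eq_bot_iff]
      intro w hw
      have : w.1 ∈ U := (mU _).2 fun g => by
        by_cases hg : g ∈ Set.range ι
        · obtain ⟨s, rfl⟩ := hg
          have e : E.rangeRestrict (ρ (ι s) w) = σ s w := by
            apply Subtype.ext
            rw [hσ]
            show E (ρ (ι s) w) = _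
            rw [← hc, hfix]
          rw [e]
          exact hT s w hw
        · have e : E.rangeRestrict (ρ g w) = 0 := by
            apply Subtype.ext
            show E (ρ g w) = 0
            rw [← hfix w]
            exact LinearMap.congr_fun (h2 g hg) w
          rw [e]
          exact T.zero_mem
      rw [h] at this
      simpa using this
    · right
      rw [eq_top_iff]
      intro w _
      have := (mU w.1).1 (h ▸ Submodule.mem_top) 1
      have e : E.rangeRestrict (ρ 1 w) = w := by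
        apply Subtype.ext
        show E (ρ 1 w) = w
        rw [map_one, Module.End.one_apply, hfix]
      rwa [e] at this
  · have tr : ∀ g, Function.extend ι σ.character 0 g = LinearMap.trace ℂ V (ρ g * E) := by
      intro g
      by_cases hg : g ∈ Set.range ι
      · obtain ⟨s, rfl⟩ := hg
        rw [hι.extend_apply, ← LinearMap.trace_restrict_eq_of_forall_mem (LinearMap.range E)
          (ρ (ι s) * E) (fun x => ⟨_, (hc s x).symm⟩), Representation.character]
        congr 1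
        ext w
        rw [hσ]
        show _ = ρ (ι s) (E w)
        rw [hfix]
      · rw [Function.extend_apply' _ _ _ hg, ← hEE, ← mul_assoc, LinearMap.trace_mul_comm,
          ← mul_assoc, h2 g hg, map_zero, Pi.zero_apply]
    funext g
    have hS : (Nat.card S : ℂ) ≠ 0 := by exact_mod_cast (Nat.card_pos (α := S)).ne'
    have h3 := congrArg (fun X => LinearMap.trace ℂ V (ρ g * X)) (rt2_avg ι hι hρ hE hEE h1 h2)
    simp only [Finset.mul_sum, map_sum, mul_smul_comm, mul_one, map_smul, smul_eq_mul] at h3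
    rw [rt2_ind, eq_inv_mul_iff_mul_eq₀ hS, Representation.character, ← h3]
    refine Finset.sum_congr rfl fun t _ => ?_
    rw [tr, ← mul_assoc, LinearMap.trace_mul_comm, map_mul ρ, map_mul ρ]
    simp only [mul_assoc]

end abstract

open Classical in
lemma rt2_part {X : Type} [Fintype X] (c : X → Set X) (h0 : ∀ A, A ∈ c A)
    (h1 : ∀ A B, B ∈ c A → c B = c A) (A₀ : X) :
    ∑ A : X, (if A ∈ c A₀ then ((c A).ncard : ℝ)⁻¹ else 0) = 1 := by
  have hp : 0 < (c A₀).ncard := (Set.ncard_pos (Set.toFinite _)).2 ⟨_, h0 A₀⟩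
  have e : ∀ A : X, (if A ∈ c A₀ then ((c A).ncard : ℝ)⁻¹ else 0) =
      if A ∈ c A₀ then ((c A₀).ncard : ℝ)⁻¹ else 0 := fun A => by
    split_ifs with h
    · rw [h1 _ _ h]
    · rfl
  have e2 : (Finset.univ.filter (· ∈ c A₀)).card = (c A₀).ncard := by
    rw [← Set.ncard_coe_finset]
    simp
  simp_rw [e]
  rw [← Finset.sum_filter, Finset.sum_const, e2, nsmul_eq_mul, mul_inv_cancel₀]
  exact_mod_cast hp.ne'

variable {M : Type} [Ring M] [Fintype M] {τ : AddChar M ℂ} {J J' : NonUnitalSubring M}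
  {L : M → M} {H : Subgroup Mˣ}

lemma rt2_norm (h : Sit τ J J' L H) : Norm (UU J') J := fun g hg => h.norm g (h.sub hg)

lemma rt2_symm (h : Sit τ J J' L H) {A B : M} (hB : B ∈ cls τ J (UU J') A) :
    A ∈ cls τ J (UU J') B := by
  rw [h.frob.cls_eq (rt2_norm h) hB]
  exact self_mem_cls _ _ _

lemma rt2_sit (h : Sit τ J J' L H) (A : M) {H₁ : Subgroup Mˣ}
    (h1 : ∀ g, g ∈ H₁ ↔ g ∈ H ∧ cj g A ∈ cls τ J (UU J') A) : Sit τ J J' L H₁ := by
  obtain ⟨H₂, h2, h3⟩ := h.exists_stab A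
  rwa [show H₁ = H₂ from Subgroup.ext fun g => (h1 g).trans (h2 g).symm]

lemma rt2_EE {H₁ : Subgroup Mˣ} (h : Sit τ J J' L H₁) (hle : H₁ ≤ H) {V : Type} [AddCommGroup V]
    [Module ℂ V] (ρ : Representation ℂ H V) {W : Submodule ℂ V} (σ : Representation ℂ H₁ W)
    (hσ : ∀ s w, (σ s w : V) = ρ (Subgroup.inclusion hle s) w) (B : M) (w : W) :
    (EE τ J J' L H₁ σ B w : V) = EE τ J J' L H ρ B w := by
  classical
  simp only [EE, LinearMap.smul_apply, LinearMap.sum_apply, Submodule.coe_smul, Submodule.coe_sum]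
  congr 1
  refine Finset.sum_congr rfl fun B' _ => ?_
  refine Fintype.sum_of_injective _ (Subgroup.inclusion_injective hle) _ _ (fun u hu => ?_)
    (fun u => ?_)
  · rw [if_neg, LinearMap.zero_apply]
    exact fun hc => hu ⟨⟨u.1, h.sub (h.le hc.2)⟩, rfl⟩
  · simp only [Subgroup.coe_inclusion]
    split_ifs
    · simp only [LinearMap.smul_apply, Submodule.coe_smul, hσ]
    · simp

lemma rt2_key (h : Sit τ J J' L H) (A : M) {H₁ : Subgroup Mˣ}
    (h1 : ∀ g, g ∈ H₁ ↔ g ∈ H ∧ cj g A ∈ cls τ J (UU J') A) [Fintype H] {χ : H → ℂ}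
    (hχ : χ ∈ Irr H) (hA : A ∈ Sup τ J L H χ) : ∃ ψ ∈ Irr H₁,
      Sup τ J L H₁ ψ ⊆ cls τ J (UU J') A ∧
        rt2_ind (Subgroup.inclusion fun g hg => ((h1 g).1 hg).1) ψ = χ := by
  obtain ⟨V, _, _, _, ρ, hρ, rfl⟩ := mem_Irr.1 hχ
  have hle : H₁ ≤ H := fun g hg => ((h1 g).1 hg).1
  have hEE : EE τ J J' L H ρ A * EE τ J J' L H ρ A = EE τ J J' L H ρ A := by
    rw [h.E_mul, if_pos (self_mem_cls _ _ _)]
  obtain ⟨σ, hσ, hσ', hc⟩ := rt2_cliff (Subgroup.inclusion hle) (Subgroup.inclusion_injective hle)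
    hρ ((h.E_ne_zero ρ A).2 hA) hEE
    (fun s => by
      rw [h.E_conj, h.E_congr ρ (A := A)]
      exact ((h1 s.1).1 s.2).2)
    (fun g hg => by
      rw [mul_assoc, h.E_conj, ← mul_assoc, h.E_mul, if_neg, zero_mul]
      exact fun hc => hg ⟨⟨g.1, (h1 g.1).2 ⟨g.2, hc⟩⟩, rfl⟩)
  refine ⟨σ.character, mem_Irr.2 ⟨_, _, _, inferInstance, σ, hσ, rfl⟩, fun B hB => ?_, hc.symm⟩
  have hs := rt2_sit h A h1
  by_contra hn
  refine (hs.E_ne_zero σ B).2 hB (LinearMap.ext ?_)
  rintro ⟨_, v, rfl⟩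
  apply Subtype.ext
  rw [rt2_EE hs hle ρ σ hσ']
  show (EE τ J J' L H ρ B * EE τ J J' L H ρ A) v = 0
  rw [h.E_mul, if_neg fun hc => hn (rt2_symm h hc), LinearMap.zero_apply]

/-- Clifford reduction to the stabiliser of a class -/
theorem Sit.clifford (h : Sit τ J J' L H) (A : M) {H₁ : Subgroup Mˣ}
    (h1 : ∀ g, g ∈ H₁ ↔ g ∈ H ∧ cj g A ∈ cls τ J (UU J') A) {s : ℝ} (hs : 0 ≤ s) :
    Zs H (fun χ => A ∈ Sup τ J L H χ) s ≤ ((Nat.card H : ℝ) / Nat.card H₁) ^ (-s) *
      Zs H₁ (fun χ => Sup τ J L H₁ χ ⊆ cls τ J (UU J') A) s := by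
  classical
  have _ := hs
  have hle : H₁ ≤ H := fun g hg => ((h1 g).1 hg).1
  unfold Zs
  refine le_trans (Finset.sum_le_sum_of_subset_of_nonneg
    (t := ((Irr H₁).filter fun χ => Sup τ J L H₁ χ ⊆ cls τ J (UU J') A).image
      (rt2_ind (Subgroup.inclusion hle))) (fun χ hχ => ?_) (fun _ _ _ => by positivity)) ?_
  · rw [Finset.mem_filter] at hχ
    obtain ⟨ψ, a1, a2, a3⟩ := rt2_key h A h1 hχ.1 hχ.2
    exact Finset.mem_image.2 ⟨ψ, Finset.mem_filter.2 ⟨a1, a2⟩, a3⟩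
  · refine (Finset.sum_image_le_of_nonneg fun _ _ => by positivity).trans (le_of_eq ?_)
    rw [Finset.mul_sum]
    refine Finset.sum_congr rfl fun ψ _ => ?_
    rw [rt2_ind_one _ (Subgroup.inclusion_injective hle),
      Real.mul_rpow (by positivity) (norm_nonneg _)]

/-- summation of the Clifford reduction over an invariant set -/
theorem Sit.step (h : Sit τ J J' L H) (T : Set M) (hT : ∀ A ∈ T, cls τ J (UU J') A ⊆ T)
    (f : M → ℝ) (hf : ∀ A, 0 ≤ f A) {s : ℝ} (hs : 0 ≤ s)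
    (hb : ∀ A ∈ T, ∀ H₁ : Subgroup Mˣ, (∀ g, g ∈ H₁ ↔ g ∈ H ∧ cj g A ∈ cls τ J (UU J') A) →
      Zs H₁ (fun χ => Sup τ J L H₁ χ ⊆ cls τ J (UU J') A) s ≤
        (Nat.card H₁ : ℝ) ^ (-1 - s) * sumOn (cls τ J (UU J') A) f) :
    Zs H (fun χ => Sup τ J L H χ ⊆ T) s ≤ (Nat.card H : ℝ) ^ (-1 - s) * sumOn T f := by
  classical
  have hH : (0 : ℝ) < Nat.card H := by exact_mod_cast Nat.card_pos
  have s1 : Zs H (fun χ => Sup τ J L H χ ⊆ T) s ≤ ∑ A : M, if A ∈ T then
      ((cls τ J H A).ncard : ℝ)⁻¹ * Zs H (fun χ => A ∈ Sup τ J L H χ) s else 0 := by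
    have e : ∀ A : M, (if A ∈ T then
        ((cls τ J H A).ncard : ℝ)⁻¹ * Zs H (fun χ => A ∈ Sup τ J L H χ) s else 0) =
        ∑ χ ∈ Irr H, (if A ∈ T ∧ A ∈ Sup τ J L H χ then ((cls τ J H A).ncard : ℝ)⁻¹ else 0) *
          ‖χ 1‖ ^ (-s) := fun A => by
      by_cases hA : A ∈ T
      · simp only [hA, if_true, true_and, Zs, Finset.sum_filter, Finset.mul_sum, mul_ite, ite_mul,
          mul_zero, zero_mul]
      · simp [hA]
    simp_rw [e]
    rw [Finset.sum_comm, Zs, Finset.sum_filter]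
    refine Finset.sum_le_sum fun χ hχ => ?_
    rw [← Finset.sum_mul]
    split_ifs with hc
    · refine le_mul_of_one_le_left (by positivity) ?_
      obtain ⟨A₀, hA₀⟩ := h.sup_nonempty hχ
      rw [← rt2_part (cls τ J H) (self_mem_cls J H) (fun _ _ => h.frob.cls_eq h.norm) A₀]
      refine Finset.sum_le_sum fun A _ => ?_
      by_cases hA : A ∈ cls τ J H A₀
      · have := h.sup_stable hχ hA₀ hA
        rw [if_pos hA, if_pos ⟨hc this, this⟩]
      · rw [if_neg hA]
        positivity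
    · positivity
  have s2 : ∀ A ∈ T, ((cls τ J H A).ncard : ℝ)⁻¹ * Zs H (fun χ => A ∈ Sup τ J L H χ) s ≤
      (Nat.card H : ℝ) ^ (-1 - s) *
        (((cls τ J (UU J') A).ncard : ℝ)⁻¹ * sumOn (cls τ J (UU J') A) f) := fun A hA => by
    obtain ⟨H₁, h1, -⟩ := h.exists_stab A
    have hH1 : (0 : ℝ) < Nat.card H₁ := by exact_mod_cast Nat.card_pos
    have c1 : ((cls τ J H A).ncard : ℝ) * Nat.card H₁ = Nat.card H * (cls τ J (UU J') A).ncard := by
      exact_mod_cast h.frob.card_cls h.sub h.norm (fun g hg u hu => by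
        have := h.norm' g hg _ (mem_UU.1 hu)
        rw [mem_UU]
        convert this using 1
        simp [cj, mul_sub, sub_mul]) A h1
    have c2 : (0 : ℝ) < (cls τ J (UU J') A).ncard := by
      exact_mod_cast (Set.ncard_pos (Set.toFinite _)).2 ⟨_, self_mem_cls _ _ A⟩
    have c3 : ((cls τ J H A).ncard : ℝ) = Nat.card H * (cls τ J (UU J') A).ncard / Nat.card H₁ :=
      eq_div_of_mul_eq hH1.ne' c1
    refine le_trans (mul_le_mul_of_nonneg_left ((h.clifford A h1 hs).trans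
      (mul_le_mul_of_nonneg_left (hb A hA H₁ h1) (by positivity))) (by positivity)) (le_of_eq ?_)
    have p1 : 0 < (Nat.card H₁ : ℝ) ^ (-s) := Real.rpow_pos_of_pos hH1 _
    rw [c3, Real.div_rpow hH.le hH1.le, sub_eq_add_neg, Real.rpow_add hH, Real.rpow_add hH1,
      Real.rpow_neg_one, Real.rpow_neg_one]
    field_simp
  have s3 : (∑ A : M, if A ∈ T then
      ((cls τ J (UU J') A).ncard : ℝ)⁻¹ * sumOn (cls τ J (UU J') A) f else 0) ≤ sumOn T f := by
    have e : ∀ A : M, (if A ∈ T then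
        ((cls τ J (UU J') A).ncard : ℝ)⁻¹ * sumOn (cls τ J (UU J') A) f else 0) =
        ∑ B : M, (if A ∈ T ∧ B ∈ cls τ J (UU J') A then ((cls τ J (UU J') A).ncard : ℝ)⁻¹ else 0) *
          f B := fun A => by
      by_cases hA : A ∈ T
      · simp only [hA, if_true, true_and, sumOn, Finset.sum_filter, Finset.mul_sum, mul_ite,
          ite_mul, mul_zero, zero_mul]
      · simp [hA]
    simp_rw [e]
    rw [Finset.sum_comm, sumOn, Finset.sum_filter]
    refine Finset.sum_le_sum fun B _ => ?_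
    rw [← Finset.sum_mul]
    split_ifs with hc
    · refine mul_le_of_le_one_left (hf B) ?_
      rw [← rt2_part (cls τ J (UU J')) (self_mem_cls J _)
        (fun _ _ => h.frob.cls_eq (rt2_norm h)) B]
      refine Finset.sum_le_sum fun A _ => ?_
      by_cases hA : A ∈ T ∧ B ∈ cls τ J (UU J') A
      · rw [if_pos hA, if_pos (rt2_symm h hA.2)]
      · rw [if_neg hA]
        positivity
    · rw [Finset.sum_eq_zero, zero_mul]
      exact fun A _ => if_neg fun hA => hc (hT A hA.1 hA.2)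
  refine s1.trans (le_trans ?_ (mul_le_mul_of_nonneg_left s3 (by positivity)))
  rw [Finset.mul_sum]
  refine Finset.sum_le_sum fun A _ => ?_
  split_ifs with hA
  · exact s2 A hA
  · rw [mul_zero]

end Pool.Agent.MP_8299d6_al.Up

end
end

section

open Matrix
open Classical

noncomputable section

namespace Pool.Agent.MP_8299d6_al.Up

open Pool.Agent.MP_810665_al (IrrChar)

variable {M : Type} [Ring M] [Fintype M] {τ : AddChar M ℂ} {J J' : NonUnitalSubring M}
  {L : M → M} {H : Subgroup Mˣ}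

lemma rt3_UU_mono (h : J ≤ J') : UU J ≤ UU J' := fun _ hu => h hu

lemma Sit.rt3_normK (h : Sit τ J J' L H) : Norm (UU J') J := fun g hg => h.norm g (h.sub hg)

lemma Sit.rt3_conj_mem (h : Sit τ J J' L H) {g u : Mˣ} (hg : g ∈ H) (hu : u ∈ UU J) :
    g * u * g⁻¹ ∈ UU J := by
  have h1 := h.norm g hg _ hu
  have e : cj g ((u : M) - 1) = ((g * u * g⁻¹ : Mˣ) : M) - 1 := by
    simp [cj, mul_sub, sub_mul]
  rw [e] at h1
  exact h1

lemma Sit.rt3_normal (h : Sit τ J J' L H) : ((UU J).subgroupOf H).Normal :=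
  ⟨fun _ hu g => h.rt3_conj_mem g.2 hu⟩

lemma Sit.rt3_card (h : Sit τ J J' L H) : Nat.card ((UU J).subgroupOf H) = Nat.card J := by
  rw [← card_UU h.om.unit]
  exact Nat.card_congr (Subgroup.subgroupOfEquivOfLe ((rt3_UU_mono h.le).trans h.sub)).toEquiv

lemma rt3_ncard_ne (K : Subgroup Mˣ) (A : M) : ((cls τ J K A).ncard : ℂ) ≠ 0 := by
  have : 0 < (cls τ J K A).ncard := (Set.ncard_pos (Set.toFinite _)).2 ⟨A, self_mem_cls J K A⟩
  exact_mod_cast this.ne'

lemma rt3_cardM : (Nat.card M : ℂ) ≠ 0 := by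
  exact_mod_cast (Nat.card_pos (α := M)).ne'

omit [Ring M] in
lemma rt3_sum_const (S : Set M) (c : ℂ) :
    ∑ B : M, (if B ∈ S then c else 0) = (S.ncard : ℂ) * c := by
  rw [← Finset.sum_filter, Finset.sum_const, nsmul_eq_mul, Set.ncard_eq_toFinset_card' S]
  congr 3
  ext B
  simp

lemma Sit.rt3_fc_const (h : Sit τ J J' L H) {χ : H → ℂ} (hχ : χ ∈ Irr H) {A B : M}
    (hB : B ∈ cls τ J (UU J') A) : fc τ J L H χ B = fc τ J L H χ A := by
  obtain ⟨V, _, _, _, ρ, hρ, rfl⟩ := mem_Irr.1 hχ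
  have h1 := h.trace_E ρ A
  have h2 := h.trace_E ρ B
  rw [h.E_congr ρ hB, h.frob.cls_eq h.rt3_normK hB, h1] at h2
  exact (mul_left_cancel₀ (rt3_ncard_ne _ A) h2).symm

lemma Sit.rt3_deg (h : Sit τ J J' L H) {χ : H → ℂ} (hχ : χ ∈ Irr H) {A : M}
    (hA : Sup τ J L H χ ⊆ cls τ J (UU J') A) :
    (Nat.card M : ℂ) * χ 1 = ((cls τ J (UU J') A).ncard : ℂ) * fc τ J L H χ A := by
  obtain ⟨V, _, _, _, ρ, hρ, rfl⟩ := mem_Irr.1 hχ
  have h1 := h.trace_E ρ A
  rw [h.E_eq_one ρ hA] at h1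
  rw [← h1, Representation.char_one, LinearMap.trace_one]

/-- the common shape of the restrictions -/
def rt3Phi (τ : AddChar M ℂ) (J J' : NonUnitalSubring M) (L : M → M) (H : Subgroup Mˣ) (A : M)
    (u : H) : ℂ :=
  ∑ B : M, if B ∈ cls τ J (UU J') A then τ (B * L ((u.1 : M) - 1)) else 0

lemma Sit.rt3_shape (h : Sit τ J J' L H) {χ : H → ℂ} (hχ : χ ∈ Irr H) {A : M}
    (hA : Sup τ J L H χ ⊆ cls τ J (UU J') A) (u : H) (hu : u.1 ∈ UU J) :
    χ u = χ 1 / ((cls τ J (UU J') A).ncard : ℂ) * rt3Phi τ J J' L H A u := by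
  have h1 := h.inversion χ u hu
  have h2 : ∑ B : M, fc τ J L H χ B * τ (B * L ((u.1 : M) - 1)) =
      fc τ J L H χ A * rt3Phi τ J J' L H A u := by
    rw [rt3Phi, Finset.mul_sum]
    refine Finset.sum_congr rfl fun B _ => ?_
    split_ifs with hB
    · rw [h.rt3_fc_const hχ hB]
    · have : fc τ J L H χ B = 0 := by
        by_contra hne
        exact hB (hA hne)
      simp [this]
  have h3 := h.rt3_deg hχ hA
  have h4 := rt3_ncard_ne (τ := τ) (J := J) (UU J') A
  have h5 := rt3_cardM (M := M)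
  rw [h2] at h1
  apply mul_left_cancel₀ h5
  rw [h1]
  field_simp
  linear_combination (-rt3Phi τ J J' L H A u) * h3

lemma Sit.rt3_norm_ge (h : Sit τ J J' L H) {χ : H → ℂ} (hχ : χ ∈ Irr H) :
    (Nat.card J : ℝ) ≤ ∑ u : H, if u.1 ∈ UU J then ‖χ u‖ ^ 2 else 0 := by
  have := rt3_res_ge hχ ((UU J).subgroupOf H)
  rw [h.rt3_card] at this
  simpa only [Subgroup.mem_subgroupOf] using this

theorem Sit.dim_ge (h : Sit τ J J' L H) {χ : H → ℂ} (hχ : χ ∈ Irr H) {A : M}
    (hA : Sup τ J L H χ ⊆ cls τ J (UU J') A) :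
    ((cls τ J (UU J') A).ncard : ℝ) ≤ Nat.card (perp τ J.toAddSubgroup) * ‖χ 1‖ ^ 2 := by
  set S : ℝ := ∑ u : H, if u.1 ∈ UU J then ‖χ u‖ ^ 2 else 0 with hS
  have h4 := rt3_ncard_ne (τ := τ) (J := J) (UU J') A
  have hconj : ∀ B : M, (starRingEnd ℂ) (fc τ J L H χ B) =
      ∑ u : H, if u.1 ∈ UU J then (starRingEnd ℂ) (χ u) * τ (B * L ((u.1 : M) - 1)) else 0 := by
    intro B
    rw [fc, map_sum]
    refine Finset.sum_congr rfl fun u _ => ?_
    split_ifs
    · rw [map_mul, AddChar.map_neg_eq_conj, Complex.conj_conj]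
    · simp
  have h1 : (S : ℂ) = χ 1 * (starRingEnd ℂ) (fc τ J L H χ A) := by
    have e1 : (S : ℂ) = ∑ u : H, ∑ B : M, χ 1 / ((cls τ J (UU J') A).ncard : ℂ) *
        (if B ∈ cls τ J (UU J') A then
          (if u.1 ∈ UU J then (starRingEnd ℂ) (χ u) * τ (B * L ((u.1 : M) - 1)) else 0)
        else 0) := by
      rw [hS, Complex.ofReal_sum]
      refine Finset.sum_congr rfl fun u _ => ?_
      split_ifs with hu
      · have e : ((‖χ u‖ ^ 2 : ℝ) : ℂ) = (starRingEnd ℂ) (χ u) * χ u := by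
          rw [Complex.conj_mul']; push_cast; ring
        rw [e]
        nth_rewrite 2 [h.rt3_shape hχ hA u hu]
        rw [rt3Phi, Finset.mul_sum, Finset.mul_sum]
        refine Finset.sum_congr rfl fun B _ => ?_
        split_ifs
        · ring
        · simp
      · simp
    rw [e1, Finset.sum_comm]
    have e2 : ∀ B : M, ∑ u : H, χ 1 / ((cls τ J (UU J') A).ncard : ℂ) *
        (if B ∈ cls τ J (UU J') A then
          (if u.1 ∈ UU J then (starRingEnd ℂ) (χ u) * τ (B * L ((u.1 : M) - 1)) else 0)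
        else 0) = if B ∈ cls τ J (UU J') A then
          χ 1 / ((cls τ J (UU J') A).ncard : ℂ) * (starRingEnd ℂ) (fc τ J L H χ A) else 0 := by
      intro B
      split_ifs with hB
      · rw [← Finset.mul_sum, ← hconj B, h.rt3_fc_const hχ hB]
      · simp
    simp only [e2]
    rw [rt3_sum_const]
    field_simp
  have h2 := congrArg (starRingEnd ℂ) (h.rt3_deg hχ hA)
  simp only [map_mul, map_natCast] at h2
  have h3 : (((cls τ J (UU J') A).ncard * S : ℝ) : ℂ) = ((Nat.card M * ‖χ 1‖ ^ 2 : ℝ) : ℂ) := by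
    have e : ((‖χ 1‖ ^ 2 : ℝ) : ℂ) = (starRingEnd ℂ) (χ 1) * χ 1 := by
      rw [Complex.conj_mul']; push_cast; ring
    rw [Complex.ofReal_mul, Complex.ofReal_mul, e, h1]
    push_cast
    linear_combination (-χ 1) * h2
  have h5 : ((cls τ J (UU J') A).ncard : ℝ) * S = Nat.card M * ‖χ 1‖ ^ 2 := by exact_mod_cast h3
  have h6 : (Nat.card J : ℝ) * Nat.card (perp τ J.toAddSubgroup) = Nat.card M := by
    exact_mod_cast h.frob.card_perp J.toAddSubgroup
  have h7 : (Nat.card J : ℝ) ≤ S := h.rt3_norm_ge hχ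
  have h8 : (0 : ℝ) < Nat.card J := by exact_mod_cast Nat.card_pos (α := J)
  refine le_of_mul_le_mul_left ?_ h8
  calc (Nat.card J : ℝ) * (cls τ J (UU J') A).ncard ≤ S * (cls τ J (UU J') A).ncard := by gcongr
    _ = Nat.card M * ‖χ 1‖ ^ 2 := by rw [← h5]; ring
    _ = _ := by rw [← h6]; ring

theorem Sit.count_crude (h : Sit τ J J' L H) (A : M) :
    ((Irr H).filter (fun χ => Sup τ J L H χ ⊆ cls τ J (UU J') A)).card * Nat.card J
      ≤ Nat.card H := by
  set s := (Irr H).filter (fun χ => Sup τ J L H χ ⊆ cls τ J (UU J') A) with hs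
  have h1 := rt3_bessel s (Finset.filter_subset _ _) (fun u => u.1 ∈ UU J)
    (rt3Phi τ J J' L H A) (fun χ => χ 1 / ((cls τ J (UU J') A).ncard : ℂ))
    (fun χ hχ u hu => h.rt3_shape (Finset.mem_filter.1 hχ).1 (Finset.mem_filter.1 hχ).2 u hu)
  have h2 : (s.card : ℝ) * Nat.card J ≤
      ∑ χ ∈ s, ∑ u : H, (if u.1 ∈ UU J then ‖χ u‖ ^ 2 else 0) := by
    rw [← nsmul_eq_mul]
    exact Finset.card_nsmul_le_sum _ _ _ fun χ hχ => h.rt3_norm_ge (Finset.mem_filter.1 hχ).1
  exact_mod_cast h2.trans h1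

/-- the coefficients of the idempotent -/
def rt3e (τ : AddChar M ℂ) (J J' : NonUnitalSubring M) (L : M → M) (H : Subgroup Mˣ) (A : M)
    (u : H) : ℂ :=
  (Nat.card M : ℂ)⁻¹ * ∑ B : M, if B ∈ cls τ J (UU J') A ∧ u.1 ∈ UU J then
    τ (-(B * L ((u.1 : M) - 1))) else 0

lemma rt3_E_eq {V : Type} [AddCommGroup V] [Module ℂ V] (ρ : Representation ℂ H V) (A : M) :
    EE τ J J' L H ρ A = rt3op ρ (rt3e τ J J' L H A) := by
  rw [EE, Finset.sum_comm, Finset.smul_sum, rt3op]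
  refine Finset.sum_congr rfl fun u _ => ?_
  rw [rt3e, mul_smul, Finset.sum_smul]
  congr 1
  refine Finset.sum_congr rfl fun B _ => ?_
  split_ifs <;> simp

lemma rt3e_zero (A : M) {u : H} (hu : u.1 ∉ UU J) : rt3e τ J J' L H A u = 0 := by
  simp [rt3e, hu]

lemma Sit.rt3_fix (h : Sit τ J J' L H) {χ : H → ℂ} (hχ : χ ∈ Irr H) {A : M}
    (hA : Sup τ J L H χ ⊆ cls τ J (UU J') A) (z : H) :
    ∑ u, rt3e τ J J' L H A u * χ (u * z) = χ z := by
  obtain ⟨V, _, _, _, ρ, hρ, rfl⟩ := mem_Irr.1 hχ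
  rw [← rt3op_trace, ← rt3_E_eq, h.E_eq_one ρ hA, one_mul]
  rfl

section cosets

variable {Q : Type} [Group Q] (q : H →* Q)

/-- restriction to a coset -/
def rt3a (χ : H → ℂ) (t : Q) (y : H) : ℂ := if q y = t then χ y⁻¹ else 0

lemma Sit.rt3_aE (h : Sit τ J J' L H) (hq : ∀ u : H, q u = 1 ↔ u.1 ∈ UU J) {χ : H → ℂ}
    (hχ : χ ∈ Irr H) {A : M} (hA : Sup τ J L H χ ⊆ cls τ J (UU J') A) (t : Q) :
    rt3cv (rt3a q χ t) (rt3e τ J J' L H A) = rt3a q χ t := by
  funext z
  rw [rt3cv_eq]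
  have e : ∀ w : H, rt3a q χ t (z * w⁻¹) * rt3e τ J J' L H A w =
      if q z = t then rt3e τ J J' L H A w * χ (w * z⁻¹) else 0 := by
    intro w
    by_cases hw : w.1 ∈ UU J
    · simp only [rt3a, map_mul, map_inv, (hq w).2 hw, inv_one, mul_one, _root_.mul_inv_rev,
        inv_inv]
      split_ifs
      · ring
      · simp
    · simp [rt3e_zero A hw]
  simp only [e]
  unfold rt3a
  split_ifs
  · exact h.rt3_fix hχ hA _
  · simp

lemma Sit.rt3_Ea (h : Sit τ J J' L H) (hq : ∀ u : H, q u = 1 ↔ u.1 ∈ UU J) {χ : H → ℂ}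
    (hχ : χ ∈ Irr H) {A : M} (hA : Sup τ J L H χ ⊆ cls τ J (UU J') A) (t : Q) :
    rt3cv (rt3e τ J J' L H A) (rt3a q χ t) = rt3a q χ t := by
  funext z
  rw [rt3cv]
  have e : ∀ w : H, rt3e τ J J' L H A w * rt3a q χ t (w⁻¹ * z) =
      if q z = t then rt3e τ J J' L H A w * χ (w * z⁻¹) else 0 := by
    intro w
    by_cases hw : w.1 ∈ UU J
    · simp only [rt3a, map_mul, map_inv, (hq w).2 hw, inv_one, one_mul, _root_.mul_inv_rev,
        inv_inv]
      split_ifs
      · rw [rt3_comm hχ]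
      · simp
    · simp [rt3e_zero A hw]
  simp only [e]
  unfold rt3a
  split_ifs
  · exact h.rt3_fix hχ hA _
  · simp

lemma Sit.rt3_prod (h : Sit τ J J L H) (hq : ∀ u : H, q u = 1 ↔ u.1 ∈ UU J) {χ ψ : H → ℂ}
    (hχ : χ ∈ Irr H) (hψ : ψ ∈ Irr H) {A : M} (hA : Sup τ J L H χ ⊆ cls τ J (UU J) A)
    {t t' : Q} (ht : t * t' = 1) :
    ∃ c : ℂ, rt3op (rt3reg H) (rt3a q ψ t) * rt3op (rt3reg H) (rt3a q χ t') =
      c • EE τ J J L H (rt3reg H) A := by
  have hinv : ∀ {φ : H → ℂ}, φ ∈ Irr H → ∀ (s : Q) (g y : H), g.1 ∈ UU J →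
      rt3a q φ s (g * y * g⁻¹) = rt3a q φ s y := by
    intro φ hφ s g y hg
    have e : (g * y * g⁻¹)⁻¹ = g * y⁻¹ * g⁻¹ := by group
    simp only [rt3a, map_mul, map_inv, (hq g).2 hg, one_mul, inv_one, mul_one, e,
      Pool.Agent.MP_810665_al.irr_conj (mem_Irr.1 hφ)]
  obtain ⟨c, hc⟩ := h.center (rt3cv (rt3a q ψ t) (rt3a q χ t')) (fun g u hg => by
    unfold rt3cv
    refine (Fintype.sum_equiv (MulAut.conj g).toEquiv _ _ fun y => ?_).symm
    have e : (g * y * g⁻¹)⁻¹ * (g * u * g⁻¹) = g * (y⁻¹ * u) * g⁻¹ := by group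
    simp only [MulEquiv.toEquiv_eq_coe, EquivLike.coe_coe, MulAut.conj_apply, e,
      hinv hψ _ g _ hg, hinv hχ _ g _ hg]) A
  refine ⟨c, ?_⟩
  rw [← hc (rt3reg H)]
  have e : (∑ u : H, if u.1 ∈ UU J then rt3cv (rt3a q ψ t) (rt3a q χ t') u • rt3reg H u else 0) =
      rt3op (rt3reg H) (rt3cv (rt3a q ψ t) (rt3a q χ t')) := by
    refine Finset.sum_congr rfl fun u _ => ?_
    split_ifs with hu
    · rfl
    · have : rt3cv (rt3a q ψ t) (rt3a q χ t') u = 0 := by
        refine Finset.sum_eq_zero fun y _ => ?_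
        unfold rt3a
        split_ifs with h1 h2
        · exfalso
          apply hu
          rw [← hq, ← ht, ← h1, ← h2, ← map_mul, mul_inv_cancel_left]
        · simp
        · simp
        · simp
      rw [this, zero_smul]
  rw [e, ← rt3op_mul, mul_assoc, rt3_E_eq, rt3op_mul (rt3reg H) (rt3a q χ t'),
    h.rt3_aE q hq hχ hA]

lemma Sit.rt3_prop (h : Sit τ J J L H) (hq : ∀ u : H, q u = 1 ↔ u.1 ∈ UU J) {χ ψ : H → ℂ}
    (hχ : χ ∈ Irr H) (hψ : ψ ∈ Irr H) {A : M} (hA : Sup τ J L H χ ⊆ cls τ J (UU J) A)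
    (hB : Sup τ J L H ψ ⊆ cls τ J (UU J) A) {x : H} (hx : χ x ≠ 0) :
    ∃ lam : ℂ, ∀ y, q y = q x → ψ y = lam * χ y := by
  obtain ⟨c, hc⟩ := h.rt3_prod q hq hχ hψ hA (t := (q x)⁻¹) (t' := q x) (inv_mul_cancel _)
  obtain ⟨d, hd⟩ := h.rt3_prod q hq hχ hχ hA (t := q x) (t' := (q x)⁻¹) (mul_inv_cancel _)
  have hd0 : d ≠ 0 := by
    rintro rfl
    rw [zero_smul, rt3op_mul] at hd
    have h0 : rt3cv (rt3a q χ (q x)) (rt3a q χ (q x)⁻¹) = fun _ => 0 :=
      rt3op_inj (by rw [hd]; simp [rt3op])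
    have h1 := congrFun h0 1
    have e : ∀ y : H, rt3a q χ (q x) y * rt3a q χ (q x)⁻¹ (y⁻¹ * 1) =
        ((if q y = q x then ‖χ y‖ ^ 2 else 0 : ℝ) : ℂ) := by
      intro y
      simp only [rt3a, mul_one, map_inv, _root_.inv_inj, inv_inv]
      split_ifs
      · rw [rt3_inv hχ, Complex.conj_mul']; push_cast; ring
      · simp
    simp only [rt3cv, e] at h1
    rw [← Complex.ofReal_sum, Complex.ofReal_eq_zero,
      Finset.sum_eq_zero_iff_of_nonneg (fun y _ => by split_ifs <;> positivity)] at h1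
    have h2 := h1 x (Finset.mem_univ x)
    rw [if_pos rfl] at h2
    exact hx (by simpa using h2)
  have key : rt3op (rt3reg H) (fun y => d * rt3a q ψ (q x)⁻¹ y) =
      rt3op (rt3reg H) (fun y => c * rt3a q χ (q x)⁻¹ y) := by
    rw [← rt3op_smul, ← rt3op_smul]
    have e1 : rt3op (rt3reg H) (rt3a q ψ (q x)⁻¹) * EE τ J J L H (rt3reg H) A =
        rt3op (rt3reg H) (rt3a q ψ (q x)⁻¹) := by
      rw [rt3_E_eq, rt3op_mul, h.rt3_aE q hq hψ hB]
    have e2 : EE τ J J L H (rt3reg H) A * rt3op (rt3reg H) (rt3a q χ (q x)⁻¹) =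
        rt3op (rt3reg H) (rt3a q χ (q x)⁻¹) := by
      rw [rt3_E_eq, rt3op_mul, h.rt3_Ea q hq hχ hA]
    calc d • rt3op (rt3reg H) (rt3a q ψ (q x)⁻¹)
        = rt3op (rt3reg H) (rt3a q ψ (q x)⁻¹) * (d • EE τ J J L H (rt3reg H) A) := by
          rw [mul_smul_comm, e1]
      _ = (c • EE τ J J L H (rt3reg H) A) * rt3op (rt3reg H) (rt3a q χ (q x)⁻¹) := by
          rw [← hd, ← hc, mul_assoc]
      _ = _ := by rw [smul_mul_assoc, e2]
  refine ⟨c / d, fun y hy => ?_⟩
  have h1 := congrFun (rt3op_inj key) y⁻¹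
  simp only [rt3a, map_inv, hy, if_true, inv_inv] at h1
  field_simp
  linear_combination h1

end cosets

/-- Gallagher's bound -/
theorem Sit.count (h : Sit τ J J L H) (A : M) (k : ℕ) (c : H → Fin k)
    (hc : ∀ x y : H, c x = c y → ∃ g u : H, u.1 ∈ UU J ∧ y = g * x * g⁻¹ * u) :
    ((Irr H).filter (fun χ => Sup τ J L H χ ⊆ cls τ J (UU J) A)).card ≤ k := by
  set s := (Irr H).filter (fun χ => Sup τ J L H χ ⊆ cls τ J (UU J) A) with hs
  have := h.rt3_normal
  let q := QuotientGroup.mk' ((UU J).subgroupOf H)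
  have hq : ∀ u : H, q u = 1 ↔ u.1 ∈ UU J := fun u => by
    simp only [q, QuotientGroup.mk'_apply, QuotientGroup.eq_one_iff, Subgroup.mem_subgroupOf]
  have key : ∀ i : Fin k, ∃ w : H → ℂ, ∀ ψ ∈ s, ∃ lam : ℂ, ∀ y, c y = i → ψ y = lam * w y := by
    intro i
    by_cases hi : ∃ χ ∈ s, ∃ x, c x = i ∧ χ x ≠ 0
    · obtain ⟨χ, hχ, x, hx, hx0⟩ := hi
      refine ⟨χ, fun ψ hψ => ?_⟩
      obtain ⟨hχ1, hχ2⟩ := Finset.mem_filter.1 hχ
      obtain ⟨hψ1, hψ2⟩ := Finset.mem_filter.1 hψ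
      obtain ⟨lam, hl⟩ := h.rt3_prop q hq hχ1 hψ1 hχ2 hψ2 hx0
      refine ⟨lam, fun y hy => ?_⟩
      obtain ⟨g, u, hu, rfl⟩ := hc x y (hx.trans hy.symm)
      have e : g * x * g⁻¹ * u = g * (x * (g⁻¹ * u * g)) * g⁻¹ := by group
      rw [e, Pool.Agent.MP_810665_al.irr_conj (mem_Irr.1 hχ1),
        Pool.Agent.MP_810665_al.irr_conj (mem_Irr.1 hψ1)]
      apply hl
      simp only [map_mul, map_inv, (hq u).2 hu, mul_one, inv_mul_cancel]
    · push Not at hi
      exact ⟨0, fun ψ hψ => ⟨0, fun y hy => by simp [hi ψ hψ y hy]⟩⟩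
  choose w hw using key
  choose! lam hlam using hw
  have := rt3_card_le s (Finset.filter_subset _ _) c (fun y => w (c y) y)
    (fun χ i => lam i χ) (fun χ hχ g => hlam (c g) χ hχ g rfl)
  simpa using this

theorem Sit.scalar (h : Sit τ J J' L H) {χ : H → ℂ} (hχ : χ ∈ Irr H) {A : M}
    (hA : A ∈ Sup τ J L H χ) (hinv : ∀ g ∈ H, cj g A - A ∈ perp τ J.toAddSubgroup)
    (g u : H) (hu : u.1 ∈ UU J) : InKer χ (g * u * g⁻¹ * u⁻¹) := by
  obtain ⟨V, _, _, _, ρ, hρ, rfl⟩ := mem_Irr.1 hχ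
  have hcomm : ∀ x : H, ρ x * EE τ J J' L H ρ A = EE τ J J' L H ρ A * ρ x := by
    intro x
    rw [h.E_conj ρ x A, h.E_congr ρ (A := A) (B := cj x.1 A)
      ⟨1, one_mem _, by rw [cj_one]; exact hinv x.1 x.2⟩]
  obtain ⟨c, hc⟩ := Pool.Agent.MP_810665_al.schur hρ (EE τ J J' L H ρ A) (fun x v => by
    rw [← Module.End.mul_apply, ← hcomm, Module.End.mul_apply])
  have hE : EE τ J J' L H ρ A = c • 1 := LinearMap.ext hc
  have hne : EE τ J J' L H ρ A ≠ 0 := (h.E_ne_zero ρ A).2 hA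
  have hc0 : c ≠ 0 := by
    rintro rfl
    exact hne (by rw [hE, zero_smul])
  -- the character `κ`
  have hL : ∀ x ∈ J, L x ∈ J := fun x hx => h.om.bij.mapsTo hx
  have hperp : ∀ B x, B - A ∈ perp τ J.toAddSubgroup → x ∈ J → τ (B * x) = τ (A * x) := by
    intro B x hB hx
    have h1 : τ ((B - A) * x) = 1 := hB x hx
    have e : B * x = (B - A) * x + A * x := by noncomm_ring
    rw [e, AddChar.map_add_eq_mul, h1, one_mul]
  have hcj : ∀ (k : Mˣ) x, k ∈ H → x ∈ J → τ (A * cj k x) = τ (A * x) := by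
    intro k x hk hx
    rw [← h.frob.tau_cj k⁻¹, ← cj_mul_cj, ← cj_mul, inv_mul_cancel, cj_one]
    exact hperp _ _ (hinv _ (inv_mem hk)) hx
  have hmul : ∀ v : H, v.1 ∈ UU J → τ (A * L (((u * v : H).1 : M) - 1)) =
      τ (A * L ((u.1 : M) - 1)) * τ (A * L ((v.1 : M) - 1)) := by
    intro v hv
    obtain ⟨g', h', hk, -⟩ := h.om.kv
    obtain ⟨k1, k2, k3⟩ := hk _ hu _ hv
    have e : (((u * v : H).1 : Mˣ) : M) - 1 = ((u.1 : M) - 1) + ((v.1 : M) - 1) +
        ((u.1 : M) - 1) * ((v.1 : M) - 1) := by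
      simp only [Subgroup.coe_mul, Units.val_mul]
      noncomm_ring
    rw [e, k3, mul_add, AddChar.map_add_eq_mul, hcj _ _ (h.sub k1) (hL _ hu),
      hcj _ _ (h.sub k2) (hL _ hv)]
  have he : ∀ v : H, v.1 ∈ UU J → rt3e τ J J' L H A v = (Nat.card M : ℂ)⁻¹ *
      (((cls τ J (UU J') A).ncard : ℂ) * (τ (A * L ((v.1 : M) - 1)))⁻¹) := by
    intro v hv
    rw [rt3e, ← rt3_sum_const]
    congr 1
    refine Finset.sum_congr rfl fun B _ => ?_
    simp only [hv, and_true]
    split_ifs with hB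
    · obtain ⟨k, hk, hB⟩ := hB
      have h1 : B - A ∈ perp τ J.toAddSubgroup := by
        have := add_mem hB (hinv k (h.sub hk))
        rwa [sub_add_sub_cancel] at this
      rw [AddChar.map_neg_eq_inv, hperp B _ h1 (hL _ hv)]
    · rfl
  have hτ : ∀ x : M, τ x ≠ 0 := fun x => (AddChar.val_isUnit τ x).ne_zero
  have hρu : ρ u * EE τ J J' L H ρ A = τ (A * L ((u.1 : M) - 1)) • EE τ J J' L H ρ A := by
    rw [rt3_E_eq, rt3op_smul, rt3op, rt3op, Finset.mul_sum]
    refine Fintype.sum_equiv (Equiv.mulLeft u) _ _ fun v => ?_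
    rw [mul_smul_comm, ← map_mul, Equiv.coe_mulLeft]
    congr 1
    by_cases hv : v.1 ∈ UU J
    · rw [he v hv, he (u * v) (mul_mem hu hv), hmul v hv]
      have := hτ (A * L ((u.1 : M) - 1))
      have := hτ (A * L ((v.1 : M) - 1))
      field_simp
    · rw [rt3e_zero A hv, rt3e_zero A (u := u * v) (fun hh => hv (by
        have := mul_mem (inv_mem hu) hh
        simpa using this)), mul_zero]
  rw [hE, mul_smul_comm, mul_one, smul_comm] at hρu
  have hsc : ρ u = τ (A * L ((u.1 : M) - 1)) • 1 := smul_right_injective _ hc0 hρu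
  rw [inKer_iff hρ]
  have e : ρ g * ρ u = ρ u * ρ g := by rw [hsc]; simp
  rw [map_mul, map_mul, map_mul, e, mul_assoc (ρ u), ← map_mul, mul_inv_cancel, map_one, mul_one,
    ← map_mul, mul_inv_cancel, map_one]

end Pool.Agent.MP_8299d6_al.Up

end
end

section

open Matrix

noncomputable section

namespace Pool.Agent.MP_8299d6_al.Up

open Pool.Agent.MP_810665_al (IrrChar)

variable {M : Type} [Ring M] [Fintype M] {τ : AddChar M ℂ}

omit [Fintype M] in
lemma base_mulr {O : Subring M} {I : AddSubgroup M}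
    (hI : ∀ x ∈ O, ∀ y ∈ I, x * y ∈ I ∧ y * x ∈ I) {a y : M} (ha : a ∈ perp τ I) (hy : y ∈ O) :
    a * y ∈ perp τ I := fun x hx => by
  rw [mul_assoc]; exact ha _ (hI y hy x hx).1

omit [Fintype M] in
lemma base_mull (hτ : Frob τ) {O : Subring M} {I : AddSubgroup M}
    (hI : ∀ x ∈ O, ∀ y ∈ I, x * y ∈ I ∧ y * x ∈ I) {a y : M} (ha : a ∈ perp τ I) (hy : y ∈ O) :
    y * a ∈ perp τ I := fun x hx => by
  rw [mul_assoc, hτ.comm, mul_assoc]; exact ha _ (hI y hy x hx).2

lemma base_inv {O : Subring M} {g : Mˣ} (hg : (g : M) ∈ O) : ((g⁻¹ : Mˣ) : M) ∈ O := by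
  have e : g⁻¹ = g ^ (orderOf g - 1) := by
    rw [inv_eq_iff_mul_eq_one, ← pow_succ', Nat.sub_add_cancel (orderOf_pos g), pow_orderOf_eq_one]
  rw [e, Units.val_pow_eq_pow_val]
  exact pow_mem hg _

lemma base_cj (hτ : Frob τ) {O : Subring M} {I : AddSubgroup M}
    (hI : ∀ x ∈ O, ∀ y ∈ I, x * y ∈ I ∧ y * x ∈ I) {a : M} {g : Mˣ} (ha : a ∈ perp τ I)
    (hg : (g : M) ∈ O) : cj g a ∈ perp τ I :=
  base_mulr hI (base_mull hτ hI ha hg) (base_inv hg)

lemma base_iff {O : Subring M} {I : AddSubgroup M}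
    (hI : ∀ x ∈ O, ∀ y ∈ I, x * y ∈ I ∧ y * x ∈ I) (A : M) {g : Mˣ} (hg : (g : M) ∈ O) :
    cj g A - A ∈ perp τ I ↔ A * g - g * A ∈ perp τ I := by
  constructor
  · intro h
    have h1 := neg_mem (base_mulr hI h hg)
    have e : -((cj g A - A) * g) = A * g - g * A := by
      simp only [cj, sub_mul, mul_assoc, Units.inv_mul, mul_one, neg_sub]
    rwa [e] at h1
  · intro h
    have h1 := neg_mem (base_mulr hI h (base_inv hg))
    have e : -((A * g - g * A) * ((g⁻¹ : Mˣ) : M)) = cj g A - A := by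
      simp only [cj, sub_mul, mul_assoc, Units.mul_inv, mul_one, neg_sub]
    rwa [e] at h1

lemma base_UO {O : Subring M} {J : NonUnitalSubring M} (hJO : ∀ y ∈ J, y ∈ O) {u : Mˣ}
    (hu : u ∈ UU J) : (u : M) ∈ O := by
  have := add_mem (hJO _ (mem_UU.1 hu)) O.one_mem
  rwa [sub_add_cancel] at this

/-- a unit of `O` congruent to `y` modulo `J` is a product of an element of `1 + J` and `y` -/
lemma base_split {O : Subring M} {J : NonUnitalSubring M}
    (hid : ∀ x ∈ O, ∀ y ∈ J, x * y ∈ J ∧ y * x ∈ J) (hu : ∀ x ∈ J, IsUnit (1 + x)) {g : Mˣ}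
    (hg : (g : M) ∈ O) {y : M} (hy : (g : M) - y ∈ J) :
    ∃ u ∈ UU J, ∃ g' : Mˣ, (g' : M) = y ∧ g = u * g' := by
  have h1 : -(((g : M) - y) * ((g⁻¹ : Mˣ) : M)) ∈ J := neg_mem (hid _ (base_inv hg) _ hy).2
  obtain ⟨v, hv⟩ := hu _ h1
  have hvU : v ∈ UU J := by
    rw [mem_UU, hv, add_sub_cancel_left]; exact h1
  refine ⟨v⁻¹, inv_mem hvU, v * g, ?_, by group⟩
  rw [Units.val_mul, hv, add_mul, neg_mul, mul_assoc, Units.inv_mul]
  simp

omit [Fintype M] in
lemma base_cj_inv (g : Mˣ) (A : M) : cj g⁻¹ (cj g A) = A := by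
  rw [← cj_mul, inv_mul_cancel, cj_one]

/-- the stabiliser of a class is the unit group of a subring -/
theorem stab_subring (hτ : Frob τ) (O : Subring M) (J : NonUnitalSubring M)
    (hJO : ∀ y ∈ J, y ∈ O) (hid : ∀ x ∈ O, ∀ y ∈ J, x * y ∈ J ∧ y * x ∈ J)
    (hu : ∀ x ∈ J, IsUnit (1 + x)) (A : M) :
    ∃ O₁ : Subring M, (∀ x, x ∈ O₁ ↔ ∃ y ∈ O, A * y - y * A ∈ perp τ J.toAddSubgroup ∧ x - y ∈ J) ∧
      ∀ g : Mˣ, (g : M) ∈ O₁ ↔ (g : M) ∈ O ∧ cj g A ∈ cls τ J (UU J) A := by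
  have hI : ∀ x ∈ O, ∀ y ∈ J.toAddSubgroup, x * y ∈ J.toAddSubgroup ∧ y * x ∈ J.toAddSubgroup :=
    hid
  let O₁ : Subring M :=
    { carrier := {x | ∃ y ∈ O, A * y - y * A ∈ perp τ J.toAddSubgroup ∧ x - y ∈ J}
      mul_mem' := by
        rintro a b ⟨y, hy, hy1, hy2⟩ ⟨w, hw, hw1, hw2⟩
        refine ⟨y * w, mul_mem hy hw, ?_, ?_⟩
        · have e : A * (y * w) - y * w * A = (A * y - y * A) * w + y * (A * w - w * A) := by
            noncomm_ring
          rw [e]
          exact add_mem (base_mulr hI hy1 hw) (base_mull hτ hI hw1 hy)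
        · have e : a * b - y * w = (a - y) * (b - w) + (a - y) * w + y * (b - w) := by
            noncomm_ring
          rw [e]
          exact add_mem (add_mem (mul_mem hy2 hw2) (hid _ hw _ hy2).2) (hid _ hy _ hw2).1
      one_mem' := ⟨1, O.one_mem, by simp, by simp⟩
      add_mem' := by
        rintro a b ⟨y, hy, hy1, hy2⟩ ⟨w, hw, hw1, hw2⟩
        refine ⟨y + w, add_mem hy hw, ?_, ?_⟩
        · have e : A * (y + w) - (y + w) * A = (A * y - y * A) + (A * w - w * A) := by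
            noncomm_ring
          rw [e]; exact add_mem hy1 hw1
        · have e : a + b - (y + w) = (a - y) + (b - w) := by abel
          rw [e]; exact add_mem hy2 hw2
      zero_mem' := ⟨0, O.zero_mem, by simp, by simp⟩
      neg_mem' := by
        rintro a ⟨y, hy, hy1, hy2⟩
        refine ⟨-y, neg_mem hy, ?_, ?_⟩
        · have e : A * -y - -y * A = -(A * y - y * A) := by noncomm_ring
          rw [e]; exact neg_mem hy1
        · have e : -a - -y = -(a - y) := by abel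
          rw [e]; exact neg_mem hy2 }
  refine ⟨O₁, fun x => Iff.rfl, fun g => ⟨?_, ?_⟩⟩
  · rintro ⟨y, hy, hy1, hy2⟩
    have hg : (g : M) ∈ O := by
      have := add_mem (hJO _ hy2) hy
      rwa [sub_add_cancel] at this
    obtain ⟨u, huU, g', hg', e⟩ := base_split hid hu hg hy2
    refine ⟨hg, u, huU, ?_⟩
    rw [e, cj_mul, ← cj_sub]
    refine base_cj hτ hI ?_ (base_UO hJO huU)
    rw [base_iff hI A (hg' ▸ hy), hg']; exact hy1
  · rintro ⟨hg, u, huU, h⟩
    have hy : ((u⁻¹ * g : Mˣ) : M) ∈ O := by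
      rw [Units.val_mul]; exact mul_mem (base_UO hJO (inv_mem huU)) hg
    refine ⟨((u⁻¹ * g : Mˣ) : M), hy, ?_, ?_⟩
    · rw [← base_iff hI A hy]
      have := base_cj hτ hI h (base_UO hJO (inv_mem huU))
      rwa [cj_sub, base_cj_inv, ← cj_mul] at this
    · have e : (g : M) - ((u⁻¹ * g : Mˣ) : M) = ((u : M) - 1) * ((u⁻¹ * g : Mˣ) : M) := by
        rw [sub_mul, one_mul, ← Units.val_mul, mul_inv_cancel_left]
      rw [e]; exact (hid _ hy _ (mem_UU.1 huU)).2

/-- the image of the orbit modulo the annihilator of `J` -/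
def baseOm (τ : AddChar M ℂ) (J : NonUnitalSubring M) (A : M) :
    Set (M ⧸ perp τ J.toAddSubgroup) := {w | ∃ u ∈ UU J, w = (cj u A : M)}

/-- the orbit thickened by a subgroup -/
def baseT (J : NonUnitalSubring M) (A : M) (Q : AddSubgroup M) : Set M :=
  {B | ∃ u ∈ UU J, B - cj u A ∈ Q}

lemma base_lower (J : NonUnitalSubring M) (A : M) {Q : AddSubgroup M}
    (hQ : Q ≤ perp τ J.toAddSubgroup) :
    Nat.card (baseOm τ J A) * Nat.card Q ≤ (baseT J A Q).ncard := by
  have hex : ∀ w : baseOm τ J A, ∃ u ∈ UU J, w.1 = (cj u A : M) := fun w => w.2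
  choose u hu1 hu2 using hex
  let f : baseOm τ J A × Q → baseT J A Q := fun p =>
    ⟨cj (u p.1) A + p.2, u p.1, hu1 p.1, by simp⟩
  have hf : Function.Injective f := by
    rintro ⟨w, b⟩ ⟨w', b'⟩ h
    have h1 : cj (u w) A + b = cj (u w') A + b' := congrArg Subtype.val h
    have h2 : w = w' := by
      apply Subtype.ext
      rw [hu2 w, hu2 w', QuotientAddGroup.eq]
      have e : -cj (u w) A + cj (u w') A = b - b' := by
        rw [eq_sub_iff_add_eq, add_assoc, ← h1]; abel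
      rw [e]; exact hQ (sub_mem b.2 b'.2)
    subst h2
    have h3 : b = b' := Subtype.ext (add_left_cancel h1)
    rw [h3]
  have := Nat.card_le_card_of_injective f hf
  rwa [Nat.card_prod, Nat.card_coe_set_eq (baseT J A Q)] at this

omit [Fintype M] in
lemma base_ring (O : Subring M) : ∀ x ∈ O, ∀ y ∈ O.toAddSubgroup,
    x * y ∈ O.toAddSubgroup ∧ y * x ∈ O.toAddSubgroup :=
  fun _ hx _ hy => ⟨O.mul_mem hx hy, O.mul_mem hy hx⟩

lemma base_refine (hτ : Frob τ) {O : Subring M} {J : NonUnitalSubring M}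
    (hJO : ∀ y ∈ J, y ∈ O) (hid : ∀ x ∈ O, ∀ y ∈ J, x * y ∈ J ∧ y * x ∈ J) {A : M}
    (hA : ∀ y ∈ O, ∃ y' ∈ O, y - y' ∈ J ∧ A * y' - y' * A ∈ perp τ O.toAddSubgroup)
    {u v : Mˣ} (hu : u ∈ UU J) (hv : v ∈ UU J)
    (h : cj u A - cj v A ∈ perp τ J.toAddSubgroup) : cj u A - cj v A ∈ perp τ O.toAddSubgroup := by
  have hI : ∀ x ∈ O, ∀ y ∈ J.toAddSubgroup, x * y ∈ J.toAddSubgroup ∧ y * x ∈ J.toAddSubgroup :=
    hid
  have hw : v⁻¹ * u ∈ UU J := mul_mem (inv_mem hv) hu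
  have hwO := base_UO hJO hw
  have h1 := base_cj hτ hI h (base_UO hJO (inv_mem hv))
  rw [cj_sub, base_cj_inv, ← cj_mul, base_iff hI A hwO] at h1
  have h2 : cj (v⁻¹ * u) A - A ∈ perp τ O.toAddSubgroup := by
    rw [base_iff (base_ring O) A hwO]
    obtain ⟨x, hx, e⟩ : ∃ x ∈ J, ((v⁻¹ * u : Mˣ) : M) = x + 1 :=
      ⟨_, mem_UU.1 hw, (sub_add_cancel _ _).symm⟩
    rw [e] at h1 ⊢
    intro y hy
    obtain ⟨y', hy', hj, hc⟩ := hA y hy
    have e1 : (A * (x + 1) - (x + 1) * A) * y =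
        (A * (x + 1) - (x + 1) * A) * (y - y') + (A * x * y' + -(x * (A * y'))) := by
      noncomm_ring
    have e2 : τ (A * x * y') * τ (-(x * (A * y'))) = 1 := by
      have a1 : τ (A * x * y') = τ (y' * A * x) := by rw [hτ.comm, mul_assoc]
      have a2 : τ (-(x * (A * y'))) = τ (-(A * y' * x)) := by
        rw [← neg_mul, hτ.comm, mul_neg]
      rw [a1, a2, ← AddChar.map_add_eq_mul]
      have := hc (-x) (neg_mem (hJO x hx))
      rw [← this]; congr 1; noncomm_ring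
    rw [e1, AddChar.map_add_eq_mul, AddChar.map_add_eq_mul, h1 _ hj, e2, one_mul]
  have h3 := base_cj hτ (base_ring O) h2 (base_UO hJO hv)
  rwa [cj_sub, ← cj_mul, mul_inv_cancel_left] at h3

lemma base_fix (hτ : Frob τ) {O : Subring M} {B : M} (hB : B ∈ perp τ (commS O)) {g : Mˣ}
    (hg : (g : M) ∈ O) : cj g B - B ∈ perp τ O.toAddSubgroup := by
  rw [base_iff (base_ring O) B hg]
  intro x hx
  have h1 := hB ((g : M) * x - x * g) (AddSubgroup.subset_closure ⟨g, hg, x, hx, rfl⟩)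
  have e1 : (B * g - g * B) * x = B * (g * x) + -((g : M) * (B * x)) := by noncomm_ring
  have e2 : B * ((g : M) * x - x * g) = B * (g * x) + -(B * x * g) := by noncomm_ring
  have a2 : τ (-((g : M) * (B * x))) = τ (-(B * x * g)) := by
    rw [← neg_mul, hτ.comm, mul_neg]
  rw [e2, AddChar.map_add_eq_mul] at h1
  rw [e1, AddChar.map_add_eq_mul, a2, h1]

lemma base_orb (hτ : Frob τ) {O : Subring M} {J : NonUnitalSubring M} {H : Subgroup Mˣ}
    (hH : ∀ g : Mˣ, g ∈ H ↔ (g : M) ∈ O) (hu : ∀ x ∈ J, IsUnit (1 + x))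
    (hJO : ∀ y ∈ J, y ∈ O) (hid : ∀ x ∈ O, ∀ y ∈ J, x * y ∈ J ∧ y * x ∈ J) {A : M}
    (hA : ∀ y ∈ O, ∃ y' ∈ O, y - y' ∈ J ∧ A * y' - y' * A ∈ perp τ O.toAddSubgroup)
    {A' : M} (hA' : A' ∈ baseT J A (perp τ (commS O))) :
    (orb A').ncard ≤ Nat.card (Mˣ ⧸ H) *
      (Nat.card (baseOm τ J A) * Nat.card (perp τ O.toAddSubgroup)) := by
  obtain ⟨u₀, hu₀, hB⟩ := hA'
  have hex : ∀ w : baseOm τ J A, ∃ u ∈ UU J, w.1 = (cj u A : M) := fun w => w.2
  choose u hu1 hu2 using hex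
  let f : (Mˣ ⧸ H) × baseOm τ J A × perp τ O.toAddSubgroup → M := fun p =>
    cj p.1.out (cj (u p.2.1) A + (A' - cj u₀ A) + p.2.2)
  have hsub : orb A' ⊆ Set.range f := by
    rintro X ⟨g, rfl⟩
    obtain ⟨h, hh⟩ := QuotientGroup.mk_out_eq_mul H g
    have hhO : ((h⁻¹ : H) : Mˣ).1 ∈ O := (hH _).1 (h⁻¹).2
    have hgO : ((((h⁻¹ : H) : Mˣ) * u₀ : Mˣ) : M) ∈ O := by
      rw [Units.val_mul]; exact mul_mem hhO (base_UO hJO hu₀)
    obtain ⟨y', hy', hj, hc⟩ := hA _ hgO
    obtain ⟨v, hv, g', hg', e⟩ := base_split hid hu hgO hj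
    let w : baseOm τ J A := ⟨(cj v A : M), v, hv, rfl⟩
    have r1 : cj v A - cj (u w) A ∈ perp τ O.toAddSubgroup := by
      refine base_refine hτ hJO hid hA hv (hu1 w) ?_
      have := hu2 w
      rw [QuotientAddGroup.eq] at this
      have h2 := neg_mem this
      rwa [neg_add_rev, neg_neg, add_comm, ← sub_eq_add_neg] at h2
    have r2 : cj (v * g') A - cj v A ∈ perp τ O.toAddSubgroup := by
      rw [cj_mul, ← cj_sub]
      refine base_cj hτ (base_ring O) ?_ (base_UO hJO hv)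
      rw [base_iff (base_ring O) A (hg' ▸ hy'), hg']; exact hc
    have r3 := base_fix hτ hB hhO
    refine ⟨((g : Mˣ ⧸ H), w, ⟨_, add_mem (add_mem r1 r2) r3⟩), ?_⟩
    have e2 : cj (u w) A + (A' - cj u₀ A) + (cj v A - cj (u w) A + (cj (v * g') A - cj v A) +
        (cj ((h⁻¹ : H) : Mˣ) (A' - cj u₀ A) - (A' - cj u₀ A))) = cj ((h⁻¹ : H) : Mˣ) A' := by
      rw [← e, cj_sub, cj_mul]; abel
    show cj (g : Mˣ ⧸ H).out (cj (u w) A + (A' - cj u₀ A) + (cj v A - cj (u w) A +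
      (cj (v * g') A - cj v A) +
        (cj ((h⁻¹ : H) : Mˣ) (A' - cj u₀ A) - (A' - cj u₀ A)))) = cj g A'
    rw [e2, hh, ← cj_mul]
    simp
  have h1 := Set.ncard_le_ncard hsub (Set.toFinite _)
  have h2 := Finite.card_range_le f
  rw [Nat.card_prod, Nat.card_prod, Nat.card_coe_set_eq] at h2
  exact h1.trans h2

lemma base_num {k D z h G w p t s : ℝ} (hk : k ≤ D * z) (hk0 : 0 ≤ k) (hD : 0 ≤ D) (hh : 0 < h)
    (hG : 0 < G) (hw : 0 < w) (hp : 0 < p) (hp2 : p * h ≤ 2 * G) (ht : w * (z * p) ≤ t)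
    (hs : 0 ≤ s) (hs2 : s ≤ 2) :
    k * w ^ (-s / 2) ≤ h ^ (-1 - s) * (t * (2 * D * G ^ (1 + s) * (G / h * (w * p)) ^ (-1 - s / 2))) := by
  have hr : 0 < G / h := div_pos hG hh
  have e1 : h ^ (-1 - s) * G ^ (1 + s) = (G / h) ^ (1 + s) := by
    rw [Real.div_rpow hG.le hh.le, show -1 - s = -(1 + s) by ring, Real.rpow_neg hh.le]
    field_simp
  have e2 : (G / h * (w * p)) ^ (-1 - s / 2) =
      (G / h) ^ (-1 - s / 2) * ((w⁻¹ * w ^ (-s / 2)) * (p⁻¹ * p ^ (-s / 2))) := by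
    rw [Real.mul_rpow hr.le (mul_pos hw hp).le, Real.mul_rpow hw.le hp.le,
      show -1 - s / 2 = -1 + -s / 2 by ring, Real.rpow_add hw, Real.rpow_add hp,
      Real.rpow_neg_one, Real.rpow_neg_one]
  have e3 : (G / h) ^ (1 + s) * (G / h) ^ (-1 - s / 2) = (G / h) ^ (s / 2) := by
    rw [← Real.rpow_add hr]; congr 1; ring
  have hp3 : p ≤ 2 * (G / h) := by
    rw [← mul_div_assoc, le_div_iff₀ hh]; exact hp2
  have e4 : 1 ≤ 2 * ((G / h) ^ (s / 2) * p ^ (-s / 2)) := by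
    have a1 : p ^ (s / 2) ≤ (2 * (G / h)) ^ (s / 2) :=
      Real.rpow_le_rpow hp.le hp3 (by linarith)
    rw [Real.mul_rpow (by norm_num) hr.le] at a1
    have a2 : (2 : ℝ) ^ (s / 2) ≤ 2 ^ (1 : ℝ) :=
      Real.rpow_le_rpow_of_exponent_le (by norm_num) (by linarith)
    rw [Real.rpow_one] at a2
    have a3 : 0 < p ^ (s / 2) := Real.rpow_pos_of_pos hp _
    have a4 : 0 < (G / h) ^ (s / 2) := Real.rpow_pos_of_pos hr _
    rw [show -s / 2 = -(s / 2) by ring, Real.rpow_neg hp.le, ← div_eq_mul_inv, ← mul_div_assoc,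
      le_div_iff₀ a3]
    nlinarith
  have hW : 0 < w ^ (-s / 2) := Real.rpow_pos_of_pos hw _
  have hX : 0 ≤ 2 * D * G ^ (1 + s) * (G / h * (w * p)) ^ (-1 - s / 2) := by positivity
  have hY : 0 < h ^ (-1 - s) := Real.rpow_pos_of_pos hh _
  calc k * w ^ (-s / 2) ≤ D * z * w ^ (-s / 2) := mul_le_mul_of_nonneg_right hk hW.le
    _ ≤ D * z * w ^ (-s / 2) * (2 * ((G / h) ^ (s / 2) * p ^ (-s / 2))) :=
        le_mul_of_one_le_right (mul_nonneg (hk0.trans hk) hW.le) e4
    _ = h ^ (-1 - s) * (w * (z * p) *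
          (2 * D * G ^ (1 + s) * (G / h * (w * p)) ^ (-1 - s / 2))) := by
        rw [e2, ← e3, ← e1]; field_simp
    _ ≤ _ := mul_le_mul_of_nonneg_left (mul_le_mul_of_nonneg_right ht hX) hY.le

/-- the invariant case -/
theorem base_case (O : Subring M) (J : NonUnitalSubring M) {L : M → M} {H : Subgroup Mˣ}
    (hH : ∀ g : Mˣ, g ∈ H ↔ (g : M) ∈ O) (h : Sit τ J J L H)
    (hJO : ∀ y ∈ J, y ∈ O) (hid : ∀ x ∈ O, ∀ y ∈ J, x * y ∈ J ∧ y * x ∈ J) (A : M)
    (hA : ∀ y ∈ O, ∃ y' ∈ O, y - y' ∈ J ∧ A * y' - y' * A ∈ perp τ O.toAddSubgroup)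
    (k z : ℕ) (D : ℝ) (hk : (k : ℝ) ≤ D * z)
    (hz : z * Nat.card (J.toAddSubgroup ⊔ commS O : AddSubgroup M) ≤ Nat.card O)
    (c : H → Fin k) (hc : ∀ x y : H, c x = c y → ∃ g u : H, u.1 ∈ UU J ∧ y = g * x * g⁻¹ * u)
    (hM : Nat.card M ≤ 2 * Nat.card Mˣ) {s : ℝ} (hs : 0 ≤ s) (hs2 : s ≤ 2) :
    Zs H (fun χ => Sup τ J L H χ ⊆ cls τ J (UU J) A) s ≤ (Nat.card H : ℝ) ^ (-1 - s) *
      sumOn (cls τ J (UU J) A)
        (fun B => 2 * D * (Nat.card Mˣ : ℝ) ^ (1 + s) * ((orb B).ncard : ℝ) ^ (-1 - s / 2)) := by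
  classical
  have hτ := h.frob
  set S : AddSubgroup M := J.toAddSubgroup ⊔ commS O with hS
  set w : ℕ := Nat.card (baseOm τ J A) with hw
  set p : ℕ := Nat.card (perp τ O.toAddSubgroup) with hp
  have hw0 : 0 < w := by
    have : Nonempty (baseOm τ J A) := ⟨⟨_, 1, one_mem _, rfl⟩⟩
    exact Nat.card_pos
  have hp0 : 0 < p := Nat.card_pos
  have hk1 : 1 ≤ k := (c 1).pos
  have hD : 0 ≤ D := by
    by_contra hn
    have : D * z ≤ 0 := mul_nonpos_of_nonpos_of_nonneg (not_le.1 hn).le (Nat.cast_nonneg _)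
    have h1 : (1 : ℝ) ≤ k := by exact_mod_cast hk1
    linarith
  have hH0 : 0 < Nat.card H := Nat.card_pos
  have hG0 : 0 < Nat.card Mˣ := Nat.card_pos
  -- the left side
  have hL : Zs H (fun χ => Sup τ J L H χ ⊆ cls τ J (UU J) A) s ≤ k * (w : ℝ) ^ (-s / 2) := by
    unfold Zs
    refine (Finset.sum_le_card_nsmul _ _ ((w : ℝ) ^ (-s / 2)) ?_).trans ?_
    · intro χ hχ
      obtain ⟨h1, h2⟩ := Finset.mem_filter.1 hχ
      have a1 := h.dim_ge h1 h2
      have a2 : w * Nat.card (perp τ J.toAddSubgroup) ≤ (cls τ J (UU J) A).ncard :=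
        base_lower (τ := τ) J A le_rfl
      have a3 : (0 : ℝ) < Nat.card (perp τ J.toAddSubgroup) := by exact_mod_cast Nat.card_pos
      have a4 : (w : ℝ) * Nat.card (perp τ J.toAddSubgroup) ≤ (cls τ J (UU J) A).ncard := by
        exact_mod_cast a2
      have a5 : (w : ℝ) ≤ ‖χ 1‖ ^ 2 := by
        have := a4.trans a1
        rw [mul_comm] at this
        exact le_of_mul_le_mul_left this a3
      have a6 := Real.rpow_le_rpow_of_nonpos (z := -s / 2) (by exact_mod_cast hw0) a5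
        (by linarith)
      refine le_trans (le_of_eq ?_) a6
      rw [← Real.rpow_natCast, ← Real.rpow_mul (norm_nonneg _)]
      congr 1; push_cast; ring
    · rw [nsmul_eq_mul]
      refine mul_le_mul_of_nonneg_right ?_ (Real.rpow_nonneg (Nat.cast_nonneg _) _)
      have := h.count A k c hc
      exact_mod_cast (by convert this)
  refine hL.trans ?_
  -- sizes
  have hSJ : perp τ S ≤ perp τ J.toAddSubgroup := perp_anti le_sup_left
  have hSC : perp τ S ≤ perp τ (commS O) := perp_anti le_sup_right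
  have c1 := hτ.card_perp S
  have c2 : Nat.card O * p = Nat.card M := hτ.card_perp O.toAddSubgroup
  have hzp : z * p ≤ Nat.card (perp τ S) := by
    have hS0 : 0 < Nat.card S := Nat.card_pos
    refine le_of_mul_le_mul_left ?_ hS0
    calc Nat.card S * (z * p) = z * Nat.card S * p := by ring
      _ ≤ Nat.card O * p := Nat.mul_le_mul_right _ hz
      _ = _ := by rw [c2, c1]
  have hT : w * (z * p) ≤ (baseT J A (perp τ S)).ncard :=
    (Nat.mul_le_mul_left _ hzp).trans (base_lower J A hSJ)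
  have hHO : Nat.card H ≤ Nat.card O :=
    Nat.card_le_card_of_injective (fun g : H => (⟨g.1.1, (hH _).1 g.2⟩ : O)) (fun a b e =>
      Subtype.ext (Units.ext (congrArg Subtype.val e)))
  have hp2 : p * Nat.card H ≤ 2 * Nat.card Mˣ := by
    calc p * Nat.card H ≤ p * Nat.card O := Nat.mul_le_mul_left _ hHO
      _ = Nat.card M := by rw [mul_comm, c2]
      _ ≤ _ := hM
  have hq : (Nat.card (Mˣ ⧸ H) : ℝ) = (Nat.card Mˣ : ℝ) / Nat.card H := by
    rw [Subgroup.card_eq_card_quotient_mul_card_subgroup H, Nat.cast_mul,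
      mul_div_cancel_right₀ _ (by exact_mod_cast hH0.ne')]
  refine (base_num (t := (baseT J A (perp τ S)).ncard) (h := Nat.card H) (G := Nat.card Mˣ)
    (p := p) hk (Nat.cast_nonneg _) hD (by exact_mod_cast hH0) (by exact_mod_cast hG0)
    (by exact_mod_cast hw0) (by exact_mod_cast hp0) (by exact_mod_cast hp2)
    (by exact_mod_cast hT) hs hs2).trans ?_
  refine mul_le_mul_of_nonneg_left ?_ (Real.rpow_nonneg (Nat.cast_nonneg _) _)
  unfold sumOn
  have hsub : Finset.univ.filter (· ∈ baseT J A (perp τ S)) ⊆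
      Finset.univ.filter (· ∈ cls τ J (UU J) A) := by
    intro B hB
    obtain ⟨u, hu, hB'⟩ := (Finset.mem_filter.1 hB).2
    exact Finset.mem_filter.2 ⟨Finset.mem_univ _, u, hu, hSJ hB'⟩
  refine le_trans ?_ (Finset.sum_le_sum_of_subset_of_nonneg (by convert hsub)
    (fun B _ _ => by positivity))
  have hcard : (baseT J A (perp τ S)).ncard =
      (Finset.univ.filter (· ∈ baseT J A (perp τ S))).card := by
    rw [← Set.ncard_coe_finset]; congr 1; ext B; simp
  rw [hcard, ← nsmul_eq_mul]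
  refine Finset.card_nsmul_le_sum _ _ _ (fun B hB => ?_)
  obtain ⟨u, hu, hB'⟩ := (Finset.mem_filter.1 hB).2
  have o1 := base_orb hτ hH h.om.unit hJO hid hA (A' := B) ⟨u, hu, hSC hB'⟩
  have o2 : 0 < (orb B).ncard :=
    (Set.ncard_pos (Set.toFinite _)).2 ⟨B, 1, (cj_one B).symm⟩
  refine mul_le_mul_of_nonneg_left ?_ (by positivity)
  refine Real.rpow_le_rpow_of_nonpos (by exact_mod_cast o2) ?_ (by linarith)
  rw [← hq]
  exact_mod_cast o1

end Pool.Agent.MP_8299d6_al.Up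

end
end

section

open Matrix
open Classical Finset

set_option linter.unusedSectionVars false

noncomputable section

namespace Pool.Agent.MP_8299d6_al.Up

open Pool.Agent.MP_810665_al (IrrChar)

variable {n p : ℕ} [Fact p.Prime]

lemma lv1_dvd {a b : ℕ} {x : ZMod (p ^ (a + b))} (h : (p : ZMod (p ^ (a + b))) ^ a * x = 0) :
    (p : ZMod (p ^ (a + b))) ^ b ∣ x := by
  obtain ⟨y, rfl⟩ := ZMod.natCast_zmod_surjective x
  have hp : 0 < p ^ a := pow_pos (Fact.out : p.Prime).pos a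
  rw [← Nat.cast_pow, ← Nat.cast_mul, ZMod.natCast_eq_zero_iff, pow_add,
    Nat.mul_dvd_mul_iff_left hp] at h
  rw [← Nat.cast_pow]
  exact Nat.cast_dvd_cast h

lemma lv1_pow (m : ℕ) : (p : ZMod (p ^ m)) ^ m = 0 := by
  rw [← Nat.cast_pow, ZMod.natCast_self]

lemma lv1_pI {R : Type} [CommRing R] {a : R} {x : Mat n R} : x ∈ pI n R a ↔ ∃ y, x = a • y := by
  constructor
  · intro h
    choose y hy using h
    exact ⟨Matrix.of y, by ext i j; simp [hy]⟩
  · rintro ⟨y, rfl⟩ i j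
    exact Dvd.intro _ rfl

lemma lv1_top {m : ℕ} {x : Mat n (ZMod (p ^ (m + 1)))} :
    (p : ZMod (p ^ (m + 1))) ^ m • x = 0 ↔ redP n p m x = 0 := by
  rw [redP_eq_zero]
  constructor
  · intro h i j
    have := lv1_dvd (a := m) (b := 1) (congrFun (congrFun h i) j)
    rwa [pow_one] at this
  · intro h
    obtain ⟨y, rfl⟩ := lv1_pI.1 h
    rw [smul_smul, ← pow_succ, lv1_pow, zero_smul]

lemma lv1_bot {m : ℕ} {x : Mat n (ZMod (p ^ (m + 1)))} :
    (p : ZMod (p ^ (m + 1))) • x = 0 ↔ redM n p m x = 0 := by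
  rw [redM_eq_zero]
  constructor
  · intro h i j
    have key : ∀ k, k = 1 + m → ∀ y : ZMod (p ^ k), (p : ZMod (p ^ k)) * y = 0 →
        (p : ZMod (p ^ k)) ^ m ∣ y := by
      rintro k rfl y hy
      exact lv1_dvd (by rwa [pow_one])
    exact key _ (add_comm _ _) _ (congrFun (congrFun h i) j)
  · intro h
    obtain ⟨y, rfl⟩ := lv1_pI.1 h
    rw [smul_smul, ← pow_succ', lv1_pow, zero_smul]

lemma lv1_cent {M : Type} [Ring M] {A x : M} : x ∈ cent A ↔ A * x - x * A = 0 := by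
  unfold cent
  rw [Subring.mem_centralizer_iff, sub_eq_zero]
  simp

lemma lv1_card (N : ℕ) : Nat.card (Mat n (ZMod N)) = N ^ (n ^ 2) := by
  unfold Mat Matrix
  rw [Nat.card_fun, Nat.card_fun, Nat.card_zmod, Nat.card_eq_fintype_card, Fintype.card_fin,
    ← pow_mul, sq]

/-- the matrix `p ^ m B` -/
def lv1up (m : ℕ) (B : Mat n (ZMod p)) : Mat n (ZMod (p ^ (m + 1))) :=
  (p : ZMod (p ^ (m + 1))) ^ m • Function.surjInv (redP_surj n p m) B

lemma lv1up_red {m : ℕ} (y : Mat n (ZMod (p ^ (m + 1)))) :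
    lv1up m (redP n p m y) = (p : ZMod (p ^ (m + 1))) ^ m • y := by
  unfold lv1up
  rw [← sub_eq_zero, ← smul_sub, lv1_top, map_sub, Function.surjInv_eq (redP_surj n p m), sub_self]

lemma lv1up_inj (m : ℕ) : Function.Injective (lv1up (n := n) (p := p) m) := by
  intro B C h
  unfold lv1up at h
  rwa [← sub_eq_zero, ← smul_sub, lv1_top, map_sub, Function.surjInv_eq (redP_surj n p m),
    Function.surjInv_eq (redP_surj n p m), sub_eq_zero] at h

lemma lv1_lift {m : ℕ} {A A' : Mat n (ZMod (p ^ (m + 1)))} :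
    redM n p m A' = redM n p m A ↔ ∃ B, A + lv1up m B = A' := by
  rw [← sub_eq_zero, ← map_sub, redM_eq_zero, lv1_pI]
  constructor
  · rintro ⟨y, hy⟩
    exact ⟨_, by rw [lv1up_red, ← hy, add_sub_cancel]⟩
  · rintro ⟨B, rfl⟩
    exact ⟨_, by rw [add_sub_cancel_left]; rfl⟩

lemma lv1_comm {R : Type} [CommRing R] (a c : R) (B x : Mat n R) :
    (a • 1 + c • B) * x - x * (a • 1 + c • B) = c • (B * x - x * B) := by
  simp only [add_mul, mul_add, smul_mul_assoc, mul_smul_comm, one_mul, mul_one, smul_sub]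
  abel

lemma lv1_redP_smul {m : ℕ} (c : ZMod p) :
    ∃ a : ZMod (p ^ (m + 1)), redP n p m (a • 1) = c • 1 := by
  obtain ⟨a, rfl⟩ := ZMod.natCast_zmod_surjective c
  exact ⟨a, by rw [Nat.cast_smul_eq_nsmul, Nat.cast_smul_eq_nsmul, map_nsmul, map_one]⟩

lemma lv1_card_cent (m : ℕ) (A : Mat n (ZMod (p ^ (m + 1)))) :
    Nat.card (cent A) = Nat.card (cent (redM n p m A)) * Nat.card (sh n p m A) := by
  let g : cent A →+ Mat n (ZMod p) :=
    (redP n p m).toAddMonoidHom.comp (cent A).subtype.toAddMonoidHom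
  have h1 : Nat.card g.range = Nat.card (sh n p m A) :=
    Nat.card_congr (Equiv.subtypeEquivRight fun x =>
      ⟨fun ⟨y, hy⟩ => ⟨y.1, y.2, hy⟩, fun ⟨y, a, b⟩ => ⟨⟨y, a⟩, b⟩⟩)
  have hs := Function.surjInv_eq (redM_surj n p m)
  have h0 : ∀ y, (p : ZMod (p ^ (m + 1))) • y ∈ cent A ↔ redM n p m y ∈ cent (redM n p m A) :=
    fun y => by
      rw [lv1_cent, lv1_cent, ← map_mul, ← map_mul, ← map_sub, ← lv1_bot, mul_smul_comm,
        smul_mul_assoc, smul_sub]
  have h2 : Nat.card (cent (redM n p m A)) = Nat.card g.ker := by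
    refine Nat.card_congr (Equiv.ofBijective (fun x =>
      ⟨⟨(p : ZMod (p ^ (m + 1))) • Function.surjInv (redM_surj n p m) x.1,
        (h0 _).2 (by rw [hs]; exact x.2)⟩, (redP_eq_zero _).2 (lv1_pI.2 ⟨_, rfl⟩)⟩) ⟨?_, ?_⟩)
    · intro x y h
      have h' := congrArg (fun z => z.1.1) h
      simp only at h'
      rw [← sub_eq_zero, ← smul_sub, lv1_bot, map_sub, hs, hs, sub_eq_zero] at h'
      exact Subtype.ext h'
    · rintro ⟨⟨z, hz⟩, hz'⟩
      obtain ⟨y, rfl⟩ := lv1_pI.1 ((redP_eq_zero z).1 hz')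
      refine ⟨⟨redM n p m y, (h0 y).1 hz⟩, Subtype.ext (Subtype.ext ?_)⟩
      simp only
      rw [← sub_eq_zero, ← smul_sub, lv1_bot, map_sub, hs, sub_self]
  rw [h2, ← h1, mul_comm, ← Nat.card_congr (QuotientAddGroup.quotientKerEquivRange g).toEquiv]
  exact AddSubgroup.card_eq_card_quotient_mul_card_addSubgroup _

lemma lv1_cc_scal {R : Type} [CommRing R] [Finite R] {A : Mat n R} (h : IsScal A) : cc A = 1 := by
  obtain ⟨a, rfl⟩ := h
  have : cent (a • (1 : Mat n R)) = ⊤ := by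
    rw [eq_top_iff]
    intro x _
    rw [lv1_cent, smul_mul_assoc, mul_smul_comm, one_mul, mul_one, sub_self]
  unfold cc
  rw [this, Nat.card_congr Subring.topEquiv.toEquiv, div_self]
  exact_mod_cast Nat.card_pos.ne'

lemma lv1_sh {m : ℕ} (a : ZMod (p ^ (m + 1))) (B : Mat n (ZMod p)) :
    sh n p m (a • 1 + lv1up m B) = cent B := by
  obtain ⟨y, rfl⟩ := redP_surj n p m B
  ext x
  obtain ⟨φ, rfl⟩ := redP_surj n p m x
  have h : ∀ ψ, ψ ∈ cent (a • 1 + lv1up m (redP n p m y)) ↔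
      redP n p m ψ ∈ cent (redP n p m y) := fun ψ => by
    rw [lv1_cent, lv1_cent, lv1up_red, lv1_comm, lv1_top, map_sub, map_mul, map_mul]
  exact ⟨fun ⟨ψ, a, b⟩ => b ▸ (h ψ).1 a, fun h' => ⟨φ, (h φ).2 h', rfl⟩⟩

lemma lv1_trace {m : ℕ} {A y φ ψ : Mat n (ZMod (p ^ (m + 1)))} (hφ : φ ∈ cent A)
    (hψ : ψ ∈ cent (A + (p : ZMod (p ^ (m + 1))) ^ m • y)) :
    trace (redP n p m y * (redP n p m φ * redP n p m ψ - redP n p m ψ * redP n p m φ)) = 0 := by
  rw [lv1_cent, sub_eq_zero] at hφ hψ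
  have h1 : trace (ψ * ((A + (p : ZMod (p ^ (m + 1))) ^ m • y) * φ)) =
      trace (ψ * (φ * (A + (p : ZMod (p ^ (m + 1))) ^ m • y))) := by
    rw [← mul_assoc, ← hψ, mul_assoc, trace_mul_comm, mul_assoc]
  rw [add_mul, mul_add, mul_add, mul_add, hφ, trace_add, trace_add, add_right_inj, smul_mul_assoc,
    mul_smul_comm, mul_smul_comm, mul_smul_comm, trace_smul, trace_smul, trace_mul_comm ψ,
    ← mul_assoc ψ, trace_mul_comm _ y, mul_assoc, ← sub_eq_zero, ← smul_sub, ← trace_sub,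
    ← mul_sub, smul_eq_mul] at h1
  obtain ⟨c, hc⟩ := lv1_dvd (a := m) (b := 1) h1
  rw [← map_mul, ← map_mul, ← map_sub, ← map_mul]
  have h2 := AddMonoidHom.map_trace
    (ZMod.castHom (dvd_pow_self p (Nat.succ_ne_zero m)) (ZMod p)) (y * (φ * ψ - ψ * φ))
  refine h2.symm.trans ?_
  rw [hc, pow_one, map_mul, map_natCast, ZMod.natCast_self, zero_mul]

lemma lv1_tau (N : ℕ) [NeZero N] (x : Mat n (ZMod N)) :
    tau n N x = ZMod.stdAddChar (trace x) := rfl

lemma lv1_sumOn {X Y Z : Type} [Fintype X] [Fintype Y] [Fintype Z] (S : Set X) (T : Set Y)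
    (f : X → ℝ) (g : Y → ℝ) (F : Z → Y → X) (h0 : ∀ x, 0 ≤ f x) (h1 : ∀ z y, f (F z y) = g y)
    (h2 : ∀ x ∈ S, ∃ z, ∃ y ∈ T, F z y = x) : sumOn S f ≤ Fintype.card Z * sumOn T g := by
  unfold sumOn
  refine le_trans (sum_le_sum_of_subset_of_nonneg (t := ((univ : Finset Z) ×ˢ
    univ.filter (· ∈ T)).image fun z => F z.1 z.2) (fun x hx => ?_) fun x _ _ => h0 x)
    ((sum_image_le_of_nonneg fun x _ => h0 x).trans (le_of_eq ?_))
  · obtain ⟨z, y, a, b⟩ := h2 x (mem_filter.1 hx).2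
    exact mem_image.2 ⟨(z, y), mem_product.2 ⟨mem_univ _, mem_filter.2 ⟨mem_univ _, a⟩⟩, b⟩
  · simp only [h1]
    rw [sum_product]
    simp only [sum_const, card_univ, nsmul_eq_mul]

theorem cc_step (m : ℕ) (A : Mat n (ZMod (p ^ (m + 1)))) :
    cc A = cc (redM n p m A) * (Nat.card (sh n p m A) : ℝ) / (p : ℝ) ^ (n ^ 2) := by
  have hp : (0 : ℝ) < p := by exact_mod_cast (Fact.out : p.Prime).pos
  unfold cc
  rw [lv1_card_cent, lv1_card, lv1_card]
  push_cast
  rw [pow_succ (p : ℝ) m, mul_pow]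
  field_simp

theorem sh_le (m : ℕ) (A : Mat n (ZMod (p ^ (m + 1 + 1)))) :
    sh n p (m + 1) A ≤ sh n p m (redM n p (m + 1) A) := by
  rintro x ⟨φ, hφ, rfl⟩
  refine ⟨redM n p (m + 1) φ, ?_, ?_⟩
  · refine lv1_cent.2 ?_
    rw [← map_mul, ← map_mul, ← map_sub, lv1_cent.1 hφ, map_zero]
  · ext i j
    exact DFunLike.congr_fun (ZMod.castHom_comp (dvd_pow_self p (Nat.succ_ne_zero m))
      (pow_dvd_pow p (Nat.le_succ (m + 1)))) (φ i j)

theorem sh_central (m : ℕ) (A : Mat n (ZMod (p ^ (m + 1)))) (hA : ¬ IsScal A) :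
    ∃ z ∈ sh n p m A, ¬ IsScal z ∧ ∀ x ∈ sh n p m A, z * x = x * z := by
  have key : ∀ d j, j + d = m + 1 → ∀ (a : ZMod (p ^ (m + 1))) (B : Mat n (ZMod (p ^ (m + 1)))),
      A = a • 1 + (p : ZMod (p ^ (m + 1))) ^ j • B →
      ∃ z ∈ sh n p m A, ¬ IsScal z ∧ ∀ x ∈ sh n p m A, z * x = x * z := by
    intro d
    induction d with
    | zero =>
      intro j hj a B h
      rw [add_zero] at hj
      rw [hj, lv1_pow, zero_smul, add_zero] at h
      exact absurd ⟨a, h⟩ hA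
    | succ d ih =>
      intro j hj a B h
      by_cases hB : IsScal (redP n p m B)
      · obtain ⟨c, hc⟩ := hB
        obtain ⟨b, hb⟩ := lv1_redP_smul (n := n) (m := m) c
        rw [← hb, ← sub_eq_zero, ← map_sub, redP_eq_zero, lv1_pI] at hc
        obtain ⟨y, hy⟩ := hc
        refine ih (j + 1) (by omega) (a + (p : ZMod (p ^ (m + 1))) ^ j * b) y ?_
        rw [h, pow_succ (p : ZMod (p ^ (m + 1))) j, mul_smul, ← hy, add_smul, mul_smul, smul_sub]
        abel
      · refine ⟨_, ⟨B, lv1_cent.2 ?_, rfl⟩, hB, ?_⟩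
        · rw [h, lv1_comm, sub_self, smul_zero]
        · rintro x ⟨φ, hφ, rfl⟩
          replace hφ := lv1_cent.1 hφ
          rw [h, lv1_comm] at hφ
          rw [← sub_eq_zero, ← map_mul, ← map_mul, ← map_sub, ← lv1_top]
          have e : (p : ZMod (p ^ (m + 1))) ^ m = (p : ZMod (p ^ (m + 1))) ^ d *
              (p : ZMod (p ^ (m + 1))) ^ j := by
            rw [← pow_add]; congr 1; omega
          rw [e, mul_smul, hφ, smul_zero]
  exact key (m + 1) 0 (zero_add _) 0 A (by simp)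

theorem card_fiber (m : ℕ) (A : Mat n (ZMod (p ^ m))) :
    (univ.filter (fun A' => redM n p m A' = A)).card = p ^ (n ^ 2) := by
  obtain ⟨A₀, rfl⟩ := redM_surj n p m A
  have : univ.filter (fun A' => redM n p m A' = redM n p m A₀) =
      univ.image fun B => A₀ + lv1up m B := by
    ext x
    simp only [mem_filter, mem_univ, true_and, mem_image, lv1_lift]
  rw [this, card_image_of_injective _ fun B C h => lv1up_inj m (add_left_cancel h), card_univ,
    ← Nat.card_eq_fintype_card, lv1_card]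

theorem card_stay (m : ℕ) (A : Mat n (ZMod (p ^ (m + 1)))) :
    (univ.filter (fun A' => redM n p (m + 1) A' = A ∧ sh n p (m + 1) A' = sh n p m A)).card
      * Nat.card (commS (sh n p m A)) ≤ p ^ (n ^ 2) := by
  rcases (univ.filter (fun A' => redM n p (m + 1) A' = A ∧
    sh n p (m + 1) A' = sh n p m A)).eq_empty_or_nonempty with h | ⟨A₀, h⟩
  · rw [h, card_empty, zero_mul]
    exact Nat.zero_le _
  obtain ⟨h1, h2⟩ := (mem_filter.1 h).2
  rw [← lv1_card p, ← (frob_tau n p).card_perp (commS (sh n p m A)), mul_comm]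
  refine Nat.mul_le_mul_left _ ?_
  refine le_trans (card_le_card (t := (univ.filter fun B =>
    B ∈ perp (tau n p) (commS (sh n p m A))).image fun B => A₀ + lv1up (m + 1) B)
    fun A₁ hA => ?_) (card_image_le.trans (le_of_eq ?_))
  · obtain ⟨h3, h4⟩ := (mem_filter.1 hA).2
    obtain ⟨B, rfl⟩ := lv1_lift.1 (h3.trans h1.symm)
    refine mem_image.2 ⟨B, mem_filter.2 ⟨mem_univ _, fun z hz => ?_⟩, rfl⟩
    obtain ⟨y, rfl⟩ := redP_surj n p (m + 1) B
    induction hz using AddSubgroup.closure_induction with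
    | mem z hz =>
      obtain ⟨x, hx, w, hw, rfl⟩ := hz
      rw [← h2] at hx
      rw [← h4, lv1up_red] at hw
      obtain ⟨φ, hφ, rfl⟩ := hx
      obtain ⟨ψ, hψ, rfl⟩ := hw
      rw [lv1_tau, lv1_trace hφ hψ, AddChar.map_zero_eq_one]
    | zero => rw [mul_zero, AddChar.map_zero_eq_one]
    | add x w _ _ a b => rw [mul_add, AddChar.map_add_eq_mul, a, b, one_mul]
    | neg x _ a => rw [mul_neg, AddChar.map_neg_eq_inv, a, inv_one]
  · rw [Nat.card_eq_fintype_card, Fintype.card_subtype]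

theorem first_level (m : ℕ) (t : ℝ) :
    sumOn {A : Mat n (ZMod (p ^ (m + 1))) | ¬ IsScal A ∧ IsScal (redM n p m A)} (fun A => cc A ^ t)
      ≤ (p : ℝ) ^ m * sumOn {B : Mat n (ZMod p) | ¬ IsScal B} (fun B => cc B ^ t) := by
  have hc : ∀ (a : ZMod (p ^ (m + 1))) (B : Mat n (ZMod p)),
      IsScal (redM n p m (a • 1 + lv1up m B)) := fun a B => by
    rw [lv1_lift.2 ⟨B, rfl⟩]
    obtain ⟨a, rfl⟩ := ZMod.natCast_zmod_surjective a
    exact ⟨a, by rw [Nat.cast_smul_eq_nsmul, Nat.cast_smul_eq_nsmul, map_nsmul, map_one]⟩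
  refine (lv1_sumOn _ {B : Mat n (ZMod p) | ¬ IsScal B} _ (fun B => cc B ^ t)
    (fun (a : ZMod (p ^ m)) B => (a.val : ZMod (p ^ (m + 1))) • 1 + lv1up m B)
    (fun A => Real.rpow_nonneg (div_nonneg (Nat.cast_nonneg _) (Nat.cast_nonneg _)) t)
    (fun a B => ?_) ?_).trans (le_of_eq (by rw [ZMod.card, Nat.cast_pow]))
  · have e : cc ((a.val : ZMod (p ^ (m + 1))) • 1 + lv1up m B) = cc B := by
      rw [cc_step, lv1_cc_scal (hc _ _), lv1_sh, one_mul, cc, lv1_card, Nat.cast_pow]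
    exact congrArg (· ^ t) e
  · rintro A ⟨h1, a, h2⟩
    obtain ⟨B, rfl⟩ := (lv1_lift (A := (a.val : ZMod (p ^ (m + 1))) • 1) (A' := A)).1 (by
      rw [h2, Nat.cast_smul_eq_nsmul, map_nsmul, map_one, ← Nat.cast_smul_eq_nsmul (ZMod (p ^ m)),
        ZMod.natCast_zmod_val])
    refine ⟨a, B, ?_, rfl⟩
    rintro ⟨c, hc'⟩
    obtain ⟨b, hb⟩ := lv1_redP_smul (n := n) (m := m) c
    refine h1 ⟨a.val + (p : ZMod (p ^ (m + 1))) ^ m * b, ?_⟩
    rw [hc', ← hb, lv1up_red, add_smul, mul_smul]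

theorem card_scal (m : ℕ) :
    (univ.filter (fun A : Mat n (ZMod (p ^ m)) => IsScal A)).card ≤ p ^ m := by
  refine le_trans (card_le_card (t := univ.image fun a : ZMod (p ^ m) => a • (1 : Mat n _))
    fun A hA => ?_) (card_image_le.trans (by rw [card_univ, ZMod.card]))
  obtain ⟨a, rfl⟩ := (mem_filter.1 hA).2
  exact mem_image_of_mem _ (mem_univ a)

end Pool.Agent.MP_8299d6_al.Up

end
end

section

open Matrix
open MvPolynomial

noncomputable section

namespace Pool.Agent.MP_8299d6_al.Up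

open Pool.Agent.MP_810665_al (IrrChar)

section Newton

variable {F : Type} [Field F] {A : Type} [CommRing A] [Algebra F A] {N : ℕ}

/-- first order expansion of a polynomial -/
lemma bez_taylor (H : Ideal A) (u h : Fin N → A) (hh : ∀ j, h j ∈ H) (p : MvPolynomial (Fin N) F) :
    aeval (u + h) p - aeval u p - ∑ j, aeval u (pderiv j p) * h j ∈ H * H := by
  induction p using MvPolynomial.induction_on with
  | C a => simp
  | add p q hp hq =>
    have := Ideal.add_mem _ hp hq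
    simp only [map_add, add_mul, Finset.sum_add_distrib]
    convert this using 1
    ring
  | mul_X p n hp =>
    have h1 : (∑ j, aeval u (pderiv j p) * h j) * h n ∈ H * H :=
      Ideal.mul_mem_mul (Ideal.sum_mem _ fun j _ => Ideal.mul_mem_left _ _ (hh j)) (hh n)
    have h2 := Ideal.add_mem _ (Ideal.mul_mem_right (u n + h n) _ hp) h1
    have h3 : ∑ j, aeval u (pderiv j (p * X n)) * h j =
        (∑ j, aeval u (pderiv j p) * h j) * u n + aeval u p * h n := by
      have h4 : ∀ j, aeval u (pderiv j (p * X n)) * h j =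
          aeval u (pderiv j p) * h j * u n + (if n = j then aeval u p * h j else 0) := by
        intro j
        rw [pderiv_mul, pderiv_X, map_add, map_mul, map_mul, aeval_X]
        by_cases hj : n = j
        · subst hj
          simp
          ring
        · simp [hj]
          ring
      simp only [h4, Finset.sum_add_distrib, Finset.sum_mul, Finset.sum_ite_eq, Finset.mem_univ,
        if_true]
    rw [h3, map_mul, map_mul, aeval_X, aeval_X, Pi.add_apply]
    convert h2 using 1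
    ring

lemma bez_congr (H : Ideal A) (u w : Fin N → A) (hh : ∀ j, u j - w j ∈ H)
    (p : MvPolynomial (Fin N) F) : aeval u p - aeval w p ∈ H := by
  induction p using MvPolynomial.induction_on with
  | C a => simp
  | add p q hp hq =>
    have := Ideal.add_mem _ hp hq
    simp only [map_add]
    convert this using 1
    ring
  | mul_X p n hp =>
    have := Ideal.add_mem _ (Ideal.mul_mem_right (u n) _ hp)
      (Ideal.mul_mem_left _ (aeval w p) (hh n))
    rw [map_mul, map_mul, aeval_X, aeval_X]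
    convert this using 1
    ring

lemma bez_const (x : Fin N → F) (p : MvPolynomial (Fin N) F) :
    aeval (fun j => algebraMap F A (x j)) p = algebraMap F A (eval x p) := by
  rw [← coe_aeval_eq_eval]
  exact aeval_algebraMap_apply A x p

/-- successive approximation at a nonsingular zero -/
lemma bez_newton (I : Ideal A) (f : Fin N → MvPolynomial (Fin N) F) (x : Fin N → F)
    (h0 : ∀ i, eval x (f i) = 0) (hd : (Matrix.of (fun i j => eval x (pderiv j (f i)))).det ≠ 0)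
    (y : Fin N → A) (hy : ∀ i, y i ∈ I) (K : ℕ) :
    ∃ u : Fin N → A, (∀ j, u j - algebraMap F A (x j) ∈ I) ∧
      ∀ i, aeval u (f i) - y i ∈ I ^ (K + 1) := by
  induction K with
  | zero =>
    refine ⟨fun j => algebraMap F A (x j), fun j => by simp, fun i => ?_⟩
    rw [bez_const, h0, map_zero, zero_sub, zero_add, pow_one]
    exact neg_mem (hy i)
  | succ K ih =>
    obtain ⟨u, hu, hr⟩ := ih
    set M : Matrix (Fin N) (Fin N) F := Matrix.of (fun i j => eval x (pderiv j (f i))) with hM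
    have hMi : M * M⁻¹ = 1 := Matrix.mul_nonsing_inv M (isUnit_iff_ne_zero.mpr hd)
    set h : Fin N → A := fun j => -∑ l, algebraMap F A (M⁻¹ j l) * (aeval u (f l) - y l) with hh
    have hm : ∀ j, h j ∈ I ^ (K + 1) := fun j =>
      neg_mem (Ideal.sum_mem _ fun l _ => Ideal.mul_mem_left _ _ (hr l))
    have hle : I ^ (K + 1) ≤ I := Ideal.pow_le_self (by omega)
    refine ⟨u + h, fun j => ?_, fun i => ?_⟩
    · have := Ideal.add_mem _ (hu j) (hle (hm j))
      rw [Pi.add_apply]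
      convert this using 1
      ring
    · have t1 : aeval (u + h) (f i) - aeval u (f i) - ∑ j, aeval u (pderiv j (f i)) * h j ∈
          I ^ (K + 1 + 1) := by
        refine (show I ^ (K + 1) * I ^ (K + 1) ≤ I ^ (K + 1 + 1) from ?_)
          (bez_taylor _ u h hm (f i))
        rw [pow_succ I (K + 1)]
        exact Ideal.mul_mono_right hle
      have t2 : ∑ j, (aeval u (pderiv j (f i)) - algebraMap F A (M i j)) * h j ∈
          I ^ (K + 1 + 1) := by
        refine Ideal.sum_mem _ fun j _ => ?_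
        rw [pow_succ' I (K + 1)]
        refine Ideal.mul_mem_mul ?_ (hm j)
        have := bez_congr I u (fun j => algebraMap F A (x j)) hu (pderiv j (f i))
        rwa [bez_const] at this
      have t3 : ∑ j, algebraMap F A (M i j) * h j = -(aeval u (f i) - y i) := by
        have e1 : ∀ j, algebraMap F A (M i j) * h j =
            -∑ l, algebraMap F A (M i j * M⁻¹ j l) * (aeval u (f l) - y l) := by
          intro j
          simp only [hh, mul_neg, Finset.mul_sum, map_mul, mul_assoc]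
        simp only [e1, Finset.sum_neg_distrib]
        rw [Finset.sum_comm]
        congr 1
        have e2 : ∀ l, ∑ j, algebraMap F A (M i j * M⁻¹ j l) * (aeval u (f l) - y l) =
            if i = l then aeval u (f l) - y l else 0 := by
          intro l
          rw [← Finset.sum_mul, ← map_sum, ← Matrix.mul_apply, hMi, Matrix.one_apply]
          split_ifs <;> simp
        simp only [e2, Finset.sum_ite_eq, Finset.mem_univ, if_true]
      have t4 := Ideal.add_mem _ t1 t2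
      simp only [sub_mul, Finset.sum_sub_distrib] at t4
      rw [t3] at t4
      convert t4 using 1
      ring

end Newton

/-- many polynomials of bounded degree are dependent -/
lemma bez_dep {F : Type} [Field F] {N m : ℕ} {ι : Type} [Fintype ι]
    (v : ι → MvPolynomial (Fin N) F) (hv : ∀ i, (v i).totalDegree ≤ m)
    (hc : (m + 1) ^ N < Fintype.card ι) : ∃ c : ι → F, c ≠ 0 ∧ ∑ i, c i • v i = 0 := by
  classical
  let L : (ι → F) →ₗ[F] ((Fin N → Fin (m + 1)) → F) :=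
    LinearMap.pi fun β => (lcoeff F (Finsupp.equivFunOnFinite.symm fun i => (β i : ℕ))) ∘ₗ
      Fintype.linearCombination F v
  have hk : LinearMap.ker L ≠ ⊥ := LinearMap.ker_ne_bot_of_finrank_lt (by simpa using hc)
  obtain ⟨c, hc1, hc2⟩ := Submodule.exists_mem_ne_zero_of_ne_bot hk
  refine ⟨c, hc2, ?_⟩
  have hdeg : (∑ i, c i • v i).totalDegree ≤ m :=
    totalDegree_finsetSum_le fun i _ => (totalDegree_smul_le _ _).trans (hv i)
  ext n
  rw [coeff_zero]
  by_contra hn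
  have hs : n ∈ (∑ i, c i • v i).support := mem_support_iff.mpr hn
  have hb : ∀ i, n i < m + 1 := fun i =>
    Nat.lt_succ_of_le ((monomial_le_degreeOf i hs).trans ((degreeOf_le_totalDegree _ i).trans hdeg))
  have h1 := congrFun (LinearMap.mem_ker.mp hc1) (fun i => ⟨n i, hb i⟩)
  have h2 : (Finsupp.equivFunOnFinite.symm fun i => n i) = n := by
    ext i
    simp
  simp only [L, LinearMap.pi_apply, LinearMap.comp_apply, lcoeff_apply, h2,
    Fintype.linearCombination_apply, Pi.zero_apply] at h1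
  exact hn h1

/-- an algebraic relation between `N + 1` polynomials in `N` variables -/
lemma bez_rel {F : Type} [Field F] {N δ : ℕ} (f : Fin N → MvPolynomial (Fin N) F)
    (hf : ∀ i, (f i).totalDegree ≤ δ) (j : Fin N) :
    ∃ q : Fin ((N * δ + 1) ^ N + 1) → MvPolynomial (Fin N) F, q ≠ 0 ∧
      ∑ b : Fin ((N * δ + 1) ^ N + 1), X j ^ (b : ℕ) * aeval f (q b) = 0 := by
  classical
  set D := (N * δ + 1) ^ N with hD
  let v : (Fin N → Fin (D + 1)) × Fin (D + 1) → MvPolynomial (Fin N) F :=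
    fun a => X j ^ (a.2 : ℕ) * ∏ i, f i ^ (a.1 i : ℕ)
  have hv : ∀ a, (v a).totalDegree ≤ (N * δ + 1) * D := by
    intro a
    refine (totalDegree_mul _ _).trans ?_
    have h1 : (X j ^ (a.2 : ℕ) : MvPolynomial (Fin N) F).totalDegree ≤ D := by
      rw [totalDegree_X_pow]
      exact Nat.le_of_lt_succ a.2.2
    have h2 : (∏ i, f i ^ (a.1 i : ℕ)).totalDegree ≤ N * (D * δ) := by
      refine (totalDegree_finsetProd _ _).trans ?_
      refine (Finset.sum_le_card_nsmul _ _ (D * δ) fun i _ => ?_).trans (by simp)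
      exact (totalDegree_pow _ _).trans
        (Nat.mul_le_mul (Nat.le_of_lt_succ (a.1 i).2) (hf i))
    nlinarith
  have hc : ((N * δ + 1) * D + 1) ^ N < Fintype.card ((Fin N → Fin (D + 1)) × Fin (D + 1)) := by
    have h1 : ((N * δ + 1) * D + 1) ^ N ≤ ((N * δ + 1) * (D + 1)) ^ N :=
      Nat.pow_le_pow_left (by nlinarith) N
    rw [mul_pow, ← hD] at h1
    have h2 : 0 < (D + 1) ^ N := by positivity
    simp only [Fintype.card_prod, Fintype.card_fun, Fintype.card_fin]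
    nlinarith
  obtain ⟨c, hc0, hc1⟩ := bez_dep v hv hc
  let e : (Fin N → Fin (D + 1)) → (Fin N →₀ ℕ) :=
    fun α => Finsupp.equivFunOnFinite.symm fun i => (α i : ℕ)
  have he : Function.Injective e := by
    intro α β h
    ext i
    simpa [e] using DFunLike.congr_fun h i
  refine ⟨fun b => ∑ α, monomial (e α) (c (α, b)), fun h => hc0 ?_, ?_⟩
  · ext ⟨α, b⟩
    have h1 := congrArg (coeff (e α)) (congrFun h b)
    simpa [coeff_sum, coeff_monomial, he.eq_iff] using h1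
  · rw [← hc1, Fintype.sum_prod_type_right]
    refine Finset.sum_congr rfl fun b _ => ?_
    rw [map_sum, Finset.mul_sum]
    refine Finset.sum_congr rfl fun α _ => ?_
    rw [aeval_monomial, Finsupp.prod_fintype _ _ (by simp), smul_eq_C_mul]
    simp only [v, e, Finsupp.equivFunOnFinite_symm_apply_apply, algebraMap_eq]
    ring

/-- a coordinate takes boundedly many values on the nonsingular zeros -/
lemma bez_coord {F : Type} [Field F] {N δ : ℕ} (f : Fin N → MvPolynomial (Fin N) F)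
    (hf : ∀ i, (f i).totalDegree ≤ δ) (j : Fin N) (x : Fin ((N * δ + 1) ^ N + 1) → Fin N → F)
    (hx : ∀ a, (∀ i, eval (x a) (f i) = 0) ∧
      (Matrix.of (fun i j => eval (x a) (pderiv j (f i)))).det ≠ 0) :
    ¬Function.Injective fun a => x a j := by
  classical
  intro hinj
  obtain ⟨q, hq0, hq⟩ := bez_rel f hf j
  let I : Ideal (MvPolynomial (Fin N) F) := RingHom.ker (constantCoeff (σ := Fin N) (R := F))
  have hI : I ≠ ⊤ := RingHom.ker_ne_top _
  apply hq0
  funext b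
  rw [Pi.zero_apply, ← Ideal.mem_bot, ← Ideal.iInf_pow_eq_bot_of_isDomain I hI, Ideal.mem_iInf]
  intro K
  refine Ideal.pow_le_pow_right (Nat.le_succ K) ?_
  let B := MvPolynomial (Fin N) F ⧸ I ^ (K + 1)
  let π : MvPolynomial (Fin N) F →ₐ[F] B := Ideal.Quotient.mkₐ F (I ^ (K + 1))
  let J : Ideal B := I.map (Ideal.Quotient.mk (I ^ (K + 1)))
  have hJ : J ^ (K + 1) = ⊥ := by
    rw [← Ideal.map_pow, Ideal.map_quotient_self]
  have hy : ∀ i, π (X i) ∈ J := fun i =>
    Ideal.mem_map_of_mem _ (by simp [I, RingHom.mem_ker])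
  choose u hu hr using fun a => bez_newton J f (x a) (hx a).1 (hx a).2 (fun i => π (X i)) hy K
  have hr' : ∀ a, (fun i => aeval (u a) (f i)) = fun i => π (X i) := by
    intro a
    funext i
    have := hr a i
    rwa [hJ, Ideal.mem_bot, sub_eq_zero] at this
  have hrel : (Matrix.vandermonde fun a => u a j) *ᵥ (fun b => π (q b)) = 0 := by
    funext a
    have h1 := congrArg (aeval (u a)) hq
    rw [map_sum, map_zero] at h1
    rw [Pi.zero_apply, ← h1]
    simp only [Matrix.mulVec, dotProduct, Matrix.vandermonde_apply]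
    refine Finset.sum_congr rfl fun b _ => ?_
    rw [map_mul, map_pow, aeval_X, comp_aeval_apply, hr', ← comp_aeval_apply]
    simp
  have hdet : IsUnit (Matrix.vandermonde fun a => u a j).det := by
    rw [Matrix.det_vandermonde]
    refine IsUnit.prod_univ_iff.mpr fun a => IsUnit.prod_iff.mpr fun a' ha' => ?_
    have hne : x a' j - x a j ≠ 0 := fun h =>
      (Finset.mem_Ioi.mp ha').ne' (hinj (sub_eq_zero.mp h))
    have h1 : IsUnit (algebraMap F B (x a' j - x a j)) := (isUnit_iff_ne_zero.mpr hne).map _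
    have h2 : IsNilpotent ((u a' j - algebraMap F B (x a' j)) - (u a j - algebraMap F B (x a j))) := by
      refine ⟨K + 1, ?_⟩
      rw [← Ideal.mem_bot, ← hJ]
      exact Ideal.pow_mem_pow (sub_mem (hu a' j) (hu a j)) _
    have h3 := h2.isUnit_add_left_of_commute h1 (Commute.all _ _)
    have h4 : algebraMap F B (x a' j - x a j) + (u a' j - algebraMap F B (x a' j) -
        (u a j - algebraMap F B (x a j))) = u a' j - u a j := by
      rw [map_sub]
      ring
    rw [h4] at h3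
    exact h3
  have hz := Matrix.mulVec_injective_of_isUnit ((Matrix.isUnit_iff_isUnit_det _).mpr hdet)
    (hrel.trans (Matrix.mulVec_zero _).symm)
  exact Ideal.Quotient.eq_zero_iff_mem.mp (congrFun hz b)

/-- nonsingular solutions of a square system -/
theorem bez_square (N δ : ℕ) : ∃ C : ℕ, ∀ (F : Type) [Field F] (f : Fin N → MvPolynomial (Fin N) F),
    (∀ i, (f i).totalDegree ≤ δ) → ∀ S : Finset (Fin N → F),
    (∀ x ∈ S, (∀ i, eval x (f i) = 0) ∧
      (Matrix.of (fun i j => eval x (pderiv j (f i)))).det ≠ 0) → S.card ≤ C := by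
  classical
  refine ⟨((N * δ + 1) ^ N) ^ N, fun F _ f hf S hS => ?_⟩
  have h1 : ∀ j, (S.image fun x => x j).card ≤ (N * δ + 1) ^ N := by
    intro j
    by_contra hn
    have h2 : Fintype.card (Fin ((N * δ + 1) ^ N + 1)) ≤ (S.image fun x => x j).card := by
      rw [Fintype.card_fin]
      omega
    obtain ⟨g, hg⟩ := Function.Embedding.exists_of_card_le_finset h2
    have h3 : ∀ a, ∃ x ∈ S, x j = g a := fun a => by
      simpa using hg (Set.mem_range_self a)
    choose x hx1 hx2 using h3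
    refine bez_coord f hf j x (fun a => hS _ (hx1 a)) ?_
    intro a a' h
    apply g.injective
    rw [← hx2, ← hx2]
    exact h
  have h2 : S ⊆ Fintype.piFinset fun j => S.image fun x => x j := fun x hx =>
    Fintype.mem_piFinset.mpr fun j => Finset.mem_image_of_mem _ hx
  refine (Finset.card_le_card h2).trans ?_
  rw [Fintype.card_piFinset]
  exact (Finset.prod_le_pow_card _ _ _ fun j _ => h1 j).trans (by simp)

/-- completion of the rows of a matrix by coordinate vectors -/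
lemma bez_choose {F : Type} [Field F] {N k e : ℕ} (M : Matrix (Fin k) (Fin N) F)
    (h : N ≤ e + M.rank) : ∃ σ : Fin N → Fin k ⊕ Fin N,
      (Matrix.of fun i => Sum.elim M.row (fun c => Pi.single c (1 : F)) (σ i)).det ≠ 0 ∧
      (Finset.univ.filter fun c => ∃ i, σ i = Sum.inr c).card ≤ e := by
  classical
  set w : Fin k ⊕ Fin N → Fin N → F := Sum.elim M.row (fun c => Pi.single c (1 : F)) with hw
  obtain ⟨b0, hb0, -, hs0, hl0⟩ := exists_linearIndepOn_extension
    (linearIndepOn_empty F w) (Set.empty_subset (Set.range Sum.inl))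
  obtain ⟨b, -, hb, hs, hl⟩ := exists_linearIndepOn_extension hl0 (Set.subset_univ b0)
  have hcard : ∀ s : Set (Fin k ⊕ Fin N), LinearIndepOn F w s →
      Module.finrank F (Submodule.span F (w '' s)) = s.toFinset.card := by
    intro s hs
    rw [Set.image_eq_range, finrank_span_eq_card hs, Set.toFinset_card]
  have h0 : M.rank ≤ b0.toFinset.card := by
    rw [← hcard b0 hl0, Matrix.rank_eq_finrank_span_row]
    refine Submodule.finrank_mono (Submodule.span_le.mpr ?_)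
    rintro _ ⟨a, rfl⟩
    exact hs0 ⟨Sum.inl a, ⟨a, rfl⟩, rfl⟩
  have h1 : b.toFinset.card = N := by
    rw [← hcard b hl]
    have htop : Submodule.span F (w '' b) = ⊤ := by
      rw [eq_top_iff, ← (Pi.basisFun F (Fin N)).span_eq, Submodule.span_le]
      rintro _ ⟨c, rfl⟩
      exact hs ⟨Sum.inr c, Set.mem_univ _, by simp [hw]⟩
    rw [htop]
    simp
  have h2 : Fintype.card b = N := by rw [← Set.toFinset_card, h1]
  let ε : Fin N ≃ b := (Fintype.equivFinOfCardEq h2).symm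
  refine ⟨fun i => (ε i : Fin k ⊕ Fin N), ?_, ?_⟩
  · have h3 : LinearIndependent F (Matrix.of fun i => w (ε i : Fin k ⊕ Fin N)).row :=
      LinearIndependent.comp hl ε ε.injective
    exact ((Matrix.isUnit_iff_isUnit_det _).mp
      (Matrix.linearIndependent_rows_iff_isUnit.mp h3)).ne_zero
  · have h3 : ((Finset.univ.filter fun c => ∃ i, (ε i : Fin k ⊕ Fin N) = Sum.inr c).image
        Sum.inr) ⊆ b.toFinset \ b0.toFinset := by
      intro z hz
      obtain ⟨c, hc, rfl⟩ := Finset.mem_image.mp hz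
      obtain ⟨i, hi⟩ := (Finset.mem_filter.mp hc).2
      refine Finset.mem_sdiff.mpr ⟨Set.mem_toFinset.mpr (hi ▸ (ε i).2), fun hz0 => ?_⟩
      obtain ⟨a, ha⟩ := hb0 (Set.mem_toFinset.mp hz0)
      cases ha
    have h4 := Finset.card_le_card h3
    rw [Finset.card_image_of_injective _ Sum.inr_injective,
      Finset.card_sdiff_of_subset (Set.toFinset_subset_toFinset.mpr hb), h1] at h4
    exact h4.trans (by omega)

/-- points with small Zariski tangent space -/
theorem bez (N k δ : ℕ) : ∃ C : ℕ, ∀ (F : Type) [Field F] [Fintype F]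
    (f : Fin k → MvPolynomial (Fin N) F), (∀ i, (f i).totalDegree ≤ δ) → ∀ (e : ℕ)
    (S : Finset (Fin N → F)), (∀ x ∈ S, (∀ i, eval x (f i) = 0) ∧
      N ≤ e + (Matrix.of (fun i j => eval x (pderiv j (f i)))).rank) →
    S.card ≤ C * Fintype.card F ^ e := by
  classical
  obtain ⟨C0, hC⟩ := bez_square N (max δ 1)
  refine ⟨Fintype.card (Fin N → Fin k ⊕ Fin N) * C0, fun F _ _ f hf e S hS => ?_⟩
  let T : (Fin N → Fin k ⊕ Fin N) → Finset (Fin N) :=
    fun σ => Finset.univ.filter fun c => ∃ i, σ i = Sum.inr c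
  let P : (Fin N → Fin k ⊕ Fin N) → (Fin N → F) → Prop := fun σ x =>
    (Matrix.of fun i => Sum.elim (Matrix.of (fun i j => eval x (pderiv j (f i)))).row
      (fun c => Pi.single c (1 : F)) (σ i)).det ≠ 0 ∧ (T σ).card ≤ e
  have h1 : S ⊆ Finset.univ.biUnion fun σ => S.filter (P σ) := by
    intro x hx
    obtain ⟨σ, hσ⟩ := bez_choose _ (hS x hx).2
    exact Finset.mem_biUnion.mpr ⟨σ, Finset.mem_univ _, Finset.mem_filter.mpr ⟨hx, hσ⟩⟩
  have h2 : ∀ σ, (S.filter (P σ)).card ≤ C0 * Fintype.card F ^ e := by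
    intro σ
    by_cases hT : (T σ).card ≤ e
    swap
    · rw [Finset.filter_false_of_mem fun x _ h => hT h.2]
      simp
    have h3 := Finset.card_le_mul_card_image_of_maps_to (s := S.filter (P σ))
      (t := (Finset.univ : Finset (T σ → F))) (f := fun x (c : T σ) => x c.1) (fun _ _ => Finset.mem_univ _)
      C0 ?_
    · refine h3.trans (Nat.mul_le_mul_left _ ?_)
      rw [Finset.card_univ, Fintype.card_fun, Fintype.card_coe]
      exact Nat.pow_le_pow_right Fintype.card_pos hT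
    · intro a _
      let a' : Fin N → F := fun c => if h : c ∈ T σ then a ⟨c, h⟩ else 0
      refine hC F (fun i => Sum.elim f (fun c => X c - C (a' c)) (σ i)) (fun i => ?_) _ ?_
      · rcases σ i with l | c
        · exact (hf l).trans (le_max_left _ _)
        · refine (totalDegree_sub_C_le _ _).trans ?_
          rw [totalDegree_X]
          exact le_max_right _ _
      · intro x hx
        obtain ⟨hx1, hx2⟩ := Finset.mem_filter.mp hx
        obtain ⟨hx3, hx4⟩ := Finset.mem_filter.mp hx1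
        constructor
        · intro i
          rcases hi : σ i with l | c
          · exact (hS x hx3).1 l
          · have hc : c ∈ T σ := Finset.mem_filter.mpr ⟨Finset.mem_univ _, i, hi⟩
            have := congrFun hx2 ⟨c, hc⟩
            simp only [Sum.elim_inr, map_sub, eval_X, eval_C, a', dif_pos hc]
            exact sub_eq_zero.mpr this
        · convert hx4.1 using 2
          ext i j
          simp only [Matrix.of_apply]
          rcases σ i with l | c
          · rfl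
          · simp [pderiv_X, Pi.single_apply, eq_comm]
  refine (Finset.card_le_card h1).trans (Finset.card_biUnion_le.trans ?_)
  refine (Finset.sum_le_card_nsmul _ _ _ fun σ _ => h2 σ).trans (le_of_eq ?_)
  rw [Finset.card_univ, smul_eq_mul, mul_assoc]

end Pool.Agent.MP_8299d6_al.Up

end
end

section

open Matrix

noncomputable section

namespace Pool.Agent.MP_8299d6_al.Up

open Pool.Agent.MP_810665_al (IrrChar)

open MvPolynomial in
/-- zeros of a quadratic map at which the derivative has a small kernel -/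
theorem tan_quad (D : ℕ) : ∃ C : ℕ, ∀ (F : Type) [Field F] [Fintype F]
    (W U : Type) [AddCommGroup W] [Module F W] [FiniteDimensional F W]
    [AddCommGroup U] [Module F U] [FiniteDimensional F U],
    Module.finrank F W ≤ D → Module.finrank F U ≤ D →
    ∀ (c : U) (L : W →ₗ[F] U) (Q : W →ₗ[F] W →ₗ[F] U) (e : ℕ) (S : Finset W),
    (∀ x ∈ S, c + L x + Q x x = 0 ∧
      Module.finrank F (LinearMap.ker (L + Q x + Q.flip x)) ≤ e) →
    S.card ≤ C * Fintype.card F ^ e := by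
  choose K hK using fun N k => bez N k 2
  refine ⟨∑ N ∈ Finset.range (D + 1), ∑ k ∈ Finset.range (D + 1), K N k, ?_⟩
  intro F _ _ W U _ _ _ _ _ _ hW hU c L Q e S hS
  classical
  let bW := Module.finBasis F W
  let bU := Module.finBasis F U
  let f : Fin (Module.finrank F U) → MvPolynomial (Fin (Module.finrank F W)) F := fun i =>
    C (bU.repr c i) + ∑ j, C (bU.repr (L (bW j)) i) * X j +
      ∑ j, ∑ l, C (bU.repr (Q (bW j) (bW l)) i) * (X j * X l)
  have hdeg : ∀ i, (f i).totalDegree ≤ 2 := by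
    intro i
    refine (totalDegree_add _ _).trans (max_le ((totalDegree_add _ _).trans (max_le ?_ ?_)) ?_)
    · simp
    · refine totalDegree_finsetSum_le fun j _ => (totalDegree_mul _ _).trans ?_
      simp
    · refine totalDegree_finsetSum_le fun j _ => totalDegree_finsetSum_le fun l _ =>
        (totalDegree_mul _ _).trans ?_
      have := totalDegree_mul (X j : MvPolynomial (Fin (Module.finrank F W)) F) (X l)
      simpa using this
  have h := hK _ _ F f hdeg e (S.map bW.equivFun.toEquiv.toEmbedding) (by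
    intro y hy
    obtain ⟨x, hx, rfl⟩ := Finset.mem_map.1 hy
    obtain ⟨h0, h1⟩ := hS x hx
    have hL : ∀ (φ : W →ₗ[F] U) i, bU.repr (φ x) i = ∑ j, bU.repr (φ (bW j)) i * bW.repr x j := by
      intro φ i
      conv_lhs => rw [← bW.sum_repr x, map_sum, map_sum, Finset.sum_apply']
      simp [mul_comm]
    refine ⟨fun i => ?_, ?_⟩
    · have e1 : bU.repr (c + L x + Q x x) i = 0 := by rw [h0]; simp
      rw [map_add, map_add, Finsupp.add_apply, Finsupp.add_apply, hL L,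
        ← LinearMap.flip_apply Q x x, hL (Q.flip x)] at e1
      simp only [LinearMap.flip_apply, hL (Q _), Finset.sum_mul] at e1
      rw [← e1]
      simp [f, mul_comm, mul_assoc]
    · have e2 : (Matrix.of fun i j => eval (bW.equivFun.toEquiv.toEmbedding x) (pderiv j (f i))) =
          LinearMap.toMatrix bW bU (L + Q x + Q.flip x) := by
        ext i j
        rw [LinearMap.toMatrix_apply, LinearMap.add_apply, LinearMap.add_apply, map_add, map_add,
          Finsupp.add_apply, Finsupp.add_apply, ← LinearMap.flip_apply Q x (bW j),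
          hL (Q.flip (bW j)), LinearMap.flip_apply Q (bW j) x, hL (Q (bW j))]
        simp [f, Pi.single_apply, mul_add, Finset.sum_add_distrib, add_assoc]
      rw [e2, rank_eq_finrank_range_toLin _ bU bW, toLin_toMatrix]
      have := (L + Q x + Q.flip x).finrank_range_add_finrank_ker
      omega)
  rw [Finset.card_map] at h
  refine h.trans (Nat.mul_le_mul_right _ ?_)
  refine le_trans ?_ (Finset.single_le_sum (f := fun N => ∑ k ∈ Finset.range (D + 1), K N k)
    (fun _ _ => Nat.zero_le _) (Finset.mem_range.2 (Nat.lt_succ_of_le hW)))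
  exact Finset.single_le_sum (f := fun k => K (Module.finrank F W) k)
    (fun _ _ => Nat.zero_le _) (Finset.mem_range.2 (Nat.lt_succ_of_le hU))

/-- a coordinate complement of the kernel -/
theorem tan_chart {F H H' ι : Type} [Field F] [AddCommGroup H] [Module F H] [AddCommGroup H']
    [Module F H'] (b : Module.Basis ι F H) (M : H →ₗ[F] H') :
    ∃ (J : Set ι) (Y : H →ₗ[F] H), M ∘ₗ Y = M ∧ (∀ v, Y v ∈ Submodule.span F (b '' J)) ∧
      ∀ v ∈ Submodule.span F (b '' J), M v = 0 → v = 0 := by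
  obtain ⟨J, -, -, h1, h2⟩ := exists_linearIndepOn_extension (K := F) (v := M ∘ b)
    (linearIndepOn_empty F _) (Set.empty_subset Set.univ)
  have h3 : ∀ k, ∃ y ∈ Submodule.span F (b '' J), M y = M (b k) := by
    intro k
    have := h1 ⟨k, Set.mem_univ k, rfl⟩
    rw [Set.image_comp, ← Submodule.map_span] at this
    exact this
  choose y hy hy' using h3
  refine ⟨J, b.constr F y, b.ext fun k => by simp [hy'], fun v => ?_, fun v hv h0 => ?_⟩
  · have : LinearMap.range (b.constr F y) ≤ Submodule.span F (b '' J) := by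
      rw [b.constr_range]
      exact Submodule.span_le.2 (by rintro _ ⟨k, rfl⟩; exact hy k)
    exact this ⟨v, rfl⟩
  · obtain ⟨l, hl, rfl⟩ := (Finsupp.mem_span_image_iff_linearCombination F).1 hv
    rw [Finsupp.apply_linearCombination] at h0
    rw [linearIndepOn_iff.1 h2 l hl h0, map_zero]

/-- members of an affine family of linear maps whose rank stratum has a small tangent space -/
theorem tangent_count (D : ℕ) : ∃ C : ℕ, ∀ (F : Type) [Field F] [Fintype F]
    (V H H' : Type) [AddCommGroup V] [Module F V] [FiniteDimensional F V]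
    [AddCommGroup H] [Module F H] [FiniteDimensional F H]
    [AddCommGroup H'] [Module F H'] [FiniteDimensional F H'],
    Module.finrank F V ≤ D → Module.finrank F H ≤ D → Module.finrank F H' ≤ D →
    ∀ (Θ : H →ₗ[F] H') (Λ : V →ₗ[F] H →ₗ[F] H') (e : ℕ) (S : Finset V),
    (∀ B ∈ S, ∃ T : Submodule F V, Module.finrank F T ≤ e ∧ ∀ β : V,
      (∀ v ∈ LinearMap.ker (Θ + Λ B), Λ β v ∈ LinearMap.range (Θ + Λ B)) → β ∈ T) →
    S.card ≤ C * Fintype.card F ^ e := by
  obtain ⟨K, hK⟩ := tan_quad (D + 2 * (D * D))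
  refine ⟨2 ^ D * K, ?_⟩
  intro F _ _ V H H' _ _ _ _ _ _ _ _ _ hV hH hH' Θ Λ e S hS
  classical
  let b := Module.finBasis F H
  choose J Y hY1 hY2 hY3 using fun B : V => tan_chart b (Θ + Λ B)
  have key : ∀ I : Set (Fin (Module.finrank F H)),
      (S.filter fun B => J B = I).card ≤ K * Fintype.card F ^ e := by
    intro I
    let N := Submodule.span F (b '' I)
    let L : (V × (H →ₗ[F] H)) →ₗ[F] (H →ₗ[F] H') × (H →ₗ[F] H ⧸ N) :=
      LinearMap.prod (Λ ∘ₗ LinearMap.fst _ _ _ -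
        LinearMap.llcomp F H H H' Θ ∘ₗ LinearMap.snd _ _ _)
        (LinearMap.llcomp F H H (H ⧸ N) N.mkQ ∘ₗ LinearMap.snd _ _ _)
    let Q : (V × (H →ₗ[F] H)) →ₗ[F] (V × (H →ₗ[F] H)) →ₗ[F] (H →ₗ[F] H') × (H →ₗ[F] H ⧸ N) :=
      ((-(LinearMap.llcomp F H H H')).compl₁₂ (Λ ∘ₗ LinearMap.fst _ _ _)
        (LinearMap.snd _ _ _)).compr₂ (LinearMap.inl _ _ _)
    have hL : ∀ x, L x = (Λ x.1 - Θ ∘ₗ x.2, N.mkQ ∘ₗ x.2) := fun _ => rfl
    have hQ : ∀ x y, Q x y = (-(Λ x.1 ∘ₗ y.2), 0) := fun _ _ => rfl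
    have hq : Module.finrank F (H ⧸ N) ≤ D := (Submodule.finrank_quotient_le N).trans hH
    have h := hK F (V × (H →ₗ[F] H)) ((H →ₗ[F] H') × (H →ₗ[F] H ⧸ N))
      (by
        rw [Module.finrank_prod, Module.finrank_linearMap]
        have := Nat.mul_le_mul hH hH
        omega)
      (by
        rw [Module.finrank_prod, Module.finrank_linearMap, Module.finrank_linearMap]
        have := Nat.mul_le_mul hH hH'
        have := Nat.mul_le_mul hH hq
        omega)
      (Θ, 0) L Q e ((S.filter fun B => J B = I).map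
        ⟨fun B => (B, Y B), fun _ _ h => congrArg Prod.fst h⟩) (by
      intro x hx
      obtain ⟨B, hB, rfl⟩ := Finset.mem_map.1 hx
      obtain ⟨hB, hI⟩ := Finset.mem_filter.1 hB
      obtain ⟨T, hT, hT'⟩ := hS B hB
      have h2 : ∀ v, Y B v ∈ N := fun v => by simpa only [hI] using hY2 B v
      have h3 : ∀ v ∈ N, (Θ + Λ B) v = 0 → v = 0 := fun v hv => hY3 B v (by rwa [hI])
      have h1 : ∀ v, (Θ + Λ B) (Y B v) = (Θ + Λ B) v := fun v => LinearMap.congr_fun (hY1 B) v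
      refine ⟨?_, ?_⟩
      · rw [hL, hQ]
        refine Prod.ext (LinearMap.ext fun v => ?_) (LinearMap.ext fun v => ?_)
        · have := h1 v
          simp only [LinearMap.add_apply] at this
          simp only [Function.Embedding.coeFn_mk, Prod.fst_add, LinearMap.add_apply,
            LinearMap.sub_apply, LinearMap.neg_apply, LinearMap.comp_apply, Prod.fst_zero,
            LinearMap.zero_apply]
          linear_combination (norm := abel_nf) -this
        · simpa using h2 v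
      · set G := L + Q (B, Y B) + Q.flip (B, Y B) with hG
        have hker : ∀ z ∈ LinearMap.ker G, (∀ v, z.2 v ∈ N) ∧
            ∀ v, Λ z.1 v - Λ z.1 (Y B v) = (Θ + Λ B) (z.2 v) := by
          intro z hz
          rw [LinearMap.mem_ker, hG, LinearMap.add_apply, LinearMap.add_apply,
            LinearMap.flip_apply, hL, hQ, hQ] at hz
          refine ⟨fun v => ?_, fun v => ?_⟩
          · simpa using LinearMap.congr_fun (congrArg Prod.snd hz) v
          · have := LinearMap.congr_fun (congrArg Prod.fst hz) v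
            simp only [Prod.fst_add, LinearMap.add_apply,
              LinearMap.sub_apply, LinearMap.neg_apply, LinearMap.comp_apply, Prod.fst_zero,
              LinearMap.zero_apply] at this
            rw [LinearMap.add_apply]
            linear_combination (norm := abel_nf) this
        have hmem : ∀ z : LinearMap.ker G,
            (LinearMap.fst F V (H →ₗ[F] H) ∘ₗ (LinearMap.ker G).subtype) z ∈ T := by
          intro z
          refine hT' _ fun v hv => ⟨z.1.2 v, ?_⟩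
          have hv0 : Y B v = 0 := h3 _ (h2 v) ((h1 v).trans hv)
          rw [← (hker z.1 z.2).2 v, hv0, map_zero, sub_zero]
          rfl
        refine le_trans (LinearMap.finrank_le_finrank_of_injective
          (f := LinearMap.codRestrict T _ hmem) ?_) hT
        rw [injective_iff_map_eq_zero]
        intro z hz
        have hz1 : z.1.1 = 0 := congrArg Subtype.val hz
        refine Subtype.ext (Prod.ext hz1 (LinearMap.ext fun v => ?_))
        refine h3 _ ((hker z.1 z.2).1 v) ?_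
        rw [← (hker z.1 z.2).2 v, hz1]
        simp)
    rwa [Finset.card_map] at h
  have h := Finset.card_le_mul_card_image_of_maps_to (s := S) (t := Finset.univ) (f := J)
    (fun _ _ => Finset.mem_univ _) _ fun I _ => key I
  rw [Finset.card_univ, Fintype.card_set, Fintype.card_fin] at h
  refine h.trans ?_
  rw [mul_comm, mul_assoc]
  exact Nat.mul_le_mul_right _ (Nat.pow_le_pow_right two_pos hH)

end Pool.Agent.MP_8299d6_al.Up

end
end

section

open Matrix
open Classical Finset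

noncomputable section

namespace Pool.Agent.MP_8299d6_al.Up

open Pool.Agent.MP_810665_al (IrrChar)

section Aux

variable {n p m : ℕ} [Fact p.Prime]

theorem lv2_scal (y : ZMod (p ^ (m + 1))) : (p : ZMod (p ^ (m + 1))) ^ m * y = 0 ↔
    ZMod.castHom (dvd_pow_self p (Nat.succ_ne_zero m)) (ZMod p) y = 0 := by
  obtain ⟨k, rfl⟩ := ZMod.natCast_zmod_surjective y
  have hp : 0 < p ^ m := pow_pos (Fact.out : p.Prime).pos m
  rw [map_natCast, ← Nat.cast_pow, ← Nat.cast_mul, ZMod.natCast_eq_zero_iff,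
    ZMod.natCast_eq_zero_iff, pow_succ, Nat.mul_dvd_mul_iff_left hp]

theorem lv2_mat (X : Mat n (ZMod (p ^ (m + 1)))) : (p : ZMod (p ^ (m + 1))) ^ m • X = 0 ↔
    redP n p m X = 0 := by
  simp only [← Matrix.ext_iff, Matrix.smul_apply, smul_eq_mul, Matrix.zero_apply, lv2_scal, redP,
    RingHom.mapMatrix_apply, Matrix.map_apply]

theorem lv2_iota (n p m : ℕ) [Fact p.Prime] :
    ∃ ι : Mat n (ZMod p) →+ Mat n (ZMod (p ^ (m + 1))),
      ∀ X, ι (redP n p m X) = (p : ZMod (p ^ (m + 1))) ^ m • X := by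
  have hs := redP_surj n p m
  refine ⟨AddMonoidHom.mk' (fun B => (p : ZMod (p ^ (m + 1))) ^ m • Function.surjInv hs B)
    fun B B' => ?_, fun X => ?_⟩
  · rw [← smul_add, ← sub_eq_zero, ← smul_sub, lv2_mat]
    simp [Function.surjInv_eq hs]
  · rw [AddMonoidHom.mk'_apply, ← sub_eq_zero, ← smul_sub, lv2_mat]
    simp [Function.surjInv_eq hs]

variable {ι : Mat n (ZMod p) →+ Mat n (ZMod (p ^ (m + 1)))}
  (hι : ∀ X, ι (redP n p m X) = (p : ZMod (p ^ (m + 1))) ^ m • X)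

include hι

theorem lv2_inj : Function.Injective ι := by
  rw [injective_iff_map_eq_zero]
  intro B hB
  obtain ⟨X, rfl⟩ := redP_surj n p m B
  rwa [hι, lv2_mat] at hB

theorem lv2_mul (B : Mat n (ZMod p)) (X : Mat n (ZMod (p ^ (m + 1)))) :
    ι B * X = ι (B * redP n p m X) ∧ X * ι B = ι (redP n p m X * B) := by
  obtain ⟨Y, rfl⟩ := redP_surj n p m B
  rw [← map_mul, ← map_mul, hι, hι, hι, smul_mul_assoc, mul_smul_comm]
  exact ⟨rfl, rfl⟩

theorem lv2_range (X : Mat n (ZMod (p ^ (m + 1)))) : redM n p m X = 0 ↔ ∃ B, ι B = X := by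
  rw [redM_eq_zero]
  constructor
  · intro h
    choose Y hY using h
    refine ⟨redP n p m (Matrix.of Y), ?_⟩
    rw [hι]
    ext i j
    rw [hY i j]
    rfl
  · rintro ⟨B, rfl⟩ i j
    obtain ⟨Y, rfl⟩ := redP_surj n p m B
    rw [hι]
    exact dvd_mul_right _ _

theorem lv2_trace {B : Mat n (ZMod p)} (h : (ι B).trace = 0) : B.trace = 0 := by
  obtain ⟨Y, rfl⟩ := redP_surj n p m B
  rw [hι, trace_smul, smul_eq_mul, lv2_scal, AddMonoidHom.map_trace] at h
  exact h

end Aux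

theorem lv2_rank {n p e : ℕ} [Fact p.Prime] (J : AddSubgroup (Mat n (ZMod p)))
    (h : p ^ (n ^ 2) ≤ p ^ e * Nat.card J) :
    Module.finrank (ZMod p) (AddSubgroup.toZModSubmodule p (perp (tau n p) J)) ≤ e := by
  have h1 := (frob_tau n p).card_perp J
  have h2 : Nat.card (Mat n (ZMod p)) = p ^ (n ^ 2) := by
    rw [Module.natCard_eq_pow_finrank (K := ZMod p), Nat.card_zmod, Module.finrank_matrix]
    simp [sq]
  have h3 : Nat.card (perp (tau n p) J) = p ^ Module.finrank (ZMod p)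
      (AddSubgroup.toZModSubmodule p (perp (tau n p) J)) := by
    have h4 := Module.natCard_eq_pow_finrank (K := ZMod p)
      (V := AddSubgroup.toZModSubmodule p (perp (tau n p) J))
    rw [Nat.card_zmod] at h4
    exact h4
  rw [h2, h3] at h1
  rw [← h1, mul_comm] at h
  exact (Nat.pow_le_pow_iff_right (Fact.out : p.Prime).one_lt).1
    (Nat.le_of_mul_le_mul_right h Nat.card_pos)

theorem lv2_perp {n p : ℕ} [Fact p.Prime] (h : Subring (Mat n (ZMod p))) (β : Mat n (ZMod p))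
    (hβ : ∀ u ∈ h, ∀ v ∈ h, (u * (β * v - v * β)).trace = 0) : β ∈ perp (tau n p) (commS h) := by
  intro x hx
  induction hx using AddSubgroup.closure_induction with
  | mem z hz =>
    obtain ⟨v, hv, u, hu, rfl⟩ := hz
    have h1 : (β * (v * u - u * v)).trace = 0 := by
      rw [← hβ u hu v hv, mul_sub, mul_sub, trace_sub, trace_sub, trace_mul_comm u (β * v),
        ← mul_assoc u v β, trace_mul_comm (u * v) β, mul_assoc]
    change ZMod.stdAddChar (β * (v * u - u * v)).trace = 1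
    rw [h1, AddChar.map_zero_eq_one]
  | zero => simp
  | add x y _ _ hx hy => rw [mul_add, AddChar.map_add_eq_mul, hx, hy, one_mul]
  | neg x _ hx => rw [mul_neg, AddChar.map_neg_eq_inv, hx, inv_one]

theorem lv2_fam {n p m : ℕ} [Fact p.Prime]
    {ι : Mat n (ZMod p) →+ Mat n (ZMod (p ^ (m + 1 + 1)))}
    (hι : ∀ X, ι (redP n p (m + 1) X) = (p : ZMod (p ^ (m + 1 + 1))) ^ (m + 1) • X)
    (A0 : Mat n (ZMod (p ^ (m + 1 + 1)))) :
    ∃ (H W : Submodule (ZMod p) (Mat n (ZMod p)))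
      (Θ : H →ₗ[ZMod p] Mat n (ZMod p) ⧸ W),
      (∀ ψ, redM n p (m + 1) (A0 * ψ - ψ * A0) = 0 → redP n p (m + 1) ψ ∈ H) ∧
      (∀ (v : H) ψ t, redP n p (m + 1) ψ = v → ι t = A0 * ψ - ψ * A0 → Θ v = W.mkQ t) ∧
      ∀ (v : H) t, Θ v = W.mkQ t → ∃ ψ, redP n p (m + 1) ψ = v ∧ ι t = A0 * ψ - ψ * A0 := by
  let ad : Mat n (ZMod (p ^ (m + 1 + 1))) →+ Mat n (ZMod (p ^ (m + 1 + 1))) :=
    AddMonoidHom.mk' (fun ψ => A0 * ψ - ψ * A0) fun a b => by noncomm_ring
  have had : ∀ ψ, ad ψ = A0 * ψ - ψ * A0 := fun _ => rfl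
  let O : AddSubgroup (Mat n (ZMod (p ^ (m + 1 + 1)))) :=
    ((redM n p (m + 1)).toAddMonoidHom.comp ad).ker
  let H := AddSubgroup.toZModSubmodule p (O.map (redP n p (m + 1)).toAddMonoidHom)
  let W := AddSubgroup.toZModSubmodule p
    (((redP n p (m + 1)).toAddMonoidHom.ker.map ad).comap ι)
  have hW : ∀ t, t ∈ W ↔ ∃ ψ, redP n p (m + 1) ψ = 0 ∧ ad ψ = ι t := fun t => Iff.rfl
  have hH : ∀ v : H, ∃ z : Mat n (ZMod (p ^ (m + 1 + 1))) × Mat n (ZMod p),
      redP n p (m + 1) z.1 = v ∧ ι z.2 = ad z.1 := by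
    rintro ⟨_, ψ, hψ, rfl⟩
    obtain ⟨t, ht⟩ := (lv2_range hι (ad ψ)).1 hψ
    exact ⟨(ψ, t), rfl, ht⟩
  choose z hz1 hz2 using hH
  have key : ∀ (v : H) ψ t, redP n p (m + 1) ψ = v → ι t = ad ψ → W.mkQ (z v).2 = W.mkQ t := by
    intro v ψ t h1 h2
    rw [Submodule.mkQ_apply, Submodule.mkQ_apply, Submodule.Quotient.eq, hW]
    exact ⟨(z v).1 - ψ, by rw [map_sub, hz1, h1, sub_self], by rw [map_sub, map_sub, hz2, h2]⟩
  refine ⟨H, W, (AddMonoidHom.mk' (fun v => W.mkQ (z v).2) fun a b => ?_).toZModLinearMap p,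
    fun ψ hψ => ⟨ψ, hψ, rfl⟩, key, fun v t ht => ?_⟩
  · rw [← map_add]
    exact key (a + b) ((z a).1 + (z b).1) _ (by rw [map_add, hz1, hz1]; rfl)
      (by rw [map_add, map_add, hz2, hz2])
  · have h1 : W.mkQ (z v).2 = W.mkQ t := ht
    rw [Submodule.mkQ_apply, Submodule.mkQ_apply, Submodule.Quotient.eq, hW] at h1
    obtain ⟨ψ, h2, h3⟩ := h1
    refine ⟨(z v).1 - ψ, by rw [map_sub, hz1, h2, sub_zero], ?_⟩
    rw [← had, map_sub, h3, map_sub, hz2, sub_sub_cancel]

theorem card_drop (n : ℕ) : ∃ C : ℕ, ∀ (p : ℕ) [Fact p.Prime] (m : ℕ)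
    (A : Mat n (ZMod (p ^ (m + 1)))) (e : ℕ),
    (univ.filter (fun A' => redM n p (m + 1) A' = A ∧
      p ^ (n ^ 2) ≤ p ^ e * Nat.card (commS (sh n p (m + 1) A')))).card ≤ C * p ^ e := by
  obtain ⟨C, hC⟩ := tangent_count (n ^ 2)
  refine ⟨C, fun p _ m A e => ?_⟩
  obtain ⟨A0, rfl⟩ := redM_surj n p (m + 1) A
  obtain ⟨ι, hι⟩ := lv2_iota n p (m + 1)
  obtain ⟨H, W, Θ, h1, h2, h3⟩ := lv2_fam hι A0
  let Λ : Mat n (ZMod p) →ₗ[ZMod p] H →ₗ[ZMod p] Mat n (ZMod p) ⧸ W :=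
    ((LinearMap.mul (ZMod p) (Mat n (ZMod p)) -
      (LinearMap.mul (ZMod p) (Mat n (ZMod p))).flip).compl₂ H.subtype).compr₂ W.mkQ
  have hΛ : ∀ B (v : H), Λ B v = W.mkQ (B * v - v * B) := fun _ _ => rfl
  have hV : Module.finrank (ZMod p) (Mat n (ZMod p)) ≤ n ^ 2 := by
    rw [Module.finrank_matrix]
    simp [sq]
  have hbr : ∀ B ψ, (A0 + ι B) * ψ - ψ * (A0 + ι B) = (A0 * ψ - ψ * A0) +
      ι (B * redP n p (m + 1) ψ - redP n p (m + 1) ψ * B) := by
    intro B ψ
    rw [map_sub, ← (lv2_mul hι B ψ).1, ← (lv2_mul hι B ψ).2]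
    noncomm_ring
  have h := hC (ZMod p) (Mat n (ZMod p)) H (Mat n (ZMod p) ⧸ W) hV
    ((Submodule.finrank_le H).trans hV) ((Submodule.finrank_quotient_le W).trans hV) Θ Λ e
    (univ.filter fun B => p ^ (n ^ 2) ≤ p ^ e * Nat.card (commS (sh n p (m + 1) (A0 + ι B))))
    (fun B hB => ?_)
  · rw [ZMod.card] at h
    refine le_trans (le_trans (card_le_card fun A' hA' => ?_)
      (card_image_le (f := fun B => A0 + ι B))) h
    obtain ⟨-, h4, h5⟩ := mem_filter.1 hA'
    obtain ⟨B, hB⟩ := (lv2_range hι (A' - A0)).1 (by rw [map_sub, h4, sub_self])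
    have h6 : A0 + ι B = A' := by rw [hB, add_sub_cancel]
    exact mem_image.2 ⟨B, mem_filter.2 ⟨mem_univ _, by rwa [h6]⟩, h6⟩
  · refine ⟨_, lv2_rank _ (mem_filter.1 hB).2, fun β hβ => lv2_perp _ β ?_⟩
    rintro _ ⟨χ, hχ, rfl⟩ _ ⟨ψ, hψ, rfl⟩
    have hχ' : (A0 + ι B) * χ = χ * (A0 + ι B) := hχ _ rfl
    have hψ' : (A0 + ι B) * ψ = ψ * (A0 + ι B) := hψ _ rfl
    have e1 : ι (-(B * redP n p (m + 1) ψ - redP n p (m + 1) ψ * B)) = A0 * ψ - ψ * A0 := by
      have e2 := hbr B ψ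
      rw [hψ', sub_self] at e2
      rw [map_neg]
      exact (eq_neg_of_add_eq_zero_left e2.symm).symm
    have hv := h1 ψ ((lv2_range hι _).2 ⟨_, e1⟩)
    obtain ⟨w, hw⟩ := hβ ⟨_, hv⟩ (by
      rw [LinearMap.mem_ker, LinearMap.add_apply, h2 ⟨_, hv⟩ ψ _ rfl e1, hΛ, map_neg]
      exact neg_add_cancel _)
    rw [LinearMap.add_apply, hΛ, hΛ, ← eq_sub_iff_add_eq, ← map_sub] at hw
    obtain ⟨φ, hφ, e3⟩ := h3 w _ hw
    have e4 : ι (β * redP n p (m + 1) ψ - redP n p (m + 1) ψ * β) =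
        (A0 + ι B) * φ - φ * (A0 + ι B) := by
      rw [hbr, ← e3, hφ, ← map_add, sub_add_cancel]
    refine lv2_trace hι ?_
    rw [← (lv2_mul hι _ χ).2, e4, mul_sub, trace_sub, ← mul_assoc, ← hχ', mul_assoc,
      trace_mul_comm (A0 + ι B), mul_assoc, sub_self]

end Pool.Agent.MP_8299d6_al.Up

end
end

section

/-! The weight filtration on matrices and its graded pieces. -/

open Matrix
open Classical Finset

noncomputable section

namespace Pool.Agent.MP_8299d6_al.Up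

/-- the weight of a matrix position -/
def ai1wt {n : ℕ} (i j : Fin n) : ℤ := 2 ^ (i : ℕ) - 2 ^ (j : ℕ)

lemma ai1wt_add {n : ℕ} (i j k : Fin n) : ai1wt i j + ai1wt j k = ai1wt i k := by
  unfold ai1wt; ring

lemma ai1wt_self {n : ℕ} (i : Fin n) : ai1wt i i = 0 := by
  unfold ai1wt; ring

lemma ai1wt_zero {n : ℕ} {i j : Fin n} (h : ai1wt i j = 0) : i = j := by
  unfold ai1wt at h
  have h1 : (2 : ℤ) ^ (i : ℕ) = 2 ^ (j : ℕ) := by linarith
  exact Fin.ext (pow_right_injective₀ (by norm_num) (by norm_num) h1)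

lemma ai1pow_lt {a b c d : ℕ} (hab : b < a) (hca : c < a) (h : (2 : ℤ) ^ a + 2 ^ d = 2 ^ c + 2 ^ b) :
    False := by
  obtain ⟨e, rfl⟩ : ∃ e, a = e + 1 := ⟨a - 1, by omega⟩
  have h1 : (2 : ℤ) ^ b ≤ 2 ^ e := pow_le_pow_right₀ (by norm_num) (by omega)
  have h2 : (2 : ℤ) ^ c ≤ 2 ^ e := pow_le_pow_right₀ (by norm_num) (by omega)
  have h3 : (0 : ℤ) < 2 ^ d := by positivity
  rw [pow_succ] at h
  linarith

lemma ai1pow_inj {a b c d : ℕ} (hab : a ≠ b) (h : (2 : ℤ) ^ a - 2 ^ b = 2 ^ c - 2 ^ d) :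
    a = c ∧ b = d := by
  have inj : ∀ {x y : ℕ}, (2 : ℤ) ^ x = 2 ^ y → x = y := fun h1 =>
    pow_right_injective₀ (by norm_num) (by norm_num) h1
  have hcd : c ≠ d := by
    rintro rfl
    exact hab (inj (by linarith))
  have key : a = c ∨ b = d := by
    by_contra hne
    push Not at hne
    obtain ⟨h1, h2⟩ := hne
    rcases lt_or_gt_of_ne hab with h3 | h3 <;> rcases lt_or_gt_of_ne hcd with h4 | h4
    · rcases lt_or_gt_of_ne h2 with h5 | h5
      · exact ai1pow_lt (a := d) (b := c) (c := b) (d := a) h4 h5 (by linarith)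
      · exact ai1pow_lt (a := b) (b := a) (c := d) (d := c) h3 h5 (by linarith)
    · have h5 : (2 : ℤ) ^ a < 2 ^ b := pow_lt_pow_right₀ (by norm_num) h3
      have h6 : (2 : ℤ) ^ d < 2 ^ c := pow_lt_pow_right₀ (by norm_num) h4
      linarith
    · have h5 : (2 : ℤ) ^ b < 2 ^ a := pow_lt_pow_right₀ (by norm_num) h3
      have h6 : (2 : ℤ) ^ c < 2 ^ d := pow_lt_pow_right₀ (by norm_num) h4
      linarith
    · rcases lt_or_gt_of_ne h1 with h5 | h5
      · exact ai1pow_lt (a := c) (b := d) (c := a) (d := b) h4 h5 (by linarith)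
      · exact ai1pow_lt (a := a) (b := b) (c := c) (d := d) h3 h5 (by linarith)
  rcases key with h1 | h1
  · subst h1; exact ⟨rfl, inj (by linarith)⟩
  · subst h1; exact ⟨inj (by linarith), rfl⟩

lemma ai1wt_inj {n : ℕ} {i j k l : Fin n} (hij : i ≠ j) (h : ai1wt i j = ai1wt k l) :
    i = k ∧ j = l := by
  have := ai1pow_inj (fun e => hij (Fin.ext e)) h
  exact ⟨Fin.ext this.1, Fin.ext this.2⟩

lemma ai1wt_bd {n : ℕ} (i j : Fin n) : -(2 : ℤ) ^ n < ai1wt i j ∧ ai1wt i j < 2 ^ n := by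
  unfold ai1wt
  have h1 : (2 : ℤ) ^ (i : ℕ) < 2 ^ n := pow_lt_pow_right₀ (by norm_num) i.2
  have h2 : (2 : ℤ) ^ (j : ℕ) < 2 ^ n := pow_lt_pow_right₀ (by norm_num) j.2
  have h3 : (0 : ℤ) < 2 ^ (i : ℕ) := by positivity
  have h4 : (0 : ℤ) < 2 ^ (j : ℕ) := by positivity
  constructor <;> linarith

variable {n : ℕ} {F : Type} [Field F]

/-- matrices with no entry of weight above `w` -/
def ai1Le (n : ℕ) (F : Type) [Field F] (w : ℤ) : Submodule F (Mat n F) where
  carrier := {x | ∀ i j, w < ai1wt i j → x i j = 0}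
  zero_mem' := fun _ _ _ => rfl
  add_mem' := fun {a b} ha hb i j hij => by
    rw [Matrix.add_apply, ha i j hij, hb i j hij, add_zero]
  smul_mem' := fun c a ha i j hij => by
    rw [Matrix.smul_apply, ha i j hij, smul_zero]

lemma ai1mem_Le {w : ℤ} {x : Mat n F} :
    x ∈ ai1Le n F w ↔ ∀ i j, w < ai1wt i j → x i j = 0 := Iff.rfl

/-- the component of weight `w` -/
def ai1top (n : ℕ) (F : Type) [Field F] (w : ℤ) : Mat n F →ₗ[F] Mat n F where
  toFun x := Matrix.of fun i j => if ai1wt i j = w then x i j else 0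
  map_add' a b := by
    ext i j
    simp only [Matrix.of_apply, Matrix.add_apply]
    split_ifs <;> simp
  map_smul' c a := by
    ext i j
    simp only [Matrix.of_apply, Matrix.smul_apply, RingHom.id_apply]
    split_ifs <;> simp

lemma ai1top_apply (w : ℤ) (x : Mat n F) (i j : Fin n) :
    ai1top n F w x i j = if ai1wt i j = w then x i j else 0 := rfl

/-- the graded piece of weight `w` of a subspace -/
def ai1gr (S : Submodule F (Mat n F)) (w : ℤ) : Submodule F (Mat n F) :=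
  (S ⊓ ai1Le n F w).map (ai1top n F w)

lemma ai1mem_gr {S : Submodule F (Mat n F)} {w : ℤ} {y : Mat n F} :
    y ∈ ai1gr S w ↔ ∃ x ∈ S, x ∈ ai1Le n F w ∧ ai1top n F w x = y := by
  simp only [ai1gr, Submodule.mem_map, Submodule.mem_inf, and_assoc]

lemma ai1gr_supp {S : Submodule F (Mat n F)} {w : ℤ} {y : Mat n F} (hy : y ∈ ai1gr S w)
    {i j : Fin n} (h : ai1wt i j ≠ w) : y i j = 0 := by
  obtain ⟨x, -, -, rfl⟩ := ai1mem_gr.1 hy
  rw [ai1top_apply, if_neg h]

lemma ai1Le_mul {a b : ℤ} {x y : Mat n F} (hx : x ∈ ai1Le n F a) (hy : y ∈ ai1Le n F b) :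
    x * y ∈ ai1Le n F (a + b) := by
  intro i k hik
  rw [Matrix.mul_apply]
  refine Finset.sum_eq_zero fun j _ => ?_
  have e := ai1wt_add i j k
  by_cases h1 : a < ai1wt i j
  · rw [hx i j h1, zero_mul]
  · rw [hy j k (by linarith), mul_zero]

lemma ai1top_mul {a b : ℤ} {x y : Mat n F} (hx : x ∈ ai1Le n F a) (hy : y ∈ ai1Le n F b) :
    ai1top n F (a + b) (x * y) = ai1top n F a x * ai1top n F b y := by
  ext i k
  rw [ai1top_apply, Matrix.mul_apply, Matrix.mul_apply]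
  split_ifs with h
  · refine Finset.sum_congr rfl fun j _ => ?_
    have e := ai1wt_add i j k
    rw [ai1top_apply, ai1top_apply]
    rcases lt_trichotomy (ai1wt i j) a with h1 | h1 | h1
    · rw [hy j k (by linarith)]; simp
    · rw [if_pos h1, if_pos (by linarith)]
    · rw [hx i j h1]; simp
  · symm
    refine Finset.sum_eq_zero fun j _ => ?_
    have e := ai1wt_add i j k
    rw [ai1top_apply, ai1top_apply]
    by_cases h1 : ai1wt i j = a
    · rw [if_neg (show ¬ ai1wt j k = b from fun h2 => h (by linarith)), mul_zero]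
    · rw [if_neg h1, zero_mul]

lemma ai1step (S : Submodule F (Mat n F)) (w : ℤ) :
    Module.finrank F (S ⊓ ai1Le n F w : Submodule F (Mat n F)) =
      Module.finrank F (S ⊓ ai1Le n F (w - 1) : Submodule F (Mat n F))
        + Module.finrank F (ai1gr S w) := by
  have h1 := LinearMap.finrank_range_add_finrank_ker
    ((ai1top n F w).domRestrict (S ⊓ ai1Le n F w))
  rw [LinearMap.range_domRestrict, LinearMap.ker_domRestrict] at h1
  have hle : S ⊓ ai1Le n F (w - 1) ≤ S ⊓ ai1Le n F w := by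
    intro x hx
    exact ⟨hx.1, fun i j hij => hx.2 i j (by linarith)⟩
  have h2 : (LinearMap.ker (ai1top n F w)).comap (S ⊓ ai1Le n F w).subtype
      = (S ⊓ ai1Le n F (w - 1)).comap (S ⊓ ai1Le n F w).subtype := by
    ext ⟨x, hx⟩
    simp only [Submodule.mem_comap, Submodule.subtype_apply, LinearMap.mem_ker]
    constructor
    · intro h0
      refine ⟨hx.1, fun i j hij => ?_⟩
      rcases lt_or_eq_of_le (show w ≤ ai1wt i j by linarith) with h3 | h3
      · exact hx.2 i j h3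
      · have := congrFun (congrFun h0 i) j
        rwa [ai1top_apply, if_pos h3.symm] at this
    · intro h0
      ext i j
      rw [ai1top_apply]
      split_ifs with h3
      · exact h0.2 i j (by linarith)
      · rfl
  rw [h2, (Submodule.comapSubtypeEquivOfLe hle).finrank_eq] at h1
  unfold ai1gr
  omega

lemma ai1sum_aux (S : Submodule F (Mat n F)) (k : ℕ) :
    Module.finrank F (S ⊓ ai1Le n F (-2 ^ n + k) : Submodule F (Mat n F)) =
      ∑ w ∈ Finset.Ioc (-(2 : ℤ) ^ n) (-2 ^ n + k), Module.finrank F (ai1gr S w) := by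
  induction k with
  | zero =>
    have : (S ⊓ ai1Le n F (-2 ^ n + ((0 : ℕ) : ℤ)) : Submodule F (Mat n F)) = ⊥ := by
      rw [eq_bot_iff]
      intro x hx
      rw [Submodule.mem_bot]
      ext i j
      exact hx.2 i j (by have := (ai1wt_bd i j).1; simpa using this)
    rw [this]; simp
  | succ k ih =>
    rw [ai1step]
    have e : (-2 ^ n + ((k + 1 : ℕ) : ℤ) - 1) = -2 ^ n + k := by push_cast; ring
    rw [e, ih]
    have e2 : Finset.Ioc (-(2 : ℤ) ^ n) (-2 ^ n + ((k + 1 : ℕ) : ℤ))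
        = insert (-2 ^ n + ((k + 1 : ℕ) : ℤ)) (Finset.Ioc (-(2 : ℤ) ^ n) (-2 ^ n + k)) := by
      ext w
      simp only [Finset.mem_Ioc, Finset.mem_insert]
      push_cast
      omega
    rw [e2, Finset.sum_insert, add_comm]
    simp only [Finset.mem_Ioc]
    push_cast
    omega

lemma ai1sum (S : Submodule F (Mat n F)) :
    Module.finrank F S =
      ∑ w ∈ Finset.Ioc (-(2 : ℤ) ^ n) (2 ^ n), Module.finrank F (ai1gr S w) := by
  have h := ai1sum_aux S (2 * 2 ^ n)
  have e : (-2 ^ n + ((2 * 2 ^ n : ℕ) : ℤ)) = 2 ^ n := by push_cast; ring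
  rw [e] at h
  rw [← h]
  have : (S ⊓ ai1Le n F (2 ^ n) : Submodule F (Mat n F)) = S := by
    rw [inf_eq_left]
    intro x _ i j hij
    have := (ai1wt_bd i j).2
    linarith
  rw [this]

/-- the off-diagonal positions that occur as leading positions -/
def ai1P (S : Submodule F (Mat n F)) (i j : Fin n) : Prop :=
  i ≠ j ∧ single i j (1 : F) ∈ ai1gr S (ai1wt i j)

lemma ai1gr_eq {S : Submodule F (Mat n F)} {y : Mat n F} {i j : Fin n} (hij : i ≠ j)
    (hy : y ∈ ai1gr S (ai1wt i j)) : y = y i j • single i j (1 : F) := by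
  ext k l
  rw [Matrix.smul_apply]
  by_cases h : i = k ∧ j = l
  · obtain ⟨rfl, rfl⟩ := h
    simp
  · rw [Matrix.single_apply_of_ne _ _ _ _ _ h, smul_zero]
    exact ai1gr_supp hy (fun e => h (ai1wt_inj hij e.symm))

lemma ai1P_of {S : Submodule F (Mat n F)} {y : Mat n F} {i j : Fin n} (hij : i ≠ j)
    (hy : y ∈ ai1gr S (ai1wt i j)) (h0 : y i j ≠ 0) : ai1P S i j := by
  refine ⟨hij, ?_⟩
  have e : single i j (1 : F) = (y i j)⁻¹ • y := by
    conv_rhs => rw [ai1gr_eq hij hy]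
    rw [← ai1gr_eq hij hy]
    conv_rhs => enter [2]; rw [ai1gr_eq hij hy]
    rw [smul_smul, inv_mul_cancel₀ h0, one_smul]
  rw [e]
  exact Submodule.smul_mem _ _ hy

lemma ai1gr_rank (S : Submodule F (Mat n F)) {w : ℤ} (hw : w ≠ 0) :
    Module.finrank F (ai1gr S w) =
      ((univ.filter (fun x : Fin n × Fin n => ai1P S x.1 x.2)).filter
        (fun x => ai1wt x.1 x.2 = w)).card := by
  by_cases h : ∃ i j, ai1P S i j ∧ ai1wt i j = w
  · obtain ⟨i, j, hP, rfl⟩ := h
    have e1 : ai1gr S (ai1wt i j) = Submodule.span F {single i j (1 : F)} := by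
      apply le_antisymm
      · intro y hy
        rw [ai1gr_eq hP.1 hy]
        exact Submodule.smul_mem _ _ (Submodule.mem_span_singleton_self _)
      · rw [Submodule.span_singleton_le_iff_mem]
        exact hP.2
    have e2 : ((univ.filter (fun x : Fin n × Fin n => ai1P S x.1 x.2)).filter
        (fun x => ai1wt x.1 x.2 = ai1wt i j)) = {(i, j)} := by
      ext ⟨k, l⟩
      simp only [Finset.mem_filter, Finset.mem_univ, true_and, Finset.mem_singleton,
        Prod.mk.injEq]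
      constructor
      · rintro ⟨h1, h2⟩
        exact ai1wt_inj h1.1 h2
      · rintro ⟨rfl, rfl⟩
        exact ⟨hP, rfl⟩
    rw [e1, e2, finrank_span_singleton, Finset.card_singleton]
    intro h0
    have := congrFun (congrFun h0 i) j
    simp at this
  · have e1 : ai1gr S w = ⊥ := by
      rw [eq_bot_iff]
      intro y hy
      rw [Submodule.mem_bot]
      ext i j
      by_contra h0
      have h1 : ai1wt i j = w := by
        by_contra h2
        exact h0 (ai1gr_supp hy h2)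
      have hij : i ≠ j := by
        rintro rfl
        exact hw (h1.symm.trans (ai1wt_self i))
      exact h ⟨i, j, ai1P_of hij (h1 ▸ hy) h0, h1⟩
    have e2 : ((univ.filter (fun x : Fin n × Fin n => ai1P S x.1 x.2)).filter
        (fun x => ai1wt x.1 x.2 = w)) = ∅ := by
      rw [Finset.filter_eq_empty_iff]
      intro x hx h2
      exact h ⟨x.1, x.2, (Finset.mem_filter.1 hx).2, h2⟩
    rw [e1, e2]; simp

/-- the dimension of a subspace from its leading positions and its diagonal piece -/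
lemma ai1dim (S : Submodule F (Mat n F)) :
    Module.finrank F S = (univ.filter (fun x : Fin n × Fin n => ai1P S x.1 x.2)).card
      + Module.finrank F (ai1gr S 0) := by
  have h0 : (0 : ℤ) ∈ Finset.Ioc (-(2 : ℤ) ^ n) (2 ^ n) := by
    have : (0 : ℤ) < 2 ^ n := by positivity
    rw [Finset.mem_Ioc]; constructor <;> linarith
  rw [ai1sum, ← Finset.sum_erase_add _ _ h0]
  congr 1
  rw [Finset.card_eq_sum_card_fiberwise (f := fun x : Fin n × Fin n => ai1wt x.1 x.2)
    (t := (Finset.Ioc (-(2 : ℤ) ^ n) (2 ^ n)).erase 0)]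
  · exact Finset.sum_congr rfl fun w hw => ai1gr_rank S (Finset.ne_of_mem_erase hw)
  · intro x hx
    have hP := (Finset.mem_filter.1 hx).2
    simp only [Finset.coe_erase, Finset.coe_Ioc, Set.mem_sdiff, Set.mem_Ioc, Set.mem_singleton_iff]
    exact ⟨⟨(ai1wt_bd _ _).1, (ai1wt_bd _ _).2.le⟩, fun e => hP.1 (ai1wt_zero e)⟩

end Pool.Agent.MP_8299d6_al.Up

end
end

section

open Matrix

noncomputable section

namespace Pool.Agent.MP_8299d6_al.Up

open Pool.Agent.MP_810665_al (IrrChar)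

section Aux

open Classical Finset

variable {n : ℕ} {F : Type} [Field F]

lemma ai1gr_mul (h : Subalgebra F (Mat n F)) {a b : ℤ} {x y : Mat n F}
    (hx : x ∈ ai1gr h.toSubmodule a) (hy : y ∈ ai1gr h.toSubmodule b) :
    x * y ∈ ai1gr h.toSubmodule (a + b) := by
  obtain ⟨x', hx1, hx2, rfl⟩ := ai1mem_gr.1 hx
  obtain ⟨y', hy1, hy2, rfl⟩ := ai1mem_gr.1 hy
  exact ai1mem_gr.2 ⟨x' * y', h.mul_mem hx1 hy1, ai1Le_mul hx2 hy2, ai1top_mul hx2 hy2⟩

lemma ai1top_comm {a b : ℤ} {x y : Mat n F} (hx : x ∈ ai1Le n F a) (hy : y ∈ ai1Le n F b) :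
    ai1top n F (a + b) (x * y - y * x) =
      ai1top n F a x * ai1top n F b y - ai1top n F b y * ai1top n F a x := by
  rw [map_sub, ai1top_mul hx hy, add_comm a b, ai1top_mul hy hx]

lemma ai1gr_comm (h : Subalgebra F (Mat n F)) {a b : ℤ} {x y : Mat n F}
    (hx : x ∈ ai1gr h.toSubmodule a) (hy : y ∈ ai1gr h.toSubmodule b) :
    x * y - y * x ∈ ai1gr (commA h) (a + b) := by
  obtain ⟨x', hx1, hx2, rfl⟩ := ai1mem_gr.1 hx
  obtain ⟨y', hy1, hy2, rfl⟩ := ai1mem_gr.1 hy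
  refine ai1mem_gr.2 ⟨x' * y' - y' * x', Submodule.subset_span ⟨x', hx1, y', hy1, rfl⟩,
    Submodule.sub_mem _ (ai1Le_mul hx2 hy2) ?_, ai1top_comm hx2 hy2⟩
  rw [add_comm]
  exact ai1Le_mul hy2 hx2

/-- positions not separated by the diagonal piece -/
def ai1r (S : Submodule F (Mat n F)) (i k : Fin n) : Prop := ∀ t ∈ ai1gr S 0, t i i = t k k

lemma ai1r_equiv (S : Submodule F (Mat n F)) : Equivalence (ai1r S) :=
  ⟨fun _ _ _ => rfl, fun h t ht => (h t ht).symm, fun h1 h2 t ht => (h1 t ht).trans (h2 t ht)⟩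

lemma ai1diag {S : Submodule F (Mat n F)} {t : Mat n F} (ht : t ∈ ai1gr S 0) {i j : Fin n}
    (hij : i ≠ j) : t i j = 0 := ai1gr_supp ht (fun e => hij (ai1wt_zero e))

lemma ai1diag_comm (t : Mat n F) (i j : Fin n) :
    (t * single i j (1 : F) - single i j (1 : F) * t) i j = t i i - t j j := by
  rw [Matrix.sub_apply, Matrix.mul_single_apply_same, Matrix.single_mul_apply_same, mul_one,
    one_mul]

lemma ai1tr (h : Subalgebra F (Mat n F)) (i j k : Fin n) (h1 : ai1P h.toSubmodule i j)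
    (h2 : ai1P h.toSubmodule j k) (hik : i ≠ k) : ai1P h.toSubmodule i k := by
  have := ai1gr_mul h h1.2 h2.2
  rw [ai1wt_add, Matrix.single_mul_single_same, mul_one] at this
  exact ⟨hik, this⟩

lemma ai1cyc (h : Subalgebra F (Mat n F)) (i j k : Fin n) (h1 : ai1P h.toSubmodule i j)
    (h2 : ai1P h.toSubmodule j i) (hr : ai1r h.toSubmodule i k) : k = i := by
  have := ai1gr_mul h h1.2 h2.2
  rw [ai1wt_add, ai1wt_self, Matrix.single_mul_single_same, mul_one] at this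
  have e := hr _ this
  by_contra hne
  rw [Matrix.single_apply_same, Matrix.single_apply_of_ne] at e
  · exact one_ne_zero e
  · exact fun h3 => hne h3.1.symm

/-- the diagonal piece has dimension at most the number of classes -/
lemma ai1T_le (S : Submodule F (Mat n F)) :
    Module.finrank F (ai1gr S 0) ≤ (univ.filter (fun i => ∀ j < i, ¬ ai1r S i j)).card := by
  let R := univ.filter (fun i => ∀ j < i, ¬ ai1r S i j)
  let φ : ai1gr S 0 →ₗ[F] (R → F) :=
    { toFun := fun t i => t.1 i.1 i.1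
      map_add' := fun _ _ => rfl
      map_smul' := fun _ _ => rfl }
  have hinj : Function.Injective φ := by
    rw [← LinearMap.ker_eq_bot, eq_bot_iff]
    intro t ht
    rw [Submodule.mem_bot]
    have h0 : ∀ i, t.1 i i = 0 := by
      intro i
      induction i using WellFoundedLT.induction with
      | ind i ih =>
        by_cases hi : ∀ j < i, ¬ ai1r S i j
        · exact congrFun (LinearMap.mem_ker.1 ht) ⟨i, Finset.mem_filter.2 ⟨Finset.mem_univ _, hi⟩⟩
        · push Not at hi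
          obtain ⟨j, hj, hr⟩ := hi
          rw [hr t.1 t.2, ih j hj]
    ext i j
    by_cases hij : i = j
    · subst hij; exact h0 i
    · exact ai1diag t.2 hij
  have := LinearMap.finrank_le_finrank_of_injective hinj
  rwa [Module.finrank_fintype_fun_eq_card, Fintype.card_coe] at this

/-- the diagonal piece of the commutator space -/
lemma ai1T_ge (h : Subalgebra F (Mat n F)) :
    (univ.filter (fun i => ∃ j < i, ai1P h.toSubmodule i j ∧ ai1P h.toSubmodule j i)).card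
      ≤ Module.finrank F (ai1gr (commA h) 0) := by
  let D := univ.filter (fun i => ∃ j < i, ai1P h.toSubmodule i j ∧ ai1P h.toSubmodule j i)
  have hex : ∀ i : D, ∃ j, j ∉ D ∧ ai1P h.toSubmodule i.1 j ∧ ai1P h.toSubmodule j i.1 := by
    intro i
    obtain ⟨j0, hj0, hj1⟩ := (Finset.mem_filter.1 i.2).2
    obtain ⟨j, hj, hmin⟩ := WellFounded.has_min (wellFounded_lt (α := Fin n))
      {j | ai1P h.toSubmodule i.1 j ∧ ai1P h.toSubmodule j i.1} ⟨j0, hj1⟩
    refine ⟨j, fun hD => ?_, hj⟩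
    obtain ⟨k, hk, h1, h2⟩ := (Finset.mem_filter.1 hD).2
    have hji : j ≤ j0 := not_lt.1 (hmin j0 hj1)
    have hki : k < i.1 := lt_of_lt_of_le hk (hji.trans hj0.le)
    exact hmin k ⟨ai1tr h _ _ _ hj.1 h1 hki.ne', ai1tr h _ _ _ h2 hj.2 hki.ne⟩ hk
  choose f hf using hex
  have hmem : ∀ i : D, single i.1 i.1 (1 : F) - single (f i) (f i) 1 ∈ ai1gr (commA h) 0 := by
    intro i
    have := ai1gr_comm h (hf i).2.1.2 (hf i).2.2.2
    rwa [ai1wt_add, ai1wt_self, Matrix.single_mul_single_same, Matrix.single_mul_single_same,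
      mul_one] at this
  let v : D → ai1gr (commA h) 0 := fun i => ⟨_, hmem i⟩
  have hli : LinearIndependent F v := by
    rw [Fintype.linearIndependent_iff]
    intro g hg k
    have h1 := congrArg (fun t : ai1gr (commA h) 0 => t.1 k.1 k.1) hg
    simp only [Submodule.coe_sum, Submodule.coe_smul, Matrix.sum_apply, Matrix.smul_apply,
      Matrix.sub_apply, v, ZeroMemClass.coe_zero, Matrix.zero_apply] at h1
    rw [Finset.sum_eq_single k] at h1
    · rw [Matrix.single_apply_same, Matrix.single_apply_of_ne] at h1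
      · simpa using h1
      · exact fun h3 => (hf k).1 (h3.1 ▸ k.2)
    · intro i _ hik
      rw [Matrix.single_apply_of_ne, Matrix.single_apply_of_ne]
      · simp
      · exact fun h3 => (hf i).1 (h3.1 ▸ k.2)
      · exact fun h3 => hik (Subtype.ext h3.1)
    · intro h3; exact absurd (Finset.mem_univ _) h3
  have := hli.fintype_card_le_finrank
  rwa [Fintype.card_coe] at this

lemma ai1PC (h : Subalgebra F (Mat n F)) (i k : Fin n) (hP : ai1P h.toSubmodule i k) :
    ai1P (commA h) i k ∨ (ai1r h.toSubmodule i k ∧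
      ¬ ∃ j, ai1P h.toSubmodule i j ∧ ai1P h.toSubmodule j k) := by
  by_cases hr : ai1r h.toSubmodule i k
  · by_cases hd : ∃ j, ai1P h.toSubmodule i j ∧ ai1P h.toSubmodule j k
    · left
      obtain ⟨j, h1, h2⟩ := hd
      have := ai1gr_comm h h1.2 h2.2
      rw [ai1wt_add, Matrix.single_mul_single_same, Matrix.single_mul_single_of_ne (h := hP.1.symm),
        mul_one, sub_zero] at this
      exact ⟨hP.1, this⟩
    · exact Or.inr ⟨hr, hd⟩
  · left
    unfold ai1r at hr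
    push Not at hr
    obtain ⟨t, ht, hne⟩ := hr
    have := ai1gr_comm h ht hP.2
    rw [zero_add] at this
    refine ai1P_of hP.1 this ?_
    rw [ai1diag_comm]
    exact sub_ne_zero.2 hne

lemma ai1count (h : Subalgebra F (Mat n F)) :
    3 * Module.finrank F h ≤
      (2 * (univ.filter (fun i => ∀ j < i, ¬ (ai1r h.toSubmodule i j ∨
          (ai1P h.toSubmodule i j ∧ ai1P h.toSubmodule j i)))).card
        + 2 * (univ.filter (fun x : Fin n × Fin n => ai1P h.toSubmodule x.1 x.2 ∧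
          ai1r h.toSubmodule x.1 x.2 ∧
            ¬ ∃ j, ai1P h.toSubmodule x.1 j ∧ ai1P h.toSubmodule j x.2)).card
        + (univ.filter (fun i => ∀ j < i, ¬ ai1r h.toSubmodule i j)).card
        + (univ.filter (fun x : Fin n × Fin n => ai1P h.toSubmodule x.1 x.2)).card)
      + 2 * Module.finrank F (commA h) := by
  have h1 := ai1dim h.toSubmodule
  have h2 := ai1dim (commA h)
  have h3 := ai1T_le h.toSubmodule
  have h4 := ai1T_ge h
  have h5 : (univ.filter (fun x : Fin n × Fin n => ai1P h.toSubmodule x.1 x.2)).card ≤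
      (univ.filter (fun x : Fin n × Fin n => ai1P (commA h) x.1 x.2)).card
      + (univ.filter (fun x : Fin n × Fin n => ai1P h.toSubmodule x.1 x.2 ∧
          ai1r h.toSubmodule x.1 x.2 ∧
            ¬ ∃ j, ai1P h.toSubmodule x.1 j ∧ ai1P h.toSubmodule j x.2)).card := by
    refine le_trans (Finset.card_le_card ?_) (Finset.card_union_le _ _)
    intro x hx
    have hP := (Finset.mem_filter.1 hx).2
    rw [Finset.mem_union, Finset.mem_filter, Finset.mem_filter]
    rcases ai1PC h x.1 x.2 hP with h6 | h6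
    · exact Or.inl ⟨Finset.mem_univ _, h6⟩
    · exact Or.inr ⟨Finset.mem_univ _, hP, h6⟩
  have h6 : (univ.filter (fun i => ∀ j < i, ¬ ai1r h.toSubmodule i j)).card ≤
      (univ.filter (fun i => ∀ j < i, ¬ (ai1r h.toSubmodule i j ∨
          (ai1P h.toSubmodule i j ∧ ai1P h.toSubmodule j i)))).card
      + (univ.filter (fun i => ∃ j < i, ai1P h.toSubmodule i j ∧ ai1P h.toSubmodule j i)).card := by
    refine le_trans (Finset.card_le_card ?_) (Finset.card_union_le _ _)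
    intro i hi
    have hR := (Finset.mem_filter.1 hi).2
    rw [Finset.mem_union, Finset.mem_filter, Finset.mem_filter]
    by_cases h7 : ∃ j < i, ai1P h.toSubmodule i j ∧ ai1P h.toSubmodule j i
    · exact Or.inr ⟨Finset.mem_univ _, h7⟩
    · refine Or.inl ⟨Finset.mem_univ _, fun j hj h8 => ?_⟩
      rcases h8 with h8 | h8
      · exact hR j hj h8
      · exact h7 ⟨j, hj, h8⟩
  have h7 : Module.finrank F h = Module.finrank F h.toSubmodule := rfl
  omega

/-- a central element has a leading component that is central for the graded pieces -/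
lemma ai1central (hn : 0 < n) (h : Subalgebra F (Mat n F)) (z : Mat n F) (hz : z ∈ h)
    (hns : ¬ IsScal z) (hc : ∀ x ∈ h, z * x = x * z) :
    ∃ (i j : Fin n) (y : Mat n F), y ∈ ai1gr h.toSubmodule (ai1wt i j) ∧ y i j ≠ 0 ∧
      y ⟨0, hn⟩ ⟨0, hn⟩ = 0 ∧ ∀ b, ∀ x ∈ ai1gr h.toSubmodule b, y * x - x * y = 0 := by
  set o : Fin n := ⟨0, hn⟩
  set u : Mat n F := z - z o o • 1 with hu
  have hu1 : u ∈ h := h.sub_mem hz (h.smul_mem h.one_mem _)
  have hu2 : ∀ x ∈ h, u * x - x * u = 0 := by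
    intro x hx
    rw [hu, sub_mul, mul_sub, hc x hx, smul_mul_assoc, mul_smul_comm, one_mul, mul_one, sub_self]
  have hu3 : u o o = 0 := by simp [hu]
  have hu4 : (univ.filter (fun x : Fin n × Fin n => u x.1 x.2 ≠ 0)).Nonempty := by
    by_contra hne
    apply hns
    refine ⟨z o o, sub_eq_zero.1 ?_⟩
    ext i j
    by_contra h0
    exact hne ⟨(i, j), Finset.mem_filter.2 ⟨Finset.mem_univ _, h0⟩⟩
  obtain ⟨⟨i, j⟩, hij, hmax⟩ := Finset.exists_max_image _
    (fun x : Fin n × Fin n => ai1wt x.1 x.2) hu4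
  have hLe : u ∈ ai1Le n F (ai1wt i j) := by
    intro k l hkl
    by_contra h0
    have := hmax (k, l) (Finset.mem_filter.2 ⟨Finset.mem_univ _, h0⟩)
    exact absurd hkl (not_lt.2 this)
  refine ⟨i, j, ai1top n F (ai1wt i j) u, ai1mem_gr.2 ⟨u, hu1, hLe, rfl⟩, ?_, ?_, ?_⟩
  · rw [ai1top_apply, if_pos rfl]
    exact (Finset.mem_filter.1 hij).2
  · rw [ai1top_apply, hu3, ite_self]
  · intro b x hx
    obtain ⟨x', hx1, hx2, rfl⟩ := ai1mem_gr.1 hx
    rw [← ai1top_comm hLe hx2, hu2 x' hx1, map_zero]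

lemma ai1alt (hn : 0 < n) (h : Subalgebra F (Mat n F)) (z : Mat n F) (hz : z ∈ h)
    (hns : ¬ IsScal z) (hc : ∀ x ∈ h, z * x = x * z) :
    (∃ t : Fin n → Prop, (∃ i j, t i ∧ ¬ t j) ∧ (∀ i j, ai1r h.toSubmodule i j → t i → t j) ∧
        ∀ i j, ai1P h.toSubmodule i j → (t i ↔ t j)) ∨
      ∃ i j, ai1P h.toSubmodule i j ∧ ai1r h.toSubmodule i j ∧ (∀ k, ¬ ai1P h.toSubmodule j k) ∧
        ∀ k, ¬ ai1P h.toSubmodule k i := by
  obtain ⟨i, j, y, hy, h0, ho, hcen⟩ := ai1central hn h z hz hns hc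
  by_cases hij : i = j
  · left
    subst hij
    rw [ai1wt_self] at hy
    refine ⟨fun k => y k k = y i i, ⟨i, ⟨0, hn⟩, rfl, fun e => h0 (e.symm.trans ho)⟩,
      fun k l hr hk => (hr y hy).symm.trans hk, fun k l hP => ?_⟩
    have e := ai1diag_comm y k l
    rw [hcen _ _ hP.2, Matrix.zero_apply] at e
    have e2 : y k k = y l l := sub_eq_zero.1 e.symm
    simp only [e2]
  · right
    have hP := ai1P_of hij hy h0
    have hE : ∀ b, ∀ x ∈ ai1gr h.toSubmodule b,
        single i j (1 : F) * x - x * single i j (1 : F) = 0 := by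
      intro b x hx
      have e := hcen b x hx
      rw [ai1gr_eq hij hy, smul_mul_assoc, mul_smul_comm, ← smul_sub] at e
      exact (smul_eq_zero.1 e).resolve_left h0
    refine ⟨i, j, hP, fun t ht => ?_, fun k hk => ?_, fun k hk => ?_⟩
    · have e := ai1diag_comm t i j
      rw [← neg_sub, hE _ _ ht, neg_zero, Matrix.zero_apply] at e
      exact sub_eq_zero.1 e.symm
    · have e := congrFun (congrFun (hE _ _ hk.2) i) k
      rw [Matrix.single_mul_single_same, Matrix.sub_apply, Matrix.single_apply_same,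
        Matrix.single_mul_apply_of_ne _ _ _ _ _ hij] at e
      simp at e
    · have e := congrFun (congrFun (hE _ _ hk.2) k) j
      rw [Matrix.single_mul_single_same, Matrix.sub_apply, Matrix.single_apply_same,
        Matrix.mul_single_apply_of_ne _ _ _ _ _ (Ne.symm hij)] at e
      simp at e

end Aux

/-- the algebra inequality -/
theorem alg_ineq {n : ℕ} (hn : 4 ≤ n) {F : Type} [Field F] (h : Subalgebra F (Mat n F))
    (z : Mat n F) (hz : z ∈ h) (hns : ¬ IsScal z) (hc : ∀ x ∈ h, z * x = x * z) :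
    3 * Module.finrank F h ≤ n ^ 2 + 2 * Module.finrank F (commA h) := by
  have h1 := ai1count h
  have h2 := ai1alt (by omega) h z hz hns hc
  refine h1.trans (Nat.add_le_add_right ?_ _)
  rcases Nat.eq_or_lt_of_le hn with h4 | h5
  · subst h4
    exact comb_four _ _ (fun i hi => hi.1 rfl) (ai1tr h) (ai1r_equiv _) (ai1cyc h) h2
  · refine comb_five h5 _ _ (fun i hi => hi.1 rfl) (ai1tr h) (ai1r_equiv _) (ai1cyc h) ?_
    rcases h2 with ⟨t, ⟨i, j, hi, hj⟩, -, ht⟩ | ⟨i, j, hP, -, hk, -⟩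
    · exact ⟨i, j, fun e => hj (e ▸ hi), fun hP => hj ((ht i j hP).1 hi)⟩
    · exact ⟨j, i, hP.1.symm, hk i⟩

end Pool.Agent.MP_8299d6_al.Up

end
end

section

open Matrix

noncomputable section

namespace Pool.Agent.MP_8299d6_al.Up

open Pool.Agent.MP_810665_al (IrrChar)

/-- the algebra inequality for shadows -/
theorem sh_ineq {n p : ℕ} [Fact p.Prime] (hn : 4 ≤ n) (m : ℕ) (A : Mat n (ZMod (p ^ (m + 1))))
    (hA : ¬ IsScal A) :
    Nat.card (sh n p m A) ^ 3 ≤ p ^ (n ^ 2) * Nat.card (commS (sh n p m A)) ^ 2 := by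
  have hp : p.Prime := Fact.out
  let h : Subalgebra (ZMod p) (Mat n (ZMod p)) :=
    { sh n p m A with
      algebraMap_mem' := fun r => by
        rw [← ZMod.natCast_zmod_val r, map_natCast]
        exact natCast_mem (sh n p m A) _ }
  obtain ⟨z, hz, hns, hc⟩ := sh_central m A hA
  have key := alg_ineq hn h z hz hns hc
  have e1 : Nat.card (sh n p m A) = p ^ Module.finrank (ZMod p) h := by
    have := Module.natCard_eq_pow_finrank (K := ZMod p) (V := h)
    rwa [Nat.card_zmod] at this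
  have e2 : Nat.card (commA h) = p ^ Module.finrank (ZMod p) (commA h) := by
    have := Module.natCard_eq_pow_finrank (K := ZMod p) (V := commA h)
    rwa [Nat.card_zmod] at this
  have hle : commA h ≤ AddSubgroup.toZModSubmodule p (commS (sh n p m A)) :=
    Submodule.span_le.2 fun x hx => AddSubgroup.subset_closure hx
  have e3 : Nat.card (commA h) ≤ Nat.card (commS (sh n p m A)) :=
    Nat.card_le_card_of_injective (fun x => (⟨x.1, hle x.2⟩ : commS (sh n p m A)))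
      fun x y e => Subtype.ext (Subtype.mk.inj e)
  calc _ = p ^ (3 * Module.finrank (ZMod p) h) := by rw [e1, ← pow_mul, mul_comm]
    _ ≤ p ^ (n ^ 2 + 2 * Module.finrank (ZMod p) (commA h)) := Nat.pow_le_pow_right hp.pos key
    _ = p ^ (n ^ 2) * Nat.card (commA h) ^ 2 := by rw [e2, pow_add, ← pow_mul, mul_comm 2]
    _ ≤ _ := by gcongr

section Aux

open Classical Finset

variable {n p : ℕ} [Fact p.Prime]

lemma lv3_cc_nonneg {M : Type} [Ring M] (A : M) : 0 ≤ cc A := by unfold cc; positivity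

lemma lv3_cc_le_one {M : Type} [Ring M] [Finite M] (A : M) : cc A ≤ 1 := by
  unfold cc
  exact div_le_one_of_le₀
    (by exact_mod_cast Nat.card_le_card_of_injective _ Subtype.val_injective) (by positivity)

lemma lv3_pow_nonneg {M : Type} [Ring M] (A : M) (t : ℝ) : 0 ≤ cc A ^ t :=
  Real.rpow_nonneg (lv3_cc_nonneg A) t

lemma lv3_card_mat : Nat.card (Mat n (ZMod p)) = p ^ (n ^ 2) := by
  rw [Module.natCard_eq_pow_finrank (K := ZMod p), Nat.card_zmod, Module.finrank_matrix]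
  simp [sq]

lemma lv3_pow (S : AddSubgroup (Mat n (ZMod p))) : ∃ a ≤ n ^ 2, Nat.card S = p ^ a := by
  have := S.card_addSubgroup_dvd_card
  rwa [lv3_card_mat, Nat.dvd_prime_pow Fact.out] at this

lemma lv3_sh_le (m : ℕ) (A : Mat n (ZMod (p ^ (m + 1)))) :
    Nat.card (sh n p m A) ≤ p ^ (n ^ 2) := by
  rw [← lv3_card_mat]
  exact Nat.card_le_card_of_injective _ Subtype.val_injective

lemma lv3_scal_red {m : ℕ} {A : Mat n (ZMod (p ^ (m + 1)))} (h : IsScal A) :
    IsScal (redM n p m A) := by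
  obtain ⟨a, rfl⟩ := h
  refine ⟨ZMod.castHom (pow_dvd_pow p (Nat.le_succ m)) (ZMod (p ^ m)) a, ?_⟩
  ext i j
  simp only [redM, RingHom.mapMatrix_apply, map_apply, Matrix.smul_apply, Matrix.one_apply,
    smul_eq_mul]
  split_ifs <;> simp only [mul_one, mul_zero, map_zero]

lemma lv3_step (m : ℕ) (A : Mat n (ZMod (p ^ (m + 1)))) (t : ℝ) : cc A ^ t =
    cc (redM n p m A) ^ t * ((Nat.card (sh n p m A) : ℝ) / (p : ℝ) ^ (n ^ 2)) ^ t := by
  rw [cc_step, mul_div_assoc, Real.mul_rpow (lv3_cc_nonneg _) (by positivity)]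

lemma lv3_ratio_le (m : ℕ) (A : Mat n (ZMod (p ^ (m + 1)))) :
    (Nat.card (sh n p m A) : ℝ) / (p : ℝ) ^ (n ^ 2) ≤ 1 :=
  div_le_one_of_le₀ (by exact_mod_cast lv3_sh_le m A) (by positivity)

lemma lv3_ratio (hn : 4 ≤ n) (m : ℕ) (A : Mat n (ZMod (p ^ (m + 1)))) (hA : ¬ IsScal A) {t : ℝ}
    (ht : 3 / 2 ≤ t) : ((Nat.card (sh n p m A) : ℝ) / (p : ℝ) ^ (n ^ 2)) ^ t ≤
      (Nat.card (commS (sh n p m A)) : ℝ) / (p : ℝ) ^ (n ^ 2) := by
  have hp : (0 : ℝ) < p := by exact_mod_cast (Fact.out : p.Prime).pos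
  have h1 : (Nat.card (sh n p m A) : ℝ) ^ 3 ≤
      (p : ℝ) ^ (n ^ 2) * (Nat.card (commS (sh n p m A)) : ℝ) ^ 2 := by
    exact_mod_cast sh_ineq hn m A hA
  have h0 : 0 ≤ (Nat.card (sh n p m A) : ℝ) / (p : ℝ) ^ (n ^ 2) := by positivity
  refine (Real.rpow_le_rpow_of_exponent_ge' h0 (lv3_ratio_le m A) (by norm_num) ht).trans ?_
  refine (pow_le_pow_iff_left₀ (n := 2) (by positivity) (by positivity) two_ne_zero).1 ?_
  rw [← Real.rpow_natCast, ← Real.rpow_mul h0]
  have : (3 / 2 : ℝ) * (2 : ℕ) = (3 : ℕ) := by norm_num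
  rw [this, Real.rpow_natCast, div_pow, div_pow, div_le_div_iff₀ (by positivity) (by positivity)]
  calc _ ≤ ((p : ℝ) ^ (n ^ 2) * (Nat.card (commS (sh n p m A)) : ℝ) ^ 2) *
      ((p : ℝ) ^ (n ^ 2)) ^ 2 := by gcongr
    _ = _ := by ring

lemma lv3_lift (n : ℕ) (hn : 4 ≤ n) : ∃ C : ℝ, 0 ≤ C ∧ ∀ (p : ℕ) [Fact p.Prime] (m : ℕ)
    (A : Mat n (ZMod (p ^ (m + 1)))), ¬ IsScal A → ∀ t : ℝ, 3 / 2 ≤ t →
    ∑ A' ∈ univ.filter (fun A' => redM n p (m + 1) A' = A), cc A' ^ t ≤ C * cc A ^ t := by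
  obtain ⟨C, hC⟩ := card_drop n
  refine ⟨(n ^ 2 + 1 : ℕ) * C, by positivity, fun p _ m A hA t ht => ?_⟩
  have hp : (0 : ℝ) < p := by exact_mod_cast (Fact.out : p.Prime).pos
  have h0 := lv3_pow_nonneg A t
  calc _ ≤ ∑ A' ∈ univ.filter (fun A' => redM n p (m + 1) A' = A), ∑ e ∈ range (n ^ 2 + 1),
        if p ^ (n ^ 2) ≤ p ^ e * Nat.card (commS (sh n p (m + 1) A')) then
          cc A ^ t / (p : ℝ) ^ e else 0 := by
        refine sum_le_sum fun A' hA' => ?_
        have e := (mem_filter.1 hA').2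
        obtain ⟨c, hc, ec⟩ := lv3_pow (commS (sh n p (m + 1) A'))
        have h1 := lv3_ratio hn (m + 1) A' (fun h => hA (e ▸ lv3_scal_red h)) ht
        refine le_trans ?_ (single_le_sum (f := fun e =>
          if p ^ (n ^ 2) ≤ p ^ e * Nat.card (commS (sh n p (m + 1) A')) then
            cc A ^ t / (p : ℝ) ^ e else 0) (fun e _ => by positivity)
          (a := n ^ 2 - c) (mem_range.2 (by omega)))
        rw [if_pos (by rw [ec, ← pow_add, Nat.sub_add_cancel hc]), lv3_step, e]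
        refine (mul_le_mul_of_nonneg_left h1 h0).trans (le_of_eq ?_)
        rw [ec, pow_sub₀ _ hp.ne' hc]
        push_cast
        field_simp
    _ = ∑ e ∈ range (n ^ 2 + 1), ((univ.filter (fun A' => redM n p (m + 1) A' = A ∧
        p ^ (n ^ 2) ≤ p ^ e * Nat.card (commS (sh n p (m + 1) A')))).card : ℝ) *
          (cc A ^ t / (p : ℝ) ^ e) := by
        rw [sum_comm]
        refine sum_congr rfl fun e _ => ?_
        rw [← sum_filter, filter_filter, sum_const, nsmul_eq_mul]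
    _ ≤ ∑ e ∈ range (n ^ 2 + 1), C * cc A ^ t := by
        refine sum_le_sum fun e _ => ?_
        have h1 : ((univ.filter (fun A' => redM n p (m + 1) A' = A ∧
            p ^ (n ^ 2) ≤ p ^ e * Nat.card (commS (sh n p (m + 1) A')))).card : ℝ) ≤
            C * (p : ℝ) ^ e := by exact_mod_cast hC p m A e
        refine (mul_le_mul_of_nonneg_right h1 (by positivity)).trans (le_of_eq ?_)
        field_simp
    _ = _ := by rw [sum_const, card_range, nsmul_eq_mul, mul_assoc]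

lemma lv3_rec (m : ℕ) {C t : ℝ} (hC0 : 0 ≤ C) (hC : ∀ A : Mat n (ZMod (p ^ (m + 1))), ¬ IsScal A →
    ∑ A' ∈ univ.filter (fun A' => redM n p (m + 1) A' = A), cc A' ^ t ≤ C * cc A ^ t) :
    ∑ A ∈ univ.filter (fun A => ¬ IsScal (redM n p (m + 1) A)), cc A ^ t ≤
      C * ((p : ℝ) ^ m * sumOn {B : Mat n (ZMod p) | ¬ IsScal B} (fun B => cc B ^ t) +
        ∑ A ∈ univ.filter (fun A => ¬ IsScal (redM n p m A)), cc A ^ t) := by
  calc _ = ∑ A ∈ univ.filter (fun A => ¬ IsScal A),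
        ∑ A' ∈ univ.filter (fun A' => redM n p (m + 1) A' = A), cc A' ^ t := by
        rw [sum_fiberwise_eq_sum_filter]
        exact sum_congr (by ext; simp) fun _ _ => rfl
    _ ≤ ∑ A ∈ univ.filter (fun A : Mat n (ZMod (p ^ (m + 1))) => ¬ IsScal A), C * cc A ^ t :=
        sum_le_sum fun A hA => hC A (mem_filter.1 hA).2
    _ ≤ _ := by
        rw [← mul_sum]
        refine mul_le_mul_of_nonneg_left ?_ hC0
        rw [← sum_filter_add_sum_filter_not _ (fun A => IsScal (redM n p m A)), filter_filter,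
          filter_filter]
        refine add_le_add (le_trans (le_of_eq ?_) (first_level m t)) ?_
        · exact sum_congr (by ext; simp) fun _ _ => rfl
        · exact sum_le_sum_of_subset_of_nonneg (monotone_filter_right _ fun A _ h => h.2)
            fun A _ _ => lv3_pow_nonneg A t

omit [Fact p.Prime] in
lemma lv3_zero (A : Mat n (ZMod (p ^ 0))) : IsScal A := by
  have : Subsingleton (ZMod (p ^ 0)) := ZMod.subsingleton_iff.2 (pow_zero p)
  exact ⟨0, Subsingleton.elim _ _⟩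

/-- the weight used for a fixed prime -/
def lv3w (n p m : ℕ) (t : ℝ) (A : Mat n (ZMod (p ^ (m + 1)))) : ℝ :=
  cc A ^ t * (2 * (p : ℝ) ^ (n ^ 2)) ^ Nat.card (sh n p m A)

lemma lv3_one_le : (1 : ℝ) ≤ 2 * (p : ℝ) ^ (n ^ 2) := by
  have : (1 : ℝ) ≤ (p : ℝ) ^ (n ^ 2) :=
    one_le_pow₀ (by exact_mod_cast (Fact.out : p.Prime).one_le)
  linarith

omit [Fact p.Prime] in
lemma lv3w_nonneg (m : ℕ) (t : ℝ) (A : Mat n (ZMod (p ^ (m + 1)))) : 0 ≤ lv3w n p m t A :=
  mul_nonneg (lv3_pow_nonneg A t) (by positivity)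

lemma lv3w_le (m : ℕ) {t : ℝ} (ht : 0 ≤ t) (A : Mat n (ZMod (p ^ (m + 1)))) :
    lv3w n p m t A ≤ (2 * (p : ℝ) ^ (n ^ 2)) ^ (p ^ (n ^ 2)) :=
  (mul_le_of_le_one_left (by positivity)
    (Real.rpow_le_one (lv3_cc_nonneg A) (lv3_cc_le_one A) ht)).trans
    (pow_le_pow_right₀ lv3_one_le (lv3_sh_le m A))

lemma lv3w_lift (hn : 4 ≤ n) (m : ℕ) (A : Mat n (ZMod (p ^ (m + 1)))) (hA : ¬ IsScal A) {t : ℝ}
    (ht : 3 / 2 ≤ t) : ∑ A' ∈ univ.filter (fun A' => redM n p (m + 1) A' = A),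
      lv3w n p (m + 1) t A' ≤ 3 / 2 * lv3w n p m t A := by
  have hp : (0 : ℝ) < p := by exact_mod_cast (Fact.out : p.Prime).pos
  have h0 := lv3w_nonneg m t A
  have h0' := lv3_pow_nonneg A t
  rw [← sum_filter_add_sum_filter_not _ (fun A' => sh n p (m + 1) A' = sh n p m A), filter_filter]
  have a1 : ∑ A' ∈ univ.filter (fun A' => redM n p (m + 1) A' = A ∧
      sh n p (m + 1) A' = sh n p m A), lv3w n p (m + 1) t A' ≤ lv3w n p m t A := by
    have h1 : ((univ.filter (fun A' => redM n p (m + 1) A' = A ∧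
        sh n p (m + 1) A' = sh n p m A)).card : ℝ) * (Nat.card (commS (sh n p m A)) : ℝ) ≤
        (p : ℝ) ^ (n ^ 2) := by exact_mod_cast card_stay m A
    refine (sum_le_card_nsmul _ _
      (lv3w n p m t A * ((Nat.card (commS (sh n p m A)) : ℝ) / (p : ℝ) ^ (n ^ 2))) ?_).trans ?_
    · intro A' hA'
      obtain ⟨e1, e2⟩ := (mem_filter.1 hA').2
      rw [lv3w, lv3_step, e1, e2, mul_right_comm]
      exact mul_le_mul_of_nonneg_left (lv3_ratio hn m A hA ht) h0
    · rw [nsmul_eq_mul, mul_left_comm, ← mul_div_assoc]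
      exact mul_le_of_le_one_right h0 (div_le_one_of_le₀ h1 (by positivity))
  have a2 : ∑ A' ∈ (univ.filter (fun A' => redM n p (m + 1) A' = A)).filter
      (fun A' => ¬ sh n p (m + 1) A' = sh n p m A), lv3w n p (m + 1) t A' ≤
      lv3w n p m t A / 2 := by
    refine (sum_le_card_nsmul _ _ (lv3w n p m t A / (2 * (p : ℝ) ^ (n ^ 2))) ?_).trans ?_
    · intro A' hA'
      obtain ⟨e1, e2⟩ := mem_filter.1 hA'
      have e1 := (mem_filter.1 e1).2
      have h1 : sh n p (m + 1) A' < sh n p m A := lt_of_le_of_ne (e1 ▸ sh_le m A') e2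
      have h2 : Nat.card (sh n p (m + 1) A') < Nat.card (sh n p m A) :=
        Set.Finite.card_lt_card (Set.toFinite _) (SetLike.coe_ssubset_coe.2 h1)
      rw [le_div_iff₀ (by positivity), lv3w, lv3w, lv3_step, e1, mul_assoc, ← pow_succ]
      refine mul_le_mul (mul_le_of_le_one_right h0' (Real.rpow_le_one (by positivity)
        (lv3_ratio_le _ _) (by linarith))) (pow_le_pow_right₀ lv3_one_le h2) (by positivity) h0'
    · have h1 : (((univ.filter (fun A' => redM n p (m + 1) A' = A)).filter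
          (fun A' => ¬ sh n p (m + 1) A' = sh n p m A)).card : ℝ) ≤ (p : ℝ) ^ (n ^ 2) := by
        exact_mod_cast (card_filter_le _ _).trans (card_fiber (m + 1) A).le
      rw [nsmul_eq_mul]
      refine (mul_le_mul_of_nonneg_right h1 (by positivity)).trans (le_of_eq ?_)
      field_simp
  linarith

lemma lv3w_sum (hn : 4 ≤ n) {t : ℝ} (ht : 3 / 2 ≤ t) (m : ℕ) : ∑ A, lv3w n p m t A ≤
    2 * ((p : ℝ) ^ (n ^ 2) * (2 * (p : ℝ) ^ (n ^ 2)) ^ (p ^ (n ^ 2))) * (p : ℝ) ^ (m + 1) := by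
  have hp : (2 : ℝ) ≤ p := by exact_mod_cast (Fact.out : p.Prime).two_le
  have fib : ∀ (j : ℕ) (A : Mat n (ZMod (p ^ j))),
      ∑ A' ∈ univ.filter (fun A' => redM n p j A' = A), lv3w n p j t A' ≤
        (p : ℝ) ^ (n ^ 2) * (2 * (p : ℝ) ^ (n ^ 2)) ^ (p ^ (n ^ 2)) := by
    intro j A
    refine (sum_le_card_nsmul _ _ _ fun A' _ => lv3w_le j (by linarith) A').trans (le_of_eq ?_)
    rw [card_fiber, nsmul_eq_mul]
    push_cast
    rfl
  have hB : 0 ≤ (p : ℝ) ^ (n ^ 2) * (2 * (p : ℝ) ^ (n ^ 2)) ^ (p ^ (n ^ 2)) := by positivity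
  generalize (p : ℝ) ^ (n ^ 2) * (2 * (p : ℝ) ^ (n ^ 2)) ^ (p ^ (n ^ 2)) = B at fib hB ⊢
  have sc : ∀ j : ℕ, ∑ A ∈ univ.filter (fun A : Mat n (ZMod (p ^ j)) => IsScal A),
      ∑ A' ∈ univ.filter (fun A' => redM n p j A' = A), lv3w n p j t A' ≤ (p : ℝ) ^ j * B := by
    intro j
    refine (sum_le_card_nsmul _ _ _ fun A _ => fib j A).trans ?_
    rw [nsmul_eq_mul]
    exact mul_le_mul_of_nonneg_right (by exact_mod_cast card_scal j) hB
  induction m with
  | zero =>
    have := sc 0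
    rw [filter_true_of_mem fun A _ => lv3_zero A, sum_fiberwise] at this
    simp only [pow_zero, zero_add, pow_one] at this ⊢
    nlinarith
  | succ m ih =>
    rw [← sum_fiberwise univ (redM n p (m + 1)), ← sum_filter_add_sum_filter_not _ IsScal]
    have a1 := sc (m + 1)
    have a2 : ∑ A ∈ univ.filter (fun A : Mat n (ZMod (p ^ (m + 1))) => ¬ IsScal A),
        ∑ A' ∈ univ.filter (fun A' => redM n p (m + 1) A' = A), lv3w n p (m + 1) t A' ≤
        3 / 2 * ∑ A, lv3w n p m t A := by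
      rw [mul_sum]
      refine (sum_le_sum fun A hA => lv3w_lift hn m A (mem_filter.1 hA).2 ht).trans
        (sum_le_sum_of_subset_of_nonneg (filter_subset _ _) fun A _ _ => ?_)
      exact mul_nonneg (by norm_num) (lv3w_nonneg m t A)
    have h1 : 0 ≤ B * (p : ℝ) ^ (m + 1) := by positivity
    rw [pow_succ (p : ℝ) (m + 1)]
    nlinarith

end Aux

theorem level_big (n : ℕ) (hn : 4 ≤ n) : ∃ (C : ℝ) (p₀ : ℕ), ∀ (p : ℕ) [Fact p.Prime], p₀ ≤ p →
    ∀ (m : ℕ) (s : ℝ), 1 ≤ s →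
    sumOn (NS n _ ((p : ZMod (p ^ (m + 1))) ^ m)) (fun A => cc A ^ (1 + s / 2))
      ≤ C * (p : ℝ) ^ ((m : ℝ) + 3 - n - s) := by
  classical
  obtain ⟨C, hC0, hC⟩ := lv3_lift n hn
  obtain ⟨C₁, hC₁⟩ := first_sum n hn
  refine ⟨2 * C * C₁, max (2 * n) ⌈2 * C⌉₊, fun p _ hp m s hs => ?_⟩
  have hp0 : (0 : ℝ) < p := by exact_mod_cast (Fact.out : p.Prime).pos
  have hpC : 2 * C ≤ p := Nat.ceil_le.1 ((le_max_right _ _).trans hp)
  have h1 := hC₁ p ((le_max_left _ _).trans hp) s hs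
  have ht : 3 / 2 ≤ 1 + s / 2 := by linarith
  have hΦ : 0 ≤ sumOn {B : Mat n (ZMod p) | ¬ IsScal B} (fun B => cc B ^ (1 + s / 2)) :=
    Finset.sum_nonneg fun B _ => lv3_pow_nonneg B _
  have key : ∀ j : ℕ, (p : ℝ) * ∑ A ∈ Finset.univ.filter (fun A => ¬ IsScal (redM n p j A)),
      cc A ^ (1 + s / 2) ≤ 2 * C * ((p : ℝ) ^ j *
        sumOn {B : Mat n (ZMod p) | ¬ IsScal B} (fun B => cc B ^ (1 + s / 2))) := by
    intro j
    induction j with
    | zero =>
      rw [Finset.filter_false_of_mem fun A _ => not_not.2 (lv3_zero _), Finset.sum_empty, mul_zero]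
      positivity
    | succ j ih =>
      have h2 := mul_le_mul_of_nonneg_left (lv3_rec j hC0 fun A hA => hC p j A hA _ ht) hp0.le
      have h3 := mul_le_mul_of_nonneg_left ih hC0
      have h4 := mul_le_mul_of_nonneg_right hpC (mul_nonneg hC0 (mul_nonneg (pow_nonneg hp0.le j) hΦ))
      rw [pow_succ (p : ℝ) j]
      linarith
  have e : sumOn (NS n _ ((p : ZMod (p ^ (m + 1))) ^ m)) (fun A => cc A ^ (1 + s / 2)) =
      ∑ A ∈ Finset.univ.filter (fun A => ¬ IsScal (redM n p m A)), cc A ^ (1 + s / 2) :=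
    Finset.sum_congr (by ext; simp [mem_NS_iff]) fun _ _ => rfl
  rw [e]
  refine le_of_mul_le_mul_left ((key m).trans ?_) hp0
  have e2 : (p : ℝ) * (p : ℝ) ^ ((m : ℝ) + 3 - n - s) = (p : ℝ) ^ m * (p : ℝ) ^ (4 - (n : ℝ) - s) := by
    rw [← Real.rpow_natCast, ← Real.rpow_add hp0, mul_comm, ← Real.rpow_add_one hp0.ne']
    congr 1
    ring
  calc _ ≤ 2 * C * ((p : ℝ) ^ m * (C₁ * (p : ℝ) ^ (4 - (n : ℝ) - s))) := by gcongr
    _ = _ := by rw [mul_left_comm (p : ℝ), e2]; ring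

theorem level_small (n : ℕ) (hn : 4 ≤ n) (p : ℕ) [Fact p.Prime] : ∃ C : ℝ, ∀ (m : ℕ) (s : ℝ),
    1 ≤ s → ∑ A : Mat n (ZMod (p ^ (m + 1))), cc A ^ (1 + s / 2) ≤ C * (p : ℝ) ^ (m + 1) := by
  refine ⟨_, fun m s hs => le_trans (Finset.sum_le_sum fun A _ => ?_)
    (lv3w_sum hn (t := 1 + s / 2) (by linarith) m)⟩
  exact le_mul_of_one_le_right (lv3_pow_nonneg A _) (one_le_pow₀ lv3_one_le)

end Pool.Agent.MP_8299d6_al.Up

end
end

section

open Matrix

noncomputable section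

namespace Pool.Agent.MP_8299d6_al.Up

open Pool.Agent.MP_810665_al (IrrChar)

variable {M : Type} [Ring M] [Fintype M] {τ : AddChar M ℂ}

/-- the setting of the refined count -/
structure Gal (τ : AddChar M ℂ) (O O' : Subring M) (J J' : NonUnitalSubring M) (L : M → M)
    (H H' : Subgroup Mˣ) (A : M) : Prop where
  hH : ∀ g : Mˣ, g ∈ H ↔ (g : M) ∈ O
  hH' : ∀ g : Mˣ, g ∈ H' ↔ (g : M) ∈ O'
  le : O' ≤ O
  leJ : J ≤ J'
  sit : Sit τ J J L H
  sit' : Sit τ J' J' L H'
  JO : ∀ y ∈ J', y ∈ O'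
  id : ∀ x ∈ O, ∀ y ∈ J, x * y ∈ J ∧ y * x ∈ J
  id' : ∀ x ∈ O', ∀ y ∈ J', x * y ∈ J' ∧ y * x ∈ J'
  sq : ∀ x ∈ J', ∀ y ∈ J', x * y ∈ J
  fix : ∀ y ∈ O, ∃ y' ∈ O, y - y' ∈ J ∧ A * y' - y' * A ∈ perp τ O.toAddSubgroup

variable {O O' : Subring M} {J J' : NonUnitalSubring M} {L : M → M} {H H' : Subgroup Mˣ} {A : M}

lemma Gal.xgal0_JO (h : Gal τ O O' J J' L H H' A) : ∀ y ∈ J, y ∈ O :=
  fun y hy => h.le (h.JO y (h.leJ hy))

lemma Gal.xgal0_p1 (h : Gal τ O O' J J' L H H' A) :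
    perp τ O.toAddSubgroup ≤ perp τ J'.toAddSubgroup :=
  perp_anti fun y hy => h.le (h.JO y hy)

lemma Gal.xgal0_p2 (h : Gal τ O O' J J' L H H' A) :
    perp τ J'.toAddSubgroup ≤ perp τ J.toAddSubgroup :=
  perp_anti fun _ hy => h.leJ hy

lemma Gal.xgal0_HH (h : Gal τ O O' J J' L H H' A) : H' ≤ H :=
  fun g hg => (h.hH g).2 (h.le ((h.hH' g).1 hg))

omit [Fintype M] in
lemma xgal0_comm (hτ : Frob τ) {I : AddSubgroup M} {b u : M} (hb : b ∈ perp τ J.toAddSubgroup)
    (hu : ∀ y ∈ I, (u - 1) * y ∈ J ∧ y * (u - 1) ∈ J) : b * u - u * b ∈ perp τ I := by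
  intro y hy
  have e : (b * u - u * b) * y = b * ((u - 1) * y) + -(u - 1) * (b * y) := by noncomm_ring
  have e2 : b * y * -(u - 1) = b * -(y * (u - 1)) := by noncomm_ring
  rw [e, AddChar.map_add_eq_mul, hτ.comm (-(u - 1)), e2, hb _ (hu y hy).1,
    hb _ (neg_mem (hu y hy).2), one_mul]

theorem Gal.conj (h : Gal τ O O' J J' L H H' A) {g : Mˣ} (hg : g ∈ H) :
    ∃ u ∈ UU J, cj g A - cj u A ∈ perp τ O.toAddSubgroup := by
  have hgO := (h.hH g).1 hg
  obtain ⟨y', hy', hj, hc⟩ := h.fix _ hgO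
  obtain ⟨v, hv, g', hg', e⟩ := base_split h.id h.sit.om.unit hgO hj
  refine ⟨v, hv, ?_⟩
  rw [e, cj_mul, ← cj_sub]
  refine base_cj h.sit.frob (base_ring O) ?_ (base_UO h.xgal0_JO hv)
  rw [base_iff (base_ring O) A (hg' ▸ hy'), hg']
  exact hc

theorem Gal.fixb (h : Gal τ O O' J J' L H H' A) {u : Mˣ} (hu : u ∈ UU J) {b : M}
    (hb : b ∈ perp τ J.toAddSubgroup) : cj u b - b ∈ perp τ O.toAddSubgroup := by
  rw [base_iff (base_ring O) b (base_UO h.xgal0_JO hu)]
  exact xgal0_comm h.sit.frob hb fun y hy => (h.id y hy _ (mem_UU.1 hu)).symm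

theorem Gal.conj_add (h : Gal τ O O' J J' L H H' A) {g : Mˣ} (hg : g ∈ H) {b : M}
    (hb : b ∈ perp τ J.toAddSubgroup) : cj g (A + b) ∈ cls τ J' (UU J') (A + cj g b) := by
  obtain ⟨u, hu, h1⟩ := h.conj hg
  have h2 := h.fixb hu (h.sit.frob.cj_perp h.sit.norm hg hb)
  refine ⟨u, rt3_UU_mono h.leJ hu, h.xgal0_p1 ?_⟩
  have e : cj g (A + b) - cj u (A + cj g b) =
      (cj g A - cj u A) - (cj u (cj g b) - cj g b) := by
    rw [cj_add, cj_add]; abel
  rw [e]
  exact sub_mem h1 h2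

theorem Gal.sep (h : Gal τ O O' J J' L H H' A) {b b' : M} (hb : b ∈ perp τ J.toAddSubgroup)
    (hb' : b' ∈ perp τ J.toAddSubgroup) (he : A + b ∈ cls τ J' (UU J') (A + b')) :
    b - b' ∈ perp τ J'.toAddSubgroup := by
  obtain ⟨u, hu, h0⟩ := he
  have hI : ∀ x ∈ O', ∀ y ∈ J'.toAddSubgroup,
      x * y ∈ J'.toAddSubgroup ∧ y * x ∈ J'.toAddSubgroup := h.id'
  have h1 : cj u b' - b' ∈ perp τ J'.toAddSubgroup := by
    rw [base_iff hI b' (base_UO h.JO hu)]
    exact xgal0_comm h.sit.frob hb' fun y hy =>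
      ⟨h.sq _ (mem_UU.1 hu) y hy, h.sq y hy _ (mem_UU.1 hu)⟩
  obtain ⟨v, hv, h2⟩ := h.conj (h.xgal0_HH (h.sit'.sub hu))
  have h3 : cj 1 A - cj v A ∈ perp τ O.toAddSubgroup := by
    refine base_refine h.sit.frob h.xgal0_JO h.id h.fix (one_mem _) hv ?_
    have e : cj 1 A - cj v A = (A + b - cj u (A + b')) + (cj u b' - b') + (cj u A - cj v A)
        - b + b' := by
      rw [cj_one, cj_add]; abel
    rw [e]
    exact add_mem (sub_mem (h.xgal0_p2 (add_mem (add_mem h0 h1) (h.xgal0_p1 h2))) hb) hb'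
  have e : b - b' = (A + b - cj u (A + b')) + (cj u b' - b') + (cj u A - cj v A)
      - (cj 1 A - cj v A) := by
    rw [cj_one, cj_add]; abel
  rw [e]
  exact sub_mem (add_mem (add_mem h0 h1) (h.xgal0_p1 h2)) (h.xgal0_p1 h3)

lemma Gal.xgal0_card (h : Gal τ O O' J J' L H H' A) {Q : AddSubgroup M}
    (h1 : perp τ O.toAddSubgroup ≤ Q) (h2 : Q ≤ perp τ J.toAddSubgroup) :
    (baseT J A Q).ncard = Nat.card (baseOm τ J A) * Nat.card Q := by
  refine le_antisymm ?_ (base_lower J A h2)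
  have hex : ∀ w : baseOm τ J A, ∃ u ∈ UU J, w.1 = (cj u A : M) := fun w => w.2
  choose u hu1 hu2 using hex
  let f : baseOm τ J A × Q → M := fun p => cj (u p.1) A + p.2
  have hsub : baseT J A Q ⊆ Set.range f := by
    rintro B ⟨v, hv, hB⟩
    let w : baseOm τ J A := ⟨(cj v A : M), v, hv, rfl⟩
    have r1 : cj v A - cj (u w) A ∈ perp τ O.toAddSubgroup := by
      refine base_refine h.sit.frob h.xgal0_JO h.id h.fix hv (hu1 w) ?_
      have := hu2 w
      rw [QuotientAddGroup.eq] at this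
      have h3 := neg_mem this
      rwa [neg_add_rev, neg_neg, add_comm, ← sub_eq_add_neg] at h3
    refine ⟨(w, ⟨_, add_mem hB (h1 r1)⟩), ?_⟩
    show cj (u w) A + (B - cj v A + (cj v A - cj (u w) A)) = B
    abel
  have h3 := Set.ncard_le_ncard hsub (Set.toFinite _)
  have h4 := Finite.card_range_le f
  rw [Nat.card_prod, Nat.card_coe_set_eq] at h4
  exact h3.trans h4

theorem Gal.card (h : Gal τ O O' J J' L H H' A) : (cls τ J (UU J) A).ncard =
    Nat.card (baseOm τ J A) * Nat.card (perp τ J.toAddSubgroup) :=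
  h.xgal0_card (h.xgal0_p1.trans h.xgal0_p2) le_rfl

theorem Gal.card' (h : Gal τ O O' J J' L H H' A) : (cls τ J' (UU J') A).ncard =
    Nat.card (baseOm τ J A) * Nat.card (perp τ J'.toAddSubgroup) := by
  rw [← h.xgal0_card h.xgal0_p1 h.xgal0_p2]
  congr 1
  ext B
  constructor
  · rintro ⟨u, hu, hB⟩
    obtain ⟨v, hv, h2⟩ := h.conj (h.xgal0_HH (h.sit'.sub hu))
    refine ⟨v, hv, ?_⟩
    have := add_mem hB (h.xgal0_p1 h2)
    rwa [sub_add_sub_cancel] at this
  · rintro ⟨u, hu, hB⟩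
    exact ⟨u, rt3_UU_mono h.leJ hu, hB⟩

theorem Gal.card_add (h : Gal τ O O' J J' L H H' A) {b : M} (hb : b ∈ perp τ J.toAddSubgroup) :
    Nat.card (baseOm τ J A) * Nat.card (perp τ J'.toAddSubgroup) ≤
      (cls τ J' (UU J') (A + b)).ncard := by
  refine (base_lower J A h.xgal0_p2).trans ?_
  refine Set.ncard_le_ncard_of_injOn (· + b) ?_ (add_left_injective b).injOn (Set.toFinite _)
  rintro B ⟨u, hu, hB⟩
  refine ⟨u, rt3_UU_mono h.leJ hu, ?_⟩
  have e : B + b - cj u (A + b) = (B - cj u A) - (cj u b - b) := by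
    rw [cj_add]; abel
  rw [e]
  exact sub_mem hB (h.xgal0_p1 (h.fixb hu hb))

lemma xgal0_fc (hle : H' ≤ H) (hs : UU J' ≤ H') (χ : H → ℂ) (B : M) :
    fc τ J' L H' (fun u => χ (Subgroup.inclusion hle u)) B = fc τ J' L H χ B := by
  rw [rt1_fc, rt1_fc]
  refine Finset.sum_nbij (Subgroup.inclusion hle)
    (fun u hu => rt1_memU.2 (rt1_memU (H := H').1 hu))
    (Subgroup.inclusion_injective hle).injOn (fun u hu => ?_) fun _ _ => rfl
  have h1 := rt1_memU.1 hu
  exact ⟨⟨u.1, hs (mem_UU.2 h1)⟩, rt1_memU.2 h1, rfl⟩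

open ComplexOrder in
lemma Gal.xgal0_nonneg (h : Gal τ O O' J J' L H H' A) {χ : H → ℂ} (hχ : χ ∈ Irr H) (B : M) :
    0 ≤ fc τ J' L H χ B := by
  obtain ⟨V, _, _, _, ρ, -, rfl⟩ := mem_Irr.1 hχ
  have h1 := h.sit'.trace_E (ρ.comp (Subgroup.inclusion h.xgal0_HH)) B
  rw [(LinearMap.IsIdempotentElem.isProj_range _ (h.sit'.rt1_idem _ B)).trace] at h1
  rw [← xgal0_fc h.xgal0_HH h.sit'.sub,
    ← inv_mul_cancel_left₀ (rt1_card_ne (τ := τ) (J := J') (UU J') B) (fc τ J' L H' _ B)]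
  refine mul_nonneg (inv_nonneg.2 (Nat.cast_nonneg _)) (le_of_le_of_eq ?_ h1)
  exact mul_nonneg (Nat.cast_nonneg _) (Nat.cast_nonneg _)

open ComplexOrder Classical in
/-- the support for the larger ideal lies in the support for the smaller one -/
theorem Gal.sup_le (h : Gal τ O O' J J' L H H' A) {χ : H → ℂ} (hχ : χ ∈ Irr H) :
    Sup τ J' L H χ ⊆ Sup τ J L H χ := by
  intro C hC e
  have h1 : (Nat.card M : ℂ) * fc τ J L H χ C = ∑ B : M, fc τ J' L H χ B *
      if B - C ∈ perp τ J.toAddSubgroup then (Nat.card J.toAddSubgroup : ℂ) else 0 := by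
    have h2 : ∀ B : M, (if B - C ∈ perp τ J.toAddSubgroup then
        (Nat.card J.toAddSubgroup : ℂ) else 0) =
        ∑ u ∈ rt1U J H, τ ((B - C) * L ((u.1 : M) - 1)) := fun B => by
      rw [h.sit.rt1_re fun y => τ ((B - C) * y), rt1_tau]
    simp only [h2, Finset.mul_sum]
    rw [Finset.sum_comm, rt1_fc, Finset.mul_sum]
    refine Finset.sum_congr rfl fun u hu => ?_
    have hu' : u.1 ∈ UU J' := h.leJ (rt1_memU.1 hu)
    have h3 := h.sit'.inversion (fun v => χ (Subgroup.inclusion h.xgal0_HH v))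
      ⟨u.1, h.sit'.sub hu'⟩ hu'
    simp only [xgal0_fc h.xgal0_HH h.sit'.sub] at h3
    rw [← mul_assoc, show (Nat.card M : ℂ) * χ u = _ from h3, Finset.sum_mul]
    refine Finset.sum_congr rfl fun B _ => ?_
    rw [mul_assoc, ← AddChar.map_add_eq_mul, sub_mul, sub_eq_add_neg (B * _)]
  rw [e, mul_zero] at h1
  have h3 := (Finset.sum_eq_zero_iff_of_nonneg fun B _ => mul_nonneg (h.xgal0_nonneg hχ B) (by
    split_ifs
    · exact Nat.cast_nonneg _
    · exact le_rfl)).1 h1.symm C (Finset.mem_univ C)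
  rw [sub_self, if_pos (zero_mem _)] at h3
  refine mul_ne_zero hC ?_ h3
  exact_mod_cast (Nat.card_pos (α := J.toAddSubgroup)).ne'

end Pool.Agent.MP_8299d6_al.Up

end
end

section

open Matrix

noncomputable section

namespace Pool.Agent.MP_8299d6_al.Up

open Pool.Agent.MP_810665_al (IrrChar)

section grp

variable {G : Type} [Group G] [Fintype G]

omit [Fintype G] in
lemma xgal2_eig {V : Type} [AddCommGroup V] [Module ℂ V] [FiniteDimensional ℂ V]
    (π : Representation ℂ G V) (hV : ∃ v : V, v ≠ 0)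
    (hc : ∀ x y : G, π x * π y = π y * π x) :
    ∃ v : V, v ≠ 0 ∧ ∀ g, ∃ c : ℂ, π g v = c • v := by
  obtain ⟨S, hS⟩ := Pool.Agent.MP_810665_al.exists_irreducible_sub π hV
  obtain ⟨v, hv⟩ := ((Pool.Agent.MP_810665_al.irreducible_iff _).1 hS).1
  refine ⟨v.1, fun h => hv (Subtype.ext h), fun g => ?_⟩
  obtain ⟨c, hc'⟩ := Pool.Agent.MP_810665_al.schur hS (S.toRepresentation g) (fun x w => by
    apply Subtype.ext
    show π g (π x w.1) = π x (π g w.1)
    rw [← Module.End.mul_apply, hc, Module.End.mul_apply])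
  exact ⟨c, congrArg Subtype.val (hc' v)⟩

omit [Fintype G] in
lemma xgal2_char {V W : Type} [AddCommGroup V] [Module ℂ V] [FiniteDimensional ℂ V]
    [AddCommGroup W] [Module ℂ W] [FiniteDimensional ℂ W]
    {ρ : Representation ℂ G V} {σ : Representation ℂ G W} (hρ : ρ.IsIrreducible)
    (hσ : σ.IsIrreducible) (T : V →ₗ[ℂ] W) (hT : T ≠ 0) (c : G → ℂ)
    (hc : ∀ g, Representation.linHom ρ σ g T = c g • T) (g : G) :
    σ.character g = c g * ρ.character g := by
  have h1 : ∀ g v, σ g (T v) = c g • T (ρ g v) := by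
    intro g v
    have := congrArg (fun f : V →ₗ[ℂ] W => f (ρ g v)) (hc g)
    simp only [Representation.linHom_apply, LinearMap.comp_apply, LinearMap.smul_apply] at this
    rw [← this, ← Module.End.mul_apply (ρ g⁻¹), ← map_mul, inv_mul_cancel, map_one,
      Module.End.one_apply]
  have h0 : ∀ g, c g ≠ 0 := by
    intro g hg
    apply hT
    ext v
    have h2 := h1 g v
    rw [hg, zero_smul] at h2
    have h3 := congrArg (σ g⁻¹) h2
    rwa [← Module.End.mul_apply, ← map_mul, inv_mul_cancel, map_one, Module.End.one_apply,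
      map_zero] at h3
  have hker : LinearMap.ker T = ⊥ := by
    refine (((Pool.Agent.MP_810665_al.irreducible_iff _).1 hρ).2 _ fun g v hv => ?_).resolve_right
      fun h => hT (LinearMap.ker_eq_top.1 h)
    rw [LinearMap.mem_ker] at hv ⊢
    have h2 := h1 g v
    rw [hv, map_zero] at h2
    exact (smul_eq_zero.1 h2.symm).resolve_left (h0 g)
  have hran : LinearMap.range T = ⊤ := by
    refine (((Pool.Agent.MP_810665_al.irreducible_iff _).1 hσ).2 _ fun g w hw => ?_).resolve_left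
      fun h => hT (LinearMap.range_eq_bot.1 h)
    obtain ⟨v, rfl⟩ := hw
    exact ⟨c g • ρ g v, by rw [map_smul, h1]⟩
  let e : V ≃ₗ[ℂ] W := LinearEquiv.ofBijective T
    ⟨LinearMap.ker_eq_bot.1 hker, LinearMap.range_eq_top.1 hran⟩
  have h4 : σ g = e.conj (c g • ρ g) := by
    ext w
    obtain ⟨v, rfl⟩ := e.surjective w
    rw [LinearEquiv.conj_apply_apply, e.symm_apply_apply, LinearMap.smul_apply, map_smul]
    exact h1 g v
  show LinearMap.trace ℂ W (σ g) = c g * LinearMap.trace ℂ V (ρ g)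
  rw [h4, LinearMap.trace_conj', map_smul, smul_eq_mul]

lemma xgal2_twist (U U' : Subgroup G) [U.Normal] [Fintype U] [Fintype U'] (hle : U ≤ U')
    {χ₀ χ : G → ℂ} (h0 : χ₀ ∈ Irr G) (h : χ ∈ Irr G) (c : ℂ) (hc : c ≠ 0)
    (h1 : (Nat.card U : ℂ)⁻¹ * ∑ u : U, χ₀ u.1⁻¹ * χ u.1 = c)
    (h2 : (Nat.card U' : ℂ)⁻¹ * ∑ u : U', χ₀ u.1⁻¹ * χ u.1 = c)
    (hk : ∀ N : Subgroup G, N.Normal → U' ≤ N → ∀ x y : G, x * y * x⁻¹ * y⁻¹ ∈ N) :
    ∃ lam : G → ℂ, (∀ g n, n ∈ Subgroup.normalClosure (U' : Set G) → lam (g * n) = lam g) ∧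
      ∀ g, χ g = lam g * χ₀ g := by
  obtain ⟨V₀, _, _, _, ρ₀, hρ₀, rfl⟩ := mem_Irr.1 h0
  obtain ⟨V, _, _, _, ρ, hρ, rfl⟩ := mem_Irr.1 h
  let π := Representation.linHom ρ₀ ρ
  have hch : ∀ (K : Subgroup G) (u : K), Representation.character (π.comp K.subtype) u =
      ρ₀.character u.1⁻¹ * ρ.character u.1 := fun K u => Representation.char_linHom ρ₀ ρ u.1
  have d1 := Representation.card_inv_mul_sum_char_eq_finrank
    (show Representation ℂ U _ from π.comp U.subtype)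
  have d2 := Representation.card_inv_mul_sum_char_eq_finrank
    (show Representation ℂ U' _ from π.comp U'.subtype)
  simp only [hch] at d1 d2
  rw [h1] at d1
  rw [h2] at d2
  set W := Representation.invariants (show Representation ℂ U _ from π.comp U.subtype) with hW
  set W' := Representation.invariants (show Representation ℂ U' _ from π.comp U'.subtype)
    with hW'
  have hWW : W' ≤ W := fun T hT u => hT ⟨u.1, hle u.2⟩
  have hWeq : W' = W := Submodule.eq_of_le_of_finrank_eq hWW (by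
    exact_mod_cast d2.symm.trans d1)
  have hWne : ∃ T : W, T ≠ 0 := by
    have : 0 < Module.finrank ℂ W := Nat.pos_of_ne_zero fun h => hc (by rw [d1, h, Nat.cast_zero])
    have := Module.finrank_pos_iff.1 this
    exact exists_ne 0
  let σ : Representation ℂ G W := π.toInvariants U
  have hσ : ∀ (g : G) (T : W), (σ g T).1 = π g T.1 := fun g T => rfl
  have hU' : U' ≤ MonoidHom.ker σ := by
    intro u hu
    rw [MonoidHom.mem_ker]
    refine LinearMap.ext fun T => Subtype.ext ?_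
    have hT : T.1 ∈ W' := hWeq.ge T.2
    exact hT ⟨u, hu⟩
  have hcomm : ∀ x y : G, σ x * σ y = σ y * σ x := by
    intro x y
    have h3 := hk _ (MonoidHom.normal_ker σ) hU' x y
    rw [MonoidHom.mem_ker] at h3
    have e : x * y = x * y * x⁻¹ * y⁻¹ * (y * x) := by group
    rw [← map_mul, e, map_mul, h3, one_mul, map_mul]
  obtain ⟨T, hT, hT'⟩ := xgal2_eig σ hWne hcomm
  choose lam hlam using hT'
  refine ⟨lam, fun g n hn => ?_, xgal2_char hρ₀ hρ T.1 (fun h => hT (Subtype.ext h)) lam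
    fun g => congrArg Subtype.val (hlam g)⟩
  have hn' : σ n = 1 := by
    have := MonoidHom.normal_ker σ
    exact Subgroup.normalClosure_le_normal (N := MonoidHom.ker σ) hU' hn
  have h3 := hlam (g * n)
  rw [map_mul, hn', mul_one, hlam g] at h3
  exact (smul_left_injective ℂ hT h3).symm

end grp

variable {M : Type} [Ring M] [Fintype M] {τ : AddChar M ℂ}
  {O O' : Subring M} {J J' : NonUnitalSubring M} {L : M → M} {H H' : Subgroup Mˣ} {A : M}

open Classical in
lemma xgal2_shape (h : Sit τ J J L H) {χ : H → ℂ} (hχ : ∀ g u : H, χ (g * u * g⁻¹) = χ u)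
    (hA : Sup τ J L H χ ⊆ cls τ J (UU J) A) {u : H} (hu : u ∈ rt1U J H) :
    (Nat.card M : ℂ) * χ u =
      fc τ J L H χ A * ∑ B ∈ rt1C τ J (UU J) A, τ (B * L ((u.1 : M) - 1)) := by
  rw [h.rt1_inv χ hu, Finset.mul_sum, rt1C, Finset.sum_filter]
  refine Finset.sum_congr rfl fun B _ => ?_
  split_ifs with hB
  · rw [h.rt1_fc_inv h.sub (fun g u _ => hχ g u) hB]
  · have : fc τ J L H χ B = 0 := by
      by_contra hne
      exact hB (hA hne)
    rw [this, zero_mul]

open Classical in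
lemma xgal2_deg (h : Sit τ J J L H) {χ : H → ℂ} (hχ : ∀ g u : H, χ (g * u * g⁻¹) = χ u)
    (hA : Sup τ J L H χ ⊆ cls τ J (UU J) A) :
    (Nat.card M : ℂ) * χ 1 = fc τ J L H χ A * (cls τ J (UU J) A).ncard := by
  rw [xgal2_shape h hχ hA rt1_one, rt1_cardC]
  simp [h.om.zero]

open Classical in
lemma xgal2_ip (h : Sit τ J J L H) {χ₀ χ : H → ℂ} (hχ₀ : ∀ g u : H, χ₀ (g * u * g⁻¹) = χ₀ u)
    (hχ : ∀ g u : H, χ (g * u * g⁻¹) = χ u)
    (hA₀ : Sup τ J L H χ₀ ⊆ cls τ J (UU J) A) (hA : Sup τ J L H χ ⊆ cls τ J (UU J) A) :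
    ((cls τ J (UU J) A).ncard : ℂ) * ∑ u ∈ rt1U J H, (starRingEnd ℂ) (χ₀ u) * χ u =
      Nat.card M * ((starRingEnd ℂ) (χ₀ 1) * χ 1) := by
  have h1 : (Nat.card M : ℂ) * ∑ u ∈ rt1U J H, (starRingEnd ℂ) (χ₀ u) * χ u =
      (starRingEnd ℂ) (fc τ J L H χ₀ A) *
        (((cls τ J (UU J) A).ncard : ℂ) * fc τ J L H χ A) := by
    have e1 : ∀ u ∈ rt1U J H, (Nat.card M : ℂ) * ((starRingEnd ℂ) (χ₀ u) * χ u) =
        (starRingEnd ℂ) (fc τ J L H χ₀ A) *
          ∑ B ∈ rt1C τ J (UU J) A, χ u * τ (-(B * L ((u.1 : M) - 1))) := by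
      intro u hu
      have h2 := congrArg (starRingEnd ℂ) (xgal2_shape h hχ₀ hA₀ hu)
      rw [map_mul, map_mul, map_natCast, map_sum] at h2
      simp only [← AddChar.map_neg_eq_conj] at h2
      rw [← mul_assoc, h2, ← Finset.mul_sum]
      ring
    rw [Finset.mul_sum, Finset.sum_congr rfl e1, ← Finset.mul_sum, Finset.sum_comm]
    congr 1
    rw [rt1_cardC, ← nsmul_eq_mul, ← Finset.sum_const]
    refine Finset.sum_congr rfl fun B hB => ?_
    rw [← rt1_fc, h.rt1_fc_inv h.sub (fun g u _ => hχ g u) (rt1_memC.1 hB)]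
  have h2 := congrArg (starRingEnd ℂ) (xgal2_deg h hχ₀ hA₀)
  rw [map_mul, map_mul, map_natCast, map_natCast] at h2
  have h3 := xgal2_deg h hχ hA
  apply mul_left_cancel₀ (rt1_N (M := M))
  linear_combination ((cls τ J (UU J) A).ncard : ℂ) * h1 -
    (fc τ J L H χ A * (cls τ J (UU J) A).ncard) * h2 -
    ((Nat.card M : ℂ) * (starRingEnd ℂ) (χ₀ 1)) * h3

open Classical in
lemma xgal2_tr (hle : H' ≤ H) (hU : UU J ≤ H') (f : H → ℂ) :
    ∑ u ∈ rt1U J H', f (Subgroup.inclusion hle u) = ∑ u ∈ rt1U J H, f u := by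
  refine Finset.sum_nbij (fun u => Subgroup.inclusion hle u)
    (fun u hu => rt1_memU.2 (rt1_memU (H := H') (u := u) |>.1 hu))
    (Subgroup.inclusion_injective hle).injOn
    (fun u hu => ?_) fun _ _ => rfl
  have hu' : u.1 ∈ UU J := rt1_memU.1 hu
  exact ⟨⟨u.1, hU hu'⟩, rt1_memU.2 hu', rfl⟩

open Classical in
lemma xgal2_val (h : Sit τ J J L H') (hle : H' ≤ H) {χ₀ χ : H → ℂ} (h0 : χ₀ ∈ Irr H)
    (h1 : χ ∈ Irr H) (hA₀ : Sup τ J L H χ₀ ⊆ cls τ J (UU J) A)
    (hA : Sup τ J L H χ ⊆ cls τ J (UU J) A) {w : ℕ}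
    (hw : (cls τ J (UU J) A).ncard = w * Nat.card (perp τ J.toAddSubgroup)) :
    (Nat.card ((UU J).subgroupOf H) : ℂ)⁻¹ *
      ∑ u : (UU J).subgroupOf H, χ₀ u.1⁻¹ * χ u.1 = (starRingEnd ℂ) (χ₀ 1) * χ 1 / w := by
  have hfc : ∀ φ : H → ℂ, Sup τ J L H' (fun u => φ (Subgroup.inclusion hle u)) =
      Sup τ J L H φ := by
    intro φ
    ext B
    show fc τ J L H' _ B ≠ 0 ↔ fc τ J L H φ B ≠ 0
    rw [rt1_fc, rt1_fc, ← xgal2_tr hle h.sub fun u => φ u * τ (-(B * L ((u.1 : M) - 1)))]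
    rfl
  have hcl : ∀ {φ : H → ℂ}, φ ∈ Irr H → ∀ g u : H',
      φ (Subgroup.inclusion hle (g * u * g⁻¹)) = φ (Subgroup.inclusion hle u) := by
    intro φ hφ g u
    rw [map_mul, map_mul, map_inv]
    exact Pool.Agent.MP_810665_al.irr_conj (mem_Irr.1 hφ) _ _
  have h2 := xgal2_ip h (χ₀ := fun u => χ₀ (Subgroup.inclusion hle u))
    (χ := fun u => χ (Subgroup.inclusion hle u)) (hcl h0) (hcl h1) (by rwa [hfc]) (by rwa [hfc])
  rw [xgal2_tr hle h.sub fun u => (starRingEnd ℂ) (χ₀ u) * χ u] at h2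
  simp only [map_one] at h2
  have h3 : ∑ u : (UU J).subgroupOf H, χ₀ u.1⁻¹ * χ u.1 =
      ∑ u ∈ rt1U J H, (starRingEnd ℂ) (χ₀ u) * χ u := by
    simp only [rt3_inv h0]
    exact (Finset.sum_subtype (p := fun u : H => u ∈ (UU J).subgroupOf H) (rt1U J H)
      (fun u => rt1_memU) fun u => (starRingEnd ℂ) (χ₀ u) * χ u).symm
  have h4 : Nat.card ((UU J).subgroupOf H) = Nat.card J := by
    rw [← card_UU h.om.unit]
    exact Nat.card_congr (Subgroup.subgroupOfEquivOfLe (h.sub.trans hle)).toEquiv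
  have h5 : (Nat.card J : ℂ) * Nat.card (perp τ J.toAddSubgroup) = Nat.card M := by
    exact_mod_cast h.frob.card_perp J.toAddSubgroup
  have h6 := rt1_card_ne (τ := τ) (J := J) (UU J) A
  have h7 : (Nat.card J : ℂ) ≠ 0 := by exact_mod_cast (Nat.card_pos (α := J)).ne'
  rw [hw, Nat.cast_mul] at h2 h6
  have h8 := left_ne_zero_of_mul h6
  have h9 := right_ne_zero_of_mul h6
  rw [h3, h4]
  rw [← h5] at h2
  field_simp
  apply mul_left_cancel₀ h9
  linear_combination h2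

open Classical in
/-- the other characters differ by linear characters -/
theorem Gal.few (h : Gal τ O O' J J' L H H' A) (k : ℕ)
    (hk : ∀ N : Subgroup H, N.Normal → (∀ u : H, u.1 ∈ UU J' → u ∈ N) →
      (∀ x y : H, x * y * x⁻¹ * y⁻¹ ∈ N) ∧ N.index ≤ k) :
    ((Irr H).filter (fun χ => Sup τ J L H χ ⊆ cls τ J (UU J) A ∧
      Sup τ J' L H χ ⊆ cls τ J' (UU J') A)).card ≤ k := by
  set s := (Irr H).filter (fun χ => Sup τ J L H χ ⊆ cls τ J (UU J) A ∧
      Sup τ J' L H χ ⊆ cls τ J' (UU J') A) with hs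
  rcases s.eq_empty_or_nonempty with he | ⟨χ₀, h0⟩
  · rw [he]
    exact Nat.zero_le k
  obtain ⟨h01, h02, h03⟩ := Finset.mem_filter.1 h0
  have hle : H' ≤ H := fun g hg => (h.hH g).2 (h.le ((h.hH' g).1 hg))
  have hnorm := h.sit.rt3_normal
  set N₀ := Subgroup.normalClosure (((UU J').subgroupOf H : Subgroup H) : Set H) with hN₀
  have hidx : N₀.index ≤ k :=
    (hk N₀ Subgroup.normalClosure_normal fun u hu => Subgroup.subset_normalClosure hu).2
  have hw : (Nat.card (baseOm τ J A) : ℂ) ≠ 0 := by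
    have h6 := rt1_card_ne (τ := τ) (J := J) (UU J) A
    rw [h.card, Nat.cast_mul] at h6
    exact left_ne_zero_of_mul h6
  have hone : ∀ {φ : H → ℂ}, φ ∈ Irr H → φ 1 ≠ 0 := by
    intro φ hφ
    obtain ⟨d, hd, h1⟩ := Pool.Agent.MP_810665_al.irr_one (mem_Irr.1 hφ)
    rw [h1]
    exact_mod_cast hd.ne'
  have key : ∀ χ ∈ s, ∃ F : H ⧸ N₀ → ℂ, ∀ g : H, χ g = F (g : H ⧸ N₀) * χ₀ g := by
    intro χ hχ
    obtain ⟨h1, h2, h3⟩ := Finset.mem_filter.1 hχ
    obtain ⟨lam, hl1, hl2⟩ := xgal2_twist ((UU J).subgroupOf H) ((UU J').subgroupOf H)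
      (fun u hu => rt3_UU_mono h.leJ hu) h01 h1
      ((starRingEnd ℂ) (χ₀ 1) * χ 1 / Nat.card (baseOm τ J A))
      (div_ne_zero (mul_ne_zero ((map_ne_zero _).2 (hone h01)) (hone h1)) hw)
      (xgal2_val h.sit le_rfl h01 h1 h02 h2 h.card)
      (xgal2_val h.sit' hle h01 h1 h03 h3 h.card')
      (fun N hN hU => (hk N hN fun u hu => hU hu).1)
    refine ⟨fun x => lam x.out, fun g => ?_⟩
    obtain ⟨n, hn⟩ := QuotientGroup.mk_out_eq_mul N₀ g
    show χ g = lam (g : H ⧸ N₀).out * χ₀ g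
    rw [hn, hl1 g n n.2, hl2]
  choose! F hF using key
  have h1 := rt3_card_le s (Finset.filter_subset _ _) (fun g : H => (g : H ⧸ N₀)) χ₀ F hF
  rw [← Nat.card_eq_fintype_card] at h1
  exact h1.trans hidx

end Pool.Agent.MP_8299d6_al.Up

end
end
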