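import Pool.Agent.Mg.X8299d6.G6efaac
import Pool.Agent.Mg.X8299d6.Gfa7afb
import Pool.Agent.Mg.X8299d6.G3030d2

section

open Matrix

noncomputable section

namespace Pool.Agent.MP_8299d6_al.Up

open Pool.Agent.MP_810665_al (IrrChar)

/-- the pairs that intertwine a homomorphism with its conjugate -/
def hdextE {G U : Type} [Group G] [Group U] {N : Subgroup G} [hN : N.Normal] (r : N →* U) :
    Subgroup (G × U) where
  carrier := {e | ∀ x y : N, (y : G) = e.1 * x * e.1⁻¹ → e.2 * r x = r y * e.2}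
  one_mem' := fun x y h => by
    obtain rfl : y = x := Subtype.ext (by simpa using h)
    simp
  mul_mem' := fun {a b} ha hb x y h => by
    rw [Prod.snd_mul, mul_assoc, hb x ⟨_, hN.conj_mem _ x.2 b.1⟩ rfl, ← mul_assoc,
      ha _ y (by rw [h, Prod.fst_mul]; group), mul_assoc]
  inv_mem' := fun {a} ha x y h => by
    rw [Prod.snd_inv, inv_mul_eq_iff_eq_mul, ← mul_assoc,
      ha y x (by rw [h, Prod.fst_inv]; group), mul_inv_cancel_right]

open scoped IsMulCommutative in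
theorem hdext_grp {G U : Type} [Group G] [Finite G] [Group U] {N N₁ : Subgroup G} [hN : N.Normal]
    (hle : N ≤ N₁) (r₁ : N₁ →* U) (r : N →* U) (hr : ∀ x, r x = r₁ (Subgroup.inclusion hle x))
    (D : ℕ) (δ : U →* Subgroup.center U) (cop : Nat.Coprime N₁.index (D * Nat.card N))
    (sch : ∀ T : U, (∀ x : N, T * r x = r x * T) → T ∈ Subgroup.center U ∧ (δ T : U) = T ^ D)
    (sur : ∀ g, ∃ T, (g, T) ∈ hdextE r) : ∃ σ : G →* U, ∀ x : N, σ x = r x := by
  classical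
  let π : hdextE r →* G := (MonoidHom.fst _ _).comp (hdextE r).subtype
  let s : hdextE r →* U := (MonoidHom.snd _ _).comp (hdextE r).subtype
  have hπ : Function.Surjective π := fun g => (sur g).elim fun T h => ⟨⟨_, h⟩, rfl⟩
  have idx : (N₁.comap π).index = N₁.index := N₁.index_comap_of_surjective hπ
  have : (N₁.comap π).FiniteIndex := ⟨idx ▸ Subgroup.FiniteIndex.index_ne_zero⟩
  have m₁ : ∀ n : N₁, (n.1, r₁ n) ∈ hdextE r := fun n x y h => by
    simp only [hr, ← map_mul]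
    exact congrArg r₁ (Subtype.ext (eq_mul_of_mul_inv_eq h.symm))
  have kr : ∀ e : hdextE r, π e = 1 → ∀ x, s e * r x = r x * s e := fun e h x =>
    e.2 x x (by rw [show e.1.1 = 1 from h]; simp)
  have c : ∀ e : N₁.comap π, s e * (r₁ ⟨π e, e.2⟩)⁻¹ ∈ Subgroup.center U := fun e =>
    (sch _ (kr (e.1 * (⟨_, m₁ ⟨π e, e.2⟩⟩ : hdextE r)⁻¹) (mul_inv_cancel _))).1
  let ϕ : N₁.comap π →* Subgroup.center U := MonoidHom.mk' (fun e => ⟨_, c e⟩) fun a b =>
    Subtype.ext (by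
      have := Subgroup.mem_center_iff.1 (c b) (r₁ ⟨π a, a.2⟩)⁻¹
      change s (a * b) * (r₁ ⟨π (a * b), _⟩)⁻¹ = s a * _ * (s b * _)
      rw [mul_assoc, this, map_mul s, mul_assoc, mul_assoc, ← _root_.mul_inv_rev, ← map_mul]
      rfl)
  obtain ⟨u, v, huv⟩ := Nat.isCoprime_iff_coprime.2 cop
  let l : hdextE r →* Subgroup.center U := MonoidHom.transfer ϕ ^ u * (δ.comp s ^ Nat.card N) ^ v
  have hl : ∀ e, l e = MonoidHom.transfer ϕ e ^ u * (δ (s e) ^ Nat.card N) ^ v := fun _ => rfl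
  let P : hdextE r →* U := MonoidHom.mk' (fun e => s e * (l e : U)⁻¹) fun a b => by
    have := Subgroup.mem_center_iff.1 (inv_mem (l a).2) (s b * (l b : U)⁻¹)
    rw [mul_assoc, ← this, map_mul, map_mul, Subgroup.coe_mul, _root_.mul_inv_rev]
    simp only [mul_assoc]
  have ker : π.ker ≤ P.ker := fun e he => by
    obtain ⟨z, d⟩ := sch _ (kr e he)
    have e1 : (MonoidHom.transfer ϕ e : U) = s e ^ N₁.index := by
      rw [MonoidHom.transfer_eq_pow ϕ e fun k g _ => by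
        rw [mul_assoc, inv_mul_eq_iff_eq_mul]
        refine Subtype.ext (Prod.ext ?_ (Subgroup.mem_center_iff.1 (pow_mem z k) (s g)).symm)
        change π (e ^ k * g) = π (g * e ^ k)
        rw [map_mul, map_mul, map_pow, show π e = 1 from he, one_pow, one_mul, mul_one]]
      change s (e ^ _) * (r₁ ⟨π (e ^ _), _⟩)⁻¹ = _
      simp only [map_pow, show π e = 1 from he, one_pow, idx]
      rw [show (⟨1, _⟩ : N₁) = 1 from rfl, map_one, inv_one, mul_one]
    change s e * (l e : U)⁻¹ = 1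
    rw [hl, Subgroup.coe_mul, Subgroup.coe_zpow, Subgroup.coe_zpow, Subgroup.coe_pow, e1, d,
      ← pow_mul, ← zpow_natCast, ← zpow_natCast, ← _root_.zpow_mul, ← _root_.zpow_mul,
      ← _root_.zpow_add, mul_comm _ u, mul_comm _ v, huv, zpow_one, mul_inv_cancel]
  have m : ∀ x : N, (x.1, r x) ∈ hdextE r := fun x => hr x ▸ m₁ (Subgroup.inclusion hle x)
  refine ⟨π.liftOfSurjective hπ ⟨P, ker⟩, fun x => ?_⟩
  refine (π.liftOfRightInverse_comp_apply _ _ ⟨P, ker⟩ ⟨_, m x⟩).trans ?_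
  change r x * (l ⟨_, m x⟩ : U)⁻¹ = r x
  have e1 : MonoidHom.transfer ϕ ⟨_, m x⟩ = 1 := by
    have := Fintype.ofFinite (Quotient (MulAction.orbitRel
      (Subgroup.zpowers (⟨_, m x⟩ : hdextE r)) (hdextE r ⧸ N₁.comap π)))
    rw [MonoidHom.transfer_eq_prod_quotient_orbitRel_zpowers_quot]
    suffices ∀ (g : hdextE r) (k : ℕ) h, ϕ ⟨g⁻¹ * ⟨_, m x⟩ ^ k * g, h⟩ = 1 from
      Finset.prod_eq_one fun q _ => this _ _ _
    refine fun g k h => Subtype.ext ?_
    have := ((inv_mem g.2) (x ^ k) ⟨_, hN.conj_mem _ (x ^ k).2 g.1.1⁻¹⟩ rfl).trans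
      (congrArg (· * _) (hr _))
    change (s g)⁻¹ * r x ^ k * s g * (r₁ _)⁻¹ = 1
    rw [← map_pow, mul_inv_eq_one, ← eq_mul_inv_iff_mul_eq]
    refine this.trans (congrArg (fun t => r₁ t * (s g)⁻¹) (Subtype.ext ?_))
    exact congrArg (g.1.1⁻¹ * x.1 ^ k * ·) (inv_inv _)
  rw [hl, e1, ← map_pow, show s ⟨_, m x⟩ = r x from rfl, ← map_pow, pow_card_eq_one']
  simp

/-- extension of an invariant character of a normal `p`-subgroup -/
theorem ext_char {G : Type} [Group G] [Finite G] (p : ℕ) [Fact p.Prime] (N N₁ : Subgroup G)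
    [N.Normal] (hle : N ≤ N₁) (hN : IsPGroup p N) (hidx : ¬ p ∣ N₁.index) {θ : N₁ → ℂ}
    (hθ : θ ∈ Irr N₁) (hirr : (fun x : N => θ (Subgroup.inclusion hle x)) ∈ Irr N)
    (hdeg : ∃ a : ℕ, θ 1 = (p : ℂ) ^ a)
    (hinv : ∀ (g : G) (x y : N), (y : G) = g * x * g⁻¹ →
      θ (Subgroup.inclusion hle y) = θ (Subgroup.inclusion hle x)) :
    ∃ θ' ∈ Irr G, ∀ x : N, θ' x = θ (Subgroup.inclusion hle x) := by
  obtain ⟨V, _, _, _, ρ₁, -, rfl⟩ := mem_Irr.1 hθ
  have := Fintype.ofFinite N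
  let ρ : Representation ℂ N V := ρ₁.comp (Subgroup.inclusion hle)
  have irr : ρ.IsIrreducible :=
    MP_810665_al.irreducible_of_norm ρ (MP_810665_al.irr_norm (mem_Irr.1 hirr))
  obtain ⟨a, ha⟩ := hdeg
  obtain ⟨b, hb⟩ := IsPGroup.iff_card.1 hN
  have hD : Module.finrank ℂ V = p ^ a := by
    rw [Representation.char_one] at ha
    exact_mod_cast ha
  let ι : ℂˣ →* Subgroup.center (Module.End ℂ V)ˣ :=
    (Units.map (algebraMap ℂ (Module.End ℂ V)).toMonoidHom).codRestrict _ fun c =>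
      Subgroup.mem_center_iff.2 fun g => Units.ext (Algebra.commutes c.1 g.1).symm
  obtain ⟨σ, hσ⟩ := hdext_grp hle ρ₁.toHomUnits ρ.toHomUnits (fun _ => rfl) (Module.finrank ℂ V)
    (ι.comp (Units.map LinearMap.det))
    (by
      rw [hD, hb, ← pow_add]
      exact ((Nat.Prime.coprime_iff_not_dvd Fact.out).2 hidx).symm.pow_right _)
    (fun T hT => by
      obtain ⟨c, hc⟩ := MP_810665_al.schur irr T.1 fun g v =>
        LinearMap.congr_fun (congrArg Units.val (hT g)) v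
      have e : T.1 = algebraMap ℂ _ c := LinearMap.ext hc
      refine ⟨Subgroup.mem_center_iff.2 fun g => Units.ext ?_, Units.ext ?_⟩
      · rw [Units.val_mul, Units.val_mul, e, Algebra.commutes]
      · change algebraMap ℂ _ (LinearMap.det T.1) = _
        rw [Units.val_pow_eq_pow_val, e, ← map_pow, Algebra.algebraMap_eq_smul_one c,
          LinearMap.det_smul, map_one, mul_one])
    fun g => by
      obtain ⟨e⟩ := MP_810665_al.equiv_of_char_eq irr ((MP_810665_al.irreducible_comp_iff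
        (MulAut.conjNormal g).toMonoidHom (MulAut.conjNormal g).surjective ρ).2 irr)
        (funext fun x => (hinv g x _ (MulAut.conjNormal_apply g x)).symm)
      refine ⟨LinearMap.GeneralLinearGroup.ofLinearEquiv e.toLinearEquiv, fun x y h => ?_⟩
      obtain rfl : y = MulAut.conjNormal g x := Subtype.ext h
      exact Units.ext (e.toIntertwiningMap.isIntertwining' x)
  have e : ∀ x : N, ((Units.coeHom _).comp σ) x = ρ x := fun x => congrArg Units.val (hσ x)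
  refine ⟨_, mem_Irr.2 ⟨V, _, _, inferInstance, (Units.coeHom _).comp σ, ?_, rfl⟩,
    fun x => congrArg (LinearMap.trace ℂ V) (e x)⟩
  rw [MP_810665_al.irreducible_iff] at irr ⊢
  exact ⟨irr.1, fun S hS => irr.2 S fun x => e x ▸ hS x⟩

end Pool.Agent.MP_8299d6_al.Up

end
end

section

open Matrix

noncomputable section

namespace Pool.Agent.MP_8299d6_al.Up

open Pool.Agent.MP_810665_al (IrrChar)

section ev

variable {G V W X : Type} [Group G] [AddCommGroup V] [Module ℂ V] [AddCommGroup W] [Module ℂ W]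
  [AddCommGroup X] [Module ℂ X] {ρ : Representation ℂ G V} {σ : Representation ℂ G W}
  {τ : Representation ℂ G X}

lemma hdgal_eqv (j : X →ₗ[ℂ] V →ₗ[ℂ] W) (hj : ∀ g T v, j (τ g T) (ρ g v) = σ g (j T v)) (g : G)
    (z : TensorProduct ℂ X V) :
    TensorProduct.lift j (TensorProduct.map (τ g) (ρ g) z) = σ g (TensorProduct.lift j z) := by
  induction z using TensorProduct.induction_on with
  | zero => simp
  | tmul T v => simp [hj]
  | add a b ha hb => simp only [map_add, ha, hb]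

lemma hdgal_surj (hσ : σ.IsIrreducible) (j : X →ₗ[ℂ] V →ₗ[ℂ] W)
    (hj : ∀ g T v, j (τ g T) (ρ g v) = σ g (j T v)) {T : X} (hT : j T ≠ 0) :
    LinearMap.range (TensorProduct.lift j) = ⊤ := by
  refine (((MP_810665_al.irreducible_iff _).1 hσ).2 _ ?_).resolve_left fun h => hT ?_
  · rintro g _ ⟨z, rfl⟩
    exact ⟨_, hdgal_eqv j hj g z⟩
  · ext v
    have := LinearMap.congr_fun (LinearMap.range_eq_bot.1 h) (TensorProduct.tmul ℂ T v)
    simpa using this

variable [FiniteDimensional ℂ V] [FiniteDimensional ℂ W] [FiniteDimensional ℂ X]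

lemma hdgal_main (hσ : σ.IsIrreducible) (j : X →ₗ[ℂ] V →ₗ[ℂ] W) (hi : Function.Injective j)
    (hj : ∀ g T v, j (τ g T) (ρ g v) = σ g (j T v))
    (hd : Module.finrank ℂ W = Module.finrank ℂ X * Module.finrank ℂ V) :
    τ.IsIrreducible ∧ ∀ g, σ.character g = τ.character g * ρ.character g := by
  have h0 := MP_810665_al.finrank_pos_of_irreducible hσ
  rw [hd] at h0
  have hX : 0 < Module.finrank ℂ X := Nat.pos_of_mul_pos_right h0
  have hV : 0 < Module.finrank ℂ V := Nat.pos_of_mul_pos_left h0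
  have := Module.finrank_pos_iff.1 hX
  obtain ⟨T, hT⟩ := exists_ne (0 : X)
  refine ⟨(MP_810665_al.irreducible_iff _).2 ⟨⟨T, hT⟩, fun S hS => ?_⟩, fun g => ?_⟩
  · rw [or_iff_not_imp_left]
    intro hb
    obtain ⟨U, hU, hU0⟩ := Submodule.exists_mem_ne_zero_of_ne_bot hb
    have h1 := hdgal_surj (τ := τ.subrepresentation S fun g x hx => hS g x hx) (ρ := ρ) hσ
      (j ∘ₗ S.subtype) (fun g T v => hj g T.1 v) (T := ⟨U, hU⟩)
      fun h => hU0 (hi (h.trans (map_zero j).symm))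
    have h2 := LinearMap.finrank_range_le (TensorProduct.lift (j ∘ₗ S.subtype))
    rw [h1, finrank_top, Module.finrank_tensorProduct, hd] at h2
    exact Submodule.eq_top_of_finrank_eq
      (le_antisymm S.finrank_le (Nat.le_of_mul_le_mul_right h2 hV))
  · have h1 := hdgal_surj hσ j hj (T := T) fun h => hT (hi (h.trans (map_zero j).symm))
    have h2 : Function.Surjective (TensorProduct.lift j) := LinearMap.range_eq_top.1 h1
    have h3 : Function.Injective (TensorProduct.lift j) :=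
      (LinearMap.injective_iff_surjective_of_finrank_eq_finrank
        (by rw [Module.finrank_tensorProduct, hd])).2 h2
    let e : TensorProduct ℂ X V ≃ₗ[ℂ] W := LinearEquiv.ofBijective _ ⟨h3, h2⟩
    have h4 : σ g = e.conj (TensorProduct.map (τ g) (ρ g)) := by
      ext w
      obtain ⟨z, rfl⟩ := e.surjective w
      rw [LinearEquiv.conj_apply_apply, e.symm_apply_apply]
      exact (hdgal_eqv j hj g z).symm
    show LinearMap.trace ℂ W (σ g) = LinearMap.trace ℂ X (τ g) * LinearMap.trace ℂ V (ρ g)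
    rw [h4, LinearMap.trace_conj', LinearMap.trace_tensorProduct']

end ev

lemma hdgal_ex {G Q : Type} [Group G] [Finite G] [Group Q] [Finite Q] (q : G →* Q)
    (hq : Function.Surjective q) {θ : G → ℂ} (hθ : θ ∈ Irr G)
    (hirr : (fun x : q.ker => θ x) ∈ Irr q.ker) {χ : G → ℂ} (hχ : χ ∈ Irr G) {c : ℂ}
    (hc : ∀ x ∈ q.ker, χ x = c * θ x) : ∃ ψ ∈ Irr Q, ∀ g, χ g = ψ (q g) * θ g := by
  have := Fintype.ofFinite q.ker
  have hn := MP_810665_al.irr_norm (mem_Irr.1 hirr)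
  obtain ⟨V, _, _, _, ρ, hρ, rfl⟩ := mem_Irr.1 hθ
  obtain ⟨W, _, _, _, σ, hσ, rfl⟩ := mem_Irr.1 hχ
  let π := Representation.linHom ρ σ
  have hch : ∀ u : q.ker, Representation.character (π.comp q.ker.subtype) u =
      c * (ρ.character u.1 * ρ.character (u⁻¹).1) := fun u => by
    rw [show Representation.character (π.comp q.ker.subtype) u = _ from
      Representation.char_linHom ρ σ u.1, hc _ u.2, Subgroup.coe_inv]
    ring
  have hne := MP_810665_al.card_ne_zero (G := q.ker)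
  let _ := invertibleOfNonzero hne
  have d1 := Representation.card_inv_mul_sum_char_eq_finrank
    (show Representation ℂ q.ker _ from π.comp q.ker.subtype)
  simp only [hch] at d1
  rw [← Finset.mul_sum, hn, mul_comm c, inv_mul_cancel_left₀ hne] at d1
  have d2 := hc 1 q.ker.one_mem
  rw [Representation.char_one, Representation.char_one, d1] at d2
  obtain ⟨h1, h2⟩ := hdgal_main (τ := π.toInvariants q.ker) (ρ := ρ) hσ (Submodule.subtype _)
    (Submodule.subtype_injective _) (fun g T v => by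
      show σ g (T.1 (ρ g⁻¹ (ρ g v))) = σ g (T.1 v)
      rw [← Module.End.mul_apply (ρ g⁻¹), ← map_mul, inv_mul_cancel, map_one,
        Module.End.one_apply]) (by exact_mod_cast d2)
  let τ : Representation ℂ Q _ := (π.quotientToInvariants q.ker).comp
    (QuotientGroup.quotientKerEquivOfSurjective q hq).symm.toMonoidHom
  have h3 : τ.comp q = π.toInvariants q.ker := by
    refine MonoidHom.ext fun g => ?_
    have h4 : (QuotientGroup.quotientKerEquivOfSurjective q hq).symm (q g) = (g : G ⧸ q.ker) :=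
      (MulEquiv.symm_apply_eq _).2 rfl
    show π.quotientToInvariants q.ker
      ((QuotientGroup.quotientKerEquivOfSurjective q hq).symm (q g)) = _
    rw [h4]
    rfl
  refine ⟨τ.character, mem_Irr.2 ⟨_, _, _, inferInstance, τ,
    (MP_810665_al.irreducible_comp_iff q hq τ).1 (h3 ▸ h1), rfl⟩, fun g => ?_⟩
  rw [h2, ← h3]
  rfl

/-- the characters above an extendible character -/
theorem gallagher {G Q : Type} [Group G] [Finite G] [Group Q] [Finite Q] (q : G →* Q)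
    (hq : Function.Surjective q) {θ : G → ℂ} (hθ : θ ∈ Irr G)
    (hirr : (fun x : q.ker => θ x) ∈ Irr q.ker) (s : ℝ) :
    Zs G (fun χ => ∃ c : ℂ, ∀ x ∈ q.ker, χ x = c * θ x) s ≤
      ‖θ 1‖ ^ (-s) * Zs Q (fun _ => True) s := by
  classical
  have h1 : Zs G (fun χ => ∃ c : ℂ, ∀ x ∈ q.ker, χ x = c * θ x) s ≤
      ∑ χ ∈ (Irr Q).image (fun ψ g => ψ (q g) * θ g), ‖χ 1‖ ^ (-s) := by
    refine Finset.sum_le_sum_of_subset_of_nonneg (fun χ hχ => ?_) fun χ _ _ => zsb_term χ s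
    obtain ⟨a, c, hc⟩ := Finset.mem_filter.1 hχ
    obtain ⟨ψ, b, h⟩ := hdgal_ex q hq hθ hirr a hc
    exact Finset.mem_image.2 ⟨ψ, b, (funext h).symm⟩
  refine h1.trans ((Finset.sum_image_le_of_nonneg fun χ _ => zsb_term χ s).trans (le_of_eq ?_))
  simp only [Zs, Finset.filter_true, Finset.mul_sum]
  refine Finset.sum_congr rfl fun ψ _ => ?_
  rw [map_one, norm_mul, Real.mul_rpow (norm_nonneg _) (norm_nonneg _), mul_comm]

end Pool.Agent.MP_8299d6_al.Up

end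
end

section

open Matrix

noncomputable section

namespace Pool.Agent.MP_8299d6_al.Up

open Pool.Agent.MP_810665_al (IrrChar)

variable {M : Type} [Ring M] [Fintype M] {τ : AddChar M ℂ}

lemma hdleft_norm (J : NonUnitalSubring M) : Norm (UU J) J := by
  intro g hg x hx
  have h1 : (g : M) - 1 ∈ J := hg
  have h2 : ((g⁻¹ : Mˣ) : M) - 1 ∈ J := (inv_mem hg : g⁻¹ ∈ UU J)
  have e : cj g x = ((g : M) - 1) * x * (((g⁻¹ : Mˣ) : M) - 1) + ((g : M) - 1) * x +
      x * (((g⁻¹ : Mˣ) : M) - 1) + x := by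
    rw [cj]
    noncomm_ring
  rw [e]
  exact add_mem (add_mem (add_mem (mul_mem (mul_mem h1 hx) h2) (mul_mem h1 hx)) (mul_mem hx h2)) hx

open Classical in
lemma hdleft_ex {J : NonUnitalSubring M} {L : M → M} (h : Sit τ J J L (UU J)) (A : M) :
    ∃ θ ∈ Irr (UU J), Sup τ J L (UU J) θ ⊆ cls τ J (UU J) A := by
  by_contra hn
  have h0 := op_eq_zero (rt3e τ J J L (UU J) A) fun V _ _ _ ρ hρ => by
    by_contra hne
    have h1 := (h.E_ne_zero ρ A).1 (by rw [rt3_E_eq]; exact hne)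
    obtain ⟨ψ, a, b, -⟩ := rt2_key h A (H₁ := UU J)
      (fun g => ⟨fun hg => ⟨hg, g, hg, by rw [sub_self]; exact zero_mem _⟩, fun hg => hg.1⟩)
      (mem_Irr.2 ⟨V, _, _, inferInstance, ρ, hρ, rfl⟩) h1
    exact hn ⟨ψ, a, b⟩
  have h1 := congrFun h0 1
  have h2 : rt3e τ J J L (UU J) A 1 = (Nat.card M : ℂ)⁻¹ * ((cls τ J (UU J) A).ncard * 1) := by
    rw [rt3e, ← rt3_sum_const]
    simp [h.om.zero]
  rw [h2, mul_one] at h1
  exact mul_ne_zero (inv_ne_zero rt1_N) (rt1_card_ne _ A) h1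

lemma hdleft_dvd (hτ : Frob τ) {J : NonUnitalSubring M} (hu : ∀ x ∈ J, IsUnit (1 + x)) {A : M}
    {w : ℕ} (hw : (cls τ J (UU J) A).ncard = w * Nat.card (perp τ J.toAddSubgroup)) :
    w ∣ Nat.card J := by
  have hb : ∀ B, B ∈ cls τ J ⊥ A ↔ B - A ∈ perp τ J.toAddSubgroup := fun B =>
    ⟨fun ⟨g, hg, h⟩ => by rwa [Subgroup.mem_bot.1 hg, cj_one] at h,
      fun h => ⟨1, one_mem _, by rwa [cj_one]⟩⟩
  let S : Subgroup Mˣ :=
    { carrier := {g | g ∈ UU J ∧ cj g A - A ∈ perp τ J.toAddSubgroup}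
      one_mem' := ⟨one_mem _, by rw [cj_one, sub_self]; exact zero_mem _⟩
      mul_mem' := by
        rintro a b ⟨a₁, a₂⟩ ⟨b₁, b₂⟩
        refine ⟨mul_mem a₁ b₁, ?_⟩
        have h1 := add_mem (hτ.cj_perp (hdleft_norm J) a₁ b₂) a₂
        rwa [cj_sub, sub_add_sub_cancel, ← cj_mul] at h1
      inv_mem' := by
        rintro a ⟨a₁, a₂⟩
        refine ⟨inv_mem a₁, ?_⟩
        have h1 := neg_mem (hτ.cj_perp (hdleft_norm J) (inv_mem a₁) a₂)
        rwa [cj_sub, base_cj_inv, neg_sub] at h1 }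
  have h1 := hτ.card_cls (K := ⊥) (H₁ := S) bot_le (hdleft_norm J)
    (fun g _ u hu => by simp [Subgroup.mem_bot.1 hu]) A
    (fun g => and_congr_right fun _ => (hb _).symm)
  have h2 : (cls τ J ⊥ A).ncard = Nat.card (perp τ J.toAddSubgroup) := by
    rw [← Nat.card_coe_set_eq]
    exact Nat.card_congr ((Equiv.subRight A).subtypeEquiv hb)
  rw [hw, h2, card_UU hu, mul_right_comm] at h1
  exact ⟨_, (Nat.eq_of_mul_eq_mul_right Nat.card_pos h1).symm⟩

open Classical in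
lemma hdleft_sup {J J₁ : NonUnitalSubring M} {L : M → M} {U : Subgroup Mˣ}
    (h₁ : Sit τ J₁ J₁ L U) (h : Sit τ J J L U) (hle : J ≤ J₁) {θ : U → ℂ} (hθ : θ ∈ Irr U) {A : M}
    (hA : Sup τ J₁ L U θ ⊆ cls τ J₁ (UU J₁) A) (hc : cls τ J₁ (UU J₁) A ⊆ cls τ J (UU J) A) :
    Sup τ J L U θ ⊆ cls τ J (UU J) A := by
  intro C hC
  by_contra hn
  refine hC ?_
  have h1 : ∀ u ∈ rt1U J U, θ u * τ (-(C * L ((u.1 : M) - 1))) =
      θ 1 / ((cls τ J₁ (UU J₁) A).ncard : ℂ) * ∑ B : M, if B ∈ cls τ J₁ (UU J₁) A then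
        τ ((B - C) * L ((u.1 : M) - 1)) else 0 := by
    intro u hu
    rw [h₁.rt3_shape hθ hA u (hle (rt1_memU.1 hu)), rt3Phi, mul_assoc, Finset.sum_mul]
    congr 1
    refine Finset.sum_congr rfl fun B _ => ?_
    split_ifs
    · rw [← AddChar.map_add_eq_mul, sub_mul, sub_eq_add_neg (B * _)]
    · rw [zero_mul]
  rw [rt1_fc, Finset.sum_congr rfl h1, ← Finset.mul_sum, Finset.sum_comm]
  refine mul_eq_zero_of_right _ (Finset.sum_eq_zero fun B _ => ?_)
  by_cases hB : B ∈ cls τ J₁ (UU J₁) A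
  · simp only [if_pos hB]
    rw [h.rt1_re fun y => τ ((B - C) * y), rt1_tau, if_neg]
    exact fun hp => hn (rt1_coset (hc hB) (by simpa using neg_mem hp))
  · simp only [if_neg hB, Finset.sum_const_zero]

open Classical in
lemma hdleft_ip {J : NonUnitalSubring M} {L : M → M} {U : Subgroup Mˣ} (h : Sit τ J J L U)
    {θ : U → ℂ} (hθ : θ ∈ Irr U) {A : M} (hA : Sup τ J L U θ ⊆ cls τ J (UU J) A) {w d : ℕ}
    (hw : (cls τ J (UU J) A).ncard = w * Nat.card (perp τ J.toAddSubgroup)) (hd : θ 1 = d) :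
    (w : ℂ) * ∑ u ∈ rt1U J U, θ u * θ u⁻¹ = Nat.card J * d ^ 2 := by
  have hc : ∀ g u : U, θ (g * u * g⁻¹) = θ u := fun g u =>
    Pool.Agent.MP_810665_al.irr_conj (mem_Irr.1 hθ) u g
  have h1 := xgal2_ip h hc hc hA hA
  have h2 : (Nat.card J : ℂ) * Nat.card (perp τ J.toAddSubgroup) = Nat.card M := by
    exact_mod_cast h.frob.card_perp J.toAddSubgroup
  have h3 : (Nat.card (perp τ J.toAddSubgroup) : ℂ) ≠ 0 := by exact_mod_cast Nat.card_pos.ne'
  rw [hw, ← h2, hd, map_natCast, Nat.cast_mul] at h1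
  simp only [rt3_inv hθ, mul_comm (θ _)]
  apply mul_left_cancel₀ h3
  linear_combination h1

/-- the invariant case, left side -/
theorem base3_left (p : ℕ) [Fact p.Prime] (hM : ∃ a : ℕ, Nat.card M = p ^ a) (O : Subring M)
    (J J₁ : NonUnitalSubring M) {L : M → M} {H : Subgroup Mˣ}
    (hH : ∀ g : Mˣ, g ∈ H ↔ (g : M) ∈ O) (h : Sit τ J J L H) (h₁ : OM J₁ J₁ L) (hJJ : J ≤ J₁)
    (hJ₁ : ∀ y ∈ J₁, y ∈ O) (hid : ∀ x ∈ O, ∀ y ∈ J, x * y ∈ J ∧ y * x ∈ J) (A : M)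
    (hA : ∀ y ∈ O, ∃ y' ∈ O, y - y' ∈ J ∧ A * y' - y' * A ∈ perp τ O.toAddSubgroup)
    (hidx : ¬ p ∣ ((UU J₁).subgroupOf H).index) {Q : Type} [Group Q] [Finite Q] (q : H →* Q)
    (hq : Function.Surjective q) (hker : ∀ u : H, q u = 1 ↔ u.1 ∈ UU J) {s : ℝ} (hs : 0 ≤ s) :
    Zs H (fun χ => Sup τ J L H χ ⊆ cls τ J (UU J) A) s ≤
      (Nat.card (baseOm τ J A) : ℝ) ^ (-s / 2) * Zs Q (fun _ => True) s := by
  classical
  have _ := hs
  have hp : p.Prime := Fact.out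
  by_cases hex : ∃ χ ∈ Irr H, Sup τ J L H χ ⊆ cls τ J (UU J) A
  swap
  · refine le_trans (le_of_eq (Finset.sum_eq_zero fun χ hχ => ?_))
      (mul_nonneg (Real.rpow_nonneg (Nat.cast_nonneg _) _) (Zs_nonneg _ _))
    exact absurd ⟨χ, (Finset.mem_filter.1 hχ).1, (Finset.mem_filter.1 hχ).2⟩ hex
  obtain ⟨χ₀, c1, c2⟩ := hex
  obtain ⟨a, ha⟩ := hM
  have hUH : UU J₁ ≤ H := fun u hu => (hH u).2 (base_UO hJ₁ hu)
  have s1 : Sit τ J₁ J₁ L (UU J₁) := ⟨h.frob, h₁, le_rfl, le_rfl, hdleft_norm _, hdleft_norm _⟩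
  have s0 : Sit τ J J L (UU J₁) := ⟨h.frob, h.om, le_rfl, rt3_UU_mono hJJ,
    fun g hg => h.norm g (hUH hg), fun g hg => h.norm g (hUH hg)⟩
  have G : Gal τ O O J J L H H A := ⟨hH, hH, le_rfl, le_rfl, h, h, fun y hy => hJ₁ y (hJJ hy), hid,
    hid, fun x hx y hy => mul_mem hx hy, hA⟩
  have p1 : perp τ O.toAddSubgroup ≤ perp τ J₁.toAddSubgroup := perp_anti hJ₁
  have p2 : perp τ J₁.toAddSubgroup ≤ perp τ J.toAddSubgroup := perp_anti hJJ
  have e1 : cls τ J₁ (UU J₁) A = baseT J A (perp τ J₁.toAddSubgroup) := by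
    ext B
    constructor
    · rintro ⟨u, hu, hB⟩
      obtain ⟨v, hv, h2⟩ := G.conj (hUH hu)
      exact ⟨v, hv, by simpa using add_mem hB (p1 h2)⟩
    · rintro ⟨u, hu, hB⟩
      exact ⟨u, rt3_UU_mono hJJ hu, hB⟩
  obtain ⟨θ, t1, t2⟩ := hdleft_ex s1 A
  have t3 := hdleft_sup s1 s0 hJJ t1 t2 (by
    rw [e1]
    rintro B ⟨u, hu, hB⟩
    exact ⟨u, hu, p2 hB⟩)
  obtain ⟨d, d0, hd⟩ := Pool.Agent.MP_810665_al.irr_one (mem_Irr.1 t1)
  have d1 : (d : ℂ) ≠ 0 := by exact_mod_cast d0.ne'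
  have hw : Nat.card (baseOm τ J A) = d ^ 2 := by
    have i1 := hdleft_ip s1 t1 t2 (e1 ▸ G.xgal0_card p1 p2) hd
    rw [show rt1U J₁ (UU J₁) = Finset.univ from Finset.filter_true_of_mem fun u _ => u.2,
      Pool.Agent.MP_810665_al.irr_norm (mem_Irr.1 t1), card_UU h₁.unit, mul_comm] at i1
    exact_mod_cast mul_left_cancel₀ (by exact_mod_cast Nat.card_pos.ne') i1
  have i0 : ∑ u ∈ rt1U J (UU J₁), θ u * θ u⁻¹ = Nat.card J := by
    have i1 := hdleft_ip s0 t1 t3 G.card hd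
    rw [hw, Nat.cast_pow, mul_comm] at i1
    exact mul_right_cancel₀ (pow_ne_zero 2 d1) i1
  have dJ : Nat.card J ∣ p ^ a := ha ▸ Dvd.intro _ (h.frob.card_perp J.toAddSubgroup)
  have hk : q.ker = (UU J).subgroupOf H := Subgroup.ext hker
  have cN : Nat.card q.ker = Nat.card J := hk ▸ h.rt3_card
  have hle : q.ker ≤ (UU J₁).subgroupOf H := fun u hu => rt3_UU_mono hJJ ((hker u).1 hu)
  let e := Subgroup.subgroupOfEquivOfLe hUH
  let ι : q.ker →* UU J₁ := e.toMonoidHom.comp (Subgroup.inclusion hle)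
  have sh : ∀ χ ∈ Irr H, Sup τ J L H χ ⊆ cls τ J (UU J) A → ∀ x : q.ker,
      χ x = χ 1 / d * θ (ι x) := by
    intro χ a1 a2 x
    have hx := (hker x).1 x.2
    rw [h.rt3_shape a1 a2 x hx, s0.rt3_shape t1 t3 (ι x) hx, hd,
      show rt3Phi τ J J L (UU J₁) A (ι x) = rt3Phi τ J J L H A x from rfl]
    field_simp
  have hirr : (fun x : q.ker => θ (ι x)) ∈ Irr q.ker := by
    obtain ⟨V, _, _, _, ρ, -, rfl⟩ := mem_Irr.1 t1
    refine mem_Irr.2 ⟨V, _, _, inferInstance, ρ.comp ι,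
      Pool.Agent.MP_810665_al.irreducible_of_norm _ ?_, rfl⟩
    rw [cN, ← i0]
    refine Finset.sum_nbij ι (fun x _ => rt1_memU.2 ((hker x).1 x.2))
      (fun x _ y _ hxy => Subtype.ext (Subtype.ext (congrArg (fun u : UU J₁ => u.1) hxy)))
      (fun u hu => ⟨⟨⟨u.1, hUH u.2⟩, (hker _).2 (rt1_memU (u := u) |>.1 hu)⟩, Finset.mem_univ _, rfl⟩)
      fun x _ => ?_
    rw [← map_inv]
    rfl
  obtain ⟨θ', u1, u2⟩ := ext_char p q.ker ((UU J₁).subgroupOf H) hle
    (by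
      obtain ⟨b, -, hb⟩ := (Nat.dvd_prime_pow hp).1 dJ
      exact IsPGroup.of_card (cN.trans hb)) hidx (θ := θ ∘ e.toMonoidHom)
    (mem_Irr.2 (Pool.Agent.MP_810665_al.irrChar_comp _ e.surjective (mem_Irr.1 t1))) hirr
    (by
      obtain ⟨b, -, hb⟩ := (Nat.dvd_prime_pow hp).1 ((dvd_pow_self d two_ne_zero).trans
        ((hw ▸ hdleft_dvd h.frob h.om.unit G.card).trans dJ))
      exact ⟨b, by rw [Function.comp_apply, map_one, hd, hb, Nat.cast_pow]⟩)
    (fun g x y hxy => by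
      have c3 : χ₀ 1 / d ≠ 0 := div_ne_zero (norm_pos_iff.1 (one_pos.trans_le (one_le_deg c1))) d1
      refine mul_left_cancel₀ c3 ((sh χ₀ c1 c2 y).symm.trans (Eq.trans ?_ (sh χ₀ c1 c2 x)))
      rw [hxy]
      exact Pool.Agent.MP_810665_al.irr_conj (mem_Irr.1 c1) _ _)
  have u3 : ∀ x : q.ker, θ' x = θ (ι x) := u2
  refine (Zs_mono (fun χ a1 a2 =>
    ⟨χ 1 / d, fun x hx => (sh χ a1 a2 ⟨x, hx⟩).trans (by rw [← u3])⟩) s).trans
    ((gallagher q hq u1 (by simpa only [u3] using hirr) s).trans (le_of_eq ?_))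
  have u4 : θ' 1 = d := (u3 1).trans (by rw [map_one, hd])
  rw [u4, hw, Complex.norm_natCast, Nat.cast_pow, ← Real.rpow_natCast,
    ← Real.rpow_mul (Nat.cast_nonneg _)]
  congr 2
  push_cast
  ring

end Pool.Agent.MP_8299d6_al.Up

end
end

section

open Matrix

noncomputable section

namespace Pool.Agent.MP_8299d6_al.Up

open Pool.Agent.MP_810665_al (IrrChar)

variable {M : Type} [Ring M] [Fintype M] {τ : AddChar M ℂ}

/-- lifts of the elements of the quotient ring to the annihilator of the kernel -/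
lemma hdright_lift (hτ : Frob τ) {O : Subring M} {J : NonUnitalSubring M}
    {S : Type} [Ring S] {τS : AddChar S ℂ} (hS : Frob τS) (π : O →+* S)
    (hπ : Function.Surjective π) (hJO : ∀ y ∈ J, y ∈ O) (hker : ∀ x : O, π x = 0 ↔ x.1 ∈ J) :
    ∃ bl : S → M, (∀ β, bl β ∈ perp τ J.toAddSubgroup) ∧
      (∀ β β', bl β - bl β' ∈ perp τ O.toAddSubgroup → β = β') ∧
      ∀ β (h : Mˣ), (h : M) ∈ O → ∃ γ ∈ orb β, cj h (bl β) - bl γ ∈ perp τ O.toAddSubgroup := by
  have hex : ∀ β : S, ∃ b : M, ∀ x : O, τS (β * π x) = τ (b * x) := fun β =>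
    hτ.exists_rep O.toAddSubgroup
      { toFun := fun x => τS (β * π ⟨x.1, x.2⟩)
        map_zero_eq_one' := by
          rw [show (⟨(0 : O.toAddSubgroup).1, (0 : O.toAddSubgroup).2⟩ : O) = 0 from rfl, map_zero,
            mul_zero, AddChar.map_zero_eq_one]
        map_add_eq_mul' := fun a b => by
          rw [← AddChar.map_add_eq_mul, ← mul_add, ← map_add]
          rfl }
  choose bl hb using hex
  have sub : ∀ a b x : M, τ ((a - b) * x) = 1 ↔ τ (a * x) = τ (b * x) := fun a b x => by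
    rw [sub_mul, AddChar.map_sub_eq_div, div_eq_one_iff_eq (AddChar.val_isUnit τ _).ne_zero]
  refine ⟨bl, fun β x hx => ?_, fun β β' h => ?_, fun β h hh => ?_⟩
  · have := hb β ⟨x, hJO x hx⟩
    rw [(hker ⟨x, hJO x hx⟩).2 hx, mul_zero, AddChar.map_zero_eq_one] at this
    exact this.symm
  · refine sub_eq_zero.1 (hS.nd _ fun y => ?_)
    obtain ⟨x, rfl⟩ := hπ y
    rw [sub_mul, AddChar.map_sub_eq_div, hb, hb, (sub _ _ _).1 (h x x.2),
      div_self (AddChar.val_isUnit τ _).ne_zero]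
  · let a : O := ⟨h, hh⟩
    let a' : O := ⟨(h⁻¹ : Mˣ), base_inv hh⟩
    have e1 : a * a' = 1 := Subtype.ext h.mul_inv
    have e2 : a' * a = 1 := Subtype.ext h.inv_mul
    let g : Sˣ := ⟨π a, π a', by rw [← map_mul, e1, map_one], by rw [← map_mul, e2, map_one]⟩
    refine ⟨cj g β, ⟨g, rfl⟩, fun x hx => (sub _ _ _).2 ?_⟩
    have e3 := hb (cj g β) ⟨x, hx⟩
    have e4 := hb β (a' * ⟨x, hx⟩ * a)
    have e5 : τS (cj g β * π ⟨x, hx⟩) = τS (β * π (a' * ⟨x, hx⟩ * a)) := by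
      rw [map_mul π, map_mul π, show cj g β = π a * β * π a' from rfl, mul_assoc, mul_assoc,
        hS.comm, mul_assoc]
    refine Eq.trans ?_ (e4.symm.trans (e5.symm.trans e3))
    rw [cj, mul_assoc, mul_assoc, hτ.comm, mul_assoc]
    rfl

lemma hdright_step (hτ : Frob τ) {O : Subring M} {J : NonUnitalSubring M}
    (hu : ∀ x ∈ J, IsUnit (1 + x))
    (hJO : ∀ y ∈ J, y ∈ O) (hid : ∀ x ∈ O, ∀ y ∈ J, x * y ∈ J ∧ y * x ∈ J) {A : M}
    (hA : ∀ y ∈ O, ∃ y' ∈ O, y - y' ∈ J ∧ A * y' - y' * A ∈ perp τ O.toAddSubgroup)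
    {u : baseOm τ J A → Mˣ} (hu1 : ∀ w, u w ∈ UU J) (hu2 : ∀ w, w.1 = (cj (u w) A : M))
    {g : Mˣ} (hg : (g : M) ∈ O) : ∃ w, cj g A - cj (u w) A ∈ perp τ O.toAddSubgroup := by
  obtain ⟨y', hy', hj, hc⟩ := hA _ hg
  obtain ⟨v, hv, g', hg', e⟩ := base_split hid hu hg hj
  let w : baseOm τ J A := ⟨(cj v A : M), v, hv, rfl⟩
  have r1 : cj v A - cj (u w) A ∈ perp τ O.toAddSubgroup := by
    refine base_refine hτ hJO hid hA hv (hu1 w) ?_
    have := hu2 w
    rw [QuotientAddGroup.eq] at this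
    have h2 := neg_mem this
    rwa [neg_add_rev, neg_neg, add_comm, ← sub_eq_add_neg] at h2
  have r2 : cj (v * g') A - cj v A ∈ perp τ O.toAddSubgroup := by
    rw [cj_mul, ← cj_sub]
    refine base_cj hτ (base_ring O) ?_ (base_UO hJO hv)
    rw [base_iff (base_ring O) A (hg' ▸ hy'), hg']; exact hc
  refine ⟨w, ?_⟩
  have := add_mem r2 r1
  rwa [sub_add_sub_cancel, ← e] at this

lemma hdright_orb (hτ : Frob τ) {O : Subring M} {J : NonUnitalSubring M} {H : Subgroup Mˣ}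
    (hH : ∀ g : Mˣ, g ∈ H ↔ (g : M) ∈ O) (hJO : ∀ y ∈ J, y ∈ O) {A : M}
    {u : baseOm τ J A → Mˣ} (hu1 : ∀ w, u w ∈ UU J)
    (hst : ∀ g : Mˣ, (g : M) ∈ O → ∃ w, cj g A - cj (u w) A ∈ perp τ O.toAddSubgroup)
    {S : Type} [Ring S] [Fintype S] {bl : S → M}
    (h3 : ∀ β (h : Mˣ), (h : M) ∈ O →
      ∃ γ ∈ orb β, cj h (bl β) - bl γ ∈ perp τ O.toAddSubgroup)
    (w : baseOm τ J A) (c : perp τ O.toAddSubgroup) (β : S) :
    (orb (cj (u w) A + c + bl β)).ncard ≤ Nat.card (Mˣ ⧸ H) *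
      (Nat.card (baseOm τ J A) * Nat.card (perp τ O.toAddSubgroup)) * (orb β).ncard := by
  let f : ((Mˣ ⧸ H) × baseOm τ J A × perp τ O.toAddSubgroup) × orb β → M := fun p =>
    cj p.1.1.out (cj (u p.1.2.1) A + p.1.2.2 + bl p.2)
  have hsub : orb (cj (u w) A + c + bl β) ⊆ Set.range f := by
    rintro X ⟨g, rfl⟩
    obtain ⟨h, hh⟩ := QuotientGroup.mk_out_eq_mul H g
    have hhO : ((h⁻¹ : H) : Mˣ).1 ∈ O := (hH _).1 (h⁻¹).2
    have hgO : ((((h⁻¹ : H) : Mˣ) * u w : Mˣ) : M) ∈ O := by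
      rw [Units.val_mul]; exact mul_mem hhO (base_UO hJO (hu1 w))
    obtain ⟨w', r1⟩ := hst _ hgO
    obtain ⟨γ, hγ, r2⟩ := h3 β _ hhO
    have r3 := base_cj hτ (base_ring O) c.2 hhO
    refine ⟨(((g : Mˣ ⧸ H), w', ⟨_, add_mem (add_mem r1 r2) r3⟩), ⟨γ, hγ⟩), ?_⟩
    have e2 : cj (u w') A + (cj (((h⁻¹ : H) : Mˣ) * u w) A - cj (u w') A +
        (cj ((h⁻¹ : H) : Mˣ) (bl β) - bl γ) + cj ((h⁻¹ : H) : Mˣ) c) + bl γ =
        cj ((h⁻¹ : H) : Mˣ) (cj (u w) A + c + bl β) := by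
      rw [cj_add, cj_add, cj_mul]; abel
    show cj (g : Mˣ ⧸ H).out (cj (u w') A + (cj (((h⁻¹ : H) : Mˣ) * u w) A - cj (u w') A +
        (cj ((h⁻¹ : H) : Mˣ) (bl β) - bl γ) + cj ((h⁻¹ : H) : Mˣ) c) + bl γ) = _
    rw [e2, hh, ← cj_mul]
    simp
  have h1 := Set.ncard_le_ncard hsub (Set.toFinite _)
  have h2 := Finite.card_range_le f
  rw [Nat.card_prod, Nat.card_prod, Nat.card_prod, Nat.card_coe_set_eq,
    Nat.card_coe_set_eq (orb β)] at h2
  exact h1.trans h2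

/-- the invariant case, right side -/
theorem base3_right (hτ : Frob τ) (O : Subring M) (J : NonUnitalSubring M) {H : Subgroup Mˣ}
    (hH : ∀ g : Mˣ, g ∈ H ↔ (g : M) ∈ O) (hu : ∀ x ∈ J, IsUnit (1 + x))
    (hJO : ∀ y ∈ J, y ∈ O) (hid : ∀ x ∈ O, ∀ y ∈ J, x * y ∈ J ∧ y * x ∈ J) (A : M)
    (hA : ∀ y ∈ O, ∃ y' ∈ O, y - y' ∈ J ∧ A * y' - y' * A ∈ perp τ O.toAddSubgroup)
    {S : Type} [Ring S] [Fintype S] {τS : AddChar S ℂ} (hS : Frob τS) (π : O →+* S)
    (hπ : Function.Surjective π) (hker : ∀ x : O, π x = 0 ↔ x.1 ∈ J)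
    (hM : Nat.card M ≤ 2 * Nat.card Mˣ) {s : ℝ} (hs : 0 ≤ s) (hs2 : s ≤ 2) :
    (Nat.card (baseOm τ J A) : ℝ) ^ (-s / 2) * ∑ β : S, ((orb β).ncard : ℝ) ^ (-1 - s / 2) ≤
      (Nat.card H : ℝ) ^ (-1 - s) * sumOn (cls τ J (UU J) A)
        (fun B => 2 * (Nat.card Mˣ : ℝ) ^ (1 + s) * ((orb B).ncard : ℝ) ^ (-1 - s / 2)) := by
  classical
  obtain ⟨bl, b1, b2, b3⟩ := hdright_lift hτ hS π hπ hJO hker
  have hex : ∀ w : baseOm τ J A, ∃ u ∈ UU J, w.1 = (cj u A : M) := fun w => w.2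
  choose u hu1 hu2 using hex
  have horb := hdright_orb hτ hH hJO hu1 (fun g hg => hdright_step hτ hu hJO hid hA hu1 hu2 hg) b3
  have hOJ : perp τ O.toAddSubgroup ≤ perp τ J.toAddSubgroup := perp_anti hJO
  have i1 := Fintype.ofFinite (baseOm τ J A)
  have i2 := Fintype.ofFinite (perp τ O.toAddSubgroup)
  let f : (baseOm τ J A × perp τ O.toAddSubgroup) × S → M := fun q =>
    cj (u q.1.1) A + q.1.2 + bl q.2
  have hf : Function.Injective f := by
    rintro ⟨⟨w, c⟩, β⟩ ⟨⟨w', c'⟩, β'⟩ h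
    have h1 : cj (u w) A + c + bl β = cj (u w') A + c' + bl β' := h
    have h2 : w = w' := by
      apply Subtype.ext
      rw [hu2 w, hu2 w', QuotientAddGroup.eq]
      have e : -cj (u w) A + cj (u w') A = c + bl β - (c' + bl β') := by
        rw [eq_sub_iff_add_eq, add_assoc, ← add_assoc (cj (u w') A), ← h1]; abel
      rw [e]
      exact sub_mem (add_mem (hOJ c.2) (b1 β)) (add_mem (hOJ c'.2) (b1 β'))
    subst h2
    rw [add_assoc, add_assoc] at h1
    have h3 := add_left_cancel h1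
    have h4 : β = β' := by
      refine b2 _ _ ?_
      have e : bl β - bl β' = c' - c := by
        rw [sub_eq_sub_iff_add_eq_add, add_comm, h3]
      rw [e]
      exact sub_mem c'.2 c.2
    subst h4
    rw [Subtype.ext (add_right_cancel h3)]
  set w : ℕ := Nat.card (baseOm τ J A) with hw
  set p : ℕ := Nat.card (perp τ O.toAddSubgroup) with hp
  have hw0 : 0 < w := by
    have : Nonempty (baseOm τ J A) := ⟨⟨_, 1, one_mem _, rfl⟩⟩
    exact Nat.card_pos
  have hp0 : 0 < p := Nat.card_pos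
  have hH0 : 0 < Nat.card H := Nat.card_pos
  have hG0 : 0 < Nat.card Mˣ := Nat.card_pos
  have c2 : Nat.card O * p = Nat.card M := hτ.card_perp O.toAddSubgroup
  have hHO : Nat.card H ≤ Nat.card O :=
    Nat.card_le_card_of_injective (fun g : H => (⟨g.1.1, (hH _).1 g.2⟩ : O)) (fun a b e =>
      Subtype.ext (Units.ext (congrArg Subtype.val e)))
  have hp2 : p * Nat.card H ≤ 2 * Nat.card Mˣ := by
    calc p * Nat.card H ≤ p * Nat.card O := Nat.mul_le_mul_left _ hHO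
      _ = Nat.card M := by rw [mul_comm, c2]
      _ ≤ _ := hM
  have hq : (Nat.card (Mˣ ⧸ H) : ℝ) = (Nat.card Mˣ : ℝ) / Nat.card H := by
    rw [Subgroup.card_eq_card_quotient_mul_card_subgroup H, Nat.cast_mul,
      mul_div_cancel_right₀ _ (by exact_mod_cast hH0.ne')]
  have hn := base_num (k := 1) (D := 1) (z := 1) (t := (w : ℝ) * (1 * p)) (h := Nat.card H)
    (G := Nat.card Mˣ) (w := w) (p := p) (by norm_num) zero_le_one zero_le_one
    (by exact_mod_cast hH0) (by exact_mod_cast hG0) (by exact_mod_cast hw0)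
    (by exact_mod_cast hp0) (by exact_mod_cast hp2) le_rfl hs hs2
  rw [one_mul, one_mul, mul_one, ← hq] at hn
  refine (mul_le_mul_of_nonneg_right hn (by positivity)).trans ?_
  rw [mul_assoc]
  refine mul_le_mul_of_nonneg_left ?_ (Real.rpow_nonneg (Nat.cast_nonneg _) _)
  have hsub : Finset.univ.image f ⊆ Finset.univ.filter (· ∈ cls τ J (UU J) A) := by
    intro B hB
    obtain ⟨q, -, rfl⟩ := Finset.mem_image.1 hB
    refine Finset.mem_filter.2 ⟨Finset.mem_univ _, u q.1.1, hu1 _, ?_⟩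
    have e : f q - cj (u q.1.1) A = q.1.2 + bl q.2 := by
      simp only [f]; abel
    rw [e]
    exact add_mem (hOJ q.1.2.2) (b1 _)
  unfold sumOn
  refine le_trans ?_ (Finset.sum_le_sum_of_subset_of_nonneg (by convert hsub)
    (fun B _ _ => by positivity))
  rw [Finset.sum_image fun a _ b _ e => hf e, Fintype.sum_prod_type]
  have hc : (w : ℝ) * p = (Finset.univ : Finset (baseOm τ J A × perp τ O.toAddSubgroup)).card := by
    rw [Finset.card_univ, ← Nat.card_eq_fintype_card, Nat.card_prod, Nat.cast_mul]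
  rw [mul_assoc, hc, ← nsmul_eq_mul, ← hc]
  refine Finset.card_nsmul_le_sum _ _ _ fun q _ => ?_
  rw [Finset.mul_sum]
  refine Finset.sum_le_sum fun β _ => ?_
  have o1 := horb q.1 q.2 β
  have o2 : 0 < (orb (f (q, β))).ncard :=
    (Set.ncard_pos (Set.toFinite _)).2 ⟨_, 1, (cj_one _).symm⟩
  rw [mul_assoc, ← Real.mul_rpow (by positivity) (by positivity)]
  refine mul_le_mul_of_nonneg_left ?_ (by positivity)
  refine Real.rpow_le_rpow_of_nonpos (by exact_mod_cast o2) ?_ (by linarith)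
  exact_mod_cast o1

end Pool.Agent.MP_8299d6_al.Up

end
end

section

open Matrix

noncomputable section

namespace Pool.Agent.MP_8299d6_al.Up

open Pool.Agent.MP_810665_al (IrrChar)

theorem hdmat_mul {M : Type} [Ring M] (g h : Mˣ) (A : M) : cj g (cj h A) = cj (g * h) A := by
  simp only [cj, _root_.mul_inv_rev, Units.val_mul, mul_assoc]

theorem hdmat_self {M : Type} [Ring M] (A : M) : A ∈ orb A := ⟨1, by simp [cj]⟩

theorem hdmat_eq {M : Type} [Ring M] {A B : M} (h : B ∈ orb A) : orb B = orb A := by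
  obtain ⟨g, rfl⟩ := h
  ext C
  constructor
  · rintro ⟨k, rfl⟩
    exact ⟨k * g, hdmat_mul _ _ _⟩
  · rintro ⟨k, rfl⟩
    exact ⟨k * g⁻¹, by rw [hdmat_mul, inv_mul_cancel_right]⟩

theorem hdmat_scal {m : ℕ} {F : Type} [Field F] (a : F) :
    orb (algebraMap F (Mat m F) a) = {algebraMap F (Mat m F) a} := by
  refine Set.eq_singleton_iff_unique_mem.2 ⟨hdmat_self _, ?_⟩
  rintro _ ⟨g, rfl⟩
  rw [cj, ← Algebra.commutes, mul_assoc, Units.mul_inv, mul_one]

theorem hdmat_size {m : ℕ} {F : Type} [Field F] [Fintype F] (t : Fin m → F) :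
    (orb (diagonal t : Mat m F)).ncard * Fintype.card F ^ m ≤ 2 ^ m * Fintype.card F ^ (m * m) := by
  classical
  have h1 := card_orb (diagonal t : Mat m F)
  have h2 : Nat.card (Mat m F)ˣ ≤ Fintype.card F ^ (m * m) := by
    refine (Nat.card_le_card_of_injective _ Units.val_injective).trans (le_of_eq ?_)
    change Nat.card (Fin m → Fin m → F) = _
    rw [Nat.card_fun, Nat.card_fun, Nat.card_eq_fintype_card, Nat.card_eq_fintype_card,
      Fintype.card_fin, ← pow_mul]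
  have h3 : Nat.card (Fin m → Fˣ) ≤ Nat.card {x : cent (diagonal t : Mat m F) // IsUnit x.1} := by
    refine Nat.card_le_card_of_injective (fun u => ⟨⟨diagonal fun i => (u i : F), ?_⟩, ?_⟩) ?_
    · rw [cent, Subring.mem_centralizer_iff]
      rintro _ rfl
      rw [diagonal_mul_diagonal, diagonal_mul_diagonal]
      exact congrArg diagonal (funext fun i => mul_comm _ _)
    · rw [Matrix.isUnit_iff_isUnit_det, det_diagonal, isUnit_iff_ne_zero]
      exact Finset.prod_ne_zero_iff.2 fun i _ => (u i).ne_zero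
    · intro u v e
      have e' := congrArg (fun z : {x : cent (diagonal t : Mat m F) // IsUnit x.1} => z.1.1) e
      exact funext fun i => Units.ext (congrFun (diagonal_injective e') i)
  rw [Nat.card_fun, Nat.card_eq_fintype_card, Nat.card_eq_fintype_card, Fintype.card_fin,
    Fintype.card_units] at h3
  have h4 : Fintype.card F ≤ 2 * (Fintype.card F - 1) := by
    have := Fintype.one_lt_card (α := F)
    omega
  calc _ ≤ (orb (diagonal t : Mat m F)).ncard * (2 * (Fintype.card F - 1)) ^ m :=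
        Nat.mul_le_mul_left _ (Nat.pow_le_pow_left h4 _)
    _ = 2 ^ m * ((orb (diagonal t : Mat m F)).ncard * (Fintype.card F - 1) ^ m) := by
        rw [mul_pow, mul_left_comm]
    _ ≤ _ := Nat.mul_le_mul_left _ (((Nat.mul_le_mul_left _ h3).trans h1.le).trans h2)

open Classical in
theorem hdmat_few {m : ℕ} {F : Type} [Field F] [Fintype F] (β : Mat m F) :
    (Finset.univ.filter fun t : Fin m → F => β ∈ orb (diagonal t : Mat m F)).card ≤ m ^ m := by
  have h1 : (Finset.univ.filter fun t : Fin m → F => β ∈ orb (diagonal t : Mat m F)) ⊆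
      Fintype.piFinset fun _ => Finset.univ.filter fun a : F =>
        ¬ IsUnit (algebraMap F (Mat m F) a - β) := by
    intro t ht
    obtain ⟨g, rfl⟩ := (Finset.mem_filter.1 ht).2
    refine Fintype.mem_piFinset.2 fun i => Finset.mem_filter.2 ⟨Finset.mem_univ _, fun h => ?_⟩
    have e : algebraMap F (Mat m F) (t i) - cj g (diagonal t) =
        g * (diagonal fun j => t i - t j) * ((g⁻¹ : (Mat m F)ˣ) : Mat m F) := by
      rw [← diagonal_sub, mul_sub, sub_mul, cj]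
      congr 1
      change _ = g.1 * algebraMap F (Mat m F) (t i) * _
      rw [← Algebra.commutes, mul_assoc, Units.mul_inv, mul_one]
    rw [e, Units.isUnit_mul_units, Units.isUnit_units_mul, Matrix.isUnit_iff_isUnit_det,
      det_diagonal, isUnit_iff_ne_zero] at h
    exact h (Finset.prod_eq_zero (Finset.mem_univ i) (sub_self _))
  refine (Finset.card_le_card h1).trans ?_
  rw [Fintype.card_piFinset, Finset.prod_const, Finset.card_univ, Fintype.card_fin]
  exact Nat.pow_le_pow_left (dens_bad β) _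

open Classical in
theorem hdmat_one {M : Type} [Ring M] [Fintype M] (A : M) (s : ℝ) :
    ∑ β : M, (if β ∈ orb A then ((orb β).ncard : ℝ) ^ (-1 - s) else 0) =
      ((orb A).ncard : ℝ) ^ (-s) := by
  have h0 : (0 : ℝ) < (orb A).ncard :=
    Nat.cast_pos.2 ((Set.ncard_pos (Set.toFinite _)).2 ⟨A, hdmat_self A⟩)
  rw [← Finset.sum_filter, Finset.sum_congr rfl fun β hβ => by
    rw [hdmat_eq (Finset.mem_filter.1 hβ).2], Finset.sum_const, nsmul_eq_mul]
  have e : (Finset.univ.filter fun β => β ∈ orb A).card = (orb A).ncard := by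
    rw [← Set.ncard_coe_finset]
    congr 1
    ext β
    simp
  rw [e, show -s = 1 + (-1 - s) by ring, Real.rpow_add h0, Real.rpow_one]

open Classical in
/-- scalars and regular diagonal matrices -/
theorem mat_sum (n : ℕ) : ∃ c : ℝ, 0 < c ∧ ∀ m, 1 ≤ m → m ≤ n → ∀ (F : Type) [Field F] [Fintype F],
    2 * n ≤ Fintype.card F → ∀ s : ℝ, 0 ≤ s → s ≤ 2 →
    c * ((Fintype.card F : ℝ) + (Fintype.card F : ℝ) ^ ((m : ℝ) - s * (m * (m - 1) / 2))) ≤
      ∑ β : Mat m F, ((orb β).ncard : ℝ) ^ (-1 - s / 2) := by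
  have hD : (1 : ℝ) ≤ (2 * n + 1) ^ n := one_le_pow₀ (by have := Nat.cast_nonneg (α := ℝ) n; linarith)
  refine ⟨(2 * (2 * n + 1) ^ n)⁻¹, by positivity, fun m hm hmn F _ _ _ s hs hs2 => ?_⟩
  have hq : (0 : ℝ) < Fintype.card F := Nat.cast_pos.2 Fintype.card_pos
  have hn : ∀ β : Mat m F, 0 ≤ ((orb β).ncard : ℝ) ^ (-1 - s / 2) := fun β =>
    Real.rpow_nonneg (Nat.cast_nonneg _) _
  set S := ∑ β : Mat m F, ((orb β).ncard : ℝ) ^ (-1 - s / 2) with hS
  have hS0 : 0 ≤ S := Finset.sum_nonneg fun β _ => hn β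
  have h1 : (Fintype.card F : ℝ) ≤ S := by
    have : Nonempty (Fin m) := ⟨⟨0, hm⟩⟩
    refine le_trans (le_of_eq ?_) (Finset.sum_le_sum_of_subset_of_nonneg
      (Finset.subset_univ (Finset.univ.image (algebraMap F (Mat m F)))) fun β _ _ => hn β)
    rw [Finset.sum_image fun a _ b _ e => (algebraMap F (Mat m F)).injective e]
    simp only [hdmat_scal, Set.ncard_singleton, Nat.cast_one, Real.one_rpow, Finset.sum_const,
      Finset.card_univ, nsmul_eq_mul, mul_one]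
  have h2 : ∑ t : Fin m → F, ((orb (diagonal t : Mat m F)).ncard : ℝ) ^ (-(s / 2)) ≤
      (m : ℝ) ^ m * S := by
    simp only [← hdmat_one]
    rw [Finset.sum_comm, hS, Finset.mul_sum]
    refine Finset.sum_le_sum fun β _ => ?_
    rw [← Finset.sum_filter, Finset.sum_const, nsmul_eq_mul]
    exact mul_le_mul_of_nonneg_right (by exact_mod_cast hdmat_few β) (hn β)
  have h3 : ∀ t : Fin m → F, (Fintype.card F : ℝ) ^ (-(s * (m * (m - 1) / 2))) ≤
      2 ^ m * ((orb (diagonal t : Mat m F)).ncard : ℝ) ^ (-(s / 2)) := by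
    intro t
    have h0 : (0 : ℝ) < (orb (diagonal t : Mat m F)).ncard :=
      Nat.cast_pos.2 ((Set.ncard_pos (Set.toFinite _)).2 ⟨_, hdmat_self _⟩)
    have a : ((orb (diagonal t : Mat m F)).ncard : ℝ) ≤
        2 ^ m * (Fintype.card F : ℝ) ^ ((m : ℝ) * (m - 1)) := by
      rw [show (m : ℝ) * (m - 1) = ((m * m : ℕ) : ℝ) - (m : ℕ) by push_cast; ring,
        Real.rpow_sub hq, Real.rpow_natCast, Real.rpow_natCast, ← mul_div_assoc,
        le_div_iff₀ (pow_pos hq _)]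
      exact_mod_cast hdmat_size t
    have b := Real.rpow_le_rpow_of_nonpos h0 a (by linarith : -(s / 2) ≤ 0)
    rw [Real.mul_rpow (by positivity) (by positivity), ← Real.rpow_mul hq.le,
      show (m : ℝ) * (m - 1) * -(s / 2) = -(s * (m * (m - 1) / 2)) by ring] at b
    have c : ((2 : ℝ) ^ m)⁻¹ ≤ ((2 : ℝ) ^ m) ^ (-(s / 2)) := by
      rw [← Real.rpow_neg_one]
      exact Real.rpow_le_rpow_of_exponent_le (one_le_pow₀ one_le_two) (by linarith)
    rw [← inv_mul_le_iff₀ (by positivity)]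
    exact (mul_le_mul_of_nonneg_right c (by positivity)).trans b
  have h4 := Finset.sum_le_sum fun t (_ : t ∈ (Finset.univ : Finset (Fin m → F))) => h3 t
  rw [← Finset.mul_sum, Finset.sum_const, nsmul_eq_mul, Finset.card_univ, Fintype.card_fun,
    Fintype.card_fin, Nat.cast_pow, ← Real.rpow_natCast, ← Real.rpow_add hq, ← sub_eq_add_neg] at h4
  have h5 : (2 : ℝ) ^ m * (m : ℝ) ^ m ≤ (2 * n + 1) ^ n := by
    have : (m : ℝ) ≤ n := by exact_mod_cast hmn
    rw [← mul_pow]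
    exact (pow_le_pow_left₀ (by positivity) (by linarith) _).trans
      (pow_le_pow_right₀ (by have := Nat.cast_nonneg (α := ℝ) n; linarith) hmn)
  have h6 := h4.trans ((mul_le_mul_of_nonneg_left h2 (by positivity)).trans
    ((mul_assoc _ _ _).symm.le.trans (mul_le_mul_of_nonneg_right h5 hS0)))
  rw [inv_mul_le_iff₀ (by positivity)]
  nlinarith [mul_le_mul_of_nonneg_right hD hS0]

end Pool.Agent.MP_8299d6_al.Up

end
end

section

open Matrix

noncomputable section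

namespace Pool.Agent.MP_8299d6_al.Up

open Pool.Agent.MP_810665_al (IrrChar)

variable {r : ℕ}

/-- the boxes -/
abbrev harchK (lam : Fin r → ℕ) : Type :=
  {p : (Σ i : Fin r, Fin (lam i)) × Fin (r + 1) // p.2.val ≤ p.1.1.val}

/-- the fillings -/
def harchR (lam : Fin r → ℕ) (e : Fin r × Fin r → ℕ) (k : harchK lam) : Fin (r + 1) :=
  if k.1.2.val = k.1.1.1.val ∧
      k.1.1.2.val / r < e (k.1.1.1, ⟨k.1.1.2.val % r, Nat.mod_lt _ k.1.1.1.pos⟩) then
    ⟨min (k.1.1.1.val + 1 + k.1.1.2.val % r) r, by omega⟩ else k.1.2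

lemma harch_cnt (lam : Fin r → ℕ) (e : Fin r × Fin r → ℕ)
    (he : ∀ p, e p < if p.2.val < r - p.1.val then lam p.1 / r + 1 else 1) (i j : Fin r)
    (h : j.val < r - i.val) :
    (Finset.univ.filter fun k : harchK lam => k.1.2 < harchR lam e k ∧ (harchR lam e k, k.1.2) =
      ((⟨i.val + 1 + j.val, by omega⟩ : Fin (r + 1)), i.castSucc)).card = e (i, j) := by
  have key : ∀ k : harchK lam, (k.1.2 < harchR lam e k ∧ (harchR lam e k, k.1.2) =
      ((⟨i.val + 1 + j.val, by omega⟩ : Fin (r + 1)), i.castSucc)) ↔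
      k.1.1.1 = i ∧ k.1.2 = i.castSucc ∧ k.1.1.2.val % r = j.val ∧ k.1.1.2.val / r < e (i, j) := by
    rintro ⟨⟨⟨i', c⟩, s⟩, hs⟩
    simp only [harchR, Prod.mk.injEq, Fin.ext_iff, Fin.lt_def, Fin.val_castSucc]
    constructor
    · rintro ⟨h1, h2, h3⟩
      split_ifs at h1 h2 with h4
      · obtain rfl : i' = i := Fin.ext (by omega)
        have h5 := he (i', ⟨c.val % r, Nat.mod_lt _ i'.pos⟩)
        have h7 := (Nat.zero_le _).trans_lt h4.2
        have h6 : c.val % r = j.val := by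
          dsimp only at h2 h5
          split_ifs at h5 <;> omega
        refine ⟨rfl, h3, h6, ?_⟩
        have : j = ⟨c.val % r, Nat.mod_lt _ i'.pos⟩ := Fin.ext h6.symm
        rw [this]
        exact h4.2
      · omega
    · rintro ⟨h1, h2, h3, h4⟩
      obtain rfl : i' = i := Fin.ext h1
      have : j = ⟨c.val % r, Nat.mod_lt _ i'.pos⟩ := Fin.ext h3.symm
      rw [if_pos ⟨h2, this ▸ h4⟩]
      dsimp only
      omega
  have h0 := he (i, j)
  rw [if_pos h] at h0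
  dsimp only at h0
  rw [← Finset.card_range (e (i, j))]
  refine Finset.card_nbij (fun k => k.1.1.2.val / r) (fun k hk => ?_) (fun k hk l hl hkl => ?_)
    fun t ht => ?_
  · simp only [Finset.coe_filter, Finset.mem_univ, true_and, Set.mem_ofPred_eq, key] at hk
    simpa using hk.2.2.2
  · simp only [Finset.coe_filter, Finset.mem_univ, true_and, Set.mem_ofPred_eq, key] at hk hl
    obtain ⟨⟨⟨i1, c1⟩, s1⟩, hs1⟩ := k
    obtain ⟨⟨⟨i2, c2⟩, s2⟩, hs2⟩ := l
    dsimp only at hk hl hkl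
    obtain ⟨rfl, rfl, h1, -⟩ := hk
    obtain ⟨rfl, rfl, h2, -⟩ := hl
    obtain rfl : c1 = c2 := Fin.ext (by
      rw [← Nat.div_add_mod c1.val r, ← Nat.div_add_mod c2.val r, hkl, h1, h2])
    rfl
  · have ht' : t < e (i, j) := by simpa using ht
    have h1 : r * t + j.val < lam i := by
      have h2 : r * (t + 1) ≤ r * (lam i / r) := Nat.mul_le_mul_left _ (by omega)
      have h3 := Nat.mul_div_le (lam i) r
      have h4 := j.2
      rw [Nat.mul_succ] at h2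
      omega
    have h2 : (r * t + j.val) / r = t := by
      rw [Nat.mul_add_div i.pos, Nat.div_eq_of_lt j.2, add_zero]
    have h3 : (r * t + j.val) % r = j.val := by rw [Nat.mul_add_mod, Nat.mod_eq_of_lt j.2]
    refine ⟨⟨(⟨i, ⟨r * t + j.val, h1⟩⟩, i.castSucc), le_rfl⟩, ?_, h2⟩
    simp only [Finset.coe_filter, Finset.mem_univ, true_and, Set.mem_ofPred_eq, key]
    exact ⟨h3, h2.trans_lt ht'⟩

/-- a unitary model with a large cyclic submodule -/
theorem harch_big (lam : Fin r → ℕ) : ∃ (ι : Type) (_ : Fintype ι) (_ : DecidableEq ι)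
    (Y : Fin (r + 1) → Fin (r + 1) → Matrix ι ι ℂ) (u : ι → ℂ),
    StRel (fun i j => (Matrix.toLin' (Y i j) : Module.End ℂ (ι → ℂ))) ∧
    (∀ i j, (Y i j)ᴴ = Y j i) ∧
    IsHW (fun i j => (Matrix.toLin' (Y i j) : Module.End ℂ (ι → ℂ))) u lam ∧
    ∀ D : Submodule ℂ (ι → ℂ), u ∈ D → (∀ i j, i ≠ j → ∀ w ∈ D, Y i j *ᵥ w ∈ D) →
      ∏ i, (lam i / r + 1) ^ (r - i.val) ≤ Module.finrank ℂ D := by
  classical
  have inj : ∀ k l : harchK lam, k.1.1 = l.1.1 → k.1.2 = l.1.2 → k = l :=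
    fun k l e e' => Subtype.ext (Prod.ext e e')
  obtain ⟨h1, h2, h3, h4, h5⟩ := xhw4_model (κ := harchK lam)
    (fun p => p.1.1) (fun p => p.1.2) inj
    (fun k i h => ⟨⟨(k.1.1, i), (Fin.lt_def.1 h).le.trans k.2⟩, rfl, rfl⟩)
  refine ⟨harchK lam → Fin (r + 1), inferInstance, inferInstance, fun i j => hw2D _ (single i j 1), _,
    h1, fun i j => by rw [xhw4_adjD, conjTranspose_single, star_one], ⟨h2, h3, fun i => ?_⟩,
    fun D hu hD => ?_⟩
  · have cnt : ∀ x : Fin (r + 1), (∑ k : harchK lam, if k.1.2 = x then (1 : ℂ) else 0) =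
        ∑ j : Fin r, if x.val ≤ j.val then (lam j : ℂ) else 0 := fun x => by
      rw [← Finset.sum_subtype (Finset.univ.filter fun p : (Σ i : Fin r, Fin (lam i)) × Fin (r + 1) =>
        p.2.val ≤ p.1.1.val) (by simp) fun p => if p.2 = x then (1 : ℂ) else 0, Finset.sum_filter,
        Fintype.sum_prod_type, Fintype.sum_sigma]
      refine Finset.sum_congr rfl fun j _ => ?_
      rw [Finset.sum_congr rfl fun c _ => Finset.sum_eq_single x (fun y _ hy => by simp [hy])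
        (by simp)]
      simp
    rw [h4, cnt, cnt, ← Finset.sum_sub_distrib, Finset.sum_eq_single i (fun j _ hj => ?_) (by simp)]
    · simp
    · have : j.val ≠ i.val := fun e => hj (Fin.ext e)
      simp only [Fin.val_castSucc, Fin.val_succ]
      split_ifs <;> first | omega | simp
  · refine le_trans (le_of_eq ?_) (xhw4_rank (κ := harchK lam) (fun p => p.1.1) (fun p => p.1.2) inj
      (E := ∀ p : Fin r × Fin r, Fin (if p.2.val < r - p.1.val then lam p.1 / r + 1 else 1))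
      (fun e => harchR lam fun p => (e p).val) (fun e k => ?_) (fun e k => ?_) (fun e e' h => ?_) D
      fun g => h5 D hD g _ hu)
    · simp only [Fintype.card_pi, Fintype.card_fin, Fintype.prod_prod_type]
      refine Finset.prod_congr rfl fun i _ => ?_
      rw [← Finset.prod_filter, Finset.prod_const, Fin.card_filter_val_lt,
        min_eq_right (Nat.sub_le _ _)]
    · unfold harchR
      split_ifs with h
      · refine Or.inr fun l hl => ?_
        have := l.2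
        rw [hl] at this
        exact Fin.le_def.2 (this.trans h.1.ge)
      · exact Or.inl rfl
    · unfold harchR
      split_ifs with h
      · have := k.1.1.1.2
        refine Fin.le_def.2 ?_
        dsimp only
        omega
      · exact le_rfl
    · funext p
      obtain ⟨i, j⟩ := p
      by_cases hp : j.val < r - i.val
      · have h6 := DFunLike.congr_fun h
          (Pi.mulSingle ((⟨i.val + 1 + j.val, by omega⟩ : Fin (r + 1)), i.castSucc) 2)
        dsimp only at h6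
        rw [xhw4X_two, xhw4X_two, harch_cnt lam _ (fun p => (e p).2) i j hp,
          harch_cnt lam _ (fun p => (e' p).2) i j hp] at h6
        exact Fin.ext (Nat.pow_right_injective le_rfl (by exact_mod_cast h6))
      · have a1 := (e (i, j)).2
        have a2 := (e' (i, j)).2
        simp only [if_neg hp] at a1 a2
        exact Fin.ext (by omega)

theorem harch_low (hr : 2 ≤ r) {V : Type} [AddCommGroup V] [Module ℂ V]
    {X : Fin (r + 1) → Fin (r + 1) → Module.End ℂ V} (hX : StRel X) (hi : StIrr X) {v : V}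
    {lam : Fin r → ℕ} (hv : IsHW X v lam) :
    ∏ i, (lam i / r + 1) ^ (r - i.val) ≤ Module.finrank ℂ V := by
  obtain ⟨ι, _, _, Y, u, hY, hadj, hu, hD⟩ := harch_big lam
  obtain ⟨D, h1, h2, h3⟩ := hw_cyc hr Y hY hadj hu hX hi hv
  rw [← h3]
  exact hD D h1 h2

theorem harch_dim (hr : 3 ≤ r) {V : Type} [AddCommGroup V] [Module ℂ V]
    {X : Fin (r + 1) → Fin (r + 1) → Module.End ℂ V} (hX : StRel X) (hi : StIrr X) {v : V}
    {lam : Fin r → ℕ} (hv : IsHW X v lam) :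
    (∏ i, (lam i + 1)) ^ 2 ≤ r ^ (2 * r) * Module.finrank ℂ V := by
  have h1 := harch_low (by omega) hX hi hv
  obtain ⟨X', hX', hi', hv'⟩ := hw_flip hX hi hv
  have h2 := harch_low (by omega) hX' hi' hv'
  rw [← Equiv.prod_comp Fin.revPerm] at h2
  simp only [Fin.revPerm_apply, Fin.rev_rev] at h2
  have h3 : (∏ i, (lam i / r + 1)) ^ 2 ≤ Module.finrank ℂ V := by
    refine (Nat.pow_le_pow_iff_left two_ne_zero).1 ?_
    refine le_trans ?_ ((Nat.mul_le_mul h1 h2).trans_eq (sq _).symm)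
    rw [← pow_mul, ← Finset.prod_pow, ← Finset.prod_mul_distrib]
    refine Finset.prod_le_prod' fun i _ => ?_
    rw [← pow_add]
    refine Nat.pow_le_pow_right (Nat.succ_pos _) ?_
    have := i.2
    rw [Fin.val_rev]
    omega
  have h4 : ∏ i, (lam i + 1) ≤ r ^ r * ∏ i, (lam i / r + 1) := by
    refine le_of_le_of_eq (Finset.prod_le_prod' fun i _ =>
      Nat.succ_le_of_lt (Nat.lt_mul_div_succ (lam i) i.pos)) ?_
    rw [Finset.prod_mul_distrib, Fin.prod_const]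
  calc (∏ i, (lam i + 1)) ^ 2 ≤ (r ^ r * ∏ i, (lam i / r + 1)) ^ 2 := Nat.pow_le_pow_left h4 2
    _ = r ^ (2 * r) * (∏ i, (lam i / r + 1)) ^ 2 := by ring
    _ ≤ _ := Nat.mul_le_mul_left _ h3

theorem harch_cdim (hr : 3 ≤ r) {m : ℕ} {V : Type} [AddCommGroup V] [Module ℂ V]
    {ρ : Representation ℂ (SLn (r + 1) ℤ) V} {lam : Fin r → ℕ} {χ : SLn (r + 1) (ZMod m) → ℂ}
    (h : countDat m ρ lam χ) :
    (∏ i, ((lam i : ℝ) + 1)) ^ 2 / (r : ℝ) ^ (2 * r) * ‖χ 1‖ ≤ Module.finrank ℂ V := by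
  obtain ⟨W, _, _, _, U, _, _, _, X, π, σ, e, v, h1, h2, -, -, -, hv, rfl⟩ := h
  rw [← e.finrank_eq, Module.finrank_tensorProduct, Representation.char_one, Complex.norm_natCast,
    Nat.cast_mul]
  have h3 : (∏ i, ((lam i : ℝ) + 1)) ^ 2 ≤ (r : ℝ) ^ (2 * r) * Module.finrank ℂ W := by
    exact_mod_cast harch_dim hr h1 h2 hv
  have : (∏ i, ((lam i : ℝ) + 1)) ^ 2 / (r : ℝ) ^ (2 * r) ≤ Module.finrank ℂ W := by
    rwa [div_le_iff₀' (pow_pos (Nat.cast_pos.2 (by omega)) _)]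
  gcongr

theorem harch_sum (hr3 : 3 ≤ r) {s : ℝ} (hs : 0 ≤ s) (C K : ℝ)
    (hK : ∀ B, ∑ k ∈ Finset.range B, ((k : ℝ) + 1) ^ (-(2 * s)) ≤ K)
    (hC : ∀ (m : ℕ) [NeZero m], Zs (SLn (r + 1) (ZMod m)) (fun _ => True) s ≤ C)
    (F : Finset (Cls (SLn (r + 1) ℤ))) :
    ∑ c ∈ F, ((c.1 + 1 : ℕ) : ℝ) ^ (-s) ≤ ((r : ℝ) ^ (2 * r)) ^ s * (K ^ r * C) := by
  classical
  have hr : 2 ≤ r := by omega
  obtain ⟨L, hL⟩ : ∃ L : ℝ, L = (r : ℝ) ^ (2 * r) := ⟨_, rfl⟩
  have hL0 : 0 < L := hL ▸ pow_pos (Nat.cast_pos.2 (by omega)) _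
  rw [← hL]
  choose m hm h using fun c : F => count_exists hr c.1.2.out.1 c.1.2.out.2
  have : NeZero (∏ c, m c) := ⟨Finset.prod_ne_zero_iff.2 fun c _ => (hm c).ne'⟩
  choose lam χ hd using fun c : F =>
    h c (∏ c, m c) (Finset.dvd_prod_of_mem m (Finset.mem_univ c))
  obtain ⟨B, hB⟩ := (Set.finite_range fun p : F × Fin r => lam p.1 p.2).bddAbove
  let φ : F → (Fin r → ℕ) × (SLn (r + 1) (ZMod (∏ c, m c)) → ℂ) := fun c => (lam c, χ c)
  have hφ : Function.Injective φ := fun c c' e => by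
    obtain ⟨e1, e2⟩ := Prod.mk.inj e
    refine Subtype.ext (count_cls (count_uniq hr (hd c) ?_))
    rw [e1, e2]
    exact hd c'
  let g : (Fin r → ℕ) × (SLn (r + 1) (ZMod (∏ c, m c)) → ℂ) → ℝ := fun p =>
    (∏ i, ((p.1 i : ℝ) + 1) ^ (-(2 * s))) * ‖p.2 1‖ ^ (-s)
  have hg : ∀ p, 0 ≤ g p := fun p => by positivity
  have h1 : ∀ c : F, ((c.1.1 + 1 : ℕ) : ℝ) ^ (-s) ≤ L ^ s * g (φ c) := fun c => by
    have h2 := harch_cdim hr3 (hd c)
    rw [Module.finrank_fin_fun, ← hL] at h2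
    obtain ⟨d, hd0, hd1⟩ := Pool.Agent.MP_810665_al.irr_one (count_irr (hd c))
    have h3 : 0 < ‖χ c 1‖ := by
      rw [hd1, Complex.norm_natCast]
      exact_mod_cast hd0
    have h4 : 0 < ∏ i, ((lam c i : ℝ) + 1) := by positivity
    have h5 : 0 < (∏ i, ((lam c i : ℝ) + 1)) ^ 2 / L := by positivity
    refine (Real.rpow_le_rpow_of_nonpos (mul_pos h5 h3) h2 (neg_nonpos.2 hs)).trans_eq ?_
    rw [Real.mul_rpow h5.le h3.le, Real.div_rpow (by positivity) hL0.le,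
      Real.rpow_neg hL0.le, div_inv_eq_mul, ← Real.rpow_natCast,
      ← Real.rpow_mul h4.le, ← Real.finsetProd_rpow _ _ (fun i _ => by positivity)]
    have e : ((2 : ℕ) : ℝ) * -s = -(2 * s) := by push_cast; ring
    simp only [g, φ, e]
    ring
  have hK0 : 0 ≤ ∑ k ∈ Finset.range (B + 1), ((k : ℝ) + 1) ^ (-(2 * s)) := by positivity
  calc ∑ c ∈ F, ((c.1 + 1 : ℕ) : ℝ) ^ (-s) = ∑ c : F, ((c.1.1 + 1 : ℕ) : ℝ) ^ (-s) :=
        (Finset.sum_coe_sort F _).symm
    _ ≤ ∑ c : F, L ^ s * g (φ c) := Finset.sum_le_sum fun c _ => h1 c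
    _ = L ^ s * ∑ c : F, g (φ c) := (Finset.mul_sum _ _ _).symm
    _ ≤ L ^ s * (K ^ r * C) := by
      refine mul_le_mul_of_nonneg_left ?_ (by positivity)
      calc ∑ c : F, g (φ c) = ∑ p ∈ Finset.univ.image φ, g p := (Finset.sum_image hφ.injOn).symm
        _ ≤ ∑ p ∈ (Fintype.piFinset fun _ : Fin r => Finset.range (B + 1)) ×ˢ
              Irr (SLn (r + 1) (ZMod (∏ c, m c))), g p := by
            refine Finset.sum_le_sum_of_subset_of_nonneg (fun p hp => ?_) fun p _ _ => hg p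
            obtain ⟨c, -, rfl⟩ := Finset.mem_image.1 hp
            exact Finset.mem_product.2 ⟨Fintype.mem_piFinset.2 fun i =>
              Finset.mem_range.2 (Nat.lt_succ_of_le (hB ⟨(c, i), rfl⟩)),
              mem_Irr.2 (count_irr (hd c))⟩
        _ = (∑ k ∈ Finset.range (B + 1), ((k : ℝ) + 1) ^ (-(2 * s))) ^ r *
              Zs (SLn (r + 1) (ZMod (∏ c, m c))) (fun _ => True) s := by
            rw [Zs, Finset.filter_true, Finset.sum_product, ← Fin.prod_const, Finset.prod_univ_sum,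
              Finset.sum_mul_sum]
        _ ≤ K ^ r * C := by
            have h5 : 0 ≤ Zs (SLn (r + 1) (ZMod (∏ c, m c))) (fun _ => True) s :=
              Finset.sum_nonneg fun _ _ => by positivity
            exact mul_le_mul (pow_le_pow_left₀ hK0 (hK _) r) (hC _) h5
              (pow_nonneg (hK0.trans (hK _)) r)

/-- the archimedean factor converges for `s > 1/2` -/
theorem zeta_lt_top3 {n : ℕ} (hn : 4 ≤ n) {s : ℝ} (hs : 1 / 2 < s) (C : ℝ)
    (hC : ∀ (m : ℕ) [NeZero m], Zs (SLn n (ZMod m)) (fun _ => True) s ≤ C) :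
    repZeta (SLn n ℤ) s < ⊤ := by
  obtain ⟨r, rfl⟩ : ∃ r, n = r + 1 := ⟨n - 1, by omega⟩
  have hsum : Summable fun k : ℕ => ((k : ℝ) + 1) ^ (-(2 * s)) := by
    have := (summable_nat_add_iff 1).2 (Real.summable_nat_rpow.2 (by linarith : -(2 * s) < -1))
    simpa using this
  rw [repZeta_eq, ENNReal.tsum_eq_iSup_sum]
  refine lt_of_le_of_lt (iSup_le fun F => ?_)
    (ENNReal.ofReal_lt_top (r := ((r : ℝ) ^ (2 * r)) ^ s *
      ((∑' k : ℕ, ((k : ℝ) + 1) ^ (-(2 * s))) ^ r * C)))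
  have h := harch_sum (by omega) (by linarith) C _
    (fun B => hsum.sum_le_tsum (Finset.range B) fun k _ => by positivity) hC F
  refine le_trans (le_of_eq ?_) (ENNReal.ofReal_le_ofReal h)
  rw [ENNReal.ofReal_sum_of_nonneg fun c _ => by positivity]
  refine Finset.sum_congr rfl fun c _ => ?_
  rw [← ENNReal.ofReal_rpow_of_pos (by positivity), ENNReal.ofReal_natCast]

end Pool.Agent.MP_8299d6_al.Up

end
end

section

open Matrix

noncomputable section

namespace Pool.Agent.MP_8299d6_al.Up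

open Pool.Agent.MP_810665_al (IrrChar)

open scoped ENNReal

section hlow5F
variable {F : Type} [Field F]

/-- the first basis vector -/
def hlow5E (F : Type) [Field F] : Fin 5 → F := Pi.single 0 1

lemma hlow5E_ne : hlow5E F ≠ 0 := fun e => by
  have := congrFun e 0
  simp [hlow5E] at this

lemma hlow5_mul (g h : SLn 5 F) (u : Fin 5 → F) : (g * h).1 *ᵥ u = g.1 *ᵥ (h.1 *ᵥ u) := by
  rw [mulVec_mulVec]; rfl

lemma hlow5_inv (g : SLn 5 F) (u : Fin 5 → F) : (g⁻¹).1 *ᵥ (g.1 *ᵥ u) = u := by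
  rw [← hlow5_mul, inv_mul_cancel]; exact one_mulVec u

lemma hlow5_inv' (g : SLn 5 F) (u : Fin 5 → F) : g.1 *ᵥ ((g⁻¹).1 *ᵥ u) = u := by
  rw [← hlow5_mul, mul_inv_cancel]; exact one_mulVec u

lemma hlow5_ne (g : SLn 5 F) : g.1 *ᵥ hlow5E F ≠ 0 := fun e => by
  have := hlow5_inv g (hlow5E F)
  rw [e, mulVec_zero] at this
  exact hlow5E_ne this.symm

lemma hlow5_entry {g : SLn 5 F} {a : F} (h : g.1 *ᵥ hlow5E F = a • hlow5E F) : g.1 0 0 = a := by
  have := congrFun h 0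
  simpa [hlow5E] using this

/-- stabiliser of the line through the first basis vector -/
def hlow5H (F : Type) [Field F] : Subgroup (SLn 5 F) where
  carrier := {g | ∃ a : F, g.1 *ᵥ hlow5E F = a • hlow5E F}
  one_mem' := ⟨1, by rw [one_smul]; exact one_mulVec _⟩
  mul_mem' := by
    rintro g h ⟨a, ha⟩ ⟨b, hb⟩
    exact ⟨b * a, by rw [hlow5_mul, hb, mulVec_smul, ha, smul_smul]⟩
  inv_mem' := by
    rintro g ⟨a, ha⟩
    have ha0 : a ≠ 0 := by
      rintro rfl
      exact hlow5_ne g (by rw [ha, zero_smul])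
    refine ⟨a⁻¹, ?_⟩
    have := hlow5_inv g (hlow5E F)
    rw [ha, mulVec_smul] at this
    rw [eq_inv_smul_iff₀ ha0, this]

lemma hlow5_entry_mul {g h : SLn 5 F} (hg : g ∈ hlow5H F) (hh : h ∈ hlow5H F) :
    (g * h).1 0 0 = g.1 0 0 * h.1 0 0 := by
  obtain ⟨a, ha⟩ := hg
  obtain ⟨b, hb⟩ := hh
  rw [hlow5_entry ha, hlow5_entry hb]
  exact hlow5_entry (by rw [hlow5_mul, hb, mulVec_smul, ha, smul_smul, mul_comm])

lemma hlow5_ex (u : Fin 5 → F) {a : F} (ha : a ≠ 0) :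
    ∃ h : SLn 5 F, h.1 *ᵥ hlow5E F = a • hlow5E F ∧ h.1 *ᵥ u = a • u := by
  have hd : ∀ b x d : F, det !![a, 0, 0, 0, 0; 0, a, 0, 0, 0; 0, 0, a, 0, 0; 0, 0, 0, b, 0;
      0, 0, 0, x, d] = a * a * a * b * d := by
    intro b x d
    rw [det_of_isLowerTriangular]
    · simp [Fin.prod_univ_succ, mul_assoc]
    · intro i j h
      fin_cases i <;> fin_cases j <;> first | rfl | exact absurd h (by decide)
  by_cases hu : u 3 = 0
  · refine ⟨⟨!![a, 0, 0, 0, 0; 0, a, 0, 0, 0; 0, 0, a, 0, 0; 0, 0, 0, (a ^ 4)⁻¹, 0;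
      0, 0, 0, 0, a], ?_⟩, ?_, ?_⟩
    · rw [hd]; field_simp
    · ext i; fin_cases i <;> simp [hlow5E]
    · ext i; fin_cases i <;> simp [mulVec, dotProduct, Fin.sum_univ_succ, hu]
  · refine ⟨⟨!![a, 0, 0, 0, 0; 0, a, 0, 0, 0; 0, 0, a, 0, 0; 0, 0, 0, a, 0;
      0, 0, 0, (a - (a ^ 4)⁻¹) * u 4 / u 3, (a ^ 4)⁻¹], ?_⟩, ?_, ?_⟩
    · rw [hd]; field_simp
    · ext i; fin_cases i <;> simp [hlow5E]
    · ext i; fin_cases i <;> simp [mulVec, dotProduct, Fin.sum_univ_succ]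
      field_simp
      ring

lemma hlow5_conj (g : SLn 5 F) {a : F} (ha : a ≠ 0) :
    ∃ h : SLn 5 F, h.1 *ᵥ hlow5E F = a • hlow5E F ∧
      (g * h * g⁻¹).1 *ᵥ hlow5E F = a • hlow5E F := by
  obtain ⟨h, h1, h2⟩ := hlow5_ex ((g⁻¹).1 *ᵥ hlow5E F) ha
  exact ⟨h, h1, by rw [hlow5_mul, hlow5_mul, h2, mulVec_smul, hlow5_inv']⟩

end hlow5F

section hlow5P
variable (p : ℕ) [Fact p.Prime]

/-- the congruence subgroup -/
def hlow5G : Subgroup (SLn 5 ℤ) := (hlow5H (ZMod p)).comap (redSL 5 p)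

/-- the character -/
def hlow5C (μ : MulChar (ZMod p) ℂ) (g : SLn 5 ℤ) : ℂ := μ ((redSL 5 p g).1 0 0)

lemma hlow5_isChar (μ : MulChar (ZMod p) ℂ) :
    IsChar (hlow5G p) (redSL 5 p).ker (hlow5C p μ) where
  le g hg := by
    change redSL 5 p g ∈ hlow5H (ZMod p)
    rw [MonoidHom.mem_ker.1 hg]; exact one_mem _
  mul x hx y hy := by
    unfold hlow5C
    have h := hlow5_entry_mul (F := ZMod p) (g := redSL 5 p x) (h := redSL 5 p y) hx hy
    rw [map_mul, h, map_mul]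
  one x hx := by
    unfold hlow5C
    rw [MonoidHom.mem_ker.1 hx]
    change μ ((1 : Mat 5 (ZMod p)) 0 0) = 1
    rw [one_apply_eq, map_one]

instance hlow5_fin : (redSL 5 p).ker.FiniteIndex := by
  have : Finite (redSL 5 p).range := inferInstance
  exact Subgroup.finiteIndex_ker _

lemma hlow5_index : (hlow5G p).index ≤ (2 * p) ^ 4 := by
  have : Finite (Projectivization (ZMod p) (Fin 5 → ZMod p)) :=
    (Projectivization.finite_iff_of_finite _ _).2 inferInstance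
  refine (index_le_of_fun (hlow5G p) (fun g => Projectivization.mk (ZMod p)
    ((redSL 5 p g).1 *ᵥ hlow5E (ZMod p)) (hlow5_ne _)) fun g g' e => ?_).2.trans ?_
  · obtain ⟨a, ha⟩ := (Projectivization.mk_eq_mk_iff' _ _ _ _ _).1 e.symm
    refine ⟨a, ?_⟩
    rw [map_mul, map_inv, hlow5_mul, ← ha, mulVec_smul, hlow5_inv]
  · rw [Projectivization.card_of_finrank (ZMod p) _ (n := 5) (by simp), Nat.card_zmod]
    have hp : 1 ≤ p := (Fact.out : p.Prime).one_le
    simp only [Finset.sum_range_succ, Finset.range_zero, Finset.sum_empty]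
    have h1 : p ^ 0 ≤ p ^ 4 := Nat.pow_le_pow_right hp (by norm_num)
    have h2 : p ^ 1 ≤ p ^ 4 := Nat.pow_le_pow_right hp (by norm_num)
    have h3 : p ^ 2 ≤ p ^ 4 := Nat.pow_le_pow_right hp (by norm_num)
    have h4 : p ^ 3 ≤ p ^ 4 := Nat.pow_le_pow_right hp (by norm_num)
    rw [mul_pow]
    omega

lemma hlow5_lift (g : SLn 5 ℤ) {a : ZMod p} (ha : a ≠ 0) :
    ∃ h ∈ hlow5G p, g * h * g⁻¹ ∈ hlow5G p ∧ ∀ μ : MulChar (ZMod p) ℂ,
      hlow5C p μ h = μ a ∧ hlow5C p μ (g * h * g⁻¹) = μ a := by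
  obtain ⟨h, h1, h2⟩ := hlow5_conj (redSL 5 p g) ha
  obtain ⟨h, rfl⟩ := redSL_surj 5 p h
  rw [← map_inv, ← map_mul, ← map_mul] at h2
  refine ⟨h, ⟨a, h1⟩, ⟨a, h2⟩, fun μ => ⟨?_, ?_⟩⟩
  · unfold hlow5C; rw [hlow5_entry h1]
  · unfold hlow5C; rw [hlow5_entry h2]

lemma hlow5_el {i j : Fin 5} (hij : i ≠ j) : el hij (1 : ℤ) ^ p ∈ (redSL 5 p).ker := by
  rw [MonoidHom.mem_ker, el_pow, map_el]
  simp

lemma hlow5_ker {V : Type} [AddCommGroup V] [Module ℂ V] {ρ : Representation ℂ (SLn 5 ℤ) V}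
    (hρ : ρ.IsIrreducible) {μ : MulChar (ZMod p) ℂ} {v : V} (hv : v ≠ 0)
    (he : ∀ h ∈ hlow5G p, ρ h v = hlow5C p μ h • v) {i j : Fin 5} (hij : i ≠ j) :
    ρ (el hij (1 : ℤ)) ^ p = 1 := by
  rw [← map_pow]
  refine core_triv hρ (hlow5_isChar p μ) hv he _ ?_
  rw [Subgroup.normalCore_eq_self]
  exact hlow5_el p hij

lemma hlow5_card : Nat.card {μ : MulChar (ZMod p) ℂ // μ ≠ 1} = p - 2 := by
  classical
  have := Fintype.ofFinite (MulChar (ZMod p) ℂ)
  have hc : Fintype.card (MulChar (ZMod p) ℂ) = p - 1 := by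
    rw [← Nat.card_eq_fintype_card, MulChar.card_eq_card_units_of_hasEnoughRootsOfUnity,
      Nat.card_eq_fintype_card, ZMod.card_units]
  rw [Nat.card_eq_fintype_card, Fintype.card_subtype_compl, hc, Fintype.card_subtype_eq]
  omega

end hlow5P

lemma hlow5_same {V : Type} [AddCommGroup V] [Module ℂ V] {ρ : Representation ℂ (SLn 5 ℤ) V}
    (hρ : ρ.IsIrreducible) (p : ℕ) [Fact p.Prime] {μ μ' : MulChar (ZMod p) ℂ} {v v' : V}
    (hv : v ≠ 0) (hv' : v' ≠ 0) (he : ∀ h ∈ hlow5G p, ρ h v = hlow5C p μ h • v)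
    (he' : ∀ h ∈ hlow5G p, ρ h v' = hlow5C p μ' h • v') : μ = μ' := by
  obtain ⟨g, hg⟩ := intertwine hρ (hlow5_isChar p μ') hv hv' he he'
  refine MulChar.ext fun a => ?_
  obtain ⟨h, h1, h2, h3⟩ := hlow5_lift p g a.ne_zero
  rw [← (h3 μ).1, ← (h3 μ').2]
  exact hg h h1 h2

lemma hlow5_diff {V : Type} [AddCommGroup V] [Module ℂ V] {ρ : Representation ℂ (SLn 5 ℤ) V}
    (hρ : ρ.IsIrreducible) (p q : ℕ) [Fact p.Prime] [Fact q.Prime] (hpq : p ≠ q)
    {μ : MulChar (ZMod p) ℂ} {μ' : MulChar (ZMod q) ℂ} {v v' : V}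
    (hv : v ≠ 0) (hv' : v' ≠ 0) (he : ∀ h ∈ hlow5G p, ρ h v = hlow5C p μ h • v)
    (he' : ∀ h ∈ hlow5G q, ρ h v' = hlow5C q μ' h • v') : μ = 1 := by
  have hker : ρ.ker = ⊤ := gen_int 5 _ fun i j hij => by
    rw [MonoidHom.mem_ker]
    have h1 := hlow5_ker p hρ hv he hij
    have h2 := hlow5_ker q hρ hv' he' hij
    have h3 := pow_gcd_eq_one.2 ⟨h1, h2⟩
    rwa [(Nat.coprime_primes Fact.out Fact.out).2 hpq, pow_one] at h3
  refine MulChar.ext fun a => ?_
  obtain ⟨h, h1, -, h3⟩ := hlow5_lift p 1 a.ne_zero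
  have h4 := he h h1
  have h5 : ρ h = 1 := MonoidHom.mem_ker.1 (hker ▸ Subgroup.mem_top h)
  rw [h5, (h3 μ).1, Module.End.one_apply] at h4
  rw [MulChar.one_apply_coe]
  exact smul_left_injective ℂ hv (h4.symm.trans (one_smul ℂ v).symm)

lemma hlow5_pow (m : ℕ) : (((m ^ 4 : ℕ) : ℝ≥0∞)) ^ (-(1 / 2) : ℝ) = ((m : ℝ≥0∞) ^ 2)⁻¹ := by
  rw [Nat.cast_pow, ← ENNReal.rpow_natCast, ← ENNReal.rpow_mul, ← ENNReal.rpow_natCast,
    ← ENNReal.rpow_neg]
  norm_num

lemma hlow5_div : ∑' p : Nat.Primes, ((p.1 - 2 : ℕ) : ℝ≥0∞) *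
    (((2 * p.1) ^ 4 : ℕ) : ℝ≥0∞) ^ (-(1 / 2) : ℝ) = ⊤ := by
  by_contra hne
  simp only [hlow5_pow] at hne
  have h1 := ENNReal.summable_toReal hne
  have h2 : Summable fun p : Nat.Primes => 2 * (1 / (p.1 : ℝ) ^ 2) :=
    ((Real.summable_one_div_nat_pow.2 one_lt_two).comp_injective Subtype.val_injective).mul_left 2
  refine Nat.Primes.not_summable_one_div (((h1.mul_left 4).add h2).congr fun p => ?_)
  have hp : (p.1 : ℝ) ≠ 0 := Nat.cast_ne_zero.2 p.2.ne_zero
  rw [ENNReal.toReal_mul, ENNReal.toReal_inv, ENNReal.toReal_pow, ENNReal.toReal_natCast,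
    ENNReal.toReal_natCast, Nat.cast_sub p.2.two_le]
  push_cast
  field_simp
  ring

/-- index set -/
abbrev hlow5J : Type := Σ p : Nat.Primes, {μ : MulChar (ZMod p.1) ℂ // μ ≠ 1}

/-- divergence at `s = 1/2` for `SL_5(ℤ)` -/
theorem zeta_low5 : repZeta (SLn 5 ℤ) (1 / 2) = ⊤ := by
  have key : ∀ j : hlow5J, ∃ n : ℕ, n + 1 ≤ (2 * j.1.1) ^ 4 ∧ ∃ σ : IrrRep (SLn 5 ℤ) (n + 1), ∃ v,
      v ≠ 0 ∧ ∀ h ∈ @hlow5G j.1.1 ⟨j.1.2⟩, σ.1 h v = hlow5C j.1.1 j.2.1 h • v := fun j => by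
    have : Fact j.1.1.Prime := ⟨j.1.2⟩
    obtain ⟨n, hn, h⟩ := exists_irr (hlow5_isChar j.1.1 j.2.1)
    exact ⟨n, hn.trans (hlow5_index _), h⟩
  choose n hn σ v hv he using key
  have h := repZeta_ge n (fun j => (2 * j.1.1) ^ 4) (fun _ => 1) σ hn (fun _ => one_ne_zero)
    (fun _ _ _ => rfl) (fun j => ?_) (s := 1 / 2) (by norm_num)
  · rw [eq_top_iff]
    refine le_trans (le_of_eq ?_) h
    rw [← hlow5_div, ENNReal.tsum_sigma']
    refine tsum_congr fun p => ?_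
    have : Fact p.1.Prime := ⟨p.2⟩
    simp only [ENNReal.tsum_const, Nat.cast_one, inv_one, one_mul]
    rw [ENat.card_eq_coe_natCard, hlow5_card]
    simp
  · rw [Nat.cast_one, Set.encard_le_one_iff]
    suffices H : ∀ j', Nonempty ((σ j').1.Equiv (σ j).1) → j' = j from
      fun a b ha hb => (H a ha).trans (H b hb).symm
    rintro j' ⟨e⟩
    obtain ⟨p, μ⟩ := j
    obtain ⟨q, μ'⟩ := j'
    have : Fact p.1.Prime := ⟨p.2⟩
    have : Fact q.1.Prime := ⟨q.2⟩
    have hw : e (v ⟨q, μ'⟩) ≠ 0 := fun e0 => hv _ (e.toLinearEquiv.map_eq_zero_iff.1 e0)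
    have hw' : ∀ h ∈ hlow5G q.1, (σ ⟨p, μ⟩).1 h (e (v ⟨q, μ'⟩)) =
        hlow5C q.1 μ'.1 h • e (v ⟨q, μ'⟩) := fun h hh => by
      rw [← equiv_apply e, he ⟨q, μ'⟩ h hh]
      exact map_smul e.toLinearEquiv _ _
    by_cases hpq : p = q
    · subst hpq
      have h1 : μ'.1 = μ.1 := hlow5_same (σ ⟨p, μ⟩).2 p.1 hw (hv ⟨p, μ⟩) hw' (he ⟨p, μ⟩)
      exact congrArg (Sigma.mk p) (Subtype.ext h1)
    · have h1 : μ.1 = 1 := hlow5_diff (σ ⟨p, μ⟩).2 p.1 q.1 (fun e => hpq (Subtype.ext e))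
        (hv ⟨p, μ⟩) hw (he ⟨p, μ⟩) hw'
      exact absurd h1 μ.2

end Pool.Agent.MP_8299d6_al.Up

end
end
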