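import Mathlib
import Pool.Agent.Mg.F810665.Gfae9d0
import Pool.Agent.MP_8299d6_al.Rep

section

/-! Definitions for the upper bound on the abscissa of `SL_n(ℤ)`. -/

open Matrix

noncomputable section

namespace Pool.Agent.MP_8299d6_al.Up

open Pool.Agent.MP_810665_al (IrrChar)

/-! ### Characters of finite groups -/

/-- the finite set of irreducible characters -/
def Irr (G : Type) [Group G] [Finite G] : Finset (G → ℂ) :=
  (@Pool.Agent.MP_810665_al.irrChar_finite G _ (Fintype.ofFinite G)).toFinset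

lemma mem_Irr {G : Type} [Group G] [Finite G] {χ : G → ℂ} : χ ∈ Irr G ↔ χ ∈ IrrChar G := by
  simp [Irr]

open Classical in
/-- the sum of `χ(1)^{-s}` over the irreducible characters with property `P` -/
def Zs (G : Type) [Group G] [Finite G] (P : (G → ℂ) → Prop) (s : ℝ) : ℝ :=
  ∑ χ ∈ (Irr G).filter P, ‖χ 1‖ ^ (-s)

/-- `x` lies in the kernel of the character `χ` -/
def InKer {G : Type} [Group G] (χ : G → ℂ) (x : G) : Prop := ∀ g, χ (x * g) = χ g

/-! ### Matrices -/

abbrev Mat (n : ℕ) (R : Type) : Type := Matrix (Fin n) (Fin n) R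
abbrev SLn (n : ℕ) (R : Type) [CommRing R] : Type := SpecialLinearGroup (Fin n) R
abbrev GLn (n : ℕ) (R : Type) [CommRing R] : Type := (Mat n R)ˣ

/-- elementary matrix -/
abbrev el {n : ℕ} {R : Type} [CommRing R] {i j : Fin n} (h : i ≠ j) (x : R) : SLn n R :=
  SpecialLinearGroup.transvection h x

/-- reduction modulo `m` -/
abbrev redSL (n m : ℕ) : SLn n ℤ →* SLn n (ZMod m) :=
  SpecialLinearGroup.map (Int.castRingHom (ZMod m))

/-- inclusion of `SL_n` in `GL_n` -/
def inGL (n : ℕ) (R : Type) [CommRing R] : SLn n R →* GLn n R := SpecialLinearGroup.toGL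

/-- a two by two block in positions `i`, `j` -/
def blk {n : ℕ} (i j : Fin n) (a b c d : ℤ) : Mat n ℤ :=
  1 + single i i (a - 1) + single i j b + single j i c + single j j (d - 1)

/-- congruent to the identity modulo `m` -/
def Cong {n : ℕ} (m : ℕ) (g : SLn n ℤ) : Prop := ∀ i j, (m : ℤ) ∣ (g.1 - 1) i j

/-- the domain of Mennicke symbols -/
def MW (m : ℕ) (a b : ℤ) : Prop := IsCoprime a b ∧ (m : ℤ) ∣ a - 1 ∧ (m : ℤ) ∣ b

/-- Mennicke symbol -/
structure Menn (m : ℕ) {C : Type} [Group C] (κ : ℤ → ℤ → C) : Prop where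
  one : κ 1 0 = 1
  ms1a : ∀ a b t, MW m a b → (m : ℤ) ∣ t → κ a (b + t * a) = κ a b
  ms1b : ∀ a b t, MW m a b → κ (a + t * b) b = κ a b
  ms2 : ∀ a b b', MW m a b → MW m a b' → κ a (b * b') = κ a b * κ a b'

/-! ### Families of operators with the Steinberg relations -/

/-- exponential of a nilpotent element -/
def nexp {A : Type} [Ring A] [Algebra ℂ A] (x : A) : A :=
  letI : Module ℚ A := Module.compHom A (algebraMap ℚ ℂ)
  IsNilpotent.exp x

section St
variable {V : Type} [AddCommGroup V] [Module ℂ V]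

/-- the off-diagonal generators of `sl_n` -/
structure StRel {n : ℕ} (X : Fin n → Fin n → Module.End ℂ V) : Prop where
  r1 : ∀ i j k, i ≠ j → j ≠ k → i ≠ k → X i j * X j k - X j k * X i j = X i k
  r2 : ∀ i j k l, i ≠ j → k ≠ l → j ≠ k → i ≠ l → Commute (X i j) (X k l)
  nil : ∀ i j, i ≠ j → IsNilpotent (X i j)

/-- irreducibility of a family -/
def StIrr {n : ℕ} (X : Fin n → Fin n → Module.End ℂ V) : Prop :=
  (∃ v : V, v ≠ 0) ∧ ∀ S : Submodule ℂ V, (∀ i j, i ≠ j → ∀ v ∈ S, X i j v ∈ S) → S = ⊥ ∨ S = ⊤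

/-- the coroot operator -/
def Hh {n : ℕ} (X : Fin n → Fin n → Module.End ℂ V) (i j : Fin n) : Module.End ℂ V :=
  X i j * X j i - X j i * X i j

/-- highest weight vector -/
structure IsHW {r : ℕ} (X : Fin (r + 1) → Fin (r + 1) → Module.End ℂ V) (v : V)
    (lam : Fin r → ℕ) : Prop where
  ne : v ≠ 0
  up : ∀ i j, i < j → X i j v = 0
  wt : ∀ i : Fin r, Hh X i.castSucc i.succ v = (lam i : ℂ) • v

/-- `π` integrates the family `X` -/
def Integ {n : ℕ} (X : Fin n → Fin n → Module.End ℂ V) (π : Representation ℂ (SLn n ℤ) V) :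
    Prop := ∀ (i j : Fin n) (h : i ≠ j), π (el h 1) = nexp (X i j)

end St

/-! ### The orbit method over a finite ring -/

section Ring
variable {M : Type} [Ring M]

/-- a symmetric nondegenerate additive character -/
structure Frob (τ : AddChar M ℂ) : Prop where
  comm : ∀ x y, τ (x * y) = τ (y * x)
  nd : ∀ x, (∀ y, τ (x * y) = 1) → x = 0

/-- annihilator -/
def perp (τ : AddChar M ℂ) (J : AddSubgroup M) : AddSubgroup M where
  carrier := {A | ∀ x ∈ J, τ (A * x) = 1}
  zero_mem' := fun x _ => by simp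
  add_mem' := fun {a b} ha hb x hx => by
    rw [add_mul, AddChar.map_add_eq_mul, ha x hx, hb x hx, one_mul]
  neg_mem' := fun {a} ha x hx => by
    have := ha (-x) (neg_mem hx)
    rwa [mul_neg, ← neg_mul] at this

/-- conjugation -/
def cj (g : Mˣ) (A : M) : M := (g : M) * A * ((g⁻¹ : Mˣ) : M)

/-- the group `1 + J` -/
def UU [Finite M] (J : NonUnitalSubring M) : Subgroup Mˣ :=
  have key : ∀ {u v : Mˣ}, (u : M) - 1 ∈ J → (v : M) - 1 ∈ J → ((u * v : Mˣ) : M) - 1 ∈ J := by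
    intro u v hu hv
    have : ((u * v : Mˣ) : M) - 1 = ((u : M) - 1) * ((v : M) - 1) + ((u : M) - 1) + ((v : M) - 1) := by
      rw [Units.val_mul]; noncomm_ring
    rw [this]
    exact add_mem (add_mem (mul_mem hu hv) hu) hv
  { carrier := {u | (u : M) - 1 ∈ J}
    one_mem' := by simp
    mul_mem' := key
    inv_mem' := by
      intro u hu
      have h : ∀ k : ℕ, ((u ^ k : Mˣ) : M) - 1 ∈ J := by
        intro k
        induction k with
        | zero => simp
        | succ k ih => rw [pow_succ]; exact key ih hu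
      have e : u⁻¹ = u ^ (orderOf u - 1) := by
        rw [inv_eq_iff_mul_eq_one, ← pow_succ', Nat.sub_add_cancel (orderOf_pos u), pow_orderOf_eq_one]
      show ((u⁻¹ : Mˣ) : M) - 1 ∈ J
      rw [e]; exact h _ }

lemma mem_UU [Finite M] {J : NonUnitalSubring M} {u : Mˣ} : u ∈ UU J ↔ (u : M) - 1 ∈ J := Iff.rfl

/-- `H` normalises `J` -/
def Norm (H : Subgroup Mˣ) (J : NonUnitalSubring M) : Prop := ∀ h ∈ H, ∀ x ∈ J, cj h x ∈ J

/-- a logarithm on `1 + J` that turns products into sums up to conjugation by `1 + J'` -/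
structure OM [Finite M] (J J' : NonUnitalSubring M) (L : M → M) : Prop where
  unit : ∀ x ∈ J, IsUnit (1 + x)
  zero : L 0 = 0
  bij : Set.BijOn L J J
  conj : ∀ (g : Mˣ) (x : M), x ∈ J → cj g x ∈ J → L (cj g x) = cj g (L x)
  kv : ∃ g h : M → M → Mˣ, (∀ x ∈ J, ∀ y ∈ J, g x y ∈ UU J' ∧ h x y ∈ UU J' ∧
      L (x + y + x * y) = cj (g x y) (L x) + cj (h x y) (L y)) ∧
    Set.InjOn (fun z : M × M => (cj (g z.1 z.2) (L z.1), cj (h z.1 z.2) (L z.2)))
      ((J : Set M) ×ˢ (J : Set M))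

/-- the standing hypotheses of the character theory -/
structure Sit [Finite M] (τ : AddChar M ℂ) (J J' : NonUnitalSubring M) (L : M → M)
    (H : Subgroup Mˣ) : Prop where
  frob : Frob τ
  om : OM J J' L
  le : J ≤ J'
  sub : UU J' ≤ H
  norm : Norm H J
  norm' : Norm H J'

/-- the `K`-orbit of `A` modulo the annihilator of `J` -/
def cls (τ : AddChar M ℂ) (J : NonUnitalSubring M) (K : Subgroup Mˣ) (A : M) : Set M :=
  {B | ∃ g ∈ K, B - cj g A ∈ perp τ J.toAddSubgroup}

/-- the conjugacy class of `A` -/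
def orb (A : M) : Set M := {B | ∃ g : Mˣ, B = cj g A}

/-- the centraliser of `A` -/
def cent (A : M) : Subring M := Subring.centralizer {A}

/-- relative size of the centraliser -/
def cc (A : M) : ℝ := (Nat.card (cent A) : ℝ) / Nat.card M

open Classical in
/-- Fourier coefficient of the restriction of `χ` to `1 + J` -/
def fc [Fintype M] (τ : AddChar M ℂ) (J : NonUnitalSubring M) (L : M → M) (H : Subgroup Mˣ)
    (χ : H → ℂ) (A : M) : ℂ :=
  ∑ u : H, if u.1 ∈ UU J then χ u * τ (-(A * L ((u.1 : M) - 1))) else 0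

/-- Fourier support of the restriction of `χ` to `1 + J` -/
def Sup [Fintype M] (τ : AddChar M ℂ) (J : NonUnitalSubring M) (L : M → M) (H : Subgroup Mˣ)
    (χ : H → ℂ) : Set M := {A | fc τ J L H χ A ≠ 0}

open Classical in
/-- the idempotent attached to the class of `A` -/
def EE [Fintype M] (τ : AddChar M ℂ) (J J' : NonUnitalSubring M) (L : M → M) (H : Subgroup Mˣ)
    {V : Type} [AddCommGroup V] [Module ℂ V] (ρ : Representation ℂ H V) (A : M) :
    Module.End ℂ V :=
  (Nat.card M : ℂ)⁻¹ • ∑ B : M, ∑ u : H, if B ∈ cls τ J (UU J') A ∧ u.1 ∈ UU J then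
    τ (-(B * L ((u.1 : M) - 1))) • ρ u else 0

open Classical in
/-- sum of a real function over a subset of a finite type -/
def sumOn {X : Type} [Fintype X] (T : Set X) (f : X → ℝ) : ℝ := ∑ x ∈ Finset.univ.filter (· ∈ T), f x

/-- the additive span of the commutators of a subring -/
def commS (h : Subring M) : AddSubgroup M :=
  AddSubgroup.closure {z | ∃ x ∈ h, ∃ y ∈ h, z = x * y - y * x}

end Ring

/-! ### Matrices over `ℤ/N` -/

/-- the standard character composed with the trace -/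
def tau (n N : ℕ) [NeZero N] : AddChar (Mat n (ZMod N)) ℂ :=
  (ZMod.stdAddChar (N := N)).compAddMonoidHom (traceAddMonoidHom (Fin n) (ZMod N))

/-- matrices with all entries divisible by `a` -/
def pI (n : ℕ) (R : Type) [CommRing R] (a : R) : NonUnitalSubring (Mat n R) where
  carrier := {x | ∀ i j, a ∣ x i j}
  zero_mem' := fun _ _ => dvd_zero a
  add_mem' := fun hx hy i j => dvd_add (hx i j) (hy i j)
  neg_mem' := fun hx i j => (dvd_neg).2 (hx i j)
  mul_mem' := fun {x y} hx _ i j => by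
    rw [mul_apply]
    exact Finset.dvd_sum (fun k _ => (hx i k).mul_right _)

/-- products of `n` elements of `J` lie in `I` -/
def NilTo {M : Type} [Ring M] (n : ℕ) (J : Set M) (I : Set M) : Prop :=
  ∀ x : Fin n → M, (∀ i, x i ∈ J) → (List.ofFn x).prod ∈ I

/-- scalar matrices -/
def IsScal {n : ℕ} {R : Type} [CommRing R] (A : Mat n R) : Prop := ∃ a : R, A = a • (1 : Mat n R)

/-- matrices that are not scalar modulo `a` -/
def NS (n : ℕ) (R : Type) [CommRing R] (a : R) : Set (Mat n R) :=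
  {A | ¬ ∃ c : R, A - c • (1 : Mat n R) ∈ pI n R a}

/-- reduction from level `m + 1` to level `m` -/
def redM (n p m : ℕ) : Mat n (ZMod (p ^ (m + 1))) →+* Mat n (ZMod (p ^ m)) :=
  (ZMod.castHom (pow_dvd_pow p (Nat.le_succ m)) (ZMod (p ^ m))).mapMatrix

/-- reduction from level `m + 1` to the residue field -/
def redP (n p m : ℕ) : Mat n (ZMod (p ^ (m + 1))) →+* Mat n (ZMod p) :=
  (ZMod.castHom (dvd_pow_self p (Nat.succ_ne_zero m)) (ZMod p)).mapMatrix

/-- the shadow: reduction of the centraliser -/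
def sh (n p m : ℕ) (A : Mat n (ZMod (p ^ (m + 1)))) : Subring (Mat n (ZMod p)) :=
  (cent A).map (redP n p m)

/-- span of the commutators of a subalgebra -/
def commA {F A : Type} [Field F] [Ring A] [Algebra F A] (h : Subalgebra F A) : Submodule F A :=
  Submodule.span F {z | ∃ x ∈ h, ∃ y ∈ h, z = x * y - y * x}

/-- the subgroup of `GL_n` with rows `a`, `b` equal to `z e_a + w e_b`, `z e_b` -/
def H1 {n : ℕ} (F : Type) [Field F] (a b : Fin n) : Set (GLn n F) :=
  {g | (∀ j, j ≠ b → g.1 b j = 0) ∧ (∀ j, j ≠ a → j ≠ b → g.1 a j = 0) ∧ g.1 a a = g.1 b b}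

/-- the linear characters of `H1` that occur -/
def phi {n : ℕ} {F : Type} [Field F] (a b : Fin n) (φ₁ φ₂ : MulChar F ℂ) (ψ : AddChar F ℂ)
    (g : GLn n F) : ℂ := φ₁ g.1.det * φ₂ (g.1 b b) * ψ (g.1 a b * (g.1 b b)⁻¹)

/-! ### The free algebra on two letters -/

section Free
variable {k : Type} [Field k]

/-- a multiplicative filtration of the coefficient field -/
structure Filt (B : ℤ → AddSubgroup k) : Prop where
  anti : Antitone B
  mul : ∀ {i j : ℤ} {c d : k}, c ∈ B i → d ∈ B j → c * d ∈ B (i + j)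
  one : (1 : k) ∈ B 0

abbrev FA (k : Type) [Field k] : Type := MonoidAlgebra k (FreeMonoid Bool)

def fX (k : Type) [Field k] : FA k := MonoidAlgebra.single (FreeMonoid.of true) 1
def fY (k : Type) [Field k] : FA k := MonoidAlgebra.single (FreeMonoid.of false) 1

/-- all terms have weight at least `j`, a letter having weight `b` -/
def InA (B : ℤ → AddSubgroup k) (b : ℕ) (j : ℤ) (f : FA k) : Prop :=
  ∀ w : FreeMonoid Bool, f.coeff w ∈ B (j - b * (w.length : ℤ))

/-- no constant term, all terms have weight at least `j` and are integral or of weight at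
least `t` -/
def InC (B : ℤ → AddSubgroup k) (b : ℕ) (j t : ℤ) (f : FA k) : Prop :=
  f.coeff 1 = 0 ∧ InA B b j f ∧
    ∀ w : FreeMonoid Bool, f.coeff w ∈ B 0 ∨ f.coeff w ∈ B (t - b * (w.length : ℤ))

/-- truncated logarithm of `1 + x` -/
def logT (k : Type) [Field k] {A : Type} [Ring A] [Algebra k A] (T : ℕ) (x : A) : A :=
  ∑ m ∈ Finset.range T, ((-1) ^ m / ((m : k) + 1)) • x ^ (m + 1)

/-- the denominators of the logarithm are harmless -/
structure LogOK (B : ℤ → AddSubgroup k) (b : ℕ) (c₁ : ℤ) : Prop where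
  bpos : 1 ≤ b
  cpos : 1 ≤ c₁
  h1 : ∀ m : ℕ, 2 ≤ m → (m : k)⁻¹ ∈ B (b + 1 - b * m)
  h2 : ∀ m : ℕ, 1 ≤ m → (m : k)⁻¹ ∈ B 0 ∨ (m : k)⁻¹ ∈ B (c₁ + b - b * m)
  h3 : ∀ K : ℤ, ∃ m₀ : ℕ, ∀ m : ℕ, m₀ ≤ m → (m : k)⁻¹ ∈ B (K - b * m)

/-- evaluation -/
def ev (k : Type) [Field k] {A : Type} [Ring A] [Algebra k A] (x y : A) : FA k →ₐ[k] A :=
  MonoidAlgebra.lift k A (FreeMonoid Bool) (FreeMonoid.lift (fun c => if c then x else y))

/-- the universal identity modulo terms of weight `K` -/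
structure KV (B : ℤ → AddSubgroup k) (b : ℕ) (c₁ K : ℤ) (T : ℕ) (a a' c c' : FA k) : Prop where
  ha : InC B b 1 c₁ a
  ha' : InC B b 1 c₁ a'
  hc : InC B b 1 c₁ c
  hc' : InC B b 1 c₁ c'
  i1 : InA B b K ((1 + a) * (1 + a') - 1)
  i2 : InA B b K ((1 + a') * (1 + a) - 1)
  i3 : InA B b K ((1 + c) * (1 + c') - 1)
  i4 : InA B b K ((1 + c') * (1 + c) - 1)
  l0 : InC B b (b + 1) (c₁ + b) (logT k T (fX k) - fX k)
  l1 : InC B b (b + 1) (c₁ + b) ((1 + a) * logT k T (fX k) * (1 + a') - fX k)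
  l2 : InC B b (b + 1) (c₁ + b) ((1 + c) * logT k T (fY k) * (1 + c') - fY k)
  main : InA B b K (logT k T (fX k + fY k + fX k * fY k)
    - (1 + a) * logT k T (fX k) * (1 + a') - (1 + c) * logT k T (fY k) * (1 + c'))

/-- a filtered algebra in which the universal identity is evaluated -/
structure EvData (B : ℤ → AddSubgroup k) (b : ℕ) (c₀ c₁ K₀ : ℤ) {A : Type} [Ring A] [Algebra k A]
    (P : ℤ → AddSubgroup A) (J J' I : AddSubgroup A) : Prop where
  anti : Antitone P
  mul : ∀ {i j : ℤ} {x y : A}, x ∈ P i → y ∈ P j → x * y ∈ P (i + j)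
  smul : ∀ {i j : ℤ} {c : k} {x : A}, c ∈ B i → x ∈ P j → c • x ∈ P (i + j)
  one : (1 : A) ∈ P 0
  JP : J ≤ P b
  PJ : P c₀ ≤ J
  JJ' : J ≤ J'
  PJ' : P c₁ ≤ J'
  Jmul : ∀ x ∈ J, ∀ y ∈ J, x * y ∈ J
  Jsmul : ∀ c ∈ B 0, ∀ x ∈ J, c • x ∈ J
  Ismul : ∀ c ∈ B 0, ∀ x ∈ I, c • x ∈ I
  JI : ∀ x ∈ J, ∀ y ∈ I, x * y ∈ I ∧ y * x ∈ I
  IP : I ≤ P K₀
  PI : P (K₀ + c₀ - b) ≤ I
  c01 : c₀ ≤ c₁ + b

end Free

end Pool.Agent.MP_8299d6_al.Up

end
end

section

open Matrix
open Classical

noncomputable section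

namespace Pool.Agent.MP_8299d6_al.Up

open Pool.Agent.MP_810665_al (IrrChar)

variable {G : Type} [Group G] [Finite G]

theorem zsb_quot (n : ℕ) : ∀ (V : Type) [AddCommGroup V] [Module ℂ V] [FiniteDimensional ℂ V]
    (ρ : Representation ℂ G V) (v : V), Module.finrank ℂ V ≤ n → v ≠ 0 →
    ∃ (U : Type) (_ : AddCommGroup U) (_ : Module ℂ U) (_ : FiniteDimensional ℂ U)
      (τ : Representation ℂ G U) (π : V →ₗ[ℂ] U), τ.IsIrreducible ∧ π v ≠ 0 ∧
      ∀ g w, π (ρ g w) = τ g (π w) := by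
  induction n with
  | zero =>
    intro V _ _ _ ρ v hn hv
    exact absurd (finrank_zero_iff_forall_zero.1 (Nat.le_zero.1 hn) v) hv
  | succ n ih =>
    intro V _ _ _ ρ v hn hv
    have := Fintype.ofFinite G
    have : NeZero (Nat.card G : ℂ) := ⟨MP_810665_al.card_ne_zero⟩
    obtain ⟨S, hS⟩ := MP_810665_al.exists_irreducible_sub ρ ⟨v, hv⟩
    obtain ⟨T, hT⟩ := exists_isCompl S
    have hT' : IsCompl S.toSubmodule T.toSubmodule :=
      ⟨disjoint_iff.2 (congrArg Subrepresentation.toSubmodule hT.inf_eq_bot),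
        codisjoint_iff.2 (congrArg Subrepresentation.toSubmodule hT.sup_eq_top)⟩
    have key : ∀ (S T : Subrepresentation ρ) (h : IsCompl S.toSubmodule T.toSubmodule) (g : G)
        (w : V), S.toSubmodule.projectionOnto _ h (ρ g w) =
          S.toRepresentation g (S.toSubmodule.projectionOnto _ h w) := by
      intro S T h g w
      have : w ∈ S.toSubmodule ⊔ T.toSubmodule := h.sup_eq_top ▸ Submodule.mem_top
      obtain ⟨a, ha, b, hb, rfl⟩ := Submodule.mem_sup.1 this
      rw [map_add, map_add, map_add, Submodule.projectionOnto_apply_of_mem_right h hb,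
        Submodule.projectionOnto_apply_of_mem_right h (T.apply_mem_toSubmodule g hb),
        Submodule.projectionOnto_apply_of_mem_left h ha,
        Submodule.projectionOnto_apply_of_mem_left h (S.apply_mem_toSubmodule g ha),
        add_zero, add_zero]
      rfl
    by_cases h1 : S.toSubmodule.projectionOnto _ hT' v = 0
    · have h2 := (Submodule.projectionOnto_apply_eq_zero_iff hT').1 h1
      have h3 := Submodule.finrank_add_eq_of_isCompl hT'
      have h4 : 0 < Module.finrank ℂ S.toSubmodule := MP_810665_al.finrank_pos_of_irreducible hS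
      obtain ⟨U, _, _, _, τ, π, h5, h6, h7⟩ := ih T.toSubmodule T.toRepresentation ⟨v, h2⟩
        (by omega) fun e => hv (congrArg Subtype.val e)
      refine ⟨U, _, _, inferInstance, τ, π ∘ₗ T.toSubmodule.projectionOnto _ hT'.symm, h5, ?_,
        fun g w => ?_⟩
      · rwa [LinearMap.comp_apply, Submodule.projectionOnto_apply_of_mem_left hT'.symm h2]
      · rw [LinearMap.comp_apply, key, h7, LinearMap.comp_apply]
    · exact ⟨_, _, _, inferInstance, _, _, hS, h1, key S T hT'⟩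

theorem zsb_term (χ : G → ℂ) (s : ℝ) : 0 ≤ ‖χ 1‖ ^ (-s) := Real.rpow_nonneg (norm_nonneg _) _

theorem zsb_inKer {V : Type} [AddCommGroup V] [Module ℂ V] [FiniteDimensional ℂ V]
    {ρ : Representation ℂ G V} (hρ : ρ.IsIrreducible) (x : G) :
    InKer ρ.character x ↔ ρ x = 1 := by
  refine ⟨fun h => ?_, fun h g => by simp [Representation.character, h]⟩
  have := Fintype.ofFinite G
  obtain ⟨c, hc, h1⟩ := MP_810665_al.proj_self hρ
  ext v
  refine smul_right_injective V hc ?_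
  change c • ρ x v = c • v
  rw [← map_smul, ← h1, MP_810665_al.proj_apply, map_sum]
  refine Fintype.sum_equiv (Equiv.mulLeft x) _ _ fun g => ?_
  rw [map_smul, Equiv.coe_mulLeft, map_mul, Module.End.mul_apply, ← h (x * g)⁻¹,
    Representation.char_mul_comm, _root_.mul_inv_rev, inv_mul_cancel_right]

theorem one_le_deg {χ : G → ℂ} (hχ : χ ∈ Irr G) : 1 ≤ ‖χ 1‖ := by
  obtain ⟨d, hd, e⟩ := MP_810665_al.irr_one (mem_Irr.1 hχ)
  rw [e, Complex.norm_natCast]
  exact_mod_cast hd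

theorem Zs_nonneg (P : (G → ℂ) → Prop) (s : ℝ) : 0 ≤ Zs G P s := by
  exact Finset.sum_nonneg fun χ _ => zsb_term χ s

theorem Zs_mono {P Q : (G → ℂ) → Prop} (h : ∀ χ ∈ Irr G, P χ → Q χ) (s : ℝ) :
    Zs G P s ≤ Zs G Q s := by
  refine Finset.sum_le_sum_of_subset_of_nonneg (fun χ hχ => ?_) fun χ _ _ => zsb_term χ s
  rw [Finset.mem_filter] at hχ ⊢
  exact ⟨hχ.1, h χ hχ.1 hχ.2⟩

theorem Zs_or {P Q R : (G → ℂ) → Prop} (h : ∀ χ ∈ Irr G, P χ → Q χ ∨ R χ) (s : ℝ) :
    Zs G P s ≤ Zs G Q s + Zs G R s := by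
  refine (Zs_mono h s).trans ?_
  simp only [Zs, Finset.sum_filter, ← Finset.sum_add_distrib]
  refine Finset.sum_le_sum fun χ _ => ?_
  have := zsb_term χ s
  by_cases h1 : Q χ <;> by_cases h2 : R χ <;> simp [h1, h2, this]

theorem card_Irr_le : (Irr G).card ≤ Nat.card G := by
  have := Fintype.ofFinite G
  rw [Nat.card_eq_fintype_card]
  exact MP_810665_al.card_le_of_factor _ (fun χ hχ => mem_Irr.1 hχ) id fun χ _ g h e => congrArg χ e

theorem Zs_le_card (P : (G → ℂ) → Prop) {s : ℝ} (hs : 0 ≤ s) : Zs G P s ≤ Nat.card G := by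
  refine (Finset.sum_le_card_nsmul _ _ 1 fun χ hχ => Real.rpow_le_one_of_one_le_of_nonpos
    (one_le_deg (Finset.mem_filter.1 hχ).1) (neg_nonpos.2 hs)).trans ?_
  rw [nsmul_eq_mul, mul_one]
  exact_mod_cast (Finset.card_filter_le _ _).trans card_Irr_le

/-- transport along a surjection whose kernel acts trivially -/
theorem Zs_le_of_surj {Q : Type} [Group Q] [Finite Q] (π : G →* Q) (hπ : Function.Surjective π)
    {P : (G → ℂ) → Prop} {P' : (Q → ℂ) → Prop}
    (h1 : ∀ χ ∈ Irr G, P χ → ∀ x, π x = 1 → InKer χ x)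
    (h2 : ∀ χ' ∈ Irr Q, P (χ' ∘ π) → P' χ') (s : ℝ) : Zs G P s ≤ Zs Q P' s := by
  have e : Zs Q P' s = ∑ χ ∈ ((Irr Q).filter P').image (· ∘ π), ‖χ 1‖ ^ (-s) := by
    rw [Finset.sum_image fun a _ b _ h => hπ.injective_comp_right h]
    simp only [Function.comp_apply, map_one, Zs]
  rw [e]
  refine Finset.sum_le_sum_of_subset_of_nonneg (fun χ hχ => ?_) fun χ _ _ => zsb_term χ s
  obtain ⟨hχ, hP⟩ := Finset.mem_filter.1 hχ
  have h3 := h1 χ hχ hP
  obtain ⟨V, _, _, _, ρ, hρ, rfl⟩ := mem_Irr.1 hχ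
  have key : ∀ x y, π x = π y → ρ x = ρ y := fun x y e => by
    have := (zsb_inKer hρ (x * y⁻¹)).1 (h3 _ (by rw [map_mul, map_inv, e, mul_inv_cancel]))
    rw [← inv_mul_cancel_right x y, map_mul, this, one_mul]
  let σ : Representation ℂ Q V :=
    { toFun := fun q => ρ (Function.surjInv hπ q)
      map_one' := (key _ 1 (by rw [Function.surjInv_eq hπ, map_one])).trans (map_one ρ)
      map_mul' := fun a b => (key _ (Function.surjInv hπ a * Function.surjInv hπ b) (by
        simp only [map_mul, Function.surjInv_eq hπ])).trans (map_mul ρ _ _) }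
  have e1 : σ.comp π = ρ := MonoidHom.ext fun x => key _ _ (Function.surjInv_eq hπ _)
  have e2 : σ.character ∘ π = ρ.character := e1 ▸ rfl
  have h4 : σ.character ∈ Irr Q := mem_Irr.2 ⟨V, _, _, inferInstance, σ,
    (MP_810665_al.irreducible_comp_iff π hπ σ).1 (e1 ▸ hρ), rfl⟩
  exact Finset.mem_image.2 ⟨_, Finset.mem_filter.2 ⟨h4, h2 _ h4 (e2 ▸ hP)⟩, e2⟩

theorem inKer_iff {V : Type} [AddCommGroup V] [Module ℂ V] [FiniteDimensional ℂ V]
    {ρ : Representation ℂ G V} (hρ : ρ.IsIrreducible) (x : G) :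
    InKer ρ.character x ↔ ρ x = 1 := by
  exact zsb_inKer hρ x

/-- the kernel of an irreducible character is a normal subgroup -/
theorem exists_ker {χ : G → ℂ} (hχ : χ ∈ Irr G) :
    ∃ N : Subgroup G, N.Normal ∧ ∀ x, x ∈ N ↔ InKer χ x := by
  obtain ⟨V, _, _, _, ρ, hρ, rfl⟩ := mem_Irr.1 hχ
  exact ⟨MonoidHom.ker ρ, inferInstance, fun x => (inKer_iff hρ x).symm⟩

theorem Zs_triv {s : ℝ} : Zs G (fun χ => ∀ x, InKer χ x) s ≤ 1 := by
  refine (Finset.sum_le_sum_of_subset_of_nonneg (t := {fun _ => 1}) (fun χ hχ => ?_)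
    fun χ _ _ => zsb_term χ s).trans (by simp)
  obtain ⟨hχ, hP⟩ := Finset.mem_filter.1 hχ
  obtain ⟨V, _, _, _, ρ, hρ, rfl⟩ := mem_Irr.1 hχ
  exact Finset.mem_singleton.2 (MP_810665_al.char_of_trivial hρ fun g v => by
    rw [(inKer_iff hρ g).1 (hP g), Module.End.one_apply])

theorem char_inv {V : Type} [AddCommGroup V] [Module ℂ V] [FiniteDimensional ℂ V]
    (ρ : Representation ℂ G V) (g : G) : ρ.character g⁻¹ = (starRingEnd ℂ) (ρ.character g) := by
  have := Fintype.ofFinite G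
  let b := Module.finBasis ℂ V
  let M : G → Matrix _ _ ℂ := fun g => LinearMap.toMatrix b b (ρ g)
  have hM : ∀ g h, M (g * h) = M g * M h := fun g h => by
    simp only [M, map_mul, LinearMap.toMatrix_mul]
  have h1 : M 1 = 1 := by simp only [M, map_one, LinearMap.toMatrix_one]
  obtain ⟨u, hu⟩ : IsUnit (∑ h, (M h)ᴴ * M h) := by
    open ComplexOrder in
    refine PosDef.isUnit ?_
    rw [← Finset.add_sum_erase _ _ (Finset.mem_univ 1), h1, conjTranspose_one, mul_one]
    exact PosDef.one.add_posSemidef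
      (posSemidef_sum _ fun h _ => posSemidef_conjTranspose_mul_self _)
  have h2 : (M g)ᴴ * u = u * M g⁻¹ := by
    rw [hu, Finset.mul_sum, Finset.sum_mul]
    refine Fintype.sum_equiv (Equiv.mulRight g) _ _ fun h => ?_
    rw [Equiv.coe_mulRight, mul_assoc, ← hM, mul_inv_cancel_right, hM, conjTranspose_mul, mul_assoc]
  simp only [Representation.character, LinearMap.trace_eq_matrix_trace ℂ b]
  change trace (M g⁻¹) = star (trace (M g))
  rw [← trace_conjTranspose, ← trace_units_conj' u (M g)ᴴ, mul_assoc, h2,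
    Units.inv_mul_cancel_left]

/-- convolution of irreducible characters -/
theorem conv_char [Fintype G] {χ ψ : G → ℂ} (hχ : χ ∈ Irr G) (hψ : ψ ∈ Irr G) (x : G) :
    χ 1 * ∑ g, χ g⁻¹ * ψ (g * x) = if χ = ψ then (Nat.card G : ℂ) * ψ x else 0 := by
  have h1 := mem_Irr.1 hχ
  have h2 := mem_Irr.1 hψ
  obtain ⟨V, _, _, _, ρ, hρ, rfl⟩ := mem_Irr.1 hψ
  obtain ⟨c, h3, h4⟩ := MP_810665_al.proj_scalar hρ (MP_810665_al.irr_conj h1)
  have h5 : MP_810665_al.proj χ ρ * ρ x = c • ρ x := LinearMap.ext fun v => h3 _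
  have h6 := congrArg (LinearMap.trace ℂ V) h5
  simp only [MP_810665_al.proj, Finset.sum_mul, smul_mul_assoc, ← map_mul, map_sum, map_smul,
    smul_eq_mul] at h6
  have h7 : ∑ g, χ g⁻¹ * ρ.character (g * x) = c * ρ.character x := h6
  rw [h7]
  split_ifs with e
  · subst e
    rw [← MP_810665_al.irr_norm h2, ← h4, Representation.char_one]
    ring
  · rw [MP_810665_al.irr_orth h2 h1 (Ne.symm e)] at h4
    rw [(mul_eq_zero.1 h4).resolve_right
      (Nat.cast_ne_zero.2 (MP_810665_al.finrank_pos_of_irreducible hρ).ne'), zero_mul, mul_zero]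

/-- an irreducible representation of a subgroup occurs in an irreducible representation of the
group -/
theorem exists_over {S : Type} [Group S] (ι : S →* G) (hι : Function.Injective ι)
    {W : Type} [AddCommGroup W] [Module ℂ W] [FiniteDimensional ℂ W]
    (σ : Representation ℂ S W) (hσ : σ.IsIrreducible) :
    ∃ (V : Type) (_ : AddCommGroup V) (_ : Module ℂ V) (_ : FiniteDimensional ℂ V)
      (ρ : Representation ℂ G V) (T : W →ₗ[ℂ] V), ρ.IsIrreducible ∧ Function.Injective T ∧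
      ∀ x w, T (σ x w) = ρ (ι x) (T w) := by
  have := Finite.of_injective ι hι
  have := Fintype.ofFinite S
  obtain ⟨⟨w, hw⟩, hW⟩ := (MP_810665_al.irreducible_iff σ).1 hσ
  obtain ⟨l, hl⟩ := not_forall.1 (mt (Module.forall_dual_apply_eq_zero_iff ℂ w).1 hw)
  let T : W →ₗ[ℂ] G → ℂ := LinearMap.pi fun g => ∑ s, if ι s = g then l ∘ₗ σ s else 0
  have hT : ∀ w g, T w g = ∑ s, if ι s = g then l (σ s w) else 0 := fun w g => by
    simp only [T, LinearMap.pi_apply, LinearMap.sum_apply]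
    exact Finset.sum_congr rfl fun s _ => by split_ifs <;> rfl
  have h1 : ∀ x w, T (σ x w) = rt G (ι x) (T w) := fun x w => funext fun g => by
    rw [rt_apply, hT, hT]
    refine Fintype.sum_equiv (Equiv.mulRight x) _ _ fun s => ?_
    simp only [Equiv.coe_mulRight, map_mul, mul_left_inj, Module.End.mul_apply]
  obtain ⟨U, _, _, _, τ, π, h2, h3, h4⟩ := zsb_quot _ _ (rt G) (T w) le_rfl fun e => hl (by
    have := congrFun e 1
    simpa [hT, map_eq_one_iff ι hι] using this)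
  refine ⟨U, _, _, inferInstance, τ, π ∘ₗ T, h2, LinearMap.ker_eq_bot.1 ?_, fun x w => by
    rw [LinearMap.comp_apply, h1, h4, LinearMap.comp_apply]⟩
  refine (hW _ fun x v hv => ?_).resolve_right fun e => h3 (LinearMap.mem_ker.1 (e.ge trivial))
  rw [LinearMap.mem_ker, LinearMap.comp_apply] at hv ⊢
  rw [h1, h4, hv, map_zero]

theorem Zs_prod (H : Type) [Group H] [Finite H] (s : ℝ) :
    Zs (G × H) (fun _ => True) s ≤ Zs G (fun _ => True) s * Zs H (fun _ => True) s := by
  have := Fintype.ofFinite G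
  have := Fintype.ofFinite H
  simp only [Zs, Finset.filter_true, Finset.sum_mul_sum, ← Finset.sum_product']
  refine (Finset.sum_le_sum_of_subset_of_nonneg
    (t := (Irr G ×ˢ Irr H).image fun z => MP_810665_al.extMul z.1 z.2) (fun θ hθ => ?_)
    fun χ _ _ => zsb_term χ s).trans (le_of_eq ?_)
  · obtain ⟨χ, hχ, ψ, hψ, rfl⟩ := MP_810665_al.exists_extMul (mem_Irr.1 hθ)
    exact Finset.mem_image.2 ⟨(χ, ψ), Finset.mem_product.2 ⟨mem_Irr.2 hχ, mem_Irr.2 hψ⟩, rfl⟩
  · rw [Finset.sum_image fun a ha b hb e => by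
      rw [Finset.mem_coe, Finset.mem_product, mem_Irr, mem_Irr] at ha hb
      exact Prod.ext_iff.2 (MP_810665_al.extMul_inj ha.1 hb.1 ha.2 hb.2 e)]
    refine Finset.sum_congr rfl fun z _ => ?_
    rw [← Real.mul_rpow (norm_nonneg _) (norm_nonneg _), ← norm_mul]
    rfl

end Pool.Agent.MP_8299d6_al.Up

end
end

section

/-! General facts on characters of finite groups used in `Rt3`. -/

open Matrix
open Classical

noncomputable section

namespace Pool.Agent.MP_8299d6_al.Up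

open Pool.Agent.MP_810665_al

variable {G : Type} [Group G] [Fintype G]

lemma rt3_inv {χ : G → ℂ} (hχ : χ ∈ Irr G) (g : G) : χ g⁻¹ = (starRingEnd ℂ) (χ g) := by
  obtain ⟨V, _, _, _, ρ, hρ, rfl⟩ := mem_Irr.1 hχ
  exact char_inv ρ g

lemma rt3_comm {χ : G → ℂ} (hχ : χ ∈ Irr G) (g h : G) : χ (g * h) = χ (h * g) := by
  have := irr_conj (mem_Irr.1 hχ) (g * h) h
  rw [← this]
  congr 1
  group

/-- the norm of a restricted character -/
lemma rt3_res_ge {χ : G → ℂ} (hχ : χ ∈ Irr G) (N : Subgroup G) :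
    (Nat.card N : ℝ) ≤ ∑ u : G, if u ∈ N then ‖χ u‖ ^ 2 else 0 := by
  obtain ⟨V, _, _, _, ρ, hρ, rfl⟩ := mem_Irr.1 hχ
  let σ : Representation ℂ N V := ρ.comp N.subtype
  have h1 := Representation.card_inv_mul_sum_char_mul_char_eq_finrank σ σ
  obtain ⟨v₀, hv₀⟩ := ((irreducible_iff ρ).1 hρ).1
  have hid : (Representation.IntertwiningMap.id σ) ≠ 0 := fun h => hv₀ (by
    simpa using congrArg (fun f : Representation.IntertwiningMap σ σ => f v₀) h)
  have : Nontrivial (Representation.IntertwiningMap σ σ) := ⟨_, _, hid⟩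
  have h2 : 0 < Module.finrank ℂ (Representation.IntertwiningMap σ σ) := Module.finrank_pos
  have h3 : ∀ g : N, σ.character g * σ.character g⁻¹ = ((‖ρ.character g.1‖ ^ 2 : ℝ) : ℂ) := by
    intro g
    rw [char_inv σ g, Complex.mul_conj, Complex.normSq_eq_norm_sq]
    rfl
  simp only [h3] at h1
  rw [inv_mul_eq_iff_eq_mul₀ card_ne_zero] at h1
  have h4 : ∑ g : N, ‖ρ.character g.1‖ ^ 2 =
      Nat.card N * Module.finrank ℂ (Representation.IntertwiningMap σ σ) := by
    exact_mod_cast h1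
  have h5 : ∑ u : G, (if u ∈ N then ‖ρ.character u‖ ^ 2 else 0) =
      ∑ g : N, ‖ρ.character g.1‖ ^ 2 := by
    rw [← Finset.sum_filter]
    exact Finset.sum_subtype _ (by simp) _
  rw [h5, h4]
  have h6 : (1 : ℝ) ≤ Module.finrank ℂ (Representation.IntertwiningMap σ σ) := by
    exact_mod_cast h2
  nlinarith [Nat.cast_nonneg (α := ℝ) (Nat.card N)]

/-- Bessel's inequality for characters with proportional restrictions -/
lemma rt3_bessel (s : Finset (G → ℂ)) (hs : s ⊆ Irr G) (P : G → Prop) (Φ : G → ℂ)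
    (lam : (G → ℂ) → ℂ) (h : ∀ χ ∈ s, ∀ u, P u → χ u = lam χ * Φ u) :
    ∑ χ ∈ s, ∑ u : G, (if P u then ‖χ u‖ ^ 2 else 0) ≤ Nat.card G := by
  set a : ℝ := ∑ χ ∈ s, ‖lam χ‖ ^ 2 with ha
  set σ : ℝ := ∑ u : G, (if P u then ‖Φ u‖ ^ 2 else 0) with hσ
  have ha0 : 0 ≤ a := Finset.sum_nonneg fun _ _ => by positivity
  have h1 : ∑ χ ∈ s, ∑ u : G, (if P u then ‖χ u‖ ^ 2 else 0) = a * σ := by
    rw [ha, Finset.sum_mul]
    refine Finset.sum_congr rfl fun χ hχ => ?_
    rw [hσ, Finset.mul_sum]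
    refine Finset.sum_congr rfl fun u _ => ?_
    split_ifs with hu
    · rw [h χ hχ u hu, norm_mul, mul_pow]
    · simp
  let T : G → ℂ := fun g => ∑ χ ∈ s, (starRingEnd ℂ) (lam χ) * χ g
  have h2 : ∑ g, ‖T g‖ ^ 2 = Nat.card G * a := by
    have e : ∀ g, ((‖T g‖ ^ 2 : ℝ) : ℂ) =
        ∑ χ ∈ s, ∑ ψ ∈ s, (starRingEnd ℂ) (lam χ) * lam ψ * (χ g * ψ g⁻¹) := by
      intro g
      rw [← Complex.normSq_eq_norm_sq, ← Complex.mul_conj]
      simp only [T, map_sum, map_mul, Complex.conj_conj, Finset.sum_mul_sum]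
      refine Finset.sum_congr rfl fun χ _ => Finset.sum_congr rfl fun ψ hψ => ?_
      rw [rt3_inv (hs hψ)]
      ring
    have e2 : ((∑ g, ‖T g‖ ^ 2 : ℝ) : ℂ) = ((Nat.card G * a : ℝ) : ℂ) := by
      rw [Complex.ofReal_sum]
      simp only [e]
      rw [Finset.sum_comm, ha, Finset.mul_sum, Complex.ofReal_sum]
      refine Finset.sum_congr rfl fun χ hχ => ?_
      rw [Finset.sum_comm, Finset.sum_eq_single χ]
      · rw [← Finset.mul_sum, irr_norm (mem_Irr.1 (hs hχ)), Complex.conj_mul']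
        push_cast
        ring
      · intro ψ hψ hne
        rw [← Finset.mul_sum, irr_orth (mem_Irr.1 (hs hχ)) (mem_Irr.1 (hs hψ)) hne.symm, mul_zero]
      · intro hn
        exact absurd hχ hn
    exact_mod_cast e2
  have h3 : a ^ 2 * σ ≤ ∑ g, ‖T g‖ ^ 2 := by
    rw [hσ, Finset.mul_sum]
    refine Finset.sum_le_sum fun g _ => ?_
    split_ifs with hg
    · have e : T g = (a : ℂ) * Φ g := by
        simp only [T, ha, Complex.ofReal_sum, Finset.sum_mul]
        refine Finset.sum_congr rfl fun χ hχ => ?_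
        rw [h χ hχ g hg, ← mul_assoc, Complex.conj_mul']
        push_cast
        ring
      rw [e, norm_mul, mul_pow, Complex.norm_real, Real.norm_eq_abs, sq_abs]
    · rw [mul_zero]; positivity
  rw [h1]
  rcases ha0.eq_or_lt with h0 | h0
  · rw [← h0, zero_mul]; positivity
  · rw [h2] at h3
    nlinarith

/-- independence of irreducible characters -/
lemma rt3_card_le {X : Type} [Fintype X] (s : Finset (G → ℂ)) (hs : s ⊆ Irr G) (p : G → X)
    (w : G → ℂ) (F : (G → ℂ) → X → ℂ) (hF : ∀ χ ∈ s, ∀ g, χ g = F χ (p g) * w g) :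
    s.card ≤ Fintype.card X := by
  have hli : LinearIndependent ℂ (fun χ : s => F χ) := by
    rw [Fintype.linearIndependent_iff]
    intro c hc ψ
    have h2 : ∑ g, (∑ χ : s, c χ • F χ) (p g) * w g * ψ.1 g⁻¹ = 0 := by
      rw [hc]
      simp
    simp only [Finset.sum_apply, Pi.smul_apply, smul_eq_mul, Finset.sum_mul] at h2
    have h3 : ∀ (g : G) (χ : s), c χ * F χ (p g) * w g * ψ.1 g⁻¹ = c χ * (χ.1 g * ψ.1 g⁻¹) := by
      intro g χ
      rw [hF χ χ.2 g]
      ring
    simp only [h3] at h2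
    rw [Finset.sum_comm, Finset.sum_eq_single ψ] at h2
    · rw [← Finset.mul_sum, irr_norm (mem_Irr.1 (hs ψ.2))] at h2
      exact (mul_eq_zero.1 h2).resolve_right card_ne_zero
    · intro χ _ hne
      rw [← Finset.mul_sum, irr_orth (mem_Irr.1 (hs χ.2)) (mem_Irr.1 (hs ψ.2))
        (fun h => hne (Subtype.ext h)), mul_zero]
    · simp
  simpa using hli.fintype_card_le_finrank

section op
variable {V : Type} [AddCommGroup V] [Module ℂ V]

/-- the operator attached to a function -/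
def rt3op (ρ : Representation ℂ G V) (a : G → ℂ) : Module.End ℂ V := ∑ y, a y • ρ y

/-- convolution -/
def rt3cv (a b : G → ℂ) (z : G) : ℂ := ∑ y, a y * b (y⁻¹ * z)

lemma rt3op_mul (ρ : Representation ℂ G V) (a b : G → ℂ) :
    rt3op ρ a * rt3op ρ b = rt3op ρ (rt3cv a b) := by
  simp only [rt3op, rt3cv, Finset.sum_smul]
  rw [Finset.sum_mul_sum, Finset.sum_comm (f := fun z y => (a y * b (y⁻¹ * z)) • ρ z)]
  refine Finset.sum_congr rfl fun y _ => ?_
  refine Fintype.sum_equiv (Equiv.mulLeft y) _ _ fun w => ?_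
  simp [mul_smul, smul_comm (b w) (a y)]

lemma rt3cv_eq (a b : G → ℂ) (z : G) : rt3cv a b z = ∑ w, a (z * w⁻¹) * b w := by
  unfold rt3cv
  refine (Fintype.sum_equiv ((Equiv.inv G).trans (Equiv.mulLeft z)) _ _ fun w => ?_).symm
  simp

lemma rt3op_smul (ρ : Representation ℂ G V) (c : ℂ) (a : G → ℂ) :
    c • rt3op ρ a = rt3op ρ (fun y => c * a y) := by
  simp only [rt3op, Finset.smul_sum, mul_smul]

lemma rt3op_trace [FiniteDimensional ℂ V] (ρ : Representation ℂ G V) (a : G → ℂ) (z : G) :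
    LinearMap.trace ℂ V (rt3op ρ a * ρ z) = ∑ y, a y * ρ.character (y * z) := by
  simp [rt3op, Finset.sum_mul, Representation.character]

end op

/-- the regular representation -/
def rt3reg (G : Type) [Group G] : Representation ℂ G (G → ℂ) where
  toFun g := LinearMap.funLeft ℂ ℂ (fun x => g⁻¹ * x)
  map_one' := by ext f x; simp
  map_mul' g h := by ext f x; simp [mul_assoc]

lemma rt3op_inj {a b : G → ℂ} (h : rt3op (rt3reg G) a = rt3op (rt3reg G) b) : a = b := by
  have key : ∀ (a : G → ℂ) (z : G), rt3op (rt3reg G) a (Pi.single 1 1) z = a z := by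
    intro a z
    simp only [rt3op, rt3reg, LinearMap.sum_apply, LinearMap.smul_apply, MonoidHom.coe_mk,
      OneHom.coe_mk, Finset.sum_apply, Pi.smul_apply, LinearMap.funLeft_apply, smul_eq_mul]
    rw [Finset.sum_eq_single z]
    · simp
    · intro y _ hy
      rw [Pi.single_eq_of_ne (by
        intro e
        exact hy (inv_mul_eq_one.1 e)), mul_zero]
    · simp
  funext z
  rw [← key a z, ← key b z, h]

end Pool.Agent.MP_8299d6_al.Up

end
end

section

open Matrix

noncomputable section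

namespace Pool.Agent.MP_8299d6_al.Up

open Pool.Agent.MP_810665_al (IrrChar)

/-! ### a nilpotent set of `n × n` matrices has vanishing products of length `n` -/

section Chain
variable {n : ℕ} {F : Type} [Field F] {A : Type} [Ring A]

/-- vectors killed by all products of length `k` -/
def ss1W (φ : A →+* Mat n F) (S : Set A) (k : ℕ) : Submodule F (Fin n → F) where
  carrier := {v | ∀ l : List A, l.length = k → (∀ x ∈ l, x ∈ S) → φ l.prod *ᵥ v = 0}
  zero_mem' := fun l _ _ => mulVec_zero _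
  add_mem' := fun {a b} ha hb l hl hS => by rw [mulVec_add, ha l hl hS, hb l hl hS, add_zero]
  smul_mem' := fun c v hv l hl hS => by rw [mulVec_smul, hv l hl hS, smul_zero]

lemma ss1_mem {φ : A →+* Mat n F} {S : Set A} {k : ℕ} {v : Fin n → F} :
    v ∈ ss1W φ S k ↔ ∀ l : List A, l.length = k → (∀ x ∈ l, x ∈ S) → φ l.prod *ᵥ v = 0 :=
  Iff.rfl

lemma ss1_mono (φ : A →+* Mat n F) (S : Set A) (k : ℕ) : ss1W φ S k ≤ ss1W φ S (k + 1) := by
  intro v hv
  rw [ss1_mem] at hv ⊢
  intro l hl hS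
  obtain _ | ⟨x, l⟩ := l
  · simp at hl
  · rw [List.prod_cons, map_mul, ← mulVec_mulVec,
      hv l (by simpa using hl) (fun y hy => hS y (List.mem_cons_of_mem _ hy)), mulVec_zero]

lemma ss1_stab (φ : A →+* Mat n F) (S : Set A) (k : ℕ) (h : ss1W φ S (k + 1) ≤ ss1W φ S k) :
    ss1W φ S (k + 2) ≤ ss1W φ S (k + 1) := by
  intro v hv
  rw [ss1_mem] at hv ⊢
  intro l hl hS
  obtain rfl | ⟨l, x, rfl⟩ := l.eq_nil_or_concat
  · simp at hl
  · have hx : x ∈ S := hS x (by simp)
    have h1 : φ x *ᵥ v ∈ ss1W φ S (k + 1) := by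
      rw [ss1_mem]
      intro m hm hmS
      have := hv (m ++ [x]) (by simp [hm]) (by
        intro y hy
        rcases List.mem_append.1 hy with hy | hy
        · exact hmS y hy
        · rw [List.mem_singleton.1 hy]; exact hx)
      rwa [List.prod_append, List.prod_singleton, map_mul, ← mulVec_mulVec] at this
    have h2 := ss1_mem.1 (h h1) l (by simpa using hl) (fun y hy => hS y (by simp [hy]))
    rwa [List.concat_eq_append, List.prod_append, List.prod_singleton, map_mul, ← mulVec_mulVec]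

lemma ss1_stab' (φ : A →+* Mat n F) (S : Set A) (k : ℕ) (h : ss1W φ S (k + 1) ≤ ss1W φ S k)
    (m : ℕ) : ss1W φ S (k + m + 1) ≤ ss1W φ S (k + m) ∧ ss1W φ S (k + m) ≤ ss1W φ S k := by
  induction m with
  | zero => exact ⟨h, le_rfl⟩
  | succ m ih => exact ⟨ss1_stab φ S (k + m) ih.1, ih.1.trans ih.2⟩

lemma ss1_top (φ : A →+* Mat n F) (S : Set A) (N : ℕ) (hN : ss1W φ S N = ⊤) :
    ss1W φ S n = ⊤ := by
  have mono : Monotone (ss1W φ S) := monotone_nat_of_le_succ (ss1_mono φ S)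
  have key : ∀ k, ss1W φ S k = ⊤ ∨ k ≤ Module.finrank F (ss1W φ S k) := by
    intro k
    induction k with
    | zero => exact Or.inr (Nat.zero_le _)
    | succ k ih =>
      by_cases h : ss1W φ S (k + 1) ≤ ss1W φ S k
      · left
        rw [eq_top_iff, ← hN]
        exact ((mono (Nat.le_add_left N k)).trans (ss1_stab' φ S k h N).2).trans (ss1_mono φ S k)
      · rcases ih with ih | ih
        · exact absurd (ih ▸ le_top) h
        · right
          have := Submodule.finrank_lt_finrank_of_lt (lt_of_le_not_ge (ss1_mono φ S k) h)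
          omega
  rcases key n with h | h
  · exact h
  · apply Submodule.eq_top_of_finrank_eq
    have := Submodule.finrank_le (ss1W φ S n)
    simp only [Module.finrank_fin_fun] at this ⊢
    omega

lemma ss1_list_mem (J : Ideal A) [J.IsTwoSided] (l : List A) (hl : ∀ x ∈ l, x ∈ J) :
    l.prod ∈ J ^ l.length := by
  induction l with
  | nil => simp [Submodule.pow_zero]
  | cons x l ih =>
    rw [List.prod_cons, List.length_cons, Ideal.IsTwoSided.pow_succ]
    exact Ideal.mul_mem_mul (hl x (by simp)) (ih fun y hy => hl y (List.mem_cons_of_mem _ hy))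

lemma ss1_nil (φ : A →+* Mat n F) (hφ : Function.Injective φ) (J : Ideal A) [J.IsTwoSided]
    (hJ : IsNilpotent J) (x : Fin n → A) (hx : ∀ i, x i ∈ J) : (List.ofFn x).prod = 0 := by
  obtain ⟨N, hN⟩ := hJ
  have h1 : ss1W φ (J : Set A) N = ⊤ := by
    rw [eq_top_iff]
    intro v _
    rw [ss1_mem]
    intro l hl hS
    have := ss1_list_mem J l hS
    rw [hl, hN] at this
    have h0 : l.prod = 0 := by simpa using this
    rw [h0, map_zero, zero_mulVec]
  have h2 := ss1_top φ _ N h1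
  apply hφ
  rw [map_zero]
  ext i j
  have h3 : (Pi.single j 1 : Fin n → F) ∈ ss1W φ (J : Set A) n := h2 ▸ Submodule.mem_top
  have h4 := ss1_mem.1 h3 (List.ofFn x) (by simp) (by
    intro y hy
    obtain ⟨i, rfl⟩ := List.mem_ofFn.1 hy
    exact hx i)
  have := congrFun h4 i
  simpa using this

end Chain

/-- the radical of a proper subring of `M_n(F_p)` and its semisimple quotient -/
theorem ss_struct (n p : ℕ) [Fact p.Prime] (h : Subring (Mat n (ZMod p))) :
    ∃ (ι : Type) (_ : Fintype ι) (_ : DecidableEq ι) (d : ι → ℕ) (K : ι → Type)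
      (_ : ∀ i, Field (K i)) (_ : ∀ i, Fintype (K i)) (_ : ∀ i, Algebra (ZMod p) (K i))
      (π : h →+* (∀ i, Mat (d i) (K i))), (∀ i, 0 < d i) ∧ Function.Surjective π ∧
      (∀ x : Fin n → h, (∀ i, π (x i) = 0) → (List.ofFn x).prod = 0) ∧
      (∀ I : AddSubgroup h, (∀ x : h, ∀ y ∈ I, x * y ∈ I ∧ y * x ∈ I) →
        NilTo n (I : Set h) {0} → ∀ y ∈ I, π y = 0) := by
  classical
  have : IsArtinianRing h := isArtinian_of_finite
  obtain ⟨m, D, d, _, hd, ⟨e⟩⟩ :=
    IsSemisimpleRing.exists_ringEquiv_pi_matrix_divisionRing (h ⧸ Ring.jacobson h)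
  let π : h →+* (∀ i, Matrix (Fin (d i)) (Fin (d i)) (D i)) :=
    e.toRingHom.comp (Ideal.Quotient.mk (Ring.jacobson h))
  have hπ : Function.Surjective π := e.surjective.comp Ideal.Quotient.mk_surjective
  have hker : ∀ y : h, π y = 0 ↔ y ∈ Ring.jacobson h := by
    intro y
    rw [← Ideal.Quotient.eq_zero_iff_mem]
    exact e.map_eq_zero_iff
  have hfin : Finite (∀ i, Matrix (Fin (d i)) (Fin (d i)) (D i)) := Finite.of_surjective π hπ
  have hD : ∀ i, Finite (D i) := by
    intro i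
    have := hd i
    refine Finite.of_surjective
      (fun z : (∀ i, Matrix (Fin (d i)) (Fin (d i)) (D i)) => z i 0 0) (fun c => ?_)
    exact ⟨Pi.single i (fun _ _ => c), by simp⟩
  have hchar : ∀ i, CharP (D i) p := by
    intro i
    have := hd i
    rw [CharP.charP_iff_prime_eq_zero Fact.out]
    have h0 : (p : h) = 0 := by
      apply Subtype.ext
      simp only [SubringClass.coe_natCast, ZeroMemClass.coe_zero]
      ext a b
      simp [Matrix.natCast_apply]
    have h1 : (p : ∀ i, Matrix (Fin (d i)) (Fin (d i)) (D i)) = 0 := by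
      rw [← map_natCast π, h0, map_zero]
    have h2 := congrFun (congrFun (congrFun h1 i) 0) 0
    simpa [Matrix.natCast_apply] using h2
  refine ⟨Fin m, inferInstance, inferInstance, d, D, fun i => littleWedderburn (D i),
    fun i => Fintype.ofFinite _, fun i => ZMod.algebra (D i) p, π,
    fun i => Nat.pos_of_ne_zero (hd i).out, hπ, ?_, ?_⟩
  · intro x hx
    exact ss1_nil h.subtype h.subtype_injective (Ring.jacobson h)
      IsSemiprimaryRing.isNilpotent x (fun i => (hker _).1 (hx i))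
  · intro I hI hnil y hy
    rw [hker, ← Ideal.jacobson_bot, Ideal.mem_jacobson_iff]
    intro x
    have h1 : IsNilpotent (x * y) := by
      refine ⟨n, ?_⟩
      have := hnil (fun _ => x * y) (fun _ => (hI x y hy).1)
      simpa using this
    obtain ⟨u, hu⟩ := h1.isUnit_add_one
    refine ⟨(u⁻¹ : hˣ), ?_⟩
    rw [Ideal.mem_bot, mul_assoc, ← mul_add_one, ← hu, Units.inv_mul, sub_self]

/-! ### separability elements -/

/-- a separability element, tested on biadditive maps -/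
def ss1Sep (A : Type) [Ring A] : Prop :=
  ∃ (S : Type) (_ : Fintype S) (a b : S → A), ∑ s, a s * b s = 1 ∧
    ∀ (W : Type) [AddCommGroup W] (γ : A →+ A →+ W) (x : A),
      ∑ s, γ (x * a s) (b s) = ∑ s, γ (a s) (b s * x)

lemma ss1_field (K : Type) [Field K] [Fintype K] : ss1Sep K := by
  classical
  refine ⟨Kˣ, inferInstance, fun u => -(u : K), fun u => ((u⁻¹ : Kˣ) : K), ?_, ?_⟩
  · simp only [neg_mul, Units.mul_inv, Finset.sum_neg_distrib, Finset.sum_const, Finset.card_univ,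
      nsmul_eq_mul, mul_one]
    rw [Fintype.card_units, Nat.cast_sub Fintype.card_pos, FiniteField.cast_card_eq_zero]
    simp
  · intro W _ γ x
    by_cases hx : x = 0
    · simp [hx]
    · refine Fintype.sum_equiv (Equiv.mulLeft (Units.mk0 x hx)) _ _ (fun u => ?_)
      simp only [Equiv.coe_mulLeft, Units.val_mul, Units.val_mk0, mul_neg, _root_.mul_inv_rev,
        Units.val_inv_eq_inv_val]
      rw [mul_assoc, inv_mul_cancel₀ hx, mul_one]

lemma ss1_matrix (d : ℕ) (K : Type) [Ring K] (hK : ss1Sep K) : ss1Sep (Mat d K) := by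
  classical
  obtain rfl | hd := Nat.eq_zero_or_pos d
  · exact ⟨Empty, inferInstance, fun s => s.elim, fun s => s.elim, Subsingleton.elim _ _,
      fun W _ γ x => by simp⟩
  obtain ⟨S, _, a, b, h1, h2⟩ := hK
  let o : Fin d := ⟨0, hd⟩
  refine ⟨Fin d × S, inferInstance, fun s => single s.1 o (a s.2), fun s => single o s.1 (b s.2),
    ?_, ?_⟩
  · simp only [single_mul_single_same, Fintype.sum_prod_type]
    ext i j
    simp only [Matrix.sum_apply, single_apply, one_apply]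
    rw [Finset.sum_eq_single i]
    · by_cases hij : i = j
      · simp [hij, h1]
      · simp [hij]
    · intro k _ hk
      simp [hk]
    · simp
  · intro W _ γ x
    have e1 : ∀ (j : Fin d) (c : K), x * single j o c = ∑ k, single k o (x k j * c) := by
      intro j c
      ext r t
      simp only [Matrix.sum_apply, single_apply, mul_apply]
      rw [Finset.sum_eq_single j, Finset.sum_eq_single r]
      · by_cases ht : o = t <;> simp [ht]
      · intro k _ hk; simp [hk]
      · simp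
      · intro k _ hk; simp [Ne.symm hk]
      · simp
    have e2 : ∀ (k : Fin d) (c : K), single o k c * x = ∑ j, single o j (c * x k j) := by
      intro k c
      ext r t
      simp only [Matrix.sum_apply, single_apply, mul_apply]
      rw [Finset.sum_eq_single k, Finset.sum_eq_single t]
      · by_cases ht : o = r <;> simp [ht]
      · intro j _ hj; simp [hj]
      · simp
      · intro j _ hj; simp [Ne.symm hj]
      · simp
    simp only [Fintype.sum_prod_type, e1, e2, map_sum, AddMonoidHom.finsetSum_apply]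
    have e3 : ∀ j k : Fin d, ∑ s, γ (single k o (x k j * a s)) (single o j (b s)) =
        ∑ s, γ (single k o (a s)) (single o j (b s * x k j)) := fun j k =>
      h2 W ((γ.comp (singleAddMonoidHom k o)).compl₂ (singleAddMonoidHom o j)) (x k j)
    calc ∑ j, ∑ s, ∑ k, γ (single k o (x k j * a s)) (single o j (b s))
        = ∑ j, ∑ k, ∑ s, γ (single k o (x k j * a s)) (single o j (b s)) :=
          Finset.sum_congr rfl fun j _ => Finset.sum_comm
      _ = ∑ j, ∑ k, ∑ s, γ (single k o (a s)) (single o j (b s * x k j)) := by simp only [e3]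
      _ = ∑ k, ∑ j, ∑ s, γ (single k o (a s)) (single o j (b s * x k j)) := Finset.sum_comm
      _ = ∑ k, ∑ s, ∑ j, γ (single k o (a s)) (single o j (b s * x k j)) :=
          Finset.sum_congr rfl fun j _ => Finset.sum_comm

lemma ss1_pi {ι : Type} [Fintype ι] [DecidableEq ι] (R : ι → Type) [∀ i, Ring (R i)]
    (hR : ∀ i, ss1Sep (R i)) : ss1Sep (∀ i, R i) := by
  choose S fS a b h1 h2 using hR
  refine ⟨Σ i, S i, inferInstance, fun s => Pi.single s.1 (a s.1 s.2),
    fun s => Pi.single s.1 (b s.1 s.2), ?_, ?_⟩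
  · simp only [Fintype.sum_sigma, ← Pi.single_mul]
    have : ∀ i, ∑ s, (Pi.single i (a i s * b i s) : ∀ i, R i) = Pi.single i 1 := by
      intro i
      rw [← h1 i]
      exact (map_sum (AddMonoidHom.single R i) _ _).symm
    simp only [this]
    exact Finset.univ_sum_single 1
  · intro W _ γ x
    simp only [Fintype.sum_sigma, ← Pi.single_mul_right, ← Pi.single_mul_left]
    exact Finset.sum_congr rfl fun i _ =>
      h2 i W ((γ.comp (AddMonoidHom.single R i)).compl₂ (AddMonoidHom.single R i)) (x i)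

lemma ss1_inner {A : Type} [Ring A] (hA : ss1Sep A) {W : Type} [AddCommGroup W]
    (β : A →+ A →+ W) (hβ : ∀ x y z, β (x * y) z = β x (y * z) + β y (z * x)) :
    ∃ μ : A →+ W, ∀ x y, β x y = μ (x * y - y * x) := by
  obtain ⟨S, _, a, b, h1, h2⟩ := hA
  refine ⟨∑ s, (β (a s)).comp (AddMonoidHom.mulLeft (b s)), fun x y => ?_⟩
  have h3 := h2 W (β.compl₂ (AddMonoidHom.mulRight y)) x
  simp only [AddMonoidHom.compl₂_apply, AddMonoidHom.coe_mulRight, hβ, Finset.sum_add_distrib,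
    ← map_sum, ← mul_assoc, ← Finset.sum_mul, h1, one_mul] at h3
  simp only [map_sub, AddMonoidHom.finsetSum_apply, AddMonoidHom.comp_apply,
    AddMonoidHom.coe_mulLeft, ← mul_assoc]
  exact eq_sub_of_add_eq h3

/-- cyclic cocycles on a product of matrix rings of small size are inner -/
theorem cocycle_inner (p : ℕ) [Fact p.Prime] (hp : 3 ≤ p) {ι : Type} [Fintype ι] [DecidableEq ι]
    (d : ι → ℕ) (hd : ∀ i, d i < p) (K : ι → Type) [∀ i, Field (K i)] [∀ i, Fintype (K i)]
    [∀ i, Algebra (ZMod p) (K i)] {W : Type} [AddCommGroup W]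
    (β : (∀ i, Mat (d i) (K i)) →+ (∀ i, Mat (d i) (K i)) →+ W)
    (hβ : ∀ x y z, β (x * y) z = β x (y * z) + β y (z * x)) :
    ∃ μ : (∀ i, Mat (d i) (K i)) →+ W, ∀ x y, β x y = μ (x * y - y * x) :=
  ss1_inner (ss1_pi _ fun i => ss1_matrix (d i) (K i) (ss1_field (K i))) β hβ

end Pool.Agent.MP_8299d6_al.Up

end
end

section

open Matrix
open Polynomial

noncomputable section

namespace Pool.Agent.MP_8299d6_al.Up

open Pool.Agent.MP_810665_al (IrrChar)

open UniqueFactorizationMonoid in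
lemma cc_ideals {K : Type} [Field K] {μ : K[X]} (hμ : μ ≠ 0) :
    ∃ T : Finset (Ideal K[X]), T.card ≤ 2 ^ μ.natDegree ∧ ∀ I : Ideal K[X], μ ∈ I → I ∈ T := by
  classical
  refine ⟨((normalizedFactors μ).powerset.map fun s => Ideal.span {s.prod}).toFinset, ?_,
    fun I hI => ?_⟩
  · refine (Multiset.toFinset_card_le _).trans ?_
    rw [Multiset.card_map, Multiset.card_powerset]
    refine Nat.pow_le_pow_right two_pos ?_
    have h1 : (normalizedFactors μ).prod.natDegree = μ.natDegree :=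
      natDegree_eq_of_degree_eq (degree_eq_degree_of_associated (prod_normalizedFactors hμ))
    rw [← h1, natDegree_multiset_prod _ (zero_notMem_normalizedFactors μ),
      ← Multiset.card_map natDegree, ← mul_one (Multiset.card _), ← smul_eq_mul]
    refine Multiset.card_nsmul_le_sum fun n hn => ?_
    obtain ⟨q, hq, rfl⟩ := Multiset.mem_map.1 hn
    exact (irreducible_of_normalized_factor q hq).natDegree_pos
  · obtain ⟨q, rfl⟩ : ∃ q, I = Ideal.span {q} := ⟨_, (Ideal.span_singleton_generator I).symm⟩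
    rw [Ideal.mem_span_singleton] at hI
    have hq : q ≠ 0 := ne_zero_of_dvd_ne_zero hμ hI
    rw [Multiset.mem_toFinset, Multiset.mem_map]
    exact ⟨normalizedFactors q, Multiset.mem_powerset.2
      ((dvd_iff_normalizedFactors_le_normalizedFactors hq hμ).1 hI),
      Ideal.span_singleton_eq_span_singleton.2 (prod_normalizedFactors hq)⟩

lemma cc_struct {K V : Type} [Field K] [AddCommGroup V] [Module K[X] V] [Module K V]
    [IsScalarTower K K[X] V] [Module.Finite K V] {μ : K[X]} (hμ : μ ≠ 0) (h : ∀ v : V, μ • v = 0) :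
    ∃ (ι : Type) (_ : Fintype ι) (I : ι → Ideal K[X]), (∀ i, μ ∈ I i) ∧
      Fintype.card ι ≤ Module.finrank K V ∧ Nonempty (V ≃ₗ[K[X]] ∀ i, K[X] ⧸ I i) := by
  classical
  have : Module.Finite K[X] V := Module.Finite.of_restrictScalars_finite K _ _
  obtain ⟨ι, _, p, -, e, ⟨E⟩⟩ := Module.equiv_directSum_of_isTorsion (R := K[X]) (M := V)
    fun v => ⟨⟨μ, mem_nonZeroDivisors_of_ne_zero hμ⟩, h v⟩
  let J : ι → Ideal K[X] := fun i => K[X] ∙ p i ^ e i
  let E1 : V ≃ₗ[K[X]] ∀ i, K[X] ⧸ J i := E.trans (DirectSum.linearEquivFunOnFintype _ _ _)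
  let F : (∀ i, K[X] ⧸ J i) →ₗ[K[X]] ∀ i : {i // J i ≠ ⊤}, K[X] ⧸ J i.1 :=
    LinearMap.pi fun i => LinearMap.proj i.1
  have hF : Function.Bijective F := by
    refine ⟨fun v w hvw => funext fun i => ?_, fun w => ?_⟩
    · by_cases hi : J i = ⊤
      · exact (Ideal.Quotient.subsingleton_iff.2 hi).elim _ _
      · exact congrFun hvw ⟨i, hi⟩
    · refine ⟨fun i => if hi : J i = ⊤ then 0 else w ⟨i, hi⟩, funext fun i => ?_⟩
      exact dif_neg i.2
  let E2 := E1.trans (LinearEquiv.ofBijective F hF)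
  refine ⟨{i // J i ≠ ⊤}, inferInstance, fun i => J i.1, fun i => ?_, ?_, ⟨E2⟩⟩
  · have h1 := congrArg E2 (h (E2.symm fun _ => 1))
    rw [map_smul, LinearEquiv.apply_symm_apply, map_zero] at h1
    have h2 : μ • (1 : K[X] ⧸ J i.1) = 0 := congrFun h1 i
    rwa [← Algebra.algebraMap_eq_smul_one, Ideal.Quotient.algebraMap_eq,
      Ideal.Quotient.eq_zero_iff_mem] at h2
  · have hf : Module.Finite K (∀ i : {i // J i ≠ ⊤}, K[X] ⧸ J i.1) :=
      Module.Finite.equiv (E2.restrictScalars K)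
    have hf' : ∀ i : {i // J i ≠ ⊤}, Module.Finite K (K[X] ⧸ J i.1) := fun i =>
      Module.Finite.of_surjective
        (LinearMap.proj (R := K) (φ := fun i : {i // J i ≠ ⊤} => K[X] ⧸ J i.1) i)
        (LinearMap.proj_surjective i)
    rw [(E2.restrictScalars K).finrank_eq, Module.finrank_pi_fintype, ← Finset.card_univ,
      Finset.card_eq_sum_ones]
    refine Finset.sum_le_sum fun i _ => ?_
    have : Nontrivial (K[X] ⧸ J i.1) := Ideal.Quotient.nontrivial_iff.2 i.2
    exact Module.finrank_pos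

lemma cc_canon {R ι : Type} [CommRing R] [Fintype ι] (T : Finset (Ideal R)) (I : ι → Ideal R)
    (hI : ∀ i, I i ∈ T) : ∃ n : T → ℕ, (∀ t, n t ≤ Fintype.card ι) ∧
      Nonempty ((∀ i, R ⧸ I i) ≃ₗ[R] ∀ j : (Σ t : T, Fin (n t)), R ⧸ j.1.1) := by
  classical
  let f : ι → T := fun i => ⟨I i, hI i⟩
  let e : (Σ t : T, Fin (Fintype.card {i // f i = t})) ≃ ι :=
    (Equiv.sigmaCongrRight fun t => (Fintype.equivFin _).symm).trans (Equiv.sigmaFiberEquiv f)
  have he : ∀ j, I (e j) = j.1.1 := fun j =>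
    congrArg Subtype.val ((Fintype.equivFin {i // f i = j.1}).symm j.2).2
  exact ⟨fun t => Fintype.card {i // f i = t}, fun t => Fintype.card_subtype_le _,
    ⟨(LinearEquiv.piCongrLeft R (fun i => R ⧸ I i) e).symm.trans
      (LinearEquiv.piCongrRight fun j => Submodule.quotEquivOfEq _ _ (he j))⟩⟩

lemma cc_conj {K : Type} [Field K] {m : ℕ} {x y : Mat m K}
    (E : Module.AEval' (toLinAlgEquiv' x) ≃ₗ[K[X]] Module.AEval' (toLinAlgEquiv' y)) :
    ∃ g : (Mat m K)ˣ, (g : Mat m K) * x = y * g := by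
  let G : (Fin m → K) ≃ₗ[K] (Fin m → K) := (Module.AEval'.of (toLinAlgEquiv' x)).trans
    ((E.restrictScalars K).trans (Module.AEval'.of (toLinAlgEquiv' y)).symm)
  have hG : ∀ v, G (toLinAlgEquiv' x v) = toLinAlgEquiv' y (G v) := fun v => by
    simp only [G, LinearEquiv.trans_apply, LinearEquiv.restrictScalars_apply]
    rw [← Module.AEval'.X_smul_of, map_smul, Module.AEval'.of_symm_X_smul]
  refine ⟨Units.map (toLinAlgEquiv' (R := K) (n := Fin m)).symm.toAlgHom.toMonoidHom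
    (LinearMap.GeneralLinearGroup.ofLinearEquiv G), ?_⟩
  apply (toLinAlgEquiv' (R := K) (n := Fin m)).injective
  rw [map_mul, map_mul]
  have h1 : toLinAlgEquiv' ((Units.map (toLinAlgEquiv' (R := K) (n := Fin m)).symm.toAlgHom.toMonoidHom
    (LinearMap.GeneralLinearGroup.ofLinearEquiv G) : (Mat m K)ˣ) : Mat m K) = G.toLinearMap :=
    (toLinAlgEquiv' (R := K) (n := Fin m)).apply_symm_apply _
  rw [h1]
  exact LinearMap.ext hG

/-- matrices killed by a fixed polynomial fall into boundedly many conjugacy classes -/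
theorem class_count (d : ℕ) : ∃ k : ℕ, ∀ m ≤ d, ∀ (K : Type) [Field K] (μ : K[X]), μ ≠ 0 →
    μ.natDegree ≤ d → ∃ c : Mat m K → Fin k, ∀ x y : Mat m K, aeval x μ = 0 → aeval y μ = 0 →
      c x = c y → ∃ g : (Mat m K)ˣ, (g : Mat m K) * x = y * g := by
  classical
  refine ⟨(d + 1) ^ 2 ^ d, fun m hm K _ μ hμ hd => ?_⟩
  obtain ⟨T, hT, hT'⟩ := cc_ideals hμ
  have key : ∀ x : Mat m K, ∃ n : T → Fin (d + 1), aeval x μ = 0 →
      Nonempty (Module.AEval' (toLinAlgEquiv' x) ≃ₗ[K[X]]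
        ∀ j : (Σ t : T, Fin (n t)), K[X] ⧸ j.1.1) := fun x => by
    by_cases hx : aeval x μ = 0
    · obtain ⟨ι, _, I, h1, h2, ⟨E⟩⟩ := cc_struct (V := Module.AEval' (toLinAlgEquiv' x)) hμ
        fun v => by
          obtain ⟨v, rfl⟩ := (Module.AEval'.of (toLinAlgEquiv' x)).surjective v
          rw [← Module.AEval.of_aeval_smul, aeval_algHom_apply, hx, map_zero, zero_smul, map_zero]
      rw [← (Module.AEval'.of (toLinAlgEquiv' x)).finrank_eq, Module.finrank_fin_fun] at h2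
      obtain ⟨n, h3, ⟨E'⟩⟩ := cc_canon T I fun i => hT' _ (h1 i)
      exact ⟨fun t => ⟨n t, by have := h3 t; omega⟩, fun _ => ⟨E.trans E'⟩⟩
    · exact ⟨0, fun h => absurd h hx⟩
  choose n hn using key
  obtain ⟨emb⟩ : Nonempty ((T → Fin (d + 1)) ↪ Fin ((d + 1) ^ 2 ^ d)) := by
    refine Function.Embedding.nonempty_of_card_le ?_
    rw [Fintype.card_fun, Fintype.card_fin, Fintype.card_fin, Fintype.card_coe]
    exact Nat.pow_le_pow_right (Nat.succ_pos d) (hT.trans (Nat.pow_le_pow_right two_pos hd))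
  refine ⟨fun x => emb (n x), fun x y hx hy h => ?_⟩
  obtain ⟨Ex⟩ := hn x hx
  obtain ⟨Ey⟩ := hn y hy
  rw [emb.injective h] at Ex
  exact cc_conj (Ex.trans Ey.symm)

end Pool.Agent.MP_8299d6_al.Up

end
end

section

open Matrix

noncomputable section

namespace Pool.Agent.MP_8299d6_al.Up

open Pool.Agent.MP_810665_al (IrrChar)

section Aux

open Polynomial

/-- a biadditive map killing the kernel in both variables descends -/
lemma ss2_desc {G A W : Type} [AddCommGroup G] [AddCommGroup A] [AddCommGroup W] (π : G →+ A)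
    (hπ : Function.Surjective π) (β : G →+ G →+ W)
    (hβ : ∀ x y, π x = 0 → β x y = 0 ∧ β y x = 0) :
    ∃ γ : A →+ A →+ W, ∀ x y, γ (π x) (π y) = β x y := by
  have h1 : π.ker ≤ β.ker := fun x hx => AddMonoidHom.ext fun y => (hβ x y hx).1
  obtain ⟨β1, e1⟩ : ∃ β1 : A →+ G →+ W, ∀ x, β1 (π x) = β x :=
    ⟨π.liftOfSurjective hπ ⟨β, h1⟩, fun x =>
      AddMonoidHom.liftOfRightInverse_comp_apply π _ _ ⟨β, h1⟩ x⟩
  have h2 : π.ker ≤ β1.flip.ker := fun y hy => AddMonoidHom.ext fun a => by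
    obtain ⟨x, rfl⟩ := hπ a
    show β1 (π x) y = 0
    rw [e1]
    exact (hβ y x hy).2
  obtain ⟨β2, e2⟩ : ∃ β2 : A →+ A →+ W, ∀ y, β2 (π y) = β1.flip y :=
    ⟨π.liftOfSurjective hπ ⟨β1.flip, h2⟩, fun y =>
      AddMonoidHom.liftOfRightInverse_comp_apply π _ _ ⟨β1.flip, h2⟩ y⟩
  refine ⟨β2.flip, fun x y => ?_⟩
  show β2 (π y) (π x) = β x y
  rw [e2]
  show β1 (π x) y = β x y
  rw [e1]

/-- monic polynomials are determined by their lower coefficients -/
lemma ss2_monic {R : Type} [Semiring R] {f g : R[X]} {m : ℕ} (hf : f.Monic) (hg : g.Monic)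
    (h1 : f.natDegree = m) (h2 : g.natDegree = m) (h : ∀ j : Fin m, f.coeff j = g.coeff j) :
    f = g := by
  ext j
  rcases lt_trichotomy j m with hj | hj | hj
  · exact h ⟨j, hj⟩
  · have e1 := hf.coeff_natDegree
    have e2 := hg.coeff_natDegree
    rw [h1] at e1
    rw [h2] at e2
    rw [hj, e1, e2]
  · rw [coeff_eq_zero_of_natDegree_lt (h1 ▸ hj), coeff_eq_zero_of_natDegree_lt (h2 ▸ hj)]

/-- the statement of the class count -/
def Ss2CC (n k : ℕ) : Prop := ∀ m ≤ n, ∀ (K : Type) [Field K] (μ : K[X]), μ ≠ 0 →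
  μ.natDegree ≤ n → ∃ c : Mat m K → Fin k, ∀ x y : Mat m K, aeval x μ = 0 → aeval y μ = 0 →
    c x = c y → ∃ g : (Mat m K)ˣ, (g : Mat m K) * x = y * g

variable {ι : Type} {d : ι → ℕ} {K : ι → Type} [∀ i, Field (K i)]

lemma ss2_cls {n k : ℕ} (hk : Ss2CC n k) (hd : ∀ i, d i ≤ n) {H Y : Type}
    (π : H → ∀ i, Mat (d i) (K i)) (a : H → Y) (μ : H → ∀ i, (K i)[X])
    (h0 : ∀ x i, μ x i ≠ 0) (h1 : ∀ x i, (μ x i).natDegree ≤ n)
    (h2 : ∀ x i, aeval (π x i) (μ x i) = 0) (h3 : ∀ x y, a x = a y → μ x = μ y) :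
    ∃ c : H → Y × (ι → Fin k), ∀ x y, c x = c y →
      ∃ g : ∀ i, Mat (d i) (K i), IsUnit g ∧ g * π x = π y * g := by
  have key : ∀ (i : ι) (ν : {ν : (K i)[X] // ν ≠ 0 ∧ ν.natDegree ≤ n}),
      ∃ c : Mat (d i) (K i) → Fin k, ∀ x y : Mat (d i) (K i), aeval x ν.1 = 0 → aeval y ν.1 = 0 →
        c x = c y → ∃ g : (Mat (d i) (K i))ˣ, (g : Mat (d i) (K i)) * x = y * g :=
    fun i ν => hk (d i) (hd i) (K i) ν.1 ν.2.1 ν.2.2
  choose cc hcc using key
  refine ⟨fun x => (a x, fun i => cc i ⟨μ x i, h0 x i, h1 x i⟩ (π x i)), fun x y hxy => ?_⟩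
  have e1 := h3 x y (congrArg Prod.fst hxy)
  have e2 := congrArg Prod.snd hxy
  have e3 : ∀ i, ∃ g : (Mat (d i) (K i))ˣ, (g : Mat (d i) (K i)) * π x i = π y i * g := by
    intro i
    have e4 : (⟨μ y i, h0 y i, h1 y i⟩ : {ν : (K i)[X] // ν ≠ 0 ∧ ν.natDegree ≤ n}) =
        ⟨μ x i, h0 x i, h1 x i⟩ := Subtype.ext (congrFun e1 i).symm
    refine hcc i ⟨μ x i, h0 x i, h1 x i⟩ _ _ (h2 x i) ?_ ?_
    · show aeval (π y i) (μ x i) = 0
      rw [e1]
      exact h2 y i
    · have e5 : cc i ⟨μ x i, h0 x i, h1 x i⟩ (π x i) = cc i ⟨μ y i, h0 y i, h1 y i⟩ (π y i) :=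
        congrFun e2 i
      rw [e5, e4]
  choose g hg using e3
  exact ⟨fun i => g i, Pi.isUnit_iff.2 fun i => (g i).isUnit, funext hg⟩

/-- the image of the kernel -/
def ss2J {M A : Type} [Ring M] [Ring A] (h : Subring M) (π : h →+* A) : AddSubgroup M :=
  π.toAddMonoidHom.ker.map h.subtype.toAddMonoidHom

lemma ss2J_mem {M A : Type} [Ring M] [Ring A] {h : Subring M} {π : h →+* A} {y : M} :
    y ∈ ss2J h π ↔ ∃ x : h, π x = 0 ∧ x.1 = y := Iff.rfl

lemma ss2J_coe {M A : Type} [Ring M] [Ring A] {h : Subring M} {π : h →+* A} {x : h} :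
    x.1 ∈ ss2J h π ↔ π x = 0 :=
  ⟨fun ⟨_, h1, h2⟩ => Subtype.ext h2 ▸ h1, fun h1 => ⟨x, h1, rfl⟩⟩

lemma ss2_prod {M : Type} [Ring M] {h : Subring M} {n : ℕ} (x : Fin n → h) :
    ((List.ofFn x).prod : h).1 = (List.ofFn fun i => (x i).1).prod := by
  have := map_list_prod h.subtype (List.ofFn x)
  rw [List.map_ofFn] at this
  exact this

/-- units lift along a surjection with nil kernel -/
lemma ss2_unit {M A : Type} [Ring M] [Finite M] [Ring A] {h : Subring M} {π : h →+* A} {n : ℕ}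
    (hπ : Function.Surjective π)
    (hn : ∀ x : Fin n → h, (∀ i, π (x i) = 0) → (List.ofFn x).prod = 0) {g : h}
    (hg : IsUnit (π g)) : IsUnit g.1 := by
  obtain ⟨u, hu⟩ := hg
  obtain ⟨g', hg'⟩ := hπ ((u⁻¹ : Aˣ) : A)
  have h1 : π (1 - g * g') = 0 := by
    rw [map_sub, map_one, map_mul, ← hu, hg', Units.mul_inv, sub_self]
  have h2 := hn (fun _ => 1 - g * g') fun _ => h1
  rw [List.ofFn_const, List.prod_replicate] at h2
  have h3 := IsNilpotent.isUnit_one_sub ⟨n, h2⟩
  rw [sub_sub_cancel] at h3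
  exact (isUnit_of_mul_isUnit_left h3).map h.subtype

lemma ss2_fin {M : Type} [Ring M] [Finite M] [Fintype ι] [DecidableEq ι] {h : Subring M}
    {π : h →+* ∀ i, Mat (d i) (K i)} {n k : ℕ} (hk : Ss2CC n k) (hd : ∀ i, d i ≤ n)
    (hπ : Function.Surjective π)
    (hn : ∀ x : Fin n → h, (∀ i, π (x i) = 0) → (List.ofFn x).prod = 0) {Y : Type} [Fintype Y]
    (a : h → Y) (μ : h → ∀ i, (K i)[X]) (h0 : ∀ x i, μ x i ≠ 0)
    (h1 : ∀ x i, (μ x i).natDegree ≤ n) (h2 : ∀ x i, aeval (π x i) (μ x i) = 0)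
    (h3 : ∀ x y, a x = a y → μ x = μ y) :
    ∃ c : M → Fin (Fintype.card Y * k ^ Fintype.card ι), ∀ x ∈ h, ∀ y ∈ h, c x = c y →
      ∃ g ∈ h, IsUnit g ∧ g * x - y * g ∈ ss2J h π := by
  classical
  obtain ⟨c, hc⟩ := ss2_cls hk hd π a μ h0 h1 h2 h3
  have e : Y × (ι → Fin k) ≃ Fin (Fintype.card Y * k ^ Fintype.card ι) :=
    Fintype.equivFinOfCardEq (by simp)
  refine ⟨fun x => if hx : x ∈ h then e (c ⟨x, hx⟩) else e (c 0), fun x hx y hy hxy => ?_⟩
  simp only [dif_pos hx, dif_pos hy] at hxy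
  obtain ⟨g, hg, hg'⟩ := hc _ _ (e.injective hxy)
  obtain ⟨g', rfl⟩ := hπ g
  refine ⟨g'.1, g'.2, ss2_unit hπ hn hg, ?_⟩
  refine ⟨g' * ⟨x, hx⟩ - ⟨y, hy⟩ * g', ?_, rfl⟩
  show π _ = 0
  rw [map_sub, map_mul, map_mul, hg', sub_self]

/-- the traces are onto and kill the kernel and the commutators -/
lemma ss2_tr {M : Type} [Ring M] [Finite M] [Fintype ι] [∀ i, Fintype (K i)] {h : Subring M}
    {π : h →+* ∀ i, Mat (d i) (K i)} (hd : ∀ i, 0 < d i) (hπ : Function.Surjective π) :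
    (∏ i, Fintype.card (K i)) * Nat.card (ss2J h π ⊔ commS h : AddSubgroup M) ≤ Nat.card h := by
  classical
  obtain ⟨t, ht⟩ : ∃ t : h →+ ∀ i, K i, ∀ x i, t x i = (π x i).trace :=
    ⟨AddMonoidHom.pi fun i => (traceAddMonoidHom _ _).comp
      ((Pi.evalAddMonoidHom _ i).comp π.toAddMonoidHom), fun _ _ => rfl⟩
  have h1 : t.range = ⊤ := by
    rw [AddMonoidHom.range_eq_top]
    intro a
    obtain ⟨x, hx⟩ := hπ fun i => single ⟨0, hd i⟩ ⟨0, hd i⟩ (a i)
    refine ⟨x, funext fun i => ?_⟩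
    rw [ht, hx]
    exact trace_single_eq_same _ _
  have h2 : ss2J h π ⊔ commS h ≤ t.ker.map h.subtype.toAddMonoidHom := by
    refine sup_le ?_ ((AddSubgroup.closure_le _).2 ?_)
    · rintro _ ⟨x, hx, rfl⟩
      refine ⟨x, funext fun i => ?_, rfl⟩
      have hx' : π x = 0 := hx
      rw [ht, hx']
      exact trace_zero _ _
    · rintro _ ⟨x, hx, y, hy, rfl⟩
      refine ⟨⟨x, hx⟩ * ⟨y, hy⟩ - ⟨y, hy⟩ * ⟨x, hx⟩, funext fun i => ?_, rfl⟩
      rw [ht, map_sub, map_mul, map_mul, Pi.sub_apply, Pi.mul_apply, Pi.mul_apply, trace_sub,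
        trace_mul_comm, sub_self]
      rfl
  have h3 := AddSubgroup.card_le_of_le h2
  rw [AddSubgroup.card_map_of_injective h.subtype_injective] at h3
  have h4 := t.ker.card_mul_index
  rw [AddSubgroup.index_ker, h1, AddSubgroup.card_top, Nat.card_eq_fintype_card (α := ∀ i, K i),
    Fintype.card_pi] at h4
  rw [← h4, mul_comm]
  exact Nat.mul_le_mul_right _ h3

lemma ss2_card {n p : ℕ} [Fact p.Prime] [Fintype ι] [∀ i, Fintype (K i)]
    {h : Subring (Mat n (ZMod p))} (hh : h ≠ ⊤) {π : h →+* ∀ i, Mat (d i) (K i)}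
    (hπ : Function.Surjective π) : ∏ i, Fintype.card (K i) ^ (d i * d i) < p ^ (n * n) := by
  classical
  have h1 := Nat.card_le_card_of_surjective π hπ
  have h2 : Nat.card h < Nat.card (Mat n (ZMod p)) := by
    obtain ⟨x, hx⟩ : ∃ x, x ∉ h := by
      by_contra hc
      push Not at hc
      exact hh ((Subring.eq_top_iff' h).2 hc)
    exact Finite.card_subtype_lt hx
  have h3 : ∀ (m : ℕ) (R : Type) [Fintype R], Nat.card (Mat m R) = Fintype.card R ^ (m * m) := by
    intro m R _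
    show Nat.card (Fin m → Fin m → R) = _
    simp [pow_mul]
  rw [h3, ZMod.card] at h2
  rw [Nat.card_pi] at h1
  simp only [h3] at h1
  exact h1.trans_lt h2

lemma ss2_ch {n p : ℕ} [Fact p.Prime] [∀ i, Algebra (ZMod p) (K i)]
    {h : Subring (Mat n (ZMod p))} (π : h →+* ∀ i, Mat (d i) (K i)) (x : h) (i : ι) :
    aeval (π x i) (x.1.charpoly.map (algebraMap (ZMod p) (K i))) = 0 := by
  have hm : ∀ a : ZMod p, algebraMap (ZMod p) (Mat n (ZMod p)) a ∈ h := fun a => by
    rw [← ZMod.natCast_zmod_val a, map_natCast]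
    exact natCast_mem h _
  have h1 : x.1.charpoly.eval₂ ((algebraMap (ZMod p) (Mat n (ZMod p))).codRestrict h hm) x = 0 := by
    apply h.subtype_injective
    rw [hom_eval₂, map_zero]
    exact x.1.aeval_self_charpoly
  have h2 := congrArg ((Pi.evalRingHom _ i).comp π) h1
  rw [hom_eval₂, map_zero] at h2
  rw [aeval_def, eval₂_map, ← h2]
  congr 1
  exact RingHom.ext_zmod _ _

end Aux

theorem ss (n : ℕ) (hn : 2 ≤ n) : ∃ C : ℕ, ∀ (p : ℕ) [Fact p.Prime], n < p → 3 ≤ p →
    ∀ h : Subring (Mat n (ZMod p)), h ≠ ⊤ → ∃ J : AddSubgroup (Mat n (ZMod p)),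
      (∀ y ∈ J, y ∈ h) ∧ (∀ x ∈ h, ∀ y ∈ J, x * y ∈ J ∧ y * x ∈ J) ∧ NilTo n (J : Set (Mat n (ZMod p))) {0} ∧
      (∀ I : AddSubgroup (Mat n (ZMod p)), (∀ y ∈ I, y ∈ h) →
        (∀ x ∈ h, ∀ y ∈ I, x * y ∈ I ∧ y * x ∈ I) → NilTo n (I : Set (Mat n (ZMod p))) {0} → I ≤ J) ∧
      (∀ (W : Type) [AddCommGroup W] (β : h →+ h →+ W), (∀ x y : h, x.1 ∈ J → β x y = 0 ∧ β y x = 0) →
        (∀ x y z, β (x * y) z = β x (y * z) + β y (z * x)) →
        ∃ μ : h →+ W, (∀ x : h, x.1 ∈ J → μ x = 0) ∧ ∀ x y, β x y = μ (x * y - y * x)) ∧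
      (∃ k z : ℕ, k ≤ C * p ^ (n - 2) * z ∧ z * Nat.card (J ⊔ commS h : AddSubgroup _) ≤ Nat.card h ∧
        ∃ c : Mat n (ZMod p) → Fin k, ∀ x ∈ h, ∀ y ∈ h, c x = c y →
          ∃ g ∈ h, IsUnit g ∧ g * x - y * g ∈ J) := by
  obtain ⟨k0, hk0⟩ := class_count n
  refine ⟨(k0 + 1) ^ (n * n), fun p _ hnp hp3 h hh => ?_⟩
  obtain ⟨ι, _, _, d, K, _, _, _, π, hd, hπ, hnil, hmax⟩ := ss_struct n p h
  have p1 : 1 < p := by omega
  have hK : ∀ i, ∃ f, 1 ≤ f ∧ Fintype.card (K i) = p ^ f := fun i => by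
    have h1 := Module.card_eq_pow_finrank (K := ZMod p) (V := K i)
    rw [ZMod.card] at h1
    exact ⟨_, Module.finrank_pos, h1⟩
  choose f hf1 hf using hK
  have hc := ss2_card hh hπ
  simp only [hf, ← pow_mul, Finset.prod_pow_eq_pow_sum] at hc
  have hs := (Nat.pow_lt_pow_iff_right p1).1 hc
  have hdn : ∀ i, d i < n := fun i => by
    have h1 : f i * (d i * d i) ≤ ∑ j, f j * (d j * d j) :=
      Finset.single_le_sum (f := fun j => f j * (d j * d j)) (fun _ _ => Nat.zero_le _)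
        (Finset.mem_univ i)
    have h2 : d i * d i ≤ f i * (d i * d i) := Nat.le_mul_of_pos_left _ (hf1 i)
    exact Nat.mul_self_lt_mul_self_iff.1 (by omega)
  have hι : k0 ^ Fintype.card ι ≤ (k0 + 1) ^ (n * n) := by
    have h1 : ∑ _j : ι, 1 ≤ ∑ j, f j * (d j * d j) :=
      Finset.sum_le_sum fun j _ => Nat.mul_pos (hf1 j) (Nat.mul_pos (hd j) (hd j))
    rw [Finset.sum_const, Finset.card_univ, smul_eq_mul, mul_one] at h1
    exact (Nat.pow_le_pow_left (Nat.le_succ k0) _).trans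
      (Nat.pow_le_pow_right (Nat.succ_pos k0) (by omega))
  have htr := ss2_tr hd hπ
  simp only [hf, Finset.prod_pow_eq_pow_sum] at htr
  refine ⟨ss2J h π, ?_, ?_, ?_, ?_, ?_, ?_⟩
  · rintro _ ⟨x, -, rfl⟩
    exact x.2
  · rintro x hx _ ⟨y, hy, rfl⟩
    have hy' : π y = 0 := hy
    refine ⟨⟨⟨x, hx⟩ * y, ?_, rfl⟩, ⟨y * ⟨x, hx⟩, ?_, rfl⟩⟩
    · show π _ = 0
      rw [map_mul, hy', mul_zero]
    · show π _ = 0
      rw [map_mul, hy', zero_mul]
  · intro x hx
    choose y hy hy' using fun i => ss2J_mem.1 (hx i)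
    have h1 := congrArg Subtype.val (hnil y hy)
    rw [ss2_prod] at h1
    simp only [hy'] at h1
    exact h1
  · intro I h1 h2 h3 y hy
    refine ⟨⟨y, h1 y hy⟩, ?_, rfl⟩
    refine hmax (I.comap h.subtype.toAddMonoidHom) (fun x z hz => h2 x.1 x.2 z.1 hz) ?_ _ hy
    intro x hx
    apply Subtype.ext
    rw [ss2_prod]
    exact h3 (fun i => (x i).1) hx
  · intro W _ β h1 h2
    obtain ⟨γ, hγ⟩ := ss2_desc π.toAddMonoidHom hπ β fun x y hx => h1 x y (ss2J_coe.2 hx)
    have hγ' : ∀ x y, γ (π x) (π y) = β x y := hγ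
    obtain ⟨μ, hμ⟩ := cocycle_inner p hp3 d (fun i => (hdn i).trans hnp) K γ (by
      intro x y z
      obtain ⟨x, rfl⟩ := hπ x
      obtain ⟨y, rfl⟩ := hπ y
      obtain ⟨z, rfl⟩ := hπ z
      rw [← map_mul, ← map_mul, ← map_mul, hγ', hγ', hγ', h2])
    refine ⟨μ.comp π.toAddMonoidHom, fun x hx => ?_, fun x y => ?_⟩
    · show μ (π x) = 0
      rw [ss2J_coe.1 hx, map_zero]
    · show β x y = μ (π _)
      rw [← hγ', hμ, map_sub π, map_mul, map_mul]
  · rcases le_or_gt 2 (∑ i, f i) with h2 | h2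
    · refine ⟨_, p ^ 2, ?_, le_trans (Nat.mul_le_mul_right _
        (Nat.pow_le_pow_right p1.le h2)) htr, ss2_fin hk0 (fun i => (hdn i).le) hπ hnil
        (fun x => fun j : Fin n => x.1.charpoly.coeff j)
        (fun x i => x.1.charpoly.map (algebraMap (ZMod p) (K i)))
        (fun x i => (x.1.charpoly_monic.map _).ne_zero)
        (fun x i => Polynomial.natDegree_map_le.trans (by simp)) (ss2_ch π) fun x y hxy => ?_⟩
      · rw [Fintype.card_fun, ZMod.card, Fintype.card_fin, mul_assoc, ← pow_add,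
          Nat.sub_add_cancel hn, mul_comm]
        exact Nat.mul_le_mul_right _ hι
      · rw [ss2_monic x.1.charpoly_monic y.1.charpoly_monic (m := n) (by simp) (by simp)
          (congrFun hxy)]
    · have h3 : 1 ≤ ∑ i, f i := by
        by_contra h4
        have h5 : IsEmpty ι := ⟨fun i => by
          have := Finset.single_le_sum (f := f) (fun _ _ => Nat.zero_le _) (Finset.mem_univ i)
          have := hf1 i
          omega⟩
        have h6 := congrArg Subtype.val (hnil (fun _ => 1) fun _ => Subsingleton.elim _ _)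
        rw [List.ofFn_const, List.prod_replicate, one_pow] at h6
        have h7 : (1 : Mat n (ZMod p)) ⟨0, by omega⟩ ⟨0, by omega⟩ = 0 :=
          congrFun (congrFun h6 _) _
        rw [one_apply_eq] at h7
        exact one_ne_zero h7
      refine ⟨_, p ^ 1, ?_, le_trans (Nat.mul_le_mul_right _
        (Nat.pow_le_pow_right p1.le h3)) htr, ss2_fin hk0 (fun i => (hdn i).le) hπ hnil
        (fun x => fun (i : ι) (j : Fin (d i)) => (π x i).charpoly.coeff j)
        (fun x i => (π x i).charpoly) (fun x i => (π x i).charpoly_monic.ne_zero)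
        (fun x i => by simpa using (hdn i).le) (fun x i => (π x i).aeval_self_charpoly)
        fun x y hxy => funext fun i => ?_⟩
      · rw [Fintype.card_pi]
        simp only [Fintype.card_fun, Fintype.card_fin, hf, ← pow_mul, Finset.prod_pow_eq_pow_sum]
        rw [mul_assoc, ← pow_add, mul_comm]
        refine Nat.mul_le_mul hι (Nat.pow_le_pow_right p1.le ?_)
        calc ∑ i, f i * d i ≤ ∑ i, f i * (n - 2 + 1) :=
              Finset.sum_le_sum fun i _ => Nat.mul_le_mul_left _ (by have := hdn i; omega)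
          _ = (∑ i, f i) * (n - 2 + 1) := (Finset.sum_mul _ _ _).symm
          _ ≤ 1 * (n - 2 + 1) := Nat.mul_le_mul_right _ (by omega)
          _ = n - 2 + 1 := one_mul _
      · exact ss2_monic (π x i).charpoly_monic (π y i).charpoly_monic (m := d i) (by simp)
          (by simp) (congrFun (congrFun hxy i))

end Pool.Agent.MP_8299d6_al.Up

end
end

section

open Matrix

noncomputable section

namespace Pool.Agent.MP_8299d6_al.Up

open Pool.Agent.MP_810665_al (IrrChar)

theorem dens_bad {n : ℕ} {F : Type} [Field F] [Fintype F] [DecidableEq F] (x : Mat n F) :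
    (Finset.univ.filter fun t : F => ¬ IsUnit (algebraMap F (Mat n F) t - x)).card ≤ n := by
  have h1 : (Finset.univ.filter fun t : F => ¬ IsUnit (algebraMap F (Mat n F) t - x)) ⊆
      x.charpoly.roots.toFinset := by
    intro t ht
    rw [Multiset.mem_toFinset, Polynomial.mem_roots x.charpoly_monic.ne_zero, Polynomial.IsRoot,
      Matrix.eval_charpoly]
    by_contra h
    exact (Finset.mem_filter.1 ht).2 ((Matrix.isUnit_iff_isUnit_det _).2 (Ne.isUnit h))
  refine (Finset.card_le_card h1).trans ((Multiset.toFinset_card_le _).trans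
    ((Polynomial.card_roots' _).trans ?_))
  rw [Matrix.charpoly_natDegree_eq_dim, Fintype.card_fin]

theorem card_le_two_units {n : ℕ} {F : Type} [Field F] [Fintype F] (hF : 2 * n ≤ Fintype.card F)
    (h : Subalgebra F (Mat n F)) : Nat.card h ≤ 2 * Nat.card {x : h // IsUnit x.1} := by
  classical
  have h1 : ∀ t : F, (Finset.univ.filter fun x : h =>
      IsUnit (algebraMap F (Mat n F) t - x.1)).card = Nat.card {x : h // IsUnit x.1} := by
    intro t
    rw [Nat.card_eq_fintype_card, Fintype.card_subtype]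
    refine Finset.card_bijective (Equiv.subLeft (algebraMap F h t)) (Equiv.bijective _) fun x => ?_
    simp
  have h2 : ∀ x : h, Fintype.card F ≤ 2 * (Finset.univ.filter fun t : F =>
      IsUnit (algebraMap F (Mat n F) t - x.1)).card := by
    intro x
    have a := dens_bad x.1
    have b := Finset.card_filter_add_card_filter_not (s := (Finset.univ : Finset F))
      fun t : F => IsUnit (algebraMap F (Mat n F) t - x.1)
    rw [Finset.card_univ] at b
    omega
  have h3 : ∑ x : h, (Finset.univ.filter fun t : F =>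
      IsUnit (algebraMap F (Mat n F) t - x.1)).card = ∑ t : F, (Finset.univ.filter fun x : h =>
      IsUnit (algebraMap F (Mat n F) t - x.1)).card := by
    simp only [Finset.card_filter]
    exact Finset.sum_comm
  have h4 := Finset.sum_le_sum fun x (_ : x ∈ (Finset.univ : Finset h)) => h2 x
  rw [← Finset.mul_sum, h3] at h4
  simp only [h1, Finset.sum_const, Finset.card_univ, smul_eq_mul] at h4
  rw [Nat.card_eq_fintype_card (α := h)]
  refine Nat.le_of_mul_le_mul_right (h4.trans (le_of_eq ?_)) Fintype.card_pos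
  ring

theorem dens_cast {d N : ℕ} [NeZero N] (h : d ∣ N) (a : ZMod N) :
    ZMod.castHom h (ZMod d) a = 0 ↔ (d : ZMod N) ∣ a := by
  constructor
  · obtain ⟨k, rfl⟩ := ZMod.natCast_zmod_surjective a
    rw [map_natCast, ZMod.natCast_eq_zero_iff]
    exact Nat.cast_dvd_cast
  · rintro ⟨c, rfl⟩
    rw [map_mul, map_natCast, ZMod.natCast_self, zero_mul]

theorem dens_surj {n : ℕ} {R S : Type} [CommRing R] [CommRing S] {f : R →+* S}
    (hf : Function.Surjective f) :
    Function.Surjective (f.mapMatrix : Mat n R →+* Mat n S) := fun y => by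
  choose g hg using hf
  exact ⟨y.map g, Matrix.ext fun i j => hg _⟩

theorem dens_zero {n d N : ℕ} [NeZero N] (h : d ∣ N) (x : Mat n (ZMod N)) :
    (ZMod.castHom h (ZMod d)).mapMatrix x = 0 ↔ x ∈ pI n _ (d : ZMod N) := by
  rw [← Matrix.ext_iff]
  exact forall₂_congr fun i j => dens_cast h _

theorem isUnit_of_redP {n p m : ℕ} [Fact p.Prime] {x : Mat n (ZMod (p ^ (m + 1)))}
    (h : IsUnit (redP n p m x)) : IsUnit x := by
  rw [Matrix.isUnit_iff_isUnit_det] at h ⊢
  rw [redP, ← RingHom.map_det] at h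
  obtain ⟨k, hk⟩ := ZMod.natCast_zmod_surjective x.det
  rw [← hk] at h ⊢
  rw [map_natCast, ZMod.isUnit_iff_coprime] at h
  exact (ZMod.isUnit_iff_coprime _ _).2 (h.pow_right _)

theorem redP_surj (n p m : ℕ) [Fact p.Prime] : Function.Surjective (redP n p m) :=
  dens_surj (ZMod.castHom_surjective _)

theorem redP_eq_zero {n p m : ℕ} [Fact p.Prime] (x : Mat n (ZMod (p ^ (m + 1)))) :
    redP n p m x = 0 ↔ x ∈ pI n _ (p : ZMod (p ^ (m + 1))) :=
  dens_zero _ x

theorem redM_surj (n p m : ℕ) [Fact p.Prime] : Function.Surjective (redM n p m) :=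
  dens_surj (ZMod.castHom_surjective _)

theorem redM_eq_zero {n p m : ℕ} [Fact p.Prime] (x : Mat n (ZMod (p ^ (m + 1)))) :
    redM n p m x = 0 ↔ x ∈ pI n _ ((p : ZMod (p ^ (m + 1))) ^ m) := by
  rw [← Nat.cast_pow]
  exact dens_zero _ x

theorem mem_NS_iff {n p m : ℕ} [Fact p.Prime] (x : Mat n (ZMod (p ^ (m + 1)))) :
    x ∈ NS n _ ((p : ZMod (p ^ (m + 1))) ^ m) ↔ ¬ IsScal (redM n p m x) := by
  refine not_congr ?_
  have e : ∀ c : ZMod (p ^ (m + 1)), redM n p m (c • 1) =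
      ZMod.castHom (pow_dvd_pow p (Nat.le_succ m)) (ZMod (p ^ m)) c • 1 := fun c => by
    ext i j
    by_cases h : i = j <;> simp [redM, h]
  rw [IsScal, (ZMod.castHom_surjective (pow_dvd_pow p (Nat.le_succ m))).exists]
  refine exists_congr fun c => ?_
  rw [← redM_eq_zero, map_sub, sub_eq_zero, e]

theorem perp_pI {n p m : ℕ} [Fact p.Prime] :
    perp (tau n (p ^ (m + 1))) (pI n _ (p : ZMod (p ^ (m + 1)))).toAddSubgroup
      = (pI n _ ((p : ZMod (p ^ (m + 1))) ^ m)).toAddSubgroup := by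
  have hp : p ≠ 0 := (Fact.out : p.Prime).ne_zero
  have ht : ∀ y : Mat n (ZMod (p ^ (m + 1))), tau n (p ^ (m + 1)) y = 1 ↔ y.trace = 0 := fun y => by
    rw [← (ZMod.stdAddChar (N := p ^ (m + 1))).map_zero_eq_one]
    exact ZMod.injective_stdAddChar.eq_iff
  ext A
  constructor
  · intro h i j
    have h1 := (ht _).1 (h (single j i (p : ZMod (p ^ (m + 1)))) fun a b => by
      by_cases hab : j = a ∧ i = b <;> simp [single, hab])
    rw [trace_mul_single, MulOpposite.smul_eq_mul_unop, MulOpposite.unop_op] at h1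
    obtain ⟨k, hk⟩ := ZMod.natCast_zmod_surjective (A i j)
    rw [← hk] at h1 ⊢
    rw [← Nat.cast_mul, ZMod.natCast_eq_zero_iff, pow_succ] at h1
    rw [← Nat.cast_pow]
    exact Nat.cast_dvd_cast (Nat.dvd_of_mul_dvd_mul_right (Nat.pos_of_ne_zero hp) h1)
  · intro h x hx
    rw [ht]
    refine Finset.sum_eq_zero fun i _ => ?_
    rw [diag_apply, mul_apply]
    refine Finset.sum_eq_zero fun j _ => zero_dvd_iff.1 ?_
    have := mul_dvd_mul (h i j) (hx j i)
    rwa [← pow_succ, ← Nat.cast_pow, ZMod.natCast_self] at this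

theorem dens_card_ker {A B : Type} [Ring A] [Ring B] {f : A →+* B} (hf : Function.Surjective f) :
    Nat.card f.toAddMonoidHom.ker * Nat.card B = Nat.card A := by
  rw [← f.toAddMonoidHom.ker.card_mul_index, AddSubgroup.index_ker,
    AddMonoidHom.range_eq_top.2 hf, AddSubgroup.card_top]

theorem dens_card_mat (n N : ℕ) : Nat.card (Mat n (ZMod N)) = N ^ n ^ 2 := by
  change Nat.card (Fin n → Fin n → ZMod N) = _
  rw [Nat.card_fun, Nat.card_fun, Nat.card_zmod, Nat.card_eq_fintype_card, Fintype.card_fin,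
    ← pow_mul, sq]

theorem card_pI {n p M e : ℕ} [Fact p.Prime] (he : e ≤ M) :
    Nat.card (pI n _ ((p : ZMod (p ^ M)) ^ e)) * p ^ (e * n ^ 2) = Nat.card (Mat n (ZMod (p ^ M))) := by
  rw [← dens_card_ker (dens_surj (n := n) (ZMod.castHom_surjective (pow_dvd_pow p he))),
    dens_card_mat, ← pow_mul, ← Nat.cast_pow]
  congr 1
  exact Nat.card_congr (Equiv.subtypeEquivRight fun x => (dens_zero (pow_dvd_pow p he) x).symm)

theorem dens_units {A B S : Type} [Ring A] [Ring B] [Finite A] {f : A →+* B}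
    (hf : Function.Surjective f) (hu : ∀ x, IsUnit (f x) → IsUnit x) (ι : S → B)
    (hι : Function.Injective ι) (h : ∀ s, IsUnit (ι s)) :
    Nat.card f.toAddMonoidHom.ker * Nat.card S ≤ Nat.card Aˣ := by
  choose g hg using hf
  have e : ∀ z : f.toAddMonoidHom.ker × S, f (z.1.1 + g (ι z.2)) = ι z.2 := fun z => by
    rw [map_add, hg, show f z.1.1 = 0 from z.1.2, zero_add]
  rw [← Nat.card_prod]
  refine Nat.card_le_card_of_injective
    (fun z => (hu (z.1.1 + g (ι z.2)) (by rw [e]; exact h _)).unit) fun z w hzw => ?_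
  have h1 : z.1.1 + g (ι z.2) = w.1.1 + g (ι w.2) := congrArg Units.val hzw
  have h2 : z.2 = w.2 := hι (by rw [← e, h1, e])
  rw [h2] at h1
  exact Prod.ext (Subtype.ext (add_right_cancel h1)) h2

theorem card_mat_big {n p : ℕ} [Fact p.Prime] (hp : 2 * n ≤ p) (m : ℕ) :
    Nat.card (Mat n (ZMod (p ^ (m + 1)))) ≤ 2 * Nat.card (GLn n (ZMod (p ^ (m + 1)))) := by
  have h1 := card_le_two_units (n := n) (F := ZMod p) (by rwa [ZMod.card]) ⊤
  have h2 := dens_units (redP_surj n p m) (fun x => isUnit_of_redP)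
    (fun x : {x : (⊤ : Subalgebra (ZMod p) (Mat n (ZMod p))) // IsUnit x.1} => x.1.1)
    (Subtype.val_injective.comp Subtype.val_injective) fun x => x.2
  rw [Nat.card_congr Subalgebra.topEquiv.toEquiv] at h1
  rw [← dens_card_ker (redP_surj n p m)]
  refine (Nat.mul_le_mul_left _ h1).trans ?_
  rw [mul_left_comm]
  exact Nat.mul_le_mul_left _ h2

theorem card_mat_small (n p : ℕ) [Fact p.Prime] (m : ℕ) :
    Nat.card (Mat n (ZMod (p ^ (m + 1)))) ≤ p ^ (n ^ 2) * Nat.card (GLn n (ZMod (p ^ (m + 1)))) := by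
  have h2 := dens_units (redP_surj n p m) (fun x => isUnit_of_redP) (fun _ : Unit => 1)
    (fun _ _ _ => rfl) fun _ => isUnit_one
  rw [Nat.card_unique (α := Unit), mul_one] at h2
  rw [← dens_card_ker (redP_surj n p m), dens_card_mat, mul_comm]
  exact Nat.mul_le_mul_left _ h2

theorem card_orb {M : Type} [Ring M] [Finite M] (A : M) :
    (orb A).ncard * Nat.card {x : cent A // IsUnit x.1} = Nat.card Mˣ := by
  have h1 : orb A = MulAction.orbit (ConjAct Mˣ) A := by
    ext B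
    exact ⟨fun ⟨g, hg⟩ => ⟨ConjAct.toConjAct g, hg.symm⟩,
      fun ⟨g, hg⟩ => ⟨ConjAct.ofConjAct g, hg.symm⟩⟩
  have h2 : ∀ g : ConjAct Mˣ, g ∈ MulAction.stabilizer (ConjAct Mˣ) A ↔
      ((ConjAct.ofConjAct g : Mˣ) : M) ∈ cent A := fun g => by
    rw [MulAction.mem_stabilizer_iff, ConjAct.units_smul_def, Units.mul_inv_eq_iff_eq_mul, cent,
      Subring.mem_centralizer_iff]
    simp [eq_comm]
  have h3 : Nat.card (MulAction.stabilizer (ConjAct Mˣ) A) =
      Nat.card {x : cent A // IsUnit x.1} := by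
    refine Nat.card_eq_of_bijective (fun g => ⟨⟨_, (h2 g.1).1 g.2⟩, Units.isUnit _⟩) ⟨?_, ?_⟩
    · intro g g' e
      exact Subtype.ext (ConjAct.ofConjAct.injective
        (Units.ext (congrArg (fun z : {x : cent A // IsUnit x.1} => z.1.1) e)))
    · rintro ⟨⟨x, hx⟩, hu⟩
      exact ⟨⟨ConjAct.toConjAct hu.unit, (h2 _).2 hx⟩, rfl⟩
  rw [h1, ← h3, ← MulAction.index_stabilizer, Subgroup.index_mul_card]
  rfl

theorem orb_rpow_le {M : Type} [Ring M] [Finite M] {D : ℝ} (hD : (Nat.card M : ℝ) ≤ D * Nat.card Mˣ)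
    (A : M) {t : ℝ} (ht : 0 ≤ t) : ((orb A).ncard : ℝ) ^ (-t) ≤ D ^ t * cc A ^ t := by
  have hM : (0 : ℝ) < Nat.card M := Nat.cast_pos.2 Nat.card_pos
  have hU : (0 : ℝ) < Nat.card Mˣ := Nat.cast_pos.2 Nat.card_pos
  have hD0 : 0 < D := pos_of_mul_pos_left (hM.trans_le hD) hU.le
  have h1 := card_orb A
  have h2 : Nat.card {x : cent A // IsUnit x.1} ≤ Nat.card (cent A) :=
    Nat.card_le_card_of_injective _ Subtype.val_injective
  have h3 : (Nat.card Mˣ : ℝ) ≤ (orb A).ncard * Nat.card (cent A) := by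
    rw [← h1]
    exact_mod_cast Nat.mul_le_mul_left _ h2
  have h4 : (0 : ℝ) < (orb A).ncard := pos_of_mul_pos_left (hU.trans_le h3) (Nat.cast_nonneg _)
  have hc : 0 ≤ cc A := div_nonneg (Nat.cast_nonneg _) hM.le
  rw [Real.rpow_neg h4.le, ← Real.inv_rpow h4.le, ← Real.mul_rpow hD0.le hc]
  refine Real.rpow_le_rpow (inv_nonneg.2 h4.le) ?_ ht
  rw [inv_le_iff_one_le_mul₀ h4, cc, ← mul_div_assoc, div_mul_eq_mul_div, one_le_div hM]
  nlinarith [mul_le_mul_of_nonneg_left h3 hD0.le]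

theorem card_units_zmod (p : ℕ) [Fact p.Prime] (m : ℕ) :
    p ^ (m + 1) ≤ 2 * Nat.card (ZMod (p ^ (m + 1)))ˣ := by
  have hp : p.Prime := Fact.out
  rw [Nat.card_eq_fintype_card, ZMod.card_units_eq_totient, Nat.totient_prime_pow_succ hp,
    mul_left_comm, pow_succ]
  have := hp.two_le
  exact Nat.mul_le_mul_left _ (by omega)

theorem dens_index {G : Type} [CommGroup G] [Finite G] {n : ℕ} (hn : 1 ≤ n) (g : G)
    (hg : Nat.card G ≤ 2 * orderOf g) : (powMonoidHom n : G →* G).range.index ≤ 2 * n := by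
  have h1 : Subgroup.zpowers (g ^ n) ≤ (powMonoidHom n : G →* G).range :=
    Subgroup.zpowers_le.2 ⟨g, rfl⟩
  refine (Subgroup.index_antitone h1).trans ?_
  have h2 := (Subgroup.zpowers (g ^ n)).index_mul_card
  rw [Nat.card_zpowers] at h2
  have h3 : orderOf g ≤ n * orderOf (g ^ n) :=
    orderOf_le_of_pow_eq_one (Nat.mul_pos hn (orderOf_pos _))
      (by rw [pow_mul, pow_orderOf_eq_one])
  refine Nat.le_of_mul_le_mul_right ?_ (orderOf_pos (g ^ n))
  rw [h2, mul_assoc]
  exact hg.trans (Nat.mul_le_mul_left _ h3)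

theorem dens_index_cyc {G : Type} [CommGroup G] [Finite G] [IsCyclic G] {n : ℕ} (hn : 1 ≤ n) :
    (powMonoidHom n : G →* G).range.index ≤ 2 * n := by
  obtain ⟨g, hg⟩ := IsCyclic.exists_ofOrder_eq_natCard (α := G)
  exact dens_index hn g (by omega)

theorem index_pow (n : ℕ) (hn : 1 ≤ n) (p : ℕ) [Fact p.Prime] (m : ℕ) :
    (powMonoidHom n : (ZMod (p ^ m))ˣ →* (ZMod (p ^ m))ˣ).range.index ≤ 2 * n := by
  by_cases hp : p = 2
  · subst hp
    by_cases hm : m ≤ 2
    · have := (ZMod.isCyclic_units_two_pow_iff m).2 hm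
      exact dens_index_cyc hn
    · obtain ⟨k, rfl⟩ : ∃ k, m = k + 2 := ⟨m - 2, by omega⟩
      have hu : IsUnit ((5 : ℕ) : ZMod (2 ^ (k + 2))) :=
        (ZMod.isUnit_iff_coprime _ _).2 (Nat.Coprime.pow_right _ (by norm_num))
      refine dens_index hn hu.unit ?_
      rw [← orderOf_units, hu.unit_spec, Nat.cast_ofNat, ZMod.orderOf_five,
        Nat.card_eq_fintype_card, ZMod.card_units_eq_totient,
        Nat.totient_prime_pow_succ Nat.prime_two]
      omega
  · have := ZMod.isCyclic_units_of_prime_pow p Fact.out hp m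
    exact dens_index_cyc hn

theorem index_pow_field (n : ℕ) (hn : 1 ≤ n) (p : ℕ) [Fact p.Prime] :
    (powMonoidHom n : (ZMod p)ˣ →* (ZMod p)ˣ).range.index ≤ 2 * n :=
  dens_index_cyc hn

end Pool.Agent.MP_8299d6_al.Up

end
end

section

open Matrix

noncomputable section

namespace Pool.Agent.MP_8299d6_al.Up

open Pool.Agent.MP_810665_al (IrrChar)
open Polynomial

theorem fl_pair {n : ℕ} {F : Type} [Field F] (B : Mat n F) (hB : ¬ IsScal B) :
    ∃ v η : Fin n → F, η ⬝ᵥ v = 0 ∧ η ⬝ᵥ (B *ᵥ v) ≠ 0 := by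
  by_contra h
  push Not at h
  have h1 : ∀ i j, i ≠ j → B i j = 0 := fun i j hij => by
    have := h (Pi.single j 1) (Pi.single i 1) (by simp [hij])
    simpa using this
  have h2 : ∀ i j, B i i = B j j := fun i j => by
    by_cases hij : i = j
    · rw [hij]
    · have := h (Pi.single i 1 + Pi.single j 1) (Pi.single i 1 - Pi.single j 1)
        (by simp [hij, Ne.symm hij])
      simp only [mulVec_add, sub_dotProduct, single_dotProduct, Pi.add_apply, mulVec_single_one,
        col_apply, one_mul] at this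
      rw [h1 i j hij, h1 j i (Ne.symm hij)] at this
      linear_combination this
  refine hB ?_
  rcases Nat.eq_zero_or_pos n with rfl | hn
  · exact ⟨0, Matrix.ext fun i => i.elim0⟩
  · refine ⟨B ⟨0, hn⟩ ⟨0, hn⟩, Matrix.ext fun i j => ?_⟩
    by_cases hij : i = j
    · subst hij
      simp [h2 i ⟨0, hn⟩]
    · simp [hij, h1 i j hij]

theorem fl_finrank_mat (n : ℕ) (F : Type) [Field F] : Module.finrank F (Mat n F) = n ^ 2 := by
  simp [Module.finrank_matrix, pow_two]

theorem rank_ad_two {n : ℕ} {F : Type} [Field F] (B : Mat n F) (hB : ¬ IsScal B) :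
    Module.finrank F (Subalgebra.centralizer F {B}) + 2 * n ≤ n ^ 2 + 2 := by
  obtain ⟨v, η, h0, h1⟩ := fl_pair B hB
  let ad : Mat n F →ₗ[F] Mat n F := LinearMap.mulLeft F B - LinearMap.mulRight F B
  have hker : LinearMap.ker ad = (Subalgebra.centralizer F {B}).toSubmodule := by
    ext x
    simp [ad, Subalgebra.mem_centralizer_iff, sub_eq_zero]
  have hrk := ad.finrank_range_add_finrank_ker
  rw [hker, Subalgebra.finrank_toSubmodule, fl_finrank_mat] at hrk
  let T : (Fin n → F) × (Fin n → F) →ₗ[F] Mat n F :=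
    (vecMulVecBilin F F v).coprod ((vecMulVecBilin F F).flip η)
  let Θ : (Fin n → F) × (Fin n → F) →ₗ[F] LinearMap.range ad × F × F :=
    (ad.rangeRestrict ∘ₗ T).prod
      ((((dotProductBilin F F).flip v) ∘ₗ LinearMap.fst F _ _).prod
        (((dotProductBilin F F).flip (B *ᵥ v)) ∘ₗ LinearMap.fst F _ _))
  have hinj : Function.Injective Θ := by
    rw [injective_iff_map_eq_zero]
    rintro ⟨ξ, w⟩ h
    have e1 : B * (vecMulVec v ξ + vecMulVec w η) - (vecMulVec v ξ + vecMulVec w η) * B = 0 :=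
      congrArg (fun z : LinearMap.range ad × F × F => (z.1 : Mat n F)) h
    have e2 : ξ ⬝ᵥ v = 0 := congrArg (fun z : LinearMap.range ad × F × F => z.2.1) h
    have e3 : ξ ⬝ᵥ (B *ᵥ v) = 0 := congrArg (fun z : LinearMap.range ad × F × F => z.2.2) h
    have e4 : ∀ x, B *ᵥ ((ξ ⬝ᵥ x) • v + (η ⬝ᵥ x) • w) =
        (ξ ⬝ᵥ (B *ᵥ x)) • v + (η ⬝ᵥ (B *ᵥ x)) • w := fun x => by
      have := congrArg (· *ᵥ x) (sub_eq_zero.1 e1)
      simpa only [← mulVec_mulVec, add_mulVec, vecMulVec_mulVec, op_smul_eq_smul] using this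
    have hw : w = 0 := by
      have := e4 v
      rw [e2, e3, h0] at this
      simp only [zero_smul, add_zero, mulVec_zero, zero_add] at this
      exact (smul_eq_zero.1 this.symm).resolve_left h1
    have hξ : ξ = 0 := by
      refine dotProduct_eq_zero ξ fun x => ?_
      have := congrArg (η ⬝ᵥ ·) (e4 x)
      simp only [hw, smul_zero, add_zero, mulVec_smul, dotProduct_smul, h0, smul_eq_mul]
        at this
      rw [mul_zero] at this
      exact (mul_eq_zero.1 this).resolve_right h1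
    rw [hw, hξ]
    rfl
  have h2 := LinearMap.finrank_le_finrank_of_injective hinj
  simp only [Module.finrank_prod, Module.finrank_fin_fun, Module.finrank_self] at h2
  omega

theorem fl_cyclic {n : ℕ} {F : Type} [Field F] (B : Mat n F) :
    ∃ v : Fin n → F, ∀ q : F[X], aeval B q *ᵥ v = 0 → minpoly F B ∣ q := by
  obtain ⟨x, hx⟩ := Module.exists_ker_toSpanSingleton_eq_annihilator F[X]
    (Module.AEval' (toLin' B))
  obtain ⟨v, rfl⟩ := (Module.AEval'.of _).surjective x
  refine ⟨v, fun q hq => ?_⟩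
  rw [← minpoly_toLin', ← Ideal.mem_span_singleton, span_minpoly_eq_annihilator, ← hx,
    LinearMap.mem_ker, LinearMap.toSpanSingleton_apply]
  have h1 : aeval (toLin' B) q = toLin' (aeval B q) :=
    aeval_algHom_apply (toLinAlgEquiv' : Mat n F ≃ₐ[F] _) B q
  have h2 : aeval (toLin' B) q v = 0 := by rw [h1, toLin'_apply, hq]
  exact h2

theorem rank_ad_deg {n : ℕ} {F : Type} [Field F] (B : Mat n F) :
    Module.finrank F (Subalgebra.centralizer F {B}) + n * (minpoly F B).natDegree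
      ≤ n ^ 2 + n := by
  obtain ⟨v, hv⟩ := fl_cyclic B
  let d := (minpoly F B).natDegree
  let E : degreeLT F d →ₗ[F] Fin n → F :=
    ((mulVecBilin F F).flip v) ∘ₗ (aeval B : F[X] →ₐ[F] Mat n F).toLinearMap ∘ₗ
      (degreeLT F d).subtype
  have hE : Function.Injective E := by
    rw [injective_iff_map_eq_zero]
    intro q hq
    refine Subtype.ext (eq_zero_of_dvd_of_degree_lt (hv q.1 hq) ?_)
    rw [degree_eq_natDegree (minpoly.ne_zero (isIntegral B))]
    exact mem_degreeLT.1 q.2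
  have hW : Module.finrank F (LinearMap.range E) = d := by
    rw [LinearMap.finrank_range_of_inj hE, (degreeLTEquiv F d).finrank_eq, Module.finrank_fin_fun]
  obtain ⟨U, hU⟩ := (LinearMap.range E).exists_isCompl
  have hU1 := Submodule.finrank_add_eq_of_isCompl hU
  rw [hW, Module.finrank_fin_fun] at hU1
  let C := Subalgebra.centralizer F ({B} : Set (Mat n F))
  let Θ : C →ₗ[F] (Fin n → F) × (U →ₗ[F] Fin n → F) :=
    (((mulVecBilin F F).flip v).prod ((mulVecBilin F F).domRestrict₂ U)) ∘ₗ C.val.toLinearMap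
  have hinj : Function.Injective Θ := by
    rw [injective_iff_map_eq_zero]
    rintro ⟨φ, hφ⟩ h
    have e1 : φ *ᵥ v = 0 := congrArg Prod.fst h
    have e2 : ∀ u ∈ U, φ *ᵥ u = 0 := fun u hu =>
      LinearMap.congr_fun (congrArg Prod.snd h) ⟨u, hu⟩
    have hc : Commute φ B := ((Subalgebra.mem_centralizer_iff F).1 hφ B rfl).symm
    have e3 : ∀ w ∈ LinearMap.range E, φ *ᵥ w = 0 := by
      rintro _ ⟨q, rfl⟩
      show φ *ᵥ (aeval B q.1 *ᵥ v) = 0
      have hq : Commute φ (aeval B q.1) := by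
        rw [aeval_eq_sum_range]
        exact Commute.sum_right _ _ _ fun i _ => (hc.pow_right i).smul_right _
      rw [mulVec_mulVec, hq.eq, ← mulVec_mulVec, e1, mulVec_zero]
    refine Subtype.ext (toLin'.injective (LinearMap.ext fun x => ?_))
    have hx : x ∈ LinearMap.range E ⊔ U := by
      rw [hU.sup_eq_top]
      trivial
    obtain ⟨w, hw, u, hu, rfl⟩ := Submodule.mem_sup.1 hx
    simp [mulVec_add, e3 w hw, e2 u hu]
  have h2 := LinearMap.finrank_le_finrank_of_injective hinj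
  simp only [Module.finrank_prod, Module.finrank_fin_fun, Module.finrank_linearMap] at h2
  have h3 : n * d + Module.finrank F U * n = n ^ 2 := by
    rw [pow_two, mul_comm n d, ← add_mul, hU1]
  show Module.finrank F C + n * d ≤ _
  omega

theorem fl_fiber {X Y : Type} [Fintype Y] [DecidableEq Y] (S : Finset X) (key : X → Y)
    (f : X → ℝ) {a : ℝ} (ha : 0 ≤ a)
    (h : ∀ x ∈ S, f x * (S.filter fun x' => key x' = key x).card ≤ a) :
    ∑ x ∈ S, f x ≤ Fintype.card Y * a := by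
  rw [← Finset.sum_fiberwise S key]
  refine le_trans (Finset.sum_le_card_nsmul _ _ a fun y _ => ?_) (by simp)
  rcases (S.filter fun x => key x = y).eq_empty_or_nonempty with h0 | h0
  · rw [h0, Finset.sum_empty]
    exact ha
  · have hc : (0 : ℝ) < (S.filter fun x => key x = y).card := by exact_mod_cast h0.card_pos
    refine le_of_mul_le_mul_right ?_ hc
    rw [Finset.sum_mul]
    refine le_trans (Finset.sum_le_card_nsmul _ _ a fun x hx => ?_) (by simp [mul_comm])
    obtain ⟨h1, h2⟩ := Finset.mem_filter.1 hx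
    rw [← h2]
    exact h x h1

theorem fl_color (n : ℕ) : ∃ k : ℕ, ∀ (K : Type) [Field K], ∃ c : K[X] → Mat n K → Fin k,
    ∀ μ : K[X], μ ≠ 0 → μ.natDegree ≤ n → ∀ x y : Mat n K, aeval x μ = 0 → aeval y μ = 0 →
      c μ x = c μ y → ∃ g : (Mat n K)ˣ, (g : Mat n K) * x = y * g := by
  obtain ⟨k, hk⟩ := class_count n
  refine ⟨k, fun K _ => ?_⟩
  obtain ⟨c₀, -⟩ := hk n le_rfl K 1 one_ne_zero (by simp)
  have : ∀ μ : K[X], ∃ c : Mat n K → Fin k, μ ≠ 0 → μ.natDegree ≤ n → ∀ x y : Mat n K,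
      aeval x μ = 0 → aeval y μ = 0 → c x = c y →
        ∃ g : (Mat n K)ˣ, (g : Mat n K) * x = y * g := fun μ => by
    by_cases h : μ ≠ 0 ∧ μ.natDegree ≤ n
    · obtain ⟨c, hc⟩ := hk n le_rfl K μ h.1 h.2
      exact ⟨c, fun _ _ => hc⟩
    · exact ⟨c₀, fun h1 h2 => absurd ⟨h1, h2⟩ h⟩
  choose c hc using this
  exact ⟨c, hc⟩

theorem fl_monic_ext {K : Type} [Field K] {f g : K[X]} {d : ℕ} (hf : f.Monic) (hg : g.Monic)
    (df : f.natDegree = d) (dg : g.natDegree = d)
    (h : (fun j : Fin d => f.coeff j) = fun j : Fin d => g.coeff j) : f = g := by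
  ext j
  rcases lt_trichotomy j d with hj | rfl | hj
  · exact congrFun h ⟨j, hj⟩
  · rw [← df, hf.coeff_natDegree, df, ← dg, hg.coeff_natDegree]
  · rw [coeff_eq_zero_of_natDegree_lt (by omega), coeff_eq_zero_of_natDegree_lt (by omega)]

theorem fl_minpoly_le {n : ℕ} {K : Type} [Field K] (B : Mat n K) :
    (minpoly K B).natDegree ≤ n := by
  have := natDegree_le_of_dvd (minpoly_dvd_charpoly B) (charpoly_monic B).ne_zero
  simpa using this

theorem fl_cc_orb {n p : ℕ} [Fact p.Prime] (hp : 2 * n ≤ p) (B : Mat n (ZMod p)) :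
    cc B * (orb B).ncard ≤ 2 := by
  have h1 := card_orb B
  have h2 : Nat.card (cent B) ≤ 2 * Nat.card {x : cent B // IsUnit x.1} :=
    card_le_two_units (by simpa using hp) (Subalgebra.centralizer (ZMod p) {B})
  have h3 : Nat.card (Mat n (ZMod p))ˣ ≤ Nat.card (Mat n (ZMod p)) :=
    Nat.card_le_card_of_injective _ Units.val_injective
  have h4 : Nat.card (cent B) * (orb B).ncard ≤ 2 * Nat.card (Mat n (ZMod p)) := by
    calc _ ≤ 2 * Nat.card {x : cent B // IsUnit x.1} * (orb B).ncard :=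
          Nat.mul_le_mul_right _ h2
      _ = 2 * Nat.card (Mat n (ZMod p))ˣ := by rw [← h1]; ring
      _ ≤ _ := Nat.mul_le_mul_left _ h3
  have h5 : (0 : ℝ) < Nat.card (Mat n (ZMod p)) := by exact_mod_cast Nat.card_pos
  rw [cc, div_mul_eq_mul_div, div_le_iff₀ h5]
  exact_mod_cast h4

theorem fl_cc_le {n p : ℕ} [Fact p.Prime] (B : Mat n (ZMod p)) {D : ℕ}
    (h : Module.finrank (ZMod p) (Subalgebra.centralizer (ZMod p) {B}) + D ≤ n ^ 2) :
    cc B ≤ (p : ℝ) ^ (-(D : ℝ)) := by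
  have hp : 1 ≤ p := (Fact.out : p.Prime).one_le
  have hp0 : (0 : ℝ) < p := by exact_mod_cast hp
  have h1 : Nat.card (cent B) =
      p ^ Module.finrank (ZMod p) (Subalgebra.centralizer (ZMod p) {B}) := by
    have := Module.natCard_eq_pow_finrank (K := ZMod p)
      (V := Subalgebra.centralizer (ZMod p) ({B} : Set (Mat n (ZMod p))))
    rw [Nat.card_zmod] at this
    exact this
  have h2 : Nat.card (Mat n (ZMod p)) = p ^ (n ^ 2) := by
    rw [Module.natCard_eq_pow_finrank (K := ZMod p), Nat.card_zmod, fl_finrank_mat]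
  rw [cc, h1, h2, Real.rpow_neg hp0.le, Real.rpow_natCast, div_le_iff₀ (by positivity),
    le_inv_mul_iff₀ (by positivity)]
  have h3 := Nat.pow_le_pow_right hp h
  rw [pow_add, mul_comm] at h3
  exact_mod_cast h3

theorem fl_cc_deg {n p : ℕ} [Fact p.Prime] (hn : 4 ≤ n) {B : Mat n (ZMod p)} (hB : ¬ IsScal B) :
    cc B ≤ (p : ℝ) ^ (-(2 * ((n : ℝ) + (minpoly (ZMod p) B).natDegree - 3))) := by
  have h1 := rank_ad_two B hB
  have h2 := rank_ad_deg B
  obtain ⟨m, rfl⟩ : ∃ m, n = m + 4 := ⟨n - 4, by omega⟩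
  have h3 := fl_cc_le B (D := 2 * (m + 1 + (minpoly (ZMod p) B).natDegree)) (by
    rcases le_or_gt (minpoly (ZMod p) B).natDegree 2 with h | h
    · omega
    · obtain ⟨e, he⟩ : ∃ e, (minpoly (ZMod p) B).natDegree = e + 3 := ⟨_, (Nat.sub_add_cancel h).symm⟩
      rw [he] at h2 ⊢
      nlinarith [Nat.zero_le (m * e)])
  convert h3 using 3
  push_cast
  ring

theorem first_sum (n : ℕ) (hn : 4 ≤ n) : ∃ C : ℝ, ∀ (p : ℕ) [Fact p.Prime], 2 * n ≤ p →
    ∀ s : ℝ, 1 ≤ s → sumOn {B : Mat n (ZMod p) | ¬ IsScal B} (fun B => cc B ^ (1 + s / 2))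
      ≤ C * (p : ℝ) ^ (4 - (n : ℝ) - s) := by
  classical
  obtain ⟨k, hk⟩ := fl_color n
  refine ⟨(n + 1) * (2 * k), fun p _ hp s hs => ?_⟩
  obtain ⟨c, hc⟩ := hk (ZMod p)
  have hp1 : (1 : ℝ) ≤ p := by exact_mod_cast (Fact.out : p.Prime).one_le
  have hp0 : (0 : ℝ) < p := lt_of_lt_of_le one_pos hp1
  have hn' : (4 : ℝ) ≤ n := by exact_mod_cast hn
  suffices H : ∀ S : Finset (Mat n (ZMod p)), (∀ B ∈ S, ¬ IsScal B) →
      ∑ B ∈ S, cc B ^ (1 + s / 2) ≤ (n + 1) * (2 * k) * (p : ℝ) ^ (4 - (n : ℝ) - s) by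
    unfold sumOn
    refine H _ fun B hB => ?_
    simpa using hB
  intro S hS'
  rw [← Finset.sum_fiberwise_of_maps_to (t := Finset.range (n + 1))
    (g := fun B => (minpoly (ZMod p) B).natDegree)
    (fun B _ => Finset.mem_range.2 (Nat.lt_succ_of_le (fl_minpoly_le B)))]
  refine le_trans (Finset.sum_le_card_nsmul _ _ (2 * k * (p : ℝ) ^ (4 - (n : ℝ) - s))
    fun d _ => ?_) (by simp [mul_assoc])
  have hd0 : (0 : ℝ) ≤ d := Nat.cast_nonneg d
  refine le_trans (fl_fiber _ (fun B => ((fun j : Fin d => (minpoly (ZMod p) B).coeff j),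
    c (minpoly (ZMod p) B) B)) _ (a := 2 * (p : ℝ) ^ (-(s * (n + d - 3)))) (by positivity)
    fun B hB => ?_) ?_
  · obtain ⟨hB1, hB2⟩ := Finset.mem_filter.1 hB
    have hcc : 0 ≤ cc B := by
      unfold cc
      positivity
    have h1 : cc B ^ (s / 2) ≤ (p : ℝ) ^ (-(s * (n + d - 3))) := by
      refine le_trans (Real.rpow_le_rpow hcc (fl_cc_deg hn (hS' B hB1)) (by linarith))
        (le_of_eq ?_)
      rw [← Real.rpow_mul hp0.le, hB2]
      congr 1
      ring
    suffices H : ∀ T : Finset (Mat n (ZMod p)), (T : Set (Mat n (ZMod p))) ⊆ orb B →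
        cc B ^ (1 + s / 2) * T.card ≤ 2 * (p : ℝ) ^ (-(s * (n + d - 3))) by
      refine H _ fun B' hB' => ?_
      obtain ⟨h3, h4⟩ := Finset.mem_filter.1 (Finset.mem_coe.1 hB')
      have h5 := (Finset.mem_filter.1 h3).2
      have h6 : minpoly (ZMod p) B' = minpoly (ZMod p) B :=
        fl_monic_ext (minpoly.monic (isIntegral B')) (minpoly.monic (isIntegral B)) h5 hB2
          (congrArg Prod.fst h4)
      have h7 : c (minpoly (ZMod p) B') B' = c (minpoly (ZMod p) B) B := congrArg Prod.snd h4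
      rw [h6] at h7
      obtain ⟨g, hg⟩ := hc _ (minpoly.ne_zero (isIntegral B)) (fl_minpoly_le B) B B'
        (minpoly.aeval _ _) (by rw [← h6]; exact minpoly.aeval _ _) h7.symm
      exact ⟨g, by rw [cj, hg, Units.mul_inv_cancel_right]⟩
    intro T h2
    have h3 : (T.card : ℝ) ≤ (orb B).ncard := by
      rw [← Set.ncard_coe_finset]
      exact_mod_cast Set.ncard_le_ncard h2
    have h4 : cc B * T.card ≤ 2 :=
      le_trans (mul_le_mul_of_nonneg_left h3 hcc) (fl_cc_orb hp B)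
    rw [Real.rpow_add' hcc (by linarith), Real.rpow_one, mul_right_comm]
    exact mul_le_mul h4 h1 (by positivity) (by norm_num)
  · have h1 : (p : ℝ) ^ d * (p : ℝ) ^ (-(s * (n + d - 3))) ≤ (p : ℝ) ^ (4 - (n : ℝ) - s) := by
      rw [← Real.rpow_natCast, ← Real.rpow_add hp0]
      refine Real.rpow_le_rpow_of_exponent_le hp1 ?_
      nlinarith
    simp only [Fintype.card_prod, Fintype.card_pi, ZMod.card, Finset.prod_const, Finset.card_univ,
      Fintype.card_fin]
    push_cast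
    calc _ = 2 * k * ((p : ℝ) ^ d * (p : ℝ) ^ (-(s * (n + d - 3)))) := by ring
      _ ≤ _ := mul_le_mul_of_nonneg_left h1 (by positivity)

theorem card_Irr_GL (n : ℕ) : ∃ C : ℕ, ∀ (p : ℕ) [Fact p.Prime],
    (Irr (GLn n (ZMod p))).card ≤ C * p ^ n := by
  classical
  obtain ⟨k, hk⟩ := fl_color n
  refine ⟨k, fun p _ => ?_⟩
  obtain ⟨c, hc⟩ := hk (ZMod p)
  have : Fintype (GLn n (ZMod p)) := Fintype.ofFinite _
  have hd : ∀ x : Mat n (ZMod p), x.charpoly.natDegree = n := fun x => by simp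
  refine le_trans (MP_810665_al.card_le_of_factor _ (fun χ hχ => mem_Irr.1 hχ)
    (fun g : GLn n (ZMod p) => ((fun j : Fin n => g.1.charpoly.coeff j), c g.1.charpoly g.1))
    fun χ hχ g h hgh => ?_) (by simp [mul_comm])
  have h6 : g.1.charpoly = h.1.charpoly :=
    fl_monic_ext (charpoly_monic _) (charpoly_monic _) (hd _) (hd _) (congrArg Prod.fst hgh)
  have h7 : c g.1.charpoly g.1 = c h.1.charpoly h.1 := congrArg Prod.snd hgh
  rw [← h6] at h7
  obtain ⟨u, hu⟩ := hc _ (charpoly_monic g.1).ne_zero (hd _).le g.1 h.1 (aeval_self_charpoly _)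
    (by rw [h6]; exact aeval_self_charpoly _) h7
  have h8 : h = u * g * u⁻¹ := by
    rw [eq_mul_inv_iff_mul_eq]
    exact Units.ext hu.symm
  rw [h8, MP_810665_al.irr_conj (mem_Irr.1 hχ)]

end Pool.Agent.MP_8299d6_al.Up

end
end

section

open Matrix
open Classical Finset

noncomputable section

namespace Pool.Agent.MP_8299d6_al.Up

open Pool.Agent.MP_810665_al (IrrChar)

/-- indicator of a proposition -/
def ai2I (p : Prop) : ℝ := if p then 1 else 0

lemma ai2_pos {p : Prop} (h : p) : ai2I p = 1 := if_pos h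

lemma ai2_neg {p : Prop} (h : ¬ p) : ai2I p = 0 := if_neg h

lemma ai2_nonneg (p : Prop) : 0 ≤ ai2I p := by unfold ai2I; split_ifs <;> norm_num

lemma ai2_le (p : Prop) : ai2I p ≤ 1 := by unfold ai2I; split_ifs <;> norm_num

lemma ai2_congr {p q : Prop} (h : p ↔ q) : ai2I p = ai2I q := by rw [propext h]

lemma ai2_card {α : Type} [Fintype α] (p : α → Prop) (inst : DecidablePred p) :
    ((@Finset.filter α p inst univ).card : ℝ) = ∑ x, ai2I (p x) := by
  rw [Finset.card_filter]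
  push_cast
  exact Finset.sum_congr rfl fun x _ => by unfold ai2I; split_ifs <;> rfl

lemma ai2_sum_eq {n : ℕ} (i : Fin n) : ∑ j, ai2I (j = i) = 1 := by
  rw [Finset.sum_eq_single i (fun j _ hj => ai2_neg hj) (fun h => absurd (mem_univ i) h),
    ai2_pos rfl]

lemma ai2_ex_rep {n : ℕ} {e : Fin n → Fin n → Prop} (he : Equivalence e) (i : Fin n) :
    ∃ a, ∀ j, ((∀ l < j, ¬ e j l) ∧ e i j) ↔ j = a := by
  obtain ⟨a, ha, hm⟩ := (univ.filter (fun j => e i j)).exists_min_image id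
    ⟨i, by simpa using he.refl i⟩
  simp only [mem_filter, mem_univ, true_and, id] at ha hm
  refine ⟨a, fun j => ⟨fun h => ?_, fun h => ?_⟩⟩
  · by_contra hne
    exact h.1 a (lt_of_le_of_ne (hm j h.2) (Ne.symm hne)) (he.trans (he.symm h.2) ha)
  · subst h
    exact ⟨fun l hl h => absurd (hm l (he.trans ha h)) (not_le.2 hl), ha⟩

lemma ai2_rep {n : ℕ} {e : Fin n → Fin n → Prop} (he : Equivalence e) (i : Fin n) :
    ∑ j, ai2I (∀ l < j, ¬ e j l) * ai2I (e i j) = 1 := by
  obtain ⟨a, ha⟩ := ai2_ex_rep he i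
  rw [← ai2_sum_eq a]
  refine Finset.sum_congr rfl fun j _ => ?_
  rw [← ai2_congr (ha j)]
  unfold ai2I
  by_cases h1 : (∀ l < j, ¬ e j l) <;> by_cases h2 : e i j <;> simp [h1, h2]

/-- the number of unrelated pairs -/
lemma ai2_unrel {n : ℕ} {e : Fin n → Fin n → Prop} (he : Equivalence e) {m : ℝ}
    (hm : m = ∑ j, ai2I (∀ l < j, ¬ e j l)) :
    n * (m - 1) + (n - m) * (m - 1) ≤ ∑ i, ∑ j, ai2I (¬ e i j) := by
  have h1 : ∀ i, ∑ j, ai2I (∀ l < j, ¬ e j l) * ai2I (¬ e i j) = m - 1 := by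
    intro i
    rw [hm, ← ai2_rep he i, ← Finset.sum_sub_distrib]
    refine Finset.sum_congr rfl fun j _ => ?_
    unfold ai2I
    by_cases h2 : e i j <;> simp [h2]
  have h2 : ∑ i : Fin n, ∑ j, ai2I (∀ l < j, ¬ e j l) * ai2I (¬ e i j) = n * (m - 1) := by
    simp only [h1]
    simp only [Finset.sum_const, Finset.card_univ, Fintype.card_fin, nsmul_eq_mul]
  have h3 : ∑ i : Fin n, ∑ j : Fin n, (1 - ai2I (∀ l < j, ¬ e j l)) *
      (ai2I (∀ l < i, ¬ e i l) * ai2I (¬ e j i)) = (n - m) * (m - 1) := by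
    rw [Finset.sum_comm]
    simp only [← Finset.mul_sum, h1]
    rw [← Finset.sum_mul, Finset.sum_sub_distrib, ← hm]
    simp
  rw [← h2, ← h3, ← Finset.sum_add_distrib]
  refine Finset.sum_le_sum fun i _ => ?_
  rw [← Finset.sum_add_distrib]
  refine Finset.sum_le_sum fun j _ => ?_
  have : ¬ e j i ↔ ¬ e i j := not_congr ⟨he.symm, he.symm⟩
  rw [ai2_congr this]
  have a1 := ai2_le (∀ l < i, ¬ e i l)
  have a2 := ai2_nonneg (¬ e i j)
  have a3 := ai2_le (∀ l < j, ¬ e j l)
  nlinarith [mul_nonneg (mul_nonneg (sub_nonneg.2 a3) (sub_nonneg.2 a1)) a2]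

/-- the number of classes -/
lemma ai2_classes {n : ℕ} {e : Fin n → Fin n → Prop} (he : Equivalence e) :
    2 * ∑ j, ai2I (∀ l < j, ¬ e j l) ≤ n + ∑ j, ai2I (∀ k, e j k → k = j) := by
  have h1 : ∑ j : Fin n, ai2I (∀ l < j, ¬ e j l) * ∑ i, ai2I (e i j) = n := by
    simp only [Finset.mul_sum]
    rw [Finset.sum_comm]
    simp [ai2_rep he]
  rw [← h1, Finset.mul_sum, ← Finset.sum_add_distrib]
  refine Finset.sum_le_sum fun j _ => ?_
  have a1 := ai2_le (∀ l < j, ¬ e j l)
  have a0 := ai2_nonneg (∀ l < j, ¬ e j l)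
  by_cases h : ∀ k, e j k → k = j
  · have : 1 ≤ ∑ i, ai2I (e i j) := by
      rw [← ai2_pos (he.refl j)]
      exact Finset.single_le_sum (f := fun i => ai2I (e i j)) (fun _ _ => ai2_nonneg _) (mem_univ j)
    rw [ai2_pos h]
    nlinarith
  · have : 2 ≤ ∑ i, ai2I (e i j) := by
      push Not at h
      obtain ⟨k, hk, hne⟩ := h
      calc (2 : ℝ) = ∑ i ∈ {k, j}, ai2I (e i j) := by
            rw [Finset.sum_pair hne, ai2_pos (he.symm hk), ai2_pos (he.refl j)]; norm_num
        _ ≤ _ := Finset.sum_le_sum_of_subset_of_nonneg (subset_univ _) fun _ _ _ => ai2_nonneg _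
    rw [ai2_neg h]
    nlinarith

/-- Mantel's theorem inside the classes -/
lemma ai2_mantel {n : ℕ} {e G : Fin n → Fin n → Prop} (he : Equivalence e)
    (sy : ∀ i j, G i j → G j i) (sub : ∀ i j, G i j → e i j ∧ j ≠ i)
    (tri : ∀ i j k, G i j → G i k → G j k → False) :
    2 * ∑ i, ∑ j, ai2I (G i j) ≤ ∑ i, ai2I (¬ ∀ k, e i k → k = i) * ∑ j, ai2I (e i j) := by
  set d : Fin n → ℝ := fun i => ∑ j, ai2I (G i j) with hd
  set c : Fin n → ℝ := fun i => ∑ j, ai2I (e i j) with hc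
  have c0 : ∀ i, 0 < c i := fun i => by
    have : 1 ≤ c i := by
      rw [← ai2_pos (he.refl i)]
      exact Finset.single_le_sum (f := fun j => ai2I (e i j)) (fun _ _ => ai2_nonneg _) (mem_univ i)
    linarith
  have h1 : ∀ i j, ai2I (G i j) * (d i / c i) + ai2I (G j i) * (d j / c j) ≤ ai2I (G i j) := by
    intro i j
    by_cases h : G i j
    · have e1 : c j = c i := Finset.sum_congr rfl fun k _ =>
        ai2_congr ⟨he.trans (sub i j h).1, he.trans (he.symm (sub i j h).1)⟩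
      have e2 : d i + d j ≤ c i := by
        rw [hd, hc, ← Finset.sum_add_distrib]
        refine Finset.sum_le_sum fun k _ => ?_
        by_cases h1 : G i k
        · rw [ai2_pos h1, ai2_neg (tri i j k h h1), ai2_pos (sub i k h1).1]; norm_num
        · by_cases h2 : G j k
          · rw [ai2_neg h1, ai2_pos h2, ai2_pos (he.trans (sub i j h).1 (sub j k h2).1)]; norm_num
          · rw [ai2_neg h1, ai2_neg h2, add_zero]; exact ai2_nonneg _
      rw [ai2_pos h, ai2_pos (sy i j h), e1, one_mul, one_mul, ← add_div, div_le_one (c0 i)]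
      exact e2
    · rw [ai2_neg h, ai2_neg (fun h' => h (sy j i h'))]; simp
  have h2 : ∑ i, ∑ j, ai2I (G i j) * (d i / c i) = ∑ i, d i * (d i / c i) :=
    Finset.sum_congr rfl fun i _ => by rw [← Finset.sum_mul]
  have h3 : 2 * ∑ i, d i * (d i / c i) ≤ ∑ i, d i := by
    have : ∑ i, ∑ j, ai2I (G j i) * (d j / c j) = ∑ i, d i * (d i / c i) := by
      rw [Finset.sum_comm, h2]
    rw [two_mul]
    nth_rewrite 1 [← h2]
    rw [← this, ← Finset.sum_add_distrib]
    refine Finset.sum_le_sum fun i _ => ?_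
    rw [← Finset.sum_add_distrib]
    exact Finset.sum_le_sum fun j _ => h1 i j
  have h4 : ∀ i, 4 * d i ≤ ai2I (¬ ∀ k, e i k → k = i) * c i + 4 * (d i * (d i / c i)) := by
    intro i
    by_cases h : ∀ k, e i k → k = i
    · have : d i = 0 := Finset.sum_eq_zero fun k _ =>
        ai2_neg fun hk => (sub i k hk).2 (h k (sub i k hk).1)
      rw [this, ai2_neg (not_not.2 h)]; simp
    · rw [ai2_pos h, one_mul]
      have e1 : d i = d i / c i * c i := (div_mul_cancel₀ _ (c0 i).ne').symm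
      generalize d i / c i = t at e1 ⊢
      rw [e1]
      nlinarith [mul_nonneg (c0 i).le (sq_nonneg (2 * t - 1))]
  have h5 := Finset.sum_le_sum fun i (_ : i ∈ univ) => h4 i
  rw [Finset.sum_add_distrib, ← Finset.mul_sum, ← Finset.mul_sum] at h5
  linarith

/-- the combinatorial inequality for `n ≥ 5` -/
theorem comb_five {n : ℕ} (hn : 5 ≤ n) (P r : Fin n → Fin n → Prop) (irr : ∀ i, ¬ P i i)
    (tr : ∀ i j k, P i j → P j k → i ≠ k → P i k) (hr : Equivalence r)
    (cyc : ∀ i j k, P i j → P j i → r i k → k = i) (hP : ∃ i j, i ≠ j ∧ ¬ P i j) :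
    2 * (univ.filter (fun i => ∀ j < i, ¬ (r i j ∨ (P i j ∧ P j i)))).card
      + 2 * (univ.filter (fun x : Fin n × Fin n => P x.1 x.2 ∧ r x.1 x.2 ∧
          ¬ ∃ j, P x.1 j ∧ P j x.2)).card
      + (univ.filter (fun i => ∀ j < i, ¬ r i j)).card
      + (univ.filter (fun x : Fin n × Fin n => P x.1 x.2)).card ≤ n ^ 2 := by
  set s : Fin n → Fin n → Prop := fun i j => r i j ∨ (P i j ∧ P j i) with hs
  set Q : Fin n → Fin n → Prop := fun i j => P i j ∧ r i j ∧ ¬ ∃ k, P i k ∧ P k j with hQ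
  have es : Equivalence s := by
    refine ⟨fun i => Or.inl (hr.refl i), fun h => h.imp hr.symm And.symm, ?_⟩
    rintro i j k (h1 | h1) (h2 | h2)
    · exact Or.inl (hr.trans h1 h2)
    · obtain rfl := cyc j k i h2.1 h2.2 (hr.symm h1)
      exact Or.inr h2
    · obtain rfl := cyc j i k h1.2 h1.1 h2
      exact Or.inr h1
    · by_cases h : i = k
      · subst h; exact Or.inl (hr.refl i)
      · exact Or.inr ⟨tr i j k h1.1 h2.1 h, tr k j i h2.2 h1.2 (Ne.symm h)⟩
  have asy : ∀ i j, P i j → P j i → r i j → False := fun i j h1 h2 h3 => by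
    obtain rfl := cyc i j j h1 h2 h3
    exact irr _ h1
  have c3 : ∀ i j k, Q i j → Q j k → Q k i → False := fun i j k h1 h2 h3 => by
    by_cases h : i = k
    · subst h; exact irr _ h3.1
    · exact asy k i h3.1 (tr i j k h1.1 h2.1 h) h3.2.1
  have hman := ai2_mantel (G := fun i j => Q i j ∨ Q j i) hr (fun _ _ h => h.symm)
    (fun i j h => by
      rcases h with h | h
      · exact ⟨h.2.1, fun e => irr i (e ▸ h.1)⟩
      · exact ⟨hr.symm h.2.1, fun e => irr i (e ▸ h.1)⟩)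
    (fun i j k h1 h2 h3 => by
      rcases h1 with h1 | h1 <;> rcases h2 with h2 | h2 <;> rcases h3 with h3 | h3
      · exact h2.2.2 ⟨j, h1.1, h3.1⟩
      · exact h1.2.2 ⟨k, h2.1, h3.1⟩
      · exact c3 i j k h1 h3 h2
      · exact h3.2.2 ⟨i, h2.1, h1.1⟩
      · exact h3.2.2 ⟨i, h1.1, h2.1⟩
      · exact c3 i k j h2 h3 h1
      · exact h1.2.2 ⟨k, h3.1, h2.1⟩
      · exact h2.2.2 ⟨j, h3.1, h1.1⟩)
  have hG : ∑ i, ∑ j, ai2I (Q i j ∨ Q j i) = 2 * ∑ i, ∑ j, ai2I (Q i j) := by
    rw [two_mul]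
    nth_rewrite 2 [Finset.sum_comm]
    rw [← Finset.sum_add_distrib]
    refine Finset.sum_congr rfl fun i _ => ?_
    rw [← Finset.sum_add_distrib]
    refine Finset.sum_congr rfl fun j _ => ?_
    by_cases h1 : Q i j
    · rw [ai2_pos (Or.inl h1), ai2_pos h1, ai2_neg fun h2 : Q j i => asy i j h1.1 h2.1 h1.2.1,
        zero_add]
    · rw [ai2_neg h1, add_zero]; exact ai2_congr (by tauto)
  rw [hG] at hman
  have hcl := ai2_classes hr
  have hPP : 2 * ∑ i, ∑ j, ai2I (P i j) + ∑ i, ai2I (¬ ∀ k, r i k → k = i) * ∑ j, ai2I (r i j) +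
      (n + ∑ j, ai2I (∀ k, r j k → k = j)) + ∑ i, ∑ j, ai2I (¬ s i j) ≤ 2 * (n : ℝ) ^ 2 := by
    have e1 : (n : ℝ) + ∑ j, ai2I (∀ k, r j k → k = j) =
        ∑ i, ∑ j, (1 + ai2I (∀ k, r i k → k = i)) * ai2I (j = i) := by
      simp only [← Finset.mul_sum, ai2_sum_eq, mul_one, Finset.sum_add_distrib]
      simp
    have e2 : 2 * (n : ℝ) ^ 2 = ∑ _i : Fin n, ∑ _j : Fin n, (2 : ℝ) := by simp; ring
    rw [two_mul, e1, e2]
    nth_rewrite 2 [Finset.sum_comm]
    simp only [Finset.mul_sum, ← Finset.sum_add_distrib]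
    refine Finset.sum_le_sum fun i _ => Finset.sum_le_sum fun j _ => ?_
    by_cases hij : j = i
    · subst hij
      rw [ai2_neg (irr j), ai2_pos (hr.refl j), ai2_pos rfl, ai2_neg (not_not.2 (es.refl j))]
      by_cases h : ∀ k, r j k → k = j
      · rw [ai2_pos h, ai2_neg (not_not.2 h)]; norm_num
      · rw [ai2_neg h, ai2_pos h]; norm_num
    · rw [ai2_neg hij]
      have a1 := ai2_le (P i j)
      have a2 := ai2_le (P j i)
      have a3 := ai2_le (¬ ∀ k, r i k → k = i)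
      have a4 := ai2_le (¬ s i j)
      by_cases h1 : P i j ∧ P j i
      · rw [ai2_neg (asy i j h1.1 h1.2), ai2_neg (not_not.2 (Or.inr h1 : s i j))]
        linarith
      · have a5 : ai2I (P i j) + ai2I (P j i) ≤ 1 := by
          rcases not_and_or.1 h1 with h | h <;> rw [ai2_neg h] <;> linarith
        by_cases h2 : r i j
        · rw [ai2_pos h2, ai2_neg (not_not.2 (Or.inl h2 : s i j))]
          linarith
        · rw [ai2_neg h2]
          linarith
  have k1 := ai2_card (fun i => ∀ j < i, ¬ s i j) inferInstance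
  have k2 := ai2_card (fun x : Fin n × Fin n => Q x.1 x.2) inferInstance
  have k3 := ai2_card (fun i => ∀ j < i, ¬ r i j) inferInstance
  have k4 := ai2_card (fun x : Fin n × Fin n => P x.1 x.2) inferInstance
  rw [Fintype.sum_prod_type] at k2 k4
  have hun := ai2_unrel es k1
  have hmn : (univ.filter (fun i => ∀ j < i, ¬ s i j)).card ≤ n :=
    (Finset.card_filter_le _ _).trans (by simp)
  simp only [] at k2 k4
  rw [← k2] at hman
  rw [← k3] at hcl
  rw [← k4] at hPP
  have goal : 2 * (univ.filter (fun i => ∀ j < i, ¬ s i j)).card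
      + 2 * (univ.filter (fun x : Fin n × Fin n => Q x.1 x.2)).card
      + (univ.filter (fun i => ∀ j < i, ¬ r i j)).card
      + (univ.filter (fun x : Fin n × Fin n => P x.1 x.2)).card ≤ n ^ 2 := by
    by_cases h1 : (univ.filter (fun i => ∀ j < i, ¬ s i j)).card = 1
    · obtain ⟨a, ha⟩ := Finset.card_eq_one.1 h1
      have t1 : ∀ i, s i a := fun i => by
        obtain ⟨b, hb⟩ := ai2_ex_rep es i
        have h2 := (hb b).2 rfl
        have h3 : b ∈ univ.filter (fun i => ∀ j < i, ¬ s i j) := mem_filter.2 ⟨mem_univ _, h2.1⟩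
        rw [ha, mem_singleton] at h3
        exact h3 ▸ h2.2
      have t2 : ∀ i j, s i j := fun i j => es.trans (t1 i) (es.symm (t1 j))
      obtain ⟨u, v, huv, hP⟩ := hP
      have ruv : r u v := (t2 u v).resolve_right fun h => hP h.1
      have t3 : ∀ j, r u j := fun j => (t2 u j).resolve_right fun h =>
        huv (cyc u j v h.1 h.2 ruv).symm
      have t4 : ∀ i j, r i j := fun i j => hr.trans (hr.symm (t3 i)) (t3 j)
      have t5 : ∀ i, ¬ ∀ k, r i k → k = i := fun i h =>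
        huv ((h u (t4 i u)).trans (h v (t4 i v)).symm)
      have t6 : ∑ j, ai2I (∀ l < j, ¬ r j l) = 1 := by
        rw [← ai2_rep hr u]
        exact Finset.sum_congr rfl fun j _ => by rw [ai2_pos (t3 j), mul_one]
      have t7 : ∑ i, ai2I (¬ ∀ k, r i k → k = i) * ∑ j, ai2I (r i j) = (n : ℝ) ^ 2 := by
        simp only [ai2_pos (t5 _), ai2_pos (t4 _ _)]
        simp; ring
      have t8 : 0 ≤ ∑ j, ai2I (∀ k, r j k → k = j) := Finset.sum_nonneg fun _ _ => ai2_nonneg _
      have t9 : 0 ≤ ∑ i, ∑ j, ai2I (¬ s i j) :=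
        Finset.sum_nonneg fun _ _ => Finset.sum_nonneg fun _ _ => ai2_nonneg _
      rw [t6] at k3
      rw [t7] at hman hPP
      rw [h1]
      generalize (univ.filter (fun x : Fin n × Fin n => Q x.1 x.2)).card = q at *
      generalize (univ.filter (fun i => ∀ j < i, ¬ r i j)).card = k at *
      generalize (univ.filter (fun x : Fin n × Fin n => P x.1 x.2)).card = p at *
      have n1 : k = 1 := by exact_mod_cast k3
      have n2 : 4 * q ≤ n ^ 2 := by exact_mod_cast (by linarith : (4 : ℝ) * q ≤ n ^ 2)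
      have n3 : 2 * p + n ≤ n ^ 2 := by exact_mod_cast (by linarith : (2 : ℝ) * p + n ≤ n ^ 2)
      rcases hn.eq_or_lt with h5 | h5
      · have : n ^ 2 = 25 := by rw [← h5]; norm_num
        omega
      · omega
    · generalize (univ.filter (fun x : Fin n × Fin n => Q x.1 x.2)).card = q at *
      generalize (univ.filter (fun i => ∀ j < i, ¬ r i j)).card = k at *
      generalize (univ.filter (fun x : Fin n × Fin n => P x.1 x.2)).card = p at *
      generalize (univ.filter (fun i => ∀ j < i, ¬ s i j)).card = m at *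
      have t9 : 0 ≤ ∑ i, ∑ j, ai2I (¬ s i j) :=
        Finset.sum_nonneg fun _ _ => Finset.sum_nonneg fun _ _ => ai2_nonneg _
      have n1 : 4 * (m : ℝ) ≤ ∑ i, ∑ j, ai2I (¬ s i j) := by
        rcases Nat.eq_zero_or_pos m with h0 | h0
        · rw [h0]; simpa using t9
        · have a1 : (2 : ℝ) ≤ m := by exact_mod_cast (by omega : 2 ≤ m)
          have a2 : (m : ℝ) ≤ n := by exact_mod_cast hmn
          have a3 : (5 : ℝ) ≤ n := by exact_mod_cast hn
          refine le_trans ?_ hun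
          rcases le_total (m : ℝ) 5 with a4 | a4 <;> nlinarith
      exact_mod_cast (by linarith : 2 * (m : ℝ) + 2 * q + k + p ≤ n ^ 2)
  convert goal

end Pool.Agent.MP_8299d6_al.Up

end
end

section

open Matrix
open Classical Finset

noncomputable section

namespace Pool.Agent.MP_8299d6_al.Up

open Pool.Agent.MP_810665_al (IrrChar)

def ai3sel {α : Type} (a b c d : α) : ℕ → α
  | 0 => a
  | 1 => b
  | 2 => c
  | _ => d

def ai3all (f : ℕ → Bool) : Bool := f 0 && f 1 && f 2 && f 3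

def ai3ex (f : ℕ → Bool) : Bool := f 0 || f 1 || f 2 || f 3

def ai3cnt (f : ℕ → Bool) : ℕ :=
  cond (f 0) 1 0 + cond (f 1) 1 0 + cond (f 2) 1 0 + cond (f 3) 1 0

def ai3cnt2 (f : ℕ → ℕ → Bool) : ℕ := ai3cnt (f 0) + ai3cnt (f 1) + ai3cnt (f 2) + ai3cnt (f 3)

def ai3B (f : Bool → Bool) : Bool := f true && f false

def ai3tr (p : ℕ → ℕ → Bool) : Bool :=
  ai3all fun i => ai3all fun j => !p i j || ai3all fun k => !p j k || Nat.beq i k || p i k

def ai3eq (r : ℕ → ℕ → Bool) : Bool :=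
  ai3all fun i => ai3all fun j => !r i j || ai3all fun k => !r j k || r i k

def ai3cyc (p r : ℕ → ℕ → Bool) : Bool :=
  ai3all fun i => ai3all fun j => !p i j || !p j i || ai3all fun k => !r i k || Nat.beq k i

def ai3t (p r : ℕ → ℕ → Bool) (t : ℕ → Bool) : Bool :=
  ai3ex t && ai3ex (fun j => !t j) &&
    (ai3all fun i => ai3all fun j => !r i j || !t i || t j) &&
    ai3all fun i => ai3all fun j => !p i j || (t i == t j)

def ai3u (p r : ℕ → ℕ → Bool) : Bool :=
  ai3ex fun i => ai3ex fun j => p i j && r i j && (ai3all fun k => !p j k) && ai3all fun k => !p k i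

def ai3val (p r : ℕ → ℕ → Bool) : ℕ :=
  2 * ai3cnt (fun i => ai3all fun j => !Nat.blt j i || !(r i j || (p i j && p j i))) +
    2 * ai3cnt2 (fun i k => p i k && r i k && !ai3ex fun j => p i j && p j k) +
    ai3cnt (fun i => ai3all fun j => !Nat.blt j i || !r i j) + ai3cnt2 p

def ai3fin (p r : ℕ → ℕ → Bool) : Bool :=
  Nat.ble (ai3val p r) 16 || !ai3cyc p r ||
    (!ai3u p r && ai3B fun a => ai3B fun b => ai3B fun c => ai3B fun d =>
      !ai3t p r (ai3sel a b c d))

def ai3r (a b c d e f : Bool) : ℕ → ℕ → Bool :=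
  ai3sel (ai3sel true a b c) (ai3sel a true d e) (ai3sel b d true f) (ai3sel c e f true)

def ai3p (a b c d e f g h i j k l : Bool) : ℕ → ℕ → Bool :=
  ai3sel (ai3sel false a b c) (ai3sel d false e f) (ai3sel g h false i) (ai3sel j k l false)

def ai3mid (p : ℕ → ℕ → Bool) : Bool :=
  !ai3tr p || ai3B fun a => ai3B fun b => ai3B fun c => ai3B fun d => ai3B fun e => ai3B fun f =>
    !ai3eq (ai3r a b c d e f) || ai3fin p (ai3r a b c d e f)

theorem ai3check : (ai3B fun a => ai3B fun b => ai3B fun c => ai3B fun d => ai3B fun e =>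
    ai3B fun f => ai3B fun g => ai3B fun h => ai3B fun i => ai3B fun j => ai3B fun k =>
    ai3B fun l => ai3mid (ai3p a b c d e f g h i j k l)) = true := by
  decide +kernel

lemma ai3all_iff (f : ℕ → Bool) : ai3all f = true ↔ ∀ i : Fin 4, f i = true := by
  simp [ai3all, Fin.forall_fin_succ, and_assoc]

lemma ai3ex_iff (f : ℕ → Bool) : ai3ex f = true ↔ ∃ i : Fin 4, f i = true := by
  simp [ai3ex, Fin.exists_fin_succ, or_assoc]

lemma ai3B_iff (f : Bool → Bool) : ai3B f = true ↔ ∀ b, f b = true := by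
  simp [ai3B, and_comm]

lemma ai3cnt_sum (f : ℕ → Bool) : ai3cnt f = ∑ i : Fin 4, if f i = true then 1 else 0 := by
  rw [Fin.sum_univ_four]
  simp only [ai3cnt, Bool.cond_eq_ite]
  rfl

lemma ai3cnt_eq (f : ℕ → Bool) (Q : Fin 4 → Prop) (h : ∀ i : Fin 4, f i = true ↔ Q i) :
    ai3cnt f = (univ.filter Q).card := by
  rw [ai3cnt_sum, Finset.card_filter]
  exact Finset.sum_congr rfl fun i _ => if_congr (h i) rfl rfl

lemma ai3cnt2_eq (f : ℕ → ℕ → Bool) (Q : Fin 4 × Fin 4 → Prop)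
    (h : ∀ i j : Fin 4, f i j = true ↔ Q (i, j)) : ai3cnt2 f = (univ.filter Q).card := by
  have e : ai3cnt2 f = ∑ i : Fin 4, ai3cnt (f i) := by
    simp [ai3cnt2, Fin.sum_univ_four]
  rw [e, Finset.card_filter, Fintype.sum_prod_type]
  refine Finset.sum_congr rfl fun i _ => ?_
  rw [ai3cnt_sum]
  exact Finset.sum_congr rfl fun j _ => if_congr (h i j) rfl rfl

lemma ai3beq (i j : Fin 4) : Nat.beq i j = true ↔ i = j := by
  rw [Nat.beq_eq, Fin.val_inj]

lemma ai3blt (i j : Fin 4) : Nat.blt i j = true ↔ i < j := by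
  rw [Nat.blt_eq, Fin.lt_def]

/-- the combinatorial inequality for `n = 4` in the presence of a central element -/
theorem comb_four (P r : Fin 4 → Fin 4 → Prop) (irr : ∀ i, ¬ P i i)
    (tr : ∀ i j k, P i j → P j k → i ≠ k → P i k) (hr : Equivalence r)
    (cyc : ∀ i j k, P i j → P j i → r i k → k = i)
    (hc : (∃ t : Fin 4 → Prop, (∃ i j, t i ∧ ¬ t j) ∧ (∀ i j, r i j → t i → t j) ∧
        ∀ i j, P i j → (t i ↔ t j)) ∨
      ∃ i j, P i j ∧ r i j ∧ (∀ k, ¬ P j k) ∧ ∀ k, ¬ P k i) :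
    2 * (univ.filter (fun i => ∀ j < i, ¬ (r i j ∨ (P i j ∧ P j i)))).card
      + 2 * (univ.filter (fun x : Fin 4 × Fin 4 => P x.1 x.2 ∧ r x.1 x.2 ∧
          ¬ ∃ j, P x.1 j ∧ P j x.2)).card
      + (univ.filter (fun i => ∀ j < i, ¬ r i j)).card
      + (univ.filter (fun x : Fin 4 × Fin 4 => P x.1 x.2)).card ≤ 4 ^ 2 := by
  have hp : ∃ p : ℕ → ℕ → Bool, ai3mid p = true ∧ ∀ i j : Fin 4, p i j = true ↔ P i j := by
    refine ⟨ai3p (decide (P 0 1)) (decide (P 0 2)) (decide (P 0 3)) (decide (P 1 0))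
      (decide (P 1 2)) (decide (P 1 3)) (decide (P 2 0)) (decide (P 2 1)) (decide (P 2 3))
      (decide (P 3 0)) (decide (P 3 1)) (decide (P 3 2)), ?_, fun i j => ?_⟩
    · have h := ai3check
      simp only [ai3B_iff] at h
      exact h _ _ _ _ _ _ _ _ _ _ _ _
    · fin_cases i <;> fin_cases j <;> simp [ai3p, ai3sel, irr]
  obtain ⟨p, hm, hp⟩ := hp
  have htr : ai3tr p = true := by
    simp only [ai3tr, ai3all_iff, Bool.or_eq_true, Bool.not_eq_true', ← Bool.not_eq_true, hp, ai3beq]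
    intro i j
    by_cases h1 : P i j
    · refine Or.inr fun k => ?_
      by_cases h2 : P j k
      · by_cases h3 : i = k
        · exact Or.inl (Or.inr h3)
        · exact Or.inr (tr i j k h1 h2 h3)
      · exact Or.inl (Or.inl h2)
    · exact Or.inl h1
  have hq : ∃ q : ℕ → ℕ → Bool, (!ai3eq q || ai3fin p q) = true ∧
      ∀ i j : Fin 4, q i j = true ↔ r i j := by
    refine ⟨ai3r (decide (r 0 1)) (decide (r 0 2)) (decide (r 0 3)) (decide (r 1 2))
      (decide (r 1 3)) (decide (r 2 3)), ?_, fun i j => ?_⟩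
    · simp only [ai3mid, htr, Bool.not_true, Bool.false_or, ai3B_iff] at hm
      exact hm _ _ _ _ _ _
    · have hs : ∀ i j, r i j ↔ r j i := fun i j => ⟨hr.symm, hr.symm⟩
      fin_cases i <;> fin_cases j <;> simp [ai3r, ai3sel, hr.refl] <;> exact hs _ _
  obtain ⟨q, hf, hq⟩ := hq
  have heq : ai3eq q = true := by
    simp only [ai3eq, ai3all_iff, Bool.or_eq_true, Bool.not_eq_true', ← Bool.not_eq_true, hq]
    intro i j
    by_cases h1 : r i j
    · refine Or.inr fun k => ?_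
      by_cases h2 : r j k
      · exact Or.inr (hr.trans h1 h2)
      · exact Or.inl h2
    · exact Or.inl h1
  have hcyc : ai3cyc p q = true := by
    simp only [ai3cyc, ai3all_iff, Bool.or_eq_true, Bool.not_eq_true', ← Bool.not_eq_true, hp, hq,
      ai3beq]
    intro i j
    by_cases h1 : P i j
    · by_cases h2 : P j i
      · refine Or.inr fun k => ?_
        by_cases h3 : r i k
        · exact Or.inr (cyc i j k h1 h2 h3)
        · exact Or.inl h3
      · exact Or.inl (Or.inr h2)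
    · exact Or.inl (Or.inl h1)
  have hval : ai3val p q ≤ 16 := by
    simp only [heq, Bool.not_true, Bool.false_or, ai3fin, hcyc, Bool.or_false, Bool.or_eq_true,
      Nat.ble_eq, Bool.and_eq_true, ai3B_iff] at hf
    refine hf.resolve_right fun ⟨hu, ht⟩ => ?_
    rcases hc with ⟨t, ⟨i, j, hi, hj⟩, h1, h2⟩ | ⟨i, j, h1, h2, h3, h4⟩
    · have e : ∀ i : Fin 4, ai3sel (decide (t 0)) (decide (t 1)) (decide (t 2)) (decide (t 3)) i =
          decide (t i) := fun i => by fin_cases i <;> rfl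
      have h := ht (decide (t 0)) (decide (t 1)) (decide (t 2)) (decide (t 3))
      rw [Bool.not_eq_true', ← Bool.not_eq_true] at h
      apply h
      simp only [ai3t, Bool.and_eq_true, ai3ex_iff, ai3all_iff, Bool.or_eq_true, Bool.not_eq_true',
        ← Bool.not_eq_true, hp, hq, e, decide_eq_true_eq, beq_iff_eq, decide_eq_decide]
      refine ⟨⟨⟨⟨i, hi⟩, ⟨j, hj⟩⟩, fun a b => ?_⟩, fun a b => ?_⟩
      · have := h1 a b
        tauto
      · have := h2 a b
        tauto
    · rw [Bool.not_eq_true', ← Bool.not_eq_true] at hu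
      apply hu
      simp only [ai3u, Bool.and_eq_true, ai3ex_iff, ai3all_iff, Bool.not_eq_true',
        ← Bool.not_eq_true, hp, hq]
      exact ⟨i, j, ⟨⟨h1, h2⟩, h3⟩, h4⟩
  refine le_trans (le_of_eq ?_) hval
  unfold ai3val
  rw [ai3cnt_eq _ (fun i => ∀ j < i, ¬ (r i j ∨ (P i j ∧ P j i))),
    ai3cnt2_eq _ (fun x : Fin 4 × Fin 4 => P x.1 x.2 ∧ r x.1 x.2 ∧ ¬ ∃ j, P x.1 j ∧ P j x.2),
    ai3cnt_eq _ (fun i => ∀ j < i, ¬ r i j), ai3cnt2_eq _ (fun x : Fin 4 × Fin 4 => P x.1 x.2) hp]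
  · congr
  · intro i
    simp only [ai3all_iff, Bool.or_eq_true, Bool.not_eq_true', ← Bool.not_eq_true, hq, ai3blt,
      imp_iff_not_or]
  · intro i j
    simp only [Bool.and_eq_true, Bool.not_eq_true', ← Bool.not_eq_true, ai3ex_iff, hp, hq, and_assoc]
  · intro i
    simp only [ai3all_iff, Bool.or_eq_true, Bool.and_eq_true, Bool.not_eq_true', ← Bool.not_eq_true,
      hp, hq, ai3blt, imp_iff_not_or]

end Pool.Agent.MP_8299d6_al.Up

end
end

section

open Matrix

noncomputable section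

namespace Pool.Agent.MP_8299d6_al.Up

open Pool.Agent.MP_810665_al (IrrChar)

section Gen
open Pool.Agent.MP_810665_al Module

variable {S G A : Type} [Group S] [Group G] [CommGroup A]

/-- the irreducible character `σ` occurs in the restriction of `ρ` -/
def trIn (ι : S →* G) (σ : S → ℂ) {V : Type} [AddCommGroup V] [Module ℂ V]
    (ρ : Representation ℂ G V) : Prop :=
  ∃ (W : Type) (_ : AddCommGroup W) (_ : Module ℂ W) (_ : FiniteDimensional ℂ W)
    (τ : Representation ℂ S W) (T : W →ₗ[ℂ] V), τ.IsIrreducible ∧ τ.character = σ ∧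
    Function.Injective T ∧ ∀ x w, T (τ x w) = ρ (ι x) (T w)

/-- the irreducible character `σ` lies under the irreducible character `χ` -/
def trUnder (ι : S →* G) (σ : S → ℂ) (χ : G → ℂ) : Prop :=
  ∃ (V : Type) (_ : AddCommGroup V) (_ : Module ℂ V) (_ : FiniteDimensional ℂ V)
    (ρ : Representation ℂ G V), ρ.IsIrreducible ∧ ρ.character = χ ∧ trIn ι σ ρ

/-- a normal subgroup with abelian quotient, and central elements -/
structure trSet (ι : S →* G) (D : G →* A) (B : Subgroup A) : Prop where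
  inj : Function.Injective ι
  one : ∀ x, D (ι x) = 1
  ker : ∀ g, D g = 1 → ∃ x, ι x = g
  cen : ∀ b ∈ B, ∃ z, (∀ g, z * g = g * z) ∧ D z = b

theorem tr_indep {ι V : Type} [AddCommGroup V] [Module ℂ V] [FiniteDimensional ℂ V] (F : Finset ι)
    (U : ι → Submodule ℂ V) (P : ι → V →ₗ[ℂ] V) (h1 : ∀ i ∈ F, ∀ u ∈ U i, P i u = 0 → u = 0)
    (h2 : ∀ i ∈ F, ∀ j ∈ F, j ≠ i → ∀ u ∈ U j, P i u = 0) :
    ∑ i ∈ F, finrank ℂ (U i) ≤ finrank ℂ V := by
  classical
  let Φ : (∀ i : F, U i) →ₗ[ℂ] V := ∑ i : F, (U i).subtype ∘ₗ LinearMap.proj i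
  have hΦ : Function.Injective Φ := by
    rw [injective_iff_map_eq_zero]
    intro f hf
    funext i
    have h3 : P i (Φ f) = P i (f i) := by
      simp only [Φ, LinearMap.sum_apply, map_sum, LinearMap.comp_apply, LinearMap.proj_apply,
        Submodule.subtype_apply]
      refine Finset.sum_eq_single i (fun j _ hj => ?_) (by simp)
      exact h2 i i.2 j j.2 (fun h => hj (Subtype.ext h)) _ (f j).2
    rw [hf, map_zero] at h3
    exact Subtype.ext (h1 i i.2 _ (f i).2 h3.symm)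
  have h4 := LinearMap.finrank_le_finrank_of_injective hΦ
  rwa [finrank_pi_fintype, Finset.sum_coe_sort F fun i => finrank ℂ (U i)] at h4

variable {ι : S →* G} {D : G →* A} {B : Subgroup A}
variable {V : Type} [AddCommGroup V] [Module ℂ V] [FiniteDimensional ℂ V]

theorem tr_central {ρ : Representation ℂ G V} (hρ : ρ.IsIrreducible) {z : G}
    (hz : ∀ g, z * g = g * z) : ∃ c : ℂ, ∀ v, ρ z v = c • v :=
  schur hρ (ρ z) fun g v => by
    rw [← Module.End.mul_apply, ← map_mul, hz, map_mul, Module.End.mul_apply]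

theorem tr_char_ne {ρ : Representation ℂ G V} (hρ : ρ.IsIrreducible) {z : G}
    (hz : ∀ g, z * g = g * z) : ρ.character z ≠ 0 := by
  obtain ⟨c, hc⟩ := tr_central hρ hz
  obtain ⟨v, hv⟩ := ((irreducible_iff ρ).1 hρ).1
  have h0 : c ≠ 0 := by
    rintro rfl
    have h1 : ρ z⁻¹ (ρ z v) = v := by
      rw [← Module.End.mul_apply, ← map_mul, inv_mul_cancel, map_one, Module.End.one_apply]
    rw [hc, zero_smul, map_zero] at h1
    exact hv h1.symm
  have h1 : (finrank ℂ V : ℂ) ≠ 0 := by exact_mod_cast (finrank_pos_of_irreducible hρ).ne'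
  rw [Representation.character, show ρ z = c • LinearMap.id from LinearMap.ext hc]
  simpa using ⟨h0, by exact_mod_cast h1⟩

/-- the degree grows at most by the index -/
theorem tr_dim [Finite A] (H : trSet ι D B) {ρ : Representation ℂ G V} (hρ : ρ.IsIrreducible)
    {σ : S → ℂ} (h : trIn ι σ ρ) : (finrank ℂ V : ℝ) ≤ B.index * ‖σ 1‖ := by
  classical
  obtain ⟨W, _, _, _, τ, T, hτ, rfl, hT, hc⟩ := h
  have := Fintype.ofFinite (A ⧸ B)
  have ht : ∀ q : A ⧸ B, ∃ t : G, ∀ g : G, (D g : A ⧸ B) = q → (D t : A ⧸ B) = q := fun q => by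
    by_cases h : ∃ g : G, (D g : A ⧸ B) = q
    · obtain ⟨g, hg⟩ := h
      exact ⟨g, fun _ _ => hg⟩
    · exact ⟨1, fun g hg => absurd ⟨g, hg⟩ h⟩
  choose t ht using ht
  let Φ : (A ⧸ B → W) →ₗ[ℂ] V := ∑ q : A ⧸ B, ρ (t q) ∘ₗ T ∘ₗ LinearMap.proj q
  have hΦ : ∀ f, Φ f = ∑ q : A ⧸ B, ρ (t q) (T (f q)) := fun f => by
    simp [Φ, LinearMap.sum_apply]
  have key : ∀ g w, ρ g (T w) ∈ LinearMap.range Φ := by
    intro g w
    obtain ⟨z, hz, hz'⟩ := H.cen _ (QuotientGroup.eq.1 (ht _ g rfl))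
    obtain ⟨x, hx⟩ := H.ker ((t (D g))⁻¹ * g * z⁻¹) (by
      rw [map_mul, map_mul, map_inv, map_inv, hz', mul_inv_cancel])
    obtain ⟨c, hc'⟩ := tr_central hρ hz
    have e : g = t (D g) * ι x * z := by rw [hx]; group
    refine ⟨Pi.single (D g : A ⧸ B) (c • τ x w), ?_⟩
    rw [hΦ, Finset.sum_eq_single (D g : A ⧸ B)]
    · conv_rhs => rw [e]
      rw [Pi.single_eq_same, map_smul, hc, map_mul, map_mul, Module.End.mul_apply,
        Module.End.mul_apply, hc', map_smul, map_smul, map_smul]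
    · intro q _ hq
      rw [Pi.single_eq_of_ne hq, map_zero, map_zero]
    · simp
  have h1 : LinearMap.range Φ = ⊤ := by
    refine (((irreducible_iff ρ).1 hρ).2 _ ?_).resolve_left fun h => ?_
    · rintro g _ ⟨f, rfl⟩
      rw [hΦ, map_sum]
      refine Submodule.sum_mem _ fun q _ => ?_
      rw [← Module.End.mul_apply, ← map_mul]
      exact key _ _
    · obtain ⟨w, hw⟩ := ((irreducible_iff τ).1 hτ).1
      have h2 := key 1 w
      rw [h, map_one, Module.End.one_apply, Submodule.mem_bot] at h2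
      exact hw (hT (by rw [h2, map_zero]))
  have h2 := LinearMap.finrank_range_le Φ
  rw [h1, finrank_top, finrank_pi_fintype, Finset.sum_const, Finset.card_univ, smul_eq_mul,
    ← Nat.card_eq_fintype_card] at h2
  rw [Representation.char_one, Complex.norm_natCast, Subgroup.index_eq_card]
  exact_mod_cast h2

/-- the constituents are independent -/
theorem tr_sum [Finite S] (ρ : Representation ℂ G V) (F : Finset (S → ℂ))
    (h : ∀ σ ∈ F, trIn ι σ ρ) : ∑ σ ∈ F, ‖σ 1‖ ≤ finrank ℂ V := by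
  have := Fintype.ofFinite S
  have key : ∀ σ ∈ F, σ ∈ IrrChar S ∧ ∃ U : Submodule ℂ V, ‖σ 1‖ = finrank ℂ U ∧
      (∀ u ∈ U, proj σ (ρ.comp ι) u = 0 → u = 0) ∧
      ∀ ψ ∈ IrrChar S, σ ≠ ψ → ∀ u ∈ U, proj ψ (ρ.comp ι) u = 0 := by
    intro σ hσ
    obtain ⟨W, _, _, _, τ, T, hτ, rfl, hT, hc⟩ := h σ hσ
    have e : ∀ (ψ : S → ℂ) w, proj ψ (ρ.comp ι) (T w) = T (proj ψ τ w) := fun ψ w => by
      simp [proj_apply, hc]
    refine ⟨⟨W, _, _, inferInstance, τ, hτ, rfl⟩, LinearMap.range T, ?_, ?_, ?_⟩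
    · rw [Representation.char_one, Complex.norm_natCast, LinearMap.finrank_range_of_inj hT]
    · rintro _ ⟨w, rfl⟩ hw
      obtain ⟨c, hc0, hc1⟩ := proj_self hτ
      rw [e, hc1, map_smul] at hw
      exact (smul_eq_zero.1 hw).resolve_left hc0
    · rintro ψ hψ hne _ ⟨w, rfl⟩
      rw [e, proj_eq_zero hτ hψ hne, map_zero]
  choose! h0 U h1 h2 h3 using key
  rw [Finset.sum_congr rfl h1]
  exact_mod_cast tr_indep F U (fun σ => proj σ (ρ.comp ι)) h2
    fun σ hσ ψ hψ hne => h3 ψ hψ σ (h0 σ hσ) hne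

theorem tr_transport [Finite G] {ρ : Representation ℂ G V} (hρ : ρ.IsIrreducible) {σ : S → ℂ}
    (h : trUnder ι σ ρ.character) : trIn ι σ ρ := by
  have := Fintype.ofFinite G
  obtain ⟨V', _, _, _, ρ', hρ', he, W, _, _, _, τ, T, hτ, hσ, hT, hc⟩ := h
  obtain ⟨e⟩ := equiv_of_char_eq hρ' hρ he
  refine ⟨W, _, _, inferInstance, τ, e.toLinearEquiv.toLinearMap ∘ₗ T, hτ, hσ,
    e.toLinearEquiv.injective.comp hT, fun x w => ?_⟩
  rw [LinearMap.comp_apply, LinearMap.comp_apply, hc]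
  exact e.toIntertwiningMap.isIntertwining _ _ _ _

theorem tr_deg [Finite A] (H : trSet ι D B) {σ : S → ℂ} {χ : G → ℂ} (h : trUnder ι σ χ) :
    ‖χ 1‖ ≤ B.index * ‖σ 1‖ := by
  obtain ⟨V, _, _, _, ρ, hρ, rfl, h⟩ := h
  rw [Representation.char_one, Complex.norm_natCast]
  exact tr_dim H hρ h

theorem tr_count [Finite S] [Finite G] [Finite A] (H : trSet ι D B) {χ : G → ℂ} (hχ : χ ∈ Irr G)
    (F : Finset (S → ℂ)) (h : ∀ σ ∈ F, trUnder ι σ χ) : F.card ≤ B.index := by
  obtain ⟨V, _, _, _, ρ, hρ, rfl⟩ := mem_Irr.1 hχ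
  have h1 := tr_sum ρ F fun σ hσ => tr_transport hρ (h σ hσ)
  have h2 : (F.card : ℝ) * finrank ℂ V ≤ B.index * ∑ σ ∈ F, ‖σ 1‖ := by
    rw [Finset.mul_sum, ← nsmul_eq_mul]
    exact Finset.card_nsmul_le_sum _ _ _ fun σ hσ => tr_dim H hρ (tr_transport hρ (h σ hσ))
  have h3 : (0 : ℝ) < finrank ℂ V := by exact_mod_cast finrank_pos_of_irreducible hρ
  have h4 := h2.trans (mul_le_mul_of_nonneg_left h1 (Nat.cast_nonneg _))
  exact_mod_cast le_of_mul_le_mul_right h4 h3

theorem tr_ker [Finite S] [Finite G] {σ : S → ℂ} {χ : G → ℂ} (h : trUnder ι σ χ) {x : S}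
    (hx : InKer χ (ι x)) : InKer σ x := by
  obtain ⟨V, _, _, _, ρ, hρ, rfl, W, _, _, _, τ, T, hτ, rfl, hT, hc⟩ := h
  rw [inKer_iff hρ] at hx
  rw [inKer_iff hτ]
  ext w
  apply hT
  rw [hc, hx]
  rfl

/-- twist by a linear character -/
def trTw (φ : G →* ℂˣ) (ρ : Representation ℂ G V) : Representation ℂ G V where
  toFun g := (φ g : ℂ) • ρ g
  map_one' := by simp
  map_mul' g h := by rw [map_mul, map_mul, smul_mul_smul_comm, Units.val_mul]

omit [FiniteDimensional ℂ V] in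
theorem trTw_apply (φ : G →* ℂˣ) (ρ : Representation ℂ G V) (g : G) (v : V) :
    trTw φ ρ g v = (φ g : ℂ) • ρ g v := rfl

omit [FiniteDimensional ℂ V] in
theorem trTw_char (φ : G →* ℂˣ) (ρ : Representation ℂ G V) (g : G) :
    (trTw φ ρ).character g = φ g * ρ.character g := by
  rw [Representation.character, Representation.character, ← smul_eq_mul, ← map_smul]
  rfl

omit [FiniteDimensional ℂ V] in
theorem trTw_irr (φ : G →* ℂˣ) {ρ : Representation ℂ G V} (hρ : ρ.IsIrreducible) :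
    (trTw φ ρ).IsIrreducible := by
  rw [MP_810665_al.irreducible_iff] at hρ ⊢
  refine ⟨hρ.1, fun U hU => hρ.2 U fun g v hv => ?_⟩
  exact (U.smul_mem_iff (φ g).ne_zero).1 (hU g v hv)

theorem tr_many [Finite S] [Finite G] [Finite A] (H : trSet ι D B) {σ : S → ℂ} (hσ : σ ∈ Irr S)
    (F : Finset (G → ℂ)) (h : ∀ χ, trUnder ι σ χ → χ ∈ F) : Nat.card B ≤ F.card := by
  obtain ⟨W, _, _, _, τ, hτ, rfl⟩ := mem_Irr.1 hσ
  obtain ⟨V, _, _, _, ρ, T, hρ, hT, hc⟩ := exists_over ι H.inj τ hτ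
  have : NeZero (Monoid.exponent A : ℂ) := ⟨Nat.cast_ne_zero.2 Monoid.exponent_ne_zero_of_finite⟩
  have : NeZero (Monoid.exponent B : ℂ) := ⟨Nat.cast_ne_zero.2 Monoid.exponent_ne_zero_of_finite⟩
  choose φ hφ using MonoidHom.domRestrict_surjective ℂ B
  rw [← CommGroup.card_monoidHom_of_hasEnoughRootsOfUnity B ℂ, ← Fintype.card_coe F,
    ← Nat.card_eq_fintype_card]
  refine Nat.card_le_card_of_injective
    (fun ψ => (⟨(trTw ((φ ψ).comp D) ρ).character, h _ ⟨V, _, _, inferInstance, _, trTw_irr _ hρ,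
      rfl, W, _, _, inferInstance, τ, T, hτ, rfl, hT, fun x w => ?_⟩⟩ : F)) fun ψ ψ' he => ?_
  · rw [trTw_apply, MonoidHom.comp_apply, H.one, map_one, Units.val_one, one_smul, hc]
  · rw [← hφ ψ, ← hφ ψ']
    ext b
    obtain ⟨z, hz, hz'⟩ := H.cen b b.2
    have h1 := congrFun (congrArg Subtype.val he) z
    simp only [trTw_char, MonoidHom.comp_apply, hz'] at h1
    exact mul_right_cancel₀ (tr_char_ne hρ hz) h1

theorem tr_gen [Finite S] [Finite G] [Finite A] (H : trSet ι D B) {I : ℕ} (hI : B.index ≤ I)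
    (N : Set S) {s : ℝ} (hs : 0 ≤ s) :
    Zs S (fun σ => ∃ x ∈ N, ¬ InKer σ x) s ≤ (I : ℝ) ^ (2 + s) / Nat.card A *
      Zs G (fun χ => ∃ x ∈ N, ¬ InKer χ (ι x)) s := by
  classical
  have hI0 : (0 : ℝ) < I := by
    exact_mod_cast lt_of_lt_of_le (Nat.pos_of_ne_zero Subgroup.index_ne_zero_of_finite) hI
  have hI1 : (B.index : ℝ) ≤ I := by exact_mod_cast hI
  have hA : (0 : ℝ) < Nat.card A := by exact_mod_cast Nat.card_pos
  unfold Zs
  set FS := (Irr S).filter fun σ => ∃ x ∈ N, ¬ InKer σ x with hFS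
  set FG := (Irr G).filter fun χ => ∃ x ∈ N, ¬ InKer χ (ι x) with hFG
  rw [div_mul_eq_mul_div, le_div_iff₀ hA, Finset.sum_mul]
  have h1 : ∀ σ ∈ FS, ‖σ 1‖ ^ (-s) * Nat.card A ≤
      ∑ χ ∈ FG, if trUnder ι σ χ then (I : ℝ) ^ (1 + s) * ‖χ 1‖ ^ (-s) else 0 := by
    intro σ hσ
    obtain ⟨hσ1, x, hx, hx'⟩ := Finset.mem_filter.1 hσ
    have h2 := tr_many H hσ1 (FG.filter fun χ => trUnder ι σ χ) fun χ hχ => by
      refine Finset.mem_filter.2 ⟨Finset.mem_filter.2 ⟨?_, x, hx, fun h => hx' (tr_ker hχ h)⟩, hχ⟩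
      obtain ⟨V, _, _, _, ρ, hρ, he, _⟩ := hχ
      exact mem_Irr.2 ⟨V, _, _, inferInstance, ρ, hρ, he⟩
    have h3 : (Nat.card A : ℝ) ≤ (FG.filter fun χ => trUnder ι σ χ).card * I := by
      rw [← B.card_mul_index]
      exact_mod_cast Nat.mul_le_mul h2 hI
    have h4 := one_le_deg hσ1
    rw [← Finset.sum_filter]
    calc ‖σ 1‖ ^ (-s) * Nat.card A
        ≤ ‖σ 1‖ ^ (-s) * ((FG.filter fun χ => trUnder ι σ χ).card * I) := by gcongr
      _ = (FG.filter fun χ => trUnder ι σ χ).card • (I * ‖σ 1‖ ^ (-s)) := by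
          rw [nsmul_eq_mul]; ring
      _ ≤ _ := by
          refine Finset.card_nsmul_le_sum _ _ _ fun χ hχ => ?_
          obtain ⟨hχ1, hχ2⟩ := Finset.mem_filter.1 hχ
          have h5 := one_le_deg (Finset.mem_filter.1 hχ1).1
          have h6 : ‖χ 1‖ ≤ I * ‖σ 1‖ := (tr_deg H hχ2).trans (by gcongr)
          have h7 : (I * ‖σ 1‖) ^ (-s) ≤ ‖χ 1‖ ^ (-s) :=
            Real.rpow_le_rpow_of_nonpos (by linarith) h6 (by linarith)
          rw [Real.mul_rpow hI0.le (norm_nonneg _)] at h7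
          calc (I : ℝ) * ‖σ 1‖ ^ (-s) = (I : ℝ) ^ (1 + s) * ((I : ℝ) ^ (-s) * ‖σ 1‖ ^ (-s)) := by
                rw [← mul_assoc, ← Real.rpow_add hI0]; simp
            _ ≤ _ := by gcongr
  refine (Finset.sum_le_sum h1).trans ?_
  rw [Finset.sum_comm, Finset.mul_sum]
  refine Finset.sum_le_sum fun χ hχ => ?_
  have h2 := tr_count H (Finset.mem_filter.1 hχ).1 (FS.filter fun σ => trUnder ι σ χ)
    fun σ hσ => (Finset.mem_filter.1 hσ).2
  have h3 : ((FS.filter fun σ => trUnder ι σ χ).card : ℝ) ≤ I := by exact_mod_cast h2.trans hI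
  rw [← Finset.sum_filter, Finset.sum_const, nsmul_eq_mul]
  calc _ ≤ (I : ℝ) * ((I : ℝ) ^ (1 + s) * ‖χ 1‖ ^ (-s)) := by gcongr
    _ = _ := by
      rw [← mul_assoc, show 2 + s = 1 + (1 + s) by ring, Real.rpow_add hI0 1 (1 + s),
        Real.rpow_one]

end Gen

theorem transfer (n : ℕ) (hn : 1 ≤ n) (R : Type) [CommRing R] [Finite R] (I : ℕ)
    (hI : (powMonoidHom n : Rˣ →* Rˣ).range.index ≤ I) (N : Set (SLn n R)) {s : ℝ} (hs : 0 ≤ s) :
    Zs (SLn n R) (fun σ => ∃ x ∈ N, ¬ InKer σ x) s ≤ (I : ℝ) ^ (2 + s) / Nat.card Rˣ *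
      Zs (GLn n R) (fun χ => ∃ x ∈ N, ¬ InKer χ (inGL n R x)) s := by
  have _ := hn
  refine tr_gen (D := (GeneralLinearGroup.det : GLn n R →* Rˣ))
    ⟨SpecialLinearGroup.toGL_injective, SpecialLinearGroup.coeToGL_det, fun g hg => ?_, ?_⟩ hI N hs
  · exact ⟨⟨g.1, congrArg Units.val hg⟩, Units.ext rfl⟩
  · rintro _ ⟨u, rfl⟩
    refine ⟨GeneralLinearGroup.scalar (Fin n) u, GeneralLinearGroup.scalar_commute u, ?_⟩
    rw [GeneralLinearGroup.det_scalar, Fintype.card_fin, powMonoidHom_apply]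

end Pool.Agent.MP_8299d6_al.Up

end
end

section

open Matrix

noncomputable section

namespace Pool.Agent.MP_8299d6_al.Up

open Pool.Agent.MP_810665_al (IrrChar)

section Elim
variable {n : ℕ} {R : Type} [CommRing R]

/-- the columns outside `S` are the standard ones -/
def gen_Std (S : Finset (Fin n)) (g : SLn n R) : Prop :=
  ∀ j ∉ S, ∀ i, g.1 i j = (1 : Mat n R) i j

lemma gen_same {a b : Fin n} (h : a ≠ b) (x : R) (g : SLn n R) (j : Fin n) :
    (el h x * g).1 a j = g.1 a j + x * g.1 b j :=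
  transvection_mul_apply_same a b j x g.1

lemma gen_ne {a b : Fin n} (h : a ≠ b) (x : R) (g : SLn n R) {i : Fin n} (hi : i ≠ a)
    (j : Fin n) : (el h x * g).1 i j = g.1 i j :=
  transvection_mul_apply_of_ne a b i j hi x g.1

lemma gen_std_mul {S : Finset (Fin n)} {a b : Fin n} (h : a ≠ b) (x : R) (hb : b ∈ S)
    {g : SLn n R} (hg : gen_Std S g) : gen_Std S (el h x * g) := by
  intro j hj i
  by_cases hi : i = a
  · subst hi
    have hbj : b ≠ j := fun e => hj (e ▸ hb)
    rw [gen_same, hg j hj, hg j hj, one_apply_ne hbj, mul_zero, add_zero]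
  · rw [gen_ne h x g hi, hg j hj]

lemma gen_cancel {H : Subgroup (SLn n R)}
    (hH : ∀ (i j : Fin n) (hij : i ≠ j) (x : R), el hij x ∈ H) {a b : Fin n} (h : a ≠ b) (x : R)
    {g : SLn n R} (hg : el h x * g ∈ H) : g ∈ H :=
  (H.mul_mem_cancel_left (hH a b h x)).1 hg

lemma gen_clear {H : Subgroup (SLn n R)}
    (hH : ∀ (i j : Fin n) (hij : i ≠ j) (x : R), el hij x ∈ H) {S : Finset (Fin n)} {k : Fin n}
    (ih : ∀ g : SLn n R, gen_Std S g → g ∈ H) (T : Finset (Fin n)) :
    ∀ g : SLn n R, gen_Std (insert k S) g → g.1 k k = 1 → (∀ a ∉ T, a ≠ k → g.1 a k = 0) →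
      g ∈ H := by
  induction T using Finset.induction_on with
  | empty =>
    intro g hg h1 h0
    refine ih g fun j hj i => ?_
    by_cases hjk : j = k
    · subst hjk
      by_cases hi : i = j
      · subst hi; rw [h1, one_apply_eq]
      · rw [h0 i (by simp) hi, one_apply_ne hi]
    · exact hg j (by simp [hjk, hj]) i
  | insert a T _ ihT =>
    intro g hg h1 h0
    by_cases hak : a = k
    · exact ihT g hg h1 fun c hc hck => h0 c (by simp [hc, hak, hck]) hck
    · refine gen_cancel hH hak (-g.1 a k) (ihT _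
        (gen_std_mul hak _ (Finset.mem_insert_self k S) hg) ?_ ?_)
      · rw [gen_ne hak _ g (Ne.symm hak), h1]
      · intro c hc hck
        by_cases hca : c = a
        · subst hca
          rw [gen_same, h1]; ring
        · rw [gen_ne hak _ g hca]
          exact h0 c (by simp [hc, hca]) hck

lemma gen_one {H : Subgroup (SLn n R)}
    (hH : ∀ (i j : Fin n) (hij : i ≠ j) (x : R), el hij x ∈ H) {S : Finset (Fin n)} {k : Fin n}
    (ih : ∀ g : SLn n R, gen_Std S g → g ∈ H) (g : SLn n R) (hg : gen_Std (insert k S) g)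
    (h1 : g.1 k k = 1) : g ∈ H :=
  gen_clear hH ih Finset.univ g hg h1 fun a ha => absurd (Finset.mem_univ a) ha

lemma gen_unit {H : Subgroup (SLn n R)}
    (hH : ∀ (i j : Fin n) (hij : i ≠ j) (x : R), el hij x ∈ H) {S : Finset (Fin n)} {k : Fin n}
    (ih : ∀ g : SLn n R, gen_Std S g → g ∈ H) (g : SLn n R) (hg : gen_Std (insert k S) g)
    {b : Fin n} (hb : b ∈ insert k S) (hbk : k ≠ b) (hu : IsUnit (g.1 b k)) : g ∈ H := by
  obtain ⟨v, hv⟩ := hu.exists_left_inv
  refine gen_cancel hH hbk ((1 - g.1 k k) * v) (gen_one hH ih _ (gen_std_mul hbk _ hb hg) ?_)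
  rw [gen_same, mul_assoc, hv]; ring

lemma gen_unimod {S : Finset (Fin n)} {g : SLn n R} (hg : gen_Std S g) {k : Fin n} (hk : k ∈ S) :
    ∑ b ∈ S, (g⁻¹).1 k b * g.1 b k = 1 := by
  have e : (g⁻¹).1 * g.1 = 1 := congrArg Subtype.val (inv_mul_cancel g)
  have h0 : ∀ j ∉ S, (g⁻¹).1 k j = 0 := by
    intro j hj
    have h1 := congrFun (congrFun e k) j
    have hkj : k ≠ j := fun e => hj (e ▸ hk)
    rw [mul_apply, one_apply_ne hkj] at h1
    rw [← h1, Finset.sum_eq_single j]
    · rw [hg j hj, one_apply_eq, mul_one]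
    · intro c _ hc
      rw [hg j hj, one_apply_ne hc, mul_zero]
    · simp
  have h1 := congrFun (congrFun e k) k
  rw [mul_apply, one_apply_eq] at h1
  refine Eq.trans (Finset.sum_subset (Finset.subset_univ S) fun j _ hj => ?_) h1
  rw [h0 j hj, zero_mul]

lemma gen_single {k : Fin n} {g : SLn n R} (hg : gen_Std {k} g) : g.1 k k = 1 := by
  have e : g.1 = (1 : Mat n R).updateCol k (fun i => g.1 i k) := by
    ext i j
    by_cases hj : j = k
    · subst hj; simp
    · rw [updateCol_ne hj, hg j (by simpa using hj)]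
  have h := g.2
  rw [e, ← cramer_apply, cramer_one] at h
  simpa using h

lemma gen_step {H : Subgroup (SLn n R)}
    (hH : ∀ (i j : Fin n) (hij : i ≠ j) (x : R), el hij x ∈ H) (f : R → ℕ)
    (hf : ∀ a b : R, b ≠ 0 → ∃ q, f (a + q * b) < f b) {S : Finset (Fin n)} {k : Fin n}
    (hk : k ∉ S) (ih : ∀ g : SLn n R, gen_Std S g → g ∈ H) (N : ℕ) :
    ∀ g : SLn n R, gen_Std (insert k S) g → ∑ b ∈ insert k S, f (g.1 b k) = N → g ∈ H := by
  induction N using Nat.strong_induction_on with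
  | _ N ihN =>
  intro g hg hN
  by_cases h2 : ∃ a ∈ insert k S, ∃ b ∈ insert k S, a ≠ b ∧ g.1 b k ≠ 0 ∧
      f (g.1 b k) ≤ f (g.1 a k)
  · obtain ⟨a, ha, b, hb, hab, hb0, hle⟩ := h2
    obtain ⟨q, hq⟩ := hf (g.1 a k) (g.1 b k) hb0
    refine gen_cancel hH hab q (ihN _ ?_ _ (gen_std_mul hab q hb hg) rfl)
    rw [← hN]
    refine Finset.sum_lt_sum (fun c _ => ?_) ⟨a, ha, ?_⟩
    · by_cases hc : c = a
      · subst hc; rw [gen_same]; omega
      · rw [gen_ne hab q g hc]
    · rw [gen_same]; omega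
  push Not at h2
  have hum := gen_unimod hg (Finset.mem_insert_self k S)
  by_cases h3 : ∃ b ∈ insert k S, g.1 b k ≠ 0
  · obtain ⟨b, hb, hb0⟩ := h3
    have hz : ∀ a ∈ insert k S, a ≠ b → g.1 a k = 0 := by
      intro a ha hab
      by_contra ha0
      have h4 := h2 a ha b hb hab hb0
      have h5 := h2 b hb a ha hab.symm ha0
      omega
    rw [Finset.sum_eq_single_of_mem b hb (fun a ha hab => by rw [hz a ha hab, mul_zero])] at hum
    have hu : IsUnit (g.1 b k) := IsUnit.of_mul_eq_one_right _ hum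
    by_cases hbk : k = b
    · subst hbk
      rcases S.eq_empty_or_nonempty with hS | ⟨l, hl⟩
      · subst hS
        exact gen_one hH ih g hg (gen_single (by simpa using hg))
      · have hlk : l ≠ k := fun e => hk (e ▸ hl)
        have hl' : l ∈ insert k S := Finset.mem_insert_of_mem hl
        refine gen_cancel hH hlk 1 (gen_unit hH ih _ (gen_std_mul hlk 1 hb hg) hl' hlk.symm ?_)
        rw [gen_same, hz l hl' hlk, zero_add, one_mul]
        exact hu
    · exact gen_unit hH ih g hg hb hbk hu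
  · push Not at h3
    rw [Finset.sum_eq_zero (fun a ha => by rw [h3 a ha, mul_zero])] at hum
    have : Subsingleton R := subsingleton_of_zero_eq_one hum
    exact gen_one hH ih g hg (Subsingleton.elim _ _)

lemma gen_main {H : Subgroup (SLn n R)}
    (hH : ∀ (i j : Fin n) (hij : i ≠ j) (x : R), el hij x ∈ H) (f : R → ℕ)
    (hf : ∀ a b : R, b ≠ 0 → ∃ q, f (a + q * b) < f b) : H = ⊤ := by
  have key : ∀ S : Finset (Fin n), ∀ g : SLn n R, gen_Std S g → g ∈ H := by
    intro S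
    induction S using Finset.induction_on with
    | empty =>
      intro g hg
      have : g = 1 := Subtype.ext (Matrix.ext fun i j => hg j (by simp) i)
      rw [this]; exact H.one_mem
    | insert k S hk ih => exact fun g hg => gen_step hH f hf hk ih _ g hg rfl
  rw [eq_top_iff]
  exact fun g _ => key Finset.univ g fun j hj => absurd (Finset.mem_univ j) hj

end Elim

theorem el_comm {n : ℕ} {R : Type} [CommRing R] {i j k : Fin n} (hij : i ≠ j) (hjk : j ≠ k)
    (hik : i ≠ k) (x y : R) :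
    el hij x * el hjk y * (el hij x)⁻¹ * (el hjk y)⁻¹ = el hik (x * y) := by
  rw [mul_inv_eq_iff_eq_mul, mul_inv_eq_iff_eq_mul]
  apply Subtype.ext
  show ((1 : Mat n R) + single i j x) * (1 + single j k y) =
    (1 + single i k (x * y)) * (1 + single j k y) * (1 + single i j x)
  simp only [mul_add, add_mul,
    mul_one, one_mul, single_mul_single_same, single_mul_single_of_ne _ _ _ _ hik.symm,
    single_mul_single_of_ne _ _ _ _ hjk.symm, add_zero]
  abel

theorem el_commute {n : ℕ} {R : Type} [CommRing R] {i j k l : Fin n} (hij : i ≠ j) (hkl : k ≠ l)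
    (hjk : j ≠ k) (hil : i ≠ l) (x y : R) : Commute (el hij x) (el hkl y) := by
  apply Subtype.ext
  show ((1 : Mat n R) + single i j x) * (1 + single k l y) =
    (1 + single k l y) * (1 + single i j x)
  simp only [mul_add, add_mul,
    mul_one, one_mul, single_mul_single_of_ne _ _ _ _ hjk,
    single_mul_single_of_ne _ _ _ _ hil.symm, add_zero]
  abel

theorem el_pow {n : ℕ} {R : Type} [CommRing R] {i j : Fin n} (hij : i ≠ j) (x : R) (m : ℕ) :
    el hij x ^ m = el hij ((m : R) * x) := by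
  induction m with
  | zero => simp
  | succ m ih =>
    rw [pow_succ, ih, ← SpecialLinearGroup.transvection_add]
    congr 1
    push_cast; ring

theorem map_el {n : ℕ} {R S : Type} [CommRing R] [CommRing S] (f : R →+* S) {i j : Fin n}
    (hij : i ≠ j) (x : R) : SpecialLinearGroup.map f (el hij x) = el hij (f x) := by
  apply Subtype.ext
  show f.mapMatrix ((1 : Mat n R) + single i j x) = (1 : Mat n S) + single i j (f x)
  rw [map_add, map_one, RingHom.mapMatrix_apply, map_single]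

theorem gen_int (n : ℕ) (H : Subgroup (SLn n ℤ))
    (h : ∀ (i j : Fin n) (hij : i ≠ j), el hij (1 : ℤ) ∈ H) : H = ⊤ := by
  refine gen_main (fun i j hij x => ?_) Int.natAbs fun a b hb => ⟨-(a / b), ?_⟩
  · have h1 : ∀ m : ℕ, el hij (m : ℤ) ∈ H := fun m => by
      have := H.pow_mem (h i j hij) m
      rwa [el_pow, mul_one] at this
    obtain ⟨m, rfl | rfl⟩ := x.eq_nat_or_neg
    · exact h1 m
    · have := H.inv_mem (h1 m)
      rwa [SpecialLinearGroup.transvection_inv] at this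
  · have e : a + -(a / b) * b = a % b := by rw [Int.emod_def]; ring
    rw [e]
    have h1 := Int.emod_nonneg a hb
    have h2 := Int.emod_lt_abs a hb
    have h3 : |b| = (b.natAbs : ℤ) := (Int.natCast_natAbs b).symm
    omega

theorem gen_field (n : ℕ) (F : Type) [Field F] (H : Subgroup (SLn n F))
    (h : ∀ (i j : Fin n) (hij : i ≠ j) (x : F), el hij x ∈ H) : H = ⊤ := by
  classical
  refine gen_main h (fun x => if x = 0 then 0 else 1) fun a b hb => ⟨-(a / b), ?_⟩
  have e : a + -(a / b) * b = 0 := by field_simp; ring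
  rw [if_pos e, if_neg hb]
  exact Nat.one_pos

theorem redSL_surj (n m : ℕ) [NeZero m] : Function.Surjective (redSL n m) := by
  rw [← MonoidHom.range_eq_top]
  refine gen_main (fun i j hij x => ?_) ZMod.val fun a b hb => ⟨-((a.val / b.val : ℕ) : ZMod m), ?_⟩
  · obtain ⟨y, rfl⟩ := ZMod.intCast_surjective x
    exact ⟨el hij y, map_el _ hij y⟩
  · have hb' : 0 < b.val := Nat.pos_of_ne_zero (by rwa [Ne, ZMod.val_eq_zero])
    have e : a + -((a.val / b.val : ℕ) : ZMod m) * b = ((a.val % b.val : ℕ) : ZMod m) := by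
      have h1 := congrArg (Nat.cast : ℕ → ZMod m) (Nat.mod_add_div a.val b.val)
      rw [Nat.cast_add, Nat.cast_mul, ZMod.natCast_zmod_val, ZMod.natCast_zmod_val] at h1
      linear_combination -h1
    have h2 := Nat.mod_lt a.val hb'
    rw [e, ZMod.val_natCast, Nat.mod_eq_of_lt (h2.trans (ZMod.val_lt b))]
    exact h2

end Pool.Agent.MP_8299d6_al.Up

end
end

section

open Matrix

noncomputable section

namespace Pool.Agent.MP_8299d6_al.Up

section Eig
variable {F : Type} [Field F] [Fintype F] [DecidableEq F] {ψ : AddChar F ℂ}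
  {ι : Type} [Fintype ι] [DecidableEq ι] {V : Type} [AddCommGroup V] [Module ℂ V]

lemma f0a_sum (hψ : ψ.IsPrimitive) (v : ι → F) :
    ∑ ξ : ι → F, ψ (ξ ⬝ᵥ v) = if v = 0 then (Fintype.card (ι → F) : ℂ) else 0 := by
  split_ifs with h
  · simp [h]
  · obtain ⟨i, hi⟩ := Function.ne_iff.1 h
    let χ : AddChar (ι → F) ℂ := ψ.compAddMonoidHom
      { toFun := fun ξ => ξ ⬝ᵥ v, map_zero' := zero_dotProduct v
        map_add' := fun x y => add_dotProduct x y v }
    have hχ : χ ≠ 0 := by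
      intro h0
      apply hψ hi
      ext t
      have := DFunLike.congr_fun h0 (Pi.single i t)
      simpa [χ, mul_comm] using this
    exact AddChar.sum_eq_zero_iff_ne_zero.2 hχ

/-- joint eigenspace inside `U` -/
def f0aE (ψ : AddChar F ℂ) (T : (ι → F) → Module.End ℂ V) (U : Submodule ℂ V) (ξ : ι → F) :
    Submodule ℂ V where
  carrier := {x | x ∈ U ∧ ∀ v, T v x = ψ (ξ ⬝ᵥ v) • x}
  zero_mem' := ⟨zero_mem _, fun v => by simp⟩
  add_mem' := fun {x y} hx hy =>
    ⟨add_mem hx.1 hy.1, fun v => by rw [map_add, hx.2, hy.2, smul_add]⟩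
  smul_mem' := fun c x hx =>
    ⟨U.smul_mem c hx.1, fun v => by rw [map_smul, hx.2, smul_comm]⟩

lemma f0a_exists (hψ : ψ.IsPrimitive) {T : (ι → F) → Module.End ℂ V} {U : Submodule ℂ V}
    (hT : ∀ v w, T (v + w) = T v * T w) (h0 : T 0 = 1) (hU : ∀ v, ∀ x ∈ U, T v x ∈ U)
    {v₀ : ι → F} {x : V} (hx : x ∈ U) (hne : T v₀ x ≠ x) :
    ∃ ξ, ξ ≠ 0 ∧ ∃ y ∈ f0aE ψ T U ξ, y ≠ 0 := by
  by_contra hc
  push Not at hc
  have hP : ∀ ξ : ι → F, ∑ v, ψ (-(ξ ⬝ᵥ v)) • T v x ∈ f0aE ψ T U ξ := by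
    intro ξ
    refine ⟨U.sum_mem fun v _ => U.smul_mem _ (hU v x hx), fun w => ?_⟩
    rw [map_sum, Finset.smul_sum]
    refine Fintype.sum_equiv (Equiv.addLeft w) _ _ fun v => ?_
    rw [Equiv.coe_addLeft, map_smul, hT, smul_smul, ← AddChar.map_add_eq_mul, dotProduct_add]
    congr 2
    ring
  have hS : ∑ ξ : ι → F, ∑ v, ψ (-(ξ ⬝ᵥ v)) • T v x = (Fintype.card (ι → F) : ℂ) • x := by
    rw [Finset.sum_comm]
    have : ∀ v : ι → F, ∑ ξ : ι → F, ψ (-(ξ ⬝ᵥ v)) • T v x =
        if v = 0 then (Fintype.card (ι → F) : ℂ) • x else 0 := by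
      intro v
      rw [← Finset.sum_smul]
      simp_rw [← dotProduct_neg]
      rw [f0a_sum hψ]
      by_cases hv : v = 0
      · simp [hv, h0]
      · simp [hv]
    simp_rw [this]
    simp
  rw [Finset.sum_eq_single 0 (fun ξ _ hξ => hc ξ hξ _ (hP ξ)) (by simp)] at hS
  have h1 := (hP 0).2 v₀
  rw [hS, map_smul] at h1
  simp only [zero_dotProduct, AddChar.map_zero_eq_one, one_smul] at h1
  have hcard : (Fintype.card (ι → F) : ℂ) ≠ 0 := Nat.cast_ne_zero.2 Fintype.card_ne_zero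
  exact hne (smul_right_injective V hcard h1)

lemma f0a_dim [FiniteDimensional ℂ V] (hψ : ψ.IsPrimitive) {T : (ι → F) → Module.End ℂ V}
    {U : Submodule ℂ V} (W : Submodule ℂ V) (S : Finset (ι → F))
    (h : ∀ ξ ∈ S, ∃ g : Module.End ℂ V, Function.Injective g ∧ ∀ x ∈ W, g x ∈ f0aE ψ T U ξ) :
    S.card * Module.finrank ℂ W ≤ Module.finrank ℂ U := by
  choose g hg hW using h
  let Φ : (S → W) →ₗ[ℂ] U := LinearMap.codRestrict U
    (∑ ξ : S, (g ξ.1 ξ.2).comp (W.subtype.comp (LinearMap.proj ξ))) (fun f => by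
      rw [LinearMap.sum_apply]
      exact U.sum_mem fun ξ _ => (hW ξ.1 ξ.2 _ (f ξ).2).1)
  have hΦ : Function.Injective Φ := by
    rw [injective_iff_map_eq_zero]
    intro f hf
    have h1 : ∑ ξ : S, g ξ.1 ξ.2 (f ξ) = 0 := by
      have := congrArg Subtype.val hf
      simpa [Φ, LinearMap.sum_apply] using this
    funext η
    have h2 : ∑ v : ι → F, ψ (-(η.1 ⬝ᵥ v)) • T v (∑ ξ : S, g ξ.1 ξ.2 (f ξ)) = 0 := by
      rw [h1]; simp
    simp_rw [map_sum, Finset.smul_sum] at h2
    rw [Finset.sum_comm] at h2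
    have h3 : ∀ ξ : S, ∑ v : ι → F, ψ (-(η.1 ⬝ᵥ v)) • T v (g ξ.1 ξ.2 (f ξ)) =
        if ξ = η then (Fintype.card (ι → F) : ℂ) • g ξ.1 ξ.2 (f ξ) else 0 := by
      intro ξ
      have e : ∀ v : ι → F, ψ (-(η.1 ⬝ᵥ v)) • T v (g ξ.1 ξ.2 (f ξ)) =
          ψ (v ⬝ᵥ (ξ.1 - η.1)) • g ξ.1 ξ.2 (f ξ) := by
        intro v
        rw [(hW ξ.1 ξ.2 _ (f ξ).2).2 v, smul_smul, ← AddChar.map_add_eq_mul, dotProduct_sub,
          dotProduct_comm v, dotProduct_comm v]
        congr 2
        ring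
      simp_rw [e]
      rw [← Finset.sum_smul, f0a_sum hψ]
      by_cases hξ : ξ = η
      · simp [hξ]
      · have : ξ.1 - η.1 ≠ 0 := fun h0 => hξ (Subtype.ext (sub_eq_zero.1 h0))
        simp [hξ, this]
    simp_rw [h3] at h2
    simp only [Finset.sum_ite_eq', Finset.mem_univ, if_true] at h2
    have hcard : (Fintype.card (ι → F) : ℂ) ≠ 0 := Nat.cast_ne_zero.2 Fintype.card_ne_zero
    have h4 := (smul_eq_zero.1 h2).resolve_left hcard
    exact Subtype.ext (hg η.1 η.2 (by rw [h4]; simp))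
  have := LinearMap.finrank_le_finrank_of_injective hΦ
  rwa [Module.finrank_pi_fintype, Finset.sum_const, Finset.card_univ, Fintype.card_coe,
    smul_eq_mul] at this

end Eig

section Char
variable {F : Type} [Field F] {G : Type} [Group G] {V : Type} [AddCommGroup V] [Module ℂ V]

lemma f0a_char (ρ : Representation ℂ G V) (d : Fˣ →* G) {v : V} (hv : v ≠ 0)
    (h : ∀ t, ∃ c : ℂ, ρ (d t) v = c • v) :
    ∃ φ : MulChar F ℂ, ∀ t : Fˣ, ρ (d t) v = φ t • v := by
  choose c hc using h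
  have inj : ∀ {x y : ℂ}, x • v = y • v → x = y := fun e => smul_left_injective ℂ hv e
  let χ : Fˣ →* ℂ :=
    { toFun := c
      map_one' := inj (by rw [← hc]; simp)
      map_mul' := fun s t => inj (by
        rw [← hc, map_mul, map_mul, Module.End.mul_apply, hc t, map_smul, hc s, smul_smul,
          mul_comm]) }
  exact ⟨MulChar.ofUnitHom χ.toHomUnits, fun t => by
    rw [MulChar.ofUnitHom_coe, hc]; rfl⟩

lemma f0a_eigen [Finite F] [FiniteDimensional ℂ V] (ρ : Representation ℂ G V) (d : Fˣ →* G)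
    {U : Submodule ℂ V} (hU : ∀ t, ∀ x ∈ U, ρ (d t) x ∈ U) {x : V} (hx : x ∈ U) (h0 : x ≠ 0) :
    ∃ v ∈ U, v ≠ 0 ∧ ∀ t, ∃ c : ℂ, ρ (d t) v = c • v := by
  obtain ⟨γ, hγ⟩ := IsCyclic.exists_monoid_generator (α := Fˣ)
  have : Nontrivial U := ⟨⟨x, hx⟩, 0, fun e => h0 (congrArg Subtype.val e)⟩
  obtain ⟨c, hc⟩ := Module.End.exists_eigenvalue ((ρ (d γ)).restrict (hU γ))
  obtain ⟨v, hv⟩ := hc.exists_hasEigenvector
  have e : ρ (d γ) v.1 = c • v.1 := congrArg Subtype.val hv.apply_eq_smul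
  refine ⟨v.1, v.2, fun h => hv.2 (Subtype.ext h), fun t => ?_⟩
  obtain ⟨k, rfl⟩ := hγ t
  refine ⟨c ^ k, ?_⟩
  induction k with
  | zero => simp
  | succ k ih =>
    simp only [pow_succ, map_mul, Module.End.mul_apply] at ih ⊢
    rw [e, map_smul, ih, smul_smul, mul_comm]

end Char

section Gen
variable {F : Type} [Field F] {n : ℕ}

lemma f0a_gen {m : ℕ} {β : Type} [Fintype β] [DecidableEq β] (E : Fin m ⊕ β ≃ Fin n)
    (K : Subgroup (GLn n F))
    (hK : ∀ (i : Fin m) (j : Fin n) (h : E (Sum.inl i) ≠ j) (x : F), inGL n F (el h x) ∈ K)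
    (g : GLn n F) (hg : ∀ s j, g.1 (E (Sum.inr s)) j = (1 : Mat n F) (E (Sum.inr s)) j)
    (hdet : g.1.det = 1) : g ∈ K := by
  let θ : SLn m F →* Mat n F :=
    { toFun := fun D => reindex E E (fromBlocks D.1 0 0 1)
      map_one' := by simp
      map_mul' := fun D D' => by
        simp [fromBlocks_multiply] }
  let l : Multiplicative (Matrix (Fin m) β F) →* Mat n F :=
    { toFun := fun C => reindex E E (fromBlocks 1 C.toAdd 0 1)
      map_one' := by simp
      map_mul' := fun C C' => by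
        simp [fromBlocks_multiply, add_comm] }
  have hθ : ∀ D, θ.toHomUnits D ∈ K := by
    have := gen_field m F (K.comap θ.toHomUnits) (fun i j hij x => by
      have hne : E (Sum.inl i) ≠ E (Sum.inl j) := fun e => hij (Sum.inl_injective (E.injective e))
      have e : θ.toHomUnits (el hij x) = inGL n F (el hne x) := by
        apply Units.ext
        show reindex E E (fromBlocks (el hij x).1 0 0 1) = (el hne x).1
        rw [SpecialLinearGroup.transvection_coe, SpecialLinearGroup.transvection_coe]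
        ext r s
        obtain ⟨r, rfl⟩ := E.surjective r
        obtain ⟨s, rfl⟩ := E.surjective s
        rcases r with r | r <;> rcases s with s | s <;> simp [one_apply, single_apply]
      rw [Subgroup.mem_comap, e]
      exact hK _ _ _ _)
    intro D
    have h2 : D ∈ K.comap θ.toHomUnits := this ▸ Subgroup.mem_top D
    exact h2
  have hl : ∀ C : Matrix (Fin m) β F, l.toHomUnits (Multiplicative.ofAdd C) ∈ K := by
    intro C
    induction C using Matrix.induction_on' with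
    | h_zero => simp
    | h_add C C' h1 h2 => rw [ofAdd_add, map_mul]; exact K.mul_mem h1 h2
    | h_std_basis i j x =>
      have hne : E (Sum.inl i) ≠ E (Sum.inr j) := fun e => Sum.inl_ne_inr (E.injective e)
      have e : l.toHomUnits (Multiplicative.ofAdd (single i j x)) = inGL n F (el hne x) := by
        apply Units.ext
        show reindex E E (fromBlocks 1 (single i j x) 0 1) = (el hne x).1
        rw [SpecialLinearGroup.transvection_coe]
        ext r s
        obtain ⟨r, rfl⟩ := E.surjective r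
        obtain ⟨s, rfl⟩ := E.surjective s
        rcases r with r | r <;> rcases s with s | s <;> simp [one_apply, single_apply]
      rw [e]
      exact hK _ _ _ _
  have hN : g.1 = reindex E E
      (fromBlocks (g.1.submatrix E E).toBlocks₁₁ (g.1.submatrix E E).toBlocks₁₂ 0 1) := by
    ext r s
    obtain ⟨r, rfl⟩ := E.surjective r
    obtain ⟨s, rfl⟩ := E.surjective s
    rcases r with r | r <;> rcases s with s | s <;>
      simp [hg, one_apply, toBlocks₁₁, toBlocks₁₂]
  have hD : (g.1.submatrix E E).toBlocks₁₁.det = 1 := by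
    rw [hN, det_reindex_self, det_fromBlocks_zero₂₁, det_one, mul_one] at hdet
    exact hdet
  have e : g = l.toHomUnits (Multiplicative.ofAdd (g.1.submatrix E E).toBlocks₁₂) *
      θ.toHomUnits ⟨_, hD⟩ := by
    apply Units.ext
    rw [Units.val_mul]
    show g.1 = reindex E E (fromBlocks 1 (g.1.submatrix E E).toBlocks₁₂ 0 1) *
      reindex E E (fromBlocks (g.1.submatrix E E).toBlocks₁₁ 0 0 1)
    conv_lhs => rw [hN]
    simp [fromBlocks_multiply]
  rw [e]
  exact K.mul_mem (hl _) (hθ _)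

lemma f0a_gen2 (a b : Fin n) (K : Subgroup (GLn n F))
    (hK : ∀ (i j : Fin n) (h : i ≠ j) (x : F), i ≠ a → i ≠ b → inGL n F (el h x) ∈ K)
    (g : GLn n F) (ha : g.1 a = Pi.single a 1) (hb : g.1 b = Pi.single b 1)
    (hdet : g.1.det = 1) : g ∈ K := by
  let E : Fin (Fintype.card {i : Fin n // i ≠ a ∧ i ≠ b}) ⊕ {i : Fin n // ¬(i ≠ a ∧ i ≠ b)} ≃
      Fin n := (Equiv.sumCongr (Fintype.equivFin _).symm (Equiv.refl _)).trans
    (Equiv.sumCompl fun i => i ≠ a ∧ i ≠ b)
  refine f0a_gen E K (fun i j h x => hK _ _ h x ?_ ?_) g (fun s j => ?_) hdet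
  · exact ((Fintype.equivFin {i : Fin n // i ≠ a ∧ i ≠ b}).symm i).2.1
  · exact ((Fintype.equivFin {i : Fin n // i ≠ a ∧ i ≠ b}).symm i).2.2
  · obtain ⟨s, hs⟩ := s
    show g.1 s j = (1 : Mat n F) s j
    by_cases h1 : s = a
    · rw [h1, ha, one_apply, Pi.single_apply]; simp [eq_comm]
    · have h2 : s = b := by tauto
      rw [h2, hb, one_apply, Pi.single_apply]; simp [eq_comm]

end Gen

end Pool.Agent.MP_8299d6_al.Up

end
end

section

open Matrix

noncomputable section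

namespace Pool.Agent.MP_8299d6_al.Up

open Pool.Agent.MP_810665_al (IrrChar)

section
variable {n : ℕ} {F : Type} [Field F] {a b : Fin n}

theorem f0b_rowb {g : GLn n F} (hg : g ∈ H1 F a b) (M : Mat n F) (j : Fin n) :
    (g.1 * M) b j = g.1 b b * M b j := by
  rw [mul_apply]
  exact Fintype.sum_eq_single b fun k hk => by rw [hg.1 k hk, zero_mul]

theorem f0b_rowa (hab : a ≠ b) {g : GLn n F} (hg : g ∈ H1 F a b) (M : Mat n F) (j : Fin n) :
    (g.1 * M) a j = g.1 a a * M a j + g.1 a b * M b j := by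
  rw [mul_apply]
  exact Fintype.sum_eq_add a b hab fun k hk => by rw [hg.2.1 k hk.1 hk.2, zero_mul]

theorem f0b_one (_hab : a ≠ b) : (1 : GLn n F) ∈ H1 F a b :=
  ⟨fun _ hj => one_apply_ne hj.symm, fun _ hj _ => one_apply_ne hj.symm, by simp⟩

theorem f0b_mul (hab : a ≠ b) {g h : GLn n F} (hg : g ∈ H1 F a b) (hh : h ∈ H1 F a b) :
    g * h ∈ H1 F a b := by
  refine ⟨fun j hj => ?_, fun j hj hj' => ?_, ?_⟩
  · rw [Units.val_mul, f0b_rowb hg, hh.1 j hj, mul_zero]
  · rw [Units.val_mul, f0b_rowa hab hg, hh.1 j hj', hh.2.1 j hj hj', mul_zero, mul_zero, add_zero]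
  · rw [Units.val_mul, f0b_rowa hab hg, f0b_rowb hg, hh.1 a hab, mul_zero, add_zero, hg.2.2, hh.2.2]

theorem f0b_inv (hab : a ≠ b) {g : GLn n F} (hg : g ∈ H1 F a b) : g⁻¹ ∈ H1 F a b := by
  have hb := fun j => f0b_rowb hg (g⁻¹ : GLn n F).1 j
  have ha := fun j => f0b_rowa hab hg (g⁻¹ : GLn n F).1 j
  simp only [Units.mul_inv] at ha hb
  have h1 := hb b
  rw [one_apply_eq] at h1
  have h0 : g.1 b b ≠ 0 := left_ne_zero_of_mul_eq_one h1.symm
  have h2 : ∀ j, j ≠ b → (g⁻¹ : GLn n F).1 b j = 0 := fun j hj => by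
    have := hb j
    rw [one_apply_ne hj.symm] at this
    exact (mul_eq_zero.1 this.symm).resolve_left h0
  refine ⟨h2, fun j hj hj' => ?_, ?_⟩
  · have := ha j
    rw [one_apply_ne hj.symm, h2 j hj', mul_zero, add_zero, hg.2.2] at this
    exact (mul_eq_zero.1 this.symm).resolve_left h0
  · have := ha a
    rw [one_apply_eq, h2 a hab, mul_zero, add_zero, hg.2.2] at this
    exact mul_left_cancel₀ h0 (this.symm.trans h1)

/-- being in one double coset -/
def F0bRel (a b : Fin n) (g g' : GLn n F) : Prop :=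
  ∃ h ∈ H1 F a b, ∃ h' ∈ H1 F a b, g' = h * g * h'

theorem f0b_refl (hab : a ≠ b) (g : GLn n F) : F0bRel a b g g :=
  ⟨1, f0b_one hab, 1, f0b_one hab, by simp⟩

theorem f0b_trans (hab : a ≠ b) {g g' g'' : GLn n F} (h : F0bRel a b g g')
    (h' : F0bRel a b g' g'') : F0bRel a b g g'' := by
  obtain ⟨u, hu, v, hv, rfl⟩ := h
  obtain ⟨u', hu', v', hv', rfl⟩ := h'
  exact ⟨u' * u, f0b_mul hab hu' hu, v * v', f0b_mul hab hv hv', by group⟩

theorem f0b_unit {M : Mat n F} (h : M.det ≠ 0) : ∃ u : GLn n F, u.1 = M :=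
  (isUnit_iff_isUnit_det M).2 (Ne.isUnit h)

theorem f0b_tv (hab : a ≠ b) (w : F) : ∃ u ∈ H1 F a b, u.1 = transvection a b w := by
  obtain ⟨u, hu⟩ := f0b_unit (M := transvection a b w)
    (by rw [det_transvection_of_ne a b hab]; exact one_ne_zero)
  refine ⟨u, ⟨fun j hj => ?_, fun j hj hj' => ?_, ?_⟩, hu⟩
  · simp [hu, transvection, one_apply, hab, hj.symm]
  · simp [hu, transvection, one_apply, hj.symm, hj'.symm]
  · simp [hu, transvection, hab, hab.symm]

/-- clearing a row with a nonzero entry outside the two special columns -/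
theorem f0b_clear (hab : a ≠ b) (g : GLn n F) {x i : Fin n} (hia : i ≠ a) (hib : i ≠ b)
    (h : g.1 x i ≠ 0) : ∃ g', F0bRel a b g g' ∧ g'.1 x = Pi.single i 1 ∧
      ∀ y, g.1 y i = 0 → g'.1 y = g.1 y := by
  obtain ⟨u, hu⟩ := f0b_unit (M := updateRow (1 : Mat n F) i (g.1 x))
    (by rw [← cramer_transpose_apply, transpose_one, cramer_one]; exact h)
  have hH : u ∈ H1 F a b := by
    refine ⟨fun j hj => ?_, fun j hj _ => ?_, ?_⟩
    · rw [hu, updateRow_ne hib.symm, one_apply_ne hj.symm]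
    · rw [hu, updateRow_ne hia.symm, one_apply_ne hj.symm]
    · rw [hu, updateRow_ne hia.symm, updateRow_ne hib.symm, one_apply_eq, one_apply_eq]
  have key : ∀ (y : Fin n) (v : Fin n → F), v ᵥ* u.1 = g.1 y → (g * u⁻¹).1 y = v := by
    intro y v hv
    rw [Units.val_mul, mul_apply_eq_vecMul, ← hv, vecMul_vecMul, Units.mul_inv, vecMul_one]
  refine ⟨g * u⁻¹, ⟨1, f0b_one hab, u⁻¹, f0b_inv hab hH, by simp⟩, key _ _ ?_,
    fun y hy => key _ _ ?_⟩
  · rw [single_one_vecMul, hu]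
    exact updateRow_self
  · funext j
    rw [hu, vecMul, dotProduct]
    calc ∑ k, g.1 y k * updateRow (1 : Mat n F) i (g.1 x) k j
        = ∑ k, g.1 y k * (1 : Mat n F) k j := by
          refine Finset.sum_congr rfl fun k _ => ?_
          by_cases hk : k = i
          · rw [hk, hy, zero_mul, zero_mul]
          · rw [updateRow_ne hk]
      _ = g.1 y j := by rw [← mul_apply, mul_one]

/-- clearing the entry in column `b` by the entry in column `a` -/
theorem f0b_col (hab : a ≠ b) (g : GLn n F) {x : Fin n} (h : g.1 x a ≠ 0)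
    (hx : ∀ i, i ≠ a → i ≠ b → g.1 x i = 0) : ∃ g', F0bRel a b g g' ∧
      g'.1 x = Pi.single a (g.1 x a) ∧ ∀ y, g.1 y a = 0 → g'.1 y = g.1 y := by
  obtain ⟨u, hH, hu⟩ := f0b_tv hab (-(g.1 x b / g.1 x a))
  refine ⟨g * u, ⟨1, f0b_one hab, u, hH, by simp⟩, ?_, fun y hy => ?_⟩
  · funext j
    rw [Units.val_mul, hu]
    by_cases hj : j = b
    · rw [hj, mul_transvection_apply_same, Pi.single_eq_of_ne hab.symm]
      field_simp
      ring
    · rw [mul_transvection_apply_of_ne _ _ _ _ hj]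
      by_cases hj' : j = a
      · rw [hj', Pi.single_eq_same]
      · rw [Pi.single_eq_of_ne hj', hx j hj' hj]
  · funext j
    rw [Units.val_mul, hu]
    by_cases hj : j = b
    · rw [hj, mul_transvection_apply_same, hy, mul_zero, add_zero]
    · rw [mul_transvection_apply_of_ne _ _ _ _ hj]

theorem f0b_scale (hab : a ≠ b) (g : GLn n F) {k : Fin n} {c : F} (h : g.1 b = Pi.single k c) :
    ∃ g', F0bRel a b g g' ∧ g'.1 b = Pi.single k 1 := by
  have hc : c ≠ 0 := by
    rintro rfl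
    have h1 : (g.1 * (g⁻¹ : GLn n F).1) b b = 1 := by rw [Units.mul_inv, one_apply_eq]
    rw [mul_apply, h] at h1
    simp at h1
  obtain ⟨u, hu⟩ := f0b_unit (M := diagonal fun _ : Fin n => c⁻¹)
    (by rw [det_diagonal]; exact Finset.prod_ne_zero_iff.2 fun _ _ => inv_ne_zero hc)
  have hH : u ∈ H1 F a b := by
    refine ⟨fun j hj => ?_, fun j hj _ => ?_, ?_⟩
    · rw [hu, diagonal_apply_ne _ hj.symm]
    · rw [hu, diagonal_apply_ne _ hj.symm]
    · rw [hu, diagonal_apply_eq, diagonal_apply_eq]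
  refine ⟨u * g, ⟨u, hH, 1, f0b_one hab, by simp⟩, ?_⟩
  funext j
  rw [Units.val_mul, hu, diagonal_mul, h]
  by_cases hj : j = k
  · rw [hj, Pi.single_eq_same, Pi.single_eq_same, inv_mul_cancel₀ hc]
  · rw [Pi.single_eq_of_ne hj, Pi.single_eq_of_ne hj, mul_zero]

theorem f0b_supp {r : Fin n → F} (ha : r a = 0) (hr : ∀ i, i ≠ a → i ≠ b → r i = 0) :
    r = Pi.single b (r b) := by
  funext j
  by_cases hj : j = b
  · rw [hj, Pi.single_eq_same]
  · rw [Pi.single_eq_of_ne hj]
    by_cases hj' : j = a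
    · rw [hj', ha]
    · exact hr j hj' hj

theorem f0b_step1 (hab : a ≠ b) (g : GLn n F) :
    ∃ g', F0bRel a b g g' ∧ ∃ k, g'.1 b = Pi.single k 1 := by
  by_cases h : ∃ i, i ≠ a ∧ i ≠ b ∧ g.1 b i ≠ 0
  · obtain ⟨i, hia, hib, hi⟩ := h
    obtain ⟨g', hr, h1, -⟩ := f0b_clear hab g hia hib hi
    exact ⟨g', hr, i, h1⟩
  · have hx : ∀ i, i ≠ a → i ≠ b → g.1 b i = 0 := fun i h1 h2 => by
      by_contra h3
      exact h ⟨i, h1, h2, h3⟩
    by_cases ha : g.1 b a = 0
    · obtain ⟨g', hr, h1⟩ := f0b_scale hab g (f0b_supp ha hx)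
      exact ⟨g', hr, b, h1⟩
    · obtain ⟨g', hr, h1, -⟩ := f0b_col hab g ha hx
      obtain ⟨g'', hr', h2⟩ := f0b_scale hab g' h1
      exact ⟨g'', f0b_trans hab hr hr', a, h2⟩

theorem f0b_step2 (hab : a ≠ b) (g : GLn n F) {k : Fin n} (h : g.1 b = Pi.single k 1) :
    ∃ g', F0bRel a b g g' ∧ g'.1 b = Pi.single k 1 ∧ g'.1 a k = 0 := by
  obtain ⟨u, hH, hu⟩ := f0b_tv hab (-(g.1 a k))
  refine ⟨u * g, ⟨u, hH, 1, f0b_one hab, by simp⟩, ?_, ?_⟩
  · funext j
    rw [Units.val_mul, hu, transvection_mul_apply_of_ne _ _ _ _ hab.symm, h]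
  · rw [Units.val_mul, hu, transvection_mul_apply_same, h, Pi.single_eq_same]
    ring

theorem f0b_step3 (hab : a ≠ b) (g : GLn n F) {k : Fin n} (h : g.1 b = Pi.single k 1)
    (h0 : g.1 a k = 0) : ∃ g', F0bRel a b g g' ∧ g'.1 b = Pi.single k 1 ∧
      ∃ i c, g'.1 a = Pi.single i c := by
  by_cases h' : ∃ i, i ≠ a ∧ i ≠ b ∧ g.1 a i ≠ 0
  · obtain ⟨i, hia, hib, hi⟩ := h'
    obtain ⟨g', hr, h1, h2⟩ := f0b_clear hab g hia hib hi
    have hik : i ≠ k := fun e => hi (e ▸ h0)
    exact ⟨g', hr, by rw [h2 b (by rw [h, Pi.single_eq_of_ne hik]), h], i, 1, h1⟩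
  · have hx : ∀ i, i ≠ a → i ≠ b → g.1 a i = 0 := fun i h1 h2 => by
      by_contra h3
      exact h' ⟨i, h1, h2, h3⟩
    by_cases ha : g.1 a a = 0
    · exact ⟨g, f0b_refl hab g, h, b, _, f0b_supp ha hx⟩
    · obtain ⟨g', hr, h1, h2⟩ := f0b_col hab g ha hx
      have hak : a ≠ k := fun e => ha (e ▸ h0)
      exact ⟨g', hr, by rw [h2 b (by rw [h, Pi.single_eq_of_ne hak]), h], a, _, h1⟩

theorem f0b_rows {g y : GLn n F} (ha : g.1 a = y.1 a) (hb : g.1 b = y.1 b) :
    g * y⁻¹ ∈ H1 F a b := by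
  have key : ∀ x, g.1 x = y.1 x → ∀ j, (g * y⁻¹).1 x j = (1 : Mat n F) x j := fun x hx j => by
    rw [← Units.mul_inv y, Units.val_mul, mul_apply, mul_apply, hx]
  refine ⟨fun j hj => ?_, fun j hj _ => ?_, ?_⟩
  · rw [key b hb, one_apply_ne hj.symm]
  · rw [key a ha, one_apply_ne hj.symm]
  · rw [key a ha, key b hb, one_apply_eq, one_apply_eq]

end

theorem H1_subgroup {n : ℕ} (F : Type) [Field F] {a b : Fin n} (hab : a ≠ b) :
    ∃ S : Subgroup (GLn n F), (S : Set (GLn n F)) = H1 F a b :=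
  ⟨{ carrier := H1 F a b
     one_mem' := f0b_one hab
     mul_mem' := f0b_mul hab
     inv_mem' := f0b_inv hab }, rfl⟩

/-- there are few double cosets -/
theorem double_cosets {n : ℕ} (hn : 4 ≤ n) (F : Type) [Field F] [Fintype F] {a b : Fin n}
    (hab : a ≠ b) : ∃ Y : Finset (GLn n F), Y.card ≤ n ^ 2 * Fintype.card F ∧
      ∀ g : GLn n F, ∃ y ∈ Y, ∃ h ∈ H1 F a b, ∃ h' ∈ H1 F a b, g = h * y * h' := by
  classical
  have hch : ∀ t : (Fin n × Fin n) × F, ∃ y : GLn n F,
      ∀ g : GLn n F, g.1 a = Pi.single t.1.1 t.2 → g.1 b = Pi.single t.1.2 1 →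
        g.1 a = y.1 a ∧ g.1 b = y.1 b := by
    intro t
    by_cases h : ∃ y : GLn n F, y.1 a = Pi.single t.1.1 t.2 ∧ y.1 b = Pi.single t.1.2 1
    · obtain ⟨y, h1, h2⟩ := h
      exact ⟨y, fun g h3 h4 => ⟨h3.trans h1.symm, h4.trans h2.symm⟩⟩
    · exact ⟨1, fun g h3 h4 => absurd ⟨g, h3, h4⟩ h⟩
  choose y hy using hch
  refine ⟨Finset.univ.image y, Finset.card_image_le.trans (le_of_eq ?_), fun g => ?_⟩
  · simp [sq]
  · obtain ⟨g₁, r₁, k, h₁⟩ := f0b_step1 hab g
    obtain ⟨g₂, r₂, h₂, h₂'⟩ := f0b_step2 hab g₁ h₁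
    obtain ⟨g₃, r₃, h₃, i, c, h₃'⟩ := f0b_step3 hab g₂ h₂ h₂'
    obtain ⟨u, hu, v, hv, e⟩ := f0b_trans hab (f0b_trans hab r₁ r₂) r₃
    obtain ⟨e1, e2⟩ := hy ((i, k), c) g₃ h₃' h₃
    refine ⟨y ((i, k), c), Finset.mem_image_of_mem _ (Finset.mem_univ _),
      u⁻¹ * (g₃ * (y ((i, k), c))⁻¹), f0b_mul hab (f0b_inv hab hu) (f0b_rows e1 e2), v⁻¹,
      f0b_inv hab hv, ?_⟩
    rw [e]
    group

end Pool.Agent.MP_8299d6_al.Up

end
end

section

open Matrix

noncomputable section

namespace Pool.Agent.MP_8299d6_al.Up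

open Pool.Agent.MP_810665_al (IrrChar)

variable {G : Type} [Group G] [Fintype G]

/-- a function whose operator vanishes in all irreducible representations is zero -/
theorem op_eq_zero (a : G → ℂ)
    (h : ∀ (V : Type) [AddCommGroup V] [Module ℂ V] [FiniteDimensional ℂ V]
      (ρ : Representation ℂ G V), ρ.IsIrreducible → ∑ g, a g • ρ g = 0) : a = 0 := by
  refine rt3op_inj (LinearMap.ext fun w => ?_)
  have h0 : rt3op (rt3reg G) (0 : G → ℂ) w = 0 := by simp [rt3op]
  rw [h0]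
  by_contra hv
  obtain ⟨U, _, _, _, τ, π, h1, h2, h3⟩ := zsb_quot _ _ (rt3reg G) _ le_rfl hv
  apply h2
  have h4 := LinearMap.congr_fun (h U τ h1) (π w)
  simp only [LinearMap.sum_apply, LinearMap.smul_apply, LinearMap.zero_apply] at h4
  rw [← h4]
  simp only [rt3op, LinearMap.sum_apply, LinearMap.smul_apply, map_sum, map_smul, h3]

/-- completeness of the irreducible characters -/
theorem class_eq_zero (f : G → ℂ) (hf : ∀ g x, f (x * g * x⁻¹) = f g)
    (h : ∀ χ ∈ Irr G, ∑ g, f g * χ g = 0) : f = 0 := by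
  refine op_eq_zero f fun V _ _ _ ρ hρ => ?_
  obtain ⟨c, hc, hc'⟩ := MP_810665_al.proj_scalar hρ (ψ := fun g => f g⁻¹) (fun g x => by
    have e : (x * g * x⁻¹)⁻¹ = x * g⁻¹ * x⁻¹ := by group
    rw [e, hf])
  have h1 := h ρ.character (mem_Irr.2 ⟨V, _, _, inferInstance, ρ, hρ, rfl⟩)
  simp only [inv_inv, mul_comm (ρ.character _), h1] at hc'
  have h2 : (Module.finrank ℂ V : ℂ) ≠ 0 := by
    exact_mod_cast (MP_810665_al.finrank_pos_of_irreducible hρ).ne'
  refine LinearMap.ext fun v => ?_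
  have h3 := hc v
  rw [(mul_eq_zero.1 hc').resolve_right h2, zero_smul] at h3
  simpa [MP_810665_al.proj] using h3

theorem card_Irr_ge {X : Type} [Fintype X] (y : X → G)
    (hy : ∀ i j x, x * y i * x⁻¹ = y j → i = j) : Fintype.card X ≤ (Irr G).card := by
  classical
  let e : X → G → ℂ := fun i g => if IsConj (y i) g then 1 else 0
  have hli : LinearIndependent ℂ (fun (i : X) (χ : Irr G) => ∑ g, e i g * χ.1 g) := by
    rw [Fintype.linearIndependent_iff]
    intro c hc j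
    have h1 : (fun g => ∑ i, c i * e i g) = 0 := by
      refine class_eq_zero _ (fun g x => Finset.sum_congr rfl fun i _ => ?_) fun χ hχ => ?_
      · have : IsConj (y i) (x * g * x⁻¹) ↔ IsConj (y i) g :=
          ⟨fun h => h.trans (isConj_iff.2 ⟨x, rfl⟩).symm, fun h => h.trans (isConj_iff.2 ⟨x, rfl⟩)⟩
        simp only [e, this]
      · have h2 := congrFun hc ⟨χ, hχ⟩
        simp only [Finset.sum_apply, Pi.smul_apply, smul_eq_mul, Finset.mul_sum,
          Pi.zero_apply] at h2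
        rw [← h2, Finset.sum_comm]
        simp only [Finset.sum_mul, mul_assoc]
    have h2 := congrFun h1 (y j)
    rw [Finset.sum_eq_single j] at h2
    · simpa only [e, if_pos (IsConj.refl (y j)), mul_one, Pi.zero_apply] using h2
    · intro i _ hi
      have : ¬ IsConj (y i) (y j) := fun h => by
        obtain ⟨x, hx⟩ := isConj_iff.1 h
        exact hi (hy i j x hx)
      simp only [e, if_neg this, mul_zero]
    · simp
  simpa using hli.fintype_card_le_finrank

theorem sum_sq_le : ∑ χ ∈ Irr G, ‖χ 1‖ ^ 2 ≤ (Nat.card G : ℝ) := by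
  have h := rt3_bessel (Irr G) subset_rfl (fun u => u = 1) (fun _ => 1) (fun χ => χ 1)
    (fun χ _ u hu => by rw [hu, mul_one])
  refine le_of_eq_of_le (Finset.sum_congr rfl fun χ _ => ?_) h
  rw [Finset.sum_eq_single 1, if_pos rfl]
  · intro u _ hu
    exact if_neg hu
  · simp

end Pool.Agent.MP_8299d6_al.Up

end
end

section

open Matrix

noncomputable section

namespace Pool.Agent.MP_8299d6_al.Up

open Pool.Agent.MP_810665_al (IrrChar)

theorem euler_prod (n : ℕ) (s : ℝ) {R A B : Type} [CommRing R] [CommRing A] [CommRing B]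
    [Finite (SLn n R)] [Finite (SLn n A)] [Finite (SLn n B)] (e : R ≃+* A × B) :
    Zs (SLn n R) (fun _ => True) s ≤
      Zs (SLn n A) (fun _ => True) s * Zs (SLn n B) (fun _ => True) s := by
  let f₁ : R →+* A := (RingHom.fst A B).comp e.toRingHom
  let f₂ : R →+* B := (RingHom.snd A B).comp e.toRingHom
  let π : SLn n R →* SLn n A × SLn n B :=
    (SpecialLinearGroup.map f₁).prod (SpecialLinearGroup.map f₂)
  have hext : ∀ x y : R, f₁ x = f₁ y → f₂ x = f₂ y → x = y := fun x y h1 h2 =>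
    e.injective (Prod.ext h1 h2)
  have hinj : Function.Injective π := fun x y h => by
    refine Subtype.ext (Matrix.ext fun i j => hext _ _ ?_ ?_)
    · exact congrArg (fun z : SLn n A × SLn n B => z.1.1 i j) h
    · exact congrArg (fun z : SLn n A × SLn n B => z.2.1 i j) h
  have hsurj : Function.Surjective π := by
    rintro ⟨a, b⟩
    let M : Mat n R := Matrix.of fun i j => e.symm (a.1 i j, b.1 i j)
    have h1 : f₁.mapMatrix M = a.1 := Matrix.ext fun i j => by
      show (e (e.symm (a.1 i j, b.1 i j))).1 = _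
      rw [e.apply_symm_apply]
    have h2 : f₂.mapMatrix M = b.1 := Matrix.ext fun i j => by
      show (e (e.symm (a.1 i j, b.1 i j))).2 = _
      rw [e.apply_symm_apply]
    refine ⟨⟨M, hext _ _ ?_ ?_⟩, Prod.ext (Subtype.ext h1) (Subtype.ext h2)⟩
    · rw [f₁.map_det, h1, a.2, map_one]
    · rw [f₂.map_det, h2, b.2, map_one]
  refine le_trans (Zs_le_of_surj π hsurj (P' := fun _ => True) (fun χ _ _ x hx g => ?_)
    (fun _ _ _ => trivial) s) (Zs_prod _ s)
  rw [hinj (hx.trans (map_one π).symm), one_mul]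

theorem euler_one (n : ℕ) (s : ℝ) : Zs (SLn n (ZMod 1)) (fun _ => True) s ≤ 1 := by
  refine le_trans (Zs_mono (fun χ _ _ x g => ?_) s) Zs_triv
  congr 1
  exact Subtype.ext (Matrix.ext fun i j => Subsingleton.elim _ _)

theorem euler_le (n : ℕ) (s : ℝ) (c : ℕ → ℝ)
    (hc : ∀ (p : ℕ) [Fact p.Prime] (M : ℕ),
      Zs (SLn n (ZMod (p ^ (M + 1)))) (fun _ => True) s ≤ 1 + c p) (m : ℕ) :
    ∀ [NeZero m], Zs (SLn n (ZMod m)) (fun _ => True) s ≤
      Real.exp (∑ p ∈ m.primeFactors, c p) := by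
  induction m using Nat.recOnPosPrimePosCoprime with
  | prime_pow p k hp hk =>
    intro _
    obtain ⟨M, rfl⟩ : ∃ M, k = M + 1 := ⟨k - 1, by omega⟩
    have : Fact p.Prime := ⟨hp⟩
    rw [Nat.primeFactors_prime_pow (Nat.succ_ne_zero M) hp, Finset.sum_singleton]
    refine le_trans (hc p M) ?_
    rw [add_comm]
    exact Real.add_one_le_exp _
  | zero =>
    intro h
    exact absurd rfl h.ne
  | one =>
    intro _
    simpa using euler_one n s
  | coprime a b ha hb hab iha ihb =>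
    intro _
    have : NeZero a := ⟨by omega⟩
    have : NeZero b := ⟨by omega⟩
    rw [hab.primeFactors_mul, Finset.sum_union hab.disjoint_primeFactors, Real.exp_add]
    exact le_trans (euler_prod n s (ZMod.chineseRemainder hab))
      (mul_le_mul iha ihb (Zs_nonneg _ _) (Real.exp_pos _).le)

theorem euler (n : ℕ) (s : ℝ) (c : ℕ → ℝ) (hc0 : ∀ p, 0 ≤ c p) (hsum : Summable c)
    (hc : ∀ (p : ℕ) [Fact p.Prime] (M : ℕ),
      Zs (SLn n (ZMod (p ^ (M + 1)))) (fun _ => True) s ≤ 1 + c p) :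
    ∃ C : ℝ, ∀ (m : ℕ) [NeZero m], Zs (SLn n (ZMod m)) (fun _ => True) s ≤ C :=
  ⟨Real.exp (∑' p, c p), fun m _ => le_trans (euler_le n s c hc m)
    (Real.exp_le_exp.2 (hsum.sum_le_tsum _ fun p _ => hc0 p))⟩

end Pool.Agent.MP_8299d6_al.Up

end
end

section

open Matrix

noncomputable section

namespace Pool.Agent.MP_8299d6_al.Up

open Pool.Agent.MP_810665_al (IrrChar)

open Module
open scoped ENNReal

section comm

variable {K : Type} [Group K] {V W : Type} [AddCommGroup V] [Module ℂ V] [AddCommGroup W]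
  [Module ℂ W]

/-- the chosen representative of a class -/
abbrev commRep (c : Cls K) : Representation ℂ K (Fin (c.1 + 1) → ℂ) := (Quotient.out c.2).1

lemma comm_irr (c : Cls K) : (commRep c).IsIrreducible := (Quotient.out c.2).2

lemma comm_inj {ρ : Representation ℂ K V} (hρ : ρ.IsIrreducible) (act : K → W →ₗ[ℂ] W)
    {φ : V →ₗ[ℂ] W} (h : ∀ g v, φ (ρ g v) = act g (φ v)) (h0 : φ ≠ 0) : Function.Injective φ := by
  rcases irr_cases hρ (LinearMap.ker φ) (fun g v hv => by
    rw [LinearMap.mem_ker] at hv ⊢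
    rw [h, hv, map_zero]) with h1 | h1
  · exact LinearMap.ker_eq_bot.1 h1
  · exact absurd (LinearMap.ker_eq_top.1 h1) h0

lemma comm_surj {σ : Representation ℂ K W} (hσ : σ.IsIrreducible) (act : K → V →ₗ[ℂ] V)
    {φ : V →ₗ[ℂ] W} (h : ∀ g v, φ (act g v) = σ g (φ v)) (h0 : φ ≠ 0) :
    Function.Surjective φ := by
  rcases irr_cases hσ (LinearMap.range φ) (by
    rintro g _ ⟨v, rfl⟩
    exact ⟨act g v, h g v⟩) with h1 | h1
  · exact absurd (LinearMap.range_eq_bot.1 h1) h0
  · exact LinearMap.range_eq_top.1 h1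

lemma comm_cls_eq {c c' : Cls K} {φ : (Fin (c.1 + 1) → ℂ) →ₗ[ℂ] (Fin (c'.1 + 1) → ℂ)}
    (h : ∀ g v, φ (commRep c g v) = commRep c' g (φ v)) (h0 : φ ≠ 0) : c = c' := by
  let e := LinearEquiv.ofBijective φ ⟨comm_inj (comm_irr c) (commRep c') h h0,
    comm_surj (comm_irr c') (commRep c) h h0⟩
  have hd := e.finrank_eq
  simp only [finrank_fintype_fun_eq_card, Fintype.card_fin, Nat.add_right_cancel_iff] at hd
  obtain ⟨n, q⟩ := c
  obtain ⟨n', q'⟩ := c'
  simp only at hd
  subst hd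
  congr 1
  rw [← Quotient.out_eq q, ← Quotient.out_eq q']
  exact Quotient.sound ⟨Representation.Equiv.mk e fun g => LinearMap.ext (h g)⟩

/-- every irreducible representation is isomorphic to a chosen representative -/
lemma comm_exists [FiniteDimensional ℂ V] {ρ : Representation ℂ K V} (hρ : ρ.IsIrreducible) :
    ∃ (c : Cls K) (e : (Fin (c.1 + 1) → ℂ) ≃ₗ[ℂ] V), ∀ g v, e (commRep c g v) = ρ g (e v) := by
  obtain ⟨v, hv⟩ := ((Pool.Agent.MP_810665_al.irreducible_iff ρ).1 hρ).1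
  obtain ⟨n, -, σ, ⟨e⟩⟩ := exists_coord ρ hρ hv
  obtain ⟨f⟩ : Nonempty ((commRep (⟨n, Quotient.mk _ σ⟩ : Cls K)).Equiv σ.1) :=
    Quotient.exact (Quotient.out_eq (Quotient.mk (isoSetoid K (n + 1)) σ))
  exact ⟨⟨n, Quotient.mk _ σ⟩, (f.trans e.symm).toLinearEquiv, equiv_apply (f.trans e.symm)⟩

/-- non isomorphic irreducible quotients have total dimension at most the dimension -/
lemma comm_quot (act : K → V →ₗ[ℂ] V) (P : ∀ c : Cls K, V →ₗ[ℂ] (Fin (c.1 + 1) → ℂ))
    (hP : ∀ c g v, P c (act g v) = commRep c g (P c v)) (s : Finset (Cls K)) :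
    ∀ U : Submodule ℂ V, FiniteDimensional ℂ U → (∀ g, ∀ v ∈ U, act g v ∈ U) →
      (∀ c ∈ s, ∃ v ∈ U, P c v ≠ 0) → ∑ c ∈ s, (c.1 + 1) ≤ finrank ℂ U := by
  classical
  induction s using Finset.induction_on with
  | empty => simp
  | insert a s ha ih =>
    intro U _ hU hs
    have sj : Function.Surjective ((P a).domRestrict U) := by
      refine comm_surj (comm_irr a) (fun g => (act g).restrict (hU g)) (fun g v => hP a g v) ?_
      intro h
      obtain ⟨v, hv, h1⟩ := hs a (Finset.mem_insert_self a s)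
      exact h1 (LinearMap.congr_fun h ⟨v, hv⟩)
    have rk := ((P a).domRestrict U).finrank_range_add_finrank_ker
    rw [LinearMap.range_eq_top.2 sj, finrank_top, finrank_fintype_fun_eq_card, Fintype.card_fin,
      ← Submodule.finrank_map_subtype_eq] at rk
    have mem : ∀ v, v ∈ (LinearMap.ker ((P a).domRestrict U)).map U.subtype ↔
        v ∈ U ∧ P a v = 0 := fun v =>
      ⟨by rintro ⟨w, hw, rfl⟩; exact ⟨w.2, hw⟩, fun h => ⟨⟨v, h.1⟩, h.2, rfl⟩⟩
    rw [Finset.sum_insert ha, ← rk]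
    refine Nat.add_le_add_left (ih _ inferInstance (fun g v hv => ?_) fun c hc => ?_) _
    · rw [mem] at hv ⊢
      exact ⟨hU g v hv.1, by rw [hP, hv.2, map_zero]⟩
    · by_contra hcon
      push Not at hcon
      obtain ⟨r, hr⟩ := ((P a).domRestrict U).exists_rightInverse_of_surjective
        (LinearMap.range_eq_top.2 sj)
      have key : ∀ v ∈ U, P c (r (P a v)) = P c v := fun v hv => by
        rw [← sub_eq_zero, ← map_sub]
        refine hcon _ ((mem _).2 ⟨sub_mem (r _).2 hv, ?_⟩)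
        rw [map_sub, sub_eq_zero]
        exact LinearMap.congr_fun hr (P a v)
      have e : a = c := by
        refine comm_cls_eq (φ := P c ∘ₗ U.subtype ∘ₗ r) (fun g w => ?_) fun h => ?_
        · obtain ⟨v, rfl⟩ := sj w
          change P c (r (commRep a g (P a v))) = commRep c g (P c (r (P a v)))
          rw [← hP, key _ (hU g v v.2), key _ v.2, hP]
        · obtain ⟨v, hv, h1⟩ := hs c (Finset.mem_insert_of_mem hc)
          exact h1 ((key v hv).symm.trans (LinearMap.congr_fun h (P a v)))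
      exact ha (e ▸ hc)

end comm

lemma comm_count {A B : Type} [Group A] [Group B] (κ : Cls A → Cls B) (I : ℕ)
    (h1 : ∀ a, (κ a).1 + 1 ≤ I * (a.1 + 1))
    (h2 : ∀ (b : Cls B) (t : Finset (Cls A)), (∀ a ∈ t, κ a = b) → t.card ≤ I) {s : ℝ}
    (hs : 0 ≤ s) (h : repZeta B s < ⊤) : repZeta A s < ⊤ := by
  rw [repZeta_eq] at h ⊢
  rw [← ENNReal.tsum_fiberwise _ κ]
  refine lt_of_le_of_lt (ENNReal.tsum_le_tsum (g := fun b : Cls B =>
    (I * (I : ℝ≥0∞) ^ s) * ((b.1 + 1 : ℕ) : ℝ≥0∞) ^ (-s)) fun b => ?_) ?_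
  · rw [ENNReal.tsum_eq_iSup_sum]
    refine iSup_le fun t => (Finset.sum_le_card_nsmul t _
      ((I : ℝ≥0∞) ^ s * ((b.1 + 1 : ℕ) : ℝ≥0∞) ^ (-s)) fun a _ => ?_).trans ?_
    · have e : κ a = b := a.2
      have k1 : ((b.1 + 1 : ℕ) : ℝ≥0∞) ^ s ≤ (I : ℝ≥0∞) ^ s * ((a.1.1 + 1 : ℕ) : ℝ≥0∞) ^ s := by
        rw [← ENNReal.mul_rpow_of_nonneg _ _ hs]
        refine ENNReal.rpow_le_rpow ?_ hs
        have k0 := h1 a
        rw [e] at k0
        exact_mod_cast k0
      have ne : ∀ n : ℕ, ((n + 1 : ℕ) : ℝ≥0∞) ^ s ≠ 0 ∧ ((n + 1 : ℕ) : ℝ≥0∞) ^ s ≠ ⊤ := fun n =>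
        ⟨(ENNReal.rpow_pos_of_nonneg (by exact_mod_cast n.succ_pos) hs).ne',
          ENNReal.rpow_ne_top_of_nonneg hs (ENNReal.natCast_ne_top _)⟩
      rw [ENNReal.rpow_neg, ENNReal.rpow_neg]
      obtain ⟨x0, x1⟩ := ne a.1.1
      obtain ⟨y0, y1⟩ := ne b.1
      generalize ((a.1.1 + 1 : ℕ) : ℝ≥0∞) ^ s = x at *
      generalize ((b.1 + 1 : ℕ) : ℝ≥0∞) ^ s = y at *
      calc x⁻¹ = x⁻¹ * y * y⁻¹ := by rw [mul_assoc, ENNReal.mul_inv_cancel y0 y1, mul_one]
        _ ≤ x⁻¹ * ((I : ℝ≥0∞) ^ s * x) * y⁻¹ := by gcongr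
        _ = _ := by rw [mul_comm _ x, ← mul_assoc, ENNReal.inv_mul_cancel x0 x1, one_mul]
    · rw [nsmul_eq_mul, mul_assoc]
      have := h2 b (t.map (Function.Embedding.subtype _)) fun a ha => by
        obtain ⟨a', -, rfl⟩ := Finset.mem_map.1 ha
        exact a'.2
      rw [Finset.card_map] at this
      gcongr
  · rw [ENNReal.tsum_mul_left]
    exact ENNReal.mul_lt_top (ENNReal.mul_lt_top (ENNReal.natCast_lt_top _)
      (ENNReal.rpow_lt_top_of_nonneg hs (ENNReal.natCast_ne_top _))) h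

lemma comm_fun {G : Type} [Group G] (H : Subgroup G) [Fintype (G ⧸ H)] (n : ℕ) :
    finrank ℂ (G ⧸ H → Fin n → ℂ) = H.index * n := by
  rw [finrank_pi_fintype]
  simp [Subgroup.index]

theorem zeta_congr {G H : Type} [Group G] [Group H] (e : G ≃* H) (s : ℝ) :
    repZeta G s = repZeta H s := by
  refine tsum_congr fun n => ?_
  congr 2
  let E : IrrRep G (n + 1) ≃ IrrRep H (n + 1) :=
    { toFun := fun ρ => ⟨ρ.1.comp e.symm.toMonoidHom,
        (Pool.Agent.MP_810665_al.irreducible_comp_iff _ e.symm.surjective ρ.1).2 ρ.2⟩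
      invFun := fun ρ => ⟨ρ.1.comp e.toMonoidHom,
        (Pool.Agent.MP_810665_al.irreducible_comp_iff _ e.surjective ρ.1).2 ρ.2⟩
      left_inv := fun ρ => Subtype.ext (MonoidHom.ext fun g => by simp)
      right_inv := fun ρ => Subtype.ext (MonoidHom.ext fun g => by simp) }
  refine ENat.card_congr (Quotient.congr E fun ρ σ => ⟨fun ⟨f⟩ => ⟨Representation.Equiv.mk
    f.toLinearEquiv fun g => LinearMap.ext (equiv_apply f (e.symm g))⟩, fun ⟨f⟩ =>
      ⟨Representation.Equiv.mk f.toLinearEquiv fun g => LinearMap.ext fun v => ?_⟩⟩)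
  have k : f (ρ.1 (e.symm (e g)) v) = σ.1 (e.symm (e g)) (f v) := equiv_apply f (e g) v
  rw [e.symm_apply_apply] at k
  exact k

lemma comm_coind {G : Type} [Group G] (H : Subgroup G) [H.FiniteIndex] (d : Cls H) :
    ∃ (c : Cls G) (P : (Fin (c.1 + 1) → ℂ) →ₗ[ℂ] (Fin (d.1 + 1) → ℂ)),
      (∀ (h : H) v, P (commRep c h v) = commRep d h (P v)) ∧ P ≠ 0 := by
  classical
  let M := Representation.coindV H.subtype (commRep d)
  let ev : M →ₗ[ℂ] (G ⧸ H → Fin (d.1 + 1) → ℂ) :=
    (LinearMap.funLeft ℂ _ fun c : G ⧸ H => c.out⁻¹).comp M.subtype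
  have hev : Function.Injective ev := by
    rw [injective_iff_map_eq_zero]
    intro f hf
    refine Subtype.ext (funext fun x => ?_)
    obtain ⟨k, hk⟩ := QuotientGroup.mk_out_eq_mul H x⁻¹
    have h1 : f.1 ((QuotientGroup.mk x⁻¹ : G ⧸ H).out⁻¹) = 0 := congrFun hf _
    have h2 : x = H.subtype k * (QuotientGroup.mk x⁻¹ : G ⧸ H).out⁻¹ := by
      rw [hk, Subgroup.coe_subtype]; group
    rw [h2, f.2 k, h1]
    simp
  have hfd : FiniteDimensional ℂ M := Module.Finite.of_injective ev hev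
  have hne : ∃ f : M, f ≠ 0 := by
    refine ⟨⟨fun x => if h : x ∈ H then commRep d ⟨x, h⟩ 1 else 0, fun k x => ?_⟩, fun h => ?_⟩
    · by_cases hx : x ∈ H
      · have h1 : H.subtype k * x ∈ H := mul_mem k.2 hx
        simp only [dif_pos hx, dif_pos h1]
        rw [← Module.End.mul_apply, ← map_mul]
        rfl
      · have h1 : H.subtype k * x ∉ H := fun h => hx ((mul_mem_cancel_left k.2).1 h)
        simp only [dif_neg hx, dif_neg h1, map_zero]
    · have h1 := congrFun (congrArg Subtype.val h) 1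
      simp only [dif_pos (one_mem H)] at h1
      have h2 : (⟨1, one_mem H⟩ : H) = 1 := rfl
      rw [h2, map_one (commRep d)] at h1
      exact one_ne_zero (congrFun h1 0)
  obtain ⟨S, hS⟩ := Pool.Agent.MP_810665_al.exists_irreducible_sub
    (Representation.coind H.subtype (commRep d)) hne
  obtain ⟨c, e, he⟩ := comm_exists hS
  have hact : ∀ g (f : S.toSubmodule) x, (S.toRepresentation g f).1.1 x = f.1.1 (x * g) :=
    fun g f x => rfl
  refine ⟨c, LinearMap.proj (1 : G) ∘ₗ M.subtype ∘ₗ S.toSubmodule.subtype ∘ₗ e.toLinearMap,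
    fun h v => ?_, fun h => ?_⟩
  · change (e (commRep c h v)).1.1 1 = commRep d h ((e v).1.1 1)
    rw [he, hact, ← (e v).1.2 h 1, one_mul, mul_one]
    rfl
  · have h1 : e 1 = 0 := Subtype.ext (Subtype.ext (funext fun x => by
      have h2 : (e (commRep c x 1)).1.1 1 = 0 := LinearMap.congr_fun h (commRep c x 1)
      rwa [he, hact, one_mul] at h2))
    exact one_ne_zero (congrFun (e.map_eq_zero_iff.1 h1) 0)

theorem zeta_sub {G : Type} [Group G] (H : Subgroup G) [H.FiniteIndex] {s : ℝ} (hs : 0 ≤ s)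
    (h : repZeta G s < ⊤) : repZeta H s < ⊤ := by
  classical
  have : Fintype (G ⧸ H) := Fintype.ofFinite _
  choose κ P hP hP0 using comm_coind H
  have h1 : ∀ d, (κ d).1 + 1 ≤ H.index * (d.1 + 1) := fun d => by
    let ev : (Fin ((κ d).1 + 1) → ℂ) →ₗ[ℂ] (G ⧸ H → Fin (d.1 + 1) → ℂ) :=
      LinearMap.pi fun x => P d ∘ₗ commRep (κ d) x.out⁻¹
    have hev : Function.Injective ev := by
      rw [injective_iff_map_eq_zero]
      intro v hv
      by_contra hv0
      refine hP0 d (irr_orbit (comm_irr (κ d)) hv0 _ fun x => ?_)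
      obtain ⟨k, hk⟩ := QuotientGroup.mk_out_eq_mul H x⁻¹
      have h1 : P d (commRep (κ d) (QuotientGroup.mk x⁻¹ : G ⧸ H).out⁻¹ v) = 0 := congrFun hv _
      have h2 : x = k * (QuotientGroup.mk x⁻¹ : G ⧸ H).out⁻¹ := by rw [hk]; group
      rw [h2, map_mul, Module.End.mul_apply, hP, h1, map_zero]
    have := LinearMap.finrank_le_finrank_of_injective hev
    rwa [comm_fun, finrank_fintype_fun_eq_card, Fintype.card_fin] at this
  refine comm_count κ H.index h1 (fun c t ht => ?_) hs h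
  have ex : ∀ d : Cls H, ∃ Q : (Fin (c.1 + 1) → ℂ) →ₗ[ℂ] (Fin (d.1 + 1) → ℂ),
      (∀ (h : H) v, Q (commRep c h v) = commRep d h (Q v)) ∧ (d ∈ t → Q ≠ 0) := fun d => by
    by_cases hd : d ∈ t
    · obtain rfl := ht d hd
      exact ⟨P d, hP d, fun _ => hP0 d⟩
    · exact ⟨0, by simp, fun h => absurd h hd⟩
  choose Q hQ hQ0 using ex
  have k := comm_quot (fun h : H => commRep c h) Q hQ t ⊤ inferInstance (fun _ _ _ => trivial)
    fun d hd => by
      by_contra hcon
      push Not at hcon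
      exact hQ0 d hd (LinearMap.ext fun v => hcon v trivial)
  rw [finrank_top, finrank_fintype_fun_eq_card, Fintype.card_fin] at k
  have k2 : t.card * (c.1 + 1) ≤ H.index * (c.1 + 1) := by
    refine le_trans ?_ (Nat.mul_le_mul_left _ k)
    rw [Finset.mul_sum, ← smul_eq_mul, ← Finset.sum_const]
    exact Finset.sum_le_sum fun d hd => ht d hd ▸ h1 d
  exact Nat.le_of_mul_le_mul_right k2 c.1.succ_pos

theorem zeta_sup {G : Type} [Group G] (H : Subgroup G) [H.FiniteIndex] {s : ℝ} (hs : 0 ≤ s)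
    (h : repZeta H s < ⊤) : repZeta G s < ⊤ := by
  classical
  have : Fintype (G ⧸ H) := Fintype.ofFinite _
  have ex0 : ∀ c : Cls G, ∃ (d : Cls H) (J : (Fin (d.1 + 1) → ℂ) →ₗ[ℂ] (Fin (c.1 + 1) → ℂ)),
      (∀ (h : H) v, J (commRep d h v) = commRep c h (J v)) ∧ J ≠ 0 := fun c => by
    obtain ⟨S, hS⟩ := Pool.Agent.MP_810665_al.exists_irreducible_sub
      ((commRep c).comp H.subtype : Representation ℂ H _) ⟨1, one_ne_zero⟩
    obtain ⟨d, e, he⟩ := comm_exists hS
    refine ⟨d, S.toSubmodule.subtype ∘ₗ e.toLinearMap, fun h v => congrArg Subtype.val (he h v),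
      fun h => ?_⟩
    have h1 : e 1 = 0 := Subtype.ext (LinearMap.congr_fun h 1)
    exact one_ne_zero (e.map_eq_zero_iff.1 h1)
  choose κ J hJ hJ0 using ex0
  have h1 : ∀ c, (κ c).1 + 1 ≤ c.1 + 1 := fun c => by
    simpa using LinearMap.finrank_le_finrank_of_injective
      (comm_inj (comm_irr (κ c)) (fun h : H => commRep c h) (hJ c) (hJ0 c))
  refine comm_count κ H.index (fun c => (h1 c).trans (Nat.le_mul_of_pos_left _
    (Nat.pos_of_ne_zero Subgroup.FiniteIndex.index_ne_zero))) (fun d t ht => ?_) hs h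
  have ex : ∀ c : Cls G, ∃ Q : (Fin (d.1 + 1) → ℂ) →ₗ[ℂ] (Fin (c.1 + 1) → ℂ),
      (∀ (h : H) v, Q (commRep d h v) = commRep c h (Q v)) ∧ (c ∈ t → Q ≠ 0) := fun c => by
    by_cases hc : c ∈ t
    · obtain rfl := ht c hc
      exact ⟨J c, hJ c, fun _ => hJ0 c⟩
    · exact ⟨0, by simp, fun h => absurd h hc⟩
  choose Q hQ hQ0 using ex
  let Φ : (G ⧸ H → Fin (d.1 + 1) → ℂ) →ₗ[ℂ] (∀ c : Cls G, Fin (c.1 + 1) → ℂ) :=
    LinearMap.pi fun c => ∑ x : G ⧸ H, commRep c x.out ∘ₗ Q c ∘ₗ LinearMap.proj x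
  have hΦ : ∀ w c, Φ w c = ∑ x : G ⧸ H, commRep c x.out (Q c (w x)) := fun w c => by
    simp [Φ, LinearMap.sum_apply]
  have mem : ∀ (g : G) w, (fun c => commRep c g (Q c w)) ∈ LinearMap.range Φ := fun g w => by
    obtain ⟨k, hk⟩ := QuotientGroup.mk_out_eq_mul H g
    refine ⟨Pi.single (QuotientGroup.mk g) (commRep d k⁻¹ w), funext fun c => ?_⟩
    rw [hΦ, Finset.sum_eq_single (QuotientGroup.mk g : G ⧸ H)]
    · rw [Pi.single_eq_same, hQ, hk, ← Module.End.mul_apply, ← map_mul]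
      simp
    · intro x _ hx
      rw [Pi.single_eq_of_ne hx, map_zero, map_zero]
    · simp
  have k := comm_quot (fun g : G => LinearMap.pi fun c : Cls G => commRep c g ∘ₗ LinearMap.proj c)
    (fun c => LinearMap.proj c) (fun _ _ _ => rfl) t (LinearMap.range Φ) inferInstance
    (by
      rintro g _ ⟨w, rfl⟩
      have e : (LinearMap.pi fun c : Cls G => commRep c g ∘ₗ LinearMap.proj c) (Φ w) =
          ∑ x : G ⧸ H, fun c => commRep c (g * x.out) (Q c (w x)) := by
        funext c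
        simp [hΦ, Finset.sum_apply]
      rw [e]
      exact Submodule.sum_mem _ fun x _ => mem _ _)
    fun c hc => by
      by_contra hcon
      push Not at hcon
      refine hQ0 c hc (LinearMap.ext fun w => ?_)
      simpa using hcon _ (mem 1 w)
  have k1 := k.trans Φ.finrank_range_le
  rw [comm_fun] at k1
  have k2 : t.card * (d.1 + 1) ≤ H.index * (d.1 + 1) := by
    refine le_trans ?_ k1
    rw [← smul_eq_mul, ← Finset.sum_const]
    exact Finset.sum_le_sum fun c hc => ht c hc ▸ h1 c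
  exact Nat.le_of_mul_le_mul_right k2 d.1.succ_pos

theorem zeta_comm {G : Type} [Group G] (Γ Γ' : Subgroup G) (hc : Γ.Commensurable Γ') {s : ℝ}
    (hs : 0 ≤ s) (h : repZeta Γ' s < ⊤) : repZeta Γ s < ⊤ := by
  have i1 : ((Γ ⊓ Γ').subgroupOf Γ').FiniteIndex := by
    rw [Subgroup.inf_subgroupOf_right]
    exact ⟨hc.1⟩
  have i2 : ((Γ ⊓ Γ').subgroupOf Γ).FiniteIndex := by
    rw [Subgroup.inf_subgroupOf_left]
    exact ⟨hc.2⟩
  have h1 := zeta_sub ((Γ ⊓ Γ').subgroupOf Γ') hs h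
  rw [zeta_congr (Subgroup.subgroupOfEquivOfLe inf_le_right),
    ← zeta_congr (Subgroup.subgroupOfEquivOfLe inf_le_left)] at h1
  exact zeta_sup _ hs h1

end Pool.Agent.MP_8299d6_al.Up

end
end
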