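import Pool.Agent.Mg.X8299d6.G6efaac

section

/-! Definitions for the exact abscissa of `SL_4(ℤ)`. -/

open Matrix

noncomputable section

namespace Pool.Agent.MP_8299d6_al.Up

/-- subalgebras obtained from the centraliser of `z` by passing to radicals of alternating
cyclic cocycles -/
inductive Shad {F A : Type} [Field F] [Ring A] [Algebra F A] (z : A) : Subalgebra F A → Prop
  | base : Shad z (Subalgebra.centralizer F {z})
  | step (h h' : Subalgebra F A) (β : A →ₗ[F] A →ₗ[F] F) : Shad z h → (∀ x ∈ h, β x x = 0) →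
      (∀ x ∈ h, ∀ y ∈ h, ∀ w ∈ h, β (x * y) w = β x (y * w) + β y (w * x)) →
      (∀ x, x ∈ h' ↔ x ∈ h ∧ ∀ y ∈ h, β x y = 0) → z ∈ h' → Shad z h'

/-- centralisers of idempotents of rank one -/
def Big {F : Type} [Field F] (h : Subring (Mat 4 F)) : Prop :=
  ∃ v ξ : Fin 4 → F, ξ ⬝ᵥ v = 1 ∧ h = cent (vecMulVec v ξ)

/-- a subring of a matrix ring over the prime field is a subalgebra -/
def toAlg {n p : ℕ} [Fact p.Prime] (h : Subring (Mat n (ZMod p))) :
    Subalgebra (ZMod p) (Mat n (ZMod p)) :=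
  { h with
    algebraMap_mem' := fun r => by
      rw [← ZMod.natCast_zmod_val r, map_natCast]
      exact natCast_mem h _ }

lemma mem_toAlg {n p : ℕ} [Fact p.Prime] {h : Subring (Mat n (ZMod p))} {x : Mat n (ZMod p)} :
    x ∈ toAlg h ↔ x ∈ h := Iff.rfl

open Classical in
/-- the weight of a shadow in the character count -/
def wt (p : ℕ) [Fact p.Prime] (h : Subring (Mat 4 (ZMod p))) : ℝ :=
  if Big h then p else (p : ℝ) ^ 4 * Nat.card (commS h) / Nat.card h

open Classical in
/-- the weight of a shadow in the level sums -/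
def ut (p : ℕ) [Fact p.Prime] (σ : ℝ) (h : Subring (Mat 4 (ZMod p))) : ℝ :=
  if Big h then (p : ℝ) ^ (3 - 6 * σ) else (p : ℝ) ^ 4 * ((Nat.card h : ℝ) / (p : ℝ) ^ 16) ^ σ

/-- conjugation as an algebra automorphism -/
def cjA {n : ℕ} {F : Type} [Field F] (g : GLn n F) : Mat n F ≃ₐ[F] Mat n F where
  toFun := cj g
  invFun := cj g⁻¹
  left_inv x := by simp [cj, mul_assoc]
  right_inv x := by simp [cj, mul_assoc]
  map_mul' x y := by simp [cj, mul_assoc]
  map_add' x y := by simp [cj, mul_add, add_mul]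
  commutes' r := by
    rw [cj, ← Algebra.commutes, mul_assoc, Units.mul_inv, mul_one]

lemma cjA_apply {n : ℕ} {F : Type} [Field F] (g : GLn n F) (x : Mat n F) : cjA g x = cj g x := rfl

end Pool.Agent.MP_8299d6_al.Up

end
end

section

open Matrix

noncomputable section

namespace Pool.Agent.MP_8299d6_al.Up

open Pool.Agent.MP_810665_al (IrrChar)

variable {F : Type} [Field F]

theorem xnf_conj {n : ℕ} {c : Fin n → Fin n → F} (hc : LinearIndependent F c) {x y : Mat n F}
    (h : ∀ j, x *ᵥ c j = ∑ i, y i j • c i) : ∃ g : GLn n F, cj g x = y := by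
  have hP : IsUnit (Matrix.of c)ᵀ := by
    rw [← Matrix.linearIndependent_cols_iff_isUnit]
    exact hc
  have e : x * (Matrix.of c)ᵀ = (Matrix.of c)ᵀ * y := by
    ext i j
    have := congrFun (h j) i
    simp only [Matrix.mulVec, dotProduct, Finset.sum_apply, Pi.smul_apply, smul_eq_mul] at this
    simp only [Matrix.mul_apply, Matrix.transpose_apply, Matrix.of_apply, this]
    exact Finset.sum_congr rfl fun k _ => mul_comm _ _
  obtain ⟨P, hP⟩ := hP
  refine ⟨P⁻¹, ?_⟩
  rw [cj, inv_inv, mul_assoc, hP, e, ← hP, ← mul_assoc, Units.inv_mul, one_mul]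

theorem xnf_basis {n : ℕ} {s S : Set (Fin n → F)} (hs : LinearIndepOn F id s) (hS : s ⊆ S)
    (ht : ∀ v, v ∈ Submodule.span F S) :
    ∃ c : Fin n → Fin n → F, LinearIndependent F c ∧ (∀ j, c j ∈ S) ∧ s ⊆ Set.range c := by
  obtain ⟨b, hb, hsb, hsp, hli⟩ := exists_linearIndepOn_id_extension hs hS
  have top : ⊤ ≤ Submodule.span F (Set.range fun x : b => (x : Fin n → F)) := by
    intro v _
    rw [Subtype.range_coe]
    exact Submodule.span_le.2 hsp (ht v)
  let B := Module.Basis.mk (v := fun x : b => (x : Fin n → F)) hli top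
  let e : Fin n ≃ b := (Pi.basisFun F (Fin n)).indexEquiv B
  refine ⟨fun j => e j, LinearIndependent.comp (v := fun x : b => (x : Fin n → F)) hli e
    e.injective, fun j => hb (e j).2, fun v hv => ⟨e.symm ⟨v, hsb hv⟩, by simp⟩⟩

theorem xnf_inv {n : ℕ} (g : GLn n F) (x : Mat n F) : cj g⁻¹ (cj g x) = x := by
  simp [cj, mul_assoc]

theorem nf_idem {n : ℕ} {e : Mat n F} (he : e * e = e) (h0 : e ≠ 0) (h1 : e ≠ 1) :
    ∃ g : GLn n F, (∀ i j, i ≠ j → cj g e i j = 0) ∧ ∃ i k, cj g e i i ≠ cj g e k k := by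
  classical
  obtain ⟨c, hc, hS, -⟩ := xnf_basis (F := F) (n := n) (s := ∅)
    (S := {v | e *ᵥ v = v ∨ e *ᵥ v = 0}) (linearIndepOn_empty _ _) (Set.empty_subset _) fun v => by
      have : v = e *ᵥ v + (v - e *ᵥ v) := by abel
      rw [this]
      refine add_mem (Submodule.subset_span (Or.inl ?_)) (Submodule.subset_span (Or.inr ?_))
      · rw [mulVec_mulVec, he]
      · rw [mulVec_sub, mulVec_mulVec, he, sub_self]
  obtain ⟨g, hg⟩ := xnf_conj hc (x := e)
    (y := diagonal fun j => if e *ᵥ c j = c j then 1 else 0) fun j => by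
      rw [Finset.sum_eq_single j (fun i _ hi => by rw [diagonal_apply_ne _ hi, zero_smul])
        (by simp), diagonal_apply_eq]
      split_ifs with h
      · rw [h, one_smul]
      · rw [(hS j).resolve_left h, zero_smul]
  refine ⟨g, fun i j hij => by rw [hg, diagonal_apply_ne _ hij], ?_⟩
  by_contra hn
  push Not at hn
  simp only [hg, diagonal_apply_eq] at hn
  have key := xnf_inv g e
  rw [hg] at key
  by_cases hj : ∃ j, e *ᵥ c j = c j
  · obtain ⟨j, hj⟩ := hj
    have : (fun j => if e *ᵥ c j = c j then (1 : F) else 0) = fun _ => 1 :=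
      funext fun i => by rw [hn i j, if_pos hj]
    rw [this, diagonal_one] at key
    exact h1 (by rw [← key]; simp [cj])
  · push Not at hj
    have : (fun j => if e *ᵥ c j = c j then (1 : F) else 0) = fun _ => 0 :=
      funext fun i => if_neg (hj i)
    rw [this, diagonal_zero] at key
    exact h0 (by rw [← key]; simp [cj])

theorem xnf_perm : ∀ a b : Fin 4, a ≠ b → ∃ σ : Equiv.Perm (Fin 4), σ 0 = a ∧ σ 3 = b := by
  decide

theorem nf_sq {y : Mat 4 F} (hy : y * y = 0) (h0 : y ≠ 0) :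
    ∃ g : GLn 4 F, cj g y = single 0 3 1 ∨ cj g y = single 0 2 1 + single 1 3 1 := by
  have yy : ∀ w, y *ᵥ (y *ᵥ w) = 0 := fun w => by rw [mulVec_mulVec, hy, zero_mulVec]
  obtain ⟨u, hu⟩ : ∃ u, y *ᵥ u ≠ 0 := by
    by_contra hn
    push Not at hn
    refine h0 ?_
    ext i j
    simpa using congrFun (hn (Pi.single j 1)) i
  by_cases hv : ∃ v, ∀ a : F, a • (y *ᵥ u) ≠ y *ᵥ v
  · obtain ⟨v, hv⟩ := hv
    have li : LinearIndependent F ![y *ᵥ u, y *ᵥ v] := (LinearIndependent.pair_iff' hu).2 hv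
    rw [LinearIndependent.pair_iff] at li
    have hc : LinearIndependent F ![y *ᵥ u, y *ᵥ v, u, v] := by
      rw [Fintype.linearIndependent_iff]
      intro t ht
      simp only [Fin.sum_univ_four, Matrix.cons_val_zero, Matrix.cons_val_one,
        Matrix.cons_val] at ht
      have h2 := congrArg (y *ᵥ ·) ht
      simp only [mulVec_add, mulVec_smul, yy, smul_zero, zero_add, mulVec_zero] at h2
      obtain ⟨a2, a3⟩ := li _ _ h2
      rw [a2, a3, zero_smul, zero_smul, add_zero, add_zero] at ht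
      obtain ⟨a0, a1⟩ := li _ _ ht
      intro i
      fin_cases i <;> assumption
    obtain ⟨g, hg⟩ := xnf_conj hc (x := y) (y := single 0 2 1 + single 1 3 1) fun j => by
      fin_cases j <;> simp [yy, single]
    exact ⟨g, Or.inr hg⟩
  · push Not at hv
    have ne : y *ᵥ u ≠ u := fun e => hu (by rw [← e, yy])
    have li : LinearIndepOn F id {y *ᵥ u, u} := by
      refine (LinearIndepOn.pair_iff id ne).2 fun a b hab => ?_
      simp only [id] at hab
      have h2 := congrArg (y *ᵥ ·) hab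
      simp only [mulVec_add, mulVec_smul, yy, smul_zero, zero_add, mulVec_zero] at h2
      have hb := (smul_eq_zero.1 h2).resolve_right hu
      rw [hb, zero_smul, add_zero] at hab
      exact ⟨(smul_eq_zero.1 hab).resolve_right hu, hb⟩
    obtain ⟨c, hc, hS, hr⟩ := xnf_basis li (S := {w | y *ᵥ w = 0 ∨ w = u})
      (by rintro w (rfl | rfl); exacts [Or.inl (yy u), Or.inr rfl]) fun w => by
        obtain ⟨a, ha⟩ := hv w
        have : w = (w - a • u) + a • u := by abel
        rw [this]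
        refine add_mem (Submodule.subset_span (Or.inl ?_))
          (Submodule.smul_mem _ _ (Submodule.subset_span (Or.inr rfl)))
        rw [mulVec_sub, mulVec_smul, ha, sub_self]
    obtain ⟨a, ha⟩ := hr (Set.mem_insert _ _)
    obtain ⟨b, hb⟩ := hr (Set.mem_insert_of_mem _ (Set.mem_singleton _))
    obtain ⟨σ, h0, h3⟩ := xnf_perm a b fun e => ne (by rw [← ha, e, hb])
    have z : ∀ j, j ≠ 3 → y *ᵥ c (σ j) = 0 := fun j hj => (hS _).resolve_right fun e =>
      hj (σ.injective (hc.injective (by rw [e, h3, hb])))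
    obtain ⟨g, hg⟩ := xnf_conj (hc.comp σ σ.injective) (x := y) (y := single 0 3 1) fun j => by
      by_cases hj : j = 3
      · subst hj
        simp [single, h0, h3, ha, hb]
      · simp [single, z j hj, Ne.symm hj]
    exact ⟨g, Or.inl hg⟩

theorem nf_one {v ξ : Fin 4 → F} (h : ξ ⬝ᵥ v = 1) :
    ∃ g : GLn 4 F, cj g (vecMulVec v ξ) = single 3 3 1 := by
  have hv : v ≠ 0 := by
    rintro rfl
    simp at h
  have act : ∀ w, vecMulVec v ξ *ᵥ w = (ξ ⬝ᵥ w) • v := fun w => by
    ext i
    simp [mulVec, dotProduct, vecMulVec_apply, Finset.mul_sum, mul_comm,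
      mul_left_comm]
  obtain ⟨c, hc, hS, hr⟩ := xnf_basis (LinearIndepOn.singleton (v := id) (R := F) hv)
    (S := {w | ξ ⬝ᵥ w = 0 ∨ w = v}) (by rintro w rfl; exact Or.inr rfl) fun w => by
      have : w = (w - (ξ ⬝ᵥ w) • v) + (ξ ⬝ᵥ w) • v := by abel
      rw [this]
      refine add_mem (Submodule.subset_span (Or.inl ?_))
        (Submodule.smul_mem _ _ (Submodule.subset_span (Or.inr rfl)))
      rw [dotProduct_sub, dotProduct_smul, h, smul_eq_mul, mul_one, sub_self]
  obtain ⟨b, hb⟩ := hr (Set.mem_singleton _)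
  let σ : Equiv.Perm (Fin 4) := Equiv.swap 3 b
  have h3 : σ 3 = b := Equiv.swap_apply_left _ _
  have z : ∀ j, j ≠ 3 → ξ ⬝ᵥ c (σ j) = 0 := fun j hj => (hS _).resolve_right fun e =>
    hj (σ.injective (hc.injective (by rw [e, h3, hb])))
  refine xnf_conj (hc.comp σ σ.injective) fun j => ?_
  rw [act]
  by_cases hj : j = 3
  · subst hj
    simp [single, h3, hb, h]
  · simp [single, z j hj, Ne.symm hj]

theorem big_nf {h : Subring (Mat 4 F)} (hB : Big h) : ∃ g : GLn 4 F, ∀ x, x ∈ h ↔
    ∀ i, i ≠ 3 → cj g x i 3 = 0 ∧ cj g x 3 i = 0 := by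
  obtain ⟨v, ξ, h1, rfl⟩ := hB
  obtain ⟨g, hg⟩ := nf_one h1
  refine ⟨g, fun x => ?_⟩
  have e : x ∈ cent (vecMulVec v ξ) ↔ single 3 3 1 * cj g x = cj g x * single 3 3 1 := by
    rw [cent, Subring.mem_centralizer_iff, ← hg, ← cjA_apply, ← cjA_apply, ← map_mul, ← map_mul,
      (cjA g).injective.eq_iff]
    simp
  rw [e]
  generalize cj g x = z
  constructor
  · intro hz i hi
    have a := congrFun (congrFun hz i) 3
    have b := congrFun (congrFun hz 3) i
    rw [single_mul_apply_of_ne (h := hi), mul_single_apply_same, mul_one] at a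
    rw [single_mul_apply_same, mul_single_apply_of_ne (hbj := hi), one_mul] at b
    exact ⟨a.symm, b⟩
  · intro hz
    ext i j
    by_cases hi : i = 3 <;> by_cases hj : j = 3
    · subst hi hj
      rw [single_mul_apply_same, mul_single_apply_same, one_mul, mul_one]
    · subst hi
      rw [single_mul_apply_same, mul_single_apply_of_ne (hbj := hj), one_mul, (hz j hj).2]
    · subst hj
      rw [single_mul_apply_of_ne (h := hi), mul_single_apply_same, mul_one, (hz i hi).1]
    · rw [single_mul_apply_of_ne (h := hi), mul_single_apply_of_ne (hbj := hj)]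

end Pool.Agent.MP_8299d6_al.Up

end
end

section

open Matrix

noncomputable section

namespace Pool.Agent.MP_8299d6_al.Up

open Pool.Agent.MP_810665_al (IrrChar)

lemma xalt_skew {F V : Type} [Field F] [AddCommGroup V] [Module F V]
    (β : V →ₗ[F] V →ₗ[F] F) {S : Submodule F V} (h : ∀ x ∈ S, β x x = 0) {x y : V}
    (hx : x ∈ S) (hy : y ∈ S) : β y x = - β x y := by
  have h1 := h (x + y) (S.add_mem hx hy)
  simp only [map_add, LinearMap.add_apply, h x hx, h y hy] at h1
  linear_combination h1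

lemma xalt_aux {F V : Type} [Field F] [AddCommGroup V] [Module F V] [FiniteDimensional F V]
    (β : V →ₗ[F] V →ₗ[F] F) (n : ℕ) : ∀ (S R : Submodule F V), Module.finrank F S = n →
    (∀ x ∈ S, β x x = 0) → (∀ x, x ∈ R ↔ x ∈ S ∧ ∀ y ∈ S, β x y = 0) →
    ∃ k, Module.finrank F S = Module.finrank F R + 2 * k := by
  induction n using Nat.strong_induction_on with
  | _ n ih =>
  intro S R hn h hR
  by_cases hall : ∀ x ∈ S, ∀ y ∈ S, β x y = 0
  · have : R = S := by
      ext x
      rw [hR]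
      exact ⟨fun h => h.1, fun hx => ⟨hx, hall x hx⟩⟩
    subst this
    exact ⟨0, rfl⟩
  push Not at hall
  obtain ⟨x, hx, y0, hy0, hxy0⟩ := hall
  obtain ⟨y, hy, hxy⟩ : ∃ y ∈ S, β x y = 1 :=
    ⟨(β x y0)⁻¹ • y0, S.smul_mem _ hy0, by simp [hxy0]⟩
  have hyx : β y x = -1 := by rw [xalt_skew β h hx hy, hxy]
  let φ : S →ₗ[F] F × F := ((β x).prod (β y)).comp S.subtype
  have hφ : ∀ v : S, φ v = (β x v, β y v) := fun v => rfl
  have hsurj : LinearMap.range φ = ⊤ := by
    rw [eq_top_iff]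
    rintro ⟨a, b⟩ -
    refine ⟨⟨a • y - b • x, S.sub_mem (S.smul_mem _ hy) (S.smul_mem _ hx)⟩, ?_⟩
    rw [hφ]
    simp [hxy, hyx, h x hx, h y hy]
  have hrk := LinearMap.finrank_range_add_finrank_ker φ
  rw [hsurj, finrank_top, Module.finrank_prod, Module.finrank_self] at hrk
  let S' : Submodule F V := (LinearMap.ker φ).map S.subtype
  have hS' : Module.finrank F S' = Module.finrank F (LinearMap.ker φ) :=
    Submodule.finrank_map_subtype_eq S _
  have hmem : ∀ v, v ∈ S' ↔ v ∈ S ∧ β x v = 0 ∧ β y v = 0 := by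
    intro v
    constructor
    · rintro ⟨w, hw, rfl⟩
      have hw' : φ w = 0 := hw
      rw [hφ, Prod.mk_eq_zero] at hw'
      exact ⟨w.2, hw'.1, hw'.2⟩
    · rintro ⟨hv, h1, h2⟩
      refine ⟨⟨v, hv⟩, ?_, rfl⟩
      show φ ⟨v, hv⟩ = 0
      rw [hφ, Prod.mk_eq_zero]
      exact ⟨h1, h2⟩
  obtain ⟨k, hk⟩ := ih (Module.finrank F S') (by omega) S' R rfl
    (fun v hv => h v ((hmem v).1 hv).1) (by
      intro v
      rw [hR]
      constructor
      · rintro ⟨hv, h0⟩
        refine ⟨(hmem v).2 ⟨hv, ?_, ?_⟩, fun w hw => h0 w ((hmem w).1 hw).1⟩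
        · rw [xalt_skew β h hv hx, h0 x hx, neg_zero]
        · rw [xalt_skew β h hv hy, h0 y hy, neg_zero]
      · rintro ⟨hv, h0⟩
        obtain ⟨hvS, hv1, hv2⟩ := (hmem v).1 hv
        refine ⟨hvS, fun w hw => ?_⟩
        have hw' : w + β y w • x - β x w • y ∈ S' := by
          refine (hmem _).2 ⟨S.sub_mem (S.add_mem hw (S.smul_mem _ hx)) (S.smul_mem _ hy), ?_, ?_⟩
          · simp [hxy, h x hx]
          · simp [hyx, h y hy]
        have h3 := h0 _ hw'
        have h4 : β v x = 0 := by rw [xalt_skew β h hx hvS, hv1, neg_zero]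
        have h5 : β v y = 0 := by rw [xalt_skew β h hy hvS, hv2, neg_zero]
        simpa [h4, h5] using h3)
  exact ⟨k + 1, by omega⟩

/-- alternating forms have even rank -/
theorem alt_even {F V : Type} [Field F] [AddCommGroup V] [Module F V] [FiniteDimensional F V]
    (β : V →ₗ[F] V →ₗ[F] F) (S R : Submodule F V) (h : ∀ x ∈ S, β x x = 0)
    (hR : ∀ x, x ∈ R ↔ x ∈ S ∧ ∀ y ∈ S, β x y = 0) :
    ∃ k, Module.finrank F S = Module.finrank F R + 2 * k :=
  xalt_aux β _ S R rfl h hR

variable {F A A' : Type} [Field F] [Ring A] [Algebra F A] [Ring A'] [Algebra F A']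

theorem shad_le {z : A} {h : Subalgebra F A} (hs : Shad z h) : ∀ x ∈ h, z * x = x * z := by
  induction hs with
  | base =>
    intro x hx
    exact (Subalgebra.mem_centralizer_iff F).1 hx z rfl
  | step h h' β _ _ _ hrad _ ih =>
    intro x hx
    exact ih x ((hrad x).1 hx).1

theorem shad_mem {z : A} {h : Subalgebra F A} (hs : Shad z h) : z ∈ h := by
  cases hs with
  | base =>
    rw [Subalgebra.mem_centralizer_iff]
    rintro g rfl
    rfl
  | step h _ β _ _ _ _ hz => exact hz

lemma xalt_mem_map (e : A ≃ₐ[F] A') (h : Subalgebra F A) (x : A') :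
    x ∈ h.map (e : A →ₐ[F] A') ↔ e.symm x ∈ h := by
  rw [Subalgebra.mem_map]
  constructor
  · rintro ⟨y, hy, rfl⟩
    simpa using hy
  · intro hx
    exact ⟨e.symm x, hx, by simp⟩

theorem shad_map (e : A ≃ₐ[F] A') {z : A} {h : Subalgebra F A} (hs : Shad z h) :
    Shad (e z) (h.map (e : A →ₐ[F] A')) := by
  induction hs with
  | base =>
    have : (Subalgebra.centralizer F {z}).map (e : A →ₐ[F] A')
        = Subalgebra.centralizer F {e z} := by
      ext x
      rw [xalt_mem_map, Subalgebra.mem_centralizer_iff, Subalgebra.mem_centralizer_iff]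
      simp only [Set.mem_singleton_iff, forall_eq]
      constructor
      · intro h1
        have := congrArg e h1
        simpa using this
      · intro h1
        apply e.injective
        simpa using h1
    rw [this]
    exact Shad.base
  | step h h' β _ halt hcoc hrad hz ih =>
    let β' : A' →ₗ[F] A' →ₗ[F] F :=
      β.compl₁₂ e.symm.toLinearEquiv.toLinearMap e.symm.toLinearEquiv.toLinearMap
    have hβ' : ∀ x y, β' x y = β (e.symm x) (e.symm y) := fun x y => rfl
    refine Shad.step _ _ β' ih ?_ ?_ ?_ ?_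
    · intro x hx
      rw [hβ']
      exact halt _ ((xalt_mem_map e h x).1 hx)
    · intro x hx y hy w hw
      simp only [hβ', map_mul]
      exact hcoc _ ((xalt_mem_map e h x).1 hx) _ ((xalt_mem_map e h y).1 hy) _
        ((xalt_mem_map e h w).1 hw)
    · intro x
      rw [xalt_mem_map, xalt_mem_map, hrad]
      constructor
      · rintro ⟨h1, h2⟩
        refine ⟨h1, fun y hy => ?_⟩
        rw [hβ']
        exact h2 _ ((xalt_mem_map e h y).1 hy)
      · rintro ⟨h1, h2⟩
        refine ⟨h1, fun y hy => ?_⟩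
        have := h2 (e y) ((xalt_mem_map e h _).2 (by simpa using hy))
        rw [hβ'] at this
        simpa using this
    · rw [xalt_mem_map]
      simpa using hz

theorem finrank_map_alg (e : A ≃ₐ[F] A') (h : Subalgebra F A) :
    Module.finrank F (h.map (e : A →ₐ[F] A')) = Module.finrank F h :=
  (e.subalgebraMap h).toLinearEquiv.finrank_eq.symm

theorem finrank_commA_map (e : A ≃ₐ[F] A') (h : Subalgebra F A) :
    Module.finrank F (commA (h.map (e : A →ₐ[F] A'))) = Module.finrank F (commA h) := by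
  have : commA (h.map (e : A →ₐ[F] A')) = (commA h).map e.toLinearEquiv.toLinearMap := by
    unfold commA
    rw [Submodule.map_span]
    congr 1
    ext w
    constructor
    · rintro ⟨x, hx, y, hy, rfl⟩
      refine ⟨e.symm x * e.symm y - e.symm y * e.symm x, ⟨_, (xalt_mem_map e h x).1 hx, _,
        (xalt_mem_map e h y).1 hy, rfl⟩, ?_⟩
      simp
    · rintro ⟨w, ⟨x, hx, y, hy, rfl⟩, rfl⟩
      refine ⟨e x, (xalt_mem_map e h _).2 (by simpa using hx), e y,
        (xalt_mem_map e h _).2 (by simpa using hy), ?_⟩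
      simp
  rw [this]
  exact LinearEquiv.finrank_map_eq e.toLinearEquiv (commA h)

theorem shad_even {z : Mat 4 F} {h : Subalgebra F (Mat 4 F)} (hs : Shad z h) :
    Even (Module.finrank F h) := by
  induction hs with
  | base =>
    let β : Mat 4 F →ₗ[F] Mat 4 F →ₗ[F] F :=
      LinearMap.mk₂ F (fun x y => trace ((z * x - x * z) * y))
        (fun a b c => by rw [← trace_add]; congr 1; noncomm_ring)
        (fun c a b => by
          rw [← trace_smul]; congr 1
          simp only [Matrix.mul_smul, Matrix.smul_mul, ← smul_sub])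
        (fun a b c => by rw [← trace_add]; congr 1; noncomm_ring)
        (fun c a b => by rw [← trace_smul, Matrix.mul_smul])
    have hβ : ∀ x y, β x y = trace ((z * x - x * z) * y) := fun x y => rfl
    obtain ⟨k, hk⟩ := alt_even β ⊤ (Subalgebra.toSubmodule (Subalgebra.centralizer F {z}))
      (by
        intro x _
        rw [hβ, sub_mul, trace_sub, mul_assoc x z x, trace_mul_comm x (z * x), sub_self])
      (by
        intro x
        rw [Subalgebra.mem_toSubmodule, Subalgebra.mem_centralizer_iff]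
        simp only [Set.mem_singleton_iff, forall_eq, Submodule.mem_top, true_and, forall_const]
        constructor
        · intro h1 y
          rw [hβ, h1, sub_self, zero_mul, trace_zero]
        · intro h1
          rw [← sub_eq_zero]
          ext i j
          have := h1 (single j i 1)
          rw [hβ, trace_mul_single] at this
          simpa using this)
    rw [finrank_top, Module.finrank_matrix, Subalgebra.finrank_toSubmodule] at hk
    simp only [Fintype.card_fin, Module.finrank_self] at hk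
    exact ⟨8 - k, by omega⟩
  | step h h' β _ halt _ hrad _ ih =>
    obtain ⟨k, hk⟩ := alt_even β (Subalgebra.toSubmodule h) (Subalgebra.toSubmodule h') halt hrad
    rw [Subalgebra.finrank_toSubmodule, Subalgebra.finrank_toSubmodule] at hk
    obtain ⟨m, hm⟩ := ih
    exact ⟨m - k, by omega⟩

theorem isScal_cj {n : ℕ} (g : GLn n F) {z : Mat n F} : IsScal (cj g z) ↔ IsScal z := by
  constructor
  · rintro ⟨a, ha⟩
    refine ⟨a, ?_⟩
    have h1 : z = cj g⁻¹ (cj g z) := by simp [cj, mul_assoc]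
    rw [h1, ha]
    simp [cj]
  · rintro ⟨a, rfl⟩
    exact ⟨a, by simp [cj]⟩

end Pool.Agent.MP_8299d6_al.Up

end
end

section

open Matrix

noncomputable section

namespace Pool.Agent.MP_8299d6_al.Up

open Pool.Agent.MP_810665_al (IrrChar)

theorem xheis1_mul_comm {F A : Type} [Field F] [Ring A] [Algebra F A] (h : Subalgebra F A) (z : A)
    (hz : z ∈ h) (hc : ∀ x ∈ h, z * x = x * z) {w : A} (hw : w ∈ commA h) : z * w ∈ commA h := by
  unfold commA at hw ⊢
  induction hw using Submodule.span_induction with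
  | mem u hu =>
    obtain ⟨x, hx, y, hy, rfl⟩ := hu
    refine Submodule.subset_span ⟨z * x, mul_mem hz hx, y, hy, ?_⟩
    rw [mul_sub, ← mul_assoc, ← mul_assoc, hc y hy, mul_assoc y]
  | zero => simp
  | add a b _ _ ha hb => rw [mul_add]; exact add_mem ha hb
  | smul c a _ ha => rw [mul_smul_comm]; exact Submodule.smul_mem _ _ ha

theorem xheis1_fit {F A : Type} [Field F] [Ring A] [Algebra F A] [FiniteDimensional F A]
    (h : Subalgebra F A) (z : A) (hz : z ∈ h) :
    ∃ N : ℕ, ∃ q ∈ h, z ^ (N + 1) = z ^ (N + 1) * z ^ (N + 1) * q := by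
  let T : ℕ → Submodule F A := fun k => h.toSubmodule.map (LinearMap.mulLeft F (z ^ k))
  have hT : ∀ k, T (k + 1) ≤ T k := by
    rintro k _ ⟨x, hx, rfl⟩
    refine ⟨z * x, h.mul_mem hz hx, ?_⟩
    simp [pow_succ]
  have hanti : Antitone T := antitone_nat_of_succ_le hT
  obtain ⟨N, hN⟩ := IsArtinian.monotone_stabilizes (R := F) (M := A)
    ⟨fun k => OrderDual.toDual (T k), fun a b hab => hanti hab⟩
  have h1 : T N = T (N + 1) := hN (N + 1) (by omega)
  have h2 : T N = T (N + 1 + (N + 1)) := hN _ (by omega)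
  have h3 : z ^ (N + 1) ∈ T (N + 1) := ⟨1, one_mem h, by simp⟩
  rw [← h1, h2] at h3
  obtain ⟨q, hq, e⟩ := h3
  refine ⟨N, q, hq, ?_⟩
  rw [← pow_add]
  exact e.symm

/-- a central element that kills the commutators -/
theorem heis_sq {n : ℕ} {F : Type} [Field F] (h : Subalgebra F (Mat n F)) (z : Mat n F)
    (hz : z ∈ h) (hns : ¬ IsScal z) (hc : ∀ x ∈ h, z * x = x * z)
    (h1 : Module.finrank F (commA h) = 1) :
    (∃ e ∈ h, e * e = e ∧ e ≠ 0 ∧ e ≠ 1) ∨
      ∃ y ∈ h, y ≠ 0 ∧ y * y = 0 ∧ ∀ x ∈ h, y * x = x * y := by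
  classical
  obtain ⟨w, hw0, hw⟩ := finrank_eq_one_iff'.1 h1
  obtain ⟨l, hl⟩ := hw ⟨z * w.1, xheis1_mul_comm h z hz hc w.2⟩
  have hl' : l • w.1 = z * w.1 := congrArg Subtype.val hl
  have hw1 : w.1 ≠ 0 := fun e => hw0 (Subtype.ext e)
  set u : Mat n F := z - l • (1 : Mat n F) with hu
  have huh : u ∈ h := sub_mem hz (h.smul_mem (one_mem h) l)
  have hu0 : u ≠ 0 := fun e => hns ⟨l, sub_eq_zero.1 e⟩
  have huc : ∀ x ∈ h, Commute u x := by
    intro x hx
    show u * x = x * u
    rw [hu, sub_mul, mul_sub, hc x hx, smul_mul_assoc, mul_smul_comm, one_mul, mul_one]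
  have huw : u * w.1 = 0 := by
    rw [hu, sub_mul, smul_mul_assoc, one_mul, hl', sub_self]
  obtain ⟨N, q, hq, e⟩ := xheis1_fit h u huh
  have haq : u ^ (N + 1) * q = q * u ^ (N + 1) := ((huc q hq).pow_left (N + 1)).eq
  by_cases h0 : u ^ (N + 1) * q = 0
  · right
    have hnil : ∃ k, u ^ k = 0 := ⟨N + 1, by rw [e, mul_assoc, h0, mul_zero]⟩
    have hk := Nat.find_spec hnil
    have hk0 : Nat.find hnil ≠ 0 := by
      intro e0
      rw [e0, pow_zero] at hk
      exact hu0 (by rw [← mul_one u, hk, mul_zero])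
    have hk1 : Nat.find hnil ≠ 1 := by
      intro e0
      rw [e0, pow_one] at hk
      exact hu0 hk
    refine ⟨u ^ (Nat.find hnil - 1), pow_mem huh _, Nat.find_min hnil (by omega), ?_,
      fun x hx => ((huc x hx).pow_left _).eq⟩
    rw [← pow_add]
    exact pow_eq_zero_of_le (by omega) hk
  · left
    refine ⟨u ^ (N + 1) * q, mul_mem (pow_mem huh _) hq, ?_, h0, ?_⟩
    · calc u ^ (N + 1) * q * (u ^ (N + 1) * q)
          = u ^ (N + 1) * (q * u ^ (N + 1)) * q := by simp only [mul_assoc]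
        _ = u ^ (N + 1) * u ^ (N + 1) * q * q := by rw [← haq]; simp only [mul_assoc]
        _ = u ^ (N + 1) * q := by rw [← e]
    · intro e1
      apply hw1
      rw [← one_mul w.1, ← e1, haq, pow_succ, mul_assoc, mul_assoc, huw, mul_zero, mul_zero]

theorem xheis1_unit {F : Type} [Field F] {z : Mat 4 F} {a b : Fin 4}
    (hc : z * single a b 1 = single a b 1 * z) :
    (∀ i, i ≠ a → z i a = 0) ∧ (∀ j, j ≠ b → z b j = 0) ∧ z a a = z b b := by
  refine ⟨fun i hi => ?_, fun j hj => ?_, ?_⟩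
  · have := congrFun (congrFun hc i) b
    rw [mul_single_apply_same, single_mul_apply_of_ne (h := hi)] at this
    simpa using this
  · have := congrFun (congrFun hc a) j
    rw [single_mul_apply_same, mul_single_apply_of_ne (hbj := hj)] at this
    simpa using this.symm
  · have := congrFun (congrFun hc a) b
    rw [single_mul_apply_same, mul_single_apply_same] at this
    simpa using this

theorem xheis1_form {F : Type} [Field F] {z : Mat 4 F}
    (h01 : z * single 0 1 1 = single 0 1 1 * z) (h02 : z * single 0 2 1 = single 0 2 1 * z)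
    (h13 : z * single 1 3 1 = single 1 3 1 * z) (h23 : z * single 2 3 1 = single 2 3 1 * z) :
    z = z 0 0 • (1 : Mat 4 F) + z 0 3 • single 0 3 1 := by
  obtain ⟨a1, a2, a3⟩ := xheis1_unit h01
  obtain ⟨-, b2, b3⟩ := xheis1_unit h02
  obtain ⟨c1, c2, c3⟩ := xheis1_unit h13
  obtain ⟨d1, -, -⟩ := xheis1_unit h23
  have e1 := c1 0 (by decide)
  have e2 := d1 0 (by decide)
  have e3 := a2 0 (by decide)
  have e4 := a2 2 (by decide)
  have e5 := a2 3 (by decide)
  have e6 := b2 0 (by decide)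
  have e7 := b2 1 (by decide)
  have e8 := b2 3 (by decide)
  have e9 := c2 0 (by decide)
  have e10 := c2 1 (by decide)
  have e11 := c2 2 (by decide)
  have f1 : z 1 1 = z 0 0 := a3.symm
  have f2 : z 2 2 = z 0 0 := b3.symm
  have f3 : z 3 3 = z 0 0 := c3.symm.trans a3.symm
  ext i j
  fin_cases i <;> fin_cases j <;>
    simp [e1, e2, e3, e4, e5, e6, e7, e8, e9, e10, e11, f1, f2, f3, single]

/-- the Peirce argument -/
theorem heis_peirce {F : Type} [Field F] {z : Mat 4 F} (hns : ¬ IsScal z)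
    {h : Subalgebra F (Mat 4 F)} (hs : Shad z h) (h01 : single 0 1 1 ∈ h) (h02 : single 0 2 1 ∈ h)
    (h13 : single 1 3 1 ∈ h) (h23 : single 2 3 1 ∈ h) : single 1 1 1 + single 2 2 1 ∈ h := by
  have hz := xheis1_form (shad_le hs _ h01) (shad_le hs _ h02) (shad_le hs _ h13) (shad_le hs _ h23)
  have hc0 : z 0 3 ≠ 0 := by
    intro e
    exact hns ⟨z 0 0, by rw [e, zero_smul, add_zero] at hz; exact hz⟩
  generalize z 0 0 = a at hz
  generalize z 0 3 = c at hz hc0
  induction hs with
  | base =>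
    rw [Subalgebra.mem_centralizer_iff]
    rintro g rfl
    rw [hz]
    simp [mul_add, add_mul, single_mul_single_of_ne]
  | step k k' β hk halt hcoc hrad _ ih =>
    obtain ⟨u01, r01⟩ := (hrad _).1 h01
    obtain ⟨u02, r02⟩ := (hrad _).1 h02
    obtain ⟨u13, r13⟩ := (hrad _).1 h13
    obtain ⟨u23, r23⟩ := (hrad _).1 h23
    have hE := ih u01 u02 u13 u23
    set E : Mat 4 F := single 1 1 1 + single 2 2 1 with hEdef
    have hskew : ∀ x ∈ k, β x E = 0 → β E x = 0 := by
      intro x hx h0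
      have := halt (E + x) (add_mem hE hx)
      simp only [map_add, LinearMap.add_apply, halt E hE, halt x hx, h0] at this
      simpa using this
    have hEE : E * E = E := by
      rw [hEdef]; simp [mul_add, add_mul, single_mul_single_of_ne]
    refine (hrad _).2 ⟨hE, fun y hy => ?_⟩
    have hy3 : y * single 0 3 1 = single 0 3 1 * y := by
      have := shad_le hk y hy
      rw [hz, add_mul, mul_add, smul_mul_assoc, smul_mul_assoc, mul_smul_comm, mul_smul_comm,
        one_mul, mul_one, add_right_inj] at this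
      exact (smul_right_injective _ hc0 this).symm
    obtain ⟨a1, a2, -⟩ := xheis1_unit hy3
    have e1 := a1 1 (by decide)
    have e2 := a1 2 (by decide)
    have e3 := a2 1 (by decide)
    have e4 := a2 2 (by decide)
    set w : Mat 4 F := y - (y 0 1 • single 0 1 1 + y 0 2 • single 0 2 1 + y 1 3 • single 1 3 1
      + y 2 3 • single 2 3 1) with hw
    have hwk : w ∈ k := sub_mem hy (add_mem (add_mem (add_mem (k.smul_mem u01 _)
      (k.smul_mem u02 _)) (k.smul_mem u13 _)) (k.smul_mem u23 _))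
    have hwE : w * E = E * w := by
      rw [hw, hEdef]
      ext i j
      fin_cases i <;> fin_cases j <;>
        simp [mul_apply, single, e1, e2, e3, e4]
    have h1 : β E (E * w) = 0 := by
      have := hcoc E hE E hE (E * w) (mul_mem hE hwk)
      rw [hEE, ← mul_assoc, hEE, mul_assoc, hwE, ← mul_assoc, hEE] at this
      simpa using this
    have h2 : β E w = 0 := by
      have := hcoc E hE E hE w hwk
      rw [hEE, hwE, h1, add_zero] at this
      exact this
    rw [hw] at h2
    simp only [map_sub, map_add, map_smul, hskew _ u01 (r01 E hE), hskew _ u02 (r02 E hE),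
      hskew _ u13 (r13 E hE), hskew _ u23 (r23 E hE), smul_zero, add_zero, sub_zero] at h2
    exact h2

end Pool.Agent.MP_8299d6_al.Up

end
end

section

open Matrix

noncomputable section

namespace Pool.Agent.MP_8299d6_al.Up

open Pool.Agent.MP_810665_al (IrrChar)

/-- the block embedding -/
def xbigaE (F : Type) [Field F] : (Mat 3 F × F) →ₐ[F] Mat 4 F where
  toFun u := !![u.1 0 0, u.1 0 1, u.1 0 2, 0; u.1 1 0, u.1 1 1, u.1 1 2, 0;
    u.1 2 0, u.1 2 1, u.1 2 2, 0; 0, 0, 0, u.2]
  map_one' := by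
    ext i j; fin_cases i <;> fin_cases j <;> simp
  map_mul' u v := by
    ext i j; fin_cases i <;> fin_cases j <;> simp [mul_apply, Fin.sum_univ_succ]
  map_zero' := by
    ext i j; fin_cases i <;> fin_cases j <;> simp
  map_add' u v := by
    ext i j; fin_cases i <;> fin_cases j <;> simp
  commutes' r := by
    ext i j; fin_cases i <;> fin_cases j <;> simp [algebraMap_matrix_apply]

lemma xbiga_apply {F : Type} [Field F] (u : Mat 3 F × F) : xbigaE F u =
    !![u.1 0 0, u.1 0 1, u.1 0 2, 0; u.1 1 0, u.1 1 1, u.1 1 2, 0;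
    u.1 2 0, u.1 2 1, u.1 2 2, 0; 0, 0, 0, u.2] := rfl

lemma xbiga_inj {F : Type} [Field F] : Function.Injective (xbigaE F) := by
  rw [injective_iff_map_eq_zero]
  intro u hu
  have e : ∀ i j, xbigaE F u i j = 0 := fun i j => by rw [hu]; rfl
  refine Prod.ext ?_ ?_
  · ext i j
    have := e i.castSucc j.castSucc
    fin_cases i <;> fin_cases j <;> simpa [xbiga_apply] using this
  · simpa [xbiga_apply] using e 3 3

lemma xbiga_range {F : Type} [Field F] (x : Mat 4 F) :
    (∀ i, i ≠ 3 → x i 3 = 0 ∧ x 3 i = 0) ↔ ∃ u, xbigaE F u = x := by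
  constructor
  · intro hx
    have h0 := hx 0 (by decide)
    have h1 := hx 1 (by decide)
    have h2 := hx 2 (by decide)
    refine ⟨(x.submatrix Fin.castSucc Fin.castSucc, x 3 3), ?_⟩
    ext i j
    fin_cases i <;> fin_cases j <;> simp [xbiga_apply, h0, h1, h2]
  · rintro ⟨u, rfl⟩ i hi
    fin_cases i <;> simp [xbiga_apply] at hi ⊢

lemma xbiga_iso {F : Type} [Field F] {h : Subring (Mat 4 F)} (hB : Big h) :
    ∃ φ : (Mat 3 F × F) →ₐ[F] Mat 4 F, Function.Injective φ ∧ ∀ x, x ∈ h ↔ ∃ u, φ u = x := by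
  obtain ⟨g, hg⟩ := big_nf hB
  refine ⟨((cjA g).symm : Mat 4 F →ₐ[F] Mat 4 F).comp (xbigaE F),
    (cjA g).symm.injective.comp xbiga_inj, fun x => ?_⟩
  rw [hg, xbiga_range]
  refine exists_congr fun u => ?_
  change _ ↔ (cjA g).symm (xbigaE F u) = x
  rw [AlgEquiv.symm_apply_eq, cjA_apply]

lemma xbiga_le {X Y : Type} [Finite X] (S : Set Y) (f : X → Y) (hf : ∀ y ∈ S, ∃ x, f x = y) :
    Nat.card S ≤ Nat.card X := by
  choose s hs using fun y : S => hf y.1 y.2
  refine Nat.card_le_card_of_injective s fun a b hab => Subtype.ext ?_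
  rw [← hs a, ← hs b, hab]

lemma xbiga_sep {A B : Type} [Ring A] [Ring B] (hA : ss1Sep A) (hB : ss1Sep B) :
    ss1Sep (A × B) := by
  obtain ⟨S, _, a, b, h1, h2⟩ := hA
  obtain ⟨T, _, c, d, h3, h4⟩ := hB
  refine ⟨S ⊕ T, inferInstance, Sum.elim (fun s => (a s, 0)) (fun t => (0, c t)),
    Sum.elim (fun s => (b s, 0)) (fun t => (0, d t)), ?_, ?_⟩
  · refine Prod.ext ?_ ?_
    · simp [Fintype.sum_sum_type, Prod.fst_sum, h1]
    · simp [Fintype.sum_sum_type, Prod.snd_sum, h3]
  · intro W _ γ x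
    have e1 := h2 W ((γ.comp (AddMonoidHom.inl A B)).compl₂ (AddMonoidHom.inl A B)) x.1
    have e2 := h4 W ((γ.comp (AddMonoidHom.inr A B)).compl₂ (AddMonoidHom.inr A B)) x.2
    simp only [AddMonoidHom.compl₂_apply, AddMonoidHom.comp_apply, AddMonoidHom.inl_apply,
      AddMonoidHom.inr_apply] at e1 e2
    simp only [Fintype.sum_sum_type, Sum.elim_inl, Sum.elim_inr]
    have m1 : ∀ s : A, x * (s, 0) = (x.1 * s, 0) := fun s => by ext <;> simp
    have m2 : ∀ s : A, (s, 0) * x = (s * x.1, 0) := fun s => by ext <;> simp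
    have m3 : ∀ s : B, x * (0, s) = (0, x.2 * s) := fun s => by ext <;> simp
    have m4 : ∀ s : B, (0, s) * x = (0, s * x.2) := fun s => by ext <;> simp
    simp only [m1, m2, m3, m4]
    rw [e1, e2]

lemma xbiga_tr {F : Type} [Field F] (μ : Mat 3 F →ₗ[F] F) :
    ∃ b : Mat 3 F, ∀ x, μ x = trace (b * x) := by
  refine ⟨of fun j i => μ (single i j 1), fun x => ?_⟩
  conv_lhs => rw [matrix_eq_sum_single x]
  simp only [map_sum, trace, diag_apply, mul_apply, of_apply]
  rw [Finset.sum_comm]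
  refine Finset.sum_congr rfl fun j _ => Finset.sum_congr rfl fun i _ => ?_
  have : single i j (x i j) = x i j • (single i j 1 : Mat 3 F) := by
    rw [smul_single, smul_eq_mul, mul_one]
  rw [this, map_smul, smul_eq_mul, mul_comm]

variable {p : ℕ} [Fact p.Prime] {h : Subring (Mat 4 (ZMod p))}

theorem big_card (hB : Big h) : Nat.card h = p ^ 10 := by
  obtain ⟨φ, hφ, hh⟩ := xbiga_iso hB
  have e : Nat.card (Mat 3 (ZMod p) × ZMod p) = Nat.card h :=
    Nat.card_congr (Equiv.ofBijective (fun u => (⟨φ u, (hh _).2 ⟨u, rfl⟩⟩ : h))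
      ⟨fun a b hab => hφ (congrArg Subtype.val hab), fun x => by
        obtain ⟨u, hu⟩ := (hh x.1).1 x.2
        exact ⟨u, Subtype.ext hu⟩⟩)
  rw [← e, Nat.card_prod, Module.natCard_eq_pow_finrank (K := ZMod p) (V := Mat 3 (ZMod p)),
    fl_finrank_mat, Nat.card_zmod]
  ring

theorem big_comm (hB : Big h) : Nat.card (commS h) ≤ p ^ 8 := by
  obtain ⟨φ, hφ, hh⟩ := xbiga_iso hB
  have key : ∀ z ∈ commS h, ∃ u, φ u = z ∧ trace u.1 = 0 ∧ u.2 = 0 := by
    intro z hz
    induction hz using AddSubgroup.closure_induction with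
    | mem z hz =>
      obtain ⟨x, hx, y, hy, rfl⟩ := hz
      obtain ⟨u, rfl⟩ := (hh x).1 hx
      obtain ⟨v, rfl⟩ := (hh y).1 hy
      refine ⟨u * v - v * u, by simp, ?_, ?_⟩
      · simp [trace_mul_comm u.1 v.1]
      · simp [mul_comm]
    | zero => exact ⟨0, map_zero _, by simp, rfl⟩
    | add x y _ _ hx hy =>
      obtain ⟨u, rfl, h1, h2⟩ := hx
      obtain ⟨v, rfl, h3, h4⟩ := hy
      exact ⟨u + v, map_add _ _ _, by simp [h1, h3], by simp [h2, h4]⟩
    | neg x _ hx =>
      obtain ⟨u, rfl, h1, h2⟩ := hx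
      exact ⟨-u, map_neg _ _, by simp [h1], by simp [h2]⟩
  have := xbiga_le (X := Fin 8 → ZMod p) (commS h : Set (Mat 4 (ZMod p)))
    (fun t => φ (!![t 0, t 1, t 2; t 3, t 4, t 5; t 6, t 7, -(t 0 + t 4)], 0)) (by
      intro z hz
      obtain ⟨u, rfl, h1, h2⟩ := key z hz
      refine ⟨![u.1 0 0, u.1 0 1, u.1 0 2, u.1 1 0, u.1 1 1, u.1 1 2, u.1 2 0, u.1 2 1], ?_⟩
      refine congrArg φ (Prod.ext ?_ h2.symm)
      rw [trace_fin_three] at h1
      have h3 : u.1 2 2 = -(u.1 0 0 + u.1 1 1) := by linear_combination h1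
      ext i j
      fin_cases i <;> fin_cases j <;> simp [h3])
  simpa [Nat.card_fun] using this

theorem big_nil (hB : Big h) (J : AddSubgroup (Mat 4 (ZMod p))) (hJ : ∀ y ∈ J, y ∈ h)
    (hid : ∀ x ∈ h, ∀ y ∈ J, x * y ∈ J ∧ y * x ∈ J)
    (hn : NilTo 4 (J : Set (Mat 4 (ZMod p))) {0}) : J = ⊥ := by
  obtain ⟨φ, hφ, hh⟩ := xbiga_iso hB
  rw [eq_bot_iff]
  intro y hy
  obtain ⟨w, rfl⟩ := (hh y).1 (hJ y hy)
  have key : ∀ u v, (u * w * v) ^ 4 = 0 := by
    intro u v
    have h1 : φ (u * w * v) ∈ J := by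
      rw [map_mul, map_mul]
      exact (hid _ ((hh _).2 ⟨v, rfl⟩) _ (hid _ ((hh _).2 ⟨u, rfl⟩) _ hy).1).2
    have h2 := hn (fun _ => φ (u * w * v)) (fun _ => h1)
    rw [Set.mem_singleton_iff, List.ofFn_const, List.prod_replicate, ← map_pow] at h2
    exact hφ (h2.trans (map_zero φ).symm)
  have hw : w = 0 := by
    refine Prod.ext ?_ ?_
    · ext i j
      have h1 := congrArg Prod.fst (key (single 0 i 1, 0) (single j 0 1, 0))
      simp only [Prod.pow_fst, Prod.fst_mul, Prod.fst_zero, single_mul_mul_single, one_mul,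
        mul_one] at h1
      have h2 : (single 0 0 (w.1 i j) : Mat 3 (ZMod p)) ^ 4 = single 0 0 (w.1 i j ^ 4) := by
        simp only [pow_succ, pow_zero, one_mul, single_mul_single_same]
      have h3 := congrFun (congrFun (h2.symm.trans h1) 0) 0
      simpa using h3
    · have h1 := congrArg Prod.snd (key 1 1)
      simpa using h1
  rw [hw, map_zero]
  exact zero_mem _

theorem big_step (hp : 5 ≤ p) (hB : Big h)
    (β : Mat 4 (ZMod p) →ₗ[ZMod p] Mat 4 (ZMod p) →ₗ[ZMod p] ZMod p)
    (h2 : ∀ x ∈ h, ∀ y ∈ h, ∀ w ∈ h, β (x * y) w = β x (y * w) + β y (w * x))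
    (h' : Subring (Mat 4 (ZMod p))) (h3 : ∀ x, x ∈ h' ↔ x ∈ h ∧ ∀ y ∈ h, β x y = 0) :
    h' = h ∨ Nat.card h' ≤ p ^ 6 := by
  obtain ⟨φ, hφ, hh⟩ := xbiga_iso hB
  have hm : ∀ u, φ u ∈ h := fun u => (hh _).2 ⟨u, rfl⟩
  let γ : (Mat 3 (ZMod p) × ZMod p) →+ (Mat 3 (ZMod p) × ZMod p) →+ ZMod p :=
    AddMonoidHom.mk' (fun u => AddMonoidHom.mk' (fun v => β (φ u) (φ v)) (fun v w => by simp))
      (fun u v => AddMonoidHom.ext fun w => by simp)
  have hγ : ∀ u v, γ u v = β (φ u) (φ v) := fun _ _ => rfl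
  obtain ⟨μ, hμ⟩ := ss1_inner (xbiga_sep (ss1_matrix 3 _ (ss1_field (ZMod p))) (ss1_field (ZMod p)))
    γ (fun x y z => by
      simp only [hγ, map_mul]
      exact h2 _ (hm _) _ (hm _) _ (hm _))
  obtain ⟨b, hb⟩ := xbiga_tr
    ((μ.comp (AddMonoidHom.inl (Mat 3 (ZMod p)) (ZMod p))).toZModLinearMap p)
  have hβ : ∀ u v, β (φ u) (φ v) = trace ((b * u.1 - u.1 * b) * v.1) := by
    intro u v
    have e : u * v - v * u = (u.1 * v.1 - v.1 * u.1, 0) := by
      ext <;> simp [mul_comm]
    have e2 := hb (u.1 * v.1 - v.1 * u.1)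
    have e3 : trace (b * (v.1 * u.1)) = trace (u.1 * b * v.1) := by
      rw [← mul_assoc, trace_mul_comm, mul_assoc]
    rw [← hγ, hμ, e, sub_mul, trace_sub, ← e3, mul_assoc, ← trace_sub, ← mul_sub]
    exact e2
  by_cases hs : IsScal b
  · left
    obtain ⟨a, rfl⟩ := hs
    ext x
    rw [h3]
    refine ⟨fun hx => hx.1, fun hx => ⟨hx, fun y hy => ?_⟩⟩
    obtain ⟨u, rfl⟩ := (hh x).1 hx
    obtain ⟨v, rfl⟩ := (hh y).1 hy
    rw [hβ]
    simp
  · right
    have h4 := rank_ad_two b hs
    have h5 := xbiga_le (X := Subalgebra.centralizer (ZMod p) {b} × ZMod p)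
      (h' : Set (Mat 4 (ZMod p))) (fun t => φ (t.1.1, t.2)) (by
        intro x hx
        obtain ⟨hx1, hx2⟩ := (h3 x).1 hx
        obtain ⟨u, rfl⟩ := (hh x).1 hx1
        refine ⟨(⟨u.1, ?_⟩, u.2), rfl⟩
        rw [Subalgebra.mem_centralizer_iff]
        rintro g rfl
        rw [← sub_eq_zero]
        ext i j
        have := hx2 _ (hm (single j i 1, 0))
        rw [hβ, trace_mul_single] at this
        simpa using this)
    have h6 : Nat.card (Subalgebra.centralizer (ZMod p) {b}) =
        p ^ Module.finrank (ZMod p) (Subalgebra.centralizer (ZMod p) {b}) := by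
      rw [Module.natCard_eq_pow_finrank (K := ZMod p), Nat.card_zmod]
    rw [Nat.card_prod, h6, Nat.card_zmod, ← pow_succ] at h5
    exact h5.trans (Nat.pow_le_pow_right (by omega) (by omega))

end Pool.Agent.MP_8299d6_al.Up

end
end
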