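import Pool.Agent.Mg.X8299d6.Gfa7afb
import Pool.Agent.Mg.X8299d6.Gee24a7
import Pool.Agent.Mg.X8299d6.G6efaac

section

open Matrix

noncomputable section

namespace Pool.Agent.MP_8299d6_al.Up

open Pool.Agent.MP_810665_al (IrrChar)

/-- the double annihilator for the form `τ (B [x, y])` -/
theorem dbl_perp {M : Type} [Ring M] [Fintype M] {τ : AddChar M ℂ} (hτ : Frob τ)
    (S : AddSubgroup M) (B x : M)
    (h : ∀ y, B * y - y * B ∈ perp τ S → τ ((B * x - x * B) * y) = 1) :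
    ∃ s ∈ S, x - s ∈ cent B := by
  let ad : M →+ M := AddMonoidHom.mk' (fun y => B * y - y * B) fun a b => by noncomm_ring
  have h1 : B * x - x * B ∈ perp τ (perp τ (S.map ad)) := by
    intro y hy
    refine h y fun s hs => ?_
    have h2 : τ (y * (B * (-s) - (-s) * B)) = 1 := hy _ ⟨-s, neg_mem hs, rfl⟩
    have e1 : y * (B * (-s) - (-s) * B) = (y * s) * B + -(y * B * s) := by noncomm_ring
    have e2 : (B * y - y * B) * s = B * (y * s) + -(y * B * s) := by noncomm_ring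
    rw [e1, AddChar.map_add_eq_mul, hτ.comm] at h2
    rw [e2, AddChar.map_add_eq_mul, h2]
  rw [hτ.perp_perp] at h1
  obtain ⟨s, hs, e⟩ := h1
  refine ⟨s, hs, lv1_cent.2 ?_⟩
  have e' : B * s - s * B = B * x - x * B := e
  have e3 : B * (x - s) - (x - s) * B = (B * x - x * B) - (B * s - s * B) := by noncomm_ring
  rw [e3, e', sub_self]

section Aux

variable {n p : ℕ} [Fact p.Prime]

omit [Fact p.Prime] in
theorem xcoc_red (m : ℕ) (X : Mat n (ZMod (p ^ (m + 1 + 1)))) :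
    redP n p m (redM n p (m + 1) X) = redP n p (m + 1) X := by
  ext i j
  exact DFunLike.congr_fun (ZMod.castHom_comp (dvd_pow_self p (Nat.succ_ne_zero m))
    (pow_dvd_pow p (Nat.le_succ (m + 1)))) (X i j)

theorem xcoc_mem (m : ℕ) (B : Mat n (ZMod (p ^ (m + 1 + 1)))) (x : Mat n (ZMod p)) :
    x ∈ sh n p m (redM n p (m + 1) B) ↔
      ∃ X, redM n p (m + 1) (B * X - X * B) = 0 ∧ redP n p (m + 1) X = x := by
  constructor
  · rintro ⟨φ, hφ, rfl⟩
    obtain ⟨X, rfl⟩ := redM_surj n p (m + 1) φ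
    refine ⟨X, ?_, (xcoc_red m X).symm⟩
    rw [map_sub, map_mul, map_mul]
    exact lv1_cent.1 hφ
  · rintro ⟨X, hX, rfl⟩
    refine ⟨redM n p (m + 1) X, lv1_cent.2 ?_, xcoc_red m X⟩
    rwa [map_sub, map_mul, map_mul] at hX

omit [Fact p.Prime] in
theorem xcoc_mul {m : ℕ} {B X Y : Mat n (ZMod (p ^ (m + 1)))}
    (hX : redM n p m (B * X - X * B) = 0) (hY : redM n p m (B * Y - Y * B) = 0) :
    redM n p m (B * (X * Y) - X * Y * B) = 0 := by
  have e : B * (X * Y) - X * Y * B = (B * X - X * B) * Y + X * (B * Y - Y * B) := by noncomm_ring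
  rw [e, map_add, map_mul, map_mul _ X, hX, hY, zero_mul, mul_zero, add_zero]

theorem xcoc_trace {m : ℕ} {ι : Mat n (ZMod p) →+ Mat n (ZMod (p ^ (m + 1)))}
    (hι : ∀ X, ι (redP n p m X) = (p : ZMod (p ^ (m + 1))) ^ m • X) {C : Mat n (ZMod p)}
    (h : C.trace = 0) : (ι C).trace = 0 := by
  obtain ⟨Y, rfl⟩ := redP_surj n p m C
  rw [hι, trace_smul, smul_eq_mul, lv2_scal, AddMonoidHom.map_trace]
  exact h

theorem xcoc_g {m : ℕ} {ι : Mat n (ZMod p) →+ Mat n (ZMod (p ^ (m + 1 + 1)))}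
    (hι : ∀ X, ι (redP n p (m + 1) X) = (p : ZMod (p ^ (m + 1 + 1))) ^ (m + 1) • X)
    (B : Mat n (ZMod (p ^ (m + 1 + 1)))) :
    ∃ g : Mat n (ZMod p) →ₗ[ZMod p] Mat n (ZMod p), ∀ X Y,
      redM n p (m + 1) (B * X - X * B) = 0 → redM n p (m + 1) (B * Y - Y * B) = 0 →
      (ι (g (redP n p (m + 1) X) * redP n p (m + 1) Y)).trace = ((B * X - X * B) * Y).trace := by
  obtain ⟨H, W, Θ, h1, -, h3⟩ := lv2_fam hι B
  obtain ⟨s, hs⟩ := W.mkQ.exists_rightInverse_of_surjective W.range_mkQ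
  obtain ⟨g, hg⟩ := (s ∘ₗ Θ).exists_extend
  refine ⟨g, fun X Y hX hY => ?_⟩
  have hv := h1 X hX
  obtain ⟨ψ, h4, h5⟩ := h3 ⟨_, hv⟩ (g (redP n p (m + 1) X)) (by
    have e1 : g (redP n p (m + 1) X) = s (Θ ⟨_, hv⟩) := LinearMap.congr_fun hg ⟨_, hv⟩
    rw [e1]
    exact (LinearMap.congr_fun hs _).symm)
  obtain ⟨t, ht⟩ := (lv2_range hι _).1 hY
  have h6 : redP n p (m + 1) (ψ - X) = 0 := by rw [map_sub, h4, sub_self]
  have h7 : (ψ - X) * (B * Y - Y * B) = 0 := by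
    rw [← ht, (lv2_mul hι t _).2, h6, zero_mul, map_zero]
  rw [← (lv2_mul hι _ Y).1, h5, ← sub_eq_zero, ← trace_sub]
  have e : (B * ψ - ψ * B) * Y - (B * X - X * B) * Y =
      B * ((ψ - X) * Y) - ((ψ - X) * Y) * B - (ψ - X) * (B * Y - Y * B) := by noncomm_ring
  rw [e, h7, sub_zero, trace_sub, trace_mul_comm, sub_self]

omit [Fact p.Prime] in
theorem xcoc_smul {m : ℕ} (c : ZMod (p ^ (m + 1))) (X : Mat n (ZMod (p ^ (m + 1)))) :
    redM n p m (c • X) =
      ZMod.castHom (pow_dvd_pow p (Nat.le_succ m)) (ZMod (p ^ m)) c • redM n p m X := by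
  ext i j
  exact map_mul (ZMod.castHom (pow_dvd_pow p (Nat.le_succ m)) (ZMod (p ^ m))) c (X i j)

theorem xcoc_base (m : ℕ) (a : ZMod (p ^ (m + 1))) (B : Mat n (ZMod (p ^ (m + 1)))) :
    Shad (redP n p m B) (toAlg (sh n p m (a • 1 + (p : ZMod (p ^ (m + 1))) ^ m • B))) := by
  rw [← lv1up_red, lv1_sh]
  have e : toAlg (cent (redP n p m B)) = Subalgebra.centralizer (ZMod p) {redP n p m B} := by
    ext x
    exact Iff.rfl
  rw [e]
  exact Shad.base

theorem xcoc_dat (m : ℕ) (A : Mat n (ZMod (p ^ (m + 1)))) (hA : ¬ IsScal A) :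
    ∃ (j : ℕ) (a : ZMod (p ^ (m + 1))) (B : Mat n (ZMod (p ^ (m + 1)))), j ≤ m ∧
      A = a • 1 + (p : ZMod (p ^ (m + 1))) ^ j • B ∧ ¬ IsScal (redP n p m B) := by
  have key : ∀ d j, j + d = m + 1 → ∀ (a : ZMod (p ^ (m + 1))) (B : Mat n (ZMod (p ^ (m + 1)))),
      A = a • 1 + (p : ZMod (p ^ (m + 1))) ^ j • B →
      ∃ (j : ℕ) (a : ZMod (p ^ (m + 1))) (B : Mat n (ZMod (p ^ (m + 1)))), j ≤ m ∧
        A = a • 1 + (p : ZMod (p ^ (m + 1))) ^ j • B ∧ ¬ IsScal (redP n p m B) := by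
    intro d
    induction d with
    | zero =>
      intro j hj a B h
      rw [add_zero] at hj
      rw [hj, lv1_pow, zero_smul, add_zero] at h
      exact absurd ⟨a, h⟩ hA
    | succ d ih =>
      intro j hj a B h
      by_cases hB : IsScal (redP n p m B)
      · obtain ⟨c, hc⟩ := hB
        obtain ⟨b, hb⟩ := lv1_redP_smul (n := n) (m := m) c
        rw [← hb, ← sub_eq_zero, ← map_sub, redP_eq_zero, lv1_pI] at hc
        obtain ⟨y, hy⟩ := hc
        refine ih (j + 1) (by omega) (a + (p : ZMod (p ^ (m + 1))) ^ j * b) y ?_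
        rw [h, pow_succ (p : ZMod (p ^ (m + 1))) j, mul_smul, ← hy, add_smul, mul_smul, smul_sub]
        abel
      · exact ⟨j, a, B, by omega, h, hB⟩
  exact key (m + 1) 0 (zero_add _) 0 A (by simp)

end Aux

/-- the shadow of a lift is the radical of a cocycle -/
theorem coc {n p : ℕ} [Fact p.Prime] (m : ℕ) (B : Mat n (ZMod (p ^ (m + 1 + 1)))) :
    ∃ β : Mat n (ZMod p) →ₗ[ZMod p] Mat n (ZMod p) →ₗ[ZMod p] ZMod p,
      (∀ x ∈ sh n p m (redM n p (m + 1) B), β x x = 0) ∧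
      (∀ x ∈ sh n p m (redM n p (m + 1) B), ∀ y ∈ sh n p m (redM n p (m + 1) B),
        ∀ w ∈ sh n p m (redM n p (m + 1) B), β (x * y) w = β x (y * w) + β y (w * x)) ∧
      ∀ x, x ∈ sh n p (m + 1) B ↔
        x ∈ sh n p m (redM n p (m + 1) B) ∧ ∀ y ∈ sh n p m (redM n p (m + 1) B), β x y = 0 := by
  obtain ⟨ι, hι⟩ := lv2_iota n p (m + 1)
  obtain ⟨g, hg⟩ := xcoc_g hι B
  let β : Mat n (ZMod p) →ₗ[ZMod p] Mat n (ZMod p) →ₗ[ZMod p] ZMod p :=
    ((LinearMap.mul (ZMod p) (Mat n (ZMod p))) ∘ₗ g).compr₂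
      (traceLinearMap (Fin n) (ZMod p) (ZMod p))
  have hβ : ∀ x y, β x y = (g x * y).trace := fun _ _ => rfl
  refine ⟨β, fun x hx => ?_, fun x hx y hy w hw => ?_, fun x => ⟨fun hx => ⟨sh_le m B hx,
    fun y hy => ?_⟩, fun ⟨hx, h⟩ => ?_⟩⟩
  · obtain ⟨X, hX, rfl⟩ := (xcoc_mem m B x).1 hx
    rw [hβ]
    refine lv2_trace hι ?_
    rw [hg X X hX hX, sub_mul, trace_sub, mul_assoc X B X, trace_mul_comm X, sub_self]
  · obtain ⟨X, hX, rfl⟩ := (xcoc_mem m B x).1 hx
    obtain ⟨Y, hY, rfl⟩ := (xcoc_mem m B y).1 hy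
    obtain ⟨W, hW, rfl⟩ := (xcoc_mem m B w).1 hw
    rw [hβ, hβ, hβ, ← trace_add, ← sub_eq_zero, ← trace_sub]
    refine lv2_trace hι ?_
    rw [map_sub, map_add, trace_sub, trace_add, ← map_mul, ← map_mul, ← map_mul,
      hg _ _ (xcoc_mul hX hY) hW, hg _ _ hX (xcoc_mul hY hW), hg _ _ hY (xcoc_mul hW hX),
      ← trace_add, ← trace_sub]
    have e : (B * (X * Y) - X * Y * B) * W - ((B * X - X * B) * (Y * W) +
        (B * Y - Y * B) * (W * X)) =
        X * (B * Y * W - Y * B * W) - (B * Y * W - Y * B * W) * X := by noncomm_ring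
    rw [e, trace_sub, trace_mul_comm, sub_self]
  · obtain ⟨X, hX, rfl⟩ := hx
    obtain ⟨Y, hY, rfl⟩ := (xcoc_mem m B y).1 hy
    have hX' : B * X - X * B = 0 := lv1_cent.1 hX
    rw [hβ]
    refine lv2_trace hι ?_
    rw [hg X Y (by rw [hX', map_zero]) hY, hX', zero_mul, trace_zero]
  · obtain ⟨X, hX, rfl⟩ := (xcoc_mem m B x).1 hx
    obtain ⟨s, hs, hs'⟩ := dbl_perp (frob_tau n (p ^ (m + 1 + 1)))
      (pI n _ (p : ZMod (p ^ (m + 1 + 1)))).toAddSubgroup B X (fun Y hY => by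
        rw [perp_pI] at hY
        have hY' := (redM_eq_zero _).2 hY
        have h1 := h _ ((xcoc_mem m B _).2 ⟨Y, hY', rfl⟩)
        rw [hβ] at h1
        rw [lv1_tau, ← hg X Y hX hY', xcoc_trace hι h1, AddChar.map_zero_eq_one])
    exact ⟨X - s, hs', by rw [map_sub, (redP_eq_zero s).2 hs, sub_zero]⟩

theorem xcoc_ind {n p : ℕ} [Fact p.Prime] (m : ℕ) : ∀ (j : ℕ) (a : ZMod (p ^ (m + 1)))
    (B : Mat n (ZMod (p ^ (m + 1)))), j ≤ m →
    Shad (redP n p m B) (toAlg (sh n p m (a • 1 + (p : ZMod (p ^ (m + 1))) ^ j • B))) := by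
  induction m with
  | zero =>
    intro j a B hj
    obtain rfl : j = 0 := by omega
    exact xcoc_base 0 a B
  | succ m ih =>
    intro j a B hj
    rcases hj.eq_or_lt with rfl | hj
    · exact xcoc_base _ a B
    · have h1 := ih j
        (ZMod.castHom (pow_dvd_pow p (Nat.le_succ (m + 1))) (ZMod (p ^ (m + 1))) a)
        (redM n p (m + 1) B) (by omega)
      have e : redM n p (m + 1) (a • 1 + (p : ZMod (p ^ (m + 1 + 1))) ^ j • B) =
          ZMod.castHom (pow_dvd_pow p (Nat.le_succ (m + 1))) (ZMod (p ^ (m + 1))) a • 1 +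
            (p : ZMod (p ^ (m + 1))) ^ j • redM n p (m + 1) B := by
        rw [map_add, xcoc_smul, xcoc_smul, map_one, map_pow, map_natCast]
      rw [← e, xcoc_red] at h1
      obtain ⟨β, b1, b2, b3⟩ := coc m (a • 1 + (p : ZMod (p ^ (m + 1 + 1))) ^ j • B)
      refine Shad.step _ _ β h1 b1 b2 b3 ⟨B, lv1_cent.2 ?_, rfl⟩
      rw [lv1_comm, sub_self, smul_zero]

/-- shadows of nonscalar matrices -/
theorem sh_shad {n p : ℕ} [Fact p.Prime] (m : ℕ) (A : Mat n (ZMod (p ^ (m + 1))))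
    (hA : ¬ IsScal A) : ∃ z : Mat n (ZMod p), ¬ IsScal z ∧ Shad z (toAlg (sh n p m A)) := by
  obtain ⟨j, a, B, hj, rfl, hB⟩ := xcoc_dat m A hA
  exact ⟨_, hB, xcoc_ind m j a B hj⟩

end Pool.Agent.MP_8299d6_al.Up

end
end

section

open Matrix
open Classical Finset

noncomputable section

namespace Pool.Agent.MP_8299d6_al.Up

open Pool.Agent.MP_810665_al (IrrChar)

def xcombpar (p r : ℕ → ℕ → Bool) : ℕ :=
  ai3cnt2 p + ai3cnt (fun i => ai3all fun j => !Nat.blt j i || !r i j)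

def xcombgood (p r : ℕ → ℕ → Bool) : Bool :=
  Nat.beq (ai3cnt2 p) 5 && (ai3all fun i => ai3all fun k => r i k) &&
    ai3ex fun f => ai3ex fun l => (ai3all fun j => Nat.beq j f || p f j) &&
      ai3all fun j => Nat.beq j l || p j l

def xcombfin (p r : ℕ → ℕ → Bool) : Bool :=
  Nat.ble (ai3val p r) 15 || Nat.beq (xcombpar p r % 2) 1 || !ai3cyc p r || xcombgood p r ||
    (!ai3u p r && ai3B fun a => ai3B fun b => ai3B fun c => ai3B fun d =>
      !ai3t p r (ai3sel a b c d))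

def xcombmid (p : ℕ → ℕ → Bool) : Bool :=
  !ai3tr p || ai3B fun a => ai3B fun b => ai3B fun c => ai3B fun d => ai3B fun e => ai3B fun f =>
    !ai3eq (ai3r a b c d e f) || xcombfin p (ai3r a b c d e f)

theorem xcombcheck : (ai3B fun a => ai3B fun b => ai3B fun c => ai3B fun d => ai3B fun e =>
    ai3B fun f => ai3B fun g => ai3B fun h => ai3B fun i => ai3B fun j => ai3B fun k =>
    ai3B fun l => xcombmid (ai3p a b c d e f g h i j k l)) = true := by
  decide +kernel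

/-- the extremal patterns of even size -/
theorem comb_ext (P r : Fin 4 → Fin 4 → Prop) (irr : ∀ i, ¬ P i i)
    (tr : ∀ i j k, P i j → P j k → i ≠ k → P i k) (hr : Equivalence r)
    (cyc : ∀ i j k, P i j → P j i → r i k → k = i)
    (hc : (∃ t : Fin 4 → Prop, (∃ i j, t i ∧ ¬ t j) ∧ (∀ i j, r i j → t i → t j) ∧
        ∀ i j, P i j → (t i ↔ t j)) ∨
      ∃ i j, P i j ∧ r i j ∧ (∀ k, ¬ P j k) ∧ ∀ k, ¬ P k i)
    (h16 : 16 ≤ 2 * (univ.filter (fun i => ∀ j < i, ¬ (r i j ∨ (P i j ∧ P j i)))).card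
      + 2 * (univ.filter (fun x : Fin 4 × Fin 4 => P x.1 x.2 ∧ r x.1 x.2 ∧
          ¬ ∃ j, P x.1 j ∧ P j x.2)).card
      + (univ.filter (fun i => ∀ j < i, ¬ r i j)).card
      + (univ.filter (fun x : Fin 4 × Fin 4 => P x.1 x.2)).card)
    (he : Even ((univ.filter (fun x : Fin 4 × Fin 4 => P x.1 x.2)).card
      + (univ.filter (fun i => ∀ j < i, ¬ r i j)).card)) :
    (univ.filter (fun x : Fin 4 × Fin 4 => P x.1 x.2)).card = 5 ∧ (∀ i k, r i k) ∧
      ∃ f l : Fin 4, (∀ j, j ≠ f → P f j) ∧ ∀ j, j ≠ l → P j l := by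
  have hp : ∃ p : ℕ → ℕ → Bool, xcombmid p = true ∧ ∀ i j : Fin 4, p i j = true ↔ P i j := by
    refine ⟨ai3p (decide (P 0 1)) (decide (P 0 2)) (decide (P 0 3)) (decide (P 1 0))
      (decide (P 1 2)) (decide (P 1 3)) (decide (P 2 0)) (decide (P 2 1)) (decide (P 2 3))
      (decide (P 3 0)) (decide (P 3 1)) (decide (P 3 2)), ?_, fun i j => ?_⟩
    · have h := xcombcheck
      simp only [ai3B_iff] at h
      exact h _ _ _ _ _ _ _ _ _ _ _ _
    · fin_cases i <;> fin_cases j <;> simp [ai3p, ai3sel, irr]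
  obtain ⟨p, hm, hp⟩ := hp
  have htr : ai3tr p = true := by
    simp only [ai3tr, ai3all_iff, Bool.or_eq_true, Bool.not_eq_true', ← Bool.not_eq_true, hp, ai3beq]
    intro i j
    by_cases h1 : P i j
    · refine Or.inr fun k => ?_
      by_cases h2 : P j k
      · by_cases h3 : i = k
        · exact Or.inl (Or.inr h3)
        · exact Or.inr (tr i j k h1 h2 h3)
      · exact Or.inl (Or.inl h2)
    · exact Or.inl h1
  have hq : ∃ q : ℕ → ℕ → Bool, (!ai3eq q || xcombfin p q) = true ∧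
      ∀ i j : Fin 4, q i j = true ↔ r i j := by
    refine ⟨ai3r (decide (r 0 1)) (decide (r 0 2)) (decide (r 0 3)) (decide (r 1 2))
      (decide (r 1 3)) (decide (r 2 3)), ?_, fun i j => ?_⟩
    · simp only [xcombmid, htr, Bool.not_true, Bool.false_or, ai3B_iff] at hm
      exact hm _ _ _ _ _ _
    · have hs : ∀ i j, r i j ↔ r j i := fun i j => ⟨hr.symm, hr.symm⟩
      fin_cases i <;> fin_cases j <;> simp [ai3r, ai3sel, hr.refl] <;> exact hs _ _
  obtain ⟨q, hf, hq⟩ := hq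
  have heq : ai3eq q = true := by
    simp only [ai3eq, ai3all_iff, Bool.or_eq_true, Bool.not_eq_true', ← Bool.not_eq_true, hq]
    intro i j
    by_cases h1 : r i j
    · refine Or.inr fun k => ?_
      by_cases h2 : r j k
      · exact Or.inr (hr.trans h1 h2)
      · exact Or.inl h2
    · exact Or.inl h1
  have hcyc : ai3cyc p q = true := by
    simp only [ai3cyc, ai3all_iff, Bool.or_eq_true, Bool.not_eq_true', ← Bool.not_eq_true, hp, hq,
      ai3beq]
    intro i j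
    by_cases h1 : P i j
    · by_cases h2 : P j i
      · refine Or.inr fun k => ?_
        by_cases h3 : r i k
        · exact Or.inr (cyc i j k h1 h2 h3)
        · exact Or.inl h3
      · exact Or.inl (Or.inr h2)
    · exact Or.inl (Or.inl h1)
  have e1 : ai3cnt (fun i => ai3all fun j => !Nat.blt j i || !(q i j || (p i j && p j i))) =
      (univ.filter (fun i => ∀ j < i, ¬ (r i j ∨ (P i j ∧ P j i)))).card := by
    rw [ai3cnt_eq _ (fun i => ∀ j < i, ¬ (r i j ∨ (P i j ∧ P j i)))]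
    · congr
    · intro i
      simp only [ai3all_iff, Bool.or_eq_true, Bool.and_eq_true, Bool.not_eq_true',
        ← Bool.not_eq_true, hp, hq, ai3blt, imp_iff_not_or]
  have e2 : ai3cnt2 (fun i k => p i k && q i k && !ai3ex fun j => p i j && p j k) =
      (univ.filter (fun x : Fin 4 × Fin 4 => P x.1 x.2 ∧ r x.1 x.2 ∧
          ¬ ∃ j, P x.1 j ∧ P j x.2)).card := by
    rw [ai3cnt2_eq _ (fun x : Fin 4 × Fin 4 => P x.1 x.2 ∧ r x.1 x.2 ∧ ¬ ∃ j, P x.1 j ∧ P j x.2)]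
    · congr
    · intro i j
      simp only [Bool.and_eq_true, Bool.not_eq_true', ← Bool.not_eq_true, ai3ex_iff, hp, hq,
        and_assoc]
  have e3 : ai3cnt (fun i => ai3all fun j => !Nat.blt j i || !q i j) =
      (univ.filter (fun i => ∀ j < i, ¬ r i j)).card := by
    rw [ai3cnt_eq _ (fun i => ∀ j < i, ¬ r i j)]
    · congr
    · intro i
      simp only [ai3all_iff, Bool.or_eq_true, Bool.not_eq_true', ← Bool.not_eq_true, hq, ai3blt,
        imp_iff_not_or]
  have e4 : ai3cnt2 p = (univ.filter (fun x : Fin 4 × Fin 4 => P x.1 x.2)).card := by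
    rw [ai3cnt2_eq _ (fun x : Fin 4 × Fin 4 => P x.1 x.2) hp]
  have hval : ¬ ai3val p q ≤ 15 := by
    unfold ai3val
    rw [e1, e2, e3, e4]
    omega
  have hpar : ¬ xcombpar p q % 2 = 1 := by
    unfold xcombpar
    rw [e3, e4]
    have := Nat.even_iff.1 he
    omega
  have hgood : xcombgood p q = true := by
    simp only [heq, Bool.not_true, Bool.false_or, xcombfin, hcyc, Bool.or_false, Bool.or_eq_true,
      Nat.ble_eq, Nat.beq_eq, hval, hpar, false_or, Bool.and_eq_true, ai3B_iff] at hf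
    refine hf.resolve_right fun ⟨hu, ht⟩ => ?_
    rcases hc with ⟨t, ⟨i, j, hi, hj⟩, h1, h2⟩ | ⟨i, j, h1, h2, h3, h4⟩
    · have e : ∀ i : Fin 4, ai3sel (decide (t 0)) (decide (t 1)) (decide (t 2)) (decide (t 3)) i =
          decide (t i) := fun i => by fin_cases i <;> rfl
      have h := ht (decide (t 0)) (decide (t 1)) (decide (t 2)) (decide (t 3))
      rw [Bool.not_eq_true', ← Bool.not_eq_true] at h
      apply h
      simp only [ai3t, Bool.and_eq_true, ai3ex_iff, ai3all_iff, Bool.or_eq_true, Bool.not_eq_true',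
        ← Bool.not_eq_true, hp, hq, e, decide_eq_true_eq, beq_iff_eq, decide_eq_decide]
      refine ⟨⟨⟨⟨i, hi⟩, ⟨j, hj⟩⟩, fun a b => ?_⟩, fun a b => ?_⟩
      · have := h1 a b
        tauto
      · have := h2 a b
        tauto
    · rw [Bool.not_eq_true', ← Bool.not_eq_true] at hu
      apply hu
      simp only [ai3u, Bool.and_eq_true, ai3ex_iff, ai3all_iff, Bool.not_eq_true',
        ← Bool.not_eq_true, hp, hq]
      exact ⟨i, j, ⟨⟨h1, h2⟩, h3⟩, h4⟩
  simp only [xcombgood, Bool.and_eq_true, ai3ex_iff, ai3all_iff, Bool.or_eq_true, ai3beq, hp,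
    hq] at hgood
  obtain ⟨⟨g1, g2⟩, f, l, g3, g4⟩ := hgood
  rw [Nat.beq_eq, e4] at g1
  exact ⟨g1, g2, f, l, fun j hj => (g3 j).resolve_left hj, fun j hj => (g4 j).resolve_left hj⟩

end Pool.Agent.MP_8299d6_al.Up

end
end

section

open Matrix

noncomputable section

namespace Pool.Agent.MP_8299d6_al.Up

open Pool.Agent.MP_810665_al (IrrChar)

section Aux

open Classical Finset

lemma xpat_count {n : ℕ} {F : Type} [Field F] (h : Subalgebra F (Mat n F)) :
    3 * Module.finrank F h + 3 * (univ.filter (fun i => ∀ j < i, ¬ ai1r h.toSubmodule i j)).card ≤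
      (2 * (univ.filter (fun i => ∀ j < i, ¬ (ai1r h.toSubmodule i j ∨
          (ai1P h.toSubmodule i j ∧ ai1P h.toSubmodule j i)))).card
        + 2 * (univ.filter (fun x : Fin n × Fin n => ai1P h.toSubmodule x.1 x.2 ∧
          ai1r h.toSubmodule x.1 x.2 ∧
            ¬ ∃ j, ai1P h.toSubmodule x.1 j ∧ ai1P h.toSubmodule j x.2)).card
        + (univ.filter (fun i => ∀ j < i, ¬ ai1r h.toSubmodule i j)).card
        + (univ.filter (fun x : Fin n × Fin n => ai1P h.toSubmodule x.1 x.2)).card)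
      + 2 * Module.finrank F (commA h) + 3 * Module.finrank F (ai1gr h.toSubmodule 0) := by
  have h1 := ai1dim h.toSubmodule
  have h2 := ai1dim (commA h)
  have h4 := ai1T_ge h
  have h5 : (univ.filter (fun x : Fin n × Fin n => ai1P h.toSubmodule x.1 x.2)).card ≤
      (univ.filter (fun x : Fin n × Fin n => ai1P (commA h) x.1 x.2)).card
      + (univ.filter (fun x : Fin n × Fin n => ai1P h.toSubmodule x.1 x.2 ∧
          ai1r h.toSubmodule x.1 x.2 ∧
            ¬ ∃ j, ai1P h.toSubmodule x.1 j ∧ ai1P h.toSubmodule j x.2)).card := by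
    refine le_trans (Finset.card_le_card ?_) (Finset.card_union_le _ _)
    intro x hx
    have hP := (Finset.mem_filter.1 hx).2
    rw [Finset.mem_union, Finset.mem_filter, Finset.mem_filter]
    rcases ai1PC h x.1 x.2 hP with h6 | h6
    · exact Or.inl ⟨Finset.mem_univ _, h6⟩
    · exact Or.inr ⟨Finset.mem_univ _, hP, h6⟩
  have h6 : (univ.filter (fun i => ∀ j < i, ¬ ai1r h.toSubmodule i j)).card ≤
      (univ.filter (fun i => ∀ j < i, ¬ (ai1r h.toSubmodule i j ∨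
          (ai1P h.toSubmodule i j ∧ ai1P h.toSubmodule j i)))).card
      + (univ.filter (fun i => ∃ j < i, ai1P h.toSubmodule i j ∧ ai1P h.toSubmodule j i)).card := by
    refine le_trans (Finset.card_le_card ?_) (Finset.card_union_le _ _)
    intro i hi
    have hR := (Finset.mem_filter.1 hi).2
    rw [Finset.mem_union, Finset.mem_filter, Finset.mem_filter]
    by_cases h7 : ∃ j < i, ai1P h.toSubmodule i j ∧ ai1P h.toSubmodule j i
    · exact Or.inr ⟨Finset.mem_univ _, h7⟩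
    · refine Or.inl ⟨Finset.mem_univ _, fun j hj h8 => ?_⟩
      rcases h8 with h8 | h8
      · exact hR j hj h8
      · exact h7 ⟨j, hj, h8⟩
  have h7 : Module.finrank F h = Module.finrank F h.toSubmodule := rfl
  omega

lemma xpat_one (r : Fin 4 → Fin 4 → Prop) (hr : ∀ i k, r i k) :
    (univ.filter (fun i => ∀ j < i, ¬ r i j)).card = 1 := by
  rw [Finset.card_eq_one]
  refine ⟨0, ?_⟩
  ext i
  simp only [Finset.mem_filter, Finset.mem_univ, true_and, Finset.mem_singleton]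
  constructor
  · intro h
    by_contra hi
    exact h 0 (Fin.pos_iff_ne_zero.2 hi) (hr _ _)
  · rintro rfl j hj
    exact absurd hj (Fin.not_lt_zero _)

end Aux

/-- the case of equality in the algebra inequality -/
theorem pat {F : Type} [Field F] (h : Subalgebra F (Mat 4 F)) (z : Mat 4 F) (hz : z ∈ h)
    (hns : ¬ IsScal z) (hc : ∀ x ∈ h, z * x = x * z) (he : Even (Module.finrank F h))
    (hq : 16 + 2 * Module.finrank F (commA h) ≤ 3 * Module.finrank F h) :
    Module.finrank F h = 6 ∧ Module.finrank F (commA h) = 1 ∧ (∀ i k, ai1r h.toSubmodule i k) ∧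
      ∃ f l : Fin 4, (∀ j, j ≠ f → ai1P h.toSubmodule f j) ∧
        ∀ j, j ≠ l → ai1P h.toSubmodule j l := by
  have h1 := xpat_count h
  have h2 := ai1alt (by omega) h z hz hns hc
  have h3 := ai1T_le h.toSubmodule
  have h4 := comb_four _ _ (fun i hi => hi.1 rfl) (ai1tr h) (ai1r_equiv _) (ai1cyc h) h2
  have h5 := ai1dim h.toSubmodule
  have h7 : Module.finrank F h = Module.finrank F h.toSubmodule := rfl
  obtain ⟨h8, h9, h10⟩ := comb_ext _ _ (fun i hi => hi.1 rfl) (ai1tr h) (ai1r_equiv _) (ai1cyc h) h2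
    (by omega) (by
      obtain ⟨m, hm⟩ := he
      exact ⟨m, by omega⟩)
  have h11 := xpat_one _ h9
  exact ⟨by omega, by omega, h9, h10⟩

end Pool.Agent.MP_8299d6_al.Up

end
end

section

open Matrix

noncomputable section

namespace Pool.Agent.MP_8299d6_al.Up

open Pool.Agent.MP_810665_al (IrrChar)

variable {F : Type} [Field F]

lemma xheis2_ex {n : ℕ} {S : Submodule F (Mat n F)} {i j : Fin n} (h : ai1P S i j) :
    ∃ x ∈ S, x i j = 1 ∧ ∀ k l, ai1wt i j < ai1wt k l → x k l = 0 := by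
  obtain ⟨x, hx, hle, ht⟩ := ai1mem_gr.1 h.2
  refine ⟨x, hx, ?_, hle⟩
  have := congrFun (congrFun ht i) j
  rwa [ai1top_apply, if_pos rfl, Matrix.single_apply_same] at this

/-- a matrix with entries of negative weight only -/
lemma xheis2_up {x : Mat 4 F} {w : ℤ} (hw : w < 0) (hx : ∀ k l, w < ai1wt k l → x k l = 0) :
    x = x 0 1 • single 0 1 1 + x 1 2 • single 1 2 1 + x 0 2 • single 0 2 1
      + x 2 3 • single 2 3 1 + x 1 3 • single 1 3 1 + x 0 3 • single 0 3 1 := by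
  have hz : ∀ k l : Fin 4, 0 ≤ ai1wt k l → x k l = 0 := fun k l h => hx k l (hw.trans_le h)
  have h00 := hz 0 0 (by decide)
  have h11 := hz 1 1 (by decide)
  have h22 := hz 2 2 (by decide)
  have h33 := hz 3 3 (by decide)
  have h10 := hz 1 0 (by decide)
  have h20 := hz 2 0 (by decide)
  have h21 := hz 2 1 (by decide)
  have h30 := hz 3 0 (by decide)
  have h31 := hz 3 1 (by decide)
  have h32 := hz 3 2 (by decide)
  ext i j
  fin_cases i <;> fin_cases j <;> simp [*]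

theorem heis_diag {n : ℕ} (h : Subalgebra F (Mat n F)) (hr : ∀ i k, ai1r h.toSubmodule i k)
    {e : Mat n F} (he : e ∈ h) (hd : ∀ i j, i ≠ j → e i j = 0) (i k : Fin n) : e i i = e k k := by
  refine hr i k e (ai1mem_gr.2 ⟨e, he, fun a b hab => hd a b ?_, ?_⟩)
  · rintro rfl
    rw [ai1wt_self] at hab
    exact lt_irrefl _ hab
  · ext a b
    rw [ai1top_apply]
    split_ifs with hab
    · rfl
    · refine (hd a b ?_).symm
      rintro rfl
      exact hab (ai1wt_self a)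

theorem heis_two (h : Subalgebra F (Mat 4 F)) (hr : ∀ i k, ai1r h.toSubmodule i k) {f l : Fin 4}
    (hf : ∀ j, j ≠ f → ai1P h.toSubmodule f j) (hl : ∀ j, j ≠ l → ai1P h.toSubmodule j l)
    (hc : ∀ x ∈ h, (single 0 2 1 + single 1 3 1 : Mat 4 F) * x
      = x * (single 0 2 1 + single 1 3 1)) : False := by
  have hs : ∀ x ∈ h, x 2 0 = 0 ∧ x 2 1 = 0 ∧ x 3 0 = 0 ∧ x 3 1 = 0 ∧ x 2 3 = x 0 1 ∧
      x 3 2 = x 1 0 := by
    intro x hx
    have e := hc x hx
    have e1 := congrFun (congrFun e 0) 0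
    have e2 := congrFun (congrFun e 0) 1
    have e3 := congrFun (congrFun e 1) 0
    have e4 := congrFun (congrFun e 1) 1
    have e5 := congrFun (congrFun e 0) 3
    have e6 := congrFun (congrFun e 1) 2
    simp [Matrix.mul_apply, Fin.sum_univ_four] at e1 e2 e3 e4 e5 e6
    exact ⟨e1, e2, e3, e4, e5, e6⟩
  have hf0 : f = 0 := by
    by_contra hne
    obtain ⟨x, hx, h1, h2⟩ := xheis2_ex (hf 0 (Ne.symm hne))
    obtain ⟨a1, -, a3, -, -, a6⟩ := hs x hx
    fin_cases f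
    · exact hne rfl
    · have := h2 3 2 (by decide)
      rw [a6] at this
      exact one_ne_zero (h1.symm.trans this)
    · exact one_ne_zero (h1.symm.trans a1)
    · exact one_ne_zero (h1.symm.trans a3)
  have hl2 : l = 2 := by
    by_contra hne
    obtain ⟨x, hx, h1, h2⟩ := xheis2_ex (hl 2 (Ne.symm hne))
    obtain ⟨a1, a2, -, -, a5, -⟩ := hs x hx
    fin_cases l
    · exact one_ne_zero (h1.symm.trans a1)
    · exact one_ne_zero (h1.symm.trans a2)
    · exact hne rfl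
    · have := h2 0 1 (by decide)
      rw [← a5] at this
      exact one_ne_zero (h1.symm.trans this)
  subst hf0 hl2
  obtain ⟨y, hy, y1, y2⟩ := xheis2_ex (hf 1 (by decide))
  obtain ⟨x, hx, x1, -⟩ := xheis2_ex (hl 3 (by decide))
  obtain ⟨a1, a2, a3, a4, -, a6⟩ := hs x hx
  have a7 : x 1 0 = 1 := a6.symm.trans x1
  have y00 := y2 0 0 (by decide)
  have y11 := y2 1 1 (by decide)
  have y22 := y2 2 2 (by decide)
  have y33 := y2 3 3 (by decide)
  have y10 := y2 1 0 (by decide)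
  have y20 := y2 2 0 (by decide)
  have y21 := y2 2 1 (by decide)
  have y30 := y2 3 0 (by decide)
  have y31 := y2 3 1 (by decide)
  have y32 := y2 3 2 (by decide)
  have hle : y * x ∈ ai1Le 4 F 0 := by
    intro i j hij
    rw [Matrix.mul_apply, Fin.sum_univ_four]
    fin_cases i <;> fin_cases j <;> first | exact absurd hij (by decide) | simp [*]
  have e := hr 0 3 _ (ai1mem_gr.2 ⟨y * x, h.mul_mem hy hx, hle, rfl⟩)
  rw [ai1top_apply, ai1top_apply, if_pos (ai1wt_self _), if_pos (ai1wt_self _),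
    Matrix.mul_apply, Matrix.mul_apply, Fin.sum_univ_four, Fin.sum_univ_four] at e
  simp [*] at e

theorem heis_one (h : Subalgebra F (Mat 4 F)) {f l : Fin 4}
    (hf : ∀ j, j ≠ f → ai1P h.toSubmodule f j) (hl : ∀ j, j ≠ l → ai1P h.toSubmodule j l)
    (h1 : Module.finrank F (commA h) ≤ 1)
    (hc : ∀ x ∈ h, (single 0 3 1 : Mat 4 F) * x = x * single 0 3 1) :
    single 0 1 1 ∈ h ∧ single 0 2 1 ∈ h ∧ single 1 3 1 ∈ h ∧ single 2 3 1 ∈ h := by
  have hs1 : ∀ x ∈ h, ∀ i, i ≠ 0 → x i 0 = 0 := by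
    intro x hx i hi
    have e := congrFun (congrFun (hc x hx) i) 3
    rw [Matrix.mul_single_apply_same, Matrix.single_mul_apply_of_ne _ _ _ _ _ hi, mul_one] at e
    exact e.symm
  have hs2 : ∀ x ∈ h, ∀ j, j ≠ 3 → x 3 j = 0 := by
    intro x hx j hj
    have e := congrFun (congrFun (hc x hx) 0) j
    rwa [Matrix.single_mul_apply_same, Matrix.mul_single_apply_of_ne _ _ _ _ _ hj, one_mul] at e
  have hf0 : f = 0 := by
    by_contra hne
    obtain ⟨x, hx, a1, -⟩ := xheis2_ex (hf 0 (Ne.symm hne))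
    exact one_ne_zero (a1.symm.trans (hs1 x hx f hne))
  have hl3 : l = 3 := by
    by_contra hne
    obtain ⟨x, hx, a1, -⟩ := xheis2_ex (hl 3 (Ne.symm hne))
    exact one_ne_zero (a1.symm.trans (hs2 x hx l hne))
  subst hf0 hl3
  have m03 : single 0 3 1 ∈ h := by
    obtain ⟨x, hx, a1, a2⟩ := xheis2_ex (hf 3 (by decide))
    have e := xheis2_up (by decide) a2
    rw [a1, a2 0 1 (by decide), a2 1 2 (by decide), a2 0 2 (by decide), a2 2 3 (by decide),
      a2 1 3 (by decide)] at e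
    simp only [zero_smul, one_smul, zero_add] at e
    exact e ▸ hx
  have m13 : single 1 3 1 ∈ h := by
    obtain ⟨x, hx, a1, a2⟩ := xheis2_ex (hl 1 (by decide))
    have e := xheis2_up (by decide) a2
    rw [a1, a2 0 1 (by decide), a2 1 2 (by decide), a2 0 2 (by decide), a2 2 3 (by decide)] at e
    simp only [zero_smul, one_smul, zero_add] at e
    rw [← sub_eq_iff_eq_add.2 e]
    exact h.sub_mem hx (h.smul_mem m03 _)
  have m23 : single 2 3 1 ∈ h := by
    obtain ⟨x, hx, a1, a2⟩ := xheis2_ex (hl 2 (by decide))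
    have e := xheis2_up (by decide) a2
    rw [a1, a2 0 1 (by decide), a2 1 2 (by decide), a2 0 2 (by decide)] at e
    simp only [zero_smul, one_smul, zero_add] at e
    rw [← sub_eq_iff_eq_add.2 (sub_eq_iff_eq_add.2 e)]
    exact h.sub_mem (h.sub_mem hx (h.smul_mem m03 _)) (h.smul_mem m13 _)
  have m02 : single 0 2 1 ∈ h := by
    obtain ⟨x, hx, a1, a2⟩ := xheis2_ex (hf 2 (by decide))
    have e := xheis2_up (by decide) a2
    rw [a1, a2 0 1 (by decide), a2 1 2 (by decide)] at e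
    simp only [zero_smul, one_smul, zero_add] at e
    rw [← sub_eq_iff_eq_add.2 (sub_eq_iff_eq_add.2 (sub_eq_iff_eq_add.2 e))]
    exact h.sub_mem (h.sub_mem (h.sub_mem hx (h.smul_mem m03 _)) (h.smul_mem m13 _))
      (h.smul_mem m23 _)
  obtain ⟨a, ha⟩ : ∃ a : F, single 0 1 1 + a • single 1 2 1 ∈ h := by
    obtain ⟨x, hx, a1, a2⟩ := xheis2_ex (hf 1 (by decide))
    have e := xheis2_up (by decide) a2
    rw [a1, one_smul] at e
    refine ⟨x 1 2, ?_⟩
    rw [← sub_eq_iff_eq_add.2 (sub_eq_iff_eq_add.2 (sub_eq_iff_eq_add.2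
      (sub_eq_iff_eq_add.2 e)))]
    exact h.sub_mem (h.sub_mem (h.sub_mem (h.sub_mem hx (h.smul_mem m03 _)) (h.smul_mem m13 _))
      (h.smul_mem m23 _)) (h.smul_mem m02 _)
  have c1 : (single 0 2 1 * single 2 3 1 - single 2 3 1 * single 0 2 1 : Mat 4 F) ∈ commA h :=
    Submodule.subset_span ⟨_, m02, _, m23, rfl⟩
  have c2 : ((single 0 1 1 + a • single 1 2 1) * single 2 3 1
      - single 2 3 1 * (single 0 1 1 + a • single 1 2 1) : Mat 4 F) ∈ commA h :=
    Submodule.subset_span ⟨_, ha, _, m23, rfl⟩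
  obtain ⟨v, hv⟩ := finrank_le_one_iff.1 h1
  obtain ⟨s, hs⟩ := hv ⟨_, c1⟩
  obtain ⟨t, ht⟩ := hv ⟨_, c2⟩
  have b1 := congrFun (congrFun (congrArg Subtype.val hs) 0) 3
  have b2 := congrFun (congrFun (congrArg Subtype.val hs) 1) 3
  have b3 := congrFun (congrFun (congrArg Subtype.val ht) 1) 3
  simp [Matrix.mul_apply, Fin.sum_univ_four] at b1 b2 b3
  have a0 : a = 0 := by
    rcases b2 with b2 | b2
    · rw [b2, zero_mul] at b1; exact absurd b1 zero_ne_one
    · rw [← b3, b2, mul_zero]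
  rw [a0, zero_smul, add_zero] at ha
  exact ⟨ha, m02, m13, m23⟩

end Pool.Agent.MP_8299d6_al.Up

end
end

section

open Matrix

noncomputable section

namespace Pool.Agent.MP_8299d6_al.Up

open Pool.Agent.MP_810665_al (IrrChar)

theorem xheis3_ten {F : Type} [Field F] {z : Mat 4 F} (hns : ¬ IsScal z)
    {h : Subalgebra F (Mat 4 F)} (hs : Shad z h) : Module.finrank F h ≤ 10 := by
  have hle : h ≤ Subalgebra.centralizer F {z} := by
    intro x hx
    rw [Subalgebra.mem_centralizer_iff]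
    intro g hg
    rw [Set.mem_singleton_iff.mp hg]
    exact shad_le hs x hx
  have h1 : Module.finrank F h ≤ Module.finrank F (Subalgebra.centralizer F {z}) := by
    rw [← Subalgebra.finrank_toSubmodule, ← Subalgebra.finrank_toSubmodule]
    exact Submodule.finrank_mono hle
  have h2 := rank_ad_two z hns
  omega

theorem xheis3_comm {F : Type} [Field F] (g : GLn 4 F) {h : Subalgebra F (Mat 4 F)} {y : Mat 4 F}
    (hy : ∀ x ∈ h, y * x = x * y) :
    ∀ x ∈ h.map ((cjA g : Mat 4 F ≃ₐ[F] Mat 4 F) : Mat 4 F →ₐ[F] Mat 4 F),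
      cj g y * x = x * cj g y := by
  intro x hx
  obtain ⟨w, hw, rfl⟩ := Subalgebra.mem_map.mp hx
  have h1 := congrArg (cjA g) (hy w hw)
  rw [map_mul, map_mul] at h1
  exact h1

theorem xheis3_no {F : Type} [Field F] {z : Mat 4 F} (hns : ¬ IsScal z)
    {h : Subalgebra F (Mat 4 F)} (hs : Shad z h)
    (hq : 16 + 2 * Module.finrank F (commA h) ≤ 3 * Module.finrank F h) : False := by
  obtain ⟨-, h1, -, -⟩ := pat h z (shad_mem hs) hns (shad_le hs) (shad_even hs) hq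
  have key : ∀ g : GLn 4 F,
      ¬ IsScal (cjA g z) ∧
      Shad (cjA g z) (h.map ((cjA g : Mat 4 F ≃ₐ[F] Mat 4 F) : Mat 4 F →ₐ[F] Mat 4 F)) := by
    intro g
    exact ⟨fun hh => hns ((isScal_cj g).mp hh), shad_map (cjA g) hs⟩
  have kp : ∀ g : GLn 4 F, _ := fun g =>
    pat (h.map ((cjA g : Mat 4 F ≃ₐ[F] Mat 4 F) : Mat 4 F →ₐ[F] Mat 4 F)) (cjA g z)
      (shad_mem (key g).2) (key g).1 (shad_le (key g).2) (shad_even (key g).2)
      (by rw [finrank_map_alg, finrank_commA_map]; exact hq)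
  rcases heis_sq h z (shad_mem hs) hns (shad_le hs) h1 with ⟨e, he, hee, h0, h1'⟩ | ⟨y, -, h0, hyy, hyc⟩
  · obtain ⟨g, hd, i, k, hik⟩ := nf_idem hee h0 h1'
    obtain ⟨-, -, hr, -⟩ := kp g
    exact hik (heis_diag _ hr (Subalgebra.mem_map.mpr ⟨e, he, rfl⟩) hd i k)
  · obtain ⟨g, hg | hg⟩ := nf_sq hyy h0
    · obtain ⟨-, hc1, hr, f, l, hf, hl⟩ := kp g
      have hc := xheis3_comm g hyc
      rw [hg] at hc
      obtain ⟨h01, h02, h13, h23⟩ := heis_one _ hf hl hc1.le hc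
      have hm := heis_peirce (key g).1 (key g).2 h01 h02 h13 h23
      have hd : ∀ i j : Fin 4, i ≠ j →
          (single 1 1 1 + single 2 2 1 : Mat 4 F) i j = 0 := by
        intro i j hij
        rw [Matrix.add_apply, single_apply_of_ne, single_apply_of_ne, add_zero]
        · rintro ⟨rfl, rfl⟩; exact hij rfl
        · rintro ⟨rfl, rfl⟩; exact hij rfl
      have := heis_diag _ hr hm hd 0 1
      simp at this
    · obtain ⟨-, -, hr, f, l, hf, hl⟩ := kp g
      have hc := xheis3_comm g hyc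
      rw [hg] at hc
      exact heis_two _ hr hf hl hc

/-- the sharp inequality for shadows -/
theorem shad_ineq {F : Type} [Field F] {z : Mat 4 F} (hns : ¬ IsScal z)
    {h : Subalgebra F (Mat 4 F)} (hs : Shad z h) :
    3 * Module.finrank F h ≤ 14 + 2 * Module.finrank F (commA h) ∧ Module.finrank F h ≤ 10 := by
  refine ⟨?_, xheis3_ten hns hs⟩
  by_contra hcon
  obtain ⟨r, hr⟩ := shad_even hs
  exact xheis3_no hns hs (by omega)

end Pool.Agent.MP_8299d6_al.Up

end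
end

section

open Matrix

noncomputable section

namespace Pool.Agent.MP_8299d6_al.Up

open Pool.Agent.MP_810665_al (IrrChar)

variable {p : ℕ} [Fact p.Prime]

/-- the exponents of a shadow -/
theorem sh_exp (m : ℕ) (A : Mat 4 (ZMod (p ^ (m + 1)))) (hA : ¬ IsScal A) :
    ∃ d c : ℕ, Nat.card (sh 4 p m A) = p ^ d ∧ Nat.card (commS (sh 4 p m A)) = p ^ c ∧
      3 * d ≤ 14 + 2 * c ∧ d ≤ 10 ∧ c ≤ 16 := by
  have hp : p.Prime := Fact.out
  obtain ⟨z, hns, hs⟩ := sh_shad m A hA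
  obtain ⟨k1, k2⟩ := shad_ineq hns hs
  obtain ⟨c, hc, ec⟩ := lv3_pow (commS (sh 4 p m A))
  have e1 : Nat.card (sh 4 p m A) = p ^ Module.finrank (ZMod p) (toAlg (sh 4 p m A)) := by
    have := Module.natCard_eq_pow_finrank (K := ZMod p) (V := toAlg (sh 4 p m A))
    rwa [Nat.card_zmod] at this
  have e2 : Nat.card (commA (toAlg (sh 4 p m A))) =
      p ^ Module.finrank (ZMod p) (commA (toAlg (sh 4 p m A))) := by
    have := Module.natCard_eq_pow_finrank (K := ZMod p) (V := commA (toAlg (sh 4 p m A)))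
    rwa [Nat.card_zmod] at this
  have hle : commA (toAlg (sh 4 p m A)) ≤
      AddSubgroup.toZModSubmodule p (commS (sh 4 p m A)) :=
    Submodule.span_le.2 fun x hx => AddSubgroup.subset_closure hx
  have e3 : Nat.card (commA (toAlg (sh 4 p m A))) ≤ Nat.card (commS (sh 4 p m A)) :=
    Nat.card_le_card_of_injective (fun x => (⟨x.1, hle x.2⟩ : commS (sh 4 p m A)))
      fun x y e => Subtype.ext (Subtype.mk.inj e)
  rw [e2, ec, Nat.pow_le_pow_iff_right hp.one_lt] at e3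
  exact ⟨_, c, e1, ec, by omega, k2, by simpa using hc⟩

theorem sh_big (hp : 5 ≤ p) (m : ℕ) (B : Mat 4 (ZMod (p ^ (m + 1 + 1))))
    (hB : Big (sh 4 p m (redM 4 p (m + 1) B))) :
    sh 4 p (m + 1) B = sh 4 p m (redM 4 p (m + 1) B) ∨ Nat.card (sh 4 p (m + 1) B) ≤ p ^ 6 := by
  obtain ⟨β, -, h2, h3⟩ := coc m B
  exact big_step hp hB β h2 _ h3

theorem wt_nonneg (h : Subring (Mat 4 (ZMod p))) : 0 ≤ wt p h := by
  unfold wt
  split_ifs <;> positivity

theorem ut_nonneg (σ : ℝ) (h : Subring (Mat 4 (ZMod p))) : 0 ≤ ut p σ h := by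
  unfold ut
  split_ifs <;> positivity

lemma xshd_eq (m : ℕ) (B : Mat 4 (ZMod (p ^ (m + 1 + 1))))
    (hA : ¬ IsScal (redM 4 p (m + 1) B)) (hB : Big (sh 4 p (m + 1) B)) :
    sh 4 p (m + 1) B = sh 4 p m (redM 4 p (m + 1) B) := by
  have hp : p.Prime := Fact.out
  obtain ⟨d, c, e1, -, -, hd, -⟩ := sh_exp m _ hA
  by_contra hne
  have h1 : sh 4 p (m + 1) B < sh 4 p m (redM 4 p (m + 1) B) := lt_of_le_of_ne (sh_le m B) hne
  have h2 : Nat.card (sh 4 p (m + 1) B) < Nat.card (sh 4 p m (redM 4 p (m + 1) B)) :=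
    Set.Finite.card_lt_card (Set.toFinite _) (SetLike.coe_ssubset_coe.2 h1)
  rw [big_card hB, e1, Nat.pow_lt_pow_iff_right hp.one_lt] at h2
  omega

lemma xshd_one_le : (1 : ℝ) ≤ p := by exact_mod_cast (Fact.out : p.Prime).one_le

lemma xshd_pos : (0 : ℝ) < p := by exact_mod_cast (Fact.out : p.Prime).pos

lemma xshd_ratio (d : ℕ) (t : ℝ) :
    (((p ^ d : ℕ) : ℝ) / (p : ℝ) ^ 16) ^ t = (p : ℝ) ^ (((d : ℝ) - 16) * t) := by
  rw [Real.rpow_mul xshd_pos.le, Real.rpow_sub xshd_pos, Nat.cast_pow, Real.rpow_natCast]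
  congr 2
  exact_mod_cast (Real.rpow_natCast (p : ℝ) 16).symm

lemma xshd_ratio1 (d : ℕ) :
    ((p ^ d : ℕ) : ℝ) / (p : ℝ) ^ 16 = (p : ℝ) ^ ((d : ℝ) - 16) := by
  have := xshd_ratio (p := p) d 1
  rwa [Real.rpow_one, mul_one] at this

lemma xshd_four : (p : ℝ) ^ 4 = (p : ℝ) ^ (4 : ℝ) := by
  exact_mod_cast (Real.rpow_natCast (p : ℝ) 4).symm

lemma xshd_mono (hp : 5 ≤ p) (m : ℕ) (B : Mat 4 (ZMod (p ^ (m + 1 + 1))))
    (hA : ¬ IsScal (redM 4 p (m + 1) B)) {σ : ℝ} (h1 : 1 / 4 ≤ σ) :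
    ut p σ (sh 4 p (m + 1) B) ≤ ut p σ (sh 4 p m (redM 4 p (m + 1) B)) := by
  have hpp : p.Prime := Fact.out
  by_cases hB' : Big (sh 4 p (m + 1) B)
  · rw [xshd_eq m B hA hB']
  by_cases hB : Big (sh 4 p m (redM 4 p (m + 1) B))
  · rcases sh_big hp m B hB with h | h
    · rw [h]
    · unfold ut
      rw [if_neg hB', if_pos hB]
      calc _ ≤ (p : ℝ) ^ 4 * (((p ^ 6 : ℕ) : ℝ) / (p : ℝ) ^ 16) ^ σ := by
            refine mul_le_mul_of_nonneg_left (Real.rpow_le_rpow (by positivity) ?_ (by linarith))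
              (by positivity)
            exact div_le_div_of_nonneg_right (by exact_mod_cast h) (by positivity)
        _ ≤ _ := by
            rw [xshd_ratio, xshd_four, ← Real.rpow_add xshd_pos]
            refine Real.rpow_le_rpow_of_exponent_le xshd_one_le ?_
            push_cast
            linarith
  · unfold ut
    rw [if_neg hB', if_neg hB]
    refine mul_le_mul_of_nonneg_left (Real.rpow_le_rpow (by positivity) ?_ (by linarith))
      (by positivity)
    refine div_le_div_of_nonneg_right ?_ (by positivity)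
    exact_mod_cast Nat.card_le_card_of_injective (Subring.inclusion (sh_le m B))
      (Subring.inclusion_injective _)

lemma xshd_step (m : ℕ) (A : Mat 4 (ZMod (p ^ (m + 1)))) (t : ℝ) {d : ℕ}
    (e : Nat.card (sh 4 p m A) = p ^ d) :
    cc A ^ t = (p : ℝ) ^ (((d : ℝ) - 16) * t) * cc (redM 4 p m A) ^ t := by
  rw [lv3_step, e, mul_comm, ← xshd_ratio]
  norm_num

/-- one step of the weighted recursion, for the weight `wt` -/
theorem wt_step (hp : 5 ≤ p) (m : ℕ) (B : Mat 4 (ZMod (p ^ (m + 1 + 1))))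
    (hA : ¬ IsScal (redM 4 p (m + 1) B)) {σ : ℝ} (h1 : 1 / 4 ≤ σ) :
    wt p (sh 4 p (m + 1) B) * cc B ^ (1 + σ) ≤
      (Nat.card (commS (sh 4 p (m + 1) B)) : ℝ) / (p : ℝ) ^ 16 *
        (ut p σ (sh 4 p m (redM 4 p (m + 1) B)) * cc (redM 4 p (m + 1) B) ^ (1 + σ)) := by
  have hpp : p.Prime := Fact.out
  obtain ⟨d, c, e1, e2, k1, k2, -⟩ := sh_exp (m + 1) B (fun h => hA (lv3_scal_red h))
  have h0 := lv3_pow_nonneg (redM 4 p (m + 1) B) (1 + σ)
  have hm := xshd_mono hp m B hA h1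
  refine le_trans ?_ (mul_le_mul_of_nonneg_left (mul_le_mul_of_nonneg_right hm h0)
    (by positivity))
  rw [xshd_step (m + 1) B (1 + σ) e1, ← mul_assoc, ← mul_assoc]
  refine mul_le_mul_of_nonneg_right ?_ h0
  rw [e2, xshd_ratio1]
  unfold wt ut
  by_cases hB : Big (sh 4 p (m + 1) B)
  · have hd : d = 10 := by
      have := big_card hB
      rw [e1] at this
      exact Nat.pow_right_injective hpp.two_le this
    have hc : (8 : ℝ) ≤ c := by exact_mod_cast (by omega : 8 ≤ c)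
    rw [if_pos hB, if_pos hB, mul_comm, ← Real.rpow_add_one xshd_pos.ne', ← Real.rpow_add xshd_pos]
    refine Real.rpow_le_rpow_of_exponent_le xshd_one_le ?_
    rw [hd]
    push_cast
    linarith
  · rw [if_neg hB, if_neg hB, e1, e2, xshd_ratio, xshd_four, Nat.cast_pow, Nat.cast_pow,
      ← Real.rpow_natCast, ← Real.rpow_natCast, ← Real.rpow_add xshd_pos,
      ← Real.rpow_sub xshd_pos, ← Real.rpow_add xshd_pos, ← Real.rpow_add xshd_pos,
      ← Real.rpow_add xshd_pos]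
    refine le_of_eq ?_
    congr 1
    ring

/-- one step of the recursion -/
theorem cc_step2 (m : ℕ) (B : Mat 4 (ZMod (p ^ (m + 1)))) (hB : ¬ IsScal B) {σ : ℝ}
    (h1 : 1 / 3 ≤ σ) :
    cc B ^ (1 + σ) ≤ (Nat.card (commS (sh 4 p m B)) : ℝ) / (p : ℝ) ^ 16 *
      ((p : ℝ) ^ (3 - 6 * σ) * cc (redM 4 p m B) ^ (1 + σ)) := by
  obtain ⟨d, c, e1, e2, k1, k2, -⟩ := sh_exp m B hB
  have h0 := lv3_pow_nonneg (redM 4 p m B) (1 + σ)
  rw [xshd_step m B (1 + σ) e1, ← mul_assoc]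
  refine mul_le_mul_of_nonneg_right ?_ h0
  rw [e2, xshd_ratio1, ← Real.rpow_add xshd_pos]
  refine Real.rpow_le_rpow_of_exponent_le xshd_one_le ?_
  have a1 : (4 : ℝ) * d ≤ 19 + 3 * c := by exact_mod_cast (by omega : 4 * d ≤ 19 + 3 * c)
  have a2 : (d : ℝ) ≤ 10 := by exact_mod_cast k2
  nlinarith [mul_nonneg (sub_nonneg.2 h1) (sub_nonneg.2 a2)]

theorem ut_mono (hp : 5 ≤ p) (m : ℕ) (B : Mat 4 (ZMod (p ^ (m + 1 + 1))))
    (hA : ¬ IsScal (redM 4 p (m + 1) B)) {σ : ℝ} (h1 : 1 / 4 ≤ σ) :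
    ut p σ (sh 4 p (m + 1) B) ≤ ut p σ (sh 4 p m (redM 4 p (m + 1) B)) :=
  xshd_mono hp m B hA h1

end Pool.Agent.MP_8299d6_al.Up

end
end

section

open Matrix

noncomputable section

namespace Pool.Agent.MP_8299d6_al.Up

open Pool.Agent.MP_810665_al (IrrChar)

open Polynomial

variable {F : Type} [Field F]

/-- evaluation of polynomials in `x` on a vector -/
def xcentEv {n : ℕ} (x : Mat n F) (v : Fin n → F) : F[X] →ₗ[F] (Fin n → F) :=
  ((mulVecBilin F F).flip v) ∘ₗ (aeval x : F[X] →ₐ[F] Mat n F).toLinearMap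

lemma xcent_ev {n : ℕ} (x : Mat n F) (v : Fin n → F) (q : F[X]) :
    xcentEv x v q = aeval x q *ᵥ v := rfl

lemma xcent_mul {n : ℕ} (x : Mat n F) (v : Fin n → F) (p q : F[X]) :
    xcentEv x v (p * q) = aeval x p *ᵥ xcentEv x v q := by
  rw [xcent_ev, xcent_ev, map_mul, mulVec_mulVec]

lemma xcent_X {n : ℕ} (x : Mat n F) (v : Fin n → F) (q : F[X]) :
    xcentEv x v (X * q) = x *ᵥ xcentEv x v q := by
  rw [xcent_mul, aeval_X]

lemma xcent_C {n : ℕ} (x : Mat n F) (v : Fin n → F) (c : F) : xcentEv x v (C c) = c • v := by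
  rw [xcent_ev, aeval_C, Algebra.algebraMap_eq_smul_one, smul_mulVec, one_mulVec]

lemma xcent_dvd {n : ℕ} (x : Mat n F) (v : Fin n → F) {q : F[X]} (h : minpoly F x ∣ q) :
    xcentEv x v q = 0 := by
  obtain ⟨r, rfl⟩ := h
  rw [xcent_mul, minpoly.aeval, zero_mulVec]

lemma xcent_XC {n : ℕ} (x : Mat n F) (a : F) (w : Fin n → F) :
    aeval x (X - C a) *ᵥ w = x *ᵥ w - a • w := by
  rw [map_sub, aeval_X, aeval_C, Algebra.algebraMap_eq_smul_one, sub_mulVec, smul_mulVec,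
    one_mulVec]

lemma xcent_comm {n : ℕ} {x φ : Mat n F} (hφ : x * φ = φ * x) (v : Fin n → F) (q : F[X]) :
    φ *ᵥ xcentEv x v q = xcentEv x (φ *ᵥ v) q := by
  have hc : Commute φ x := hφ.symm
  have hq : Commute φ (aeval x q) := by
    rw [aeval_eq_sum_range]
    exact Commute.sum_right _ _ _ fun i _ => (hc.pow_right i).smul_right _
  rw [xcent_ev, xcent_ev, mulVec_mulVec, mulVec_mulVec, hq.eq]

lemma xcent_finrank {n : ℕ} {x : Mat n F} {v : Fin n → F}
    (hv : ∀ q : F[X], aeval x q *ᵥ v = 0 → minpoly F x ∣ q) :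
    Module.finrank F (LinearMap.range (xcentEv x v)) = (minpoly F x).natDegree := by
  let d := (minpoly F x).natDegree
  have hm : (minpoly F x).Monic := minpoly.monic (isIntegral x)
  let E : degreeLT F d →ₗ[F] Fin n → F := xcentEv x v ∘ₗ (degreeLT F d).subtype
  have hE : Function.Injective E := by
    rw [injective_iff_map_eq_zero]
    intro q hq
    refine Subtype.ext (eq_zero_of_dvd_of_degree_lt (hv q.1 hq) ?_)
    rw [degree_eq_natDegree hm.ne_zero]
    exact mem_degreeLT.1 q.2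
  have hr : LinearMap.range E = LinearMap.range (xcentEv x v) := by
    refine le_antisymm (LinearMap.range_comp_le_range _ _) ?_
    rintro _ ⟨q, rfl⟩
    refine ⟨⟨q %ₘ minpoly F x, mem_degreeLT.2 ?_⟩, ?_⟩
    · rw [← degree_eq_natDegree hm.ne_zero]
      exact degree_modByMonic_lt q hm
    · show xcentEv x v (q %ₘ minpoly F x) = _
      conv_rhs => rw [← modByMonic_add_div q (minpoly F x)]
      rw [map_add, xcent_dvd x v (dvd_mul_right _ _), add_zero]
  rw [← hr, LinearMap.finrank_range_of_inj hE, (degreeLTEquiv F d).finrank_eq,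
    Module.finrank_fin_fun]

/-- two presentations with the same kernel give conjugate matrices -/
lemma xcent_conj {n : ℕ} {x y : Mat n F} {M : Type} [AddCommGroup M] [Module F M]
    (f f' : M →ₗ[F] (Fin n → F)) (hf : Function.Surjective f) (hf' : Function.Surjective f')
    (hk : LinearMap.ker f = LinearMap.ker f') (s : M → M) (hx : ∀ m, x *ᵥ f m = f (s m))
    (hy : ∀ m, y *ᵥ f' m = f' (s m)) : ∃ g : GLn n F, g.1 * x = y * g.1 := by
  let e : (Fin n → F) ≃ₗ[F] (Fin n → F) :=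
    ((f.quotKerEquivOfSurjective hf).symm.trans (Submodule.quotEquivOfEq _ _ hk)).trans
      (f'.quotKerEquivOfSurjective hf')
  have he : ∀ m, e (f m) = f' m := fun m => by
    have h1 : (f.quotKerEquivOfSurjective hf).symm (f m) = Submodule.Quotient.mk m := by
      rw [LinearEquiv.symm_apply_eq]
      rfl
    simp only [e, LinearEquiv.trans_apply, h1]
    rfl
  have h1 : LinearMap.toMatrix' e.toLinearMap * LinearMap.toMatrix' e.symm.toLinearMap = 1 := by
    rw [← LinearMap.toMatrix'_comp]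
    simp
  have h2 : LinearMap.toMatrix' e.symm.toLinearMap * LinearMap.toMatrix' e.toLinearMap = 1 := by
    rw [← LinearMap.toMatrix'_comp]
    simp
  refine ⟨⟨_, _, h1, h2⟩, toLin'.injective (LinearMap.ext fun w => ?_)⟩
  obtain ⟨m, rfl⟩ := hf w
  simp only [toLin'_apply, ← mulVec_mulVec, LinearMap.toMatrix'_mulVec, hx]
  show e _ = y *ᵥ e _
  rw [he, he, hy]

lemma xcent_low {n : ℕ} {x : Mat n F} {v : Fin n → F}
    (hv : ∀ q : F[X], aeval x q *ᵥ v = 0 → minpoly F x ∣ q) {q : F[X]}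
    (hq : q.natDegree < (minpoly F x).natDegree) (h : xcentEv x v q = 0) : q = 0 :=
  eq_zero_of_dvd_of_natDegree_lt (hv q h) hq

lemma xcent_ind3 {n : ℕ} {x : Mat n F} {v : Fin n → F}
    (hv : ∀ q : F[X], aeval x q *ᵥ v = 0 → minpoly F x ∣ q) (hx : (minpoly F x).natDegree = 3)
    {a b c : F} (h : a • v + b • x *ᵥ v + c • x *ᵥ x *ᵥ v = 0) : a = 0 ∧ b = 0 ∧ c = 0 := by
  have h1 : (C a + X * C b + X * (X * C c) : F[X]) = 0 := by
    refine xcent_low hv ?_ ?_
    · rw [hx]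
      refine lt_of_le_of_lt (b := 2) ?_ (by norm_num)
      compute_degree
    · simpa only [map_add, xcent_X, xcent_C, mulVec_smul] using h
  have h2 := fun i => congrArg (coeff · i) h1
  have e0 := h2 0
  have e1 := h2 1
  have e2 := h2 2
  simp [coeff_X, coeff_C, ← mul_assoc, ← pow_two] at e0 e1 e2
  exact ⟨e0, e1, e2⟩

lemma xcent_ind2 {n : ℕ} {x : Mat n F} {v : Fin n → F}
    (hv : ∀ q : F[X], aeval x q *ᵥ v = 0 → minpoly F x ∣ q) (hx : (minpoly F x).natDegree = 2)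
    {a b : F} (h : a • v + b • x *ᵥ v = 0) : a = 0 ∧ b = 0 := by
  have h1 : (C a + X * C b : F[X]) = 0 := by
    refine xcent_low hv ?_ ?_
    · rw [hx]
      refine lt_of_le_of_lt (b := 1) ?_ (by norm_num)
      compute_degree
    · simpa only [map_add, xcent_X, xcent_C, mulVec_smul] using h
  have h2 := fun i => congrArg (coeff · i) h1
  have e0 := h2 0
  have e1 := h2 1
  simp [coeff_X, coeff_C] at e0 e1
  exact ⟨e0, e1⟩

lemma xcent_out {n : ℕ} {W : Submodule F (Fin n → F)} (h : Module.finrank F W < n) :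
    ∃ u, u ∉ W := by
  by_contra h'
  push Not at h'
  rw [Submodule.eq_top_iff'.2 h', finrank_top, Module.finrank_fin_fun] at h
  exact lt_irrefl _ h

lemma xcent_smul_out {n : ℕ} {W : Submodule F (Fin n → F)} {u : Fin n → F} (hu : u ∉ W) {c : F}
    (h : c • u ∈ W) : c = 0 := by
  by_contra hc
  exact hu ((W.smul_mem_iff hc).1 h)

/-- an eigenvalue on the quotient is a root of the minimal polynomial -/
lemma xcent_root {n : ℕ} {x : Mat n F} {v u : Fin n → F} {a : F} {g : F[X]}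
    (hu : u ∉ LinearMap.range (xcentEv x v)) (h : x *ᵥ u - a • u = xcentEv x v g) :
    ∃ m', minpoly F x = (X - C a) * m' ∧ xcentEv x v (m' * g) = 0 := by
  have h1 := mul_divByMonic_eq_iff_isRoot (p := minpoly F x) (a := a)
  have h2 := modByMonic_add_div (minpoly F x) (X - C a)
  rw [modByMonic_X_sub_C_eq_C_eval] at h2
  have h3 : (0 : Fin n → F) = eval a (minpoly F x) • u +
      xcentEv x v ((minpoly F x /ₘ (X - C a)) * g) := by
    rw [← xcent_dvd x u (dvd_refl _), xcent_mul, ← h, ← xcent_XC, mulVec_mulVec, ← map_mul,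
      ← xcent_ev, ← xcent_C x u, ← map_add, mul_comm, h2]
  have h4 : eval a (minpoly F x) = 0 := by
    refine xcent_smul_out hu ?_
    rw [eq_neg_of_add_eq_zero_left h3.symm]
    exact Submodule.neg_mem _ ⟨_, rfl⟩
  rw [h4, zero_smul, zero_add] at h3
  exact ⟨_, (h1.2 h4).symm, h3.symm⟩

lemma xcent_three {x : Mat 4 F} (hx : (minpoly F x).natDegree = 3) :
    ∃ (v u : Fin 4 → F) (a : F), (∀ q : F[X], aeval x q *ᵥ v = 0 → minpoly F x ∣ q) ∧
      u ∉ LinearMap.range (xcentEv x v) ∧ (∀ w, ∃ (q : F[X]) (c : F), w = xcentEv x v q + c • u) ∧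
      x *ᵥ u = a • u ∧ X - C a ∣ minpoly F x := by
  obtain ⟨v, hv⟩ := fl_cyclic x
  have hW := xcent_finrank hv
  rw [hx] at hW
  have hsp : ∀ u, u ∉ LinearMap.range (xcentEv x v) →
      ∀ w, ∃ (q : F[X]) (c : F), w = xcentEv x v q + c • u := by
    intro u hu w
    have h1 : LinearMap.range (xcentEv x v) < LinearMap.range (xcentEv x v) ⊔ F ∙ u :=
      lt_of_le_of_ne le_sup_left fun h => hu (h ▸ Submodule.mem_sup_right
        (Submodule.mem_span_singleton_self u))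
    have h2 := Submodule.finrank_lt_finrank_of_lt h1
    have h3 := Submodule.finrank_le (LinearMap.range (xcentEv x v) ⊔ F ∙ u)
    have h4 : LinearMap.range (xcentEv x v) ⊔ F ∙ u = ⊤ := by
      refine Submodule.eq_top_of_finrank_eq ?_
      rw [Module.finrank_fin_fun] at h3 ⊢
      omega
    have h5 : w ∈ LinearMap.range (xcentEv x v) ⊔ F ∙ u := h4 ▸ Submodule.mem_top
    obtain ⟨_, ⟨q, rfl⟩, z, hz, rfl⟩ := Submodule.mem_sup.1 h5
    obtain ⟨c, rfl⟩ := Submodule.mem_span_singleton.1 hz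
    exact ⟨q, c, rfl⟩
  obtain ⟨u0, hu0⟩ := xcent_out (W := LinearMap.range (xcentEv x v)) (by omega)
  obtain ⟨g, a, hg⟩ := hsp u0 hu0 (x *ᵥ u0)
  obtain ⟨m', hm', h0⟩ := xcent_root hu0 (sub_eq_iff_eq_add.2 hg)
  have hm0 : m' ≠ 0 := by
    rintro rfl
    exact minpoly.ne_zero (isIntegral x) (by rw [hm', mul_zero])
  have h1 := hv _ h0
  rw [hm', mul_comm m' g] at h1
  obtain ⟨g1, rfl⟩ := (mul_dvd_mul_iff_right hm0).1 h1
  have hu : u0 - xcentEv x v g1 ∉ LinearMap.range (xcentEv x v) := fun h =>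
    hu0 (by simpa using Submodule.add_mem _ h ⟨g1, rfl⟩)
  refine ⟨v, u0 - xcentEv x v g1, a, hv, hu, hsp _ hu, ?_, hm' ▸ dvd_mul_right _ _⟩
  rw [mulVec_sub, hg, xcent_mul, xcent_XC, smul_sub]
  abel

lemma xcent_li {x : Mat 4 F} (hx : (minpoly F x).natDegree = 3) {v u : Fin 4 → F}
    (hv : ∀ q : F[X], aeval x q *ᵥ v = 0 → minpoly F x ∣ q)
    (hu : u ∉ LinearMap.range (xcentEv x v)) :
    LinearIndependent F ![v, x *ᵥ v, x *ᵥ x *ᵥ v, u] := by
  rw [Fintype.linearIndependent_iff]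
  intro g hg
  simp only [Fin.sum_univ_four, cons_val_zero, cons_val_one, cons_val] at hg
  have h3 : g 3 = 0 := by
    refine xcent_smul_out hu ⟨-(C (g 0) + X * C (g 1) + X * (X * C (g 2))), ?_⟩
    simp only [map_neg, map_add, xcent_X, xcent_C, mulVec_smul]
    exact (eq_neg_of_add_eq_zero_right hg).symm
  rw [h3, zero_smul, add_zero] at hg
  obtain ⟨h0, h1, h2⟩ := xcent_ind3 hv hx hg
  intro i
  fin_cases i <;> assumption

lemma xcent_char {x : Mat 4 F} (hx : (minpoly F x).natDegree = 3) {v u : Fin 4 → F} {a : F}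
    (hl : LinearIndependent F ![v, x *ᵥ v, x *ᵥ x *ᵥ v, u]) (ha : x *ᵥ u = a • u) :
    x.charpoly = minpoly F x * (X - C a) := by
  have hm : (minpoly F x).Monic := minpoly.monic (isIntegral x)
  obtain ⟨r, hr⟩ := minpoly_dvd_charpoly x
  have hrm : r.Monic := hm.of_mul_monic_left (hr ▸ charpoly_monic x)
  have hrd : r.natDegree = 1 := by
    have := congrArg natDegree hr
    rw [charpoly_natDegree_eq_dim, hm.natDegree_mul hrm, hx, Fintype.card_fin] at this
    omega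
  set m := minpoly F x with hmdef
  have h3 : x *ᵥ x *ᵥ x *ᵥ v = -(m.coeff 0) • v - m.coeff 1 • x *ᵥ v - m.coeff 2 • x *ᵥ x *ᵥ v := by
    have h0 : aeval x m *ᵥ v = 0 := by rw [hmdef, minpoly.aeval, zero_mulVec]
    have h1 : m.coeff 3 = 1 := by rw [← hx]; exact hm.coeff_natDegree
    rw [aeval_eq_sum_range, hx] at h0
    simp only [Finset.sum_range_succ, Finset.sum_range_zero, zero_add, add_mulVec, smul_mulVec,
      pow_succ, pow_zero, one_mul, ← mulVec_mulVec, one_mulVec, h1, one_smul] at h0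
    rw [eq_neg_of_add_eq_zero_right h0, neg_smul]
    abel
  let B : Mat 4 F := (Matrix.of ![v, x *ᵥ v, x *ᵥ x *ᵥ v, u])ᵀ
  let T : Mat 4 F := !![0, 0, -m.coeff 0, 0; 1, 0, -m.coeff 1, 0; 0, 1, -m.coeff 2, 0; 0, 0, 0, a]
  obtain ⟨g, hg⟩ : IsUnit B := linearIndependent_cols_iff_isUnit.1 hl
  have hB : x * B = B * T := by
    ext i j
    have e3 := congrFun h3 i
    have e4 := congrFun ha i
    fin_cases j
    · simp [B, T, mul_apply, Fin.sum_univ_four, mulVec, dotProduct]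
    · simp [B, T, mul_apply, Fin.sum_univ_four, mulVec, dotProduct]
      ring
    · show (x *ᵥ x *ᵥ x *ᵥ v) i = _
      rw [e3]
      simp [B, T, mul_apply, Fin.sum_univ_four]
      ring
    · show (x *ᵥ u) i = _
      rw [e4]
      simp [B, T, mul_apply, Fin.sum_univ_four]
      ring
  have ht : x.trace = T.trace := by
    have : x = g.1 * T * (g⁻¹).1 := by
      rw [hg, ← hB, ← hg, mul_assoc, Units.mul_inv, mul_one]
    rw [this, trace_units_conj]
  have ht2 : T.trace = -m.coeff 2 + a := by simp [T, trace, Fin.sum_univ_four]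
  have ht3 := trace_eq_neg_charpoly_nextCoeff x
  rw [hr, hm.nextCoeff_mul hrm, nextCoeff_of_natDegree_pos (p := m) (by omega),
    nextCoeff_of_natDegree_pos (p := r) (by omega), hx, hrd] at ht3
  rw [hr, hrm.eq_X_add_C hrd]
  have : r.coeff 0 = -a := by
    norm_num at ht3
    linear_combination ht3 - ht - ht2
  rw [this, map_neg, sub_eq_add_neg]

/-- matrices with a cyclic vector are determined by the minimal polynomial -/
theorem cyc_conj {n : ℕ} {x y : Mat n F} (hx : (minpoly F x).natDegree = n)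
    (h : minpoly F x = minpoly F y) : ∃ g : GLn n F, g.1 * x = y * g.1 := by
  obtain ⟨v, hv⟩ := fl_cyclic x
  obtain ⟨v', hv'⟩ := fl_cyclic y
  have hs : ∀ {z : Mat n F} {w : Fin n → F}, (minpoly F z).natDegree = n →
      (∀ q : F[X], aeval z q *ᵥ w = 0 → minpoly F z ∣ q) → Function.Surjective (xcentEv z w) :=
    fun hz hw => LinearMap.range_eq_top.1 (Submodule.eq_top_of_finrank_eq (by
      rw [xcent_finrank hw, hz, Module.finrank_fin_fun]))
  refine xcent_conj (xcentEv x v) (xcentEv y v') (hs hx hv) (hs (h ▸ hx) hv') ?_ (X * ·)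
    (fun m => (xcent_X _ _ _).symm) (fun m => (xcent_X _ _ _).symm)
  ext q
  exact ⟨fun hq => xcent_dvd _ _ (h ▸ hv q hq), fun hq => xcent_dvd _ _ (h ▸ hv' q hq)⟩

/-- the structure of a matrix with a minimal polynomial of degree three -/
theorem min_three {x : Mat 4 F} (hx : (minpoly F x).natDegree = 3) :
    ∃ (v u : Fin 4 → F) (a : F), LinearIndependent F ![v, x *ᵥ v, x *ᵥ x *ᵥ v, u] ∧
      x *ᵥ u = a • u ∧ x.charpoly = minpoly F x * (X - C a) ∧ X - C a ∣ minpoly F x := by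
  obtain ⟨v, u, a, hv, hu, -, ha, hd⟩ := xcent_three hx
  exact ⟨v, u, a, xcent_li hx hv hu, ha, xcent_char hx (xcent_li hx hv hu) ha, hd⟩

theorem three_conj {x y : Mat 4 F} (hx : (minpoly F x).natDegree = 3)
    (h : minpoly F x = minpoly F y) (h' : x.charpoly = y.charpoly) :
    ∃ g : GLn 4 F, g.1 * x = y * g.1 := by
  have hy : (minpoly F y).natDegree = 3 := h ▸ hx
  obtain ⟨v, u, a, hv, hu, hs, ha, -⟩ := xcent_three hx
  obtain ⟨v', u', a', hv', hu', hs', ha', -⟩ := xcent_three hy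
  have haa : a' = a := by
    rw [xcent_char hx (xcent_li hx hv hu) ha, xcent_char hy (xcent_li hy hv' hu') ha', h] at h'
    have := mul_left_cancel₀ (minpoly.ne_zero (isIntegral y)) h'
    exact (C_injective (sub_right_injective this)).symm
  subst haa
  have hk : ∀ {z : Mat 4 F} {w t : Fin 4 → F}, t ∉ LinearMap.range (xcentEv z w) →
      ∀ (q : F[X]) (c : F), xcentEv z w q + c • t = 0 → c = 0 := fun ht q c hq =>
    xcent_smul_out ht ⟨-q, by rw [map_neg]; exact (eq_neg_of_add_eq_zero_right hq).symm⟩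
  refine xcent_conj ((xcentEv x v).coprod (LinearMap.toSpanSingleton F _ u))
    ((xcentEv y v').coprod (LinearMap.toSpanSingleton F _ u')) (fun w => ?_) (fun w => ?_) ?_
    (fun m => (X * m.1, a' * m.2)) (fun m => ?_) (fun m => ?_)
  · obtain ⟨q, c, rfl⟩ := hs w
    exact ⟨(q, c), rfl⟩
  · obtain ⟨q, c, rfl⟩ := hs' w
    exact ⟨(q, c), rfl⟩
  · ext ⟨q, c⟩
    simp only [LinearMap.mem_ker, LinearMap.coprod_apply, LinearMap.toSpanSingleton_apply]
    constructor
    · intro hq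
      have hc := hk hu q c hq
      rw [hc, zero_smul, add_zero] at hq ⊢
      exact xcent_dvd _ _ (h ▸ hv q hq)
    · intro hq
      have hc := hk hu' q c hq
      rw [hc, zero_smul, add_zero] at hq ⊢
      exact xcent_dvd _ _ (h ▸ hv' q hq)
  · simp only [LinearMap.coprod_apply, LinearMap.toSpanSingleton_apply, mulVec_add, xcent_X,
      mulVec_smul, ha, smul_smul, mul_comm a' m.2]
  · simp only [LinearMap.coprod_apply, LinearMap.toSpanSingleton_apply, mulVec_add, xcent_X,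
      mulVec_smul, ha', smul_smul, mul_comm a' m.2]

theorem cent_three {x : Mat 4 F} (hx : (minpoly F x).natDegree = 3) :
    Module.finrank F (Subalgebra.centralizer F {x}) ≤ 6 := by
  obtain ⟨v, u, a, hv, hu, hs, ha, -⟩ := xcent_three hx
  let K : Submodule F (Fin 4 → F) := LinearMap.ker (toLin' x - a • LinearMap.id)
  have hK : ∀ w, w ∈ K ↔ x *ᵥ w = a • w := fun w => by simp [K, sub_eq_zero]
  have hK2 : Module.finrank F K ≤ 2 := by
    let ι : K × F × F →ₗ[F] (Fin 4 → F) := K.subtype.coprod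
      ((LinearMap.toSpanSingleton F _ v).coprod (LinearMap.toSpanSingleton F _ (x *ᵥ v)))
    have hι : Function.Injective ι := by
      rw [injective_iff_map_eq_zero]
      rintro ⟨⟨w, hw⟩, b, c⟩ h
      have h1 : w + (b • v + c • x *ᵥ v) = 0 := h
      have h2 := congrArg (x *ᵥ ·) h1
      simp only [mulVec_add, mulVec_smul, (hK w).1 hw, mulVec_zero] at h2
      have h3 : (-(a * b)) • v + (b - a * c) • x *ᵥ v + c • x *ᵥ x *ᵥ v = 0 := by
        rw [eq_neg_of_add_eq_zero_left h1] at h2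
        rw [← h2]
        module
      obtain ⟨-, e1, e2⟩ := xcent_ind3 hv hx h3
      have e3 : b = 0 := by simpa [e2] using e1
      have e4 : w = 0 := by simpa [e2, e3] using h1
      subst e2 e3 e4
      rfl
    have := LinearMap.finrank_le_finrank_of_injective hι
    simp only [Module.finrank_prod, Module.finrank_fin_fun, Module.finrank_self] at this
    omega
  let C := Subalgebra.centralizer F ({x} : Set (Mat 4 F))
  have hC : ∀ φ : C, x * φ.1 = φ.1 * x := fun φ => (Subalgebra.mem_centralizer_iff F).1 φ.2 x rfl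
  let Θ : C →ₗ[F] (Fin 4 → F) × K :=
    (((mulVecBilin F F).flip v) ∘ₗ C.val.toLinearMap).prod
      ((((mulVecBilin F F).flip u) ∘ₗ C.val.toLinearMap).codRestrict K fun φ => (hK _).2 (by
        show x *ᵥ φ.1 *ᵥ u = a • φ.1 *ᵥ u
        rw [mulVec_mulVec, hC, ← mulVec_mulVec, ha, mulVec_smul]))
  have hinj : Function.Injective Θ := by
    rw [injective_iff_map_eq_zero]
    intro φ h
    have e1 : φ.1 *ᵥ v = 0 := congrArg Prod.fst h
    have e2 : φ.1 *ᵥ u = 0 := congrArg (fun z : (Fin 4 → F) × K => z.2.1) h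
    refine Subtype.ext (toLin'.injective (LinearMap.ext fun w => ?_))
    obtain ⟨q, c, rfl⟩ := hs w
    rw [toLin'_apply, mulVec_add, xcent_comm (hC φ), e1, mulVec_smul, e2, xcent_ev]
    simp
  have h2 := LinearMap.finrank_le_finrank_of_injective hinj
  simp only [Module.finrank_prod, Module.finrank_fin_fun] at h2
  show Module.finrank F C ≤ _
  omega

theorem cent_two {x : Mat 4 F} (hx : (minpoly F x).natDegree = 2) :
    Module.finrank F (Subalgebra.centralizer F {x}) ≤ 8 ∨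
      ∃ (a : F) (v ξ : Fin 4 → F), x = a • (1 : Mat 4 F) + vecMulVec v ξ := by
  obtain ⟨v, hv⟩ := fl_cyclic x
  by_cases hA : ∃ u, LinearIndependent F ![v, x *ᵥ v, u, x *ᵥ u]
  · left
    obtain ⟨u, hu⟩ := hA
    let C := Subalgebra.centralizer F ({x} : Set (Mat 4 F))
    have hC : ∀ φ : C, x * φ.1 = φ.1 * x := fun φ =>
      (Subalgebra.mem_centralizer_iff F).1 φ.2 x rfl
    let Θ : C →ₗ[F] (Fin 4 → F) × (Fin 4 → F) :=
      (((mulVecBilin F F).flip v).prod ((mulVecBilin F F).flip u)) ∘ₗ C.val.toLinearMap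
    have hinj : Function.Injective Θ := by
      rw [injective_iff_map_eq_zero]
      intro φ h
      have e1 : φ.1 *ᵥ v = 0 := congrArg Prod.fst h
      have e2 : φ.1 *ᵥ u = 0 := congrArg Prod.snd h
      have e3 : ∀ w, φ.1 *ᵥ x *ᵥ w = x *ᵥ φ.1 *ᵥ w := fun w => by
        rw [mulVec_mulVec, ← hC, ← mulVec_mulVec]
      refine Subtype.ext (toLin'.injective ((basisOfLinearIndependentOfCardEqFinrank hu
        (by simp)).ext fun i => ?_))
      rw [coe_basisOfLinearIndependentOfCardEqFinrank]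
      fin_cases i <;> simp [e1, e2, e3]
    have h2 := LinearMap.finrank_le_finrank_of_injective hinj
    simpa using h2
  right
  push Not at hA
  set W := LinearMap.range (xcentEv x v) with hWdef
  have hW : Module.finrank F W = 2 := by rw [hWdef, xcent_finrank hv, hx]
  have hWx : ∀ w ∈ W, x *ᵥ w ∈ W := by
    rintro _ ⟨q, rfl⟩
    exact ⟨_, xcent_X _ _ _⟩
  have hvW : v ∈ W := ⟨C 1, by rw [xcent_C, one_smul]⟩
  have heig : ∀ u, u ∉ W → ∃ c : F, x *ᵥ u - c • u ∈ W := by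
    intro u hu
    obtain ⟨g, hg, i, hi⟩ := Fintype.not_linearIndependent_iff.1 (hA u)
    simp only [Fin.sum_univ_four, cons_val_zero, cons_val_one, cons_val] at hg
    have h1 : g 2 • u + g 3 • x *ᵥ u ∈ W := by
      rw [add_assoc] at hg
      rw [eq_neg_of_add_eq_zero_right hg]
      exact W.neg_mem (W.add_mem (W.smul_mem _ hvW) (W.smul_mem _ (hWx _ hvW)))
    have h3 : g 3 ≠ 0 := by
      intro h3
      have h2 : g 2 = 0 := xcent_smul_out hu (by simpa [h3] using h1)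
      rw [h2, h3, zero_smul, zero_smul, add_zero, add_zero] at hg
      obtain ⟨e0, e1⟩ := xcent_ind2 hv hx hg
      fin_cases i <;> contradiction
    refine ⟨-(g 2 / g 3), (W.smul_mem_iff h3).1 ?_⟩
    convert h1 using 1
    rw [smul_sub, smul_smul, mul_neg, mul_div_cancel₀ _ h3, neg_smul]
    abel
  obtain ⟨u0, hu0⟩ := xcent_out (W := W) (by omega)
  obtain ⟨a, ha⟩ := heig u0 hu0
  have hall : ∀ u, x *ᵥ u - a • u ∈ W := by
    intro u
    by_cases h : ∃ c : F, u - c • u0 ∈ W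
    · obtain ⟨c, hc⟩ := h
      have := W.add_mem (W.sub_mem (hWx _ hc) (W.smul_mem a hc)) (W.smul_mem c ha)
      convert this using 1
      rw [mulVec_sub, mulVec_smul]
      module
    · push Not at h
      obtain ⟨b, hb⟩ := heig u (by simpa using h 0)
      obtain ⟨c, hc⟩ := heig (u + u0) (by simpa using h (-1))
      have h1 : (b - c) • u + (a - c) • u0 ∈ W := by
        convert W.sub_mem (W.sub_mem hc hb) ha using 1
        rw [mulVec_add]
        module
      have h2 : b - c = 0 := by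
        by_contra h2
        refine h (-((a - c) / (b - c))) ((W.smul_mem_iff h2).1 ?_)
        convert h1 using 1
        rw [smul_sub, smul_smul, mul_neg, mul_div_cancel₀ _ h2, neg_smul]
        abel
      have h3 : a - c = 0 := xcent_smul_out hu0 (by simpa [h2] using h1)
      have h4 : a = b := by linear_combination h3 - h2
      exact h4 ▸ hb
  obtain ⟨g0, hg0⟩ := ha
  obtain ⟨m', hm', -⟩ := xcent_root hu0 hg0.symm
  have hm0 : m' ≠ 0 := by
    rintro rfl
    exact minpoly.ne_zero (isIntegral x) (by rw [hm', mul_zero])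
  have hmd : m'.natDegree = 1 := by
    rw [hm', natDegree_mul (X_sub_C_ne_zero a) hm0, natDegree_X_sub_C] at hx
    omega
  have hcol : ∀ u, ∃ c : F, x *ᵥ u - a • u = c • (x *ᵥ v - a • v) := by
    intro u
    obtain ⟨g, hg⟩ := hall u
    obtain ⟨g1, rfl⟩ : X - C a ∣ g := by
      have h1 : xcentEv x v (m' * g) = 0 := by
        rw [xcent_mul, hg, ← xcent_XC, mulVec_mulVec, ← map_mul, mul_comm, ← hm', minpoly.aeval,
          zero_mulVec]
      have h2 := hv _ h1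
      rw [hm', mul_comm m' g] at h2
      exact (mul_dvd_mul_iff_right hm0).1 h2
    have hm1 : m'.Monic := (monic_X_sub_C a).of_mul_monic_left
      (hm' ▸ minpoly.monic (isIntegral x))
    have h2 := modByMonic_add_div g1 m'
    have h3 : (g1 %ₘ m').natDegree = 0 := by
      have := natDegree_modByMonic_lt g1 hm1 (fun h => by simp [h] at hmd)
      omega
    refine ⟨(g1 %ₘ m').coeff 0, ?_⟩
    rw [← hg]
    conv_lhs => rw [← h2, mul_add, map_add, ← mul_assoc, ← hm', xcent_dvd x v (dvd_mul_right _ _),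
      add_zero, eq_C_of_natDegree_eq_zero h3, xcent_mul, xcent_C, mulVec_smul, xcent_XC]
  choose c hc using hcol
  refine ⟨a, x *ᵥ v - a • v, fun j => c (Pi.single j 1), ?_⟩
  ext i j
  have := congrFun (hc (Pi.single j 1)) i
  simp only [mulVec_single_one, Pi.sub_apply, col_apply, Pi.smul_apply, smul_eq_mul] at this
  simp only [Matrix.add_apply, Matrix.smul_apply, vecMulVec_apply, Matrix.one_apply,
    Pi.sub_apply, Pi.smul_apply,
    smul_eq_mul]
  rw [Pi.single_apply] at this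
  linear_combination this

end Pool.Agent.MP_8299d6_al.Up

end
end

section

open Matrix

noncomputable section

namespace Pool.Agent.MP_8299d6_al.Up

open Pool.Agent.MP_810665_al (IrrChar)
open Polynomial

theorem xlw1_cc_nonneg {M : Type} [Ring M] (B : M) : 0 ≤ cc B := by
  unfold cc
  positivity

theorem xlw1_card (p : ℕ) [Fact p.Prime] : Nat.card (Mat 4 (ZMod p)) = p ^ 16 := by
  rw [Module.natCard_eq_pow_finrank (K := ZMod p), Nat.card_zmod, fl_finrank_mat]
  norm_num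

theorem xlw1_ut_nonneg (p : ℕ) [Fact p.Prime] (σ : ℝ) (h : Subring (Mat 4 (ZMod p))) :
    0 ≤ ut p σ h := by
  unfold ut
  split_ifs <;> positivity

theorem xlw1_ut_le (p : ℕ) [Fact p.Prime] (σ : ℝ) (B : Mat 4 (ZMod p)) :
    ut p σ (cent B) ≤ (p : ℝ) ^ 4 * cc B ^ σ := by
  have hp1 : (1 : ℝ) ≤ p := by exact_mod_cast (Fact.out : p.Prime).one_le
  have hp0 : (0 : ℝ) < p := lt_of_lt_of_le one_pos hp1
  unfold ut
  split_ifs with hB
  · have h1 : cc B = (p : ℝ) ^ (-6 : ℝ) := by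
      rw [cc, big_card hB, xlw1_card, Real.rpow_neg hp0.le]
      push_cast
      rw [show (6 : ℝ) = ((6 : ℕ) : ℝ) by norm_num, Real.rpow_natCast]
      field_simp
    rw [h1, ← Real.rpow_mul hp0.le, ← Real.rpow_natCast, ← Real.rpow_add hp0]
    refine Real.rpow_le_rpow_of_exponent_le hp1 ?_
    push_cast
    linarith
  · rw [cc, xlw1_card]
    push_cast
    exact le_rfl

/-- the contribution of a family of matrices with a controlled annihilating polynomial -/
theorem xlw1_gen {p : ℕ} [Fact p.Prime] (hp : 8 ≤ p) {k : ℕ}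
    (c : (ZMod p)[X] → Mat 4 (ZMod p) → Fin k)
    (hc : ∀ μ : (ZMod p)[X], μ ≠ 0 → μ.natDegree ≤ 4 → ∀ x y : Mat 4 (ZMod p), aeval x μ = 0 →
      aeval y μ = 0 → c μ x = c μ y → ∃ g : (Mat 4 (ZMod p))ˣ, (g : Mat 4 (ZMod p)) * x = y * g)
    {σ : ℝ} (hσ : 0 < σ) (T : Finset (Mat 4 (ZMod p))) {e : ℕ}
    (key : Mat 4 (ZMod p) → Fin e → ZMod p) (μ : Mat 4 (ZMod p) → (ZMod p)[X])
    (hμ : ∀ B ∈ T, μ B ≠ 0 ∧ (μ B).natDegree ≤ 4 ∧ aeval B (μ B) = 0)
    (hkey : ∀ B ∈ T, ∀ B' ∈ T, key B = key B' → μ B = μ B')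
    {x : ℝ} (hx : (e : ℝ) + x ≤ 5 - 12 * σ)
    (hu : ∀ B ∈ T, ut p σ (cent B) * cc B ^ σ ≤ (p : ℝ) ^ x) :
    ∑ B ∈ T, ut p σ (cent B) * cc B ^ (1 + σ) ≤ 2 * k * (p : ℝ) ^ (5 - 12 * σ) := by
  classical
  have hp1 : (1 : ℝ) ≤ p := by exact_mod_cast (Fact.out : p.Prime).one_le
  have hp0 : (0 : ℝ) < p := lt_of_lt_of_le one_pos hp1
  refine le_trans (fl_fiber T (fun B => (key B, c (μ B) B)) _ (a := 2 * (p : ℝ) ^ x)
    (by positivity) fun B hB => ?_) ?_
  · have hcc := xlw1_cc_nonneg B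
    suffices H : ∀ S : Finset (Mat 4 (ZMod p)), (S : Set (Mat 4 (ZMod p))) ⊆ orb B →
        ut p σ (cent B) * cc B ^ (1 + σ) * S.card ≤ 2 * (p : ℝ) ^ x by
      refine H _ fun B' hB' => ?_
      obtain ⟨h3, h4⟩ := Finset.mem_filter.1 (Finset.mem_coe.1 hB')
      have h6 : μ B' = μ B := hkey B' h3 B hB (congrArg Prod.fst h4)
      have h7 : c (μ B') B' = c (μ B) B := congrArg Prod.snd h4
      rw [h6] at h7
      obtain ⟨g, hg⟩ := hc _ (hμ B hB).1 (hμ B hB).2.1 B B' (hμ B hB).2.2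
        (by rw [← h6]; exact (hμ B' h3).2.2) h7.symm
      exact ⟨g, by rw [cj, hg, Units.mul_inv_cancel_right]⟩
    intro S h2
    have h3 : (S.card : ℝ) ≤ (orb B).ncard := by
      rw [← Set.ncard_coe_finset]
      exact_mod_cast Set.ncard_le_ncard h2
    have h4 : cc B * S.card ≤ 2 :=
      le_trans (mul_le_mul_of_nonneg_left h3 hcc) (fl_cc_orb (by omega) B)
    have h5 := xlw1_ut_nonneg p σ (cent B)
    rw [Real.rpow_add' hcc (by linarith), Real.rpow_one]
    calc _ = (cc B * S.card) * (ut p σ (cent B) * cc B ^ σ) := by ring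
      _ ≤ _ := mul_le_mul h4 (hu B hB) (by positivity) (by norm_num)
  · have h1 : (p : ℝ) ^ e * (p : ℝ) ^ x ≤ (p : ℝ) ^ (5 - 12 * σ) := by
      rw [← Real.rpow_natCast, ← Real.rpow_add hp0]
      exact Real.rpow_le_rpow_of_exponent_le hp1 hx
    simp only [Fintype.card_prod, Fintype.card_pi, ZMod.card, Finset.prod_const, Finset.card_univ,
      Fintype.card_fin]
    push_cast
    calc _ = 2 * k * ((p : ℝ) ^ e * (p : ℝ) ^ x) := by ring
      _ ≤ _ := mul_le_mul_of_nonneg_left h1 (by positivity)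

theorem xlw1_pow {p : ℕ} [Fact p.Prime] {σ : ℝ} (hσ : 0 < σ) (B : Mat 4 (ZMod p)) {D : ℕ}
    (h : Module.finrank (ZMod p) (Subalgebra.centralizer (ZMod p) {B}) + D ≤ 4 ^ 2) :
    cc B ^ σ ≤ (p : ℝ) ^ (-(D * σ)) := by
  have hp0 : (0 : ℝ) < p := by exact_mod_cast (Fact.out : p.Prime).pos
  refine le_trans (Real.rpow_le_rpow (xlw1_cc_nonneg B) (fl_cc_le B h) hσ.le) (le_of_eq ?_)
  rw [← Real.rpow_mul hp0.le]
  congr 1
  ring

theorem xlw1_two {p : ℕ} [Fact p.Prime] {σ : ℝ} (hσ : 0 < σ) (B : Mat 4 (ZMod p)) {D : ℕ}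
    (h : Module.finrank (ZMod p) (Subalgebra.centralizer (ZMod p) {B}) + D ≤ 4 ^ 2) :
    ut p σ (cent B) * cc B ^ σ ≤ (p : ℝ) ^ (4 - 2 * D * σ) := by
  have hp0 : (0 : ℝ) < p := by exact_mod_cast (Fact.out : p.Prime).pos
  have h1 := xlw1_pow hσ B h
  have h2 := xlw1_cc_nonneg B
  calc _ ≤ ((p : ℝ) ^ 4 * (p : ℝ) ^ (-(D * σ))) * (p : ℝ) ^ (-(D * σ)) :=
        mul_le_mul (le_trans (xlw1_ut_le p σ B) (mul_le_mul_of_nonneg_left h1 (by positivity)))
          h1 (by positivity) (by positivity)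
    _ = _ := by
        rw [← Real.rpow_natCast, ← Real.rpow_add hp0, ← Real.rpow_add hp0]
        congr 1
        push_cast
        ring

theorem xlw1_big {F : Type} [Field F] (a : F) (v ξ : Fin 4 → F) (h : ξ ⬝ᵥ v ≠ 0) :
    Big (cent (a • (1 : Mat 4 F) + vecMulVec v ξ)) := by
  refine ⟨(ξ ⬝ᵥ v)⁻¹ • v, ξ, by simp [h], ?_⟩
  ext x
  simp only [cent, Subring.mem_centralizer_iff, Set.mem_singleton_iff, forall_eq,
    smul_vecMulVec, add_mul, mul_add, smul_mul_assoc, mul_smul_comm, one_mul, mul_one,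
    add_right_inj]
  exact ⟨fun h1 => by rw [h1], fun h1 => smul_right_injective _ (inv_ne_zero h) h1⟩

/-- the five kinds of matrices -/
theorem xlw1_cases {F : Type} [Field F] {B : Mat 4 F} (hB : ¬ IsScal B) :
    (minpoly F B).natDegree = 4 ∨ (minpoly F B).natDegree = 3 ∨
      ((minpoly F B).natDegree = 2 ∧ Module.finrank F (Subalgebra.centralizer F {B}) ≤ 8) ∨
      ((minpoly F B).natDegree = 2 ∧ Big (cent B)) ∨ ∃ a : F, aeval B ((X - C a) ^ 2) = 0 := by
  have h4 := fl_minpoly_le B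
  have h0 : 0 < (minpoly F B).natDegree := minpoly.natDegree_pos (isIntegral B)
  have h1 : (minpoly F B).natDegree ≠ 1 := fun h => by
    obtain ⟨a, ha⟩ := minpoly.natDegree_eq_one_iff.1 h
    exact hB ⟨a, by rw [← ha, Algebra.algebraMap_eq_smul_one]⟩
  by_cases e4 : (minpoly F B).natDegree = 4
  · exact Or.inl e4
  by_cases e3 : (minpoly F B).natDegree = 3
  · exact Or.inr (Or.inl e3)
  have e2 : (minpoly F B).natDegree = 2 := by omega
  rcases cent_two e2 with h | ⟨a, v, ξ, h⟩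
  · exact Or.inr (Or.inr (Or.inl ⟨e2, h⟩))
  by_cases hv : ξ ⬝ᵥ v = 0
  · refine Or.inr (Or.inr (Or.inr (Or.inr ⟨a, ?_⟩)))
    rw [map_pow, map_sub, aeval_X, aeval_C, Algebra.algebraMap_eq_smul_one, h,
      add_sub_cancel_left, pow_two, vecMulVec_mul_vecMulVec, hv]
    simp
  · refine Or.inr (Or.inr (Or.inr (Or.inl ⟨e2, ?_⟩)))
    rw [h]
    exact xlw1_big a v ξ hv

theorem xlw1_or {X : Type} (f : X → ℝ) (R P Q : X → Prop) {a b : ℝ}
    (hP : ∀ T : Finset X, (∀ x ∈ T, R x ∧ P x) → ∑ x ∈ T, f x ≤ a)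
    (hQ : ∀ T : Finset X, (∀ x ∈ T, R x ∧ Q x) → ∑ x ∈ T, f x ≤ b)
    (T : Finset X) (hT : ∀ x ∈ T, R x ∧ (P x ∨ Q x)) : ∑ x ∈ T, f x ≤ a + b := by
  classical
  rw [← Finset.sum_filter_add_sum_filter_not T P]
  refine add_le_add (hP _ fun x hx => ?_) (hQ _ fun x hx => ?_)
  · obtain ⟨h1, h2⟩ := Finset.mem_filter.1 hx
    exact ⟨(hT x h1).1, h2⟩
  · obtain ⟨h1, h2⟩ := Finset.mem_filter.1 hx
    exact ⟨(hT x h1).1, (hT x h1).2.resolve_left h2⟩

/-- the weighted sum over the residue field -/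
theorem first_u : ∃ C : ℝ, ∀ (p : ℕ) [Fact p.Prime], 8 ≤ p → ∀ σ : ℝ, 1 / 4 ≤ σ →
    sumOn {B : Mat 4 (ZMod p) | ¬ IsScal B} (fun B => ut p σ (cent B) * cc B ^ (1 + σ))
      ≤ C * (p : ℝ) ^ (5 - 12 * σ) := by
  classical
  obtain ⟨k, hk⟩ := fl_color 4
  refine ⟨5 * (2 * k), fun p _ hp σ hσ => ?_⟩
  obtain ⟨c, hc⟩ := hk (ZMod p)
  have hσ0 : 0 < σ := by linarith
  have hp0 : (0 : ℝ) < p := by exact_mod_cast (Fact.out : p.Prime).pos
  have hdeg : ∀ (d : ℕ) (x : ℝ), (d : ℝ) + x ≤ 5 - 12 * σ → ∀ T : Finset (Mat 4 (ZMod p)),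
      (∀ B ∈ T, (minpoly (ZMod p) B).natDegree = d) →
      (∀ B ∈ T, ut p σ (cent B) * cc B ^ σ ≤ (p : ℝ) ^ x) →
      ∑ B ∈ T, ut p σ (cent B) * cc B ^ (1 + σ) ≤ 2 * k * (p : ℝ) ^ (5 - 12 * σ) :=
    fun d x hx T h1 h2 => xlw1_gen hp c hc hσ0 T
      (fun B => fun j : Fin d => (minpoly (ZMod p) B).coeff j) (fun B => minpoly (ZMod p) B)
      (fun B _ => ⟨minpoly.ne_zero (isIntegral B), fl_minpoly_le B, minpoly.aeval _ _⟩)
      (fun B hB B' hB' h => fl_monic_ext (minpoly.monic (isIntegral B))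
        (minpoly.monic (isIntegral B')) (h1 B hB) (h1 B' hB') h) hx h2
  have k1 : ∀ T : Finset (Mat 4 (ZMod p)),
      (∀ B ∈ T, ¬ IsScal B ∧ (minpoly (ZMod p) B).natDegree = 4) →
      ∑ B ∈ T, ut p σ (cent B) * cc B ^ (1 + σ) ≤ 2 * k * (p : ℝ) ^ (5 - 12 * σ) := fun T hT =>
    hdeg 4 (4 - 2 * (12 : ℕ) * σ) (by push_cast; linarith) T (fun B hB => (hT B hB).2)
      fun B hB => xlw1_two hσ0 B (by
        have h1 := rank_ad_deg B
        rw [(hT B hB).2] at h1
        omega)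
  have k2 : ∀ T : Finset (Mat 4 (ZMod p)),
      (∀ B ∈ T, ¬ IsScal B ∧ (minpoly (ZMod p) B).natDegree = 3) →
      ∑ B ∈ T, ut p σ (cent B) * cc B ^ (1 + σ) ≤ 2 * k * (p : ℝ) ^ (5 - 12 * σ) := fun T hT =>
    hdeg 3 (4 - 2 * (10 : ℕ) * σ) (by push_cast; linarith) T (fun B hB => (hT B hB).2)
      fun B hB => xlw1_two hσ0 B (by
        have h1 := cent_three (hT B hB).2
        omega)
  have k3 : ∀ T : Finset (Mat 4 (ZMod p)),
      (∀ B ∈ T, ¬ IsScal B ∧ ((minpoly (ZMod p) B).natDegree = 2 ∧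
        Module.finrank (ZMod p) (Subalgebra.centralizer (ZMod p) {B}) ≤ 8)) →
      ∑ B ∈ T, ut p σ (cent B) * cc B ^ (1 + σ) ≤ 2 * k * (p : ℝ) ^ (5 - 12 * σ) := fun T hT =>
    hdeg 2 (4 - 2 * (8 : ℕ) * σ) (by push_cast; linarith) T (fun B hB => (hT B hB).2.1)
      fun B hB => xlw1_two hσ0 B (by
        have h1 := (hT B hB).2.2
        omega)
  have k4 : ∀ T : Finset (Mat 4 (ZMod p)),
      (∀ B ∈ T, ¬ IsScal B ∧ ((minpoly (ZMod p) B).natDegree = 2 ∧ Big (cent B))) →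
      ∑ B ∈ T, ut p σ (cent B) * cc B ^ (1 + σ) ≤ 2 * k * (p : ℝ) ^ (5 - 12 * σ) := fun T hT =>
    hdeg 2 (3 - 12 * σ) (by push_cast; linarith) T (fun B hB => (hT B hB).2.1)
      fun B hB => by
        have h1 := xlw1_pow hσ0 B (D := 6) (by
          have h1 := rank_ad_two B (hT B hB).1
          omega)
        rw [ut, if_pos (hT B hB).2.2]
        refine le_trans (mul_le_mul_of_nonneg_left h1 (by positivity)) (le_of_eq ?_)
        rw [← Real.rpow_add hp0]
        congr 1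
        push_cast
        ring
  have k5 : ∀ T : Finset (Mat 4 (ZMod p)),
      (∀ B ∈ T, ¬ IsScal B ∧ ∃ a : ZMod p, aeval B ((X - C a) ^ 2) = 0) →
      ∑ B ∈ T, ut p σ (cent B) * cc B ^ (1 + σ) ≤ 2 * k * (p : ℝ) ^ (5 - 12 * σ) := fun T hT => by
    have h0 : ∀ B : Mat 4 (ZMod p), ∃ a : ZMod p, B ∈ T → aeval B ((X - C a) ^ 2) = 0 :=
      fun B => by
        by_cases hB : B ∈ T
        · obtain ⟨a, ha⟩ := (hT B hB).2
          exact ⟨a, fun _ => ha⟩
        · exact ⟨0, fun h => absurd h hB⟩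
    choose a ha using h0
    refine xlw1_gen hp c hc hσ0 T (e := 1) (fun B _ => a B) (fun B => (X - C (a B)) ^ 2)
      (fun B hB => ⟨pow_ne_zero _ (X_sub_C_ne_zero _), ?_, ha B hB⟩)
      (fun B _ B' _ h => by rw [show a B = a B' from congrFun h 0])
      (x := 4 - 2 * (6 : ℕ) * σ) (by push_cast; linarith)
      fun B hB => xlw1_two hσ0 B (by
        have h1 := rank_ad_two B (hT B hB).1
        omega)
    rw [natDegree_pow, natDegree_X_sub_C]
    norm_num
  have H := xlw1_or _ _ _ _ k1 (xlw1_or _ _ _ _ k2 (xlw1_or _ _ _ _ k3 (xlw1_or _ _ _ _ k4 k5)))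
  unfold sumOn
  refine le_trans (H _ fun B hB => ?_) (le_of_eq (by ring))
  have h1 : ¬ IsScal B := by simpa using hB
  exact ⟨h1, xlw1_cases h1⟩

end Pool.Agent.MP_8299d6_al.Up

end
end

section

open Matrix
open Classical Finset

noncomputable section

namespace Pool.Agent.MP_8299d6_al.Up

open Pool.Agent.MP_810665_al (IrrChar)

/-- the weight used for a fixed prime -/
def xlw2w (p m : ℕ) (K t : ℝ) (A : Mat 4 (ZMod (p ^ (m + 1)))) : ℝ :=
  cc A ^ t * K ^ Nat.card (sh 4 p m A)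

lemma xlw2_nonneg {p : ℕ} (m : ℕ) {K : ℝ} (hK : 1 ≤ K) (t : ℝ)
    (A : Mat 4 (ZMod (p ^ (m + 1)))) : 0 ≤ xlw2w p m K t A :=
  mul_nonneg (lv3_pow_nonneg A t) (by positivity)

lemma xlw2_le {p : ℕ} [Fact p.Prime] (m : ℕ) {K t : ℝ} (hK : 1 ≤ K) (ht : 0 ≤ t)
    (A : Mat 4 (ZMod (p ^ (m + 1)))) : xlw2w p m K t A ≤ K ^ (p ^ (4 ^ 2)) :=
  (mul_le_of_le_one_left (by positivity)
    (Real.rpow_le_one (lv3_cc_nonneg A) (lv3_cc_le_one A) ht)).trans
    (pow_le_pow_right₀ hK (lv3_sh_le m A))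

lemma xlw2_lift {p : ℕ} [Fact p.Prime] (m : ℕ) (A : Mat 4 (ZMod (p ^ (m + 1))))
    (hA : ¬ IsScal A) {K σ : ℝ} (hK : 1 ≤ K) (hσ : 1 / 3 ≤ σ) :
    ∑ A' ∈ univ.filter (fun A' => redM 4 p (m + 1) A' = A), xlw2w p (m + 1) K (1 + σ) A' ≤
      ((p : ℝ) ^ (3 - 6 * σ) + (p : ℝ) ^ 16 / K) * xlw2w p m K (1 + σ) A := by
  have hp : (0 : ℝ) < p := by exact_mod_cast (Fact.out : p.Prime).pos
  have h0 := xlw2_nonneg m hK (1 + σ) A
  have h0' := lv3_pow_nonneg A (1 + σ)
  have hr : 0 ≤ (p : ℝ) ^ (3 - 6 * σ) := Real.rpow_nonneg hp.le _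
  rw [← sum_filter_add_sum_filter_not _ (fun A' => sh 4 p (m + 1) A' = sh 4 p m A), filter_filter,
    add_mul]
  refine add_le_add ?_ ?_
  · have h1 : ((univ.filter (fun A' => redM 4 p (m + 1) A' = A ∧
        sh 4 p (m + 1) A' = sh 4 p m A)).card : ℝ) * (Nat.card (commS (sh 4 p m A)) : ℝ) ≤
        (p : ℝ) ^ 16 := by exact_mod_cast card_stay m A
    refine (sum_le_card_nsmul _ _ ((p : ℝ) ^ (3 - 6 * σ) * xlw2w p m K (1 + σ) A *
      ((Nat.card (commS (sh 4 p m A)) : ℝ) / (p : ℝ) ^ 16)) ?_).trans ?_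
    · intro A' hA'
      obtain ⟨e1, e2⟩ := (mem_filter.1 hA').2
      have h2 := cc_step2 (m + 1) A' (fun h => hA (e1 ▸ lv3_scal_red h)) hσ
      rw [e1, e2] at h2
      rw [xlw2w, xlw2w, e2]
      refine (mul_le_mul_of_nonneg_right h2 (by positivity)).trans (le_of_eq ?_)
      ring
    · rw [nsmul_eq_mul, mul_left_comm, ← mul_div_assoc]
      exact mul_le_of_le_one_right (mul_nonneg hr h0) (div_le_one_of_le₀ h1 (by positivity))
  · refine (sum_le_card_nsmul _ _ (xlw2w p m K (1 + σ) A / K) ?_).trans ?_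
    · intro A' hA'
      obtain ⟨e1, e2⟩ := mem_filter.1 hA'
      have e1 := (mem_filter.1 e1).2
      have h1 : sh 4 p (m + 1) A' < sh 4 p m A := lt_of_le_of_ne (e1 ▸ sh_le m A') e2
      have h2 : Nat.card (sh 4 p (m + 1) A') < Nat.card (sh 4 p m A) :=
        Set.Finite.card_lt_card (Set.toFinite _) (SetLike.coe_ssubset_coe.2 h1)
      rw [le_div_iff₀ (by positivity), xlw2w, xlw2w, lv3_step, e1, mul_assoc, ← pow_succ]
      refine mul_le_mul (mul_le_of_le_one_right h0' (Real.rpow_le_one (by positivity)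
        (lv3_ratio_le _ _) (by linarith))) (pow_le_pow_right₀ hK h2) (by positivity) h0'
    · have h1 : (((univ.filter (fun A' => redM 4 p (m + 1) A' = A)).filter
          (fun A' => ¬ sh 4 p (m + 1) A' = sh 4 p m A)).card : ℝ) ≤ (p : ℝ) ^ 16 := by
        exact_mod_cast (card_filter_le _ _).trans (card_fiber (m + 1) A).le
      rw [nsmul_eq_mul]
      refine (mul_le_mul_of_nonneg_right h1 (by positivity)).trans (le_of_eq ?_)
      field_simp

lemma xlw2_sum {p : ℕ} [Fact p.Prime] {K σ : ℝ} (hK : 1 ≤ K) (hσ : 1 / 3 ≤ σ)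
    (hρ : (p : ℝ) ^ (3 - 6 * σ) + (p : ℝ) ^ 16 / K < p) :
    ∃ C : ℝ, ∀ m : ℕ, ∑ A, xlw2w p m K (1 + σ) A ≤ C * (p : ℝ) ^ (m + 1) := by
  have hp : (2 : ℝ) ≤ p := by exact_mod_cast (Fact.out : p.Prime).two_le
  have hρ0 : 0 ≤ (p : ℝ) ^ (3 - 6 * σ) + (p : ℝ) ^ 16 / K := by positivity
  have lift := fun (m : ℕ) (A : Mat 4 (ZMod (p ^ (m + 1)))) (hA : ¬ IsScal A) =>
    xlw2_lift m A hA hK hσ
  generalize (p : ℝ) ^ (3 - 6 * σ) + (p : ℝ) ^ 16 / K = ρ at hρ hρ0 lift
  have fib : ∀ (j : ℕ) (A : Mat 4 (ZMod (p ^ j))),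
      ∑ A' ∈ univ.filter (fun A' => redM 4 p j A' = A), xlw2w p j K (1 + σ) A' ≤
        (p : ℝ) ^ (4 ^ 2) * K ^ (p ^ (4 ^ 2)) := by
    intro j A
    refine (sum_le_card_nsmul _ _ _ fun A' _ => xlw2_le j hK (by linarith) A').trans (le_of_eq ?_)
    rw [card_fiber, nsmul_eq_mul]
    push_cast
    rfl
  have hB : 0 ≤ (p : ℝ) ^ (4 ^ 2) * K ^ (p ^ (4 ^ 2)) := by positivity
  generalize (p : ℝ) ^ (4 ^ 2) * K ^ (p ^ (4 ^ 2)) = B at fib hB
  have sc : ∀ j : ℕ, ∑ A ∈ univ.filter (fun A : Mat 4 (ZMod (p ^ j)) => IsScal A),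
      ∑ A' ∈ univ.filter (fun A' => redM 4 p j A' = A), xlw2w p j K (1 + σ) A' ≤
        (p : ℝ) ^ j * B := by
    intro j
    refine (sum_le_card_nsmul _ _ _ fun A _ => fib j A).trans ?_
    rw [nsmul_eq_mul]
    exact mul_le_mul_of_nonneg_right (by exact_mod_cast card_scal j) hB
  have hd : 0 < (p : ℝ) - ρ := by linarith
  obtain ⟨C, hC1, hC2⟩ : ∃ C : ℝ, B ≤ C ∧ B + ρ * C ≤ C * p := by
    refine ⟨B / (p - ρ) + B, le_add_of_nonneg_left (by positivity), ?_⟩
    have e : B / (p - ρ) * (p - ρ) = B := div_mul_cancel₀ _ hd.ne'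
    have := mul_nonneg hB hd.le
    nlinarith
  refine ⟨C, fun m => ?_⟩
  induction m with
  | zero =>
    have := sc 0
    rw [filter_true_of_mem fun A _ => lv3_zero A, sum_fiberwise] at this
    simp only [pow_zero, zero_add, pow_one] at this ⊢
    nlinarith
  | succ m ih =>
    rw [← sum_fiberwise univ (redM 4 p (m + 1)), ← sum_filter_add_sum_filter_not _ IsScal]
    have a1 := sc (m + 1)
    have a2 : ∑ A ∈ univ.filter (fun A : Mat 4 (ZMod (p ^ (m + 1))) => ¬ IsScal A),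
        ∑ A' ∈ univ.filter (fun A' => redM 4 p (m + 1) A' = A), xlw2w p (m + 1) K (1 + σ) A' ≤
        ρ * ∑ A, xlw2w p m K (1 + σ) A := by
      rw [mul_sum]
      refine (sum_le_sum fun A hA => lift m A (mem_filter.1 hA).2).trans
        (sum_le_sum_of_subset_of_nonneg (filter_subset _ _) fun A _ _ => ?_)
      exact mul_nonneg hρ0 (xlw2_nonneg m hK _ A)
    have a3 := mul_le_mul_of_nonneg_left ih hρ0
    have a4 := mul_le_mul_of_nonneg_right hC2 (show 0 ≤ (p : ℝ) ^ (m + 1) by positivity)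
    rw [pow_succ (p : ℝ) (m + 1)]
    nlinarith

theorem first_level2 {n p : ℕ} [Fact p.Prime] (m : ℕ) (t : ℝ) (f : Subring (Mat n (ZMod p)) → ℝ)
    (hf : ∀ h, 0 ≤ f h) :
    sumOn {A : Mat n (ZMod (p ^ (m + 1))) | ¬ IsScal A ∧ IsScal (redM n p m A)}
        (fun A => f (sh n p m A) * cc A ^ t)
      ≤ (p : ℝ) ^ m * sumOn {B : Mat n (ZMod p) | ¬ IsScal B} (fun B => f (cent B) * cc B ^ t) := by
  have hc : ∀ (a : ZMod (p ^ (m + 1))) (B : Mat n (ZMod p)),
      IsScal (redM n p m (a • 1 + lv1up m B)) := fun a B => by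
    rw [lv1_lift.2 ⟨B, rfl⟩]
    exact lv3_scal_red ⟨a, rfl⟩
  refine (lv1_sumOn _ {B : Mat n (ZMod p) | ¬ IsScal B} _ (fun B => f (cent B) * cc B ^ t)
    (fun (a : ZMod (p ^ m)) B => (a.val : ZMod (p ^ (m + 1))) • 1 + lv1up m B)
    (fun A => mul_nonneg (hf _) (lv3_pow_nonneg A t))
    (fun a B => ?_) ?_).trans (le_of_eq (by rw [ZMod.card, Nat.cast_pow]))
  · have e : cc ((a.val : ZMod (p ^ (m + 1))) • 1 + lv1up m B) = cc B := by
      rw [cc_step, lv1_cc_scal (hc _ _), lv1_sh, one_mul, cc, lv1_card, Nat.cast_pow]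
    show f (sh n p m _) * cc _ ^ t = _
    rw [e, lv1_sh]
  · rintro A ⟨h1, a, h2⟩
    obtain ⟨B, rfl⟩ := (lv1_lift (A := (a.val : ZMod (p ^ (m + 1))) • 1) (A' := A)).1 (by
      rw [h2, Nat.cast_smul_eq_nsmul, map_nsmul, map_one, ← Nat.cast_smul_eq_nsmul (ZMod (p ^ m)),
        ZMod.natCast_zmod_val])
    refine ⟨a, B, ?_, rfl⟩
    rintro ⟨c, hc'⟩
    obtain ⟨b, hb⟩ := lv1_redP_smul (n := n) (m := m) c
    refine h1 ⟨a.val + (p : ZMod (p ^ (m + 1))) ^ m * b, ?_⟩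
    rw [hc', ← hb, lv1up_red, add_smul, mul_smul]

theorem lift_sum (n : ℕ) : ∃ C : ℝ, 0 ≤ C ∧ ∀ (p : ℕ) [Fact p.Prime] (m : ℕ)
    (A : Mat n (ZMod (p ^ (m + 1)))),
    ∑ A' ∈ univ.filter (fun A' => redM n p (m + 1) A' = A),
      (Nat.card (commS (sh n p (m + 1) A')) : ℝ) / (p : ℝ) ^ (n ^ 2) ≤ C := by
  obtain ⟨C, hC⟩ := card_drop n
  refine ⟨(n ^ 2 + 1 : ℕ) * C, by positivity, fun p _ m A => ?_⟩
  have hp : (0 : ℝ) < p := by exact_mod_cast (Fact.out : p.Prime).pos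
  calc _ ≤ ∑ A' ∈ univ.filter (fun A' => redM n p (m + 1) A' = A), ∑ e ∈ range (n ^ 2 + 1),
        if p ^ (n ^ 2) ≤ p ^ e * Nat.card (commS (sh n p (m + 1) A')) then
          1 / (p : ℝ) ^ e else 0 := by
        refine sum_le_sum fun A' _ => ?_
        obtain ⟨c, hc, ec⟩ := lv3_pow (commS (sh n p (m + 1) A'))
        refine le_trans ?_ (single_le_sum (f := fun e =>
          if p ^ (n ^ 2) ≤ p ^ e * Nat.card (commS (sh n p (m + 1) A')) then
            1 / (p : ℝ) ^ e else 0) (fun e _ => by positivity)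
          (a := n ^ 2 - c) (mem_range.2 (by omega)))
        rw [if_pos (by rw [ec, ← pow_add, Nat.sub_add_cancel hc])]
        refine le_of_eq ?_
        rw [ec, pow_sub₀ _ hp.ne' hc]
        push_cast
        field_simp
    _ = ∑ e ∈ range (n ^ 2 + 1), ((univ.filter (fun A' => redM n p (m + 1) A' = A ∧
        p ^ (n ^ 2) ≤ p ^ e * Nat.card (commS (sh n p (m + 1) A')))).card : ℝ) *
          (1 / (p : ℝ) ^ e) := by
        rw [sum_comm]
        refine sum_congr rfl fun e _ => ?_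
        rw [← sum_filter, filter_filter, sum_const, nsmul_eq_mul]
    _ ≤ ∑ e ∈ range (n ^ 2 + 1), (C : ℝ) := by
        refine sum_le_sum fun e _ => ?_
        have h1 : ((univ.filter (fun A' => redM n p (m + 1) A' = A ∧
            p ^ (n ^ 2) ≤ p ^ e * Nat.card (commS (sh n p (m + 1) A')))).card : ℝ) ≤
            C * (p : ℝ) ^ e := by exact_mod_cast hC p m A e
        refine (mul_le_mul_of_nonneg_right h1 (by positivity)).trans (le_of_eq ?_)
        field_simp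
    _ = _ := by rw [sum_const, card_range, nsmul_eq_mul]

theorem level_small2 (p : ℕ) [Fact p.Prime] {σ : ℝ} (hσ : 1 / 3 < σ) : ∃ C : ℝ, ∀ m : ℕ,
    ∑ A : Mat 4 (ZMod (p ^ (m + 1))), cc A ^ (1 + σ) ≤ C * (p : ℝ) ^ (m + 1) := by
  have hp : (1 : ℝ) < p := by exact_mod_cast (Fact.out : p.Prime).one_lt
  have hr : (p : ℝ) ^ (3 - 6 * σ) < p := by
    conv_rhs => rw [← Real.rpow_one (p : ℝ)]
    exact Real.rpow_lt_rpow_of_exponent_lt hp (by linarith)
  have hr0 : 0 < (p : ℝ) ^ (3 - 6 * σ) := Real.rpow_pos_of_pos (by linarith) _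
  have hd : 0 < (p : ℝ) - (p : ℝ) ^ (3 - 6 * σ) := by linarith
  have h16 : (p : ℝ) ≤ (p : ℝ) ^ 16 := le_self_pow₀ hp.le (by norm_num)
  have hK : 1 ≤ 2 * (p : ℝ) ^ 16 / ((p : ℝ) - (p : ℝ) ^ (3 - 6 * σ)) := by
    rw [le_div_iff₀ hd]
    linarith
  obtain ⟨C, hC⟩ := xlw2_sum (p := p) hK hσ.le (by
    have e : (p : ℝ) ^ 16 / (2 * (p : ℝ) ^ 16 / ((p : ℝ) - (p : ℝ) ^ (3 - 6 * σ))) =
        ((p : ℝ) - (p : ℝ) ^ (3 - 6 * σ)) / 2 := by
      field_simp
    rw [e]
    linarith)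
  refine ⟨C, fun m => le_trans (sum_le_sum fun A _ => ?_) (hC m)⟩
  exact le_mul_of_one_le_right (lv3_pow_nonneg A _) (one_le_pow₀ hK)

end Pool.Agent.MP_8299d6_al.Up

end
end

section

open Matrix

noncomputable section

namespace Pool.Agent.MP_8299d6_al.Up

open Pool.Agent.MP_810665_al (IrrChar)

section Aux

open Classical Finset

variable {p : ℕ} [Fact p.Prime]

lemma xlw3_lift (j : ℕ) {C : ℝ}
    (hC : ∀ A : Mat 4 (ZMod (p ^ (j + 1))),
      ∑ A' ∈ univ.filter (fun A' => redM 4 p (j + 1) A' = A),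
        (Nat.card (commS (sh 4 p (j + 1) A')) : ℝ) / (p : ℝ) ^ (4 ^ 2) ≤ C)
    (f : Mat 4 (ZMod (p ^ (j + 1 + 1))) → ℝ) (g : Mat 4 (ZMod (p ^ (j + 1))) → ℝ)
    (hg : ∀ A, 0 ≤ g A)
    (hf : ∀ B, ¬ IsScal (redM 4 p (j + 1) B) →
      f B ≤ (Nat.card (commS (sh 4 p (j + 1) B)) : ℝ) / (p : ℝ) ^ 16 * g (redM 4 p (j + 1) B)) :
    ∑ B ∈ univ.filter (fun B => ¬ IsScal (redM 4 p (j + 1) B)), f B ≤
      C * ∑ A ∈ univ.filter (fun A => ¬ IsScal A), g A := by
  calc _ = ∑ A ∈ univ.filter (fun A => ¬ IsScal A),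
        ∑ B ∈ univ.filter (fun B => redM 4 p (j + 1) B = A), f B := by
        rw [sum_fiberwise_eq_sum_filter]
        exact sum_congr (by ext; simp) fun _ _ => rfl
    _ ≤ ∑ A ∈ univ.filter (fun A : Mat 4 (ZMod (p ^ (j + 1))) => ¬ IsScal A), C * g A := by
        refine sum_le_sum fun A hA => ?_
        have hA' := (mem_filter.1 hA).2
        calc _ ≤ ∑ B ∈ univ.filter (fun B => redM 4 p (j + 1) B = A),
              (Nat.card (commS (sh 4 p (j + 1) B)) : ℝ) / (p : ℝ) ^ (4 ^ 2) * g A := by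
              refine sum_le_sum fun B hB => ?_
              have e := (mem_filter.1 hB).2
              have h1 := hf B (e ▸ hA')
              rw [e] at h1
              exact h1
          _ ≤ _ := by
              rw [← sum_mul]
              exact mul_le_mul_of_nonneg_right (hC A) (hg A)
    _ = _ := by rw [mul_sum]

/-- the weighted level sum -/
def xlw3U (p : ℕ) [Fact p.Prime] (σ : ℝ) (j : ℕ) : ℝ :=
  ∑ A ∈ univ.filter (fun A : Mat 4 (ZMod (p ^ (j + 1))) => ¬ IsScal A),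
    ut p σ (sh 4 p j A) * cc A ^ (1 + σ)

lemma xlw3_split (σ : ℝ) (j : ℕ) : xlw3U p σ j ≤
    (p : ℝ) ^ j * sumOn {B : Mat 4 (ZMod p) | ¬ IsScal B}
      (fun B => ut p σ (cent B) * cc B ^ (1 + σ)) +
    ∑ A ∈ univ.filter (fun A => ¬ IsScal (redM 4 p j A)),
      ut p σ (sh 4 p j A) * cc A ^ (1 + σ) := by
  rw [xlw3U, ← sum_filter_add_sum_filter_not _ (fun A => IsScal (redM 4 p j A)), filter_filter,
    filter_filter]
  refine add_le_add (le_trans (le_of_eq ?_)
    (first_level2 j (1 + σ) (ut p σ) (ut_nonneg σ))) ?_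
  · exact sum_congr (by ext; simp) fun _ _ => rfl
  · exact sum_le_sum_of_subset_of_nonneg (monotone_filter_right _ fun A _ h => h.2)
      fun A _ _ => mul_nonneg (ut_nonneg σ _) (lv3_pow_nonneg A _)

lemma xlw3_bound (hp : 5 ≤ p) {σ C : ℝ} (hσ : 1 / 3 < σ)
    (hC : ∀ (j : ℕ) (A : Mat 4 (ZMod (p ^ (j + 1)))),
      ∑ A' ∈ univ.filter (fun A' => redM 4 p (j + 1) A' = A),
        (Nat.card (commS (sh 4 p (j + 1) A')) : ℝ) / (p : ℝ) ^ (4 ^ 2) ≤ C)
    (hpC : C * (p : ℝ) ^ (3 - 6 * σ) ≤ p / 2) (j : ℕ) :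
    xlw3U p σ j ≤ 2 * ((p : ℝ) ^ j * sumOn {B : Mat 4 (ZMod p) | ¬ IsScal B}
      (fun B => ut p σ (cent B) * cc B ^ (1 + σ))) := by
  have hp0 : (0 : ℝ) < p := by exact_mod_cast (Fact.out : p.Prime).pos
  have hΦ : 0 ≤ sumOn {B : Mat 4 (ZMod p) | ¬ IsScal B}
      (fun B => ut p σ (cent B) * cc B ^ (1 + σ)) :=
    sum_nonneg fun B _ => mul_nonneg (ut_nonneg σ _) (lv3_pow_nonneg B _)
  have hq : 0 ≤ (p : ℝ) ^ (3 - 6 * σ) := Real.rpow_nonneg hp0.le _
  induction j with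
  | zero =>
    have h1 := xlw3_split (p := p) σ 0
    rw [filter_false_of_mem fun A _ => not_not.2 (lv3_zero _), sum_empty] at h1
    have h2 := mul_nonneg (pow_nonneg hp0.le 0) hΦ
    linarith
  | succ j ih =>
    have h1 := xlw3_split (p := p) σ (j + 1)
    have h2 := xlw3_lift j (hC j) (fun B => ut p σ (sh 4 p (j + 1) B) * cc B ^ (1 + σ))
      (fun A => (p : ℝ) ^ (3 - 6 * σ) * (ut p σ (sh 4 p j A) * cc A ^ (1 + σ)))
      (fun A => mul_nonneg hq (mul_nonneg (ut_nonneg σ _) (lv3_pow_nonneg A _)))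
      (fun B hB => by
        have a1 := cc_step2 (j + 1) B (fun h => hB (lv3_scal_red h)) hσ.le
        have a2 := ut_mono hp j B hB (σ := σ) (by linarith)
        refine (mul_le_mul a2 a1 (lv3_pow_nonneg B _) (ut_nonneg σ _)).trans (le_of_eq ?_)
        ring)
    rw [← mul_sum] at h2
    have hU : 0 ≤ xlw3U p σ j :=
      sum_nonneg fun A _ => mul_nonneg (ut_nonneg σ _) (lv3_pow_nonneg A _)
    have h3 : C * ((p : ℝ) ^ (3 - 6 * σ) * xlw3U p σ j) ≤ p / 2 * xlw3U p σ j := by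
      rw [← mul_assoc]
      exact mul_le_mul_of_nonneg_right hpC hU
    have h4 := mul_le_mul_of_nonneg_left ih (half_pos hp0).le
    have h5 : ∑ A ∈ univ.filter (fun A => ¬ IsScal (redM 4 p (j + 1) A)),
        ut p σ (sh 4 p (j + 1) A) * cc A ^ (1 + σ) ≤
        C * ((p : ℝ) ^ (3 - 6 * σ) * xlw3U p σ j) := h2
    rw [pow_succ (p : ℝ) j] at h1 ⊢
    linarith

end Aux

lemma xlw3_big {σ : ℝ} (hσ : 1 / 3 < σ) (C : ℝ) : ∃ p₀ : ℕ, ∀ p : ℕ, p₀ ≤ p →
    C * (p : ℝ) ^ (3 - 6 * σ) ≤ p / 2 := by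
  have h1 : Filter.Tendsto (fun p : ℕ => (p : ℝ) ^ (6 * σ - 2)) Filter.atTop Filter.atTop :=
    (tendsto_rpow_atTop (by linarith)).comp tendsto_natCast_atTop_atTop
  obtain ⟨N, hN⟩ := Filter.eventually_atTop.1 (h1.eventually_ge_atTop (2 * C))
  refine ⟨max N 1, fun p hp => ?_⟩
  have hp0 : (0 : ℝ) < p := by exact_mod_cast (le_max_right _ _).trans hp
  have h2 := hN p ((le_max_left _ _).trans hp)
  have h3 : (p : ℝ) ^ (6 * σ - 2) * (p : ℝ) ^ (3 - 6 * σ) = p := by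
    rw [← Real.rpow_add hp0, show 6 * σ - 2 + (3 - 6 * σ) = 1 by ring, Real.rpow_one]
  have h4 := mul_le_mul_of_nonneg_right h2 (Real.rpow_nonneg hp0.le (3 - 6 * σ))
  linarith

theorem level_big2 {σ : ℝ} (hσ : 1 / 3 < σ) : ∃ (C : ℝ) (p₀ : ℕ), ∀ (p : ℕ) [Fact p.Prime],
    p₀ ≤ p → ∀ m : ℕ, sumOn (NS 4 _ ((p : ZMod (p ^ (m + 1))) ^ m))
      (fun A => wt p (sh 4 p m A) * cc A ^ (1 + σ)) ≤ C * (p : ℝ) ^ ((m : ℝ) + 4 - 12 * σ) := by
  classical
  obtain ⟨C, hC0, hC⟩ := lift_sum 4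
  obtain ⟨C₁, hC₁⟩ := first_u
  obtain ⟨N, hN⟩ := xlw3_big hσ C
  refine ⟨2 * C * max C₁ 0, max 8 N, fun p _ hp m => ?_⟩
  have hp0 : (0 : ℝ) < p := by exact_mod_cast (Fact.out : p.Prime).pos
  have hp8 : 8 ≤ p := (le_max_left _ _).trans hp
  have hM : 0 ≤ max C₁ 0 := le_max_right _ _
  have e : sumOn (NS 4 _ ((p : ZMod (p ^ (m + 1))) ^ m))
      (fun A => wt p (sh 4 p m A) * cc A ^ (1 + σ)) =
      ∑ A ∈ Finset.univ.filter (fun A => ¬ IsScal (redM 4 p m A)),
        wt p (sh 4 p m A) * cc A ^ (1 + σ) :=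
    Finset.sum_congr (by ext; simp [mem_NS_iff]) fun _ _ => rfl
  rw [e]
  cases m with
  | zero =>
    rw [Finset.filter_false_of_mem fun A _ => not_not.2 (lv3_zero _), Finset.sum_empty]
    exact mul_nonneg (mul_nonneg (mul_nonneg (by norm_num) hC0) hM) (Real.rpow_nonneg hp0.le _)
  | succ j =>
    have h1 := xlw3_lift j (hC p j) (fun B => wt p (sh 4 p (j + 1) B) * cc B ^ (1 + σ))
      (fun A => ut p σ (sh 4 p j A) * cc A ^ (1 + σ))
      (fun A => mul_nonneg (ut_nonneg σ _) (lv3_pow_nonneg A _))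
      (fun B hB => wt_step (by omega) j B hB (by linarith))
    have h2 := xlw3_bound (p := p) (by omega) hσ (hC p) (hN p ((le_max_right _ _).trans hp)) j
    have h3 := (hC₁ p hp8 σ (by linarith)).trans
      (mul_le_mul_of_nonneg_right (le_max_left C₁ 0) (Real.rpow_nonneg hp0.le _))
    have e2 : (p : ℝ) ^ (((j + 1 : ℕ) : ℝ) + 4 - 12 * σ) = (p : ℝ) ^ j * (p : ℝ) ^ (5 - 12 * σ) := by
      rw [← Real.rpow_natCast, ← Real.rpow_add hp0]
      congr 1
      push_cast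
      ring
    refine h1.trans ((mul_le_mul_of_nonneg_left h2 hC0).trans ?_)
    rw [e2]
    calc _ ≤ C * (2 * ((p : ℝ) ^ j * (max C₁ 0 * (p : ℝ) ^ (5 - 12 * σ)))) := by gcongr
      _ = _ := by ring

end Pool.Agent.MP_8299d6_al.Up

end
end

section

open Matrix

noncomputable section

namespace Pool.Agent.MP_8299d6_al.Up

open Pool.Agent.MP_810665_al (IrrChar)
open Polynomial

/-- the monic quadratic polynomial with given lower coefficients -/
def xclsnQ {F : Type} [Field F] (a b : F) : F[X] := X ^ 2 + C b * X + C a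

lemma xclsn_Q_deg {F : Type} [Field F] (a b : F) : (xclsnQ a b).natDegree = 2 := by
  unfold xclsnQ
  compute_degree!

lemma xclsn_Q_of {F : Type} [Field F] {q : F[X]} (hq : q.Monic) (hd : q.natDegree = 2) :
    q = xclsnQ (q.coeff 0) (q.coeff 1) := by
  have h2 : q.coeff 2 = 1 := by rw [← hd]; exact hq.coeff_natDegree
  conv_lhs => rw [q.as_sum_range_C_mul_X_pow, hd]
  simp only [Finset.sum_range_succ, Finset.range_zero, Finset.sum_empty, h2, xclsnQ, map_one]
  ring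

lemma xclsn_coeff {F : Type} [Field F] (g : GLn 4 F) : (minpoly F g.1).coeff 0 ≠ 0 := by
  intro h
  obtain ⟨q, hq⟩ := minpoly_dvd_charpoly g.1
  have h1 := det_eq_sign_charpoly_coeff g.1
  rw [hq, mul_coeff_zero, h, zero_mul, mul_zero] at h1
  exact ((isUnit_iff_isUnit_det g.1).1 g.isUnit).ne_zero h1

/-- admissible labels of an invertible matrix -/
def xclsnR {F : Type} [Field F] {k : ℕ} (c : F[X] → Mat 4 F → Fin k) (g : GLn 4 F) :
    (Fin 4 → F) ⊕ ((F × F) × Fin k) → Prop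
  | Sum.inl y => ((minpoly F g.1).natDegree = 4 ∧ y 0 ≠ 0 ∧
        (fun j : Fin 4 => (minpoly F g.1).coeff j) = y) ∨
      ((minpoly F g.1).natDegree = 3 ∧ y 0 = 0 ∧
        minpoly F g.1 = (X - C (y 1)) * xclsnQ (y 2) (y 3) ∧
        g.1.charpoly = minpoly F g.1 * (X - C (y 1)))
  | Sum.inr y => aeval g.1 (xclsnQ y.1.1 y.1.2) = 0 ∧ c (xclsnQ y.1.1 y.1.2) g.1 = y.2

lemma xclsn_ex {F : Type} [Field F] {k : ℕ} (c : F[X] → Mat 4 F → Fin k) (g : GLn 4 F) :
    ∃ y, xclsnR c g y := by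
  have hm := minpoly.monic (isIntegral g.1)
  have hle := fl_minpoly_le g.1
  by_cases h4 : (minpoly F g.1).natDegree = 4
  · exact ⟨Sum.inl fun j : Fin 4 => (minpoly F g.1).coeff j,
      Or.inl ⟨h4, xclsn_coeff g, rfl⟩⟩
  by_cases h3 : (minpoly F g.1).natDegree = 3
  · obtain ⟨-, -, a, -, -, h1, q, hq⟩ := min_three h3
    have hqm : q.Monic := (monic_X_sub_C a).of_mul_monic_left (hq ▸ hm)
    have hqd : q.natDegree = 2 := by
      have := (monic_X_sub_C a).natDegree_mul hqm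
      rw [← hq, h3, natDegree_X_sub_C] at this
      omega
    refine ⟨Sum.inl ![0, a, q.coeff 0, q.coeff 1], Or.inr ⟨h3, rfl, ?_, h1⟩⟩
    show _ = (X - C a) * xclsnQ (q.coeff 0) (q.coeff 1)
    rw [← xclsn_Q_of hqm hqd]
    exact hq
  · have h2 : (minpoly F g.1).natDegree ≤ 2 := by omega
    have hqm : (minpoly F g.1 * X ^ (2 - (minpoly F g.1).natDegree)).Monic :=
      hm.mul (monic_X_pow _)
    have hqd : (minpoly F g.1 * X ^ (2 - (minpoly F g.1).natDegree)).natDegree = 2 := by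
      rw [hm.natDegree_mul (monic_X_pow _), natDegree_X_pow]
      omega
    obtain ⟨q, hq⟩ : ∃ q, q = minpoly F g.1 * X ^ (2 - (minpoly F g.1).natDegree) := ⟨_, rfl⟩
    rw [← hq] at hqm hqd
    refine ⟨Sum.inr ((q.coeff 0, q.coeff 1), c (xclsnQ (q.coeff 0) (q.coeff 1)) g.1), ?_, rfl⟩
    show aeval g.1 (xclsnQ (q.coeff 0) (q.coeff 1)) = 0
    rw [← xclsn_Q_of hqm hqd, hq, map_mul, minpoly.aeval, zero_mul]

lemma xclsn_conj {F : Type} [Field F] {k : ℕ} {c : F[X] → Mat 4 F → Fin k}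
    (hc : ∀ μ : F[X], μ ≠ 0 → μ.natDegree ≤ 4 → ∀ x y : Mat 4 F, aeval x μ = 0 → aeval y μ = 0 →
      c μ x = c μ y → ∃ g : (Mat 4 F)ˣ, (g : Mat 4 F) * x = y * g)
    {g h : GLn 4 F} {y} (hg : xclsnR c g y) (hh : xclsnR c h y) :
    ∃ u : GLn 4 F, u.1 * g.1 = h.1 * u.1 := by
  rcases y with y | y
  · rcases hg with ⟨g1, g2, g3⟩ | ⟨g1, g2, g3, g4⟩
    · rcases hh with ⟨h1, -, h3⟩ | ⟨-, h2, -⟩
      · exact cyc_conj g1 (fl_monic_ext (minpoly.monic (isIntegral g.1))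
          (minpoly.monic (isIntegral h.1)) g1 h1 (g3.trans h3.symm))
      · exact absurd h2 g2
    · rcases hh with ⟨-, h2, -⟩ | ⟨-, -, h3, h4⟩
      · exact absurd g2 h2
      · have h5 : minpoly F g.1 = minpoly F h.1 := g3.trans h3.symm
        exact three_conj g1 h5 (by rw [g4, h4, h5])
  · have hd := xclsn_Q_deg y.1.1 y.1.2
    refine hc _ (fun h0 => ?_) (by omega) g.1 h.1 hg.1 hh.1 (hg.2.trans hh.2.symm)
    rw [h0, natDegree_zero] at hd
    omega

theorem card_Irr_GL4 : ∃ C : ℕ, ∀ (p : ℕ) [Fact p.Prime],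
    (Irr (GLn 4 (ZMod p))).card ≤ p ^ 4 + C * p ^ 2 := by
  classical
  obtain ⟨k, hk⟩ := fl_color 4
  refine ⟨k, fun p _ => ?_⟩
  obtain ⟨c, hc⟩ := hk (ZMod p)
  have : Fintype (GLn 4 (ZMod p)) := Fintype.ofFinite _
  choose key hkey using xclsn_ex c
  refine le_trans (MP_810665_al.card_le_of_factor _ (fun χ hχ => mem_Irr.1 hχ) key
    fun χ hχ g h hgh => ?_) (le_of_eq ?_)
  · obtain ⟨u, hu⟩ := xclsn_conj hc (hkey g) (hgh ▸ hkey h)
    have h8 : h = u * g * u⁻¹ := by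
      rw [eq_mul_inv_iff_mul_eq]
      exact Units.ext hu.symm
    rw [h8, MP_810665_al.irr_conj (mem_Irr.1 hχ)]
  · simp only [Fintype.card_sum, Fintype.card_prod, Fintype.card_pi, ZMod.card,
      Finset.prod_const, Finset.card_univ, Fintype.card_fin]
    ring

end Pool.Agent.MP_8299d6_al.Up

end
end
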