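import Pool.Agent.Mg.X8299d6.G6efaac

section

/-! Definitions for the level sums of `M_d(ℤ/p^k)`. -/

open Matrix

noncomputable section

namespace Pool.Agent.MP_8299d6_al.Up

/-- the algebraic closure of the `p`-adic numbers -/
abbrev Cp (p : ℕ) [Fact p.Prime] : Type := PadicAlgCl p

/-- the absolute Galois group -/
abbrev Gp (p : ℕ) [Fact p.Prime] : Type := Cp p ≃ₐ[ℚ_[p]] Cp p

/-- the `p`-adic integers inside the algebraic closure -/
def zc (p : ℕ) [Fact p.Prime] : ℤ_[p] →+* Cp p :=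
  (algebraMap ℚ_[p] (Cp p)).comp PadicInt.Coe.ringHom

lemma zc_apply {p : ℕ} [Fact p.Prime] (x : ℤ_[p]) :
    zc p x = algebraMap ℚ_[p] (Cp p) (x : ℚ_[p]) := rfl

section
variable {p : ℕ} [Fact p.Prime] {d : ℕ}

/-- vectors on which the Galois group acts by the permutations `φ σ` of the coordinates -/
def FF (φ : Gp p →* Equiv.Perm (Fin d)) : Subalgebra ℚ_[p] (Fin d → Cp p) where
  carrier := {a | ∀ σ i, σ (a i) = a (φ σ i)}
  mul_mem' := fun ha hb σ i => by simp only [Pi.mul_apply, map_mul, ha σ i, hb σ i]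
  add_mem' := fun ha hb σ i => by simp only [Pi.add_apply, map_add, ha σ i, hb σ i]
  algebraMap_mem' := fun r σ i => by simp only [Pi.algebraMap_apply, AlgEquiv.commutes]

lemma mem_FF {φ : Gp p →* Equiv.Perm (Fin d)} {a : Fin d → Cp p} :
    a ∈ FF φ ↔ ∀ σ i, σ (a i) = a (φ σ i) := Iff.rfl

/-- the actions that occur on the roots of a separable polynomial -/
def Occ (φ : Gp p →* Equiv.Perm (Fin d)) : Prop := ∃ t ∈ FF φ, Function.Injective t

/-- the `ℤ_p`-span of the columns of `P` -/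
def Latt (P : Mat d (Cp p)) : AddSubgroup (Fin d → Cp p) where
  carrier := {a | ∃ x : Fin d → ℤ_[p], a = P *ᵥ (fun j => zc p (x j))}
  zero_mem' := ⟨0, by
    have : (fun j : Fin d => zc p ((0 : Fin d → ℤ_[p]) j)) = 0 := by funext j; simp
    rw [this, mulVec_zero]⟩
  add_mem' := by
    rintro _ _ ⟨x, rfl⟩ ⟨y, rfl⟩
    refine ⟨x + y, ?_⟩
    rw [← mulVec_add]
    congr 1
    funext j
    simp
  neg_mem' := by
    rintro _ ⟨x, rfl⟩
    refine ⟨-x, ?_⟩
    rw [← mulVec_neg]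
    congr 1
    funext j
    simp

lemma mem_Latt {P : Mat d (Cp p)} {a : Fin d → Cp p} :
    a ∈ Latt P ↔ ∃ x : Fin d → ℤ_[p], a = P *ᵥ (fun j => zc p (x j)) := Iff.rfl

/-- the elements of `FF φ` bounded by `b` in each coordinate -/
def Box (φ : Gp p →* Equiv.Perm (Fin d)) (b : Fin d → Cp p) : AddSubgroup (Fin d → Cp p) where
  carrier := {a | a ∈ FF φ ∧ ∀ i, ‖a i‖ ≤ ‖b i‖}
  zero_mem' := ⟨zero_mem _, fun i => by simp⟩
  add_mem' := fun ha hb => ⟨add_mem ha.1 hb.1, fun i =>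
    (IsUltrametricDist.norm_add_le_max _ _).trans (max_le (ha.2 i) (hb.2 i))⟩
  neg_mem' := fun ha => ⟨neg_mem ha.1, fun i => by simpa using ha.2 i⟩

lemma mem_Box {φ : Gp p →* Equiv.Perm (Fin d)} {a b : Fin d → Cp p} :
    a ∈ Box φ b ↔ a ∈ FF φ ∧ ∀ i, ‖a i‖ ≤ ‖b i‖ := Iff.rfl

/-- a good diagonalisation of an integer matrix `y` with a cyclic vector `v` -/
structure GD (k e : ℕ) (y : Mat d ℤ) (v : Fin d → ℤ) (t : Fin d → Cp p) (P U : Mat d (Cp p)) :
    Prop where
  inj : Function.Injective t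
  inv : P * U = 1
  eig : P * y.map (Int.cast : ℤ → Cp p) = diagonal t * P
  nrm : P *ᵥ (fun j => (v j : Cp p)) = 1
  bP : ∀ i j, ‖P i j‖ ≤ (p : ℝ) ^ e
  bU : ∀ j i i', i ≠ i' → ‖U j i‖ ≤ (p : ℝ) ^ (k + e) * ‖t i - t i'‖

/-- the pair `(y, v)` has a good diagonalisation of type `(φ, G, c)` -/
def HasT (k e : ℕ) (φ : Gp p →* Equiv.Perm (Fin d)) (G : Fin d → Fin d → ℕ) (c : Fin d → ℕ)
    (y : Mat d ℤ) (v : Fin d → ℤ) : Prop :=
  ∃ (t : Fin d → Cp p) (P U : Mat d (Cp p)) (b : Fin d → Cp p), GD k e y v t P U ∧ t ∈ FF φ ∧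
    b ∈ FF φ ∧
    (∀ i j, i ≠ j → ‖t i - t j‖ = (p : ℝ) ^ ((G i j : ℝ) / d.factorial - (k + 2 * e))) ∧
    (∀ i, ‖b i‖ = (p : ℝ) ^ (-((c i : ℝ) / d.factorial))) ∧ Box φ b ≤ Latt ((p : Cp p) ^ e • P)

end

/-- the least nonnegative representatives of a matrix -/
def lftM {d N : ℕ} (y : Mat d (ZMod N)) : Mat d ℤ := y.map (fun a => (a.val : ℤ))

/-- the least nonnegative representatives of a vector -/
def lftV {d N : ℕ} (v : Fin d → ZMod N) : Fin d → ℤ := fun i => ((v i).val : ℤ)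

/-- the matrix with columns `v, y v, y² v, …` -/
def kry {d : ℕ} {R : Type} [CommRing R] (y : Mat d R) (v : Fin d → R) : Mat d R :=
  Matrix.of fun i j => ((y ^ (j : ℕ)) *ᵥ v) i

/-- combinatorial types -/
structure Ty {d : ℕ} (G : Fin d → Fin d → ℕ) (c : Fin d → ℕ) : Prop where
  symm : ∀ i j, G i j = G j i
  diag : ∀ i, G i i = 0
  ultra : ∀ i j l, G i j ≤ max (G i l) (G l j)
  le : ∀ i j, i ≠ j → c i ≤ G i j

def tyD {d : ℕ} (G : Fin d → Fin d → ℕ) : ℕ := ∑ i, ∑ j, G i j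
def tyK {d : ℕ} (c : Fin d → ℕ) : ℕ := ∑ i, c i
def tyQ {d : ℕ} (c : Fin d → ℕ) : ℕ := ∑ i, ∑ j, min (c i) (c j)
def tyR {d : ℕ} (G : Fin d → Fin d → ℕ) : ℕ :=
  Finset.univ.sup (fun z : Fin d × Fin d => G z.1 z.2)
def tyT {d : ℕ} (G : Fin d → Fin d → ℕ) (par : Fin d → Fin d) : ℕ :=
  ∑ i ∈ Finset.univ.filter (fun i : Fin d => 0 < i.val), G i (par i)

/-- at least half of the lifts of each matrix are good -/
def Gen (p : ℕ) [Fact p.Prime] (d k e : ℕ) : Prop :=
  ∃ m₀ : ℕ, ∀ m, m₀ ≤ m → ∀ A : Mat d (ZMod (p ^ k)),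
    p ^ (m * d ^ 2 + (k + m) * d) ≤
      2 * Nat.card {z : Mat d (ZMod (p ^ (k + m))) × (Fin d → ZMod (p ^ (k + m))) //
        (lftM z.1).map (Int.cast : ℤ → ZMod (p ^ k)) = A ∧
          ∃ (t : Fin d → Cp p) (P U : Mat d (Cp p)), GD k e (lftM z.1) (lftV z.2) t P U}

end Pool.Agent.MP_8299d6_al.Up

end
end

section

open Matrix Polynomial

noncomputable section

namespace Pool.Agent.MP_8299d6_al.Up

variable {p : ℕ} [Fact p.Prime] {d : ℕ} {φ : Gp p →* Equiv.Perm (Fin d)}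

theorem norm_gal (σ : Gp p) (x : Cp p) : ‖σ x‖ = ‖x‖ := by
  rw [← PadicAlgCl.spectralNorm_eq, ← PadicAlgCl.spectralNorm_eq]
  exact (spectralNorm_eq_of_equiv σ x).symm

theorem fixed_mem {x : Cp p} (h : ∀ σ : Gp p, σ x = x) :
    ∃ a : ℚ_[p], x = algebraMap ℚ_[p] (Cp p) a := by
  have : IsGalois ℚ_[p] (Cp p) := {}
  obtain ⟨a, ha⟩ := (InfiniteGalois.mem_range_algebraMap_iff_fixed x).mpr h
  exact ⟨a, ha.symm⟩

theorem fixed_int {x : Cp p} (h : ∀ σ : Gp p, σ x = x) (h1 : ‖x‖ ≤ 1) :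
    ∃ a : ℤ_[p], x = zc p a := by
  obtain ⟨a, rfl⟩ := fixed_mem h
  rw [PadicAlgCl.norm_extends] at h1
  exact ⟨⟨a, h1⟩, rfl⟩

theorem norm_zc (a : ℤ_[p]) : ‖zc p a‖ = ‖a‖ := by
  rw [zc_apply, PadicAlgCl.norm_extends]
  rfl

theorem norm_p_pow (e : ℕ) : ‖(p : Cp p) ^ e‖ = (p : ℝ) ^ (-(e : ℝ)) := by
  have h : (p : Cp p) ^ e = algebraMap ℚ_[p] (Cp p) ((p : ℚ_[p]) ^ e) := by
    rw [map_pow, map_natCast]
  rw [h, PadicAlgCl.norm_extends, Padic.norm_p_pow, ← Real.rpow_intCast]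
  simp

theorem orbit_finite (u : Cp p) : (MulAction.orbit (Gp p) u).Finite := by
  have hu : IsIntegral ℚ_[p] u := Algebra.IsIntegral.isIntegral u
  refine ((minpoly ℚ_[p] u).rootSet_finite (Cp p)).subset ?_
  rintro _ ⟨σ, rfl⟩
  rw [Polynomial.mem_rootSet]
  refine ⟨minpoly.ne_zero hu, ?_⟩
  change aeval (σ u) (minpoly ℚ_[p] u) = 0
  rw [Polynomial.aeval_algHom_apply, minpoly.aeval, map_zero]

/-- the conjugate of an invertible matrix -/
lemma hega1_inv {P U : Mat d (Cp p)} (hPU : P * U = 1) (σ : Gp p) :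
    P.map σ * U.map σ = 1 := by
  have h := congrArg (fun M : Mat d (Cp p) => M.map (σ : Cp p →+* Cp p)) hPU
  simp only [Matrix.map_mul] at h
  rw [Matrix.map_one _ (map_zero _) (map_one _)] at h
  exact h

/-- the transition matrix intertwines the diagonal matrices -/
lemma hega1_key {y : Mat d ℤ} {t : Fin d → Cp p} {P U : Mat d (Cp p)} (hPU : P * U = 1)
    (hy : P * y.map (Int.cast : ℤ → Cp p) = diagonal t * P) (σ : Gp p) (i l : Fin d) :
    (P.map σ * U) i l * t l = σ (t i) * (P.map σ * U) i l := by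
  have hUP : U * P = 1 := mul_eq_one_comm.mp hPU
  have h1 : P.map σ * y.map (Int.cast : ℤ → Cp p) = diagonal (fun i => σ (t i)) * P.map σ := by
    ext a b
    have h := congrArg σ (congrFun (congrFun hy a) b)
    rw [Matrix.diagonal_mul, Matrix.mul_apply, map_sum, map_mul] at h
    rw [Matrix.diagonal_mul, Matrix.mul_apply, Matrix.map_apply, ← h]
    refine Finset.sum_congr rfl fun c _ => ?_
    simp only [Matrix.map_apply, map_mul, map_intCast]
  have h2 : y.map (Int.cast : ℤ → Cp p) * U = U * diagonal t := by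
    calc y.map (Int.cast : ℤ → Cp p) * U
        = (U * P) * y.map (Int.cast : ℤ → Cp p) * U := by rw [hUP, Matrix.one_mul]
      _ = U * (P * y.map (Int.cast : ℤ → Cp p)) * U := by simp only [Matrix.mul_assoc]
      _ = U * diagonal t * (P * U) := by rw [hy]; simp only [Matrix.mul_assoc]
      _ = U * diagonal t := by rw [hPU, Matrix.mul_one]
  have h3 : P.map σ * U * diagonal t = diagonal (fun i => σ (t i)) * (P.map σ * U) := by
    rw [Matrix.mul_assoc, ← h2, ← Matrix.mul_assoc, h1, Matrix.mul_assoc]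
  have h4 := congrFun (congrFun h3 i) l
  rwa [Matrix.mul_diagonal, Matrix.diagonal_mul] at h4

lemma hega1_ex {y : Mat d ℤ} {t : Fin d → Cp p} {P U : Mat d (Cp p)} (hPU : P * U = 1)
    (hy : P * y.map (Int.cast : ℤ → Cp p) = diagonal t * P) (σ : Gp p) (i : Fin d) :
    ∃ j, σ (t i) = t j := by
  have hUP : U * P = 1 := mul_eq_one_comm.mp hPU
  have h1 : (P.map σ * U) * (P * U.map σ) = 1 := by
    rw [Matrix.mul_assoc, ← Matrix.mul_assoc U, hUP, Matrix.one_mul, hega1_inv hPU]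
  by_contra hne
  have hne' : ∀ j, σ (t i) ≠ t j := fun j hj => hne ⟨j, hj⟩
  have h0 : ∀ l, (P.map σ * U) i l = 0 := by
    intro l
    have h := hega1_key hPU hy σ i l
    have h' : (P.map σ * U) i l * (t l - σ (t i)) = 0 := by rw [mul_sub, h]; ring
    rcases mul_eq_zero.mp h' with h'' | h''
    · exact h''
    · exact absurd (sub_eq_zero.mp h'').symm (hne' l)
  have h2 := congrFun (congrFun h1 i) i
  rw [Matrix.mul_apply, Matrix.one_apply_eq] at h2
  simp only [h0, zero_mul, Finset.sum_const_zero] at h2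
  exact zero_ne_one h2

/-- the eigenvalues of an integer matrix are permuted -/
theorem ga_roots {y : Mat d ℤ} {t : Fin d → Cp p} {P U : Mat d (Cp p)}
    (ht : Function.Injective t) (hPU : P * U = 1)
    (hy : P * y.map (Int.cast : ℤ → Cp p) = diagonal t * P) :
    ∃ φ : Gp p →* Equiv.Perm (Fin d), t ∈ FF φ := by
  choose f hf using hega1_ex hPU hy
  have hinj : ∀ σ, Function.Injective (f σ) := by
    intro σ i j hij
    apply ht
    apply σ.injective
    rw [hf, hf, hij]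
  refine ⟨MonoidHom.mk' (fun σ => Equiv.ofBijective (f σ)
    (Finite.injective_iff_bijective.mp (hinj σ))) ?_, fun σ i => hf σ i⟩
  intro σ τ
  ext i
  congr 1
  apply ht
  change t (f (σ * τ) i) = t (f σ (f τ i))
  rw [← hf, ← hf, ← hf]
  rfl

theorem ga_cols {k e : ℕ} {y : Mat d ℤ} {v : Fin d → ℤ} {t : Fin d → Cp p} {P U : Mat d (Cp p)}
    (h : GD k e y v t P U) (ht : t ∈ FF φ) (j : Fin d) : (fun i => P i j) ∈ FF φ := by
  intro σ i
  have hUP : U * P = 1 := mul_eq_one_comm.mp h.inv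
  have h0 : ∀ l, l ≠ φ σ i → (P.map σ * U) i l = 0 := by
    intro l hl
    have h1 := hega1_key h.inv h.eig σ i l
    rw [ht σ i] at h1
    have h' : (P.map σ * U) i l * (t l - t (φ σ i)) = 0 := by rw [mul_sub, h1]; ring
    rcases mul_eq_zero.mp h' with h'' | h''
    · exact h''
    · exact absurd (h.inj (sub_eq_zero.mp h'')) hl
  have h2 : P.map σ = (P.map σ * U) * P := by rw [Matrix.mul_assoc, hUP, Matrix.mul_one]
  have h3 : ∀ c, σ (P i c) = (P.map σ * U) i (φ σ i) * P (φ σ i) c := by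
    intro c
    have h4 := congrFun (congrFun h2 i) c
    rw [Matrix.map_apply, Matrix.mul_apply (M := P.map σ * U),
      Finset.sum_eq_single (φ σ i)] at h4
    · exact h4
    · intro l _ hl
      rw [h0 l hl, zero_mul]
    · intro hh
      exact absurd (Finset.mem_univ _) hh
  have hn : ∀ a, ∑ c, P a c * (v c : Cp p) = 1 := fun a => congrFun h.nrm a
  have h5 : (P.map σ * U) i (φ σ i) = 1 := by
    have h6 := congrArg σ (hn i)
    rw [map_sum, map_one] at h6
    simp only [map_mul, map_intCast, h3, mul_assoc] at h6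
    rwa [← Finset.mul_sum, hn, mul_one] at h6
  change σ (P i j) = P (φ σ i) j
  rw [h3, h5, one_mul]

theorem ga_sum {a : Fin d → Cp p} (ha : a ∈ FF φ) (σ : Gp p) : σ (∑ i, a i) = ∑ i, a i := by
  rw [map_sum]
  simp only [ha σ]
  exact Equiv.sum_comp (φ σ) a

theorem ga_coord {P U : Mat d (Cp p)} (hPU : P * U = 1) (hP : ∀ j, (fun i => P i j) ∈ FF φ) :
    (∀ j, (fun i => U j i) ∈ FF φ) ∧
      ∀ a ∈ FF φ, ∀ (σ : Gp p) (j : Fin d), σ ((U *ᵥ a) j) = (U *ᵥ a) j := by
  have hU : ∀ j, (fun i => U j i) ∈ FF φ := by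
    intro j σ i
    have h1 : P.map σ * U.submatrix id (φ σ) = 1 := by
      ext a b
      have h2 := congrFun (congrFun hPU (φ σ a)) (φ σ b)
      rw [Matrix.mul_apply] at h2
      rw [Matrix.mul_apply]
      have h3 : ∀ c, (P.map σ) a c * (U.submatrix id (φ σ)) c b = P (φ σ a) c * U c (φ σ b) := by
        intro c
        have h4 : σ (P a c) = P (φ σ a) c := hP c σ a
        rw [Matrix.map_apply, h4]
        rfl
      simp only [h3]
      rw [h2, Matrix.one_apply, Matrix.one_apply]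
      simp only [EmbeddingLike.apply_eq_iff_eq]
    have h5 := Matrix.right_inv_eq_right_inv (hega1_inv hPU σ) h1
    exact congrFun (congrFun h5 j) i
  refine ⟨hU, fun a ha σ j => ?_⟩
  exact ga_sum (mul_mem (hU j) ha) σ

theorem ga_inv {a : Fin d → Cp p} (ha : a ∈ FF φ) : (fun i => (a i)⁻¹) ∈ FF φ := by
  intro σ i
  change σ (a i)⁻¹ = (a (φ σ i))⁻¹
  rw [map_inv₀, ha σ i]

theorem ga_norm {a : Fin d → Cp p} (ha : a ∈ FF φ) (σ : Gp p) (i : Fin d) :
    ‖a (φ σ i)‖ = ‖a i‖ := by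
  rw [← ha σ i, norm_gal]

theorem ga_val {a b : Fin d → Cp p} (ha : a ∈ FF φ) (hb : b ∈ FF φ) {i j : Fin d}
    (h : a i ≠ b j) : ∃ z : ℤ, ‖a i - b j‖ = (p : ℝ) ^ ((z : ℝ) / d.factorial) := by
  classical
  have : Fintype φ.range := Fintype.ofFinite _
  let f : φ.range → Cp p := fun g => a (g.1 i) - b (g.1 j)
  have hf : ∀ g, ‖f g‖ = ‖a i - b j‖ := by
    rintro ⟨_, τ, rfl⟩
    change ‖a (φ τ i) - b (φ τ j)‖ = _
    rw [← ha τ i, ← hb τ j, ← map_sub, norm_gal]
  have hfix : ∀ σ : Gp p, σ (∏ g, f g) = ∏ g, f g := by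
    intro σ
    rw [map_prod, ← Equiv.prod_comp (Equiv.mulLeft (⟨φ σ, σ, rfl⟩ : φ.range)) f]
    refine Finset.prod_congr rfl fun g _ => ?_
    change σ (a (g.1 i) - b (g.1 j)) = a (φ σ (g.1 i)) - b (φ σ (g.1 j))
    rw [map_sub, ha σ, hb σ]
  obtain ⟨N, hN⟩ := fixed_mem hfix
  have hpos : 0 < ‖a i - b j‖ := norm_pos_iff.mpr (sub_ne_zero.mpr h)
  have hnorm : ‖N‖ = ‖a i - b j‖ ^ Fintype.card φ.range := by
    rw [← PadicAlgCl.norm_extends]
    change ‖algebraMap ℚ_[p] (Cp p) N‖ = _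
    rw [← hN, norm_prod]
    simp only [hf, Finset.prod_const, Finset.card_univ]
  have hN0 : N ≠ 0 := by
    rw [← norm_pos_iff, hnorm]
    exact pow_pos hpos _
  obtain ⟨m, hm⟩ : Fintype.card φ.range ∣ d.factorial := by
    have h1 := Subgroup.card_subgroup_dvd_card φ.range
    rwa [Nat.card_eq_fintype_card, Nat.card_eq_fintype_card, Fintype.card_perm,
      Fintype.card_fin] at h1
  have hp0 : (0 : ℝ) ≤ p := Nat.cast_nonneg p
  have hd : (d.factorial : ℝ) ≠ 0 := Nat.cast_ne_zero.mpr d.factorial_ne_zero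
  refine ⟨-N.valuation * m, ?_⟩
  have h2 : ‖a i - b j‖ ^ d.factorial = (p : ℝ) ^ ((-N.valuation * m : ℤ) : ℝ) := by
    rw [hm, pow_mul, ← hnorm, Padic.norm_eq_zpow_neg_valuation hN0, Real.rpow_intCast,
      _root_.zpow_mul, _root_.zpow_natCast]
  rw [div_eq_mul_inv, Real.rpow_mul hp0, ← h2,
    Real.pow_rpow_inv_natCast hpos.le d.factorial_ne_zero]

/-- gluing along a function that is constant on orbits -/
theorem ga_glue {J : Type} (x : J → Fin d → Cp p) (hx : ∀ j, x j ∈ FF φ) (o : Fin d → J)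
    (ho : ∀ σ i, o (φ σ i) = o i) : (fun i => x (o i) i) ∈ FF φ := by
  intro σ i
  change σ (x (o i) i) = x (o (φ σ i)) (φ σ i)
  rw [ho, hx (o i) σ i]

theorem ga_max {J : Type} [Fintype J] [Nonempty J] (x : J → Fin d → Cp p)
    (hx : ∀ j, x j ∈ FF φ) :
    ∃ o : Fin d → J, (∀ σ i, o (φ σ i) = o i) ∧ ∀ i j, ‖x j i‖ ≤ ‖x (o i) i‖ := by
  have hex : ∀ n : J → ℝ, ∃ j, ∀ j', n j' ≤ n j := fun n => Finite.exists_max n
  choose m hm using hex
  refine ⟨fun i => m (fun j => ‖x j i‖), fun σ i => ?_, fun i j => hm (fun j => ‖x j i‖) j⟩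
  have h : (fun j => ‖x j (φ σ i)‖) = fun j => ‖x j i‖ := funext fun j => ga_norm (hx j) σ i
  change m (fun j => ‖x j (φ σ i)‖) = m (fun j => ‖x j i‖)
  rw [h]

end Pool.Agent.MP_8299d6_al.Up

end
end

section

open Matrix Polynomial

noncomputable section

namespace Pool.Agent.MP_8299d6_al.Up

variable {p : ℕ} [Fact p.Prime] {d : ℕ}

theorem hela1_card {a : ℤ_[p]} (ha : a ≠ 0) :
    (Nat.card (ℤ_[p] ⧸ Ideal.span {a}) : ℝ) * ‖a‖ = 1 := by
  have hp : (p : ℝ) ≠ 0 := Nat.cast_ne_zero.2 (Fact.out : p.Prime).ne_zero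
  have e : Ideal.span {a} = RingHom.ker (PadicInt.toZModPow (p := p) a.valuation) := by
    rw [PadicInt.ker_toZModPow, Ideal.span_singleton_eq_span_singleton]
    exact ⟨(PadicInt.unitCoeff ha)⁻¹, by
      rw [Units.mul_inv_eq_iff_eq_mul, mul_comm]; exact PadicInt.unitCoeff_spec ha⟩
  rw [e, Nat.card_congr (RingHom.quotientKerEquivOfSurjective
    (ZMod.ringHom_surjective _)).toEquiv, Nat.card_zmod,
    PadicInt.norm_eq_zpow_neg_valuation ha, _root_.zpow_neg, zpow_natCast, Nat.cast_pow,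
    mul_inv_cancel₀ (pow_ne_zero _ hp)]

theorem hela1_core {Z : Mat d ℤ_[p]} (hZ : Z.det ≠ 0) :
    (Nat.card ((Fin d → ℤ_[p]) ⧸ LinearMap.range (toLin' Z)) : ℝ) * ‖Z.det‖ = 1 := by
  set N := LinearMap.range (toLin' Z)
  have hi : Function.Injective (toLin' Z) := by
    rw [injective_iff_map_eq_zero]
    exact fun x hx => eq_zero_of_mulVec_eq_zero hZ hx
  let e : (Fin d → ℤ_[p]) ≃ₗ[ℤ_[p]] N := LinearEquiv.ofInjective _ hi
  let b := Pi.basisFun ℤ_[p] (Fin d)
  have h : Module.finrank ℤ_[p] N = Module.finrank ℤ_[p] (Fin d → ℤ_[p]) := e.symm.finrank_eq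
  let a := Submodule.smithNormalFormCoeffs b h
  let b' := Submodule.smithNormalFormTopBasis b h
  let e' := b'.equiv (Submodule.smithNormalFormBotBasis b h) (Equiv.refl _)
  have ha : ∀ i, (N.subtype ∘ₗ e'.toLinearMap) (b' i) = a i • b' i := fun i => by
    show ((e' (b' i) : N) : Fin d → ℤ_[p]) = _
    rw [b'.equiv_apply, Equiv.refl_apply]
    exact Submodule.smithNormalFormBotBasis_def b h i
  have h1 : LinearMap.toMatrix b' b' (N.subtype ∘ₗ e'.toLinearMap) = diagonal a := by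
    ext i j
    rw [LinearMap.toMatrix_apply, ha, map_smul, Module.Basis.repr_self, Finsupp.smul_single,
      smul_eq_mul, mul_one]
    by_cases h : i = j
    · rw [h, diagonal_apply_eq, Finsupp.single_eq_same]
    · rw [diagonal_apply_ne _ h, Finsupp.single_eq_of_ne h]
  obtain ⟨u, hu⟩ := LinearMap.associated_det_comp_equiv N.subtype e' e
  have h2 : N.subtype ∘ₗ e.toLinearMap = toLin' Z := rfl
  rw [h2, LinearMap.det_toLin', ← LinearMap.det_toMatrix b', h1, det_diagonal] at hu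
  rw [← hu, norm_mul, PadicInt.norm_units, mul_one, norm_prod,
    Nat.card_congr (N.quotientEquivPiSpan b h).toEquiv, Nat.card_pi, Nat.cast_prod,
    ← Finset.prod_mul_distrib]
  exact Finset.prod_eq_one fun i _ => hela1_card (Submodule.smithNormalFormCoeffs_ne_zero b h i)

theorem col_mem_Latt (X : Mat d (Cp p)) (j : Fin d) : (fun i => X i j) ∈ Latt X := by
  refine ⟨Pi.single j 1, ?_⟩
  have : (fun l => zc p ((Pi.single j 1 : Fin d → ℤ_[p]) l)) = Pi.single j 1 := by
    funext l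
    rw [Pi.apply_single (fun _ => zc p) (fun _ => map_zero _), map_one]
  rw [this, mulVec_single_one]
  rfl

theorem hela1_fac {X Y : Mat d (Cp p)} (h : Latt Y ≤ Latt X) :
    ∃ Z : Mat d ℤ_[p], Y = X * Z.map (zc p) ∧ Y.det = X.det * zc p Z.det := by
  choose z hz using fun j => h (col_mem_Latt Y j)
  have e : Y = X * (of fun i j => z j i).map (zc p) := by
    ext i j
    exact congrFun (hz j) i
  refine ⟨_, e, ?_⟩
  rw [RingHom.map_det, RingHom.mapMatrix_apply, ← det_mul, ← e]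

/-- the index of a sublattice -/
theorem lat_index {X Y : Mat d (Cp p)} (hY : Y.det ≠ 0) (h : Latt Y ≤ Latt X) :
    ((Latt Y).relIndex (Latt X) : ℝ) * ‖Y.det‖ = ‖X.det‖ ∧ X.det ≠ 0 := by
  obtain ⟨Z, e, e'⟩ := hela1_fac h
  have hX : X.det ≠ 0 := fun a => hY (by rw [e', a, zero_mul])
  have hZ : Z.det ≠ 0 := fun a => hY (by rw [e', a, map_zero, mul_zero])
  refine ⟨?_, hX⟩
  let f : (Fin d → ℤ_[p]) →+ (Fin d → Cp p) :=
    AddMonoidHom.mk' (fun x => X *ᵥ fun j => zc p (x j)) fun x y => by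
      rw [← mulVec_add]
      congr 1
      funext j
      exact map_add _ _ _
  have hf : Function.Injective f := by
    rw [injective_iff_map_eq_zero]
    intro x hx
    funext j
    have := norm_zc (x j)
    rw [congrFun (eq_zero_of_mulVec_eq_zero hX hx) j, Pi.zero_apply, norm_zero] at this
    exact norm_eq_zero.1 this.symm
  have a0 : ∀ x, f (Z *ᵥ x) = Y *ᵥ fun j => zc p (x j) := fun x => by
    rw [e, ← mulVec_mulVec]
    show X *ᵥ _ = _
    congr 1
    funext j
    exact RingHom.map_mulVec _ _ _ _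
  have a1 : Latt X = AddSubgroup.map f ⊤ := by
    ext a
    exact ⟨fun ⟨x, hx⟩ => ⟨x, trivial, hx.symm⟩, fun ⟨x, _, hx⟩ => ⟨x, hx.symm⟩⟩
  have a2 : Latt Y = AddSubgroup.map f (LinearMap.range (toLin' Z)).toAddSubgroup := by
    ext a
    constructor
    · rintro ⟨x, rfl⟩
      exact ⟨_, ⟨x, rfl⟩, a0 x⟩
    · rintro ⟨_, ⟨x, rfl⟩, rfl⟩
      exact ⟨x, a0 x⟩
  rw [a1, a2, AddSubgroup.relIndex_map_map_of_injective _ _ hf, AddSubgroup.relIndex_top_right, e',
    norm_mul, norm_zc, mul_left_comm]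
  exact (congrArg _ (hela1_core hZ)).trans (mul_one _)

theorem lat_det_le {X Y : Mat d (Cp p)} (h : Latt Y ≤ Latt X) : ‖Y.det‖ ≤ ‖X.det‖ := by
  obtain ⟨Z, -, e'⟩ := hela1_fac h
  rw [e', norm_mul, norm_zc]
  exact mul_le_of_le_one_right (norm_nonneg _) (PadicInt.norm_le_one _)

theorem lat_le {X : Mat d (Cp p)} {φ : Gp p →* Equiv.Perm (Fin d)} {b : Fin d → Cp p}
    (h : ∀ j, (fun i => X i j) ∈ Box φ b) : Latt X ≤ Box φ b := by
  rintro _ ⟨x, rfl⟩
  have e : (X *ᵥ fun j => zc p (x j)) = ∑ j, (x j : ℚ_[p]) • fun i => X i j := by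
    funext i
    simp only [mulVec, dotProduct, Finset.sum_apply, Pi.smul_apply, zc_apply]
    exact Finset.sum_congr rfl fun j _ => by rw [Algebra.smul_def, mul_comm]
  rw [e]
  refine sum_mem fun j _ => ⟨Subalgebra.smul_mem _ (h j).1 _, fun i => ?_⟩
  rw [Pi.smul_apply, Algebra.smul_def, ← zc_apply, norm_mul, norm_zc]
  exact (mul_le_of_le_one_left (norm_nonneg _) (PadicInt.norm_le_one _)).trans ((h j).2 i)

end Pool.Agent.MP_8299d6_al.Up

end
end

section

open Matrix Polynomial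

noncomputable section

namespace Pool.Agent.MP_8299d6_al.Up

theorem charpoly_diag {d : ℕ} {K : Type} [Field K] {y P U : Mat d K} {t : Fin d → K}
    (hPU : P * U = 1) (hy : P * y = diagonal t * P) : y.charpoly = ∏ i, (X - C (t i)) := by
  have hUP : U * P = 1 := mul_eq_one_comm.1 hPU
  have e : y = U * (diagonal t * P) := by rw [← hy, ← Matrix.mul_assoc, hUP, Matrix.one_mul]
  rw [e, Matrix.charpoly_mul_comm, Matrix.mul_assoc, hPU, Matrix.mul_one, charpoly_diagonal]

theorem diag_exists (p : ℕ) [Fact p.Prime] {d : ℕ} (y : Mat d ℤ)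
    (h : (y.map (Int.cast : ℤ → ℚ)).charpoly.Separable) :
    ∃ (t : Fin d → Cp p) (P U : Mat d (Cp p)), Function.Injective t ∧ P * U = 1 ∧
      P * y.map (Int.cast : ℤ → Cp p) = diagonal t * P := by
  classical
  obtain ⟨Y, hY⟩ : ∃ Y, Y = y.map (Int.cast : ℤ → Cp p) := ⟨_, rfl⟩
  rw [← hY]
  have e : Y = (y.map (Int.cast : ℤ → ℚ)).map (Rat.castHom (Cp p)) := by
    rw [hY]
    ext i j
    simp
  have hs : Y.charpoly.Separable := by
    rw [e, Matrix.charpoly_map]
    exact h.map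
  have hc : Y.charpoly.roots.toFinset.card = d := by
    rw [Multiset.toFinset_card_of_nodup (nodup_roots hs),
      ← (IsAlgClosed.splits Y.charpoly).natDegree_eq_card_roots, charpoly_natDegree_eq_dim,
      Fintype.card_fin]
  let t : Fin d → Cp p := fun i => ((Finset.equivFinOfCardEq hc).symm i).1
  have ht : Function.Injective t :=
    Subtype.val_injective.comp (Finset.equivFinOfCardEq hc).symm.injective
  have hv : ∀ i, ∃ v : Fin d → Cp p, v ≠ 0 ∧ v ᵥ* Y = t i • v := by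
    intro i
    have h1 : Y.charpoly.IsRoot (t i) :=
      isRoot_of_mem_roots (Multiset.mem_toFinset.1 ((Finset.equivFinOfCardEq hc).symm i).2)
    rw [IsRoot.def, Matrix.eval_charpoly] at h1
    obtain ⟨v, hv0, hv1⟩ := Matrix.exists_vecMul_eq_zero_iff.2 h1
    refine ⟨v, hv0, ?_⟩
    rw [Matrix.vecMul_sub, sub_eq_zero] at hv1
    rw [← hv1]
    funext k
    simp [Matrix.scalar_apply, Matrix.vecMul_diagonal, mul_comm]
  choose v hv0 hv1 using hv
  have hli : LinearIndependent (Cp p) v :=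
    Module.End.eigenvectors_linearIndependent' (Matrix.vecMulLinear Y) t ht v fun i =>
      ⟨Module.End.mem_eigenspace_iff.2 (hv1 i), hv0 i⟩
  have hu : IsUnit (Matrix.of v) := Matrix.linearIndependent_rows_iff_isUnit.1 hli
  obtain ⟨U, hU⟩ := hu.exists_right_inv
  refine ⟨t, Matrix.of v, U, ht, hU, ?_⟩
  ext i k
  rw [Matrix.diagonal_mul]
  exact congrFun (hv1 i) k

theorem hedg_adj {d : ℕ} {K : Type} [Field K] {P U : Mat d K} (hUP : U * P = 1) :
    adjugate P = P.det • U := by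
  have h := congrArg (U * ·) (Matrix.mul_adjugate P)
  simpa only [← Matrix.mul_assoc, hUP, Matrix.one_mul, Matrix.mul_smul, Matrix.mul_one] using h

theorem adj_eval {d : ℕ} {K : Type} [Field K] {y P U : Mat d K} {t : Fin d → K}
    (hPU : P * U = 1) (hy : P * y = diagonal t * P) (i j l : Fin d) :
    (adjugate (charmatrix y) l j).eval (t i) =
      (∏ i' ∈ Finset.univ.erase i, (t i - t i')) * (U l i * P i j) := by
  have hUP : U * P = 1 := mul_eq_one_comm.1 hPU
  have e : y = U * (diagonal t * P) := by rw [← hy, ← Matrix.mul_assoc, hUP, Matrix.one_mul]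
  have h1 : (evalRingHom (t i)).mapMatrix (charmatrix y) =
      U * (diagonal (fun k => t i - t k) * P) := by
    have h2 : (diagonal fun k => t i - t k) = t i • (1 : Mat d K) - diagonal t := by
      ext a b
      by_cases hab : a = b <;> simp [hab]
    rw [h2, Matrix.sub_mul, Matrix.mul_sub, ← e, Matrix.smul_mul, Matrix.one_mul,
      Matrix.mul_smul, hUP]
    ext a b
    by_cases hab : a = b <;> simp [hab]
  have h3 : (adjugate (charmatrix y) l j).eval (t i) =
      adjugate ((evalRingHom (t i)).mapMatrix (charmatrix y)) l j := by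
    rw [← RingHom.map_adjugate]
    rfl
  have h4 : U.det * P.det = 1 := by rw [← Matrix.det_mul, hUP, Matrix.det_one]
  rw [h3, h1, adjugate_mul_distrib, adjugate_mul_distrib, hedg_adj hUP, hedg_adj hPU,
    adjugate_diagonal, Matrix.smul_mul, Matrix.smul_mul, Matrix.mul_smul, smul_smul, mul_comm P.det,
    h4, one_smul, Matrix.mul_apply, Finset.sum_eq_single i]
  · rw [Matrix.mul_diagonal]
    ring
  · intro k _ hk
    rw [Matrix.mul_diagonal, Finset.prod_eq_zero (i := i) (by simp [hk.symm]) (sub_self _),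
      mul_zero, zero_mul]
  · simp

theorem pencil_charpoly {d : ℕ} {K : Type} [CommRing K] (y : Mat d K) (j l : Fin d) (a : K) :
    (y + single j l a).charpoly = y.charpoly - C a * adjugate (charmatrix y) l j ∧
      adjugate (charmatrix (y + single j l a)) l j = adjugate (charmatrix y) l j := by
  have e : charmatrix (y + single j l a) =
      (charmatrix y).updateRow j (charmatrix y j + (-C a) • Pi.single l 1) := by
    ext1 r s
    by_cases hr : r = j
    · subst hr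
      by_cases hs : s = l
      · subst hs
        simp [charmatrix_apply]
        ring
      · simp [charmatrix_apply, hs, Ne.symm hs]
    · simp [charmatrix_apply, hr, Ne.symm hr]
  constructor
  · rw [Matrix.charpoly, Matrix.charpoly, e, det_updateRow_add, det_updateRow_smul,
      updateRow_eq_self, adjugate_apply]
    ring
  · rw [adjugate_apply, adjugate_apply, e, updateRow_idem]

theorem adj_deg {d : ℕ} {K : Type} [Field K] (y : Mat d K) (j l : Fin d) :
    (adjugate (charmatrix y) l j).natDegree < d := by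
  have e : adjugate (charmatrix y) l j = y.charpoly - (y + single j l 1).charpoly := by
    rw [(pencil_charpoly y j l 1).1]
    simp
  by_cases h0 : adjugate (charmatrix y) l j = 0
  · rw [h0, natDegree_zero]
    exact j.pos
  · rw [natDegree_lt_iff_degree_lt h0, e]
    have h1 := degree_sub_lt_left (p := y.charpoly) (q := (y + single j l 1).charpoly)
      (by rw [charpoly_degree_eq_dim, charpoly_degree_eq_dim]) y.charpoly_monic.ne_zero
      (by rw [y.charpoly_monic.leadingCoeff, (Matrix.charpoly_monic _).leadingCoeff])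
    rwa [charpoly_degree_eq_dim, Fintype.card_fin] at h1

/-- a rank one perturbation of a diagonal matrix with a zero entry -/
theorem det_rank_one {d : ℕ} {K : Type} [Field K] (t a : Fin d → K) (j : Fin d) :
    (diagonal (fun i => t i - t j) + vecMulVec 1 a).det =
      a j * ∏ i ∈ Finset.univ.erase j, (t i - t j) := by
  have h1 : (diagonal (fun i => t i - t j) + vecMulVec 1 a).det =
      ((diagonal fun i => t i - t j).updateRow j a).det := by
    refine det_eq_of_forall_row_eq_smul_add_const (fun i => if i = j then 0 else 1) j (by simp)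
      fun r s => ?_
    by_cases hr : r = j
    · subst hr
      by_cases hs : r = s <;> simp [vecMulVec_apply, diagonal_apply, hs]
    · simp [vecMulVec_apply, hr]
  have h2 : ∀ k, adjugate ((diagonal fun i => t i - t j).updateRow j a) k j =
      adjugate (diagonal fun i => t i - t j) k j := fun k => by
    rw [adjugate_apply, adjugate_apply, updateRow_idem]
  rw [h1, det_eq_sum_mul_adjugate_row _ j, Finset.sum_eq_single j]
  · rw [h2, adjugate_diagonal, diagonal_apply_eq, updateRow_self]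
  · intro k _ hk
    rw [h2, adjugate_diagonal, diagonal_apply_ne _ hk, mul_zero]
  · simp

end Pool.Agent.MP_8299d6_al.Up

end
end

section

open Matrix Polynomial

noncomputable section

namespace Pool.Agent.MP_8299d6_al.Up

variable {p : ℕ} [Fact p.Prime] {d : ℕ} {φ : Gp p →* Equiv.Perm (Fin d)}
  {k e : ℕ} {y : Mat d ℤ} {v : Fin d → ℤ} {t : Fin d → Cp p} {P U : Mat d (Cp p)}

lemma hegd_pos : (0 : ℝ) < p := Nat.cast_pos.2 (Fact.out : p.Prime).pos

lemma hegd_dvd {z : ℤ} {m : ℕ} (h : ‖(z : Cp p)‖ < p * ((p : ℝ) ^ m)⁻¹) : (p : ℤ) ^ m ∣ z := by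
  rw [← Padic.norm_int_le_pow_iff_dvd, Padic.norm_le_pow_iff_norm_lt_pow_add_one,
    ← PadicAlgCl.norm_extends, zpow_add_one₀ hegd_pos.ne', _root_.zpow_neg, _root_.zpow_natCast,
    mul_comm]
  rwa [← map_intCast (algebraMap ℚ_[p] (Cp p))] at h

theorem GD.chp (h : GD k e y v t P U) :
    y.charpoly.map (Int.castRingHom (Cp p)) = ∏ i, (X - C (t i)) := by
  rw [← charpoly_map]
  exact charpoly_diag h.inv h.eig

theorem GD.pow_eq (h : GD k e y v t P U) (n : ℕ) :
    P *ᵥ (fun j => (((y ^ n) *ᵥ v) j : Cp p)) = fun i => t i ^ n := by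
  induction n with
  | zero =>
    simp only [pow_zero, one_mulVec]
    exact h.nrm
  | succ n ih =>
    have e1 : (fun j => (((y ^ (n + 1)) *ᵥ v) j : Cp p)) =
        y.map (Int.cast : ℤ → Cp p) *ᵥ fun j => (((y ^ n) *ᵥ v) j : Cp p) := by
      funext j
      rw [pow_succ', ← mulVec_mulVec]
      exact (Int.castRingHom (Cp p)).map_mulVec y _ j
    rw [e1, mulVec_mulVec, h.eig, ← mulVec_mulVec, ih]
    funext i
    rw [mulVec_diagonal, pow_succ']

theorem GD.norm_t (h : GD k e y v t P U) (i : Fin d) : ‖t i‖ ≤ 1 := by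
  by_contra hlt
  obtain ⟨n, hn⟩ := pow_unbounded_of_one_lt ((p : ℝ) ^ e) (not_le.1 hlt)
  refine hn.not_ge ?_
  rw [← norm_pow, ← congrFun (h.pow_eq n) i, mulVec, dotProduct]
  refine IsUltrametricDist.norm_sum_le_of_forall_le_of_nonneg (by positivity) fun j _ => ?_
  rw [norm_mul]
  exact (mul_le_of_le_one_right (norm_nonneg _)
    (IsUltrametricDist.norm_intCast_le_one _ _)).trans (h.bP i j)

theorem GD.gap (h : GD k e y v t P U) {i j : Fin d} (hij : i ≠ j) :
    (p : ℝ) ^ (-((k : ℝ) + 2 * e)) ≤ ‖t i - t j‖ := by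
  have h1 : ‖(P * U) i i‖ ≤ (p : ℝ) ^ e * ((p : ℝ) ^ (k + e) * ‖t i - t j‖) := by
    rw [mul_apply]
    refine IsUltrametricDist.norm_sum_le_of_forall_le_of_nonneg (by positivity) fun l _ => ?_
    rw [norm_mul]
    exact mul_le_mul (h.bP i l) (h.bU l i j hij) (norm_nonneg _) (by positivity)
  rw [h.inv, one_apply_eq, norm_one, ← mul_assoc, ← pow_add] at h1
  rw [show (k : ℝ) + 2 * e = ((e + (k + e) : ℕ) : ℝ) by push_cast; ring,
    Real.rpow_neg hegd_pos.le, Real.rpow_natCast, inv_le_iff_one_le_mul₀' (pow_pos hegd_pos _)]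
  exact h1

theorem GD.kry_eq (h : GD k e y v t P U) :
    P * (kry y v).map (Int.cast : ℤ → Cp p) = vandermonde t := by
  ext i j
  exact congrFun (h.pow_eq j) i

theorem GD.latt (h : GD k e y v t P U) (ht : t ∈ FF φ) :
    Latt ((p : Cp p) ^ e • P) ≤ Box φ 1 ∧ (fun _ => (p : Cp p) ^ e) ∈ Latt ((p : Cp p) ^ e • P) := by
  refine ⟨lat_le fun j => ⟨fun σ i => ?_, fun i => ?_⟩, fun j => (v j : ℤ_[p]), ?_⟩
  · simp only [Matrix.smul_apply, smul_eq_mul, map_mul, map_pow, map_natCast]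
    rw [ga_cols h ht j σ i]
  · simp only [Matrix.smul_apply, smul_eq_mul, Pi.one_apply, norm_one]
    rw [norm_mul, norm_p_pow, Real.rpow_neg hegd_pos.le, Real.rpow_natCast,
      inv_mul_le_iff₀ (pow_pos hegd_pos _), mul_one]
    exact h.bP i j
  · simp only [map_intCast]
    rw [smul_mulVec, h.nrm]
    funext i
    simp

/-- a matrix that is not scalar modulo `p^m` has two eigenvalues far apart -/
theorem GD.ns {m : ℕ} (h : GD (m + 1) 0 y v t P U)
    (hns : y.map (Int.cast : ℤ → ZMod (p ^ (m + 1))) ∈ NS d _ ((p : ZMod (p ^ (m + 1))) ^ m)) :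
    ∃ i j, (p : ℝ) ^ (-(m : ℝ)) ≤ ‖t i - t j‖ := by
  by_contra hc
  simp only [not_exists, not_le, Real.rpow_neg hegd_pos.le, Real.rpow_natCast] at hc
  have hq : (0 : ℝ) < (p : ℝ) ^ m := pow_pos hegd_pos m
  have hB : (0 : ℝ) < p * ((p : ℝ) ^ m)⁻¹ := mul_pos hegd_pos (inv_pos.2 hq)
  rcases isEmpty_or_nonempty (Fin d) with hd | ⟨⟨o⟩⟩
  · exact hns ⟨0, fun i => hd.elim i⟩
  have hUP : U * P = 1 := mul_eq_one_comm.1 h.inv
  have e1 : y.map (Int.cast : ℤ → Cp p) - t o • (1 : Mat d (Cp p)) =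
      U * diagonal (fun i => t i - t o) * P := by
    rw [← diagonal_sub, ← smul_one_eq_diagonal, mul_sub, sub_mul, mul_assoc, ← h.eig, ← mul_assoc,
      hUP, one_mul, mul_smul_comm, mul_one, smul_mul_assoc, hUP]
  have key : ∀ j l, ‖(y j l : Cp p) - t o * (1 : Mat d (Cp p)) j l‖ < p * ((p : ℝ) ^ m)⁻¹ := by
    intro j l
    have e2 : (y j l : Cp p) - t o * (1 : Mat d (Cp p)) j l = _ := congrFun (congrFun e1 j) l
    rw [e2, mul_apply]
    obtain ⟨i, -, hi⟩ := IsUltrametricDist.exists_norm_finsetSum_le_of_nonempty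
      (t := Finset.univ) ⟨o, Finset.mem_univ o⟩
        fun i => (U * diagonal (fun i => t i - t o)) j i * P i l
    refine hi.trans_lt ?_
    rw [mul_diagonal]
    by_cases hio : i = o
    · rwa [hio, sub_self, mul_zero, zero_mul, norm_zero]
    have h1 := h.bU j i o hio
    have h2 := h.bP i l
    have h3 := hc i o
    rw [pow_zero] at h2
    rw [add_zero, pow_succ'] at h1
    have h4 : ‖U j i‖ ≤ p := by
      refine h1.trans ?_
      rw [mul_assoc]
      exact mul_le_of_le_one_right hegd_pos.le ((lt_inv_mul_iff₀ hq).1 (by rwa [mul_one])).le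
    rw [norm_mul, norm_mul]
    exact ((mul_le_of_le_one_right (by positivity) h2).trans
      (mul_le_mul_of_nonneg_right h4 (norm_nonneg _))).trans_lt
        (mul_lt_mul_of_pos_left h3 hegd_pos)
  refine hns ⟨(y o o : ZMod (p ^ (m + 1))), fun j l => ?_⟩
  have h5 : (p : ℤ) ^ m ∣ y j l - y o o * (1 : Mat d ℤ) j l := by
    refine hegd_dvd ?_
    have h6 := key o o
    have h7 := key j l
    rw [one_apply_eq, mul_one] at h6
    by_cases hjl : j = l
    · subst hjl
      rw [one_apply_eq, mul_one] at h7 ⊢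
      rw [Int.cast_sub, ← sub_sub_sub_cancel_right _ _ (t o), sub_eq_add_neg]
      exact (IsUltrametricDist.norm_add_le_max _ _).trans_lt (max_lt h7 (by rwa [norm_neg]))
    · rw [one_apply_ne hjl, mul_zero, sub_zero] at h7 ⊢
      exact h7
  have h8 := map_dvd (Int.castRingHom (ZMod (p ^ (m + 1)))) h5
  by_cases hjl : j = l <;> simpa [one_apply, hjl] using h8

end Pool.Agent.MP_8299d6_al.Up

end
end

section

open Matrix Polynomial

noncomputable section

namespace Pool.Agent.MP_8299d6_al.Up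

variable {p : ℕ} [Fact p.Prime] {d : ℕ} {φ : Gp p →* Equiv.Perm (Fin d)}

theorem hela2_gen (N : Submodule ℤ_[p] (Fin d → ℤ_[p])) :
    ∃ Z : Mat d ℤ_[p], ∀ x, x ∈ N ↔ ∃ y, x = Z *ᵥ y := by
  obtain ⟨n, -, bN, f, -⟩ := N.smithNormalForm (Pi.basisFun ℤ_[p] (Fin d))
  refine ⟨LinearMap.toMatrix' (N.subtype ∘ₗ bN.equivFun.symm.toLinearMap ∘ₗ
    LinearMap.funLeft ℤ_[p] ℤ_[p] f), fun x => ⟨fun hx => ?_, ?_⟩⟩
  · obtain ⟨y, hy⟩ := LinearMap.funLeft_surjective_of_injective ℤ_[p] ℤ_[p] f f.injective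
      (bN.equivFun ⟨x, hx⟩)
    refine ⟨y, ?_⟩
    rw [LinearMap.toMatrix'_mulVec, LinearMap.comp_apply, LinearMap.comp_apply, hy]
    simp
  · rintro ⟨y, rfl⟩
    rw [LinearMap.toMatrix'_mulVec]
    exact Subtype.property _

theorem hela2_scale {ι : Type} [Finite ι] (x : ι → Cp p) :
    ∃ M : ℕ, ∀ i, ‖(p : Cp p) ^ M * x i‖ ≤ 1 := by
  have h1 : ‖(p : Cp p)‖ < 1 := by
    have h := norm_p_pow (p := p) 1
    rw [pow_one] at h
    rw [h]
    exact Real.rpow_lt_one_of_one_lt_of_neg (by exact_mod_cast (Fact.out : p.Prime).one_lt)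
      (by norm_num)
  refine (Filter.eventually_all.2 fun i => ?_ : ∀ᶠ M in Filter.atTop, _).exists
  have h2 := ((tendsto_pow_atTop_nhds_zero_of_norm_lt_one h1).mul_const (x i)).norm
  rw [zero_mul, norm_zero] at h2
  exact h2.eventually (eventually_le_nhds one_pos)

theorem hela2_p (M : ℕ) : (p : Cp p) ^ M ≠ 0 :=
  pow_ne_zero _ (Nat.cast_ne_zero.2 (Fact.out : p.Prime).ne_zero)

/-- subgroups between two lattices are lattices -/
theorem lat_basis {B : Mat d (Cp p)} (hB : B.det ≠ 0) (Λ : AddSubgroup (Fin d → Cp p)) (M : ℕ)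
    (h1 : Latt ((p : Cp p) ^ M • B) ≤ Λ) (h2 : Λ ≤ Latt B) :
    ∃ X : Mat d (Cp p), X.det ≠ 0 ∧ Λ = Latt X := by
  let N : Submodule ℤ_[p] (Fin d → ℤ_[p]) :=
    { carrier := {x | B *ᵥ (fun j => zc p (x j)) ∈ Λ}
      add_mem' := fun {x y} hx hy => by
        have e : (fun j => zc p ((x + y) j)) = (fun j => zc p (x j)) + fun j => zc p (y j) := by
          funext j
          simp
        change B *ᵥ (fun j => zc p ((x + y) j)) ∈ Λ
        rw [e, mulVec_add]
        exact add_mem hx hy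
      zero_mem' := by
        have e : (fun j => zc p ((0 : Fin d → ℤ_[p]) j)) = 0 := by
          funext j
          simp
        change B *ᵥ (fun j => zc p ((0 : Fin d → ℤ_[p]) j)) ∈ Λ
        rw [e, mulVec_zero]
        exact zero_mem _
      smul_mem' := fun c x hx => by
        obtain ⟨c', hc⟩ := Ideal.mem_span_singleton.1 (PadicInt.appr_spec M c)
        have e : (fun j => zc p ((c • x) j)) = c.appr M • (fun j => zc p (x j)) +
            (p : Cp p) ^ M • fun j => zc p ((c' • x) j) := by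
          funext j
          conv_lhs => rw [eq_add_of_sub_eq' hc]
          simp [add_mul, mul_assoc]
        change B *ᵥ (fun j => zc p ((c • x) j)) ∈ Λ
        rw [e, mulVec_add, mulVec_smul, mulVec_smul]
        exact add_mem (nsmul_mem hx _) (h1 ⟨c' • x, (smul_mulVec _ _ _).symm⟩) }
  obtain ⟨Z, hZ⟩ := hela2_gen N
  have e : ∀ y : Fin d → ℤ_[p], (B * Z.map (zc p)) *ᵥ (fun j => zc p (y j)) =
      B *ᵥ fun j => zc p ((Z *ᵥ y) j) := fun y => by
    rw [← mulVec_mulVec]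
    congr 1
    funext j
    exact (RingHom.map_mulVec (zc p) Z y j).symm
  have h3 : Λ = Latt (B * Z.map (zc p)) := by
    ext a
    constructor
    · intro ha
      obtain ⟨x, rfl⟩ := h2 ha
      obtain ⟨y, rfl⟩ := (hZ x).1 ha
      exact ⟨y, (e y).symm⟩
    · rintro ⟨y, rfl⟩
      rw [e]
      exact (hZ _).2 ⟨y, rfl⟩
  refine ⟨_, (lat_index ?_ (h3 ▸ h1)).2, h3⟩
  rw [det_smul]
  exact mul_ne_zero (pow_ne_zero _ (hela2_p M)) hB

theorem box_basis (hφ : Occ φ) :
    ∃ B : Mat d (Cp p), B.det ≠ 0 ∧ Box φ 1 = Latt B ∧ ‖B.det‖ ≤ 1 := by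
  obtain ⟨t, ht, t1, tinj⟩ : ∃ t ∈ FF φ, (∀ i, ‖t i‖ ≤ 1) ∧ Function.Injective t := by
    obtain ⟨t, ht, tinj⟩ := hφ
    obtain ⟨N, hN⟩ := hela2_scale t
    refine ⟨fun i => (p : Cp p) ^ N * t i, fun σ i => ?_, hN, fun i j h =>
      tinj (mul_left_cancel₀ (hela2_p N) h)⟩
    rw [map_mul, map_pow, map_natCast, ht σ i]
  have hV : (vandermonde t).det ≠ 0 := det_vandermonde_ne_zero_iff.2 tinj
  have hVU := mul_nonsing_inv _ (Ne.isUnit hV)
  have hc : ∀ j, (fun i => vandermonde t i j) ∈ Box φ 1 := fun j =>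
    ⟨pow_mem ht j, fun i => by
      change ‖t i ^ (j : ℕ)‖ ≤ ‖(1 : Cp p)‖
      rw [norm_pow, norm_one]
      exact pow_le_one₀ (norm_nonneg _) (t1 i)⟩
  obtain ⟨M, hM⟩ := hela2_scale fun z : Fin d × Fin d => (vandermonde t)⁻¹ z.1 z.2
  obtain ⟨X, X0, hX⟩ := lat_basis (B := ((p : Cp p) ^ M)⁻¹ • vandermonde t)
    (by
      rw [det_smul]
      exact mul_ne_zero (pow_ne_zero _ (inv_ne_zero (hela2_p M))) hV) (Box φ 1) M
    (by
      rw [smul_inv_smul₀ (hela2_p M)]
      exact lat_le hc) (fun a ha => by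
      have h1 : ∀ j, ∃ x : ℤ_[p], (p : Cp p) ^ M * ((vandermonde t)⁻¹ *ᵥ a) j = zc p x := by
        intro j
        refine fixed_int (fun σ => ?_) ?_
        · rw [map_mul, map_pow, map_natCast, (ga_coord hVU fun j => (hc j).1).2 a ha.1 σ j]
        · rw [mulVec, dotProduct, Finset.mul_sum]
          refine IsUltrametricDist.norm_sum_le_of_forall_le_of_nonneg zero_le_one fun i _ => ?_
          rw [← mul_assoc, norm_mul]
          exact mul_le_one₀ (hM (j, i)) (norm_nonneg _) (by simpa using ha.2 i)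
      choose x hx using h1
      refine ⟨x, ?_⟩
      have e : (fun j => zc p (x j)) = (p : Cp p) ^ M • ((vandermonde t)⁻¹ *ᵥ a) :=
        funext fun j => (hx j).symm
      rw [e, smul_mulVec, mulVec_smul, inv_smul_smul₀ (hela2_p M), mulVec_mulVec, hVU,
        one_mulVec])
  refine ⟨X, X0, hX, ?_⟩
  have h1 : ∀ i j, ‖X i j‖ ≤ 1 := fun i j => by
    have h := col_mem_Latt X j
    rw [← hX] at h
    simpa using h.2 i
  rw [det_apply']
  refine IsUltrametricDist.norm_sum_le_of_forall_le_of_nonneg zero_le_one fun σ _ => ?_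
  rw [norm_mul, norm_prod]
  exact mul_le_one₀ (IsUltrametricDist.norm_intCast_le_one _ _)
    (Finset.prod_nonneg fun _ _ => norm_nonneg _)
    (Finset.prod_le_one (fun _ _ => norm_nonneg _) fun _ _ => h1 _ _)

theorem box_lat {B : Mat d (Cp p)} (hB : Box φ 1 = Latt B) {b : Fin d → Cp p} (hb : b ∈ FF φ)
    (hb0 : ∀ i, b i ≠ 0) : Box φ b = Latt (diagonal b * B) := by
  ext a
  constructor
  · intro ha
    have h1 : (a * fun i => (b i)⁻¹) ∈ Box φ 1 := ⟨mul_mem ha.1 (ga_inv hb), fun i => by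
      rw [Pi.mul_apply, norm_mul, norm_inv, Pi.one_apply, norm_one]
      exact mul_inv_le_one_of_le₀ (ha.2 i) (norm_nonneg _)⟩
    rw [hB] at h1
    obtain ⟨x, hx⟩ := h1
    refine ⟨x, ?_⟩
    rw [← mulVec_mulVec, ← hx]
    funext i
    rw [mulVec_diagonal, Pi.mul_apply, mul_comm, inv_mul_cancel_right₀ (hb0 i)]
  · rintro ⟨x, rfl⟩
    have h1 : B *ᵥ (fun j => zc p (x j)) ∈ Box φ 1 := hB ▸ ⟨x, rfl⟩
    have e : (diagonal b * B) *ᵥ (fun j => zc p (x j)) = b * B *ᵥ fun j => zc p (x j) := by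
      rw [← mulVec_mulVec]
      funext i
      rw [mulVec_diagonal, Pi.mul_apply]
    rw [e]
    refine ⟨mul_mem hb h1.1, fun i => ?_⟩
    rw [Pi.mul_apply, norm_mul]
    exact mul_le_of_le_one_right (norm_nonneg _) (by simpa using h1.2 i)

theorem box_index {B : Mat d (Cp p)} (hB0 : B.det ≠ 0) (hB : Box φ 1 = Latt B)
    {a b : Fin d → Cp p} (ha : a ∈ FF φ) (hb : b ∈ FF φ) (hb0 : ∀ i, b i ≠ 0)
    (h : ∀ i, ‖b i‖ ≤ ‖a i‖) :
    ((Box φ b).relIndex (Box φ a) : ℝ) * ∏ i, ‖b i‖ = ∏ i, ‖a i‖ := by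
  have ha0 : ∀ i, a i ≠ 0 := fun i => norm_pos_iff.1 ((norm_pos_iff.2 (hb0 i)).trans_le (h i))
  have h1 : Box φ b ≤ Box φ a := fun x hx => ⟨hx.1, fun i => (hx.2 i).trans (h i)⟩
  rw [box_lat hB ha ha0, box_lat hB hb hb0] at h1 ⊢
  have h2 := (lat_index (by
    rw [det_mul, det_diagonal]
    exact mul_ne_zero (Finset.prod_ne_zero_iff.2 fun i _ => hb0 i) hB0) h1).1
  rw [det_mul, det_mul, det_diagonal, det_diagonal, norm_mul, norm_mul, norm_prod, norm_prod,
    ← mul_assoc] at h2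
  exact mul_right_cancel₀ (norm_ne_zero_iff.2 hB0) h2

end Pool.Agent.MP_8299d6_al.Up

end
end

section

open Matrix Polynomial

noncomputable section

namespace Pool.Agent.MP_8299d6_al.Up

lemma hecomb_cake {R n : ℕ} (h : n ≤ R) : n = ∑ x ∈ Finset.range R, if x < n then 1 else 0 := by
  have e : (Finset.range R).filter (· < n) = Finset.range n := by
    ext x
    simp only [Finset.mem_filter, Finset.mem_range]
    omega
  rw [← Finset.card_filter, e, Finset.card_range]

lemma hecomb_layer {d : ℕ} (hd : 5 ≤ d) {G : Fin d → Fin d → ℕ} {c : Fin d → ℕ} (h : Ty G c)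
    {par : Fin d → Fin d} (hpar : ∀ i j, j < i → G i (par i) ≤ G i j) {x : ℕ} {i₀ j₀ : Fin d}
    (hx : x < G i₀ j₀) :
    4 * (∑ i ∈ Finset.univ.filter (fun i : Fin d => 0 < i.val), if x < G i (par i) then 1 else 0)
      + 4 + (∑ i, ∑ j, if x < min (c i) (c j) then 1 else 0) ≤
      (∑ i, ∑ j, if x < G i j then 1 else 0) + 5 * (∑ i, if x < c i then 1 else 0) ∧
    2 ≤ ∑ i, ∑ j, if x < G i j then 1 else 0 := by
  classical
  obtain ⟨M, hM⟩ : ∃ M : Finset (Fin d), ∀ i, i ∈ M ↔ ∀ j, j < i → x < G i j :=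
    ⟨Finset.univ.filter fun i => ∀ j, j < i → x < G i j, by simp⟩
  have z : (⟨0, by omega⟩ : Fin d) ∈ M := (hM _).2 fun j hj => absurd hj (Nat.not_lt_zero _)
  have h1 : (∑ i ∈ Finset.univ.filter (fun i : Fin d => 0 < i.val),
      if x < G i (par i) then 1 else 0) + 1 ≤ M.card := by
    rw [← Finset.card_filter, ← Finset.card_erase_add_one z]
    refine Nat.succ_le_succ (Finset.card_le_card fun i hi => ?_)
    simp only [Finset.mem_filter, Finset.mem_univ, true_and] at hi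
    exact Finset.mem_erase.2 ⟨fun e => by simp [e] at hi,
      (hM i).2 fun j hj => hi.2.trans_le (hpar i j hj)⟩
  have h2 : (∑ i, if x < c i then 1 else 0) ≤ M.card := by
    rw [← Finset.card_filter]
    exact Finset.card_le_card fun i hi => (hM i).2 fun j hj =>
      (Finset.mem_filter.1 hi).2.trans_le (h.le i j hj.ne')
  have h3 : (∑ i, ∑ j, if x < min (c i) (c j) then 1 else 0) =
      (∑ i, if x < c i then 1 else 0) * ∑ i, if x < c i then 1 else 0 := by
    rw [Finset.sum_mul_sum]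
    refine Finset.sum_congr rfl fun i _ => Finset.sum_congr rfl fun j _ => ?_
    by_cases a : x < c i <;> by_cases b : x < c j <;> simp [a, b]
  have h4 : ∀ i, 1 ≤ ∑ j, if x < G i j then 1 else 0 := fun i => by
    obtain ⟨j, hj⟩ : ∃ j, x < G i j := by
      have := h.ultra i₀ j₀ i
      rw [h.symm i₀ i] at this
      rcases le_max_iff.1 this with a | a
      exacts [⟨_, hx.trans_le a⟩, ⟨_, hx.trans_le a⟩]
    refine le_trans (le_of_eq (if_pos hj).symm) (Finset.single_le_sum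
      (f := fun j => if x < G i j then 1 else 0) (fun _ _ => Nat.zero_le _) (Finset.mem_univ j))
  have h5 : (∑ i ∈ M, ∑ j, if G i j ≤ x then 1 else 0) ≤ d := by
    rw [Finset.sum_comm]
    refine le_of_le_of_eq (Finset.sum_le_card_nsmul _ _ 1 fun j _ => ?_) (by simp)
    rw [← Finset.card_filter, Finset.card_le_one]
    intro a ha b hb
    rw [Finset.mem_filter] at ha hb
    have u1 := h.ultra a b j
    have u2 := h.symm a b
    have u3 := h.symm j b
    rcases lt_trichotomy a b with l | l | l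
    · have := (hM b).1 hb.1 a l
      omega
    · exact l
    · have := (hM a).1 ha.1 b l
      omega
  have h6 : (∑ i ∈ M, ∑ j, if x < G i j then 1 else 0) +
      (∑ i ∈ M, ∑ j, if G i j ≤ x then 1 else 0) = M.card * d := by
    rw [← Finset.sum_add_distrib, ← smul_eq_mul, ← Finset.sum_const]
    refine Finset.sum_congr rfl fun i _ => ?_
    rw [← Finset.sum_add_distrib, Finset.sum_congr rfl (g := fun _ => 1) fun j _ => by
      split_ifs <;> omega]
    simp
  have h7 : Mᶜ.card ≤ ∑ i ∈ Mᶜ, ∑ j, if x < G i j then 1 else 0 := by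
    simpa using Finset.card_nsmul_le_sum Mᶜ _ 1 fun i _ => h4 i
  have h8 := Finset.sum_add_sum_compl M fun i => ∑ j, if x < G i j then 1 else 0
  have h9 := Finset.card_add_card_compl M
  rw [Fintype.card_fin] at h9
  rw [h3]
  generalize (∑ i, if x < c i then 1 else 0) = γ at h2 ⊢
  obtain ⟨e, rfl⟩ := Nat.exists_eq_add_of_le hd
  have h10 : γ * γ ≤ γ * (5 + e) := Nat.mul_le_mul_left _ (by omega)
  have h11 : γ * e ≤ M.card * e := Nat.mul_le_mul_right _ h2
  rw [mul_add] at h6 h10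
  constructor <;> omega

/-- the combinatorial inequality -/
theorem comb_half {d : ℕ} (hd : 5 ≤ d) {G : Fin d → Fin d → ℕ} {c : Fin d → ℕ} (h : Ty G c) :
    ∃ par : Fin d → Fin d, (∀ i, 0 < i.val → par i < i) ∧ ∀ s : ℝ, 1 / 2 ≤ s →
      (tyT G par : ℝ) + tyD G + tyQ c / 4 - (1 + s / 2) * (tyD G + tyK c) ≤
        -((1 / 2 + s) * tyR G) := by
  have hp : ∀ i : Fin d, ∃ k, (0 < i.val → k < i) ∧ ∀ j, j < i → G i k ≤ G i j := fun i => by
    rcases Nat.eq_zero_or_pos i.val with a | a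
    · exact ⟨i, fun b => by omega, fun j hj => by have := Fin.lt_def.1 hj; omega⟩
    · obtain ⟨k, h1, h2⟩ := (Finset.Iio i).exists_min_image (G i)
        ⟨⟨0, by omega⟩, Finset.mem_Iio.2 a⟩
      exact ⟨k, fun _ => Finset.mem_Iio.1 h1, fun j hj => h2 j (Finset.mem_Iio.2 hj)⟩
  choose par hp1 hp2 using hp
  refine ⟨par, hp1, fun s hs => ?_⟩
  have hG : ∀ i j, G i j ≤ tyR G := fun i j =>
    Finset.le_sup (f := fun z : Fin d × Fin d => G z.1 z.2) (Finset.mem_univ (i, j))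
  have hc : ∀ i, c i ≤ tyR G := fun i => by
    have : Nontrivial (Fin d) := Fin.nontrivial_iff_two_le.2 (by omega)
    obtain ⟨j, hj⟩ := exists_ne i
    exact (h.le i j hj.symm).trans (hG i j)
  obtain ⟨z, -, hz⟩ := Finset.exists_mem_eq_sup (Finset.univ : Finset (Fin d × Fin d))
    ⟨(⟨0, by omega⟩, ⟨0, by omega⟩), Finset.mem_univ _⟩ fun z => G z.1 z.2
  have L := fun x (hx : x ∈ Finset.range (tyR G)) =>
    hecomb_layer hd h hp2 ((Finset.mem_range.1 hx).trans_eq hz)
  have eT : tyT G par = ∑ x ∈ Finset.range (tyR G), ∑ i ∈ Finset.univ.filter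
      (fun i : Fin d => 0 < i.val), if x < G i (par i) then 1 else 0 :=
    (Finset.sum_congr rfl fun i _ => hecomb_cake (hG _ _)).trans Finset.sum_comm
  have eK : tyK c = ∑ x ∈ Finset.range (tyR G), ∑ i, if x < c i then 1 else 0 :=
    (Finset.sum_congr rfl fun i _ => hecomb_cake (hc _)).trans Finset.sum_comm
  have eD : tyD G = ∑ x ∈ Finset.range (tyR G), ∑ i, ∑ j, if x < G i j then 1 else 0 :=
    (Finset.sum_congr rfl fun i _ => (Finset.sum_congr rfl fun j _ =>
      hecomb_cake (hG _ _)).trans Finset.sum_comm).trans Finset.sum_comm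
  have eQ : tyQ c = ∑ x ∈ Finset.range (tyR G), ∑ i, ∑ j,
      if x < min (c i) (c j) then 1 else 0 :=
    (Finset.sum_congr rfl fun i _ => (Finset.sum_congr rfl fun j _ =>
      hecomb_cake ((min_le_left _ _).trans (hc _))).trans Finset.sum_comm).trans Finset.sum_comm
  have h1 := Finset.sum_le_sum fun x hx => (L x hx).1
  have h2 := Finset.sum_le_sum fun x hx => (L x hx).2
  simp only [Finset.sum_add_distrib, ← Finset.mul_sum, ← eT, ← eK, ← eD, ← eQ, Finset.sum_const,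
    Finset.card_range, smul_eq_mul] at h1 h2
  have h3 : 4 * (tyT G par : ℝ) + tyR G * 4 + tyQ c ≤ tyD G + 5 * tyK c := by exact_mod_cast h1
  have h4 : (tyR G : ℝ) * 2 ≤ tyD G := by exact_mod_cast h2
  have h5 : (0 : ℝ) ≤ tyK c := Nat.cast_nonneg _
  nlinarith [mul_nonneg (sub_nonneg.2 hs) (sub_nonneg.2 h4), mul_nonneg (sub_nonneg.2 hs) h5]

end Pool.Agent.MP_8299d6_al.Up

end
end

section

open Matrix Polynomial

noncomputable section

namespace Pool.Agent.MP_8299d6_al.Up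

lemma hesum_card {d : ℕ} (R : ℕ) (S : Finset ((Fin d → Fin d → ℕ) × (Fin d → ℕ)))
    (h : ∀ z ∈ S, (∀ i, z.2 i ≤ tyR z.1) ∧ tyR z.1 = R) : S.card ≤ (R + 1) ^ (d * d + d) := by
  classical
  have h1 : S ⊆ (Fintype.piFinset fun _ : Fin d => Fintype.piFinset fun _ : Fin d =>
      Finset.range (R + 1)) ×ˢ (Fintype.piFinset fun _ : Fin d => Finset.range (R + 1)) := by
    intro z hz
    obtain ⟨h2, h3⟩ := h z hz
    simp only [Finset.mem_product, Fintype.mem_piFinset, Finset.mem_range, Nat.lt_succ_iff]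
    refine ⟨fun i j => ?_, fun i => h3 ▸ h2 i⟩
    rw [← h3]
    exact Finset.le_sup (f := fun w : Fin d × Fin d => z.1 w.1 w.2) (Finset.mem_univ (i, j))
  refine (Finset.card_le_card h1).trans (le_of_eq ?_)
  simp [Finset.card_product, Fintype.card_piFinset, pow_add, ← pow_mul]

lemma hesum_summable (a D : ℕ) {ρ : ℝ} (h0 : 0 < ρ) (h1 : ρ < 1) :
    Summable fun j : ℕ => ((j + a : ℕ) : ℝ) ^ D * ρ ^ j := by
  have h2 : Summable fun j : ℕ => (j : ℝ) ^ D * ρ ^ j :=
    summable_pow_mul_geometric_of_norm_lt_one D (by rwa [Real.norm_eq_abs, abs_of_pos h0])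
  have h3 := ((summable_nat_add_iff a).2 h2).mul_right ((ρ ^ a)⁻¹)
  refine h3.congr fun j => ?_
  have : ρ ^ a ≠ 0 := pow_ne_zero _ h0.ne'
  rw [pow_add]
  field_simp

/-- the sum over all types -/
theorem type_sum (d n : ℕ) (hn : 0 < n) : ∃ C : ℝ, 0 ≤ C ∧ ∀ (ε q : ℝ), 1 ≤ ε → 2 ≤ q →
    ∀ r : ℕ, r ≤ n → ∀ S : Finset ((Fin d → Fin d → ℕ) × (Fin d → ℕ)),
    (∀ z ∈ S, (∀ i, z.2 i ≤ tyR z.1) ∧ r ≤ tyR z.1) →
    ∑ z ∈ S, ((tyR z.1 : ℝ) + 1) ^ d * q ^ (-(ε * tyR z.1 / n)) ≤ C * q ^ (-(ε * r / n)) := by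
  classical
  have hn' : (0 : ℝ) < n := by exact_mod_cast hn
  set ρ : ℝ := (2 : ℝ) ^ (-(1 / (n : ℝ))) with hρ
  have h0 : 0 < ρ := Real.rpow_pos_of_pos two_pos _
  have h1 : ρ < 1 := Real.rpow_lt_one_of_one_lt_of_neg one_lt_two (neg_lt_zero.2 (by positivity))
  have hs := hesum_summable (n + 1) (d * d + d + d) h0 h1
  have hnn : ∀ j : ℕ, 0 ≤ ((j + (n + 1) : ℕ) : ℝ) ^ (d * d + d + d) * ρ ^ j := fun j => by
    positivity
  refine ⟨∑' j : ℕ, ((j + (n + 1) : ℕ) : ℝ) ^ (d * d + d + d) * ρ ^ j, tsum_nonneg hnn,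
    fun ε q hε hq r hr S hS => ?_⟩
  have hq0 : 0 < q := by linarith
  have e1 : ∑ z ∈ S, ((tyR z.1 : ℝ) + 1) ^ d * q ^ (-(ε * tyR z.1 / n)) =
      ∑ z ∈ S, (fun j : ℕ => (((r + j : ℕ) : ℝ) + 1) ^ d * q ^ (-(ε * ((r + j : ℕ) : ℝ) / n)))
        (tyR z.1 - r) := by
    refine Finset.sum_congr rfl fun z hz => ?_
    simp only [Nat.add_sub_cancel' (hS z hz).2]
  rw [e1, Finset.sum_comp (fun j : ℕ => (((r + j : ℕ) : ℝ) + 1) ^ d *
    q ^ (-(ε * ((r + j : ℕ) : ℝ) / n))) (fun z : (Fin d → Fin d → ℕ) × (Fin d → ℕ) => tyR z.1 - r)]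
  refine le_trans ?_ (mul_le_mul_of_nonneg_right
    (hs.sum_le_tsum (S.image fun z => tyR z.1 - r) fun j _ => hnn j) (by positivity))
  rw [Finset.sum_mul]
  refine Finset.sum_le_sum fun j _ => ?_
  have h2 := hesum_card (r + j) (S.filter fun z => tyR z.1 - r = j) fun z hz => by
    obtain ⟨h3, h4⟩ := Finset.mem_filter.1 hz
    have := (hS z h3).2
    exact ⟨(hS z h3).1, by omega⟩
  have h3 : (((S.filter fun z => tyR z.1 - r = j).card : ℕ) : ℝ) ≤
      (((r + j : ℕ) : ℝ) + 1) ^ (d * d + d) := by exact_mod_cast h2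
  have h4 : q ^ (-(ε * ((r + j : ℕ) : ℝ) / n)) ≤ ρ ^ j * q ^ (-(ε * r / n)) := by
    have e2 : -(ε * ((r + j : ℕ) : ℝ) / n) = -(ε * j / n) + -(ε * r / n) := by
      push_cast
      ring
    rw [e2, Real.rpow_add hq0]
    refine mul_le_mul_of_nonneg_right ?_ (by positivity)
    have hj : (0 : ℝ) ≤ j := Nat.cast_nonneg _
    have h5 : (j : ℝ) / n ≤ ε * j / n := by
      refine div_le_div_of_nonneg_right ?_ hn'.le
      nlinarith
    calc q ^ (-(ε * j / n)) ≤ q ^ (-((j : ℝ) / n)) :=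
          Real.rpow_le_rpow_of_exponent_le (by linarith) (neg_le_neg h5)
      _ ≤ (2 : ℝ) ^ (-((j : ℝ) / n)) :=
          Real.rpow_le_rpow_of_nonpos two_pos hq (neg_nonpos.2 (by positivity))
      _ = ρ ^ j := by
          rw [hρ, ← Real.rpow_natCast, ← Real.rpow_mul two_pos.le]
          congr 1
          ring
  have h5 : (((r + j : ℕ) : ℝ) + 1) ≤ ((j + (n + 1) : ℕ) : ℝ) := by
    have : r + j + 1 ≤ j + (n + 1) := by omega
    exact_mod_cast this
  rw [nsmul_eq_mul]
  calc _ ≤ (((r + j : ℕ) : ℝ) + 1) ^ (d * d + d) *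
        ((((r + j : ℕ) : ℝ) + 1) ^ d * (ρ ^ j * q ^ (-(ε * r / n)))) := by gcongr
    _ = (((r + j : ℕ) : ℝ) + 1) ^ (d * d + d + d) * ρ ^ j * q ^ (-(ε * r / n)) := by
        rw [pow_add _ (d * d + d) d]
        ring
    _ ≤ _ := by gcongr

end Pool.Agent.MP_8299d6_al.Up

end
end

section

open Matrix Polynomial

noncomputable section

namespace Pool.Agent.MP_8299d6_al.Up

theorem het2_per {κ : Type} [Monoid κ] {x : κ} {p M : ℕ} (h : x ^ p ^ M = x) (i : ℕ) :
    x ^ p ^ i = x ^ p ^ (i % M) := by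
  have h1 : ∀ k, x ^ p ^ (M * k) = x := fun k => by
    induction k with
    | zero => simp
    | succ k ih => rw [Nat.mul_succ, pow_add, pow_mul, ih, h]
  conv_lhs => rw [← Nat.div_add_mod i M, pow_add, pow_mul, h1]

theorem het2_frob (G κ : Type) [Group G] [Field κ] [MulSemiringAction G κ] (p : ℕ) [Fact p.Prime]
    [CharP κ p] {M : ℕ} (hM : 0 < M) : ∃ H : Subgroup G, H.FiniteIndex ∧ H.index ≤ M ∧
      ∀ σ ∈ H, ∀ x : κ, x ^ p ^ M = x → σ • x = x := by
  classical
  let L : Subfield κ := (iterateFrobenius κ p M).eqLocusField (RingHom.id κ)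
  have hL : ∀ x, x ∈ L ↔ x ^ p ^ M = x := fun x => Iff.rfl
  have h1 : 1 < p ^ M := Nat.one_lt_pow hM.ne' (Fact.out : p.Prime).one_lt
  have : Finite L := ((X ^ p ^ M - X : κ[X]).roots.toFinset.finite_toSet.subset fun x hx => by
    simpa [FiniteField.X_pow_card_sub_X_ne_zero κ h1, sub_eq_zero] using (hL x).1 hx).to_subtype
  let _ := ZMod.algebra L p
  have hs : MulAction.orbit G (Subtype.val : L → κ) ⊆
      ((Finset.range M).image fun i (x : L) => x.1 ^ p ^ i : Finset _) := by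
    rintro _ ⟨σ, rfl⟩
    let r : L →+* L := ((MulSemiringAction.toRingHom G κ σ).comp L.subtype).codRestrict L
      fun x => (hL _).2 (by
        change (σ • x.1) ^ _ = σ • x.1
        rw [← smul_pow', (hL _).1 x.2])
    obtain ⟨i, hi⟩ := FiniteField.exists_forall_apply_eq_pow (ZMod p) p L
      (AlgEquiv.ofBijective
        { r with
          commutes' := fun c => RingHom.congr_fun
            (RingHom.ext_zmod (r.comp (algebraMap _ L)) (algebraMap _ L)) c }
        (Finite.injective_iff_bijective.1 r.injective))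
    refine Finset.mem_coe.2 (Finset.mem_image.2 ⟨i % M, Finset.mem_range.2 (Nat.mod_lt _ hM), ?_⟩)
    funext x
    have h2 := congrArg Subtype.val (hi x)
    rw [Nat.card_zmod] at h2
    exact (het2_per ((hL _).1 x.2) i).symm.trans h2.symm
  have h3 := Set.ncard_le_ncard hs (Finset.finite_toSet _)
  rw [Set.ncard_coe_finset] at h3
  refine ⟨MulAction.stabilizer G (Subtype.val : L → κ), ⟨?_⟩, ?_,
    fun σ hσ x hx => congrFun hσ ⟨x, hx⟩⟩
  · rw [MulAction.index_stabilizer]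
    exact ((Set.ncard_pos ((Finset.finite_toSet _).subset hs)).2 (MulAction.nonempty_orbit _)).ne'
  · rw [MulAction.index_stabilizer]
    exact h3.trans (Finset.card_image_le.trans (Finset.card_range M).le)

theorem het2_fix {G R : Type} [Group G] [CommRing R] [MulSemiringAction G R] {x : R}
    (h : (MulAction.orbit G x).Finite) {A : Type} [CommSemiring A] [MulSemiringAction G A]
    (f : R → A) (hf : ∀ (σ : G) y, σ • f y = f (σ • y)) (σ : G) :
    σ • ∏ y ∈ h.toFinset, f y = ∏ y ∈ h.toFinset, f y := by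
  rw [Finset.smul_prod']
  refine Finset.prod_equiv (MulAction.toPerm σ) (fun y => ?_) fun y _ => hf σ y
  simp only [Set.Finite.mem_toFinset, MulAction.toPerm_apply]
  exact ⟨fun h => MulAction.mem_orbit_of_mem_orbit σ h, fun h => by
    simpa using MulAction.mem_orbit_of_mem_orbit σ⁻¹ h⟩

variable {p : ℕ} [hp : Fact p.Prime]

variable (p) in
/-- the ring of integers -/
def het2O : Subring (Cp p) where
  carrier := {x | ‖x‖ ≤ 1}
  mul_mem' := fun ha hb => (norm_mul _ _).le.trans (mul_le_one₀ ha (norm_nonneg _) hb)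
  one_mem' := norm_one.le
  add_mem' := fun ha hb => (IsUltrametricDist.norm_add_le_max _ _).trans (max_le ha hb)
  zero_mem' := norm_zero.le.trans zero_le_one
  neg_mem' := fun ha => (norm_neg _).le.trans ha

instance het2_inv : IsInvariantSubring (Gp p) (het2O p) :=
  ⟨fun σ {x} hx => (norm_gal σ x).le.trans hx⟩

theorem het2_unit (x : het2O p) : IsUnit x ↔ ¬ ‖x.1‖ < 1 := by
  refine ⟨fun h h1 => ?_, fun h => ?_⟩
  · obtain ⟨y, hy⟩ := h.exists_right_inv
    have h2 : ‖x.1‖ * ‖y.1‖ = 1 := by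
      rw [← norm_mul, ← Subring.coe_mul, hy]
      exact norm_one
    exact (mul_lt_one_of_nonneg_of_lt_one_left (norm_nonneg _) h1 y.2).ne h2
  · have h1 : ‖x.1‖ = 1 := le_antisymm x.2 (not_lt.1 h)
    have h0 : x.1 ≠ 0 := fun e => by simp [e] at h1
    exact IsUnit.of_mul_eq_one ⟨x.1⁻¹, (norm_inv _).le.trans (by rw [h1, inv_one])⟩
      (Subtype.ext (mul_inv_cancel₀ h0))

instance het2_loc : IsLocalRing (het2O p) :=
  IsLocalRing.of_nonunits_add fun a b ha hb => by
    rw [mem_nonunits_iff, het2_unit, not_not] at ha hb ⊢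
    exact (IsUltrametricDist.norm_add_le_max _ _).trans_lt (max_lt ha hb)

theorem het2_res (x y : het2O p) :
    IsLocalRing.residue _ x = IsLocalRing.residue _ y ↔ ‖x.1 - y.1‖ < 1 := by
  rw [← sub_eq_zero, ← map_sub, IsLocalRing.residue_eq_zero_iff, IsLocalRing.mem_maximalIdeal,
    mem_nonunits_iff, het2_unit, not_not]
  rfl

theorem het2_np : ‖(p : Cp p)‖ = (p : ℝ)⁻¹ := by
  simpa [Real.rpow_neg_one] using norm_p_pow (p := p) 1

instance het2_char : CharP (IsLocalRing.ResidueField (het2O p)) p :=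
  (CharP.charP_iff_prime_eq_zero hp.out).2 (by
    rw [← map_natCast (IsLocalRing.residue (het2O p)), ← map_zero (IsLocalRing.residue _), het2_res]
    simpa [het2_np] using inv_lt_one_of_one_lt₀ (Nat.one_lt_cast.2 hp.out.one_lt : (1 : ℝ) < p))

theorem het2_pow (x : het2O p) {D : ℕ} (h : (MulAction.stabilizer (Gp p) x.1).index ≤ D) :
    IsLocalRing.residue _ x ^ p ^ D.factorial = IsLocalRing.residue _ x := by
  let _ := ZMod.algebra (IsLocalRing.ResidueField (het2O p)) p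
  have e : MulAction.stabilizer (Gp p) x = MulAction.stabilizer (Gp p) x.1 :=
    Subgroup.ext fun σ => Subtype.ext_iff
  have hf : (MulAction.orbit (Gp p) x).Finite :=
    Set.Finite.of_finite_image ((orbit_finite x.1).subset (by
      rintro _ ⟨_, ⟨σ, rfl⟩, rfl⟩
      exact ⟨σ, rfl⟩)) Subtype.val_injective.injOn
  rw [← e, MulAction.index_stabilizer, Set.ncard_eq_toFinset_card _ hf] at h
  have hm : (∏ y ∈ hf.toFinset, (X - C y)).Monic := monic_prod_of_monic _ _ fun y _ =>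
    monic_X_sub_C y
  obtain ⟨g, g1, g2, g3⟩ := lifts_and_natDegree_eq_and_monic (f := algebraMap (ZMod p) _)
    (p := (∏ y ∈ hf.toFinset, (X - C y)).map (IsLocalRing.residue _))
    ((lifts_iff_coeff_lifts _).2 fun n => by
      obtain ⟨a, ha⟩ := fixed_int (x := ((∏ y ∈ hf.toFinset, (X - C y)).coeff n).1) (fun σ => by
        have h1 := congrArg (coeff · n) (het2_fix hf (fun y => X - C y)
          (fun σ y => by rw [smul_sub, Polynomial.smul_X, Polynomial.smul_C]) σ)
        exact congrArg Subtype.val h1) ((∏ y ∈ hf.toFinset, (X - C y)).coeff n).2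
      refine ⟨(a.zmodRepr : ℕ), ?_⟩
      rw [coeff_map, map_natCast, ← map_natCast (IsLocalRing.residue (het2O p)), eq_comm, het2_res,
        ha, Subring.coe_natCast, ← map_natCast (zc p), ← map_sub, norm_zc]
      exact PadicInt.norm_sub_zmodRepr_lt_one a) (hm.map _)
  have h0 : aeval (IsLocalRing.residue _ x) g = 0 := by
    rw [← eval_map_algebraMap, g1, eval_map, eval₂_hom, eval_prod, Finset.prod_eq_zero
      (hf.mem_toFinset.2 (MulAction.mem_orbit_self x)) (by simp), map_zero]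
  have hi : IsIntegral (ZMod p) (IsLocalRing.residue _ x) := ⟨g, g3, h0⟩
  rw [hm.natDegree_map, natDegree_finsetProd_X_sub_C_eq_card] at g2
  have h2 := natDegree_le_natDegree (minpoly.min _ _ g3 h0)
  have h3 := (minpoly.irreducible hi).natDegree_dvd_iff_dvd_X_pow_card_pow_sub_X.1
    (Nat.dvd_factorial (minpoly.natDegree_pos hi) (h2.trans (g2.le.trans h)))
  simpa [sub_eq_zero] using minpoly.dvd_iff.1 h3

theorem het2_fi (u : Cp p) : (MulAction.stabilizer (Gp p) u).FiniteIndex := ⟨by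
  rw [MulAction.index_stabilizer]
  exact ((Set.ncard_pos (orbit_finite u)).2 (MulAction.nonempty_orbit _)).ne'⟩

theorem het2_val {N : ℕ} {ϖ u : Cp p} (hϖ : ϖ ^ N.factorial = p) (hu : u ≠ 0)
    (h : (MulAction.orbit (Gp p) u).ncard ≤ N) : ∃ z : ℤ, ‖u‖ = ‖ϖ‖ ^ z := by
  obtain ⟨a, ha⟩ := fixed_mem (het2_fix (orbit_finite u) id (fun _ _ => rfl))
  obtain ⟨m, hm⟩ := Nat.dvd_factorial
    ((Set.ncard_pos (orbit_finite u)).2 (MulAction.nonempty_orbit _)) h
  have h1 : ‖u‖ ^ (MulAction.orbit (Gp p) u).ncard = ‖a‖ := by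
    rw [← norm_algebraMap' (Cp p) a, ← ha, norm_prod, Set.ncard_eq_toFinset_card _ (orbit_finite u),
      ← Finset.prod_const]
    refine Finset.prod_congr rfl fun y hy => ?_
    obtain ⟨σ, rfl⟩ := (orbit_finite u).mem_toFinset.1 hy
    exact (norm_gal σ u).symm
  have h2 : a ≠ 0 := fun e => by
    rw [e, norm_zero] at h1
    exact hu (norm_eq_zero.1 (pow_eq_zero_iff'.1 h1).1)
  have h3 : ‖ϖ‖ ^ N.factorial = (p : ℝ)⁻¹ := by rw [← norm_pow, hϖ, het2_np]
  refine ⟨a.valuation * m,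
    (pow_left_inj₀ (norm_nonneg _) (by positivity) N.factorial_ne_zero).1 ?_⟩
  rw [← _root_.zpow_natCast (‖ϖ‖ ^ _), ← _root_.zpow_mul, mul_comm, _root_.zpow_mul,
    _root_.zpow_natCast, h3, hm, pow_mul, h1, Padic.norm_eq_zpow_neg_valuation h2, _root_.zpow_mul,
    _root_.zpow_natCast, _root_.zpow_neg, _root_.inv_zpow]

theorem het2_mv (σ : Gp p) (x : het2O p)
    (h : σ • IsLocalRing.residue _ x = IsLocalRing.residue _ x) : ‖σ x.1 - x.1‖ < 1 := by
  rw [← IsLocalRing.ResidueField.residue_smul, het2_res] at h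
  exact h

theorem het2_idx (u ϖ : Cp p) (z : ℤ) : (MulAction.stabilizer (Gp p) (u / ϖ ^ z)).index ≤
    (MulAction.stabilizer (Gp p) u).index * (MulAction.stabilizer (Gp p) ϖ).index := by
  have := het2_fi u
  have := het2_fi ϖ
  have h : MulAction.stabilizer (Gp p) u ⊓ MulAction.stabilizer (Gp p) ϖ ≤
      MulAction.stabilizer (Gp p) (u / ϖ ^ z) := fun τ hτ => by
    have h1 : τ u = u := hτ.1
    have h2 : τ ϖ = ϖ := hτ.2
    have h3 : τ (u / ϖ ^ z) = u / ϖ ^ z := by rw [map_div₀, map_zpow₀, h1, h2]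
    exact h3
  exact (Subgroup.index_antitone h).trans Subgroup.index_inf_le

/-- a subgroup of bounded index that fixes the leading terms of elements of bounded degree -/
theorem move_unif (N : ℕ) : ∃ I : ℕ, ∀ (p : ℕ) [Fact p.Prime],
    ∃ H : Subgroup (Gp p), H.FiniteIndex ∧ H.index ≤ I ∧ ∀ σ ∈ H, ∀ u : Cp p, u ≠ 0 →
      (MulAction.orbit (Gp p) u).ncard ≤ N → ‖σ u - u‖ < ‖u‖ := by
  classical
  refine ⟨N.factorial * (N * N.factorial).factorial, fun p hp => ?_⟩
  obtain ⟨ϖ, hϖ⟩ := IsAlgClosed.exists_pow_nat_eq (p : Cp p) N.factorial_pos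
  obtain ⟨H, h1, h2, h3⟩ := het2_frob (Gp p) (IsLocalRing.ResidueField (het2O p)) p
    (N * N.factorial).factorial_pos
  have h0 : ϖ ≠ 0 := fun e => by
    rw [e, zero_pow N.factorial_ne_zero] at hϖ
    exact hp.out.ne_zero (Nat.cast_eq_zero.1 hϖ.symm)
  have h4 : (MulAction.stabilizer (Gp p) ϖ).index ≤ N.factorial := by
    rw [MulAction.index_stabilizer]
    refine (Set.ncard_le_ncard (t := (nthRoots N.factorial (p : Cp p)).toFinset) ?_
      (Finset.finite_toSet _)).trans ?_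
    · rintro _ ⟨σ, rfl⟩
      rw [Finset.mem_coe, Multiset.mem_toFinset, mem_nthRoots N.factorial_pos]
      change σ ϖ ^ _ = _
      rw [← map_pow, hϖ, map_natCast]
    · rw [Set.ncard_coe_finset]
      exact (Multiset.toFinset_card_le _).trans (card_nthRoots _ _)
  have := het2_fi ϖ
  refine ⟨MulAction.stabilizer (Gp p) ϖ ⊓ H, inferInstance,
    Subgroup.index_inf_le.trans (Nat.mul_le_mul h4 h2), fun σ hσ u hu hN => ?_⟩
  obtain ⟨z, hz⟩ := het2_val hϖ hu hN
  have h5 : 0 < ‖u‖ := norm_pos_iff.2 hu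
  have h6 : ‖u / ϖ ^ z‖ ≤ 1 := by rw [norm_div, norm_zpow, ← hz, div_self h5.ne']
  have h7 : (MulAction.stabilizer (Gp p) (u / ϖ ^ z)).index ≤ N * N.factorial :=
    (het2_idx u ϖ z).trans (Nat.mul_le_mul (by rwa [MulAction.index_stabilizer]) h4)
  have h8 := het2_mv σ ⟨_, h6⟩ (h3 σ hσ.2 _ (het2_pow ⟨_, h6⟩ h7))
  have h9 : σ ϖ = ϖ := hσ.1
  rwa [Subtype.coe_mk, map_div₀, map_zpow₀, h9, ← sub_div, norm_div, norm_zpow, ← hz,
    div_lt_one h5] at h8

end Pool.Agent.MP_8299d6_al.Up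

end
end
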