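import Pool.Agent.Mg.X8299d6.Gc66611
import Pool.Agent.Mg.X8299d6.Gc62318

section

open Matrix

noncomputable section

namespace Pool.Agent.MP_8299d6_al.Up

open Pool.Agent.MP_810665_al (IrrChar)

variable {n : ℕ} {F : Type} [Field F] [Finite F]

omit [Finite F] in
lemma cbr_mul_cPm (w : Equiv.Perm (Fin n)) (x : GLn n F) (i j : Fin n) :
    (x * cPm F w).1 i j = x.1 i (w j) := by
  have hm : IsMon w (fun _ => (1 : Fˣ)) (cPm F w) := fun i j => by
    rw [cPm_val]; simp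
  rw [Units.val_mul, xbru_mul_mon hm]
  simp

lemma cbr_tri {d : Fin n → ℕ} (hd : Monotone d) {a : GLn n F}
    (ha : ∀ i j, j < i → a.1 i j = 0) : a ∈ cP F d :=
  mem_cP.2 fun i j h => ha i j (lt_of_not_ge fun h' => absurd (hd h') (not_le.2 h))

lemma cbr_back (c : Fin n → ℕ) (s : Equiv.Perm (Fin n)) {z : GLn n F} (hz : z ∈ cP F (c ∘ s)) :
    cPm F s * z * (cPm F s)⁻¹ ∈ cP F c := by
  have h : cCw s⁻¹ z ∈ cP F c := cCw_mem_cP.2 hz
  rw [cCw, map_inv, inv_inv] at h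
  exact h

/-- Bruhat decomposition for two parabolic subgroups -/
theorem bruhat_par (c c' : Fin n → ℕ) (g : GLn n F) :
    ∃ x ∈ cP F c, ∃ y ∈ cP F c', ∃ w : Equiv.Perm (Fin n), g = x * cPm F w * y := by
  obtain ⟨a, ha, b, hb, w, t, y, hy, e⟩ :=
    bruhat ((cPm F (Tuple.sort c))⁻¹ * g * cPm F (Tuple.sort c'))
  have h1 : a ∈ cP F (c ∘ Tuple.sort c) := cbr_tri (Tuple.monotone_sort c) ha.1
  have h2 : b ∈ cP F (c' ∘ Tuple.sort c') := cbr_tri (Tuple.monotone_sort c') hb.1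
  have h3 : y * cPm F w⁻¹ ∈ cP F (c ∘ Tuple.sort c) := by
    refine cbr_tri (Tuple.monotone_sort c) fun i j h => ?_
    rw [cbr_mul_cPm, hy, if_neg]
    simpa using h.ne'
  refine ⟨_, cbr_back c _ ((cP F _).mul_mem h1 h3), _, cbr_back c' _ h2,
    Tuple.sort c * w * (Tuple.sort c')⁻¹, ?_⟩
  have e2 : g = cPm F (Tuple.sort c) * (a * y * b) * (cPm F (Tuple.sort c'))⁻¹ := by
    rw [← e]; group
  rw [map_mul, map_mul, map_inv, map_inv]
  refine e2.trans ?_
  group

/-- a permutation matrix in the product of two parabolic subgroups with the same Levi factor -/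
theorem perm_uniq {c c' : Fin n → ℕ} (h : SameP c c') {v : Equiv.Perm (Fin n)} {x y : GLn n F}
    (hx : x ∈ cP F c) (hy : y ∈ cP F c') (e : cPm F v = x * y) (i : Fin n) : c (v i) = c i := by
  have hx' : x⁻¹ ∈ cP F c := (cP F c).inv_mem hx
  have ey : y = x⁻¹ * cPm F v := by rw [e, inv_mul_cancel_left]
  have key : ∀ j, c' (v j) ≤ c' j := by
    intro j
    have hex : ∃ k, (cPr c x⁻¹).1 k (v j) ≠ 0 := by
      by_contra hno
      push Not at hno
      have h1 : ((cPr c x⁻¹)⁻¹ * cPr c x⁻¹).1 (v j) (v j) = 0 := by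
        rw [Units.val_mul, mul_apply]
        exact Finset.sum_eq_zero fun k _ => by rw [hno k, mul_zero]
      rw [inv_mul_cancel, Units.val_one, one_apply_eq] at h1
      exact one_ne_zero h1
    obtain ⟨k, hk⟩ := hex
    rw [cPr_val hx'] at hk
    by_cases hc : c k = c (v j)
    · rw [if_pos hc, ← cbr_mul_cPm, ← ey] at hk
      rw [← (h k (v j)).1 hc]
      exact le_of_not_gt fun hlt => hk (mem_cP.1 hy k j hlt)
    · rw [if_neg hc] at hk
      exact absurd rfl hk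
  have hs : ∑ j, c' (v j) = ∑ j, c' j := Equiv.sum_comp v c'
  have := (Finset.sum_eq_sum_iff_of_le fun j _ => key j).1 hs i (Finset.mem_univ i)
  exact (h _ _).2 this

end Pool.Agent.MP_8299d6_al.Up

end
end

section

open Matrix

noncomputable section

namespace Pool.Agent.MP_8299d6_al.Up

open Pool.Agent.MP_810665_al (IrrChar)

variable {G : Type} [Group G] [Finite G] {K K' : Subgroup G} {f f' : G → ℂ}

open Classical in
/-- column orthogonality -/
theorem ctc_col [Fintype G] (x y : G) :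
    ∑ χ ∈ Irr G, χ x * χ y⁻¹ = ∑ t : G, if y = t * x * t⁻¹ then (1 : ℂ) else 0 := by
  have h := class_eq_zero
    (fun y => ∑ χ ∈ Irr G, χ x * χ y⁻¹ - ∑ t : G, if y = t * x * t⁻¹ then (1 : ℂ) else 0)
    (fun g z => ?_) fun ψ hψ => ?_
  · exact sub_eq_zero.1 (congrFun h y)
  · congr 1
    · refine Finset.sum_congr rfl fun χ hχ => ?_
      rw [← MP_810665_al.irr_conj (mem_Irr.1 hχ) g⁻¹ z]
      congr 2
      group
    · rw [← Equiv.sum_comp (Equiv.mulLeft z)]
      refine Finset.sum_congr rfl fun t _ => if_congr ⟨fun e => ?_, fun e => ?_⟩ rfl rfl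
      · have e' : z * g * z⁻¹ = z * (t * x * t⁻¹) * z⁻¹ := e.trans (by simp [mul_assoc])
        exact mul_left_cancel (mul_right_cancel e')
      · simp [e, mul_assoc]
  · have e1 : ∑ g, (∑ χ ∈ Irr G, χ x * χ g⁻¹) * ψ g = ψ x * Nat.card G := by
      simp only [Finset.sum_mul]
      rw [Finset.sum_comm, Finset.sum_eq_single ψ (fun χ hχ hne => ?_) fun h => absurd hψ h]
      · rw [← MP_810665_al.irr_norm (mem_Irr.1 hψ), Finset.mul_sum]
        exact Finset.sum_congr rfl fun g _ => by ring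
      · have := MP_810665_al.irr_orth (mem_Irr.1 hψ) (mem_Irr.1 hχ) hne.symm
        rw [← mul_zero (χ x), ← this, Finset.mul_sum]
        exact Finset.sum_congr rfl fun g _ => by ring
    have e2 : ∑ g, (∑ t : G, if g = t * x * t⁻¹ then (1 : ℂ) else 0) * ψ g =
        ψ x * Nat.card G := by
      simp only [Finset.sum_mul]
      rw [Finset.sum_comm]
      simp [MP_810665_al.irr_conj (mem_Irr.1 hψ), mul_comm]
    simp only [sub_mul, Finset.sum_sub_distrib, e1, e2, sub_self]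

open Classical in
theorem ctc_dc [Fintype G] (K K' : Subgroup G) (T : G → ℂ)
    (hT : ∀ x ∈ K, ∀ y ∈ K', ∀ g, T (x * g * y) = T g) (y : G)
    (h2 : T y = Nat.card ↥(K ⊓ cCj y K')) :
    ∑ g, (if ∃ a ∈ K, ∃ a' ∈ K', g = a * y * a' then T g else 0) = Nat.card K * Nat.card K' := by
  have e1 : ∀ g, cSum K (fun a => if y⁻¹ * a⁻¹ * g ∈ K' then T g else 0) =
      T y * if ∃ a ∈ K, ∃ a' ∈ K', g = a * y * a' then T g else 0 := fun g => by
    split_ifs with h
    · obtain ⟨a, ha, a', ha', rfl⟩ := h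
      rw [← cSum_left ha, ← cSum_inv, h2, ← cSum_const, cSum_ite, cSum_ite]
      refine Finset.sum_congr rfl fun b _ => ?_
      have e : y⁻¹ * (a * b⁻¹)⁻¹ * (a * y * a') = y⁻¹ * b * y * a' := by group
      simp only [e, Subgroup.mem_inf, mem_cCj, K'.mul_mem_cancel_right ha', ite_and]
    · rw [mul_zero, cSum_congr (f' := fun _ => 0), cSum_const, mul_zero]
      exact fun a ha => if_neg fun h' => h ⟨a, ha, _, h', by group⟩
  have e2 : ∀ a ∈ K, ∑ g, (if y⁻¹ * a⁻¹ * g ∈ K' then T g else 0) = Nat.card K' * T y :=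
    fun a ha => by
      rw [← Equiv.sum_comp (Equiv.mulLeft (a * y)), ← cSum_const, cSum_ite]
      refine Finset.sum_congr rfl fun b _ => ?_
      have e : y⁻¹ * a⁻¹ * (a * y * b) = b := by group
      simp only [Equiv.coe_mulLeft, e]
      split_ifs with hb
      · exact hT a ha b hb y
      · rfl
  have e3 := cSum_sum K Finset.univ fun g a => if y⁻¹ * a⁻¹ * g ∈ K' then T g else 0
  rw [cSum_congr e2, cSum_const] at e3
  simp only [e1] at e3
  rw [← Finset.mul_sum] at e3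
  refine mul_left_cancel₀ (a := T y) (h2 ▸ ccard_ne _) ?_
  rw [← e3]
  ring

/-- Frobenius reciprocity, Parseval and Mackey in one formula -/
theorem cPar (K K' : Subgroup G) (f f' : G → ℂ) :
    ∑ χ ∈ Irr G, cIp K χ f * cIp K' χ f' = cSum ⊤ (cT K K' f f') := by
  classical
  have := Fintype.ofFinite G
  have e1 : ∀ χ : G → ℂ, cIp K χ f * cIp K' χ f' =
      cSum K fun a => cSum K' fun b => f a * f' b⁻¹ * (χ b * χ a⁻¹) := fun χ => by
    rw [cIp_comm K, cIp, cIp, ← cSum_mul']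
    refine cSum_congr fun a _ => ?_
    rw [← cSum_mul]
    exact cSum_congr fun b _ => by ring
  have e2 : ∀ t : G, cT K K' f f' t = cSum K fun a => cSum K' fun b =>
      f a * f' b⁻¹ * if a = t * b * t⁻¹ then (1 : ℂ) else 0 := fun t => by
    rw [cT, cIp, cSum_ite, cSum_ite]
    refine Finset.sum_congr rfl fun a _ => ?_
    have e : ∀ b, a = t * b * t⁻¹ ↔ b = t⁻¹ * a * t := fun b =>
      ⟨fun e => by rw [e]; group, fun e => by rw [e]; group⟩
    rw [cSum_ite, Finset.sum_eq_single (t⁻¹ * a * t) (fun b _ hb => by simp [e, hb]) (by simp),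
      if_pos ((e _).2 rfl)]
    simp only [Subgroup.mem_inf, mem_cCj, ite_and, mul_one, _root_.mul_inv_rev, inv_inv,
      mul_assoc]
  simp only [e1]
  rw [cSum_top]
  simp only [e2]
  rw [← cSum_sum, ← cSum_sum]
  refine cSum_congr fun a _ => ?_
  rw [← cSum_sum, ← cSum_sum]
  refine cSum_congr fun b _ => ?_
  rw [← Finset.mul_sum, ← Finset.mul_sum, ctc_col]

theorem cT_mul (h : ChOn K f) (h' : ChOn K' f') {x y : G} (hx : x ∈ K) (hy : y ∈ K') (g : G) :
    cT K K' f f' (x * g * y) = cT K K' f f' g := by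
  have e : ∀ z, (x * g * y)⁻¹ * (x * z * x⁻¹) * (x * g * y) = y⁻¹ * (g⁻¹ * z * g) * y⁻¹⁻¹ :=
    fun z => by group
  have m : ∀ z, x * z * x⁻¹ ∈ K ⊓ cCj (x * g * y) K' ↔ z ∈ K ⊓ cCj g K' := fun z => by
    rw [Subgroup.mem_inf, Subgroup.mem_inf, mem_cCj, mem_cCj, e,
      K.mul_mem_cancel_right (K.inv_mem hx), K.mul_mem_cancel_left hx,
      K'.mul_mem_cancel_right (K'.inv_mem (K'.inv_mem hy)), K'.mul_mem_cancel_left (K'.inv_mem hy)]
  rw [cT, cT, cIp, cIp, ← cSum_bij (K := K ⊓ cCj g K') (fun z => x * z * x⁻¹) (fun z => (m z).2)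
    (fun a _ b _ e => mul_left_cancel (mul_right_cancel e))
    fun z hz => ⟨x⁻¹ * z * x, (m _).1 (by simpa [mul_assoc] using hz), by group⟩]
  refine cSum_congr fun z hz => ?_
  have e2 : (x * z * x⁻¹)⁻¹ = x * z⁻¹ * x⁻¹ := by group
  rw [h.conj hz.1 hx, e2, e, h'.conj (mem_cCj.1 ((cCj g K').inv_mem hz.2)) (K'.inv_mem hy)]

theorem cT_nat (h : ChOn K f) (h' : ChOn K' f') (g : G) : ∃ k : ℕ, cT K K' f f' g = k := by
  obtain ⟨k, hk⟩ := (h.mono (K := K ⊓ cCj g K') inf_le_left).cIp_nat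
    (h'.map (fun x => g⁻¹ * x * g) (fun x hx => mem_cCj.1 hx.2) fun x _ y _ => by group)
  exact ⟨k * Nat.card ↥(K ⊓ cCj g K'), by rw [Nat.cast_mul, ← hk, cT]⟩

theorem exists_common (h : ChOn K f) (h' : ChOn K' f') (hne : cIp (K ⊓ K') f f' ≠ 0) :
    ∃ χ ∈ Irr G, cIp K χ f ≠ 0 ∧ cIp K' χ f' ≠ 0 := by
  by_contra hn
  have := Fintype.ofFinite G
  have e := cPar K K' f f'
  choose k hk using cT_nat h h'
  rw [Finset.sum_eq_zero fun χ hχ => by_contra fun h0 => hn ⟨χ, hχ, mul_ne_zero_iff.1 h0⟩,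
    cSum_top, Finset.sum_congr rfl fun g _ => hk g, ← Nat.cast_sum, eq_comm, Nat.cast_eq_zero,
    Finset.sum_eq_zero_iff] at e
  have e1 := hk 1
  have e2 : cCj (1 : G) K' = K' := Subgroup.ext fun x => by simp [mem_cCj]
  rw [e 1 (Finset.mem_univ _), cT, e2] at e1
  exact hne (by simpa using e1)

theorem exists_cT (h : ChOn K f) (h' : ChOn K' f') {χ : G → ℂ} (hχ : χ ∈ Irr G)
    (h1 : cIp K χ f ≠ 0) (h2 : cIp K' χ f' ≠ 0) : ∃ g, cT K K' f f' g ≠ 0 := by
  by_contra hn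
  have e := cPar K K' f f'
  have a : ∀ ψ : G → ℂ, ∃ k : ℕ, ψ ∈ Irr G → cIp K ψ f * cIp K' ψ f' = k := fun ψ => by
    by_cases hψ : ψ ∈ Irr G
    · obtain ⟨k, hk⟩ := (irr_chOn hψ K).cIp_nat h
      obtain ⟨k', hk'⟩ := (irr_chOn hψ K').cIp_nat h'
      exact ⟨k * Nat.card K * (k' * Nat.card K'), fun _ => by rw [hk, hk']; push_cast; rfl⟩
    · exact ⟨0, fun h0 => absurd h0 hψ⟩
  choose k hk using a
  rw [cSum_congr (f' := fun _ => 0) fun g _ => by_contra fun h0 => hn ⟨g, h0⟩, cSum_const,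
    mul_zero, Finset.sum_congr rfl hk, ← Nat.cast_sum, Nat.cast_eq_zero,
    Finset.sum_eq_zero_iff] at e
  exact mul_ne_zero h1 h2 (by rw [hk χ hχ, e χ hχ, Nat.cast_zero])

/-- summing a function that is the size of the stabiliser on some double cosets -/
theorem dc_count (K K' : Subgroup G) (T : G → ℂ)
    (hT : ∀ x ∈ K, ∀ y ∈ K', ∀ g, T (x * g * y) = T g) {X : Type} [Finite X] (N : Set X)
    (y : X → G) (k : ℕ) (h1 : ∀ g, T g ≠ 0 → ∃ w ∈ N, ∃ a ∈ K, ∃ a' ∈ K', g = a * y w * a')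
    (h2 : ∀ w ∈ N, T (y w) = Nat.card ↥(K ⊓ cCj (y w) K'))
    (h3 : ∀ w₀ ∈ N, {w | w ∈ N ∧ ∃ a ∈ K, ∃ a' ∈ K', y w = a * y w₀ * a'}.ncard = k) :
    k * cSum ⊤ T = N.ncard * Nat.card K * Nat.card K' := by
  classical
  have := Fintype.ofFinite G
  have := Fintype.ofFinite X
  have e1 := Finset.sum_congr (s₁ := N.toFinset) rfl fun w hw =>
    ctc_dc K K' T hT (y w) (h2 w (Set.mem_toFinset.1 hw))
  rw [Finset.sum_const, nsmul_eq_mul, ← Set.ncard_eq_toFinset_card', Finset.sum_comm] at e1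
  rw [mul_assoc, ← e1, cSum_top, Finset.mul_sum]
  refine Finset.sum_congr rfl fun g _ => ?_
  by_cases h0 : T g = 0
  · simp [h0]
  obtain ⟨w₀, hw₀, a, ha, a', ha', rfl⟩ := h1 g h0
  rw [← Finset.sum_filter, Finset.sum_const, nsmul_eq_mul, ← h3 w₀ hw₀,
    Set.ncard_eq_toFinset_card']
  congr 3
  ext w
  simp only [Set.mem_toFinset, Set.mem_ofPred_eq, Finset.mem_filter]
  refine and_congr_right fun _ => ⟨?_, ?_⟩
  · rintro ⟨b, hb, b', hb', e⟩
    exact ⟨a * b⁻¹, K.mul_mem ha (K.inv_mem hb), b'⁻¹ * a', K'.mul_mem (K'.inv_mem hb') ha',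
      by rw [e]; group⟩
  · rintro ⟨b, hb, b', hb', e⟩
    refine ⟨b⁻¹ * a, K.mul_mem (K.inv_mem hb) ha, a' * b'⁻¹, K'.mul_mem ha' (K'.inv_mem hb'), ?_⟩
    rw [show b⁻¹ * a * y w₀ * (a' * b'⁻¹) = b⁻¹ * (a * y w₀ * a') * b'⁻¹ by group, e]
    group

end Pool.Agent.MP_8299d6_al.Up

end
end

section

open Matrix

noncomputable section

namespace Pool.Agent.MP_8299d6_al.Up

open Pool.Agent.MP_810665_al (IrrChar)

variable {n : ℕ} {F : Type} [Field F] [Finite F] {c c' : Fin n → ℕ}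
  {φ φ' : GLn n F → ℂ}

theorem Cusp.van1 (hφ : Cusp c φ) (φ' : GLn n F → ℂ) (h : ∃ i j, c i = c j ∧ c' i < c' j) :
    cIp (cP F c ⊓ cP F c') (cF c φ) (cF c' φ') = 0 := by
  have h1 : ∀ u ∈ cL F c ⊓ cN F c', cIp (cP F c ⊓ cP F c') (cF c φ) (cF c' φ') =
      cSum (cP F c ⊓ cP F c') fun x => φ (cPr c x * u) * φ' (cPr c' x⁻¹) := by
    intro u hu
    have huP : u ∈ cP F c := cL_le_cP c hu.1
    have huP' : u ∈ cP F c' := cN_le_cP c' hu.2
    unfold cIp
    rw [← cSum_right (H := cP F c ⊓ cP F c') ⟨huP, huP'⟩]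
    refine cSum_congr fun x hx => ?_
    unfold cF
    rw [cPr_mul hx.1 huP, cPr_of_cL hu.1, _root_.mul_inv_rev,
      cPr_mul (inv_mem huP') (inv_mem hx.2),
      (cPr_eq_one (inv_mem huP')).2 (inv_mem hu.2), one_mul]
  have h2 : (Nat.card ↥(cL F c ⊓ cN F c') : ℂ) *
      cIp (cP F c ⊓ cP F c') (cF c φ) (cF c' φ') = 0 := by
    rw [← cSum_const, cSum_congr h1, cSum_comm,
      cSum_congr (f' := fun _ => 0) fun x _ => ?_, cSum_const, mul_zero]
    rw [cSum_mul' _ _ fun u => φ (cPr c x * u), hφ.van c' h _ (cPr_mem c x), zero_mul]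
  exact (mul_eq_zero.1 h2).resolve_left (ccard_ne _)

theorem Cusp.van2 (hφ : Cusp c φ) (hφ' : Cusp c' φ')
    (h : cIp (cP F c ⊓ cP F c') (cF c φ) (cF c' φ') ≠ 0) : SameP c c' ∧ φ = φ' := by
  have h1 : ∀ i j, c i = c j → ¬ c' i < c' j := fun i j e l => h (hφ.van1 φ' ⟨i, j, e, l⟩)
  have h2 : ∀ i j, c' i = c' j → ¬ c i < c j := fun i j e l => h (by
    rw [cIp_comm, inf_comm]
    exact hφ'.van1 φ ⟨i, j, e, l⟩)
  have hs : SameP c c' := fun i j =>
    ⟨fun e => le_antisymm (not_lt.1 (h1 j i e.symm)) (not_lt.1 (h1 i j e)),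
      fun e => le_antisymm (not_lt.1 (h2 j i e.symm)) (not_lt.1 (h2 i j e))⟩
  have hL := hs.cL_eq (F := F)
  have hK : cL F c ≤ cP F c ⊓ cP F c' := le_inf (cL_le_cP c) (hL ▸ cL_le_cP c')
  have h3 := (hφ.irr.infl hK inf_le_left).eq_of_cIp (hφ'.irr.infl (hL ▸ hK) inf_le_right) h
  refine ⟨hs, funext fun x => ?_⟩
  by_cases hx : x ∈ cL F c
  · have h4 := h3 x (hK hx)
    unfold cF at h4
    rwa [cPr_of_cL hx, cPr_of_cL (hL ▸ hx)] at h4
  · rw [hφ.zero x hx, hφ'.zero x (hL ▸ hx)]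

theorem Cusp.van3 (hφ : Cusp c φ) (h : SameP c c') :
    cIp (cP F c ⊓ cP F c') (cF c φ) (cF c' φ) = Nat.card ↥(cP F c ⊓ cP F c') := by
  have hL := h.cL_eq (F := F)
  have hK : cL F c ≤ cP F c ⊓ cP F c' := le_inf (cL_le_cP c) (hL ▸ cL_le_cP c')
  rw [← (hφ.irr.infl hK inf_le_left).cIp_self]
  refine cIp_congr (fun _ _ => rfl) fun x hx => ?_
  unfold cF
  rw [h.cPr_eq hx.1 hx.2]

/-- every cuspidal pair has a character above it -/
theorem Cusp.exists_over (hφ : Cusp c φ) : ∃ χ ∈ Irr (GLn n F), Over χ c φ := by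
  have h1 := (hφ.irr.infl (cL_le_cP c) le_rfl).chOn
  obtain ⟨χ, hχ, h2, -⟩ := exists_common h1 h1 (by
    rw [hφ.van3 fun _ _ => Iff.rfl]
    exact ccard_ne _)
  exact ⟨χ, hχ, h2⟩

/-- uniqueness of the cuspidal support -/
theorem Cusp.supp (hφ : Cusp c φ) (hφ' : Cusp c' φ') {χ : GLn n F → ℂ} (hχ : χ ∈ Irr (GLn n F))
    (h : Over χ c φ) (h' : Over χ c' φ') :
    ∃ w : Equiv.Perm (Fin n), φ = fun x => φ' (cCw w x) := by
  have h1 := (hφ.irr.infl (cL_le_cP c) le_rfl).chOn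
  have h2 := (hφ'.irr.infl (cL_le_cP c') le_rfl).chOn
  obtain ⟨g, hg⟩ := exists_cT h1 h2 hχ h h'
  obtain ⟨a, ha, a', ha', w, rfl⟩ := bruhat_par c c' g
  rw [cT_mul h1 h2 ha ha', cT_cPm] at hg
  exact ⟨w, (hφ.van2 (hφ'.perm w) hg).2⟩

end Pool.Agent.MP_8299d6_al.Up

end
end

section

open Matrix

noncomputable section

namespace Pool.Agent.MP_8299d6_al.Up

open Pool.Agent.MP_810665_al (IrrChar)

variable {n : ℕ} {F : Type} [Field F] [Finite F] {c c' : Fin n → ℕ}
  {φ χ χ' : GLn n F → ℂ}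

theorem cind_ch (hφ : Cusp c φ) : ChOn (cP F c) (cF c φ) :=
  (hφ.irr.infl (cL_le_cP c) le_rfl).chOn

/-- the intertwining number of two parabolic inductions of a cuspidal character -/
theorem Cusp.ind (hφ : Cusp c φ) (h : SameP c c') :
    ({v : Equiv.Perm (Fin n) | ∀ i, c (v i) = c i}.ncard : ℂ) *
      ∑ χ ∈ Irr (GLn n F), cIp (cP F c) χ (cF c φ) * cIp (cP F c') χ (cF c' φ) =
    ({w : Equiv.Perm (Fin n) | SameP c (c ∘ w.symm) ∧ ∀ x, φ (cCw w x) = φ x}.ncard : ℂ) *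
      Nat.card (cP F c) * Nat.card (cP F c') := by
  have hφ' := hφ.sameP h
  have sp : ∀ w : Equiv.Perm (Fin n), SameP (c ∘ w.symm) (c' ∘ w.symm) := fun w i j => h _ _
  have hT := fun x hx y hy g => cT_mul (cind_ch hφ) (cind_ch hφ') (x := x) (y := y) hx hy g
  rw [cPar]
  refine dc_count _ _ _ hT _ (cPm F) _ (fun g hg => ?_) (fun w hw => ?_) fun w₀ hw₀ => ?_
  · obtain ⟨x, hx, y, hy, w, rfl⟩ := bruhat_par c c' g
    rw [hT x hx y hy, cT_cPm] at hg
    obtain ⟨h1, h2⟩ := hφ.van2 (hφ'.perm w) hg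
    exact ⟨w, ⟨h1.trans (sp w).symm, fun x => (congrFun h2 x).symm⟩, x, hx, y, hy, rfl⟩
  · rw [cT_cPm, cCj_cP, funext hw.2]
    exact hφ.van3 (hw.1.trans (sp w))
  · rw [← Set.ncard_image_of_injective {v : Equiv.Perm (Fin n) | ∀ i, c (v i) = c i}
      (mul_left_injective w₀)]
    congr 1
    ext w
    constructor
    · rintro ⟨-, a, ha, a', ha', e⟩
      refine ⟨w * w₀⁻¹, perm_uniq (hw₀.1.trans (sp w₀)) ha
        (y := cPm F w₀ * a' * (cPm F w₀)⁻¹) (cCw_mem_cP.1 ?_) ?_, by simp⟩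
      · simpa [cCw, mul_assoc] using ha'
      · rw [map_mul, map_inv, e]
        group
    · rintro ⟨v, hv, rfl⟩
      have hv' : ∀ i, c (v.symm i) = c i := fun i => by rw [← hv (v.symm i), v.apply_symm_apply]
      refine ⟨⟨fun i j => ?_, fun x => ?_⟩, cPm F v, cL_le_cP c (cPm_mem_cL.2 hv), 1, one_mem _,
        by simp⟩
      · rw [← hv' i, ← hv' j]
        exact hw₀.1 _ _
      · rw [← cCw_cCw, hw₀.2, hφ.perm_eq hv]

theorem cind_nat (hφ : Cusp c φ) : ∃ k : (Fin n → ℕ) → (GLn n F → ℂ) → ℕ,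
    (∀ d, SameP c d → ∀ χ ∈ Irr (GLn n F), Over χ d φ ↔ k d χ ≠ 0) ∧
    ∀ d d', SameP c d → SameP c d' →
      {v : Equiv.Perm (Fin n) | ∀ i, c (v i) = c i}.ncard * ∑ χ ∈ Irr (GLn n F), k d χ * k d' χ =
      {w : Equiv.Perm (Fin n) | SameP c (c ∘ w.symm) ∧ ∀ x, φ (cCw w x) = φ x}.ncard := by
  have h0 : ∀ (d : Fin n → ℕ) (χ : GLn n F → ℂ), ∃ k : ℕ, SameP c d → χ ∈ Irr (GLn n F) →
      cIp (cP F d) χ (cF d φ) = k * Nat.card (cP F d) := fun d χ => by
    by_cases h : SameP c d ∧ χ ∈ Irr (GLn n F)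
    · obtain ⟨k, hk⟩ := (irr_chOn h.2 _).cIp_nat (cind_ch (hφ.sameP h.1))
      exact ⟨k, fun _ _ => hk⟩
    · exact ⟨0, fun h1 h2 => (h ⟨h1, h2⟩).elim⟩
  choose k hk using h0
  refine ⟨k, fun d hd χ hχ => ?_, fun d d' hd hd' => ?_⟩
  · rw [Over, hk d χ hd hχ, mul_ne_zero_iff_right (ccard_ne _), Nat.cast_ne_zero]
  · have h1 := (hφ.sameP hd).ind (hd.symm.trans hd')
    have e1 : {v : Equiv.Perm (Fin n) | ∀ i, d (v i) = d i} = {v | ∀ i, c (v i) = c i} :=
      Set.ext fun v => forall_congr' fun i => (hd _ _).symm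
    have e2 : {w : Equiv.Perm (Fin n) | SameP d (d ∘ w.symm) ∧ ∀ x, φ (cCw w x) = φ x} =
        {w | SameP c (c ∘ w.symm) ∧ ∀ x, φ (cCw w x) = φ x} :=
      Set.ext fun w => and_congr_left' (forall₂_congr fun i j =>
        iff_congr (hd _ _).symm (hd _ _).symm)
    rw [e1, e2, Finset.sum_congr rfl fun χ hχ => by
      rw [hk d χ hd hχ, hk d' χ hd' hχ, mul_mul_mul_comm], ← Finset.sum_mul, ← mul_assoc,
      mul_assoc _ (Nat.card (cP F d) : ℂ)] at h1
    exact_mod_cast mul_right_cancel₀ (mul_ne_zero (ccard_ne _) (ccard_ne _)) h1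

theorem cind_pos (c : Fin n → ℕ) : 0 < {v : Equiv.Perm (Fin n) | ∀ i, c (v i) = c i}.ncard :=
  (Set.ncard_pos (Set.toFinite _)).2 ⟨1, fun _ => rfl⟩

theorem cind_card (k : (GLn n F → ℂ) → ℕ) (s : Finset (GLn n F → ℂ))
    (hs : ∀ χ ∈ s, χ ∈ Irr (GLn n F) ∧ k χ ≠ 0) : s.card ≤ ∑ χ ∈ Irr (GLn n F), k χ * k χ := by
  refine le_trans ?_ (Finset.sum_le_sum_of_subset fun χ hχ => (hs χ hχ).1)
  rw [Finset.card_eq_sum_ones]
  exact Finset.sum_le_sum fun χ hχ => Nat.pos_of_ne_zero (mul_self_ne_zero.2 (hs χ hχ).2)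

theorem Over.sameP (ho : Over χ c φ) (hφ : Cusp c φ) (h : SameP c c') (hχ : χ ∈ Irr (GLn n F)) :
    Over χ c' φ := by
  obtain ⟨k, h1, h2⟩ := cind_nat hφ
  have r : SameP c c := fun _ _ => Iff.rfl
  have a1 := Nat.eq_of_mul_eq_mul_left (cind_pos c) ((h2 c c r r).trans (h2 c c' r h).symm)
  have a2 := Nat.eq_of_mul_eq_mul_left (cind_pos c) ((h2 c' c' h h).trans (h2 c c' r h).symm)
  have a3 : ∑ χ ∈ Irr (GLn n F), ((k c χ : ℤ) - k c' χ) ^ 2 = 0 := by
    zify at a1 a2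
    rw [Finset.sum_congr rfl fun χ _ => (by ring : ((k c χ : ℤ) - k c' χ) ^ 2 =
      k c χ * k c χ + k c' χ * k c' χ - 2 * (k c χ * k c' χ)), Finset.sum_sub_distrib,
      Finset.sum_add_distrib, ← Finset.mul_sum, a1, a2]
    ring
  have a4 := (Finset.sum_eq_zero_iff_of_nonneg fun _ _ => sq_nonneg _).1 a3 χ hχ
  have a5 := (h1 c r χ hχ).1 ho
  rw [pow_eq_zero_iff two_ne_zero] at a4
  exact (h1 c' h χ hχ).2 (by omega)

theorem Cusp.over_count (hφ : Cusp c φ) (s : Finset (GLn n F → ℂ))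
    (hs : ∀ χ ∈ s, χ ∈ Irr (GLn n F) ∧ Over χ c φ) : s.card ≤ n.factorial := by
  obtain ⟨k, h1, h2⟩ := cind_nat hφ
  have r : SameP c c := fun _ _ => Iff.rfl
  refine (cind_card (k c) s fun χ hχ => ⟨(hs χ hχ).1, (h1 c r χ (hs χ hχ).1).1 (hs χ hχ).2⟩).trans
    ((Nat.le_mul_of_pos_left _ (cind_pos c)).trans ((h2 c c r r).trans_le ?_))
  refine (Set.ncard_le_card _).trans_eq ?_
  rw [Nat.card_perm, Nat.card_fin]

theorem Cusp.over_uniq (hφ : Cusp c φ) (hr : Rigid c φ) (hχ : χ ∈ Irr (GLn n F))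
    (hχ' : χ' ∈ Irr (GLn n F)) (h : Over χ c φ) (h' : Over χ' c φ) : χ = χ' := by
  classical
  obtain ⟨k, h1, h2⟩ := cind_nat hφ
  have r : SameP c c := fun _ _ => Iff.rfl
  have a1 := cind_card (k c) {χ, χ'} (by
    simpa using ⟨⟨hχ, (h1 c r χ hχ).1 h⟩, hχ', (h1 c r χ' hχ').1 h'⟩)
  have a2 := (h2 c c r r).trans_le (Set.ncard_le_ncard
    (t := {v : Equiv.Perm (Fin n) | ∀ i, c (v i) = c i}) fun w hw => hr w hw.1 hw.2)
  have a3 := Nat.le_of_mul_le_mul_left (a2.trans_eq (mul_one _).symm) (cind_pos c)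
  by_contra hne
  rw [Finset.card_pair hne] at a1
  omega

end Pool.Agent.MP_8299d6_al.Up

end
end

section

open Matrix

noncomputable section

namespace Pool.Agent.MP_8299d6_al.Up

open Pool.Agent.MP_810665_al (IrrChar)

variable {n : ℕ} {F : Type} [Field F] [Finite F]

/-- unitriangular elements of the Levi subgroup supported in the columns from `j` on -/
def cgen_K (F : Type) [Field F] [Finite F] (c : Fin n → ℕ) (j : ℕ) : Subgroup (GLn n F) :=
  cPat F (fun i l => c i = c l ∧ i < l ∧ j ≤ l.1)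
    fun _ _ _ h h' => ⟨h.1.trans h'.1, h.2.1.trans h'.2.1, h'.2.2⟩

/-- elements of the Levi subgroup supported in the rows before `j`, columns up to `j` -/
def cgen_M (F : Type) [Field F] [Finite F] (c : Fin n → ℕ) (j : Fin n) : Subgroup (GLn n F) :=
  cPat F (fun i l => c i = c l ∧ i < j ∧ l ≤ j)
    fun _ _ _ h h' => ⟨h.1.trans h'.1, h.2.1, h'.2.2⟩

/-- projection to the indices of the block of `j` before `j` -/
def cgen_p (c : Fin n → ℕ) (j : Fin n) (v : Fin n → F) : Fin n → F :=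
  fun i => if c i = c j ∧ i < j then v i else 0

/-- the column element -/
def cgen_a (c : Fin n → ℕ) (j : Fin n) (v : Fin n → F) : GLn n F :=
  f0aU j (Multiplicative.ofAdd (cgen_p c j v))

variable {c : Fin n → ℕ} {j : Fin n} {ψ : AddChar F ℂ}

omit [Finite F] in
lemma cgen_upd (v : Fin n → F) : Function.update (cgen_p c j v) j 0 = cgen_p c j v :=
  Function.update_eq_self_iff.2 (by simp [cgen_p])

omit [Finite F] in
lemma cgen_a_val (v : Fin n → F) (i l : Fin n) :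
    (cgen_a c j v).1 i l = (1 : Mat n F) i l + if l = j then cgen_p c j v i else 0 := by
  rw [cgen_a, f0aU_val, cgen_upd, Matrix.add_apply, vecMulVec_apply, Pi.single_apply]
  split_ifs <;> simp

omit [Finite F] in
lemma cgen_a_add (v w : Fin n → F) : cgen_a c j (v + w) = cgen_a c j v * cgen_a c j w := by
  rw [cgen_a, cgen_a, cgen_a, ← map_mul, ← ofAdd_add]
  congr 2
  ext i
  simp only [cgen_p, Pi.add_apply]
  split_ifs <;> simp

omit [Finite F] in
lemma cgen_a_one {v : Fin n → F} (h : cgen_p c j v = 0) : cgen_a c j v = 1 := by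
  rw [cgen_a, h, ofAdd_zero, map_one]

lemma cgen_a_pat {R : Fin n → Fin n → Prop} {hR : ∀ i j k, R i j → R j k → R i k}
    (h : ∀ i, c i = c j → i < j → R i j) (v : Fin n → F) : cgen_a c j v ∈ cPat F R hR := by
  intro i l hil
  rw [cgen_a_val, add_eq_left]
  split_ifs with e
  · subst e
    exact if_neg fun h' => hil (h i h'.1 h'.2)
  · rfl

lemma cgen_a_K (v : Fin n → F) : cgen_a c j v ∈ cgen_K F c j :=
  cgen_a_pat (fun _ h h' => ⟨h, h', le_rfl⟩) v

lemma cgen_a_M (v : Fin n → F) : cgen_a c j v ∈ cgen_M F c j :=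
  cgen_a_pat (fun _ h h' => ⟨h, h', le_rfl⟩) v

lemma cgen_K_le (k : ℕ) : cgen_K F c k ≤ cL F c ⊓ cN F (cU n) := fun _ hu =>
  ⟨fun i l h => hu i l fun h' => h h'.1,
    fun i l h => hu i l fun h' => h (Nat.succ_lt_succ h'.2.1)⟩

lemma cgen_K_zero : cL F c ⊓ cN F (cU n) ≤ cgen_K F c 0 := fun _ hu i l h => by
  by_cases e : c i = c l
  · exact hu.2 i l fun h' => h ⟨e, Nat.lt_of_succ_lt_succ h', Nat.zero_le _⟩
  · exact hu.1 i l e

lemma cgen_K_mono (k : ℕ) : cgen_K F c (k + 1) ≤ cgen_K F c k := fun _ hu i l h =>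
  hu i l fun h' => h ⟨h'.1, h'.2.1, Nat.le_of_succ_le h'.2.2⟩

lemma cgen_M_le : cgen_M F c j ≤ cL F c := fun _ hu i l h => hu i l fun h' => h h'.1

omit [Finite F] in
lemma cgen_psi (g : GLn n F) :
    cPsi ψ (cU n) g = ψ (∑ i, ∑ l, if l.1 = i.1 + 1 then g.1 i l else 0) := by
  simp [cPsi, cU]

omit [Finite F] in
lemma cgen_psi_a (v : Fin n → F) : cPsi ψ (cU n) (cgen_a c j v) =
    ψ ((fun i : Fin n => if j.1 = i.1 + 1 then (1 : F) else 0) ⬝ᵥ cgen_p c j v) := by
  rw [cgen_psi]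
  congr 1
  refine Finset.sum_congr rfl fun i _ => ?_
  beta_reduce
  rw [Finset.sum_eq_single j]
  · rw [cgen_a_val, if_pos rfl]
    split_ifs with h
    · rw [one_apply_ne (fun e => by simp [e] at h), zero_add, one_mul]
    · rw [zero_mul]
  · intro l _ hl
    rw [cgen_a_val, if_neg hl, add_zero]
    split_ifs with h
    · exact one_apply_ne (fun e => by simp [e] at h)
    · rfl
  · simp

/-- removing the column `j` -/
lemma cgen_fact {u : GLn n F} (hu : u ∈ cgen_K F c j) :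
    cgen_a c j (-fun i => u.1 i j) * u ∈ cgen_K F c (j + 1) := by
  intro i l h
  by_cases e : l = j
  · subst e
    have h1 : ∀ k, (cgen_a c l (-fun i => u.1 i l)).1 i k * u.1 k l =
        (1 : Mat n F) i k * u.1 k l +
          if k = l then cgen_p c l (-fun i => u.1 i l) i else 0 := fun k => by
      rw [cgen_a_val, add_mul]
      split_ifs with e
      · rw [e, hu l l (by simp), one_apply_eq, mul_one, mul_one]
      · rw [zero_mul]
    rw [Units.val_mul, mul_apply, Finset.sum_congr rfl fun k _ => h1 k, Finset.sum_add_distrib,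
      ← mul_apply, Matrix.one_mul, Finset.sum_ite_eq', if_pos (Finset.mem_univ _), cgen_p]
    split_ifs with e
    · rw [one_apply_ne e.2.ne]
      simp
    · rw [add_zero]
      exact hu i l fun h' => e ⟨h'.1, h'.2.1⟩
  · refine (cgen_K F c j).mul_mem (cgen_a_K _) hu i l fun h' => h ⟨h'.1, h'.2.1, ?_⟩
    have h2 := h'.2.2
    have h3 : l.1 ≠ j.1 := fun e' => e (Fin.ext e')
    omega

/-- `M` normalises the next group and fixes its character -/
lemma cgen_conj {g u : GLn n F} (hg : g ∈ cgen_M F c j) (hu : u ∈ cgen_K F c (j + 1)) :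
    g * u * g⁻¹ ∈ cgen_K F c (j + 1) ∧ cPsi ψ (cU n) (g * u * g⁻¹) = cPsi ψ (cU n) u := by
  have hu0 : ∀ k l, ¬ (c k = c l ∧ k < l ∧ j.1 + 1 ≤ l.1) → (u.1 - 1) k l = 0 := fun k l h => by
    rw [Matrix.sub_apply, hu k l h, sub_self]
  have h1 : (u.1 - 1) * (g⁻¹).1 = u.1 - 1 := by
    conv_rhs => rw [← Matrix.mul_one (u.1 - 1)]
    ext i k
    rw [mul_apply, mul_apply]
    refine Finset.sum_congr rfl fun l _ => ?_
    by_cases h : l < j
    · rw [hu0 i l fun h' => by have := h'.2.2; have : l.1 < j.1 := h; omega, zero_mul, zero_mul]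
    · rw [(cgen_M F c j).inv_mem hg l k fun h' => h h'.2.1]
  have h2 : (g * u * g⁻¹).1 = 1 + g.1 * (u.1 - 1) := by
    rw [← h1, ← Matrix.mul_assoc, Matrix.mul_sub, Matrix.sub_mul, Matrix.mul_one, Units.mul_inv,
      Units.val_mul, Units.val_mul]
    abel
  have h3 : ∀ i l, ¬ i < j → (g * u * g⁻¹).1 i l = u.1 i l := fun i l h => by
    have : (g.1 * (u.1 - 1)) i l = ((1 : Mat n F) * (u.1 - 1)) i l := by
      rw [mul_apply, mul_apply]
      exact Finset.sum_congr rfl fun k _ => by rw [hg i k fun h' => h h'.2.1]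
    rw [h2, Matrix.add_apply, this, Matrix.one_mul, Matrix.sub_apply]
    ring
  have h4 : ∀ i l, ¬ (c i = c l ∧ j.1 + 1 ≤ l.1) →
      (g * u * g⁻¹).1 i l = (1 : Mat n F) i l := fun i l h => by
    rw [h2, Matrix.add_apply, add_eq_left, mul_apply]
    refine Finset.sum_eq_zero fun k _ => ?_
    by_cases e : c i = c k
    · rw [hu0 k l fun h' => h ⟨e.trans h'.1, h'.2.2⟩, mul_zero]
    · rw [mem_cL.1 (cgen_M_le hg) i k e, zero_mul]
  constructor
  · intro i l h
    by_cases e : i < j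
    · refine h4 i l fun h' => h ⟨h'.1, ?_, h'.2⟩
      have : i.1 < j.1 := e
      have := h'.2
      show i.1 < l.1
      omega
    · rw [h3 i l e]
      exact hu i l h
  · rw [cgen_psi, cgen_psi]
    congr 1
    refine Finset.sum_congr rfl fun i _ => Finset.sum_congr rfl fun l _ => ?_
    split_ifs with h
    · by_cases e : i < j
      · have : i.1 < j.1 := e
        rw [h4 i l fun h' => by have := h'.2; omega, hu i l fun h' => by have := h'.2.2; omega]
      · exact h3 i l e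
    · rfl

lemma cgen_conj_a {g : GLn n F} (hg : g ∈ cgen_M F c j) (v : Fin n → F) :
    g * cgen_a c j v = cgen_a c j (g.1 *ᵥ cgen_p c j v) * g := by
  have h1 : Pi.single j 1 ᵥ* g.1 = (1 : F) • Pi.single j 1 := by
    ext l
    rw [single_one_vecMul, one_smul, row_apply, hg j l (by simp), one_apply, Pi.single_apply]
    simp [eq_comm]
  have h2 : cgen_p c j (g.1 *ᵥ cgen_p c j v) = g.1 *ᵥ cgen_p c j v := by
    ext i
    rw [cgen_p]
    split_ifs with h
    · rfl
    · rw [mulVec, dotProduct]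
      refine (Finset.sum_eq_zero fun l _ => ?_).symm
      by_cases e : c l = c j ∧ l < j
      · have e1 : i ≠ l := fun e' => h (e' ▸ e)
        rw [hg i l fun h' => h ⟨h'.1.trans e.1, h'.2.1⟩, one_apply_ne e1, zero_mul]
      · rw [cgen_p, if_neg e, mul_zero]
  rw [cgen_a, f0a_conj one_ne_zero h1, cgen_upd, inv_one, one_smul, cgen_a, h2]

lemma cgen_trans {a : Fin n} (ha : c a = c j ∧ a < j) {ξ : Fin n → F} (h0 : ξ ≠ 0)
    (hξ : ∀ l, ¬ (c l = c j ∧ l < j) → ξ l = 0) : ∃ g ∈ cgen_M F c j, g.1 a = ξ := by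
  obtain ⟨k, hk⟩ := Function.ne_iff.1 h0
  have hk' : c k = c j ∧ k < j := by
    by_contra h
    exact hk (hξ k h)
  have hd : (updateRow (1 : Mat n F) k ξ).det = ξ k := by
    have := det_updateRow_sum (1 : Mat n F) k ξ
    rw [det_one, smul_eq_mul, mul_one] at this
    rw [← this]
    congr 2
    ext j
    simp [one_apply]
  have hu : IsUnit (updateRow (1 : Mat n F) k ξ) := by
    rw [isUnit_iff_isUnit_det, hd]
    exact Ne.isUnit hk
  refine ⟨cPm F (Equiv.swap a k) * hu.unit, (cgen_M F c j).mul_mem ?_ ?_, ?_⟩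
  · intro i l h
    rw [cPm_val, one_apply]
    by_cases e1 : l = a
    · subst e1
      rw [Equiv.swap_apply_left, if_neg, if_neg]
      · rintro rfl
        exact h ⟨rfl, ha.2, ha.2.le⟩
      · rintro rfl
        exact h ⟨hk'.1.trans ha.1.symm, hk'.2, ha.2.le⟩
    · by_cases e2 : l = k
      · subst e2
        rw [Equiv.swap_apply_right, if_neg, if_neg]
        · rintro rfl
          exact h ⟨rfl, hk'.2, hk'.2.le⟩
        · rintro rfl
          exact h ⟨ha.1.trans hk'.1.symm, ha.2, hk'.2.le⟩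
      · rw [Equiv.swap_apply_of_ne_of_ne e1 e2]
  · intro i l h
    rw [IsUnit.unit_spec]
    by_cases e : i = k
    · subst e
      rw [updateRow_self, hξ l fun h' => h ⟨hk'.1.trans h'.1.symm, hk'.2, h'.2.le⟩, one_apply_ne]
      rintro rfl
      exact h ⟨rfl, hk'.2, hk'.2.le⟩
    · rw [updateRow_ne e]
  · ext l
    rw [Units.val_mul, mul_apply, Finset.sum_eq_single k, cPm_val, Equiv.swap_apply_right,
      if_pos rfl, one_mul, IsUnit.unit_spec, updateRow_self]
    · intro i _ hi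
      rw [cPm_val, if_neg, zero_mul]
      intro e
      apply hi
      exact (Equiv.swap a k).injective (e.symm.trans (Equiv.swap_apply_right a k).symm)
    · simp

section Rep
variable {V : Type} [AddCommGroup V] [Module ℂ V]

/-- eigenvectors of the unitriangular elements supported in the columns from `k` on -/
def cgen_W (ψ : AddChar F ℂ) (c : Fin n → ℕ) (r : GLn n F → Module.End ℂ V) (k : ℕ) :
    Submodule ℂ V where
  carrier := {x | ∀ u ∈ cgen_K F c k, r u x = cPsi ψ (cU n) u • x}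
  zero_mem' := fun _ _ => by simp
  add_mem' := fun {x y} hx hy u hu => by rw [map_add, hx u hu, hy u hu, smul_add]
  smul_mem' := fun a x hx u hu => by rw [map_smul, hx u hu, smul_comm]

variable {r : GLn n F → Module.End ℂ V}

lemma cgen_stab (hr : ∀ g ∈ cL F c, ∀ h ∈ cL F c, r (g * h) = r g * r h) {g : GLn n F}
    (hg : g ∈ cgen_M F c j) {x : V} (hx : x ∈ cgen_W ψ c r (j + 1)) :
    r g x ∈ cgen_W ψ c r (j + 1) := fun u hu => by
  obtain ⟨h1, h2⟩ := cgen_conj (ψ := ψ) ((cgen_M F c j).inv_mem hg) hu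
  rw [← Module.End.mul_apply, ← hr u (cgen_K_le _ hu).1 g (cgen_M_le hg),
    show u * g = g * (g⁻¹ * u * g⁻¹⁻¹) by group, hr g (cgen_M_le hg) _ (cgen_K_le _ h1).1,
    Module.End.mul_apply, hx _ h1, h2, map_smul]

lemma cgen_down (hr : ∀ g ∈ cL F c, ∀ h ∈ cL F c, r (g * h) = r g * r h) {x : V}
    (hx : x ∈ cgen_W ψ c r (j + 1))
    (ha : ∀ v, r (cgen_a c j v) x = cPsi ψ (cU n) (cgen_a c j v) • x) :
    x ∈ cgen_W ψ c r j := fun u hu => by
  have h1 := cgen_fact hu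
  have e : u = cgen_a c j (fun i => u.1 i j) * (cgen_a c j (-fun i => u.1 i j) * u) := by
    rw [← mul_assoc, ← cgen_a_add, add_neg_cancel, cgen_a_one (by ext; simp [cgen_p]), one_mul]
  generalize cgen_a c j (-fun i => u.1 i j) * u = u' at h1 e
  generalize (fun i => u.1 i j) = v at e
  rw [e, hr _ (cgen_K_le _ (cgen_a_K v)).1 _ (cgen_K_le _ h1).1, Module.End.mul_apply, hx _ h1,
    map_smul, ha, smul_smul, cPsi_mul ψ (cgen_K_le _ (cgen_a_K v)).2 (cgen_K_le _ h1).2, mul_comm]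

lemma cgen_step (hψ : ψ.IsPrimitive) (hc : Antitone c) (h1 : r 1 = 1)
    (hr : ∀ g ∈ cL F c, ∀ h ∈ cL F c, r (g * h) = r g * r h)
    (hv : ∀ c' : Fin n → ℕ, (∃ i j, c i = c j ∧ c' i < c' j) → ∀ x : V,
      (∀ u ∈ cL F c ⊓ cN F c', r u x = x) → x = 0)
    {x : V} (hx : x ∈ cgen_W ψ c r (j + 1)) (h0 : x ≠ 0) : ∃ y ∈ cgen_W ψ c r j, y ≠ 0 := by
  classical
  have := Fintype.ofFinite F
  have haL : ∀ v, cgen_a c j v ∈ cL F c := fun v => cgen_M_le (cgen_a_M v)
  by_cases hI : ∃ i, c i = c j ∧ i < j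
  swap
  · refine ⟨x, cgen_down hr hx fun v => ?_, h0⟩
    rw [cgen_a_one (funext fun i => if_neg fun h => hI ⟨i, h⟩), h1, cPsi_one, one_smul,
      Module.End.one_apply]
  obtain ⟨i, hi⟩ := hI
  have hi2 : i.1 < j.1 := hi.2
  by_cases ht : ∀ v, r (cgen_a c j v) x = x
  · refine absurd (hv (fun i => if j ≤ i then 1 else 0) ⟨i, j, hi.1, by simp [hi.2]⟩ x
      fun u hu => ?_) h0
    have hu' : u ∈ cgen_K F c j := fun k l h => by
      by_cases e : c k = c l
      · refine hu.2 k l fun h' => h ⟨e, ?_⟩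
        by_cases e1 : j ≤ l <;> by_cases e2 : j ≤ k <;> simp [e1, e2] at h'
        exact ⟨(not_le.1 e2).trans_le e1, e1⟩
      · exact hu.1 k l e
    have h2 := cgen_fact hu'
    have h3 : cgen_a c j (-fun i => u.1 i j) * u ∈ cN F fun i => if j ≤ i then 1 else 0 :=
      (cN F _).mul_mem (cgen_a_pat (fun k _ hk => by simp [hk]) _) hu.2
    have e : u = cgen_a c j (fun i => u.1 i j) * (cgen_a c j (-fun i => u.1 i j) * u) := by
      rw [← mul_assoc, ← cgen_a_add, add_neg_cancel, cgen_a_one (by ext; simp [cgen_p]), one_mul]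
    generalize cgen_a c j (-fun i => u.1 i j) * u = u' at h2 h3 e
    have h4 : cPsi ψ (cU n) u' = 1 := by
      rw [cgen_psi, Finset.sum_eq_zero, AddChar.map_zero_eq_one]
      refine fun k _ => Finset.sum_eq_zero fun l _ => ?_
      split_ifs with h
      · have hkl : k ≠ l := fun e => by simp [e] at h
        by_cases e2 : j ≤ k
        · rw [mem_cN.1 h3 k l (by rw [if_pos e2]; split_ifs <;> simp), one_apply_ne hkl]
        · have : k.1 < j.1 := not_le.1 e2
          rw [h2 k l fun h' => by have := h'.2.2; omega, one_apply_ne hkl]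
      · rfl
    rw [e, hr _ (haL _) _ (cgen_K_le _ h2).1, Module.End.mul_apply, hx _ h2, h4, one_smul, ht]
  push Not at ht
  obtain ⟨v₀, hv₀⟩ := ht
  obtain ⟨ξ, hξ, y, ⟨hy, hy'⟩, hy0⟩ := f0a_exists hψ (T := fun v => r (cgen_a c j v))
    (U := cgen_W ψ c r (j + 1)) (fun v w => by rw [cgen_a_add, hr _ (haL _) _ (haL _)])
    (by rw [cgen_a_one (by ext; simp [cgen_p]), h1])
    (fun v z hz => cgen_stab hr (cgen_a_M v) hz) hx hv₀
  replace hy' : ∀ v, r (cgen_a c j v) y = ψ (ξ ⬝ᵥ v) • y := hy'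
  have hs : ∀ l, ¬ (c l = c j ∧ l < j) → ξ l = 0 := fun l hl => by
    by_contra hne
    apply hψ hne
    ext t
    have h2 := hy' (Pi.single l t)
    rw [cgen_a_one (funext fun k => by
      by_cases e : k = l
      · rw [e, cgen_p, if_neg hl, Pi.zero_apply]
      · simp [cgen_p, e]), h1, Module.End.one_apply, dotProduct_single] at h2
    have h3 := smul_left_injective ℂ hy0 (h2.symm.trans (one_smul ℂ y).symm)
    simpa using h3
  let a : Fin n := ⟨j.1 - 1, by omega⟩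
  have ha : c a = c j ∧ a < j := by
    have e1 : a < j := by
      show j.1 - 1 < j.1
      omega
    have e2 : i ≤ a := by
      show i.1 ≤ j.1 - 1
      omega
    exact ⟨le_antisymm (hi.1 ▸ hc e2) (hc e1.le), e1⟩
  obtain ⟨g, hg, hga⟩ := cgen_trans ha hξ hs
  have hgL := cgen_M_le hg
  refine ⟨r g y, cgen_down hr (cgen_stab hr hg hy) fun v => ?_, fun e => hy0 ?_⟩
  · have h2 := cgen_conj_a ((cgen_M F c j).inv_mem hg) v
    have h3 : cgen_a c j v * g = g * cgen_a c j ((g⁻¹).1 *ᵥ cgen_p c j v) := by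
      rw [← mul_inv_eq_iff_eq_mul] at h2
      rw [← h2]
      group
    have h4 : ξ ⬝ᵥ (g⁻¹).1 *ᵥ cgen_p c j v =
        (fun i : Fin n => if j.1 = i.1 + 1 then (1 : F) else 0) ⬝ᵥ cgen_p c j v := by
      rw [dotProduct_mulVec]
      congr 1
      ext l
      have : (g.1 * (g⁻¹).1) a l = (ξ ᵥ* (g⁻¹).1) l := by
        rw [← hga]
        rfl
      rw [← this, Units.mul_inv, one_apply]
      refine if_congr ?_ rfl rfl
      rw [Fin.ext_iff]
      show j.1 - 1 = l.1 ↔ _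
      omega
    rw [← Module.End.mul_apply, ← hr _ (haL _) _ hgL, h3, hr _ hgL _ (haL _),
      Module.End.mul_apply, hy', map_smul, cgen_psi_a, h4]
  · have h2 := congrArg (r g⁻¹) e
    rwa [← Module.End.mul_apply, ← hr _ ((cL F c).inv_mem hgL) _ hgL, inv_mul_cancel, h1,
      map_zero, Module.End.one_apply] at h2

end Rep

/-- cuspidal characters are generic -/
theorem Cusp.generic {ψ : AddChar F ℂ} (hψ : ψ.IsPrimitive) {c : Fin n → ℕ} {φ : GLn n F → ℂ}
    (hφ : Cusp c φ) (hc : Antitone c) :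
    cIp (cL F c ⊓ cN F (cU n)) φ (cPsi ψ (cU n)) ≠ 0 := by
  classical
  obtain ⟨V, _, _, _, ρ, hρ, hχ⟩ := mem_Irr.1 hφ.irr
  have hχ' : ∀ x : cL F c, ρ.character x = φ x := fun x => congrFun hχ x
  let r : GLn n F → Module.End ℂ V := fun g => if h : g ∈ cL F c then ρ ⟨g, h⟩ else 1
  have hrρ : ∀ x : cL F c, r x = ρ x := fun x => dif_pos x.2
  have h1 : r 1 = 1 := (hrρ 1).trans (map_one ρ)
  have hr : ∀ g ∈ cL F c, ∀ h ∈ cL F c, r (g * h) = r g * r h := fun g hg h hh =>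
    (hrρ (⟨g, hg⟩ * ⟨h, hh⟩)).trans (by rw [map_mul, ← hrρ, ← hrρ])
  have hv : ∀ c' : Fin n → ℕ, (∃ i j, c i = c j ∧ c' i < c' j) → ∀ x : V,
      (∀ u ∈ cL F c ⊓ cN F c', r u x = x) → x = 0 := fun c' hc' x hx => by
    by_contra h0
    refine cIp_of_eig (K := cL F c ⊓ cN F c') inf_le_left ρ hχ' (fun _ => 1) rfl
      (fun _ _ _ _ => (mul_one _).symm) h0 (fun u hu => by rw [← hrρ, hx u hu, one_smul]) ?_
    rw [← hφ.van c' hc' 1 (cL F c).one_mem]
    exact cSum_congr fun u _ => by rw [mul_one, one_mul]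
  have key : ∀ t ≤ n, ∃ y ∈ cgen_W ψ c r (n - t), y ≠ 0 := by
    intro t
    induction t with
    | zero =>
      intro _
      obtain ⟨v, hv0⟩ := ((MP_810665_al.irreducible_iff ρ).1 hρ).1
      refine ⟨v, fun u hu => ?_, hv0⟩
      have : u = 1 := Units.ext (Matrix.ext fun i l => hu i l fun h => by
        have := h.2.2
        have := l.2
        omega)
      rw [this, h1, cPsi_one, one_smul, Module.End.one_apply]
    | succ t ih =>
      intro ht
      obtain ⟨y, hy, hy0⟩ := ih (by omega)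
      refine cgen_step (j := ⟨n - (t + 1), by omega⟩) hψ hc h1 hr hv ?_ hy0
      rwa [show n - (t + 1) + 1 = n - t by omega]
  obtain ⟨y, hy, hy0⟩ := key n le_rfl
  rw [Nat.sub_self] at hy
  exact cIp_of_eig inf_le_left ρ hχ' _ (cPsi_one ψ _) (fun _ h _ h' => cPsi_mul ψ h.2 h'.2) hy0
    fun u hu => by rw [← hrρ, hy u (cgen_K_zero hu)]

end Pool.Agent.MP_8299d6_al.Up

end
end

section

open Matrix Polynomial

noncomputable section

namespace Pool.Agent.MP_8299d6_al.Up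

variable {p : ℕ} [Fact p.Prime] {d : ℕ}

/-- a bound for the entries -/
def hece1B (r : ℝ) (X : Mat d (Cp p)) : Prop := ∀ i j, ‖X i j‖ ≤ r

theorem hece1B.mul {r s : ℝ} {X Y : Mat d (Cp p)} (h : hece1B r X) (h' : hece1B s Y) :
    hece1B (r * s) (X * Y) := fun i j => by
  have h0 := (norm_nonneg _).trans (h i j)
  rw [mul_apply]
  refine IsUltrametricDist.norm_sum_le_of_forall_le_of_nonneg (mul_nonneg h0
    ((norm_nonneg _).trans (h' i j))) fun l _ => ?_
  rw [norm_mul]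
  exact mul_le_mul (h i l) (h' l j) (norm_nonneg _) h0

theorem hece1_det {X : Mat d (Cp p)} (h : hece1B 1 X) : ‖X.det‖ ≤ 1 := by
  rw [det_apply']
  refine IsUltrametricDist.norm_sum_le_of_forall_le_of_nonneg zero_le_one fun σ _ => ?_
  rw [norm_mul, norm_prod]
  exact mul_le_one₀ (IsUltrametricDist.norm_intCast_le_one _ _)
    (Finset.prod_nonneg fun _ _ => norm_nonneg _)
    (Finset.prod_le_one (fun _ _ => norm_nonneg _) fun _ _ => h _ _)

theorem hece1_pow {a b : Cp p} (ha : ‖a‖ ≤ 1) (hb : ‖b‖ ≤ 1) (n : ℕ) :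
    ‖a ^ n - b ^ n‖ ≤ ‖a - b‖ := by
  induction n with
  | zero => simp
  | succ n ih =>
    rw [show a ^ (n + 1) - b ^ (n + 1) = a * (a ^ n - b ^ n) + (a - b) * b ^ n by ring]
    refine (IsUltrametricDist.norm_add_le_max _ _).trans (max_le ?_ ?_)
    · rw [norm_mul]
      exact (mul_le_of_le_one_left (norm_nonneg _) ha).trans ih
    · rw [norm_mul, norm_pow]
      exact mul_le_of_le_one_right (norm_nonneg _) (pow_le_one₀ (norm_nonneg _) hb)

theorem hece1_lift {A B : Mat d ℤ} {W : Mat d (Cp p)} (hW : hece1B 1 W)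
    (e : W * B.map (Int.cast : ℤ → Cp p) = A.map (Int.cast : ℤ → Cp p))
    (h0 : (B.map (Int.cast : ℤ → Cp p)).det ≠ 0) : ∃ u : Mat d ℤ_[p],
    A.map (Int.cast : ℤ → ℤ_[p]) = u * B.map (Int.cast : ℤ → ℤ_[p]) := by
  have e1 : ∀ i j, W i j = algebraMap ℚ_[p] (Cp p) ((A * B.adjugate) i j / B.det) := fun i j => by
    have e2 := Matrix.mul_assoc W (B.map Int.cast) (B.map (Int.cast : ℤ → Cp p)).adjugate
    have e3 := (Int.castRingHom (Cp p)).map_det B
    have e4 := (Int.castRingHom (Cp p)).map_adjugate B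
    have e5 := (Int.castRingHom (Cp p)).mapMatrix.map_mul A B.adjugate
    simp only [RingHom.mapMatrix_apply, Int.coe_castRingHom] at e3 e4 e5
    rw [e, mul_adjugate, ← e4, ← e5] at e2
    rw [map_div₀, map_intCast, map_intCast, e3, eq_div_iff h0, mul_comm]
    simpa using (congrFun₂ e2 i j).symm
  let u : Mat d ℤ_[p] := fun i j => ⟨(A * B.adjugate) i j / B.det, by
    rw [← PadicAlgCl.norm_extends]
    exact (congrArg norm (e1 i j)).ge.trans (hW i j)⟩
  have hz : Function.Injective (zc p) :=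
    (algebraMap ℚ_[p] (Cp p)).injective.comp Subtype.val_injective
  refine ⟨u, Matrix.map_injective hz ?_⟩
  have e6 : ∀ X : Mat d ℤ, (X.map (Int.cast : ℤ → ℤ_[p])).map (zc p) =
      X.map (Int.cast : ℤ → Cp p) := fun X => Matrix.ext fun i j => map_intCast (zc p) _
  simp only [Matrix.map_mul, e6]
  rw [← e]
  exact congrArg (· * _) (Matrix.ext e1)

theorem hece1_half (hd : 2 ≤ d) {k e M : ℕ} (hM : (k + 2 * e) * (d ^ 2 + 1) + 1 ≤ M)
    {y y₀ : Mat d ℤ} {v v₀ : Fin d → ℤ} {t t₀ : Fin d → Cp p} {P U P₀ U₀ : Mat d (Cp p)}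
    (h₀ : GD k e y₀ v₀ t₀ P₀ U₀) (h : GD k e y v t P U)
    (hc : ∀ i, ‖t i - t₀ i‖ ≤ (p : ℝ) ^ (-(M : ℝ)))
    (hL : Latt ((p : Cp p) ^ e • P₀) ≤ Latt ((p : Cp p) ^ e • P)) : ∃ u : Mat d ℤ_[p],
    (kry y v).map (Int.cast : ℤ → ℤ_[p]) = u * (kry y₀ v₀).map (Int.cast : ℤ → ℤ_[p]) := by
  have hp : (1 : ℝ) ≤ p := by exact_mod_cast (Fact.out : p.Prime).one_le
  have hU := mul_eq_one_comm.1 h.inv
  have hV : (vandermonde t₀).det ≠ 0 := det_vandermonde_ne_zero_iff.2 h₀.inj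
  have b1 : hece1B 1 (U * P₀) := fun i j => by
    obtain ⟨x, hx⟩ := hL (col_mem_Latt _ j)
    have e1 := congrArg (fun w => (U *ᵥ w) i) hx
    rw [mulVec_mulVec, Matrix.mul_smul, hU, smul_mulVec, one_mulVec] at e1
    have e2 : (U * P₀) i j = zc p (x i) :=
      mul_left_cancel₀ (pow_ne_zero e (Nat.cast_ne_zero.2 (Fact.out : p.Prime).ne_zero)) (by
        simpa [mulVec, dotProduct, mul_apply, Finset.mul_sum, mul_left_comm] using e1)
    rw [e2, zc_apply, norm_algebraMap']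
    exact (x i).2
  have b2 : hece1B ((p : ℝ) ^ (k + e)) U₀ := fun j i => by
    have : Nontrivial (Fin d) := Fin.nontrivial_iff_two_le.2 hd
    obtain ⟨i', hi⟩ := exists_ne i
    refine (h₀.bU j i i' hi.symm).trans (mul_le_of_le_one_right (by positivity) ?_)
    rw [sub_eq_add_neg]
    exact (IsUltrametricDist.norm_add_le_max _ _).trans
      (max_le (h₀.norm_t _) ((norm_neg _).trans_le (h₀.norm_t _)))
  have b3 : hece1B ((p : ℝ) ^ M)⁻¹ (vandermonde t - vandermonde t₀) := fun i j =>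
    (hece1_pow (h.norm_t i) (h₀.norm_t i) j).trans ((hc i).trans_eq (by
      rw [Real.rpow_neg (by positivity), Real.rpow_natCast]))
  have b4 : hece1B (((p : ℝ) ^ (k + 2 * e)) ^ d ^ 2) (vandermonde t₀)⁻¹ := fun i j => by
    have g1 : ‖(vandermonde t₀).adjugate i j‖ ≤ 1 := by
      rw [adjugate_apply]
      refine hece1_det fun a b => ?_
      rw [updateRow_apply]
      split_ifs
      · rw [Pi.single_apply]
        split_ifs <;> simp
      · rw [vandermonde_apply, norm_pow]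
        exact pow_le_one₀ (norm_nonneg _) (h₀.norm_t a)
    have g2 : (((p : ℝ) ^ (k + 2 * e))⁻¹) ^ d ^ 2 ≤ ‖(vandermonde t₀).det‖ := by
      rw [det_vandermonde, norm_prod, sq, pow_mul, ← Fin.prod_const]
      refine Finset.prod_le_prod (fun _ _ => by positivity) fun a _ => ?_
      rw [norm_prod]
      refine (pow_le_pow_of_le_one (by positivity) (inv_le_one_of_one_le₀ (one_le_pow₀ hp))
        ((Finset.card_le_univ (Finset.Ioi a)).trans_eq (Fintype.card_fin d))).trans ?_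
      rw [← Finset.prod_const]
      refine Finset.prod_le_prod (fun _ _ => by positivity) fun b hb => ?_
      refine le_trans (le_of_eq ?_) (h₀.gap (Finset.mem_Ioi.1 hb).ne')
      rw [Real.rpow_neg (by positivity), ← Real.rpow_natCast]
      push_cast
      rfl
    rw [inv_def, Ring.inverse_eq_inv, Matrix.smul_apply, smul_eq_mul, norm_mul, norm_inv]
    refine (mul_le_of_le_one_right (by positivity) g1).trans ?_
    rwa [inv_le_comm₀ (norm_pos_iff.2 hV) (by positivity), ← inv_pow]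
  have b5 : hece1B 1 (1 + U₀ * (vandermonde t - vandermonde t₀) * (vandermonde t₀)⁻¹ * P₀) :=
    fun i j => (IsUltrametricDist.norm_add_le_max _ _).trans (max_le (by
      rw [one_apply]
      split_ifs <;> simp) ((((b2.mul b3).mul b4).mul h₀.bP i j).trans (by
      rw [mul_assoc, mul_assoc, mul_left_comm, ← pow_mul, ← pow_add, ← pow_add,
        inv_mul_le_iff₀ (by positivity), mul_one]
      exact pow_le_pow_right₀ hp (by nlinarith))))
  refine hece1_lift (one_mul (1 : ℝ) ▸ b1.mul b5) ?_ fun e0 => hV ?_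
  · rw [Matrix.mul_assoc, Matrix.add_mul, Matrix.mul_assoc (_ * _) P₀, h₀.kry_eq,
      nonsing_inv_mul_cancel_right _ _ hV.isUnit, Matrix.mul_assoc, Matrix.mul_add,
      ← Matrix.mul_assoc P₀ U₀, h₀.inv, Matrix.one_mul, Matrix.one_mul, h₀.kry_eq, add_sub_cancel,
      ← h.kry_eq, ← Matrix.mul_assoc, hU, Matrix.one_mul]
  · rw [← h₀.kry_eq, det_mul, e0, mul_zero]

theorem hece1_ev (y : Mat d ℤ) {A : Type} [Ring A] [Algebra ℤ A] (a : A) :
    aeval a y.charpoly = ∑ j : Fin d, (y.charpoly.coeff j : A) * a ^ (j : ℕ) + a ^ d := by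
  have h := y.charpoly_natDegree_eq_dim.trans (Fintype.card_fin d)
  have h1 := y.charpoly_monic.coeff_natDegree
  rw [h] at h1
  rw [aeval_eq_sum_range, h, Finset.sum_range_succ, h1, Finset.sum_range]
  simp only [Algebra.smul_def, eq_intCast, Int.cast_one, one_mul]

/-- two good pairs with close eigenvalues and the same lattice -/
theorem same_lat (hd : 2 ≤ d) {k e M : ℕ} (hM : (k + 2 * e) * (d ^ 2 + 1) + 1 ≤ M)
    {y y₀ : Mat d ℤ} {v v₀ : Fin d → ℤ} {t t₀ : Fin d → Cp p} {P U P₀ U₀ : Mat d (Cp p)}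
    (h₀ : GD k e y₀ v₀ t₀ P₀ U₀) (h : GD k e y v t P U)
    (hc : ∀ i, ‖t i - t₀ i‖ ≤ (p : ℝ) ^ (-(M : ℝ)))
    (hL : Latt ((p : Cp p) ^ e • P) = Latt ((p : Cp p) ^ e • P₀)) :
    (∃ u u' : Mat d ℤ_[p],
      (kry y v).map (Int.cast : ℤ → ℤ_[p]) = u * (kry y₀ v₀).map (Int.cast : ℤ → ℤ_[p]) ∧
      (kry y₀ v₀).map (Int.cast : ℤ → ℤ_[p]) = u' * (kry y v).map (Int.cast : ℤ → ℤ_[p])) ∧
    ∃ c : Fin d → ℤ, (y ^ d) *ᵥ v = kry y v *ᵥ c ∧
      ∀ i, ‖(P₀ *ᵥ (fun j => ((kry y₀ v₀ *ᵥ c - (y₀ ^ d) *ᵥ v₀) j : Cp p))) i‖ ≤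
        (p : ℝ) ^ (-(M : ℝ)) * ∏ j ∈ Finset.univ.erase i, ‖t₀ i - t₀ j‖ := by
  have hp : (1 : ℝ) ≤ p := by exact_mod_cast (Fact.out : p.Prime).one_le
  obtain ⟨u, hu⟩ := hece1_half hd hM h₀ h hc hL.ge
  obtain ⟨u', hu'⟩ := hece1_half hd hM h h₀ (fun i => norm_sub_rev (t i) _ ▸ hc i) hL.le
  refine ⟨⟨u, u', hu, hu'⟩, fun j => -y.charpoly.coeff j, ?_, fun i => ?_⟩
  · have e1 := hece1_ev y y
    rw [aeval_self_charpoly] at e1
    rw [eq_neg_of_add_eq_zero_right e1.symm, neg_mulVec, sum_mulVec]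
    funext i
    simp only [← zsmul_eq_mul, smul_mulVec]
    simp [kry, mulVec, dotProduct, mul_comm]
  · have e1 : (P₀ *ᵥ (fun j => ((kry y₀ v₀ *ᵥ (fun j => -y.charpoly.coeff j) -
        (y₀ ^ d) *ᵥ v₀) j : Cp p))) i = -∏ j, (t₀ i - t j) := by
      have e2 := hece1_ev y (t₀ i)
      rw [aeval_def, eval₂_eq_eval_map, RingHom.eq_intCast' (algebraMap ℤ (Cp p)), h.chp,
        eval_prod] at e2
      simp only [eval_sub, eval_X, eval_C] at e2
      have e3 : (fun j => ((kry y₀ v₀ *ᵥ (fun j => -y.charpoly.coeff j) - (y₀ ^ d) *ᵥ v₀) j : Cp p)) =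
          (kry y₀ v₀).map (Int.cast : ℤ → Cp p) *ᵥ (fun j => -(y.charpoly.coeff j : Cp p)) -
            fun j => (((y₀ ^ d) *ᵥ v₀) j : Cp p) := by
        funext j
        simp [mulVec, dotProduct]
      rw [e2, e3, mulVec_sub, h₀.pow_eq, mulVec_mulVec, h₀.kry_eq]
      simp [mulVec, dotProduct, mul_comm, sub_eq_add_neg, add_comm]
    rw [e1, norm_neg, norm_prod, ← Finset.mul_prod_erase _ _ (Finset.mem_univ i)]
    refine mul_le_mul (norm_sub_rev (t i) _ ▸ hc i) (Finset.prod_le_prod (fun _ _ => norm_nonneg _)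
      fun j hj => ?_) (Finset.prod_nonneg fun _ _ => norm_nonneg _) (by positivity)
    rw [← sub_add_sub_cancel _ (t₀ j)]
    refine (IsUltrametricDist.norm_add_le_max _ _).trans (max_le le_rfl ?_)
    refine ((norm_sub_rev _ _).trans_le (hc j)).trans (le_trans ?_
      (h₀.gap (Finset.ne_of_mem_erase hj).symm))
    refine Real.rpow_le_rpow_of_exponent_le hp (neg_le_neg ?_)
    exact_mod_cast (by nlinarith : k + 2 * e ≤ M)

end Pool.Agent.MP_8299d6_al.Up

end
end

section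

open Matrix Polynomial

noncomputable section

namespace Pool.Agent.MP_8299d6_al.Up

lemma hekr_fib {α β : Type} [AddCommGroup α] [Fintype α] [AddCommGroup β] [Fintype β]
    (f : α →+ β) (L : AddSubgroup β) :
    Nat.card {x : α // f x ∈ L} ≤ Nat.card f.ker * Nat.card L := by
  classical
  have h1 : Nat.card {x : α // f x ∈ L} = (Finset.univ.filter (fun x => f x ∈ L)).card := by
    rw [Nat.card_eq_fintype_card, Fintype.card_subtype]
  have h2 : Nat.card L = (Finset.univ.filter (fun y => y ∈ L)).card := by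
    rw [Nat.card_eq_fintype_card, Fintype.card_subtype]
  have h3 : Nat.card f.ker = (Finset.univ.filter (fun y => y ∈ f.ker)).card := by
    rw [Nat.card_eq_fintype_card, Fintype.card_subtype]
  rw [h1, h2, h3]
  refine Finset.card_le_mul_card_image_of_maps_to (f := f) ?_ _ ?_
  · intro a ha
    simpa using ha
  · intro b _
    rcases Finset.eq_empty_or_nonempty
      ((Finset.univ.filter (fun x => f x ∈ L)).filter (fun x => f x = b)) with he | ⟨x0, hx0⟩
    · rw [he]; simp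
    · have hx0' : f x0 = b := (Finset.mem_filter.1 hx0).2
      refine Finset.card_le_card_of_injOn (fun x => x - x0) ?_ ?_
      · intro x hx
        have hx' : f x = b := (Finset.mem_filter.1 (Finset.mem_coe.1 hx)).2
        simp only [Finset.coe_filter, Finset.mem_univ, true_and, Set.mem_ofPred_eq,
          AddMonoidHom.mem_ker, map_sub, hx', hx0', sub_self]
      · intro x _ y _ hxy
        exact sub_left_injective hxy

/-- averaging over the units -/
theorem unit_avg (M : Type) [CommRing M] [Finite M] (m₀ : M) (S : Finset (AddSubgroup M))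
    (hS : ∀ Λ ∈ S, m₀ ∈ Λ) :
    (∑ Λ ∈ S, Λ.index) * Nat.card Mˣ ≤
      Nat.card M * Nat.card {x : M // x * m₀ = 0} * Nat.card (AddSubgroup M) := by
  classical
  letI : Fintype M := Fintype.ofFinite M
  letI : Fintype Mˣ := Fintype.ofFinite _
  haveI : Finite (AddSubgroup M) :=
    Finite.of_injective (fun L : AddSubgroup M => (L : Set M)) SetLike.coe_injective
  letI : Fintype (AddSubgroup M) := Fintype.ofFinite _
  have hsurj : ∀ u : Mˣ, Function.Surjective (AddMonoidHom.mulLeft ((u⁻¹ : Mˣ) : M)) := by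
    intro u y
    refine ⟨u * y, ?_⟩
    simp
  have step : ∀ u : Mˣ, (∑ Λ ∈ S, Λ.index) ≤
      ∑ L : AddSubgroup M, if (u : M) * m₀ ∈ L then L.index else 0 := by
    intro u
    rw [← Finset.sum_filter]
    have hinj : Set.InjOn (fun Λ : AddSubgroup M =>
        Λ.comap (AddMonoidHom.mulLeft ((u⁻¹ : Mˣ) : M))) S := by
      intro a _ b _ hab
      exact AddSubgroup.comap_injective (hsurj u) hab
    calc (∑ Λ ∈ S, Λ.index)
        = ∑ Λ ∈ S, (Λ.comap (AddMonoidHom.mulLeft ((u⁻¹ : Mˣ) : M))).index := by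
          refine Finset.sum_congr rfl fun Λ _ => ?_
          rw [AddSubgroup.index_comap_of_surjective _ (hsurj u)]
      _ = ∑ L ∈ S.image (fun Λ : AddSubgroup M =>
            Λ.comap (AddMonoidHom.mulLeft ((u⁻¹ : Mˣ) : M))), L.index := by
          rw [Finset.sum_image hinj]
      _ ≤ _ := by
          refine Finset.sum_le_sum_of_subset ?_
          intro L hL
          obtain ⟨Λ, hΛ, rfl⟩ := Finset.mem_image.1 hL
          simp only [Finset.mem_filter, Finset.mem_univ, true_and, AddSubgroup.mem_comap]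
          simpa using hS Λ hΛ
  have cnt : ∀ L : AddSubgroup M, (∑ u : Mˣ, if (u : M) * m₀ ∈ L then L.index else 0) ≤
      Nat.card M * Nat.card {x : M // x * m₀ = 0} := by
    intro L
    rw [← Finset.sum_filter, Finset.sum_const, smul_eq_mul]
    have h1 : (Finset.univ.filter (fun u : Mˣ => (u : M) * m₀ ∈ L)).card ≤
        Nat.card {x : M // AddMonoidHom.mulRight m₀ x ∈ L} := by
      rw [Nat.card_eq_fintype_card, Fintype.card_subtype]
      refine Finset.card_le_card_of_injOn (fun u : Mˣ => (u : M)) ?_ ?_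
      · intro u hu
        simpa using hu
      · intro u _ v _ huv
        exact Units.ext huv
    have h2 := hekr_fib (AddMonoidHom.mulRight m₀) L
    have h3 : Nat.card (AddMonoidHom.mulRight m₀).ker = Nat.card {x : M // x * m₀ = 0} := by
      refine Nat.card_congr (Equiv.subtypeEquivRight ?_)
      intro x
      simp [AddMonoidHom.mem_ker]
    rw [h3] at h2
    calc _ ≤ (Nat.card {x : M // x * m₀ = 0} * Nat.card L) * L.index :=
          Nat.mul_le_mul_right _ (h1.trans h2)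
      _ = _ := by
          rw [mul_assoc, AddSubgroup.card_mul_index, mul_comm]
  calc (∑ Λ ∈ S, Λ.index) * Nat.card Mˣ = ∑ _u : Mˣ, ∑ Λ ∈ S, Λ.index := by
        rw [Finset.sum_const, smul_eq_mul, mul_comm, Nat.card_eq_fintype_card, Finset.card_univ]
    _ ≤ ∑ u : Mˣ, ∑ L : AddSubgroup M, if (u : M) * m₀ ∈ L then L.index else 0 :=
        Finset.sum_le_sum fun u _ => step u
    _ = ∑ L : AddSubgroup M, ∑ u : Mˣ, if (u : M) * m₀ ∈ L then L.index else 0 :=
        Finset.sum_comm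
    _ ≤ ∑ _L : AddSubgroup M, Nat.card M * Nat.card {x : M // x * m₀ = 0} :=
        Finset.sum_le_sum fun L _ => cnt L
    _ = _ := by
        rw [Finset.sum_const, smul_eq_mul, mul_comm, Nat.card_eq_fintype_card (α := AddSubgroup M),
          Finset.card_univ]

lemma hekr_ker {A : Type} [Ring A] [Finite A] {k h u u' : A} (h1 : k = u * h) (h2 : h = u' * k) :
    Nat.card (AddMonoidHom.mulRight k).ker = Nat.card (AddMonoidHom.mulRight h).ker := by
  have hr : (AddMonoidHom.mulRight k).range = (AddMonoidHom.mulRight h).range := by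
    apply le_antisymm
    · rintro _ ⟨x, rfl⟩
      refine ⟨x * u, ?_⟩
      simp only [AddMonoidHom.coe_mulRight]
      rw [mul_assoc, ← h1]
    · rintro _ ⟨x, rfl⟩
      refine ⟨x * u', ?_⟩
      simp only [AddMonoidHom.coe_mulRight]
      rw [mul_assoc, ← h2]
  have e1 := (AddMonoidHom.mulRight k).ker.card_mul_index
  have e2 := (AddMonoidHom.mulRight h).ker.card_mul_index
  rw [AddSubgroup.index_ker] at e1 e2
  rw [hr, ← e2] at e1
  have hpos : 0 < Nat.card (AddMonoidHom.mulRight h).range := Nat.card_pos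
  exact Nat.eq_of_mul_eq_mul_right hpos e1

lemma hekr_col0 {d : ℕ} (hd : 0 < d) {R : Type} [CommRing R] (y : Mat d R) (v : Fin d → R)
    (i : Fin d) : v i = kry y v i ⟨0, hd⟩ := by
  simp [kry]

lemma hekr_mul {d : ℕ} {R : Type} [CommRing R] (y : Mat d R) (v : Fin d → R) (i j : Fin d) :
    (y * kry y v) i j = ((y ^ ((j : ℕ) + 1)) *ᵥ v) i := by
  rw [pow_succ', ← mulVec_mulVec]
  simp only [Matrix.mul_apply, kry, Matrix.of_apply]
  rfl

lemma hekr_eq {d : ℕ} {R : Type} [CommRing R] {y y' : Mat d R} {v v' : Fin d → R}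
    (hk : kry y v = kry y' v') (hp : (y ^ d) *ᵥ v = (y' ^ d) *ᵥ v') :
    y * kry y v = y' * kry y' v' := by
  ext i j
  rw [hekr_mul, hekr_mul]
  by_cases hj : (j : ℕ) + 1 < d
  · have := congrFun (congrFun hk i) ⟨(j : ℕ) + 1, hj⟩
    simpa [kry] using this
  · have hj' : (j : ℕ) + 1 = d := by have := j.2; omega
    rw [hj', hp]

/-- pairs with a given shape of the matrix `kry` -/
theorem kry_count {d : ℕ} (hd : 0 < d) {R : Type} [CommRing R] [Fintype R] (h : Mat d R)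
    (T : Finset (Fin d → R)) :
    Nat.card {z : Mat d R × (Fin d → R) //
      (∃ u u' : Mat d R, kry z.1 z.2 = u * h ∧ h = u' * kry z.1 z.2) ∧
        ∃ c : Fin d → R, (z.1 ^ d) *ᵥ z.2 = kry z.1 z.2 *ᵥ c ∧ h *ᵥ c ∈ T} ≤
      Fintype.card R ^ (d ^ 2) * T.card := by
  classical
  set P : Mat d R × (Fin d → R) → Prop := fun z =>
    (∃ u u' : Mat d R, kry z.1 z.2 = u * h ∧ h = u' * kry z.1 z.2) ∧
        ∃ c : Fin d → R, (z.1 ^ d) *ᵥ z.2 = kry z.1 z.2 *ᵥ c ∧ h *ᵥ c ∈ T with hP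
  have h1 : Nat.card {z // P z} = (Finset.univ.filter P).card := by
    rw [Nat.card_eq_fintype_card, Fintype.card_subtype]
  let cz : Mat d R × (Fin d → R) → (Fin d → R) := fun z =>
    if hz : P z then Classical.choose hz.2 else 0
  have hcz : ∀ z, P z → (z.1 ^ d) *ᵥ z.2 = kry z.1 z.2 *ᵥ cz z ∧ h *ᵥ cz z ∈ T := by
    intro z hz
    simp only [cz, dif_pos hz]
    exact Classical.choose_spec hz.2
  let Rg : Finset (Mat d R) :=
    Finset.univ.filter (fun k => k ∈ (AddMonoidHom.mulRight h).range)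
  have hRg : Rg.card = Nat.card (AddMonoidHom.mulRight h).range := by
    rw [Nat.card_eq_fintype_card, Fintype.card_subtype]
  have main : (Finset.univ.filter P).card ≤
      Nat.card (AddMonoidHom.mulRight h).ker * (Rg ×ˢ T).card := by
    refine Finset.card_le_mul_card_image_of_maps_to
      (f := fun z => (kry z.1 z.2, h *ᵥ cz z)) ?_ _ ?_
    · intro z hz
      have hz' : P z := (Finset.mem_filter.1 hz).2
      obtain ⟨u, u', hu, _⟩ := hz'.1
      refine Finset.mem_product.2 ⟨?_, (hcz z hz').2⟩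
      refine Finset.mem_filter.2 ⟨Finset.mem_univ _, u, ?_⟩
      simp only [AddMonoidHom.coe_mulRight]
      exact hu.symm
    · intro b _
      rcases Finset.eq_empty_or_nonempty ((Finset.univ.filter P).filter
        (fun z => (kry z.1 z.2, h *ᵥ cz z) = b)) with he | ⟨z0, hz0⟩
      · rw [he]; simp
      · have hP0 : P z0 := (Finset.mem_filter.1 (Finset.mem_filter.1 hz0).1).2
        have hb0 : (kry z0.1 z0.2, h *ᵥ cz z0) = b := (Finset.mem_filter.1 hz0).2
        obtain ⟨u, u', hu, hu'⟩ := hP0.1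
        rw [← hekr_ker hu hu', Nat.card_eq_fintype_card, Fintype.card_subtype]
        have key : ∀ z, z ∈ (Finset.univ.filter P).filter
            (fun z => (kry z.1 z.2, h *ᵥ cz z) = b) →
            kry z.1 z.2 = kry z0.1 z0.2 ∧ (z.1 ^ d) *ᵥ z.2 = (z0.1 ^ d) *ᵥ z0.2 := by
          intro z hz
          have hPz : P z := (Finset.mem_filter.1 (Finset.mem_filter.1 hz).1).2
          have hb : (kry z.1 z.2, h *ᵥ cz z) = b := (Finset.mem_filter.1 hz).2
          rw [← hb0, Prod.mk.injEq] at hb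
          refine ⟨hb.1, ?_⟩
          rw [(hcz z hPz).1, (hcz z0 hP0).1, hb.1, hu, ← mulVec_mulVec, ← mulVec_mulVec, hb.2]
        refine Finset.card_le_card_of_injOn (fun z => z.1 - z0.1) ?_ ?_
        · intro z hz
          obtain ⟨e1, e2⟩ := key z (Finset.mem_coe.1 hz)
          have e3 := hekr_eq e1 e2
          rw [e1] at e3
          simp only [Finset.coe_filter, Finset.mem_univ, true_and, Set.mem_ofPred_eq,
            AddMonoidHom.mem_ker, AddMonoidHom.coe_mulRight, sub_mul, e3, sub_self]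
        · intro z hz z' hz' hzz
          have e1 := (key z (Finset.mem_coe.1 hz)).1
          have e2 := (key z' (Finset.mem_coe.1 hz')).1
          refine Prod.ext (sub_left_injective hzz) ?_
          funext i
          rw [hekr_col0 hd z.1 z.2 i, hekr_col0 hd z'.1 z'.2 i, e1, e2]
  have e2 := (AddMonoidHom.mulRight h).ker.card_mul_index
  rw [AddSubgroup.index_ker] at e2
  have e3 : Nat.card (Mat d R) = Fintype.card R ^ (d ^ 2) := by
    change Nat.card (Fin d → Fin d → R) = _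
    rw [Nat.card_fun, Nat.card_fun, Nat.card_eq_fintype_card, Nat.card_eq_fintype_card,
      Fintype.card_fin, ← pow_mul, sq]
  change Nat.card {z // P z} ≤ _
  rw [h1]
  refine main.trans ?_
  rw [Finset.card_product, hRg, ← mul_assoc, e2, e3]

end Pool.Agent.MP_8299d6_al.Up

end
end

section

open Matrix Polynomial

noncomputable section

namespace Pool.Agent.MP_8299d6_al.Up

variable {p : ℕ} [Fact p.Prime] {d : ℕ} {φ : Gp p →* Equiv.Perm (Fin d)}

lemma hece2_vec {R S : Type} [CommRing R] [CommRing S] (f : R →+* S) (y : Mat d R)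
    (v : Fin d → R) : f ∘ (y *ᵥ v) = y.map f *ᵥ (f ∘ v) := funext (RingHom.map_mulVec f y v)

lemma hece2_kry {R S : Type} [CommRing R] [CommRing S] (f : R →+* S) (y : Mat d R)
    (v : Fin d → R) : (kry y v).map f = kry (y.map f) (f ∘ v) := by
  ext i j
  simp only [kry, map_apply, of_apply, RingHom.map_mulVec, Matrix.map_pow]

lemma hece2_red (K : ℕ) {a b : Mat d ℤ} {u : Mat d ℤ_[p]}
    (h : a.map (Int.cast : ℤ → ℤ_[p]) = u * b.map (Int.cast : ℤ → ℤ_[p])) :
    a.map (Int.castRingHom (ZMod (p ^ K))) =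
      u.map (PadicInt.toZModPow K) * b.map (Int.castRingHom (ZMod (p ^ K))) := by
  have e : ∀ x : Mat d ℤ, (x.map (Int.cast : ℤ → ℤ_[p])).map (PadicInt.toZModPow K) =
      x.map (Int.castRingHom (ZMod (p ^ K))) := fun x => by
    ext i j
    simp
  rw [← e, ← e, h, Matrix.map_mul]

lemma hece2_inj (K : ℕ) {P U : Mat d (Cp p)} (h : P * U = 1) {w : Fin d → ℤ}
    (hw : P *ᵥ (fun j => (w j : Cp p)) ∈ Latt ((p : Cp p) ^ K • P)) (j : Fin d) :
    (w j : ZMod (p ^ K)) = 0 := by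
  obtain ⟨x, hx⟩ := hw
  have h1 := congrFun (congrArg (U *ᵥ ·) hx) j
  simp only [smul_mulVec, mulVec_smul, mulVec_mulVec, mul_eq_one_comm.1 h, one_mulVec,
    Pi.smul_apply, smul_eq_mul] at h1
  have h2 : ((w j : ℤ) : ℤ_[p]) = (p : ℤ_[p]) ^ K * x j := by
    have hz : Function.Injective (zc p) :=
      (algebraMap ℚ_[p] (Cp p)).injective.comp Subtype.val_injective
    apply hz
    rw [map_intCast, map_mul, map_pow, map_natCast, h1]
  have h3 := congrArg (PadicInt.toZModPow K) h2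
  rwa [map_intCast, map_mul, map_pow, map_natCast, ← Nat.cast_pow, ZMod.natCast_self,
    zero_mul] at h3

/-- the number of good pairs in a cell -/
theorem cell_count (hd : 2 ≤ d) {k e M K : ℕ} (hM : (k + 2 * e) * (d ^ 2 + 1) + 1 ≤ M)
    (hK : e + M + (k + 2 * e) * d ≤ K) {B : Mat d (Cp p)} (hB0 : B.det ≠ 0)
    (hB : Box φ 1 = Latt B) {y₀ : Mat d ℤ} {v₀ : Fin d → ℤ} {t₀ : Fin d → Cp p}
    {P₀ U₀ : Mat d (Cp p)} (h₀ : GD k e y₀ v₀ t₀ P₀ U₀) (ht₀ : t₀ ∈ FF φ) :
    (Nat.card {z : Mat d (ZMod (p ^ K)) × (Fin d → ZMod (p ^ K)) //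
      ∃ (t : Fin d → Cp p) (P U : Mat d (Cp p)), GD k e (lftM z.1) (lftV z.2) t P U ∧
        (∀ i, ‖t i - t₀ i‖ ≤ (p : ℝ) ^ (-(M : ℝ))) ∧
        Latt ((p : Cp p) ^ e • P) = Latt ((p : Cp p) ^ e • P₀)} : ℝ) * ‖P₀.det‖ ≤
      (p : ℝ) ^ ((K : ℝ) * d ^ 2 + (K - M) * d) *
        (∏ i, ∏ j ∈ Finset.univ.erase i, ‖t₀ i - t₀ j‖) * ‖B.det‖ := by
  classical
  have _ := hB0
  have hp : p.Prime := Fact.out
  have p1 : (1 : ℝ) ≤ p := by exact_mod_cast hp.one_le
  have p0 : (0 : ℝ) < p := one_pos.trans_le p1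
  have pc : (p : Cp p) ≠ 0 := Nat.cast_ne_zero.2 hp.ne_zero
  let b : Fin d → Cp p := fun i => (p : Cp p) ^ M * ∏ j ∈ Finset.univ.erase i, (t₀ i - t₀ j)
  have nb : ∀ i, ‖b i‖ = (p : ℝ) ^ (-(M : ℝ)) * ∏ j ∈ Finset.univ.erase i, ‖t₀ i - t₀ j‖ :=
    fun i => by rw [norm_mul, norm_p_pow, norm_prod]
  have hb : b ∈ FF φ := fun σ i => by
    simp only [b, map_mul, map_pow, map_natCast, map_prod, map_sub, mem_FF.1 ht₀ σ]
    congr 1
    exact Finset.prod_equiv (φ σ) (fun j => by simp) fun j _ => rfl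
  have hb0 : ∀ i, b i ≠ 0 := fun i => mul_ne_zero (pow_ne_zero _ pc)
    (Finset.prod_ne_zero_iff.2 fun j hj =>
      sub_ne_zero.2 fun h => (Finset.mem_erase.1 hj).1 (h₀.inj h).symm)
  have hle : Latt ((p : Cp p) ^ K • P₀) ≤ Box φ b := by
    refine lat_le fun j => ⟨fun σ i => ?_, fun i => ?_⟩
    · simp only [Matrix.smul_apply, smul_eq_mul, map_mul, map_pow, map_natCast,
        mem_FF.1 (ga_cols h₀ ht₀ j) σ i]
    · have g0 : (0 : ℝ) ≤ (p : ℝ) ^ (-((k : ℝ) + 2 * e)) := by positivity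
      have g1 : (p : ℝ) ^ (-((k : ℝ) + 2 * e)) ≤ 1 :=
        Real.rpow_le_one_of_one_le_of_nonpos p1 (neg_nonpos.2 (by positivity))
      have g2 := Finset.prod_le_prod (s := Finset.univ.erase i) (fun _ _ => g0)
        fun l hl => h₀.gap (Finset.mem_erase.1 hl).1.symm
      rw [Finset.prod_const] at g2
      have g3 := (pow_le_pow_of_le_one g0 g1 ((Finset.card_le_univ (Finset.univ.erase i)).trans
        (Fintype.card_fin d).le)).trans g2
      change ‖(p : Cp p) ^ K * P₀ i j‖ ≤ _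
      rw [nb, norm_mul, norm_p_pow]
      refine (mul_le_mul_of_nonneg_left (h₀.bP i j) (by positivity)).trans
        (le_trans ?_ (mul_le_mul_of_nonneg_left g3 (by positivity)))
      rw [← Real.rpow_natCast, ← Real.rpow_natCast, ← Real.rpow_mul p0.le, ← Real.rpow_add p0,
        ← Real.rpow_add p0]
      refine Real.rpow_le_rpow_of_exponent_le p1 ?_
      have : (e : ℝ) + M + (k + 2 * e) * d ≤ K := by exact_mod_cast hK
      linarith
  have dP : P₀.det ≠ 0 := fun h => by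
    have := congrArg det h₀.inv
    rw [det_mul, h, zero_mul, det_one] at this
    exact zero_ne_one this
  have dY : ((p : Cp p) ^ K • P₀).det ≠ 0 := by
    rw [det_smul]
    exact mul_ne_zero (pow_ne_zero _ (pow_ne_zero _ pc)) dP
  obtain ⟨i1, i2⟩ := lat_index dY (box_lat hB hb hb0 ▸ hle)
  rw [← box_lat hB hb hb0] at i1
  have i3 : (Latt ((p : Cp p) ^ K • P₀)).relIndex (Box φ b) ≠ 0 := fun h => by
    rw [h, Nat.cast_zero, zero_mul] at i1
    exact i2 (norm_eq_zero.1 i1.symm)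
  let F : (Fin d → ℤ) → Fin d → Cp p := fun w =>
    P₀ *ᵥ fun j => ((w - (y₀ ^ d) *ᵥ v₀) j : Cp p)
  let T : Finset (Fin d → ZMod (p ^ K)) := Finset.univ.filter fun r =>
    ∃ w : Fin d → ℤ, Int.castRingHom _ ∘ w = r ∧ ∀ i, ‖F w i‖ ≤ ‖b i‖
  have hT : T.card ≤ (Latt ((p : Cp p) ^ K • P₀)).relIndex (Box φ b) := by
    choose w w1 w2 using fun r : T => (Finset.mem_filter.1 r.2).2
    have w3 : ∀ r, F (w r) ∈ Box φ b := fun r => ⟨fun σ i => by
      simp only [F, mulVec, dotProduct, map_sum, map_mul, map_intCast,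
        fun j => mem_FF.1 (ga_cols h₀ ht₀ j) σ i], w2 r⟩
    have := AddSubgroup.fintypeOfIndexNeZero i3
    rw [← Nat.card_eq_finsetCard]
    refine Nat.card_le_card_of_injective (fun r : T => ((⟨F (w r), w3 r⟩ : Box φ b) :
      Box φ b ⧸ (Latt ((p : Cp p) ^ K • P₀)).addSubgroupOf (Box φ b))) fun r r' h => ?_
    have h1 : -F (w r) + F (w r') ∈ Latt ((p : Cp p) ^ K • P₀) :=
      AddSubgroup.mem_addSubgroupOf.1 ((QuotientAddGroup.eq
        (s := (Latt ((p : Cp p) ^ K • P₀)).addSubgroupOf (Box φ b))).1 h)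
    have h2 : -F (w r) + F (w r') = P₀ *ᵥ fun j => ((w r' - w r) j : Cp p) := by
      simp only [F]
      rw [← mulVec_neg, ← mulVec_add]
      congr 1
      funext j
      simp
    refine Subtype.ext (funext fun j => ?_)
    have h3 := hece2_inj K h₀.inv (h2 ▸ h1) j
    rw [Pi.sub_apply, Int.cast_sub, sub_eq_zero] at h3
    rw [← w1 r, ← w1 r']
    exact h3.symm
  have hc := (Nat.card_le_card_of_injective (α := {z : Mat d (ZMod (p ^ K)) ×
      (Fin d → ZMod (p ^ K)) // ∃ (t : Fin d → Cp p) (P U : Mat d (Cp p)),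
        GD k e (lftM z.1) (lftV z.2) t P U ∧ (∀ i, ‖t i - t₀ i‖ ≤ (p : ℝ) ^ (-(M : ℝ))) ∧
        Latt ((p : Cp p) ^ e • P) = Latt ((p : Cp p) ^ e • P₀)}) (Subtype.map id fun z hz => by
    obtain ⟨t, P, U, a1, a2, a3⟩ := hz
    obtain ⟨⟨u, u', b1, b2⟩, c, b3, b4⟩ := same_lat hd hM h₀ a1 a2 a3
    have e1 : (lftM z.1).map (Int.castRingHom (ZMod (p ^ K))) = z.1 := by
      ext i j
      simp [lftM]
    have e2 : Int.castRingHom (ZMod (p ^ K)) ∘ lftV z.2 = z.2 := by
      funext i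
      simp [lftV]
    have e3 := hece2_kry (Int.castRingHom (ZMod (p ^ K))) (lftM z.1) (lftV z.2)
    rw [e1, e2] at e3
    refine ⟨⟨_, _, e3 ▸ hece2_red K b1, e3 ▸ hece2_red K b2⟩, Int.castRingHom _ ∘ c, ?_,
      Finset.mem_filter.2 ⟨Finset.mem_univ _, _, hece2_vec _ _ _, fun i => nb i ▸ b4 i⟩⟩
    have e4 := congrArg (Int.castRingHom (ZMod (p ^ K)) ∘ ·) b3
    simp only [hece2_vec, Matrix.map_pow, e1, e2, e3] at e4
    exact e4) (Subtype.map_injective _ Function.injective_id)).trans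
      ((kry_count (by omega) ((kry y₀ v₀).map (Int.castRingHom (ZMod (p ^ K)))) T).trans
        (Nat.mul_le_mul_left _ hT))
  rw [ZMod.card] at hc
  rw [det_smul, norm_mul, norm_pow, norm_p_pow, det_mul, det_diagonal, norm_mul, norm_prod,
    Fintype.card_fin, Finset.prod_congr rfl fun i _ => nb i, Finset.prod_mul_distrib,
    Finset.prod_const, Finset.card_univ, Fintype.card_fin, ← Real.rpow_mul_natCast p0.le,
    ← Real.rpow_mul_natCast p0.le] at i1
  refine (mul_le_mul_of_nonneg_right ((Nat.cast_le (α := ℝ)).2 hc) (norm_nonneg _)).trans_eq ?_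
  have e1 : (p : ℝ) ^ ((K : ℝ) * d ^ 2 + (K - M) * d) * (p : ℝ) ^ (-(K : ℝ) * d) =
      (((p ^ K) ^ d ^ 2 : ℕ) : ℝ) * (p : ℝ) ^ (-(M : ℝ) * d) := by
    rw [← pow_mul, Nat.cast_pow, ← Real.rpow_natCast (p : ℝ) (K * d ^ 2), ← Real.rpow_add p0,
      ← Real.rpow_add p0]
    congr 1
    push_cast
    ring
  refine mul_right_cancel₀ (Real.rpow_pos_of_pos p0 (-(K : ℝ) * d)).ne' ?_
  rw [Nat.cast_mul]
  linear_combination (((p ^ K) ^ d ^ 2 : ℕ) : ℝ) * i1 -
    (∏ i, ∏ j ∈ Finset.univ.erase i, ‖t₀ i - t₀ j‖) * ‖B.det‖ * e1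

end Pool.Agent.MP_8299d6_al.Up

end
end
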