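import Pool.Agent.Mg.X8299d6.Gc62318

section

open Matrix Polynomial

noncomputable section

namespace Pool.Agent.MP_8299d6_al.Up

variable {p : ℕ} [Fact p.Prime] {d : ℕ}

lemma hehyp_dvd (e : ℕ) (n : ℤ) (h : ‖(n : Cp p)‖ < (p : ℝ) ^ (-(e : ℝ))) :
    ((p ^ (e + 1) : ℕ) : ℤ) ∣ n := by
  have h1 : (n : Cp p) = algebraMap ℚ_[p] (Cp p) (n : ℚ_[p]) := by simp
  rw [h1, PadicAlgCl.norm_extends] at h
  have h2 : (p : ℝ) ^ (-(e : ℝ)) = (p : ℝ) ^ (-(e : ℤ)) := by
    rw [← Real.rpow_intCast]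
    simp
  rw [h2, Padic.norm_lt_pow_iff_norm_le_pow_sub_one] at h
  have h3 : (-(e : ℤ) - 1) = -((e + 1 : ℕ) : ℤ) := by push_cast; ring
  rw [h3, Padic.norm_int_le_pow_iff_dvd] at h
  exact_mod_cast h

lemma hehyp_one {I X : Type} [Fintype I] [DecidableEq I] [Fintype X] (Q : (I → X) → Prop) (l : I)
    (M N : ℕ) (h : ∀ x, Nat.card {a : X // Q (Function.update x l a)} * M ≤ N) :
    Nat.card {x : I → X // Q x} * Fintype.card X * M ≤ N * Fintype.card X ^ Fintype.card I := by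
  classical
  let f : {x : I → X // Q x} × X → Σ y : I → X, {a : X // Q (Function.update y l a)} :=
    fun z => ⟨Function.update z.1.1 l z.2, ⟨z.1.1 l, by
      rw [Function.update_idem, Function.update_eq_self]; exact z.1.2⟩⟩
  have hf : Function.Injective f := by
    rintro ⟨⟨x, hx⟩, b⟩ ⟨⟨x', hx'⟩, b'⟩ hz
    have h1 : Function.update x l b = Function.update x' l b' := congrArg Sigma.fst hz
    have h2 : x l = x' l := congrArg (fun w : Σ y : I → X, {a : X // Q (Function.update y l a)} =>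
      w.2.1) hz
    have h3 : b = b' := by simpa using congrFun h1 l
    have h4 : x = x' := by
      funext i
      by_cases hi : i = l
      · rw [hi]; exact h2
      · simpa [Function.update_of_ne hi] using congrFun h1 i
    subst h3 h4
    rfl
  have h1 := Nat.card_le_card_of_injective f hf
  rw [Nat.card_prod, Nat.card_sigma, Nat.card_eq_fintype_card (α := X)] at h1
  calc Nat.card {x : I → X // Q x} * Fintype.card X * M
      ≤ (∑ y : I → X, Nat.card {a : X // Q (Function.update y l a)}) * M :=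
        Nat.mul_le_mul_right _ h1
    _ = ∑ y : I → X, Nat.card {a : X // Q (Function.update y l a)} * M := Finset.sum_mul _ _ _
    _ ≤ ∑ _y : I → X, N := Finset.sum_le_sum fun y _ => h y
    _ = N * Fintype.card X ^ Fintype.card I := by
        simp [mul_comm]

lemma hehyp_union {I Y : Type} [Fintype I] [Finite Y] (bad : I → Y → Prop) :
    Nat.card {x : Y // ∃ i, bad i x} ≤ ∑ i, Nat.card {x : Y // bad i x} := by
  rw [← Nat.card_sigma]
  let g : (Σ i : I, {x : Y // bad i x}) → {x : Y // ∃ i, bad i x} :=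
    fun w => ⟨w.2.1, w.1, w.2.2⟩
  refine Nat.card_le_card_of_surjective g ?_
  rintro ⟨x, i, hi⟩
  exact ⟨⟨i, x, hi⟩, rfl⟩

/-- integers in a ball -/
theorem ball_count (K e : ℕ) (he : e + 1 ≤ K) (z : Cp p) :
    Nat.card {a : ZMod (p ^ K) // ‖((a.val : ℕ) : Cp p) - z‖ < (p : ℝ) ^ (-(e : ℝ))} * p ^ (e + 1)
      ≤ p ^ K := by
  have hp : p ≠ 0 := (Fact.out : p.Prime).ne_zero
  have : NeZero (p ^ K) := ⟨pow_ne_zero _ hp⟩
  have : NeZero (p ^ (e + 1)) := ⟨pow_ne_zero _ hp⟩
  have hd : p ^ (e + 1) ∣ p ^ K := pow_dvd_pow _ he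
  let c : ZMod (p ^ K) →+* ZMod (p ^ (e + 1)) := ZMod.castHom hd _
  have hc : ∀ a : ZMod (p ^ K), c a = ((a.val : ℕ) : ZMod (p ^ (e + 1))) := by
    intro a
    conv_lhs => rw [← ZMod.natCast_zmod_val a]
    rw [map_natCast]
  let f : {a : ZMod (p ^ K) // ‖((a.val : ℕ) : Cp p) - z‖ < (p : ℝ) ^ (-(e : ℝ))} ×
      ZMod (p ^ (e + 1)) → ZMod (p ^ K) := fun w => w.1.1 + ((w.2.val : ℕ) : ZMod (p ^ K))
  have hf : Function.Injective f := by
    rintro ⟨⟨a, ha⟩, r⟩ ⟨⟨a', ha'⟩, r'⟩ hw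
    have h0 : a + ((r.val : ℕ) : ZMod (p ^ K)) = a' + ((r'.val : ℕ) : ZMod (p ^ K)) := hw
    have h1 : ‖((((a.val : ℕ) : ℤ) - ((a'.val : ℕ) : ℤ) : ℤ) : Cp p)‖ < (p : ℝ) ^ (-(e : ℝ)) := by
      have : ((((a.val : ℕ) : ℤ) - ((a'.val : ℕ) : ℤ) : ℤ) : Cp p) =
          (((a.val : ℕ) : Cp p) - z) + -(((a'.val : ℕ) : Cp p) - z) := by
        rw [Int.cast_sub, Int.cast_natCast, Int.cast_natCast]; ring
      rw [this]
      refine (IsUltrametricDist.norm_add_le_max _ _).trans_lt (max_lt ha ?_)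
      rw [norm_neg]; exact ha'
    have h2 := hehyp_dvd e _ h1
    have h3 : c a = c a' := by
      rw [hc, hc, ← sub_eq_zero]
      have := (ZMod.intCast_zmod_eq_zero_iff_dvd _ _).2 h2
      rwa [Int.cast_sub, Int.cast_natCast, Int.cast_natCast] at this
    have h4 := congrArg c h0
    rw [map_add, map_add, map_natCast, map_natCast, ZMod.natCast_zmod_val, ZMod.natCast_zmod_val,
      h3, add_right_inj] at h4
    subst h4
    have h5 : a = a' := add_right_cancel h0
    subst h5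
    rfl
  have h1 := Nat.card_le_card_of_injective f hf
  rwa [Nat.card_prod, Nat.card_zmod, Nat.card_zmod] at h1

/-- points that are bad in some coordinate -/
theorem box_count {I X : Type} [Fintype I] [DecidableEq I] [Fintype X] (bad : I → (I → X) → Prop)
    (B : ℕ) (h : ∀ i x, Nat.card {a : X // bad i (Function.update x i a)} ≤ B) :
    Nat.card {x : I → X // ∃ i, bad i x} * Fintype.card X ≤
      Fintype.card I * B * Fintype.card X ^ Fintype.card I := by
  calc Nat.card {x : I → X // ∃ i, bad i x} * Fintype.card X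
      ≤ (∑ i, Nat.card {x : I → X // bad i x}) * Fintype.card X :=
        Nat.mul_le_mul_right _ (hehyp_union bad)
    _ = ∑ i, Nat.card {x : I → X // bad i x} * Fintype.card X := Finset.sum_mul _ _ _
    _ ≤ ∑ _i : I, B * Fintype.card X ^ Fintype.card I := Finset.sum_le_sum fun i _ => by
        simpa using hehyp_one (bad i) i 1 B (fun x => by simpa using h i x)
    _ = Fintype.card I * B * Fintype.card X ^ Fintype.card I := by
        simp [mul_assoc]

lemma hehyp_row (K e : ℕ) (he : e + 1 ≤ K) (a : Fin d → Cp p) :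
    Nat.card {v : Fin d → ZMod (p ^ K) // ∃ j,
      ‖∑ l, a l * (lftV v l : Cp p)‖ < (p : ℝ) ^ (-(e : ℝ)) * ‖a j‖} * p ^ (e + 1)
      ≤ p ^ (K * d) := by
  have hp : p ≠ 0 := (Fact.out : p.Prime).ne_zero
  have : NeZero (p ^ K) := ⟨pow_ne_zero _ hp⟩
  have hpos : (0 : ℝ) < (p : ℝ) ^ (-(e : ℝ)) :=
    Real.rpow_pos_of_pos (by exact_mod_cast Nat.pos_of_ne_zero hp) _
  by_cases h0 : ∀ j, a j = 0
  · have : IsEmpty {v : Fin d → ZMod (p ^ K) // ∃ j,
        ‖∑ l, a l * (lftV v l : Cp p)‖ < (p : ℝ) ^ (-(e : ℝ)) * ‖a j‖} := by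
      refine ⟨?_⟩
      rintro ⟨v, j, hj⟩
      rw [h0 j, norm_zero, mul_zero] at hj
      exact absurd hj (not_lt.2 (norm_nonneg _))
    rw [Nat.card_of_isEmpty, zero_mul]
    exact Nat.zero_le _
  push Not at h0
  obtain ⟨j0, hj0⟩ := h0
  obtain ⟨m, -, hm⟩ := Finset.exists_max_image Finset.univ (fun j => ‖a j‖)
    ⟨j0, Finset.mem_univ _⟩
  have ham : 0 < ‖a m‖ := (norm_pos_iff.2 hj0).trans_le (hm j0 (Finset.mem_univ _))
  have ham' : a m ≠ 0 := norm_pos_iff.1 ham
  have key := hehyp_one (fun v : Fin d → ZMod (p ^ K) => ∃ j,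
      ‖∑ l, a l * (lftV v l : Cp p)‖ < (p : ℝ) ^ (-(e : ℝ)) * ‖a j‖) m (p ^ (e + 1)) (p ^ K) (by
    intro x
    refine le_trans (Nat.mul_le_mul_right _ ?_) (ball_count K e he
      (-(∑ l ∈ Finset.univ.erase m, a l * (lftV x l : Cp p)) / a m))
    refine Nat.card_le_card_of_injective (fun w => ⟨w.1, ?_⟩) ?_
    · obtain ⟨b, j, hj⟩ := w
      have hs : ∑ l, a l * (lftV (Function.update x m b) l : Cp p) =
          a m * (((b.val : ℕ) : Cp p) -
            (-(∑ l ∈ Finset.univ.erase m, a l * (lftV x l : Cp p)) / a m)) := by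
        rw [← Finset.add_sum_erase _ _ (Finset.mem_univ m)]
        have h1 : ∑ l ∈ Finset.univ.erase m, a l * (lftV (Function.update x m b) l : Cp p) =
            ∑ l ∈ Finset.univ.erase m, a l * (lftV x l : Cp p) :=
          Finset.sum_congr rfl fun l hl => by
            simp only [lftV, Function.update_of_ne (Finset.ne_of_mem_erase hl)]
        rw [h1]
        simp only [lftV, Function.update_self, Int.cast_natCast]
        field_simp
        ring
      rw [hs, norm_mul] at hj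
      have h2 : ‖a m‖ * ‖((b.val : ℕ) : Cp p) -
          (-(∑ l ∈ Finset.univ.erase m, a l * (lftV x l : Cp p)) / a m)‖ <
          ‖a m‖ * (p : ℝ) ^ (-(e : ℝ)) := by
        refine hj.trans_le ?_
        rw [mul_comm]
        exact mul_le_mul_of_nonneg_right (hm j (Finset.mem_univ _)) hpos.le
      exact lt_of_mul_lt_mul_left h2 ham.le
    · intro w w' hw
      exact Subtype.ext (Subtype.mk.inj hw))
  rw [ZMod.card, Fintype.card_fin, ← pow_mul, mul_right_comm, mul_comm (p ^ K)] at key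
  exact Nat.le_of_mul_le_mul_right key (Nat.pos_of_ne_zero (pow_ne_zero _ hp))

/-- vectors close to one of `d` hyperplanes -/
theorem hyp_count (K e : ℕ) (he : e + 1 ≤ K) (a : Fin d → Fin d → Cp p) :
    Nat.card {v : Fin d → ZMod (p ^ K) // ∃ i j,
      ‖∑ l, a i l * (lftV v l : Cp p)‖ < (p : ℝ) ^ (-(e : ℝ)) * ‖a i j‖} * p ^ (e + 1)
      ≤ d * p ^ (K * d) := by
  have hp : p ≠ 0 := (Fact.out : p.Prime).ne_zero
  have : NeZero (p ^ K) := ⟨pow_ne_zero _ hp⟩
  calc Nat.card {v : Fin d → ZMod (p ^ K) // ∃ i j,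
        ‖∑ l, a i l * (lftV v l : Cp p)‖ < (p : ℝ) ^ (-(e : ℝ)) * ‖a i j‖} * p ^ (e + 1)
      ≤ (∑ i, Nat.card {v : Fin d → ZMod (p ^ K) // ∃ j,
        ‖∑ l, a i l * (lftV v l : Cp p)‖ < (p : ℝ) ^ (-(e : ℝ)) * ‖a i j‖}) * p ^ (e + 1) :=
        Nat.mul_le_mul_right _ (hehyp_union (fun i (v : Fin d → ZMod (p ^ K)) => ∃ j,
          ‖∑ l, a i l * (lftV v l : Cp p)‖ < (p : ℝ) ^ (-(e : ℝ)) * ‖a i j‖))
    _ = ∑ i, Nat.card {v : Fin d → ZMod (p ^ K) // ∃ j,
        ‖∑ l, a i l * (lftV v l : Cp p)‖ < (p : ℝ) ^ (-(e : ℝ)) * ‖a i j‖} * p ^ (e + 1) :=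
        Finset.sum_mul _ _ _
    _ ≤ ∑ _i : Fin d, p ^ (K * d) := Finset.sum_le_sum fun i _ => hehyp_row K e he (a i)
    _ = d * p ^ (K * d) := by simp

end Pool.Agent.MP_8299d6_al.Up

end
end

section

open Matrix Polynomial
open scoped Kronecker

noncomputable section

namespace Pool.Agent.MP_8299d6_al.Up

variable {p : ℕ} [Fact p.Prime] {d : ℕ}

/-- the index of the image of an integer matrix is its determinant -/
theorem hesyIndex {ι : Type} [Fintype ι] [DecidableEq ι] (T : Matrix ι ι ℤ) (hT : T.det ≠ 0) :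
    (LinearMap.range (toLin' T)).toAddSubgroup.index = T.det.natAbs := by
  have hinj : Function.Injective (toLin' T) := by
    intro x y hxy
    have h0 : T *ᵥ (x - y) = 0 := by
      rw [mulVec_sub]
      simpa [sub_eq_zero] using hxy
    exact sub_eq_zero.1 (eq_zero_of_mulVec_eq_zero hT h0)
  have h1 := Submodule.natAbs_det_equiv (LinearMap.range (toLin' T))
    (LinearEquiv.ofInjective (toLin' T) hinj)
  have h2 : (LinearMap.range (toLin' T)).subtype ∘ₗ AddMonoidHom.toIntLinearMap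
      ((LinearEquiv.ofInjective (toLin' T) hinj : (ι → ℤ) ≃ₗ[ℤ] LinearMap.range (toLin' T)) :
        (ι → ℤ) →+ LinearMap.range (toLin' T)) = toLin' T := by
    ext x i
    rfl
  rw [h2, LinearMap.det_toLin'] at h1
  rw [h1]
  rfl

/-- the size of the kernel divides the determinant -/
theorem hesyDvd {ι : Type} [Fintype ι] [DecidableEq ι] (T : Matrix ι ι ℤ) (hT : T.det ≠ 0)
    (N : ℕ) [NeZero N] :
    Nat.card {x : ι → ZMod N // T.map (Int.cast : ℤ → ZMod N) *ᵥ x = 0} ∣ T.det.natAbs := by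
  let f : (ι → ZMod N) →+ (ι → ZMod N) :=
    (toLin' (T.map (Int.cast : ℤ → ZMod N))).toAddMonoidHom
  let r : (ι → ℤ) →+ (ι → ZMod N) :=
    { toFun := fun x i => (x i : ZMod N)
      map_zero' := by ext i; simp
      map_add' := by intro x y; ext i; simp }
  have hr : Function.Surjective r := by
    intro x
    refine ⟨fun i => ((x i).val : ℤ), ?_⟩
    ext i
    simp [r]
  have h1 : f.range.index = Nat.card f.ker := AddSubgroup.index_range
  have h2 : (f.range.comap r).index = f.range.index :=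
    AddSubgroup.index_comap_of_surjective _ hr
  have h3 : (LinearMap.range (toLin' T)).toAddSubgroup ≤ f.range.comap r := by
    rintro _ ⟨x, rfl⟩
    refine ⟨r x, ?_⟩
    ext i
    simp [f, r, mulVec, dotProduct]
  have h4 := AddSubgroup.index_dvd_of_le h3
  rw [h2, h1, hesyIndex T hT] at h4
  exact h4

/-- the size of the kernel is a power of `p` -/
theorem hesyPow {ι : Type} [Fintype ι] [DecidableEq ι] (T : Matrix ι ι ℤ) (k : ℕ) :
    ∃ j, Nat.card {x : ι → ZMod (p ^ k) // T.map (Int.cast : ℤ → ZMod (p ^ k)) *ᵥ x = 0} =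
      p ^ j := by
  have hp : p.Prime := Fact.out
  let f : (ι → ZMod (p ^ k)) →+ (ι → ZMod (p ^ k)) :=
    (toLin' (T.map (Int.cast : ℤ → ZMod (p ^ k)))).toAddMonoidHom
  have h1 : Nat.card f.ker ∣ Nat.card (ι → ZMod (p ^ k)) := AddSubgroup.card_addSubgroup_dvd_card _
  rw [Nat.card_fun, Nat.card_zmod, ← pow_mul] at h1
  obtain ⟨j, -, hj⟩ := (Nat.dvd_prime_pow hp).1 h1
  exact ⟨j, hj⟩

/-- the norm of an integer divisible by a power of `p` -/
theorem hesyNorm (j : ℕ) (a : ℤ) (h : (p : ℤ) ^ j ∣ a) :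
    ‖(a : Cp p)‖ ≤ (p : ℝ) ^ (-(j : ℤ)) := by
  have h1 := (Padic.norm_int_le_pow_iff_dvd (p := p) a j).2 h
  have h2 := PadicAlgCl.norm_extends p (a : ℚ_[p])
  rw [← h2] at h1
  simpa using h1

/-- the kernel modulo `p^k` is bounded by the determinant -/
theorem ker_le_det {ι : Type} [Fintype ι] [DecidableEq ι] (T : Matrix ι ι ℤ) (k : ℕ) :
    (Nat.card {x : ι → ZMod (p ^ k) // T.map (Int.cast : ℤ → ZMod (p ^ k)) *ᵥ x = 0} : ℝ) *
      ‖(T.det : Cp p)‖ ≤ 1 := by
  have hp : p.Prime := Fact.out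
  by_cases hT : T.det = 0
  · simp [hT]
  have : NeZero (p ^ k) := ⟨pow_ne_zero _ hp.ne_zero⟩
  obtain ⟨j, hj⟩ := hesyPow (p := p) T k
  have h1 := hesyDvd T hT (p ^ k)
  rw [hj] at h1 ⊢
  have h2 : (p : ℤ) ^ j ∣ T.det := by
    have := Int.natCast_dvd.2 h1
    simpa using this
  have h3 := hesyNorm (p := p) j _ h2
  have hp0 : (0 : ℝ) < p := by exact_mod_cast hp.pos
  calc ((p ^ j : ℕ) : ℝ) * ‖(T.det : Cp p)‖ ≤ ((p ^ j : ℕ) : ℝ) * (p : ℝ) ^ (-(j : ℤ)) := by
        gcongr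
    _ = 1 := by
        rw [_root_.zpow_neg, zpow_natCast, Nat.cast_pow, mul_inv_cancel₀ (pow_pos hp0 j).ne']

/-- an integer row far from all the hyperplanes -/
theorem hesyRow {e : ℕ} (he : d < p ^ (e + 1)) (U : Mat d (Cp p)) :
    ∃ f : Fin d → ℤ, ∀ i j, (p : ℝ) ^ (-(e : ℝ)) * ‖U j i‖ ≤ ‖∑ l, U l i * (f l : Cp p)‖ := by
  have hp : p.Prime := Fact.out
  have : NeZero (p ^ (e + 1)) := ⟨pow_ne_zero _ hp.ne_zero⟩
  have h1 := hyp_count (p := p) (e + 1) e le_rfl (fun i l => U l i)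
  by_contra hc
  push Not at hc
  have h2 : Nat.card {v : Fin d → ZMod (p ^ (e + 1)) // ∃ i j,
      ‖∑ l, U l i * (lftV v l : Cp p)‖ < (p : ℝ) ^ (-(e : ℝ)) * ‖U j i‖} =
      p ^ ((e + 1) * d) := by
    rw [Nat.card_congr (Equiv.subtypeUnivEquiv (fun v => hc (lftV v))), Nat.card_fun,
      Nat.card_zmod, ← pow_mul]
    simp
  rw [h2] at h1
  have h3 : 0 < p ^ ((e + 1) * d) := pow_pos hp.pos _
  nlinarith

/-- the matrix of the map `Y ↦ A Y - Y B` -/
def hesyT {R : Type} [CommRing R] (A B : Mat d R) :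
    Matrix (Fin d × Fin d) (Fin d × Fin d) R :=
  A ⊗ₖ (1 : Mat d R) - (1 : Mat d R) ⊗ₖ Bᵀ

theorem hesyMap {R S : Type} [CommRing R] [CommRing S] (g : R →+* S) (A B : Mat d R) :
    (hesyT A B).map g = hesyT (A.map g) (B.map g) := by
  ext ⟨i, j⟩ ⟨a, b⟩
  simp only [hesyT, map_apply, Matrix.sub_apply, kroneckerMap_apply, transpose_apply, map_sub, map_mul,
    one_apply]
  split_ifs <;> simp

theorem hesyMul {R : Type} [CommRing R] (A B : Mat d R) (x : Fin d × Fin d → R) (i j : Fin d) :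
    (hesyT A B *ᵥ x) (i, j) =
      (A * (Matrix.of fun a b => x (a, b)) - (Matrix.of fun a b => x (a, b)) * B) i j := by
  simp only [hesyT, mulVec, dotProduct, Matrix.sub_apply, kroneckerMap_apply, transpose_apply,
    one_apply, mul_apply, of_apply, Fintype.sum_prod_type, sub_mul, Finset.sum_sub_distrib]
  congr 1
  · refine Finset.sum_congr rfl fun a _ => ?_
    simp
  · rw [Finset.sum_comm]
    refine Finset.sum_congr rfl fun b _ => ?_
    simp [mul_comm]

theorem hesyCard {R : Type} [CommRing R] (A : Mat d R) :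
    Nat.card (cent A) = Nat.card {x : Fin d × Fin d → R // hesyT A A *ᵥ x = 0} := by
  refine Nat.card_congr
    { toFun := fun Y => ⟨fun q => Y.1 q.1 q.2, ?_⟩
      invFun := fun x => ⟨Matrix.of fun a b => x.1 (a, b), ?_⟩
      left_inv := fun Y => rfl
      right_inv := fun x => rfl }
  · ext ⟨i, j⟩
    rw [hesyMul]
    have h : A * Y.1 = Y.1 * A := Subring.mem_centralizer_iff.1 Y.2 A rfl
    change (A * Y.1 - Y.1 * A) i j = 0
    rw [h, sub_self]
    rfl
  · refine Subring.mem_centralizer_iff.2 ?_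
    rintro _ rfl
    rw [← sub_eq_zero]
    ext i j
    rw [← hesyMul, x.2]
    rfl

theorem hesyDet {K : Type} [Field K] {y P U : Mat d K} {t : Fin d → K} (v f : Fin d → K)
    (hPU : P * U = 1) (hy : P * y = diagonal t * P) (hv : P *ᵥ v = 1) :
    (hesyT (y + vecMulVec v f) y).det =
      ∏ j, ((∑ l, U l j * f l) * ∏ i ∈ Finset.univ.erase j, (t i - t j)) := by
  have h0 : P * y * U = diagonal t := by rw [hy, Matrix.mul_assoc, hPU, Matrix.mul_one]
  have h1 : Uᵀ * Pᵀ = 1 := by rw [← transpose_mul, hPU, transpose_one]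
  have h2 : Uᵀ * yᵀ * Pᵀ = diagonal t := by
    rw [← transpose_mul, ← transpose_mul, ← Matrix.mul_assoc, h0, diagonal_transpose]
  have h3 : P * (y + vecMulVec v f) * U = diagonal t + vecMulVec 1 (f ᵥ* U) := by
    rw [Matrix.mul_add, Matrix.add_mul, h0, mul_vecMulVec, vecMulVec_mul, hv]
  have h4 : (P ⊗ₖ Uᵀ) * (U ⊗ₖ Pᵀ) = 1 := by
    rw [← mul_kronecker_mul, hPU, h1, one_kronecker_one]
  have h5 : (P ⊗ₖ Uᵀ) * hesyT (y + vecMulVec v f) y * (U ⊗ₖ Pᵀ) =
      blockDiagonal (fun j => diagonal (fun i => t i - t j) + vecMulVec 1 (f ᵥ* U)) := by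
    rw [hesyT, Matrix.mul_sub, Matrix.sub_mul, ← mul_kronecker_mul, ← mul_kronecker_mul,
      ← mul_kronecker_mul, ← mul_kronecker_mul, h3, h2, Matrix.mul_one, Matrix.mul_one, h1, hPU]
    ext ⟨i, j⟩ ⟨a, b⟩
    simp only [Matrix.sub_apply, kroneckerMap_apply, Matrix.add_apply, blockDiagonal_apply, one_apply,
      diagonal_apply, vecMulVec_apply, Pi.one_apply]
    clear h0 h1 h2 h3 h4
    split_ifs <;> simp_all
    ring
  have h6 := congrArg det h5
  have h7 := congrArg det h4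
  rw [det_mul, det_mul, det_blockDiagonal] at h6
  rw [det_mul, det_one] at h7
  calc (hesyT (y + vecMulVec v f) y).det
      = (P ⊗ₖ Uᵀ).det * (hesyT (y + vecMulVec v f) y).det * (U ⊗ₖ Pᵀ).det := by
        rw [mul_right_comm, h7, one_mul]
    _ = _ := by
        rw [h6]
        refine Finset.prod_congr rfl fun j _ => ?_
        rw [det_rank_one]
        congr 1
        simp [vecMul, dotProduct, mul_comm]

/-- the size of the centraliser modulo `p^k` -/
theorem cent_bound {k e : ℕ} (he : d < p ^ (e + 1)) {y : Mat d ℤ} {v : Fin d → ℤ}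
    {t : Fin d → Cp p} {P U : Mat d (Cp p)} (h : GD k e y v t P U) (o : Fin d → Fin d) :
    (Nat.card (cent (y.map (Int.cast : ℤ → ZMod (p ^ k)))) : ℝ) *
      ∏ i, ((p : ℝ) ^ (-((k : ℝ) + e)) * ‖U (o i) i‖ *
        ∏ j ∈ Finset.univ.erase i, ‖t i - t j‖) ≤ 1 := by
  have hp : p.Prime := Fact.out
  have hp0 : (0 : ℝ) < p := by exact_mod_cast hp.pos
  obtain ⟨f, hf⟩ := hesyRow (p := p) he U
  have h1 := ker_le_det (p := p) (hesyT (y + vecMulVec v (fun l => (p : ℤ) ^ k * f l)) y) k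
  have h2 : (hesyT (y + vecMulVec v (fun l => (p : ℤ) ^ k * f l)) y).map
      (Int.cast : ℤ → ZMod (p ^ k)) =
      hesyT (y.map (Int.cast : ℤ → ZMod (p ^ k))) (y.map (Int.cast : ℤ → ZMod (p ^ k))) := by
    have := hesyMap (Int.castRingHom (ZMod (p ^ k)))
      (y + vecMulVec v (fun l => (p : ℤ) ^ k * f l)) y
    simp only [Int.coe_castRingHom] at this
    rw [this]
    congr 1
    ext i j
    have hz : ((p : ZMod (p ^ k))) ^ k = 0 := by
      rw [← Nat.cast_pow, ZMod.natCast_self]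
    simp [vecMulVec_apply, hz]
  have h3 : (((hesyT (y + vecMulVec v (fun l => (p : ℤ) ^ k * f l)) y).det : ℤ) : Cp p) =
      ∏ j, ((∑ l, U l j * ((p : Cp p) ^ k * (f l : Cp p))) *
        ∏ i ∈ Finset.univ.erase j, (t i - t j)) := by
    rw [← hesyDet (fun j => (v j : Cp p)) (fun l => (p : Cp p) ^ k * (f l : Cp p))
      h.inv h.eig h.nrm]
    have h4 := (Int.castRingHom (Cp p)).map_det
      (hesyT (y + vecMulVec v (fun l => (p : ℤ) ^ k * f l)) y)
    rw [RingHom.mapMatrix_apply, hesyMap] at h4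
    simp only [Int.coe_castRingHom] at h4
    rw [h4]
    congr 2
    ext i j
    simp [vecMulVec_apply]
  rw [h2, ← hesyCard, h3, norm_prod] at h1
  refine le_trans (mul_le_mul_of_nonneg_left ?_ (Nat.cast_nonneg _)) h1
  refine Finset.prod_le_prod (fun i _ => mul_nonneg (mul_nonneg (Real.rpow_nonneg hp0.le _)
    (norm_nonneg _)) (Finset.prod_nonneg fun j _ => norm_nonneg _)) fun i _ => ?_
  have hn : ‖(p : Cp p)‖ = (p : ℝ)⁻¹ := by
    have h5 := PadicAlgCl.norm_extends p (p : ℚ_[p])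
    rw [Padic.norm_p] at h5
    simpa using h5
  have h6 : ∑ l, U l i * ((p : Cp p) ^ k * (f l : Cp p)) =
      (p : Cp p) ^ k * ∑ l, U l i * (f l : Cp p) := by
    rw [Finset.mul_sum]
    exact Finset.sum_congr rfl fun l _ => by ring
  rw [norm_mul, h6, norm_mul, norm_pow, hn, norm_prod]
  have h7 : ∏ j ∈ Finset.univ.erase i, ‖t i - t j‖ = ∏ j ∈ Finset.univ.erase i, ‖t j - t i‖ :=
    Finset.prod_congr rfl fun j _ => norm_sub_rev _ _
  rw [h7]
  refine mul_le_mul_of_nonneg_right ?_ (Finset.prod_nonneg fun j _ => norm_nonneg _)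
  have h8 : (p : ℝ) ^ (-((k : ℝ) + e)) = ((p : ℝ)⁻¹) ^ k * (p : ℝ) ^ (-(e : ℝ)) := by
    rw [neg_add, Real.rpow_add hp0, Real.rpow_neg hp0.le (k : ℝ), Real.rpow_natCast, inv_pow]
  rw [h8, mul_assoc]
  exact mul_le_mul_of_nonneg_left (hf i (o i)) (pow_nonneg (inv_nonneg.2 hp0.le) _)

end Pool.Agent.MP_8299d6_al.Up

end
end

section

open Matrix Polynomial

noncomputable section

namespace Pool.Agent.MP_8299d6_al.Up

section
variable {K : Type} [NormedField K]

/-- the largest norm of a coefficient -/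
def hewrN (P : K[X]) : ℝ := P.gaussNorm (NormedField.toAbsoluteValue K) 1

theorem hewr_le {P : K[X]} {c : ℝ} : hewrN P ≤ c ↔ ∀ l, ‖P.coeff l‖ ≤ c := by
  constructor
  · intro h l
    have := P.le_gaussNorm (NormedField.toAbsoluteValue K) zero_le_one l
    rw [one_pow, mul_one] at this
    exact this.trans h
  · intro h
    obtain ⟨i, hi⟩ := P.exists_eq_gaussNorm (NormedField.toAbsoluteValue K) 1
    rw [hewrN, hi, one_pow, mul_one]
    exact h i

theorem hewr_nn (P : K[X]) : 0 ≤ hewrN P :=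
  (norm_nonneg (P.coeff 0)).trans (hewr_le.1 le_rfl 0)

theorem hewr_neg {P : K[X]} {c : ℝ} (h : hewrN P ≤ c) : hewrN (-P) ≤ c :=
  hewr_le.2 fun l => by
    rw [coeff_neg, norm_neg]
    exact hewr_le.1 h l

theorem hewr_zero {c : ℝ} (h : 0 ≤ c) : hewrN (0 : K[X]) ≤ c :=
  hewr_le.2 fun l => by rwa [coeff_zero, norm_zero]

theorem hewr_X (m : ℕ) : hewrN (X ^ m : K[X]) ≤ 1 :=
  hewr_le.2 fun l => by
    rw [coeff_X_pow]
    split_ifs <;> simp

theorem hewr_hasse (d k : ℕ) (f : K[X]) (hf : f.natDegree ≤ d) :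
    hasseDeriv k f =
      ∑ j ∈ Finset.range (d + 1), (j.choose k : K[X]) * X ^ (j - k) * C (f.coeff j) := by
  conv_lhs => rw [f.as_sum_range' (d + 1) (Nat.lt_succ_of_le hf), map_sum]
  refine Finset.sum_congr rfl fun j _ => ?_
  rw [hasseDeriv_monomial, ← C_mul_X_pow_eq_monomial, C_mul, C_eq_natCast]
  ring

variable [IsUltrametricDist K]

theorem hewr_mul (P Q : K[X]) : hewrN (P * Q) = hewrN P * hewrN Q :=
  gaussNorm_mul (fun a b => IsUltrametricDist.norm_add_le_max a b) one_pos P Q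

theorem hewr_add {P Q : K[X]} {c : ℝ} (hP : hewrN P ≤ c) (hQ : hewrN Q ≤ c) :
    hewrN (P + Q) ≤ c :=
  hewr_le.2 fun l => by
    rw [coeff_add]
    exact (IsUltrametricDist.norm_add_le_max _ _).trans
      (max_le (hewr_le.1 hP l) (hewr_le.1 hQ l))

theorem hewr_nat (m : ℕ) : hewrN (m : K[X]) ≤ 1 :=
  hewr_le.2 fun l => by
    rw [← C_eq_natCast, coeff_C]
    split_ifs
    · exact IsUltrametricDist.norm_natCast_le_one K m
    · simp

theorem hewr_ml {P Q : K[X]} {a c : ℝ} (hP : hewrN P ≤ a) (hQ : hewrN Q ≤ c) :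
    hewrN (P * Q) ≤ a * c := by
  rw [hewr_mul]
  exact mul_le_mul hP hQ (hewr_nn Q) ((hewr_nn P).trans hP)

theorem hewr_der {P : K[X]} {c : ℝ} (h : hewrN P ≤ c) : hewrN (derivative P) ≤ c :=
  hewr_le.2 fun l => by
    rw [coeff_derivative, norm_mul, ← Nat.cast_succ]
    exact (mul_le_of_le_one_right (norm_nonneg _)
      (IsUltrametricDist.norm_natCast_le_one K _)).trans (hewr_le.1 h _)

theorem hewr_iter (P : K[X]) (k : ℕ) : hewrN (derivative^[k] P) ≤ hewrN P := by
  induction k with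
  | zero => exact le_rfl
  | succ k ih =>
    rw [Function.iterate_succ_apply']
    exact hewr_der ih

theorem hewr_W {g h : K[X]} {M : ℝ} (hg : g ≠ 0) (hW : hewrN (wronskian g h) ≤ M) (k : ℕ) :
    hewrN (g * derivative^[k] h - h * derivative^[k] g) ≤ M := by
  have h0 : 0 < hewrN g := by
    refine lt_of_lt_of_le ?_ (hewr_le.1 le_rfl g.natDegree)
    exact norm_pos_iff.2 (leadingCoeff_ne_zero.2 hg)
  induction k with
  | zero =>
    rw [Function.iterate_zero_apply, Function.iterate_zero_apply, mul_comm, sub_self]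
    exact hewr_zero ((hewr_nn _).trans hW)
  | succ k ih =>
    refine le_of_mul_le_mul_left ?_ h0
    have e : g * (g * derivative^[k + 1] h - h * derivative^[k + 1] g) =
        g * derivative (g * derivative^[k] h - h * derivative^[k] g) +
          -(derivative g * (g * derivative^[k] h - h * derivative^[k] g)) +
          derivative^[k] g * wronskian g h := by
      rw [Function.iterate_succ_apply', Function.iterate_succ_apply', derivative_sub,
        derivative_mul, derivative_mul, wronskian]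
      ring
    rw [← hewr_mul, e]
    exact hewr_add (hewr_add (hewr_ml le_rfl (hewr_der ih))
      (hewr_neg (hewr_ml (hewr_der le_rfl) ih))) (hewr_ml (hewr_iter g k) hW)

end

/-- the minors of two polynomials are bounded by the coefficients of their Wronskian -/
theorem wr_bound (d : ℕ) : ∃ n : ℕ, n ≠ 0 ∧ ∀ (K : Type) [NormedField K] [IsUltrametricDist K]
    (g h : K[X]) (M : ℝ), g.natDegree ≤ d → h.natDegree ≤ d →
    (∀ l, ‖(wronskian g h).coeff l‖ ≤ M) →
    ∀ i j, ‖(n : K)‖ * ‖g.coeff i * h.coeff j - g.coeff j * h.coeff i‖ ≤ M := by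
  refine ⟨d.factorial, d.factorial_ne_zero, fun K _ _ g h M hg hh hW i j => ?_⟩
  have hM : 0 ≤ M := (norm_nonneg _).trans (hW 0)
  by_cases h0 : g = 0
  · simpa [h0] using hM
  have key : ∀ m k, d < k + m →
      hewrN ((d.factorial : K[X]) * (g * C (h.coeff k) - h * C (g.coeff k))) ≤ M := by
    intro m
    induction m with
    | zero =>
      intro k hk
      rw [add_zero] at hk
      rw [coeff_eq_zero_of_natDegree_lt (hg.trans_lt hk),
        coeff_eq_zero_of_natDegree_lt (hh.trans_lt hk)]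
      simpa using hewr_zero hM
    | succ m ih =>
      intro k hk
      by_cases hd : d < k
      · exact ih k (by omega)
      obtain ⟨c, hc⟩ := Nat.factorial_dvd_factorial (not_lt.1 hd)
      have hs : ∀ f : K[X], derivative^[k] f = (k.factorial : K[X]) * hasseDeriv k f := by
        intro f
        rw [← factorial_smul_hasseDeriv, LinearMap.smul_apply, nsmul_eq_mul]
      have h1 := hewr_ml (hewr_nat c) (hewr_W h0 (hewr_le.2 hW) k)
      have e : (c : K[X]) * (g * derivative^[k] h - h * derivative^[k] g) =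
          ∑ l ∈ Finset.range (d + 1), (l.choose k : K[X]) * X ^ (l - k) *
            ((d.factorial : K[X]) * (g * C (h.coeff l) - h * C (g.coeff l))) := by
        rw [hs, hs, hewr_hasse d k g hg, hewr_hasse d k h hh, hc, Nat.cast_mul]
        simp only [Finset.mul_sum, ← Finset.sum_sub_distrib]
        exact Finset.sum_congr rfl fun l _ => by ring
      rw [e, one_mul, ← Finset.add_sum_erase _ _ (Finset.mem_range.2 (by omega : k < d + 1)),
        Nat.choose_self, Nat.sub_self, pow_zero, Nat.cast_one, one_mul, one_mul] at h1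
      rw [← add_neg_cancel_right ((d.factorial : K[X]) * _) _]
      refine hewr_add h1 (hewr_neg ?_)
      refine Finset.sum_induction _ (fun P => hewrN P ≤ M) (fun _ _ => hewr_add) (hewr_zero hM)
        fun l hl => ?_
      rcases lt_or_gt_of_ne (Finset.mem_erase.1 hl).1 with h2 | h2
      · rw [Nat.choose_eq_zero_of_lt h2, Nat.cast_zero, zero_mul, zero_mul]
        exact hewr_zero hM
      · have := hewr_ml (hewr_ml (hewr_nat (l.choose k)) (hewr_X (l - k))) (ih l (by omega))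
        rwa [one_mul, one_mul] at this
  have := hewr_le.1 (key (d + 1) j (by omega)) i
  rwa [← C_eq_natCast, coeff_C_mul, norm_mul, coeff_sub, coeff_mul_C, coeff_mul_C,
    mul_comm (h.coeff i)] at this

end Pool.Agent.MP_8299d6_al.Up

end
end

section

open Matrix Polynomial

noncomputable section

namespace Pool.Agent.MP_8299d6_al.Up

section
variable {K : Type} [NormedField K] [IsUltrametricDist K]

theorem hepe_one {G : K[X]} {m : ℝ} (h : ∀ l, ‖G.coeff l‖ ≤ m) : ‖G.eval 1‖ ≤ m := by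
  rw [eval_eq_sum_range]
  exact IsUltrametricDist.norm_sum_le_of_forall_le_of_nonneg ((norm_nonneg _).trans (h 0))
    fun i _ => by simpa using h i

theorem hepe_div {G : K[X]} {r : K} {m : ℝ} (hr : ‖r‖ ≤ 1)
    (h : ∀ l, ‖((X - C r) * G).coeff l‖ ≤ m) (l : ℕ) : ‖G.coeff l‖ ≤ m := by
  have key : ∀ k l, G.natDegree < l + k → ‖G.coeff l‖ ≤ m := fun k => by
    induction k with
    | zero =>
      intro l hl
      rw [coeff_eq_zero_of_natDegree_lt (n := l) hl, norm_zero]
      exact (norm_nonneg _).trans (h 0)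
    | succ k ih =>
      intro l hl
      have e : G.coeff l = ((X - C r) * G).coeff (l + 1) + r * G.coeff (l + 1) := by
        rw [coeff_X_sub_C_mul, sub_add_cancel]
      rw [e]
      refine (IsUltrametricDist.norm_add_le_max _ _).trans (max_le (h _) ?_)
      rw [norm_mul]
      exact (mul_le_of_le_one_left (norm_nonneg _) hr).trans (ih _ (by omega))
  exact key (G.natDegree + 1) l (by omega)

theorem hepe_mul (c : K) (s : Multiset K) (hs : ∀ r ∈ s, 1 ≤ ‖1 - r‖) (l : ℕ) :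
    ‖(C c * (s.map fun r => X - C r).prod).coeff l‖ ≤
      ‖(C c * (s.map fun r => X - C r).prod).eval 1‖ := by
  induction s using Multiset.induction_on generalizing l with
  | empty =>
    simp only [Multiset.map_zero, Multiset.prod_zero, mul_one, coeff_C, eval_C]
    split_ifs <;> simp
  | cons r s ih =>
    have h1 := hs r (Multiset.mem_cons_self _ _)
    have h2 : ‖r‖ ≤ ‖1 - r‖ := by
      have := IsUltrametricDist.norm_add_le_max (1 : K) (-(1 - r))
      rwa [norm_neg, norm_one, max_eq_right h1, ← sub_eq_add_neg, sub_sub_cancel] at this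
    replace ih := ih fun r hr => hs r (Multiset.mem_cons_of_mem hr)
    rw [Multiset.map_cons, Multiset.prod_cons, mul_left_comm, eval_mul, norm_mul, eval_sub, eval_X,
      eval_C]
    generalize C c * (s.map fun r => X - C r).prod = G at ih
    have h3 : ∀ l, ‖r * G.coeff l‖ ≤ ‖1 - r‖ * ‖G.eval 1‖ := fun l => by
      rw [norm_mul]
      exact mul_le_mul h2 (ih l) (norm_nonneg _) (norm_nonneg _)
    rcases l with _ | l
    · simpa using h3 0
    · rw [coeff_X_sub_C_mul, sub_eq_add_neg]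
      refine (IsUltrametricDist.norm_add_le_max _ _).trans (max_le ?_ (by rw [norm_neg]; exact h3 _))
      exact (ih l).trans (le_mul_of_one_le_left (norm_nonneg _) h1)

theorem hepe_core [IsAlgClosed K] {γ : ℝ} {F Ψ : K[X]} {n T : K} (h0 : n ≠ 0) (hn : ‖n‖ ≤ 1)
    (hγ : 0 < γ) (hw : ∀ M, (∀ l, ‖(wronskian F Ψ).coeff l‖ ≤ M) →
      ∀ i j, ‖n‖ * ‖F.coeff i * Ψ.coeff j - F.coeff j * Ψ.coeff i‖ ≤ M)
    (hr : ∀ r, (wronskian F Ψ).IsRoot r → 1 ≤ ‖1 - r‖)
    (hc : ∀ i, γ * ‖Ψ.coeff i‖ ≤ ‖F.coeff i‖) (h1 : F.IsRoot 1) (hT : F.IsRoot T) (hT1 : T ≠ 1) :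
    γ * ‖n‖ ^ 2 * ‖Ψ.eval 1‖ ≤ ‖(derivative F).eval 1‖ * ‖1 - T‖ := by
  rcases (norm_nonneg (Ψ.eval 1)).eq_or_lt with hΨ | hΨ
  · rw [← hΨ, mul_zero]
    positivity
  have hθ := norm_pos_iff.2 h0
  have a1 : ∀ l, ‖(wronskian F Ψ).coeff l‖ ≤ ‖(derivative F).eval 1‖ * ‖Ψ.eval 1‖ := fun l => by
    have := hepe_mul (wronskian F Ψ).leadingCoeff (wronskian F Ψ).roots
      (fun r h => hr r (isRoot_of_mem_roots h)) l
    rw [← (IsAlgClosed.splits _).eq_prod_roots] at this
    refine this.trans_eq ?_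
    rw [wronskian, eval_sub, eval_mul, eval_mul, h1.eq_zero, zero_mul, zero_sub, norm_neg, norm_mul]
  have a2 : ∀ i, ‖F.coeff i‖ ≤ ‖(derivative F).eval 1‖ / ‖n‖ := fun i => by
    have := hepe_one (G := C (n * F.coeff i) * Ψ - C (n * Ψ.coeff i) * F) fun j =>
      le_of_eq_of_le (by
        rw [coeff_sub, coeff_C_mul, coeff_C_mul, ← norm_mul]
        congr 1
        ring) (hw _ a1 i j)
    rw [eval_sub, eval_C_mul, eval_C_mul, h1.eq_zero, mul_zero, sub_zero, norm_mul, norm_mul] at this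
    rw [le_div_iff₀' hθ]
    exact le_of_mul_le_mul_right this hΨ
  have a3 : γ * ‖n‖ * ‖Ψ.eval 1‖ ≤ ‖(derivative F).eval 1‖ := by
    rw [← le_div_iff₀' (mul_pos hγ hθ)]
    refine hepe_one fun i => ?_
    rw [mul_comm γ, ← div_div, le_div_iff₀' hγ]
    exact (hc i).trans (a2 i)
  have a4 : ‖n‖ ≤ ‖1 - T‖ := by
    refine (le_total 1 ‖1 - T‖).elim hn.trans fun h => ?_
    have h2 : ‖T‖ ≤ 1 := by
      have := IsUltrametricDist.norm_add_le_max (1 : K) (-(1 - T))
      rwa [norm_neg, norm_one, max_eq_left h, ← sub_eq_add_neg, sub_sub_cancel] at this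
    have a5 := (mul_pos (mul_pos hγ hθ) hΨ).trans_le a3
    obtain ⟨G, rfl⟩ := dvd_iff_isRoot.2 h1
    obtain ⟨G, rfl⟩ := (dvd_iff_isRoot (p := G) (a := T)).2 (by
      simpa [sub_eq_zero, hT1] using hT)
    have a6 := hepe_one (hepe_div h2 (hepe_div norm_one.le a2))
    have e : (derivative ((X - C 1) * ((X - C T) * G))).eval 1 = (1 - T) * G.eval 1 := by
      simp [derivative_mul]
    rw [e, norm_mul] at a5 a6
    rw [le_div_iff₀' hθ] at a6
    exact le_of_mul_le_mul_right a6 (pos_of_mul_pos_right a5 (norm_nonneg _))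
  rw [sq, ← mul_assoc, mul_right_comm]
  exact mul_le_mul a3 a4 hθ.le (norm_nonneg _)

end

theorem hepe_wr {K : Type} [Field K] [CharZero K] {χ ψ : K[X]} (h1 : χ.Monic)
    (h2 : 2 ≤ χ.natDegree) (h3 : ψ.natDegree < χ.natDegree) (h0 : ψ ≠ 0) :
    0 < (wronskian χ ψ).natDegree := by
  have a1 : ∀ (g : K[X]) n, (X * derivative g).coeff n = g.coeff n * n := fun g n => by
    rcases n with _ | n
    · simp
    · rw [coeff_X_mul, coeff_derivative, Nat.cast_succ]
  have a2 : ∀ g : K[X], (X * derivative g).natDegree ≤ g.natDegree := fun g =>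
    natDegree_le_iff_coeff_eq_zero.2 fun n h => by
      rw [a1, coeff_eq_zero_of_natDegree_lt h, zero_mul]
  obtain ⟨k, hk⟩ : ∃ k, χ.natDegree + ψ.natDegree = k + 1 + 1 :=
    ⟨χ.natDegree + ψ.natDegree - 2, by omega⟩
  refine k.succ_pos.trans_le (le_natDegree_of_ne_zero ?_)
  rw [← coeff_X_mul, ← hk, show X * wronskian χ ψ = χ * (X * derivative ψ) -
    (X * derivative χ) * ψ by rw [wronskian]; ring, coeff_sub,
    coeff_mul_add_eq_of_natDegree_le le_rfl (a2 ψ), coeff_mul_add_eq_of_natDegree_le (a2 χ) le_rfl,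
    a1, a1, h1.coeff_natDegree, one_mul, one_mul, mul_comm, ← sub_mul]
  exact mul_ne_zero (sub_ne_zero.2 (Nat.cast_injective.ne h3.ne)) (leadingCoeff_ne_zero.2 h0)

/-- generic members of a pencil of polynomials -/
theorem pencil (d : ℕ) (hd : 2 ≤ d) : ∃ n : ℕ, n ≠ 0 ∧ ∀ (p : ℕ) [Fact p.Prime]
    (χ ψ : (Cp p)[X]), χ.Monic → χ.natDegree = d → ψ.natDegree < d →
    ∃ Z : Finset (Cp p), Z.card ≤ 2 * d ^ 2 ∧ ∀ (a : Cp p) (γ : ℝ), 0 < γ →
      (∀ z ∈ Z, γ ≤ ‖a - z‖) → ∀ τ τ' : Cp p, τ ≠ τ' → (χ - C a * ψ).IsRoot τ →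
      (χ - C a * ψ).IsRoot τ' →
      γ * ‖(n : Cp p)‖ ^ 2 * ‖ψ.eval τ‖ ≤ ‖(derivative (χ - C a * ψ)).eval τ‖ * ‖τ - τ'‖ := by
  classical
  obtain ⟨n, n0, hn⟩ := wr_bound d
  refine ⟨n, n0, fun p _ χ ψ h1 h2 h3 => ?_⟩
  rcases eq_or_ne ψ 0 with rfl | h0
  · refine ⟨∅, Nat.zero_le _, fun a γ _ _ τ τ' _ _ _ => ?_⟩
    rw [eval_zero, norm_zero, mul_zero]
    positivity
  have w1 := hepe_wr h1 (h2 ▸ hd) (h2 ▸ h3) h0
  have w0 : wronskian χ ψ ≠ 0 := ne_zero_of_natDegree_gt w1
  refine ⟨((wronskian χ ψ).roots.toFinset ×ˢ Finset.range d).image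
    fun z => (taylor z.1 χ).coeff z.2 / (taylor z.1 ψ).coeff z.2, Finset.card_image_le.trans ?_,
    fun a γ hγ hZ τ τ' hτ r1 r2 => ?_⟩
  · have := natDegree_wronskian_lt_add w0
    rw [Finset.card_product, Finset.card_range, sq, ← mul_assoc]
    exact Nat.mul_le_mul_right _ (((Multiset.toFinset_card_le _).trans (card_roots' _)).trans
      (by omega))
  obtain ⟨w₀, hw₀⟩ := IsAlgClosed.exists_root _ (natDegree_pos_iff_degree_pos.1 w1).ne'
  obtain ⟨w, m1, m2⟩ := (wronskian χ ψ).roots.toFinset.exists_min_image (fun w => ‖τ - w‖)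
    ⟨w₀, Multiset.mem_toFinset.2 ((mem_roots w0).2 hw₀)⟩
  have c1 : ∀ i, γ * ‖(taylor w ψ).coeff i‖ ≤ ‖(taylor w (χ - C a * ψ)).coeff i‖ := fun i => by
    rcases eq_or_ne ((taylor w ψ).coeff i) 0 with e | e
    · rw [e, norm_zero, mul_zero]
      exact norm_nonneg _
    have := hZ _ (Finset.mem_image_of_mem _ (Finset.mem_product.2 (⟨m1, Finset.mem_range.2
      ((le_natDegree_of_ne_zero e).trans_lt (by rwa [natDegree_taylor]))⟩ : (w, i).1 ∈ _ ∧ _)))
    rw [map_sub, taylor_mul, taylor_C, coeff_sub, coeff_C_mul, ← div_mul_cancel₀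
      ((taylor w χ).coeff i) e, ← sub_mul, norm_mul, norm_sub_rev]
    exact mul_le_mul_of_nonneg_right this (norm_nonneg _)
  have w2 : wronskian (χ - C a * ψ) ψ = wronskian χ ψ := by
    simp only [wronskian, derivative_sub, derivative_C_mul]
    ring
  have d1 : (χ - C a * ψ).natDegree ≤ d := (natDegree_sub_le _ _).trans
    (max_le h2.le ((natDegree_C_mul_le _ _).trans h3.le))
  rw [← w2] at w0 m2
  generalize χ - C a * ψ = f at *
  rcases eq_or_ne (τ - w) 0 with e | e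
  · have := c1 0
    rw [taylor_coeff_zero, taylor_coeff_zero, ← sub_eq_zero.1 e, r1.eq_zero, norm_zero] at this
    rw [mul_right_comm]
    exact (mul_nonpos_of_nonpos_of_nonneg this (by positivity)).trans (by positivity)
  obtain ⟨l, hl⟩ : ∃ l, l = τ - w := ⟨_, rfl⟩
  rw [← hl] at e
  have l0 := norm_pos_iff.2 e
  have s1 : ∀ g : (Cp p)[X], g.comp (C l * X + C w) = (taylor w g).comp (C l * X) := fun g => by
    simp [taylor_apply, comp_assoc]
  have s2 : ∀ g : (Cp p)[X], derivative (g.comp (C l * X + C w)) =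
      C l * (derivative g).comp (C l * X + C w) := fun g => by simp [derivative_comp]
  have s3 : ∀ (g : (Cp p)[X]) t, (g.comp (C l * X + C w)).eval t = g.eval (l * t + w) :=
    fun g t => by simp [eval_comp]
  have s4 : ∀ g : (Cp p)[X], g.natDegree ≤ d → (g.comp (C l * X + C w)).natDegree ≤ d :=
    fun g h => natDegree_comp_le.trans (by rwa [natDegree_linear e, mul_one])
  have t1 : l * 1 + w = τ := by rw [hl]; ring
  have t2 : l * ((τ' - w) / l) + w = τ' := by rw [mul_div_cancel₀ _ e, sub_add_cancel]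
  have := hepe_core (F := f.comp (C l * X + C w)) (Ψ := ψ.comp (C l * X + C w))
    (T := (τ' - w) / l) (Nat.cast_ne_zero.2 n0) (IsUltrametricDist.norm_natCast_le_one _ n) hγ
    (fun M => hn _ _ _ M (s4 _ d1) (s4 _ h3.le)) (fun r hr => ?_) (fun i => ?_)
    (by rw [IsRoot, s3, t1, r1.eq_zero]) (by rw [IsRoot, s3, t2, r2.eq_zero])
    fun h => hτ (by rw [← t2, h, t1])
  · rw [s2, eval_C_mul, s3, s3, t1, norm_mul, mul_comm ‖l‖, mul_assoc ‖_‖, ← norm_mul, mul_sub,
      mul_div_cancel₀ _ e, mul_one, hl, sub_sub_sub_cancel_right] at this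
    exact this
  · have r3 : (wronskian f ψ).IsRoot (l * r + w) := by
      simp only [IsRoot, wronskian, s2, eval_sub, eval_mul, eval_C, s3] at hr ⊢
      exact mul_left_cancel₀ e (by linear_combination hr)
    have := m2 _ (Multiset.mem_toFinset.2 ((mem_roots w0).2 r3))
    rw [← hl, show τ - (l * r + w) = l * (1 - r) by rw [hl]; ring, norm_mul] at this
    exact (le_mul_iff_one_le_right l0).1 this
  · rw [s1, s1, comp_C_mul_X_coeff, comp_C_mul_X_coeff, norm_mul, norm_mul, ← mul_assoc]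
    exact mul_le_mul_of_nonneg_right (c1 i) (norm_nonneg _)

end Pool.Agent.MP_8299d6_al.Up

end
end

section

open Matrix Polynomial

noncomputable section

namespace Pool.Agent.MP_8299d6_al.Up

lemma hESep_res (f : ℚ[X]) (d : ℕ) (hm : f.Monic) (hd : f.natDegree = d) :
    f.Separable ↔ resultant f (derivative f) d (d - 1) ≠ 0 := by
  have h1 : (derivative f).natDegree = d - 1 := by
    rw [← hd]; exact natDegree_derivative f
  have h2 := isUnit_resultant_iff_isCoprime (f := f) (g := derivative f) hm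
  rw [hd, h1] at h2
  rw [separable_def, ← h2, isUnit_iff_ne_zero]

lemma hESep_poly (d : ℕ) (B : Mat d ℚ) (c : ℚ) (hc : c ≠ 0) :
    ∃ D : MvPolynomial (Fin d × Fin d) ℚ, D ≠ 0 ∧ ∀ z : Fin d × Fin d → ℚ,
      MvPolynomial.eval z D ≠ 0 →
        (B + c • Matrix.of (fun i j => z (i, j))).charpoly.Separable := by
  classical
  let M : Mat d (MvPolynomial (Fin d × Fin d) ℚ) :=
    Matrix.of (fun i j => MvPolynomial.C (B i j) + MvPolynomial.C c * MvPolynomial.X (i, j))
  have key : ∀ z : Fin d × Fin d → ℚ,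
      (B + c • Matrix.of (fun i j => z (i, j))).charpoly.Separable ↔
      MvPolynomial.eval z (resultant M.charpoly (derivative M.charpoly) d (d - 1)) ≠ 0 := by
    intro z
    have hM : M.map (MvPolynomial.eval z) = B + c • Matrix.of (fun i j => z (i, j)) := by
      ext i j
      simp [M]
    rw [← resultant_map_map, ← derivative_map, ← Matrix.charpoly_map, hM]
    exact hESep_res _ d (Matrix.charpoly_monic _) (by simp)
  refine ⟨resultant M.charpoly (derivative M.charpoly) d (d - 1), ?_, fun z hz => (key z).2 hz⟩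
  intro h0
  let t : Fin d → ℚ := fun i => ((i : ℕ) : ℚ)
  have h := key (fun w => c⁻¹ * (diagonal t w.1 w.2 - B w.1 w.2))
  have hE : B + c • Matrix.of (fun i j => c⁻¹ * (diagonal t i j - B i j)) = diagonal t := by
    ext i j
    simp only [Matrix.add_apply, Matrix.smul_apply, Matrix.of_apply, smul_eq_mul]
    field_simp
    ring
  simp only [hE, h0, map_zero, ne_eq, not_true_eq_false, iff_false] at h
  apply h
  rw [Matrix.charpoly_diagonal]
  refine separable_prod_X_sub_C_iff.2 ?_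
  intro i j hij
  exact Fin.ext (by simpa [t] using hij)

lemma hESep_sz (n N : ℕ) [NeZero N] (D : MvPolynomial (Fin n) ℚ) (hD : D ≠ 0) :
    Nat.card {z : Fin n → ZMod N // MvPolynomial.eval (fun i => ((z i).val : ℚ)) D = 0} * N ≤
      D.totalDegree * N ^ n := by
  classical
  let S : Finset ℚ := (Finset.range N).image (fun a : ℕ => (a : ℚ))
  have hS : S.card = N := by
    rw [Finset.card_image_of_injective _ Nat.cast_injective, Finset.card_range]
  have h := MvPolynomial.schwartz_zippel_totalDegree hD S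
  rw [hS] at h
  have hN : (0 : ℚ≥0) < N := by exact_mod_cast Nat.pos_of_ne_zero (NeZero.ne N)
  rw [div_le_div_iff₀ (by positivity) hN] at h
  have h' : ((Fintype.piFinset fun _ : Fin n => S).filter
      (fun f => MvPolynomial.eval f D = 0)).card * N ≤ D.totalDegree * N ^ n := by
    exact_mod_cast h
  refine le_trans (Nat.mul_le_mul_right _ ?_) h'
  rw [← Nat.card_eq_finsetCard]
  refine Nat.card_le_card_of_injective
    (fun z => (⟨fun i => ((z.1 i).val : ℚ), ?_⟩ : {f // f ∈ (Fintype.piFinset fun _ : Fin n => S).filter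
      (fun f => MvPolynomial.eval f D = 0)})) ?_
  · rw [Finset.mem_filter]
    refine ⟨Fintype.mem_piFinset.2 fun i => ?_, z.2⟩
    exact Finset.mem_image.2 ⟨_, Finset.mem_range.2 (ZMod.val_lt _), rfl⟩
  · intro z w hzw
    apply Subtype.ext
    funext i
    have : ((z.1 i).val : ℚ) = ((w.1 i).val : ℚ) := congrFun (congrArg Subtype.val hzw) i
    exact ZMod.val_injective N (by exact_mod_cast this)

lemma hESep_sz2 (d N : ℕ) [NeZero N] (D : MvPolynomial (Fin d × Fin d) ℚ) (hD : D ≠ 0) :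
    Nat.card {z : Fin d × Fin d → ZMod N //
      MvPolynomial.eval (fun i => ((z i).val : ℚ)) D = 0} * N ≤
      D.totalDegree * N ^ (d ^ 2) := by
  classical
  let e : Fin d × Fin d ≃ Fin (d * d) := finProdFinEquiv
  have hD' : MvPolynomial.rename e D ≠ 0 := fun h =>
    hD (MvPolynomial.rename_injective e e.injective (by rw [h, map_zero]))
  have h := hESep_sz (d * d) N _ hD'
  rw [pow_two d]
  refine le_trans (Nat.mul_le_mul_right _ ?_)
    (h.trans (Nat.mul_le_mul_right _ (MvPolynomial.totalDegree_rename_le _ _)))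
  refine Nat.card_le_card_of_injective (fun z => ⟨fun i => z.1 (e.symm i), ?_⟩) ?_
  · rw [MvPolynomial.eval_rename]
    have : ((fun i => ((z.1 (e.symm i)).val : ℚ)) ∘ e) = fun i => ((z.1 i).val : ℚ) := by
      funext i; simp
    rw [this]; exact z.2
  · intro z w hzw
    apply Subtype.ext
    funext i
    have := congrFun (congrArg Subtype.val hzw) (e i)
    simpa using this

/-- most lifts have a separable characteristic polynomial -/
theorem sep_count (p : ℕ) [Fact p.Prime] (d k : ℕ) : ∃ m₀ : ℕ, ∀ m, m₀ ≤ m →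
    ∀ A : Mat d (ZMod (p ^ k)),
    8 * Nat.card {z : Fin d × Fin d → ZMod (p ^ m) //
      ¬ ((lftM A + (p : ℤ) ^ k • Matrix.of (fun i j => ((z (i, j)).val : ℤ))).map
        (Int.cast : ℤ → ℚ)).charpoly.Separable} ≤ p ^ (m * d ^ 2) := by
  classical
  have hp : p.Prime := Fact.out
  have : NeZero (p ^ k) := ⟨pow_ne_zero _ hp.ne_zero⟩
  have hc : ((p : ℚ) ^ k) ≠ 0 := pow_ne_zero _ (by exact_mod_cast hp.ne_zero)
  choose D hD0 hD using fun A : Mat d (ZMod (p ^ k)) =>
    hESep_poly d ((lftM A).map (Int.cast : ℤ → ℚ)) ((p : ℚ) ^ k) hc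
  obtain ⟨T, hT⟩ : ∃ T : ℕ, ∀ A, (D A).totalDegree ≤ T :=
    ⟨Finset.univ.sup (fun A => (D A).totalDegree), fun A =>
      Finset.le_sup (f := fun A => (D A).totalDegree) (Finset.mem_univ A)⟩
  refine ⟨8 * T, fun m hm A => ?_⟩
  have : NeZero (p ^ m) := ⟨pow_ne_zero _ hp.ne_zero⟩
  have h1 := hESep_sz2 d (p ^ m) (D A) (hD0 A)
  have h2 : Nat.card {z : Fin d × Fin d → ZMod (p ^ m) //
      ¬ ((lftM A + (p : ℤ) ^ k • Matrix.of (fun i j => ((z (i, j)).val : ℤ))).map
        (Int.cast : ℤ → ℚ)).charpoly.Separable} ≤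
      Nat.card {z : Fin d × Fin d → ZMod (p ^ m) //
        MvPolynomial.eval (fun i => ((z i).val : ℚ)) (D A) = 0} := by
    refine Nat.card_le_card_of_injective (fun z => ⟨z.1, ?_⟩) ?_
    · by_contra hz
      apply z.2
      have := hD A _ hz
      have hE : (lftM A + (p : ℤ) ^ k • Matrix.of (fun i j => ((z.1 (i, j)).val : ℤ))).map
          (Int.cast : ℤ → ℚ) = (lftM A).map (Int.cast : ℤ → ℚ) + (p : ℚ) ^ k •
            Matrix.of (fun i j => ((z.1 (i, j)).val : ℚ)) := by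
        ext i j
        simp
      rw [hE]
      exact this
    · intro z w hzw
      have := congrArg Subtype.val hzw
      exact Subtype.ext this
  have h3 : 8 * T ≤ p ^ m := hm.trans (Nat.lt_pow_self hp.one_lt).le
  have h4 : 0 < p ^ m := pow_pos hp.pos _
  rw [pow_mul]
  refine le_trans (Nat.mul_le_mul_left _ h2) (Nat.le_of_mul_le_mul_right ?_ h4)
  calc _ = 8 * (_ * p ^ m) := by rw [mul_assoc]
    _ ≤ 8 * (T * (p ^ m) ^ d ^ 2) :=
        Nat.mul_le_mul_left _ (h1.trans (Nat.mul_le_mul_right _ (hT A)))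
    _ = (p ^ m) ^ d ^ 2 * (8 * T) := by ring
    _ ≤ _ := Nat.mul_le_mul_left _ h3

end Pool.Agent.MP_8299d6_al.Up

end
end

section

open Matrix Polynomial

noncomputable section

namespace Pool.Agent.MP_8299d6_al.Up

theorem hegen_split {V : Type} [Fintype V] (R : V → Prop) :
    Nat.card {v // R v} + Nat.card {v // ¬ R v} = Fintype.card V := by
  classical
  rw [Nat.card_eq_fintype_card, Nat.card_eq_fintype_card, Fintype.card_subtype_compl]
  have := Fintype.card_subtype_le R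
  omega

theorem hegen_count {Z V T : Type} [Fintype Z] [Fintype V] [Finite T] (f : Z → T)
    (hf : Function.Injective f) (good : Z → Prop) (R : T × V → Prop)
    (h1 : 4 * Nat.card {z // ¬ good z} ≤ Fintype.card Z)
    (h2 : ∀ z, good z → 4 * Nat.card {v // ¬ R (f z, v)} ≤ Fintype.card V) :
    Fintype.card Z * Fintype.card V ≤ 2 * Nat.card {x // R x} := by
  classical
  have e1 : Nat.card (Σ z : {z // good z}, {v // R (f z, v)}) ≤ Nat.card {x // R x} := by
    refine Nat.card_le_card_of_injective (fun a => ⟨(f a.1, a.2), a.2.2⟩) ?_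
    rintro ⟨⟨z, hz⟩, v, hv⟩ ⟨⟨z', hz'⟩, v', hv'⟩ e
    simp only [Subtype.mk.injEq, Prod.mk.injEq] at e
    obtain rfl := hf e.1
    obtain rfl := e.2
    rfl
  rw [Nat.card_sigma] at e1
  have e2 : ∑ _z : {z // good z}, 3 * Fintype.card V ≤
      ∑ z : {z // good z}, 4 * Nat.card {v // R (f z, v)} := Finset.sum_le_sum fun z _ => by
    have := h2 z z.2
    have := hegen_split fun v => R (f z, v)
    omega
  rw [← Finset.mul_sum, ← Finset.mul_sum, Finset.sum_const, Finset.card_univ, smul_eq_mul,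
    ← Nat.card_eq_fintype_card] at e2
  have e3 := hegen_split good
  have e4 : 3 * Fintype.card Z ≤ 4 * Nat.card {z // good z} := by omega
  have e5 := Nat.mul_le_mul_right (Fintype.card V) e4
  rw [mul_assoc, mul_assoc] at e5
  omega

theorem hegen_or {Z : Type} [Finite Z] (a b c : Z → Prop) (h : ∀ z, c z → a z ∨ b z) :
    Nat.card {z // c z} ≤ Nat.card {z // a z} + Nat.card {z // b z} := by
  have := Set.ncard_union_le {z | a z} {z | b z}
  have h2 := Set.ncard_le_ncard (s := {z | c z}) (t := {z | a z} ∪ {z | b z}) h (Set.toFinite _)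
  exact h2.trans this

theorem hegen_union {Z Y : Type} [Finite Z] (r : Y → Z → Prop) (B : ℕ)
    (h : ∀ y, Nat.card {z // r y z} ≤ B) (s : Finset Y) :
    Nat.card {z // ∃ y ∈ s, r y z} ≤ s.card * B := by
  classical
  induction s using Finset.induction_on with
  | empty => simp
  | insert y s hy ih =>
    rw [Finset.card_insert_of_notMem hy, add_mul, one_mul, add_comm]
    refine (hegen_or (r y) (fun z => ∃ y ∈ s, r y z) _ fun z hz => ?_).trans
      (add_le_add (h y) ih)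
    simpa using hz

variable {p : ℕ} [Fact p.Prime] {d : ℕ}

theorem hegen_nat (u : ℕ) : ‖(u : Cp p)‖ = ‖(u : ℚ_[p])‖ := by
  rw [← map_natCast (algebraMap ℚ_[p] (Cp p)), norm_algebraMap']

theorem hegen_gd {k e : ℕ} {y : Mat d ℤ} {v : Fin d → ℤ} {t : Fin d → Cp p} {P U : Mat d (Cp p)}
    (ht : Function.Injective t) (hPU : P * U = 1)
    (hy : P * y.map (Int.cast : ℤ → Cp p) = diagonal t * P)
    (hb : ∀ i i' j l, i ≠ i' → ‖U l i * P i j‖ ≤ (p : ℝ) ^ (k + e) * ‖t i - t i'‖)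
    (hv : ∀ i j, (p : ℝ) ^ (-(e : ℝ)) * ‖P i j‖ ≤ ‖∑ l, P i l * (v l : Cp p)‖) :
    ∃ (t : Fin d → Cp p) (P U : Mat d (Cp p)), GD k e y v t P U := by
  have hp : (0 : ℝ) < p := by exact_mod_cast (Fact.out : p.Prime).pos
  set α : Fin d → Cp p := fun i => ∑ l, P i l * (v l : Cp p) with hα
  have hv' : ∀ i j, ‖P i j‖ ≤ (p : ℝ) ^ e * ‖α i‖ := fun i j => by
    have := hv i j
    rwa [Real.rpow_neg hp.le, Real.rpow_natCast, inv_mul_le_iff₀ (by positivity)] at this
  have h0 : ∀ i, α i ≠ 0 := fun i h => by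
    have e1 : ∀ j, P i j = 0 := fun j => by
      have := hv' i j
      rwa [h, norm_zero, mul_zero, norm_le_zero_iff] at this
    have e2 := congrFun (congrFun hPU i) i
    simp [Matrix.mul_apply, e1] at e2
  refine ⟨t, diagonal (fun i => (α i)⁻¹) * P, U * diagonal α, ht, ?_, ?_, ?_, fun i j => ?_,
    fun j i i' hi => ?_⟩
  · rw [Matrix.mul_assoc, ← Matrix.mul_assoc P, hPU, Matrix.one_mul, diagonal_mul_diagonal,
      ← diagonal_one]
    congr 1
    funext i
    exact inv_mul_cancel₀ (h0 i)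
  · rw [Matrix.mul_assoc, hy, ← Matrix.mul_assoc, ← Matrix.mul_assoc, diagonal_mul_diagonal,
      diagonal_mul_diagonal]
    congr 2
    funext i
    exact mul_comm _ _
  · funext i
    rw [← mulVec_mulVec, mulVec_diagonal]
    exact inv_mul_cancel₀ (h0 i)
  · rw [diagonal_mul, norm_mul, norm_inv, inv_mul_le_iff₀ (norm_pos_iff.2 (h0 i)), mul_comm]
    exact hv' i j
  · obtain ⟨l, -, hl⟩ := IsUltrametricDist.exists_norm_finsetSum_le_of_nonempty
      (t := Finset.univ) ⟨i, Finset.mem_univ i⟩ fun l => P i l * (v l : Cp p)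
    refine le_trans ?_ (hb i i' l j hi)
    rw [mul_diagonal, norm_mul, norm_mul]
    refine mul_le_mul_of_nonneg_left (hl.trans ?_) (norm_nonneg _)
    rw [norm_mul]
    exact mul_le_of_le_one_right (norm_nonneg _) (IsUltrametricDist.norm_intCast_le_one _ _)

theorem hegen_pen (d : ℕ) (hd : 2 ≤ d) : ∃ n : ℕ, n ≠ 0 ∧ ∀ (p : ℕ) [Fact p.Prime] (s : Cp p)
    (y : Mat d (Cp p)) (j l : Fin d), ∃ Z : Finset (Cp p), Z.card ≤ 2 * d ^ 2 ∧
      ∀ (a : Cp p) (γ : ℝ) (t : Fin d → Cp p) (P U : Mat d (Cp p)), 0 < γ →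
      (∀ z ∈ Z, γ ≤ ‖a - z‖) → Function.Injective t → P * U = 1 →
      P * (y + single j l (s * a)) = diagonal t * P → ∀ i i', i ≠ i' →
      γ * ‖(n : Cp p)‖ ^ 2 * (‖s‖ * ‖U l i * P i j‖) ≤ ‖t i - t i'‖ := by
  obtain ⟨n, hn, h⟩ := pencil d hd
  refine ⟨n, hn, fun p _ s y j l => ?_⟩
  obtain ⟨Z, hZ, h⟩ := h p y.charpoly (C s * adjugate (charmatrix y) l j) y.charpoly_monic
    (by rw [charpoly_natDegree_eq_dim, Fintype.card_fin])
    ((natDegree_C_mul_le _ _).trans_lt (adj_deg y j l))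
  refine ⟨Z, hZ, fun a γ t P U hγ ha ht hPU hy i i' hi => ?_⟩
  have e1 : y.charpoly - C a * (C s * adjugate (charmatrix y) l j) =
      Lagrange.nodal Finset.univ t := by
    rw [← mul_assoc, ← C_mul, mul_comm a s, ← (pencil_charpoly y j l (s * a)).1,
      charpoly_diag hPU hy, Lagrange.nodal]
  have e2 := h a γ hγ ha (t i) (t i') (ht.ne hi)
    (by rw [e1]; exact Lagrange.eval_nodal_at_node (Finset.mem_univ _))
    (by rw [e1]; exact Lagrange.eval_nodal_at_node (Finset.mem_univ _))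
  rw [e1, Lagrange.eval_nodal_derivative_eval_node_eq (Finset.mem_univ i), Lagrange.eval_nodal,
    eval_mul, eval_C, ← (pencil_charpoly y j l (s * a)).2, adj_eval hPU hy, norm_mul,
    norm_mul] at e2
  have e3 : 0 < ‖∏ i' ∈ Finset.univ.erase i, (t i - t i')‖ :=
    norm_pos_iff.2 (Finset.prod_ne_zero_iff.2 fun i' hi' =>
      sub_ne_zero.2 (ht.ne (Finset.ne_of_mem_erase hi').symm))
  refine le_of_mul_le_mul_left ?_ e3
  refine le_trans (le_of_eq ?_) e2
  ring

/-- the lifts of a matrix -/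
def hegen_Y {k m : ℕ} (A : Mat d (ZMod (p ^ k))) (z : Fin d × Fin d → ZMod (p ^ m)) : Mat d ℤ :=
  lftM A + (p : ℤ) ^ k • Matrix.of (fun i j => ((z (i, j)).val : ℤ))

theorem hegen_Y_apply {k m : ℕ} (A : Mat d (ZMod (p ^ k))) (z : Fin d × Fin d → ZMod (p ^ m))
    (i j : Fin d) : hegen_Y A z i j = (((A i j).val + p ^ k * (z (i, j)).val : ℕ) : ℤ) := by
  simp [hegen_Y, lftM]

theorem hegen_lft {k m : ℕ} (A : Mat d (ZMod (p ^ k))) (z : Fin d × Fin d → ZMod (p ^ m)) :
    lftM ((hegen_Y A z).map (Int.cast : ℤ → ZMod (p ^ (k + m)))) = hegen_Y A z := by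
  have hp := (Fact.out : p.Prime).pos
  have : NeZero (p ^ k) := ⟨by positivity⟩
  have : NeZero (p ^ m) := ⟨by positivity⟩
  ext i j
  rw [lftM, map_apply, map_apply, hegen_Y_apply, Int.cast_natCast, ZMod.val_cast_of_lt]
  have h1 := ZMod.val_lt (A i j)
  have h2 := Nat.mul_le_mul_left (p ^ k) (Nat.succ_le_of_lt (ZMod.val_lt (z (i, j))))
  rw [pow_add]
  rw [Nat.mul_succ] at h2
  omega

theorem hegen_upd {k m : ℕ} (A : Mat d (ZMod (p ^ k))) (z : Fin d × Fin d → ZMod (p ^ m))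
    (c : Fin d × Fin d) : (hegen_Y A z).map (Int.cast : ℤ → Cp p) =
      (hegen_Y A (Function.update z c 0)).map (Int.cast : ℤ → Cp p) +
        single c.1 c.2 ((p : Cp p) ^ k * ((z c).val : ℕ)) := by
  ext i j
  rw [Matrix.add_apply, map_apply, map_apply, hegen_Y_apply, hegen_Y_apply]
  by_cases h : (i, j) = c
  · subst h
    simp
  · rw [Function.update_of_ne h, single_apply_of_ne, add_zero]
    rintro ⟨h1, h2⟩
    exact h (Prod.ext h1.symm h2.symm)

/-- half of the lifts are good -/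
theorem gen_half (d : ℕ) (hd : 2 ≤ d) : ∃ p₀ : ℕ, ∀ (p : ℕ) [Fact p.Prime], ∃ e : ℕ,
    (p₀ ≤ p → e = 0) ∧ d < p ^ (e + 1) ∧ ∀ k, Gen p d k e := by
  classical
  obtain ⟨n, hn, hpen⟩ := hegen_pen d hd
  refine ⟨max (16 * d ^ 4) (n + 1), fun p hP => ?_⟩
  have hp := hP.out.one_lt
  have hpR : (0 : ℝ) < p := by exact_mod_cast hP.out.pos
  obtain ⟨e₁, he0, he1⟩ : ∃ e₁, (16 * d ^ 4 ≤ p → e₁ = 0) ∧ 16 * d ^ 4 ≤ p ^ (e₁ + 1) := by
    by_cases h : 16 * d ^ 4 ≤ p
    · exact ⟨0, fun _ => rfl, by simpa using h⟩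
    · exact ⟨16 * d ^ 4, fun h' => absurd h' h,
        (Nat.lt_pow_self hp).le.trans (Nat.pow_le_pow_right hp.le (Nat.le_succ _))⟩
  obtain ⟨w, u, hu, hw⟩ := Nat.exists_eq_pow_mul_and_not_dvd hn p hp.ne'
  have hnp : ‖(p : Cp p)‖ = (p : ℝ)⁻¹ := by rw [hegen_nat, Padic.norm_p]
  have hnn : ‖(n : Cp p)‖ = ((p : ℝ) ^ w)⁻¹ := by
    have : ‖(u : Cp p)‖ = 1 := by
      rw [hegen_nat, Padic.norm_natCast_eq_one_iff]
      exact (Nat.Prime.coprime_iff_not_dvd hP.out).2 hu
    rw [hw, Nat.cast_mul, Nat.cast_pow, norm_mul, norm_pow, this, hnp, mul_one, inv_pow]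
  have h4 : 4 * d ≤ p ^ (e₁ + 2 * w + 1) := by
    have : d ≤ d ^ 4 := Nat.le_self_pow (by norm_num) d
    have := Nat.pow_le_pow_right hp.le (show e₁ + 1 ≤ e₁ + 2 * w + 1 by omega)
    omega
  refine ⟨e₁ + 2 * w, fun h => ?_, by omega, fun k => ?_⟩
  · have h1 := he0 ((le_max_left _ _).trans h)
    have h2 : n + 1 ≤ p := (le_max_right _ _).trans h
    rcases Nat.eq_zero_or_pos w with h3 | h3
    · omega
    · have : p ∣ n := hw ▸ (dvd_pow_self p h3.ne').mul_right u
      have := Nat.le_of_dvd (Nat.pos_of_ne_zero hn) this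
      omega
  obtain ⟨m₀, hsep⟩ := sep_count p d k
  refine ⟨max m₀ (e₁ + 2 * w + 1), fun m hm A => ?_⟩
  have hm1 : m₀ ≤ m := (le_max_left _ _).trans hm
  have hm2 : e₁ + 2 * w + 1 ≤ m := (le_max_right _ _).trans hm
  have : NeZero (p ^ k) := ⟨by positivity⟩
  have : NeZero (p ^ m) := ⟨by positivity⟩
  have : NeZero (p ^ (k + m)) := ⟨by positivity⟩
  choose Z hZ hZ2 using hpen p ((p : Cp p) ^ k)
  let bad : Fin d × Fin d → (Fin d × Fin d → ZMod (p ^ m)) → Prop := fun c z =>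
    ∃ z₀ ∈ Z ((hegen_Y A (Function.update z c 0)).map (Int.cast : ℤ → Cp p)) c.1 c.2,
      ‖(((z c).val : ℕ) : Cp p) - z₀‖ < (p : ℝ) ^ (-(e₁ : ℝ))
  have hbox := box_count bad (2 * d ^ 2 * p ^ (m - (e₁ + 1))) fun c x => by
    simp only [bad, Function.update_idem, Function.update_self]
    refine (hegen_union (fun z₀ (a : ZMod (p ^ m)) => ‖((a.val : ℕ) : Cp p) - z₀‖ <
      (p : ℝ) ^ (-(e₁ : ℝ))) (p ^ (m - (e₁ + 1))) (fun z₀ => ?_) _).trans
      (Nat.mul_le_mul_right _ (hZ _ _ _))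
    refine Nat.le_of_mul_le_mul_right ?_ (show 0 < p ^ (e₁ + 1) by positivity)
    rw [← pow_add, Nat.sub_add_cancel (by omega)]
    exact ball_count m e₁ (by omega) z₀
  have cI : Fintype.card (Fin d × Fin d) = d ^ 2 := by simp [sq]
  have cZ : Fintype.card (Fin d × Fin d → ZMod (p ^ m)) = p ^ (m * d ^ 2) := by
    rw [Fintype.card_fun, ZMod.card, cI, pow_mul]
  have cV : Fintype.card (Fin d → ZMod (p ^ (k + m))) = p ^ ((k + m) * d) := by
    rw [Fintype.card_fun, ZMod.card, Fintype.card_fin, pow_mul]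
  have hbad : 8 * Nat.card {z // ∃ c, bad c z} ≤ p ^ (m * d ^ 2) := by
    rw [ZMod.card, cI, ← pow_mul] at hbox
    refine Nat.le_of_mul_le_mul_right ?_ (show 0 < p ^ m by positivity)
    have e : p ^ m = p ^ (e₁ + 1) * p ^ (m - (e₁ + 1)) := by
      rw [← pow_add, Nat.add_sub_cancel' (by omega)]
    calc 8 * Nat.card {z // ∃ c, bad c z} * p ^ m
        ≤ 8 * (d ^ 2 * (2 * d ^ 2 * p ^ (m - (e₁ + 1))) * p ^ (m * d ^ 2)) := by
          rw [mul_assoc]
          exact Nat.mul_le_mul_left _ hbox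
      _ = p ^ (m * d ^ 2) * (16 * d ^ 4 * p ^ (m - (e₁ + 1))) := by ring
      _ ≤ p ^ (m * d ^ 2) * p ^ m := by
          refine Nat.mul_le_mul_left _ ?_
          conv_rhs => rw [e]
          exact Nat.mul_le_mul_right _ he1
  rw [pow_add, ← cZ, ← cV]
  refine hegen_count (fun z => (hegen_Y A z).map (Int.cast : ℤ → ZMod (p ^ (k + m))))
    (fun z z' e => ?_)
    (fun z => ((hegen_Y A z).map (Int.cast : ℤ → ℚ)).charpoly.Separable ∧ ¬ ∃ c, bad c z) _ ?_
    fun z hz => ?_
  · have e2 : hegen_Y A z = hegen_Y A z' := by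
      rw [← hegen_lft A z, ← hegen_lft A z']
      exact congrArg lftM e
    funext c
    have e3 := congrFun (congrFun e2 c.1) c.2
    rw [hegen_Y_apply, hegen_Y_apply, Nat.cast_inj, Nat.add_left_cancel_iff,
      Nat.mul_left_cancel_iff (by positivity)] at e3
    exact ZMod.val_injective _ e3
  · have e1 := hsep m hm1 A
    have e2 := hegen_or (fun z => ¬ ((hegen_Y A z).map (Int.cast : ℤ → ℚ)).charpoly.Separable)
      (fun z => ∃ c, bad c z) (fun z => ¬ (((hegen_Y A z).map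
        (Int.cast : ℤ → ℚ)).charpoly.Separable ∧ ¬ ∃ c, bad c z)) fun z hz => by tauto
    change 8 * Nat.card {z // ¬ ((hegen_Y A z).map (Int.cast : ℤ → ℚ)).charpoly.Separable} ≤ _
      at e1
    rw [cZ]
    omega
  · obtain ⟨t, P, U, ht, hPU, hy⟩ := diag_exists p _ hz.1
    have hb : ∀ i i' j l, i ≠ i' →
        ‖U l i * P i j‖ ≤ (p : ℝ) ^ (k + (e₁ + 2 * w)) * ‖t i - t i'‖ := fun i i' j l hi => by
      have e := hZ2 _ j l ((z (j, l)).val : ℕ) _ t P U (Real.rpow_pos_of_pos hpR _)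
        (fun z₀ h₀ => not_lt.1 fun h => hz.2 ⟨(j, l), z₀, h₀, h⟩) ht hPU
        (by rw [← hy, hegen_upd A z (j, l)]) i i' hi
      rw [hnn, norm_pow, hnp, Real.rpow_neg hpR.le, Real.rpow_natCast, inv_pow (p : ℝ) k] at e
      rw [← inv_mul_le_iff₀ (by positivity)]
      refine le_trans (le_of_eq ?_) e
      rw [pow_add, pow_add, pow_mul']
      field_simp
    have e1 := hyp_count (k + m) (e₁ + 2 * w) (by omega) P
    have e2 := hegen_or (fun v : Fin d → ZMod (p ^ (k + m)) => ∃ i j,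
      ‖∑ l, P i l * (lftV v l : Cp p)‖ < (p : ℝ) ^ (-((e₁ + 2 * w : ℕ) : ℝ)) * ‖P i j‖)
      (fun _ => False) (fun v => ¬ ((lftM ((hegen_Y A z).map
        (Int.cast : ℤ → ZMod (p ^ (k + m))))).map (Int.cast : ℤ → ZMod (p ^ k)) = A ∧
        ∃ (t : Fin d → Cp p) (P U : Mat d (Cp p)), GD k (e₁ + 2 * w) (lftM ((hegen_Y A z).map
          (Int.cast : ℤ → ZMod (p ^ (k + m))))) (lftV v) t P U)) fun v hv => by
      left
      by_contra hc
      refine hv ⟨?_, ?_⟩
      · rw [hegen_lft]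
        ext i j
        rw [map_apply, hegen_Y_apply, Int.cast_natCast, Nat.cast_add, Nat.cast_mul,
          ZMod.natCast_self, zero_mul, add_zero, ZMod.natCast_zmod_val]
      · rw [hegen_lft]
        exact hegen_gd ht hPU hy hb fun i j => not_lt.1 fun h => hc ⟨i, j, h⟩
    rw [Nat.card_of_isEmpty (α := {_z // False}), add_zero] at e2
    rw [cV]
    refine le_trans (Nat.mul_le_mul_left _ e2) ?_
    refine Nat.le_of_mul_le_mul_right ?_ (show 0 < d by omega)
    refine le_trans ?_ (e1.trans (mul_comm _ _).le)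
    rw [mul_comm 4, mul_assoc]
    exact Nat.mul_le_mul_left _ h4

end Pool.Agent.MP_8299d6_al.Up

end
end
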