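import Pool.Agent.Mg.X8299d6.Gc62318
import Pool.Agent.Mg.X8299d6.Gfcf1ab
import Pool.Agent.Mg.X8299d6.G6efaac
import Pool.Agent.Mg.X8299d6.G74aea6

section

open Matrix Polynomial

noncomputable section

namespace Pool.Agent.MP_8299d6_al.Up

variable {p : ℕ} [Fact p.Prime] {d : ℕ} {φ : Gp p →* Equiv.Perm (Fin d)}

theorem hela3_det (X : Mat d (Cp p)) (r : Fin d → ℝ) (hr : ∀ i, 0 ≤ r i)
    (h : ∀ i j, ‖X i j‖ ≤ r i) : ‖X.det‖ ≤ ∏ i, r i := by
  rw [det_apply]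
  refine IsUltrametricDist.norm_sum_le_of_forall_le_of_nonneg
    (Finset.prod_nonneg fun i _ => hr i) fun σ _ => ?_
  have e : ‖Equiv.Perm.sign σ • ∏ i, X (σ i) i‖ = ‖∏ i, X (σ i) i‖ := by
    rcases Int.units_eq_one_or (Equiv.Perm.sign σ) with h | h <;> simp [h]
  rw [e, norm_prod, ← Equiv.prod_comp σ r]
  exact Finset.prod_le_prod (fun i _ => norm_nonneg _) fun i _ => h _ _

theorem hela3_row (X : Mat d (Cp p)) (par : Fin d → Fin d) (hpar : ∀ i, 0 < i.val → par i < i) :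
    (Matrix.of fun i j => if 0 < i.val then X i j - X (par i) j else X i j).det = X.det := by
  let N : Mat d (Cp p) := Matrix.of fun i k => if 0 < i.val ∧ k = par i then 1 else 0
  have e : (Matrix.of fun i j => if 0 < i.val then X i j - X (par i) j else X i j) =
      (1 - N) * X := by
    rw [Matrix.sub_mul, Matrix.one_mul]
    ext i j
    by_cases h : 0 < i.val <;> simp [N, mul_apply, h]
  have hN : ∀ i k, i ≤ k → N i k = 0 := fun i k hik =>
    if_neg fun h => absurd (hpar i h.1) (by rw [← h.2]; exact not_lt.2 hik)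
  have h1 : (1 - N).IsLowerTriangular := fun i k hik => by
    have h : i < k := hik
    rw [Matrix.sub_apply, hN i k h.le, one_apply_ne h.ne, sub_zero]
  rw [e, det_mul, det_of_isLowerTriangular _ h1, Finset.prod_eq_one fun i _ => by
    rw [Matrix.sub_apply, hN i i le_rfl, one_apply_eq, sub_zero], one_mul]

theorem hela3_sub (x y : Cp p) : ‖x - y‖ ≤ max ‖x‖ ‖y‖ := by
  rw [sub_eq_add_neg, ← norm_neg y]
  exact IsUltrametricDist.norm_add_le_max _ _

/-- the different -/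
theorem different {B : Mat d (Cp p)} (hB0 : B.det ≠ 0) (hB : Box φ 1 = Latt B) :
    ∃ δ ∈ FF φ, (∀ i, δ i ≠ 0) ∧ (∀ i, ‖δ i‖ ≤ 1) ∧ ∏ i, ‖δ i‖ ≤ ‖B.det‖ ^ 2 ∧
      ∀ a ∈ Box φ 1, ‖∑ i, a i / δ i‖ ≤ 1 := by
  classical
  rcases Nat.eq_zero_or_pos d with rfl | hd
  · exact ⟨1, one_mem _, fun i => one_ne_zero, fun i => by simp, by simp, fun a _ => by simp⟩
  have : Nonempty (Fin d) := ⟨⟨0, hd⟩⟩
  have hu : IsUnit B.det := hB0.isUnit
  have hc : ∀ j, (fun i => B i j) ∈ Box φ 1 := fun j => hB ▸ col_mem_Latt B j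
  have hU := (ga_coord (mul_nonsing_inv B hu) fun j => (hc j).1).1
  obtain ⟨o, ho, hm⟩ := ga_max (fun j i => B⁻¹ j i) hU
  have hx := ga_glue (fun j i => B⁻¹ j i) hU o ho
  have h1 : ∀ i, 1 ≤ ‖B⁻¹ (o i) i‖ := fun i => by
    have e : (1 : Cp p) = ∑ j, B i j * B⁻¹ j i := by
      rw [← mul_apply, mul_nonsing_inv B hu, one_apply_eq]
    rw [← norm_one (α := Cp p), e]
    refine IsUltrametricDist.norm_sum_le_of_forall_le_of_nonneg (norm_nonneg _) fun j _ => ?_
    have a : ‖B i j‖ ≤ 1 := by simpa using (hc j).2 i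
    rw [norm_mul]
    exact (mul_le_of_le_one_left (norm_nonneg _) a).trans (hm i j)
  have h0 : ∀ i, B⁻¹ (o i) i ≠ 0 := fun i => norm_pos_iff.1 (one_pos.trans_le (h1 i))
  refine ⟨fun i => (B⁻¹ (o i) i)⁻¹, ga_inv hx, fun i => inv_ne_zero (h0 i), fun i => ?_, ?_,
    fun a ha => ?_⟩
  · rw [norm_inv]
    exact inv_le_one_of_one_le₀ (h1 i)
  · have h2 : Latt B⁻¹ᵀ ≤ Box φ fun i => B⁻¹ (o i) i := lat_le fun j => ⟨hU j, fun i => hm i j⟩
    rw [box_lat hB hx h0] at h2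
    have h3 := lat_det_le h2
    rw [det_transpose, det_nonsing_inv, Ring.inverse_eq_inv', det_mul, det_diagonal, norm_inv,
      norm_mul, norm_prod] at h3
    have h4 : 0 < ‖B.det‖ := norm_pos_iff.2 hB0
    have h5 : 0 < ∏ i, ‖B⁻¹ (o i) i‖ := Finset.prod_pos fun i _ => one_pos.trans_le (h1 i)
    simp only [norm_inv]
    rw [Finset.prod_inv_distrib, inv_le_iff_one_le_mul₀ h5]
    rw [inv_le_iff_one_le_mul₀ h4] at h3
    exact h3.trans_eq (by ring)
  · have e : ∑ i, a i / (B⁻¹ (o i) i)⁻¹ =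
        ∑ j, (B⁻¹ *ᵥ fun i => (if o i = j then a else 0) i) j := by
      simp only [mulVec, dotProduct]
      rw [Finset.sum_comm]
      refine Finset.sum_congr rfl fun i _ => ?_
      rw [Finset.sum_eq_single (o i) (fun j _ hj => by rw [if_neg hj.symm]; simp) (by simp),
        if_pos rfl, div_inv_eq_mul, mul_comm]
    rw [e]
    refine IsUltrametricDist.norm_sum_le_of_forall_le_of_nonneg zero_le_one fun j _ => ?_
    have h2 : (fun i => (if o i = j then a else 0) i) ∈ Box φ 1 :=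
      ⟨ga_glue (fun j' => if j' = j then a else 0)
        (fun j' => by split_ifs; exacts [ha.1, zero_mem _]) o ho,
        fun i => by beta_reduce; split_ifs; exacts [ha.2 i, by simp]⟩
    rw [hB] at h2
    obtain ⟨z, hz⟩ := h2
    rw [hz, mulVec_mulVec, nonsing_inv_mul B hu, one_mulVec, norm_zc]
    exact PadicInt.norm_le_one _

/-- the number of classes of eigenvalue vectors with bounded distances -/
theorem t_classes {B : Mat d (Cp p)} (hB0 : B.det ≠ 0) (hB : Box φ 1 = Latt B) (M : ℕ)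
    (ρ : Fin d → Fin d → ℝ) (par : Fin d → Fin d) (hpar : ∀ i, 0 < i.val → par i < i)
    (hρ : ∀ i j, i ≠ j → (p : ℝ) ^ (-(M : ℝ)) ≤ ρ i j) (T : Finset (Fin d → Cp p))
    (hT : ∀ t ∈ T, t ∈ Box φ 1 ∧ ∀ i j, i ≠ j → ‖t i - t j‖ ≤ ρ i j)
    (hsep : ∀ t ∈ T, ∀ t' ∈ T, (∀ i, ‖t i - t' i‖ ≤ (p : ℝ) ^ (-(M : ℝ))) → t = t') :
    (T.card : ℝ) * ‖B.det‖ ≤ (p : ℝ) ^ (M * d) *
      ∏ i ∈ Finset.univ.filter (fun i : Fin d => 0 < i.val), ρ i (par i) := by
  classical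
  have hp : (1 : ℝ) < p := by exact_mod_cast (Fact.out : p.Prime).one_lt
  have hp0 : (0 : ℝ) < p := one_pos.trans hp
  have hq : (0 : ℝ) < (p : ℝ) ^ (-(M : ℝ)) := Real.rpow_pos_of_pos hp0 _
  have hq1 : (p : ℝ) ^ (-(M : ℝ)) ≤ 1 :=
    Real.rpow_le_one_of_one_le_of_nonpos hp.le (neg_nonpos.2 (Nat.cast_nonneg _))
  let Λ : AddSubgroup (Fin d → Cp p) :=
    { carrier := {a | a ∈ Box φ 1 ∧ ∀ i j, i ≠ j → ‖a i - a j‖ ≤ ρ i j}
      zero_mem' := ⟨zero_mem _, fun i j h => by simpa using hq.le.trans (hρ i j h)⟩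
      add_mem' := fun {a b} ha hb => ⟨add_mem ha.1 hb.1, fun i j h => by
        rw [Pi.add_apply, Pi.add_apply, add_sub_add_comm]
        exact (IsUltrametricDist.norm_add_le_max _ _).trans (max_le (ha.2 i j h) (hb.2 i j h))⟩
      neg_mem' := fun {a} ha => ⟨neg_mem ha.1, fun i j h => by
        rw [Pi.neg_apply, Pi.neg_apply, neg_sub_neg, norm_sub_rev]
        exact ha.2 i j h⟩ }
  have hc : (p : Cp p) ^ M ≠ 0 := pow_ne_zero _ (Nat.cast_ne_zero.2 (Fact.out : p.Prime).ne_zero)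
  have hY : Box φ (fun _ => (p : Cp p) ^ M) = Latt ((p : Cp p) ^ M • B) := by
    rw [smul_eq_diagonal_mul]
    exact box_lat hB (fun σ i => by rw [map_pow, map_natCast]) fun _ => hc
  have h1 : Latt ((p : Cp p) ^ M • B) ≤ Λ := fun a ha => by
    rw [← hY] at ha
    have h : ∀ i, ‖a i‖ ≤ (p : ℝ) ^ (-(M : ℝ)) := fun i => (ha.2 i).trans_eq (norm_p_pow M)
    exact ⟨⟨ha.1, fun i => by simpa using (h i).trans hq1⟩, fun i j hij =>
      ((hela3_sub _ _).trans (max_le (h i) (h j))).trans (hρ i j hij)⟩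
  obtain ⟨X, hX0, hX⟩ := lat_basis hB0 Λ M h1 fun a ha => hB ▸ ha.1
  have hd : ((p : Cp p) ^ M • B).det ≠ 0 := by
    rw [det_smul]
    exact mul_ne_zero (pow_ne_zero _ hc) hB0
  have h2 := (lat_index hd (hX ▸ h1)).1
  rw [← hX, det_smul, norm_mul, norm_pow, norm_p_pow, Fintype.card_fin] at h2
  have h3 : (Latt ((p : Cp p) ^ M • B)).relIndex Λ ≠ 0 := fun h => by
    rw [h, Nat.cast_zero, zero_mul] at h2
    exact hX0 (norm_eq_zero.1 h2.symm)
  have h4 : T.card ≤ (Latt ((p : Cp p) ^ M • B)).relIndex Λ := by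
    have : Finite (Λ ⧸ (Latt ((p : Cp p) ^ M • B)).addSubgroupOf Λ) :=
      Nat.finite_of_card_ne_zero h3
    rw [← Nat.card_eq_finsetCard]
    refine Nat.card_le_card_of_injective (fun t : T => (QuotientAddGroup.mk ⟨t.1, hT t.1 t.2⟩ :
      Λ ⧸ (Latt ((p : Cp p) ^ M • B)).addSubgroupOf Λ)) fun t t' e => ?_
    have h := QuotientAddGroup.eq.1 e
    rw [AddSubgroup.mem_addSubgroupOf, ← hY] at h
    refine Subtype.ext (hsep _ t.2 _ t'.2 fun i => ?_)
    have h' : ‖-t.1 i + t'.1 i‖ ≤ _ := (h.2 i).trans_eq (norm_p_pow M)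
    rwa [neg_add_eq_sub, norm_sub_rev] at h'
  have h5 : ‖X.det‖ ≤ ∏ i ∈ Finset.univ.filter (fun i : Fin d => 0 < i.val), ρ i (par i) := by
    have hc : ∀ j, (fun i => X i j) ∈ Λ := fun j => hX ▸ col_mem_Latt X j
    rw [← hela3_row X par hpar, Finset.prod_filter]
    refine hela3_det _ _ (fun i => ?_) fun i j => ?_
    · split_ifs with h
      exacts [hq.le.trans (hρ _ _ (hpar i h).ne'), zero_le_one]
    · rw [of_apply]
      split_ifs with h
      exacts [(hc j).2 _ _ (hpar i h).ne', by simpa using (hc j).1.2 i]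
  have h6 : (p : ℝ) ^ (M * d) * ((p : ℝ) ^ (-(M : ℝ))) ^ d = 1 := by
    rw [Real.rpow_neg hp0.le, Real.rpow_natCast, pow_mul, ← mul_pow,
      mul_inv_cancel₀ (pow_pos hp0 _).ne', one_pow]
  calc (T.card : ℝ) * ‖B.det‖ ≤ ((Latt ((p : Cp p) ^ M • B)).relIndex Λ : ℝ) * ‖B.det‖ :=
        mul_le_mul_of_nonneg_right (by exact_mod_cast h4) (norm_nonneg _)
    _ = (p : ℝ) ^ (M * d) * ‖X.det‖ := by
        rw [← h2, mul_left_comm, ← mul_assoc _ _ ‖B.det‖, h6, one_mul]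
    _ ≤ _ := mul_le_mul_of_nonneg_left h5 (pow_pos hp0 _).le

end Pool.Agent.MP_8299d6_al.Up

end
end

section

open Matrix Polynomial

noncomputable section

namespace Pool.Agent.MP_8299d6_al.Up

variable {p : ℕ} [Fact p.Prime] {d : ℕ} {φ : Gp p →* Equiv.Perm (Fin d)}

theorem hepp_box {e : ℕ} {P U : Mat d (Cp p)} (hPU : P * U = 1)
    (hP : ∀ j, (fun i => P i j) ∈ FF φ) {δ μ : Fin d → Cp p} (hδ : δ ∈ FF φ) (δ0 : ∀ i, δ i ≠ 0)
    (hs : ∀ a ∈ Box φ 1, ‖∑ i, a i / δ i‖ ≤ 1) (μ0 : ∀ i, μ i ≠ 0) (hμ : ∀ i j, ‖U j i‖ ≤ ‖μ i‖) :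
    Box φ (fun i => (p : Cp p) ^ e * (μ i * δ i)⁻¹) ≤ Latt ((p : Cp p) ^ e • P) := by
  intro a ha
  obtain ⟨hU, hc⟩ := ga_coord hPU hP
  have p0 : (p : Cp p) ^ e ≠ 0 := pow_ne_zero _ (Nat.cast_ne_zero.2 (Fact.out : p.Prime).ne_zero)
  have : ∀ j, ∃ z : ℤ_[p], ((p : Cp p) ^ e)⁻¹ * (U *ᵥ a) j = zc p z := fun j => by
    refine fixed_int (fun σ => by rw [map_mul, hc a ha.1, map_inv₀, map_pow, map_natCast]) ?_
    have := hs (fun i => ((p : Cp p) ^ e)⁻¹ * U j i * a i * δ i) ⟨fun σ i => by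
      simp only [map_mul, map_inv₀, map_pow, map_natCast, hU j σ i, ha.1 σ i, hδ σ i],
      fun i => ?_⟩
    · simp only [mul_div_cancel_right₀ _ (δ0 _)] at this
      simpa only [mulVec, dotProduct, Finset.mul_sum, mul_assoc] using this
    · have h1 := ha.2 i
      have h2 := norm_pos_iff.2 (μ0 i)
      have h3 := norm_pos_iff.2 (δ0 i)
      have h4 := norm_pos_iff.2 p0
      simp only [norm_mul, norm_inv, Pi.one_apply, norm_one] at h1 ⊢
      calc _ ≤ ‖(p : Cp p) ^ e‖⁻¹ * ‖μ i‖ * (‖(p : Cp p) ^ e‖ * (‖μ i‖ * ‖δ i‖)⁻¹) * ‖δ i‖ := by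
            gcongr
            exact hμ i j
        _ = 1 := by field_simp
  choose z hz using this
  refine ⟨z, ?_⟩
  rw [← funext hz]
  change a = ((p : Cp p) ^ e • P) *ᵥ (((p : Cp p) ^ e)⁻¹ • (U *ᵥ a))
  rw [smul_mulVec, mulVec_smul, smul_inv_smul₀ p0, mulVec_mulVec, hPU, one_mulVec]

/-- the type of a good pair and the size of the centraliser -/
theorem per_pair (hd : 2 ≤ d) {k e : ℕ} (he : d < p ^ (e + 1)) {y : Mat d ℤ} {v : Fin d → ℤ}
    {t : Fin d → Cp p} {P U : Mat d (Cp p)} (h : GD k e y v t P U) (ht : t ∈ FF φ)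
    {B : Mat d (Cp p)} (hB0 : B.det ≠ 0) (hB : Box φ 1 = Latt B) :
    ∃ (G : Fin d → Fin d → ℕ) (c : Fin d → ℕ), Ty G c ∧ HasT k e φ G c y v ∧
      cc (y.map (Int.cast : ℤ → ZMod (p ^ k))) ≤
        ‖B.det‖ ^ 2 * (p : ℝ) ^ (2 * (e : ℝ) * d ^ 2 - ((tyD G : ℝ) + tyK c) / d.factorial) ∧
      ∀ i j, ‖t i - t j‖ ≤ (p : ℝ) ^ ((tyR G : ℝ) / d.factorial - (k + 2 * e)) := by
  have hp : (1 : ℝ) < p := by exact_mod_cast (Fact.out : p.Prime).one_lt
  have hp0 : (0 : ℝ) < p := one_pos.trans hp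
  have p0 : (p : Cp p) ^ e ≠ 0 := pow_ne_zero _ (Nat.cast_ne_zero.2 (Fact.out : p.Prime).ne_zero)
  have hD : (0 : ℝ) < d.factorial := by exact_mod_cast d.factorial_pos
  have : Nonempty (Fin d) := ⟨⟨0, by omega⟩⟩
  obtain ⟨δ, hδ, δ0, δ1, δB, hs⟩ := different hB0 hB
  have hP := ga_cols h ht
  have hU := (ga_coord h.inv hP).1
  obtain ⟨o, ho, hm⟩ := ga_max (fun j i => U j i) hU
  have μ0 : ∀ i, U (o i) i ≠ 0 := fun i e0 => by
    have := congrFun (congrFun h.inv i) i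
    rw [mul_apply, one_apply_eq, Finset.sum_eq_zero fun j _ => by
      rw [norm_le_zero_iff.1 ((hm i j).trans_eq (norm_eq_zero.2 e0)), mul_zero]] at this
    exact zero_ne_one this
  have hbox := hepp_box (e := e) h.inv hP hδ δ0 hs μ0 hm
  have hb : (fun i => (p : Cp p) ^ e * (U (o i) i * δ i)⁻¹) ∈ FF φ := fun σ i => by
    simp only [map_mul, map_inv₀, map_pow, map_natCast, hU _ σ i, hδ σ i, ho]
  have mono : ∀ (a b : ℕ) (s : ℝ), (p : ℝ) ^ ((a : ℝ) / d.factorial - s) ≤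
      (p : ℝ) ^ ((b : ℝ) / d.factorial - s) ↔ a ≤ b := fun a b s => by
    rw [Real.rpow_le_rpow_left_iff hp, sub_le_sub_iff_right, div_le_div_iff_of_pos_right hD,
      Nat.cast_le]
  have ex : ∀ (z : ℤ) (s : ℕ), -(s : ℝ) ≤ (z : ℝ) / d.factorial →
      ∃ g : ℕ, (z : ℝ) / d.factorial = (g : ℝ) / d.factorial - s := fun z s hz => by
    rw [le_div_iff₀ hD] at hz
    obtain ⟨g, hg⟩ := Int.eq_ofNat_of_zero_le (a := z + s * d.factorial) (by
      have : (0 : ℝ) ≤ z + s * d.factorial := by linarith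
      exact_mod_cast this)
    have hg : (z : ℝ) + s * d.factorial = g := by exact_mod_cast hg
    exact ⟨g, by rw [← hg]; field_simp; ring⟩
  have hc : ∀ i, ∃ c : ℕ, ‖(p : Cp p) ^ e * (U (o i) i * δ i)⁻¹‖ =
      (p : ℝ) ^ (-((c : ℝ) / d.factorial)) := fun i => by
    obtain ⟨z, hz⟩ := ga_val hb (zero_mem _) (i := i) (j := i)
      (mul_ne_zero p0 (inv_ne_zero (mul_ne_zero (μ0 i) (δ0 i))))
    have h1 := ((h.latt ht).1 (hbox ⟨hb, fun _ => le_rfl⟩)).2 i
    rw [Pi.zero_apply, sub_zero] at hz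
    rw [hz, Pi.one_apply, norm_one, Real.rpow_le_one_iff_of_pos hp0] at h1
    obtain ⟨g, hg⟩ := ex (-z) 0 (by
      push_cast
      rw [neg_div]
      rcases h1 with h1 | h1 <;> linarith [h1.1, h1.2])
    refine ⟨g, hz.trans ?_⟩
    push_cast at hg
    rw [← sub_zero ((g : ℝ) / _), ← hg, neg_div, neg_neg]
  have hG : ∀ i j, ∃ g : ℕ, (i = j → g = 0) ∧ (i ≠ j → ‖t i - t j‖ =
      (p : ℝ) ^ ((g : ℝ) / d.factorial - (k + 2 * e))) := fun i j => by
    by_cases hij : i = j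
    · exact ⟨0, fun _ => rfl, fun e => absurd hij e⟩
    obtain ⟨z, hz⟩ := ga_val ht ht (h.inj.ne hij)
    have h1 := h.gap hij
    rw [hz, Real.rpow_le_rpow_left_iff hp] at h1
    obtain ⟨g, hg⟩ := ex z (k + 2 * e) (by exact_mod_cast h1)
    refine ⟨g, fun e => absurd e hij, fun _ => ?_⟩
    rw [hz, hg]
    push_cast
    rfl
  choose c hc using hc
  choose G G0 hG using hG
  have hμ : ∀ i, ‖U (o i) i‖ * ‖δ i‖ = (p : ℝ) ^ ((c i : ℝ) / d.factorial - e) := fun i => by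
    have := hc i
    rw [norm_mul, norm_inv, norm_mul, norm_p_pow, mul_inv_eq_iff_eq_mul₀
      (mul_pos (norm_pos_iff.2 (μ0 i)) (norm_pos_iff.2 (δ0 i))).ne'] at this
    rw [sub_eq_add_neg, Real.rpow_add hp0, this, ← mul_assoc, ← Real.rpow_add hp0, add_neg_cancel,
      Real.rpow_zero, one_mul]
  have sy : ∀ i j, G i j ≤ G j i := fun i j => by
    by_cases hij : i = j
    · rw [hij]
    · rw [← mono _ _ (k + 2 * e), ← hG i j hij, ← hG j i (Ne.symm hij), norm_sub_rev]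
  refine ⟨G, c, ⟨fun i j => (sy i j).antisymm (sy j i), fun i => G0 i i rfl, fun i j l => ?_,
    fun i j hij => ?_⟩, ⟨t, P, U, _, h, ht, hb, hG, hc, hbox⟩, ?_, fun i j => ?_⟩
  · by_cases h1 : i = j
    · rw [G0 i j h1]
      exact Nat.zero_le _
    by_cases h2 : i = l
    · exact h2 ▸ le_max_right _ _
    by_cases h3 : l = j
    · exact h3 ▸ le_max_left _ _
    have := IsUltrametricDist.norm_add_le_max (t i - t l) (t l - t j)
    rw [sub_add_sub_cancel, hG i j h1, hG i l h2, hG l j h3, le_max_iff, mono, mono] at this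
    exact le_max_iff.2 this
  · rw [← mono _ _ e, ← hμ]
    refine (mul_le_of_le_one_right (norm_nonneg _) (δ1 i)).trans ((h.bU _ i j hij).trans_eq ?_)
    rw [hG i j hij, ← Real.rpow_natCast, ← Real.rpow_add hp0]
    congr 1
    push_cast
    ring
  · have h1 := mul_le_mul (cent_bound he h o) δB (Finset.prod_nonneg fun _ _ => norm_nonneg _)
      zero_le_one
    have h2 : ∀ i, (p : ℝ) ^ (-((k : ℝ) + e)) * ‖U (o i) i‖ *
        (∏ j ∈ Finset.univ.erase i, ‖t i - t j‖) * ‖δ i‖ = (p : ℝ) ^ ((c i : ℝ) / d.factorial +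
          ∑ j, ((G i j : ℝ) / d.factorial - (k + 2 * e))) := fun i => by
      rw [Finset.prod_congr rfl fun j hj => hG i j (Finset.ne_of_mem_erase hj).symm,
        ← Real.rpow_sum_of_pos hp0, mul_right_comm, mul_assoc _ _ ‖δ i‖, hμ, ← Real.rpow_add hp0,
        ← Real.rpow_add hp0, ← Finset.add_sum_erase _ _ (Finset.mem_univ i), G0 i i rfl]
      congr 1
      push_cast
      ring
    rw [mul_assoc, ← Finset.prod_mul_distrib, Finset.prod_congr rfl fun i _ => h2 i,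
      ← Real.rpow_sum_of_pos hp0, one_mul, ← le_div_iff₀ (Real.rpow_pos_of_pos hp0 _)] at h1
    rw [cc, dens_card_mat]
    refine (div_le_div_of_nonneg_right h1 (Nat.cast_nonneg _)).trans_eq ?_
    push_cast
    rw [← pow_mul, ← Real.rpow_natCast _ (k * _), div_div, ← Real.rpow_add hp0, div_eq_mul_inv,
      ← Real.rpow_neg hp0.le]
    congr 2
    simp only [tyD, tyK, Finset.sum_add_distrib, Finset.sum_sub_distrib, ← Finset.sum_div,
      Finset.sum_const, Finset.card_univ, Fintype.card_fin, nsmul_eq_mul]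
    push_cast
    ring
  · by_cases hij : i = j
    · rw [hij, sub_self, norm_zero]
      exact (Real.rpow_pos_of_pos hp0 _).le
    · rw [hG i j hij, mono]
      exact Finset.le_sup (f := fun z : Fin d × Fin d => G z.1 z.2) (Finset.mem_univ (i, j))

end Pool.Agent.MP_8299d6_al.Up

end
end

section

open Matrix Polynomial

noncomputable section

namespace Pool.Agent.MP_8299d6_al.Up

theorem hesg0_min {ι : Type} [DecidableEq ι] (x a : ι → ℝ) (s : Finset ι) :
    ∀ c : ℝ, (∀ i ∈ s, c ≤ x i) → 0 ≤ ∑ i ∈ s, ∑ j ∈ s, a i * a j * (min (x i) (x j) - c) := by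
  induction s using Finset.induction_on_min_value x with
  | empty => intro c _; simp
  | insert i₀ s hi hmin ih =>
    intro c hc
    have h1 : ∑ i ∈ insert i₀ s, ∑ j ∈ insert i₀ s, a i * a j * (min (x i) (x j) - c) =
        ∑ i ∈ insert i₀ s, ∑ j ∈ insert i₀ s, a i * a j * (min (x i) (x j) - x i₀) +
          (x i₀ - c) * ((∑ i ∈ insert i₀ s, a i) * ∑ j ∈ insert i₀ s, a j) := by
      rw [Finset.sum_mul_sum, Finset.mul_sum, ← Finset.sum_add_distrib]
      refine Finset.sum_congr rfl fun i _ => ?_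
      rw [Finset.mul_sum, ← Finset.sum_add_distrib]
      refine Finset.sum_congr rfl fun j _ => ?_
      ring
    have h2 : ∑ i ∈ insert i₀ s, ∑ j ∈ insert i₀ s, a i * a j * (min (x i) (x j) - x i₀) =
        ∑ i ∈ s, ∑ j ∈ s, a i * a j * (min (x i) (x j) - x i₀) := by
      rw [Finset.sum_insert hi, Finset.sum_eq_zero, zero_add]
      · refine Finset.sum_congr rfl fun i hi' => ?_
        rw [Finset.sum_insert hi, min_eq_right (hmin i hi'), sub_self, mul_zero, zero_add]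
      · intro j hj
        rcases Finset.mem_insert.1 hj with rfl | hj
        · rw [min_self, sub_self, mul_zero]
        · rw [min_eq_left (hmin j hj), sub_self, mul_zero]
    rw [h1, h2]
    exact add_nonneg (ih _ hmin) (mul_nonneg
      (sub_nonneg.2 (hc i₀ (Finset.mem_insert_self _ _))) (mul_self_nonneg _))

/-- the kernel `min` is positive semidefinite -/
theorem min_psd {ι : Type} [Fintype ι] (x a : ι → ℝ) (hx : ∀ i, 0 ≤ x i) :
    0 ≤ ∑ i, ∑ j, a i * a j * min (x i) (x j) := by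
  classical
  simpa using hesg0_min x a Finset.univ 0 fun i _ => hx i

theorem hesg0_lin {p : ℕ} [Fact p.Prime] {d : ℕ} (R V : Type) [Ring R] [AddCommGroup V]
    [Module R V] [Module (ZMod p) V] [Finite V] (hd : Nat.card V ≤ p ^ d) :
    ∃ r, r ≤ d ∧ ∃ ρ : R →+* Mat r (ZMod p), ∀ x, IsUnit (ρ x) →
      Function.Injective fun n : V => x • n := by
  have : SMulCommClass R (ZMod p) V :=
    ⟨fun c t x => ZMod.map_smul (DistribSMul.toAddMonoidHom V c) t x⟩
  have : Module.Finite (ZMod p) V := Module.Finite.of_finite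
  have hcard : Nat.card V = p ^ Module.finrank (ZMod p) V := by
    rw [Module.natCard_eq_pow_finrank (K := ZMod p), Nat.card_zmod]
  have hr : Module.finrank (ZMod p) V ≤ d := by
    have h1 : p ^ Module.finrank (ZMod p) V ≤ p ^ d := hcard ▸ hd
    exact (Nat.pow_le_pow_iff_right (Fact.out : p.Prime).one_lt).1 h1
  let e : Module.End (ZMod p) V ≃ₐ[ZMod p] Mat (Module.finrank (ZMod p) V) (ZMod p) :=
    LinearMap.toMatrixAlgEquiv (Module.finBasis (ZMod p) V)
  refine ⟨_, hr, e.toRingEquiv.toRingHom.comp (Module.toModuleEnd (ZMod p) V), fun x hx => ?_⟩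
  have h1 : IsUnit (Module.toModuleEnd (ZMod p) V x : Module.End (ZMod p) V) := by
    have h2 := hx.map e.symm
    simpa using h2
  exact ((Module.End.isUnit_iff _).1 h1).1

theorem hesg0_rep {p : ℕ} [Fact p.Prime] {d H : ℕ} (R N : Type) [Ring R] [AddCommGroup N]
    [Module R N] [Finite N] (hH : ∀ x : N, p ^ H • x = 0)
    (hd : Nat.card {x : N // p • x = 0} ≤ p ^ d) :
    ∃ r, r ≤ d ∧ ∃ ρ : R →+* Mat r (ZMod p), ∀ x, IsUnit (ρ x) →
      Function.Injective fun n : N => x • n := by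
  let V : Submodule R N :=
    { carrier := {x | p • x = 0}
      add_mem' := fun {a b} ha hb => by
        change p • (a + b) = 0
        rw [smul_add, show p • a = 0 from ha, show p • b = 0 from hb, add_zero]
      zero_mem' := smul_zero p
      smul_mem' := fun c x hx => by
        change p • c • x = 0
        rw [smul_comm, show p • x = 0 from hx, smul_zero] }
  have hV : ∀ x : V, p • x = 0 := fun x => Subtype.ext x.2
  obtain ⟨r, hr, ρ, hρ⟩ := @hesg0_lin p _ d R V _ _ _ (AddCommGroup.zmodModule hV) _ hd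
  refine ⟨r, hr, ρ, fun x hx => ?_⟩
  have h2 := hρ x hx
  have h3 : ∀ j (n : N), p ^ j • n = 0 → x • n = 0 → n = 0 := by
    intro j
    induction j with
    | zero => intro n hn _; simpa using hn
    | succ j ih =>
      intro n hn hx
      have h4 : p • n = 0 := by
        refine ih _ ?_ ?_
        · rw [← mul_smul, ← pow_succ, hn]
        · rw [smul_comm, hx, smul_zero]
      have h5 : (⟨n, h4⟩ : V) = 0 := by
        apply h2
        exact Subtype.ext (hx.trans (smul_zero x).symm)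
      exact congrArg Subtype.val h5
  intro n n' h
  have h6 : x • (n - n') = 0 := by
    rw [smul_sub]
    exact sub_eq_zero.2 h
  exact sub_eq_zero.1 (h3 H _ (hH _) h6)

theorem hesg0_count {p : ℕ} [Fact p.Prime] {d r : ℕ} (hr : r ≤ d) (R : Type) [Ring R] [Finite R]
    (ρ : R →+* Mat r (ZMod p)) :
    Nat.card R ≤ (2 + (2 * d) ^ (d * d)) * Nat.card {x : R // IsUnit (ρ x)} := by
  classical
  let T : Subalgebra (ZMod p) (Mat r (ZMod p)) :=
    { ρ.range with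
      algebraMap_mem' := fun t => by
        obtain ⟨k, rfl⟩ := ZMod.natCast_zmod_surjective t
        exact ⟨k, by rw [map_natCast, map_natCast]⟩ }
  have hT : Nat.card T ≤ (2 + (2 * d) ^ (d * d)) * Nat.card {y : T // IsUnit y.1} := by
    by_cases h : 2 * d ≤ p
    · refine (card_le_two_units (by rw [ZMod.card]; omega) T).trans ?_
      exact Nat.mul_le_mul_right _ (Nat.le_add_right _ _)
    · have : Nonempty {y : T // IsUnit y.1} := ⟨⟨1, isUnit_one⟩⟩
      have h1 : 1 ≤ Nat.card {y : T // IsUnit y.1} := Nat.card_pos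
      have h2 : Nat.card T ≤ Nat.card (Mat r (ZMod p)) :=
        Nat.card_le_card_of_injective _ Subtype.val_injective
      have h3 : Nat.card (Mat r (ZMod p)) = p ^ (r * r) := by
        change Nat.card (Fin r → Fin r → ZMod p) = _
        simp only [Nat.card_fun, Nat.card_zmod, Nat.card_eq_fintype_card (α := Fin r),
          Fintype.card_fin, ← pow_mul]
      have h4 : p ^ (r * r) ≤ (2 * d) ^ (d * d) :=
        (Nat.pow_le_pow_left (by omega) _).trans
          (Nat.pow_le_pow_right (by omega) (Nat.mul_le_mul hr hr))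
      calc Nat.card T ≤ (2 + (2 * d) ^ (d * d)) * 1 := by omega
        _ ≤ _ := Nat.mul_le_mul_left _ h1
  have hs : ∀ y : T, ∃ x, ρ x = y.1 := fun y => y.2
  choose σ hσ using hs
  let K := ρ.toAddMonoidHom.ker
  have hK : Nat.card K * Nat.card T = Nat.card R := by
    rw [← K.card_mul_index, AddSubgroup.index_ker]
    rfl
  let φ : {y : T // IsUnit y.1} × K → {x : R // IsUnit (ρ x)} := fun z =>
    ⟨σ z.1.1 + z.2.1, by
      have h : ρ z.2.1 = 0 := z.2.2
      rw [map_add, hσ, h, add_zero]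
      exact z.1.2⟩
  have hφ : Function.Injective φ := by
    rintro ⟨y, k⟩ ⟨y', k'⟩ h
    have h1 : σ y.1 + k.1 = σ y'.1 + k'.1 := congrArg Subtype.val h
    have h2 : y = y' := by
      have h3 := congrArg ρ h1
      have hk : ρ k.1 = 0 := k.2
      have hk' : ρ k'.1 = 0 := k'.2
      rw [map_add, map_add, hσ, hσ, hk, hk', add_zero, add_zero] at h3
      exact Subtype.ext (Subtype.ext h3)
    subst h2
    rw [Subtype.ext (add_left_cancel h1)]
  have h5 := Nat.card_le_card_of_injective φ hφ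
  rw [Nat.card_prod] at h5
  calc Nat.card R = Nat.card K * Nat.card T := hK.symm
    _ ≤ Nat.card K * ((2 + (2 * d) ^ (d * d)) * Nat.card {y : T // IsUnit y.1}) :=
      Nat.mul_le_mul_left _ hT
    _ = (2 + (2 * d) ^ (d * d)) * (Nat.card {y : T // IsUnit y.1} * Nat.card K) := by ring
    _ ≤ _ := Nat.mul_le_mul_left _ h5

/-- a positive proportion of the endomorphisms of an abelian `p`-group of bounded rank are
invertible -/
theorem end_le_aut (d : ℕ) : ∃ w : ℕ, ∀ (p : ℕ) [Fact p.Prime] (N : Type) [AddCommGroup N]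
    [Finite N] (H : ℕ), (∀ x : N, p ^ H • x = 0) → Nat.card {x : N // p • x = 0} ≤ p ^ d →
    Nat.card (N →+ N) ≤ w * Nat.card (N ≃+ N) := by
  refine ⟨2 + (2 * d) ^ (d * d), fun p _ N _ _ H hH hd => ?_⟩
  obtain ⟨r, hr, ρ, hρ⟩ := hesg0_rep (AddMonoid.End N) N hH hd
  have : Finite (AddMonoid.End N) :=
    Finite.of_injective (fun f : N →+ N => (f : N → N)) DFunLike.coe_injective
  have : Finite (N ≃+ N) :=
    Finite.of_injective (fun f : N ≃+ N => (f : N → N)) DFunLike.coe_injective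
  refine (hesg0_count hr (AddMonoid.End N) ρ).trans (Nat.mul_le_mul_left _ ?_)
  refine Nat.card_le_card_of_injective (fun f => AddEquiv.ofBijective (f.1 : N →+ N)
    (Finite.injective_iff_bijective.1 (hρ f.1 f.2))) fun f g h => ?_
  exact Subtype.ext (AddMonoidHom.ext fun x => DFunLike.congr_fun h x)

/-- a positive proportion of the elements of a finite ring of bounded rank are units -/
theorem units_dense (d : ℕ) : ∃ w : ℕ, ∀ (p : ℕ) [Fact p.Prime] (M : Type) [CommRing M]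
    [Finite M] (H : ℕ), (∀ x : M, p ^ H • x = 0) → Nat.card {x : M // p • x = 0} ≤ p ^ d →
    Nat.card M ≤ w * Nat.card Mˣ := by
  refine ⟨2 + (2 * d) ^ (d * d), fun p _ M _ _ H hH hd => ?_⟩
  obtain ⟨r, hr, ρ, hρ⟩ := hesg0_rep M M hH hd
  refine (hesg0_count hr M ρ).trans (Nat.mul_le_mul_left _ ?_)
  have hu : ∀ x : {x : M // IsUnit (ρ x)}, IsUnit x.1 := fun x => by
    obtain ⟨y, hy⟩ := Finite.injective_iff_surjective.1 (hρ x.1 x.2) 1
    exact IsUnit.of_mul_eq_one y hy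
  refine Nat.card_le_card_of_injective (fun x => (hu x).unit) fun x y h => ?_
  exact Subtype.ext (congrArg Units.val h)

end Pool.Agent.MP_8299d6_al.Up

end
end

section

open Matrix Polynomial

noncomputable section

namespace Pool.Agent.MP_8299d6_al.Up

theorem hesg1_inj {A M : Type} [AddCommGroup A] [AddCommGroup M] [Finite M] (f : A →+ M)
    (hf : Function.Injective f) (n : ℕ) :
    Nat.card {x : A // n • x = 0} ≤ Nat.card {x : M // n • x = 0} :=
  Nat.card_le_card_of_injective (fun x => ⟨f x.1, by rw [← map_nsmul, x.2, map_zero]⟩)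
    fun _ _ h => Subtype.ext (hf (congrArg Subtype.val h))

theorem hesg1_tor (p : ℕ) [hp : Fact p.Prime] {ι : Type} [Fintype ι] (e : ι → ℕ) (a : ℕ) :
    Nat.card {x : ∀ l, ZMod (p ^ e l) // p ^ a • x = 0} = p ^ ∑ l, min a (e l) := by
  rw [Nat.card_congr ((Equiv.subtypeEquivRight (p := fun x => p ^ a • x = 0)
    fun x => funext_iff).trans
    (Equiv.subtypePiEquivPi (p := fun l (y : ZMod (p ^ e l)) => p ^ a • y = 0))), Nat.card_pi,
    ← Finset.prod_pow_eq_pow_sum]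
  refine Finset.prod_congr rfl fun l _ => ?_
  refine (IsAddCyclic.card_nsmulAddMonoidHom_ker (G := ZMod (p ^ e l)) (p ^ a)).trans ?_
  rw [Nat.card_zmod]
  rcases le_total a (e l) with h | h
  · rw [min_eq_left h, Nat.gcd_eq_right (pow_dvd_pow p h)]
  · rw [min_eq_right h, Nat.gcd_eq_left (pow_dvd_pow p h)]

theorem hesg1_hom {ι : Type} [Fintype ι] (n : ι → ℕ) (X : Type) [AddCommGroup X] :
    Nat.card ((∀ l, ZMod (n l)) →+ X) = ∏ l, Nat.card {x : X // n l • x = 0} := by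
  classical
  rw [← Nat.card_pi]
  refine Nat.card_eq_of_bijective (fun f l => ⟨f (Pi.single l 1), by
    rw [← map_nsmul, ← Pi.single_smul, nsmul_one, ZMod.natCast_self, Pi.single_zero, map_zero]⟩)
    ⟨fun f g h => AddMonoidHom.functions_ext _ _ _ fun l x => ?_, fun g => ?_⟩
  · obtain ⟨k, rfl⟩ := ZMod.intCast_surjective x
    rw [← zsmul_one, Pi.single_smul, map_zsmul, map_zsmul]
    exact congrArg _ (congrArg Subtype.val (congrFun h l))
  · refine ⟨∑ l, (ZMod.lift (n l) ⟨zmultiplesHom X (g l), by simp⟩).comp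
      (Pi.evalAddMonoidHom _ l), funext fun l => Subtype.ext ?_⟩
    simp only [AddMonoidHom.finsetSum_apply, AddMonoidHom.comp_apply, Pi.evalAddMonoidHom_apply]
    rw [Finset.sum_eq_single l (fun j _ h => by rw [Pi.single_eq_of_ne h, map_zero]) (by simp),
      Pi.single_eq_same, ← Int.cast_one, ZMod.lift_coe]
    simp

theorem hesg1_str (p : ℕ) [hp : Fact p.Prime] (N : Type) [AddCommGroup N] [Finite N] (H d : ℕ)
    (h : ∀ x : N, p ^ H • x = 0) (hd : Nat.card {x : N // p ^ 1 • x = 0} ≤ p ^ d) :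
    ∃ t : Σ r : Fin (d + 1), Fin r → Fin (H + 1),
      Nonempty ((∀ l, ZMod (p ^ (t.2 l : ℕ))) ≃+ N) := by
  classical
  obtain ⟨ι, _, n, h1, ⟨f⟩⟩ := AddCommGroup.equiv_directSum_zmod_of_finite' N
  replace f := f.trans (DirectSum.addEquivProd _)
  have : ∀ i, ∃ k ≤ H, n i = p ^ k := fun i => (Nat.dvd_prime_pow hp.out).1 (by
    have := congrFun (congrArg f (h (f.symm (Pi.single i 1)))) i
    rw [map_nsmul, f.apply_symm_apply, map_zero, Pi.smul_apply, Pi.single_eq_same, nsmul_one]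
      at this
    exact (ZMod.natCast_eq_zero_iff _ _).1 this)
  choose e he hn using this
  obtain rfl : n = fun i => p ^ e i := funext hn
  have k := (hesg1_inj f.symm.toAddMonoidHom f.symm.injective _).trans hd
  rw [hesg1_tor, pow_le_pow_iff_right₀ hp.out.one_lt, Finset.sum_congr rfl fun i _ =>
    min_eq_left (Nat.pos_of_ne_zero fun e0 => by simpa [e0] using h1 i)] at k
  simp only [Finset.sum_const, Finset.card_univ, smul_eq_mul, mul_one] at k
  exact ⟨⟨⟨Fintype.card ι, by omega⟩, fun l => ⟨e ((Fintype.equivFin ι).symm l), by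
    have := he ((Fintype.equivFin ι).symm l); omega⟩⟩,
    ⟨(RingEquiv.piCongrLeft' (fun i => ZMod (p ^ e i))
      (Fintype.equivFin ι)).symm.toAddEquiv.trans f.symm⟩⟩

theorem hesg1_cnt {A M : Type} [AddCommGroup A] [AddCommGroup M] [Finite A] [Finite M]
    (S : Finset (AddSubgroup M)) (h : ∀ N ∈ S, Nonempty (A ≃+ N)) :
    S.card * Nat.card (A ≃+ A) ≤ Nat.card (A →+ M) := by
  have : Finite (A →+ M) := Finite.of_injective _ DFunLike.coe_injective
  have f := fun N : S => (h N N.2).some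
  rw [← Nat.card_eq_finsetCard, ← Nat.card_prod]
  refine Nat.card_le_card_of_injective (fun x => x.1.1.subtype.comp
    ((f x.1).toAddMonoidHom.comp x.2.toAddMonoidHom)) ?_
  rintro ⟨N, α⟩ ⟨N', β⟩ e
  have k : ∀ (N : S) (α : A ≃+ A), (N.1.subtype.comp
      ((f N).toAddMonoidHom.comp α.toAddMonoidHom)).range = N := fun N α => by
    rw [AddMonoidHom.range_comp, AddMonoidHom.range_eq_top.2 ((f N).surjective.comp α.surjective),
      ← AddMonoidHom.range_eq_map, AddSubgroup.range_subtype]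
  obtain rfl : N = N' := Subtype.ext ((k N α).symm.trans ((congrArg _ e).trans (k N' β)))
  exact Prod.ext rfl (AddEquiv.ext fun x => (f N).injective (Subtype.ext (DFunLike.congr_fun e x)))

/-- the number of subgroups of a finite abelian `p`-group -/
theorem sub_count (d : ℕ) : ∃ w : ℝ, 0 ≤ w ∧ ∀ (p : ℕ) [Fact p.Prime] (M : Type) [AddCommGroup M]
    [Finite M] (H : ℕ) (c : Fin d → ℝ), (∀ i, 0 ≤ c i) → (∀ x : M, p ^ H • x = 0) →
    (∀ a : ℕ, (Nat.card {x : M // p ^ a • x = 0} : ℝ) ≤ (p : ℝ) ^ (∑ i, min (a : ℝ) (c i))) →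
    (Nat.card (AddSubgroup M) : ℝ) ≤
      w * ((H : ℝ) + 1) ^ d * (p : ℝ) ^ ((∑ i, ∑ j, min (c i) (c j)) / 4) := by
  obtain ⟨w, hw⟩ := end_le_aut d
  refine ⟨w * (d + 1), by positivity, fun p hp M _ _ H c hc hH hM => ?_⟩
  classical
  have := Fintype.ofFinite (AddSubgroup M)
  have p1 : (1 : ℝ) ≤ p := by exact_mod_cast hp.out.one_le
  have p0 : (0 : ℝ) < p := by linarith
  have hd : Nat.card {x : M // p ^ 1 • x = 0} ≤ p ^ d := by
    have := (hM 1).trans (Real.rpow_le_rpow_of_exponent_le p1 (z := (d : ℕ))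
      ((Finset.sum_le_card_nsmul _ _ 1 fun i _ => by simp).trans (by simp)))
    exact_mod_cast this
  choose t ht using fun N : AddSubgroup M => hesg1_str p N H d
    (fun x => Subtype.ext (hH x)) ((hesg1_inj N.subtype N.subtype_injective _).trans hd)
  have key : ∀ u : Σ r : Fin (d + 1), Fin r → Fin (H + 1),
      ((Finset.univ.filter fun N => t N = u).card : ℝ) ≤
        w * (p : ℝ) ^ ((∑ i, ∑ j, min (c i) (c j)) / 4) := fun u => by
    rcases (Finset.univ.filter fun N => t N = u).eq_empty_or_nonempty with e | ⟨N, hN⟩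
    · rw [e]
      simp only [Finset.card_empty, Nat.cast_zero]
      positivity
    have h1 := hesg1_cnt (A := ∀ l, ZMod (p ^ (u.2 l : ℕ))) (Finset.univ.filter fun N => t N = u)
      fun N hN => (Finset.mem_filter.1 hN).2 ▸ ht N
    obtain ⟨f⟩ : Nonempty ((∀ l, ZMod (p ^ (u.2 l : ℕ))) ≃+ N) :=
      (Finset.mem_filter.1 hN).2 ▸ ht N
    have h2 := hw p (∀ l, ZMod (p ^ (u.2 l : ℕ))) H
      (fun x => f.injective (by rw [map_nsmul, map_zero]; exact Subtype.ext (hH _)))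
      ((hesg1_inj (N.subtype.comp f.toAddMonoidHom)
        (N.subtype_injective.comp f.injective) _).trans (by rwa [pow_one] at hd))
    rw [hesg1_hom] at h1 h2
    simp only [hesg1_tor, Finset.prod_pow_eq_pow_sum] at h2
    have h3 := ((Nat.mul_le_mul_left _ h2).trans_eq (mul_left_comm _ _ _)).trans
      (Nat.mul_le_mul_left w h1)
    have h4 : ((∏ l, Nat.card {x : M // p ^ (u.2 l : ℕ) • x = 0} : ℕ) : ℝ) ≤
        (p : ℝ) ^ ∑ l, ∑ i, min ((u.2 l : ℕ) : ℝ) (c i) := by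
      rw [Real.rpow_sum_of_pos p0, Nat.cast_prod]
      exact Finset.prod_le_prod (fun _ _ => by positivity) fun l _ => hM _
    have h5 := min_psd (Sum.elim (fun l => ((u.2 l : ℕ) : ℝ)) c)
      (Sum.elim (fun _ => 1) fun _ => -1 / 2) (by rintro (l | l); exacts [Nat.cast_nonneg _, hc l])
    simp only [Fintype.sum_sum_type, Sum.elim_inl, Sum.elim_inr, Finset.sum_add_distrib,
      ← Finset.mul_sum] at h5
    rw [Finset.sum_comm (f := fun i l => min (c i) ((u.2 l : ℕ) : ℝ))] at h5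
    simp only [min_comm (c _) ((u.2 _ : ℕ) : ℝ)] at h5
    refine le_of_mul_le_mul_right ?_ (Real.rpow_pos_of_pos p0
      (∑ l, ∑ j, min ((u.2 l : ℕ) : ℝ) ((u.2 j : ℕ) : ℝ)))
    rw [mul_assoc, ← Real.rpow_add p0]
    refine le_trans ?_ (mul_le_mul_of_nonneg_left (h4.trans
      (Real.rpow_le_rpow_of_exponent_le p1 (by linarith))) w.cast_nonneg)
    exact_mod_cast h3
  rw [Nat.card_eq_fintype_card, ← Finset.card_univ,
    Finset.card_eq_sum_card_fiberwise (f := t) (t := Finset.univ) fun _ _ => Finset.mem_univ _,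
    Nat.cast_sum]
  refine (Finset.sum_le_card_nsmul _ _ _ fun u _ => key u).trans ?_
  have h6 : Fintype.card (Σ r : Fin (d + 1), Fin r → Fin (H + 1)) ≤ (d + 1) * (H + 1) ^ d := by
    rw [Fintype.card_sigma]
    refine (Finset.sum_le_card_nsmul _ _ ((H + 1) ^ d) fun r _ => ?_).trans (by simp)
    rw [Fintype.card_fun, Fintype.card_fin, Fintype.card_fin]
    exact Nat.pow_le_pow_right (by omega) (by omega)
  rw [nsmul_eq_mul, Finset.card_univ, ← mul_assoc, mul_comm _ (w : ℝ), mul_assoc (w : ℝ) (d + 1)]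
  gcongr
  exact_mod_cast h6

end Pool.Agent.MP_8299d6_al.Up

end
end

section

open Matrix Polynomial

noncomputable section

namespace Pool.Agent.MP_8299d6_al.Up

section
variable {p : ℕ} [Fact p.Prime] {d : ℕ} {φ : Gp p →* Equiv.Perm (Fin d)}

/-- the quotient of the unit box by a smaller box is a ring -/
lemma hesg3_ring (b : Fin d → Cp p) :
    ∃ (M : Type) (_ : CommRing M) (f : Box φ 1 →+ M), Function.Surjective f ∧
      f.ker = (Box φ b).addSubgroupOf (Box φ 1) ∧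
      ∀ (e : ℕ) (h : (fun _ => (p : Cp p) ^ e) ∈ Box φ 1), f ⟨_, h⟩ = (p : M) ^ e := by
  let O : Subring (Fin d → Cp p) :=
    { Box φ 1 with
      one_mem' := ⟨one_mem _, fun _ => le_rfl⟩
      mul_mem' := fun {x y} hx hy => ⟨mul_mem hx.1 hy.1, fun i => by
        have h1 := hx.2 i
        have h2 := hy.2 i
        rw [Pi.one_apply, norm_one] at h1 h2 ⊢
        rw [Pi.mul_apply, norm_mul]
        exact mul_le_one₀ h1 (norm_nonneg _) h2⟩ }
  let I : Ideal O :=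
    { carrier := {x | x.1 ∈ Box φ b}
      zero_mem' := zero_mem (Box φ b)
      add_mem' := fun hx hy => (Box φ b).add_mem hx hy
      smul_mem' := fun x y hy => ⟨mul_mem x.2.1 y.2.1, fun i => by
        have h1 := x.2.2 i
        rw [Pi.one_apply, norm_one] at h1
        refine le_trans ?_ (hy.2 i)
        show ‖x.1 i * y.1 i‖ ≤ _
        rw [norm_mul]
        exact mul_le_of_le_one_left (norm_nonneg _) h1⟩ }
  refine ⟨O ⧸ I, inferInstance, ((Ideal.Quotient.mk I).toAddMonoidHom : O →+ O ⧸ I),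
    Ideal.Quotient.mk_surjective (I := I), ?_, fun e h => ?_⟩
  · exact AddSubgroup.ext fun x : O => Ideal.Quotient.eq_zero_iff_mem (I := I) (a := x)
  · have : (⟨_, h⟩ : O) = (p : O) ^ e := Subtype.ext (by
      funext i
      simp)
    exact (congrArg (Ideal.Quotient.mk I) this).trans (by rw [map_pow, map_natCast])

lemma hesg3_smul (a : ℕ) (y : Fin d → Cp p) (i : Fin d) :
    ‖(p ^ a • y) i‖ = (p : ℝ) ^ (-(a : ℝ)) * ‖y i‖ := by
  rw [Pi.smul_apply, nsmul_eq_mul, norm_mul, Nat.cast_pow, norm_p_pow]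

/-- the box that maps onto the torsion of level `a` -/
lemma hesg3_box {b : Fin d → Cp p} (hb : b ∈ FF φ) {c : Fin d → ℝ}
    (hbc : ∀ i, ‖b i‖ = (p : ℝ) ^ (-c i)) (a : ℕ) :
    ∃ b' ∈ FF φ, ∀ i, ‖b' i‖ = (p : ℝ) ^ (min (a : ℝ) (c i)) * ‖b i‖ := by
  have hp : (1 : ℝ) < p := by exact_mod_cast (Fact.out : p.Prime).one_lt
  have hp0 : (0 : ℝ) < p := by linarith
  refine ⟨fun i => if ‖b i‖ ≤ ‖(p : Cp p) ^ a‖ then b i / (p : Cp p) ^ a else 1, fun σ i => ?_,
    fun i => ?_⟩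
  · beta_reduce
    rw [ga_norm hb]
    split_ifs
    · rw [map_div₀, hb σ i, map_pow, map_natCast]
    · exact map_one σ
  · beta_reduce
    split_ifs with h
    · rw [hbc, norm_p_pow, Real.rpow_le_rpow_left_iff hp, neg_le_neg_iff] at h
      rw [min_eq_left h, norm_div, norm_p_pow, Real.rpow_neg hp0.le, div_inv_eq_mul, mul_comm]
    · rw [hbc, norm_p_pow, Real.rpow_le_rpow_left_iff hp, neg_le_neg_iff, not_le] at h
      rw [min_eq_right h.le, hbc, ← Real.rpow_add hp0, add_neg_cancel, Real.rpow_zero, norm_one]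

lemma hesg3_tors {B : Mat d (Cp p)} (hB0 : B.det ≠ 0) (hB : Box φ 1 = Latt B)
    {b : Fin d → Cp p} (hb : b ∈ FF φ) {c : Fin d → ℝ} (hc : ∀ i, 0 ≤ c i)
    (hbc : ∀ i, ‖b i‖ = (p : ℝ) ^ (-c i)) {M : Type} [AddCommGroup M] {f : Box φ 1 →+ M}
    (hf : Function.Surjective f) (hk : f.ker = (Box φ b).addSubgroupOf (Box φ 1)) (a : ℕ) :
    Finite {x : M // p ^ a • x = 0} ∧
      (Nat.card {x : M // p ^ a • x = 0} : ℝ) ≤ (p : ℝ) ^ (∑ i, min (a : ℝ) (c i)) := by
  have hp : (1 : ℝ) < p := by exact_mod_cast (Fact.out : p.Prime).one_lt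
  have hp0 : (0 : ℝ) < p := by linarith
  obtain ⟨b', hb', hn⟩ := hesg3_box hb hbc a
  have hpos : ∀ i, 0 < ‖b i‖ := fun i => by rw [hbc]; positivity
  have h1 := box_index hB0 hB hb' hb (fun i => norm_pos_iff.1 (hpos i)) fun i => by
    rw [hn]
    exact le_mul_of_one_le_left (norm_nonneg _)
      (Real.one_le_rpow hp.le (le_min (Nat.cast_nonneg _) (hc i)))
  simp only [hn] at h1
  rw [Finset.prod_mul_distrib, ← Real.rpow_sum_of_pos hp0] at h1
  have h2 := mul_right_cancel₀ (Finset.prod_pos fun i _ => hpos i).ne' h1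
  have hle : Box φ b' ≤ Box φ 1 := fun x hx => ⟨hx.1, fun i => (hx.2 i).trans (by
    rw [hn, hbc, ← Real.rpow_add hp0, Pi.one_apply, norm_one]
    exact Real.rpow_le_one_of_one_le_of_nonpos hp.le (by linarith [min_le_right (a : ℝ) (c i)]))⟩
  rw [← AddSubgroup.relIndex_addSubgroupOf hle, ← hk, AddSubgroup.relIndex_ker] at h2
  have hfin : Finite (((Box φ b').addSubgroupOf (Box φ 1)).map f) :=
    Nat.finite_of_card_ne_zero fun h0 => by
      rw [h0, Nat.cast_zero] at h2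
      exact (Real.rpow_pos_of_pos hp0 _).ne h2
  have hm : ∀ x : M, p ^ a • x = 0 → x ∈ ((Box φ b').addSubgroupOf (Box φ 1)).map f := by
    intro x hx
    obtain ⟨y, rfl⟩ := hf x
    refine AddSubgroup.mem_map_of_mem f ⟨y.2.1, fun i => ?_⟩
    rw [← map_nsmul, ← AddMonoidHom.mem_ker, hk] at hx
    have e1 : ‖(p ^ a • y.1) i‖ ≤ ‖b i‖ := hx.2 i
    have e2 : ‖y.1 i‖ ≤ 1 := by simpa using y.2.2 i
    rw [hesg3_smul, Real.rpow_neg hp0.le, inv_mul_le_iff₀ (by positivity)] at e1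
    show ‖y.1 i‖ ≤ _
    rw [hn]
    rcases le_total (a : ℝ) (c i) with h | h
    · rwa [min_eq_left h]
    · rwa [min_eq_right h, hbc, ← Real.rpow_add hp0, add_neg_cancel, Real.rpow_zero]
  let g : {x : M // p ^ a • x = 0} → ((Box φ b').addSubgroupOf (Box φ 1)).map f :=
    fun x => ⟨x.1, hm x.1 x.2⟩
  have hg : Function.Injective g := fun x y e => Subtype.ext (congrArg Subtype.val e :)
  refine ⟨Finite.of_injective g hg, ?_⟩
  rw [← h2]
  exact_mod_cast Nat.card_le_card_of_injective g hg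

end

/-- the sum of the indices of the lattices between two boxes -/
theorem lat_sum (d : ℕ) : ∃ w : ℝ, 0 ≤ w ∧ ∀ (p : ℕ) [Fact p.Prime]
    (φ : Gp p →* Equiv.Perm (Fin d)) (B : Mat d (Cp p)), B.det ≠ 0 → Box φ 1 = Latt B →
    ∀ b ∈ FF φ, ∀ (c : Fin d → ℝ) (H e : ℕ), (∀ i, 0 ≤ c i) → (∀ i, c i ≤ H) →
    (∀ i, ‖b i‖ = (p : ℝ) ^ (-c i)) → ∀ S : Finset (AddSubgroup (Fin d → Cp p)),
    (∀ Λ ∈ S, Box φ b ≤ Λ ∧ Λ ≤ Box φ 1 ∧ (fun _ => (p : Cp p) ^ e) ∈ Λ) →
    ∑ Λ ∈ S, (Λ.relIndex (Box φ 1) : ℝ) ≤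
      w * (p : ℝ) ^ (e * d) * ((H : ℝ) + 1) ^ d *
        (p : ℝ) ^ ((∑ i, ∑ j, min (c i) (c j)) / 4) := by
  classical
  obtain ⟨w₁, h₁⟩ := units_dense d
  obtain ⟨w₂, hw₂, h₂⟩ := sub_count d
  refine ⟨w₁ * w₂, by positivity, fun p _ φ B hB0 hB b hb c H e hc hH hbc S hS => ?_⟩
  have hp : (1 : ℝ) < p := by exact_mod_cast (Fact.out : p.Prime).one_lt
  obtain ⟨M, _, f, hf, hk, he⟩ := hesg3_ring (φ := φ) b
  have ht := hesg3_tors hB0 hB hb hc hbc hf hk
  have hkill : ∀ x : M, p ^ H • x = 0 := fun x => by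
    obtain ⟨y, rfl⟩ := hf x
    rw [← map_nsmul, ← AddMonoidHom.mem_ker, hk]
    refine ⟨nsmul_mem y.2.1 _, fun i => ?_⟩
    show ‖(p ^ H • y.1) i‖ ≤ _
    have e2 : ‖y.1 i‖ ≤ 1 := by simpa using y.2.2 i
    rw [hesg3_smul, hbc]
    exact (mul_le_of_le_one_right (by positivity) e2).trans
      (Real.rpow_le_rpow_of_exponent_le hp.le (neg_le_neg (hH i)))
  have : Finite M := by
    have := (ht H).1
    exact Finite.of_surjective (Subtype.val : {x : M // p ^ H • x = 0} → M)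
      fun x => ⟨⟨x, hkill x⟩, rfl⟩
  have ht' : ∀ a : ℕ, Nat.card {x : M // p ^ a • x = 0} ≤ p ^ (a * d) := fun a => by
    have h := (ht a).2.trans (Real.rpow_le_rpow_of_exponent_le (z := ((a * d : ℕ) : ℝ)) hp.le (by
      refine (Finset.sum_le_sum fun i _ => min_le_left (a : ℝ) (c i)).trans ?_
      simp [mul_comm]))
    rw [Real.rpow_natCast] at h
    exact_mod_cast h
  have a1 := h₁ p M H hkill (by simpa using ht' 1)
  have a2 := h₂ p M H c hc hkill fun a => (ht a).2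
  let F : AddSubgroup (Fin d → Cp p) → AddSubgroup M := fun Λ => (Λ.addSubgroupOf (Box φ 1)).map f
  have hker : ∀ Λ ∈ S, f.ker ≤ Λ.addSubgroupOf (Box φ 1) := fun Λ hΛ x hx => by
    rw [hk] at hx
    exact (hS Λ hΛ).1 hx
  have hF : Set.InjOn F S := fun Λ hΛ Λ' hΛ' h => by
    have h3 := congrArg (AddSubgroup.comap f) h
    simp only [F] at h3
    rw [AddSubgroup.comap_map_eq_self (hker Λ hΛ), AddSubgroup.comap_map_eq_self (hker Λ' hΛ'),
      AddSubgroup.addSubgroupOf_inj, inf_eq_left.2 (hS Λ hΛ).2.1,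
      inf_eq_left.2 (hS Λ' hΛ').2.1] at h3
    exact h3
  have a3 := unit_avg M ((p : M) ^ e) (S.image F) fun Λ' hΛ' => by
    obtain ⟨Λ, hΛ, rfl⟩ := Finset.mem_image.1 hΛ'
    rw [← he e ((hS Λ hΛ).2.1 (hS Λ hΛ).2.2)]
    exact AddSubgroup.mem_map_of_mem f (hS Λ hΛ).2.2
  have a4 : ∑ Λ ∈ S, (F Λ).index = ∑ Λ ∈ S, Λ.relIndex (Box φ 1) :=
    Finset.sum_congr rfl fun Λ hΛ => AddSubgroup.index_map_eq _ hf (hker Λ hΛ)
  have a5 : Nat.card {x : M // x * (p : M) ^ e = 0} ≤ p ^ (e * d) := by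
    have := ht' e
    simpa only [nsmul_eq_mul, Nat.cast_pow, mul_comm] using this
  rw [Finset.sum_image hF, a4] at a3
  have a6 : ∑ Λ ∈ S, Λ.relIndex (Box φ 1) ≤ w₁ * p ^ (e * d) * Nat.card (AddSubgroup M) := by
    refine le_of_mul_le_mul_right (a3.trans ?_) (Nat.card_pos (α := Mˣ))
    calc _ ≤ w₁ * Nat.card Mˣ * p ^ (e * d) * Nat.card (AddSubgroup M) := by gcongr
      _ = _ := by ring
  calc _ ≤ (w₁ : ℝ) * (p : ℝ) ^ (e * d) * Nat.card (AddSubgroup M) := by exact_mod_cast a6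
    _ ≤ (w₁ : ℝ) * (p : ℝ) ^ (e * d) * (w₂ * ((H : ℝ) + 1) ^ d *
        (p : ℝ) ^ ((∑ i, ∑ j, min (c i) (c j)) / 4)) := by gcongr
    _ = _ := by ring

end Pool.Agent.MP_8299d6_al.Up

end
end

section

open Matrix Polynomial

noncomputable section

namespace Pool.Agent.MP_8299d6_al.Up

lemma hetc_count {Z A B : Type} [Fintype Z] [DecidableEq A] [DecidableEq B] (f : Z → A)
    (g : Z → B) (a : B → ℝ) (ha : ∀ b, 0 ≤ a b)
    (h : ∀ z₀, (Nat.card {z // f z = f z₀ ∧ g z = g z₀} : ℝ) ≤ a (g z₀)) :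
    (Nat.card Z : ℝ) ≤ (Finset.univ.image f).card * ∑ b ∈ Finset.univ.image g, a b := by
  have h1 := Finset.card_eq_sum_card_fiberwise (f := fun z => (f z, g z)) (s := Finset.univ)
    (t := Finset.univ.image f ×ˢ Finset.univ.image g) (fun z _ => by simp)
  rw [Nat.card_eq_fintype_card, ← Finset.card_univ, h1, Nat.cast_sum]
  refine (Finset.sum_le_sum (g := fun x => a x.2) (fun x _ => ?_)).trans (le_of_eq ?_)
  · rcases (Finset.univ.filter (fun z => (f z, g z) = x)).eq_empty_or_nonempty with e | ⟨z₀, hz⟩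
    · rw [e]
      simpa using ha _
    · obtain rfl := (Finset.mem_filter.1 hz).2
      refine le_trans (le_of_eq ?_) (h z₀)
      rw [Nat.card_eq_fintype_card, Fintype.card_subtype]
      simp
  · rw [Finset.sum_product]
    simp

lemma hetc_prodD {d : ℕ} (hd : 2 ≤ d) {q : ℝ} (hq : 0 < q) {G : Fin d → Fin d → ℕ}
    (hG : ∀ i, G i i = 0) (F N : ℝ) (x : Fin d → Fin d → ℝ)
    (hx : ∀ i j, i ≠ j → x i j = q ^ ((G i j : ℝ) / F - N)) :
    ∏ i, ∏ j ∈ Finset.univ.erase i, x i j = q ^ ((tyD G : ℝ) / F - d * (d - 1) * N) := by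
  have h1 : ∀ i, ∏ j ∈ Finset.univ.erase i, x i j =
      q ^ ((∑ j, (G i j : ℝ)) / F - (d - 1) * N) := fun i => by
    rw [Finset.prod_congr rfl (fun j hj => hx i j (Finset.ne_of_mem_erase hj).symm),
      ← Real.rpow_sum_of_pos hq, Finset.sum_sub_distrib, ← Finset.sum_div,
      Finset.sum_erase _ (by simp [hG i]), Finset.sum_const,
      Finset.card_erase_of_mem (Finset.mem_univ i), Finset.card_univ, Fintype.card_fin,
      nsmul_eq_mul, Nat.cast_pred (by omega)]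
  rw [Finset.prod_congr rfl (fun i _ => h1 i), ← Real.rpow_sum_of_pos hq, Finset.sum_sub_distrib,
    ← Finset.sum_div, Finset.sum_const, Finset.card_univ, Fintype.card_fin, nsmul_eq_mul, tyD,
    mul_assoc]
  push_cast
  rfl

lemma hetc_prodT {d : ℕ} (hd : 2 ≤ d) {q : ℝ} (hq : 0 < q) (G : Fin d → Fin d → ℕ)
    (par : Fin d → Fin d) (F N : ℝ) :
    ∏ i ∈ Finset.univ.filter (fun i : Fin d => 0 < i.val), q ^ ((G i (par i) : ℝ) / F - N) =
      q ^ ((tyT G par : ℝ) / F - (d - 1) * N) := by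
  have h1 : (Finset.univ.filter (fun i : Fin d => 0 < i.val)).card = d - 1 := by
    have e : Finset.univ.filter (fun i : Fin d => 0 < i.val) =
        Finset.univ.erase ⟨0, by omega⟩ := by
      ext i
      simp [Fin.ext_iff, Nat.pos_iff_ne_zero]
    rw [e, Finset.card_erase_of_mem (Finset.mem_univ _), Finset.card_univ, Fintype.card_fin]
  rw [← Real.rpow_sum_of_pos hq, Finset.sum_sub_distrib, ← Finset.sum_div, Finset.sum_const, h1,
    nsmul_eq_mul, Nat.cast_pred (by omega), tyT]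
  push_cast
  rfl

lemma hetc_min {d : ℕ} (c : Fin d → ℕ) {F : ℝ} (hF : 0 ≤ F) :
    ∑ i, ∑ j, min ((c i : ℝ) / F) ((c j : ℝ) / F) = (tyQ c : ℝ) / F := by
  simp only [min_div_div_right hF, tyQ, Nat.cast_sum, Nat.cast_min, Finset.sum_div]

/-- the number of pairs of a given type -/
theorem type_count (d : ℕ) (hd : 2 ≤ d) : ∃ w : ℝ, 0 ≤ w ∧ ∀ (p : ℕ) [Fact p.Prime] (k e : ℕ),
    ∃ K₀ : ℕ, ∀ K, K₀ ≤ K → ∀ (φ : Gp p →* Equiv.Perm (Fin d)) (B : Mat d (Cp p)), B.det ≠ 0 →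
    Box φ 1 = Latt B → ∀ (G : Fin d → Fin d → ℕ) (c : Fin d → ℕ), Ty G c →
    ∀ par : Fin d → Fin d, (∀ i, 0 < i.val → par i < i) →
    (Nat.card {z : Mat d (ZMod (p ^ K)) × (Fin d → ZMod (p ^ K)) //
      HasT k e φ G c (lftM z.1) (lftV z.2)} : ℝ) * ‖B.det‖ ≤
      w * (p : ℝ) ^ ((K : ℝ) * (d ^ 2 + d) - k * (d ^ 2 - 1)) * ((tyR G : ℝ) + 1) ^ d *
        (p : ℝ) ^ (((tyT G par : ℝ) + tyD G + tyQ c / 4) / d.factorial) := by
  classical
  obtain ⟨w, hw, hlat⟩ := lat_sum d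
  refine ⟨w, hw, fun p _ k e => ?_⟩
  obtain ⟨M, hM⟩ : ∃ M, M = (k + 2 * e) * (d ^ 2 + 1) + 1 := ⟨_, rfl⟩
  refine ⟨e + M + (k + 2 * e) * d, fun K hK φ B hB0 hB G c hT par hpar => ?_⟩
  have hp1 : (1 : ℝ) ≤ p := by exact_mod_cast (Fact.out : p.Prime).one_le
  have hp : (0 : ℝ) < p := one_pos.trans_le hp1
  have hF : (1 : ℝ) ≤ d.factorial := by exact_mod_cast d.factorial_pos
  have hF0 : (0 : ℝ) ≤ d.factorial := by positivity
  have : Nontrivial (Fin d) := Fin.nontrivial_iff_two_le.2 hd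
  set Z := {z : Mat d (ZMod (p ^ K)) × (Fin d → ZMod (p ^ K)) //
    HasT k e φ G c (lftM z.1) (lftV z.2)}
  rcases isEmpty_or_nonempty Z with hZ | ⟨⟨z₁⟩⟩
  · rw [Nat.card_of_isEmpty, Nat.cast_zero, zero_mul]
    positivity
  have : Fintype Z := Fintype.ofFinite Z
  choose t P U b hgd ht hb hG hc hbox using fun z : Z => z.2
  let s : Setoid Z := ⟨fun z z' => ∀ i, ‖t z i - t z' i‖ ≤ (p : ℝ) ^ (-(M : ℝ)),
    fun z i => by rw [sub_self, norm_zero]; positivity,
    fun h i => by rw [norm_sub_rev]; exact h i,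
    fun {x y z} h h' i => by
      rw [← sub_add_sub_cancel _ (t y i)]
      exact (IsUltrametricDist.norm_add_le_max _ _).trans (max_le (h i) (h' i))⟩
  let f : Z → Fin d → Cp p := fun z => t (Quotient.mk s z).out
  let g : Z → AddSubgroup (Fin d → Cp p) := fun z => Latt ((p : Cp p) ^ e • P z)
  have hfs : ∀ z z', (∀ i, ‖f z i - f z' i‖ ≤ (p : ℝ) ^ (-(M : ℝ))) → s z z' := fun z z' h =>
    s.trans (s.symm (Quotient.mk_out z)) (s.trans h (Quotient.mk_out z'))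
  obtain ⟨C, hC⟩ : ∃ C : ℝ, C = (p : ℝ) ^ ((K : ℝ) * d ^ 2 + (K - M) * d) *
    (p : ℝ) ^ ((tyD G : ℝ) / d.factorial - d * (d - 1) * (k + 2 * e)) *
      ((p : ℝ) ^ (-(e : ℝ))) ^ d := ⟨_, rfl⟩
  have hC0 : 0 ≤ C := by rw [hC]; positivity
  have h1 := hetc_count f g (fun Λ => C * (Λ.relIndex (Box φ 1) : ℝ)) (fun _ => by positivity)
    (fun z₀ => by
      have hP : (P z₀).det ≠ 0 := det_ne_zero_of_right_inverse (hgd z₀).inv
      have hP' : ‖((p : Cp p) ^ e • P z₀).det‖ = ((p : ℝ) ^ (-(e : ℝ))) ^ d * ‖(P z₀).det‖ := by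
        rw [det_smul, norm_mul, norm_pow, norm_p_pow, Fintype.card_fin]
      have hP0 : 0 < ‖(P z₀).det‖ := norm_pos_iff.2 hP
      have hi := (lat_index (X := B) (Y := (p : Cp p) ^ e • P z₀)
        (by rw [← norm_pos_iff, hP']; positivity) (hB ▸ ((hgd z₀).latt (ht z₀)).1)).1
      have hcell := cell_count hd hM.ge hK hB0 hB (hgd z₀) (ht z₀)
      rw [hetc_prodD hd hp hT.diag _ _ _ (hG z₀), ← hi, hP', ← hB] at hcell
      have hle := Nat.card_le_card_of_injective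
        (β := {z : Mat d (ZMod (p ^ K)) × (Fin d → ZMod (p ^ K)) //
          ∃ (t' : Fin d → Cp p) (P' U' : Mat d (Cp p)), GD k e (lftM z.1) (lftV z.2) t' P' U' ∧
            (∀ i, ‖t' i - t z₀ i‖ ≤ (p : ℝ) ^ (-(M : ℝ))) ∧
            Latt ((p : Cp p) ^ e • P') = Latt ((p : Cp p) ^ e • P z₀)})
        (fun z : {z // f z = f z₀ ∧ g z = g z₀} => ⟨z.1.1, t z.1, P z.1, U z.1, hgd z.1,
          hfs _ _ (fun i => by rw [z.2.1, sub_self, norm_zero]; positivity), z.2.2⟩)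
        (fun x y h => Subtype.ext (Subtype.ext (Subtype.mk.inj h)))
      refine le_of_mul_le_mul_right (((mul_le_mul_of_nonneg_right (Nat.cast_le.2 hle)
        hP0.le).trans hcell).trans (le_of_eq ?_)) hP0
      rw [hC]
      ring)
  have h2 := t_classes hB0 hB M
    (fun i j => (p : ℝ) ^ ((G i j : ℝ) / d.factorial - (k + 2 * e))) par hpar
    (fun i j _ => Real.rpow_le_rpow_of_exponent_le hp1 (by
      have a1 : (0 : ℝ) ≤ (G i j : ℝ) / d.factorial := by positivity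
      have a2 : k + 2 * e ≤ M := by rw [hM]; nlinarith [Nat.zero_le ((k + 2 * e) * d ^ 2)]
      have a3 : (k : ℝ) + 2 * e ≤ M := by exact_mod_cast a2
      linarith)) (Finset.univ.image f)
    (fun τ hτ => by
      obtain ⟨z, -, rfl⟩ := Finset.mem_image.1 hτ
      exact ⟨⟨ht _, fun i => by simpa using (hgd _).norm_t i⟩, fun i j hij => (hG _ i j hij).le⟩)
    (fun τ hτ τ' hτ' h => by
      obtain ⟨z, -, rfl⟩ := Finset.mem_image.1 hτ
      obtain ⟨z', -, rfl⟩ := Finset.mem_image.1 hτ'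
      simp only [f]
      rw [Quotient.sound (hfs z z' h)])
  rw [hetc_prodT hd hp] at h2
  have h3 := hlat p φ B hB0 hB (b z₁) (hb z₁) (fun i => (c i : ℝ) / d.factorial) (tyR G) e
    (fun i => by positivity)
    (fun i => by
      obtain ⟨j, hj⟩ := exists_ne i
      have a1 : c i ≤ tyR G := (hT.le i j hj.symm).trans
        (Finset.le_sup (f := fun z : Fin d × Fin d => G z.1 z.2) (Finset.mem_univ (i, j)))
      exact (div_le_self (by positivity) hF).trans (by exact_mod_cast a1))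
    (hc z₁) (Finset.univ.image g)
    (fun Λ hΛ => by
      obtain ⟨z, -, rfl⟩ := Finset.mem_image.1 hΛ
      refine ⟨fun a ha => hbox z ⟨ha.1, fun i => ?_⟩, (hgd z).latt (ht z)⟩
      rw [hc z, ← hc z₁]
      exact ha.2 i)
  rw [hetc_min c hF0] at h3
  rw [← Finset.mul_sum] at h1
  have h4 := mul_le_mul h2 (mul_le_mul_of_nonneg_left h3 hC0) (by positivity) (by positivity)
  refine ((mul_le_mul_of_nonneg_right h1 (norm_nonneg _)).trans
    ((le_of_eq (mul_right_comm _ _ _)).trans h4)).trans ?_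
  have h5 : (p : ℝ) ^ (M * d) *
      (p : ℝ) ^ ((tyT G par : ℝ) / d.factorial - (d - 1) * (k + 2 * e)) * C * (p : ℝ) ^ (e * d) *
      (p : ℝ) ^ ((tyQ c : ℝ) / d.factorial / 4) ≤
      (p : ℝ) ^ ((K : ℝ) * (d ^ 2 + d) - k * (d ^ 2 - 1)) *
        (p : ℝ) ^ (((tyT G par : ℝ) + tyD G + tyQ c / 4) / d.factorial) := by
    rw [hC, ← Real.rpow_natCast _ d, ← Real.rpow_mul hp.le, ← Real.rpow_natCast _ (M * d),
      ← Real.rpow_natCast _ (e * d)]
    simp only [← Real.rpow_add hp]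
    refine Real.rpow_le_rpow_of_exponent_le hp1 ?_
    have a1 : (2 : ℝ) ≤ d := by exact_mod_cast hd
    have a2 : (0 : ℝ) ≤ e * (d ^ 2 - 1) := mul_nonneg (by positivity) (by nlinarith)
    rw [add_div, add_div, div_right_comm (tyQ c : ℝ) 4]
    push_cast
    nlinarith
  have h6 := mul_le_mul_of_nonneg_left h5
    (show 0 ≤ w * ((tyR G : ℝ) + 1) ^ d by positivity)
  refine (le_of_eq ?_).trans (h6.trans (le_of_eq ?_)) <;> ring

end Pool.Agent.MP_8299d6_al.Up

end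
end

section

open Matrix Polynomial

noncomputable section

namespace Pool.Agent.MP_8299d6_al.Up

open Classical in
lemma hemas_cnt {X Z : Type} [Fintype X] [Fintype Z] (T : Set X) (f : X → ℝ) (hf : ∀ x, 0 ≤ f x)
    (red : Z → X) (good : Z → Prop) (N : ℕ)
    (h : ∀ A, N ≤ 2 * Nat.card {z // red z = A ∧ good z}) :
    (N : ℝ) * sumOn T f ≤
      2 * ∑ z ∈ Finset.univ.filter (fun z => red z ∈ T ∧ good z), f (red z) := by
  rw [sumOn, ← Finset.sum_fiberwise_of_maps_to (t := Finset.univ.filter (· ∈ T)) (g := red)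
    (fun z hz => Finset.mem_filter.2 ⟨Finset.mem_univ _, (Finset.mem_filter.1 hz).2.1⟩),
    Finset.mul_sum, Finset.mul_sum]
  refine Finset.sum_le_sum fun A hA => ?_
  have e : (Finset.univ.filter fun z => red z ∈ T ∧ good z).filter (fun z => red z = A) =
      Finset.univ.filter fun z => red z = A ∧ good z := by
    ext z
    simp only [Finset.mem_filter, Finset.mem_univ, true_and] at hA ⊢
    exact ⟨fun h => ⟨h.2, h.1.2⟩, fun h => ⟨⟨h.1 ▸ hA, h.2⟩, h.1⟩⟩
  rw [e, Finset.sum_congr rfl (g := fun _ => f A)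
    (fun z hz => by rw [(Finset.mem_filter.1 hz).2.1]), Finset.sum_const, nsmul_eq_mul,
    ← mul_assoc]
  refine mul_le_mul_of_nonneg_right ?_ (hf A)
  have h1 := h A
  rw [Nat.card_eq_fintype_card, Fintype.card_subtype] at h1
  exact_mod_cast h1

lemma hemas_term {q β x σ a n N W E : ℝ} (hq : 1 ≤ q) (h0 : 0 < β) (h1 : β ≤ 1) (hσ : 1 ≤ σ)
    (hx : x ≤ n * (β ^ 2 * q ^ a) ^ σ) (hn : n ≤ N) (hn0 : 0 ≤ n) (hW : 0 ≤ W) {b : ℝ}
    (hN : N * β ≤ W * q ^ b) (hE : b + a * σ ≤ E) : x ≤ W * q ^ E := by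
  have q0 : 0 < q := by linarith
  have e1 : (β ^ 2 * q ^ a) ^ σ = (β ^ 2) ^ σ * q ^ (a * σ) := by
    rw [Real.mul_rpow (by positivity) (by positivity), ← Real.rpow_mul q0.le]
  have e2 : (β ^ 2) ^ σ ≤ β := by
    have h2 : β ^ 2 ≤ β := by nlinarith
    have := Real.rpow_le_rpow_of_exponent_ge (x := β ^ 2) (by positivity) (h2.trans h1) hσ
    rw [Real.rpow_one] at this
    exact this.trans h2
  have e3 : 0 ≤ q ^ (a * σ) := by positivity
  calc x ≤ n * ((β ^ 2) ^ σ * q ^ (a * σ)) := by rw [← e1]; exact hx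
    _ ≤ N * (β * q ^ (a * σ)) :=
      mul_le_mul hn (mul_le_mul_of_nonneg_right e2 e3) (by positivity) (hn0.trans hn)
    _ ≤ W * q ^ b * q ^ (a * σ) := by
      rw [← mul_assoc]
      exact mul_le_mul_of_nonneg_right hN e3
    _ = W * q ^ (b + a * σ) := by rw [Real.rpow_add q0, mul_assoc]
    _ ≤ W * q ^ E := mul_le_mul_of_nonneg_left (Real.rpow_le_rpow_of_exponent_le hq hE) hW

lemma hemas_le {d : ℕ} (hd : 2 ≤ d) {G : Fin d → Fin d → ℕ} {c : Fin d → ℕ} (h : Ty G c)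
    (i : Fin d) : c i ≤ tyR G := by
  have : Nontrivial (Fin d) := Fin.nontrivial_iff_two_le.2 hd
  obtain ⟨j, hj⟩ := exists_ne i
  exact (h.le i j hj.symm).trans
    (Finset.le_sup (f := fun z : Fin d × Fin d => G z.1 z.2) (Finset.mem_univ (i, j)))

/-- the bound for the level sums -/
theorem master (d : ℕ) (hd : 5 ≤ d) : ∃ C : ℝ, 0 ≤ C ∧ ∀ (p : ℕ) [Fact p.Prime] (k e r : ℕ),
    d < p ^ (e + 1) → Gen p d k e → r ≤ d.factorial →
    {φ : Gp p →* Equiv.Perm (Fin d) | Occ φ}.Finite → ∀ T : Set (Mat d (ZMod (p ^ k))),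
    (∀ (y : Mat d ℤ) (v : Fin d → ℤ) (t : Fin d → Cp p) (P U : Mat d (Cp p)), GD k e y v t P U →
      y.map (Int.cast : ℤ → ZMod (p ^ k)) ∈ T → ∀ R : ℕ,
      (∀ i j, ‖t i - t j‖ ≤ (p : ℝ) ^ ((R : ℝ) / d.factorial - (k + 2 * e))) → r ≤ R) →
    ∀ s : ℝ, 1 / 2 ≤ s → s ≤ 2 →
    sumOn T (fun A => cc A ^ (1 + s / 2)) ≤
      C * {φ : Gp p →* Equiv.Perm (Fin d) | Occ φ}.ncard * (p : ℝ) ^ (4 * e * d ^ 2) *
        ((p : ℝ) ^ k * (p : ℝ) ^ (-((1 / 2 + s) * r / d.factorial))) := by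
  classical
  have hd2 : 2 ≤ d := by omega
  obtain ⟨w, w0, hw⟩ := type_count d hd2
  obtain ⟨C₀, c0, hC⟩ := type_sum d d.factorial d.factorial_pos
  refine ⟨2 * w * C₀, by positivity, fun p _ k e r he hG hr hfin T hT s s1 s2 => ?_⟩
  obtain ⟨m₀, hm⟩ := hG
  obtain ⟨K₀, hK⟩ := hw p k e
  obtain ⟨m, m1, m2⟩ : ∃ m, m₀ ≤ m ∧ K₀ ≤ k + m := ⟨m₀ + K₀, by omega, by omega⟩
  have p2 : (2 : ℝ) ≤ p := by exact_mod_cast (Fact.out : p.Prime).two_le
  have p0 : (0 : ℝ) < p := by linarith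
  have n0 : (0 : ℝ) < d.factorial := by exact_mod_cast d.factorial_pos
  have cc0 : ∀ A : Mat d (ZMod (p ^ k)), 0 ≤ cc A := fun A => by unfold cc; positivity
  have h1 := hemas_cnt T (fun A => cc A ^ (1 + s / 2)) (fun A => Real.rpow_nonneg (cc0 A) _)
    _ _ _ (hm m m1)
  choose! B b0 b1 b2 using fun (φ : Gp p →* Equiv.Perm (Fin d)) (h : Occ φ) => box_basis h
  obtain ⟨Z, hZ⟩ : ∃ Z, Z = Finset.univ.filter
      fun z : Mat d (ZMod (p ^ (k + m))) × (Fin d → ZMod (p ^ (k + m))) =>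
        (lftM z.1).map (Int.cast : ℤ → ZMod (p ^ k)) ∈ T ∧
          ∃ (t : Fin d → Cp p) (P U : Mat d (Cp p)), GD k e (lftM z.1) (lftV z.2) t P U :=
    ⟨_, rfl⟩
  have key : ∀ z ∈ Z, ∃ j : (Gp p →* Equiv.Perm (Fin d)) × (Fin d → Fin d → ℕ) × (Fin d → ℕ),
      Occ j.1 ∧ Ty j.2.1 j.2.2 ∧ HasT k e j.1 j.2.1 j.2.2 (lftM z.1) (lftV z.2) ∧
      cc ((lftM z.1).map (Int.cast : ℤ → ZMod (p ^ k))) ≤ ‖(B j.1).det‖ ^ 2 *
        (p : ℝ) ^ (2 * (e : ℝ) * d ^ 2 - ((tyD j.2.1 : ℝ) + tyK j.2.2) / d.factorial) ∧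
      r ≤ tyR j.2.1 := by
    intro z hz
    rw [hZ] at hz
    obtain ⟨z1, t, P, U, z2⟩ := (Finset.mem_filter.1 hz).2
    obtain ⟨φ, hφ⟩ := ga_roots z2.inj z2.inv z2.eig
    have ho : Occ φ := ⟨t, hφ, z2.inj⟩
    obtain ⟨G, c, g1, g2, g3, g4⟩ := per_pair hd2 he z2 hφ (b0 φ ho) (b1 φ ho)
    exact ⟨(φ, G, c), ho, g1, g2, g3, hT _ _ t P U z2 z1 _ g4⟩
  choose! τ t1 t2 t3 t4 t5 using key
  obtain ⟨E, hE⟩ : ∃ E : ℝ, E = ((k + m : ℕ) : ℝ) * (d ^ 2 + d) - k * (d ^ 2 - 1) := ⟨_, rfl⟩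
  have h2 : ∀ j ∈ hfin.toFinset ×ˢ Z.image (fun z => (τ z).2),
      ∑ z ∈ Z with τ z = j, cc ((lftM z.1).map (Int.cast : ℤ → ZMod (p ^ k))) ^ (1 + s / 2) ≤
        w * (p : ℝ) ^ E * (p : ℝ) ^ (4 * e * d ^ 2) * (((tyR j.2.1 : ℝ) + 1) ^ d *
          (p : ℝ) ^ (-((1 / 2 + s) * tyR j.2.1 / d.factorial))) := by
    intro j hj
    obtain ⟨j1, j2⟩ := Finset.mem_product.1 hj
    have ho : Occ j.1 := hfin.mem_toFinset.1 j1
    obtain ⟨z₀, hz₀, j3⟩ := Finset.mem_image.1 j2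
    have hty : Ty j.2.1 j.2.2 := j3 ▸ t2 z₀ hz₀
    obtain ⟨par, q1, q2⟩ := comb_half hd hty
    have q3 := hK (k + m) m2 j.1 _ (b0 _ ho) (b1 _ ho) _ _ hty par q1
    rw [← hE] at q3
    have q4 := Finset.sum_le_card_nsmul (Z.filter fun z => τ z = j)
      (fun z => cc ((lftM z.1).map (Int.cast : ℤ → ZMod (p ^ k))) ^ (1 + s / 2))
      ((‖(B j.1).det‖ ^ 2 * (p : ℝ) ^ (2 * (e : ℝ) * d ^ 2 -
        ((tyD j.2.1 : ℝ) + tyK j.2.2) / d.factorial)) ^ (1 + s / 2)) fun z hz => by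
        obtain ⟨a1, a2⟩ := Finset.mem_filter.1 hz
        exact Real.rpow_le_rpow (cc0 _) (a2 ▸ t4 z a1) (by linarith)
    rw [nsmul_eq_mul] at q4
    have q5 : (Z.filter fun z => τ z = j).card ≤
        Nat.card {z : Mat d (ZMod (p ^ (k + m))) × (Fin d → ZMod (p ^ (k + m))) //
          HasT k e j.1 j.2.1 j.2.2 (lftM z.1) (lftV z.2)} := by
      rw [Nat.card_eq_fintype_card, Fintype.card_subtype]
      refine Finset.card_le_card fun z hz => ?_
      obtain ⟨a1, a2⟩ := Finset.mem_filter.1 hz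
      exact Finset.mem_filter.2 ⟨Finset.mem_univ _, a2 ▸ t3 z a1⟩
    refine (hemas_term (E := 4 * e * d ^ 2 + -((1 / 2 + s) * tyR j.2.1 / d.factorial))
      (by linarith) (norm_pos_iff.2 (b0 _ ho)) (b2 _ ho) (by linarith) q4 (Nat.cast_le.2 q5)
      (Nat.cast_nonneg _) (by positivity) q3 ?_).trans_eq ?_
    · have q6 := div_le_div_of_nonneg_right (q2 s s1) n0.le
      have q7 : (0 : ℝ) ≤ e * d ^ 2 * (2 - s) := mul_nonneg (by positivity) (by linarith)
      rw [sub_div, mul_div_assoc, neg_div] at q6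
      nlinarith
    · rw [Real.rpow_add p0, show (4 * e * d ^ 2 : ℝ) = ((4 * e * d ^ 2 : ℕ) : ℝ) by push_cast; ring,
        Real.rpow_natCast]
      ring
  have h3 := Finset.sum_le_sum h2
  have hmap : ∀ z ∈ Z, τ z ∈ hfin.toFinset ×ˢ Z.image (fun z => (τ z).2) := fun z hz =>
    Finset.mem_product.2 ⟨hfin.mem_toFinset.2 (t1 z hz),
      Finset.mem_image_of_mem (fun z => (τ z).2) hz⟩
  rw [Finset.sum_fiberwise_of_maps_to hmap, Finset.sum_product] at h3
  simp only [Finset.sum_const, nsmul_eq_mul, ← Finset.mul_sum] at h3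
  have h4 := hC (1 / 2 + s) p (by linarith) p2 r hr (Z.image fun z => (τ z).2) fun j hj => by
    obtain ⟨z, hz, rfl⟩ := Finset.mem_image.1 hj
    exact ⟨hemas_le hd2 (t2 z hz), t5 z hz⟩
  have h5 : (p : ℝ) ^ E = ((p ^ (m * d ^ 2 + (k + m) * d) : ℕ) : ℝ) * (p : ℝ) ^ k := by
    rw [Nat.cast_pow, ← pow_add, ← Real.rpow_natCast, hE]
    congr 1
    push_cast
    ring
  have h6 : (0 : ℝ) < ((p ^ (m * d ^ 2 + (k + m) * d) : ℕ) : ℝ) := by
    rw [Nat.cast_pow]
    positivity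
  rw [← hZ] at h1
  refine le_of_mul_le_mul_left (h1.trans ?_) h6
  refine (mul_le_mul_of_nonneg_left (h3.trans (mul_le_mul_of_nonneg_left
    (mul_le_mul_of_nonneg_left h4 (by positivity)) (Nat.cast_nonneg _))) zero_le_two).trans_eq ?_
  rw [h5, Set.ncard_eq_toFinset_card _ hfin]
  ring

end Pool.Agent.MP_8299d6_al.Up

end
end

section

open Matrix Polynomial

noncomputable section

namespace Pool.Agent.MP_8299d6_al.Up

section
variable {p : ℕ} [Fact p.Prime]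

/-- the polynomial whose roots are the conjugates -/
def het1_F (u : Cp p) : (Cp p)[X] := ∏ r ∈ (orbit_finite u).toFinset, (X - C r)

lemma het1_eval (u x : Cp p) : (het1_F u).eval x = ∏ r ∈ (orbit_finite u).toFinset, (x - r) := by
  simp [het1_F, eval_prod]

lemma het1_deg (u : Cp p) : (het1_F u).natDegree = (MulAction.orbit (Gp p) u).ncard := by
  rw [het1_F, natDegree_finsetProd_X_sub_C_eq_card,
    Set.ncard_eq_toFinset_card _ (orbit_finite u)]

lemma het1_fix (u : Cp p) (i : ℕ) (σ : Gp p) : σ ((het1_F u).coeff i) = (het1_F u).coeff i := by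
  have : (het1_F u).map (σ : Cp p →+* Cp p) = het1_F u := by
    rw [het1_F, Polynomial.map_prod]
    refine Finset.prod_equiv σ.toEquiv (fun r => ?_) fun r _ => by simp
    simp only [Set.Finite.mem_toFinset]
    refine ⟨fun ⟨τ, h⟩ => ⟨σ * τ, congrArg σ h⟩, fun ⟨τ, h⟩ => ⟨σ⁻¹ * τ, ?_⟩⟩
    simpa using congrArg σ.symm h
  conv_rhs => rw [← this, coeff_map]
  rfl

lemma het1_le {u : Cp p} (hu : ‖u‖ ≤ 1) (i : ℕ) : ‖(het1_F u).coeff i‖ ≤ 1 := by
  refine Finset.prod_induction _ (fun f : (Cp p)[X] => ∀ i, ‖f.coeff i‖ ≤ 1) (fun f g hf hg i => ?_)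
    (fun i => ?_) (fun r hr i => ?_) i
  · rw [coeff_mul]
    refine IsUltrametricDist.norm_sum_le_of_forall_le_of_nonneg zero_le_one fun j _ => ?_
    rw [norm_mul]
    exact mul_le_one₀ (hf _) (norm_nonneg _) (hg _)
  · rw [coeff_one]
    split_ifs <;> simp
  · obtain ⟨σ, rfl⟩ := (Set.Finite.mem_toFinset _).1 hr
    rw [coeff_sub, sub_eq_add_neg]
    refine (IsUltrametricDist.norm_add_le_max _ _).trans (max_le ?_ ?_)
    · rw [coeff_X]
      split_ifs <;> simp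
    · rw [norm_neg, coeff_C]
      split_ifs
      exacts [(norm_gal σ u).trans_le hu, by simp]

lemma het1_near {N : ℕ} {u v : Cp p} {δ : ℝ} (h0 : 0 < δ) (h1 : δ ≤ 1) (hu : ‖u‖ ≤ 1)
    (du : (MulAction.orbit (Gp p) u).ncard ≤ N) (dv : (MulAction.orbit (Gp p) v).ncard ≤ N)
    {η : ℝ} (hη0 : 0 ≤ η) (hη : η < δ ^ N)
    (h : ∀ i ≤ N, ‖(het1_F v).coeff i - (het1_F u).coeff i‖ ≤ η) :
    ∃ τ : Gp p, ‖u - τ v‖ < δ := by
  by_contra hn
  simp only [not_exists, not_lt] at hn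
  have e : (het1_F u).eval u = 0 := by
    rw [het1_eval]
    exact Finset.prod_eq_zero ((Set.Finite.mem_toFinset _).2 (MulAction.mem_orbit_self u))
      (sub_self u)
  have h2 : ‖(het1_F v - het1_F u).eval u‖ ≤ η := by
    rw [eval_eq_sum_range' (n := N + 1) (Nat.lt_succ_of_le ((natDegree_sub_le _ _).trans
      (max_le ((het1_deg v).trans_le dv) ((het1_deg u).trans_le du))))]
    refine IsUltrametricDist.norm_sum_le_of_forall_le_of_nonneg hη0 fun j hj => ?_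
    rw [norm_mul, norm_pow, coeff_sub]
    exact (mul_le_of_le_one_right (norm_nonneg _) (pow_le_one₀ (norm_nonneg _) hu)).trans
      (h j (Nat.le_of_lt_succ (Finset.mem_range.1 hj)))
  rw [eval_sub, e, sub_zero, het1_eval, norm_prod] at h2
  refine (hη.trans_le ?_).not_ge h2
  refine (pow_le_pow_of_le_one h0.le h1 dv).trans ?_
  rw [Set.ncard_eq_toFinset_card _ (orbit_finite v), ← Finset.prod_const]
  refine Finset.prod_le_prod (fun _ _ => h0.le) fun r hr => ?_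
  obtain ⟨τ, rfl⟩ := (Set.Finite.mem_toFinset _).1 hr
  exact hn τ

lemma het1_int (N : ℕ) {δ : ℝ} (h0 : 0 < δ) (h1 : δ ≤ 1) :
    ∃ H : Subgroup (Gp p), H.FiniteIndex ∧ ∀ σ ∈ H, ∀ u : Cp p, ‖u‖ ≤ 1 →
      (MulAction.orbit (Gp p) u).ncard ≤ N → ‖σ u - u‖ < δ := by
  have hp : (1 : ℝ) < p := Nat.one_lt_cast.2 (Fact.out : p.Prime).one_lt
  obtain ⟨L, hL⟩ := exists_pow_lt_of_lt_one (pow_pos h0 N) (inv_lt_one_of_one_lt₀ hp)
  let S := {u : Cp p // ‖u‖ ≤ 1 ∧ (MulAction.orbit (Gp p) u).ncard ≤ N}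
  choose a ha using fun (u : S) i => fixed_int (het1_fix u.1 i) (het1_le u.2.1 i)
  let c : S → Fin (N + 1) → ZMod (p ^ L) := fun u i => PadicInt.toZModPow L (a u i)
  have fi : ∀ v : Cp p, (MulAction.stabilizer (Gp p) v).FiniteIndex := fun v => ⟨by
    rw [MulAction.index_stabilizer]
    exact ((Set.ncard_pos (orbit_finite v)).2 (MulAction.nonempty_orbit v)).ne'⟩
  refine ⟨⨅ y : Set.range c, (MulAction.stabilizer (Gp p) (Set.rangeSplitting c y).1).normalCore,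
    Subgroup.finiteIndex_iInf fun _ => inferInstance, fun σ hσ u hu du => ?_⟩
  have h2 := Subgroup.mem_iInf.1 hσ ⟨_, ⟨u, hu, du⟩, rfl⟩
  have h3 := Set.apply_rangeSplitting c ⟨_, ⟨u, hu, du⟩, rfl⟩
  generalize Set.rangeSplitting c _ = v at h2 h3
  obtain ⟨τ, hτ⟩ := het1_near h0 h1 hu du v.2.2 (by positivity) hL fun i hi => by
    have h4 : PadicInt.toZModPow L (a v i) = PadicInt.toZModPow L (a ⟨u, hu, du⟩ i) :=
      congrFun h3 ⟨i, Nat.lt_succ_of_le hi⟩
    rw [← sub_eq_zero, ← map_sub, ← RingHom.mem_ker, PadicInt.ker_toZModPow,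
      ← PadicInt.norm_le_pow_iff_mem_span_pow] at h4
    rw [ha v i, ha ⟨u, hu, du⟩ i, ← map_sub, norm_zc]
    simpa using h4
  have h5 : σ (τ v) = τ v := by
    have := congrArg τ (h2 τ⁻¹)
    simpa using this
  have h6 : σ u - u = σ (u - τ v) + -(u - τ v) := by rw [map_sub, h5]; ring
  rw [h6]
  refine (IsUltrametricDist.norm_add_le_max _ _).trans_lt (max_lt ?_ ?_)
  · rwa [norm_gal]
  · rwa [norm_neg]

end

/-- a subgroup of finite index moves all elements of bounded degree very little -/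
theorem move_small (p : ℕ) [Fact p.Prime] (N : ℕ) {ε : ℝ} (hε : 0 < ε) :
    ∃ H : Subgroup (Gp p), H.FiniteIndex ∧ ∀ σ ∈ H, ∀ u : Cp p, u ≠ 0 →
      (MulAction.orbit (Gp p) u).ncard ≤ N → ‖σ u - u‖ < ε * ‖u‖ := by
  have hp : (1 : ℝ) < p := Nat.one_lt_cast.2 (Fact.out : p.Prime).one_lt
  have hp0 : (0 : ℝ) < p := by positivity
  obtain ⟨H, h1, h2⟩ := het1_int (p := p) N (δ := min 1 (ε / p)) (by positivity) (min_le_left _ _)
  refine ⟨H, h1, fun σ hσ u hu du => ?_⟩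
  obtain ⟨n, a1, a2⟩ := exists_mem_Ioc_zpow (norm_pos_iff.2 hu) hp
  have hn : ‖(p : Cp p) ^ (n + 1)‖ = ((p : ℝ) ^ (n + 1))⁻¹ := by
    have := norm_p_pow (p := p) 1
    rw [pow_one, Nat.cast_one, Real.rpow_neg_one] at this
    rw [norm_zpow, this, _root_.inv_zpow]
  have hq : (0 : ℝ) < (p : ℝ) ^ (n + 1) := zpow_pos hp0 _
  have h3 := h2 σ hσ ((p : Cp p) ^ (n + 1) * u) (by
    rw [norm_mul, hn, inv_mul_le_iff₀ hq, mul_one]
    exact a2) (by
    refine le_trans ?_ ((Set.ncard_image_le (f := ((p : Cp p) ^ (n + 1) * ·))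
      (orbit_finite u)).trans du)
    refine Set.ncard_le_ncard ?_ ((orbit_finite u).image _)
    rintro _ ⟨τ, rfl⟩
    exact ⟨τ u, ⟨τ, rfl⟩, by simp⟩)
  rw [map_mul, map_zpow₀, map_natCast, ← mul_sub, norm_mul, hn, inv_mul_lt_iff₀ hq] at h3
  refine h3.trans_le ((mul_le_mul_of_nonneg_left (min_le_right _ _) hq.le).trans ?_)
  rw [zpow_add_one₀ hp0.ne', mul_assoc, mul_div_cancel₀ _ hp0.ne', mul_comm]
  exact mul_le_mul_of_nonneg_left a1.le hε.le

end Pool.Agent.MP_8299d6_al.Up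

end
end

section

open Matrix Polynomial

noncomputable section

namespace Pool.Agent.MP_8299d6_al.Up

theorem hega2_ker {p : ℕ} [Fact p.Prime] {d : ℕ} {H : Subgroup (Gp p)}
    (hH : ∀ σ ∈ H, ∀ u : Cp p, u ≠ 0 → (MulAction.orbit (Gp p) u).ncard ≤ d.factorial →
      ‖σ u - u‖ < ‖(d.factorial : Cp p)‖ * ‖u‖)
    {φ : Gp p →* Equiv.Perm (Fin d)} (hφ : Occ φ) : H ≤ φ.ker := by
  obtain ⟨t, ht, hi⟩ := hφ
  intro σ hσ
  rw [MonoidHom.mem_ker]
  refine Equiv.ext fun i => hi ?_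
  by_contra hne
  have hc : Nat.card (Equiv.Perm (Fin d)) = d.factorial := by
    rw [Nat.card_perm, Nat.card_fin]
  have h0 : t (φ σ i) - t i ≠ 0 := sub_ne_zero.2 hne
  have h1 : (MulAction.orbit (Gp p) (t (φ σ i) - t i)).ncard ≤ d.factorial := by
    rw [← hc, ← Set.ncard_univ]
    refine le_trans (Set.ncard_le_ncard (t := (fun π : Equiv.Perm (Fin d) =>
      t (π (φ σ i)) - t (π i)) '' Set.univ) ?_) (Set.ncard_image_le)
    rintro _ ⟨τ, rfl⟩
    refine ⟨φ τ, trivial, ?_⟩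
    simp only [AlgEquiv.smul_def, map_sub, mem_FF.1 ht]
  have h2 : ∑ j ∈ Finset.range d.factorial, (σ ^ j) (t (φ σ i) - t i) = 0 := by
    have h3 := Finset.sum_range_sub (fun j => t ((φ σ ^ j) i)) d.factorial
    rw [← hc, pow_card_eq_one', pow_zero, sub_self, hc] at h3
    rw [← h3]
    refine Finset.sum_congr rfl fun j _ => ?_
    rw [map_sub, mem_FF.1 ht, mem_FF.1 ht, map_pow, pow_succ, Equiv.Perm.mul_apply]
  obtain ⟨j, -, hj⟩ := IsUltrametricDist.exists_norm_finsetSum_le_of_nonempty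
    (Finset.nonempty_range_iff.2 d.factorial_ne_zero)
    fun j => (σ ^ j) (t (φ σ i) - t i) - (t (φ σ i) - t i)
  rw [Finset.sum_sub_distrib, h2, zero_sub, norm_neg, Finset.sum_const, Finset.card_range,
    nsmul_eq_mul, norm_mul] at hj
  exact absurd (hH _ (H.pow_mem hσ j) _ h0 h1) (not_lt.2 hj)

theorem hega2_inj {p : ℕ} [Fact p.Prime] {d : ℕ} {H : Subgroup (Gp p)}
    (hH : ∀ φ : Gp p →* Equiv.Perm (Fin d), Occ φ → H ≤ φ.ker) :
    Set.InjOn (fun (φ : Gp p →* Equiv.Perm (Fin d)) (q : Gp p ⧸ H) => φ q.out) {φ | Occ φ} := by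
  have h1 : ∀ φ : Gp p →* Equiv.Perm (Fin d), Occ φ → ∀ g,
      φ g = φ (QuotientGroup.mk g : Gp p ⧸ H).out := by
    intro φ hφ g
    obtain ⟨h, e⟩ := QuotientGroup.mk_out_eq_mul H g
    rw [e, map_mul, MonoidHom.mem_ker.1 (hH φ hφ h.2), mul_one]
  intro φ hφ ψ hψ e
  refine MonoidHom.ext fun g => ?_
  rw [h1 φ hφ, h1 ψ hψ]
  exact congrFun e _

theorem occ_finite (p : ℕ) [Fact p.Prime] (d : ℕ) :
    {φ : Gp p →* Equiv.Perm (Fin d) | Occ φ}.Finite := by
  obtain ⟨H, h1, h2⟩ := move_small p d.factorial (ε := ‖(d.factorial : Cp p)‖)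
    (norm_pos_iff.2 (Nat.cast_ne_zero.2 d.factorial_ne_zero))
  exact Set.Finite.of_finite_image (Set.toFinite _) (hega2_inj fun φ hφ => hega2_ker h2 hφ)

theorem occ_unif (d : ℕ) : ∃ N : ℕ, ∀ (p : ℕ) [Fact p.Prime], d < p →
    {φ : Gp p →* Equiv.Perm (Fin d) | Occ φ}.ncard ≤ N := by
  obtain ⟨I, hI⟩ := move_unif d.factorial
  refine ⟨d.factorial ^ I, fun p hp hd => ?_⟩
  obtain ⟨H, h1, h2, h3⟩ := hI p
  have h4 : ‖(d.factorial : Cp p)‖ = 1 := by
    rw [← map_natCast (algebraMap ℚ_[p] (Cp p)), norm_algebraMap', Padic.norm_natCast_eq_one_iff,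
      hp.out.coprime_iff_not_dvd, hp.out.dvd_factorial]
    omega
  refine (Set.ncard_le_ncard_of_injOn _ (fun _ _ => Set.mem_univ _)
    (hega2_inj (H := H) fun φ hφ => hega2_ker (by simpa only [h4, one_mul] using h3) hφ)).trans ?_
  rw [Set.ncard_univ, Nat.card_fun, Nat.card_perm, Nat.card_fin]
  exact Nat.pow_le_pow_right d.factorial_pos h2

end Pool.Agent.MP_8299d6_al.Up

end
end

section

open Matrix

noncomputable section

namespace Pool.Agent.MP_8299d6_al.Up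

open Pool.Agent.MP_810665_al (IrrChar)

/-- the level sums for a fixed prime -/
theorem level_small3 (n : ℕ) (hn : 5 ≤ n) (p : ℕ) [Fact p.Prime] {s : ℝ} (hs : 1 / 2 < s)
    (hs2 : s ≤ 2) : ∃ C : ℝ, ∀ m : ℕ,
    ∑ A : Mat n (ZMod (p ^ (m + 1))), cc A ^ (1 + s / 2) ≤ C * (p : ℝ) ^ (m + 1) := by
  obtain ⟨C, -, hC⟩ := master n hn
  obtain ⟨p₀, h0⟩ := gen_half n (by omega)
  obtain ⟨e, -, h1, h2⟩ := h0 p
  refine ⟨C * {φ : Gp p →* Equiv.Perm (Fin n) | Occ φ}.ncard * (p : ℝ) ^ (4 * e * n ^ 2),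
    fun m => ?_⟩
  have h := hC p (m + 1) e 0 h1 (h2 _) (Nat.zero_le _) (occ_finite p n) Set.univ
    (fun _ _ _ _ _ _ _ R _ => Nat.zero_le R) s hs.le hs2
  rw [Nat.cast_zero, mul_zero, zero_div, neg_zero, Real.rpow_zero, mul_one] at h
  refine le_trans (le_of_eq ?_) h
  simp [sumOn]

/-- the level sums for large primes -/
theorem level_big3 (n : ℕ) (hn : 5 ≤ n) {s : ℝ} (hs : 1 / 2 < s) (hs2 : s ≤ 2) :
    ∃ (C : ℝ) (p₀ : ℕ), ∀ (p : ℕ) [Fact p.Prime], p₀ ≤ p → ∀ m : ℕ,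
    sumOn (NS n _ ((p : ZMod (p ^ (m + 1))) ^ m)) (fun A => cc A ^ (1 + s / 2)) ≤
      C * ((p : ℝ) ^ (m + 1) * (p : ℝ) ^ (-(1 / 2) - s)) := by
  obtain ⟨C, hC0, hC⟩ := master n hn
  obtain ⟨p₀, h0⟩ := gen_half n (by omega)
  obtain ⟨N, hN⟩ := occ_unif n
  refine ⟨C * N, max p₀ (n + 1), fun p _ hp m => ?_⟩
  obtain ⟨e, he, h1, h2⟩ := h0 p
  obtain rfl := he ((le_max_left _ _).trans hp)
  have hp1 : (1 : ℝ) < p := by exact_mod_cast (Fact.out : p.Prime).one_lt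
  have hf : (0 : ℝ) < n.factorial := by exact_mod_cast n.factorial_pos
  have h := hC p (m + 1) 0 n.factorial h1 (h2 _) le_rfl (occ_finite p n)
    (NS n _ ((p : ZMod (p ^ (m + 1))) ^ m)) (fun y v t P U hG hy R hR => by
      obtain ⟨i, j, hij⟩ := hG.ns hy
      have h3 := (Real.rpow_le_rpow_left_iff hp1).1 (hij.trans (hR i j))
      push_cast at h3
      have h4 : (1 : ℝ) ≤ R / n.factorial := by linarith
      exact_mod_cast (one_le_div hf).1 h4) s hs.le hs2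
  rw [mul_zero, zero_mul, pow_zero, mul_one, mul_div_assoc, div_self hf.ne', mul_one, neg_add,
    ← sub_eq_add_neg] at h
  refine h.trans (mul_le_mul_of_nonneg_right (mul_le_mul_of_nonneg_left ?_ hC0) (by positivity))
  exact_mod_cast hN p ((le_max_right _ _).trans hp)

end Pool.Agent.MP_8299d6_al.Up

end
end
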