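import Pool.Agent.Mg.X8299d6.G6efaac

section

open Matrix

noncomputable section

namespace Pool.Agent.MP_8299d6_al.Up

open Pool.Agent.MP_810665_al (IrrChar)

section Col
variable {F : Type} [Field F] {n : ℕ}

/-- the column group -/
def f0aU (b : Fin n) : Multiplicative (Fin n → F) →* GLn n F := MonoidHom.toHomUnits
  { toFun := fun v => 1 + vecMulVec (Function.update v.toAdd b 0) (Pi.single b 1)
    map_one' := by simp
    map_mul' := fun v w => by
      have e : Function.update (v * w).toAdd b 0 =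
          Function.update v.toAdd b 0 + Function.update w.toAdd b 0 := by
        rw [toAdd_mul, ← Function.update_add, add_zero]
      rw [e, add_vecMulVec, add_mul, mul_add, mul_add, vecMulVec_mul, vecMulVec_mul,
        vecMul_vecMulVec]
      simp
      abel }

lemma f0aU_val (b : Fin n) (v : Fin n → F) : (f0aU b (Multiplicative.ofAdd v)).1 =
    1 + vecMulVec (Function.update v b 0) (Pi.single b 1) := rfl

lemma f0aU_el {i b : Fin n} (h : i ≠ b) (x : F) :
    f0aU b (Multiplicative.ofAdd (Pi.single i x)) = inGL n F (el h x) := by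
  apply Units.ext
  show _ = (el h x).1
  rw [f0aU_val, SpecialLinearGroup.transvection_coe, Function.update_eq_self_iff.2
    (by simp [h.symm])]
  congr 1
  ext r s
  simp [vecMulVec_apply, single_apply, Pi.single_apply, ite_and, eq_comm]
  split_ifs <;> rfl

lemma f0a_row {b : Fin n} {g : Mat n F} {z : F} (hg : Pi.single b 1 ᵥ* g = z • Pi.single b 1)
    {v : Fin n → F} (hv : v b = 0) : (g *ᵥ v) b = 0 := by
  have : (g *ᵥ v) b = Pi.single b 1 ⬝ᵥ g *ᵥ v := by simp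
  rw [this, dotProduct_mulVec, hg]
  simp [hv]

lemma f0a_row_inv {b : Fin n} {g : GLn n F} {z : F} (hz : z ≠ 0)
    (hg : Pi.single b 1 ᵥ* g.1 = z • Pi.single b 1) :
    Pi.single b 1 ᵥ* (g⁻¹).1 = z⁻¹ • Pi.single b 1 := by
  have : Pi.single b 1 = z • (Pi.single b 1 ᵥ* (g⁻¹).1) := by
    rw [← smul_vecMul, ← hg, vecMul_vecMul, Units.mul_inv, vecMul_one]
  conv_rhs => rw [this]
  rw [smul_smul, inv_mul_cancel₀ hz, one_smul]

lemma f0a_conj {b : Fin n} {g : GLn n F} {z : F} (hz : z ≠ 0)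
    (hg : Pi.single b 1 ᵥ* g.1 = z • Pi.single b 1) (v : Fin n → F) :
    g * f0aU b (Multiplicative.ofAdd v) =
      f0aU b (Multiplicative.ofAdd (z⁻¹ • g.1 *ᵥ Function.update v b 0)) * g := by
  apply Units.ext
  have e : Function.update (z⁻¹ • g.1 *ᵥ Function.update v b 0) b 0 =
      z⁻¹ • g.1 *ᵥ Function.update v b 0 :=
    Function.update_eq_self_iff.2 (by
      rw [Pi.smul_apply, f0a_row hg (Function.update_self ..), smul_zero])
  rw [Units.val_mul, Units.val_mul, f0aU_val, f0aU_val, mul_add, add_mul, mul_one, one_mul,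
    mul_vecMulVec, vecMulVec_mul, hg, e, smul_vecMulVec, vecMulVec_smul, smul_smul,
    inv_mul_cancel₀ hz, one_smul]

lemma f0a_dot {b : Fin n} {ξ : Fin n → F} (h : ξ b = 0) (v : Fin n → F) :
    ξ ⬝ᵥ Function.update v b 0 = ξ ⬝ᵥ v := by
  refine Finset.sum_congr rfl fun i _ => ?_
  by_cases hi : i = b
  · simp [hi, h]
  · simp [hi]

lemma f0a_trans {a b : Fin n} (hab : a ≠ b) {ξ : Fin n → F} (hb : ξ b = 0) (h0 : ξ ≠ 0) :
    ∃ g : GLn n F, g.1 a = ξ ∧ g.1 b = Pi.single b 1 := by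
  obtain ⟨c, hc⟩ := Function.ne_iff.1 h0
  have hcb : c ≠ b := fun e => hc (e ▸ hb)
  have hd : (updateRow (1 : Mat n F) c ξ).det = ξ c := by
    have := det_updateRow_sum (1 : Mat n F) c ξ
    rw [det_one, smul_eq_mul, mul_one] at this
    rw [← this]
    congr 2
    ext j
    simp [one_apply]
  have hu : IsUnit ((updateRow (1 : Mat n F) c ξ).submatrix (Equiv.swap a c) id) := by
    rw [isUnit_iff_isUnit_det, det_permute, hd]
    exact (IsUnit.map (Int.castRingHom F) (Units.isUnit _)).mul (Ne.isUnit hc)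
  refine ⟨hu.unit, ?_, ?_⟩
  · ext j
    simp
  · ext j
    simp [Equiv.swap_apply_of_ne_of_ne hab.symm hcb.symm, updateRow_ne hcb.symm, one_apply,
      Pi.single_apply, eq_comm]

/-- diagonal matrices -/
def f0aD (n : ℕ) (F : Type) [Field F] : (Fin n → Fˣ) →* GLn n F := MonoidHom.toHomUnits
  { toFun := fun f => diagonal fun i => (f i : F)
    map_one' := by simp
    map_mul' := fun f g => by simp [diagonal_mul_diagonal] }

lemma f0aD_val (f : Fin n → Fˣ) : (f0aD n F f).1 = diagonal fun i => (f i : F) := rfl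

lemma f0aD_det (f : Fin n → Fˣ) : (f0aD n F f).1.det = ((∏ i, f i : Fˣ) : F) := by
  rw [f0aD_val, det_diagonal, Units.coe_prod]

lemma f0aD_mem {a b i : Fin n} (ha : i ≠ a) (hb : i ≠ b) (t : Fˣ) :
    f0aD n F (Pi.mulSingle i t) ∈ H1 F a b := by
  refine ⟨fun j h => ?_, fun j h _ => ?_, ?_⟩
  · rw [f0aD_val, diagonal_apply_ne' _ h]
  · rw [f0aD_val, diagonal_apply_ne' _ h]
  · simp [f0aD_val, ha.symm, hb.symm]

lemma f0a_el_mem {a b i j : Fin n} (h : i ≠ j) (ha : i ≠ a) (hb : i ≠ b) (x : F) :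
    inGL n F (el h x) ∈ H1 F a b := by
  have e : (inGL n F (el h x)).1 = 1 + single i j x := SpecialLinearGroup.transvection_coe h x
  refine ⟨fun k hk => ?_, fun k hk _ => ?_, ?_⟩
  · simp [e, hb, one_apply_ne' hk]
  · simp [e, ha, one_apply_ne' hk]
  · simp [e, ha, hb]

lemma f0aD_el {i j : Fin n} (h : i ≠ j) (t : Fˣ) (x : F) :
    inGL n F (el h (t * x)) * f0aD n F (Pi.mulSingle i t) =
      f0aD n F (Pi.mulSingle i t) * inGL n F (el h x) := by
  apply Units.ext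
  have e : ∀ y, (inGL n F (el h y)).1 = 1 + single i j y :=
    SpecialLinearGroup.transvection_coe h
  rw [Units.val_mul, Units.val_mul, e, e, f0aD_val, mul_add, add_mul, mul_one, one_mul]
  congr 1
  ext r s
  rw [mul_diagonal, diagonal_mul, single_apply, single_apply]
  split_ifs with hh
  · obtain ⟨rfl, rfl⟩ := hh
    simp [h.symm]
  · simp

lemma f0a_H1 {a b : Fin n} (hab : a ≠ b) {g : GLn n F} (hg : g ∈ H1 F a b) :
    g.1 b b ≠ 0 ∧ Pi.single b 1 ᵥ* g.1 = g.1 b b • Pi.single b 1 ∧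
      Pi.single a 1 ᵥ* g.1 = g.1 b b • Pi.single a 1 + g.1 a b • Pi.single b 1 := by
  have h1 : Pi.single b 1 ᵥ* g.1 = g.1 b b • Pi.single b 1 := by
    ext j
    by_cases hj : j = b
    · simp [hj]
    · simp [hj, hg.1 j hj]
  refine ⟨fun h0 => ?_, h1, ?_⟩
  · have : (Pi.single b 1 : Fin n → F) = 0 := by
      rw [← vecMul_one (Pi.single b 1), ← Units.mul_inv g, ← vecMul_vecMul, h1, h0, zero_smul,
        zero_vecMul]
    simpa using congrFun this b
  · ext j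
    by_cases hj : j = b
    · simp [hj, hab.symm]
    · by_cases hj2 : j = a
      · simp [hj2, hab, hg.2.2]
      · simp [hj, hj2, hg.2.1 j hj2 hj]

variable {V : Type} [AddCommGroup V] [Module ℂ V] {ψ : AddChar F ℂ}
  {ρ : Representation ℂ (GLn n F) V}

/-- the operators of the column group -/
def f0aT (ρ : Representation ℂ (GLn n F) V) (b : Fin n) (v : Fin n → F) : Module.End ℂ V :=
  ρ (f0aU b (Multiplicative.ofAdd v))

lemma f0a_conj1 {b : Fin n} {g : GLn n F} {z : F} (hz : z ≠ 0)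
    (hg : Pi.single b 1 ᵥ* g.1 = z • Pi.single b 1) {ξ ξ' : Fin n → F} (hξ' : ξ' b = 0)
    (h : ∀ v, v b = 0 → ξ' ⬝ᵥ v = z⁻¹ * ξ ⬝ᵥ g.1 *ᵥ v) {x : V}
    (hx : x ∈ f0aE ψ (f0aT ρ b) ⊤ ξ) : ρ g⁻¹ x ∈ f0aE ψ (f0aT ρ b) ⊤ ξ' := by
  refine ⟨trivial, fun v => ?_⟩
  have e : f0aU b (Multiplicative.ofAdd v) * g⁻¹ =
      g⁻¹ * f0aU b (Multiplicative.ofAdd (z⁻¹ • g.1 *ᵥ Function.update v b 0)) := by
    rw [eq_inv_mul_iff_mul_eq, ← mul_assoc, f0a_conj hz hg, mul_inv_cancel_right]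
  have h2 := hx.2 (z⁻¹ • g.1 *ᵥ Function.update v b 0)
  unfold f0aT at h2 ⊢
  rw [← Module.End.mul_apply, ← map_mul, e, map_mul, Module.End.mul_apply, h2, map_smul,
    dotProduct_smul, smul_eq_mul, ← h _ (Function.update_self ..), f0a_dot hξ']

lemma f0a_conj2 {b : Fin n} {g : GLn n F} {z : F} (hz : z ≠ 0)
    (hg : Pi.single b 1 ᵥ* g.1 = z • Pi.single b 1) {ξ ξ' : Fin n → F} (hξ : ξ b = 0)
    (h : ∀ v, v b = 0 → ξ' ⬝ᵥ v = z⁻¹ * ξ ⬝ᵥ g.1 *ᵥ v) {x : V}
    (hx : x ∈ f0aE ψ (f0aT ρ b) ⊤ ξ') : ρ g x ∈ f0aE ψ (f0aT ρ b) ⊤ ξ := by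
  have := f0a_conj1 (g := g⁻¹) (inv_ne_zero hz) (f0a_row_inv hz hg) hξ (fun v hv => ?_) hx
  · rwa [inv_inv] at this
  · rw [h _ (f0a_row (f0a_row_inv hz hg) hv), mulVec_mulVec, Units.mul_inv, one_mulVec, inv_inv,
      mul_inv_cancel_left₀ hz]

lemma f0a_stab {a b : Fin n} (hab : a ≠ b) {g : GLn n F} (hg : g ∈ H1 F a b) {x : V}
    (hx : x ∈ f0aE ψ (f0aT ρ b) ⊤ (Pi.single a 1)) :
    ρ g x ∈ f0aE ψ (f0aT ρ b) ⊤ (Pi.single a 1) := by
  obtain ⟨h0, h1, h2⟩ := f0a_H1 hab hg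
  refine f0a_conj2 h0 h1 (by simp [hab.symm]) (fun v hv => ?_) hx
  rw [dotProduct_mulVec, h2]
  simp [hv, h0]

lemma f0a_nontriv (hn : 3 ≤ n) (b : Fin n) (hnt : ∃ x : SLn n F, ρ (inGL n _ x) ≠ 1) :
    ∃ v x, f0aT ρ b v x ≠ x := by
  by_contra hc
  push Not at hc
  obtain ⟨x, hx⟩ := hnt
  let K : Subgroup (SLn n F) := (ρ.toHomUnits.comp (inGL n F)).ker
  have hK : ∀ y, y ∈ K ↔ ρ (inGL n F y) = 1 := fun y => by
    rw [MonoidHom.mem_ker, Units.ext_iff]; rfl
  have h1 : ∀ (i : Fin n) (h : i ≠ b) (t : F), el h t ∈ K := fun i h t => by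
    rw [hK, ← f0aU_el]
    exact LinearMap.ext (hc _)
  have hN : K.Normal := MonoidHom.normal_ker _
  have h2 : ∀ (i j : Fin n) (h : i ≠ j) (t : F), i ≠ b → el h t ∈ K := fun i j h t hi => by
    by_cases hj : j = b
    · subst hj; exact h1 i h t
    · have := el_comm hi (Ne.symm hj) h t 1
      rw [mul_one] at this
      rw [← this, mul_assoc, mul_assoc, ← mul_assoc (el (Ne.symm hj) 1)]
      exact K.mul_mem (h1 i hi t) (hN.conj_mem _ (K.inv_mem (h1 i hi t)) _)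
  have h3 := gen_field n F K (fun i j h t => by
    by_cases hi : i = b
    · obtain ⟨k, hk1, hk2⟩ := Fin.exists_ne_and_ne_of_two_lt i j hn
      have := el_comm hk1.symm hk2 h t 1
      rw [mul_one] at this
      rw [← this]
      have hk := h2 k j hk2 1 (hi ▸ hk1)
      exact K.mul_mem (hN.conj_mem _ hk _) (K.inv_mem hk)
    · exact h2 i j h t hi)
  exact hx ((hK x).1 (h3 ▸ Subgroup.mem_top x))

lemma f0a_inj (g : GLn n F) : Function.Injective (ρ g) := fun x y h => by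
  have := congrArg (ρ g⁻¹) h
  rwa [← Module.End.mul_apply, ← Module.End.mul_apply, ← map_mul, inv_mul_cancel, map_one] at this

lemma f0a_card [Fintype F] [DecidableEq F] (b : Fin n) :
    (Finset.univ.filter fun ξ : Fin n → F => ξ b = 0 ∧ ξ ≠ 0).card =
      Fintype.card F ^ (n - 1) - 1 := by
  have e : (Finset.univ.filter fun ξ : Fin n → F => ξ b = 0 ∧ ξ ≠ 0) =
      (Fintype.piFinset fun i => if i = b then {0} else Finset.univ).erase 0 := by
    ext ξ
    simp only [Finset.mem_filter, Finset.mem_univ, true_and, Finset.mem_erase,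
      Fintype.mem_piFinset]
    constructor
    · rintro ⟨h1, h2⟩
      refine ⟨h2, fun i => ?_⟩
      split_ifs with h
      · simp [h, h1]
      · simp
    · rintro ⟨h1, h2⟩
      exact ⟨by simpa using h2 b, h1⟩
  rw [e, Finset.card_erase_of_mem, Fintype.card_piFinset]
  · congr 1
    rw [← Finset.mul_prod_erase _ _ (Finset.mem_univ b), if_pos rfl, Finset.card_singleton, one_mul,
      Finset.prod_congr rfl (g := fun _ => Fintype.card F)
        (fun i hi => by rw [if_neg (Finset.ne_of_mem_erase hi), Finset.card_univ]),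
      Finset.prod_const, Finset.card_erase_of_mem (Finset.mem_univ b), Finset.card_univ,
      Fintype.card_fin]
  · rw [Fintype.mem_piFinset]
    intro i
    split_ifs <;> simp

variable [Fintype F] [DecidableEq F] [FiniteDimensional ℂ V]

lemma f0a_first (hψ : ψ.IsPrimitive) (hn : 3 ≤ n) {a b : Fin n} (hab : a ≠ b)
    (hnt : ∃ x : SLn n F, ρ (inGL n _ x) ≠ 1) :
    (∃ x ∈ f0aE ψ (f0aT ρ b) ⊤ (Pi.single a 1), x ≠ 0) ∧
    (Fintype.card F ^ (n - 1) - 1) * Module.finrank ℂ (f0aE ψ (f0aT ρ b) ⊤ (Pi.single a 1)) ≤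
      Module.finrank ℂ V := by
  have key : ∀ ξ : Fin n → F, ξ b = 0 → ξ ≠ 0 → ∃ g : GLn n F,
      Pi.single b 1 ᵥ* g.1 = (1 : F) • Pi.single b 1 ∧
      ∀ v, v b = 0 → ξ ⬝ᵥ v = (1 : F)⁻¹ * Pi.single a 1 ⬝ᵥ g.1 *ᵥ v := by
    intro ξ hb h0
    obtain ⟨g, h1, h2⟩ := f0a_trans hab hb h0
    refine ⟨g, by rw [single_one_vecMul, one_smul]; exact h2, fun v _ => ?_⟩
    rw [dotProduct_mulVec, single_one_vecMul, inv_one, one_mul, ← h1]
    rfl
  constructor
  · obtain ⟨v, x, hx⟩ := f0a_nontriv hn b hnt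
    obtain ⟨ξ, h0, y, hy, hy0⟩ := f0a_exists hψ (T := f0aT ρ b) (U := ⊤)
      (fun v w => by rw [f0aT, ofAdd_add, map_mul, map_mul]; rfl) (by simp [f0aT])
      (fun _ _ _ => trivial) trivial hx
    have hb : ξ b = 0 := by
      by_contra hb
      apply hψ hb
      ext t
      have h1 := hy.2 (Pi.single b t)
      have e : f0aU b (Multiplicative.ofAdd (Pi.single b t)) = 1 := by
        apply Units.ext
        rw [f0aU_val]
        have : Function.update (Pi.single b t : Fin n → F) b 0 = 0 := by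
          ext j
          by_cases hj : j = b <;> simp [hj]
        simp [this]
      rw [f0aT, e, map_one, Module.End.one_apply, dotProduct_single] at h1
      have h2 : (1 : ℂ) • y = ψ (ξ b * t) • y := by rwa [one_smul]
      simpa using (smul_left_injective ℂ hy0 h2).symm
    obtain ⟨g, h1, h2⟩ := key ξ hb h0
    refine ⟨ρ g y, f0a_conj2 one_ne_zero h1 (by simp [hab.symm]) h2 hy, fun h => hy0 ?_⟩
    exact f0a_inj g (by rw [h, map_zero])
  · rw [← f0a_card b, ← finrank_top ℂ V]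
    refine f0a_dim hψ (T := f0aT ρ b) _ _ fun ξ hξ => ?_
    obtain ⟨hb, h0⟩ := (Finset.mem_filter.1 hξ).2
    obtain ⟨g, h1, h2⟩ := key ξ hb h0
    exact ⟨ρ g⁻¹, f0a_inj _, fun x hx => f0a_conj1 one_ne_zero h1 hb h2 hx⟩

lemma f0a_second (hψ : ψ.IsPrimitive) {a b i j : Fin n} (h : i ≠ j) (ha : i ≠ a) (hb : i ≠ b)
    {U : Submodule ℂ V} (hU : ∀ g ∈ H1 F a b, ∀ x ∈ U, ρ g x ∈ U) {t : F} {x : V} (hx : x ∈ U)
    (hne : ρ (inGL n F (el h t)) x ≠ x) : Fintype.card F - 1 ≤ Module.finrank ℂ U := by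
  let T : (Unit → F) → Module.End ℂ V := fun s => ρ (inGL n F (el h (s ())))
  obtain ⟨ξ, h0, y, hy, hy0⟩ := f0a_exists hψ (T := T) (U := U) (v₀ := fun _ => t)
    (fun v w => by
      simp only [T, Pi.add_apply, SpecialLinearGroup.transvection_add, map_mul])
    (by simp [T]) (fun v z hz => hU _ (f0a_el_mem h ha hb _) z hz) hx hne
  have hξ : ξ () ≠ 0 := fun e => h0 (funext fun _ => e)
  have h1 := f0a_dim hψ (T := T) (U := U) (f0aE ψ T U ξ) (Finset.univ.erase 0) (fun η hη => by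
    have hη : η () ≠ 0 := fun e => Finset.ne_of_mem_erase hη (funext fun _ => e)
    let u : Fˣ := Units.mk0 (ξ () / η ()) (div_ne_zero hξ hη)
    refine ⟨ρ (f0aD n F (Pi.mulSingle i u)), f0a_inj _, fun z hz =>
      ⟨hU _ (f0aD_mem ha hb u) z hz.1, fun s => ?_⟩⟩
    have e : s () = u * (η () / ξ () * s ()) := by
      simp only [u, Units.val_mk0]; field_simp
    have h2 := hz.2 fun _ => η () / ξ () * s ()
    simp only [T] at h2 ⊢
    rw [← Module.End.mul_apply, ← map_mul, e, f0aD_el, map_mul, Module.End.mul_apply, h2, map_smul]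
    congr 2
    simp only [dotProduct, Finset.univ_unique, Finset.sum_singleton, PUnit.default_eq_unit]
    field_simp)
  have : Nontrivial (f0aE ψ T U ξ) := ⟨⟨y, hy⟩, 0, fun e => hy0 (congrArg Subtype.val e)⟩
  have h2 : 0 < Module.finrank ℂ (f0aE ψ T U ξ) := Module.finrank_pos
  rw [Finset.card_erase_of_mem (Finset.mem_univ _), Finset.card_univ, Fintype.card_fun,
    Fintype.card_unit, pow_one] at h1
  exact le_trans (Nat.le_mul_of_pos_right _ h2) h1

omit [DecidableEq F] in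
lemma f0a_third (hn : 3 ≤ n) {a b : Fin n} (hab : a ≠ b) (hρ : ρ.IsIrreducible) {x : V}
    (hx : x ∈ f0aE ψ (f0aT ρ b) ⊤ (Pi.single a 1)) (hx0 : x ≠ 0)
    (htr : ∀ (i j : Fin n) (h : i ≠ j) (t : F), i ≠ a → i ≠ b →
      ∀ y ∈ f0aE ψ (f0aT ρ b) ⊤ (Pi.single a 1), ρ (inGL n F (el h t)) y = y) :
    ∃ (φ₁ φ₂ : MulChar F ℂ) (v : V), v ≠ 0 ∧ ∀ g ∈ H1 F a b, ρ g v = phi a b φ₁ φ₂ ψ g • v := by
  obtain ⟨i, ha, hb⟩ := Fin.exists_ne_and_ne_of_two_lt a b hn
  let d : Fˣ →* GLn n F := (f0aD n F).comp (MonoidHom.mulSingle (fun _ => Fˣ) i)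
  let c : Fˣ →* (Fin n → Fˣ) := Pi.constMonoidHom (Fin n) Fˣ
  let s : Fˣ →* GLn n F := (f0aD n F).comp
    (c * (MonoidHom.mulSingle (fun _ => Fˣ) i).comp (powMonoidHom n)⁻¹)
  obtain ⟨v, hv, hv0, hd⟩ := f0a_eigen ρ d
    (fun t y hy => f0a_stab hab (f0aD_mem ha hb t) hy) hx hx0
  obtain ⟨φ₁, h1⟩ := f0a_char ρ d hv0 hd
  obtain ⟨φ₂, h2⟩ := f0a_char ρ s hv0 (fun t => by
    obtain ⟨c₁, hc₁⟩ := MP_810665_al.schur hρ (ρ (f0aD n F (c t))) (fun g w => by
      have e : f0aD n F (c t) * g = g * f0aD n F (c t) := by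
        apply Units.ext
        ext r k
        simp [f0aD_val, c, mul_comm]
      rw [← Module.End.mul_apply, ← Module.End.mul_apply, ← map_mul, ← map_mul, e])
    obtain ⟨c₂, hc₂⟩ := hd (t ^ n)⁻¹
    refine ⟨c₁ * c₂, ?_⟩
    have e : s t = f0aD n F (c t) * d (t ^ n)⁻¹ := by
      rw [map_inv]
      simp [s, d]
    rw [e, map_mul, Module.End.mul_apply, hc₂, hc₁, smul_smul])
  refine ⟨φ₁, φ₂, v, hv0, fun g hg => ?_⟩
  obtain ⟨g0, g1, g2⟩ := f0a_H1 hab hg
  let z : Fˣ := Units.mk0 _ g0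
  let D : Fˣ := Units.map detMonoidHom g
  have hD : (D : F) = g.1.det := rfl
  have hz : (z : F) = g.1 b b := rfl
  let m : GLn n F := s z * inGL n F (el hab (g.1 a b * (g.1 b b)⁻¹)) * d D
  let K : Subgroup (GLn n F) :=
    { carrier := {k | ρ k v = v}
      one_mem' := by simp
      mul_mem' := fun {k l} hk hl => by
        have hk' : ρ k v = v := hk
        have hl' : ρ l v = v := hl
        show ρ (k * l) v = v
        rw [map_mul, Module.End.mul_apply, hl', hk']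
      inv_mem' := fun {k} hk => by
        have hk' : ρ k v = v := hk
        show ρ k⁻¹ v = v
        conv_lhs => rw [← hk', ← Module.End.mul_apply, ← map_mul, inv_mul_cancel, map_one]
        rfl }
  have hs : (s z).1 = diagonal fun k =>
      ((z * Pi.mulSingle (M := fun _ => Fˣ) i (z ^ n)⁻¹ k : Fˣ) : F) := rfl
  have hdv : (d D).1 = diagonal fun k => ((Pi.mulSingle (M := fun _ => Fˣ) i D k : Fˣ) : F) := rfl
  have he : (inGL n F (el hab (g.1 a b * (g.1 b b)⁻¹))).1 =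
      1 + vecMulVec (Pi.single a (g.1 a b * (g.1 b b)⁻¹)) (Pi.single b 1) := by
    rw [← f0aU_el, f0aU_val, Function.update_eq_self_iff.2 (by simp [hab.symm])]
  have ma : Pi.single a 1 ᵥ* g.1 = Pi.single a 1 ᵥ* m.1 := by
    simp only [m, Units.val_mul, ← vecMul_vecMul]
    rw [g2, hs, hdv, he, single_vecMul_diagonal, vecMul_add, vecMul_one, vecMul_vecMulVec,
      add_vecMul, smul_vecMul, single_vecMul_diagonal, single_vecMul_diagonal]
    simp only [Pi.mulSingle_eq_of_ne ha.symm, Pi.mulSingle_eq_of_ne hb.symm, mul_one,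
      Units.val_one, one_mul, hz, single_dotProduct, Pi.single_eq_same]
    rw [← Pi.single_smul', smul_eq_mul, mul_one]
    congr 2
    field_simp
  have mb : Pi.single b 1 ᵥ* g.1 = Pi.single b 1 ᵥ* m.1 := by
    simp only [m, Units.val_mul, ← vecMul_vecMul]
    rw [g1, hs, hdv, he, single_vecMul_diagonal, vecMul_add, vecMul_one, vecMul_vecMulVec,
      add_vecMul, smul_vecMul, single_vecMul_diagonal, single_vecMul_diagonal]
    simp only [Pi.mulSingle_eq_of_ne hb.symm, mul_one,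
      Units.val_one, one_mul, hz, single_dotProduct, Pi.single_eq_of_ne hab.symm, mul_zero,
      zero_smul, add_zero]
    rw [← Pi.single_smul', smul_eq_mul, mul_one]
  have md : m.1.det = g.1.det := by
    simp only [m, Units.val_mul, det_mul]
    have e1 : (inGL n F (el hab (g.1 a b * (g.1 b b)⁻¹))).1.det = 1 :=
      (el hab (g.1 a b * (g.1 b b)⁻¹)).2
    rw [e1, hs, hdv, det_diagonal, det_diagonal, ← Units.coe_prod, ← Units.coe_prod,
      Finset.prod_mul_distrib, Finset.prod_pi_mulSingle', Finset.prod_pi_mulSingle']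
    simp [hD]
  have hk : g * m⁻¹ ∈ K := by
    refine f0a_gen2 a b K (fun k l h t h1 h2 => htr k l h t h1 h2 v hv) _ ?_ ?_ ?_
    · have : Pi.single a 1 ᵥ* (g * m⁻¹).1 = Pi.single a 1 := by
        rw [Units.val_mul, ← vecMul_vecMul, ma, vecMul_vecMul, Units.mul_inv, vecMul_one]
      rwa [single_one_vecMul] at this
    · have : Pi.single b 1 ᵥ* (g * m⁻¹).1 = Pi.single b 1 := by
        rw [Units.val_mul, ← vecMul_vecMul, mb, vecMul_vecMul, Units.mul_inv, vecMul_one]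
      rwa [single_one_vecMul] at this
    · rw [Units.val_mul, det_mul, ← md, ← det_mul, Units.mul_inv, det_one]
  have hk' : ρ (g * m⁻¹) v = v := hk
  have h3 : ρ (inGL n F (el hab (g.1 a b * (g.1 b b)⁻¹))) v = ψ (g.1 a b * (g.1 b b)⁻¹) • v := by
    have := hv.2 (Pi.single a (g.1 a b * (g.1 b b)⁻¹))
    rwa [f0aT, f0aU_el hab, single_dotProduct, Pi.single_eq_same, one_mul] at this
  have h4 : ρ m v = phi a b φ₁ φ₂ ψ g • v := by
    simp only [m, map_mul, Module.End.mul_apply, h1, h2, h3, map_smul, smul_smul]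
    rw [phi, hD, hz]
    congr 1
    ring
  have e : g = g * m⁻¹ * m := (inv_mul_cancel_right g m).symm
  conv_lhs => rw [e]
  rw [map_mul, Module.End.mul_apply, h4, map_smul, hk']

end Col

/-- degrees of the representations of `GL_n(F_p)` that are nontrivial on `SL_n` -/
theorem dichotomy {n p : ℕ} [Fact p.Prime] (hn : 3 ≤ n) {a b : Fin n} (hab : a ≠ b) {V : Type}
    [AddCommGroup V] [Module ℂ V] [FiniteDimensional ℂ V] (ρ : Representation ℂ (GLn n (ZMod p)) V)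
    (hρ : ρ.IsIrreducible) (hnt : ∃ x : SLn n (ZMod p), ρ (inGL n _ x) ≠ 1) :
    p ^ (n - 1) - 1 ≤ Module.finrank ℂ V ∧
    ((p ^ (n - 1) - 1) * (p - 1) ≤ Module.finrank ℂ V ∨
      ∃ (φ₁ φ₂ : MulChar (ZMod p) ℂ) (v : V), v ≠ 0 ∧ ∀ g ∈ H1 (ZMod p) a b,
        ρ g v = phi a b φ₁ φ₂ (ZMod.stdAddChar (N := p)) g • v) := by
  have hψ := ZMod.isPrimitive_stdAddChar p
  obtain ⟨⟨x, hx, hx0⟩, h1⟩ := f0a_first hψ hn hab hnt
  rw [ZMod.card] at h1
  have : Nontrivial (f0aE (ZMod.stdAddChar (N := p)) (f0aT ρ b) ⊤ (Pi.single a 1)) :=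
    ⟨⟨x, hx⟩, 0, fun e => hx0 (congrArg Subtype.val e)⟩
  refine ⟨le_trans (Nat.le_mul_of_pos_right _ Module.finrank_pos) h1, ?_⟩
  by_cases htr : ∀ (i j : Fin n) (h : i ≠ j) (t : ZMod p), i ≠ a → i ≠ b →
      ∀ y ∈ f0aE (ZMod.stdAddChar (N := p)) (f0aT ρ b) ⊤ (Pi.single a 1),
        ρ (inGL n _ (el h t)) y = y
  · exact Or.inr (f0a_third hn hab hρ hx hx0 htr)
  · push Not at htr
    obtain ⟨i, j, h, t, ha, hb, y, hy, hne⟩ := htr
    have h2 := f0a_second hψ h ha hb (fun g hg z hz => f0a_stab hab hg hz) hy hne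
    rw [ZMod.card] at h2
    exact Or.inl (le_trans (Nat.mul_le_mul_left _ h2) h1)

end Pool.Agent.MP_8299d6_al.Up

end
end

section

open Matrix

noncomputable section

namespace Pool.Agent.MP_8299d6_al.Up

open Pool.Agent.MP_810665_al (IrrChar)

open Pool.Agent.MP_810665_al (proj proj_apply proj_eq_zero proj_self)

/-- `χ` is the character of an irreducible representation with an eigenvector of `S`. -/
def f0cEig {G : Type} [Group G] (S : Set G) (φ χ : G → ℂ) : Prop :=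
  ∃ (V : Type) (_ : AddCommGroup V) (_ : Module ℂ V) (_ : FiniteDimensional ℂ V)
    (ρ : Representation ℂ G V), ρ.IsIrreducible ∧ ρ.character = χ ∧
      ∃ v : V, v ≠ 0 ∧ ∀ g ∈ S, ρ g v = φ g • v

theorem f0c_coeff {G : Type} [Group G] [Fintype G] (S : Subgroup G) {φ χ : G → ℂ}
    (h : f0cEig (S : Set G) φ χ) : ∃ m : G → ℂ,
      (∀ a ∈ S, ∀ b ∈ S, ∀ y, m (a * y * b) = φ a * φ b * m y) ∧
      (∀ ψ ∈ IrrChar G, χ ≠ ψ → ∑ g, ψ g⁻¹ * m g = 0) ∧ ∑ g, χ g⁻¹ * m g ≠ 0 := by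
  classical
  obtain ⟨V, _, _, _, ρ, hρ, rfl, v, hv, he⟩ := h
  have hmul : ∀ a ∈ S, ∀ b ∈ S, φ (a * b) = φ a * φ b := fun a ha b hb => by
    have h1 := he _ (S.mul_mem ha hb)
    rw [map_mul, Module.End.mul_apply, he b hb, map_smul, he a ha, smul_smul] at h1
    rw [← smul_left_injective ℂ hv h1, mul_comm]
  have hone : φ 1 = 1 := by
    have h1 := he 1 S.one_mem
    rw [map_one, Module.End.one_apply] at h1
    exact smul_left_injective ℂ hv (h1.symm.trans (one_smul ℂ v).symm)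
  obtain ⟨l₀, hl₀⟩ := Module.Projective.exists_dual_ne_zero ℂ hv
  let l : V →ₗ[ℂ] ℂ := ∑ a : S, φ (a⁻¹ : S) • l₀ ∘ₗ ρ a
  have hl : ∀ w, l w = ∑ a : S, φ (a⁻¹ : S) * l₀ (ρ a w) := fun w => by
    simp [l, LinearMap.sum_apply]
  have hlv : l v ≠ 0 := by
    have : ∀ a : S, φ (a⁻¹ : S) * l₀ (ρ a v) = l₀ v := fun a => by
      rw [he a a.2, map_smul, smul_eq_mul, ← mul_assoc, ← hmul _ (a⁻¹).2 _ a.2, ← S.coe_mul,
        inv_mul_cancel, S.coe_one, hone, one_mul]
    rw [hl, Finset.sum_congr rfl fun a _ => this a, Finset.sum_const, nsmul_eq_mul]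
    exact mul_ne_zero (Nat.cast_ne_zero.2 Fintype.card_ne_zero) hl₀
  have hla : ∀ a ∈ S, ∀ w, l (ρ a w) = φ a * l w := fun a ha w => by
    rw [hl, hl, Finset.mul_sum]
    refine Fintype.sum_equiv (Equiv.mulRight (⟨a, ha⟩ : S)) _ _ fun c => ?_
    rw [Equiv.coe_mulRight, ← mul_assoc, ← hmul a ha _ ((c * ⟨a, ha⟩)⁻¹).2, S.coe_mul, map_mul,
      Module.End.mul_apply]
    congr 2
    simp
  have h2 : ∀ ψ : G → ℂ, ∑ g, ψ g⁻¹ * l (ρ g v) = l (proj ψ ρ v) := fun ψ => by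
    simp [proj_apply]
  refine ⟨fun g => l (ρ g v), fun a ha b hb y => ?_, fun ψ hψ hne => ?_, ?_⟩
  · simp only [map_mul, Module.End.mul_apply]
    rw [hla a ha, he b hb, map_smul, map_smul, smul_eq_mul, mul_assoc]
  · rw [h2, proj_eq_zero hρ hψ hne, map_zero]
  · obtain ⟨c, hc, hc'⟩ := proj_self hρ
    rw [h2, hc', map_smul]
    exact mul_ne_zero hc hlv

/-- At most as many such characters as double cosets. -/
theorem f0c_count {G : Type} [Group G] [Fintype G] (S : Subgroup G) (φ : G → ℂ) (Y : Finset G)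
    (hY : ∀ g, ∃ y ∈ Y, ∃ a ∈ S, ∃ b ∈ S, g = a * y * b) (s : Finset (G → ℂ))
    (hs : ∀ χ ∈ s, f0cEig (S : Set G) φ χ) : s.card ≤ Y.card := by
  classical
  choose! m hm h0 h1 using fun χ hχ => f0c_coeff S (hs χ hχ)
  have hli : LinearIndependent ℂ fun (χ : s) (y : Y) => m χ y := by
    rw [Fintype.linearIndependent_iff]
    intro c hc ψ
    have h2 : ∀ g, ∑ χ : s, c χ * m χ g = 0 := fun g => by
      obtain ⟨y, hy, a, ha, b, hb, rfl⟩ := hY g
      have h3 := congrFun hc ⟨y, hy⟩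
      simp only [Finset.sum_apply, Pi.smul_apply, smul_eq_mul, Pi.zero_apply] at h3
      rw [Finset.sum_congr rfl fun χ _ => by rw [hm χ χ.2 a ha b hb, mul_left_comm],
        ← Finset.mul_sum, h3, mul_zero]
    have h3 : ∑ g, ψ.1 g⁻¹ * ∑ χ : s, c χ * m χ g = 0 := by
      simp only [h2, mul_zero, Finset.sum_const_zero]
    simp only [Finset.mul_sum] at h3
    rw [Finset.sum_comm, Finset.sum_eq_single ψ] at h3
    · simp_rw [mul_left_comm _ (c ψ), ← Finset.mul_sum] at h3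
      exact (mul_eq_zero.1 h3).resolve_right (h1 ψ ψ.2)
    · intro χ _ hne
      obtain ⟨V, _, _, _, ρ, hρ, e, -⟩ := hs ψ ψ.2
      simp_rw [mul_left_comm _ (c χ), ← Finset.mul_sum]
      rw [h0 χ χ.2 ψ ⟨V, _, _, inferInstance, ρ, hρ, e⟩ fun h => hne (Subtype.ext h), mul_zero]
    · simp
  simpa using hli.fintype_card_le_finrank

theorem f0c_pow {d p K s : ℝ} {e : ℕ} (hp : 0 < p) (hK : 1 ≤ K) (h : p ^ e ≤ K * d) (h0 : 0 ≤ s)
    (h2 : s ≤ 2) : d ^ (-s) ≤ K ^ 2 * p ^ (-(e * s)) := by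
  have K0 : 0 < K := by linarith
  have h1 : p ^ e / K ≤ d := by rwa [div_le_iff₀' K0]
  refine (Real.rpow_le_rpow_of_nonpos (by positivity) h1 (by linarith)).trans ?_
  rw [Real.div_rpow (by positivity) K0.le, ← Real.rpow_natCast, ← Real.rpow_mul hp.le,
    Real.rpow_neg K0.le, div_inv_eq_mul, mul_comm, mul_neg]
  refine mul_le_mul_of_nonneg_right ?_ (by positivity)
  rw [← Real.rpow_natCast]
  exact Real.rpow_le_rpow_of_exponent_le hK (by exact_mod_cast h2)

theorem f0c_small {n p : ℕ} [Fact p.Prime] (hn : 4 ≤ n) {a b : Fin n} (hab : a ≠ b)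
    (ψ : AddChar (ZMod p) ℂ) (s : Finset (GLn n (ZMod p) → ℂ))
    (hs : ∀ χ ∈ s, ∃ φ₁ φ₂, f0cEig (H1 (ZMod p) a b) (phi a b φ₁ φ₂ ψ) χ) :
    s.card ≤ n ^ 2 * p ^ 3 := by
  classical
  obtain ⟨S, hS⟩ := H1_subgroup (ZMod p) hab
  obtain ⟨Y, hY, hY'⟩ := double_cosets hn (ZMod p) hab
  rw [← hS] at hs hY'
  rw [ZMod.card] at hY
  have := Fintype.ofFinite (MulChar (ZMod p) ℂ)
  have hc : Fintype.card (MulChar (ZMod p) ℂ) ≤ p := by
    rw [← Nat.card_eq_fintype_card, MulChar.card_eq_card_units_of_hasEnoughRootsOfUnity,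
      Nat.card_eq_fintype_card, ZMod.card_units]
    exact Nat.sub_le _ _
  have h1 : s ⊆ (Finset.univ : Finset (MulChar (ZMod p) ℂ × MulChar (ZMod p) ℂ)).biUnion
      fun φ => s.filter fun χ => f0cEig (S : Set _) (phi a b φ.1 φ.2 ψ) χ := fun χ hχ => by
    obtain ⟨φ₁, φ₂, h⟩ := hs χ hχ
    exact Finset.mem_biUnion.2 ⟨(φ₁, φ₂), Finset.mem_univ _, Finset.mem_filter.2 ⟨hχ, h⟩⟩
  refine (Finset.card_le_card h1).trans ((Finset.card_biUnion_le_card_mul _ _ (n ^ 2 * p)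
    fun φ _ => (f0c_count S _ Y hY' _ fun χ hχ => (Finset.mem_filter.1 hχ).2).trans hY).trans ?_)
  rw [Finset.card_univ, Fintype.card_prod]
  calc _ ≤ p * p * (n ^ 2 * p) := Nat.mul_le_mul_right _ (Nat.mul_le_mul hc hc)
    _ = _ := by ring

theorem f0c_Zs {G : Type} [Group G] [Finite G] (P : (G → ℂ) → Prop) (s : ℝ) :
    ∃ A : Finset (G → ℂ), A ⊆ Irr G ∧ (∀ χ ∈ A, P χ) ∧ Zs G P s = ∑ χ ∈ A, ‖χ 1‖ ^ (-s) := by
  classical
  exact ⟨(Irr G).filter P, Finset.filter_subset _ _, fun χ hχ => (Finset.mem_filter.1 hχ).2, rfl⟩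

theorem level_zero (n : ℕ) (hn : 4 ≤ n) : ∃ C : ℝ, ∀ (p : ℕ) [Fact p.Prime] (s : ℝ), 1 ≤ s → s ≤ 2 →
    Zs (GLn n (ZMod p)) (fun χ => ∃ x ∈ (Set.univ : Set (SLn n (ZMod p))),
      ¬ InKer χ (inGL n _ x)) s ≤ C * (p : ℝ) ^ (1 - s) := by
  classical
  obtain ⟨C, hC⟩ := card_Irr_GL n
  refine ⟨n ^ 2 * 2 ^ 2 + C * 4 ^ 2, fun p hp s h1 h2 => ?_⟩
  have hab : (⟨0, by omega⟩ : Fin n) ≠ ⟨1, by omega⟩ := by simp
  generalize (⟨0, by omega⟩ : Fin n) = a at hab
  generalize (⟨1, by omega⟩ : Fin n) = b at hab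
  have p2 : (2 : ℝ) ≤ p := by exact_mod_cast hp.out.two_le
  have p0 : (0 : ℝ) < p := by linarith
  have n4 : (4 : ℝ) ≤ n := by exact_mod_cast hn
  have q1 : 1 ≤ p ^ (n - 1) := Nat.one_le_pow _ _ hp.out.pos
  have q2 : (2 : ℝ) ≤ p ^ (n - 1) := p2.trans (le_self_pow₀ (by linarith) (by omega))
  have q3 : (p : ℝ) ^ n = p ^ (n - 1) * p := by
    rw [← pow_succ, Nat.sub_add_cancel (by omega)]
  obtain ⟨A, hA, hP, e⟩ := f0c_Zs (fun χ => ∃ x ∈ (Set.univ : Set (SLn n (ZMod p))),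
    ¬ InKer χ (inGL n _ x)) s
  rw [e]
  have key : ∀ χ ∈ A, (p : ℝ) ^ (n - 1) ≤ 2 * ‖χ 1‖ ∧ ((p : ℝ) ^ n ≤ 4 * ‖χ 1‖ ∨
      ∃ φ₁ φ₂, f0cEig (H1 (ZMod p) a b) (phi a b φ₁ φ₂ (ZMod.stdAddChar (N := p))) χ) := by
    intro χ hχ
    obtain ⟨x, -, hx⟩ := hP χ hχ
    obtain ⟨V, _, _, _, ρ, hρ, rfl⟩ := mem_Irr.1 (hA hχ)
    obtain ⟨d1, d2⟩ := dichotomy (p := p) (by omega) hab ρ hρ ⟨x, fun e => hx fun g => by
      rw [Representation.character, Representation.character, map_mul, e, one_mul]⟩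
    rw [Representation.char_one, Complex.norm_natCast]
    have d1' : (p : ℝ) ^ (n - 1) - 1 ≤ Module.finrank ℂ V := by exact_mod_cast d1
    refine ⟨by linarith, d2.imp (fun d => ?_) fun ⟨φ₁, φ₂, d⟩ =>
      ⟨φ₁, φ₂, V, _, _, inferInstance, ρ, hρ, rfl, d⟩⟩
    have d' : ((p : ℝ) ^ (n - 1) - 1) * (p - 1) ≤ Module.finrank ℂ V := by
      have := hp.out.one_le
      exact_mod_cast d
    rw [q3]
    nlinarith [mul_nonneg (sub_nonneg.2 q2) (sub_nonneg.2 p2)]
  rw [← Finset.sum_filter_add_sum_filter_not A fun χ => ∃ φ₁ φ₂,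
    f0cEig (H1 (ZMod p) a b) (phi a b φ₁ φ₂ (ZMod.stdAddChar (N := p))) χ, add_mul]
  refine add_le_add ?_ ?_
  · refine (Finset.sum_le_card_nsmul _ _ _ fun χ hχ => f0c_pow p0 one_le_two
      (key χ (Finset.mem_filter.1 hχ).1).1 (by linarith) h2).trans ?_
    have h3 := f0c_small hn hab _ _ fun χ hχ => (Finset.mem_filter.1 hχ :
      χ ∈ A ∧ ∃ φ₁ φ₂, f0cEig (H1 (ZMod p) a b) (phi a b φ₁ φ₂ (ZMod.stdAddChar (N := p))) χ).2
    rw [nsmul_eq_mul]
    refine (mul_le_mul_of_nonneg_right (Nat.cast_le.2 h3) (by positivity)).trans ?_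
    have h4 : (p : ℝ) ^ 3 * (p : ℝ) ^ (-((n - 1 : ℕ) * s)) ≤ (p : ℝ) ^ (1 - s) := by
      rw [← Real.rpow_natCast, ← Real.rpow_add p0, Nat.cast_sub (by omega)]
      refine Real.rpow_le_rpow_of_exponent_le (by linarith) ?_
      push_cast
      nlinarith
    have h5 := mul_le_mul_of_nonneg_left h4 (show (0 : ℝ) ≤ n ^ 2 * 2 ^ 2 by positivity)
    push_cast
    linarith
  · refine (Finset.sum_le_card_nsmul _ _ _ fun χ hχ => f0c_pow p0 (K := 4) (by norm_num)
      ((key χ (Finset.mem_filter.1 hχ).1).2.resolve_right (Finset.mem_filter.1 hχ).2)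
      (by linarith) h2).trans ?_
    have h3 : (A.filter fun χ => ¬∃ φ₁ φ₂, f0cEig (H1 (ZMod p) a b)
        (phi a b φ₁ φ₂ (ZMod.stdAddChar (N := p))) χ).card ≤ C * p ^ n :=
      (Finset.card_le_card ((Finset.filter_subset _ _).trans hA)).trans (hC p)
    rw [nsmul_eq_mul]
    refine (mul_le_mul_of_nonneg_right (Nat.cast_le.2 h3) (by positivity)).trans ?_
    have h4 : (p : ℝ) ^ n * (p : ℝ) ^ (-(n * s)) ≤ (p : ℝ) ^ (1 - s) := by
      rw [← Real.rpow_natCast, ← Real.rpow_add p0]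
      refine Real.rpow_le_rpow_of_exponent_le (by linarith) ?_
      nlinarith
    have h5 := mul_le_mul_of_nonneg_left h4 (show (0 : ℝ) ≤ C * 4 ^ 2 by positivity)
    push_cast
    linarith

end Pool.Agent.MP_8299d6_al.Up

end
end

section

/-! Definitions for the characters of `GL_4` over a finite field. -/

open Matrix

noncomputable section

namespace Pool.Agent.MP_8299d6_al.Up

/-- upper unitriangular matrices -/
def Uup (n : ℕ) (F : Type) [Field F] : Set (GLn n F) :=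
  {g | (∀ i j, j < i → g.1 i j = 0) ∧ ∀ i, g.1 i i = 1}

/-- the nondegenerate character of the unitriangular group -/
def psiU {F : Type} [Field F] (ψ : AddChar F ℂ) (g : GLn 4 F) : ℂ :=
  ψ (g.1 0 1 + g.1 1 2 + g.1 2 3)

/-- monomial matrices: the basis vector `j` goes to `t j` times the basis vector `w j` -/
def IsMon {n : ℕ} {F : Type} [Field F] (w : Equiv.Perm (Fin n)) (t : Fin n → Fˣ) (g : GLn n F) :
    Prop := ∀ i j, g.1 i j = if i = w j then (t j : F) else 0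

/-- `g` supports a function that is equivariant on both sides -/
def Relv {G : Type} [Group G] (S : Set G) (φ : G → ℂ) (g : G) : Prop :=
  ∀ a ∈ S, ∀ b ∈ S, a * g * b = g → φ a * φ b = 1

/-- the group of matrices acting trivially on the quotient by the first basis vector -/
def Bp (F : Type) [Field F] : Set (GLn 2 F) := {g | g.1 1 0 = 0 ∧ g.1 1 1 = 1}

/-- the pairs whose parabolic induction is irreducible -/
def Good {F : Type} [Field F] [Finite F] (μ : MulChar F ℂ) (τ : GLn 2 F → ℂ) : Prop :=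
  τ ∈ Irr (GLn 2 F) ∧ 1 < ‖τ 1‖ ∧ ¬ f0cEig (Bp F) (fun g => μ g.1.det) τ

/-- the stabiliser of the plane spanned by the first two basis vectors -/
def P22 (F : Type) [Field F] : Set (GLn 4 F) :=
  {g | g.1 2 0 = 0 ∧ g.1 2 1 = 0 ∧ g.1 3 0 = 0 ∧ g.1 3 1 = 0}

/-- the upper left block -/
def blkA {F : Type} [Field F] (x : Mat 4 F) : Mat 2 F := !![x 0 0, x 0 1; x 1 0, x 1 1]

/-- the lower right block -/
def blkD {F : Type} [Field F] (x : Mat 4 F) : Mat 2 F := !![x 2 2, x 2 3; x 3 2, x 3 3]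

end Pool.Agent.MP_8299d6_al.Up

end
end

section

open Matrix

noncomputable section

namespace Pool.Agent.MP_8299d6_al.Up

open Pool.Agent.MP_810665_al (IrrChar)

variable {G : Type} [Group G] [Fintype G]

open Pool.Agent.MP_810665_al (proj proj_apply trace_proj irreducible_iff)

/-- the Hecke space -/
def xgelH (S : Subgroup G) (φ m : G → ℂ) : Prop :=
  ∀ a ∈ S, ∀ b ∈ S, ∀ y, m (a * y * b) = φ a * φ b * m y

open Classical in
/-- two-sided averaging -/
def xgelAv (S : Subgroup G) (φ f : G → ℂ) (z : G) : ℂ :=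
  ∑ a : S, ∑ b : S, φ (a⁻¹ : S) * φ (b⁻¹ : S) * f (a * z * b)

section
variable {S : Subgroup G} {φ : G → ℂ}

omit [Fintype G] in
theorem xgel_inv (h1 : φ 1 = 1) (hm : ∀ a ∈ S, ∀ b ∈ S, φ (a * b) = φ a * φ b) {a : G}
    (ha : a ∈ S) : φ a⁻¹ * φ a = 1 := by
  rw [← hm _ (S.inv_mem ha) _ ha, inv_mul_cancel, h1]

theorem xgel_av (hm : ∀ a ∈ S, ∀ b ∈ S, φ (a * b) = φ a * φ b) (f : G → ℂ) :
    xgelH S φ (xgelAv S φ f) := by
  classical
  intro a ha b hb y
  simp only [xgelAv, Finset.mul_sum]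
  refine Fintype.sum_equiv (Equiv.mulRight (⟨a, ha⟩ : S)) _ _ fun c => ?_
  refine Fintype.sum_equiv (Equiv.mulLeft (⟨b, hb⟩ : S)) _ _ fun d => ?_
  have e1 := hm a ha _ ((c * ⟨a, ha⟩)⁻¹).2
  have e2 := hm _ ((⟨b, hb⟩ * d)⁻¹ : S).2 b hb
  simp only [Equiv.coe_mulRight, Equiv.coe_mulLeft, Subgroup.coe_mul, Subgroup.coe_inv,
    _root_.mul_inv_rev, mul_inv_cancel_left, inv_mul_cancel_right] at e1 e2 ⊢
  rw [e1, e2]
  simp only [mul_assoc]
  ring

omit [Fintype G] in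
theorem xgel_zero {m : G → ℂ} (h : xgelH S φ m) {g : G} (hg : ¬ Relv (S : Set G) φ g) :
    m g = 0 := by
  by_contra h0
  refine hg fun a ha b hb e => ?_
  have := h a ha b hb g
  rw [e] at this
  exact (mul_eq_right₀ h0).1 this.symm

omit [Fintype G] in
theorem xgel_theta {θ : G → G} (hθ : ∀ x y, θ (x * y) = θ y * θ x)
    (hθθ : ∀ x, θ (θ x) = x) (hS : ∀ a ∈ S, θ a ∈ S ∧ φ (θ a) = φ a)
    (hfix : ∀ g, Relv (S : Set G) φ g → ∃ a ∈ S, ∃ b ∈ S, ∃ y, θ y = y ∧ g = a * y * b)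
    {m : G → ℂ} (h : xgelH S φ m) (g : G) : m (θ g) = m g := by
  have key : ∀ g, Relv (S : Set G) φ g → m (θ g) = m g := fun g hg => by
    obtain ⟨a, ha, b, hb, y, hy, rfl⟩ := hfix g hg
    rw [hθ, hθ, hy, ← mul_assoc, h _ (hS b hb).1 _ (hS a ha).1, h a ha b hb, (hS a ha).2,
      (hS b hb).2, mul_comm (φ a)]
  by_cases h1 : Relv (S : Set G) φ g
  · exact key g h1
  by_cases h2 : Relv (S : Set G) φ (θ g)
  · rw [← key _ h2, hθθ]
  rw [xgel_zero h h1, xgel_zero h h2]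

/-- convolution -/
def xgelC (m n : G → ℂ) (z : G) : ℂ := ∑ g, m g⁻¹ * n (z * g)

theorem xgel_conv (h1 : φ 1 = 1) {m n : G → ℂ} (h : xgelH S φ m) (h' : xgelH S φ n) :
    xgelH S φ (xgelC m n) := by
  intro a ha b hb y
  simp only [xgelC, Finset.mul_sum]
  refine Fintype.sum_equiv (Equiv.mulLeft b) _ _ fun g => ?_
  have e1 := h 1 S.one_mem b hb (b * g)⁻¹
  have e2 := h' a ha 1 S.one_mem (y * (b * g))
  simp only [Equiv.coe_mulLeft, _root_.mul_inv_rev, one_mul, mul_one, h1, mul_assoc,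
    inv_mul_cancel] at e1 e2 ⊢
  rw [e1, e2]
  ring

theorem xgel_comm (h1 : φ 1 = 1) {θ : G → G} (hθ : ∀ x y, θ (x * y) = θ y * θ x)
    (hθθ : ∀ x, θ (θ x) = x) (ht : ∀ m, xgelH S φ m → ∀ g, m (θ g) = m g) {m n : G → ℂ}
    (h : xgelH S φ m) (h' : xgelH S φ n) : xgelC m n = xgelC n m := by
  have t1 : θ 1 = 1 := by
    have := hθ 1 1
    rw [mul_one] at this
    exact mul_eq_left.1 this.symm
  have t2 : ∀ x, θ x⁻¹ = (θ x)⁻¹ := fun x => by
    rw [eq_inv_iff_mul_eq_one, ← hθ, mul_inv_cancel, t1]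
  funext z
  rw [← ht _ (xgel_conv h1 h h') z]
  simp only [xgelC]
  refine Fintype.sum_equiv ((Function.Involutive.toPerm θ hθθ).trans
    ((Equiv.inv G).trans (Equiv.mulLeft z⁻¹))) _ _ fun g => ?_
  simp only [Equiv.trans_apply, Function.Involutive.coe_toPerm, Equiv.inv_apply,
    Equiv.coe_mulLeft, _root_.mul_inv_rev, inv_inv, mul_inv_cancel_left]
  rw [← t2, ht m h, ← ht n h' (θ g * z), hθ, hθθ, mul_comm]

variable {V : Type} [AddCommGroup V] [Module ℂ V] (ρ : Representation ℂ G V)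

theorem xgel_mul (m n : G → ℂ) (v : V) : proj m ρ (proj n ρ v) = proj (xgelC m n) ρ v := by
  simp only [proj_apply, map_sum, map_smul, xgelC, Finset.sum_smul, Finset.smul_sum]
  rw [Finset.sum_comm, Finset.sum_comm (f := fun x g => (m g⁻¹ * n (x⁻¹ * g)) • ρ x v)]
  refine Finset.sum_congr rfl fun g _ => ?_
  refine Fintype.sum_equiv (Equiv.mulLeft g) _ _ fun h => ?_
  simp [smul_smul, mul_comm]

theorem xgel_left (h1 : φ 1 = 1) {m : G → ℂ} (h : xgelH S φ m) {a : G} (ha : a ∈ S) (v : V) :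
    ρ a (proj m ρ v) = φ a • proj m ρ v := by
  simp only [proj_apply, map_sum, map_smul, Finset.smul_sum]
  refine Fintype.sum_equiv (Equiv.mulLeft a) _ _ fun g => ?_
  have e1 := h 1 S.one_mem a ha (a * g)⁻¹
  simp only [Equiv.coe_mulLeft, _root_.mul_inv_rev, one_mul, h1, inv_mul_cancel_right] at e1 ⊢
  rw [e1, smul_smul, map_mul, Module.End.mul_apply]

theorem xgel_right (h1 : φ 1 = 1) {m : G → ℂ} (h : xgelH S φ m) {a : G} (ha : a ∈ S) (v : V) :
    proj m ρ (ρ a v) = φ a • proj m ρ v := by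
  simp only [proj_apply, Finset.smul_sum]
  refine Fintype.sum_equiv (Equiv.mulRight a) _ _ fun g => ?_
  have e1 := h a ha 1 S.one_mem (g * a)⁻¹
  simp only [Equiv.coe_mulRight, _root_.mul_inv_rev, mul_one, h1, mul_inv_cancel_left] at e1 ⊢
  rw [e1, smul_smul, map_mul, Module.End.mul_apply]

/-- the eigenspace -/
def xgelW (S : Subgroup G) (φ : G → ℂ) : Submodule ℂ V where
  carrier := {v | ∀ a ∈ S, ρ a v = φ a • v}
  zero_mem' := fun a _ => by simp
  add_mem' := fun {v w} hv hw a ha => by rw [map_add, hv a ha, hw a ha, smul_add]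
  smul_mem' := fun c v hv a ha => by rw [map_smul, hv a ha, smul_comm]

open Classical in
theorem xgel_e (hm : ∀ a ∈ S, ∀ b ∈ S, φ (a * b) = φ a * φ b) (v : V) :
    ∑ a : S, φ (a⁻¹ : S) • ρ a v ∈ xgelW ρ S φ := by
  intro b hb
  simp only [map_sum, map_smul, Finset.smul_sum]
  refine Fintype.sum_equiv (Equiv.mulLeft (⟨b, hb⟩ : S)) _ _ fun d => ?_
  have e2 := hm _ ((⟨b, hb⟩ * d)⁻¹ : S).2 b hb
  simp only [Equiv.coe_mulLeft, Subgroup.coe_mul, Subgroup.coe_inv,
    _root_.mul_inv_rev, inv_mul_cancel_right] at e2 ⊢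
  rw [e2, smul_smul, map_mul, Module.End.mul_apply, mul_comm]

theorem xgel_trans (h1 : φ 1 = 1) (hm : ∀ a ∈ S, ∀ b ∈ S, φ (a * b) = φ a * φ b)
    (hρ : ρ.IsIrreducible) {w w' : V} (hw : w ∈ xgelW ρ S φ) (h0 : w ≠ 0)
    (hw' : w' ∈ xgelW ρ S φ) : ∃ n, xgelH S φ n ∧ proj n ρ w = w' := by
  classical
  let P : (G → ℂ) →ₗ[ℂ] V :=
    { toFun := fun f => proj f ρ w
      map_add' := fun f f' => by simp [proj_apply, add_smul, Finset.sum_add_distrib]
      map_smul' := fun c f => by simp [proj_apply, Finset.smul_sum, smul_smul] }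
  have hP : LinearMap.range P = ⊤ := by
    refine (((irreducible_iff ρ).1 hρ).2 _ ?_).resolve_left fun h => h0 ?_
    · rintro g _ ⟨f, rfl⟩
      refine ⟨fun x => f (x * g), ?_⟩
      simp only [P, LinearMap.coe_mk, AddHom.coe_mk, proj_apply, map_sum, map_smul]
      refine (Fintype.sum_equiv (Equiv.mulLeft g) _ _ fun x => ?_).symm
      simp
    · have : w ∈ LinearMap.range P := ⟨Pi.single 1 1, by
        simp [P, proj_apply, Pi.single_apply]⟩
      rwa [h] at this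
  have hc : (Fintype.card S : ℂ) ≠ 0 := Nat.cast_ne_zero.2 Fintype.card_ne_zero
  obtain ⟨f, hf⟩ : ((Fintype.card S : ℂ) ^ 2)⁻¹ • w' ∈ LinearMap.range P :=
    hP ▸ Submodule.mem_top
  refine ⟨xgelAv S φ f, xgel_av hm f, ?_⟩
  have hf' : ∑ g, f g⁻¹ • ρ g w = ((Fintype.card S : ℂ) ^ 2)⁻¹ • w' := by
    rw [← hf, ← proj_apply]; rfl
  have key : ∀ a b : S, ∑ g, (φ (a⁻¹ : S) * φ (b⁻¹ : S) * f (a * g⁻¹ * b)) • ρ g w =
      ((Fintype.card S : ℂ) ^ 2)⁻¹ • w' := fun a b => by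
    have e1 : (φ (b⁻¹ : S)) • ρ b (∑ g, f g⁻¹ • ρ g w) = ((Fintype.card S : ℂ) ^ 2)⁻¹ • w' := by
      rw [hf', map_smul, hw' b b.2, smul_comm, smul_smul (φ _), Subgroup.coe_inv,
        xgel_inv h1 hm b.2, one_smul]
    rw [← e1, map_sum, Finset.smul_sum]
    refine (Fintype.sum_equiv ((Equiv.mulLeft (b : G)).trans (Equiv.mulRight (a : G))) _ _
      fun g => ?_).symm
    simp only [Equiv.trans_apply, Equiv.coe_mulLeft, Equiv.coe_mulRight, _root_.mul_inv_rev,
      mul_inv_cancel_left, inv_mul_cancel_right, map_mul, Module.End.mul_apply, hw a a.2,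
      map_smul, smul_smul, Subgroup.coe_inv]
    congr 1
    linear_combination -(φ (b : G)⁻¹ * f g⁻¹) * xgel_inv h1 hm a.2
  simp only [proj_apply, xgelAv, Finset.sum_smul]
  rw [Finset.sum_comm]
  refine (Finset.sum_congr rfl fun a _ => Finset.sum_comm.trans
    (Finset.sum_congr rfl fun b _ => key a b)).trans ?_
  simp only [Finset.sum_const, Finset.card_univ, ← Nat.cast_smul_eq_nsmul ℂ, smul_smul]
  rw [← mul_assoc, ← pow_two, mul_inv_cancel₀ (pow_ne_zero 2 hc), one_smul]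

theorem xgel_trace [FiniteDimensional ℂ V] (h1 : φ 1 = 1)
    (hm : ∀ a ∈ S, ∀ b ∈ S, φ (a * b) = φ a * φ b) (hρ : ρ.IsIrreducible)
    (hc : ∀ m n, xgelH S φ m → xgelH S φ n → xgelC m n = xgelC n m) {m : G → ℂ}
    (h : xgelH S φ m) (h0 : proj m ρ ≠ 0) :
    (∃ v : V, v ≠ 0 ∧ v ∈ xgelW ρ S φ) ∧ LinearMap.trace ℂ V (proj m ρ) ≠ 0 := by
  classical
  have hW : ∀ v, proj m ρ v ∈ xgelW ρ S φ := fun v a ha => xgel_left ρ h1 h ha v
  obtain ⟨v, hv⟩ : ∃ v, proj m ρ v ≠ 0 := by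
    by_contra hh
    push Not at hh
    exact h0 (LinearMap.ext hh)
  refine ⟨⟨_, hv, hW v⟩, ?_⟩
  have : Nontrivial (xgelW ρ S φ) := ⟨⟨_, hW v⟩, 0, fun e => hv (congrArg Subtype.val e)⟩
  obtain ⟨c, hc'⟩ := Module.End.exists_eigenvalue
    ((proj m ρ).restrict (p := xgelW ρ S φ) (q := xgelW ρ S φ) fun x _ => hW x)
  obtain ⟨w, hw⟩ := hc'.exists_hasEigenvector
  have hw1 : proj m ρ w = c • w := congrArg Subtype.val hw.apply_eq_smul
  have hsc : ∀ w' ∈ xgelW ρ S φ, proj m ρ w' = c • w' := fun w' hw' => by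
    obtain ⟨n, hn, rfl⟩ := xgel_trans ρ h1 hm hρ w.2 (fun e => hw.2 (Subtype.ext e)) hw'
    rw [xgel_mul, hc m n h hn, ← xgel_mul, hw1, map_smul]
  have hc0 : c ≠ 0 := by
    rintro rfl
    have e1 := hsc _ (xgel_e ρ hm v)
    rw [zero_smul, map_sum, Finset.sum_congr rfl (g := fun _ => proj m ρ v) fun a _ => by
      rw [map_smul, xgel_right ρ h1 h a.2, smul_smul, Subgroup.coe_inv, xgel_inv h1 hm a.2,
        one_smul], Finset.sum_const, ← Nat.cast_smul_eq_nsmul ℂ] at e1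
    exact hv ((smul_eq_zero.1 e1).resolve_left (Nat.cast_ne_zero.2 Fintype.card_ne_zero))
  have hp : LinearMap.IsProj (xgelW ρ S φ) (c⁻¹ • proj m ρ) :=
    ⟨fun x => Submodule.smul_mem _ _ (hW x), fun x hx => by
      rw [LinearMap.smul_apply, hsc x hx, smul_smul, inv_mul_cancel₀ hc0, one_smul]⟩
  have ht := hp.trace
  intro e
  rw [map_smul, e, smul_zero] at ht
  exact (Module.finrank_pos (R := ℂ) (M := xgelW ρ S φ)).ne' (by exact_mod_cast ht.symm)

end

open Classical in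
/-- the Gelfand trick -/
theorem gelfand (S : Subgroup G) (φ : G → ℂ) (h1 : φ 1 = 1)
    (hm : ∀ a ∈ S, ∀ b ∈ S, φ (a * b) = φ a * φ b) (θ : G → G) (hθ : ∀ x y, θ (x * y) = θ y * θ x)
    (hθθ : ∀ x, θ (θ x) = x) (hS : ∀ a ∈ S, θ a ∈ S ∧ φ (θ a) = φ a)
    (hfix : ∀ g, Relv (S : Set G) φ g → ∃ a ∈ S, ∃ b ∈ S, ∃ y, θ y = y ∧ g = a * y * b)
    {X : Type} [Fintype X] (y : X → G) (hy : ∀ i, Relv (S : Set G) φ (y i))
    (hsep : ∀ i j, ∀ a ∈ S, ∀ b ∈ S, a * y i * b = y j → i = j) :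
    Fintype.card X ≤ ((Irr G).filter (f0cEig (S : Set G) φ)).card := by
  have hc : ∀ m n, xgelH S φ m → xgelH S φ n → xgelC m n = xgelC n m := fun m n =>
    xgel_comm h1 hθ hθθ fun m h => xgel_theta hθ hθθ hS hfix h
  let m : X → G → ℂ := fun i => xgelAv S φ (Pi.single (y i) 1)
  have hli : LinearIndependent ℂ fun (i : X) (χ : (Irr G).filter (f0cEig (S : Set G) φ)) =>
      ∑ g, χ.1 g * m i g⁻¹ := by
    rw [Fintype.linearIndependent_iff]
    intro c hc0 i
    let n : G → ℂ := fun g => ∑ j, c j * m j g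
    have hn : xgelH S φ n := fun a ha b hb z => by
      simp only [n, Finset.mul_sum]
      exact Finset.sum_congr rfl fun j _ => by simp only [m]; rw [xgel_av hm _ a ha b hb]; ring
    have h2 := op_eq_zero (fun g => n g⁻¹) fun V _ _ _ ρ hρ => by
      by_contra h0
      obtain ⟨⟨v, hv, hv'⟩, ht⟩ := xgel_trace ρ h1 hm hρ hc hn h0
      have h3 := congrFun hc0 ⟨ρ.character, Finset.mem_filter.2
        ⟨mem_Irr.2 ⟨V, _, _, inferInstance, ρ, hρ, rfl⟩, V, _, _, inferInstance, ρ, hρ, rfl, v, hv,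
          hv'⟩⟩
      simp only [Finset.sum_apply, Pi.smul_apply, smul_eq_mul, Pi.zero_apply, Finset.mul_sum] at h3
      refine ht ?_
      rw [trace_proj, ← h3, Finset.sum_comm]
      simp only [n, Finset.mul_sum]
      exact Finset.sum_congr rfl fun g _ => Finset.sum_congr rfl fun j _ => by ring
    have h3 := congrFun h2 (y i)⁻¹
    simp only [inv_inv, Pi.zero_apply, n] at h3
    rw [Finset.sum_eq_single i] at h3
    · refine (mul_eq_zero.1 h3).resolve_right ?_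
      have e : m i (y i) = ((∑ a : S, ∑ b : S, if (a : G) * y i * b = y i then 1 else 0 : ℕ) : ℂ) := by
        simp only [m, xgelAv, Pi.single_apply, Nat.cast_sum, Nat.cast_ite, Nat.cast_one,
          Nat.cast_zero]
        refine Finset.sum_congr rfl fun a _ => Finset.sum_congr rfl fun b _ => ?_
        split_ifs with e
        · rw [mul_one]
          refine hy i _ (a⁻¹).2 _ (b⁻¹).2 ?_
          conv_lhs => rw [← e]
          simp [mul_assoc]
        · rw [mul_zero]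
      rw [e, Nat.cast_eq_zero]
      intro e0
      have := Finset.sum_eq_zero_iff.1 (Finset.sum_eq_zero_iff.1 e0 1 (Finset.mem_univ _)) 1
        (Finset.mem_univ _)
      simp at this
    · intro j _ hj
      refine mul_eq_zero_of_right _ (Finset.sum_eq_zero fun a _ => Finset.sum_eq_zero fun b _ => ?_)
      rw [Pi.single_eq_of_ne fun e => hj (hsep i j a a.2 b b.2 e).symm, mul_zero]
    · simp
  simpa using hli.fintype_card_le_finrank

/-- translates of an eigenvector by irrelevant elements are independent -/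
theorem eig_deg (S : Subgroup G) (φ : G → ℂ) {χ : G → ℂ} (hχ : f0cEig (S : Set G) φ χ)
    {X : Type} [Fintype X] (t : X → G)
    (ht : ∀ i j, Relv (S : Set G) φ ((t i)⁻¹ * t j) → i = j) :
    (Fintype.card X : ℝ) ≤ ‖χ 1‖ := by
  classical
  obtain ⟨V, _, _, _, ρ, hρ, rfl, v, hv, he⟩ := hχ
  have hmul : ∀ a ∈ S, ∀ b ∈ S, φ (a * b) = φ a * φ b := fun a ha b hb => by
    have h1 := he _ (S.mul_mem ha hb)
    rw [map_mul, Module.End.mul_apply, he b hb, map_smul, he a ha, smul_smul] at h1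
    rw [← smul_left_injective ℂ hv h1, mul_comm]
  have hone : φ 1 = 1 := by
    have h1 := he 1 S.one_mem
    rw [map_one, Module.End.one_apply] at h1
    exact smul_left_injective ℂ hv (h1.symm.trans (one_smul ℂ v).symm)
  obtain ⟨l₀, hl₀⟩ := Module.Projective.exists_dual_ne_zero ℂ hv
  let l : V →ₗ[ℂ] ℂ := ∑ a : S, φ (a⁻¹ : S) • l₀ ∘ₗ ρ a
  have hl : ∀ w, l w = ∑ a : S, φ (a⁻¹ : S) * l₀ (ρ a w) := fun w => by
    simp [l, LinearMap.sum_apply]
  have hlv : l v ≠ 0 := by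
    have : ∀ a : S, φ (a⁻¹ : S) * l₀ (ρ a v) = l₀ v := fun a => by
      rw [he a a.2, map_smul, smul_eq_mul, ← mul_assoc, ← hmul _ (a⁻¹).2 _ a.2, ← S.coe_mul,
        inv_mul_cancel, S.coe_one, hone, one_mul]
    rw [hl, Finset.sum_congr rfl fun a _ => this a, Finset.sum_const, nsmul_eq_mul]
    exact mul_ne_zero (Nat.cast_ne_zero.2 Fintype.card_ne_zero) hl₀
  have hla : ∀ a ∈ S, ∀ w, l (ρ a w) = φ a * l w := fun a ha w => by
    rw [hl, hl, Finset.mul_sum]
    refine Fintype.sum_equiv (Equiv.mulRight (⟨a, ha⟩ : S)) _ _ fun c => ?_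
    rw [Equiv.coe_mulRight, ← mul_assoc, ← hmul a ha _ ((c * ⟨a, ha⟩)⁻¹).2, S.coe_mul, map_mul,
      Module.End.mul_apply]
    congr 2
    simp
  have hH : xgelH S φ fun g => l (ρ g v) := fun a ha b hb y => by
    simp only [map_mul, Module.End.mul_apply]
    rw [hla a ha, he b hb, map_smul, map_smul, smul_eq_mul, mul_assoc]
  have hli : LinearIndependent ℂ fun j : X => ρ (t j) v := by
    rw [Fintype.linearIndependent_iff]
    intro c hc i
    have h1 := congrArg (fun w => l (ρ (t i)⁻¹ w)) hc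
    simp only [map_sum, map_smul, map_zero, smul_eq_mul] at h1
    rw [Finset.sum_eq_single i] at h1
    · refine (mul_eq_zero.1 h1).resolve_right ?_
      rwa [← Module.End.mul_apply, ← map_mul, inv_mul_cancel, map_one, Module.End.one_apply]
    · intro j _ hj
      rw [← Module.End.mul_apply, ← map_mul]
      exact mul_eq_zero_of_right _ (xgel_zero hH fun e => hj (ht i j e).symm)
    · simp
  rw [Representation.char_one, Complex.norm_natCast]
  exact_mod_cast hli.fintype_card_le_finrank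

omit [Fintype G] in
theorem relv_mul (S : Subgroup G) (φ : G → ℂ) (h1 : φ 1 = 1)
    (hm : ∀ a ∈ S, ∀ b ∈ S, φ (a * b) = φ a * φ b) {g a b : G} (ha : a ∈ S) (hb : b ∈ S)
    (h : Relv (S : Set G) φ (a * g * b)) : Relv (S : Set G) φ g := by
  intro c hc d hd e
  have h2 := h (a * c * a⁻¹) (S.mul_mem (S.mul_mem ha hc) (S.inv_mem ha)) (b⁻¹ * d * b)
    (S.mul_mem (S.mul_mem (S.inv_mem hb) hd) hb) (by
      conv_rhs => rw [← e]
      simp [mul_assoc])
  rw [hm _ (S.mul_mem ha hc) _ (S.inv_mem ha), hm a ha c hc,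
    hm _ (S.mul_mem (S.inv_mem hb) hd) b hb, hm _ (S.inv_mem hb) d hd] at h2
  have e1 := xgel_inv h1 hm ha
  have e2 := xgel_inv h1 hm hb
  linear_combination h2 - φ c * φ d * e1 - φ c * φ d * φ a⁻¹ * φ a * e2

end Pool.Agent.MP_8299d6_al.Up

end
end

section

open Matrix

noncomputable section

namespace Pool.Agent.MP_8299d6_al.Up

open Pool.Agent.MP_810665_al (IrrChar)

variable {n : ℕ} {F : Type} [Field F]

lemma xbru_tri_mul {a b : Mat n F} (ha : ∀ i j, j < i → a i j = 0)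
    (hb : ∀ i j, j < i → b i j = 0) (i j : Fin n) (h : j < i) : (a * b) i j = 0 := by
  rw [Matrix.mul_apply]
  refine Finset.sum_eq_zero fun k _ => ?_
  by_cases hk : k < i
  · rw [ha i k hk, zero_mul]
  · rw [hb k j (lt_of_lt_of_le h (not_lt.1 hk)), mul_zero]

lemma xbru_diag_mul {a b : Mat n F} (ha : ∀ i j, j < i → a i j = 0)
    (hb : ∀ i j, j < i → b i j = 0) (i : Fin n) : (a * b) i i = a i i * b i i := by
  rw [Matrix.mul_apply]
  refine Finset.sum_eq_single i (fun k _ hk => ?_) (fun h => absurd (Finset.mem_univ i) h)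
  rcases lt_or_gt_of_ne hk with h | h
  · rw [ha i k h, zero_mul]
  · rw [hb k i h, mul_zero]

lemma xbru_mul_mem {a b : GLn n F} (ha : a ∈ Uup n F) (hb : b ∈ Uup n F) : a * b ∈ Uup n F := by
  refine ⟨fun i j h => ?_, fun i => ?_⟩
  · rw [Units.val_mul]; exact xbru_tri_mul ha.1 hb.1 i j h
  · rw [Units.val_mul, xbru_diag_mul ha.1 hb.1, ha.2, hb.2, one_mul]

lemma xbru_inv_mem {a : GLn n F} (ha : a ∈ Uup n F) : a⁻¹ ∈ Uup n F := by
  have h1 : ∀ i j, j < i → (a⁻¹).1 i j = 0 := by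
    intro i j h
    let _ : Invertible a.1 := a.invertible
    have h0 : BlockTriangular a.1 id := fun i j h => ha.1 i j h
    have h2 := blockTriangular_inv_of_blockTriangular h0
    rw [Matrix.coe_units_inv]
    exact h2 h
  refine ⟨h1, fun i => ?_⟩
  have h3 := xbru_diag_mul ha.1 h1 i
  rw [← Units.val_mul, mul_inv_cancel, ha.2, one_mul] at h3
  rw [← h3]
  simp

theorem Uup_subgroup (n : ℕ) (F : Type) [Field F] :
    ∃ S : Subgroup (GLn n F), (S : Set (GLn n F)) = Uup n F := by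
  refine ⟨{ carrier := Uup n F
            mul_mem' := fun ha hb => xbru_mul_mem ha hb
            one_mem' := ⟨fun i j h => ?_, fun i => ?_⟩
            inv_mem' := fun ha => xbru_inv_mem ha }, rfl⟩
  · rw [Units.val_one, Matrix.one_apply_ne (ne_of_gt h)]
  · rw [Units.val_one, Matrix.one_apply_eq]

theorem exists_mon (w : Equiv.Perm (Fin n)) (t : Fin n → Fˣ) : ∃ g : GLn n F, IsMon w t g := by
  let M : Mat n F := Matrix.of fun i j => if i = w j then (t j : F) else 0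
  let N : Mat n F := Matrix.of fun i j => if j = w i then (((t i)⁻¹ : Fˣ) : F) else 0
  have h : N * M = 1 := by
    ext i k
    rw [Matrix.mul_apply, Finset.sum_eq_single (w i)]
    · simp only [M, N, Matrix.of_apply, if_true]
      by_cases hik : i = k
      · subst hik
        simp
      · rw [if_neg (fun h => hik (w.injective h)), mul_zero, Matrix.one_apply_ne hik]
    · intro j _ hj
      simp only [N, Matrix.of_apply]
      rw [if_neg hj, zero_mul]
    · intro h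
      exact absurd (Finset.mem_univ _) h
  exact ⟨⟨M, N, mul_eq_one_comm.1 h, h⟩, fun i j => rfl⟩

lemma xbru_mul_mon {w : Equiv.Perm (Fin n)} {t : Fin n → Fˣ} {y : GLn n F} (hy : IsMon w t y)
    (a : Mat n F) (i j : Fin n) : (a * y.1) i j = a i (w j) * t j := by
  rw [Matrix.mul_apply, Finset.sum_eq_single (w j)]
  · rw [hy, if_pos rfl]
  · intro k _ hk
    rw [hy, if_neg hk, mul_zero]
  · intro h
    exact absurd (Finset.mem_univ _) h

lemma xbru_mon_mul {w : Equiv.Perm (Fin n)} {t : Fin n → Fˣ} {y : GLn n F} (hy : IsMon w t y)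
    (c : Mat n F) (k j : Fin n) : (y.1 * c) (w k) j = t k * c k j := by
  rw [Matrix.mul_apply, Finset.sum_eq_single k]
  · rw [hy, if_pos rfl]
  · intro l _ hl
    rw [hy, if_neg (fun h => hl (w.injective h).symm), zero_mul]
  · intro h
    exact absurd (Finset.mem_univ _) h

/-- the last nonzero coordinate -/
lemma xbru_low {v : Fin n → F} (hv : v ≠ 0) : ∃ r, v r ≠ 0 ∧ ∀ i, r < i → v i = 0 := by
  classical
  have hne : (Finset.univ.filter fun i => v i ≠ 0).Nonempty := by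
    by_contra h
    apply hv
    funext i
    by_contra hi
    exact h ⟨i, by simpa using hi⟩
  refine ⟨(Finset.univ.filter fun i => v i ≠ 0).max' hne, ?_, fun i hi => ?_⟩
  · exact (Finset.mem_filter.1 (Finset.max'_mem _ hne)).2
  · by_contra h
    exact absurd (Finset.le_max' _ i (by simpa using h)) (not_le.2 hi)

/-- `r` is the last nonzero row of a combination of the columns up to `j` -/
def xbruP (g : Mat n F) (j : Fin n) (c : Fin n → F) (r : Fin n) : Prop :=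
  c j = 1 ∧ (∀ k, j < k → c k = 0) ∧ (g *ᵥ c) r ≠ 0 ∧ ∀ i, r < i → (g *ᵥ c) i = 0

lemma xbru_ex (g : GLn n F) (j : Fin n) (c : Fin n → F) (h1 : c j = 1)
    (h2 : ∀ k, j < k → c k = 0) : ∃ r, xbruP g.1 j c r := by
  have hv : g.1 *ᵥ c ≠ 0 := by
    intro h
    have h3 : (g⁻¹).1 *ᵥ (g.1 *ᵥ c) = c := by
      rw [Matrix.mulVec_mulVec, Units.inv_mul, Matrix.one_mulVec]
    rw [h, Matrix.mulVec_zero] at h3
    have h4 := congrFun h3 j
    rw [h1] at h4
    exact zero_ne_one h4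
  obtain ⟨r, hr1, hr2⟩ := xbru_low hv
  exact ⟨r, h1, h2, hr1, hr2⟩

lemma xbru_min (g : GLn n F) (j : Fin n) : ∃ (r : Fin n) (c : Fin n → F), xbruP g.1 j c r ∧
    ∀ r' c', xbruP g.1 j c' r' → r ≤ r' := by
  have hne : ({r | ∃ c, xbruP g.1 j c r} : Set (Fin n)).Nonempty := by
    obtain ⟨r, hr⟩ := xbru_ex g j (Pi.single j 1) (by simp)
      (fun k hk => Pi.single_eq_of_ne (ne_of_gt hk) _)
    exact ⟨r, _, hr⟩
  obtain ⟨r, ⟨c, hc⟩, hmin⟩ := WellFounded.has_min wellFounded_lt _ hne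
  exact ⟨r, c, hc, fun r' c' h => not_lt.1 (hmin r' ⟨c', h⟩)⟩

lemma xbru_ne (g : GLn n F) {j k r : Fin n} {c d : Fin n → F} (hkj : k < j)
    (hc : xbruP g.1 j c r) (hmin : ∀ r' c', xbruP g.1 j c' r' → r ≤ r')
    (hd : xbruP g.1 k d r) : False := by
  obtain ⟨s, hs⟩ := xbru_ex g j (c - ((g.1 *ᵥ c) r / (g.1 *ᵥ d) r) • d)
    (by rw [Pi.sub_apply, Pi.smul_apply, hc.1, hd.2.1 j hkj, smul_zero, sub_zero])
    (fun l hl => by
      rw [Pi.sub_apply, Pi.smul_apply, hc.2.1 l hl, hd.2.1 l (hkj.trans hl), smul_zero, sub_zero])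
  have h1 := hmin _ _ hs
  apply hs.2.2.1
  rw [Matrix.mulVec_sub, Matrix.mulVec_smul, Pi.sub_apply, Pi.smul_apply, smul_eq_mul]
  rcases h1.eq_or_lt with h | h
  · rw [← h, div_mul_cancel₀ _ hd.2.2.1, sub_self]
  · rw [hc.2.2.2 s h, hd.2.2.2 s h, mul_zero, sub_zero]

/-- Bruhat decomposition -/
theorem bruhat (g : GLn n F) : ∃ a ∈ Uup n F, ∃ b ∈ Uup n F,
    ∃ (w : Equiv.Perm (Fin n)) (t : Fin n → Fˣ) (y : GLn n F), IsMon w t y ∧ g = a * y * b := by
  choose r c hc hmin using xbru_min g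
  have hinj : Function.Injective r := by
    intro j k hjk
    by_contra hne
    rcases lt_or_gt_of_ne hne with h | h
    · exact xbru_ne g h (hc k) (hmin k) (hjk ▸ hc j)
    · exact xbru_ne g h (hc j) (hmin j) (hjk ▸ hc k)
  let w : Equiv.Perm (Fin n) := Equiv.ofBijective r (Finite.injective_iff_bijective.1 hinj)
  let B : Mat n F := Matrix.of fun k j => c j k
  have hB0 : ∀ i j, j < i → B i j = 0 := fun i j h => (hc j).2.1 i h
  have hB1 : ∀ i, B i i = 1 := fun i => (hc i).1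
  have hdet : B.det = 1 := by
    have h0 : BlockTriangular B id := fun i j h => hB0 i j h
    rw [det_of_isUpperTriangular h0]
    exact Finset.prod_eq_one fun i _ => hB1 i
  obtain ⟨b, hb⟩ : IsUnit B := (Matrix.isUnit_iff_isUnit_det B).2 (hdet ▸ isUnit_one)
  have hbU : b ∈ Uup n F := ⟨fun i j h => by rw [hb]; exact hB0 i j h, fun i => by rw [hb]; exact hB1 i⟩
  have hgb : ∀ i j, (g * b).1 i j = (g.1 *ᵥ c j) i := by
    intro i j
    rw [Units.val_mul, hb]
    rfl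
  let t : Fin n → Fˣ := fun j => Units.mk0 _ (hc j).2.2.1
  obtain ⟨y, hy⟩ := exists_mon w t
  have ha : ∀ i j, (g * b * y⁻¹).1 i (w j) * t j = (g.1 *ᵥ c j) i := by
    intro i j
    rw [← xbru_mul_mon hy, ← Units.val_mul, inv_mul_cancel_right, hgb]
  refine ⟨g * b * y⁻¹, ⟨fun i k h => ?_, fun i => ?_⟩, b⁻¹, xbru_inv_mem hbU, w, t, y, hy, by group⟩
  · obtain ⟨j, rfl⟩ := w.surjective k
    have h1 := ha i j
    rw [(hc j).2.2.2 i h] at h1
    exact (mul_eq_zero.1 h1).resolve_right (t j).ne_zero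
  · obtain ⟨j, rfl⟩ := w.surjective i
    have h1 := ha (w j) j
    have h2 : (g.1 *ᵥ c j) (w j) = 1 * (t j : F) := (one_mul _).symm
    rw [h2] at h1
    exact mul_right_cancel₀ (t j).ne_zero h1

lemma xbru_perm (σ : Equiv.Perm (Fin n)) (h : ∀ j, σ j ≤ j) (j : Fin n) : σ j = j := by
  have h1 : ∑ i, (σ i : ℕ) = ∑ i : Fin n, (i : ℕ) := Equiv.sum_comp σ fun i => (i : ℕ)
  have h2 := (Finset.sum_eq_sum_iff_of_le (s := Finset.univ) (f := fun i => (σ i : ℕ))
    (g := fun i : Fin n => (i : ℕ)) (fun i _ => h i)).1 h1 j (Finset.mem_univ j)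
  exact Fin.ext h2

theorem bruhat_uniq {w w' : Equiv.Perm (Fin n)} {t t' : Fin n → Fˣ} {y y' a b : GLn n F}
    (hy : IsMon w t y) (hy' : IsMon w' t' y') (ha : a ∈ Uup n F) (hb : b ∈ Uup n F)
    (h : a * y * b = y') : w = w' ∧ t = t' := by
  have hc := xbru_inv_mem hb
  have h1 : a.1 * y.1 = y'.1 * (b⁻¹).1 := by
    rw [← Units.val_mul, ← Units.val_mul, ← h, mul_inv_cancel_right]
  have h2 : ∀ j, (t j : F) = t' (w'.symm (w j)) * (b⁻¹).1 (w'.symm (w j)) j := by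
    intro j
    rw [← xbru_mon_mul hy', ← h1, Equiv.apply_symm_apply, xbru_mul_mon hy, ha.2, one_mul]
  have h3 : ∀ j, (w.trans w'.symm) j = j := by
    refine xbru_perm _ fun j => ?_
    by_contra hj
    have h4 := h2 j
    have h7 : j < w'.symm (w j) := not_le.1 hj
    rw [hc.1 _ _ h7, mul_zero] at h4
    exact (t j).ne_zero h4
  have h5 : ∀ j, w'.symm (w j) = j := h3
  refine ⟨Equiv.ext fun j => ?_, funext fun j => Units.ext ?_⟩
  · have h6 := congrArg w' (h5 j)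
    rwa [Equiv.apply_symm_apply] at h6
  · rw [h2 j, h5 j, hc.2, mul_one]

end Pool.Agent.MP_8299d6_al.Up

end
end
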