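import Pool.Agent.Mg.X8299d6.Gfa7afb
import Pool.Agent.Mg.X8299d6.G6efaac
import Pool.Agent.Mg.X8299d6.Ge1a818
import Pool.Agent.Mg.X8299d6.G3030d2

section

open Matrix

noncomputable section

namespace Pool.Agent.MP_8299d6_al.Up

open Pool.Agent.MP_810665_al (IrrChar)

section gen
variable {M : Type} [Ring M] [Fintype M] {τ : AddChar M ℂ}

lemma chain_sit (hτ : Frob τ) {O : Subring M} {J : NonUnitalSubring M} {L : M → M}
    {H : Subgroup Mˣ} (hH : ∀ g : Mˣ, g ∈ H ↔ (g : M) ∈ O) (hL : OM J J L)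
    (hJO : ∀ y ∈ J, y ∈ O) (hid : ∀ x ∈ O, ∀ y ∈ J, x * y ∈ J ∧ y * x ∈ J) : Sit τ J J L H := by
  have hN : Norm H J := fun g hg x hx =>
    (hid _ ((hH _).1 (H.inv_mem hg)) _ (hid _ ((hH g).1 hg) x hx).1).2
  refine ⟨hτ, hL, le_rfl, fun u hu => (hH u).2 ?_, hN, hN⟩
  have := O.add_mem (hJO _ hu) O.one_mem
  rwa [sub_add_cancel] at this

/-- the character with values in the units, written additively -/
def chainT (τ : AddChar M ℂ) : M →+ Additive ℂˣ :=
  AddMonoidHom.mk' (fun x => Additive.ofMul (τ.toMonoidHom.toHomUnits (Multiplicative.ofAdd x)))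
    (fun x y => by rw [ofAdd_add, map_mul, ofMul_mul])

omit [Fintype M] in
lemma chainT_val (x : M) : ((Additive.toMul (chainT τ x) : ℂˣ) : ℂ) = τ x := rfl

omit [Fintype M] in
lemma chainT_eq_zero {x : M} : chainT τ x = 0 ↔ τ x = 1 := by
  rw [← chainT_val, Units.val_eq_one]
  rfl

omit [Fintype M] in
lemma chainT_comm (hτ : Frob τ) (x y : M) : chainT τ (x * y) = chainT τ (y * x) := by
  apply Additive.toMul.injective
  ext
  rw [chainT_val, chainT_val, hτ.comm]

omit [Fintype M] in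
lemma chain_van (hτ : Frob τ) {J : AddSubgroup M} {B y d : M} (hy : B * y - y * B ∈ perp τ J)
    (hd : d ∈ J) : chainT τ (B * (y * d - d * y)) = 0 := by
  have h := chainT_eq_zero.2 (hy d hd)
  rw [sub_mul, map_sub] at h
  rw [mul_sub, map_sub, ← mul_assoc, ← mul_assoc B d y, chainT_comm hτ (B * d) y, ← mul_assoc]
  exact h

/-- correction of `B` to an element fixed by the stabiliser -/
lemma chain_central (hτ : Frob τ) {O : Subring M} {J : NonUnitalSubring M} {Q : Type} [Ring Q]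
    (π : M →+* Q) (J' : AddSubgroup Q) (hJ : ∀ x, x ∈ J ↔ π x ∈ J')
    (hid' : ∀ x ∈ O.map π, ∀ y ∈ J', x * y ∈ J' ∧ y * x ∈ J')
    (hid : ∀ x ∈ O, ∀ y ∈ J, x * y ∈ J ∧ y * x ∈ J) (hJO : ∀ y ∈ J, y ∈ O)
    (hcoc : ∀ (β : O.map π →+ O.map π →+ Additive ℂˣ),
      (∀ x y : O.map π, x.1 ∈ J' → β x y = 0 ∧ β y x = 0) →
      (∀ x y z, β (x * y) z = β x (y * z) + β y (z * x)) →
      ∃ μ : O.map π →+ Additive ℂˣ, (∀ x : O.map π, x.1 ∈ J' → μ x = 0) ∧
        ∀ x y, β x y = μ (x * y - y * x)) (B : M)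
    (hB : ∀ x ∈ O, ∃ y ∈ O, B * y - y * B ∈ perp τ J.toAddSubgroup ∧ x - y ∈ J) :
    ∃ A ∈ cls τ J (UU J) B, ∀ y ∈ O, ∃ y' ∈ O, y - y' ∈ J ∧
      A * y' - y' * A ∈ perp τ O.toAddSubgroup := by
  let Λ : M → Prop := fun y => y ∈ O ∧ B * y - y * B ∈ perp τ J.toAddSubgroup
  have Λadd : ∀ {x y}, Λ x → Λ y → Λ (x + y) := fun {x y} hx hy => ⟨O.add_mem hx.1 hy.1, by
    have := add_mem hx.2 hy.2
    rwa [show B * x - x * B + (B * y - y * B) = B * (x + y) - (x + y) * B by noncomm_ring] at this⟩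
  have Λmul : ∀ {x y}, Λ x → Λ y → Λ (x * y) := fun {x y} hx hy => ⟨O.mul_mem hx.1 hy.1, by
    intro d hd
    have h1 := hx.2 (y * d) (hid y hy.1 d hd).1
    have h2 := hy.2 (d * x) (hid x hx.1 d hd).2
    rw [← mul_assoc _ d x, hτ.comm] at h2
    rw [show (B * (x * y) - x * y * B) * d = (B * x - x * B) * (y * d) + x * ((B * y - y * B) * d)
      by noncomm_ring, AddChar.map_add_eq_mul, h1, h2, one_mul]⟩
  let γ : M → M → Additive ℂˣ := fun x y => chainT τ (B * (x * y - y * x))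
  have γl : ∀ x x' y, γ (x + x') y = γ x y + γ x' y := fun x x' y => by
    simp only [γ, ← map_add]; congr 1; noncomm_ring
  have γr : ∀ x y y', γ x (y + y') = γ x y + γ x y' := fun x y y' => by
    simp only [γ, ← map_add]; congr 1; noncomm_ring
  have γv : ∀ {y d}, Λ y → d ∈ J → γ y d = 0 ∧ γ d y = 0 := fun {y d} hy hd => by
    have h := chain_van hτ hy.2 hd
    refine ⟨h, ?_⟩
    simp only [γ]
    rw [← neg_sub, mul_neg, map_neg, h, neg_zero]
  have γr' : ∀ {x y y'}, Λ x → y - y' ∈ J → γ x y = γ x y' := fun {x y y'} hx h => by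
    rw [show y = y' + (y - y') by abel, γr, (γv hx h).1, add_zero]
  have γl' : ∀ {x x' y}, Λ y → x - x' ∈ J → γ x y = γ x' y := fun {x x' y} hy h => by
    rw [show x = x' + (x - x') by abel, γl, (γv hy h).2, add_zero]
  have hl : ∀ x : O.map π, ∃ y, Λ y ∧ π y - x.1 ∈ J' := by
    rintro ⟨_, x, hx, rfl⟩
    obtain ⟨y, hy, h1, h2⟩ := hB x hx
    refine ⟨y, ⟨hy, h1⟩, ?_⟩
    have := neg_mem ((hJ _).1 h2)
    rwa [map_sub, neg_sub] at this
  choose l hlΛ hl using hl
  have ladd : ∀ x y, l (x + y) - (l x + l y) ∈ J := fun x y => (hJ _).2 (by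
    have := sub_mem (hl (x + y)) (add_mem (hl x) (hl y))
    rw [map_sub, map_add]
    convert this using 1
    push_cast
    abel)
  have lmul : ∀ x y, l (x * y) - l x * l y ∈ J := fun x y => (hJ _).2 (by
    have h1 := (hid' _ y.2 _ (hl x)).2
    have h2 := (hid' _ ⟨_, (hlΛ x).1, rfl⟩ _ (hl y)).1
    have := sub_mem (hl (x * y)) (add_mem h1 h2)
    rw [map_sub, map_mul]
    convert this using 1
    push_cast
    noncomm_ring)
  let β : O.map π →+ O.map π →+ Additive ℂˣ := AddMonoidHom.mk'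
    (fun x => AddMonoidHom.mk' (fun y => γ (l x) (l y))
      (fun y y' => by rw [γr' (hlΛ x) (ladd y y'), γr]))
    (fun x x' => by
      ext y
      simp only [AddMonoidHom.mk'_apply, AddMonoidHom.add_apply]
      rw [γl' (hlΛ y) (ladd x x'), γl])
  have hβ : ∀ x y, β x y = γ (l x) (l y) := fun _ _ => rfl
  obtain ⟨μ, hμ0, hμ⟩ := hcoc β (fun x y hx => by
      have : l x ∈ J := (hJ _).2 (by simpa using add_mem (hl x) hx)
      exact ⟨(γv (hlΛ y) this).2, (γv (hlΛ y) this).1⟩) (fun x y z => by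
      rw [hβ, hβ, hβ, γl' (hlΛ z) (lmul x y), γr' (hlΛ x) (lmul y z), γr' (hlΛ y) (lmul z x)]
      simp only [γ, ← map_add]
      congr 1
      noncomm_ring)
  let pr : O.toAddSubgroup → O.map π := fun x => ⟨π x, x, x.2, rfl⟩
  let φ : AddChar O.toAddSubgroup ℂ :=
    { toFun := fun x => ((Additive.toMul (μ (pr x)) : ℂˣ) : ℂ)
      map_zero_eq_one' := by
        have : pr 0 = 0 := Subtype.ext (by simp [pr])
        simp [this]
      map_add_eq_mul' := fun x y => by
        have : pr (x + y) = pr x + pr y := Subtype.ext (by simp [pr])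
        simp [this] }
  obtain ⟨B', hB'⟩ := hτ.exists_rep _ φ
  have hB'T : ∀ x : O.toAddSubgroup, chainT τ (B' * x) = μ (pr x) := fun x => by
    apply Additive.toMul.injective
    ext
    rw [chainT_val, ← hB']
    rfl
  have hB'J : B' ∈ perp τ J.toAddSubgroup := fun d hd => by
    rw [← chainT_eq_zero, hB'T ⟨d, hJO d hd⟩]
    exact hμ0 _ ((hJ d).1 hd)
  refine ⟨B - B', ⟨1, one_mem _, by simpa [cj_one] using neg_mem hB'J⟩, fun y hy => ?_⟩
  obtain ⟨y', hy', h1, h2⟩ := hB y hy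
  refine ⟨y', hy', h2, fun x hx => ?_⟩
  have hx' : x ∈ O := hx
  have e1 : chainT τ (((B - B') * y' - y' * (B - B')) * x)
      = γ y' x - chainT τ (B' * (y' * x - x * y')) := by
    simp only [γ]
    rw [← map_sub, ← sub_mul, sub_mul, map_sub, mul_assoc y', chainT_comm hτ y', ← map_sub]
    congr 1
    noncomm_ring
  have e2 := hB'T ⟨y' * x - x * y', O.sub_mem (O.mul_mem hy' hx') (O.mul_mem hx' hy')⟩
  have e3 : pr ⟨y' * x - x * y', O.sub_mem (O.mul_mem hy' hx') (O.mul_mem hx' hy')⟩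
      = pr ⟨y', hy'⟩ * pr ⟨x, hx'⟩ - pr ⟨x, hx'⟩ * pr ⟨y', hy'⟩ := Subtype.ext (by simp [pr])
  have d1 : l (pr ⟨y', hy'⟩) - y' ∈ J := (hJ _).2 (by rw [map_sub]; exact hl _)
  have d2 : l (pr ⟨x, hx'⟩) - x ∈ J := (hJ _).2 (by rw [map_sub]; exact hl _)
  rw [← chainT_eq_zero, e1, e2, e3, ← hμ, hβ, γl' (hlΛ _) d1, γr' ⟨hy', h1⟩ d2, sub_self]

omit [Fintype M] in
lemma chain_card_comap {Q : Type} [Ring Q] (π : M →+* Q) (hπ : Function.Surjective π)
    (S : AddSubgroup Q) :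
    Nat.card (S.comap π.toAddMonoidHom) * Nat.card Q = Nat.card S * Nat.card M := by
  rw [← AddSubgroup.card_mul_index S, ← AddSubgroup.card_mul_index (S.comap π.toAddMonoidHom),
    AddSubgroup.index_comap_of_surjective _ hπ]
  ring

lemma chain_z {Q : Type} [Ring Q] (π : M →+* Q) (hπ : Function.Surjective π) {O : Subring M}
    (hO : ∀ x, π x = 0 → x ∈ O) {J : NonUnitalSubring M} {J' : AddSubgroup Q}
    (hJ : ∀ x, x ∈ J ↔ π x ∈ J') {z : ℕ}
    (hz : z * Nat.card (J' ⊔ commS (O.map π) : AddSubgroup Q) ≤ Nat.card (O.map π)) :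
    z * Nat.card (J.toAddSubgroup ⊔ commS O : AddSubgroup M) ≤ Nat.card O := by
  have : Finite Q := Finite.of_surjective π hπ
  have h1 : (J.toAddSubgroup ⊔ commS O : AddSubgroup M) ≤
      (J' ⊔ commS (O.map π)).comap π.toAddMonoidHom := by
    refine sup_le (fun x hx => AddSubgroup.mem_sup_left ((hJ x).1 hx)) ?_
    rw [commS, AddSubgroup.closure_le]
    rintro _ ⟨x, hx, y, hy, rfl⟩
    refine AddSubgroup.mem_sup_right (AddSubgroup.subset_closure
      ⟨π x, ⟨x, hx, rfl⟩, π y, ⟨y, hy, rfl⟩, by simp⟩)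
  have h2 : (O.map π).toAddSubgroup.comap π.toAddMonoidHom = O.toAddSubgroup := by
    ext x
    constructor
    · rintro ⟨y, hy, hxy⟩
      have := O.add_mem (hO (x - y) (by
        rw [map_sub, sub_eq_zero]; exact hxy.symm)) hy
      rwa [sub_add_cancel] at this
    · exact fun hx => ⟨x, hx, rfl⟩
  have e1 := chain_card_comap π hπ (J' ⊔ commS (O.map π))
  have e2 := chain_card_comap π hπ (O.map π).toAddSubgroup
  rw [h2] at e2
  have e3 : Nat.card (O.map π).toAddSubgroup = Nat.card (O.map π) := rfl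
  have e4 : Nat.card O.toAddSubgroup = Nat.card O := rfl
  refine Nat.le_of_mul_le_mul_right ?_ (Nat.card_pos (α := Q))
  calc _ ≤ z * Nat.card ((J' ⊔ commS (O.map π)).comap π.toAddMonoidHom) * Nat.card Q := by
        gcongr
        exact AddSubgroup.card_le_of_le h1
    _ = z * Nat.card (J' ⊔ commS (O.map π) : AddSubgroup Q) * Nat.card M := by
        rw [mul_assoc, e1, mul_assoc]
    _ ≤ Nat.card (O.map π) * Nat.card M := by gcongr
    _ = _ := by rw [← e3, ← e2, e4]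

lemma chain_stable {J I : NonUnitalSubring M} {L : M → M} {H : Subgroup Mˣ}
    (hI : Sit τ I I L H) (hJ : Sit τ J J L H) (hle : I ≤ J) {χ : H → ℂ} (hχ : χ ∈ Irr H) {A : M}
    (hA : Sup τ I L H χ ⊆ cls τ I (UU I) A) :
    ∀ B ∈ cls τ I (UU I) A, cls τ J (UU J) B ⊆ cls τ I (UU I) A := by
  obtain ⟨A₀, hA₀⟩ := hI.sup_nonempty hχ
  have hNI : Norm (UU I) I := fun g hg => hI.norm g (hI.sub hg)
  intro B hB
  rw [← hI.frob.cls_eq hNI (hA hA₀)] at hB
  obtain ⟨g, hg, hB⟩ := hB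
  have h1 : cls τ I H B = cls τ I H A₀ := hI.frob.cls_eq hI.norm ⟨g, hI.sub hg, hB⟩
  rintro B' ⟨u, hu, hB'⟩
  refine hA (hI.sup_stable hχ hA₀ ?_)
  rw [← h1]
  exact ⟨u, hJ.sub hu, perp_anti (J := I.toAddSubgroup) (J' := J.toAddSubgroup) hle hB'⟩

end gen

lemma chain_mem_pI {n : ℕ} {R : Type} [CommRing R] {a : R} {x : Mat n R} :
    x ∈ pI n R a ↔ ∃ w : Mat n R, x = a • w := by
  constructor
  · intro h
    choose w hw using h
    exact ⟨Matrix.of w, by ext i j; simpa using hw i j⟩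
  · rintro ⟨w, rfl⟩ i j
    exact Dvd.intro _ rfl

lemma chain_pI_ideal {n : ℕ} {R : Type} [CommRing R] {a : R} (x : Mat n R) {y : Mat n R}
    (hy : y ∈ pI n R a) : x * y ∈ pI n R a ∧ y * x ∈ pI n R a := by
  obtain ⟨w, rfl⟩ := chain_mem_pI.1 hy
  exact ⟨chain_mem_pI.2 ⟨x * w, by simp⟩, chain_mem_pI.2 ⟨w * x, by simp⟩⟩

lemma chain_scal {n : ℕ} (hn : 0 < n) {R : Type} [CommRing R] {q : R} (m : ℕ) {A : Mat n R}
    (h : ∀ x : Mat n R, ∃ y, A * y - y * A ∈ pI n R (q ^ m) ∧ x - y ∈ pI n R q) :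
    ∃ c : R, A - c • (1 : Mat n R) ∈ pI n R (q ^ m) := by
  have h1 : ∀ (k : ℕ) (x : Mat n R), ∃ y, A * y - y * A ∈ pI n R (q ^ m) ∧
      x - y ∈ pI n R (q ^ k) := by
    intro k
    induction k with
    | zero => exact fun x => ⟨0, by simp, fun i j => by simp⟩
    | succ k ih =>
      intro x
      obtain ⟨y, hy, hx⟩ := ih x
      obtain ⟨w, hw⟩ := chain_mem_pI.1 hx
      obtain ⟨y', hy', hw'⟩ := h w
      obtain ⟨w', hw'⟩ := chain_mem_pI.1 hw'
      obtain ⟨v, hv⟩ := chain_mem_pI.1 hy'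
      refine ⟨y + q ^ k • y', ?_, chain_mem_pI.2 ⟨w', ?_⟩⟩
      · have : A * (y + q ^ k • y') - (y + q ^ k • y') * A
            = A * y - y * A + q ^ k • (A * y' - y' * A) := by
          simp only [mul_add, add_mul, Matrix.mul_smul, Matrix.smul_mul, smul_sub]
          abel
        rw [this, hv, smul_comm]
        exact add_mem hy (chain_mem_pI.2 ⟨_, rfl⟩)
      · rw [← sub_sub, hw, ← smul_sub, hw', smul_smul, pow_succ]
  have h2 : ∀ x : Mat n R, A * x - x * A ∈ pI n R (q ^ m) := fun x => by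
    obtain ⟨y, hy, hx⟩ := h1 m x
    have := add_mem hy (sub_mem (chain_pI_ideal A hx).1 (chain_pI_ideal A hx).2)
    convert this using 1
    noncomm_ring
  refine ⟨A ⟨0, hn⟩ ⟨0, hn⟩, fun k i => ?_⟩
  have := h2 (single i ⟨0, hn⟩ 1) k ⟨0, hn⟩
  by_cases hk : k = i
  · subst hk
    simpa using this
  · rw [Matrix.sub_apply, mul_single_apply_same, single_mul_apply_of_ne _ _ _ _ _ hk] at this
    simpa [one_apply_ne hk] using this

theorem chain (n : ℕ) (hn : 2 ≤ n) : ∃ C : ℝ, ∀ (p : ℕ) [Fact p.Prime], 2 * n ≤ p → ∀ (m : ℕ)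
    (L : Mat n (ZMod (p ^ (m + 1))) → Mat n (ZMod (p ^ (m + 1)))),
    (∀ J : NonUnitalSubring (Mat n (ZMod (p ^ (m + 1)))), pI n _ (p : ZMod (p ^ (m + 1))) ≤ J →
        NilTo n (J : Set (Mat n (ZMod (p ^ (m + 1))))) (pI n _ (p : ZMod (p ^ (m + 1)))) →
        OM J J L) →
    ∀ s : ℝ, 0 ≤ s → s ≤ 2 →
    Zs (⊤ : Subgroup (GLn n (ZMod (p ^ (m + 1)))))
      (fun χ => Sup (tau n (p ^ (m + 1))) (pI n _ (p : ZMod (p ^ (m + 1)))) L ⊤ χ
        ⊆ NS n _ ((p : ZMod (p ^ (m + 1))) ^ m)) s ≤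
      C * (p : ℝ) ^ (n - 2) * sumOn (NS n _ ((p : ZMod (p ^ (m + 1))) ^ m))
        (fun A => ((orb A).ncard : ℝ) ^ (-1 - s / 2)) := by
  classical
  obtain ⟨C, hC⟩ := ss n hn
  refine ⟨2 * C, fun p _ hp m L hL s hs hs2 => ?_⟩
  have hτ := frob_tau n (p ^ (m + 1))
  set τ := tau n (p ^ (m + 1))
  set P := pI n _ (p : ZMod (p ^ (m + 1))) with hP
  set π := redP n p m
  have hπP : ∀ x, π x = 0 ↔ x ∈ P := redP_eq_zero
  let f : Mat n (ZMod (p ^ (m + 1))) → ℝ := fun B => 2 * ((C : ℝ) * (p : ℝ) ^ (n - 2)) *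
    (Nat.card (Mat n (ZMod (p ^ (m + 1))))ˣ : ℝ) ^ (1 + s) * ((orb B).ncard : ℝ) ^ (-1 - s / 2)
  have hf : ∀ B, 0 ≤ f B := fun B => by positivity
  have key : ∀ (N : ℕ) (O : Subring (Mat n (ZMod (p ^ (m + 1))))), Nat.card O = N → O ≠ ⊤ →
      ∀ H : Subgroup (Mat n (ZMod (p ^ (m + 1))))ˣ,
      (∀ g, g ∈ H ↔ (g : Mat n (ZMod (p ^ (m + 1)))) ∈ O) →
      ∀ I : NonUnitalSubring (Mat n (ZMod (p ^ (m + 1)))), P ≤ I → (∀ y ∈ I, y ∈ O) →
      (∀ x ∈ O, ∀ y ∈ I, x * y ∈ I ∧ y * x ∈ I) →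
      NilTo n (I : Set (Mat n (ZMod (p ^ (m + 1))))) P → ∀ A,
      Zs H (fun χ => Sup τ I L H χ ⊆ cls τ I (UU I) A) s ≤
        (Nat.card H : ℝ) ^ (-1 - s) * sumOn (cls τ I (UU I) A) f := by
    intro N
    induction N using Nat.strong_induction_on with
    | _ N ih =>
    intro O hN hO H hH I hPI hIO hIid hInil A
    have hker : ∀ x, π x = 0 → x ∈ O := fun x hx => hIO x (hPI ((hπP x).1 hx))
    have hmem : ∀ x, π x ∈ O.map π → x ∈ O := by
      rintro x ⟨y, hy, hxy⟩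
      have := O.add_mem (hker (x - y) (by rw [map_sub, sub_eq_zero]; exact hxy.symm)) hy
      rwa [sub_add_cancel] at this
    obtain ⟨J', hJ'h, hJ'id, hJ'nil, hmax, hcoc, k, z, hk, hz, c, hc⟩ :=
      hC p (by omega) (by omega) (O.map π) (fun h => hO (eq_top_iff.2 (fun x _ =>
        hmem x (h ▸ Subring.mem_top _))))
    let J : NonUnitalSubring (Mat n (ZMod (p ^ (m + 1)))) :=
      { carrier := {x | π x ∈ J'}
        zero_mem' := by simp
        add_mem' := fun hx hy => by simpa using add_mem hx hy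
        neg_mem' := fun hx => by simpa using hx
        mul_mem' := fun {x y} hx hy => by simpa using (hJ'id _ (hJ'h _ hx) _ hy).1 }
    have hJ : ∀ x, x ∈ J ↔ π x ∈ J' := fun _ => Iff.rfl
    have hJO : ∀ y ∈ J, y ∈ O := fun y hy => hmem y (hJ'h _ hy)
    have hJid : ∀ x ∈ O, ∀ y ∈ J, x * y ∈ J ∧ y * x ∈ J := fun x hx y hy => by
      simpa [hJ] using hJ'id _ ⟨x, hx, rfl⟩ _ hy
    have hPJ : P ≤ J := fun x hx => by rw [hJ, (hπP x).2 hx]; exact zero_mem _
    have hJnil : NilTo n (J : Set (Mat n (ZMod (p ^ (m + 1))))) P := fun x hx => by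
      have := hJ'nil (fun i => π (x i)) hx
      refine (hπP _).1 ?_
      rw [map_list_prod, List.map_ofFn]
      exact this
    have hIJ : I ≤ J := by
      have := hmax (I.toAddSubgroup.map π.toAddMonoidHom) (by
        rintro _ ⟨y, hy, rfl⟩
        exact ⟨y, hIO y hy, rfl⟩) (by
        rintro _ ⟨x, hx, rfl⟩ _ ⟨y, hy, rfl⟩
        exact ⟨⟨x * y, (hIid x hx y hy).1, by simp⟩, ⟨y * x, (hIid x hx y hy).2, by simp⟩⟩) (by
        intro x hx
        choose y hy hyx using hx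
        have := (hπP _).2 (hInil y hy)
        rw [map_list_prod, List.map_ofFn] at this
        have e : π ∘ y = x := funext hyx
        rw [e] at this
        exact this)
      exact fun y hy => this ⟨y, hy, rfl⟩
    have SI := chain_sit hτ hH (hL I hPI hInil) hIO hIid
    have SJ := chain_sit hτ hH (hL J hPJ hJnil) hJO hJid
    by_cases hne : ∃ χ ∈ Irr H, Sup τ I L H χ ⊆ cls τ I (UU I) A
    swap
    · have : Zs H (fun χ => Sup τ I L H χ ⊆ cls τ I (UU I) A) s = 0 :=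
        Finset.sum_eq_zero (fun χ hχ => absurd ⟨χ, Finset.mem_filter.1 hχ⟩ hne)
      rw [this]
      exact mul_nonneg (by positivity) (Finset.sum_nonneg (fun B _ => hf B))
    obtain ⟨χ₀, hχ₀, hA⟩ := hne
    refine (Zs_mono (fun χ hχ h => (SJ.sup_mono SI hIJ hχ).trans h) s).trans
      (SJ.step _ (chain_stable SI SJ hIJ hχ₀ hA) f hf hs (fun B _ H₁ hH₁ => ?_))
    obtain ⟨O₁, hO₁, hO₁'⟩ := stab_subring hτ O J hJO hJid SJ.om.unit B
    have hH₁' : ∀ g, g ∈ H₁ ↔ (g : Mat n (ZMod (p ^ (m + 1)))) ∈ O₁ := fun g => by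
      rw [hH₁, hO₁', hH]
    have hle : O₁ ≤ O := fun x hx => by
      obtain ⟨y, hy, _, h⟩ := (hO₁ x).1 hx
      have := O.add_mem (hJO _ h) hy
      rwa [sub_add_cancel] at this
    by_cases heq : O₁ = O
    · subst heq
      obtain ⟨A', hA', hA''⟩ := chain_central hτ π J' hJ hJ'id hJid hJO (hcoc _) B
        (fun x hx => (hO₁ x).1 hx)
      have S₁ := chain_sit hτ hH₁' (hL J hPJ hJnil) hJO hJid
      rw [← hτ.cls_eq (fun g hg => S₁.norm g (S₁.sub hg)) hA']
      refine base_case O₁ J hH₁' S₁ hJO hJid A' hA'' k z _ (by exact_mod_cast hk)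
        (chain_z π (redP_surj n p m) hker hJ hz) (fun g => c (π g.1)) (fun x y hxy => ?_)
        (card_mat_big hp m) hs hs2
      obtain ⟨_, ⟨g, hg, rfl⟩, hu, hg'⟩ := hc _ ⟨_, (hH₁' _).1 x.2, rfl⟩ _
        ⟨_, (hH₁' _).1 y.2, rfl⟩ hxy
      obtain ⟨g, rfl⟩ := isUnit_of_redP hu
      let g' : H₁ := ⟨g, (hH₁' g).2 hg⟩
      refine ⟨g', (g' * x * g'⁻¹)⁻¹ * y, ?_, by group⟩
      have h1 : (g : Mat n (ZMod (p ^ (m + 1)))) * x.1 - y.1 * g ∈ J := by simpa [hJ] using hg'
      have h2 := (hJid _ ((hH₁' _).1 (g' * x * g'⁻¹)⁻¹.2) _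
        (hJid _ ((hH₁' _).1 g'⁻¹.2) _ (neg_mem h1)).2).1
      rw [mem_UU]
      convert h2 using 1
      simp [g', mul_sub, sub_mul, mul_assoc]
    · refine ih (Nat.card O₁) ?_ O₁ rfl (fun h => hO (eq_top_iff.2 (h ▸ hle))) H₁ hH₁' J hPJ
        (fun y hy => (hO₁ y).2 ⟨0, O.zero_mem, by simp, by simpa using hy⟩)
        (fun x hx => hJid x (hle hx)) hJnil B
      rw [← hN]
      exact Set.Finite.card_lt_card (Set.toFinite _)
        (SetLike.coe_ssubset_coe.2 (lt_of_le_of_ne hle heq))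
  have hPnil : NilTo n (P : Set (Mat n (ZMod (p ^ (m + 1))))) P := fun x hx => by
    obtain ⟨k, rfl⟩ : ∃ k, n = k + 1 := ⟨n - 1, by omega⟩
    rw [List.ofFn_succ, List.prod_cons]
    exact (chain_pI_ideal _ (hx 0)).2
  have hPid : ∀ x ∈ (⊤ : Subring (Mat n (ZMod (p ^ (m + 1))))), ∀ y ∈ P, x * y ∈ P ∧ y * x ∈ P :=
    fun x _ y hy => chain_pI_ideal x hy
  have S := chain_sit hτ (O := ⊤) (H := ⊤) (by simp) (hL P le_rfl hPnil) (by simp) hPid
  refine (S.step _ ?_ f hf hs (fun B hB H₁ hH₁ => ?_)).trans (le_of_eq ?_)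
  · rintro A hA B ⟨g, _, hB⟩ ⟨c, hc⟩
    rw [perp_pI] at hB
    refine hA ⟨c, ?_⟩
    have h1 : cj g A - c • 1 ∈ pI n _ ((p : ZMod (p ^ (m + 1))) ^ m) := by
      have := sub_mem hc hB
      convert this using 1
      abel
    have h2 := (chain_pI_ideal (g : Mat n _) (chain_pI_ideal ((g⁻¹ : _ˣ) : Mat n _) h1).1).2
    convert h2 using 1
    simp [cj, mul_sub, sub_mul, mul_assoc]
  · obtain ⟨O₁, hO₁, hO₁'⟩ := stab_subring hτ ⊤ P (by simp) hPid S.om.unit B
    refine key _ O₁ rfl (fun h => hB (chain_scal (by omega) m (fun x => ?_))) H₁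
      (fun g => by rw [hH₁, hO₁']; simp) P le_rfl
      (fun y hy => (hO₁ y).2 ⟨0, trivial, by simp, by simpa using hy⟩)
      (fun x _ => hPid x trivial) hPnil B
    obtain ⟨y, _, h1, h2⟩ := (hO₁ x).1 (h ▸ Subring.mem_top x)
    rw [perp_pI] at h1
    exact ⟨y, h1, h2⟩
  · have h0 : (0 : ℝ) < Nat.card (Mat n (ZMod (p ^ (m + 1))))ˣ := by exact_mod_cast Nat.card_pos
    have h1 : (Nat.card (Mat n (ZMod (p ^ (m + 1))))ˣ : ℝ) ^ (-1 - s) *
        (Nat.card (Mat n (ZMod (p ^ (m + 1))))ˣ : ℝ) ^ (1 + s) = 1 := by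
      rw [← Real.rpow_add h0, show -1 - s + (1 + s) = 0 by ring, Real.rpow_zero]
    rw [Subgroup.card_top]
    unfold sumOn
    rw [Finset.mul_sum, Finset.mul_sum]
    refine Finset.sum_congr rfl (fun A _ => ?_)
    simp only [f]
    linear_combination (2 * (C : ℝ) * (p : ℝ) ^ (n - 2) * ((orb A).ncard : ℝ) ^ (-1 - s / 2)) * h1

end Pool.Agent.MP_8299d6_al.Up

end
end

section

open Matrix

noncomputable section

namespace Pool.Agent.MP_8299d6_al.Up

open Pool.Agent.MP_810665_al (IrrChar)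

variable {k : Type} [Field k] {B : ℤ → AddSubgroup k} {b : ℕ} {c₀ c₁ K₀ : ℤ}
  {A : Type} [Ring A] [Algebra k A] {P : ℤ → AddSubgroup A} {J J' I : AddSubgroup A}

/-- the value of a word -/
def ev_wd (x y : A) : FreeMonoid Bool →* A := FreeMonoid.lift (fun c => if c then x else y)

theorem ev_sum (x y : A) (f : FA k) :
    ev k x y f = ∑ w ∈ f.coeff.support, f.coeff w • ev_wd x y w :=
  MonoidAlgebra.lift_apply _ f

theorem ev_wd_cons (x y : A) (c : Bool) (w : FreeMonoid Bool) :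
    ev_wd x y (FreeMonoid.of c * w) = (if c then x else y) * ev_wd x y w := by
  simp [ev_wd]

theorem ev_len_cons (c : Bool) (w : FreeMonoid Bool) :
    ((FreeMonoid.of c * w).length : ℤ) = w.length + 1 := by
  simp [add_comm]

theorem ev_wd_P (h : EvData B b c₀ c₁ K₀ P J J' I) {x y : A} (hx : x ∈ J) (hy : y ∈ J)
    (w : FreeMonoid Bool) : ev_wd x y w ∈ P (b * (w.length : ℤ)) := by
  induction w using FreeMonoid.inductionOn' with
  | one => simpa using h.one
  | of_mul c w ih =>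
    have hc : (if c then x else y) ∈ J := by split_ifs <;> assumption
    rw [ev_wd_cons, ev_len_cons, mul_add, mul_one, add_comm]
    exact h.mul (h.JP hc) ih

theorem ev_wd_J (h : EvData B b c₀ c₁ K₀ P J J' I) {x y : A} (hx : x ∈ J) (hy : y ∈ J)
    (w : FreeMonoid Bool) (hw : w ≠ 1) : ev_wd x y w ∈ J := by
  induction w using FreeMonoid.inductionOn' with
  | one => exact absurd rfl hw
  | of_mul c w ih =>
    have hc : (if c then x else y) ∈ J := by split_ifs <;> assumption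
    rw [ev_wd_cons]
    by_cases h1 : w = 1
    · rw [h1, map_one, mul_one]; exact hc
    · exact h.Jmul _ hc _ (ih h1)

theorem ev_wd_sub (h : EvData B b c₀ c₁ K₀ P J J' I) {x y x' y' : A} (hx : x ∈ J) (hy : y ∈ J)
    (hx' : x' ∈ J) (hy' : y' ∈ J) {t : ℤ} (h1 : x - x' ∈ I ⊔ P t) (h2 : y - y' ∈ I ⊔ P t)
    (w : FreeMonoid Bool) (hw : w ≠ 1) :
    ∃ i ∈ I, i ∈ P (K₀ + b * (w.length : ℤ) - b) ∧ ∃ p ∈ P (t + b * (w.length : ℤ) - b),
      ev_wd x y w - ev_wd x' y' w = i + p := by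
  induction w using FreeMonoid.inductionOn' with
  | one => exact absurd rfl hw
  | of_mul c w ih =>
    have hc' : (if c then x' else y') ∈ J := by split_ifs <;> assumption
    have hd : (if c then x else y) - (if c then x' else y') ∈ I ⊔ P t := by
      split_ifs <;> assumption
    obtain ⟨i, hi, p, hp, e⟩ := AddSubgroup.mem_sup.1 hd
    rw [ev_wd_cons, ev_wd_cons, ev_len_cons]
    by_cases h0 : w = 1
    · subst h0
      refine ⟨i, hi, ?_, p, ?_, ?_⟩
      · simpa using h.IP hi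
      · simpa using hp
      · rw [map_one, map_one, mul_one, mul_one, e]
    · obtain ⟨i', hi', hiP, p', hp', e'⟩ := ih h0
      have hwJ := ev_wd_J h hx hy w h0
      have hwP := ev_wd_P h hx hy w
      refine ⟨i * ev_wd x y w + (if c then x' else y') * i',
        add_mem (h.JI _ hwJ _ hi).2 (h.JI _ hc' _ hi').1, add_mem ?_ ?_,
        p * ev_wd x y w + (if c then x' else y') * p', add_mem ?_ ?_, ?_⟩
      · convert h.mul (h.IP hi) hwP using 2; ring
      · convert h.mul (h.JP hc') hiP using 2; ring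
      · convert h.mul hp hwP using 2; ring
      · convert h.mul (h.JP hc') hp' using 2; ring
      · have e1 := sub_eq_iff_eq_add.1 e.symm
        have e2 := sub_eq_iff_eq_add.1 e'
        generalize (if c then x' else y') = a' at *
        rw [e1]
        have : ev_wd x' y' w = ev_wd x y w - (i' + p') := by rw [e2]; abel
        rw [this]
        noncomm_ring

theorem ev_X (x y : A) : ev k x y (fX k) = x := by
  simp [ev, fX]
theorem ev_Y (x y : A) : ev k x y (fY k) = y := by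
  simp [ev, fY]
theorem map_logT {A' : Type} [Ring A'] [Algebra k A'] (f : A →ₐ[k] A') (T : ℕ) (x : A) :
    f (logT k T x) = logT k T (f x) := by
  simp [logT, map_sum]
theorem logT_conj (T : ℕ) (g g' x : A) (h : g' * g = 1) :
    logT k T (g * x * g') = g * logT k T x * g' := by
  have key : ∀ m : ℕ, (g * x * g') ^ (m + 1) = g * x ^ (m + 1) * g' := fun m => by
    induction m with
    | zero => simp
    | succ m ih =>
      rw [pow_succ, ih, pow_succ x (m + 1)]
      calc _ = g * x ^ (m + 1) * (g' * g) * x * g' := by noncomm_ring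
        _ = _ := by rw [h]; noncomm_ring
  simp only [logT, key, Finset.mul_sum, Finset.sum_mul, mul_smul_comm, smul_mul_assoc]

theorem EvData.memP (h : EvData B b c₀ c₁ K₀ P J J' I) {x y : A} (hx : x ∈ J) (hy : y ∈ J)
    {j : ℤ} {f : FA k} (hf : InA B b j f) : ev k x y f ∈ P j := by
  rw [ev_sum]
  refine sum_mem fun w _ => ?_
  simpa using h.smul (hf w) (ev_wd_P h hx hy w)

theorem EvData.memJ (h : EvData B b c₀ c₁ K₀ P J J' I) {x y : A} (hx : x ∈ J) (hy : y ∈ J)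
    {j : ℤ} {f : FA k} (hf : InC B b j (c₁ + b) f) : ev k x y f ∈ J := by
  rw [ev_sum]
  refine sum_mem fun w hw => ?_
  have h0 : w ≠ 1 := fun e => Finsupp.mem_support_iff.1 hw (e ▸ hf.1)
  rcases hf.2.2 w with h1 | h1
  · exact h.Jsmul _ h1 _ (ev_wd_J h hx hy w h0)
  · exact h.PJ (h.anti h.c01 (by simpa using h.smul h1 (ev_wd_P h hx hy w)))

theorem EvData.memJ' (h : EvData B b c₀ c₁ K₀ P J J' I) {x y : A} (hx : x ∈ J) (hy : y ∈ J)
    {j : ℤ} {f : FA k} (hf : InC B b j c₁ f) : ev k x y f ∈ J' := by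
  rw [ev_sum]
  refine sum_mem fun w hw => ?_
  have h0 : w ≠ 1 := fun e => Finsupp.mem_support_iff.1 hw (e ▸ hf.1)
  rcases hf.2.2 w with h1 | h1
  · exact h.JJ' (h.Jsmul _ h1 _ (ev_wd_J h hx hy w h0))
  · exact h.PJ' (by simpa using h.smul h1 (ev_wd_P h hx hy w))

/-- higher terms contract differences -/
theorem EvData.lip (h : EvData B b c₀ c₁ K₀ P J J' I) {x y x' y' : A} (hx : x ∈ J) (hy : y ∈ J)
    (hx' : x' ∈ J) (hy' : y' ∈ J) {t : ℤ} (h1 : x - x' ∈ I ⊔ P t) (h2 : y - y' ∈ I ⊔ P t)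
    {f : FA k} (hf : InC B b (b + 1) (c₁ + b) f) : ev k x y f - ev k x' y' f ∈ I ⊔ P (t + 1) := by
  rw [ev_sum, ev_sum, ← Finset.sum_sub_distrib]
  refine sum_mem fun w hw => ?_
  have h0 : w ≠ 1 := fun e => Finsupp.mem_support_iff.1 hw (e ▸ hf.1)
  obtain ⟨i, hi, hiP, p, hp, e⟩ := ev_wd_sub h hx hy hx' hy' h1 h2 w h0
  rw [← smul_sub, e, smul_add]
  refine AddSubgroup.add_mem_sup ?_ ?_
  · rcases hf.2.2 w with h3 | h3
    · exact h.Ismul _ h3 _ hi
    · exact h.PI (h.anti (by linarith [h.c01]) (h.smul h3 hiP))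
  · convert h.smul (hf.2.1 w) hp using 2; ring

theorem EvData.wd (h : EvData B b c₀ c₁ K₀ P J J' I) {x y x' y' : A} (hx : x ∈ J) (hy : y ∈ J)
    (hx' : x' ∈ J) (hy' : y' ∈ J) (h1 : x - x' ∈ I) (h2 : y - y' ∈ I)
    {f : FA k} (hf : InC B b (b + 1) (c₁ + b) f) : ev k x y f - ev k x' y' f ∈ I := by
  have h3 := h.lip hx hy hx' hy' (t := K₀ + c₀ - b) (AddSubgroup.mem_sup_left h1)
    (AddSubgroup.mem_sup_left h2) hf
  exact sup_le le_rfl ((h.anti (by linarith)).trans h.PI) h3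

theorem EvData.inj (h : EvData B b c₀ c₁ K₀ P J J' I) {x y x' y' : A} (hx : x ∈ J) (hy : y ∈ J)
    (hx' : x' ∈ J) (hy' : y' ∈ J) {f g : FA k} (hf : InC B b (b + 1) (c₁ + b) (f - fX k))
    (hg : InC B b (b + 1) (c₁ + b) (g - fY k)) (h1 : ev k x y f - ev k x' y' f ∈ I)
    (h2 : ev k x y g - ev k x' y' g ∈ I) : x - x' ∈ I ∧ y - y' ∈ I := by
  have key : ∀ n : ℕ, x - x' ∈ I ⊔ P (b + n) ∧ y - y' ∈ I ⊔ P (b + n) := fun n => by
    induction n with
    | zero =>
      simp only [Nat.cast_zero, add_zero]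
      exact ⟨AddSubgroup.mem_sup_right (h.JP (sub_mem hx hx')),
        AddSubgroup.mem_sup_right (h.JP (sub_mem hy hy'))⟩
    | succ n ih =>
      have a1 := h.lip hx hy hx' hy' ih.1 ih.2 hf
      have a2 := h.lip hx hy hx' hy' ih.1 ih.2 hg
      rw [map_sub, map_sub, ev_X, ev_X] at a1
      rw [map_sub, map_sub, ev_Y, ev_Y] at a2
      rw [Nat.cast_succ, ← add_assoc]
      constructor
      · convert sub_mem (AddSubgroup.mem_sup_left h1) a1 using 1; abel
      · convert sub_mem (AddSubgroup.mem_sup_left h2) a2 using 1; abel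
  have hle : I ⊔ P (b + ((K₀ + c₀ - 2 * b).toNat : ℕ)) ≤ I :=
    sup_le le_rfl ((h.anti (by have := Int.self_le_toNat (K₀ + c₀ - 2 * b); linarith)).trans h.PI)
  exact ⟨hle (key _).1, hle (key _).2⟩

end Pool.Agent.MP_8299d6_al.Up

end
end

section

open Matrix

noncomputable section

namespace Pool.Agent.MP_8299d6_al.Up

open Pool.Agent.MP_810665_al (IrrChar)

variable {k : Type} [Field k] {B : ℤ → AddSubgroup k} {b : ℕ}

theorem kv1_coeff_mul (S : k → Prop) (h0 : S 0) (hadd : ∀ x y, S x → S y → S (x + y))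
    (f g : FA k) (w : FreeMonoid Bool) (H : ∀ u v, u * v = w → S (f.coeff u * g.coeff v)) :
    S ((f * g).coeff w) := by
  classical
  rw [MonoidAlgebra.coeff_mul]
  refine Finset.sum_induction _ S hadd h0 fun u _ => ?_
  refine Finset.sum_induction _ S hadd h0 fun v _ => ?_
  dsimp only
  split_ifs with h
  · exact H u v h
  · exact h0

theorem kv1_or_add (hB : Filt B) {s : ℤ} {x y : k} (hx : x ∈ B 0 ∨ x ∈ B s)
    (hy : y ∈ B 0 ∨ y ∈ B s) : x + y ∈ B 0 ∨ x + y ∈ B s := by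
  rcases le_total s 0 with h | h
  · exact Or.inr (add_mem (hx.elim (fun h' => hB.anti h h') id) (hy.elim (fun h' => hB.anti h h') id))
  · exact Or.inl (add_mem (hx.elim id fun h' => hB.anti h h') (hy.elim id fun h' => hB.anti h h'))

theorem kv1_single {S : FreeMonoid Bool → k → Prop} (h0 : ∀ w, S w 0) {u : FreeMonoid Bool}
    {c : k} (h : S u c) (w : FreeMonoid Bool) :
    S w ((MonoidAlgebra.single u c : FA k).coeff w) := by
  classical
  rw [MonoidAlgebra.coeff_single, Finsupp.single_apply]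
  split_ifs with e
  · exact e ▸ h
  · exact h0 w

theorem InA.zero {j : ℤ} : InA B b j (0 : FA k) := fun _ => zero_mem _
theorem InA.add {j : ℤ} {f g : FA k} (hf : InA B b j f) (hg : InA B b j g) :
    InA B b j (f + g) := fun w => add_mem (hf w) (hg w)
theorem InA.neg {j : ℤ} {f : FA k} (hf : InA B b j f) : InA B b j (-f) := fun w => neg_mem (hf w)
theorem InA.mono (hB : Filt B) {j j' : ℤ} (h : j' ≤ j) {f : FA k} (hf : InA B b j f) :
    InA B b j' f := fun w => hB.anti (by omega) (hf w)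
theorem InA.mul (hB : Filt B) {j j' : ℤ} {f g : FA k} (hf : InA B b j f) (hg : InA B b j' g) :
    InA B b (j + j') (f * g) := by
  intro w
  refine kv1_coeff_mul (fun x => x ∈ B (j + j' - b * (w.length : ℤ))) (zero_mem _)
    (fun _ _ => add_mem) f g w fun u v e => ?_
  have := hB.mul (hf u) (hg v)
  rw [← e, FreeMonoid.length_mul]
  push_cast
  convert this using 2
  ring
theorem InA.one (hB : Filt B) : InA B b 0 (1 : FA k) := by
  intro w
  refine kv1_single (S := fun w x => x ∈ B (0 - b * (w.length : ℤ))) (fun _ => zero_mem _)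
    (u := 1) (c := 1) ?_ w
  simpa using hB.one

theorem kv1_pow (hB : Filt B) {j : ℤ} {f : FA k} (hf : InA B b j f) (m : ℕ) :
    InA B b (j * m) (f ^ m) := by
  induction m with
  | zero => simpa using InA.one hB
  | succ m ih =>
    have := ih.mul hB hf
    rw [pow_succ]
    push_cast
    rwa [mul_add, mul_one]

theorem InA.pow (hB : Filt B) {f : FA k} (hf : InA B b 1 f) (m : ℕ) : InA B b m (f ^ m) := by
  simpa using kv1_pow hB hf m
theorem InC.zero {j t : ℤ} : InC B b j t (0 : FA k) :=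
  ⟨rfl, InA.zero, fun _ => Or.inl (zero_mem _)⟩
theorem InC.add (hB : Filt B) {j t : ℤ} {f g : FA k} (hf : InC B b j t f) (hg : InC B b j t g) :
    InC B b j t (f + g) :=
  ⟨by simp [hf.1, hg.1], hf.2.1.add hg.2.1, fun w => kv1_or_add hB (hf.2.2 w) (hg.2.2 w)⟩
theorem InC.neg {j t : ℤ} {f : FA k} (hf : InC B b j t f) : InC B b j t (-f) :=
  ⟨by simp [hf.1], hf.2.1.neg, fun w => (hf.2.2 w).imp neg_mem neg_mem⟩
theorem InC.mono (hB : Filt B) {j j' t t' : ℤ} (h : j' ≤ j) (ht : t' ≤ t) {f : FA k}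
    (hf : InC B b j t f) : InC B b j' t' f :=
  ⟨hf.1, hf.2.1.mono hB h, fun w => (hf.2.2 w).imp id fun h' => hB.anti (by omega) h'⟩
theorem InC.mul (hB : Filt B) {j j' t t' u : ℤ} {f g : FA k} (hf : InC B b j t f)
    (hg : InC B b j' t' g) (h1 : u ≤ t + j') (h2 : u ≤ j + t') : InC B b (j + j') u (f * g) := by
  refine ⟨?_, hf.2.1.mul hB hg.2.1, fun w => ?_⟩
  · refine kv1_coeff_mul (fun x : k => x = 0) rfl (fun _ _ h h' => by rw [h, h', add_zero]) f g
      1 fun x y e => ?_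
    have := congrArg FreeMonoid.length e
    rw [FreeMonoid.length_mul, FreeMonoid.length_one] at this
    have hx : x = 1 := FreeMonoid.length_eq_zero.1 (by omega)
    rw [hx, hf.1, zero_mul]
  · refine kv1_coeff_mul (fun x => x ∈ B 0 ∨ x ∈ B (u - b * (w.length : ℤ)))
      (Or.inl (zero_mem _)) (fun _ _ => kv1_or_add hB) f g w fun x y e => ?_
    have e' : (b : ℤ) * (w.length : ℤ) = b * (x.length : ℤ) + b * (y.length : ℤ) := by
      rw [← e, FreeMonoid.length_mul]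
      push_cast
      ring
    rcases hf.2.2 x with h | h
    · rcases hg.2.2 y with h' | h'
      · exact Or.inl (by simpa using hB.mul h h')
      · exact Or.inr (hB.anti (by omega) (hB.mul (hf.2.1 x) h'))
    · exact Or.inr (hB.anti (by omega) (hB.mul h (hg.2.1 y)))

theorem kv1_inC_single {j t : ℤ} {u : FreeMonoid Bool} (hu : u ≠ 1) {c : k}
    (h1 : c ∈ B (j - b * (u.length : ℤ))) (h2 : c ∈ B 0 ∨ c ∈ B (t - b * (u.length : ℤ))) :
    InC B b j t (MonoidAlgebra.single u c) :=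
  ⟨kv1_single (S := fun w (x : k) => w = 1 → x = 0) (fun _ _ => rfl) (fun e => absurd e hu) 1 rfl,
    kv1_single (S := fun w x => x ∈ B (j - b * (w.length : ℤ))) (fun _ => zero_mem _) h1,
    kv1_single (S := fun w x => x ∈ B 0 ∨ x ∈ B (t - b * (w.length : ℤ)))
      (fun _ => Or.inl (zero_mem _)) h2⟩

theorem inC_X (hB : Filt B) (t : ℤ) : InC B b b t (fX k) :=
  kv1_inC_single (FreeMonoid.of_ne_one _) (by simpa using hB.one) (Or.inl hB.one)
theorem inC_Y (hB : Filt B) (t : ℤ) : InC B b b t (fY k) :=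
  kv1_inC_single (FreeMonoid.of_ne_one _) (by simpa using hB.one) (Or.inl hB.one)

theorem kv1_inC_sum (hB : Filt B) {j t : ℤ} {ι : Type*} (s : Finset ι) (F : ι → FA k)
    (h : ∀ i ∈ s, InC B b j t (F i)) : InC B b j t (∑ i ∈ s, F i) :=
  Finset.sum_induction _ (InC B b j t) (fun _ _ => InC.add hB) InC.zero h

theorem kv1_inA_sum {j : ℤ} {ι : Type*} (s : Finset ι) (F : ι → FA k)
    (h : ∀ i ∈ s, InA B b j (F i)) : InA B b j (∑ i ∈ s, F i) :=
  Finset.sum_induction _ (InA B b j) (fun _ _ => InA.add) InA.zero h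

theorem kv1_sign {S : AddSubgroup k} (m : ℕ) {x : k} (h : x ∈ S) : (-1) ^ m * x ∈ S := by
  rcases neg_one_pow_eq_or k m with e | e <;> rw [e]
  · rwa [one_mul]
  · rw [neg_one_mul]
    exact neg_mem h

/-- the terms of the logarithm of degree at least two -/
theorem inC_log (hB : Filt B) {c₁ : ℤ} (hL : LogOK B b c₁) (T : ℕ) (hT : 1 ≤ T) {W : FA k}
    (hW : InA B b b W) (hW0 : W.coeff 1 = 0) (hWi : ∀ w, W.coeff w ∈ B 0) :
    InC B b (b + 1) (c₁ + b) (logT k T W - W) := by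
  obtain ⟨T, rfl⟩ : ∃ T', T = T' + 1 := ⟨T - 1, by omega⟩
  have e : logT k (T + 1) W - W = ∑ m ∈ Finset.range T,
      ((-1) ^ (m + 1) / (((m + 1 : ℕ) : k) + 1)) • W ^ (m + 1 + 1) := by
    unfold logT
    rw [Finset.sum_range_succ']
    simp
  rw [e]
  refine kv1_inC_sum hB _ _ fun m _ => ?_
  have hp := kv1_pow hB hW (m + 2)
  have hi : InA B 0 0 (W ^ (m + 2)) := by
    simpa using kv1_pow (b := 0) (j := 0) hB (f := W) (fun w => by simpa using hWi w) (m + 2)
  have ec : ∀ w, (((-1) ^ (m + 1) / (((m + 1 : ℕ) : k) + 1)) • W ^ (m + 1 + 1)).coeff w =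
      (-1) ^ (m + 1) * ((((m + 2 : ℕ) : k))⁻¹ * (W ^ (m + 2)).coeff w) := by
    intro w
    rw [MonoidAlgebra.coeff_smul_apply, smul_eq_mul, div_eq_mul_inv, mul_assoc]
    push_cast
    rw [add_assoc, one_add_one_eq_two]
  refine ⟨?_, fun w => ?_, fun w => ?_⟩
  · rw [ec, pow_succ W (m + 1)]
    have : (W ^ (m + 1) * W).coeff 1 = 0 := by
      refine kv1_coeff_mul (fun x : k => x = 0) rfl (fun _ _ h h' => by rw [h, h', add_zero]) _ _
        1 fun x y e => ?_
      have := congrArg FreeMonoid.length e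
      rw [FreeMonoid.length_mul, FreeMonoid.length_one] at this
      have hy : y = 1 := FreeMonoid.length_eq_zero.1 (by omega)
      rw [hy, hW0, mul_zero]
    rw [this, mul_zero, mul_zero]
  · rw [ec]
    refine kv1_sign _ ?_
    convert hB.mul (hL.h1 (m + 2) (by omega)) (hp w) using 2
    ring
  · rw [ec]
    rcases hL.h2 (m + 2) (by omega) with h | h
    · exact Or.inl (kv1_sign _ (by simpa using hB.mul h (hi w)))
    · refine Or.inr (kv1_sign _ ?_)
      convert hB.mul h (hp w) using 2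
      ring

/-- sums of nonempty words of length `n - 1` -/
def kv1G (k : Type) [Field k] (n : ℕ) : AddSubmonoid (FA k) :=
  AddSubmonoid.closure {a | ∃ u : FreeMonoid Bool, u ≠ 1 ∧ u.length + 1 = n ∧
    a = MonoidAlgebra.single u 1}

theorem kv1G_inC (hB : Filt B) {n : ℕ} {a : FA k} (ha : a ∈ kv1G k n) {j t : ℤ} {c : k}
    (h1 : c ∈ B (j - b * (n : ℤ))) (h2 : c ∈ B 0 ∨ c ∈ B (t - b * (n : ℤ))) :
    InC B b (j - b) (t - b) (c • a) := by
  induction ha using AddSubmonoid.closure_induction with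
  | mem x hx =>
    obtain ⟨u, hu, rfl, rfl⟩ := hx
    rw [MonoidAlgebra.smul_single', mul_one]
    have e : ∀ i : ℤ, i - b - b * (u.length : ℤ) = i - b * ((u.length + 1 : ℕ) : ℤ) := by
      intro i
      push_cast
      ring
    exact kv1_inC_single hu (by rwa [e]) (by rwa [e])
  | zero => rw [smul_zero]; exact InC.zero
  | add x y _ _ hx hy => rw [smul_add]; exact hx.add hB hy

theorem kv1_rot1 (l : List Bool) : ∃ a ∈ kv1G k l.length, ∃ c ∈ kv1G k l.length,
    (MonoidAlgebra.single (FreeMonoid.ofList l) 1 : FA k) =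
      MonoidAlgebra.single (FreeMonoid.ofList (l.rotate 1)) 1 + (fX k * a - a * fX k) +
        (fY k * c - c * fY k) := by
  match l with
  | [] => exact ⟨0, zero_mem _, 0, zero_mem _, by simp⟩
  | [x] => exact ⟨0, zero_mem _, 0, zero_mem _, by simp⟩
  | x :: y :: u =>
    have hm : (MonoidAlgebra.single (FreeMonoid.ofList (y :: u)) 1 : FA k) ∈
        kv1G k (x :: y :: u).length :=
      AddSubmonoid.subset_closure ⟨FreeMonoid.ofList (y :: u), fun e =>
        List.cons_ne_nil y u (congrArg FreeMonoid.toList e), rfl, rfl⟩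
    have e1 : FreeMonoid.ofList ((x :: y :: u).rotate 1) =
        FreeMonoid.ofList (y :: u) * FreeMonoid.of x := by
      rw [List.rotate_cons_succ, List.rotate_zero]
      rfl
    have e2 : FreeMonoid.ofList (x :: y :: u) = FreeMonoid.of x * FreeMonoid.ofList (y :: u) := rfl
    rw [e1, e2]
    cases x
    · refine ⟨0, zero_mem _, _, hm, ?_⟩
      simp only [fY, MonoidAlgebra.single_mul_single, mul_one, mul_zero, zero_mul, sub_zero,
        add_zero]
      abel
    · refine ⟨_, hm, 0, zero_mem _, ?_⟩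
      simp only [fX, MonoidAlgebra.single_mul_single, mul_one, mul_zero, zero_mul, sub_zero,
        add_zero]
      abel

theorem kv1_rot (l : List Bool) (n : ℕ) : ∃ a ∈ kv1G k l.length, ∃ c ∈ kv1G k l.length,
    (MonoidAlgebra.single (FreeMonoid.ofList l) 1 : FA k) =
      MonoidAlgebra.single (FreeMonoid.ofList (l.rotate n)) 1 + (fX k * a - a * fX k) +
        (fY k * c - c * fY k) := by
  induction n with
  | zero => exact ⟨0, zero_mem _, 0, zero_mem _, by simp⟩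
  | succ n ih =>
    obtain ⟨a, ha, c, hc, e⟩ := ih
    obtain ⟨a', ha', c', hc', e'⟩ := kv1_rot1 (k := k) (l.rotate n)
    rw [List.length_rotate] at ha' hc'
    rw [List.rotate_rotate] at e'
    refine ⟨a + a', add_mem ha ha', c + c', add_mem hc hc', ?_⟩
    rw [e, e']
    noncomm_ring

/-- the canonical rotation of a word -/
def kv1r (w : FreeMonoid Bool) : FreeMonoid Bool :=
  FreeMonoid.ofList (Quotient.mk (List.IsRotated.setoid Bool) w.toList).out

theorem kv1r_rot (w : FreeMonoid Bool) : ∃ n, kv1r w = FreeMonoid.ofList (w.toList.rotate n) := by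
  have h : (List.IsRotated.setoid Bool).r _ w.toList :=
    Quotient.mk_out (s := List.IsRotated.setoid Bool) w.toList
  obtain ⟨n, hn⟩ := List.IsRotated.symm h
  exact ⟨n, by rw [hn]; rfl⟩

theorem kv1r_comm (u v : FreeMonoid Bool) : kv1r (u * v) = kv1r (v * u) := by
  unfold kv1r
  rw [Quotient.sound (s := List.IsRotated.setoid Bool) (a := (u * v).toList) (b := (v * u).toList)
    List.isRotated_append]

theorem kv1_constr (a : FreeMonoid Bool → FA k) (f : FA k) :
    (MonoidAlgebra.basis (FreeMonoid Bool) k).constr k a f =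
      ∑ w ∈ f.coeff.support, f.coeff w • a w := by
  rw [Module.Basis.constr_apply]
  rfl

/-- a cyclic trace: `nu` sends a word to a canonical rotation; the difference is a sum of two
commutators -/
theorem exists_trace : ∃ nu al be : FA k →ₗ[k] FA k,
    (∀ f g, nu (f * g) = nu (g * f)) ∧
    (∀ f, f = nu f + (fX k * al f - al f * fX k) + (fY k * be f - be f * fY k)) ∧
    (∀ (B : ℤ → AddSubgroup k) (b : ℕ) (j : ℤ) (f : FA k), InA B b j f → InA B b j (nu f)) ∧
    (∀ (B : ℤ → AddSubgroup k) (b : ℕ) (j t : ℤ) (f : FA k), Filt B → InC B b j t f →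
      InC B b (j - b) (t - b) (al f) ∧ InC B b (j - b) (t - b) (be f)) ∧
    (∃ r : FreeMonoid Bool → FreeMonoid Bool, (∀ w, (r w).length = w.length) ∧
      ∀ w (c : k), nu (MonoidAlgebra.single w c) = MonoidAlgebra.single (r w) c) := by
  have H : ∀ w : FreeMonoid Bool, ∃ a ∈ kv1G k w.length, ∃ c ∈ kv1G k w.length,
      (MonoidAlgebra.single w 1 : FA k) = MonoidAlgebra.single (kv1r w) 1 +
        (fX k * a - a * fX k) + (fY k * c - c * fY k) := by
    intro w
    obtain ⟨n, hn⟩ := kv1r_rot w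
    rw [hn]
    exact kv1_rot w.toList n
  choose a ha c hc e using H
  have hl : ∀ w, (kv1r w).length = w.length := by
    intro w
    obtain ⟨n, hn⟩ := kv1r_rot w
    rw [hn]
    exact List.length_rotate _ _
  have hs : ∀ (F : FreeMonoid Bool → FA k) w (x : k),
      (MonoidAlgebra.basis (FreeMonoid Bool) k).constr k F (MonoidAlgebra.single w x) =
        x • F w := by
    intro F w x
    have : (MonoidAlgebra.single w x : FA k) = x • MonoidAlgebra.basis (FreeMonoid Bool) k w := by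
      rw [MonoidAlgebra.basis_apply, MonoidAlgebra.smul_single', mul_one]
    rw [this, map_smul, Module.Basis.constr_basis]
  have hn : ∀ w (x : k), (MonoidAlgebra.basis (FreeMonoid Bool) k).constr k
      (fun w => (MonoidAlgebra.single (kv1r w) 1 : FA k)) (MonoidAlgebra.single w x) =
        MonoidAlgebra.single (kv1r w) x := by
    intro w x
    rw [hs, MonoidAlgebra.smul_single', mul_one]
  refine ⟨(MonoidAlgebra.basis (FreeMonoid Bool) k).constr k
      (fun w => MonoidAlgebra.single (kv1r w) 1),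
    (MonoidAlgebra.basis (FreeMonoid Bool) k).constr k a,
    (MonoidAlgebra.basis (FreeMonoid Bool) k).constr k c, fun f g => ?_, fun f => ?_,
    fun B b j f hf => ?_, fun B b j t f hB hf => ⟨?_, ?_⟩, kv1r, hl, hn⟩
  · induction f using MonoidAlgebra.induction_linear with
    | zero => simp
    | add f f' h h' => rw [add_mul, mul_add, map_add, map_add, h, h']
    | single u x =>
      induction g using MonoidAlgebra.induction_linear with
      | zero => simp
      | add g g' h h' => rw [add_mul, mul_add, map_add, map_add, h, h']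
      | single v y =>
        rw [MonoidAlgebra.single_mul_single, MonoidAlgebra.single_mul_single, hn, hn, kv1r_comm,
          mul_comm x]
  · induction f using MonoidAlgebra.induction_linear with
    | zero => simp
    | add f f' h h' =>
      rw [map_add, map_add, map_add]
      conv_lhs => rw [h, h']
      noncomm_ring
    | single u x =>
      rw [hs, hs, hs]
      have : (MonoidAlgebra.single u x : FA k) = x • MonoidAlgebra.single u 1 := by
        rw [MonoidAlgebra.smul_single', mul_one]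
      rw [this, e u]
      simp only [smul_add, smul_sub, mul_smul_comm, smul_mul_assoc]
  · rw [kv1_constr]
    refine kv1_inA_sum _ _ fun w _ => ?_
    rw [MonoidAlgebra.smul_single', mul_one]
    exact kv1_single (S := fun w x => x ∈ B (j - b * (w.length : ℤ))) (fun _ => zero_mem _)
      (by rw [hl]; exact hf w)
  · rw [kv1_constr]
    exact kv1_inC_sum hB _ _ fun w _ => kv1G_inC hB (ha w) (hf.2.1 w) (hf.2.2 w)
  · rw [kv1_constr]
    exact kv1_inC_sum hB _ _ fun w _ => kv1G_inC hB (hc w) (hf.2.1 w) (hf.2.2 w)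

end Pool.Agent.MP_8299d6_al.Up

end
end

section

open Matrix

noncomputable section

namespace Pool.Agent.MP_8299d6_al.Up

open Pool.Agent.MP_810665_al (IrrChar)

variable {k : Type} [Field k] {B : ℤ → AddSubgroup k} {b : ℕ} {c₀ c₁ K₀ : ℤ}
  {A : Type} [Ring A] [Algebra k A]

/-- the total extension of a homomorphism defined on a subring -/
lemma desc_ext (O : Subring A) {M : Type} [Ring M] (π : O →+* M) :
    ∃ q : A → M, (∀ (x : A) (hx : x ∈ O), q x = π ⟨x, hx⟩) ∧ q 0 = 0 ∧ q 1 = 1 ∧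
      (∀ x ∈ O, ∀ y ∈ O, q (x + y) = q x + q y) ∧ (∀ x ∈ O, ∀ y ∈ O, q (x - y) = q x - q y) ∧
      (∀ x ∈ O, ∀ y ∈ O, q (x * y) = q x * q y) ∧ ∀ x ∈ O, ∀ n : ℕ, q (x ^ n) = q x ^ n := by
  classical
  obtain ⟨q, h⟩ : ∃ q : A → M, ∀ (x : A) (hx : x ∈ O), q x = π ⟨x, hx⟩ :=
    ⟨fun x => if h : x ∈ O then π ⟨x, h⟩ else 0, fun x hx => dif_pos hx⟩
  refine ⟨q, h, (h _ O.zero_mem).trans π.map_zero, (h _ O.one_mem).trans π.map_one,
    fun x hx y hy => ?_, fun x hx y hy => ?_, fun x hx y hy => ?_, fun x hx n => ?_⟩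
  · rw [h _ (O.add_mem hx hy), h _ hx, h _ hy, ← map_add]
    rfl
  · rw [h _ (O.sub_mem hx hy), h _ hx, h _ hy, ← map_sub]
    rfl
  · rw [h _ (O.mul_mem hx hy), h _ hx, h _ hy, ← map_mul]
    rfl
  · rw [h _ (O.pow_mem hx n), h _ hx, ← map_pow]
    rfl

lemma desc_log (T : ℕ) (x y : A) :
    ev k x y (logT k T (fX k)) = logT k T x ∧ ev k x y (logT k T (fY k)) = logT k T y := by
  rw [map_logT, map_logT, ev_X, ev_Y]
  exact ⟨rfl, rfl⟩

/-- descent of the universal identity to a finite quotient; the logarithm does not depend on the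
subring `J` -/
theorem descend (hB : Filt B) (hb : 1 ≤ b) {T : ℕ} {a a' c c' : FA k}
    (hkv : KV B b c₁ (K₀ + c₀ - b) T a a' c c') (O : Subring A) {M : Type} [Ring M] [Finite M]
    (π : O →+* M) (hπ : Function.Surjective π)
    (hu : ∀ g : O, IsUnit (π g) → ∃ g' : O, g * g' = 1 ∧ g' * g = 1) (I : AddSubgroup A)
    (hI : ∀ x : A, x ∈ I ↔ ∃ hx : x ∈ O, π ⟨x, hx⟩ = 0) :
    ∃ L : M → M, ∀ (J J' : NonUnitalSubring M) (P : ℤ → AddSubgroup A) (Jt Jt' : AddSubgroup A),
      (∀ x : A, x ∈ Jt ↔ ∃ hx : x ∈ O, π ⟨x, hx⟩ ∈ J) →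
      (∀ x : A, x ∈ Jt' ↔ ∃ hx : x ∈ O, π ⟨x, hx⟩ ∈ J') →
      EvData B b c₀ c₁ K₀ P Jt Jt' I → OM J J' L := by
  obtain ⟨q, q0, qz, qo, qa, qs, qm, qp⟩ := desc_ext O π
  choose s₀ hs₀ using hπ
  obtain ⟨s, sO, hs⟩ : ∃ s : M → A, (∀ x, s x ∈ O) ∧ ∀ x, q (s x) = x :=
    ⟨fun x => s₀ x, fun x => (s₀ x).2, fun x => (q0 _ (s₀ x).2).trans (hs₀ x)⟩
  have hI' : ∀ u ∈ O, ∀ v ∈ O, (u - v ∈ I ↔ q u = q v) := fun u hu v hv => by
    rw [hI, ← sub_eq_zero, ← qs u hu v hv]
    exact ⟨fun ⟨h, e⟩ => (q0 _ h).trans e, fun e => ⟨_, (q0 _ (O.sub_mem hu hv)).symm.trans e⟩⟩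
  refine ⟨fun x => q (logT k T (s x)), fun J J' P Jt Jt' hJ hJ' hE => ?_⟩
  have mem : ∀ {N : NonUnitalSubring M} {Nt : AddSubgroup A},
      (∀ x : A, x ∈ Nt ↔ ∃ hx : x ∈ O, π ⟨x, hx⟩ ∈ N) → ∀ x, x ∈ Nt ↔ x ∈ O ∧ q x ∈ N :=
    fun h x => (h x).trans ⟨fun ⟨h, e⟩ => ⟨h, q0 _ h ▸ e⟩, fun ⟨h, e⟩ => ⟨h, q0 _ h ▸ e⟩⟩
  replace hJ := mem hJ
  replace hJ' := mem hJ'
  have sJ : ∀ x ∈ J, s x ∈ Jt := fun x hx => (hJ _).2 ⟨sO x, (hs x).symm ▸ hx⟩
  have lg : ∀ u : A, logT k T u = ev k u u (logT k T (fX k) - fX k) + u := fun u => by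
    rw [map_sub, (desc_log T u u).1, ev_X, sub_add_cancel]
  have lJ : ∀ u ∈ Jt, logT k T u ∈ Jt := fun u hu => by
    rw [lg]
    exact add_mem (hE.memJ hu hu hkv.l0) hu
  have lO : ∀ u ∈ Jt, logT k T u ∈ O := fun u hu => ((hJ _).1 (lJ u hu)).1
  have hL : ∀ u ∈ Jt, q (logT k T (s (q u))) = q (logT k T u) := fun u hu => by
    have h1 := sJ _ ((hJ u).1 hu).2
    have h2 : s (q u) - u ∈ I := (hI' _ (sO _) _ ((hJ u).1 hu).1).2 (hs _)
    rw [← hI' _ (lO _ h1) _ (lO _ hu), lg, lg u, add_sub_add_comm]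
    exact add_mem (hE.wd h1 h1 hu hu h2 h2 hkv.l0) h2
  have hK : ∀ {u v : A}, u ∈ Jt → v ∈ Jt → ∀ {f g : FA k}, InA B b (K₀ + c₀ - b) (f - g) →
      ev k u v f - ev k u v g ∈ I := fun hu hv f g h => by
    rw [← map_sub]
    exact hE.PI (hE.memP hu hv h)
  have fO : ∀ {u v : A}, u ∈ Jt → v ∈ Jt → ∀ {f : FA k}, InC B b 1 c₁ f →
      ev k u v (1 + f) ∈ O ∧ q (ev k u v (1 + f)) - 1 ∈ J' := fun hu hv f h => by
    obtain ⟨h1, h2⟩ := (hJ' _).1 (hE.memJ' hu hv h)
    rw [map_add, map_one, qa _ O.one_mem _ h1, qo, add_sub_cancel_left]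
    exact ⟨O.add_mem O.one_mem h1, h2⟩
  have mk : ∀ {f f' : FA k}, InC B b 1 c₁ f → InC B b 1 c₁ f' →
      InA B b (K₀ + c₀ - b) ((1 + f) * (1 + f') - 1) →
      InA B b (K₀ + c₀ - b) ((1 + f') * (1 + f) - 1) → ∃ g : M → M → Mˣ, ∀ x ∈ J, ∀ y ∈ J,
        g x y ∈ UU J' ∧ ∀ z ∈ O, ev k (s x) (s y) (1 + f) * z * ev k (s x) (s y) (1 + f') ∈ O ∧
          cj (g x y) (q z) = q (ev k (s x) (s y) (1 + f) * z * ev k (s x) (s y) (1 + f')) := by
    intro f f' hf hf' i1 i2
    have : ∀ x y : M, ∃ g : Mˣ, x ∈ J → y ∈ J → g ∈ UU J' ∧ ∀ z ∈ O,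
        ev k (s x) (s y) (1 + f) * z * ev k (s x) (s y) (1 + f') ∈ O ∧
          cj g (q z) = q (ev k (s x) (s y) (1 + f) * z * ev k (s x) (s y) (1 + f')) := by
      intro x y
      by_cases hx : x ∈ J
      swap
      · exact ⟨1, fun h => (hx h).elim⟩
      by_cases hy : y ∈ J
      swap
      · exact ⟨1, fun _ h => (hy h).elim⟩
      obtain ⟨a1, a2⟩ := fO (sJ x hx) (sJ y hy) hf
      obtain ⟨a3, -⟩ := fO (sJ x hx) (sJ y hy) hf'
      have e1 := hK (sJ x hx) (sJ y hy) i1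
      have e2 := hK (sJ x hx) (sJ y hy) i2
      rw [map_mul, map_one, hI' _ (O.mul_mem a1 a3) _ O.one_mem, qm _ a1 _ a3, qo] at e1
      rw [map_mul, map_one, hI' _ (O.mul_mem a3 a1) _ O.one_mem, qm _ a3 _ a1, qo] at e2
      refine ⟨⟨_, _, e1, e2⟩, fun _ _ => ⟨a2, fun z hz => ⟨O.mul_mem (O.mul_mem a1 hz) a3, ?_⟩⟩⟩
      rw [qm _ (O.mul_mem a1 hz) _ a3, qm _ a1 _ hz]
      rfl
    choose g hg using this
    exact ⟨g, fun x hx y hy => hg x y hx hy⟩
  have maps : Set.MapsTo (fun x => q (logT k T (s x))) J J :=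
    fun x hx => ((hJ _).1 (lJ _ (sJ x hx))).2
  refine ⟨fun x hx => IsNilpotent.isUnit_one_add ⟨(K₀ + c₀ - b).toNat, ?_⟩, ?_, ?_,
    fun g x hx hgx => ?_, ?_⟩
  · have h1 : ∀ n : ℕ, s x ^ n ∈ P (n * b) := fun n => by
      induction n with
      | zero => simpa using hE.one
      | succ n ih =>
        rw [pow_succ, Nat.cast_succ, add_mul, one_mul]
        exact hE.mul ih (hE.JP (sJ x hx))
    have h2 : s x ^ (K₀ + c₀ - b).toNat - 0 ∈ I := by
      rw [sub_zero]
      refine hE.PI (hE.anti ?_ (h1 _))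
      have h3 : (1 : ℤ) ≤ b := by exact_mod_cast hb
      have h4 := Int.self_le_toNat (K₀ + c₀ - b)
      nlinarith [Int.natCast_nonneg (K₀ + c₀ - b).toNat]
    rwa [hI' _ (O.pow_mem (sO x) _) _ O.zero_mem, qp _ (sO x), hs, qz] at h2
  · have h1 := hL 0 (zero_mem _)
    rw [qz] at h1
    rw [h1, ← qz]
    simp [logT]
  · refine ((Set.toFinite _).injOn_iff_bijOn_of_mapsTo maps).1 fun x hx y hy e => ?_
    have h1 := (hI' _ (lO _ (sJ x hx)) _ (lO _ (sJ y hy))).2 e
    have h2 := hE.inj (sJ x hx) (zero_mem _) (sJ y hy) (zero_mem _) hkv.l0 (g := fY k)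
      (by rw [sub_self]; exact InC.zero) (by rwa [(desc_log T _ _).1, (desc_log T _ _).1])
      (by rw [ev_Y, ev_Y, sub_self]; exact zero_mem _)
    rw [← hs x, ← hs y]
    exact (hI' _ (sO x) _ (sO y)).1 h2.1
  · obtain ⟨g', h1, h2⟩ := hu (s₀ g) (by rw [hs₀]; exact g.isUnit)
    have e1 : q (s₀ g) = g := (q0 _ (s₀ g).2).trans (hs₀ g)
    have e2 : q g' = (g⁻¹ : Mˣ) := by
      rw [q0 _ g'.2]
      refine Units.eq_inv_of_mul_eq_one_left ?_
      rw [← hs₀ g, ← map_mul, h1, map_one]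
    have e3 : ∀ z ∈ O, q ((s₀ g : A) * z * g') = cj g (q z) := fun z hz => by
      rw [qm _ (O.mul_mem (s₀ g).2 hz) _ g'.2, qm _ (s₀ g).2 _ hz, e1, e2, cj]
    have e4 := e3 _ (sO x)
    rw [hs] at e4
    have h3 := hL _ ((hJ _).2 ⟨O.mul_mem (O.mul_mem (s₀ g).2 (sO x)) g'.2, e4 ▸ hgx⟩)
    rw [e4] at h3
    rw [h3, logT_conj T _ _ _ (congrArg Subtype.val h2), e3 _ (lO _ (sJ x hx))]
  · obtain ⟨g, hg⟩ := mk hkv.ha hkv.ha' hkv.i1 hkv.i2
    obtain ⟨h, hh⟩ := mk hkv.hc hkv.hc' hkv.i3 hkv.i4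
    refine ⟨g, h, fun x hx y hy => ⟨(hg x hx y hy).1, (hh x hx y hy).1, ?_⟩, ?_⟩
    · obtain ⟨a1, a2⟩ := (hg x hx y hy).2 _ (lO _ (sJ x hx))
      obtain ⟨a3, a4⟩ := (hh x hx y hy).2 _ (lO _ (sJ y hy))
      have h1 : s x + s y + s x * s y ∈ Jt :=
        add_mem (add_mem (sJ x hx) (sJ y hy)) (hE.Jmul _ (sJ x hx) _ (sJ y hy))
      have h2 := hL _ h1
      rw [qa _ (O.add_mem (sO x) (sO y)) _ (O.mul_mem (sO x) (sO y)), qa _ (sO x) _ (sO y),
        qm _ (sO x) _ (sO y), hs, hs] at h2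
      have h3 := hK (sJ x hx) (sJ y hy) hkv.main
      rw [map_sub, map_logT, map_add, map_add, map_mul, map_mul, map_mul, map_mul, map_mul, ev_X,
        ev_Y, (desc_log T _ _).1, (desc_log T _ _).2, sub_sub] at h3
      rw [h2, a2, a4, ← qa _ a1 _ a3]
      exact (hI' _ (lO _ h1) _ (O.add_mem a1 a3)).1 h3
    · rintro ⟨x, y⟩ ⟨hx, hy⟩ ⟨x', y'⟩ ⟨hx', hy'⟩ e
      obtain ⟨a1, a2⟩ := (hg x hx y hy).2 _ (lO _ (sJ x hx))
      obtain ⟨a3, a4⟩ := (hh x hx y hy).2 _ (lO _ (sJ y hy))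
      obtain ⟨b1, b2⟩ := (hg x' hx' y' hy').2 _ (lO _ (sJ x' hx'))
      obtain ⟨b3, b4⟩ := (hh x' hx' y' hy').2 _ (lO _ (sJ y' hy'))
      have e1 := (hI' _ a1 _ b1).2 (a2.symm.trans ((congrArg Prod.fst e).trans b2))
      have e2 := (hI' _ a3 _ b3).2 (a4.symm.trans ((congrArg Prod.snd e).trans b4))
      have h2 := hE.inj (sJ x hx) (sJ y hy) (sJ x' hx') (sJ y' hy') hkv.l1 hkv.l2
        (by rwa [map_mul, map_mul, map_mul, map_mul, (desc_log T _ _).1, (desc_log T _ _).1])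
        (by rwa [map_mul, map_mul, map_mul, map_mul, (desc_log T _ _).2, (desc_log T _ _).2])
      rw [← hs x, ← hs y, ← hs x', ← hs y', (hI' _ (sO x) _ (sO x')).1 h2.1,
        (hI' _ (sO y) _ (sO y')).1 h2.2]

end Pool.Agent.MP_8299d6_al.Up

end
end

section

open Matrix

noncomputable section

namespace Pool.Agent.MP_8299d6_al.Up

open Pool.Agent.MP_810665_al (IrrChar)

section Aux

variable {k : Type} [Field k]

/-- elements whose coefficients in length `l` lie in `S l` -/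
def kv2Q (S : ℕ → AddSubgroup k) : AddSubgroup (FA k) where
  carrier := {f | ∀ w : FreeMonoid Bool, f.coeff w ∈ S w.length}
  zero_mem' := fun w => (S _).zero_mem
  add_mem' := fun hf hg w => (S _).add_mem (hf w) (hg w)
  neg_mem' := fun hf w => (S _).neg_mem (hf w)

lemma kv2_single {S : ℕ → AddSubgroup k} {w : FreeMonoid Bool} {c : k} (h : c ∈ S w.length) :
    (MonoidAlgebra.single w c : FA k) ∈ kv2Q S := by
  classical
  intro w'
  rw [MonoidAlgebra.coeff_single_apply]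
  split_ifs with e
  · exact e ▸ h
  · exact (S _).zero_mem

lemma kv2_mul {S S' S'' : ℕ → AddSubgroup k}
    (h : ∀ i j c d, c ∈ S i → d ∈ S' j → c * d ∈ S'' (i + j)) {f g : FA k} (hf : f ∈ kv2Q S)
    (hg : g ∈ kv2Q S') : f * g ∈ kv2Q S'' := by
  rw [MonoidAlgebra.mul_def]
  refine AddSubgroup.sum_mem _ fun w _ => AddSubgroup.sum_mem _ fun w' _ => kv2_single ?_
  rw [FreeMonoid.length_mul]
  exact h _ _ _ _ (hf w) (hg w')

lemma kv2_nu {S : ℕ → AddSubgroup k} {nu : FA k →ₗ[k] FA k} {r : FreeMonoid Bool → FreeMonoid Bool}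
    (hr : ∀ w, (r w).length = w.length)
    (h2 : ∀ w (c : k), nu (MonoidAlgebra.single w c) = MonoidAlgebra.single (r w) c) {f : FA k}
    (hf : f ∈ kv2Q S) : nu f ∈ kv2Q S := by
  rw [← MonoidAlgebra.sum_coeff_single f, Finsupp.sum, map_sum]
  refine AddSubgroup.sum_mem _ fun w _ => ?_
  rw [h2]
  exact kv2_single (by rw [hr]; exact hf w)

/-- coefficients vanish below `m` and lie in `C` from there on -/
def kv2S (C : AddSubgroup k) (m : ℕ) : ℕ → AddSubgroup k := fun l => if l < m then ⊥ else C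

lemma kv2S_iff {C : AddSubgroup k} {m l : ℕ} {c : k} (h0 : c ∈ C) :
    c ∈ kv2S C m l ↔ (l < m → c = 0) := by
  unfold kv2S
  split_ifs with h <;> simp [h, h0]

lemma kv2S_mem {C : AddSubgroup k} {m l : ℕ} {c : k} (h : c ∈ kv2S C m l) : c ∈ C := by
  unfold kv2S at h
  split_ifs at h
  · rw [AddSubgroup.mem_bot.1 h]
    exact C.zero_mem
  · exact h

lemma kv2S_mul {C : AddSubgroup k} (hC : ∀ c ∈ C, ∀ d ∈ C, c * d ∈ C) {m m' : ℕ} {f g : FA k}
    (hf : f ∈ kv2Q (kv2S C m)) (hg : g ∈ kv2Q (kv2S C m')) : f * g ∈ kv2Q (kv2S C (m + m')) := by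
  refine kv2_mul (fun i j c d hc hd => ?_) hf hg
  rw [kv2S_iff (hC _ (kv2S_mem hc) _ (kv2S_mem hd))]
  rw [kv2S_iff (kv2S_mem hc)] at hc
  rw [kv2S_iff (kv2S_mem hd)] at hd
  intro h
  by_cases h₁ : i < m
  · rw [hc h₁, zero_mul]
  · rw [hd (by omega), mul_zero]

lemma kv2S_pow {C : AddSubgroup k} (hC : ∀ c ∈ C, ∀ d ∈ C, c * d ∈ C) (h1 : (1 : k) ∈ C)
    {f : FA k} (hf : f ∈ kv2Q (kv2S C 1)) (m : ℕ) : f ^ m ∈ kv2Q (kv2S C m) := by
  induction m with
  | zero =>
    rw [pow_zero, MonoidAlgebra.one_def]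
    exact kv2_single ((kv2S_iff h1).2 fun h => absurd h (Nat.not_lt_zero _))
  | succ m ih =>
    rw [pow_succ]
    exact kv2S_mul hC ih hf

lemma kv2S_mono {C : AddSubgroup k} {m m' : ℕ} (h : m' ≤ m) {f : FA k}
    (hf : f ∈ kv2Q (kv2S C m)) : f ∈ kv2Q (kv2S C m') := fun w => by
  have h₁ := hf w
  have h₂ := kv2S_mem h₁
  rw [kv2S_iff h₂] at h₁ ⊢
  exact fun h' => h₁ (by omega)

lemma kv2S_X {C : AddSubgroup k} (h1 : (1 : k) ∈ C) : fX k ∈ kv2Q (kv2S C 1) :=
  kv2_single ((kv2S_iff h1).2 fun h => absurd h (by simp))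

lemma kv2S_Y {C : AddSubgroup k} (h1 : (1 : k) ∈ C) : fY k ∈ kv2Q (kv2S C 1) :=
  kv2_single ((kv2S_iff h1).2 fun h => absurd h (by simp))

lemma kv2S_W {C : AddSubgroup k} (hC : ∀ c ∈ C, ∀ d ∈ C, c * d ∈ C) (h1 : (1 : k) ∈ C) :
    fX k + fY k + fX k * fY k ∈ kv2Q (kv2S C 1) :=
  add_mem (add_mem (kv2S_X h1) (kv2S_Y h1))
    (kv2S_mono (by omega) (kv2S_mul hC (kv2S_X h1) (kv2S_Y h1)))

/-- elements supported in length at least `T` -/
abbrev kv2I (k : Type) [Field k] (T : ℕ) : AddSubgroup (FA k) := kv2Q (kv2S ⊤ T)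

lemma kv2I_zero (f : FA k) : f ∈ kv2I k 0 := fun _ =>
  (kv2S_iff (AddSubgroup.mem_top _)).2 fun h => absurd h (Nat.not_lt_zero _)

lemma kv2I_mul {T : ℕ} {f : FA k} (hf : f ∈ kv2I k T) (g h : FA k) : g * f * h ∈ kv2I k T := by
  have := kv2S_mul (C := ⊤) (fun _ _ _ _ => trivial)
    (kv2S_mul (C := ⊤) (fun _ _ _ _ => trivial) (kv2I_zero g) hf) (kv2I_zero h)
  simpa using this

lemma kv2I_smul {T : ℕ} {f : FA k} (hf : f ∈ kv2I k T) (c : k) : c • f ∈ kv2I k T := fun w => by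
  have h₁ := hf w
  rw [kv2S_iff (AddSubgroup.mem_top _)] at h₁ ⊢
  intro h
  rw [MonoidAlgebra.coeff_smul_apply, h₁ h, smul_zero]

/-- the Euler derivation -/
def kv2D (k : Type) [Field k] : FA k →ₗ[k] FA k :=
  (MonoidAlgebra.basis (FreeMonoid Bool) k).constr k fun w =>
    MonoidAlgebra.single w (w.length : k)

lemma kv2D_single (w : FreeMonoid Bool) (c : k) :
    kv2D k (MonoidAlgebra.single w c) = MonoidAlgebra.single w (w.length * c) := by
  have : (MonoidAlgebra.single w c : FA k) = c • MonoidAlgebra.basis (FreeMonoid Bool) k w := by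
    rw [MonoidAlgebra.basis_apply, MonoidAlgebra.smul_single', mul_one]
  rw [this, map_smul, kv2D, Module.Basis.constr_basis, MonoidAlgebra.smul_single', mul_comm]

lemma kv2D_coeff (f : FA k) (w : FreeMonoid Bool) :
    (kv2D k f).coeff w = w.length * f.coeff w := by
  classical
  induction f using MonoidAlgebra.induction_linear with
  | zero => simp
  | add f g hf hg => simp [hf, hg, mul_add]
  | single w' c =>
    rw [kv2D_single, MonoidAlgebra.coeff_single_apply, MonoidAlgebra.coeff_single_apply]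
    split_ifs with e
    · rw [e]
    · rw [mul_zero]

lemma kv2D_mul (f g : FA k) : kv2D k (f * g) = kv2D k f * g + f * kv2D k g := by
  induction f using MonoidAlgebra.induction_linear with
  | zero => simp
  | add f f' hf hf' =>
    rw [add_mul, map_add, hf, hf', map_add]
    noncomm_ring
  | single w c =>
    induction g using MonoidAlgebra.induction_linear with
    | zero => simp
    | add g g' hg hg' =>
      rw [mul_add, map_add, hg, hg', map_add]
      noncomm_ring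
    | single w' c' =>
      rw [MonoidAlgebra.single_mul_single, kv2D_single, kv2D_single, kv2D_single,
        MonoidAlgebra.single_mul_single, MonoidAlgebra.single_mul_single,
        ← MonoidAlgebra.single_add, FreeMonoid.length_mul]
      congr 1
      push_cast
      ring

lemma kv2D_X : kv2D k (fX k) = fX k := by
  unfold fX
  rw [kv2D_single]
  simp

lemma kv2D_Y : kv2D k (fY k) = fY k := by
  unfold fY
  rw [kv2D_single]
  simp

lemma kv2D_nu {nu : FA k →ₗ[k] FA k} {r : FreeMonoid Bool → FreeMonoid Bool}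
    (hr : ∀ w, (r w).length = w.length)
    (h2 : ∀ w (c : k), nu (MonoidAlgebra.single w c) = MonoidAlgebra.single (r w) c) (f : FA k) :
    kv2D k (nu f) = nu (kv2D k f) := by
  induction f using MonoidAlgebra.induction_linear with
  | zero => simp
  | add f g hf hg => simp [hf, hg]
  | single w c => rw [h2, kv2D_single, kv2D_single, h2, hr]

lemma kv2_nu_pow {nu : FA k →ₗ[k] FA k} (h1 : ∀ f g, nu (f * g) = nu (g * f)) (W : FA k) (m : ℕ) :
    ∀ j : ℕ, nu (W ^ j * kv2D k (W ^ (m + 1))) = ((m : k) + 1) • nu (W ^ (j + m) * kv2D k W) := by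
  induction m with
  | zero => simp
  | succ m ih =>
    intro j
    rw [pow_succ W (m + 1), kv2D_mul, mul_add, map_add, ← mul_assoc, h1, ← mul_assoc, ← pow_succ',
      ih, ← mul_assoc, ← pow_add, show j + 1 + m = j + (m + 1) by ring]
    push_cast
    rw [add_smul ((m : k) + 1), one_smul]

/-- the truncated inverse of `1 + x` -/
def kv2G (T : ℕ) (x : FA k) : FA k := ∑ m ∈ Finset.range T, (-x) ^ m

lemma kv2G_left (T : ℕ) (x : FA k) : (1 + x) * kv2G T x = 1 - (-x) ^ T := by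
  have := mul_neg_geom_sum (-x) T
  rwa [sub_neg_eq_add] at this

lemma kv2G_right (T : ℕ) (x : FA k) : kv2G T x * (1 + x) = 1 - (-x) ^ T := by
  have := geom_sum_mul_neg (-x) T
  rwa [sub_neg_eq_add] at this

lemma kv2_nu_log [CharZero k] {nu : FA k →ₗ[k] FA k} (h1 : ∀ f g, nu (f * g) = nu (g * f))
    (T : ℕ) (W : FA k) : nu (kv2D k (logT k T W)) = nu (kv2G T W * kv2D k W) := by
  unfold logT kv2G
  rw [map_sum, map_sum, Finset.sum_mul, map_sum]
  refine Finset.sum_congr rfl fun m _ => ?_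
  have h := kv2_nu_pow h1 W m 0
  rw [pow_zero, one_mul, zero_add] at h
  have hm : (m : k) + 1 ≠ 0 := Nat.cast_add_one_ne_zero m
  rw [map_smul, map_smul, h, smul_smul, div_mul_cancel₀ _ hm, ← neg_one_smul k W, smul_pow,
    smul_mul_assoc, map_smul]

lemma kv2_nuD [CharZero k] {nu : FA k →ₗ[k] FA k} (h1 : ∀ f g, nu (f * g) = nu (g * f))
    {r : FreeMonoid Bool → FreeMonoid Bool} (hr : ∀ w, (r w).length = w.length)
    (h2 : ∀ w (c : k), nu (MonoidAlgebra.single w c) = MonoidAlgebra.single (r w) c) (T : ℕ) :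
    nu (kv2D k (logT k T (fX k + fY k + fX k * fY k) - logT k T (fX k) - logT k T (fY k))) ∈
      kv2I k T := by
  have hp : ∀ {f : FA k}, f ∈ kv2I k 1 → (-f) ^ T ∈ kv2I k T := fun hf =>
    kv2S_pow (C := ⊤) (fun _ _ _ _ => trivial) trivial (neg_mem hf) T
  have hX := hp (kv2S_X (C := ⊤) trivial)
  have hY := hp (kv2S_Y (C := ⊤) trivial)
  have hW := hp (kv2S_W (C := ⊤) (fun _ _ _ _ => trivial) trivial)
  rw [map_sub, map_sub, map_sub, map_sub, kv2_nu_log h1, kv2_nu_log h1, kv2_nu_log h1, map_add,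
    map_add, kv2D_mul, kv2D_X, kv2D_Y]
  have eX := kv2G_right T (fX k)
  have eY := kv2G_right T (fY k)
  have eY' := kv2G_left T (fY k)
  have eW := kv2G_left T (fX k + fY k + fX k * fY k)
  generalize kv2G T (fX k + fY k + fX k * fY k) = s at *
  generalize (-(fX k + fY k + fX k * fY k)) ^ T = w at *
  generalize kv2G T (fX k) = a at *
  generalize kv2G T (fY k) = c at *
  generalize (-fX k) ^ T = x at *
  generalize (-fY k) ^ T = y at *
  generalize fX k = X at *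
  generalize fY k = Y at *
  have e₁ : s = c * a + (1 * y * s + c * x * ((1 + Y) * s) - c * a * w * 1) := by
    have h₁ : c * a * (1 - w) = c * (a * (1 + X)) * ((1 + Y) * s) := by
      rw [← eW]; noncomm_ring
    have h₂ : c * (1 - x) * ((1 + Y) * s) = c * (1 + Y) * s - c * x * ((1 + Y) * s) := by
      noncomm_ring
    rw [eX, h₂, eY] at h₁
    have h₃ : c * a = (1 - y) * s - c * x * ((1 + Y) * s) + c * a * w := by
      rw [← h₁]; noncomm_ring
    calc s = (1 - y) * s - c * x * ((1 + Y) * s) + c * a * w +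
          (1 * y * s + c * x * ((1 + Y) * s) - c * a * w * 1) := by noncomm_ring
      _ = _ := by rw [← h₃]
  have hs : 1 * y * s + c * x * ((1 + Y) * s) - c * a * w * 1 ∈ kv2I k T :=
    sub_mem (add_mem (kv2I_mul hY _ _) (kv2I_mul hX _ _)) (kv2I_mul hW _ _)
  generalize 1 * y * s + c * x * ((1 + Y) * s) - c * a * w * 1 = u at e₁ hs
  have e₂ : s * (X + Y + (X * Y + X * Y)) = c * (a * X * (1 + Y)) + (c * Y - c * x * Y) +
      1 * u * (X + Y + (X * Y + X * Y)) := by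
    have h₁ : c * Y - c * x * Y = c * (a * (1 + X)) * Y := by
      rw [eX]; noncomm_ring
    rw [h₁, e₁]
    noncomm_ring
  have e₃ : a * X * (1 + Y) * c = a * X - a * X * y * 1 := by
    rw [mul_assoc, eY']; noncomm_ring
  rw [e₂, map_add, map_add, h1 c, e₃, map_sub, map_sub]
  have e₄ : nu (a * X) - nu (a * X * y * 1) + (nu (c * Y) - nu (c * x * Y)) +
      nu (1 * u * (X + Y + (X * Y + X * Y))) - nu (a * X) - nu (c * Y) =
      nu (1 * u * (X + Y + (X * Y + X * Y))) - nu (a * X * y * 1) - nu (c * x * Y) := by abel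
  rw [e₄]
  exact sub_mem (sub_mem (kv2_nu hr h2 (kv2I_mul hs _ _)) (kv2_nu hr h2 (kv2I_mul hY _ _)))
    (kv2_nu hr h2 (kv2I_mul hX _ _))

lemma kv2_log_one (T : ℕ) {W : FA k} (hW : W ∈ kv2I k 1) : logT k T W ∈ kv2I k 1 :=
  AddSubgroup.sum_mem _ fun m _ => kv2I_smul (kv2S_mono (by omega)
    (kv2S_pow (C := ⊤) (fun _ _ _ _ => trivial) trivial hW (m + 1))) _

lemma kv2_log_good {B : ℤ → AddSubgroup k} {b : ℕ} (hB : Filt B) {c₁ : ℤ} (hL : LogOK B b c₁)
    (K : ℤ) : ∃ T : ℕ, 1 ≤ T ∧ ∀ W ∈ kv2Q (kv2S (B 0) 1),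
      logT k T W ∈ kv2Q fun l => if l < T then ⊤ else B (K - b * l) := by
  obtain ⟨m₀, hm⟩ := hL.h3 K
  have hC : ∀ c ∈ B 0, ∀ d ∈ B 0, c * d ∈ B 0 := fun c hc d hd => by simpa using hB.mul hc hd
  have hb : (1 : ℤ) ≤ b := by exact_mod_cast hL.bpos
  refine ⟨K.natAbs + m₀ + 1, by omega, fun W hW => AddSubgroup.sum_mem _ fun m _ w => ?_⟩
  dsimp only
  split_ifs with hl
  · trivial
  have h₁ := kv2S_pow hC hB.one hW (m + 1) w
  have h₂ := kv2S_mem h₁
  rw [kv2S_iff h₂] at h₁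
  rw [MonoidAlgebra.coeff_smul_apply, smul_eq_mul]
  by_cases hml : w.length < m + 1
  · rw [h₁ hml, mul_zero]
    exact zero_mem _
  have h₃ : (((m + 1 : ℕ) : k))⁻¹ ∈ B (K - b * w.length) := by
    have hK : K ≤ K.natAbs := Int.le_natAbs
    have hl' : (K.natAbs : ℤ) + m₀ + 1 ≤ w.length := by omega
    have hK0 : (0 : ℤ) ≤ K.natAbs := Int.natCast_nonneg _
    have hm0 : (0 : ℤ) ≤ m₀ := Int.natCast_nonneg _
    by_cases h₄ : m₀ ≤ m + 1
    · refine hB.anti ?_ (hm _ h₄)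
      have : ((m + 1 : ℕ) : ℤ) ≤ w.length := by omega
      nlinarith
    · rcases Nat.eq_zero_or_pos m with rfl | h₅
      · refine hB.anti (b := 0) ?_ (by simpa using hB.one)
        nlinarith
      · refine hB.anti ?_ (hL.h1 (m + 1) (by omega))
        have : ((m + 1 : ℕ) : ℤ) ≤ m₀ := by omega
        nlinarith
  have h₄ := hB.mul h₃ h₂
  rw [add_zero] at h₄
  push_cast at h₄
  rw [div_eq_mul_inv, mul_assoc]
  rcases neg_one_pow_eq_or k m with e | e <;> rw [e]
  · rwa [one_mul]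
  · rw [neg_one_mul]
    exact neg_mem h₄

end Aux

variable {k : Type} [Field k] [CharZero k] {B : ℤ → AddSubgroup k} {b : ℕ}

/-- the trace of the Baker-Campbell-Hausdorff defect vanishes -/
theorem trace_log (hB : Filt B) {c₁ : ℤ} (hL : LogOK B b c₁) (nu : FA k →ₗ[k] FA k)
    (h1 : ∀ f g, nu (f * g) = nu (g * f)) (r : FreeMonoid Bool → FreeMonoid Bool)
    (hr : ∀ w, (r w).length = w.length)
    (h2 : ∀ w (c : k), nu (MonoidAlgebra.single w c) = MonoidAlgebra.single (r w) c) (K : ℤ) :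
    ∃ T : ℕ, 1 ≤ T ∧ InA B b K (nu (logT k T (fX k + fY k + fX k * fY k)
      - logT k T (fX k) - logT k T (fY k))) := by
  obtain ⟨T, hT, H⟩ := kv2_log_good hB hL K
  have hC : ∀ c ∈ B 0, ∀ d ∈ B 0, c * d ∈ B 0 := fun c hc d hd => by simpa using hB.mul hc hd
  refine ⟨T, hT, fun w => ?_⟩
  have h₁ := kv2_nu hr h2 (sub_mem (sub_mem (H _ (kv2S_W hC hB.one)) (H _ (kv2S_X hB.one)))
    (H _ (kv2S_Y hB.one))) w
  have h₂ := kv2_nu hr h2 (sub_mem (sub_mem
    (kv2_log_one T (kv2S_W (k := k) (C := ⊤) (fun _ _ _ _ => trivial) trivial))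
    (kv2_log_one T (kv2S_X (k := k) (C := ⊤) trivial)))
    (kv2_log_one T (kv2S_Y (k := k) (C := ⊤) trivial))) w
  have h₃ := kv2_nuD h1 hr h2 T w
  rw [← kv2D_nu hr h2, kv2D_coeff] at h₃
  rw [kv2S_iff (AddSubgroup.mem_top _)] at h₂ h₃
  by_cases hl : w.length < T
  · rcases Nat.eq_zero_or_pos w.length with h0 | h0
    · rw [h₂ (by omega)]
      exact zero_mem _
    · rw [(mul_eq_zero.1 (h₃ hl)).resolve_left (Nat.cast_ne_zero.2 h0.ne')]
      exact zero_mem _
  · simpa only [if_neg hl] using h₁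

end Pool.Agent.MP_8299d6_al.Up

end
end

section

open Matrix

noncomputable section

namespace Pool.Agent.MP_8299d6_al.Up

open Pool.Agent.MP_810665_al (IrrChar)

section Aux

variable {k : Type} [Field k] {B : ℤ → AddSubgroup k} {b : ℕ}

lemma kv3_subA {j : ℤ} {f g : FA k} (hf : InA B b j f) (hg : InA B b j g) : InA B b j (f - g) := by
  rw [sub_eq_add_neg]
  exact hf.add hg.neg

lemma kv3_subC (hB : Filt B) {j t : ℤ} {f g : FA k} (hf : InC B b j t f) (hg : InC B b j t g) :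
    InC B b j t (f - g) := by
  rw [sub_eq_add_neg]
  exact hf.add hB hg.neg

lemma kv3_mulC (hB : Filt B) {j j' t t' i u : ℤ} {f g : FA k} (hf : InC B b j t f)
    (hg : InC B b j' t' g) (h0 : i ≤ j + j') (h1 : u ≤ t + j') (h2 : u ≤ j + t') :
    InC B b i u (f * g) :=
  (hf.mul hB hg h1 h2).mono hB h0 le_rfl

lemma kv3_mulA (hB : Filt B) {j j' i : ℤ} {f g : FA k} (hf : InA B b j f) (hg : InA B b j' g)
    (h0 : i ≤ j + j') : InA B b i (f * g) :=
  (hf.mul hB hg).mono hB h0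

lemma kv3_int {j : ℤ} {f : FA k} (hf : ∀ t, InC B b j t f) (w : FreeMonoid Bool) :
    f.coeff w ∈ B 0 := by
  rcases (hf (b * (w.length : ℤ))).2.2 w with h | h
  · exact h
  · rwa [sub_self] at h

lemma kv3_log (hB : Filt B) {c₁ : ℤ} (hL : LogOK B b c₁) {T : ℕ} (hT : 1 ≤ T) {W : FA k}
    (hW : ∀ t, InC B b b t W) : InC B b (b + 1) (c₁ + b) (logT k T W - W) :=
  inC_log hB hL T hT (hW 0).2.1 (hW 0).1 (kv3_int hW)

lemma kv3_geom (hB : Filt B) {s t : ℤ} (hs : 0 ≤ s) {u : FA k} (hu : InC B b s t u) (n : ℕ) :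
    ∃ v, InC B b s t v ∧ (1 - u) * (1 + v) = 1 - u ^ (n + 1) ∧
      (1 + v) * (1 - u) = 1 - u ^ (n + 1) := by
  induction n with
  | zero => exact ⟨0, InC.zero, by simp, by simp⟩
  | succ n ih =>
    obtain ⟨v, hv, h1, h2⟩ := ih
    refine ⟨u + u * v, hu.add hB (kv3_mulC hB hu hv (by omega) (by omega) (by omega)), ?_, ?_⟩
    · have e : (1 - u) * (1 + (u + u * v)) = 1 - u + u * ((1 - u) * (1 + v)) := by noncomm_ring
      rw [e, h1, pow_succ' u (n + 1)]
      noncomm_ring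
    · have e : (1 + (u + u * v)) * (1 - u) = 1 - u + u * ((1 + v) * (1 - u)) := by noncomm_ring
      rw [e, h2, pow_succ' u (n + 1)]
      noncomm_ring

lemma kv3_conj (hB : Filt B) {c₁ : ℤ} {Z x a a' : FA k} (hZ : ∀ t, InC B b b t Z)
    (hx : InC B b (b + 1) (c₁ + b) (x - Z)) (ha : InC B b 1 c₁ a) (ha' : InC B b 1 c₁ a') :
    InC B b (b + 1) (c₁ + b) ((1 + a) * x * (1 + a') - Z) := by
  have h1 : InC B b b (c₁ + b) x := by
    have := (hZ (c₁ + b)).add hB (hx.mono hB (by omega) le_rfl)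
    rwa [add_sub_cancel] at this
  have h2 : InC B b (b + 1) (c₁ + b) (a * x) := kv3_mulC hB ha h1 (by omega) (by omega) (by omega)
  have e : (1 + a) * x * (1 + a') - Z = x - Z + a * x + x * a' + a * x * a' := by noncomm_ring
  rw [e]
  exact ((hx.add hB h2).add hB (kv3_mulC hB h1 ha' (by omega) (by omega) (by omega))).add hB
    (kv3_mulC hB h2 ha' (by omega) (by omega) (by omega))

/-- a pair of mutually inverse elements modulo weight `K` -/
structure kv3_Pair (B : ℤ → AddSubgroup k) (b : ℕ) (c₁ K : ℤ) (a a' : FA k) : Prop where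
  h : InC B b 1 c₁ a
  h' : InC B b 1 c₁ a'
  i : InA B b K ((1 + a) * (1 + a') - 1)
  i' : InA B b K ((1 + a') * (1 + a) - 1)

lemma kv3_oneA (hB : Filt B) {s t : ℤ} (hs : 0 ≤ s) {u : FA k} (hu : InC B b s t u) :
    InA B b 0 (1 + u) :=
  (InA.one hB).add (hu.2.1.mono hB hs)

lemma kv3_step (hB : Filt B) {c₁ K j : ℤ} (hj : b + 1 ≤ j) {Z x a a' u : FA k}
    (hZ : ∀ t, InC B b b t Z) (hx : InC B b (b + 1) (c₁ + b) (x - Z))
    (hp : kv3_Pair B b c₁ K a a') (hu : InC B b (j - b) c₁ u) :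
    ∃ d d' e r, kv3_Pair B b c₁ K d d' ∧ InC B b (j + 1) (c₁ + b) e ∧ InA B b K r ∧
      (1 + d) * x * (1 + d') = (1 + a) * x * (1 + a') + (Z * u - u * Z) + e + r := by
  obtain ⟨v, hv, h1, h2⟩ := kv3_geom hB (by omega) hu K.toNat
  have hu1 : InC B b 1 c₁ u := hu.mono hB (by omega) le_rfl
  have hv1 : InC B b 1 c₁ v := hv.mono hB (by omega) le_rfl
  have hN : InA B b K (u ^ (K.toNat + 1)) := (InA.pow hB hu1.2.1 _).mono hB (by omega)
  have hη := kv3_conj hB hZ hx hp.h hp.h'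
  have e1 : 1 + (a - u - u * a) = (1 - u) * (1 + a) := by noncomm_ring
  have e2 : 1 + (a' + v + a' * v) = (1 + a') * (1 + v) := by noncomm_ring
  have hu0 : InA B b 0 (1 - u) := kv3_subA (InA.one hB) (hu1.2.1.mono hB (by omega))
  have hv0 := kv3_oneA hB (by omega) hv1
  have ha0 := kv3_oneA hB (by omega) hp.h
  have ha0' := kv3_oneA hB (by omega) hp.h'
  generalize u ^ (K.toNat + 1) = N at h1 h2 hN
  set ξ := (1 + a) * x * (1 + a') with hξ
  have hξC : InC B b b (c₁ + b) ξ := by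
    have := (hZ (c₁ + b)).add hB (hη.mono hB (by omega) le_rfl)
    rwa [add_sub_cancel] at this
  refine ⟨a - u - u * a, a' + v + a' * v,
    ((ξ - Z) * u - u * (ξ - Z)) + (ξ * u - u * ξ) * v, -(ξ * N), ⟨?_, ?_, ?_, ?_⟩, ?_, ?_, ?_⟩
  · exact kv3_subC hB (kv3_subC hB hp.h hu1)
      (kv3_mulC hB hu1 hp.h (by omega) (by omega) (by omega))
  · exact (hp.h'.add hB hv1).add hB (kv3_mulC hB hp.h' hv1 (by omega) (by omega) (by omega))
  · have e : (1 - u) * (1 + a) * ((1 + a') * (1 + v)) - 1 =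
        (1 - u) * ((1 + a) * (1 + a') - 1) * (1 + v) + ((1 - u) * (1 + v) - 1) := by noncomm_ring
    rw [e1, e2, e, h1, sub_sub_cancel_left]
    exact (kv3_mulA hB (kv3_mulA hB hu0 hp.i (i := K) (by omega)) hv0 (by omega)).add hN.neg
  · have e : (1 + a') * (1 + v) * ((1 - u) * (1 + a)) - 1 =
        (1 + a') * ((1 + v) * (1 - u)) * (1 + a) - 1 := by noncomm_ring
    have e' : (1 + a') * (1 - N) * (1 + a) - 1 =
        (1 + a') * (1 + a) - 1 - (1 + a') * N * (1 + a) := by noncomm_ring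
    rw [e1, e2, e, h2, e']
    exact kv3_subA hp.i' (kv3_mulA hB (kv3_mulA hB ha0' hN (i := K) (by omega)) ha0 (by omega))
  · refine InC.add hB (kv3_subC hB (kv3_mulC hB hη hu (by omega) (by omega) (by omega))
      (kv3_mulC hB hu hη (by omega) (by omega) (by omega))) ?_
    have h3 : InC B b j (c₁ + b) (ξ * u - u * ξ) :=
      kv3_subC hB (kv3_mulC hB hξC hu (by omega) (by omega) (by omega))
        (kv3_mulC hB hu hξC (by omega) (by omega) (by omega))
    exact kv3_mulC hB h3 hv (by omega) (by omega) (by omega)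
  · exact (kv3_mulA hB hξC.2.1 hN (by omega)).neg
  · have e : (1 - u) * (1 + a) * x * ((1 + a') * (1 + v)) = (1 - u) * ξ * (1 + v) := by
      rw [hξ]; noncomm_ring
    have e' : (1 - u) * ξ * (1 + v) = ξ * ((1 - u) * (1 + v)) + (ξ * u - u * ξ) * (1 + v) := by
      noncomm_ring
    rw [e1, e2, e, e', h1]
    noncomm_ring

lemma kv3_nu (hB : Filt B) {c₁ K : ℤ} {nu : FA k →ₗ[k] FA k} (h1 : ∀ f g, nu (f * g) = nu (g * f))
    (h3 : ∀ f, InA B b K f → InA B b K (nu f)) {x a a' : FA k} (hx : InA B b 0 x)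
    (hp : kv3_Pair B b c₁ K a a') : InA B b K (nu ((1 + a) * x * (1 + a') - x)) := by
  have e : x * (1 + a') * (1 + a) - x = x * ((1 + a') * (1 + a) - 1) := by noncomm_ring
  rw [map_sub, mul_assoc, h1, ← map_sub, e]
  exact h3 _ (kv3_mulA hB hx hp.i' (by omega))

end Aux

variable {k : Type} [Field k] [CharZero k] {B : ℤ → AddSubgroup k} {b : ℕ}

theorem exists_kv (hB : Filt B) {c₁ : ℤ} (hL : LogOK B b c₁) (K : ℤ) :
    ∃ (T : ℕ) (a a' c c' : FA k), KV B b c₁ K T a a' c c' := by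
  obtain ⟨nu, al, be, n1, n2, n3, n4, r₀, hr₀, n5⟩ := exists_trace (k := k)
  obtain ⟨T, hT, hD⟩ := trace_log hB hL nu n1 r₀ hr₀ n5 K
  have hb := hL.bpos
  have hX : ∀ t, InC B b b t (fX k) := inC_X hB
  have hY : ∀ t, InC B b b t (fY k) := inC_Y hB
  have hW : ∀ t, InC B b b t (fX k + fY k + fX k * fY k) := fun t =>
    ((hX t).add hB (hY t)).add hB (kv3_mulC hB (hX t) (hY t) (by omega) (by omega) (by omega))
  have lX := kv3_log hB hL hT hX
  have lY := kv3_log hB hL hT hY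
  have lW := kv3_log hB hL hT hW
  have h0 : ∀ {Z x : FA k}, (∀ t, InC B b b t Z) → InC B b (b + 1) (c₁ + b) (x - Z) →
      InA B b 0 x := by
    intro Z x hZ hx
    have := ((hZ 0).2.1.mono hB (j' := 0) (by omega)).add (hx.2.1.mono hB (by omega))
    rwa [add_sub_cancel] at this
  have hp0 : kv3_Pair B b c₁ K (0 : FA k) 0 :=
    ⟨InC.zero, InC.zero, by simpa using InA.zero, by simpa using InA.zero⟩
  have key : ∀ n : ℕ, ∃ a a' c c' e r : FA k, kv3_Pair B b c₁ K a a' ∧ kv3_Pair B b c₁ K c c' ∧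
      InC B b (b + 1 + n) (c₁ + b) e ∧ InA B b K r ∧
      logT k T (fX k + fY k + fX k * fY k) - (1 + a) * logT k T (fX k) * (1 + a') -
        (1 + c) * logT k T (fY k) * (1 + c') = e + r := by
    generalize logT k T (fX k + fY k + fX k * fY k) = L at hD lW ⊢
    generalize logT k T (fX k) = x at hD lX ⊢
    generalize logT k T (fY k) = y at hD lY ⊢
    intro n
    induction n with
    | zero =>
      refine ⟨0, 0, 0, 0, L - (fX k + fY k + fX k * fY k) + fX k * fY k - (x - fX k) - (y - fY k),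
        0, hp0, hp0, ?_, InA.zero, by noncomm_ring⟩
      rw [Nat.cast_zero, add_zero]
      exact kv3_subC hB (kv3_subC hB (lW.add hB (kv3_mulC hB (hX (c₁ + b)) (hY (c₁ + b))
        (by omega) (by omega) (by omega))) lX) lY
    | succ n ih =>
      obtain ⟨a, a', c, c', e, r, pa, pc, he, hr, hE⟩ := ih
      obtain ⟨hu, hu'⟩ := n4 B b _ _ e hB he
      rw [add_sub_cancel_right] at hu hu'
      obtain ⟨d, d', e₁, r₁, pd, he₁, hr₁, q₁⟩ := kv3_step hB (by omega) hX lX pa hu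
      obtain ⟨f, f', e₂, r₂, pf, he₂, hr₂, q₂⟩ := kv3_step hB (by omega) hY lY pc hu'
      have hnu : InA B b K (nu e) := by
        have e0 : e = L - x - y - ((1 + a) * x * (1 + a') - x) - ((1 + c) * y * (1 + c') - y) -
            r := by
          rw [eq_sub_iff_add_eq, ← hE]
          abel
        rw [e0, map_sub, map_sub, map_sub]
        exact kv3_subA (kv3_subA (kv3_subA hD (kv3_nu hB n1 (n3 B b K) (h0 hX lX) pa))
          (kv3_nu hB n1 (n3 B b K) (h0 hY lY) pc)) (n3 B b K r hr)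
      refine ⟨d, d', f, f', -(e₁ + e₂), nu e + r - r₁ - r₂, pd, pf, ?_,
        kv3_subA (kv3_subA (hnu.add hr) hr₁) hr₂, ?_⟩
      · rw [Nat.cast_succ, ← add_assoc]
        exact (he₁.add hB he₂).neg
      · have e1 := n2 e
        have e2 : nu e = e - (fX k * al e - al e * fX k) - (fY k * be e - be e * fY k) := by
          conv_rhs => rw [sub_sub, ← sub_eq_iff_eq_add.2 (e1.trans (add_assoc _ _ _)) |>.symm]
        rw [q₁, q₂, e2, ← sub_eq_iff_eq_add.2 hE]
        abel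
  obtain ⟨a, a', c, c', e, r, pa, pc, he, hr, hE⟩ := key K.toNat
  refine ⟨T, a, a', c, c', pa.h, pa.h', pc.h, pc.h', pa.i, pa.i', pc.i, pc.i', lX,
    kv3_conj hB hX lX pa.h pa.h', kv3_conj hB hY lY pc.h pc.h', ?_⟩
  rw [hE]
  exact (he.2.1.mono hB (by omega)).add hr

end Pool.Agent.MP_8299d6_al.Up

end
end

section

open Matrix

noncomputable section

namespace Pool.Agent.MP_8299d6_al.Up

open Pool.Agent.MP_810665_al (IrrChar)

section inst

variable (p : ℕ) [hp : Fact p.Prime]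

lemma inst_p1 : (1 : ℝ) < p := by exact_mod_cast hp.out.one_lt

/-- the filtration of `ℚ_p` -/
def instB (a : ℕ) (j : ℤ) : AddSubgroup ℚ_[p] where
  carrier := {c | ‖c‖ ^ (a + 1) ≤ (p : ℝ) ^ (-j)}
  zero_mem' := by
    have := inst_p1 p
    simp only [Set.mem_ofPred_eq, norm_zero, ne_eq, Nat.add_eq_zero_iff, one_ne_zero, and_false,
      not_false_eq_true, zero_pow]
    positivity
  add_mem' := fun {c d} hc hd => by
    have h := Padic.nonarchimedean c d
    rcases le_total ‖c‖ ‖d‖ with h1 | h1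
    · rw [max_eq_right h1] at h
      exact le_trans (pow_le_pow_left₀ (norm_nonneg _) h _) hd
    · rw [max_eq_left h1] at h
      exact le_trans (pow_le_pow_left₀ (norm_nonneg _) h _) hc
  neg_mem' := fun {c} hc => by simpa using hc

variable {p}

lemma instB_def {a : ℕ} {j : ℤ} {c : ℚ_[p]} :
    c ∈ instB p a j ↔ ‖c‖ ^ (a + 1) ≤ (p : ℝ) ^ (-j) := Iff.rfl

lemma instB_iff {a : ℕ} {j : ℤ} {c : ℚ_[p]} (hc : c ≠ 0) :
    c ∈ instB p a j ↔ j ≤ (a + 1 : ℤ) * c.valuation := by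
  rw [instB_def, Padic.norm_eq_zpow_neg_valuation hc, ← zpow_natCast, ← _root_.zpow_mul,
    zpow_le_zpow_iff_right₀ (inst_p1 p)]
  push_cast
  constructor <;> intro h <;> linarith

lemma instB_filt (a : ℕ) : Filt (instB p a) where
  anti := fun i j h c hc => by
    rw [instB_def] at hc ⊢
    exact hc.trans (zpow_le_zpow_right₀ (inst_p1 p).le (by linarith))
  mul := fun {i j c d} hc hd => by
    rw [instB_def] at hc hd ⊢
    have := inst_p1 p
    rw [norm_mul, mul_pow, neg_add, zpow_add₀ (by positivity)]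
    gcongr
  one := by simp [instB_def]

lemma instB_zero {a : ℕ} {c : ℚ_[p]} (hc : c ∈ instB p a 0) : ‖c‖ ≤ 1 := by
  rw [instB_def] at hc
  simp only [neg_zero, zpow_zero] at hc
  exact (pow_le_one_iff_of_nonneg (norm_nonneg _) (Nat.succ_ne_zero a)).1 hc

lemma instB_ball {a : ℕ} {j w : ℤ} {c : ℚ_[p]} (hc : c ∈ instB p a j)
    (h : (a + 1 : ℤ) * (w - 1) < j) : c ∈ instB p 0 w := by
  rcases eq_or_ne c 0 with rfl | h0
  · exact zero_mem _
  rw [instB_iff h0] at hc ⊢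
  have h1 : w - 1 < c.valuation := lt_of_mul_lt_mul_left (h.trans_le hc) (by positivity)
  push_cast
  linarith

lemma inst_val (m : ℕ) (hm : 1 ≤ m) : p * padicValNat p m ≤ m := by
  have h1 : p ^ padicValNat p m ≤ m := Nat.le_of_dvd hm pow_padicValNat_dvd
  refine le_trans ?_ h1
  rcases h : padicValNat p m with _ | v
  · simp
  · rw [pow_succ']
    exact Nat.mul_le_mul_left _ (Nat.lt_pow_self hp.out.one_lt)

lemma instB_inv {a : ℕ} {j : ℤ} {m : ℕ} (hm : 1 ≤ m)
    (h : (a + 1 : ℤ) * padicValNat p m ≤ -j) : (m : ℚ_[p])⁻¹ ∈ instB p a j := by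
  have h0 : (m : ℚ_[p]) ≠ 0 := by exact_mod_cast (by omega : m ≠ 0)
  rw [instB_iff (inv_ne_zero h0), Padic.valuation_inv, Padic.valuation_natCast]
  linarith

lemma inst_log_small : LogOK (instB p 0) 2 1 := by
  have h2 := hp.out.two_le
  have key : ∀ m : ℕ, 1 ≤ m → 2 * (padicValNat p m : ℤ) ≤ m := fun m hm => by
    have := inst_val (p := p) m hm
    have h3 : 2 * padicValNat p m ≤ m := le_trans (Nat.mul_le_mul_right _ h2) this
    exact_mod_cast h3
  have h1 : ∀ m : ℕ, 2 ≤ m → (m : ℚ_[p])⁻¹ ∈ instB p 0 (3 - 2 * m) := fun m hm => by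
    have := key m (by omega)
    exact instB_inv (by omega) (by omega)
  refine ⟨by norm_num, le_rfl, fun m hm => h1 m hm, fun m hm => ?_, fun K => ⟨K.toNat + 1, ?_⟩⟩
  · rcases hm.eq_or_lt with rfl | h
    · left; simpa using (instB_filt (p := p) 0).one
    · right; exact h1 m h
  · intro m hm
    have := key m (by omega)
    exact instB_inv (by omega) (by omega)

lemma inst_log_big {a : ℕ} (h : 3 * (a + 1) ≤ p) : LogOK (instB p a) 1 (2 * a + 1) := by
  have key : ∀ m : ℕ, 1 ≤ m → 3 * ((a + 1 : ℤ) * padicValNat p m) ≤ m := fun m hm => by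
    have := inst_val (p := p) m hm
    have h3 : 3 * (a + 1) * padicValNat p m ≤ m := le_trans (Nat.mul_le_mul_right _ h) this
    rw [mul_assoc] at h3
    exact_mod_cast h3
  have key2 : ∀ m : ℕ, padicValNat p m ≠ 0 → (a + 1 : ℤ) ≤ (a + 1 : ℤ) * padicValNat p m := by
    intro m hm
    have : (1 : ℤ) ≤ padicValNat p m := by exact_mod_cast Nat.one_le_iff_ne_zero.2 hm
    nlinarith
  refine ⟨le_rfl, by omega, fun m hm => ?_, fun m hm => ?_, fun K => ⟨2 * K.toNat + 1, ?_⟩⟩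
  · refine instB_inv (by omega) ?_
    have h1 := key m (by omega)
    by_cases h0 : padicValNat p m = 0
    · rw [h0]; push_cast; omega
    · have := key2 m h0
      omega
  · have h1 := key m hm
    by_cases h0 : padicValNat p m = 0
    · left; exact instB_inv hm (by rw [h0]; simp)
    · right
      have := key2 m h0
      exact instB_inv hm (by omega)
  · intro m hm
    have h1 := key m (by omega)
    exact instB_inv (by omega) (by omega)

variable (p) (n : ℕ)

/-- matrices with entries of valuation at least `e` -/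
def instM (e : ℤ) : AddSubgroup (Mat n ℚ_[p]) where
  carrier := {x | ∀ i j, x i j ∈ instB p 0 e}
  zero_mem' := fun _ _ => zero_mem _
  add_mem' := fun hx hy i j => add_mem (hx i j) (hy i j)
  neg_mem' := fun hx i j => neg_mem (hx i j)

/-- inclusion of integral matrices -/
def instI : Mat n ℤ_[p] →+* Mat n ℚ_[p] := (PadicInt.Coe.ringHom (p := p)).mapMatrix

/-- reduction of integral matrices -/
def instR (N : ℕ) : Mat n ℤ_[p] →+* Mat n (ZMod (p ^ N)) := (PadicInt.toZModPow N).mapMatrix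

/-- the preimage of an additive subgroup -/
def instL (N : ℕ) (J : AddSubgroup (Mat n (ZMod (p ^ N)))) : AddSubgroup (Mat n ℚ_[p]) :=
  (J.comap (instR p n N).toAddMonoidHom).map (instI p n).toAddMonoidHom

variable {p n}

lemma instL_mem {N : ℕ} {J : AddSubgroup (Mat n (ZMod (p ^ N)))} {x : Mat n ℚ_[p]} :
    x ∈ instL p n N J ↔ ∃ y, instR p n N y ∈ J ∧ instI p n y = x := Iff.rfl

lemma instM_anti : Antitone (instM p n) := fun _ _ h _ hx i j => (instB_filt 0).anti h (hx i j)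

lemma instM_mul {i j : ℤ} {x y : Mat n ℚ_[p]} (hx : x ∈ instM p n i) (hy : y ∈ instM p n j) :
    x * y ∈ instM p n (i + j) := fun r s => by
  rw [mul_apply]
  exact sum_mem fun t _ => (instB_filt 0).mul (hx r t) (hy t s)

lemma instM_smul {i j : ℤ} {c : ℚ_[p]} {x : Mat n ℚ_[p]} (hc : c ∈ instB p 0 i)
    (hx : x ∈ instM p n j) : c • x ∈ instM p n (i + j) := fun r s =>
  (instB_filt 0).mul hc (hx r s)

lemma instM_one : (1 : Mat n ℚ_[p]) ∈ instM p n 0 := fun r s => by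
  rw [one_apply]
  split_ifs
  · exact (instB_filt 0).one
  · exact zero_mem _

lemma instI_inj : Function.Injective (instI p n) := fun x y h => by
  ext i j
  exact Subtype.ext (congrFun (congrFun h i) j)

lemma inst_tz_surj (N : ℕ) : Function.Surjective (PadicInt.toZModPow (p := p) N) :=
  ZMod.ringHom_surjective _

lemma instR_surj (N : ℕ) : Function.Surjective (instR p n N) := fun z => by
  choose y hy using fun i j => inst_tz_surj (p := p) N (z i j)
  exact ⟨Matrix.of y, by ext i j; exact hy i j⟩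

lemma inst_dvd {N e : ℕ} (he : e ≤ N) (y : ℤ_[p]) :
    ((p : ZMod (p ^ N)) ^ e ∣ PadicInt.toZModPow N y) ↔ (y : ℚ_[p]) ∈ instB p 0 e := by
  rw [instB_def, zero_add, pow_one, ← PadicInt.norm_def, PadicInt.norm_le_pow_iff_mem_span_pow,
    Ideal.mem_span_singleton]
  constructor
  · rintro ⟨z, hz⟩
    obtain ⟨z, rfl⟩ := inst_tz_surj N z
    have h1 : y - (p : ℤ_[p]) ^ e * z ∈ RingHom.ker (PadicInt.toZModPow (p := p) N) := by
      rw [RingHom.mem_ker, map_sub, hz]; simp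
    rw [PadicInt.ker_toZModPow, Ideal.mem_span_singleton] at h1
    have h2 := (pow_dvd_pow (p : ℤ_[p]) he).trans h1
    simpa using dvd_add h2 (dvd_mul_right ((p : ℤ_[p]) ^ e) z)
  · intro h
    simpa using map_dvd (PadicInt.toZModPow (p := p) N) h

lemma instL_pI {N e : ℕ} (he : e ≤ N) :
    instL p n N (pI n _ ((p : ZMod (p ^ N)) ^ e)).toAddSubgroup = instM p n e := by
  ext x
  rw [instL_mem]
  constructor
  · rintro ⟨y, hy, rfl⟩ i j
    exact (inst_dvd he (y i j)).1 (hy i j)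
  · intro hx
    have h1 : ∀ i j, ‖x i j‖ ≤ 1 := fun i j =>
      instB_zero ((instB_filt 0).anti (Int.natCast_nonneg e) (hx i j))
    refine ⟨Matrix.of fun i j => ⟨x i j, h1 i j⟩, fun i j => ?_, by ext i j; rfl⟩
    exact (inst_dvd he ⟨x i j, h1 i j⟩).2 (hx i j)

lemma instL_bot (N : ℕ) : instL p n N ⊥ = instM p n N := by
  rw [← instL_pI le_rfl]
  congr 1
  have h0 : (p : ZMod (p ^ N)) ^ N = 0 := by
    rw [← Nat.cast_pow, ZMod.natCast_self]
  ext x
  rw [h0, AddSubgroup.mem_bot]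
  constructor
  · rintro rfl; exact zero_mem _
  · intro h; ext i j; exact zero_dvd_iff.1 (h i j)

lemma instL_le (N : ℕ) (J : AddSubgroup (Mat n (ZMod (p ^ N)))) :
    instL p n N J ≤ instM p n 0 := by
  rintro x ⟨y, -, rfl⟩ i j
  rw [instB_def, zero_add, pow_one, neg_zero, zpow_zero]
  exact (y i j).2

lemma instL_smul {N : ℕ} {J : AddSubgroup (Mat n (ZMod (p ^ N)))} {c : ℚ_[p]} (hc : ‖c‖ ≤ 1)
    {x : Mat n ℚ_[p]} (hx : x ∈ instL p n N J) : c • x ∈ instL p n N J := by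
  obtain ⟨y, hy, rfl⟩ := instL_mem.1 hx
  obtain ⟨d, rfl⟩ : ∃ d : ℤ_[p], (d : ℚ_[p]) = c := ⟨⟨c, hc⟩, rfl⟩
  refine instL_mem.2 ⟨d • y, ?_, by ext i j; rfl⟩
  obtain ⟨k, hk⟩ := ZMod.natCast_zmod_surjective (PadicInt.toZModPow N d)
  have : instR p n N (d • y) = k • instR p n N y := by
    ext i j
    change PadicInt.toZModPow N (d * y i j) = k • PadicInt.toZModPow N (y i j)
    rw [map_mul, ← hk, nsmul_eq_mul]
  rw [this]
  exact nsmul_mem hy k

lemma inst_unit {N : ℕ} (hN : 1 ≤ N) {y : Mat n ℤ_[p]} (h : IsUnit (instR p n N y)) :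
    IsUnit y := by
  rw [isUnit_iff_isUnit_det] at h ⊢
  have h1 : (instR p n N y).det = PadicInt.toZModPow N y.det :=
    ((PadicInt.toZModPow N).map_det y).symm
  rw [h1] at h
  by_contra h2
  have h3 : ((y.det : ℤ_[p]) : ℚ_[p]) ∈ instB p 0 (1 : ℕ) := by
    rw [instB_def, zero_add, pow_one, ← PadicInt.norm_def, PadicInt.norm_le_pow_iff_mem_span_pow,
      pow_one, ← PadicInt.maximalIdeal_eq_span_p]
    exact h2
  have h4 := isUnit_of_dvd_unit ((inst_dvd hN _).2 h3) h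
  rw [pow_one, ZMod.isUnit_iff_coprime, Nat.coprime_pow_right_iff hN, Nat.coprime_self] at h4
  exact hp.out.one_lt.ne' h4

lemma inst_descend {N : ℕ} (hN : 1 ≤ N) {a b : ℕ} {c₀ c₁ K₀ : ℤ}
    (hL : LogOK (instB p a) b c₁) :
    ∃ L : Mat n (ZMod (p ^ N)) → Mat n (ZMod (p ^ N)),
      ∀ (J J' : NonUnitalSubring (Mat n (ZMod (p ^ N)))) (P : ℤ → AddSubgroup (Mat n ℚ_[p])),
        EvData (instB p a) b c₀ c₁ K₀ P (instL p n N J.toAddSubgroup)
          (instL p n N J'.toAddSubgroup) (instM p n N) → OM J J' L := by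
  obtain ⟨T, u, u', c, c', hkv⟩ := exists_kv (instB_filt (p := p) a) hL (K₀ + c₀ - b)
  let e : Mat n ℤ_[p] ≃+* (instI p n).range :=
    RingEquiv.ofBijective (instI p n).rangeRestrict
      ⟨fun x y h => instI_inj (congrArg Subtype.val h), (instI p n).rangeRestrict_surjective⟩
  have he : ∀ y, (e y : Mat n ℚ_[p]) = instI p n y := fun _ => rfl
  let π : (instI p n).range →+* Mat n (ZMod (p ^ N)) := (instR p n N).comp e.symm.toRingHom
  have hπ : ∀ y, π (e y) = instR p n N y := fun y => by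
    change instR p n N (e.symm (e y)) = _
    rw [e.symm_apply_apply]
  have hmem : ∀ (J : AddSubgroup (Mat n (ZMod (p ^ N)))) (x : Mat n ℚ_[p]),
      x ∈ instL p n N J ↔ ∃ hx : x ∈ (instI p n).range, π ⟨x, hx⟩ ∈ J := by
    intro J x
    rw [instL_mem]
    constructor
    · rintro ⟨y, hy, rfl⟩
      exact ⟨⟨y, rfl⟩, by rw [← hπ] at hy; exact hy⟩
    · rintro ⟨⟨y, rfl⟩, hy⟩
      exact ⟨y, by rw [← hπ]; exact hy, rfl⟩
  obtain ⟨L, hLL⟩ := descend (instB_filt (p := p) a) hL.bpos hkv (instI p n).range π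
    (fun z => by
      obtain ⟨y, rfl⟩ := instR_surj (p := p) (n := n) N z
      exact ⟨e y, hπ y⟩)
    (fun g hg => by
      obtain ⟨y, rfl⟩ := e.surjective g
      rw [hπ] at hg
      obtain ⟨v, rfl⟩ := inst_unit hN hg
      exact ⟨e (v⁻¹ : (Mat n ℤ_[p])ˣ), by rw [← map_mul, v.mul_inv, map_one],
        by rw [← map_mul, v.inv_mul, map_one]⟩)
    (instM p n N) (fun x => by rw [← instL_bot, hmem]; rfl)
  exact ⟨L, fun J J' P h => hLL J J' P _ _ (hmem _) (hmem _) h⟩

/-- the filtration generated by a subgroup -/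
def instP (a : ℕ) (J : AddSubgroup (Mat n ℚ_[p])) (j : ℤ) : AddSubgroup (Mat n ℚ_[p]) :=
  AddSubgroup.closure {z | ∃ (c : ℚ_[p]) (l : List (Mat n ℚ_[p])), (∀ x ∈ l, x ∈ J) ∧
    c ∈ instB p a (j - l.length) ∧ z = c • l.prod}

lemma instP_gen {a : ℕ} {J : AddSubgroup (Mat n ℚ_[p])} {j : ℤ} {c : ℚ_[p]}
    {l : List (Mat n ℚ_[p])} (hl : ∀ x ∈ l, x ∈ J) (hc : c ∈ instB p a (j - l.length)) :
    c • l.prod ∈ instP a J j := AddSubgroup.subset_closure ⟨c, l, hl, hc, rfl⟩

lemma instP_mul {a : ℕ} {J : AddSubgroup (Mat n ℚ_[p])} {i j : ℤ} {x y : Mat n ℚ_[p]}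
    (hx : x ∈ instP a J i) (hy : y ∈ instP a J j) : x * y ∈ instP a J (i + j) := by
  induction hx using AddSubgroup.closure_induction with
  | zero => rw [zero_mul]; exact zero_mem _
  | add x z _ _ h1 h2 => rw [add_mul]; exact add_mem h1 h2
  | neg x _ h => rw [neg_mul]; exact neg_mem h
  | mem x hx =>
    induction hy using AddSubgroup.closure_induction with
    | zero => rw [mul_zero]; exact zero_mem _
    | add y z _ _ h1 h2 => rw [mul_add]; exact add_mem h1 h2
    | neg y _ h => rw [mul_neg]; exact neg_mem h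
    | mem y hy =>
      obtain ⟨c, l, hl, hc, rfl⟩ := hx
      obtain ⟨d, r, hr, hd, rfl⟩ := hy
      rw [smul_mul_smul_comm, ← List.prod_append]
      refine instP_gen (fun x hx => ?_) ?_
      · rcases List.mem_append.1 hx with h | h
        exacts [hl x h, hr x h]
      · have := (instB_filt a).mul hc hd
        convert this using 2
        rw [List.length_append]; push_cast; ring

lemma inst_prod {a : ℕ} {J : AddSubgroup (Mat (a + 1) ℚ_[p])} (h0 : J ≤ instM p (a + 1) 0)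
    (h1 : ∀ l : List (Mat (a + 1) ℚ_[p]), l.length = a + 1 → (∀ x ∈ l, x ∈ J) →
      l.prod ∈ instM p (a + 1) 1) (q : ℕ) :
    ∀ l : List (Mat (a + 1) ℚ_[p]), (a + 1) * q ≤ l.length → (∀ x ∈ l, x ∈ J) →
      l.prod ∈ instM p (a + 1) q := by
  induction q with
  | zero =>
    intro l _ hl
    induction l with
    | nil => exact instM_one
    | cons x r ih =>
      rw [List.prod_cons]
      exact instM_mul (i := 0) (j := 0) (h0 (hl x (by simp)))
        (ih (by simp) fun y hy => hl y (by simp [hy]))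
  | succ q ih =>
    intro l hq hl
    rw [mul_add, mul_one] at hq
    rw [← List.take_append_drop (a + 1) l, List.prod_append]
    have := instM_mul (h1 (l.take (a + 1)) (by rw [List.length_take]; omega)
      fun x hx => hl x (List.mem_of_mem_take hx))
      (ih (l.drop (a + 1)) (by rw [List.length_drop]; omega)
        fun x hx => hl x (List.mem_of_mem_drop hx))
    convert this using 2
    push_cast; ring

lemma instP_le {a : ℕ} {J : AddSubgroup (Mat (a + 1) ℚ_[p])} (h0 : J ≤ instM p (a + 1) 0)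
    (h1 : ∀ l : List (Mat (a + 1) ℚ_[p]), l.length = a + 1 → (∀ x ∈ l, x ∈ J) →
      l.prod ∈ instM p (a + 1) 1) {j e : ℤ} (h : (a + 1 : ℤ) * e ≤ j) :
    instP a J j ≤ instM p (a + 1) e := by
  refine (AddSubgroup.closure_le _).2 ?_
  rintro _ ⟨c, l, hl, hc, rfl⟩
  have h2 := inst_prod h0 h1 (l.length / (a + 1)) l (Nat.mul_div_le _ _) hl
  have h3 : l.length < (a + 1) * (l.length / (a + 1) + 1) := Nat.lt_mul_div_succ _ (by omega)
  have h4 : (l.length : ℤ) < (a + 1) * (((l.length / (a + 1) : ℕ) : ℤ) + 1) := by exact_mod_cast h3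
  have h5 := instB_ball (w := e - ((l.length / (a + 1) : ℕ) : ℤ)) hc (by linarith)
  simpa using instM_smul h5 h2

end inst

theorem om_big (n p : ℕ) [Fact p.Prime] (hn : 1 ≤ n) (hp : 3 * n ≤ p) (m : ℕ) :
    ∃ L : Mat n (ZMod (p ^ (m + 1))) → Mat n (ZMod (p ^ (m + 1))),
      ∀ J : NonUnitalSubring (Mat n (ZMod (p ^ (m + 1)))), pI n _ (p : ZMod (p ^ (m + 1))) ≤ J →
        NilTo n (J : Set (Mat n (ZMod (p ^ (m + 1))))) (pI n _ (p : ZMod (p ^ (m + 1)))) →
        OM J J L := by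
  obtain ⟨a, rfl⟩ : ∃ a, n = a + 1 := ⟨n - 1, by omega⟩
  obtain ⟨L, hL⟩ := inst_descend (p := p) (n := a + 1) (N := m + 1) (by omega) (c₀ := 2 * a + 1)
    (K₀ := m * (a + 1) + 1) (inst_log_big hp)
  refine ⟨L, fun J hJ hnil => hL J J (instP a (instL p (a + 1) (m + 1) J.toAddSubgroup)) ?_⟩
  have e1 : instL p (a + 1) (m + 1) (pI (a + 1) _ (p : ZMod (p ^ (m + 1)))).toAddSubgroup
      = instM p (a + 1) 1 := by
    simpa using instL_pI (p := p) (n := a + 1) (N := m + 1) (e := 1) (by omega)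
  set Jt := instL p (a + 1) (m + 1) J.toAddSubgroup with hJt
  have h0 : Jt ≤ instM p (a + 1) 0 := instL_le _ _
  have hM1 : instM p (a + 1) 1 ≤ Jt := by
    rw [← e1]
    rintro x ⟨y, hy, rfl⟩
    exact ⟨y, hJ hy, rfl⟩
  have h1 : ∀ l : List (Mat (a + 1) ℚ_[p]), l.length = a + 1 → (∀ x ∈ l, x ∈ Jt) →
      l.prod ∈ instM p (a + 1) 1 := by
    intro l hl hx
    obtain ⟨x, rfl⟩ : ∃ x : Fin (a + 1) → Mat (a + 1) ℚ_[p], l = List.ofFn x :=
      ⟨fun i => l.get (i.cast hl.symm), by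
        apply List.ext_get (by simp [hl])
        intro i h1 h2
        rw [List.get_ofFn]; rfl⟩
    choose y hy hy' using fun i => instL_mem.1 (hx (x i) (List.mem_ofFn.2 ⟨i, rfl⟩))
    rw [← e1]
    refine instL_mem.2 ⟨(List.ofFn y).prod, ?_, ?_⟩
    · rw [map_list_prod, List.map_ofFn]
      exact hnil _ hy
    · rw [map_list_prod, List.map_ofFn]
      congr 2
      exact funext hy'
  have hPJ : instP a Jt (2 * a + 1) ≤ Jt := (instP_le h0 h1 (e := 1) (by omega)).trans hM1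
  refine
    { anti := fun i j h => AddSubgroup.closure_mono ?_
      mul := instP_mul
      smul := fun {i j c x} hc hx => ?_
      one := by simpa using instP_gen (a := a) (J := Jt) (j := 0) (c := 1) (l := []) (by simp)
                  (by simpa using (instB_filt (p := p) a).one)
      JP := fun x hx => ?_
      PJ := hPJ
      JJ' := le_rfl
      PJ' := hPJ
      Jmul := ?_
      Jsmul := fun c hc x hx => instL_smul (instB_zero hc) hx
      Ismul := fun c hc x hx => ?_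
      JI := fun x hx y hy => ⟨by simpa using instM_mul (h0 hx) hy,
        by simpa using instM_mul hy (h0 hx)⟩
      IP := fun x hx => ?_
      PI := instP_le h0 h1 (by push_cast; nlinarith)
      c01 := by omega }
  · rintro _ ⟨c, l, hl, hc, rfl⟩
    exact ⟨c, l, hl, (instB_filt a).anti (by linarith) hc, rfl⟩
  · have := instP_mul (instP_gen (a := a) (J := Jt) (j := i) (c := c) (l := []) (by simp)
      (by simpa using hc)) hx
    simpa using this
  · simpa using instP_gen (a := a) (J := Jt) (j := 1) (c := 1) (l := [x]) (by simpa using hx)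
      (by simpa using (instB_filt (p := p) a).one)
  · rintro _ ⟨x, hx, rfl⟩ _ ⟨y, hy, rfl⟩
    refine instL_mem.2 ⟨x * y, ?_, map_mul _ _ _⟩
    rw [map_mul]
    exact J.mul_mem hx hy
  · simpa using instM_smul (instB_ball (w := 0) hc (by omega)) hx
  · have hp0 : (p : ℚ_[p]) ^ m ≠ 0 := pow_ne_zero _ (by exact_mod_cast (Fact.out : p.Prime).ne_zero)
    have hv : ((p : ℚ_[p]) ^ m).valuation = m := by simp
    have h2 : ((p : ℚ_[p]) ^ m)⁻¹ ∈ instB p 0 (-m) := by
      rw [instB_iff (inv_ne_zero hp0), Padic.valuation_inv, hv]; simp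
    have h3 : ((p : ℚ_[p]) ^ m)⁻¹ • x ∈ Jt := hM1 (by simpa using instM_smul h2 hx)
    have h4 := instP_gen (a := a) (J := Jt) (j := m * (a + 1) + 1) (c := (p : ℚ_[p]) ^ m)
      (l := [((p : ℚ_[p]) ^ m)⁻¹ • x]) (by simpa using h3) (by
        rw [instB_iff hp0, hv]; simp [mul_comm])
    rwa [List.prod_singleton, smul_inv_smul₀ hp0] at h4

theorem om_small (n p : ℕ) [Fact p.Prime] (m : ℕ) :
    ∃ L : Mat n (ZMod (p ^ (m + 2))) → Mat n (ZMod (p ^ (m + 2))),
      OM (pI n _ ((p : ZMod (p ^ (m + 2))) ^ 2)) (pI n _ (p : ZMod (p ^ (m + 2)))) L := by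
  obtain ⟨L, hL⟩ := inst_descend (p := p) (n := n) (N := m + 2) (by omega) (c₀ := 2)
    (K₀ := m + 2) inst_log_small
  refine ⟨L, hL _ _ (instM p n) ?_⟩
  have e1 : instL p n (m + 2) (pI n _ (p : ZMod (p ^ (m + 2)))).toAddSubgroup = instM p n 1 := by
    simpa using instL_pI (p := p) (n := n) (N := m + 2) (e := 1) (by omega)
  have e2 : instL p n (m + 2) (pI n _ ((p : ZMod (p ^ (m + 2))) ^ 2)).toAddSubgroup
      = instM p n 2 := instL_pI (p := p) (n := n) (N := m + 2) (e := 2) (by omega)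
  rw [e1, e2]
  exact
    { anti := instM_anti
      mul := instM_mul
      smul := instM_smul
      one := instM_one
      JP := le_rfl
      PJ := le_rfl
      JJ' := instM_anti (by norm_num)
      PJ' := le_rfl
      Jmul := fun x hx y hy => instM_anti (by norm_num) (instM_mul hx hy)
      Jsmul := fun c hc x hx => by simpa using instM_smul hc hx
      Ismul := fun c hc x hx => by simpa using instM_smul hc hx
      JI := fun x hx y hy => ⟨instM_anti (by omega) (instM_mul hx hy),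
        instM_anti (by omega) (instM_mul hy hx)⟩
      IP := instM_anti (by push_cast; omega)
      PI := instM_anti (by push_cast; omega)
      c01 := by norm_num }

end Pool.Agent.MP_8299d6_al.Up

end
end

section

open Matrix

noncomputable section

namespace Pool.Agent.MP_8299d6_al.Up

open Pool.Agent.MP_810665_al (IrrChar)

section Abs

variable {M : Type} [Ring M] [Fintype M] {τ : AddChar M ℂ} {J J' : NonUnitalSubring M}
  {L : M → M}

theorem small_units_le : Nat.card Mˣ ≤ Nat.card M :=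
  Nat.card_le_card_of_injective _ Units.val_injective

omit [Ring M] in
theorem small_ncard_pos {S : Set M} {A : M} (h : A ∈ S) : (0 : ℝ) < S.ncard := by
  have : 0 < S.ncard := (Set.ncard_pos (Set.toFinite S)).2 ⟨A, h⟩
  exact_mod_cast this

/-- the characters over one class -/
theorem small_left {H : Subgroup Mˣ} (h : Sit τ J J' L H) {a : ℕ}
    (ha : Nat.card M ≤ a * Nat.card J) (A : M) {s : ℝ} (hs : 0 ≤ s) (hs2 : s ≤ 2) :
    Zs H (fun χ => Sup τ J L H χ ⊆ cls τ J (UU J') A) s ≤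
      (a : ℝ) ^ 2 * ((cls τ J (UU J') A).ncard : ℝ) ^ (-(s / 2)) := by
  classical
  have hJ : 0 < Nat.card J := Nat.card_pos
  have hM : 0 < Nat.card M := Nat.card_pos
  have ha1 : 1 ≤ a := by
    rcases Nat.eq_zero_or_pos a with h0 | h0
    · rw [h0, zero_mul] at ha
      omega
    · exact h0
  have ha1' : (1 : ℝ) ≤ a := by exact_mod_cast ha1
  have hc := small_ncard_pos (self_mem_cls (τ := τ) J (UU J') A)
  have hP : Nat.card (perp τ J.toAddSubgroup) ≤ a := by
    have h1 : Nat.card J * Nat.card (perp τ J.toAddSubgroup) = Nat.card M :=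
      h.frob.card_perp J.toAddSubgroup
    refine Nat.le_of_mul_le_mul_left ?_ hJ
    rw [h1, mul_comm]
    exact ha
  have hN : ((Irr H).filter (fun χ => Sup τ J L H χ ⊆ cls τ J (UU J') A)).card ≤ a := by
    have h1 := h.count_crude A
    have h2 : Nat.card H ≤ Nat.card Mˣ := Nat.card_le_card_of_injective _ Subtype.val_injective
    have h3 := ((h1.trans h2).trans small_units_le).trans ha
    convert Nat.le_of_mul_le_mul_right h3 hJ
  have key : ∀ χ ∈ (Irr H).filter (fun χ => Sup τ J L H χ ⊆ cls τ J (UU J') A),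
      ‖χ 1‖ ^ (-s) ≤ a * ((cls τ J (UU J') A).ncard : ℝ) ^ (-(s / 2)) := by
    intro χ hχ
    rw [Finset.mem_filter] at hχ
    have h1 := h.dim_ge hχ.1 hχ.2
    have h2 := one_le_deg hχ.1
    have hP' : (Nat.card (perp τ J.toAddSubgroup) : ℝ) ≤ a := by exact_mod_cast hP
    generalize ((cls τ J (UU J') A).ncard : ℝ) = c at h1 hc ⊢
    generalize ‖χ 1‖ = d at h1 h2 ⊢
    have h3 : c / a ≤ d ^ (2 : ℝ) := by
      rw [div_le_iff₀ (by linarith), Real.rpow_two]
      nlinarith [sq_nonneg d]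
    have h4 : d ^ (-s) = (d ^ (2 : ℝ)) ^ (-(s / 2)) := by
      rw [← Real.rpow_mul (by linarith)]
      congr 1
      ring
    have h5 : (d ^ (2 : ℝ)) ^ (-(s / 2)) ≤ (c / a) ^ (-(s / 2)) :=
      Real.rpow_le_rpow_of_nonpos (by positivity) h3 (by linarith)
    have h6 : (c / a) ^ (-(s / 2)) = (a : ℝ) ^ (s / 2) * c ^ (-(s / 2)) := by
      rw [Real.div_rpow hc.le (by linarith), Real.rpow_neg (x := a) (by linarith), div_inv_eq_mul,
        mul_comm]
    have h7 : (a : ℝ) ^ (s / 2) ≤ a := by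
      have := Real.rpow_le_rpow_of_exponent_le ha1' (show s / 2 ≤ 1 by linarith)
      rwa [Real.rpow_one] at this
    rw [h4]
    refine h5.trans (h6.le.trans (mul_le_mul_of_nonneg_right h7 (by positivity)))
  have h1 := Finset.sum_le_card_nsmul _ _ _ key
  have hN' : (((Irr H).filter (fun χ => Sup τ J L H χ ⊆ cls τ J (UU J') A)).card : ℝ) ≤ a := by
    exact_mod_cast hN
  rw [nsmul_eq_mul] at h1
  have h2 := mul_le_mul_of_nonneg_right hN'
    (show 0 ≤ a * ((cls τ J (UU J') A).ncard : ℝ) ^ (-(s / 2)) by positivity)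
  unfold Zs
  refine le_trans (le_of_eq ?_) (h1.trans (h2.trans (le_of_eq (by ring))))
  congr

omit [Fintype M] in
theorem small_self_orb (A : M) : A ∈ orb A := ⟨1, (cj_one A).symm⟩

/-- the size of a conjugacy class -/
theorem small_orb (h : Sit τ J J' L ⊤) (hu : ∀ x ∈ J', IsUnit (1 + x)) {b : ℕ}
    (hb : Nat.card M ≤ b * Nat.card J') {A B : M} (hB : B ∈ cls τ J (UU J') A) :
    (orb B).ncard ≤ b * (cls τ J (UU J') A).ncard := by
  obtain ⟨H₁, h1, hS⟩ := h.exists_stab A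
  have h2 := h.frob.card_cls (K := UU J') (H := ⊤) le_top h.norm
    (fun g _ u hu => by
      have := h.norm' g trivial _ hu
      rw [mem_UU]
      convert this using 1
      unfold cj
      rw [mul_sub, sub_mul, mul_one, Units.mul_inv, Units.val_mul, Units.val_mul]) A h1
  have h3 : orb B ⊆ cls τ J ⊤ A := by
    have hB' : B ∈ cls τ J ⊤ A := by
      obtain ⟨g, _, hg⟩ := hB
      exact ⟨g, trivial, hg⟩
    rw [← h.frob.cls_eq h.norm hB']
    rintro _ ⟨g, rfl⟩
    exact ⟨g, trivial, by rw [sub_self]; exact zero_mem _⟩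
  have h4 : (orb B).ncard ≤ (cls τ J ⊤ A).ncard := Set.ncard_le_ncard h3 (Set.toFinite _)
  have h5 : Nat.card J' ≤ Nat.card H₁ := by
    rw [← card_UU hu]
    exact Subgroup.card_le_of_le hS.sub
  have h6 : Nat.card (⊤ : Subgroup Mˣ) ≤ b * Nat.card H₁ := by
    rw [Subgroup.card_top]
    exact (small_units_le.trans hb).trans (Nat.mul_le_mul_left b h5)
  have h7 : 0 < Nat.card H₁ := Nat.card_pos
  refine h4.trans (Nat.le_of_mul_le_mul_right ?_ h7)
  rw [h2]
  calc Nat.card (⊤ : Subgroup Mˣ) * (cls τ J (UU J') A).ncard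
      ≤ b * Nat.card H₁ * (cls τ J (UU J') A).ncard := Nat.mul_le_mul_right _ h6
    _ = b * (cls τ J (UU J') A).ncard * Nat.card H₁ := by ring

omit [Ring M] in
theorem small_sumOn {T : Set M} {f : M → ℝ} {c : ℝ} (h : ∀ x ∈ T, c ≤ f x) :
    (T.ncard : ℝ) * c ≤ sumOn T f := by
  classical
  unfold sumOn
  have h1 := Finset.card_nsmul_le_sum (Finset.univ.filter (· ∈ T)) f c
    (fun x hx => h x (Finset.mem_filter.1 hx).2)
  have h2 : T.ncard = (Finset.univ.filter (· ∈ T)).card := by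
    rw [← Set.ncard_coe_finset]
    congr 1
    ext x
    simp
  rw [nsmul_eq_mul, ← h2] at h1
  convert h1

theorem small_abs (h : Sit τ J J' L ⊤) (hu : ∀ x ∈ J', IsUnit (1 + x)) {a b d : ℕ}
    (ha : Nat.card M ≤ a * Nat.card J) (hb : Nat.card M ≤ b * Nat.card J')
    (hd : Nat.card M ≤ d * Nat.card Mˣ) {s : ℝ} (hs : 0 ≤ s) (hs2 : s ≤ 2) :
    Zs Mˣ (fun _ => True) s ≤ ((a : ℝ) ^ 2 * b ^ 2 * d ^ 2) * ∑ A : M, cc A ^ (1 + s / 2) := by
  have hM : 0 < Nat.card M := Nat.card_pos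
  have hb1 : (1 : ℝ) ≤ b := by
    rcases Nat.eq_zero_or_pos b with h0 | h0
    · rw [h0, zero_mul] at hb
      omega
    · exact_mod_cast h0
  have hd1 : (1 : ℝ) ≤ d := by
    rcases Nat.eq_zero_or_pos d with h0 | h0
    · rw [h0, zero_mul] at hd
      omega
    · exact_mod_cast h0
  have hG : (0 : ℝ) < Nat.card Mˣ := by exact_mod_cast (Nat.card_pos : 0 < Nat.card Mˣ)
  have key := h.step Set.univ (fun _ _ => Set.subset_univ _)
    (fun B => (a : ℝ) ^ 2 * b ^ 2 * (Nat.card Mˣ : ℝ) ^ (1 + s) *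
      ((orb B).ncard : ℝ) ^ (-(1 + s / 2))) (fun B => by positivity) hs
    (fun A _ H₁ h1 => by
      obtain ⟨H₂, h2, hS⟩ := h.exists_stab A
      have e : H₂ = H₁ := by
        ext g
        rw [h1, h2]
      subst e
      have hc := small_ncard_pos (self_mem_cls (τ := τ) J (UU J') A)
      refine (small_left hS ha A hs hs2).trans ?_
      have h3 := small_sumOn (T := cls τ J (UU J') A)
        (f := fun B => (a : ℝ) ^ 2 * b ^ 2 * (Nat.card Mˣ : ℝ) ^ (1 + s) *
          ((orb B).ncard : ℝ) ^ (-(1 + s / 2)))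
        (c := (a : ℝ) ^ 2 * (Nat.card Mˣ : ℝ) ^ (1 + s) *
          ((cls τ J (UU J') A).ncard : ℝ) ^ (-(1 + s / 2))) (fun B hB => by
          have h4 : ((orb B).ncard : ℝ) ≤ b * (cls τ J (UU J') A).ncard := by
            exact_mod_cast small_orb h hu hb hB
          have h5 := Real.rpow_le_rpow_of_nonpos (small_ncard_pos (small_self_orb B)) h4
            (show -(1 + s / 2) ≤ 0 by linarith)
          rw [Real.mul_rpow (by linarith) hc.le] at h5
          have h6 : (1 : ℝ) ≤ b ^ 2 * (b : ℝ) ^ (-(1 + s / 2)) := by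
            rw [← Real.rpow_two, ← Real.rpow_add (by linarith)]
            exact Real.one_le_rpow hb1 (by linarith)
          have h7 : 0 ≤ ((cls τ J (UU J') A).ncard : ℝ) ^ (-(1 + s / 2)) := by positivity
          have h8 : ((cls τ J (UU J') A).ncard : ℝ) ^ (-(1 + s / 2)) ≤
              b ^ 2 * ((orb B).ncard : ℝ) ^ (-(1 + s / 2)) :=
            calc _ ≤ (b ^ 2 * (b : ℝ) ^ (-(1 + s / 2))) *
                  ((cls τ J (UU J') A).ncard : ℝ) ^ (-(1 + s / 2)) := le_mul_of_one_le_left h7 h6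
              _ ≤ _ := by
                rw [mul_assoc]
                exact mul_le_mul_of_nonneg_left h5 (by positivity)
          have h9 := mul_le_mul_of_nonneg_left h8
            (show 0 ≤ (a : ℝ) ^ 2 * (Nat.card Mˣ : ℝ) ^ (1 + s) by positivity)
          exact h9.trans (le_of_eq (by ring)))
      have hH : (0 : ℝ) < Nat.card H₂ := by exact_mod_cast (Nat.card_pos : 0 < Nat.card H₂)
      have hHG : (Nat.card H₂ : ℝ) ≤ Nat.card Mˣ := by
        exact_mod_cast Nat.card_le_card_of_injective _ (Subtype.val_injective (p := (· ∈ H₂)))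
      have h4 : 1 ≤ (Nat.card H₂ : ℝ) ^ (-1 - s) * (Nat.card Mˣ : ℝ) ^ (1 + s) := by
        have h5 := Real.rpow_le_rpow hH.le hHG (show 0 ≤ 1 + s by linarith)
        have h6 : (Nat.card H₂ : ℝ) ^ (-1 - s) * (Nat.card H₂ : ℝ) ^ (1 + s) = 1 := by
          rw [← Real.rpow_add hH, show -1 - s + (1 + s) = 0 by ring, Real.rpow_zero]
        exact h6.ge.trans (mul_le_mul_of_nonneg_left h5 (by positivity))
      have h5 : ((cls τ J (UU J') A).ncard : ℝ) *
          ((cls τ J (UU J') A).ncard : ℝ) ^ (-(1 + s / 2)) =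
          ((cls τ J (UU J') A).ncard : ℝ) ^ (-(s / 2)) := by
        rw [show -(s / 2) = 1 + -(1 + s / 2) by ring, Real.rpow_add hc, Real.rpow_one]
      refine le_trans ?_ (mul_le_mul_of_nonneg_left h3 (by positivity))
      rw [← h5]
      have h6 : 0 ≤ (a : ℝ) ^ 2 * (((cls τ J (UU J') A).ncard : ℝ) *
          ((cls τ J (UU J') A).ncard : ℝ) ^ (-(1 + s / 2))) := by positivity
      exact (le_mul_of_one_le_left h6 h4).trans (le_of_eq (by ring)))
  have tr : Zs Mˣ (fun _ => True) s ≤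
      Zs (⊤ : Subgroup Mˣ) (fun χ => Sup τ J L ⊤ χ ⊆ Set.univ) s :=
    Zs_le_of_surj (Subgroup.topEquiv (G := Mˣ)).symm.toMonoidHom
      (Subgroup.topEquiv (G := Mˣ)).symm.surjective
      (fun χ _ _ x hx g => by
        have : x = 1 := (Subgroup.topEquiv (G := Mˣ)).symm.map_eq_one_iff.1 hx
        rw [this, one_mul])
      (fun _ _ _ => Set.subset_univ _) s
  refine tr.trans (key.trans ?_)
  rw [Subgroup.card_top]
  unfold sumOn
  simp only [Set.mem_univ, Finset.filter_true]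
  rw [Finset.mul_sum, Finset.mul_sum]
  refine Finset.sum_le_sum fun B _ => ?_
  have h1 := orb_rpow_le (D := d) (by exact_mod_cast hd) B (show 0 ≤ 1 + s / 2 by linarith)
  have h2 : (d : ℝ) ^ (1 + s / 2) ≤ d ^ 2 := by
    rw [← Real.rpow_two]
    exact Real.rpow_le_rpow_of_exponent_le hd1 (by linarith)
  have h3 : 0 ≤ cc B ^ (1 + s / 2) := Real.rpow_nonneg (by unfold cc; positivity) _
  have h4 := h1.trans (mul_le_mul_of_nonneg_right h2 h3)
  have h5 : (Nat.card Mˣ : ℝ) ^ (-1 - s) * (Nat.card Mˣ : ℝ) ^ (1 + s) = 1 := by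
    rw [← Real.rpow_add hG, show -1 - s + (1 + s) = 0 by ring, Real.rpow_zero]
  have h6 := mul_le_mul_of_nonneg_left h4 (show 0 ≤ (a : ℝ) ^ 2 * b ^ 2 by positivity)
  calc _ = ((Nat.card Mˣ : ℝ) ^ (-1 - s) * (Nat.card Mˣ : ℝ) ^ (1 + s)) *
        ((a : ℝ) ^ 2 * b ^ 2 * ((orb B).ncard : ℝ) ^ (-(1 + s / 2))) := by ring
    _ ≤ _ := by
      rw [h5, one_mul]
      exact h6.trans (le_of_eq (by ring))

end Abs

theorem small_norm (n : ℕ) (R : Type) [CommRing R] (a : R) : Norm ⊤ (pI n R a) := by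
  intro g _ x hx i j
  unfold cj
  rw [mul_apply]
  refine Finset.dvd_sum fun k _ => Dvd.dvd.mul_right ?_ _
  rw [mul_apply]
  exact Finset.dvd_sum fun l _ => Dvd.dvd.mul_left (hx l k) _

theorem small_gl (n p : ℕ) [Fact p.Prime] : ∃ C : ℝ, ∀ (m : ℕ) (s : ℝ), 0 ≤ s → s ≤ 2 →
    Zs (GLn n (ZMod (p ^ (m + 2)))) (fun _ => True) s ≤
      C * ∑ A : Mat n (ZMod (p ^ (m + 2))), cc A ^ (1 + s / 2) := by
  refine ⟨((p ^ (2 * n ^ 2) : ℕ) : ℝ) ^ 2 * ((p ^ (1 * n ^ 2) : ℕ) : ℝ) ^ 2 *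
    ((p ^ (n ^ 2) : ℕ) : ℝ) ^ 2, fun m s hs hs2 => ?_⟩
  obtain ⟨L, hL⟩ := om_small n p m
  have hS : Sit (tau n (p ^ (m + 2))) (pI n _ ((p : ZMod (p ^ (m + 2))) ^ 2))
      (pI n _ (p : ZMod (p ^ (m + 2)))) L ⊤ :=
    ⟨frob_tau n _, hL, fun x hx i j => (dvd_pow_self _ two_ne_zero).trans (hx i j), le_top,
      small_norm n _ _, small_norm n _ _⟩
  refine small_abs hS (fun x hx => ?_) ?_ ?_ (card_mat_small n p (m + 1)) hs hs2
  · refine isUnit_of_redP (m := m + 1) ?_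
    rw [map_add, map_one, (redP_eq_zero (m := m + 1) x).2 hx, add_zero]
    exact isUnit_one
  · rw [mul_comm]
    exact (card_pI (n := n) (p := p) (M := m + 2) (e := 2) (by omega)).ge
  · have := card_pI (n := n) (p := p) (M := m + 2) (e := 1) (by omega)
    rw [pow_one] at this
    rw [mul_comm]
    exact this.ge

end Pool.Agent.MP_8299d6_al.Up

end
end

section

open Matrix

noncomputable section

namespace Pool.Agent.MP_8299d6_al.Up

open Pool.Agent.MP_810665_al (IrrChar)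

lemma local_split {G : Type} [Group G] [Finite G] (s : ℝ) :
    Zs G (fun _ => True) s ≤ 1 + Zs G (fun σ => ∃ x ∈ (Set.univ : Set G), ¬ InKer σ x) s := by
  refine (Zs_or (Q := fun χ => ∀ x, InKer χ x) (fun χ _ _ => ?_) s).trans
    (add_le_add Zs_triv le_rfl)
  by_cases h : ∀ x, InKer χ x
  · exact Or.inl h
  · push Not at h
    obtain ⟨x, hx⟩ := h
    exact Or.inr ⟨x, trivial, hx⟩

lemma local_coef {n : ℕ} (hn : 1 ≤ n) {s : ℝ} (hs2 : s ≤ 2) {u q : ℝ} (hq : 0 < q)
    (hu : q ≤ 2 * u) : ((2 * n : ℕ) : ℝ) ^ (2 + s) / u ≤ 2 * ((2 * n : ℕ) : ℝ) ^ (4 : ℝ) / q := by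
  have h1 : (1 : ℝ) ≤ ((2 * n : ℕ) : ℝ) := by exact_mod_cast (by omega : 1 ≤ 2 * n)
  have h2 : ((2 * n : ℕ) : ℝ) ^ (2 + s) ≤ ((2 * n : ℕ) : ℝ) ^ (4 : ℝ) :=
    Real.rpow_le_rpow_of_exponent_le h1 (by linarith)
  have hu0 : 0 < u := by linarith
  have h3 : 0 ≤ ((2 * n : ℕ) : ℝ) ^ (4 : ℝ) := by positivity
  rw [div_le_div_iff₀ hu0 hq]
  nlinarith

theorem local_small (n : ℕ) (hn : 4 ≤ n) (p : ℕ) [Fact p.Prime] : ∃ C : ℝ, ∀ (m : ℕ) (s : ℝ),
    1 ≤ s → s ≤ 2 → Zs (SLn n (ZMod (p ^ (m + 1)))) (fun _ => True) s ≤ C := by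
  obtain ⟨C₁, h1⟩ := small_gl n p
  obtain ⟨C₂, h2⟩ := level_small n hn p
  have hp : (0 : ℝ) < p := by exact_mod_cast (Fact.out : p.Prime).pos
  refine ⟨max (Nat.card (SLn n (ZMod (p ^ (0 + 1)))) : ℝ)
    (1 + 2 * ((2 * n : ℕ) : ℝ) ^ (4 : ℝ) * (|C₁| * C₂)), fun m s hs hs2 => ?_⟩
  rcases m with _ | m
  · exact (Zs_le_card _ (by linarith)).trans (le_max_left _ _)
  refine le_trans ?_ (le_max_right _ _)
  refine (local_split s).trans (add_le_add le_rfl ?_)
  refine (transfer n (by omega) _ (2 * n) (index_pow n (by omega) p (m + 2)) _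
    (by linarith)).trans ?_
  have hq : (0 : ℝ) < (p : ℝ) ^ (m + 1 + 1) := by positivity
  have hu : (p : ℝ) ^ (m + 1 + 1) ≤ 2 * (Nat.card (ZMod (p ^ (m + 1 + 1)))ˣ : ℝ) := by
    exact_mod_cast card_units_zmod p (m + 1)
  have e1 := local_coef (n := n) (by omega) hs2 hq hu
  have e0 : 0 ≤ ∑ A : Mat n (ZMod (p ^ (m + 2))), cc A ^ (1 + s / 2) :=
    Finset.sum_nonneg (fun A _ => Real.rpow_nonneg (by unfold cc; positivity) _)
  have e2 : Zs (GLn n (ZMod (p ^ (m + 2)))) (fun χ => ∃ x ∈ (Set.univ : Set _),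
      ¬ InKer χ (inGL n _ x)) s ≤ |C₁| * C₂ * (p : ℝ) ^ (m + 1 + 1) := by
    refine (Zs_mono (fun _ _ _ => trivial) s).trans ((h1 m s (by linarith) hs2).trans ?_)
    refine (mul_le_mul_of_nonneg_right (le_abs_self C₁) e0).trans ?_
    rw [mul_assoc]
    exact mul_le_mul_of_nonneg_left (h2 (m + 1) s hs) (abs_nonneg _)
  refine (mul_le_mul e1 e2 (Zs_nonneg _ _) (by positivity)).trans (le_of_eq ?_)
  field_simp

lemma local_inKer_comp {G Q : Type} [Group G] [Group Q] (π : G →* Q) {χ : Q → ℂ} {x : G}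
    (h : InKer χ (π x)) : InKer (χ ∘ π) x := fun g => by
  simp only [Function.comp_apply, map_mul]
  exact h _

/-- reduction of `SL_n` to the residue field -/
def localRed (n p m : ℕ) : SLn n (ZMod (p ^ (m + 1))) →* SLn n (ZMod p) :=
  SpecialLinearGroup.map (ZMod.castHom (dvd_pow_self p (Nat.succ_ne_zero m)) (ZMod p))

lemma localRed_surj (n p m : ℕ) [Fact p.Prime] : Function.Surjective (localRed n p m) := by
  intro y
  obtain ⟨g, rfl⟩ := redSL_surj n p y
  refine ⟨redSL n (p ^ (m + 1)) g, ?_⟩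
  ext i j
  simp [localRed]

lemma localRed_eq_one {n p m : ℕ} [Fact p.Prime] {x : SLn n (ZMod (p ^ (m + 1)))}
    (h : localRed n p m x = 1) : x.1 - 1 ∈ pI n _ (p : ZMod (p ^ (m + 1))) := by
  rw [← redP_eq_zero, map_sub, map_one, sub_eq_zero]
  exact congrArg Subtype.val h

lemma local_sit {n p m : ℕ} [Fact p.Prime] (hn : 1 ≤ n)
    {L : Mat n (ZMod (p ^ (m + 1))) → Mat n (ZMod (p ^ (m + 1)))}
    (hL : ∀ J : NonUnitalSubring (Mat n (ZMod (p ^ (m + 1)))),
      pI n _ (p : ZMod (p ^ (m + 1))) ≤ J →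
      NilTo n (J : Set (Mat n (ZMod (p ^ (m + 1))))) (pI n _ (p : ZMod (p ^ (m + 1)))) →
      OM J J L) :
    Sit (tau n (p ^ (m + 1))) (pI n _ (p : ZMod (p ^ (m + 1)))) (pI n _ (p : ZMod (p ^ (m + 1))))
      L ⊤ := by
  have hN : Norm (⊤ : Subgroup (GLn n (ZMod (p ^ (m + 1))))) (pI n _ (p : ZMod (p ^ (m + 1)))) := by
    intro g _ x hx
    rw [← redP_eq_zero] at hx ⊢
    simp [cj, hx]
  refine ⟨frob_tau _ _, hL _ le_rfl ?_, le_rfl, le_top, hN, hN⟩
  intro x hx
  obtain ⟨k, rfl⟩ : ∃ k, n = k + 1 := ⟨n - 1, by omega⟩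
  have h0 := hx 0
  show _ ∈ pI _ _ _
  rw [← redP_eq_zero, List.ofFn_succ, List.prod_cons, map_mul, (redP_eq_zero _).2 h0, zero_mul]

lemma local_cj_pI {n : ℕ} {R : Type} [CommRing R] (a : R) (g : GLn n R) {x : Mat n R}
    (hx : x ∈ pI n R a) : cj g x ∈ pI n R a := by
  intro i j
  simp only [cj, mul_apply]
  exact Finset.dvd_sum (fun k _ => (Finset.dvd_sum (fun l _ => (hx l k).mul_left _)).mul_right _)

lemma local_ns {n p m : ℕ} [Fact p.Prime] (hn : 3 ≤ n)
    {L : Mat n (ZMod (p ^ (m + 1))) → Mat n (ZMod (p ^ (m + 1)))}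
    (hS : Sit (tau n (p ^ (m + 1))) (pI n _ (p : ZMod (p ^ (m + 1))))
      (pI n _ (p : ZMod (p ^ (m + 1)))) L ⊤) (s : ℝ) :
    Zs (GLn n (ZMod (p ^ (m + 1)))) (fun χ => ∃ x ∈ {x | localRed n p m x = 1},
      ¬ InKer χ (inGL n _ x)) s ≤ Zs (⊤ : Subgroup (GLn n (ZMod (p ^ (m + 1)))))
      (fun χ => Sup (tau n (p ^ (m + 1))) (pI n _ (p : ZMod (p ^ (m + 1)))) L ⊤ χ
        ⊆ NS n _ ((p : ZMod (p ^ (m + 1))) ^ m)) s := by
  let e : GLn n (ZMod (p ^ (m + 1))) →* (⊤ : Subgroup (GLn n (ZMod (p ^ (m + 1))))) :=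
    Subgroup.topEquiv.symm.toMonoidHom
  refine Zs_le_of_surj e Subgroup.topEquiv.symm.surjective (fun χ _ _ x hx => ?_) ?_ s
  · have : x = 1 := Subgroup.topEquiv.symm.injective (hx.trans (map_one _).symm)
    intro g
    rw [this, one_mul]
  · rintro χ hχ ⟨x, hx, hk⟩ A hA ⟨c, hc⟩
    apply hk
    apply local_inKer_comp
    obtain ⟨N, hN, hN'⟩ := exists_ker hχ
    rw [← hN']
    have := s1_le hn p (m + 1) (N.comap e) (fun g u hu => ?_) x (localRed_eq_one hx)
    · exact this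
    rw [Subgroup.mem_comap, hN', map_mul, map_mul, map_mul, map_inv, map_inv]
    refine hS.scalar hχ hA (fun g _ => ?_) _ _ hu
    rw [perp_pI]
    have h1 : cj g A - A = cj g (A - c • 1) - (A - c • 1) := by
      rw [cj_sub]
      have : cj g (c • (1 : Mat n (ZMod (p ^ (m + 1))))) = c • 1 := by
        simp [cj]
      rw [this]
      abel
    rw [h1]
    exact sub_mem (local_cj_pI _ g hc) hc

lemma local_sumOn_le {X : Type} [Fintype X] (T : Set X) {f g : X → ℝ} (D : ℝ)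
    (h : ∀ x, f x ≤ D * g x) : sumOn T f ≤ D * sumOn T g := by
  unfold sumOn
  rw [Finset.mul_sum]
  exact Finset.sum_le_sum (fun x _ => h x)

lemma local_sumOn_nonneg {X : Type} [Fintype X] (T : Set X) {f : X → ℝ} (h : ∀ x, 0 ≤ f x) :
    0 ≤ sumOn T f := Finset.sum_nonneg (fun x _ => h x)

theorem local_big (n : ℕ) (hn : 4 ≤ n) : ∃ (C : ℝ) (p₀ : ℕ), ∀ (p : ℕ) [Fact p.Prime], p₀ ≤ p →
    ∀ (m : ℕ) (s : ℝ), 1 ≤ s → s ≤ 2 →
    Zs (SLn n (ZMod (p ^ (m + 1)))) (fun _ => True) s ≤ 1 + C * (p : ℝ) ^ (-s) := by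
  obtain ⟨C₀, h0⟩ := level_zero n hn
  obtain ⟨C₁, h1⟩ := chain n (by omega)
  obtain ⟨C₂, p₂, h2⟩ := level_big n hn
  refine ⟨2 * ((2 * n : ℕ) : ℝ) ^ (4 : ℝ) * (C₀ + |C₁| * (4 * C₂)), max (3 * n) p₂,
    fun p _ hp m s hs hs2 => ?_⟩
  have hp3 : 3 * n ≤ p := (le_max_left _ _).trans hp
  have hp0 : (0 : ℝ) < p := by exact_mod_cast (Fact.out : p.Prime).pos
  obtain ⟨L, hL⟩ := om_big n p (by omega) hp3 m
  have hS := local_sit (by omega) hL
  refine (local_split s).trans (add_le_add le_rfl ?_)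
  refine (Zs_or (Q := fun σ => (∃ x, ¬ InKer σ x) ∧ ∀ x, localRed n p m x = 1 → InKer σ x)
    (R := fun σ => ∃ x ∈ {x | localRed n p m x = 1}, ¬ InKer σ x) ?_ s).trans ?_
  · rintro σ _ ⟨x, _, hx⟩
    by_cases h : ∀ x, localRed n p m x = 1 → InKer σ x
    · exact Or.inl ⟨⟨x, hx⟩, h⟩
    · push Not at h
      exact Or.inr h
  rw [mul_add, add_mul]
  refine add_le_add ?_ ?_
  · refine (Zs_le_of_surj (P' := fun σ => ∃ x ∈ (Set.univ : Set (SLn n (ZMod p))), ¬ InKer σ x)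
      (localRed n p m) (localRed_surj n p m) (fun χ _ h => h.2)
      (fun χ _ ⟨⟨x, hx⟩, _⟩ => ⟨_, trivial, fun h => hx (local_inKer_comp _ h)⟩) s).trans ?_
    refine (transfer n (by omega) _ (2 * n) (index_pow_field n (by omega) p) _
      (by linarith)).trans ?_
    have hu : (p : ℝ) ≤ 2 * (Nat.card (ZMod p)ˣ : ℝ) := by
      rw [Nat.card_units, Nat.card_zmod]
      exact_mod_cast (by omega : p ≤ 2 * (p - 1))
    have e1 := local_coef (n := n) (by omega) hs2 hp0 hu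
    refine (mul_le_mul e1 (h0 p s hs hs2) (Zs_nonneg _ _) (by positivity)).trans (le_of_eq ?_)
    rw [show (1 : ℝ) - s = 1 + -s by ring, Real.rpow_add hp0, Real.rpow_one]
    field_simp
  · refine (transfer n (by omega) _ (2 * n) (index_pow n (by omega) p (m + 1)) _
      (by linarith)).trans ?_
    have hq : (0 : ℝ) < (p : ℝ) ^ (m + 1) := by positivity
    have hu : (p : ℝ) ^ (m + 1) ≤ 2 * (Nat.card (ZMod (p ^ (m + 1)))ˣ : ℝ) := by
      exact_mod_cast card_units_zmod p m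
    have e1 := local_coef (n := n) (by omega) hs2 hq hu
    have e2 := (local_ns (by omega) hS s).trans (h1 p (by omega) m L hL s (by linarith) hs2)
    have hD : (Nat.card (Mat n (ZMod (p ^ (m + 1)))) : ℝ) ≤
        2 * Nat.card (Mat n (ZMod (p ^ (m + 1))))ˣ := by
      exact_mod_cast card_mat_big (n := n) (p := p) (by omega) m
    have e3 : sumOn (NS n _ ((p : ZMod (p ^ (m + 1))) ^ m))
        (fun A => ((orb A).ncard : ℝ) ^ (-1 - s / 2)) ≤
        4 * (C₂ * (p : ℝ) ^ ((m : ℝ) + 3 - n - s)) := by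
      refine (local_sumOn_le _ 4 (fun A => ?_)).trans
        (mul_le_mul_of_nonneg_left (h2 p ((le_max_right _ _).trans hp) m s hs) (by norm_num))
      have := orb_rpow_le hD A (t := 1 + s / 2) (by linarith)
      rw [show -1 - s / 2 = -(1 + s / 2) by ring]
      refine this.trans (mul_le_mul_of_nonneg_right ?_
        (Real.rpow_nonneg (by unfold cc; positivity) _))
      calc (2 : ℝ) ^ (1 + s / 2) ≤ (2 : ℝ) ^ (2 : ℝ) :=
            Real.rpow_le_rpow_of_exponent_le (by norm_num) (by linarith)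
        _ = 4 := by norm_num
    have e4 : C₁ * (p : ℝ) ^ (n - 2) * sumOn (NS n _ ((p : ZMod (p ^ (m + 1))) ^ m))
        (fun A => ((orb A).ncard : ℝ) ^ (-1 - s / 2)) ≤
        |C₁| * (p : ℝ) ^ (n - 2) * (4 * (C₂ * (p : ℝ) ^ ((m : ℝ) + 3 - n - s))) :=
      mul_le_mul (mul_le_mul_of_nonneg_right (le_abs_self _) (by positivity)) e3
        (local_sumOn_nonneg _ (fun A => by positivity)) (by positivity)
    refine (mul_le_mul e1 (e2.trans e4) (Zs_nonneg _ _) (by positivity)).trans (le_of_eq ?_)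
    have e5 : (p : ℝ) ^ (n - 2) * (p : ℝ) ^ ((m : ℝ) + 3 - n - s)
        = (p : ℝ) ^ (m + 1) * (p : ℝ) ^ (-s) := by
      rw [← Real.rpow_natCast, ← Real.rpow_natCast, ← Real.rpow_add hp0, ← Real.rpow_add hp0]
      congr 1
      rw [Nat.cast_sub (by omega)]
      push_cast
      ring
    calc _ = 2 * ((2 * n : ℕ) : ℝ) ^ (4 : ℝ) * (|C₁| * (4 * C₂)) *
          ((p : ℝ) ^ (n - 2) * (p : ℝ) ^ ((m : ℝ) + 3 - n - s)) / (p : ℝ) ^ (m + 1) := by ring
      _ = _ := by rw [e5]; field_simp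

end Pool.Agent.MP_8299d6_al.Up

end
end
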