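import Pool.Agent.Mg.X8299d6.Ge1a818

section

/-! Definitions for the Harish-Chandra theory of `GL_n` over a finite field. -/

open Matrix

noncomputable section

namespace Pool.Agent.MP_8299d6_al.Up

open Pool.Agent.MP_810665_al (IrrChar)

section Grp
variable {G : Type} [Group G] [Finite G]

/-- sum over a subgroup -/
def cSum (H : Subgroup G) (f : G → ℂ) : ℂ := ∑ x ∈ @Finset.univ H (Fintype.ofFinite H), f x

/-- the pairing over a subgroup, not normalised -/
def cIp (H : Subgroup G) (f f' : G → ℂ) : ℂ := cSum H fun x => f x * f' x⁻¹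

/-- the restriction to `H` is an irreducible character -/
def IrrOn (H : Subgroup G) (f : G → ℂ) : Prop := (fun x : H => f x) ∈ Irr H

/-- the restriction to `H` is a character -/
def ChOn (H : Subgroup G) (f : G → ℂ) : Prop :=
  ∃ m : (H → ℂ) → ℕ, ∀ x : H, f x = ∑ χ ∈ Irr H, (m χ : ℂ) * χ x

/-- the subgroup `g K g⁻¹` -/
def cCj (g : G) (K : Subgroup G) : Subgroup G := K.comap (MulAut.conj g⁻¹).toMonoidHom

/-- the term of the Mackey formula -/
def cT (K K' : Subgroup G) (f f' : G → ℂ) (g : G) : ℂ :=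
  cIp (K ⊓ cCj g K') f fun x => f' (g⁻¹ * x * g)

/-- average over a subgroup -/
def cAv (N : Subgroup G) (f : G → ℂ) (g : G) : ℂ := (Nat.card N : ℂ)⁻¹ * cSum N fun u => f (g * u)

omit [Finite G] in
lemma mem_cCj {g x : G} {K : Subgroup G} : x ∈ cCj g K ↔ g⁻¹ * x * g ∈ K := by
  simp [cCj]

lemma cSum_eq (H : Subgroup G) [Fintype H] (f : G → ℂ) : cSum H f = ∑ x : H, f x := by
  unfold cSum
  congr 1
  congr 1
  exact Subsingleton.elim _ _

lemma cSum_top [Fintype G] (f : G → ℂ) : cSum ⊤ f = ∑ x, f x := by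
  classical
  rw [cSum_eq]
  exact Fintype.sum_equiv Subgroup.topEquiv.toEquiv _ _ fun _ => rfl

lemma cSum_ite [Fintype G] (H : Subgroup G) [DecidablePred (· ∈ H)] (f : G → ℂ) :
    cSum H f = ∑ x, if x ∈ H then f x else 0 := by
  rw [cSum_eq, ← Finset.sum_filter, Finset.sum_subtype (p := (· ∈ H)) _ (by simp)]

lemma cSum_congr {H : Subgroup G} {f f' : G → ℂ} (h : ∀ x ∈ H, f x = f' x) :
    cSum H f = cSum H f' := Finset.sum_congr rfl fun x _ => h x x.2

lemma cSum_const (H : Subgroup G) (a : ℂ) : cSum H (fun _ => a) = Nat.card H * a := by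
  classical
  have := Fintype.ofFinite H
  rw [cSum_eq]
  simp

lemma cSum_bot (f : G → ℂ) : cSum ⊥ f = f 1 := by
  rw [cSum_congr (f' := fun _ => f 1) fun x hx => by rw [Subgroup.mem_bot.1 hx], cSum_const]
  simp

lemma cSum_mul (H : Subgroup G) (a : ℂ) (f : G → ℂ) : cSum H (fun x => a * f x) = a * cSum H f :=
  (Finset.mul_sum _ _ _).symm

lemma cSum_mul' (H : Subgroup G) (a : ℂ) (f : G → ℂ) : cSum H (fun x => f x * a) = cSum H f * a :=
  (Finset.sum_mul _ _ _).symm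

lemma cSum_add (H : Subgroup G) (f f' : G → ℂ) :
    cSum H (fun x => f x + f' x) = cSum H f + cSum H f' := Finset.sum_add_distrib

lemma cSum_sum (H : Subgroup G) {X : Type} (s : Finset X) (f : X → G → ℂ) :
    cSum H (fun x => ∑ i ∈ s, f i x) = ∑ i ∈ s, cSum H (f i) := Finset.sum_comm

lemma cSum_comm {S : Type} [Group S] [Finite S] (H : Subgroup G) (K : Subgroup S)
    (f : G → S → ℂ) : cSum H (fun x => cSum K (f x)) = cSum K fun y => cSum H fun x => f x y :=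
  Finset.sum_comm

/-- change of variables -/
lemma cSum_bij {S : Type} [Group S] [Finite S] {K : Subgroup S} {H : Subgroup G} (ι : S → G)
    (h1 : ∀ x ∈ K, ι x ∈ H) (h2 : ∀ x ∈ K, ∀ y ∈ K, ι x = ι y → x = y)
    (h3 : ∀ y ∈ H, ∃ x ∈ K, ι x = y) (f : G → ℂ) : cSum K (fun x => f (ι x)) = cSum H f := by
  have := Fintype.ofFinite H
  have := Fintype.ofFinite K
  rw [cSum_eq, cSum_eq]
  refine Fintype.sum_bijective (fun x : K => (⟨ι x, h1 x x.2⟩ : H)) ⟨fun x y h => ?_, fun y => ?_⟩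
    _ _ fun _ => rfl
  · exact Subtype.ext (h2 x x.2 y y.2 (congrArg Subtype.val h))
  · obtain ⟨x, hx, e⟩ := h3 y y.2
    exact ⟨⟨x, hx⟩, Subtype.ext e⟩

lemma cSum_left {H : Subgroup G} {a : G} (ha : a ∈ H) (f : G → ℂ) :
    cSum H (fun x => f (a * x)) = cSum H f :=
  cSum_bij (a * ·) (fun _ hx => H.mul_mem ha hx) (fun _ _ _ _ h => mul_left_cancel h)
    (fun y hy => ⟨a⁻¹ * y, H.mul_mem (H.inv_mem ha) hy, by simp⟩) f

lemma cSum_right {H : Subgroup G} {a : G} (ha : a ∈ H) (f : G → ℂ) :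
    cSum H (fun x => f (x * a)) = cSum H f :=
  cSum_bij (· * a) (fun _ hx => H.mul_mem hx ha) (fun _ _ _ _ h => mul_right_cancel h)
    (fun y hy => ⟨y * a⁻¹, H.mul_mem hy (H.inv_mem ha), by simp⟩) f

lemma cSum_inv (H : Subgroup G) (f : G → ℂ) : cSum H (fun x => f x⁻¹) = cSum H f :=
  cSum_bij (·⁻¹) (fun _ hx => H.inv_mem hx) (fun _ _ _ _ h => inv_injective h)
    (fun y hy => ⟨y⁻¹, H.inv_mem hy, by simp⟩) f

lemma cIp_comm (H : Subgroup G) (f f' : G → ℂ) : cIp H f f' = cIp H f' f := by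
  unfold cIp
  rw [← cSum_inv]
  exact cSum_congr fun x _ => by rw [inv_inv, mul_comm]

lemma cIp_congr {H : Subgroup G} {f₁ f₂ f₁' f₂' : G → ℂ} (h : ∀ x ∈ H, f₁ x = f₂ x)
    (h' : ∀ x ∈ H, f₁' x = f₂' x) : cIp H f₁ f₁' = cIp H f₂ f₂' :=
  cSum_congr fun x hx => by rw [h x hx, h' _ (H.inv_mem hx)]

lemma ccard_ne (H : Subgroup G) : (Nat.card H : ℂ) ≠ 0 := by
  exact_mod_cast (Nat.card_pos (α := H)).ne'

end Grp

section Mat
variable {n b : ℕ}

/-- the matrices that agree with the identity outside a transitive relation -/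
def cPat (F : Type) [Field F] [Finite F] (R : Fin n → Fin n → Prop)
    (hR : ∀ i j k, R i j → R j k → R i k) : Subgroup (GLn n F) :=
  have key : ∀ {u v : GLn n F}, (∀ i j, ¬ R i j → u.1 i j = (1 : Mat n F) i j) →
      (∀ i j, ¬ R i j → v.1 i j = (1 : Mat n F) i j) →
      ∀ i j, ¬ R i j → (u * v).1 i j = (1 : Mat n F) i j := by
    intro u v hu hv i j hij
    have e : (u * v).1 = (u.1 - 1) * (v.1 - 1) + (u.1 - 1) + v.1 := by
      rw [Units.val_mul]; noncomm_ring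
    have h0 : ((u.1 - 1) * (v.1 - 1)) i j = 0 := by
      rw [mul_apply]
      refine Finset.sum_eq_zero fun k _ => ?_
      by_cases h : R i k
      · rw [Matrix.sub_apply v.1, hv k j fun h' => hij (hR _ _ _ h h'), sub_self, mul_zero]
      · rw [Matrix.sub_apply u.1, hu i k h, sub_self, zero_mul]
    rw [e, Matrix.add_apply, Matrix.add_apply, h0, Matrix.sub_apply, hu i j hij, hv i j hij]
    simp
  { carrier := {g | ∀ i j, ¬ R i j → g.1 i j = (1 : Mat n F) i j}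
    one_mem' := fun _ _ _ => rfl
    mul_mem' := key
    inv_mem' := by
      intro u hu
      have h : ∀ k : ℕ, ∀ i j, ¬ R i j → (u ^ k).1 i j = (1 : Mat n F) i j := by
        intro k
        induction k with
        | zero => intro i j _; simp
        | succ k ih => rw [pow_succ]; exact key ih hu
      have e : u⁻¹ = u ^ (orderOf u - 1) := by
        rw [inv_eq_iff_mul_eq_one, ← pow_succ', Nat.sub_add_cancel (orderOf_pos u),
          pow_orderOf_eq_one]
      rw [e]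
      exact h _ }

/-- the parabolic subgroup of an ordered partition -/
def cP (F : Type) [Field F] [Finite F] (c : Fin n → ℕ) : Subgroup (GLn n F) :=
  cPat F (fun i j => c i ≤ c j) fun _ _ _ => le_trans

/-- its Levi factor -/
def cL (F : Type) [Field F] [Finite F] (c : Fin n → ℕ) : Subgroup (GLn n F) :=
  cPat F (fun i j => c i = c j) fun _ _ _ => Eq.trans

/-- its unipotent radical -/
def cN (F : Type) [Field F] [Finite F] (c : Fin n → ℕ) : Subgroup (GLn n F) :=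
  cPat F (fun i j => c i < c j) fun _ _ _ => lt_trans

/-- the general linear group of a set of indices -/
def cR (F : Type) [Field F] [Finite F] (S : Set (Fin n)) : Subgroup (GLn n F) :=
  cPat F (fun i j => i ∈ S ∧ j ∈ S) fun _ _ _ h h' => ⟨h.1, h'.2⟩

/-- permutation matrices -/
def cPm (F : Type) [Field F] : Equiv.Perm (Fin n) →* GLn n F := MonoidHom.toHomUnits
  { toFun := fun w => of fun i j => if i = w j then 1 else 0
    map_one' := by ext i j; simp [one_apply]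
    map_mul' := fun v w => by
      ext i j
      simp [mul_apply] }

/-- the matrix of an embedding of index sets -/
def cEm (F : Type) [Field F] (e : Fin b ↪ Fin n) : Matrix (Fin n) (Fin b) F :=
  of fun i j => if i = e j then 1 else 0

lemma cEm_mul (F : Type) [Field F] (e : Fin b ↪ Fin n) : (cEm F e)ᵀ * cEm F e = 1 := by
  ext i j
  simp [cEm, mul_apply, one_apply, eq_comm]

/-- the embedding of `GL_b` along an embedding of index sets -/
def cEmb {F : Type} [Field F] (e : Fin b ↪ Fin n) : GLn b F →* GLn n F := Units.map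
  { toFun := fun A => 1 + cEm F e * (A - 1) * (cEm F e)ᵀ
    map_one' := by simp
    map_mul' := fun A B => by
      have h : cEm F e * (A - 1) * (cEm F e)ᵀ * (cEm F e * (B - 1) * (cEm F e)ᵀ) =
          cEm F e * ((A - 1) * (B - 1)) * (cEm F e)ᵀ := by
        simp only [Matrix.mul_assoc]
        rw [← Matrix.mul_assoc (cEm F e)ᵀ, cEm_mul, Matrix.one_mul]
      have e2 : A * B - 1 = (A - 1) * (B - 1) + (A - 1) + (B - 1) := by noncomm_ring
      rw [add_mul, mul_add, mul_add, h, e2]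
      simp only [Matrix.mul_add, Matrix.add_mul, one_mul, mul_one]
      abel }

variable {F : Type} [Field F]

/-- conjugation by a permutation matrix; entry `i j` is `x (w i) (w j)` -/
def cCw (w : Equiv.Perm (Fin n)) (x : GLn n F) : GLn n F := (cPm F w)⁻¹ * x * cPm F w

/-- block diagonal part of a matrix -/
def cBd (c : Fin n → ℕ) (A : Mat n F) : Mat n F := of fun i j => if c i = c j then A i j else 0

lemma cBd_one (c : Fin n → ℕ) : cBd c (1 : Mat n F) = 1 := by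
  ext i j
  by_cases h : i = j <;> simp [cBd, h, one_apply]

lemma cBd_mul (c : Fin n → ℕ) {A B : Mat n F} (hA : ∀ i j, c j < c i → A i j = 0)
    (hB : ∀ i j, c j < c i → B i j = 0) : cBd c (A * B) = cBd c A * cBd c B := by
  ext i j
  simp only [cBd, mul_apply, of_apply]
  split_ifs with h
  · refine Finset.sum_congr rfl fun k _ => ?_
    rcases lt_trichotomy (c i) (c k) with h1 | h1 | h1
    · rw [hB k j (h ▸ h1), if_neg h1.ne, mul_zero, zero_mul]
    · rw [if_pos h1, if_pos (h1.symm.trans h)]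
    · rw [hA i k h1, if_neg h1.ne', zero_mul, zero_mul]
  · refine (Finset.sum_eq_zero fun k _ => ?_).symm
    by_cases h1 : c i = c k
    · rw [if_neg (fun h2 : c k = c j => h (h1.trans h2)), mul_zero]
    · rw [if_neg h1, zero_mul]

/-- the linear character of `cN F d` given by the entries between consecutive positive levels -/
def cPsi (ψ : AddChar F ℂ) (d : Fin n → ℕ) (g : GLn n F) : ℂ :=
  ψ (∑ i, ∑ j, if 0 < d i ∧ d j = d i + 1 then g.1 i j else 0)

variable [Finite F]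

lemma mem_cPat {R : Fin n → Fin n → Prop} {hR : ∀ i j k, R i j → R j k → R i k} {g : GLn n F} :
    g ∈ cPat F R hR ↔ ∀ i j, ¬ R i j → g.1 i j = (1 : Mat n F) i j := Iff.rfl

lemma mem_cP {c : Fin n → ℕ} {g : GLn n F} : g ∈ cP F c ↔ ∀ i j, c j < c i → g.1 i j = 0 := by
  refine mem_cPat.trans (forall₂_congr fun i j => ?_)
  rw [not_le]
  refine imp_congr_right fun h => ?_
  rw [one_apply_ne fun e => by simp [e] at h]

lemma mem_cL {c : Fin n → ℕ} {g : GLn n F} : g ∈ cL F c ↔ ∀ i j, c i ≠ c j → g.1 i j = 0 := by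
  refine mem_cPat.trans (forall₂_congr fun i j => imp_congr_right fun h => ?_)
  rw [one_apply_ne fun e => by simp [e] at h]

lemma mem_cN {c : Fin n → ℕ} {g : GLn n F} :
    g ∈ cN F c ↔ ∀ i j, c j ≤ c i → g.1 i j = (1 : Mat n F) i j := by
  refine mem_cPat.trans (forall₂_congr fun i j => ?_)
  rw [not_lt]

lemma mem_cR {S : Set (Fin n)} {g : GLn n F} :
    g ∈ cR F S ↔ ∀ i j, ¬ (i ∈ S ∧ j ∈ S) → g.1 i j = (1 : Mat n F) i j := Iff.rfl

open Classical in
/-- the projection of the parabolic subgroup to its Levi factor -/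
def cPr (c : Fin n → ℕ) (x : GLn n F) : GLn n F :=
  if h : x ∈ cP F c then
    { val := cBd c x.1
      inv := cBd c (x⁻¹).1
      val_inv := by
        rw [← cBd_mul c (mem_cP.1 h) (mem_cP.1 ((cP F c).inv_mem h)), Units.mul_inv, cBd_one]
      inv_val := by
        rw [← cBd_mul c (mem_cP.1 ((cP F c).inv_mem h)) (mem_cP.1 h), Units.inv_mul, cBd_one] }
  else 1

lemma cPr_val {c : Fin n → ℕ} {x : GLn n F} (h : x ∈ cP F c) (i j : Fin n) :
    (cPr c x).1 i j = if c i = c j then x.1 i j else 0 := by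
  rw [cPr, dif_pos h]
  rfl

/-- inflation from the Levi factor -/
def cF (c : Fin n → ℕ) (φ : GLn n F → ℂ) (x : GLn n F) : ℂ := φ (cPr c x)

/-- the same partition of the indices -/
def SameP (c c' : Fin n → ℕ) : Prop := ∀ i j, c i = c j ↔ c' i = c' j

/-- a cuspidal character of the Levi subgroup, extended by zero -/
structure Cusp (c : Fin n → ℕ) (φ : GLn n F → ℂ) : Prop where
  irr : IrrOn (cL F c) φ
  zero : ∀ g, g ∉ cL F c → φ g = 0
  van : ∀ c' : Fin n → ℕ, (∃ i j, c i = c j ∧ c' i < c' j) →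
    ∀ g ∈ cL F c, cSum (cL F c ⊓ cN F c') (fun u => φ (g * u)) = 0

/-- `χ` lies in the series of `(c, φ)` -/
def Over (χ : GLn n F → ℂ) (c : Fin n → ℕ) (φ : GLn n F → ℂ) : Prop :=
  cIp (cP F c) χ (cF c φ) ≠ 0

/-- a union of blocks -/
def Un (c : Fin n → ℕ) (S : Set (Fin n)) : Prop := ∀ i j, c i = c j → i ∈ S → j ∈ S

/-- `w` carries the block of `i` to a block on which `φ` looks the same -/
def Eqv (c : Fin n → ℕ) (φ : GLn n F → ℂ) (i : Fin n) (w : Equiv.Perm (Fin n)) : Prop :=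
  (∀ j, c (w j) = c (w i) ↔ c j = c i) ∧
    ∀ x ∈ cR F {j | c j = c (w i)}, φ (cCw w x) = φ x

/-- the relative Weyl group of `φ` is trivial -/
def Rigid (c : Fin n → ℕ) (φ : GLn n F → ℂ) : Prop :=
  ∀ w : Equiv.Perm (Fin n), SameP c (c ∘ w.symm) → (∀ x, φ (cCw w x) = φ x) →
    ∀ i, c (w i) = c i

/-- levels of the full unitriangular group -/
def cU (n : ℕ) (i : Fin n) : ℕ := i.1 + 1

/-- levels attached to an embedding: `i + 1` at `e i`, zero elsewhere -/
def cD (e : Fin b ↪ Fin n) : Fin n → ℕ := Function.extend e (cU b) 0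

/-- the exponent of the degree bound -/
def cE (b n : ℕ) : ℕ := ∑ i ∈ Finset.range (b - 1), (n - 1 - i)

/-- normal form of the cuspidal support of `χ` -/
structure NF (χ : GLn n F → ℂ) (c : Fin n → ℕ) (φ : GLn n F → ℂ) (e : Fin b ↪ Fin n)
    (W : Fin n → Equiv.Perm (Fin n)) (θ : GLn b F → ℂ) (m : ℂ) : Prop where
  bd : ∀ i, c i < n
  cusp : Cusp c φ
  ov : Over χ c φ
  anti : Antitone (c ∘ e)
  un : Un c (Set.range e)
  dom : ∀ i, W i i ∈ Set.range e ∧ Eqv c φ i (W i)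
  ne : m ≠ 0
  cusp' : Cusp (c ∘ e) θ
  res : ∀ y, φ (cEmb e y) = m * θ y
  rigid : Rigid (c ∘ e) θ

end Mat

end Pool.Agent.MP_8299d6_al.Up

end
end

section

open Matrix

noncomputable section

namespace Pool.Agent.MP_8299d6_al.Up

open Pool.Agent.MP_810665_al (IrrChar)

variable {G : Type} [Group G] [Finite G] {S : Type} [Group S] [Finite S]
  {H K : Subgroup G} {f f' θ : G → ℂ}

lemma cta_ip (H : Subgroup G) [Fintype H] (f f' : G → ℂ) :
    cIp H f f' = ∑ x : H, f x * f' ((x⁻¹ : H) : G) := by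
  unfold cIp
  rw [cSum_eq]
  rfl

lemma cta_key {Q : Type} [Group Q] [Fintype Q] (m : (Q → ℂ) → ℕ) {ψ : Q → ℂ} (hψ : ψ ∈ Irr Q) :
    ∑ x, (∑ χ ∈ Irr Q, (m χ : ℂ) * χ x) * ψ x⁻¹ = m ψ * Nat.card Q := by
  simp_rw [Finset.sum_mul, mul_assoc]
  rw [Finset.sum_comm, Finset.sum_eq_single ψ]
  · rw [← Finset.mul_sum, MP_810665_al.irr_norm (mem_Irr.1 hψ)]
  · intro χ hχ hne
    rw [← Finset.mul_sum, MP_810665_al.irr_orth (mem_Irr.1 hχ) (mem_Irr.1 hψ) hne, mul_zero]
  · exact fun h => (h hψ).elim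

/-- extension by zero -/
def cta_ext (H : Subgroup G) (χ : H → ℂ) : G → ℂ := Function.extend Subtype.val χ 0

omit [Finite G] in
lemma cta_ext_val (χ : H → ℂ) (x : H) : cta_ext H χ x = χ x :=
  Subtype.val_injective.extend_apply _ _ x

omit [Finite G] in
lemma cta_ext_zero (χ : H → ℂ) {g : G} (hg : g ∉ H) : cta_ext H χ g = 0 := by
  unfold cta_ext
  rw [Function.extend_apply' _ _ _ fun ⟨x, hx⟩ => hg (hx ▸ x.2)]
  rfl

lemma cta_ext_irr {χ : H → ℂ} (hχ : χ ∈ Irr H) : IrrOn H (cta_ext H χ) := by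
  unfold IrrOn
  rw [show (fun x : H => cta_ext H χ x) = χ from funext (cta_ext_val χ)]
  exact hχ

/-- the homomorphism given by a map that is multiplicative on a subgroup -/
def cta_hom {A : Subgroup S} (ι : S → G) (hι : ∀ x ∈ A, ι x ∈ H)
    (hm : ∀ x ∈ A, ∀ y ∈ A, ι (x * y) = ι x * ι y) : A →* H :=
  MonoidHom.mk' (fun x => ⟨ι x, hι x x.2⟩) fun x y => Subtype.ext (hm x x.2 y y.2)

lemma cta_res {Q R : Type} [Group Q] [Finite Q] [Group R] [Fintype R] (π : R →* Q) {χ : Q → ℂ}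
    (hχ : χ ∈ Irr Q) {ψ : R → ℂ} (hψ : ψ ∈ Irr R) :
    ∃ k : ℕ, ∑ x, χ (π x) * ψ x⁻¹ = k * Nat.card R := by
  obtain ⟨V, _, _, _, ρ, -, rfl⟩ := mem_Irr.1 hχ
  obtain ⟨W, _, _, _, σ, -, rfl⟩ := mem_Irr.1 hψ
  have h := Representation.card_inv_mul_sum_char_mul_char_eq_finrank σ
    (ρ.comp π : Representation ℂ R V)
  refine ⟨Module.finrank ℂ (σ.IntertwiningMap (ρ.comp π : Representation ℂ R V)), ?_⟩
  rw [← h, mul_comm, mul_inv_cancel_left₀ MP_810665_al.card_ne_zero]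
  rfl

lemma cta_mult (m : (H → ℂ) → ℕ) (hf : ∀ x : H, f x = ∑ χ ∈ Irr H, (m χ : ℂ) * χ x)
    (hθ : IrrOn H θ) : cIp H f θ = m (fun x : H => θ x) * Nat.card H := by
  have := Fintype.ofFinite H
  rw [cta_ip, ← cta_key m hθ]
  exact Finset.sum_congr rfl fun x _ => by rw [hf x]

lemma cta_split (m : (H → ℂ) → ℕ) (hf : ∀ x : H, f x = ∑ χ ∈ Irr H, (m χ : ℂ) * χ x)
    {A : Subgroup S} (ι : S → G) (hι : ∀ x ∈ A, ι x ∈ H) (t : S → ℂ) :
    cIp A (fun x => f (ι x)) t =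
      ∑ χ ∈ Irr H, (m χ : ℂ) * cIp A (fun x => cta_ext H χ (ι x)) t := by
  unfold cIp
  simp_rw [← cSum_mul]
  rw [← cSum_sum]
  refine cSum_congr fun x hx => ?_
  have h1 := hf ⟨ι x, hι x hx⟩
  simp only at h1
  rw [h1, Finset.sum_mul]
  refine Finset.sum_congr rfl fun χ _ => ?_
  rw [← cta_ext_val χ, mul_assoc]

theorem irrOn_top {χ : G → ℂ} : IrrOn ⊤ χ ↔ χ ∈ Irr G := by
  unfold IrrOn
  rw [mem_Irr, mem_Irr]
  constructor
  · intro h
    exact MP_810665_al.irrChar_comp (Subgroup.topEquiv (G := G)).symm.toMonoidHom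
      (Subgroup.topEquiv (G := G)).symm.surjective h
  · intro h
    exact MP_810665_al.irrChar_comp (Subgroup.topEquiv (G := G)).toMonoidHom
      (Subgroup.topEquiv (G := G)).surjective h

theorem IrrOn.congr (h : IrrOn H f) (e : ∀ x ∈ H, f x = f' x) : IrrOn H f' := by
  unfold IrrOn at h ⊢
  rwa [show (fun x : H => f' x) = fun x : H => f x from funext fun x => (e x x.2).symm]

theorem ChOn.congr (h : ChOn H f) (e : ∀ x ∈ H, f x = f' x) : ChOn H f' := by
  obtain ⟨m, hm⟩ := h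
  exact ⟨m, fun x => (e x x.2).symm.trans (hm x)⟩

theorem IrrOn.chOn (h : IrrOn H f) : ChOn H f := by
  classical
  refine ⟨fun χ => if χ = (fun x : H => f x) then 1 else 0, fun x => ?_⟩
  rw [Finset.sum_eq_single (fun x : H => f x)]
  · simp
  · intro χ _ hne
    simp [hne]
  · exact fun h' => (h' h).elim

theorem IrrOn.one_ne (h : IrrOn H f) : f 1 ≠ 0 := by
  obtain ⟨d, hd, e⟩ := MP_810665_al.irr_one (mem_Irr.1 h)
  have e' : f 1 = d := e
  rw [e']
  exact_mod_cast hd.ne'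

theorem ChOn.conj (h : ChOn H f) {x y : G} (hx : x ∈ H) (hy : y ∈ H) :
    f (y * x * y⁻¹) = f x := by
  obtain ⟨m, hm⟩ := h
  have h1 := hm (⟨y, hy⟩ * ⟨x, hx⟩ * ⟨y, hy⟩⁻¹)
  have h2 := hm ⟨x, hx⟩
  refine Eq.trans h1 (Eq.trans ?_ h2.symm)
  exact Finset.sum_congr rfl fun χ hχ => by rw [MP_810665_al.irr_conj (mem_Irr.1 hχ)]

theorem IrrOn.cIp_self (h : IrrOn H f) : cIp H f f = Nat.card H := by
  have := Fintype.ofFinite H
  rw [cta_ip]
  exact MP_810665_al.irr_norm (mem_Irr.1 h)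

theorem IrrOn.eq_of_cIp (h : IrrOn H f) (h' : IrrOn H f') (hne : cIp H f f' ≠ 0) :
    ∀ x ∈ H, f x = f' x := by
  have := Fintype.ofFinite H
  by_contra hc
  refine hne ?_
  rw [cta_ip]
  refine MP_810665_al.irr_orth (mem_Irr.1 h) (mem_Irr.1 h') fun e => hc fun x hx => ?_
  exact congrFun e ⟨x, hx⟩

theorem ChOn.cIp_nat (h : ChOn H f) (h' : ChOn H f') :
    ∃ k : ℕ, cIp H f f' = k * Nat.card H := by
  obtain ⟨m, hm⟩ := h
  obtain ⟨m', hm'⟩ := h'
  refine ⟨∑ χ ∈ Irr H, m χ * m' χ, ?_⟩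
  have h1 := cta_split m hm (A := H) id (fun _ hx => hx) f'
  refine Eq.trans h1 ?_
  rw [Nat.cast_sum, Finset.sum_mul]
  refine Finset.sum_congr rfl fun χ hχ => ?_
  have h2 := cta_mult m' hm' (cta_ext_irr hχ)
  rw [show (fun x : H => cta_ext H χ x) = χ from funext (cta_ext_val χ), cIp_comm] at h2
  rw [Nat.cast_mul, mul_assoc, ← h2]
  rfl

/-- a class function with natural multiplicities is a character -/
theorem chOn_of_nat (hc : ∀ x ∈ H, ∀ y ∈ H, f (y * x * y⁻¹) = f x)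
    (h : ∀ θ, IrrOn H θ → ∃ k : ℕ, cIp H f θ = k * Nat.card H) : ChOn H f := by
  classical
  have := Fintype.ofFinite H
  have h1 : ∀ χ : H → ℂ, ∃ k : ℕ, χ ∈ Irr H → ∑ x : H, f x * χ x⁻¹ = k * Nat.card H := by
    intro χ
    by_cases hχ : χ ∈ Irr H
    · obtain ⟨k, hk⟩ := h _ (cta_ext_irr hχ)
      refine ⟨k, fun _ => ?_⟩
      rw [← hk, cta_ip]
      exact Finset.sum_congr rfl fun x _ => by rw [cta_ext_val]
    · exact ⟨0, fun h' => (hχ h').elim⟩
  choose m hm using h1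
  refine ⟨m, fun x => ?_⟩
  have h2 := class_eq_zero (G := H) (fun g => f (g⁻¹ : H) - ∑ χ ∈ Irr H, (m χ : ℂ) * χ g⁻¹)
    (fun g y => by
      have e : (y * g * y⁻¹)⁻¹ = y * g⁻¹ * y⁻¹ := by group
      rw [e]
      congr 1
      · exact hc _ (g⁻¹).2 _ y.2
      · exact Finset.sum_congr rfl fun χ hχ => by rw [MP_810665_al.irr_conj (mem_Irr.1 hχ)])
    (fun ψ hψ => by
      rw [← Equiv.sum_comp (Equiv.inv H)]
      simp only [Equiv.inv_apply, inv_inv, sub_mul, Finset.sum_sub_distrib]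
      rw [hm ψ hψ, cta_key m hψ, sub_self])
  have h3 := congrFun h2 x⁻¹
  simp only [inv_inv, Pi.zero_apply] at h3
  exact sub_eq_zero.1 h3

/-- pull back along a map that is multiplicative on the subgroup -/
theorem ChOn.map (h : ChOn H f) {A : Subgroup S} (ι : S → G) (hι : ∀ x ∈ A, ι x ∈ H)
    (hm : ∀ x ∈ A, ∀ y ∈ A, ι (x * y) = ι x * ι y) : ChOn A fun x => f (ι x) := by
  classical
  have := Fintype.ofFinite A
  refine chOn_of_nat (fun x hx y hy => ?_) fun ψ hψ => ?_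
  · have e := congrArg Subtype.val
      ((map_mul (cta_hom ι hι hm) (⟨y, hy⟩ * ⟨x, hx⟩) ⟨y, hy⟩⁻¹).trans
        (by rw [map_mul, map_inv]))
    have e' : ι (y * x * y⁻¹) = ι y * ι x * (ι y)⁻¹ := e
    rw [e', h.conj (hι x hx) (hι y hy)]
  · obtain ⟨m, hm'⟩ := h
    have h1 : ∀ χ : H → ℂ, ∃ k : ℕ, χ ∈ Irr H →
        cIp A (fun x => cta_ext H χ (ι x)) ψ = k * Nat.card A := by
      intro χ
      by_cases hχ : χ ∈ Irr H
      · obtain ⟨k, hk⟩ := cta_res (cta_hom ι hι hm) hχ hψ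
        refine ⟨k, fun _ => ?_⟩
        rw [← hk, cta_ip]
        exact Finset.sum_congr rfl fun x _ => by rw [← cta_ext_val χ]; rfl
      · exact ⟨0, fun h' => (hχ h').elim⟩
    choose k hk using h1
    refine ⟨∑ χ ∈ Irr H, m χ * k χ, ?_⟩
    rw [cta_split m hm' ι hι, Nat.cast_sum, Finset.sum_mul]
    exact Finset.sum_congr rfl fun χ hχ => by rw [hk χ hχ, Nat.cast_mul, mul_assoc]

theorem IrrOn.map (h : IrrOn H f) {A : Subgroup S} (ι : S → G) (hι : ∀ x ∈ A, ι x ∈ H)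
    (hm : ∀ x ∈ A, ∀ y ∈ A, ι (x * y) = ι x * ι y) (hs : ∀ y ∈ H, ∃ x ∈ A, ι x = y) :
    IrrOn A fun x => f (ι x) := by
  refine mem_Irr.2 (MP_810665_al.irrChar_comp (cta_hom ι hι hm) (fun y => ?_) (mem_Irr.1 h))
  obtain ⟨x, hx, e⟩ := hs y y.2
  exact ⟨⟨x, hx⟩, Subtype.ext e⟩

theorem ChOn.mono (h : ChOn H f) (hK : K ≤ H) : ChOn K f := by
  exact h.map id (fun _ hx => hK hx) fun _ _ _ _ => rfl

theorem irr_chOn {χ : G → ℂ} (hχ : χ ∈ Irr G) (H : Subgroup G) : ChOn H χ := by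
  exact (irrOn_top.2 hχ).chOn.mono le_top

/-- some irreducible constituent pairs with `f'` -/
theorem ChOn.exists_irrOn (h : ChOn H f) (hK : K ≤ H) (hne : cIp K f f' ≠ 0) :
    ∃ θ, IrrOn H θ ∧ (∀ g, g ∉ H → θ g = 0) ∧ cIp H f θ ≠ 0 ∧ cIp K θ f' ≠ 0 := by
  obtain ⟨m, hm⟩ := h
  have h1 := cta_split m hm (A := K) id (fun _ hx => hK hx) f'
  obtain ⟨χ, hχ, h2⟩ := Finset.exists_ne_zero_of_sum_ne_zero (fun e => hne (h1.trans e))
  refine ⟨cta_ext H χ, cta_ext_irr hχ, fun g hg => cta_ext_zero χ hg, ?_,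
    right_ne_zero_of_mul h2⟩
  rw [cta_mult m hm (cta_ext_irr hχ),
    show (fun x : H => cta_ext H χ x) = χ from funext (cta_ext_val χ)]
  exact mul_ne_zero (left_ne_zero_of_mul h2) (ccard_ne H)

/-- a character contains what its constituents contain -/
theorem ChOn.cIp_ne (h : ChOn H f) (hθ : IrrOn H θ) (hne : cIp H f θ ≠ 0) {A : Subgroup S}
    (ι : S → G) (hι : ∀ x ∈ A, ι x ∈ H) (hm : ∀ x ∈ A, ∀ y ∈ A, ι (x * y) = ι x * ι y)
    {t : S → ℂ} (ht : ChOn A t) (h2 : cIp A (fun x => θ (ι x)) t ≠ 0) :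
    cIp A (fun x => f (ι x)) t ≠ 0 := by
  obtain ⟨m, hm'⟩ := h
  have h1 : ∀ χ : H → ℂ, ∃ k : ℕ, χ ∈ Irr H →
      cIp A (fun x => cta_ext H χ (ι x)) t = k * Nat.card A := by
    intro χ
    by_cases hχ : χ ∈ Irr H
    · obtain ⟨k, hk⟩ := ((cta_ext_irr hχ).chOn.map ι hι hm).cIp_nat ht
      exact ⟨k, fun _ => hk⟩
    · exact ⟨0, fun h' => (hχ h').elim⟩
  choose k hk using h1
  have h3 : cIp A (fun x => f (ι x)) t = (∑ χ ∈ Irr H, m χ * k χ : ℕ) * Nat.card A := by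
    rw [cta_split m hm' ι hι, Nat.cast_sum, Finset.sum_mul]
    exact Finset.sum_congr rfl fun χ hχ => by rw [hk χ hχ, Nat.cast_mul, mul_assoc]
  rw [h3]
  refine mul_ne_zero ?_ (ccard_ne A)
  rw [cta_mult m hm' hθ] at hne
  have h4 : m (fun x : H => θ x) ≠ 0 := by exact_mod_cast left_ne_zero_of_mul hne
  have h5 : k (fun x : H => θ x) ≠ 0 := by
    intro e
    refine h2 ?_
    have h6 := hk _ hθ
    rw [e, Nat.cast_zero, zero_mul] at h6
    rw [← h6]
    exact cIp_congr (fun x hx => (cta_ext_val (fun x : H => θ x) ⟨ι x, hι x hx⟩).symm)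
      fun _ _ => rfl
  intro e
  have e' : ∑ χ ∈ Irr H, m χ * k χ = 0 := by exact_mod_cast e
  exact mul_ne_zero h4 h5 (Finset.sum_eq_zero_iff.1 e' _ hθ)

end Pool.Agent.MP_8299d6_al.Up

end
end

section

open Matrix

noncomputable section

namespace Pool.Agent.MP_8299d6_al.Up

open Pool.Agent.MP_810665_al (IrrChar)

variable {n : ℕ} {F : Type} [Field F] [Finite F] {c c' : Fin n → ℕ}
  {x y u : GLn n F} {φ : GLn n F → ℂ}

theorem cL_le_cP (c : Fin n → ℕ) : cL F c ≤ cP F c := by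
  intro g hg
  exact mem_cP.2 fun i j h => mem_cL.1 hg i j h.ne'

theorem cN_le_cP (c : Fin n → ℕ) : cN F c ≤ cP F c := by
  intro g hg
  refine mem_cP.2 fun i j h => ?_
  rw [mem_cN.1 hg i j h.le, one_apply_ne fun e => by simp [e] at h]

theorem cPr_mem (c : Fin n → ℕ) (x : GLn n F) : cPr c x ∈ cL F c := by
  by_cases h : x ∈ cP F c
  · refine mem_cL.2 fun i j hij => ?_
    rw [cPr_val h, if_neg hij]
  · rw [cPr, dif_neg h]
    exact (cL F c).one_mem

theorem cPr_mul (hx : x ∈ cP F c) (hy : y ∈ cP F c) : cPr c (x * y) = cPr c x * cPr c y := by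
  have e : ∀ {z : GLn n F}, z ∈ cP F c → (cPr c z).1 = cBd c z.1 := fun hz => by
    ext i j
    rw [cPr_val hz]
    rfl
  refine Units.ext ?_
  rw [Units.val_mul, e hx, e hy, e ((cP F c).mul_mem hx hy), Units.val_mul,
    cBd_mul c (mem_cP.1 hx) (mem_cP.1 hy)]

lemma cma_one (c : Fin n → ℕ) : cPr c (1 : GLn n F) = 1 := by
  refine Units.ext ?_
  ext i j
  rw [cPr_val (cP F c).one_mem]
  split_ifs with h
  · rfl
  · exact (one_apply_ne fun e => h (by rw [e])).symm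

theorem cPr_inv (hx : x ∈ cP F c) : cPr c x⁻¹ = (cPr c x)⁻¹ := by
  refine eq_inv_of_mul_eq_one_left ?_
  rw [← cPr_mul ((cP F c).inv_mem hx) hx, inv_mul_cancel, cma_one]

theorem cPr_of_cL (hx : x ∈ cL F c) : cPr c x = x := by
  refine Units.ext ?_
  ext i j
  rw [cPr_val (cL_le_cP c hx)]
  split_ifs with h
  · rfl
  · exact (mem_cL.1 hx i j h).symm

theorem cPr_eq_one (hx : x ∈ cP F c) : cPr c x = 1 ↔ x ∈ cN F c := by
  constructor
  · intro h
    refine mem_cN.2 fun i j hij => ?_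
    rcases hij.lt_or_eq with h1 | h1
    · rw [mem_cP.1 hx i j h1, one_apply_ne fun e => by simp [e] at h1]
    · have h2 := cPr_val hx i j
      rw [if_pos h1.symm, h] at h2
      exact h2.symm
  · intro h
    refine Units.ext ?_
    ext i j
    rw [cPr_val hx]
    split_ifs with h1
    · exact mem_cN.1 h i j h1.ge
    · exact (one_apply_ne fun e => h1 (by rw [e])).symm

theorem cPr_inv_mul (hx : x ∈ cP F c) : (cPr c x)⁻¹ * x ∈ cN F c := by
  have h1 : cPr c x ∈ cP F c := cL_le_cP c (cPr_mem c x)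
  rw [← cPr_eq_one ((cP F c).mul_mem ((cP F c).inv_mem h1) hx), cPr_mul ((cP F c).inv_mem h1) hx,
    cPr_inv h1, cPr_of_cL (cPr_mem c x), inv_mul_cancel]

theorem cN_conj (hx : x ∈ cP F c) (hu : u ∈ cN F c) : x * u * x⁻¹ ∈ cN F c := by
  have h1 : u ∈ cP F c := cN_le_cP c hu
  have h2 := (cP F c).mul_mem hx h1
  rw [← cPr_eq_one ((cP F c).mul_mem h2 ((cP F c).inv_mem hx)), cPr_mul h2 ((cP F c).inv_mem hx),
    cPr_mul hx h1, (cPr_eq_one h1).2 hu, cPr_inv hx, mul_one, mul_inv_cancel]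

/-- Levi decomposition of a sum -/
theorem cSum_levi {K : Subgroup (GLn n F)} (h1 : cN F c ≤ K) (h2 : K ≤ cP F c)
    (f : GLn n F → ℂ) :
    cSum K f = cSum (K ⊓ cL F c) fun l => cSum (cN F c) fun u => f (l * u) := by
  have := Fintype.ofFinite K
  have := Fintype.ofFinite (K ⊓ cL F c : Subgroup (GLn n F))
  have := Fintype.ofFinite (cN F c)
  simp only [cSum_eq]
  rw [← Fintype.sum_prod_type'
    (fun (l : (K ⊓ cL F c : Subgroup (GLn n F))) (v : cN F c) => f (l.1 * v.1))]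
  symm
  have hp : ∀ (l : (K ⊓ cL F c : Subgroup (GLn n F))) (v : cN F c), cPr c (l.1 * v.1) = l.1 := by
    intro l v
    rw [cPr_mul (h2 l.2.1) (cN_le_cP c v.2), cPr_of_cL l.2.2, (cPr_eq_one (cN_le_cP c v.2)).2 v.2,
      mul_one]
  refine Fintype.sum_bijective
    (fun p : (K ⊓ cL F c : Subgroup (GLn n F)) × cN F c =>
      (⟨p.1.1 * p.2.1, K.mul_mem p.1.2.1 (h1 p.2.2)⟩ : K)) ⟨fun p q h => ?_, fun z => ?_⟩
    _ _ fun _ => rfl
  · have e : p.1.1 * p.2.1 = q.1.1 * q.2.1 := congrArg Subtype.val h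
    have e1 : p.1.1 = q.1.1 := by rw [← hp p.1 p.2, e, hp]
    rw [e1] at e
    exact Prod.ext (Subtype.ext e1) (Subtype.ext (mul_left_cancel e))
  · have hz := cPr_inv_mul (h2 z.2)
    have hk : cPr c z.1 ∈ K := by
      have h3 := K.mul_mem z.2 (K.inv_mem (h1 hz))
      simpa using h3
    exact ⟨(⟨cPr c z.1, hk, cPr_mem c z.1⟩, ⟨_, hz⟩), Subtype.ext (by simp)⟩

theorem SameP.symm (h : SameP c c') : SameP c' c := by
  exact fun i j => (h i j).symm

theorem SameP.trans {c'' : Fin n → ℕ} (h : SameP c c') (h' : SameP c' c'') : SameP c c'' := by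
  exact fun i j => (h i j).trans (h' i j)

theorem SameP.cL_eq (h : SameP c c') : cL F c = cL F c' := by
  ext g
  rw [mem_cL, mem_cL]
  exact forall₂_congr fun i j => by rw [Ne, Ne, h i j]

theorem SameP.cPr_eq (h : SameP c c') (hx : x ∈ cP F c) (hx' : x ∈ cP F c') :
    cPr c x = cPr c' x := by
  refine Units.ext ?_
  ext i j
  rw [cPr_val hx, cPr_val hx']
  exact if_congr (h i j) rfl rfl

theorem Cusp.sameP (hφ : Cusp c φ) (h : SameP c c') : Cusp c' φ := by
  have e : cL F c = cL F c' := h.cL_eq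
  refine ⟨e ▸ hφ.irr, e ▸ hφ.zero, fun d hd => ?_⟩
  obtain ⟨i, j, h1, h2⟩ := hd
  exact e ▸ hφ.van d ⟨i, j, (h i j).2 h1, h2⟩

theorem Rigid.sameP (hφ : Rigid c φ) (h : SameP c c') : Rigid c' φ := by
  intro w hw hx i
  refine (h _ _).1 (hφ w (fun a b => ?_) hx i)
  exact (h a b).trans ((hw a b).trans (h _ _).symm)

/-- the inflation is irreducible on every group between the Levi and the parabolic subgroup -/
theorem IrrOn.infl (h : IrrOn (cL F c) φ) {K : Subgroup (GLn n F)} (h1 : cL F c ≤ K)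
    (h2 : K ≤ cP F c) : IrrOn K (cF c φ) := by
  exact h.map (cPr c) (fun z _ => cPr_mem c z) (fun a ha b hb => cPr_mul (h2 ha) (h2 hb))
    fun z hz => ⟨z, h1 hz, cPr_of_cL hz⟩

omit [Finite F] in
theorem cPsi_one (ψ : AddChar F ℂ) (d : Fin n → ℕ) : cPsi ψ d (1 : GLn n F) = 1 := by
  unfold cPsi
  rw [Finset.sum_eq_zero, AddChar.map_zero_eq_one]
  refine fun i _ => Finset.sum_eq_zero fun j _ => ?_
  split_ifs with h
  · refine one_apply_ne fun e => ?_
    have := h.2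
    rw [e] at this
    omega
  · rfl

theorem cPsi_mul (ψ : AddChar F ℂ) {d : Fin n → ℕ} (hx : x ∈ cN F d) (hy : y ∈ cN F d) :
    cPsi ψ d (x * y) = cPsi ψ d x * cPsi ψ d y := by
  unfold cPsi
  rw [← AddChar.map_add_eq_mul, ← Finset.sum_add_distrib]
  congr 1
  refine Finset.sum_congr rfl fun i _ => ?_
  rw [← Finset.sum_add_distrib]
  refine Finset.sum_congr rfl fun j _ => ?_
  split_ifs with h
  · have hij : i ≠ j := fun e => by
      have := h.2
      rw [e] at this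
      omega
    have e : (x * y).1 = (x.1 - 1) * (y.1 - 1) + (x.1 - 1) + y.1 := by
      rw [Units.val_mul]; noncomm_ring
    have h0 : ((x.1 - 1) * (y.1 - 1)) i j = 0 := by
      rw [mul_apply]
      refine Finset.sum_eq_zero fun k _ => ?_
      by_cases hk : d k ≤ d i
      · rw [Matrix.sub_apply x.1, mem_cN.1 hx i k hk, sub_self, zero_mul]
      · rw [Matrix.sub_apply y.1, mem_cN.1 hy k j (by omega), sub_self, mul_zero]
    rw [e, Matrix.add_apply, Matrix.add_apply, h0, Matrix.sub_apply, one_apply_ne hij, zero_add,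
      sub_zero]
  · simp

end Pool.Agent.MP_8299d6_al.Up

end
end

section

open Matrix

noncomputable section

namespace Pool.Agent.MP_8299d6_al.Up

open Pool.Agent.MP_810665_al (IrrChar)

variable {G : Type} [Group G] [Finite G] {S : Type} [Group S] [Finite S]
  {H K : Subgroup G} {f : G → ℂ}

/-- extension by zero -/
def ctb_x (H : Subgroup G) (χ : H → ℂ) : G → ℂ := Function.extend Subtype.val χ 0

omit [Finite G] in
lemma ctb_x_coe (χ : H → ℂ) (x : H) : ctb_x H χ x = χ x :=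
  Subtype.val_injective.extend_apply _ _ _

omit [Finite G] in
lemma ctb_x_out (χ : H → ℂ) {x : G} (hx : x ∉ H) : ctb_x H χ x = 0 := by
  unfold ctb_x
  rw [Function.extend_apply' _ _ _ fun ⟨a, ha⟩ => hx (ha ▸ a.2)]
  rfl

section Op
variable {V : Type} [AddCommGroup V] [Module ℂ V]

/-- the averaging operator -/
def ctb_E (hK : K ≤ H) (ρ : Representation ℂ H V) (φ : G → ℂ) : V →ₗ[ℂ] V :=
  ∑ u ∈ @Finset.univ K (Fintype.ofFinite K), φ (u : G)⁻¹ • ρ ⟨u, hK u.2⟩

lemma ctb_trace [FiniteDimensional ℂ V] (hK : K ≤ H) (ρ : Representation ℂ H V)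
    (hρ : ∀ x : H, ρ.character x = f x) (φ : G → ℂ) (g : H) :
    LinearMap.trace ℂ V (ρ g * ctb_E hK ρ φ) = cSum K fun u => f (g * u) * φ u⁻¹ := by
  unfold ctb_E cSum
  rw [Finset.mul_sum, map_sum]
  refine Finset.sum_congr rfl fun u _ => ?_
  rw [mul_smul_comm, ← map_mul, map_smul, smul_eq_mul, mul_comm]
  congr 1
  exact hρ (g * ⟨u, hK u.2⟩)

lemma ctb_trace_one [FiniteDimensional ℂ V] (hK : K ≤ H) (ρ : Representation ℂ H V)
    (hρ : ∀ x : H, ρ.character x = f x) (φ : G → ℂ) :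
    LinearMap.trace ℂ V (ctb_E hK ρ φ) = cIp K f φ := by
  have := ctb_trace hK ρ hρ φ 1
  rw [map_one, one_mul] at this
  rw [this]
  exact cSum_congr fun x _ => by simp

lemma ctb_left (hK : K ≤ H) (ρ : Representation ℂ H V) {φ : G → ℂ}
    (hm : ∀ x ∈ K, ∀ y ∈ K, φ (x * y) = φ x * φ y) (a : H) (ha : a.1 ∈ K) :
    ρ a * ctb_E hK ρ φ = φ a • ctb_E hK ρ φ := by
  unfold ctb_E
  let _ := Fintype.ofFinite K
  rw [Finset.mul_sum, Finset.smul_sum]
  refine Fintype.sum_equiv (Equiv.mulLeft (⟨a, ha⟩ : K)) _ _ fun u => ?_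
  rw [mul_smul_comm, ← map_mul, smul_smul, mul_comm (φ a),
    ← hm _ (K.inv_mem (Equiv.mulLeft (⟨a, ha⟩ : K) u).2) _ ha]
  congr 2
  simp

lemma ctb_apply (hK : K ≤ H) (ρ : Representation ℂ H V) {φ : G → ℂ} (h1 : φ 1 = 1)
    (hm : ∀ x ∈ K, ∀ y ∈ K, φ (x * y) = φ x * φ y) {v : V}
    (he : ∀ x : H, x.1 ∈ K → ρ x v = φ x • v) : ctb_E hK ρ φ v = (Nat.card K : ℂ) • v := by
  unfold ctb_E
  let _ := Fintype.ofFinite K
  rw [LinearMap.sum_apply, Finset.sum_congr rfl (g := fun _ => v), Finset.sum_const,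
    Finset.card_univ, Nat.card_eq_fintype_card, Nat.cast_smul_eq_nsmul]
  intro u _
  rw [LinearMap.smul_apply, he _ u.2, smul_smul, ← hm _ (K.inv_mem u.2) _ u.2, inv_mul_cancel, h1,
    one_smul]

lemma ctb_sq (hK : K ≤ H) (ρ : Representation ℂ H V) {φ : G → ℂ} (h1 : φ 1 = 1)
    (hm : ∀ x ∈ K, ∀ y ∈ K, φ (x * y) = φ x * φ y) (w : V) :
    ctb_E hK ρ φ (ctb_E hK ρ φ w) = (Nat.card K : ℂ) • ctb_E hK ρ φ w :=
  ctb_apply hK ρ h1 hm fun x hx => LinearMap.congr_fun (ctb_left hK ρ hm x hx) w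

lemma ctb_nat [FiniteDimensional ℂ V] (E : V →ₗ[ℂ] V) {c : ℂ} (hc : c ≠ 0)
    (h : ∀ w, E (E w) = c • E w) :
    ∃ k : ℕ, LinearMap.trace ℂ V E = k * c ∧ (k = 0 → E = 0) := by
  have hp : LinearMap.IsProj (LinearMap.range E) (c⁻¹ • E) := by
    refine ⟨fun x => ?_, ?_⟩
    · exact Submodule.smul_mem _ _ (LinearMap.mem_range_self E x)
    · rintro _ ⟨w, rfl⟩
      rw [LinearMap.smul_apply, h, smul_smul, inv_mul_cancel₀ hc, one_smul]
  have ht := hp.trace
  rw [map_smul, smul_eq_mul] at ht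
  refine ⟨Module.finrank ℂ (LinearMap.range E), ?_, fun h0 => ?_⟩
  · rw [← ht]
    field_simp
  · exact LinearMap.range_eq_bot.1 (Submodule.finrank_eq_zero.1 h0)

lemma ctb_comm (hK : K ≤ H) (ρ : Representation ℂ H V)
    (hn : ∀ x ∈ H, ∀ u ∈ K, x * u * x⁻¹ ∈ K) (g : H) :
    ctb_E hK ρ (fun _ => 1) * ρ g = ρ g * ctb_E hK ρ fun _ => 1 := by
  unfold ctb_E
  let _ := Fintype.ofFinite K
  rw [Finset.mul_sum, Finset.sum_mul]
  symm
  refine Fintype.sum_bijective (fun u : K => (⟨g * u * (g : G)⁻¹, hn _ g.2 _ u.2⟩ : K))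
    (Finite.injective_iff_bijective.1 fun u v h => ?_) _ _ fun u => ?_
  · have := congrArg Subtype.val h
    exact Subtype.ext (by simpa using this)
  · rw [one_smul, one_smul, ← map_mul, ← map_mul]
    congr 1
    ext
    simp

end Op

lemma ctb_irr_sum (hK : K ≤ H) {χ : H → ℂ} (hχ : χ ∈ Irr H) :
    ∃ k : ℕ, cSum K (ctb_x H χ) = k * Nat.card K ∧
      (k = 0 → ∀ g ∈ H, cSum K (fun u => ctb_x H χ (g * u)) = 0) := by
  obtain ⟨V, _, _, _, ρ, -, rfl⟩ := mem_Irr.1 hχ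
  have hρ : ∀ x : H, ρ.character x = ctb_x H ρ.character x := fun x => (ctb_x_coe _ x).symm
  obtain ⟨k, h1, h2⟩ := ctb_nat (ctb_E hK ρ fun _ => 1) (ccard_ne K)
    (ctb_sq hK ρ rfl fun _ _ _ _ => (one_mul _).symm)
  refine ⟨k, ?_, fun h0 g hg => ?_⟩
  · rw [← h1, ctb_trace_one hK ρ hρ]
    exact cSum_congr fun x _ => (mul_one _).symm
  · have := ctb_trace hK ρ hρ (fun _ => 1) ⟨g, hg⟩
    rw [h2 h0, mul_zero, map_zero] at this
    rw [this]
    exact cSum_congr fun x _ => (mul_one _).symm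

lemma ctb_irr_av (hK : K ≤ H) (hn : ∀ x ∈ H, ∀ u ∈ K, x * u * x⁻¹ ∈ K) {χ : H → ℂ}
    (hχ : χ ∈ Irr H) :
    ∃ k : ℕ, ∀ g : H, cSum K (fun u => ctb_x H χ (g * u)) = Nat.card K * (k * χ g) := by
  obtain ⟨V, _, _, _, ρ, hi, rfl⟩ := mem_Irr.1 hχ
  have hρ : ∀ x : H, ρ.character x = ctb_x H ρ.character x := fun x => (ctb_x_coe _ x).symm
  obtain ⟨c, hc⟩ := MP_810665_al.schur hi (ctb_E hK ρ fun _ => 1) fun g v =>
    LinearMap.congr_fun (ctb_comm hK ρ hn g) v
  obtain ⟨v, hv⟩ := ((MP_810665_al.irreducible_iff ρ).1 hi).1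
  have h1 := ctb_sq hK ρ (φ := fun _ => 1) rfl (fun _ _ _ _ => (one_mul _).symm) v
  rw [hc, hc, smul_smul, smul_smul] at h1
  have h2 : c * c = Nat.card K * c := smul_left_injective ℂ hv h1
  have h3 : ∀ g : H, cSum K (fun u => ctb_x H ρ.character (g * u)) = c * ρ.character g := by
    intro g
    have h4 := ctb_trace hK ρ hρ (fun _ => 1) g
    have h5 : ρ g * ctb_E hK ρ (fun _ => 1) = c • ρ g := by
      ext w
      rw [Module.End.mul_apply, hc, map_smul, LinearMap.smul_apply]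
    rw [h5, map_smul, smul_eq_mul] at h4
    refine Eq.trans ?_ h4.symm
    exact cSum_congr fun x _ => (mul_one _).symm
  rcases eq_or_ne c 0 with h0 | h0
  · exact ⟨0, fun g => by rw [h3, h0]; simp⟩
  · exact ⟨1, fun g => by rw [h3, mul_right_cancel₀ h0 h2]; simp⟩

lemma ctb_sum {m : (H → ℂ) → ℕ} (hm : ∀ x : H, f x = ∑ χ ∈ Irr H, (m χ : ℂ) * χ x) (hK : K ≤ H)
    {g : G} (hg : g ∈ H) : cSum K (fun u => f (g * u)) =
      ∑ χ ∈ Irr H, (m χ : ℂ) * cSum K fun u => ctb_x H χ (g * u) := by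
  simp only [← cSum_mul]
  rw [← cSum_sum]
  refine cSum_congr fun u hu => ?_
  rw [hm ⟨g * u, H.mul_mem hg (hK hu)⟩]
  exact Finset.sum_congr rfl fun χ _ => by rw [← ctb_x_coe χ]

/-- linear characters -/
theorem irrOn_lin (H : Subgroup G) (φ : G → ℂ) (h1 : φ 1 = 1)
    (hm : ∀ x ∈ H, ∀ y ∈ H, φ (x * y) = φ x * φ y) : IrrOn H φ := by
  let ρ : Representation ℂ H ℂ :=
    { toFun := fun x => φ x • (1 : ℂ →ₗ[ℂ] ℂ)
      map_one' := by simp [h1]
      map_mul' := fun x y => by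
        rw [Subgroup.coe_mul, hm _ x.2 _ y.2, smul_mul_smul_comm, one_mul] }
  refine mem_Irr.2 ⟨ℂ, _, _, inferInstance, ρ, ?_, ?_⟩
  · rw [MP_810665_al.irreducible_iff]
    exact ⟨⟨1, one_ne_zero⟩, fun S _ => Ideal.eq_bot_or_top S⟩
  · ext g
    simp [Representation.character, ρ]

/-- no fixed vectors: the averaging operator vanishes -/
theorem ChOn.sum_zero (h : ChOn H f) (hK : K ≤ H) (h0 : cSum K f = 0) {g : G} (hg : g ∈ H) :
    cSum K (fun u => f (g * u)) = 0 := by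
  obtain ⟨m, hm⟩ := h
  have key : ∀ χ : H → ℂ, ∃ k : ℕ, χ ∈ Irr H → cSum K (ctb_x H χ) = k * Nat.card K ∧
      (k = 0 → ∀ g ∈ H, cSum K (fun u => ctb_x H χ (g * u)) = 0) := by
    intro χ
    by_cases hχ : χ ∈ Irr H
    · obtain ⟨k, hk⟩ := ctb_irr_sum hK hχ
      exact ⟨k, fun _ => hk⟩
    · exact ⟨0, fun h => absurd h hχ⟩
  choose k hk using key
  have h1 := ctb_sum hm hK H.one_mem
  simp only [one_mul] at h1
  have h2 : ((∑ χ ∈ Irr H, m χ * k χ : ℕ) : ℂ) * Nat.card K = 0 := by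
    rw [← h0]
    refine Eq.trans ?_ h1.symm
    push_cast
    rw [Finset.sum_mul]
    refine Finset.sum_congr rfl fun χ hχ => ?_
    rw [mul_assoc, ← (hk χ hχ).1]
  have h3 : ∑ χ ∈ Irr H, m χ * k χ = 0 := by
    exact_mod_cast (mul_eq_zero.1 h2).resolve_right (ccard_ne K)
  rw [ctb_sum hm hK hg]
  refine Finset.sum_eq_zero fun χ hχ => ?_
  rcases Nat.mul_eq_zero.1 (Finset.sum_eq_zero_iff.1 h3 χ hχ) with h4 | h4
  · rw [h4, Nat.cast_zero, zero_mul]
  · rw [(hk χ hχ).2 h4 g hg, mul_zero]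

/-- the character on the fixed vectors of a normal subgroup -/
theorem ChOn.av (h : ChOn H f) (hK : K ≤ H) (hn : ∀ x ∈ H, ∀ u ∈ K, x * u * x⁻¹ ∈ K) :
    ChOn H (cAv K f) := by
  obtain ⟨m, hm⟩ := h
  have key : ∀ χ : H → ℂ, ∃ k : ℕ, χ ∈ Irr H →
      ∀ g : H, cSum K (fun u => ctb_x H χ (g * u)) = Nat.card K * (k * χ g) := by
    intro χ
    by_cases hχ : χ ∈ Irr H
    · obtain ⟨k, hk⟩ := ctb_irr_av hK hn hχ
      exact ⟨k, fun _ => hk⟩
    · exact ⟨0, fun h => absurd h hχ⟩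
  choose k hk using key
  refine ⟨fun χ => m χ * k χ, fun g => ?_⟩
  unfold cAv
  rw [ctb_sum hm hK g.2, Finset.mul_sum]
  refine Finset.sum_congr rfl fun χ hχ => ?_
  have := ccard_ne K
  rw [hk χ hχ g]
  push_cast
  field_simp

/-- an eigenvector from a nonzero pairing -/
theorem eig_of_cIp (H : Subgroup G) (φ : G → ℂ) (h1 : φ 1 = 1)
    (hm : ∀ x ∈ H, ∀ y ∈ H, φ (x * y) = φ x * φ y) {χ : G → ℂ} (hχ : χ ∈ Irr G)
    (hne : cIp H χ φ ≠ 0) : f0cEig (H : Set G) φ χ := by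
  obtain ⟨V, _, _, _, ρ, hi, rfl⟩ := mem_Irr.1 hχ
  have h2 := ctb_trace_one (f := ρ.character) (le_refl H) (ρ.comp H.subtype) (fun _ => rfl) φ
  have h3 : ∃ w, ctb_E (le_refl H) (ρ.comp H.subtype) φ w ≠ 0 := by
    by_contra hw
    push Not at hw
    rw [LinearMap.ext hw (g := 0), map_zero] at h2
    exact hne h2.symm
  obtain ⟨w, hw⟩ := h3
  exact ⟨V, _, _, inferInstance, ρ, hi, rfl, _, hw, fun g hg =>
    LinearMap.congr_fun (ctb_left (le_refl H) (ρ.comp H.subtype) hm ⟨g, hg⟩ hg) w⟩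

/-- a nonzero pairing from an eigenvector -/
theorem cIp_of_eig (hK : K ≤ H) {V : Type} [AddCommGroup V] [Module ℂ V] [FiniteDimensional ℂ V]
    (ρ : Representation ℂ H V) (hρ : ∀ x : H, ρ.character x = f x) (φ : G → ℂ) (h1 : φ 1 = 1)
    (hm : ∀ x ∈ K, ∀ y ∈ K, φ (x * y) = φ x * φ y) {v : V} (hv : v ≠ 0)
    (he : ∀ x : H, x.1 ∈ K → ρ x v = φ x • v) : cIp K f φ ≠ 0 := by
  intro h0
  obtain ⟨k, h2, h3⟩ := ctb_nat (ctb_E hK ρ φ) (ccard_ne K) (ctb_sq hK ρ h1 hm)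
  rw [ctb_trace_one hK ρ hρ, h0] at h2
  have h4 : k = 0 := by
    exact_mod_cast (mul_eq_zero.1 h2.symm).resolve_right (ccard_ne K)
  have h5 := ctb_apply hK ρ h1 hm he
  rw [h3 h4, LinearMap.zero_apply] at h5
  exact hv ((smul_eq_zero.1 h5.symm).resolve_left (ccard_ne K))

/-- an irreducible character of a product of two commuting subgroups -/
theorem IrrOn.split (h : IrrOn H f) (ι : S →* G) (A : Subgroup S) (hA : ∀ a ∈ A, ι a ∈ H)
    (hK : K ≤ H) (hc : ∀ a ∈ A, ∀ k ∈ K, Commute (ι a) k)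
    (hs : ∀ g ∈ H, ∃ a ∈ A, ∃ k ∈ K, g = ι a * k) :
    ∃ (θ : S → ℂ) (θ' : G → ℂ), IrrOn A θ ∧ (∀ a, a ∉ A → θ a = 0) ∧ θ' 1 ≠ 0 ∧
      ∀ a ∈ A, ∀ k ∈ K, f (ι a * k) = θ a * θ' k := by
  let _ := Fintype.ofFinite A
  let _ := Fintype.ofFinite K
  let π : A × K →* H := MonoidHom.mk'
    (fun p => ⟨ι p.1 * p.2, H.mul_mem (hA _ p.1.2) (hK p.2.2)⟩) fun p q => by
      ext
      simp only [Prod.fst_mul, Prod.snd_mul, Subgroup.coe_mul, map_mul, mul_assoc]
      congr 1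
      rw [← mul_assoc, (hc _ q.1.2 _ p.2.2).eq, mul_assoc]
  have hπ : Function.Surjective π := fun g => by
    obtain ⟨a, ha, k, hk, e⟩ := hs g g.2
    exact ⟨(⟨a, ha⟩, ⟨k, hk⟩), Subtype.ext e.symm⟩
  obtain ⟨χ, hχ, ψ, hψ, e⟩ := MP_810665_al.exists_extMul
    (MP_810665_al.irrChar_comp π hπ (mem_Irr.1 h))
  refine ⟨ctb_x A χ, ctb_x K ψ, ?_, fun a ha => ctb_x_out _ ha, ?_, fun a ha k hk => ?_⟩
  · unfold IrrOn
    rw [funext (ctb_x_coe χ)]
    exact mem_Irr.2 hχ
  · obtain ⟨d, hd, h1⟩ := MP_810665_al.irr_one hψ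
    have := ctb_x_coe ψ 1
    rw [Subgroup.coe_one] at this
    rw [this, h1]
    exact_mod_cast hd.ne'
  · have := congrFun e (⟨a, ha⟩, ⟨k, hk⟩)
    exact this.trans (by rw [MP_810665_al.extMul, ← ctb_x_coe χ, ← ctb_x_coe ψ])

end Pool.Agent.MP_8299d6_al.Up

end
end

section

open Matrix

noncomputable section

namespace Pool.Agent.MP_8299d6_al.Up

open Pool.Agent.MP_810665_al (IrrChar)

variable {n : ℕ} {F : Type} [Field F] [Finite F] {c c' : Fin n → ℕ}
  {x y : GLn n F} {φ φ' : GLn n F → ℂ} {v w : Equiv.Perm (Fin n)}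

omit [Finite F] in
theorem cPm_val (w : Equiv.Perm (Fin n)) (i j : Fin n) :
    (cPm F w).1 i j = if i = w j then 1 else 0 := rfl

omit [Finite F] in
theorem cPm_inj : Function.Injective (cPm F : Equiv.Perm (Fin n) → GLn n F) := fun v w h => Equiv.ext fun j => by
  have := cPm_val (F := F) w (v j) j
  rw [← h, cPm_val, if_pos rfl] at this
  by_contra e
  exact one_ne_zero (this.trans (if_neg e))

omit [Finite F] in
theorem cCw_val (w : Equiv.Perm (Fin n)) (x : GLn n F) (i j : Fin n) :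
    (cCw w x).1 i j = x.1 (w i) (w j) := by
  simp [cCw, ← map_inv, mul_apply, cPm_val, Equiv.eq_symm_apply]

omit [Finite F] in
theorem cCw_mul (w : Equiv.Perm (Fin n)) (x y : GLn n F) :
    cCw w (x * y) = cCw w x * cCw w y := by
  simp only [cCw, mul_assoc, mul_inv_cancel_left]

omit [Finite F] in
theorem cCw_cCw (v w : Equiv.Perm (Fin n)) (x : GLn n F) :
    cCw w (cCw v x) = cCw (v * w) x := by
  simp only [cCw, map_mul, _root_.mul_inv_rev, mul_assoc]

omit [Finite F] in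
theorem cCw_one (x : GLn n F) : cCw 1 x = x := by
  simp [cCw]

omit [Finite F] in
theorem cmb_inv (w : Equiv.Perm (Fin n)) (x : GLn n F) : cCw w (cCw w⁻¹ x) = x := by
  rw [cCw_cCw, inv_mul_cancel, cCw_one]

theorem cmb_pat {R : Fin n → Fin n → Prop} {hR : ∀ i j k, R i j → R j k → R i k} :
    cCw w x ∈ cPat F R hR ↔
      x ∈ cPat F (fun i j => R (w.symm i) (w.symm j)) fun _ _ _ => hR _ _ _ := by
  simp only [mem_cPat, cCw_val]
  refine ⟨fun h i j e => ?_, fun h i j e => ?_⟩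
  · simpa [one_apply] using h _ _ e
  · simpa [one_apply] using h (w i) (w j) (by simpa using e)

theorem cPm_mem_cL : cPm F w ∈ cL F c ↔ ∀ i, c (w i) = c i := by
  rw [mem_cL]
  refine ⟨fun h i => by_contra fun e => ?_, fun h i j e => ?_⟩
  · exact one_ne_zero ((if_pos rfl).symm.trans (h _ i e))
  · exact if_neg fun e' : i = w j => e (e' ▸ h j)

theorem cCw_mem_cP : cCw w x ∈ cP F c ↔ x ∈ cP F (c ∘ w.symm) := cmb_pat

theorem cCw_mem_cL : cCw w x ∈ cL F c ↔ x ∈ cL F (c ∘ w.symm) := cmb_pat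

theorem cCw_mem_cN : cCw w x ∈ cN F c ↔ x ∈ cN F (c ∘ w.symm) := cmb_pat

theorem cCw_mem_cR {S : Set (Fin n)} : cCw w x ∈ cR F S ↔ x ∈ cR F (w '' S) := by
  refine cmb_pat.trans ?_
  simp only [mem_cPat, mem_cR, Set.mem_image_equiv]

theorem cCj_cP (w : Equiv.Perm (Fin n)) (c : Fin n → ℕ) :
    cCj (cPm F w) (cP F c) = cP F (c ∘ w.symm) := Subgroup.ext fun _ => mem_cCj.trans cCw_mem_cP

theorem cPr_cCw (w : Equiv.Perm (Fin n)) (c : Fin n → ℕ) (x : GLn n F) :
    cPr c (cCw w x) = cCw w (cPr (c ∘ w.symm) x) := by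
  by_cases h : x ∈ cP F (c ∘ w.symm)
  · ext i j
    simp [cPr_val (cCw_mem_cP.2 h), cCw_val, cPr_val h]
  · rw [cPr, cPr, dif_neg h, dif_neg fun e => h (cCw_mem_cP.1 e), cCw, mul_one, inv_mul_cancel]

theorem Cusp.perm (hφ : Cusp c φ) (w : Equiv.Perm (Fin n)) :
    Cusp (c ∘ w.symm) fun x => φ (cCw w x) := by
  refine ⟨hφ.irr.map _ (fun _ => cCw_mem_cL.2) (fun x _ y _ => cCw_mul w x y) fun y hy =>
    ⟨cCw w⁻¹ y, cCw_mem_cL.1 ((cmb_inv w y).symm ▸ hy), cmb_inv w y⟩,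
    fun g hg => hφ.zero _ fun e => hg (cCw_mem_cL.1 e), fun d ⟨i, j, h1, h2⟩ g hg => ?_⟩
  have e : (d ∘ w) ∘ w.symm = d := funext fun k => congrArg d (w.apply_symm_apply k)
  rw [← hφ.van (d ∘ w) ⟨w.symm i, w.symm j, h1, by simpa using h2⟩ _ (cCw_mem_cL.2 hg)]
  simp only [cCw_mul]
  exact cSum_bij (K := _ ⊓ _) (H := _ ⊓ _) (cCw w) (fun x hx => ⟨cCw_mem_cL.2 hx.1, cCw_mem_cN.2 (e.symm ▸ hx.2)⟩)
    (fun x _ y _ h => mul_left_cancel (mul_right_cancel h))
    (fun y hy => ⟨cCw w⁻¹ y, ⟨cCw_mem_cL.1 ((cmb_inv w y).symm ▸ hy.1),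
      e ▸ cCw_mem_cN.1 ((cmb_inv w y).symm ▸ hy.2)⟩, cmb_inv w y⟩) fun u => φ (cCw w g * u)

/-- a permutation inside the Levi subgroup fixes the character -/
theorem Cusp.perm_eq (hφ : Cusp c φ) (hv : ∀ i, c (v i) = c i) (x : GLn n F) :
    φ (cCw v x) = φ x := by
  have h := cPm_mem_cL (F := F).2 hv
  by_cases hx : x ∈ cL F c
  · simpa only [inv_inv, cCw] using hφ.irr.chOn.conj hx (inv_mem h)
  · rw [hφ.zero x hx, hφ.zero _ fun e => hx ?_]
    simpa [cCw, mul_assoc] using mul_mem (mul_mem h e) (inv_mem h)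

/-- the Mackey term at a permutation matrix -/
theorem cT_cPm (c c' : Fin n → ℕ) (φ φ' : GLn n F → ℂ) (w : Equiv.Perm (Fin n)) :
    cT (cP F c) (cP F c') (cF c φ) (cF c' φ') (cPm F w) =
      cIp (cP F c ⊓ cP F (c' ∘ w.symm)) (cF c φ) (cF (c' ∘ w.symm) fun x => φ' (cCw w x)) := by
  rw [cT, cCj_cP]
  exact congrArg _ (funext fun x => congrArg φ' (cPr_cCw w c' x))

end Pool.Agent.MP_8299d6_al.Up

end
end

section

open Matrix

noncomputable section

namespace Pool.Agent.MP_8299d6_al.Up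

open Pool.Agent.MP_810665_al (IrrChar)

variable {n b : ℕ} {F : Type} [Field F] [Finite F] {c : Fin n → ℕ}
  {e : Fin b ↪ Fin n} {x : GLn n F} {y : GLn b F}

omit [Finite F] in
theorem cemb_coe (e : Fin b ↪ Fin n) (y : GLn b F) :
    (cEmb e y).1 = 1 + cEm F e * (y.1 - 1) * (cEm F e)ᵀ := rfl

omit [Finite F] in
theorem cemb_one (e : Fin b ↪ Fin n) (i j : Fin b) :
    (1 : Mat n F) (e i) (e j) = (1 : Mat b F) i j := by
  simp [one_apply]

omit [Finite F] in
theorem cemb_ext (e : Fin b ↪ Fin n) {g g' : GLn n F}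
    (h1 : ∀ i j, g.1 (e i) (e j) = g'.1 (e i) (e j))
    (h2 : ∀ i j, ¬ (i ∈ Set.range e ∧ j ∈ Set.range e) → g.1 i j = g'.1 i j) : g = g' := by
  ext i j
  by_cases h : i ∈ Set.range e ∧ j ∈ Set.range e
  · obtain ⟨⟨k, rfl⟩, l, rfl⟩ := h
    exact h1 k l
  · exact h2 i j h

theorem cemb_sub (hx : x ∈ cR F (Set.range e)) (B : Mat n F) :
    (x.1 * B).submatrix e e = x.1.submatrix e e * B.submatrix e e := by
  ext i j
  simp only [submatrix_apply, mul_apply]
  refine (Fintype.sum_of_injective e e.injective _ _ (fun k hk => ?_) fun k => rfl).symm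
  rw [hx _ _ fun h => hk h.2, one_apply_ne fun h => hk ⟨i, h⟩, zero_mul]

theorem cemb_zero {S : Set (Fin n)} {x x' : GLn n F} (hx : x ∈ cR F S) (hx' : x' ∈ cR F Sᶜ) :
    (x.1 - 1) * (x'.1 - 1) = 0 := by
  ext i j
  rw [mul_apply]
  refine Finset.sum_eq_zero fun k _ => ?_
  by_cases h : k ∈ S
  · rw [Matrix.sub_apply x'.1, hx' k j fun h1 => h1.1 h, sub_self, mul_zero]
  · rw [Matrix.sub_apply x.1, hx i k fun h1 => h h1.2, sub_self, zero_mul]

open Classical in
/-- the part of a matrix on a set of indices -/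
def cemb_rs (S : Set (Fin n)) (A : Mat n F) : Mat n F :=
  of fun i j => if i ∈ S ∧ j ∈ S then A i j else (1 : Mat n F) i j

omit [Finite F] in
theorem cemb_rs_mul (S : Set (Fin n)) (A : Mat n F) (h : ∀ i j, ¬ (i ∈ S ↔ j ∈ S) → A i j = 0) :
    cemb_rs S A * cemb_rs Sᶜ A = A := by
  ext i j
  by_cases hi : i ∈ S
  · conv_rhs => rw [← mul_one A]
    rw [mul_apply, mul_apply]
    refine Finset.sum_congr rfl fun k _ => ?_
    by_cases hk : k ∈ S
    · simp [cemb_rs, hi, hk]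
    · have h1 : i ≠ k := fun h1 => hk (h1 ▸ hi)
      simp [cemb_rs, hk, h i k fun h2 => hk (h2.1 hi), h1]
  · rw [mul_apply, Finset.sum_eq_single i]
    · by_cases hj : j ∈ S
      · have h1 : i ≠ j := fun h1 => hi (h1 ▸ hj)
        simp [cemb_rs, hj, h i j fun h2 => hi (h2.2 hj), h1]
      · simp [cemb_rs, hi, hj]
    · intro k _ hk
      simp [cemb_rs, hi, hk.symm]
    · simp

omit [Finite F] in
theorem cEmb_val (e : Fin b ↪ Fin n) (y : GLn b F) (i j : Fin b) :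
    (cEmb e y).1 (e i) (e j) = y.1 i j := by
  rw [cemb_coe, Matrix.add_apply, cemb_one]
  simp [mul_apply, cEm]

omit [Finite F] in
theorem cEmb_out (e : Fin b ↪ Fin n) (y : GLn b F) {i j : Fin n}
    (h : ¬ (i ∈ Set.range e ∧ j ∈ Set.range e)) : (cEmb e y).1 i j = (1 : Mat n F) i j := by
  rw [cemb_coe, Matrix.add_apply, add_eq_left, mul_apply]
  refine Finset.sum_eq_zero fun l _ => ?_
  by_cases hj : j = e l
  · rw [mul_apply, Finset.sum_eq_zero, zero_mul]
    intro k _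
    have hi : i ≠ e k := fun hi => h ⟨⟨k, hi.symm⟩, ⟨l, hj.symm⟩⟩
    simp [cEm, hi]
  · simp [cEm, hj]

theorem cEmb_mem_cR (e : Fin b ↪ Fin n) (y : GLn b F) : cEmb e y ∈ cR F (Set.range e) := by
  exact fun i j h => cEmb_out e y h

omit [Finite F] in
theorem cEmb_inj (e : Fin b ↪ Fin n) : Function.Injective (cEmb e : GLn b F → GLn n F) := by
  intro y y' h
  ext i j
  rw [← cEmb_val e y, ← cEmb_val e y', h]

theorem exists_cEmb (hx : x ∈ cR F (Set.range e)) : ∃ y : GLn b F, cEmb e y = x := by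
  refine ⟨⟨x.1.submatrix e e, (x⁻¹).1.submatrix e e, ?_, ?_⟩, cemb_ext e (fun i j => ?_) ?_⟩
  · rw [← cemb_sub hx, Units.mul_inv, submatrix_one _ e.injective]
  · rw [← cemb_sub (inv_mem hx), Units.inv_mul, submatrix_one _ e.injective]
  · rw [cEmb_val]
    rfl
  · intro i j h
    rw [cEmb_out e _ h, hx i j h]

theorem cemb_pat (R : Fin n → Fin n → Prop) (hR : ∀ i j k, R i j → R j k → R i k) :
    cEmb e y ∈ cPat F R hR ↔ y ∈ cPat F (fun i j => R (e i) (e j)) fun _ _ _ => hR _ _ _ := by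
  refine ⟨fun h i j hij => ?_, fun h i j hij => ?_⟩
  · rw [← cEmb_val e, h _ _ hij, cemb_one]
  · by_cases h1 : i ∈ Set.range e ∧ j ∈ Set.range e
    · obtain ⟨⟨k, rfl⟩, l, rfl⟩ := h1
      rw [cEmb_val, h k l hij, cemb_one]
    · exact cEmb_out e y h1

theorem cEmb_mem_cP : cEmb e y ∈ cP F c ↔ y ∈ cP F (c ∘ e) := by
  exact cemb_pat _ _

theorem cEmb_mem_cL : cEmb e y ∈ cL F c ↔ y ∈ cL F (c ∘ e) := by
  exact cemb_pat _ _

theorem cEmb_mem_cN : cEmb e y ∈ cN F c ↔ y ∈ cN F (c ∘ e) := by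
  exact cemb_pat _ _

theorem cPr_cEmb (c : Fin n → ℕ) (e : Fin b ↪ Fin n) (y : GLn b F) :
    cPr c (cEmb e y) = cEmb e (cPr (c ∘ e) y) := by
  by_cases h : y ∈ cP F (c ∘ e)
  · refine cemb_ext e (fun i j => ?_) fun i j hij => ?_
    · rw [cPr_val (cEmb_mem_cP.2 h), cEmb_val, cEmb_val, cPr_val h]
      rfl
    · rw [cPr_val (cEmb_mem_cP.2 h), cEmb_out e _ hij, cEmb_out e _ hij]
      split_ifs with h1
      · rfl
      · rw [one_apply_ne fun h2 => h1 (congrArg c h2)]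
  · rw [cPr, cPr, dif_neg h, dif_neg fun h' => h (cEmb_mem_cP.1 h'), map_one]

omit [Finite F] in
theorem cCw_cEmb {w : Equiv.Perm (Fin n)} {v : Equiv.Perm (Fin b)} (h : ∀ i, w (e i) = e (v i))
    (y : GLn b F) : cCw w (cEmb e y) = cEmb e (cCw v y) := by
  have h1 : ∀ i, w i ∈ Set.range e → i ∈ Set.range e := by
    rintro i ⟨k, hk⟩
    refine ⟨v.symm k, w.injective ?_⟩
    rw [h, Equiv.apply_symm_apply, hk]
  refine cemb_ext e (fun i j => ?_) fun i j hij => ?_
  · rw [cCw_val, h, h, cEmb_val, cEmb_val, cCw_val]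
  · rw [cCw_val, cEmb_out e _ hij, cEmb_out e _ fun h2 => hij ⟨h1 i h2.1, h1 j h2.2⟩]
    simp [one_apply]

theorem cR_mono {S T : Set (Fin n)} (h : S ⊆ T) : cR F S ≤ cR F T := by
  exact fun x hx i j hij => hx i j fun h1 => hij ⟨h h1.1, h h1.2⟩

theorem cR_inf (S T : Set (Fin n)) : cR F S ⊓ cR F T = cR F (S ∩ T) := by
  refine le_antisymm (fun x hx i j hij => ?_)
    (le_inf (cR_mono Set.inter_subset_left) (cR_mono Set.inter_subset_right))
  by_cases h : i ∈ S ∧ j ∈ S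
  · exact hx.2 i j fun h1 => hij ⟨⟨h.1, h1.1⟩, h.2, h1.2⟩
  · exact hx.1 i j h

theorem cR_univ : cR F (Set.univ : Set (Fin n)) = ⊤ := by
  exact eq_top_iff.2 fun x _ i j h => absurd ⟨trivial, trivial⟩ h

theorem cR_empty : cR F (∅ : Set (Fin n)) = ⊥ := by
  refine eq_bot_iff.2 fun x hx => Subgroup.mem_bot.2 ?_
  ext i j
  exact hx i j fun h => h.1

theorem cR_le_cL (c : Fin n → ℕ) (i : Fin n) : cR F {j | c j = c i} ≤ cL F c := by
  exact fun x hx a d h => hx a d fun h1 => h (Eq.trans h1.1 (Eq.symm h1.2))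

theorem cR_commute {S : Set (Fin n)} {x x' : GLn n F} (hx : x ∈ cR F S) (hx' : x' ∈ cR F Sᶜ) :
    Commute x x' := by
  have h1 := cemb_zero hx hx'
  have h2 := cemb_zero hx' (by rwa [compl_compl])
  refine Units.ext ?_
  rw [Units.val_mul, Units.val_mul]
  have h3 : x.1 * x'.1 - x'.1 * x.1 = (x.1 - 1) * (x'.1 - 1) - (x'.1 - 1) * (x.1 - 1) := by
    noncomm_ring
  rw [h1, h2, sub_self] at h3
  exact sub_eq_zero.1 h3

/-- splitting an element of the Levi subgroup along a union of blocks -/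
theorem cL_split {S : Set (Fin n)} (hS : Un c S) (hx : x ∈ cL F c) :
    ∃ a ∈ cL F c ⊓ cR F S, ∃ a' ∈ cL F c ⊓ cR F Sᶜ, x = a * a' := by
  have h0 : ∀ i j, ¬ (i ∈ S ↔ j ∈ S) → x.1 i j = 0 := fun i j h =>
    mem_cL.1 hx i j fun h1 => h ⟨hS i j h1, hS j i h1.symm⟩
  have h1 := cemb_rs_mul S x.1 h0
  have h2 : IsUnit ((cemb_rs S x.1).det * (cemb_rs Sᶜ x.1).det) := by
    rw [← det_mul, h1, ← isUnit_iff_isUnit_det]
    exact x.isUnit
  have h3 : ∀ (T : Set (Fin n)) (u : GLn n F), u.1 = cemb_rs T x.1 → u ∈ cL F c ⊓ cR F T := by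
    intro T u hu
    refine ⟨fun i j h => ?_, fun i j h => ?_⟩
    · rw [hu, cemb_rs, of_apply]
      split_ifs
      · exact hx i j h
      · rfl
    · rw [hu, cemb_rs, of_apply, if_neg h]
  obtain ⟨a, ha⟩ := (isUnit_iff_isUnit_det _).2 (isUnit_of_mul_isUnit_left h2)
  obtain ⟨a', ha'⟩ := (isUnit_iff_isUnit_det _).2 (isUnit_of_mul_isUnit_right h2)
  exact ⟨a, h3 _ _ ha, a', h3 _ _ ha', Units.ext (by rw [Units.val_mul, ha, ha', h1])⟩

theorem cD_apply (e : Fin b ↪ Fin n) (i : Fin b) : cD e (e i) = i.1 + 1 := by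
  exact e.injective.extend_apply _ _ i

theorem cD_out {i : Fin n} (h : i ∉ Set.range e) : cD e i = 0 := by
  exact Function.extend_apply' _ _ _ h

omit [Finite F] in
theorem cPsi_cEmb (ψ : AddChar F ℂ) (e : Fin b ↪ Fin n) (y : GLn b F) :
    cPsi ψ (cD e) (cEmb e y) = cPsi ψ (cU b) y := by
  unfold cPsi
  congr 1
  refine (Fintype.sum_of_injective e e.injective _ _ (fun i hi => ?_) fun i => ?_).symm
  · exact Finset.sum_eq_zero fun j _ => if_neg fun h => by rw [cD_out hi] at h; omega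
  · refine Fintype.sum_of_injective e e.injective _ _ (fun j hj => ?_) fun j => ?_
    · exact if_neg fun h => by rw [cD_out hj] at h; omega
    · rw [cD_apply, cD_apply, cEmb_val]
      rfl

end Pool.Agent.MP_8299d6_al.Up

end
end

section

open Matrix

noncomputable section

namespace Pool.Agent.MP_8299d6_al.Up

open Pool.Agent.MP_810665_al (IrrChar)

variable {n b : ℕ} {F : Type} [Field F] [Finite F]

lemma cdeg_ex (e : Fin b ↪ Fin n) {r : Fin n} (h : 0 < cD e r) : ∃ i, r = e i := by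
  by_contra hc
  rw [cD_out fun ⟨i, hi⟩ => hc ⟨i, hi.symm⟩] at h
  exact lt_irrefl _ h

lemma cdeg_inj (e : Fin b ↪ Fin n) {r l : Fin n} (h : 0 < cD e r) (h' : cD e r = cD e l) :
    r = l := by
  obtain ⟨i, rfl⟩ := cdeg_ex e h
  obtain ⟨j, rfl⟩ := cdeg_ex e (h' ▸ h)
  rw [cD_apply, cD_apply] at h'
  exact congrArg e (Fin.ext (by omega))

lemma cdeg_le (e : Fin b ↪ Fin n) (r : Fin n) : cD e r ≤ b := by
  rcases Nat.eq_zero_or_pos (cD e r) with h | h
  · omega
  · obtain ⟨i, rfl⟩ := cdeg_ex e h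
    rw [cD_apply]
    exact i.2

lemma cdeg_mem {d : Fin n → ℕ} {s : Fin n} {v : Fin n → F} (hv : ∀ i, d s ≤ d i → v i = 0) :
    f0aU s (Multiplicative.ofAdd v) ∈ cN F d := mem_cN.2 fun i j h => by
  rw [f0aU_val, Function.update_eq_self_iff.2 (hv s le_rfl).symm, Matrix.add_apply,
    vecMulVec_apply]
  by_cases hj : j = s
  · rw [hv i (hj ▸ h), zero_mul, add_zero]
  · rw [Pi.single_eq_of_ne hj, mul_zero, add_zero]

omit [Finite F] in
lemma cdeg_psi (ψ : AddChar F ℂ) (e : Fin b ↪ Fin n) {r s : Fin n} (hr : 0 < cD e r)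
    (hs : cD e s = cD e r + 1) (v : Fin n → F) :
    cPsi ψ (cD e) (f0aU s (Multiplicative.ofAdd v)) = ψ (v r) := by
  have hrs : r ≠ s := fun h => by rw [h] at hs; omega
  rw [cPsi, Finset.sum_eq_single r, Finset.sum_eq_single s, if_pos ⟨hr, hs⟩, f0aU_val,
    Matrix.add_apply, vecMulVec_apply, one_apply_ne hrs, Function.update_of_ne hrs,
    Pi.single_eq_same, mul_one, zero_add]
  · exact fun j _ hj => if_neg fun h => hj (cdeg_inj e (by omega) (by omega))
  · simp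
  · refine fun i _ hi => Finset.sum_eq_zero fun j _ => ?_
    split_ifs with h
    · have h1 : i ≠ j := fun h1 => by rw [h1] at h; omega
      have h2 : j ≠ s := fun h2 => hi (cdeg_inj e h.1 (by rw [h2] at h; omega))
      rw [f0aU_val, Matrix.add_apply, vecMulVec_apply, one_apply_ne h1, Pi.single_eq_of_ne h2,
        mul_zero, add_zero]
    · rfl
  · simp

/-- the relation of the mirabolic part -/
def cdeg_R (e : Fin b ↪ Fin n) (r l : Fin n) : Prop := 0 < cD e r ∧ cD e r < b ∧ cD e l ≤ cD e r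

/-- the group of irrelevant elements -/
def cdeg_M (F : Type) [Field F] [Finite F] (e : Fin b ↪ Fin n) : Subgroup (GLn n F) :=
  cPat F (cdeg_R e) fun _ _ _ h h' => ⟨h.1, h.2.1, h'.2.2.trans h.2.2⟩

lemma cdeg_one {ψ : AddChar F ℂ} (hψ : ψ.IsPrimitive) (e : Fin b ↪ Fin n) {g : GLn n F}
    (hg : g ∈ cdeg_M F e) (h : Relv (cN F (cD e) : Set (GLn n F)) (cPsi ψ (cD e)) g) : g = 1 := by
  classical
  by_contra hc
  obtain ⟨r, hr, hmax⟩ := Finset.exists_max_image
    (Finset.univ.filter fun r => ∃ l, g.1 r l ≠ (1 : Mat n F) r l) (cD e) (by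
      by_contra h0
      refine hc (Units.ext (Matrix.ext fun r l => by_contra fun h1 => h0 ⟨r, ?_⟩))
      exact Finset.mem_filter.2 ⟨Finset.mem_univ _, l, h1⟩)
  obtain ⟨l, hl⟩ := (Finset.mem_filter.1 hr).2
  have hrow : ∀ k, cD e r < cD e k → ∀ j, g.1 k j = (1 : Mat n F) k j := fun k hk j => by
    by_contra h1
    exact absurd (hmax k (Finset.mem_filter.2 ⟨Finset.mem_univ _, j, h1⟩)) (not_le.2 hk)
  obtain ⟨h1, h2, h3⟩ : cdeg_R e r l := by_contra fun h1 => hl (mem_cPat.1 hg r l h1)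
  obtain ⟨s, hs⟩ : ∃ s, cD e s = cD e r + 1 := ⟨e ⟨cD e r, h2⟩, cD_apply e _⟩
  have hne : ∀ i, cD e s ≤ cD e i → i ≠ l := fun i hi h4 => by rw [h4] at hi; omega
  have hg1 : Pi.single s 1 ᵥ* g.1 = (1 : F) • Pi.single s 1 := by
    ext j
    rw [single_one_vecMul, one_smul, Matrix.row_apply, hrow s (by omega), one_apply,
      Pi.single_apply]
    exact if_congr eq_comm rfl rfl
  refine hψ (sub_ne_zero.2 hl) (AddChar.ext _ _ fun t => ?_)
  have h4 := f0a_conj one_ne_zero hg1 (Pi.single l t)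
  have h6 : Function.update (Pi.single l t : Fin n → F) s 0 = Pi.single l t :=
    Function.update_eq_self_iff.2 (by rw [Pi.single_eq_of_ne (hne s le_rfl)])
  rw [inv_one, one_smul, h6] at h4
  have h5 := h (f0aU s (Multiplicative.ofAdd (g.1 *ᵥ Pi.single l t))) (cdeg_mem fun i hi => by
      rw [mulVec_single, Pi.smul_apply, Matrix.col_apply, hrow i (by omega),
        one_apply_ne (hne i hi), smul_zero])
    (f0aU s (Multiplicative.ofAdd (-Pi.single l t))) (cdeg_mem fun i hi => by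
      rw [Pi.neg_apply, Pi.single_eq_of_ne (hne i hi), neg_zero])
    (by rw [← h4, ofAdd_neg, map_inv, mul_inv_cancel_right])
  rw [cdeg_psi ψ e h1 hs, cdeg_psi ψ e h1 hs, ← AddChar.map_add_eq_mul] at h5
  rw [AddChar.mulShift_apply, AddChar.one_apply, ← h5]
  congr 1
  rw [mulVec_single, Pi.smul_apply, Matrix.col_apply, Pi.neg_apply, Pi.single_apply, one_apply]
  split_ifs <;> simp [add_mul, sub_eq_add_neg]

open Classical in
/-- the allowed entries -/
def cdeg_s (F : Type) [Field F] [Fintype F] (e : Fin b ↪ Fin n) (r l : Fin n) : Finset F :=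
  if cdeg_R e r l then (if l = r then Finset.univ.erase 0 else Finset.univ)
  else {(1 : Mat n F) r l}

omit [Finite F] in
lemma cdeg_unit [Fintype F] (e : Fin b ↪ Fin n) {A : Mat n F}
    (hA : ∀ r l, A r l ∈ cdeg_s F e r l) :
    IsUnit A ∧ ∀ r l, ¬ cdeg_R e r l → A r l = (1 : Mat n F) r l := by
  classical
  have h1 : ∀ r l, ¬ cdeg_R e r l → A r l = (1 : Mat n F) r l := fun r l h => by
    have := hA r l
    rwa [cdeg_s, if_neg h, Finset.mem_singleton] at this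
  have h2 : ∀ r, A r r ≠ 0 := fun r => by
    by_cases h : cdeg_R e r r
    · have := hA r r
      rw [cdeg_s, if_pos h, if_pos rfl] at this
      exact Finset.ne_of_mem_erase this
    · rw [h1 r r h, one_apply_eq]
      exact one_ne_zero
  refine ⟨mulVec_injective_iff_isUnit.1 ((injective_iff_map_eq_zero A.mulVecLin).2 fun v hv => ?_),
    h1⟩
  have key : ∀ k r, cD e r = k → v r = 0 := by
    intro k
    induction k using Nat.strong_induction_on with
    | _ k ih =>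
      intro r hr
      have h3 : ∑ l, A r l * v l = 0 := congrFun hv r
      rw [Finset.sum_eq_single r] at h3
      · exact (mul_eq_zero.1 h3).resolve_left (h2 r)
      · intro l _ hl
        by_cases h : cdeg_R e r l
        · rw [ih _ (lt_of_le_of_ne (hr ▸ h.2.2) fun h4 =>
            hl (cdeg_inj e h.1 (hr.trans h4.symm)).symm) l rfl, mul_zero]
        · rw [h1 r l h, one_apply_ne' hl, zero_mul]
      · simp
  exact funext fun r => key _ r rfl

open Classical in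
lemma cdeg_cnt (e : Fin b ↪ Fin n) :
    cE b n ≤ ∑ r, (Finset.univ.filter (cdeg_R e r)).card := by
  calc cE b n ≤ ∑ j ∈ (Finset.univ.filter fun r => 0 < cD e r ∧ cD e r < b).image
        (fun r => b - 1 - cD e r), (n - 1 - j) := by
        refine Finset.sum_le_sum_of_subset fun j hj => ?_
        have hj' := Finset.mem_range.1 hj
        have h1 := cD_apply e ⟨b - 2 - j, by omega⟩
        dsimp only at h1
        exact Finset.mem_image.2 ⟨e ⟨b - 2 - j, by omega⟩,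
          Finset.mem_filter.2 ⟨Finset.mem_univ _, by omega, by omega⟩, by omega⟩
    _ ≤ ∑ r ∈ Finset.univ.filter fun r => 0 < cD e r ∧ cD e r < b, (n - 1 - (b - 1 - cD e r)) :=
        Finset.sum_image_le_of_nonneg fun _ _ => Nat.zero_le _
    _ ≤ ∑ r ∈ Finset.univ.filter fun r => 0 < cD e r ∧ cD e r < b,
        (Finset.univ.filter (cdeg_R e r)).card := by
        refine Finset.sum_le_sum fun r hr => ?_
        obtain ⟨h1, h2⟩ := (Finset.mem_filter.1 hr).2
        have h3 := Finset.card_filter_add_card_filter_not (s := Finset.univ) (cdeg_R e r)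
        have h4 : (Finset.univ.filter fun l => ¬ cdeg_R e r l).card ≤
            (Finset.Ioc (cD e r) b).card := by
          have h5 : ∀ l ∈ Finset.univ.filter fun l => ¬ cdeg_R e r l, cD e r < cD e l :=
            fun l hl => not_le.1 fun h => (Finset.mem_filter.1 hl).2 ⟨h1, h2, h⟩
          exact Finset.card_le_card_of_injOn (cD e)
            (fun l hl => Finset.mem_coe.2 (Finset.mem_Ioc.2 ⟨h5 l hl, cdeg_le e l⟩))
            fun l hl l' _ h => cdeg_inj e (h1.trans (h5 l hl)) h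
        rw [Nat.card_Ioc] at h4
        rw [Finset.card_univ, Fintype.card_fin] at h3
        omega
    _ ≤ _ := Finset.sum_le_sum_of_subset (Finset.filter_subset _ _)

omit [Finite F] in
open Classical in
lemma cdeg_row [Fintype F] (e : Fin b ↪ Fin n) (r : Fin n) :
    Fintype.card F ^ (Finset.univ.filter (cdeg_R e r)).card ≤
      2 * ∏ l, (cdeg_s F e r l).card := by
  have h1 : ∏ l, (if l = r then 2 else 1) = 2 := by simp
  have h2 := Fintype.one_lt_card (α := F)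
  rw [← Finset.prod_const, Finset.prod_filter, ← h1, ← Finset.prod_mul_distrib]
  refine Finset.prod_le_prod' fun l _ => ?_
  unfold cdeg_s
  split_ifs
  · rw [Finset.card_erase_of_mem (Finset.mem_univ _), Finset.card_univ]
    omega
  · rw [Finset.card_univ, one_mul]
  · simp
  · simp

/-- a degenerate Whittaker vector forces a large degree -/
theorem whit_deg {ψ : AddChar F ℂ} (hψ : ψ.IsPrimitive) (e : Fin b ↪ Fin n) {χ : GLn n F → ℂ}
    (hχ : f0cEig (cN F (cD e) : Set (GLn n F)) (cPsi ψ (cD e)) χ) :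
    (Nat.card F : ℝ) ^ cE b n ≤ 2 ^ n * ‖χ 1‖ := by
  classical
  have := Fintype.ofFinite F
  have := Fintype.ofFinite (GLn n F)
  let X := Fintype.piFinset fun r => Fintype.piFinset fun l => cdeg_s F e r l
  have hX : ∀ x : X, ∀ r l, x.1 r l ∈ cdeg_s F e r l := fun x r l =>
    Fintype.mem_piFinset.1 (Fintype.mem_piFinset.1 x.2 r) l
  choose t ht using fun x : X => (cdeg_unit e (A := x.1) (hX x)).1
  have hM : ∀ x, t x ∈ cdeg_M F e := fun x => mem_cPat.2 fun r l h => by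
    rw [ht]
    exact (cdeg_unit e (A := x.1) (hX x)).2 r l h
  have key := eig_deg _ _ hχ t fun i j h => by
    have h1 := inv_mul_eq_one.1 (cdeg_one hψ e (mul_mem (inv_mem (hM i)) (hM j)) h)
    exact Subtype.ext ((ht i).symm.trans ((congrArg Units.val h1).trans (ht j)))
  have h1 : Fintype.card F ^ cE b n ≤ 2 ^ n * Fintype.card X := by
    rw [Fintype.card_coe, Fintype.card_piFinset]
    simp only [Fintype.card_piFinset]
    refine (Nat.pow_le_pow_right Fintype.card_pos (cdeg_cnt e)).trans ?_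
    rw [← Finset.prod_pow_eq_pow_sum]
    refine (Finset.prod_le_prod' fun r _ => cdeg_row e r).trans ?_
    rw [Finset.prod_mul_distrib, Finset.prod_const, Finset.card_univ, Fintype.card_fin]
  rw [Nat.card_eq_fintype_card]
  refine le_trans ?_ (mul_le_mul_of_nonneg_left key (by positivity))
  exact_mod_cast h1

end Pool.Agent.MP_8299d6_al.Up

end
end
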