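import Pool.Agent.Mg.X8299d6.Gfa7afb
import Pool.Agent.Mg.X8299d6.Gc66611
import Pool.Agent.Mg.X8299d6.G74aea6
import Pool.Agent.Mg.X8299d6.G6efaac
import Pool.Agent.Mg.X8299d6.Ge1a818
import Pool.Agent.Mg.X8299d6.G03b36b
import Pool.Agent.Mg.X8299d6.Gbd1b02
import Pool.Agent.Mg.X8299d6.G72099e

section

open Matrix

noncomputable section

namespace Pool.Agent.MP_8299d6_al.Up

open Pool.Agent.MP_810665_al (IrrChar)

section

variable {ι : Type} (d : ι → ℕ) (K : ι → Type) [∀ i, Field (K i)]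

/-- strictly upper triangular matrices -/
def hdsemiU : NonUnitalSubring (∀ i, Mat (d i) (K i)) where
  carrier := {x | ∀ i a b, b ≤ a → x i a b = 0}
  zero_mem' := fun _ _ _ _ => rfl
  add_mem' := fun {x y} hx hy i a b h => by
    rw [Pi.add_apply, Matrix.add_apply, hx i a b h, hy i a b h, add_zero]
  neg_mem' := fun {x} hx i a b h => by rw [Pi.neg_apply, Matrix.neg_apply, hx i a b h, neg_zero]
  mul_mem' := fun {x y} hx hy i a b h => by
    rw [Pi.mul_apply, Matrix.mul_apply]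
    refine Finset.sum_eq_zero fun c _ => ?_
    rcases le_total c a with z | z
    · rw [hx i a c z, zero_mul]
    · rw [hy i c b (h.trans z), mul_zero]

theorem hdsemi_prod (l : List (∀ i, Mat (d i) (K i))) (hl : ∀ x ∈ l, x ∈ hdsemiU d K) (i : ι)
    (a b : Fin (d i)) (h : b.val < a.val + l.length) : l.prod i a b = 0 := by
  induction l generalizing a with
  | nil =>
    have : a ≠ b := fun z => by simp [z] at h
    rw [List.prod_nil, Pi.one_apply, one_apply_ne this]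
  | cons x l ih =>
    rw [List.prod_cons, Pi.mul_apply, Matrix.mul_apply]
    refine Finset.sum_eq_zero fun c _ => ?_
    rcases le_or_gt c a with z | z
    · rw [hl x List.mem_cons_self i a c z, zero_mul]
    · have z' : a.val < c.val := z
      rw [List.length_cons] at h
      rw [ih (fun y hy => hl y (List.mem_cons_of_mem _ hy)) c (by omega), mul_zero]

theorem hdsemi_nil [Fintype ι] :
    NilTo (∑ i, d i) (hdsemiU d K : Set (∀ i, Mat (d i) (K i))) {0} := by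
  intro x hx
  refine Set.mem_singleton_iff.2 (funext fun i => Matrix.ext fun a b => ?_)
  refine hdsemi_prod d K _ (fun y hy => ?_) i a b ?_
  · obtain ⟨j, rfl⟩ := List.mem_ofFn.1 hy
    exact hx j
  · have := Finset.single_le_sum (f := d) (fun _ _ => Nat.zero_le _) (Finset.mem_univ i)
    rw [List.length_ofFn]
    omega

/-- the free entries -/
def hdsemiE : hdsemiU d K ≃ ∀ i, ∀ b : Fin (d i), Fin b → K i where
  toFun x i b a := x.1 i ⟨a, a.2.trans b.2⟩ b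
  invFun f := ⟨fun i a b => if h : a.val < b.val then f i b ⟨a, h⟩ else 0,
    fun i a b h => dif_neg (not_lt.2 h)⟩
  left_inv x := Subtype.ext (funext fun i => Matrix.ext fun a b => by
    by_cases h : a.val < b.val
    · exact dif_pos h
    · exact (dif_neg h).trans (x.2 i a b (not_lt.1 h)).symm)
  right_inv f := funext fun i => funext fun b => funext fun a => dif_pos a.2

end

/-- a product of matrix rings over finite fields has a symmetric nondegenerate character -/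
theorem semi_frob {ι : Type} [Fintype ι] [DecidableEq ι] (d : ι → ℕ) (K : ι → Type)
    [∀ i, Field (K i)] [∀ i, Fintype (K i)] :
    ∃ τ : AddChar (∀ i, Mat (d i) (K i)) ℂ, Frob τ := by
  let ψ := fun i => AddChar.FiniteField.primitiveChar_to_Complex (K i)
  refine ⟨∏ i, (ψ i).compAddMonoidHom ((traceAddMonoidHom (Fin (d i)) (K i)).comp
    (Pi.evalAddMonoidHom (fun i => Mat (d i) (K i)) i)), fun x y => ?_, fun x hx => ?_⟩
  · simp only [AddChar.prod_apply, AddChar.compAddMonoidHom_apply, AddMonoidHom.comp_apply,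
      Pi.evalAddMonoidHom_apply, traceAddMonoidHom_apply, Pi.mul_apply]
    exact Finset.prod_congr rfl fun i _ => by rw [trace_mul_comm]
  · funext i
    ext a b
    by_contra h0
    refine AddChar.FiniteField.primitiveChar_to_Complex_isPrimitive (K i) h0
      (AddChar.eq_one_iff.2 fun c => ?_)
    have h := hx (Pi.single i (single b a c))
    simp only [AddChar.prod_apply, AddChar.compAddMonoidHom_apply, AddMonoidHom.comp_apply,
      Pi.evalAddMonoidHom_apply, traceAddMonoidHom_apply, Pi.mul_apply] at h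
    rw [Finset.prod_eq_single i (fun j _ hj => by
      rw [Pi.single_eq_of_ne hj, mul_zero, trace_zero, AddChar.map_zero_eq_one])
      (fun z => (z (Finset.mem_univ i)).elim), Pi.single_eq_same, trace_mul_single] at h
    simpa using h

/-- strictly upper triangular matrices give a subgroup of index prime to `p` -/
theorem semi_syl (p : ℕ) [Fact p.Prime] {ι : Type} [Fintype ι] [DecidableEq ι] (d : ι → ℕ)
    (K : ι → Type) [∀ i, Field (K i)] [∀ i, Fintype (K i)] [∀ i, Algebra (ZMod p) (K i)] :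
    ∃ (U : NonUnitalSubring (∀ i, Mat (d i) (K i))) (N : ℕ),
      NilTo N (U : Set (∀ i, Mat (d i) (K i))) {0} ∧ ¬ p ∣ (UU U).index := by
  classical
  refine ⟨hdsemiU d K, _, hdsemi_nil d K, fun hp => ?_⟩
  have h1 : Nat.card (UU (hdsemiU d K)) = ∏ i, ∏ b : Fin (d i), Fintype.card (K i) ^ b.val := by
    rw [card_UU fun x hx => ?_, Nat.card_congr (hdsemiE d K)]
    · simp [Nat.card_pi]
    · refine IsNilpotent.isUnit_one_add ⟨∑ i, d i, ?_⟩
      have := hdsemi_nil d K (fun _ => x) fun _ => hx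
      simpa using this
  have h2 : Nat.card (∀ i, Mat (d i) (K i))ˣ =
      (∏ i, ∏ b : Fin (d i), (Fintype.card (K i) ^ (d i - b.val) - 1)) *
        ∏ i, ∏ b : Fin (d i), Fintype.card (K i) ^ b.val := by
    rw [Nat.card_congr MulEquiv.piUnits.toEquiv, Nat.card_pi, ← Finset.prod_mul_distrib]
    refine Finset.prod_congr rfl fun i _ => ?_
    rw [← Finset.prod_mul_distrib]
    refine (card_GL_field (d i)).trans (Finset.prod_congr rfl fun b _ => ?_)
    rw [Nat.sub_mul, ← pow_add, Nat.sub_add_cancel b.2.le, one_mul]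
  have h3 := (UU (hdsemiU d K)).index_mul_card
  rw [h1, h2] at h3
  rw [Nat.eq_of_mul_eq_mul_right (Finset.prod_pos fun i _ => Finset.prod_pos fun b _ =>
    pow_pos Fintype.card_pos _) h3] at hp
  have pp := (Fact.out : p.Prime).prime
  obtain ⟨i, -, hi⟩ := (Prime.dvd_finsetProd_iff pp _).1 hp
  obtain ⟨b, -, hb⟩ := (Prime.dvd_finsetProd_iff pp _).1 hi
  haveI := charP_of_injective_algebraMap (algebraMap (ZMod p) (K i)).injective p
  have h4 : p ∣ Fintype.card (K i) :=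
    (CharP.cast_eq_zero_iff (K i) p _).1 (FiniteField.cast_card_eq_zero (K i))
  have h5 : p ∣ Fintype.card (K i) ^ (d i - b.val) :=
    dvd_pow h4 (Nat.sub_pos_of_lt b.2).ne'
  have h6 := Nat.dvd_sub h5 hb
  rw [Nat.sub_sub_self (Nat.one_le_pow _ _ Fintype.card_pos)] at h6
  exact pp.not_dvd_one h6

end Pool.Agent.MP_8299d6_al.Up

end
end

section

open Matrix

noncomputable section

namespace Pool.Agent.MP_8299d6_al.Up

open Pool.Agent.MP_810665_al (IrrChar)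

variable {n : ℕ} {F : Type} [Field F] [Finite F]

lemma chc_bot : cN F (fun _ : Fin n => 0) = ⊥ := by
  refine (Subgroup.eq_bot_iff_forall _).2 fun g hg => Units.ext ?_
  ext i j
  exact mem_cN.1 hg i j le_rfl

lemma chc_ref (c c' : Fin n → ℕ) :
    ∃ c2 : Fin n → ℕ, ∀ i j, c2 i < c2 j ↔ (c i < c j ∨ (c i = c j ∧ c' i < c' j)) := by
  obtain ⟨B, hB⟩ : ∃ B, ∀ i, c' i < B :=
    ⟨∑ i, c' i + 1, fun i => Nat.lt_succ_of_le
      (Finset.single_le_sum (f := c') (fun _ _ => Nat.zero_le _) (Finset.mem_univ i))⟩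
  refine ⟨fun i => c i * B + c' i, fun i j => ?_⟩
  have h1 := hB i
  have h2 := hB j
  constructor
  · intro h
    rcases lt_trichotomy (c i) (c j) with h3 | h3 | h3
    · exact Or.inl h3
    · refine Or.inr ⟨h3, ?_⟩
      simp only [h3] at h
      omega
    · exfalso
      have h4 : (c j + 1) * B ≤ c i * B := Nat.mul_le_mul_right _ h3
      rw [add_mul, one_mul] at h4
      simp only at h
      omega
  · rintro (h | ⟨h, h'⟩)
    · have h4 : (c i + 1) * B ≤ c j * B := Nat.mul_le_mul_right _ h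
      rw [add_mul, one_mul] at h4
      simp only
      omega
    · simp only [h]
      omega

lemma chc_inf {c c' c2 : Fin n → ℕ}
    (h : ∀ i j, c2 i < c2 j ↔ (c i < c j ∨ (c i = c j ∧ c' i < c' j))) :
    cN F c2 ⊓ cL F c = cL F c ⊓ cN F c' := by
  ext g
  simp only [Subgroup.mem_inf, mem_cN, mem_cL]
  constructor
  · rintro ⟨h1, h2⟩
    refine ⟨h2, fun i j hij => ?_⟩
    by_cases e : c i = c j
    · refine h1 i j (not_lt.1 fun h3 => ?_)
      rcases (h i j).1 h3 with h4 | h4 <;> omega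
    · rw [h2 i j e, one_apply_ne fun e' => e (by rw [e'])]
  · rintro ⟨h2, h1⟩
    refine ⟨fun i j hij => ?_, h2⟩
    by_cases e : c i = c j
    · refine h1 i j (not_lt.1 fun h3 => ?_)
      have := (h i j).2 (Or.inr ⟨e, h3⟩)
      omega
    · rw [h2 i j e, one_apply_ne fun e' => e (by rw [e'])]

lemma chc_le1 {c c2 : Fin n → ℕ} (h : ∀ i j, c i < c j → c2 i < c2 j) : cN F c ≤ cN F c2 := by
  intro g hg
  rw [mem_cN] at hg ⊢
  intro i j hij
  exact hg i j (not_lt.1 fun h3 => absurd (h i j h3) (not_lt.2 hij))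

lemma chc_le2 {c c2 : Fin n → ℕ} (h : ∀ i j, c i < c j → c2 i < c2 j) : cN F c2 ≤ cP F c := by
  intro g hg
  rw [mem_cN] at hg
  rw [mem_cP]
  intro i j hij
  rw [hg i j (h j i hij).le, one_apply_ne fun e' => by simp [e'] at hij]

lemma chc_el {c : Fin n → ℕ} {i j : Fin n} (h : i ≠ j) :
    inGL n F (el h (1 : F)) ∈ cN F c ↔ c i < c j := by
  have e : (inGL n F (el h (1 : F))).1 = 1 + single i j (1 : F) := rfl
  rw [mem_cN, e]
  constructor
  · intro h1
    refine not_le.1 fun h2 => ?_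
    have := h1 i j h2
    simp at this
  · intro h1 a b hab
    rw [Matrix.add_apply, single_apply_of_ne, add_zero]
    rintro ⟨rfl, rfl⟩
    omega

lemma chc_av (N : Subgroup (GLn n F)) (χ : GLn n F → ℂ) (l : GLn n F) :
    cSum N (fun u => χ (l * u)) = Nat.card N * cAv N χ l := by
  rw [cAv, ← mul_assoc, mul_inv_cancel₀ (ccard_ne N), one_mul]

lemma chc_over (c : Fin n → ℕ) (χ θ : GLn n F → ℂ) :
    cIp (cP F c) χ (cF c θ) = Nat.card (cN F c) * cIp (cL F c) (cAv (cN F c) χ) θ := by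
  unfold cIp
  rw [cSum_levi (cN_le_cP c) le_rfl, inf_eq_right.2 (cL_le_cP c), ← cSum_mul]
  refine cSum_congr fun l hl => ?_
  rw [← mul_assoc, ← chc_av, ← cSum_mul']
  refine cSum_congr fun u hu => ?_
  have h1 := cL_le_cP c hl
  have h2 := cN_le_cP c hu
  rw [cF, cPr_inv ((cP F c).mul_mem h1 h2), cPr_mul h1 h2, cPr_of_cL hl, (cPr_eq_one h2).2 hu,
    mul_one]

/-- existence of the cuspidal support -/
theorem exists_cusp {χ : GLn n F → ℂ} (hχ : χ ∈ Irr (GLn n F)) :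
    ∃ (c : Fin n → ℕ) (φ : GLn n F → ℂ), Cusp c φ ∧ Over χ c φ := by
  have hne : ({K | ∃ c : Fin n → ℕ, cN F c = K ∧ cSum K χ ≠ 0} :
      Set (Subgroup (GLn n F))).Nonempty := by
    refine ⟨⊥, fun _ => 0, chc_bot, ?_⟩
    rw [cSum_bot]
    intro h0
    have := one_le_deg hχ
    rw [h0, norm_zero] at this
    exact absurd this (by norm_num)
  obtain ⟨K, ⟨c, rfl, hc⟩, hmax⟩ := (Set.toFinite _).exists_maximal hne
  have hP : ChOn (cP F c) (cAv (cN F c) χ) :=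
    (irr_chOn hχ _).av (cN_le_cP c) fun x hx u hu => cN_conj hx hu
  have hL : ChOn (cL F c) (cAv (cN F c) χ) := hP.mono (cL_le_cP c)
  have h1 : cIp ⊥ (cAv (cN F c) χ) (fun _ => 1) ≠ 0 := by
    unfold cIp
    rw [cSum_bot, mul_one]
    intro h0
    have := chc_av (cN F c) χ 1
    simp only [one_mul, h0, mul_zero] at this
    exact hc this
  obtain ⟨θ, hθ, hz, hip, -⟩ := hL.exists_irrOn bot_le h1
  refine ⟨c, θ, ⟨hθ, hz, ?_⟩, ?_⟩
  · rintro c' ⟨i, j, hij, hij'⟩ g hg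
    refine hθ.chOn.sum_zero inf_le_left ?_ hg
    by_contra h0
    have h2 : cIp (cL F c ⊓ cN F c') (fun x => θ (id x)) (fun _ => 1) ≠ 0 := by
      unfold cIp
      simpa using h0
    have h3 := hL.cIp_ne hθ hip (A := cL F c ⊓ cN F c') id (fun x hx => hx.1)
      (fun _ _ _ _ => rfl) (irrOn_lin _ (fun _ => 1) rfl fun _ _ _ _ => (mul_one _).symm).chOn h2
    have h4 : cSum (cL F c ⊓ cN F c') (cAv (cN F c) χ) ≠ 0 := by
      unfold cIp at h3
      simpa using h3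
    obtain ⟨c2, hc2⟩ := chc_ref c c'
    have h5 : ∀ i j, c i < c j → c2 i < c2 j := fun i j h => (hc2 i j).2 (Or.inl h)
    have h6 : cSum (cN F c2) χ ≠ 0 := by
      rw [cSum_levi (chc_le1 h5) (chc_le2 h5), chc_inf hc2]
      simp only [chc_av]
      rw [cSum_mul]
      exact mul_ne_zero (ccard_ne _) h4
    have h7 := hmax ⟨c2, rfl, h6⟩ (chc_le1 h5)
    have hn : i ≠ j := fun e => by simp [e] at hij'
    have h8 := (chc_el hn).1 (h7 ((chc_el hn).2 ((hc2 i j).2 (Or.inr ⟨hij, hij'⟩))))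
    omega
  · unfold Over
    rw [chc_over]
    exact mul_ne_zero (ccard_ne _) hip

end Pool.Agent.MP_8299d6_al.Up

end
end

section

open Matrix

noncomputable section

namespace Pool.Agent.MP_8299d6_al.Up

open Pool.Agent.MP_810665_al (IrrChar)

variable {n b : ℕ} {F : Type} [Field F] [Finite F] {c : Fin n → ℕ}
  {e : Fin b ↪ Fin n} {φ φ' : GLn n F → ℂ}

theorem cres_mul (h : IrrOn (cL F c) φ) {S : Set (Fin n)} (hS : Un c S) {a k : GLn n F}
    (ha : a ∈ cL F c ⊓ cR F S) (hk : k ∈ cL F c ⊓ cR F Sᶜ) : φ 1 * φ (a * k) = φ a * φ k := by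
  obtain ⟨θ, θ', -, -, -, h4⟩ := h.split (MonoidHom.id _) (cL F c ⊓ cR F S)
    (K := cL F c ⊓ cR F Sᶜ) (fun _ ha => ha.1) inf_le_left
    (fun _ ha _ hk => cR_commute ha.2 hk.2) fun g hg => cL_split hS hg
  have e1 := h4 1 (Subgroup.one_mem _) 1 (Subgroup.one_mem _)
  have e2 := h4 a ha 1 (Subgroup.one_mem _)
  have e3 := h4 1 (Subgroup.one_mem _) k hk
  have e4 := h4 a ha k hk
  simp only [MonoidHom.id_apply, mul_one, one_mul] at e1 e2 e3 e4
  rw [e1, e2, e3, e4]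
  ring

/-- restriction of a cuspidal character to a union of blocks -/
theorem Cusp.res (hφ : Cusp c φ) (hu : Un c (Set.range e)) :
    ∃ (θ : GLn b F → ℂ) (m : ℂ), m ≠ 0 ∧ Cusp (c ∘ e) θ ∧ ∀ y, φ (cEmb e y) = m * θ y := by
  obtain ⟨θ, θ', h1, h2, h3, h4⟩ := hφ.irr.split (cEmb e) (cL F (c ∘ e))
    (K := cL F c ⊓ cR F (Set.range e)ᶜ) (fun a ha => cEmb_mem_cL.2 ha) inf_le_left
    (fun a _ k hk => cR_commute (cEmb_mem_cR e a) hk.2) fun g hg => by
      obtain ⟨a, ha, a', ha', rfl⟩ := cL_split hu hg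
      obtain ⟨y, rfl⟩ := exists_cEmb ha.2
      exact ⟨y, cEmb_mem_cL.1 ha.1, a', ha', rfl⟩
  have hr : ∀ y, φ (cEmb e y) = θ' 1 * θ y := fun y => by
    by_cases hy : y ∈ cL F (c ∘ e)
    · rw [mul_comm, ← h4 y hy 1 (Subgroup.one_mem _), mul_one]
    · rw [h2 y hy, mul_zero, hφ.zero _ fun h => hy (cEmb_mem_cL.1 h)]
  refine ⟨θ, θ' 1, h3, ⟨h1, h2, fun c' ⟨i, j, hij, hlt⟩ g hg => ?_⟩, hr⟩
  have e1 : Function.extend e c' 0 ∘ e = c' := Function.extend_comp e.injective c' 0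
  have e2 := hφ.van (Function.extend e c' 0)
    ⟨e i, e j, hij, by rwa [e.injective.extend_apply, e.injective.extend_apply]⟩ _
    (cEmb_mem_cL.2 hg)
  rw [← cSum_bij (K := cL F (c ∘ e) ⊓ cN F c') (H := cL F c ⊓ cN F (Function.extend e c' 0)) (cEmb e)
    (fun x hx => ⟨cEmb_mem_cL.2 hx.1, cEmb_mem_cN.2 (e1.symm ▸ hx.2)⟩)
    (fun x _ y _ h => cEmb_inj e h) fun y hy => ?_] at e2
  · simp only [← map_mul, hr] at e2
    rw [cSum_mul] at e2
    exact (mul_eq_zero.1 e2).resolve_left h3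
  · obtain ⟨x, rfl⟩ : ∃ x, cEmb e x = y := exists_cEmb (mem_cR.2 fun i j hn => by
      by_cases h : c i = c j
      · have hi : i ∉ Set.range e := fun k => hn ⟨k, hu i j h k⟩
        refine mem_cN.1 hy.2 i j ?_
        rw [Function.extend_apply' _ _ j fun k => hi (hu j i h.symm k)]
        exact Nat.zero_le _
      · rw [mem_cL.1 hy.1 i j h, one_apply_ne fun k => h (congrArg c k)])
    exact ⟨x, ⟨cEmb_mem_cL.1 hy.1, e1 ▸ cEmb_mem_cN.1 hy.2⟩, rfl⟩

theorem rigid_of_sep (hu : Un c (Set.range e))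
    (hs : ∀ i ∈ Set.range e, ∀ w : Equiv.Perm (Fin n), w i ∈ Set.range e → Eqv c φ i w →
      c (w i) = c i) {θ : GLn b F → ℂ} {m : ℂ} (hr : ∀ y, φ (cEmb e y) = m * θ y) :
    Rigid (c ∘ e) θ := by
  intro v hv hθ i
  have hw : ∀ i, v.viaEmbedding e (e i) = e (v i) := v.viaEmbedding_apply e
  have := hs (e i) ⟨i, rfl⟩ (v.viaEmbedding e) ⟨v i, (hw i).symm⟩ ⟨fun j => ?_, fun x hx => ?_⟩
  · rwa [hw] at this
  · by_cases hj : j ∈ Set.range e
    · obtain ⟨k, rfl⟩ := hj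
      simpa [hw] using hv (v k) (v i)
    · rw [v.viaEmbedding_apply_of_notMem e j hj, hw]
      exact iff_of_false (fun h => hj (hu _ _ h.symm ⟨_, rfl⟩)) fun h => hj (hu _ _ h.symm ⟨_, rfl⟩)
  · obtain ⟨y, rfl⟩ := exists_cEmb (e := e)
      (cR_mono (fun j hj => hu _ _ (Eq.symm hj) ⟨v i, (hw i).symm⟩) hx)
    rw [cCw_cEmb hw, hr, hr, hθ]

/-- a cuspidal character is determined by its normalised values on the blocks -/
theorem Cusp.ext_blk (hφ : Cusp c φ) (hφ' : Cusp c φ')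
    (h : ∀ i, ∀ x ∈ cR F {j | c j = c i}, φ' 1 * φ x = φ 1 * φ' x) : φ = φ' := by
  have h1 := hφ.irr.one_ne
  have h1' := hφ'.irr.one_ne
  have hb : ∀ t, ∀ x ∈ cR F {j | c j = t}, φ' 1 * φ x = φ 1 * φ' x := fun t x hx => by
    by_cases ht : ∃ i, c i = t
    · obtain ⟨i, rfl⟩ := ht
      exact h i x hx
    · rw [show {j | c j = t} = ∅ from Set.eq_empty_of_forall_notMem fun j hj => ht ⟨j, hj⟩,
        cR_empty, Subgroup.mem_bot] at hx
      rw [hx, mul_comm]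
  have key : ∀ T : Finset ℕ, ∀ x ∈ cL F c, x ∈ cR F {j | c j ∈ T} →
      φ' 1 * φ x = φ 1 * φ' x := fun T => by
    induction T using Finset.induction_on with
    | empty =>
      intro x _ hx
      rw [show {j | c j ∈ (∅ : Finset ℕ)} = ∅ by simp, cR_empty, Subgroup.mem_bot] at hx
      rw [hx, mul_comm]
    | insert t T _ ih =>
      intro x hx hx'
      have hS : Un c {j | c j = t} := fun i j e hi => e.symm.trans hi
      obtain ⟨a, ha, k, hk, rfl⟩ := cL_split hS hx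
      have k1 : k ∈ cR F {j | c j ∈ insert t T} := (Subgroup.mul_mem_cancel_left _
        (cR_mono (T := {j | c j ∈ insert t T}) (fun j hj => Finset.mem_insert.2 (Or.inl hj))
          ha.2)).1 hx'
      have k2 : k ∈ cR F {j | c j ∈ T} := cR_mono
        (S := {j | c j ∈ insert t T} ∩ {j | c j = t}ᶜ)
        (fun j hj => (Finset.mem_insert.1 hj.1).resolve_left hj.2) (cR_inf (F := F) _ _ ▸ ⟨k1, hk.2⟩)
      refine mul_left_cancel₀ (mul_ne_zero h1 h1') ?_
      linear_combination φ' 1 ^ 2 * cres_mul hφ.irr hS ha hk - φ 1 ^ 2 * cres_mul hφ'.irr hS ha hk +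
        φ' 1 * φ k * hb t a ha.2 + φ 1 * φ' a * ih k hk.1 k2
  have hall : ∀ x ∈ cL F c, φ' 1 * φ x = φ 1 * φ' x := fun x hx => key (Finset.univ.image c) x hx
    (by rw [show {j | c j ∈ Finset.univ.image c} = Set.univ by ext j; simp, cR_univ]; trivial)
  have hne : cIp (cL F c) φ φ' ≠ 0 := fun h0 => by
    have : φ' 1 * cIp (cL F c) φ φ' = φ 1 * cIp (cL F c) φ' φ' := by
      unfold cIp
      rw [← cSum_mul, ← cSum_mul]
      exact cSum_congr fun x hx => by rw [← mul_assoc, hall x hx, mul_assoc]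
    rw [h0, mul_zero, hφ'.irr.cIp_self] at this
    exact mul_ne_zero h1 (ccard_ne _) this.symm
  funext x
  by_cases hx : x ∈ cL F c
  · exact hφ.irr.eq_of_cIp hφ'.irr hne x hx
  · rw [hφ.zero x hx, hφ'.zero x hx]

end Pool.Agent.MP_8299d6_al.Up

end
end

section

open Matrix

noncomputable section

namespace Pool.Agent.MP_8299d6_al.Up

open Pool.Agent.MP_810665_al (IrrChar)

variable {n : ℕ} {F : Type} [Field F] [Finite F]

/-- a minimal set of blocks that represents all blocks -/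
theorem exists_min (c : Fin n → ℕ) (φ : GLn n F → ℂ) : ∃ S : Set (Fin n), Un c S ∧
    (∀ i, ∃ w : Equiv.Perm (Fin n), w i ∈ S ∧ Eqv c φ i w) ∧
    ∀ i ∈ S, ∀ w : Equiv.Perm (Fin n), w i ∈ S → Eqv c φ i w → c (w i) = c i := by
  obtain ⟨S, ⟨hU, hD⟩, hm⟩ := Set.exists_min_image {S : Set (Fin n) | Un c S ∧
      ∀ i, ∃ w : Equiv.Perm (Fin n), w i ∈ S ∧ Eqv c φ i w} Set.ncard (Set.toFinite _)
    ⟨Set.univ, fun _ _ _ _ => trivial, fun i => ⟨1, trivial, fun _ => Iff.rfl, fun x _ => by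
      rw [cCw_one]⟩⟩
  refine ⟨S, hU, hD, fun i hi w hw he => ?_⟩
  by_contra hne
  refine (hm (S \ {j | c j = c i}) ⟨fun j k e hj => ⟨hU j k e hj.1, fun e' => hj.2 (e.trans e')⟩,
    fun i₀ => ?_⟩).not_gt (Set.ncard_lt_ncard ⟨Set.sdiff_subset, fun h => (h hi).2 rfl⟩)
  obtain ⟨w₀, h₀, e₀⟩ := hD i₀
  by_cases hc : c (w₀ i₀) = c i
  · have e1 : c (w (w₀ i₀)) = c (w i) := (he.1 _).2 hc
    refine ⟨w * w₀, ⟨hU _ _ e1.symm hw, fun e => hne (e1.symm.trans e)⟩, fun j => ?_,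
      fun x hx => ?_⟩
    · rw [Equiv.Perm.mul_apply, Equiv.Perm.mul_apply, e1, he.1, ← hc, e₀.1]
    · rw [Equiv.Perm.mul_apply, e1] at hx
      rw [← cCw_cCw, e₀.2, he.2 x hx]
      refine cCw_mem_cR.2 (cR_mono (fun j hj => ?_) hx)
      refine ⟨w.symm j, ?_, w.apply_symm_apply j⟩
      exact ((he.1 _).1 (by rw [w.apply_symm_apply]; exact hj)).trans hc.symm
  · exact ⟨w₀, ⟨h₀, hc⟩, e₀⟩

theorem exists_NF {χ : GLn n F → ℂ} (hχ : χ ∈ Irr (GLn n F)) :
    ∃ (b : ℕ) (c : Fin n → ℕ) (φ : GLn n F → ℂ) (e : Fin b ↪ Fin n)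
      (W : Fin n → Equiv.Perm (Fin n)) (θ : GLn b F → ℂ) (m : ℂ), NF χ c φ e W θ m := by
  classical
  obtain ⟨c₀, φ, hφ₀, ho₀⟩ := exists_cusp hχ
  obtain ⟨r, hr, hr'⟩ : ∃ r : Fin n → Fin n, (∀ i, c₀ (r i) = c₀ i) ∧
      ∀ i j, c₀ i = c₀ j → r i = r j :=
    ⟨fun i => Classical.choose (⟨i, rfl⟩ : ∃ j, c₀ j = c₀ i),
      fun i => Classical.choose_spec (⟨i, rfl⟩ : ∃ j, c₀ j = c₀ i), fun i j e => by simp only [e]⟩
  obtain ⟨c, hc⟩ : ∃ c : Fin n → ℕ, ∀ i, c i = (r i).1 := ⟨_, fun _ => rfl⟩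
  have hs : SameP c₀ c := fun i j => by
    rw [hc, hc, ← Fin.ext_iff]
    exact ⟨hr' i j, fun e => by rw [← hr i, e, hr]⟩
  have hφ := hφ₀.sameP hs
  obtain ⟨S, hU, hD, hm⟩ := exists_min c φ
  choose W hW using hD
  let e₀ : Fin S.toFinset.card ↪ Fin n := (S.toFinset.orderEmbOfFin rfl).toEmbedding
  let s := Tuple.sort (OrderDual.toDual ∘ c ∘ e₀)
  have he : Set.range (s.toEmbedding.trans e₀) = S := by
    change Set.range ((S.toFinset.orderEmbOfFin rfl) ∘ s) = S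
    rw [s.surjective.range_comp, Finset.range_orderEmbOfFin, Set.coe_toFinset]
  rw [← he] at hU hW hm
  obtain ⟨θ, m, h1, h2, h3⟩ := hφ.res hU
  exact ⟨_, c, φ, s.toEmbedding.trans e₀, W, θ, m, fun i => hc i ▸ (r i).2, hφ,
    ho₀.sameP hφ₀ hs hχ, fun i j hij => Tuple.monotone_sort (OrderDual.toDual ∘ c ∘ e₀) hij, hU,
    hW, h1, h2, h3, rigid_of_sep hU hm h3⟩

end Pool.Agent.MP_8299d6_al.Up

end
end

section

open Matrix

noncomputable section

namespace Pool.Agent.MP_8299d6_al.Up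

open Pool.Agent.MP_810665_al (IrrChar)

theorem ccnt_fib {α β : Type} (s : Finset α) (t : Finset β) (R : α → β → Prop) (k : ℕ)
    (h1 : ∀ a ∈ s, ∃ b ∈ t, R a b)
    (h2 : ∀ b ∈ t, ∀ s' : Finset α, (∀ a ∈ s', a ∈ s ∧ R a b) → s'.card ≤ k) :
    s.card ≤ t.card * k := by
  classical
  refine le_trans (Finset.card_le_card (t := t.biUnion fun b => s.filter (R · b)) fun a ha => ?_)
    (Finset.card_biUnion_le_card_mul _ _ _ fun b hb => h2 b hb _ fun a ha => Finset.mem_filter.1 ha)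
  obtain ⟨b, hb, h⟩ := h1 a ha
  exact Finset.mem_biUnion.2 ⟨b, hb, Finset.mem_filter.2 ⟨ha, h⟩⟩

theorem card_Irr_GLF (n : ℕ) : ∃ C : ℕ, ∀ (F : Type) [Field F] [Finite F],
    (Irr (GLn n F)).card ≤ C * Nat.card F ^ n := by
  classical
  obtain ⟨k, hk⟩ := fl_color n
  refine ⟨k, fun F _ _ => ?_⟩
  obtain ⟨c, hc⟩ := hk F
  have : Fintype F := Fintype.ofFinite _
  have : Fintype (GLn n F) := Fintype.ofFinite _
  have hd : ∀ x : Mat n F, x.charpoly.natDegree = n := fun x => by simp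
  refine le_trans (MP_810665_al.card_le_of_factor _ (fun χ hχ => mem_Irr.1 hχ)
    (fun g : GLn n F => ((fun j : Fin n => g.1.charpoly.coeff j), c g.1.charpoly g.1))
    fun χ hχ g h hgh => ?_) (by simp [mul_comm])
  have h6 : g.1.charpoly = h.1.charpoly :=
    fl_monic_ext (charpoly_monic _) (charpoly_monic _) (hd _) (hd _) (congrArg Prod.fst hgh)
  have h7 : c g.1.charpoly g.1 = c h.1.charpoly h.1 := congrArg Prod.snd hgh
  rw [← h6] at h7
  obtain ⟨u, hu⟩ := hc _ (charpoly_monic g.1).ne_zero (hd _).le g.1 h.1 (aeval_self_charpoly _)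
    (by rw [h6]; exact aeval_self_charpoly _) h7
  have h8 : h = u * g * u⁻¹ := by
    rw [eq_mul_inv_iff_mul_eq]
    exact Units.ext hu.symm
  rw [h8, MP_810665_al.irr_conj (mem_Irr.1 hχ)]

theorem cusp_count (n : ℕ) : ∃ C : ℕ, ∀ (F : Type) [Field F] [Finite F] (c : Fin n → ℕ)
    (s : Finset (GLn n F → ℂ)), (∀ φ ∈ s, Cusp c φ) → s.card ≤ C * Nat.card F ^ n := by
  classical
  obtain ⟨C, hC⟩ := card_Irr_GLF n
  refine ⟨C * n.factorial, fun F _ _ c s hs => ?_⟩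
  refine le_trans (ccnt_fib s (Irr (GLn n F)) (fun φ χ => Over χ c φ) n.factorial
    (fun φ hφ => (hs φ hφ).exists_over) fun χ hχ s' h => ?_) ?_
  · rcases s'.eq_empty_or_nonempty with rfl | ⟨φ₀, h₀⟩
    · simp
    refine le_trans (Finset.card_le_card (t := Finset.univ.image
      fun (w : Equiv.Perm (Fin n)) (x : GLn n F) => φ₀ (cCw w x)) fun φ hφ => ?_)
      (Finset.card_image_le.trans (by simp [Fintype.card_perm]))
    obtain ⟨w, hw⟩ := (hs φ (h φ hφ).1).supp (hs φ₀ (h φ₀ h₀).1) hχ (h φ hφ).2 (h φ₀ h₀).2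
    exact Finset.mem_image.2 ⟨w, Finset.mem_univ _, hw.symm⟩
  · rw [mul_right_comm]
    exact Nat.mul_le_mul_right _ (hC F)

section
variable {n b : ℕ} {F : Type} [Field F] [Finite F] {c : Fin n → ℕ} {e : Fin b ↪ Fin n}
  {W : Fin n → Equiv.Perm (Fin n)} {θ : GLn b F → ℂ} {χ χ' φ φ' : GLn n F → ℂ} {m m' : ℂ}

theorem ccnt_blk (h : NF χ c φ e W θ m) {i : Fin n} {x : GLn n F}
    (hx : x ∈ cR F {j | c j = c i}) :
    cCw (W i)⁻¹ x ∈ cR F (Set.range e) ∧ φ x = φ (cCw (W i)⁻¹ x) := by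
  obtain ⟨h1, h2, h3⟩ := h.dom i
  have h4 : cCw (W i)⁻¹ x ∈ cR F {j | c j = c (W i i)} := by
    rw [cCw_mem_cR]
    refine cR_mono (fun j hj => ?_) hx
    exact ⟨W i j, (h2 j).2 hj, by simp⟩
  refine ⟨cR_mono (fun j hj => h.un _ j (Eq.symm hj) h1) h4, ?_⟩
  rw [← h3 _ h4, cCw_cCw, inv_mul_cancel, cCw_one]

theorem ccnt_eq (h : NF χ c φ e W θ m) (h' : NF χ' c φ' e W θ m') : φ = φ' := by
  refine h.cusp.ext_blk h'.cusp fun i x hx => ?_
  obtain ⟨y, hy⟩ := exists_cEmb (ccnt_blk h hx).1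
  have e1 := h.res 1
  have e2 := h'.res 1
  rw [map_one] at e1 e2
  rw [(ccnt_blk h hx).2, (ccnt_blk h' hx).2, ← hy, h.res, h'.res, e1, e2]
  ring

end

theorem NF_count (n b : ℕ) : ∃ C : ℕ, ∀ (F : Type) [Field F] [Finite F]
    (s : Finset (GLn n F → ℂ)), (∀ χ ∈ s, χ ∈ Irr (GLn n F) ∧
      ∃ (c : Fin n → ℕ) (φ : GLn n F → ℂ) (e : Fin b ↪ Fin n)
        (W : Fin n → Equiv.Perm (Fin n)) (θ : GLn b F → ℂ) (m : ℂ), NF χ c φ e W θ m) →
    s.card ≤ C * Nat.card F ^ b := by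
  classical
  obtain ⟨C, hC⟩ := cusp_count b
  refine ⟨Fintype.card ((Fin n → Fin n) × (Fin b ↪ Fin n) × (Fin n → Equiv.Perm (Fin n))) *
    (C * n.factorial), fun F _ _ s hs => ?_⟩
  refine le_trans (ccnt_fib s (Finset.univ : Finset ((Fin n → Fin n) × (Fin b ↪ Fin n) ×
      (Fin n → Equiv.Perm (Fin n))))
    (fun χ d => ∃ θ φ m, NF χ (fun i => (d.1 i : ℕ)) φ d.2.1 d.2.2 θ m)
    (C * Nat.card F ^ b * n.factorial) (fun χ hχ => ?_) fun d _ s' h => ?_) ?_
  · obtain ⟨-, c, φ, e, W, θ, m, h⟩ := hs χ hχ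
    exact ⟨⟨fun i => ⟨c i, h.bd i⟩, e, W⟩, Finset.mem_univ _, θ, φ, m, h⟩
  · choose θ hθ using fun χ : s' => (h χ.1 χ.2).2
    refine le_trans (ccnt_fib s' (Finset.univ.image θ)
      (fun χ t => ∃ φ m, NF χ (fun i => (d.1 i : ℕ)) φ d.2.1 d.2.2 t m) n.factorial
      (fun χ hχ => ⟨θ ⟨χ, hχ⟩, Finset.mem_image_of_mem _ (Finset.mem_univ _), hθ ⟨χ, hχ⟩⟩)
      fun t _ s'' h' => ?_) (Nat.mul_le_mul_right _ (hC F ((fun i => (d.1 i : ℕ)) ∘ d.2.1) _ ?_))
    · rcases s''.eq_empty_or_nonempty with rfl | ⟨χ₀, h₀⟩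
      · simp
      obtain ⟨-, φ₀, m₀, h₀⟩ := h' χ₀ h₀
      refine h₀.cusp.over_count s'' fun χ hχ => ?_
      obtain ⟨h1, φ, m, h2⟩ := h' χ hχ
      exact ⟨(hs χ (h χ h1).1).1, ccnt_eq h2 h₀ ▸ h2.ov⟩
    · intro t ht
      obtain ⟨χ, -, rfl⟩ := Finset.mem_image.1 ht
      obtain ⟨φ, m, h2⟩ := hθ χ
      exact h2.cusp'
  · rw [Finset.card_univ]
    exact le_of_eq (by ring)

end Pool.Agent.MP_8299d6_al.Up

end
end

section

open Matrix

noncomputable section

namespace Pool.Agent.MP_8299d6_al.Up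

open Pool.Agent.MP_810665_al (IrrChar)

theorem cwh_av {G : Type} [Group G] [Finite G] {H N : Subgroup G} (hN : N ≤ H) (χ t : G → ℂ)
    (ht : ∀ x ∈ H, ∀ u ∈ N, t (u * x) = t x) : cIp H (cAv N χ) t = cIp H χ t := by
  unfold cIp cAv
  have h1 : ∀ x ∈ H, ((Nat.card N : ℂ)⁻¹ * cSum N fun u => χ (x * u)) * t x⁻¹ =
      (Nat.card N : ℂ)⁻¹ * cSum N fun u => χ (x * u) * t (x * u)⁻¹ := fun x hx => by
    rw [mul_assoc, ← cSum_mul']
    congr 1
    exact cSum_congr fun u hu => by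
      rw [_root_.mul_inv_rev, ht _ (H.inv_mem hx) _ (N.inv_mem hu)]
  rw [cSum_congr h1, cSum_mul, cSum_comm,
    cSum_congr (f' := fun _ => cSum H fun x => χ x * t x⁻¹) fun u hu =>
      cSum_right (hN hu) fun x => χ x * t x⁻¹,
    cSum_const, ← mul_assoc, inv_mul_cancel₀ (ccard_ne N), one_mul]

variable {n b : ℕ} {F : Type} [Field F] [Finite F] {ψ : AddChar F ℂ}
  {c : Fin n → ℕ} {φ : GLn n F → ℂ}

theorem cwh_psi (ψ : AddChar F ℂ) (d : Fin n → ℕ) : ChOn (cN F d) (cPsi ψ d) :=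
  (irrOn_lin _ _ (cPsi_one ψ d) fun _ hx _ hy => cPsi_mul ψ hx hy).chOn

theorem cwh_infl (hφ : Cusp c φ) : IrrOn (cP F c) (cF c φ) := hφ.irr.infl (cL_le_cP c) le_rfl

theorem Cusp.generic_of_rigid (hψ : ψ.IsPrimitive) (hφ : Cusp c φ) (hc : Antitone c)
    (hr : Rigid c φ) {f : GLn n F → ℂ} (hf : ChOn ⊤ f) (h : cIp (cP F c) f (cF c φ) ≠ 0) :
    cIp (cN F (cU n)) f (cPsi ψ (cU n)) ≠ 0 := by
  have hinf : cP F c ⊓ cN F (cU n) = cL F c ⊓ cN F (cU n) := by
    refine le_antisymm (fun x hx => ⟨mem_cL.2 fun i j hij => ?_, hx.2⟩)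
      (inf_le_inf_right _ (cL_le_cP c))
    rcases lt_or_gt_of_ne hij with h1 | h1
    · have h2 : j < i := by
        by_contra h3
        exact absurd (hc (not_lt.1 h3)) (not_le.2 h1)
      rw [mem_cN.1 hx.2 i j (by unfold cU; omega), one_apply_ne h2.ne']
    · exact mem_cP.1 hx.1 i j h1
  have hgen : cIp (cP F c ⊓ cN F (cU n)) (cF c φ) (cPsi ψ (cU n)) ≠ 0 := by
    rw [hinf, cIp_congr (f₂ := φ) (f₂' := cPsi ψ (cU n))
      (fun x hx => by rw [cF, cPr_of_cL hx.1]) fun _ _ => rfl]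
    exact hφ.generic hψ hc
  obtain ⟨τ, hτ, t1, t2⟩ := exists_common (cwh_infl hφ).chOn (cwh_psi ψ _) hgen
  obtain ⟨θ, h1, -, h2, h3⟩ := hf.exists_irrOn le_top h
  have e : θ = τ := hφ.over_uniq hr (irrOn_top.1 h1) hτ h3 t1
  subst e
  exact hf.cIp_ne h1 h2 id (fun _ _ => trivial) (fun _ _ _ _ => rfl) (cwh_psi ψ _) t2

theorem NF.whit (hψ : ψ.IsPrimitive) {χ : GLn n F → ℂ} (hχ : χ ∈ Irr (GLn n F))
    {e : Fin b ↪ Fin n} {W : Fin n → Equiv.Perm (Fin n)} {θ : GLn b F → ℂ} {m : ℂ}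
    (h : NF χ c φ e W θ m) : cIp (cN F (cD e)) χ (cPsi ψ (cD e)) ≠ 0 := by
  classical
  obtain ⟨k, hk1, hk0⟩ : ∃ k : Fin n → ℕ, (∀ i, i ∈ Set.range e → k i = 1) ∧
      ∀ i, i ∉ Set.range e → k i = 0 :=
    ⟨fun i => if i ∈ Set.range e then 1 else 0, fun i hi => if_pos hi, fun i hi => if_neg hi⟩
  obtain ⟨c2, hc1, hc0⟩ : ∃ c2 : Fin n → ℕ, (∀ i, i ∈ Set.range e → c2 i = c i + n) ∧
      ∀ i, i ∉ Set.range e → c2 i = c i :=
    ⟨fun i => if i ∈ Set.range e then c i + n else c i, fun i hi => if_pos hi,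
      fun i hi => if_neg hi⟩
  have hd : ∀ i, i ∈ Set.range e → 0 < cD e i := by
    rintro _ ⟨i, rfl⟩
    rw [cD_apply]
    omega
  have hall : ∀ i, c i < n ∧ ((i ∈ Set.range e ∧ k i = 1 ∧ c2 i = c i + n ∧ 0 < cD e i) ∨
      (i ∉ Set.range e ∧ k i = 0 ∧ c2 i = c i ∧ cD e i = 0)) := fun i =>
    ⟨h.bd i, (em (i ∈ Set.range e)).imp (fun a => ⟨a, hk1 i a, hc1 i a, hd i a⟩)
      fun a => ⟨a, hk0 i a, hc0 i a, cD_out a⟩⟩
  have hS : SameP c c2 := by
    intro i j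
    obtain ⟨a0, ⟨a1, -, a2, -⟩ | ⟨a1, -, a2, -⟩⟩ := hall i <;>
      obtain ⟨b0, ⟨b1, -, b2, -⟩ | ⟨b1, -, b2, -⟩⟩ := hall j
    · omega
    · exact ⟨fun a => absurd (h.un i j a a1) b1, by omega⟩
    · exact ⟨fun a => absurd (h.un j i a.symm b1) a1, by omega⟩
    · omega
  have hN2 : cN F k ≤ cN F c2 := fun x hx => mem_cN.2 fun i j hij => mem_cN.1 hx i j (by
    have := hall i; have := hall j; omega)
  have hP2 : cP F c2 ≤ cP F k := fun x hx => mem_cP.2 fun i j hij => mem_cP.1 hx i j (by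
    have := hall i; have := hall j; omega)
  have hND : cN F k ≤ cN F (cD e) := fun x hx => mem_cN.2 fun i j hij => mem_cN.1 hx i j (by
    have := hall i; have := hall j; omega)
  have hDP : cN F (cD e) ≤ cP F k := fun x hx => mem_cP.2 fun i j hij => by
    rw [mem_cN.1 hx i j (by have := hall i; have := hall j; omega),
      one_apply_ne fun a => by rw [a] at hij; omega]
  have hke : ∀ i, (k ∘ e) i = 1 := fun i => hk1 _ ⟨i, rfl⟩
  have hce : ∀ i, (c2 ∘ e) i = (c ∘ e) i + n := fun i => hc1 _ ⟨i, rfl⟩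
  have hDe : cD e ∘ e = cU b := funext fun i => cD_apply e i
  have hSe : SameP (c ∘ e) (c2 ∘ e) := fun i j => hS _ _
  have hχ' : ChOn (cP F k) (cAv (cN F k) χ) :=
    (irr_chOn hχ _).av (cN_le_cP k) fun x hx u hu => cN_conj hx hu
  have hφ2 := h.cusp.sameP hS
  have hθ2 := h.cusp'.sameP hSe
  have hA : cIp (cP F c2) (cAv (cN F k) χ) (cF c2 φ) ≠ 0 := by
    rw [cwh_av (hN2.trans (cN_le_cP c2)) χ _ fun x hx u hu => by
      rw [cF, cF, cPr_mul (cN_le_cP c2 (hN2 hu)) hx,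
        (cPr_eq_one (cN_le_cP c2 (hN2 hu))).2 (hN2 hu), one_mul]]
    exact h.ov.sameP h.cusp hS hχ
  have hB := (hχ'.mono hP2).cIp_ne (cwh_infl hφ2) hA (A := cP F (c2 ∘ e)) (cEmb e)
    (fun x hx => cEmb_mem_cP.2 hx) (fun x _ y _ => map_mul _ x y) (cwh_infl hθ2).chOn (by
      have e1 : cIp (cP F (c2 ∘ e)) (fun x => cF c2 φ (cEmb e x)) (cF (c2 ∘ e) θ) =
          m * cIp (cP F (c2 ∘ e)) (cF (c2 ∘ e) θ) (cF (c2 ∘ e) θ) := by
        unfold cIp
        rw [← cSum_mul]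
        refine cSum_congr fun x _ => ?_
        show φ (cPr c2 (cEmb e x)) * _ = _
        rw [cPr_cEmb, h.res, mul_assoc]
        rfl
      rw [e1, (cwh_infl hθ2).cIp_self]
      exact mul_ne_zero h.ne (ccard_ne _))
  have hC := hθ2.generic_of_rigid hψ (fun i j hij => by
      rw [hce, hce]
      exact Nat.add_le_add_right (h.anti hij) n) (h.rigid.sameP hSe)
    (hχ'.map (A := ⊤) (cEmb e) (fun x _ => cEmb_mem_cP.2 (mem_cP.2 fun i j hij => by
      rw [hke, hke] at hij; omega)) fun x _ y _ => map_mul _ x y) hB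
  have hu1 : ∀ u ∈ cN F k, cPsi ψ (cD e) u = 1 := fun u hu => by
    rw [← cPsi_one ψ (cD e) (F := F), cPsi, cPsi]
    congr 1
    refine Finset.sum_congr rfl fun i _ => Finset.sum_congr rfl fun j _ => ?_
    split_ifs with a
    · exact mem_cN.1 hu i j (by have := hall i; have := hall j; omega)
    · rfl
  have hD : cIp (cN F (cD e)) χ (cPsi ψ (cD e)) = Nat.card (cN F k) *
      cIp (cN F (cU b)) (fun x => cAv (cN F k) χ (cEmb e x)) (cPsi ψ (cU b)) := by
    unfold cIp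
    rw [cSum_levi hND hDP, ← cSum_mul, ← cSum_bij (K := cN F (cU b)) (cEmb e)]
    · refine cSum_congr fun y hy => ?_
      have hy' : cEmb e y ∈ cN F (cD e) := cEmb_mem_cN.2 (hDe ▸ hy)
      beta_reduce
      rw [cAv, ← mul_assoc, ← mul_assoc, mul_inv_cancel₀ (ccard_ne _), one_mul, ← cSum_mul']
      refine cSum_congr fun u hu => ?_
      rw [_root_.mul_inv_rev, cPsi_mul ψ (inv_mem (hND hu)) (inv_mem hy'), hu1 _ (inv_mem hu),
        one_mul, ← map_inv, cPsi_cEmb]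
    · exact fun y hy => ⟨cEmb_mem_cN.2 (hDe ▸ hy), cEmb_mem_cL.2 (mem_cL.2 fun i j hij => by
        rw [hke, hke] at hij; omega)⟩
    · exact fun x _ y _ a => cEmb_inj e a
    · intro x hx
      obtain ⟨y, rfl⟩ := exists_cEmb (e := e) (x := x) (mem_cR.2 fun i j hij => by
        by_cases hj : j ∈ Set.range e
        · have hi : i ∉ Set.range e := fun a => hij ⟨a, hj⟩
          rw [mem_cL.1 hx.2 i j (by rw [hk0 i hi, hk1 j hj]; omega),
            one_apply_ne fun a => hi (by rw [a]; exact hj)]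
        · exact mem_cN.1 hx.1 i j (by rw [cD_out hj]; omega))
      exact ⟨y, hDe ▸ cEmb_mem_cN.1 hx.1, rfl⟩
  rw [hD]
  exact mul_ne_zero (ccard_ne _) hC

end Pool.Agent.MP_8299d6_al.Up

end
end

section

open Matrix

noncomputable section

namespace Pool.Agent.MP_8299d6_al.Up

open Pool.Agent.MP_810665_al (IrrChar)



/-- classification of the characters of `GL_n` by the size of the reduced cuspidal support -/
theorem cls_main (n : ℕ) : ∃ C : ℕ, ∀ (F : Type) [Field F] [Finite F],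
    ∃ β : (GLn n F → ℂ) → ℕ,
      (∀ χ ∈ Irr (GLn n F), β χ ≤ n ∧ (Nat.card F : ℝ) ^ cE (β χ) n ≤ 2 ^ n * ‖χ 1‖) ∧
      ∀ k, ((Irr (GLn n F)).filter fun χ => β χ = k).card ≤ C * Nat.card F ^ k := by
  classical
  choose C hC using NF_count n
  refine ⟨∑ b ∈ Finset.range (n + 1), C b, fun F _ _ => ?_⟩
  choose! β hβ using fun (χ : GLn n F → ℂ) (hχ : χ ∈ Irr (GLn n F)) => exists_NF hχ
  have hle : ∀ χ ∈ Irr (GLn n F), β χ ≤ n := fun χ hχ => by
    obtain ⟨c, φ, e, -⟩ := hβ χ hχ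
    simpa using Fintype.card_le_of_embedding e
  refine ⟨β, fun χ hχ => ⟨hle χ hχ, ?_⟩, fun k => ?_⟩
  · obtain ⟨c, φ, e, W, θ, m, h⟩ := hβ χ hχ
    have hψ := AddChar.FiniteField.primitiveChar_to_Complex_isPrimitive F
    exact whit_deg hψ e (eig_of_cIp _ _ (cPsi_one _ _) (fun x hx y hy => cPsi_mul _ hx hy) hχ
      (h.whit hψ hχ))
  · by_cases hk : k ≤ n
    · refine (hC k F _ fun χ hχ => ?_).trans (Nat.mul_le_mul_right _
        (Finset.single_le_sum (f := C) (fun _ _ => Nat.zero_le _)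
          (Finset.mem_range.2 (Nat.lt_succ_of_le hk))))
      obtain ⟨h1, h2⟩ := Finset.mem_filter.1 hχ
      subst h2
      exact ⟨h1, hβ χ h1⟩
    · rw [Finset.filter_eq_empty_iff.2 fun χ hχ (e : β χ = k) => hk (e ▸ hle χ hχ),
        Finset.card_empty]
      exact Nat.zero_le _

end Pool.Agent.MP_8299d6_al.Up

end
end

section

open Matrix

noncomputable section

namespace Pool.Agent.MP_8299d6_al.Up

open Pool.Agent.MP_810665_al (IrrChar)

theorem cfin_sum {X : Type} {A I : Finset X} (hA : A ⊆ I) (β : X → ℕ) {n C q : ℕ} {f : X → ℝ}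
    {T : ℝ} (hT : 0 ≤ T) (hq : 0 < q) (hn : ∀ χ ∈ I, β χ ≤ n)
    (hc : ∀ k, (I.filter fun χ => β χ = k).card ≤ C * q ^ k)
    (hf : ∀ χ ∈ A, (q : ℝ) ^ β χ * f χ ≤ T) : ∑ χ ∈ A, f χ ≤ (n + 1) * C * T := by
  rw [← Finset.sum_fiberwise_of_maps_to (g := β) (t := Finset.range (n + 1))
    fun χ hχ => Finset.mem_range.2 (Nat.lt_succ_of_le (hn χ (hA hχ)))]
  refine (Finset.sum_le_card_nsmul _ _ (C * T) fun k _ => ?_).trans_eq ?_
  · have q0 : (0 : ℝ) < (q : ℝ) ^ k := by positivity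
    refine (Finset.sum_le_card_nsmul _ _ (T / (q : ℝ) ^ k) fun χ hχ => ?_).trans ?_
    · obtain ⟨h1, h2⟩ := Finset.mem_filter.1 hχ
      rw [le_div_iff₀' q0, ← h2]
      exact hf χ h1
    · have h3 : ((A.filter fun χ => β χ = k).card : ℝ) ≤ C * (q : ℝ) ^ k := by
        exact_mod_cast (Finset.card_le_card (Finset.filter_subset_filter _ hA)).trans (hc k)
      rw [nsmul_eq_mul]
      refine (mul_le_mul_of_nonneg_right h3 (by positivity)).trans_eq ?_
      field_simp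
  · rw [Finset.card_range, nsmul_eq_mul]
    push_cast
    ring

theorem cfin_term {d q K s x : ℝ} {e k : ℕ} (hq : 1 ≤ q) (hK : 1 ≤ K) (h : q ^ e ≤ K * d)
    (h0 : 0 ≤ s) (h2 : s ≤ 2) (hx : k - e * s ≤ x) : q ^ k * d ^ (-s) ≤ K ^ 2 * q ^ x := by
  have q0 : 0 < q := by linarith
  refine (mul_le_mul_of_nonneg_left (f0c_pow q0 hK h h0 h2) (by positivity)).trans ?_
  rw [mul_left_comm, ← Real.rpow_natCast q k, ← Real.rpow_add q0]
  exact mul_le_mul_of_nonneg_left (Real.rpow_le_rpow_of_exponent_le hq (by linarith))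
    (by positivity)

theorem cfin_cE {j n : ℕ} (h : j ≤ n) : 2 * cE (j + 1) n + j * (j + 1) = 2 * j * n := by
  induction j with
  | zero => simp [cE]
  | succ j ih =>
    have h1 := ih (by omega)
    have h2 : cE (j + 1 + 1) n = cE (j + 1) n + (n - 1 - j) := Finset.sum_range_succ _ _
    obtain ⟨t, rfl⟩ := Nat.exists_eq_add_of_le h
    rw [h2, show j + 1 + t - 1 - j = t by omega]
    nlinarith

theorem gl_zeta (n : ℕ) : ∃ C : ℝ, ∀ m ≤ n, ∀ (F : Type) [Field F] [Fintype F] (s : ℝ),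
    0 ≤ s → s ≤ 2 → Zs (GLn m F) (fun _ => True) s ≤
      C * ((Fintype.card F : ℝ) + (Fintype.card F : ℝ) ^ ((m : ℝ) - s * (m * (m - 1) / 2))) := by
  classical
  choose C hC using cls_main
  refine ⟨∑ m ∈ Finset.range (n + 1), (m + 1) * C m * (2 ^ m) ^ 2, fun m hm F _ _ s h0 h2 => ?_⟩
  obtain ⟨β, hβ, hc⟩ := hC m F
  rw [Nat.card_eq_fintype_card] at hβ hc
  obtain ⟨A, hA, -, e⟩ := f0c_Zs (G := GLn m F) (fun _ => True) s
  have q0 : 0 < Fintype.card F := Fintype.card_pos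
  have q1 : (1 : ℝ) ≤ Fintype.card F := by exact_mod_cast q0
  have K1 : (1 : ℝ) ≤ 2 ^ m := one_le_pow₀ one_le_two
  rw [e]
  refine (cfin_sum hA β (T := (2 ^ m) ^ 2 * ((Fintype.card F : ℝ) +
    (Fintype.card F : ℝ) ^ ((m : ℝ) - s * (m * (m - 1) / 2)))) (by positivity) q0
    (fun χ hχ => (hβ χ hχ).1) hc fun χ hχ => ?_).trans ?_
  · obtain ⟨h3, h4⟩ := hβ χ (hA hχ)
    have key : (β χ : ℝ) - cE (β χ) m * s ≤ 1 ∨
        (β χ : ℝ) - cE (β χ) m * s ≤ (m : ℝ) - s * (m * (m - 1) / 2) := by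
      generalize β χ = k at h3
      rcases k with _ | j
      · left; simp [cE]
      have h5 : 2 * (cE (j + 1) m : ℝ) + j * (j + 1) = 2 * j * m := by
        exact_mod_cast cfin_cE (Nat.le_of_succ_le h3)
      have h6 : (j : ℝ) + 1 ≤ m := by exact_mod_cast h3
      have h7 : (0 : ℝ) ≤ j := Nat.cast_nonneg j
      have h8 : (j : ℝ) * m * s ≤ 2 * cE (j + 1) m * s :=
        mul_le_mul_of_nonneg_right (by nlinarith) h0
      push_cast
      rcases le_total (1 - s * m / 2) 0 with z | z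
      · left; nlinarith
      · right; nlinarith [mul_nonneg (sub_nonneg.2 h6) z]
    rcases key with z | z
    · refine (cfin_term q1 K1 h4 h0 h2 z).trans (mul_le_mul_of_nonneg_left ?_ (by positivity))
      rw [Real.rpow_one]
      exact le_add_of_nonneg_right (by positivity)
    · refine (cfin_term q1 K1 h4 h0 h2 z).trans (mul_le_mul_of_nonneg_left ?_ (by positivity))
      exact le_add_of_nonneg_left (by positivity)
  · rw [← mul_assoc]
    refine mul_le_mul_of_nonneg_right ?_ (by positivity)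
    exact Finset.single_le_sum (f := fun m : ℕ => ((m : ℝ) + 1) * C m * (2 ^ m) ^ 2)
      (fun _ _ => by positivity) (Finset.mem_range.2 (Nat.lt_succ_of_le hm))

theorem level_zero3 (n : ℕ) (hn : 5 ≤ n) : ∃ C : ℝ, ∀ (p : ℕ) [Fact p.Prime] (s : ℝ),
    1 / 2 ≤ s → s ≤ 2 →
    Zs (GLn n (ZMod p)) (fun χ => ∃ x ∈ (Set.univ : Set (SLn n (ZMod p))),
      ¬ InKer χ (inGL n _ x)) s ≤ C * (p : ℝ) ^ (2 - 4 * s) := by
  classical
  obtain ⟨C, hC⟩ := cls_main n
  refine ⟨(n + 1) * C * (2 ^ n) ^ 2, fun p hp s h1 h2 => ?_⟩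
  have hab : (⟨0, by omega⟩ : Fin n) ≠ ⟨1, by omega⟩ := by simp
  obtain ⟨β, hβ, hc⟩ := hC (ZMod p)
  rw [Nat.card_zmod] at hβ hc
  have p2 : (2 : ℝ) ≤ p := by exact_mod_cast hp.out.two_le
  have p1 : (1 : ℝ) ≤ p := by linarith
  have K1 : (1 : ℝ) ≤ 2 ^ n := one_le_pow₀ one_le_two
  have q1 : 1 ≤ p ^ (n - 1) := Nat.one_le_pow _ _ hp.out.pos
  have q2 : (2 : ℝ) ≤ p ^ (n - 1) := p2.trans (le_self_pow₀ p1 (by omega))
  obtain ⟨A, hA, hP, e⟩ := f0c_Zs (fun χ => ∃ x ∈ (Set.univ : Set (SLn n (ZMod p))),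
    ¬ InKer χ (inGL n _ x)) s
  rw [e, mul_assoc _ _ ((p : ℝ) ^ _)]
  refine cfin_sum hA β (by positivity) hp.out.pos (fun χ hχ => (hβ χ hχ).1) hc fun χ hχ => ?_
  obtain ⟨h3, h4⟩ := hβ χ (hA hχ)
  rcases le_or_gt (β χ) 1 with z | z
  · have h5 : (p : ℝ) ^ 4 ≤ 2 ^ n * ‖χ 1‖ := by
      obtain ⟨x, -, hx⟩ := hP χ hχ
      obtain ⟨V, _, _, _, ρ, hρ, rfl⟩ := mem_Irr.1 (hA hχ)
      obtain ⟨d1, -⟩ := dichotomy (p := p) (by omega) hab ρ hρ ⟨x, fun e => hx fun g => by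
        rw [Representation.character, Representation.character, map_mul, e, one_mul]⟩
      rw [Representation.char_one, Complex.norm_natCast]
      have d1' : (p : ℝ) ^ (n - 1) - 1 ≤ Module.finrank ℂ V := by exact_mod_cast d1
      have d2 : (p : ℝ) ^ 4 ≤ p ^ (n - 1) := pow_le_pow_right₀ p1 (by omega)
      have d3 : (2 : ℝ) ≤ 2 ^ n := le_self_pow₀ one_le_two (by omega)
      have d4 := mul_le_mul_of_nonneg_right d3 (Nat.cast_nonneg (Module.finrank ℂ V))
      linarith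
    have h6 : (β χ : ℝ) ≤ 1 := by exact_mod_cast z
    exact cfin_term p1 K1 h5 (by linarith) h2 (by push_cast; linarith)
  · refine cfin_term p1 K1 h4 (by linarith) h2 ?_
    generalize β χ = k at h3 z
    obtain ⟨j, rfl⟩ : ∃ j, k = j + 1 := ⟨k - 1, by omega⟩
    have h5 := cfin_cE (Nat.le_of_succ_le h3)
    have h6 : 2 * (j + 1) ≤ cE (j + 1) n := by
      rcases le_or_gt 4 j with y | y
      · nlinarith
      · interval_cases j <;> omega
    have h7 : 2 * ((j : ℝ) + 1) ≤ cE (j + 1) n := by exact_mod_cast h6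
    have h8 : (1 : ℝ) ≤ j := by exact_mod_cast (by omega : 1 ≤ j)
    have h9 := mul_le_mul_of_nonneg_right h7 (by linarith : 0 ≤ s)
    push_cast
    nlinarith [mul_nonneg (sub_nonneg.2 h8) (sub_nonneg.2 h1)]

end Pool.Agent.MP_8299d6_al.Up

end
end

section

open Matrix

noncomputable section

namespace Pool.Agent.MP_8299d6_al.Up

open Pool.Agent.MP_810665_al (IrrChar)

theorem hdzeta_iso {G H : Type} [Group G] [Finite G] [Group H] [Finite H] (e : G ≃* H) (s : ℝ) :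
    Zs G (fun _ => True) s ≤ Zs H (fun _ => True) s :=
  Zs_le_of_surj e.toMonoidHom e.surjective (fun χ _ _ x hx g => by
    rw [(map_eq_one_iff e e.injective).1 hx, one_mul]) (fun _ _ _ => trivial) s

theorem hdzeta_pi (s : ℝ) (hs : 0 ≤ s) (ι : Type) [Fintype ι] :
    ∀ (H : ι → Type) [∀ i, Group (H i)] [∀ i, Finite (H i)],
      Zs (∀ i, H i) (fun _ => True) s ≤ ∏ i, Zs (H i) (fun _ => True) s := by
  revert ι
  refine Fintype.induction_empty_option ?_ ?_ ?_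
  · intro α β _ e ih H _ _
    let : Fintype α := Fintype.ofEquiv β e.symm
    rw [← Equiv.prod_comp e]
    exact (hdzeta_iso
      { toFun := fun f a => f (e a)
        invFun := Equiv.piCongrLeft H e
        left_inv := fun f => (Equiv.piCongrLeft H e).right_inv f
        right_inv := fun f => (Equiv.piCongrLeft H e).left_inv f
        map_mul' := fun _ _ => rfl } s).trans (ih fun a => H (e a))
  · intro H _ _
    simpa using Zs_le_card (G := ∀ i, H i) (fun _ => True) hs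
  · intro α _ ih H _ _
    rw [Fintype.prod_option]
    refine (hdzeta_iso (H := H none × ∀ a, H (some a))
      { toFun := fun f => (f none, fun a => f (some a))
        invFun := fun x o => Option.rec x.1 x.2 o
        left_inv := fun f => by funext o; cases o <;> rfl
        right_inv := fun x => rfl
        map_mul' := fun _ _ => rfl } s).trans ((Zs_prod _ s).trans ?_)
    exact mul_le_mul_of_nonneg_left (ih fun a => H (some a)) (Zs_nonneg _ _)

theorem hdzeta_orb {ι : Type} [Fintype ι] {M : ι → Type} [∀ i, Ring (M i)] (β : ∀ i, M i) :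
    (orb β).ncard = ∏ i, (orb (β i)).ncard := by
  have e : orb β = Set.univ.pi fun i => orb (β i) := by
    ext B
    constructor
    · rintro ⟨g, rfl⟩ i -
      exact ⟨MulEquiv.piUnits g i, rfl⟩
    · intro h
      choose g hg using fun i => h i trivial
      exact ⟨MulEquiv.piUnits.symm g, funext hg⟩
  rw [e, ← Nat.card_coe_set_eq, Nat.card_congr (Equiv.Set.univPi _), Nat.card_pi]
  rfl

open Classical in
/-- the orbit bound for the units of a semisimple ring -/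
theorem semi_zeta (n : ℕ) : ∃ D : ℝ, 0 ≤ D ∧ ∀ (ι : Type) [Fintype ι] [DecidableEq ι] (d : ι → ℕ)
    (K : ι → Type) [∀ i, Field (K i)] [∀ i, Fintype (K i)], Fintype.card ι ≤ n ^ 2 →
    (∀ i, 0 < d i) → (∀ i, d i ≤ n) → (∀ i, 2 * n ≤ Fintype.card (K i)) → ∀ s : ℝ, 0 ≤ s → s ≤ 2 →
    Zs (∀ i, Mat (d i) (K i))ˣ (fun _ => True) s ≤
      D * ∑ β : (∀ i, Mat (d i) (K i)), ((orb β).ncard : ℝ) ^ (-1 - s / 2) := by
  obtain ⟨C, hC⟩ := gl_zeta n
  obtain ⟨c, hc, hm⟩ := mat_sum n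
  obtain ⟨E, hE1, hE⟩ : ∃ E : ℝ, 1 ≤ E ∧ C ≤ E * c :=
    ⟨max 1 (C / c), le_max_left _ _, (div_le_iff₀ hc).1 (le_max_right _ _)⟩
  refine ⟨E ^ n ^ 2, by positivity, fun ι _ _ d K _ _ hι d0 dn hK s s0 s2 => ?_⟩
  have h1 : ∀ i, Zs (GLn (d i) (K i)) (fun _ => True) s ≤
      E * ∑ β : Mat (d i) (K i), ((orb β).ncard : ℝ) ^ (-1 - s / 2) := fun i => by
    refine (hC _ (dn i) (K i) s s0 s2).trans
      ((mul_le_mul_of_nonneg_right hE (by positivity)).trans ?_)
    rw [mul_assoc]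
    exact mul_le_mul_of_nonneg_left (hm _ (d0 i) (dn i) (K i) (hK i) s s0 s2) (by positivity)
  refine (hdzeta_iso MulEquiv.piUnits s).trans ((hdzeta_pi s s0 ι _).trans
    ((Finset.prod_le_prod (fun i _ => Zs_nonneg _ _) fun i _ => h1 i).trans ?_))
  rw [Finset.prod_mul_distrib, Finset.prod_const, Finset.card_univ, Finset.prod_univ_sum,
    Fintype.piFinset_univ]
  refine mul_le_mul (pow_le_pow_right₀ hE1 hι) (le_of_eq (Finset.sum_congr rfl fun β _ => ?_))
    (Finset.sum_nonneg fun β _ => Finset.prod_nonneg fun i _ => by positivity) (by positivity)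
  rw [hdzeta_orb, Nat.cast_prod, Real.finsetProd_rpow _ _ fun i _ => Nat.cast_nonneg _]

end Pool.Agent.MP_8299d6_al.Up

end
end

section

open Matrix

noncomputable section

namespace Pool.Agent.MP_8299d6_al.Up

open Pool.Agent.MP_810665_al (IrrChar)

lemma hdss4_list {A : Type} [Monoid A] {P Q : A → Prop} {N : ℕ}
    (h : ∀ x : Fin N → A, (∀ i, P (x i)) → Q (List.ofFn x).prod) (l : List A) (hl : l.length = N)
    (hP : ∀ x ∈ l, P x) : Q l.prod := by
  subst hl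
  have := h l.get fun i => hP _ (List.get_mem l i)
  rwa [List.ofFn_get] at this

lemma hdss4_block {A : Type} [Monoid A] {P Q : A → Prop} {N : ℕ}
    (h : ∀ l : List A, l.length = N → (∀ x ∈ l, P x) → Q l.prod) (k : ℕ) :
    ∀ l : List A, l.length = k * N → (∀ x ∈ l, P x) →
      ∃ m : List A, m.length = k ∧ (∀ x ∈ m, Q x) ∧ m.prod = l.prod := by
  induction k with
  | zero =>
    intro l hl _
    rw [zero_mul, List.length_eq_zero_iff] at hl
    exact ⟨[], rfl, by simp, by rw [hl]⟩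
  | succ k ih =>
    intro l hl hP
    rw [Nat.succ_mul] at hl
    obtain ⟨m, h1, h2, h3⟩ := ih (l.drop N) (by rw [List.length_drop]; omega)
      fun x hx => hP x (List.mem_of_mem_drop hx)
    refine ⟨(l.take N).prod :: m, by rw [List.length_cons, h1], fun x hx => ?_, ?_⟩
    · rcases List.mem_cons.1 hx with rfl | hx
      · exact h _ (by rw [List.length_take]; omega) fun y hy => hP y (List.mem_of_mem_take hy)
      · exact h2 x hx
    · rw [List.prod_cons, h3, List.prod_take_mul_prod_drop]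

lemma hdss4_short {n : ℕ} {F : Type} [Field F] {A : Type} [Ring A] (φ : A →+* Mat n F)
    (S : Set A) (N : ℕ) (hN : ∀ l : List A, l.length = N → (∀ x ∈ l, x ∈ S) → l.prod = 0)
    (x : Fin n → A) (hx : ∀ i, x i ∈ S) : φ (List.ofFn x).prod = 0 := by
  have h1 : ss1W φ S N = ⊤ := by
    rw [eq_top_iff]
    intro v _
    rw [ss1_mem]
    intro l hl hS
    rw [hN l hl hS, map_zero, zero_mulVec]
  have h2 := ss1_top φ _ N h1
  ext i j
  have h3 : (Pi.single j 1 : Fin n → F) ∈ ss1W φ S n := h2 ▸ Submodule.mem_top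
  have h4 := ss1_mem.1 h3 (List.ofFn x) (by simp) (by
    intro y hy
    obtain ⟨i, rfl⟩ := List.mem_ofFn.1 hy
    exact hx i)
  have := congrFun h4 i
  simpa using this

lemma hdss4_card {n p : ℕ} [Fact p.Prime] {ι : Type} {d : ι → ℕ} {K : ι → Type}
    [∀ i, Field (K i)] [Fintype ι] [∀ i, Fintype (K i)]
    {h : Subring (Mat n (ZMod p))} {π : h →+* ∀ i, Mat (d i) (K i)}
    (hπ : Function.Surjective π) : ∏ i, Fintype.card (K i) ^ (d i * d i) ≤ p ^ (n * n) := by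
  classical
  have h1 := Nat.card_le_card_of_surjective π hπ
  have h2 : Nat.card h ≤ Nat.card (Mat n (ZMod p)) := Finite.card_subtype_le _
  have h3 : ∀ (m : ℕ) (R : Type) [Fintype R], Nat.card (Mat m R) = Fintype.card R ^ (m * m) := by
    intro m R _
    show Nat.card (Fin m → Fin m → R) = _
    simp [pow_mul]
  rw [h3, ZMod.card] at h2
  rw [Nat.card_pi] at h1
  simp only [h3] at h1
  exact h1.trans h2

/-- the radical of a subring with its structure map -/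
theorem ss4 (n p : ℕ) [Fact p.Prime] (hp : n < p) (h : Subring (Mat n (ZMod p))) :
    ∃ (J : AddSubgroup (Mat n (ZMod p))) (ι : Type) (_ : Fintype ι) (_ : DecidableEq ι) (d : ι → ℕ)
      (K : ι → Type) (_ : ∀ i, Field (K i)) (_ : ∀ i, Fintype (K i))
      (_ : ∀ i, Algebra (ZMod p) (K i)) (π : h →+* (∀ i, Mat (d i) (K i))),
      (∀ y ∈ J, y ∈ h) ∧ (∀ x ∈ h, ∀ y ∈ J, x * y ∈ J ∧ y * x ∈ J) ∧
      NilTo n (J : Set (Mat n (ZMod p))) {0} ∧
      (∀ I : AddSubgroup (Mat n (ZMod p)), (∀ y ∈ I, y ∈ h) →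
        (∀ x ∈ h, ∀ y ∈ I, x * y ∈ I ∧ y * x ∈ I) → NilTo n (I : Set (Mat n (ZMod p))) {0} →
        I ≤ J) ∧
      (3 ≤ p → ∀ (W : Type) [AddCommGroup W] (β : h →+ h →+ W),
        (∀ x y : h, x.1 ∈ J → β x y = 0 ∧ β y x = 0) →
        (∀ x y z, β (x * y) z = β x (y * z) + β y (z * x)) →
        ∃ μ : h →+ W, (∀ x : h, x.1 ∈ J → μ x = 0) ∧ ∀ x y, β x y = μ (x * y - y * x)) ∧
      (∀ i, 0 < d i) ∧ (∀ i, d i ≤ n) ∧ Fintype.card ι ≤ n ^ 2 ∧ Function.Surjective π ∧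
      (∀ x : h, π x = 0 ↔ x.1 ∈ J) ∧ (∀ x : h, IsUnit (π x) → IsUnit x.1) ∧
      ∀ (U : NonUnitalSubring (∀ i, Mat (d i) (K i))) (N : ℕ),
        NilTo N (U : Set (∀ i, Mat (d i) (K i))) {0} →
        NilTo n {y : Mat n (ZMod p) | ∃ x : h, π x ∈ U ∧ x.1 = y} {0} := by
  obtain ⟨ι, _, _, d, K, _, _, _, π, hd, hπ, hnil, hmax⟩ := ss_struct n p h
  have p1 : 1 < p := (Fact.out : p.Prime).one_lt
  have hK : ∀ i, ∃ f, 1 ≤ f ∧ Fintype.card (K i) = p ^ f := fun i => by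
    have h1 := Module.card_eq_pow_finrank (K := ZMod p) (V := K i)
    rw [ZMod.card] at h1
    exact ⟨_, Module.finrank_pos, h1⟩
  choose f hf1 hf using hK
  have hc := hdss4_card hπ
  simp only [hf, ← pow_mul, Finset.prod_pow_eq_pow_sum] at hc
  have hs := (Nat.pow_le_pow_iff_right p1).1 hc
  have hdn : ∀ i, d i ≤ n := fun i => by
    have h1 : f i * (d i * d i) ≤ ∑ j, f j * (d j * d j) :=
      Finset.single_le_sum (f := fun j => f j * (d j * d j)) (fun _ _ => Nat.zero_le _)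
        (Finset.mem_univ i)
    have h2 : d i * d i ≤ f i * (d i * d i) := Nat.le_mul_of_pos_left _ (hf1 i)
    exact Nat.mul_self_le_mul_self_iff.1 (by omega)
  have hι : Fintype.card ι ≤ n ^ 2 := by
    have h1 : ∑ _j : ι, 1 ≤ ∑ j, f j * (d j * d j) :=
      Finset.sum_le_sum fun j _ => Nat.mul_pos (hf1 j) (Nat.mul_pos (hd j) (hd j))
    rw [Finset.sum_const, Finset.card_univ, smul_eq_mul, mul_one] at h1
    rw [sq]
    exact h1.trans hs
  refine ⟨ss2J h π, ι, inferInstance, inferInstance, d, K, inferInstance, inferInstance,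
    inferInstance, π, ?_, ?_, ?_, ?_, ?_, hd, hdn, hι, hπ, fun x => ss2J_coe.symm,
    fun x hx => ss2_unit hπ hnil hx, ?_⟩
  · rintro _ ⟨x, -, rfl⟩
    exact x.2
  · rintro x hx _ ⟨y, hy, rfl⟩
    have hy' : π y = 0 := hy
    refine ⟨⟨⟨x, hx⟩ * y, ?_, rfl⟩, ⟨y * ⟨x, hx⟩, ?_, rfl⟩⟩
    · show π _ = 0
      rw [map_mul, hy', mul_zero]
    · show π _ = 0
      rw [map_mul, hy', zero_mul]
  · intro x hx
    choose y hy hy' using fun i => ss2J_mem.1 (hx i)
    have h1 := congrArg Subtype.val (hnil y hy)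
    rw [ss2_prod] at h1
    simp only [hy'] at h1
    exact h1
  · intro I h1 h2 h3 y hy
    refine ⟨⟨y, h1 y hy⟩, ?_, rfl⟩
    refine hmax (I.comap h.subtype.toAddMonoidHom) (fun x z hz => h2 x.1 x.2 z.1 hz) ?_ _ hy
    intro x hx
    apply Subtype.ext
    rw [ss2_prod]
    exact h3 (fun i => (x i).1) hx
  · intro hp3 W _ β h1 h2
    obtain ⟨γ, hγ⟩ := ss2_desc π.toAddMonoidHom hπ β fun x y hx => h1 x y (ss2J_coe.2 hx)
    have hγ' : ∀ x y, γ (π x) (π y) = β x y := hγ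
    obtain ⟨μ, hμ⟩ := cocycle_inner p hp3 d (fun i => (hdn i).trans_lt hp) K γ (by
      intro x y z
      obtain ⟨x, rfl⟩ := hπ x
      obtain ⟨y, rfl⟩ := hπ y
      obtain ⟨z, rfl⟩ := hπ z
      rw [← map_mul, ← map_mul, ← map_mul, hγ', hγ', hγ', h2])
    refine ⟨μ.comp π.toAddMonoidHom, fun x hx => ?_, fun x y => ?_⟩
    · show μ (π x) = 0
      rw [ss2J_coe.1 hx, map_zero]
    · show β x y = μ (π _)
      rw [← hγ', hμ, map_sub π, map_mul, map_mul]
  · intro U N hU x hx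
    choose y hy hy' using hx
    have h1 : ∀ z : Fin N → h, (∀ i, π (z i) ∈ U) → π (List.ofFn z).prod = 0 := fun z hz => by
      rw [map_list_prod, List.map_ofFn]
      exact hU _ hz
    have h2 := hdss4_short h.subtype {z | π z ∈ U} (n * N) (fun l hl hS => by
      obtain ⟨m, m1, m2, m3⟩ := hdss4_block (P := fun z => π z ∈ U) (Q := fun z => π z = 0)
        (hdss4_list (P := fun z => π z ∈ U) (Q := fun z => π z = 0) h1) n l hl hS
      rw [← m3]
      exact hdss4_list (P := fun z => π z = 0) (Q := fun z => z = 0) hnil m m1 m2) y hy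
    have h3 := ss2_prod y
    simp only [hy'] at h3
    exact h3.symm.trans h2

end Pool.Agent.MP_8299d6_al.Up

end
end

section

open Matrix

noncomputable section

namespace Pool.Agent.MP_8299d6_al.Up

open Pool.Agent.MP_810665_al (IrrChar)

lemma hdchain_card (p : ℕ) [Fact p.Prime] (K : Type) [Field K] [Fintype K] [Algebra (ZMod p) K] :
    p ≤ Fintype.card K := by
  have := Fintype.card_le_of_injective _ (algebraMap (ZMod p) K).injective
  rwa [ZMod.card] at this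

lemma hdchain_base {M : Type} [Ring M] [Fintype M] {τ : AddChar M ℂ} (p : ℕ) [Fact p.Prime]
    (hMp : ∃ a : ℕ, Nat.card M = p ^ a) (O : Subring M) (J : NonUnitalSubring M) {L : M → M}
    {H : Subgroup Mˣ} (hH : ∀ g : Mˣ, g ∈ H ↔ (g : M) ∈ O) (h : Sit τ J J L H)
    (hJO : ∀ y ∈ J, y ∈ O) (hid : ∀ x ∈ O, ∀ y ∈ J, x * y ∈ J ∧ y * x ∈ J) (A : M)
    (hA : ∀ y ∈ O, ∃ y' ∈ O, y - y' ∈ J ∧ A * y' - y' * A ∈ perp τ O.toAddSubgroup)
    {S : Type} [Ring S] {iS : Fintype S} {τS : AddChar S ℂ} (hS : Frob τS) (π : O →+* S)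
    (hπ : Function.Surjective π) (hker : ∀ x : O, π x = 0 ↔ x.1 ∈ J)
    (hu : ∀ x : O, IsUnit (π x) → IsUnit x.1) (U : NonUnitalSubring S) (hU : ¬ p ∣ (UU U).index)
    (hOM : ∀ J₁ : NonUnitalSubring M, J ≤ J₁ → (∀ x ∈ J₁, ∃ y : O, π y ∈ U ∧ y.1 = x) →
      OM J₁ J₁ L) {D s : ℝ} (hD : 0 ≤ D)
    (hZ : Zs Sˣ (fun _ => True) s ≤ D * ∑ β : S, ((orb β).ncard : ℝ) ^ (-1 - s / 2))
    (hM : Nat.card M ≤ 2 * Nat.card Mˣ) (hs : 0 ≤ s) (hs2 : s ≤ 2) :
    Zs H (fun χ => Sup τ J L H χ ⊆ cls τ J (UU J) A) s ≤ (Nat.card H : ℝ) ^ (-1 - s) *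
      sumOn (cls τ J (UU J) A)
        (fun B => 2 * D * (Nat.card Mˣ : ℝ) ^ (1 + s) * ((orb B).ncard : ℝ) ^ (-1 - s / 2)) := by
  let t : H →* O :=
    { toFun := fun u => ⟨u.1, (hH _).1 u.2⟩
      map_one' := rfl
      map_mul' := fun _ _ => rfl }
  let q : H →* Sˣ := (π.toMonoidHom.comp t).toHomUnits
  have hq : ∀ u : H, (q u : S) - 1 = π (t u - 1) := fun u => by
    rw [map_sub, map_one]
    rfl
  have hqs : Function.Surjective q := fun v => by
    obtain ⟨x, hx⟩ := hπ v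
    obtain ⟨g, hg⟩ := hu x (hx ▸ v.isUnit)
    refine ⟨⟨g, (hH g).2 (hg ▸ x.2)⟩, Units.ext ?_⟩
    rw [← hx]
    exact congrArg π (Subtype.ext hg)
  have hqk : ∀ u : H, q u = 1 ↔ u.1 ∈ UU J := fun u => by
    rw [← Units.val_eq_one, ← sub_eq_zero, hq, hker]
    exact Iff.rfl
  let J₁ : NonUnitalSubring M := (U.comap (π : O →ₙ+* S)).map (O.subtype : O →ₙ+* M)
  have hJ₁ : ∀ x, x ∈ J₁ ↔ ∃ y : O, π y ∈ U ∧ y.1 = x := fun x => Iff.rfl
  have hJJ : J ≤ J₁ := fun x hx =>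
    (hJ₁ x).2 ⟨⟨x, hJO x hx⟩, by rw [(hker _).2 hx]; exact zero_mem _, rfl⟩
  have hsub : (UU J₁).subgroupOf H = (UU U).comap q := by
    ext u
    rw [Subgroup.mem_subgroupOf, Subgroup.mem_comap, mem_UU, mem_UU, hq, hJ₁]
    refine ⟨fun ⟨y, hy, e⟩ => ?_, fun hy => ⟨_, hy, rfl⟩⟩
    rwa [show t u - 1 = y from Subtype.ext e.symm]
  have h1 := base3_left p hMp O J J₁ hH h (hOM J₁ hJJ (fun x hx => (hJ₁ x).1 hx)) hJJ
    (fun x hx => by obtain ⟨y, -, rfl⟩ := (hJ₁ x).1 hx; exact y.2) hid A hA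
    (by rwa [hsub, Subgroup.index_comap_of_surjective _ hqs]) q hqs hqk hs
  have h2 := base3_right h.frob O J hH h.om.unit hJO hid A hA hS π hπ hker hM hs hs2
  refine h1.trans ((mul_le_mul_of_nonneg_left hZ (by positivity)).trans ?_)
  rw [mul_left_comm]
  refine (mul_le_mul_of_nonneg_left h2 hD).trans (le_of_eq ?_)
  rw [mul_left_comm]
  congr 1
  unfold sumOn
  rw [Finset.mul_sum]
  exact Finset.sum_congr rfl (fun B _ => by ring)

/-- the orbit bound without loss -/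
theorem chain3 (n : ℕ) (hn : 2 ≤ n) : ∃ C : ℝ, ∀ (p : ℕ) [Fact p.Prime], 2 * n ≤ p → ∀ (m : ℕ)
    (L : Mat n (ZMod (p ^ (m + 1))) → Mat n (ZMod (p ^ (m + 1)))),
    (∀ J : NonUnitalSubring (Mat n (ZMod (p ^ (m + 1)))), pI n _ (p : ZMod (p ^ (m + 1))) ≤ J →
        NilTo n (J : Set (Mat n (ZMod (p ^ (m + 1))))) (pI n _ (p : ZMod (p ^ (m + 1)))) →
        OM J J L) →
    ∀ s : ℝ, 0 ≤ s → s ≤ 2 →
    Zs (⊤ : Subgroup (GLn n (ZMod (p ^ (m + 1)))))
      (fun χ => Sup (tau n (p ^ (m + 1))) (pI n _ (p : ZMod (p ^ (m + 1)))) L ⊤ χ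
        ⊆ NS n _ ((p : ZMod (p ^ (m + 1))) ^ m)) s ≤
      C * sumOn (NS n _ ((p : ZMod (p ^ (m + 1))) ^ m))
        (fun A => ((orb A).ncard : ℝ) ^ (-1 - s / 2)) := by
  classical
  obtain ⟨D, hD0, hD⟩ := semi_zeta n
  refine ⟨2 * D, fun p _ hp m L hL s hs hs2 => ?_⟩
  have hτ := frob_tau n (p ^ (m + 1))
  set τ := tau n (p ^ (m + 1))
  set P := pI n _ (p : ZMod (p ^ (m + 1))) with hP
  set π := redP n p m
  have hπP : ∀ x, π x = 0 ↔ x ∈ P := redP_eq_zero
  let f : Mat n (ZMod (p ^ (m + 1))) → ℝ := fun B => 2 * D *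
    (Nat.card (Mat n (ZMod (p ^ (m + 1))))ˣ : ℝ) ^ (1 + s) * ((orb B).ncard : ℝ) ^ (-1 - s / 2)
  have hf : ∀ B, 0 ≤ f B := fun B => by positivity
  have key : ∀ (N : ℕ) (O : Subring (Mat n (ZMod (p ^ (m + 1))))), Nat.card O = N →
      ∀ H : Subgroup (Mat n (ZMod (p ^ (m + 1))))ˣ,
      (∀ g, g ∈ H ↔ (g : Mat n (ZMod (p ^ (m + 1)))) ∈ O) →
      ∀ I : NonUnitalSubring (Mat n (ZMod (p ^ (m + 1)))), P ≤ I → (∀ y ∈ I, y ∈ O) →
      (∀ x ∈ O, ∀ y ∈ I, x * y ∈ I ∧ y * x ∈ I) →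
      NilTo n (I : Set (Mat n (ZMod (p ^ (m + 1))))) P → ∀ A,
      Zs H (fun χ => Sup τ I L H χ ⊆ cls τ I (UU I) A) s ≤
        (Nat.card H : ℝ) ^ (-1 - s) * sumOn (cls τ I (UU I) A) f := by
    intro N
    induction N using Nat.strong_induction_on with
    | _ N ih =>
    intro O hN H hH I hPI hIO hIid hInil A
    have hker : ∀ x, π x = 0 → x ∈ O := fun x hx => hIO x (hPI ((hπP x).1 hx))
    have hmem : ∀ x, π x ∈ O.map π → x ∈ O := by
      rintro x ⟨y, hy, hxy⟩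
      have := O.add_mem (hker (x - y) (by rw [map_sub, sub_eq_zero]; exact hxy.symm)) hy
      rwa [sub_add_cancel] at this
    obtain ⟨J', ι, _, _, d, K, _, _, _, ϖ, hJ'h, hJ'id, hJ'nil, hmax, hcoc, hd0, hdn, hι, hϖ,
      hϖ0, hϖu, hϖn⟩ := ss4 n p (by omega) (O.map π)
    let J : NonUnitalSubring (Mat n (ZMod (p ^ (m + 1)))) :=
      { carrier := {x | π x ∈ J'}
        zero_mem' := by simp
        add_mem' := fun hx hy => by simpa using add_mem hx hy
        neg_mem' := fun hx => by simpa using hx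
        mul_mem' := fun {x y} hx hy => by simpa using (hJ'id _ (hJ'h _ hx) _ hy).1 }
    have hJ : ∀ x, x ∈ J ↔ π x ∈ J' := fun _ => Iff.rfl
    have hJO : ∀ y ∈ J, y ∈ O := fun y hy => hmem y (hJ'h _ hy)
    have hJid : ∀ x ∈ O, ∀ y ∈ J, x * y ∈ J ∧ y * x ∈ J := fun x hx y hy => by
      simpa [hJ] using hJ'id _ ⟨x, hx, rfl⟩ _ hy
    have hPJ : P ≤ J := fun x hx => by rw [hJ, (hπP x).2 hx]; exact zero_mem _
    have hJnil : NilTo n (J : Set (Mat n (ZMod (p ^ (m + 1))))) P := fun x hx => by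
      have := hJ'nil (fun i => π (x i)) hx
      refine (hπP _).1 ?_
      rw [map_list_prod, List.map_ofFn]
      exact this
    have hIJ : I ≤ J := by
      have := hmax (I.toAddSubgroup.map π.toAddMonoidHom) (by
        rintro _ ⟨y, hy, rfl⟩
        exact ⟨y, hIO y hy, rfl⟩) (by
        rintro _ ⟨x, hx, rfl⟩ _ ⟨y, hy, rfl⟩
        exact ⟨⟨x * y, (hIid x hx y hy).1, by simp⟩, ⟨y * x, (hIid x hx y hy).2, by simp⟩⟩) (by
        intro x hx
        choose y hy hyx using hx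
        have := (hπP _).2 (hInil y hy)
        rw [map_list_prod, List.map_ofFn] at this
        have e : π ∘ y = x := funext hyx
        rw [e] at this
        exact this)
      exact fun y hy => this ⟨y, hy, rfl⟩
    have SI := chain_sit hτ hH (hL I hPI hInil) hIO hIid
    have SJ := chain_sit hτ hH (hL J hPJ hJnil) hJO hJid
    by_cases hne : ∃ χ ∈ Irr H, Sup τ I L H χ ⊆ cls τ I (UU I) A
    swap
    · have : Zs H (fun χ => Sup τ I L H χ ⊆ cls τ I (UU I) A) s = 0 :=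
        Finset.sum_eq_zero (fun χ hχ => absurd ⟨χ, Finset.mem_filter.1 hχ⟩ hne)
      rw [this]
      exact mul_nonneg (by positivity) (Finset.sum_nonneg (fun B _ => hf B))
    obtain ⟨χ₀, hχ₀, hA⟩ := hne
    refine (Zs_mono (fun χ hχ h => (SJ.sup_mono SI hIJ hχ).trans h) s).trans
      (SJ.step _ (chain_stable SI SJ hIJ hχ₀ hA) f hf hs (fun B _ H₁ hH₁ => ?_))
    obtain ⟨O₁, hO₁, hO₁'⟩ := stab_subring hτ O J hJO hJid SJ.om.unit B
    have hH₁' : ∀ g, g ∈ H₁ ↔ (g : Mat n (ZMod (p ^ (m + 1)))) ∈ O₁ := fun g => by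
      rw [hH₁, hO₁', hH]
    have hle : O₁ ≤ O := fun x hx => by
      obtain ⟨y, hy, _, h⟩ := (hO₁ x).1 hx
      have := O.add_mem (hJO _ h) hy
      rwa [sub_add_cancel] at this
    by_cases heq : O₁ = O
    · subst heq
      obtain ⟨A', hA', hA''⟩ := chain_central hτ π J' hJ hJ'id hJid hJO (hcoc (by omega) _) B
        (fun x hx => (hO₁ x).1 hx)
      have S₁ := chain_sit hτ hH₁' (hL J hPJ hJnil) hJO hJid
      rw [← hτ.cls_eq (fun g hg => S₁.norm g (S₁.sub hg)) hA']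
      obtain ⟨τS, hτS⟩ := semi_frob d K
      obtain ⟨U, N', hU, hUi⟩ := semi_syl p d K
      let ρ : O₁ →+* O₁.map π := (π.comp O₁.subtype).codRestrict _ (fun x => ⟨x.1, x.2, rfl⟩)
      have hρ : Function.Surjective ρ := by
        rintro ⟨_, x, hx, rfl⟩
        exact ⟨⟨x, hx⟩, rfl⟩
      refine hdchain_base p ⟨_, by rw [dens_card_mat, ← pow_mul]⟩ O₁ J hH₁' S₁ hJO hJid A' hA''
        hτS (ϖ.comp ρ) (hϖ.comp hρ) (fun x => hϖ0 (ρ x))
        (fun x hx => isUnit_of_redP (hϖu (ρ x) hx)) U hUi (fun J₁ h1 h2 => hL J₁ (hPJ.trans h1) ?_)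
        hD0 (hD ι d K hι hd0 hdn (fun i => hp.trans (hdchain_card p (K i))) s hs hs2)
        (card_mat_big hp m) hs hs2
      intro x hx
      have := hϖn U N' hU (fun i => π (x i)) (fun i => by
        obtain ⟨y, hy, e⟩ := h2 _ (hx i)
        exact ⟨ρ y, hy, e ▸ rfl⟩)
      refine (hπP _).1 ?_
      rw [map_list_prod, List.map_ofFn]
      exact this
    · refine ih (Nat.card O₁) ?_ O₁ rfl H₁ hH₁' J hPJ
        (fun y hy => (hO₁ y).2 ⟨0, O.zero_mem, by simp, by simpa using hy⟩)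
        (fun x hx => hJid x (hle hx)) hJnil B
      rw [← hN]
      exact Set.Finite.card_lt_card (Set.toFinite _)
        (SetLike.coe_ssubset_coe.2 (lt_of_le_of_ne hle heq))
  have hPnil : NilTo n (P : Set (Mat n (ZMod (p ^ (m + 1))))) P := fun x hx => by
    obtain ⟨k, rfl⟩ : ∃ k, n = k + 1 := ⟨n - 1, by omega⟩
    rw [List.ofFn_succ, List.prod_cons]
    exact (chain_pI_ideal _ (hx 0)).2
  have hPid : ∀ x ∈ (⊤ : Subring (Mat n (ZMod (p ^ (m + 1))))), ∀ y ∈ P, x * y ∈ P ∧ y * x ∈ P :=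
    fun x _ y hy => chain_pI_ideal x hy
  have S := chain_sit hτ (O := ⊤) (H := ⊤) (by simp) (hL P le_rfl hPnil) (by simp) hPid
  refine (S.step _ ?_ f hf hs (fun B _ H₁ hH₁ => ?_)).trans (le_of_eq ?_)
  · rintro A hA B ⟨g, _, hB⟩ ⟨c, hc⟩
    rw [perp_pI] at hB
    refine hA ⟨c, ?_⟩
    have h1 : cj g A - c • 1 ∈ pI n _ ((p : ZMod (p ^ (m + 1))) ^ m) := by
      have := sub_mem hc hB
      rwa [show B - c • 1 - (B - cj g A) = cj g A - c • 1 by abel] at this
    have h2 := (chain_pI_ideal (g : Mat n _) (chain_pI_ideal ((g⁻¹ : _ˣ) : Mat n _) h1).1).2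
    have e : A - c • 1 = ((g⁻¹ : _ˣ) : Mat n _) * (cj g A - c • 1) * (g : Mat n _) := by
      simp [cj, mul_sub, sub_mul, mul_assoc]
    rw [e]
    exact h2
  · obtain ⟨O₁, hO₁, hO₁'⟩ := stab_subring hτ ⊤ P (by simp) hPid S.om.unit B
    exact key _ O₁ rfl H₁ (fun g => by rw [hH₁, hO₁']; simp) P le_rfl
      (fun y hy => (hO₁ y).2 ⟨0, trivial, by simp, by simpa using hy⟩)
      (fun x _ => hPid x trivial) hPnil B
  · have h0 : (0 : ℝ) < Nat.card (Mat n (ZMod (p ^ (m + 1))))ˣ := by exact_mod_cast Nat.card_pos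
    have h1 : (Nat.card (Mat n (ZMod (p ^ (m + 1))))ˣ : ℝ) ^ (-1 - s) *
        (Nat.card (Mat n (ZMod (p ^ (m + 1))))ˣ : ℝ) ^ (1 + s) = 1 := by
      rw [← Real.rpow_add h0, show -1 - s + (1 + s) = 0 by ring, Real.rpow_zero]
    rw [Subgroup.card_top]
    unfold sumOn
    rw [Finset.mul_sum, Finset.mul_sum]
    refine Finset.sum_congr rfl (fun A _ => ?_)
    simp only [f]
    linear_combination (2 * D * ((orb A).ncard : ℝ) ^ (-1 - s / 2)) * h1

end Pool.Agent.MP_8299d6_al.Up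

end
end

section

open Matrix

noncomputable section

namespace Pool.Agent.MP_8299d6_al.Up

open Pool.Agent.MP_810665_al (IrrChar)

theorem hmain3_small (n : ℕ) (hn : 5 ≤ n) (p : ℕ) [Fact p.Prime] {s : ℝ} (hs : 1 / 2 < s)
    (hs2 : s ≤ 2) : ∃ C : ℝ, ∀ m : ℕ, Zs (SLn n (ZMod (p ^ (m + 1)))) (fun _ => True) s ≤ C := by
  obtain ⟨C₁, h1⟩ := small_gl n p
  obtain ⟨C₂, h2⟩ := level_small3 n hn p hs hs2
  have hp : (0 : ℝ) < p := by exact_mod_cast (Fact.out : p.Prime).pos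
  refine ⟨max (Nat.card (SLn n (ZMod (p ^ (0 + 1)))) : ℝ)
    (1 + 2 * ((2 * n : ℕ) : ℝ) ^ (4 : ℝ) * (|C₁| * C₂)), fun m => ?_⟩
  rcases m with _ | m
  · exact (Zs_le_card _ (by linarith)).trans (le_max_left _ _)
  refine le_trans ?_ (le_max_right _ _)
  refine (local_split s).trans (add_le_add le_rfl ?_)
  refine (transfer n (by omega) _ (2 * n) (index_pow n (by omega) p (m + 2)) _
    (by linarith)).trans ?_
  have hq : (0 : ℝ) < (p : ℝ) ^ (m + 1 + 1) := by positivity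
  have hu : (p : ℝ) ^ (m + 1 + 1) ≤ 2 * (Nat.card (ZMod (p ^ (m + 1 + 1)))ˣ : ℝ) := by
    exact_mod_cast card_units_zmod p (m + 1)
  have e1 := local_coef (n := n) (by omega) hs2 hq hu
  have e0 : 0 ≤ ∑ A : Mat n (ZMod (p ^ (m + 2))), cc A ^ (1 + s / 2) :=
    Finset.sum_nonneg (fun A _ => Real.rpow_nonneg (by unfold cc; positivity) _)
  have e2 : Zs (GLn n (ZMod (p ^ (m + 2)))) (fun χ => ∃ x ∈ (Set.univ : Set _),
      ¬ InKer χ (inGL n _ x)) s ≤ |C₁| * C₂ * (p : ℝ) ^ (m + 1 + 1) := by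
    refine (Zs_mono (fun _ _ _ => trivial) s).trans ((h1 m s (by linarith) hs2).trans ?_)
    refine (mul_le_mul_of_nonneg_right (le_abs_self C₁) e0).trans ?_
    rw [mul_assoc]
    exact mul_le_mul_of_nonneg_left (h2 (m + 1)) (abs_nonneg _)
  refine (mul_le_mul e1 e2 (Zs_nonneg _ _) (by positivity)).trans (le_of_eq ?_)
  field_simp

theorem hmain3_big (n : ℕ) (hn : 5 ≤ n) {s : ℝ} (hs : 1 / 2 < s) (hs2 : s ≤ 2) :
    ∃ (C C' : ℝ) (p₀ : ℕ), ∀ (p : ℕ) [Fact p.Prime], p₀ ≤ p → ∀ m : ℕ,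
    Zs (SLn n (ZMod (p ^ (m + 1)))) (fun _ => True) s ≤
      1 + (C * (p : ℝ) ^ (1 - 4 * s) + C' * (p : ℝ) ^ (-(1 / 2) - s)) := by
  obtain ⟨C₀, h0⟩ := level_zero3 n hn
  obtain ⟨C₁, h1⟩ := chain3 n (by omega)
  obtain ⟨C₂, p₂, h2⟩ := level_big3 n hn hs hs2
  refine ⟨2 * ((2 * n : ℕ) : ℝ) ^ (4 : ℝ) * C₀,
    2 * ((2 * n : ℕ) : ℝ) ^ (4 : ℝ) * (|C₁| * (4 * C₂)), max (3 * n) p₂, fun p _ hp m => ?_⟩
  have hp3 : 3 * n ≤ p := (le_max_left _ _).trans hp
  have hp0 : (0 : ℝ) < p := by exact_mod_cast (Fact.out : p.Prime).pos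
  obtain ⟨L, hL⟩ := om_big n p (by omega) hp3 m
  have hS := local_sit (by omega) hL
  refine (local_split s).trans (add_le_add le_rfl ?_)
  refine (Zs_or (Q := fun σ => (∃ x, ¬ InKer σ x) ∧ ∀ x, localRed n p m x = 1 → InKer σ x)
    (R := fun σ => ∃ x ∈ {x | localRed n p m x = 1}, ¬ InKer σ x) ?_ s).trans ?_
  · rintro σ _ ⟨x, _, hx⟩
    by_cases h : ∀ x, localRed n p m x = 1 → InKer σ x
    · exact Or.inl ⟨⟨x, hx⟩, h⟩
    · push Not at h
      exact Or.inr h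
  refine add_le_add ?_ ?_
  · refine (Zs_le_of_surj (P' := fun σ => ∃ x ∈ (Set.univ : Set (SLn n (ZMod p))), ¬ InKer σ x)
      (localRed n p m) (localRed_surj n p m) (fun χ _ h => h.2)
      (fun χ _ ⟨⟨x, hx⟩, _⟩ => ⟨_, trivial, fun h => hx (local_inKer_comp _ h)⟩) s).trans ?_
    refine (transfer n (by omega) _ (2 * n) (index_pow_field n (by omega) p) _
      (by linarith)).trans ?_
    have hu : (p : ℝ) ≤ 2 * (Nat.card (ZMod p)ˣ : ℝ) := by
      rw [Nat.card_units, Nat.card_zmod]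
      exact_mod_cast (by omega : p ≤ 2 * (p - 1))
    have e1 := local_coef (n := n) (by omega) hs2 hp0 hu
    refine (mul_le_mul e1 (h0 p s hs.le hs2) (Zs_nonneg _ _) (by positivity)).trans (le_of_eq ?_)
    rw [show (2 : ℝ) - 4 * s = 1 + (1 - 4 * s) by ring, Real.rpow_add hp0, Real.rpow_one]
    field_simp
  · refine (transfer n (by omega) _ (2 * n) (index_pow n (by omega) p (m + 1)) _
      (by linarith)).trans ?_
    have hq : (0 : ℝ) < (p : ℝ) ^ (m + 1) := by positivity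
    have hu : (p : ℝ) ^ (m + 1) ≤ 2 * (Nat.card (ZMod (p ^ (m + 1)))ˣ : ℝ) := by
      exact_mod_cast card_units_zmod p m
    have e1 := local_coef (n := n) (by omega) hs2 hq hu
    have e2 := (local_ns (by omega) hS s).trans (h1 p (by omega) m L hL s (by linarith) hs2)
    have hD : (Nat.card (Mat n (ZMod (p ^ (m + 1)))) : ℝ) ≤
        2 * Nat.card (Mat n (ZMod (p ^ (m + 1))))ˣ := by
      exact_mod_cast card_mat_big (n := n) (p := p) (by omega) m
    have e3 : sumOn (NS n _ ((p : ZMod (p ^ (m + 1))) ^ m))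
        (fun A => ((orb A).ncard : ℝ) ^ (-1 - s / 2)) ≤
        4 * (C₂ * ((p : ℝ) ^ (m + 1) * (p : ℝ) ^ (-(1 / 2) - s))) := by
      refine (local_sumOn_le _ 4 (fun A => ?_)).trans
        (mul_le_mul_of_nonneg_left (h2 p ((le_max_right _ _).trans hp) m) (by norm_num))
      have := orb_rpow_le hD A (t := 1 + s / 2) (by linarith)
      rw [show -1 - s / 2 = -(1 + s / 2) by ring]
      refine this.trans (mul_le_mul_of_nonneg_right ?_
        (Real.rpow_nonneg (by unfold cc; positivity) _))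
      calc (2 : ℝ) ^ (1 + s / 2) ≤ (2 : ℝ) ^ (2 : ℝ) :=
            Real.rpow_le_rpow_of_exponent_le (by norm_num) (by linarith)
        _ = 4 := by norm_num
    have e4 : C₁ * sumOn (NS n _ ((p : ZMod (p ^ (m + 1))) ^ m))
        (fun A => ((orb A).ncard : ℝ) ^ (-1 - s / 2)) ≤
        |C₁| * (4 * (C₂ * ((p : ℝ) ^ (m + 1) * (p : ℝ) ^ (-(1 / 2) - s)))) :=
      mul_le_mul (le_abs_self _) e3 (local_sumOn_nonneg _ (fun A => by positivity)) (by positivity)
    refine (mul_le_mul e1 (e2.trans e4) (Zs_nonneg _ _) (by positivity)).trans (le_of_eq ?_)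
    generalize (p : ℝ) ^ (-(1 / 2) - s) = z
    field_simp

theorem hmain3_int (n : ℕ) (hn : 5 ≤ n) {s : ℝ} (hs : 1 / 2 < s) (hs2 : s ≤ 2) :
    repZeta (SLn n ℤ) s < ⊤ := by
  classical
  obtain ⟨C, C', p₀, hbig⟩ := hmain3_big n hn hs hs2
  have hsm : ∀ p : ℕ, ∃ D : ℝ, 0 ≤ D ∧ ∀ (_ : Fact p.Prime) (m : ℕ),
      Zs (SLn n (ZMod (p ^ (m + 1)))) (fun _ => True) s ≤ D := by
    intro p
    by_cases hp : p.Prime
    · have : Fact p.Prime := ⟨hp⟩
      obtain ⟨D, hD⟩ := hmain3_small n hn p hs hs2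
      exact ⟨|D|, abs_nonneg _, fun _ m => (hD m).trans (le_abs_self _)⟩
    · exact ⟨0, le_rfl, fun h => absurd h.out hp⟩
  choose D hD0 hD using hsm
  have hsum : Summable (fun p : ℕ => (if p < p₀ then D p else 0) +
      (|C| * (p : ℝ) ^ (1 - 4 * s) + |C'| * (p : ℝ) ^ (-(1 / 2) - s))) := by
    refine Summable.add ?_ ((Summable.mul_left _ (Real.summable_nat_rpow.2 (by linarith))).add
      (Summable.mul_left _ (Real.summable_nat_rpow.2 (by linarith))))
    refine summable_of_ne_finset_zero (s := Finset.range p₀) (fun p hp => ?_)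
    rw [if_neg (by simpa using hp)]
  obtain ⟨E, hE⟩ := euler n s _ (fun p => add_nonneg (by split_ifs; exacts [hD0 p, le_rfl])
    (by positivity)) hsum (fun p hp m => by
      have h0 : 0 ≤ |C| * (p : ℝ) ^ (1 - 4 * s) := by positivity
      have h1 : 0 ≤ |C'| * (p : ℝ) ^ (-(1 / 2) - s) := by positivity
      split_ifs with h
      · linarith [hD p hp m]
      · have := hbig p (by omega) m
        have h2 : C * (p : ℝ) ^ (1 - 4 * s) ≤ |C| * (p : ℝ) ^ (1 - 4 * s) :=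
          mul_le_mul_of_nonneg_right (le_abs_self _) (by positivity)
        have h3 : C' * (p : ℝ) ^ (-(1 / 2) - s) ≤ |C'| * (p : ℝ) ^ (-(1 / 2) - s) :=
          mul_le_mul_of_nonneg_right (le_abs_self _) (by positivity)
        linarith)
  exact zeta_lt_top3 (by omega) hs E hE

theorem hmain3_inj (n : ℕ) : Function.Injective
    (SpecialLinearGroup.map (Int.castRingHom ℚ) : SLn n ℤ →* SLn n ℚ) := by
  intro x y h
  ext i j
  have := congrArg (fun g : SLn n ℚ => g.1 i j) h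
  simpa using this

theorem main3 (d : ℕ) (hd : 5 ≤ d) (Γ : Subgroup (SLn d ℚ))
    (hΓ : Γ.Commensurable (SpecialLinearGroup.map (Int.castRingHom ℚ)).range) :
    abscissa Γ ≤ ((1 / 2 : ℝ) : EReal) := by
  have key : ∀ s : ℝ, 1 / 2 < s → s ≤ 2 → abscissa Γ ≤ (s : EReal) := by
    intro s hs hs2
    refine sInf_le ⟨s, ?_, rfl⟩
    refine zeta_comm Γ _ hΓ (by linarith) ?_
    rw [← zeta_congr (MonoidHom.ofInjective (hmain3_inj d))]
    exact hmain3_int d hd hs hs2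
  by_contra hlt
  push Not at hlt
  obtain ⟨t, ht1, ht2⟩ := EReal.lt_iff_exists_real_btwn.1 hlt
  have ht : (1 / 2 : ℝ) < t := EReal.coe_lt_coe_iff.1 ht1
  have := key (min t 2) (lt_min ht (by norm_num)) (min_le_right _ _)
  have h3 : ((min t 2 : ℝ) : EReal) ≤ (t : EReal) := EReal.coe_le_coe_iff.2 (min_le_left t 2)
  exact absurd (this.trans h3) (not_le.2 ht2)

theorem main5 (Γ : Subgroup (SLn 5 ℚ))
    (hΓ : Γ.Commensurable (SpecialLinearGroup.map (Int.castRingHom ℚ)).range) :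
    abscissa Γ = ((1 / 2 : ℝ) : EReal) := by
  refine le_antisymm (main3 5 le_rfl Γ hΓ) (le_abscissa ?_)
  by_contra hne
  have := zeta_comm _ Γ hΓ.symm (s := 1 / 2) (by norm_num) (lt_top_iff_ne_top.2 hne)
  rw [← zeta_congr (MonoidHom.ofInjective (hmain3_inj 5)), zeta_low5] at this
  exact lt_irrefl _ this

end Pool.Agent.MP_8299d6_al.Up

end
end
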