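import Pool.Agent.Mg.X8299d6.Ge1a818
import Pool.Agent.Mg.X8299d6.G6efaac
import Pool.Agent.Mg.X8299d6.Gfa7afb
import Pool.Agent.Mg.X8299d6.G05aeef

section

open Matrix

noncomputable section

namespace Pool.Agent.MP_8299d6_al.Up

open Pool.Agent.MP_810665_al (IrrChar)

variable {F : Type} [Field F] {ψ : AddChar F ℂ}

theorem psiU_one : psiU ψ (1 : GLn 4 F) = 1 := by
  simp [psiU]

theorem psiU_mul {a b : GLn 4 F} (ha : a ∈ Uup 4 F) (hb : b ∈ Uup 4 F) :
    psiU ψ (a * b) = psiU ψ a * psiU ψ b := by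
  obtain ⟨a0, a1⟩ := ha
  obtain ⟨b0, b1⟩ := hb
  unfold psiU
  rw [← AddChar.map_add_eq_mul]
  congr 1
  simp only [Units.val_mul, mul_apply, Fin.sum_univ_four, a1, b1,
    a0 1 0 (by decide), a0 2 0 (by decide), a0 2 1 (by decide),
    b0 2 1 (by decide), b0 3 1 (by decide), b0 3 2 (by decide)]
  ring

/-- elementary matrices -/
def xrelE {k l : Fin 4} (h : k ≠ l) (x : F) : GLn 4 F where
  val := 1 + single k l x
  inv := 1 + single k l (-x)
  val_inv := by
    rw [add_mul, one_mul, mul_add, mul_one, single_mul_single_of_ne _ _ _ _ h.symm, add_zero,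
      add_assoc, ← single_add, neg_add_cancel, single_zero, add_zero]
  inv_val := by
    rw [add_mul, one_mul, mul_add, mul_one, single_mul_single_of_ne _ _ _ _ h.symm, add_zero,
      add_assoc, ← single_add, add_neg_cancel, single_zero, add_zero]

lemma xrelE_mem {k l : Fin 4} (h : k < l) (x : F) : xrelE h.ne x ∈ Uup 4 F := by
  refine ⟨fun i j hij => ?_, fun i => ?_⟩
  · show (1 + single k l x : Mat 4 F) i j = 0
    rw [Matrix.add_apply, one_apply_ne hij.ne', single_apply_of_ne, add_zero]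
    rintro ⟨rfl, rfl⟩
    exact lt_asymm h hij
  · show (1 + single k l x : Mat 4 F) i i = 1
    rw [Matrix.add_apply, one_apply_eq, single_apply_of_ne, add_zero]
    rintro ⟨rfl, rfl⟩
    exact lt_irrefl _ h

lemma xrel_sum (g : GLn 4 F) :
    psiU ψ g = ψ (∑ k : Fin 4, ∑ l : Fin 4, if (l : ℕ) = k + 1 then g.1 k l else 0) := by
  unfold psiU
  congr 1
  simp [Fin.sum_univ_four]

lemma xrelE_psi {k l : Fin 4} (h : k ≠ l) (x : F) :
    psiU ψ (xrelE h x) = ψ (if (l : ℕ) = k + 1 then x else 0) := by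
  unfold psiU
  congr 1
  show (1 + single k l x : Mat 4 F) 0 1 + (1 + single k l x : Mat 4 F) 1 2 +
    (1 + single k l x : Mat 4 F) 2 3 = _
  fin_cases k <;> fin_cases l <;> simp

lemma xrel_left {w : Equiv.Perm (Fin 4)} {t : Fin 4 → Fˣ} {y : GLn 4 F} (hy : IsMon w t y)
    (a : Mat 4 F) (r l : Fin 4) : (a * y.1) r l = a r (w l) * t l := by
  rw [mul_apply, Finset.sum_eq_single (w l)]
  · rw [hy, if_pos rfl]
  · intro m _ hm
    rw [hy, if_neg hm, mul_zero]
  · simp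

lemma xrel_right {w : Equiv.Perm (Fin 4)} {t : Fin 4 → Fˣ} {y : GLn 4 F} (hy : IsMon w t y)
    (c : Mat 4 F) (k l : Fin 4) : (y.1 * c) (w k) l = t k * c k l := by
  rw [mul_apply, Finset.sum_eq_single k]
  · rw [hy, if_pos rfl]
  · intro m _ hm
    rw [hy, if_neg (fun e => hm (w.injective e).symm), zero_mul]
  · simp

lemma xrel_fix {w : Equiv.Perm (Fin 4)} {t : Fin 4 → Fˣ} {y : GLn 4 F} (hy : IsMon w t y)
    {k l : Fin 4} (h : k ≠ l) (h' : w k ≠ w l) (x : F) :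
    xrelE h' (-(x * t k)) * y * xrelE h (x * t l) = y := by
  rw [← eq_mul_inv_iff_mul_eq]
  apply Units.ext
  ext r s
  obtain ⟨r, rfl⟩ := w.surjective r
  rw [Units.val_mul, Units.val_mul, xrel_left hy, xrel_right hy]
  show (1 + single (w k) (w l) (-(x * t k)) : Mat 4 F) (w r) (w s) * t s =
    t r * (1 + single k l (-(x * t l)) : Mat 4 F) r s
  simp only [Matrix.add_apply, Matrix.one_apply, single_apply, w.injective.eq_iff]
  by_cases e : k = r ∧ l = s
  · obtain ⟨rfl, rfl⟩ := e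
    simp only [and_self, if_true, if_neg h]
    ring
  · rw [if_neg e, if_neg e]
    by_cases e' : r = s
    · subst e'
      simp
    · simp [e']

/-- relevant monomial matrices -/
theorem relv_mon (hψ : ψ.IsPrimitive) {w : Equiv.Perm (Fin 4)} {t : Fin 4 → Fˣ} {y : GLn 4 F}
    (hy : IsMon w t y) (h : Relv (Uup 4 F) (psiU ψ) y) (i : Fin 3)
    (hi : w i.castSucc < w i.succ) :
    (w i.succ : ℕ) = w i.castSucc + 1 ∧ t i.castSucc = t i.succ := by
  have hlt : i.castSucc < i.succ := Fin.castSucc_lt_succ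
  have key : ∀ x : F, ψ ((if (w i.succ : ℕ) = w i.castSucc + 1 then -(x * t i.castSucc) else 0) +
      x * t i.succ) = 1 := by
    intro x
    have := h _ (xrelE_mem hi (-(x * t i.castSucc))) _ (xrelE_mem hlt (x * t i.succ))
      (xrel_fix hy hlt.ne hi.ne x)
    have e : ((i.succ : Fin 4) : ℕ) = (i.castSucc : Fin 4) + 1 := by simp
    rw [xrelE_psi, xrelE_psi, if_pos e, ← AddChar.map_add_eq_mul] at this
    exact this
  have prim : ∀ c : F, (∀ x, ψ (c * x) = 1) → c = 0 := by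
    intro c hc
    by_contra hne
    apply hψ hne
    ext x
    rw [AddChar.mulShift_apply, hc, AddChar.one_apply]
  by_cases e : (w i.succ : ℕ) = w i.castSucc + 1
  · refine ⟨e, Units.ext ?_⟩
    have : ((t i.succ : F) - t i.castSucc) = 0 := by
      apply prim
      intro x
      have := key x
      rw [if_pos e] at this
      rw [← this]
      congr 1
      ring
    exact (sub_eq_zero.1 this).symm
  · exfalso
    apply (t i.succ).ne_zero
    apply prim
    intro x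
    have := key x
    rw [if_neg e, zero_add, mul_comm] at this
    exact this

/-- the transpose along the second diagonal, on matrices -/
def xrelT (x : Mat 4 F) : Mat 4 F := xᵀ.submatrix Fin.revPerm Fin.revPerm

omit [Field F] in
lemma xrelT_apply (x : Mat 4 F) (i j : Fin 4) : xrelT x i j = x j.rev i.rev := rfl

lemma xrelT_mul (x y : Mat 4 F) : xrelT (x * y) = xrelT y * xrelT x := by
  unfold xrelT
  rw [transpose_mul, submatrix_mul_equiv]

lemma xrelT_one : xrelT (1 : Mat 4 F) = 1 := by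
  unfold xrelT
  rw [transpose_one, submatrix_one_equiv]

/-- the transpose along the second diagonal, on units -/
def xrelTU (g : GLn 4 F) : GLn 4 F where
  val := xrelT g.val
  inv := xrelT g.inv
  val_inv := by rw [← xrelT_mul, g.inv_val, xrelT_one]
  inv_val := by rw [← xrelT_mul, g.val_inv, xrelT_one]

lemma xrel_comb (w : Equiv.Perm (Fin 4))
    (h : ∀ i : Fin 3, w i.castSucc < w i.succ → (w i.succ : ℕ) = w i.castSucc + 1) (j : Fin 4) :
    w (w j).rev = j.rev ∧ ∀ i : Fin 3, (j ≤ i.castSucc ∧ i.succ ≤ (w j).rev ∨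
      (w j).rev ≤ i.castSucc ∧ i.succ ≤ j) → w i.castSucc < w i.succ := by
  have main : ∀ a b c d : Fin 4, a ≠ b → a ≠ c → a ≠ d → b ≠ c → b ≠ d → c ≠ d →
      (a < b → (b : ℕ) = a + 1) → (b < c → (c : ℕ) = b + 1) → (c < d → (d : ℕ) = c + 1) →
      ∀ j : Fin 4, ![a, b, c, d] (![a, b, c, d] j).rev = j.rev ∧
        ∀ i : Fin 3, (j ≤ i.castSucc ∧ i.succ ≤ (![a, b, c, d] j).rev ∨
          (![a, b, c, d] j).rev ≤ i.castSucc ∧ i.succ ≤ j) →
          ![a, b, c, d] i.castSucc < ![a, b, c, d] i.succ := by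
    decide
  have e : ![w 0, w 1, w 2, w 3] = w := by
    funext i
    fin_cases i <;> rfl
  have := main (w 0) (w 1) (w 2) (w 3) (w.injective.ne (by decide)) (w.injective.ne (by decide))
    (w.injective.ne (by decide)) (w.injective.ne (by decide)) (w.injective.ne (by decide))
    (w.injective.ne (by decide)) (h 0) (h 1) (h 2) j
  rw [e] at this
  exact this

lemma xrel_chain {X : Type} (t : Fin 4 → X) (j k : Fin 4)
    (h : ∀ i : Fin 3, (j ≤ i.castSucc ∧ i.succ ≤ k ∨ k ≤ i.castSucc ∧ i.succ ≤ j) →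
      t i.castSucc = t i.succ) : t k = t j := by
  have h0 := h 0
  have h1 := h 1
  have h2 := h 2
  fin_cases j <;> fin_cases k <;> simp at h0 h1 h2 ⊢ <;> simp_all

/-- the transpose along the second diagonal -/
theorem exists_theta : ∃ θ : GLn 4 F → GLn 4 F, (∀ x y, θ (x * y) = θ y * θ x) ∧
    (∀ x, θ (θ x) = x) ∧ (∀ a ∈ Uup 4 F, θ a ∈ Uup 4 F ∧ psiU ψ (θ a) = psiU ψ a) ∧
    ∀ (w : Equiv.Perm (Fin 4)) (t : Fin 4 → Fˣ) (y : GLn 4 F), IsMon w t y →
      (∀ i : Fin 3, w i.castSucc < w i.succ →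
        (w i.succ : ℕ) = w i.castSucc + 1 ∧ t i.castSucc = t i.succ) → θ y = y := by
  refine ⟨xrelTU, fun x y => Units.ext (xrelT_mul _ _), fun x => Units.ext ?_, ?_, ?_⟩
  · ext i j
    show x.1 i.rev.rev j.rev.rev = x.1 i j
    rw [Fin.rev_rev, Fin.rev_rev]
  · rintro a ⟨a0, a1⟩
    refine ⟨⟨fun i j hij => a0 _ _ (Fin.rev_lt_rev.2 hij), fun i => a1 _⟩, ?_⟩
    unfold psiU
    congr 1
    show a.1 2 3 + a.1 1 2 + a.1 0 1 = _
    ring
  · intro w t y hy h
    apply Units.ext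
    ext i j
    show y.1 j.rev i.rev = y.1 i j
    have hc := xrel_comb w (fun i hi => (h i hi).1)
    rw [hy, hy]
    by_cases e : i = w j
    · subst e
      rw [if_pos (hc j).1.symm, if_pos rfl,
        xrel_chain t j (w j).rev (fun i hi => (h i ((hc j).2 i hi)).2)]
    · rw [if_neg e, if_neg]
      intro e'
      apply e
      rw [← (hc j).1] at e'
      exact (Fin.rev_injective (w.injective e')).symm

/-- monomial matrices with at most one pair of indices in increasing order -/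
theorem mon_relv {w : Equiv.Perm (Fin 4)} {t : Fin 4 → Fˣ} {y : GLn 4 F} (hy : IsMon w t y)
    (i : Fin 3) (h1 : ∀ k l, k < l → w k < w l → k = i.castSucc ∧ l = i.succ)
    (h2 : w i.castSucc < w i.succ →
      (w i.succ : ℕ) = w i.castSucc + 1 ∧ t i.castSucc = t i.succ) :
    Relv (Uup 4 F) (psiU ψ) y := by
  intro a ha b hb hab
  obtain ⟨S, hS⟩ := Uup_subgroup 4 F
  have hc : b⁻¹ ∈ Uup 4 F := by
    rw [← hS] at hb ⊢
    exact S.inv_mem hb
  have e1 : psiU ψ b⁻¹ * psiU ψ b = 1 := by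
    rw [← psiU_mul hc hb, inv_mul_cancel, psiU_one]
  rw [← e1]
  congr 1
  rw [← eq_mul_inv_iff_mul_eq] at hab
  generalize b⁻¹ = c at hc hab
  have key : ∀ k l, a.1 (w k) (w l) * t l = t k * c.1 k l := by
    intro k l
    rw [← xrel_left hy, ← xrel_right hy, ← Units.val_mul, hab, Units.val_mul]
  rw [xrel_sum, xrel_sum, ← Equiv.sum_comp w]
  congr 1
  refine Finset.sum_congr rfl fun k _ => ?_
  rw [← Equiv.sum_comp w]
  refine Finset.sum_congr rfl fun l _ => ?_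
  rcases lt_trichotomy k l with hkl | rfl | hkl
  · rcases lt_trichotomy (w k) (w l) with hw | hw | hw
    · obtain ⟨rfl, rfl⟩ := h1 k l hkl hw
      obtain ⟨e2, e3⟩ := h2 hw
      have e : ((i.succ : Fin 4) : ℕ) = (i.castSucc : Fin 4) + 1 := by simp
      rw [if_pos e2, if_pos e]
      have := key i.castSucc i.succ
      rw [e3, mul_comm] at this
      exact mul_left_cancel₀ (t i.succ).ne_zero this
    · exact absurd (w.injective hw) hkl.ne
    · have hz : c.1 k l = 0 := by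
        have := key k l
        rw [ha.1 _ _ hw, zero_mul] at this
        exact (mul_eq_zero.1 this.symm).resolve_left (t k).ne_zero
      rw [ha.1 _ _ hw, hz, ite_self, ite_self]
  · rw [if_neg (by omega), if_neg (by omega)]
  · have hz : a.1 (w k) (w l) = 0 := by
      have := key k l
      rw [hc.1 _ _ hkl, mul_zero] at this
      exact (mul_eq_zero.1 this).resolve_right (t l).ne_zero
    rw [hc.1 _ _ hkl, hz, ite_self, ite_self]

end Pool.Agent.MP_8299d6_al.Up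

end
end

section

open Matrix

noncomputable section

namespace Pool.Agent.MP_8299d6_al.Up

open Pool.Agent.MP_810665_al (IrrChar)

variable {F : Type} [Field F] [Fintype F] {ψ : AddChar F ℂ}

/-- the permutations with exactly one increasing pair -/
def xgcntWs (i : Fin 3) : Equiv.Perm (Fin 4) := Fin.revPerm * Equiv.swap i.castSucc i.succ

theorem xgcnt_ws1 : ∀ (i : Fin 3) (k l : Fin 4), k < l → xgcntWs i k < xgcntWs i l →
    k = i.castSucc ∧ l = i.succ := by decide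

theorem xgcnt_ws2 : ∀ i : Fin 3, (xgcntWs i i.succ : ℕ) = xgcntWs i i.castSucc + 1 := by decide

theorem xgcnt_ws3 : ∀ i : Fin 3, (Fin.revPerm : Equiv.Perm (Fin 4)) ≠ xgcntWs i := by decide

theorem xgcnt_ws4 : ∀ i j : Fin 3, xgcntWs i = xgcntWs j → i = j := by decide

theorem xgcnt_rev : ∀ k l : Fin 4, k < l →
    ¬ (Fin.revPerm : Equiv.Perm (Fin 4)) k < (Fin.revPerm : Equiv.Perm (Fin 4)) l := by decide

theorem xgcnt_pred : ∀ i : Fin 3, i.predAbove i.castSucc = i.predAbove i.succ := by decide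

theorem xgcnt_pred2 : ∀ i j : Fin 3, ∃ k : Fin 4, i.predAbove k = j := by decide

/-- the permutation attached to an index -/
def xgcntW {A : Type} : (Fin 4 → A) ⊕ (Fin 3 × (Fin 3 → A)) → Equiv.Perm (Fin 4)
  | Sum.inl _ => Fin.revPerm
  | Sum.inr p => xgcntWs p.1

/-- the diagonal part attached to an index -/
def xgcntT {A : Type} : (Fin 4 → A) ⊕ (Fin 3 × (Fin 3 → A)) → Fin 4 → A
  | Sum.inl t => t
  | Sum.inr p => fun k => p.2 (p.1.predAbove k)

theorem xgcnt_inj {A : Type} (x y : (Fin 4 → A) ⊕ (Fin 3 × (Fin 3 → A)))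
    (h1 : xgcntW x = xgcntW y) (h2 : xgcntT x = xgcntT y) : x = y := by
  rcases x with t | ⟨i, s⟩ <;> rcases y with t' | ⟨i', s'⟩
  · exact congrArg _ h2
  · exact absurd h1 (xgcnt_ws3 i')
  · exact absurd h1.symm (xgcnt_ws3 i)
  · have hi : i = i' := xgcnt_ws4 i i' h1
    subst hi
    have hs : s = s' := by
      funext j
      obtain ⟨k, rfl⟩ := xgcnt_pred2 i j
      exact congrFun h2 k
    rw [hs]

omit [Fintype F] in
theorem xgcnt_relv (x : (Fin 4 → Fˣ) ⊕ (Fin 3 × (Fin 3 → Fˣ))) {y : GLn 4 F}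
    (hy : IsMon (xgcntW x) (xgcntT x) y) : Relv (Uup 4 F) (psiU ψ) y := by
  rcases x with t | ⟨i, s⟩
  · refine mon_relv hy 0 (fun k l hkl h => absurd h (xgcnt_rev k l hkl)) (fun h => ?_)
    exact absurd h (xgcnt_rev _ _ (by decide))
  · refine mon_relv hy i (xgcnt_ws1 i) (fun _ => ⟨xgcnt_ws2 i, ?_⟩)
    show s (i.predAbove i.castSucc) = s (i.predAbove i.succ)
    rw [xgcnt_pred]

omit [Fintype F] in
theorem xgcnt_bru (hψ : ψ.IsPrimitive) {g : GLn 4 F} (h : Relv (Uup 4 F) (psiU ψ) g) :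
    ∃ a ∈ Uup 4 F, ∃ b ∈ Uup 4 F, ∃ (w : Equiv.Perm (Fin 4)) (t : Fin 4 → Fˣ) (y : GLn 4 F),
      IsMon w t y ∧ g = a * y * b ∧ ∀ i : Fin 3, w i.castSucc < w i.succ →
        (w i.succ : ℕ) = w i.castSucc + 1 ∧ t i.castSucc = t i.succ := by
  obtain ⟨S, hS⟩ := Uup_subgroup 4 F
  have hmem : ∀ a, a ∈ S ↔ a ∈ Uup 4 F := fun a => by rw [← hS]; rfl
  obtain ⟨a, ha, b, hb, w, t, y, hy, hg⟩ := bruhat g
  refine ⟨a, ha, b, hb, w, t, y, hy, hg, ?_⟩
  have hr : Relv (S : Set (GLn 4 F)) (psiU ψ) y :=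
    relv_mul S (psiU ψ) psiU_one
      (fun a ha b hb => psiU_mul ((hmem a).1 ha) ((hmem b).1 hb)) ((hmem a).2 ha) ((hmem b).2 hb)
      (by rw [hS, ← hg]; exact h)
  rw [hS] at hr
  exact fun i hi => relv_mon hψ hy hr i hi

open Classical in
/-- there are many generic characters -/
theorem gen_count (hψ : ψ.IsPrimitive) :
    (Fintype.card F - 1) ^ 4 + 3 * (Fintype.card F - 1) ^ 3 ≤
      ((Irr (GLn 4 F)).filter (f0cEig (Uup 4 F) (psiU ψ))).card := by
  obtain ⟨S, hS⟩ := Uup_subgroup 4 F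
  have hmem : ∀ a, a ∈ S ↔ a ∈ Uup 4 F := fun a => by rw [← hS]; rfl
  obtain ⟨θ, h1, h2, h3, h4⟩ := exists_theta (F := F) (ψ := ψ)
  choose y hy using fun x : (Fin 4 → Fˣ) ⊕ (Fin 3 × (Fin 3 → Fˣ)) =>
    exists_mon (F := F) (xgcntW x) (xgcntT x)
  have key := gelfand S (psiU ψ) psiU_one
    (fun a ha b hb => psiU_mul ((hmem a).1 ha) ((hmem b).1 hb)) θ h1 h2
    (fun a ha => ⟨(hmem _).2 (h3 a ((hmem a).1 ha)).1, (h3 a ((hmem a).1 ha)).2⟩)
    (fun g hg => by
      rw [hS] at hg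
      obtain ⟨a, ha, b, hb, w, t, z, hz, hg', hw⟩ := xgcnt_bru hψ hg
      exact ⟨a, (hmem a).2 ha, b, (hmem b).2 hb, z, h4 w t z hz hw, hg'⟩)
    y (fun x => by rw [hS]; exact xgcnt_relv x (hy x))
    (fun i j a ha b hb hab => by
      obtain ⟨e1, e2⟩ := bruhat_uniq (hy i) (hy j) ((hmem a).1 ha) ((hmem b).1 hb) hab
      exact xgcnt_inj i j e1 e2)
  rw [hS] at key
  refine le_trans (le_of_eq ?_) key
  simp only [Fintype.card_sum, Fintype.card_prod, Fintype.card_fun, Fintype.card_fin,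
    Fintype.card_units]

/-- the lower triangular matrices with trivial last row and column -/
def xgcntM (x : (Fin 3 → F) × (Fin 3 → Fˣ)) : Mat 4 F :=
  !![(x.2 0 : F), 0, 0, 0; x.1 0, (x.2 1 : F), 0, 0; x.1 1, x.1 2, (x.2 2 : F), 0; 0, 0, 0, 1]

omit [Fintype F] in
theorem xgcnt_unit (x : (Fin 3 → F) × (Fin 3 → Fˣ)) : ∃ g : GLn 4 F, g.1 = xgcntM x := by
  have h : IsUnit (xgcntM x) := by
    rw [Matrix.isUnit_iff_isUnit_det, Matrix.det_of_lowerTriangular]
    · rw [Fin.prod_univ_four]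
      simp [xgcntM]
    · intro i j hij
      have hij' : i < j := hij
      fin_cases i <;> fin_cases j <;> simp_all [xgcntM]
  exact ⟨h.unit, rfl⟩

omit [Fintype F] in
theorem xgcntM_inj {x y : (Fin 3 → F) × (Fin 3 → Fˣ)} (h : xgcntM x = xgcntM y) : x = y := by
  have e := fun i j => congrFun (congrFun h i) j
  refine Prod.ext ?_ ?_
  · funext k
    fin_cases k
    · simpa [xgcntM] using e 1 0
    · simpa [xgcntM] using e 2 0
    · simpa [xgcntM] using e 2 1
  · funext k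
    apply Units.ext
    fin_cases k
    · simpa [xgcntM] using e 0 0
    · simpa [xgcntM] using e 1 1
    · simpa [xgcntM] using e 2 2

omit [Fintype F] in
theorem xgcnt_low {x y : (Fin 3 → F) × (Fin 3 → Fˣ)} {g : Mat 4 F}
    (h : xgcntM x * g = xgcntM y) :
    (∀ i j, i < j → g i j = 0) ∧ g 3 0 = 0 ∧ g 3 1 = 0 ∧ g 3 2 = 0 ∧ g 3 3 = 1 := by
  have e := fun i j => congrFun (congrFun h i) j
  have e01 := e 0 1
  have e02 := e 0 2
  have e03 := e 0 3
  have e12 := e 1 2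
  have e13 := e 1 3
  have e23 := e 2 3
  have e30 := e 3 0
  have e31 := e 3 1
  have e32 := e 3 2
  have e33 := e 3 3
  simp [xgcntM, Matrix.mul_apply, Fin.sum_univ_four] at e01 e02 e03 e30 e31 e32 e33
  simp [xgcntM, Matrix.mul_apply, Fin.sum_univ_four, e02, e03] at e12 e13
  simp [xgcntM, Matrix.mul_apply, Fin.sum_univ_four, e03, e13] at e23
  refine ⟨?_, e30, e31, e32, e33⟩
  intro i j hij
  fin_cases i <;> fin_cases j <;> simp_all

omit [Fintype F] in
theorem xgcnt_one (hψ : ψ.IsPrimitive) {g : GLn 4 F} (h : Relv (Uup 4 F) (psiU ψ) g)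
    (hl : ∀ i j, i < j → g.1 i j = 0) (h0 : g.1 3 0 = 0) (h1 : g.1 3 1 = 0) (h2 : g.1 3 2 = 0)
    (h3 : g.1 3 3 = 1) : g = 1 := by
  obtain ⟨S, hS⟩ := Uup_subgroup 4 F
  have hmem : ∀ a, a ∈ S ↔ a ∈ Uup 4 F := fun a => by rw [← hS]; rfl
  obtain ⟨a, ha, b, hb, w, t, y, hy, hg, hw⟩ := xgcnt_bru hψ h
  have hrow : ∀ k, g.1 3 k = (y.1 * b.1) 3 k := by
    intro k
    rw [hg, mul_assoc, Units.val_mul, Units.val_mul, Matrix.mul_apply, Fin.sum_univ_four,
      ha.1 3 0 (by decide), ha.1 3 1 (by decide), ha.1 3 2 (by decide), ha.2 3]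
    ring
  have hj : g.1 3 (w.symm 3) = t (w.symm 3) := by
    rw [hrow, Matrix.mul_apply, Finset.sum_eq_single (w.symm 3)]
    · rw [hy, hb.2]
      simp
    · intro k _ hk
      rw [hy, if_neg, zero_mul]
      intro h'
      exact hk (by rw [h']; simp)
    · simp
  have hw3' : w.symm 3 = 3 := by
    have hne : g.1 3 (w.symm 3) ≠ 0 := by rw [hj]; exact Units.ne_zero _
    generalize w.symm 3 = k at hne
    fin_cases k
    · exact absurd h0 hne
    · exact absurd h1 hne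
    · exact absurd h2 hne
    · rfl
  have hw3 : w 3 = 3 := by
    conv_lhs => rw [← hw3']
    simp
  have ht3 : t 3 = 1 := by
    rw [hw3', h3] at hj
    exact Units.ext hj.symm
  have hne : ∀ k l : Fin 4, k ≠ l → (w k : ℕ) ≠ w l := fun k l hkl h' =>
    hkl (w.injective (Fin.ext h'))
  have b0 := (w 0).2
  have b1 := (w 1).2
  have b2 := (w 2).2
  have v3 : (w 3 : ℕ) = 3 := by rw [hw3]; rfl
  have n23 := hne 2 3 (by decide)
  have n13 := hne 1 3 (by decide)
  have n03 := hne 0 3 (by decide)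
  have n12 := hne 1 2 (by decide)
  have n02 := hne 0 2 (by decide)
  have n01 := hne 0 1 (by decide)
  have s2 : (w 3 : ℕ) = w 2 + 1 ∧ t 2 = t 3 := hw 2 (by
    show (w 2 : ℕ) < w 3
    omega)
  have s1 : (w 2 : ℕ) = w 1 + 1 ∧ t 1 = t 2 := hw 1 (by
    show (w 1 : ℕ) < w 2
    omega)
  have s0 : (w 1 : ℕ) = w 0 + 1 ∧ t 0 = t 1 := hw 0 (by
    show (w 0 : ℕ) < w 1
    omega)
  have hwk : ∀ k, w k = k := by
    intro k
    apply Fin.ext
    fin_cases k
    · show (w 0 : ℕ) = 0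
      omega
    · show (w 1 : ℕ) = 1
      omega
    · show (w 2 : ℕ) = 2
      omega
    · exact v3
  have htk : ∀ k, t k = 1 := by
    intro k
    fin_cases k
    · show t 0 = 1
      rw [s0.2, s1.2, s2.2, ht3]
    · show t 1 = 1
      rw [s1.2, s2.2, ht3]
    · show t 2 = 1
      rw [s2.2, ht3]
    · exact ht3
  have hy1 : y = 1 := by
    apply Units.ext
    ext i j
    rw [hy, hwk, htk, Units.val_one, Units.val_one, Matrix.one_apply]
  have hgU : g ∈ Uup 4 F := by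
    rw [hg, hy1, mul_one]
    exact (hmem _).1 (S.mul_mem ((hmem a).2 ha) ((hmem b).2 hb))
  apply Units.ext
  ext i j
  rw [Units.val_one, Matrix.one_apply]
  rcases lt_trichotomy i j with hij | hij | hij
  · rw [hl i j hij, if_neg hij.ne]
  · rw [hij, hgU.2, if_pos rfl]
  · rw [hgU.1 i j hij, if_neg hij.ne']

/-- generic characters are large -/
theorem gen_deg (hψ : ψ.IsPrimitive) {χ : GLn 4 F → ℂ} (hχ : f0cEig (Uup 4 F) (psiU ψ) χ) :
    (Fintype.card F : ℝ) ^ 3 * ((Fintype.card F : ℝ) - 1) ^ 3 ≤ ‖χ 1‖ := by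
  classical
  obtain ⟨S, hS⟩ := Uup_subgroup 4 F
  choose t ht using fun x : (Fin 3 → F) × (Fin 3 → Fˣ) => xgcnt_unit x
  have key := eig_deg S (psiU ψ) (by rw [hS]; exact hχ) t (fun i j hij => by
    rw [hS] at hij
    have e : xgcntM i * ((t i)⁻¹ * t j).1 = xgcntM j := by
      rw [← ht, ← ht, ← Units.val_mul, mul_inv_cancel_left]
    obtain ⟨hl, h0, h1, h2, h3⟩ := xgcnt_low e
    have e1 := xgcnt_one hψ hij hl h0 h1 h2 h3
    rw [e1, Units.val_one, mul_one] at e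
    exact xgcntM_inj e)
  refine le_trans (le_of_eq ?_) key
  simp only [Fintype.card_prod, Fintype.card_fun, Fintype.card_fin, Fintype.card_units]
  have hpos : 1 ≤ Fintype.card F := Fintype.card_pos
  push_cast [Nat.cast_sub hpos]
  ring

end Pool.Agent.MP_8299d6_al.Up

end
end

section

open Matrix

noncomputable section

namespace Pool.Agent.MP_8299d6_al.Up

open Pool.Agent.MP_810665_al (IrrChar)

section
variable {F : Type} [Field F]

/-- an invertible matrix as a unit -/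
def xgl2_mk (A : Mat 2 F) (h : A.det ≠ 0) : GLn 2 F := GeneralLinearGroup.mkOfDetNeZero A h

lemma xgl2_val (A : Mat 2 F) (h : A.det ≠ 0) : (xgl2_mk A h).1 = A := rfl

lemma xgl2_det_ne (g : GLn 2 F) : g.1.det ≠ 0 :=
  ((Matrix.isUnit_iff_isUnit_det g.1).1 g.isUnit).ne_zero

lemma xgl2_row {g h : GLn 2 F} (h0 : g.1 1 0 = h.1 1 0) (h1 : g.1 1 1 = h.1 1 1) :
    g * h⁻¹ ∈ Bp F := by
  have e : h.1 * (h⁻¹).1 = 1 := h.mul_inv
  have e0 := congrFun (congrFun e 1) 0
  have e1 := congrFun (congrFun e 1) 1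
  rw [mul_apply, Fin.sum_univ_two] at e0 e1
  constructor
  · rw [Units.val_mul, mul_apply, Fin.sum_univ_two, h0, h1, e0]; simp
  · rw [Units.val_mul, mul_apply, Fin.sum_univ_two, h0, h1, e1]; simp

/-- the mirabolic subgroup -/
def xgl2_B (F : Type) [Field F] : Subgroup (GLn 2 F) where
  carrier := Bp F
  one_mem' := ⟨by simp, by simp⟩
  mul_mem' := fun {g h} hg hh => by
    constructor
    · rw [Units.val_mul, mul_apply, Fin.sum_univ_two, hg.1, hh.1]; simp
    · rw [Units.val_mul, mul_apply, Fin.sum_univ_two, hg.1, hg.2, hh.2]; simp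
  inv_mem' := fun {g} hg => by
    have := xgl2_row (g := 1) (h := g) (by rw [hg.1]; simp) (by rw [hg.2]; simp)
    rwa [one_mul] at this

open Classical in
/-- representatives of the double cosets -/
def xgl2_y (d : F) : GLn 2 F :=
  if h : d = 0 then xgl2_mk !![0, 1; 1, 0] (by simp [det_fin_two])
  else xgl2_mk !![1, 0; 0, d] (by simpa [det_fin_two] using h)

lemma xgl2_double (g : GLn 2 F) :
    ∃ d, ∃ a ∈ xgl2_B F, ∃ b ∈ xgl2_B F, g = a * xgl2_y d * b := by
  by_cases hc : g.1 1 0 = 0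
  · have hd : g.1 1 1 ≠ 0 := by
      intro hd
      apply xgl2_det_ne g
      rw [det_fin_two, hc, hd]; simp
    refine ⟨g.1 1 1, g * (xgl2_y (g.1 1 1))⁻¹, xgl2_row ?_ ?_, 1, one_mem _, by simp⟩
    · rw [xgl2_y, dif_neg hd, xgl2_val, hc]; simp
    · rw [xgl2_y, dif_neg hd, xgl2_val]; simp
  · let b : GLn 2 F := xgl2_mk !![g.1 1 0, g.1 1 1; 0, 1] (by simpa [det_fin_two] using hc)
    have hb : b ∈ xgl2_B F := ⟨by simp [b, xgl2_val], by simp [b, xgl2_val]⟩
    refine ⟨0, g * (xgl2_y 0 * b)⁻¹, xgl2_row ?_ ?_, b, hb, by simp [mul_assoc]⟩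
    · rw [xgl2_y, dif_pos rfl, Units.val_mul, xgl2_val, xgl2_val]; simp
    · rw [xgl2_y, dif_pos rfl, Units.val_mul, xgl2_val, xgl2_val]; simp

lemma xgl2_C [Fintype F] (φ : GLn 2 F → ℂ) (s : Finset (GLn 2 F → ℂ))
    (hs : ∀ χ ∈ s, f0cEig (Bp F) φ χ) : s.card ≤ Fintype.card F := by
  classical
  refine (f0c_count (xgl2_B F) φ (Finset.univ.image xgl2_y) (fun g => ?_) s hs).trans
    Finset.card_image_le
  obtain ⟨d, h⟩ := xgl2_double g
  exact ⟨_, Finset.mem_image_of_mem _ (Finset.mem_univ d), h⟩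

lemma xgl2_irr [Fintype F] [DecidableEq F] :
    Fintype.card F * (Fintype.card F - 1) ≤ (Irr (GLn 2 F)).card := by
  have := card_Irr_ge (G := GLn 2 F) (X := F × Fˣ)
    (fun z => xgl2_mk !![0, -(z.2 : F); 1, z.1] (by simp [det_fin_two])) (by
      rintro ⟨t, d⟩ ⟨t', d'⟩ x h
      have h1 := congrArg Units.val h
      rw [Units.val_mul, Units.val_mul, xgl2_val, xgl2_val] at h1
      have h2 := congrArg Matrix.trace h1
      have h3 := congrArg Matrix.det h1
      rw [Matrix.trace_units_conj] at h2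
      rw [Matrix.det_units_conj] at h3
      simp only [trace_fin_two_of, zero_add] at h2
      simp only [det_fin_two_of, zero_mul, mul_one, zero_sub, neg_neg] at h3
      rw [h2, Units.ext h3])
  rwa [Fintype.card_prod, Fintype.card_units] at this

lemma xgl2_card [Fintype F] : Nat.card (GLn 2 F) ≤ Fintype.card F ^ 4 := by
  have h1 : Nat.card (GLn 2 F) ≤ Nat.card (Mat 2 F) :=
    Nat.card_le_card_of_injective Units.val Units.val_injective
  have h2 : Nat.card (Mat 2 F) = Fintype.card F ^ 4 := by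
    show Nat.card (Fin 2 → Fin 2 → F) = _
    rw [Nat.card_fun, Nat.card_fun, Nat.card_eq_fintype_card, Nat.card_eq_fintype_card,
      Fintype.card_fin, ← pow_mul]
  exact h2 ▸ h1

lemma xgl2_unip [Fintype F] [DecidableEq F] {ψ : AddChar F ℂ} (hψ : ψ.IsPrimitive) {V : Type}
    [AddCommGroup V] [Module ℂ V] [FiniteDimensional ℂ V] (ρ : Representation ℂ (GLn 2 F) V)
    (hV : Module.finrank ℂ V < Fintype.card F - 1) {i j : Fin 2} (hij : i ≠ j) (x : F) :
    ρ (inGL 2 F (el hij x)) = 1 := by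
  by_contra hne
  obtain ⟨w, hw⟩ : ∃ w, ρ (inGL 2 F (el hij x)) w ≠ w := by
    by_contra hc
    push Not at hc
    exact hne (LinearMap.ext hc)
  let T : (Unit → F) → Module.End ℂ V := fun v => ρ (inGL 2 F (el hij (v ())))
  obtain ⟨ξ, hξ, y, hy, hy0⟩ := f0a_exists hψ (T := T) (U := ⊤) (v₀ := fun _ => x) (x := w)
    (fun v v' => by
      simp only [T]
      rw [← map_mul, ← map_mul, ← SpecialLinearGroup.transvection_add]
      rfl)
    (by simp [T]) (fun _ _ _ => trivial) trivial hw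
  have hξ0 : ξ () ≠ 0 := fun h => hξ (funext fun _ => h)
  have key := f0a_dim hψ (T := T) (U := ⊤) (ℂ ∙ y) (Finset.univ.erase 0) (fun η hη => by
    have hη0 : η () ≠ 0 := fun h => (Finset.mem_erase.1 hη).1 (funext fun _ => h)
    have ht : ξ () / η () ≠ 0 := div_ne_zero hξ0 hη0
    let d : GLn 2 F := xgl2_mk (diagonal (Function.update 1 i (ξ () / η ()))) (by
      rw [det_diagonal]
      refine Finset.prod_ne_zero_iff.2 fun k _ => ?_
      by_cases hk : k = i
      · subst hk; simpa using ht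
      · simp [hk])
    have hd : ∀ v : F, inGL 2 F (el hij v) * d = d * inGL 2 F (el hij (η () / ξ () * v)) := by
      intro v
      apply Units.ext
      show ((1 : Mat 2 F) + single i j v) * diagonal (Function.update 1 i (ξ () / η ())) =
        diagonal (Function.update 1 i (ξ () / η ())) * (1 + single i j (η () / ξ () * v))
      rw [add_mul, mul_add, one_mul, mul_one]
      congr 1
      ext a b
      rw [mul_diagonal, diagonal_mul, single_apply, single_apply]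
      split_ifs with h
      · obtain ⟨rfl, rfl⟩ := h
        rw [Function.update_self, Function.update_of_ne hij.symm]
        simp only [Pi.one_apply]
        field_simp
      · simp
    refine ⟨ρ d, (ρ.apply_bijective d).1, fun z hz => ⟨trivial, fun v => ?_⟩⟩
    obtain ⟨c, rfl⟩ := Submodule.mem_span_singleton.1 hz
    have h1 := hy.2 (fun _ => η () / ξ () * v ())
    simp only [T] at h1 ⊢
    rw [← Module.End.mul_apply, ← map_mul, hd, map_mul, Module.End.mul_apply, map_smul, h1,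
      smul_comm, map_smul]
    congr 2
    simp only [dotProduct, Finset.univ_unique, PUnit.default_eq_unit, Finset.sum_singleton]
    field_simp)
  rw [finrank_span_singleton hy0, mul_one, finrank_top, Finset.card_erase_of_mem (Finset.mem_univ _),
    Finset.card_univ, Fintype.card_fun, Fintype.card_unit, pow_one] at key
  omega

lemma xgl2_A [Fintype F] [DecidableEq F] {ψ : AddChar F ℂ} (hψ : ψ.IsPrimitive)
    (s : Finset (GLn 2 F → ℂ)) (hs : ∀ χ ∈ s, χ ∈ IrrChar (GLn 2 F))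
    (hd : ∀ χ ∈ s, ‖χ 1‖ < (Fintype.card F : ℝ) - 1) : s.card ≤ Fintype.card F := by
  refine Pool.Agent.MP_810665_al.card_le_of_factor s hs (fun g => g.1.det) fun χ hχ g h e => ?_
  obtain ⟨V, _, _, _, ρ, -, rfl⟩ := hs χ hχ
  have h1 := hd _ hχ
  rw [Representation.char_one, Complex.norm_natCast] at h1
  have h2 : Module.finrank ℂ V < Fintype.card F - 1 := by
    have : (Module.finrank ℂ V : ℝ) + 1 < Fintype.card F := by linarith
    have : Module.finrank ℂ V + 1 < Fintype.card F := by exact_mod_cast this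
    omega
  have h3 := gen_field 2 F (MonoidHom.ker (ρ.comp (inGL 2 F))) fun i j hij x =>
    xgl2_unip hψ ρ h2 hij x
  have h4 : (g * h⁻¹).1.det = 1 := by
    have e' : g.1.det = h.1.det := e
    rw [Units.val_mul, det_mul, e', ← det_mul, h.mul_inv, det_one]
  have h5 : ρ (g * h⁻¹) = 1 := by
    obtain ⟨z, hz⟩ : ∃ z : SLn 2 F, inGL 2 F z = g * h⁻¹ := ⟨⟨(g * h⁻¹).1, h4⟩, Units.ext rfl⟩
    have h6 : z ∈ MonoidHom.ker (ρ.comp (inGL 2 F)) := h3 ▸ Subgroup.mem_top z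
    rw [MonoidHom.mem_ker, MonoidHom.comp_apply, hz] at h6
    exact h6
  have h8 : ρ g = ρ h := by
    rw [show g = g * h⁻¹ * h by simp, map_mul, h5, one_mul]
  simp only [Representation.character, h8]

lemma xgl2_big [Fintype F] [DecidableEq F] (s : Finset (GLn 2 F → ℂ)) (hs : s ⊆ Irr (GLn 2 F))
    (hd : ∀ χ ∈ s, (Fintype.card F : ℝ) ^ 3 < ‖χ 1‖ ^ 2) : s.card ≤ Fintype.card F := by
  have h1 : (s.card : ℝ) * (Fintype.card F : ℝ) ^ 3 ≤ ∑ χ ∈ s, ‖χ 1‖ ^ 2 := by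
    have := Finset.sum_le_sum fun χ hχ => (hd χ hχ).le
    rwa [Finset.sum_const, nsmul_eq_mul] at this
  have h2 : ∑ χ ∈ s, ‖χ 1‖ ^ 2 ≤ ∑ χ ∈ Irr (GLn 2 F), ‖χ 1‖ ^ 2 :=
    Finset.sum_le_sum_of_subset_of_nonneg hs fun _ _ _ => by positivity
  have h3 : (Nat.card (GLn 2 F) : ℝ) ≤ (Fintype.card F : ℝ) ^ 4 := by exact_mod_cast xgl2_card
  have h4 := ((h1.trans h2).trans sum_sq_le).trans h3
  have h5 : (0 : ℝ) < (Fintype.card F : ℝ) ^ 3 := by
    have : (0 : ℝ) < Fintype.card F := by exact_mod_cast Fintype.card_pos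
    positivity
  rw [pow_succ' _ 3] at h4
  exact_mod_cast le_of_mul_le_mul_right h4 h5

end

open Classical in
theorem good_count (p : ℕ) [Fact p.Prime] (hp : 3 ≤ p) (μ : MulChar (ZMod p) ℂ) :
    p ^ 2 ≤ ((Irr (GLn 2 (ZMod p))).filter (fun τ => Good μ τ ∧ (p : ℝ) - 1 ≤ ‖τ 1‖ ∧
      ‖τ 1‖ ^ 2 ≤ (p : ℝ) ^ 3)).card + 4 * p := by
  have hc : Fintype.card (ZMod p) = p := ZMod.card p
  have h0 := xgl2_irr (F := ZMod p)
  have hA := xgl2_A (ZMod.isPrimitive_stdAddChar p)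
    ((Irr (GLn 2 (ZMod p))).filter fun τ => ‖τ 1‖ < (p : ℝ) - 1)
    (fun χ hχ => mem_Irr.1 (Finset.mem_filter.1 hχ).1)
    (fun χ hχ => by rw [hc]; exact (Finset.mem_filter.1 hχ).2)
  have hB := xgl2_big ((Irr (GLn 2 (ZMod p))).filter fun τ => (p : ℝ) ^ 3 < ‖τ 1‖ ^ 2)
    (Finset.filter_subset _ _) (fun χ hχ => by rw [hc]; exact (Finset.mem_filter.1 hχ).2)
  have hC := xgl2_C (fun g => μ g.1.det)
    ((Irr (GLn 2 (ZMod p))).filter fun τ => f0cEig (Bp (ZMod p)) (fun g => μ g.1.det) τ)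
    (fun χ hχ => (Finset.mem_filter.1 hχ).2)
  rw [hc] at h0 hA hB hC
  have hsub : Irr (GLn 2 (ZMod p)) ⊆
      (Irr (GLn 2 (ZMod p))).filter (fun τ => Good μ τ ∧ (p : ℝ) - 1 ≤ ‖τ 1‖ ∧
        ‖τ 1‖ ^ 2 ≤ (p : ℝ) ^ 3) ∪
      ((Irr (GLn 2 (ZMod p))).filter fun τ => ‖τ 1‖ < (p : ℝ) - 1) ∪
      ((Irr (GLn 2 (ZMod p))).filter fun τ => (p : ℝ) ^ 3 < ‖τ 1‖ ^ 2) ∪
      ((Irr (GLn 2 (ZMod p))).filter fun τ => f0cEig (Bp (ZMod p)) (fun g => μ g.1.det) τ) := by
    intro τ hτ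
    simp only [Finset.mem_union, Finset.mem_filter]
    by_cases h1 : ‖τ 1‖ < (p : ℝ) - 1
    · exact Or.inl (Or.inl (Or.inr ⟨hτ, h1⟩))
    by_cases h2 : (p : ℝ) ^ 3 < ‖τ 1‖ ^ 2
    · exact Or.inl (Or.inr ⟨hτ, h2⟩)
    by_cases h3 : f0cEig (Bp (ZMod p)) (fun g => μ g.1.det) τ
    · exact Or.inr ⟨hτ, h3⟩
    have hp' : (3 : ℝ) ≤ p := by exact_mod_cast hp
    push Not at h1 h2
    exact Or.inl (Or.inl (Or.inl ⟨hτ, ⟨hτ, by linarith, h3⟩, h1, h2⟩))
  have h1 := (Finset.card_le_card hsub).trans ((Finset.card_union_le _ _).trans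
    (add_le_add ((Finset.card_union_le _ _).trans
      (add_le_add ((Finset.card_union_le _ _).trans (add_le_add le_rfl hA)) hB)) hC))
  have h2 : p * (p - 1) + p = p ^ 2 := by
    obtain ⟨q, rfl⟩ : ∃ q, p = q + 1 := ⟨p - 1, by omega⟩
    rw [Nat.add_sub_cancel]; ring
  omega

end Pool.Agent.MP_8299d6_al.Up

end
end

section

open Matrix

noncomputable section

namespace Pool.Agent.MP_8299d6_al.Up

open Pool.Agent.MP_810665_al (IrrChar)

variable {F : Type} [Field F]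

/-- the upper right block -/
def xparB (x : Mat 4 F) : Mat 2 F := !![x 0 2, x 0 3; x 1 2, x 1 3]

/-- the lower left block -/
def xparC (x : Mat 4 F) : Mat 2 F := !![x 2 0, x 2 1; x 3 0, x 3 1]

/-- a matrix from four blocks -/
def xparM (A B C D : Mat 2 F) : Mat 4 F :=
  !![A 0 0, A 0 1, B 0 0, B 0 1; A 1 0, A 1 1, B 1 0, B 1 1;
    C 0 0, C 0 1, D 0 0, D 0 1; C 1 0, C 1 1, D 1 0, D 1 1]

lemma xpar_A (A B C D : Mat 2 F) : blkA (xparM A B C D) = A := by
  ext i j; fin_cases i <;> fin_cases j <;> rfl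

lemma xpar_B (A B C D : Mat 2 F) : xparB (xparM A B C D) = B := by
  ext i j; fin_cases i <;> fin_cases j <;> rfl

lemma xpar_C (A B C D : Mat 2 F) : xparC (xparM A B C D) = C := by
  ext i j; fin_cases i <;> fin_cases j <;> rfl

lemma xpar_D (A B C D : Mat 2 F) : blkD (xparM A B C D) = D := by
  ext i j; fin_cases i <;> fin_cases j <;> rfl

lemma xpar_eta (x : Mat 4 F) : xparM (blkA x) (xparB x) (xparC x) (blkD x) = x := by
  ext i j; fin_cases i <;> fin_cases j <;> rfl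

lemma xpar_ext {x y : Mat 4 F} (h1 : blkA x = blkA y) (h2 : xparB x = xparB y)
    (h3 : xparC x = xparC y) (h4 : blkD x = blkD y) : x = y := by
  rw [← xpar_eta x, h1, h2, h3, h4, xpar_eta]

lemma xpar_mulA (x y : Mat 4 F) : blkA (x * y) = blkA x * blkA y + xparB x * xparC y := by
  ext i j; fin_cases i <;> fin_cases j <;>
    simp [blkA, xparB, xparC, Matrix.mul_apply, Fin.sum_univ_four, add_assoc]

lemma xpar_mulB (x y : Mat 4 F) : xparB (x * y) = blkA x * xparB y + xparB x * blkD y := by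
  ext i j; fin_cases i <;> fin_cases j <;>
    simp [blkA, xparB, blkD, Matrix.mul_apply, Fin.sum_univ_four, add_assoc]

lemma xpar_mulC (x y : Mat 4 F) : xparC (x * y) = xparC x * blkA y + blkD x * xparC y := by
  ext i j; fin_cases i <;> fin_cases j <;>
    simp [blkA, xparC, blkD, Matrix.mul_apply, Fin.sum_univ_four, add_assoc]

lemma xpar_mulD (x y : Mat 4 F) : blkD (x * y) = xparC x * xparB y + blkD x * blkD y := by
  ext i j; fin_cases i <;> fin_cases j <;>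
    simp [xparB, xparC, blkD, Matrix.mul_apply, Fin.sum_univ_four, add_assoc]

lemma xpar_oneA : blkA (1 : Mat 4 F) = 1 := by
  ext i j; fin_cases i <;> fin_cases j <;> simp [blkA]

lemma xpar_oneB : xparB (1 : Mat 4 F) = 0 := by
  ext i j; fin_cases i <;> fin_cases j <;> simp [xparB]

lemma xpar_oneC : xparC (1 : Mat 4 F) = 0 := by
  ext i j; fin_cases i <;> fin_cases j <;> simp [xparC]

lemma xpar_oneD : blkD (1 : Mat 4 F) = 1 := by
  ext i j; fin_cases i <;> fin_cases j <;> simp [blkD]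

lemma xpar_addA (x y : Mat 4 F) : blkA (x + y) = blkA x + blkA y := by
  ext i j; fin_cases i <;> fin_cases j <;> simp [blkA]

lemma xpar_addC (x y : Mat 4 F) : xparC (x + y) = xparC x + xparC y := by
  ext i j; fin_cases i <;> fin_cases j <;> simp [xparC]

lemma xpar_addD (x y : Mat 4 F) : blkD (x + y) = blkD x + blkD y := by
  ext i j; fin_cases i <;> fin_cases j <;> simp [blkD]

lemma xpar_mem {g : GLn 4 F} : g ∈ P22 F ↔ xparC g.1 = 0 := by
  constructor
  · rintro ⟨h1, h2, h3, h4⟩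
    ext i j; fin_cases i <;> fin_cases j <;> simp [xparC, h1, h2, h3, h4]
  · intro h
    exact ⟨congrFun (congrFun h 0) 0, congrFun (congrFun h 0) 1, congrFun (congrFun h 1) 0,
      congrFun (congrFun h 1) 1⟩

lemma xpar_det {x : Mat 4 F} (h : xparC x = 0) : x.det = (blkA x).det * (blkD x).det := by
  have e : x = Matrix.reindex (finSumFinEquiv (m := 2) (n := 2)) (finSumFinEquiv (m := 2) (n := 2))
      (fromBlocks (blkA x) (xparB x) (xparC x) (blkD x)) := by
    ext i j; fin_cases i <;> fin_cases j <;> rfl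
  conv_lhs => rw [e]
  rw [Matrix.det_reindex_self, h, Matrix.det_fromBlocks_zero₂₁]

lemma xpar_det_ne (g : GLn 4 F) : g.1.det ≠ 0 :=
  ((Matrix.isUnit_iff_isUnit_det _).1 g.isUnit).ne_zero

lemma xpar_unit {g : GLn 4 F} (h : g ∈ P22 F) : IsUnit (blkA g.1) ∧ IsUnit (blkD g.1) := by
  have h1 := xpar_det_ne g
  rw [xpar_det (xpar_mem.1 h)] at h1
  exact ⟨(Matrix.isUnit_iff_isUnit_det _).2 (left_ne_zero_of_mul h1).isUnit,
    (Matrix.isUnit_iff_isUnit_det _).2 (right_ne_zero_of_mul h1).isUnit⟩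

/-- the parabolic subgroup -/
def xparS (F : Type) [Field F] : Subgroup (GLn 4 F) where
  carrier := P22 F
  one_mem' := xpar_mem.2 xpar_oneC
  mul_mem' {a b} ha hb := by
    rw [xpar_mem] at ha hb ⊢
    rw [Units.val_mul, xpar_mulC, ha, hb]; simp
  inv_mem' {a} ha := by
    have h1 := xpar_mulC a.1 (a⁻¹).1
    rw [Units.mul_inv, xpar_oneC, xpar_mem.1 ha, zero_mul, zero_add] at h1
    exact xpar_mem.2 ((xpar_unit ha).2.mul_right_eq_zero.1 h1.symm)

lemma xpar_mulA' {x y : GLn 4 F} (hy : y ∈ P22 F) : blkA (x * y).1 = blkA x.1 * blkA y.1 := by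
  rw [Units.val_mul, xpar_mulA, xpar_mem.1 hy]; simp

lemma xpar_mulD' {x y : GLn 4 F} (hx : x ∈ P22 F) : blkD (x * y).1 = blkD x.1 * blkD y.1 := by
  rw [Units.val_mul, xpar_mulD, xpar_mem.1 hx]; simp

/-- block triangular units -/
def xparU (g h : GLn 2 F) (B : Mat 2 F) : GLn 4 F where
  val := xparM g.1 B 0 h.1
  inv := xparM (g⁻¹).1 (-((g⁻¹).1 * B * (h⁻¹).1)) 0 (h⁻¹).1
  val_inv := by
    apply xpar_ext
    · rw [xpar_mulA, xpar_oneA]; simp only [xpar_A, xpar_B, xpar_C, Units.mul_inv]; simp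
    · rw [xpar_mulB, xpar_oneB]
      simp only [xpar_A, xpar_B, xpar_D, mul_neg, ← mul_assoc, Units.mul_inv]; simp
    · rw [xpar_mulC, xpar_oneC]; simp only [xpar_A, xpar_D, xpar_C]; simp
    · rw [xpar_mulD, xpar_oneD]; simp only [xpar_D, xpar_B, xpar_C, Units.mul_inv]; simp
  inv_val := by
    apply xpar_ext
    · rw [xpar_mulA, xpar_oneA]; simp only [xpar_A, xpar_B, xpar_C, Units.inv_mul]; simp
    · rw [xpar_mulB, xpar_oneB]
      simp only [xpar_A, xpar_B, xpar_D, neg_mul, mul_assoc, Units.inv_mul]; simp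
    · rw [xpar_mulC, xpar_oneC]; simp only [xpar_A, xpar_D, xpar_C]; simp
    · rw [xpar_mulD, xpar_oneD]; simp only [xpar_D, xpar_B, xpar_C, Units.inv_mul]; simp

lemma xparU_val (g h : GLn 2 F) (B : Mat 2 F) : (xparU g h B).1 = xparM g.1 B 0 h.1 := rfl

lemma xparU_mem (g h : GLn 2 F) (B : Mat 2 F) : xparU g h B ∈ P22 F :=
  xpar_mem.2 (xpar_C _ _ _ _)

lemma xpar_core (t : GLn 4 F) (N1 N2 : Mat 2 F) (hC : xparC t.1 * N1 = 0)
    (hd : (1 + blkA t.1 * N1).det * (1 + xparC t.1 * N2).det ≠ 0) :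
    ∃ x ∈ P22 F, blkA x.1 = 1 + blkA t.1 * N1 ∧ blkD x.1 = 1 + xparC t.1 * N2 ∧
      t⁻¹ * x * t ∈ P22 F ∧ blkD (t⁻¹ * x * t).1 = 1 ∧
      (blkA (t⁻¹ * x * t).1).det = (1 + blkA t.1 * N1).det * (1 + xparC t.1 * N2).det := by
  set X : Mat 4 F := 1 + t.1 * xparM N1 N2 0 0 with hX
  have hA : blkA X = 1 + blkA t.1 * N1 := by
    rw [hX, xpar_addA, xpar_oneA, xpar_mulA, xpar_A, xpar_C]; simp
  have hD : blkD X = 1 + xparC t.1 * N2 := by
    rw [hX, xpar_addD, xpar_oneD, xpar_mulD, xpar_B, xpar_D]; simp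
  have hC' : xparC X = 0 := by
    rw [hX, xpar_addC, xpar_oneC, xpar_mulC, xpar_A, xpar_C, hC]; simp
  have hdet : X.det = (1 + blkA t.1 * N1).det * (1 + xparC t.1 * N2).det := by
    rw [xpar_det hC', hA, hD]
  have hu : IsUnit X := (Matrix.isUnit_iff_isUnit_det _).2 (hdet ▸ hd).isUnit
  have hv : (t⁻¹ * hu.unit * t).1 = 1 + xparM N1 N2 0 0 * t.1 := by
    rw [Units.val_mul, Units.val_mul, IsUnit.unit_spec, hX, mul_add, add_mul, mul_one,
      Units.inv_mul, ← mul_assoc, Units.inv_mul, one_mul]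
  have h1 : xparC (t⁻¹ * hu.unit * t).1 = 0 := by
    rw [hv, xpar_addC, xpar_oneC, xpar_mulC, xpar_C, xpar_D]; simp
  have h2 : blkD (t⁻¹ * hu.unit * t).1 = 1 := by
    rw [hv, xpar_addD, xpar_oneD, xpar_mulD, xpar_C, xpar_D]; simp
  refine ⟨hu.unit, xpar_mem.2 hC', hA, hD, xpar_mem.2 h1, h2, ?_⟩
  have h3 := xpar_det h1
  rw [h2, det_one, mul_one] at h3
  rw [← h3, Units.val_mul, Units.val_mul, IsUnit.unit_spec, det_mul, det_mul, mul_right_comm,
    ← det_mul, Units.inv_mul, det_one, one_mul, hdet]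

lemma xpar_col {c : Fin 2 → F} (hc : c ≠ 0) : ∃ k : GLn 2 F, k.1 0 0 = c 0 ∧ k.1 1 0 = c 1 := by
  by_cases h0 : c 0 = 0
  · have h1 : c 1 ≠ 0 := by
      intro h1; apply hc; ext i; fin_cases i <;> simp [h0, h1]
    have hu : IsUnit (!![c 0, 1; c 1, 0] : Mat 2 F) :=
      (Matrix.isUnit_iff_isUnit_det _).2 (by simp [det_fin_two, h1])
    exact ⟨hu.unit, rfl, rfl⟩
  · have hu : IsUnit (!![c 0, 0; c 1, 1] : Mat 2 F) :=
      (Matrix.isUnit_iff_isUnit_det _).2 (by simp [det_fin_two, h0])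
    exact ⟨hu.unit, rfl, rfl⟩

/-- the parabolic subgroup and its two blocks -/
theorem P22_subgroup (F : Type) [Field F] : ∃ (S : Subgroup (GLn 4 F)) (a d : S →* GLn 2 F),
    (S : Set (GLn 4 F)) = P22 F ∧ (∀ x : S, (a x).1 = blkA x.1.1) ∧
      (∀ x : S, (d x).1 = blkD x.1.1) ∧ ∀ g h : GLn 2 F, ∃ x : S, a x = g ∧ d x = h := by
  let a : xparS F →* GLn 2 F :=
    { toFun := fun x => (xpar_unit x.2).1.unit
      map_one' := Units.ext xpar_oneA
      map_mul' := fun x y => Units.ext (xpar_mulA' y.2) }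
  let d : xparS F →* GLn 2 F :=
    { toFun := fun x => (xpar_unit x.2).2.unit
      map_one' := Units.ext xpar_oneD
      map_mul' := fun x y => Units.ext (xpar_mulD' x.2) }
  refine ⟨xparS F, a, d, rfl, fun _ => rfl, fun _ => rfl, fun g h => ?_⟩
  exact ⟨⟨xparU g h 0, xparU_mem g h 0⟩, Units.ext (xpar_A _ _ _ _), Units.ext (xpar_D _ _ _ _)⟩

theorem P22_index [Fintype F] (S : Subgroup (GLn 4 F)) (hS : (S : Set (GLn 4 F)) = P22 F) :
    Fintype.card F ^ 4 * Nat.card S ≤ Nat.card (GLn 4 F) ∧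
      Nat.card (GLn 4 F) ≤ 3 * Fintype.card F ^ 4 * Nat.card S := by
  have hm : ∀ x, x ∈ S ↔ x ∈ P22 F := fun x => by rw [← hS]; rfl
  let f : GLn 2 F × GLn 2 F × Mat 2 F → S := fun p =>
    ⟨xparU p.1 p.2.1 p.2.2, (hm _).2 (xparU_mem _ _ _)⟩
  have hf : Function.Bijective f := by
    constructor
    · rintro ⟨g, h, B⟩ ⟨g', h', B'⟩ e
      have e1 : xparM g.1 B 0 h.1 = xparM g'.1 B' 0 h'.1 := congrArg (fun x : S => x.1.1) e
      have e2 := congrArg blkA e1
      have e3 := congrArg xparB e1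
      have e4 := congrArg blkD e1
      simp only [xpar_A, xpar_B, xpar_D] at e2 e3 e4
      rw [Units.ext e2, Units.ext e4, e3]
    · rintro ⟨x, hx⟩
      have hx' := (hm x).1 hx
      refine ⟨((xpar_unit hx').1.unit, (xpar_unit hx').2.unit, xparB x.1), Subtype.ext (Units.ext ?_)⟩
      show xparM (blkA x.1) (xparB x.1) 0 (blkD x.1) = x.1
      rw [← xpar_mem.1 hx', xpar_eta]
  have h1 := (Nat.card_eq_of_bijective f hf).symm
  have h2 : Nat.card (Mat 2 F) = Fintype.card F ^ 4 := by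
    rw [Nat.card_congr (Matrix.of (m := Fin 2) (n := Fin 2) (α := F)).symm, Nat.card_fun,
      Nat.card_fun, Nat.card_eq_fintype_card, Nat.card_eq_fintype_card, Fintype.card_fin, ← pow_mul]
  have h3 : Nat.card (GLn 2 F) = _ := Matrix.card_GL_field (𝔽 := F) 2
  have h4 : Nat.card (GLn 4 F) = _ := Matrix.card_GL_field (𝔽 := F) 4
  rw [Nat.card_prod, Nat.card_prod, h2, h3, Fin.prod_univ_two] at h1
  rw [Fin.prod_univ_four] at h4
  have hq : 2 ≤ Fintype.card F := Fintype.one_lt_card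
  set q := Fintype.card F
  have hp : ∀ i n : ℕ, i ≤ n → q ^ i ≤ q ^ n := fun i n h => Nat.pow_le_pow_right (by omega) h
  have key : Nat.card (GLn 4 F) = (q ^ 2 + 1) * (q ^ 2 + q + 1) * Nat.card S := by
    rw [h1, h4]
    simp only [Fin.val_zero, Fin.val_one, Fin.val_two, show ((3 : Fin 4) : ℕ) = 3 from rfl]
    zify [hp 0 4 (by omega), hp 1 4 (by omega), hp 2 4 (by omega), hp 3 4 (by omega),
      hp 0 2 (by omega), hp 1 2 (by omega)]
    ring
  rw [key]
  refine ⟨Nat.mul_le_mul_right _ (by nlinarith [Nat.zero_le (q ^ 3), Nat.zero_le (q ^ 2)]),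
    Nat.mul_le_mul_right _ ?_⟩
  obtain ⟨r, hr⟩ := Nat.exists_eq_add_of_le hq
  rw [hr]
  nlinarith [Nat.zero_le (r ^ 4), Nat.zero_le (r ^ 3), Nat.zero_le (r ^ 2), Nat.zero_le r]

/-- elements that act trivially on the plane and on the quotient by another plane -/
theorem P22_mackey {t : GLn 4 F} (ht : t ∉ P22 F) :
    (∃ k : GLn 2 F, ∀ b ∈ Bp F, ∃ x ∈ P22 F, blkA x.1 = 1 ∧ blkD x.1 = (k * b * k⁻¹).1 ∧
      t⁻¹ * x * t ∈ P22 F ∧ blkD (t⁻¹ * x * t).1 = 1 ∧ (blkA (t⁻¹ * x * t).1).det = b.1.det) ∧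
    ((∀ c : Fˣ, ∃ x ∈ P22 F, blkD x.1 = 1 ∧ (blkA x.1).det = c ∧ t⁻¹ * x * t ∈ P22 F ∧
        blkD (t⁻¹ * x * t).1 = 1 ∧ (blkA (t⁻¹ * x * t).1).det = c) ∨
      ∀ b : GLn 2 F, ∃ x ∈ P22 F, blkA x.1 = 1 ∧ blkD x.1 = b.1 ∧ t⁻¹ * x * t ∈ P22 F ∧
        blkD (t⁻¹ * x * t).1 = 1) := by
  have hC : xparC t.1 ≠ 0 := fun h => ht (xpar_mem.2 h)
  constructor
  · obtain ⟨u, hu⟩ : ∃ u : Fin 2 → F, xparC t.1 *ᵥ u ≠ 0 := by
      by_contra h
      push Not at h
      exact hC (Matrix.ext_iff_mulVec.2 fun u => by rw [h u, zero_mulVec])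
    obtain ⟨k, hk0, hk1⟩ := xpar_col hu
    refine ⟨k, fun b hb => ?_⟩
    have e1 : xparC t.1 * !![u 0, 0; u 1, 0] * (b.1 - 1) = k.1 * (b.1 - 1) := by
      obtain ⟨hb0, hb1⟩ := hb
      simp only [mulVec, dotProduct, Fin.sum_univ_two] at hk0 hk1
      ext i j; fin_cases i <;> fin_cases j <;>
        simp [Matrix.mul_apply, Fin.sum_univ_two, hb0, hb1, hk0, hk1]
    have e2 : 1 + xparC t.1 * (!![u 0, 0; u 1, 0] * (b.1 - 1) * (k⁻¹).1) = (k * b * k⁻¹).1 := by
      rw [← mul_assoc, ← mul_assoc, e1, mul_sub, sub_mul, mul_one, Units.mul_inv, Units.val_mul,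
        Units.val_mul]
      abel
    have e3 : (k * b * k⁻¹).1.det = b.1.det := by
      rw [Units.val_mul, Units.val_mul, det_mul, det_mul, mul_right_comm, ← det_mul, Units.mul_inv,
        det_one, one_mul]
    have e4 : b.1.det ≠ 0 := ((Matrix.isUnit_iff_isUnit_det _).1 b.isUnit).ne_zero
    have := xpar_core t 0 (!![u 0, 0; u 1, 0] * (b.1 - 1) * (k⁻¹).1) (mul_zero _)
      (by rw [e2, e3]; simpa using e4)
    rw [e2, e3, mul_zero, add_zero, det_one, one_mul] at this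
    exact this
  by_cases hd : (xparC t.1).det = 0
  · left
    obtain ⟨u, hu0, hu⟩ := Matrix.exists_mulVec_eq_zero_iff.2 hd
    have hw : blkA t.1 *ᵥ u ≠ 0 := by
      intro h
      have h1 := xpar_mulA (t⁻¹).1 t.1
      rw [Units.inv_mul, xpar_oneA] at h1
      have h2 := congrArg (· *ᵥ u) h1
      simp only [one_mulVec, add_mulVec, ← mulVec_mulVec, h, hu, mulVec_zero, add_zero] at h2
      exact hu0 h2
    intro c
    obtain ⟨φ, hφ⟩ : ∃ φ : Fin 2 → F, φ ⬝ᵥ (blkA t.1 *ᵥ u) = c - 1 := by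
      obtain ⟨i, hi⟩ := Function.ne_iff.1 hw
      refine ⟨Pi.single i ((c - 1) / (blkA t.1 *ᵥ u) i), ?_⟩
      rw [single_dotProduct, div_mul_cancel₀ _ hi]
    have e1 : (1 + blkA t.1 * vecMulVec u φ).det = c := by
      rw [Matrix.mul_vecMulVec]
      generalize blkA t.1 *ᵥ u = w at hφ
      simp only [dotProduct, Fin.sum_univ_two] at hφ
      simp [det_fin_two, vecMulVec_apply]
      linear_combination hφ
    obtain ⟨x, hx, h1, h2, h3, h4, h5⟩ := xpar_core t (vecMulVec u φ) 0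
      (by rw [Matrix.mul_vecMulVec, hu, zero_vecMulVec]) (by rw [e1]; simp)
    rw [mul_zero, add_zero] at h2
    rw [e1, mul_zero, add_zero, det_one, mul_one] at h5
    exact ⟨x, hx, h2, by rw [h1, e1], h3, h4, h5⟩
  · right
    intro b
    have e2 : 1 + xparC t.1 * ((xparC t.1)⁻¹ * (b.1 - 1)) = b.1 := by
      rw [← mul_assoc, Matrix.mul_nonsing_inv _ (Ne.isUnit hd), one_mul]; abel
    have e4 : b.1.det ≠ 0 := ((Matrix.isUnit_iff_isUnit_det _).1 b.isUnit).ne_zero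
    obtain ⟨x, hx, h1, h2, h3, h4, -⟩ := xpar_core t 0 ((xparC t.1)⁻¹ * (b.1 - 1)) (mul_zero _)
      (by rw [e2]; simpa using e4)
    rw [mul_zero, add_zero] at h1
    exact ⟨x, hx, h1, by rw [h2, e2], h3, h4⟩

end Pool.Agent.MP_8299d6_al.Up

end
end

section

open Matrix

noncomputable section

namespace Pool.Agent.MP_8299d6_al.Up

open Pool.Agent.MP_810665_al (IrrChar)

section aux
open Pool.Agent.MP_810665_al

/-- a nonzero intertwiner between irreducible representations forces equal characters -/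
lemma xind1_char {S U W : Type} [Group S] [Finite S] [AddCommGroup U] [Module ℂ U]
    [FiniteDimensional ℂ U] [AddCommGroup W] [Module ℂ W] [FiniteDimensional ℂ W]
    {σ : Representation ℂ S U} {τ : Representation ℂ S W} (hσ : σ.IsIrreducible)
    (hτ : τ.IsIrreducible) (f : U →ₗ[ℂ] W) (hf : ∀ s u, f (σ s u) = τ s (f u)) (h0 : f ≠ 0) :
    σ.character = τ.character := by
  have := Fintype.ofFinite S
  by_contra hne
  obtain ⟨c, hc, hc'⟩ := proj_self hσ
  refine h0 (LinearMap.ext fun u => ?_)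
  have h1 : f (proj σ.character σ u) = proj σ.character τ (f u) := by
    simp only [proj_apply, map_sum, map_smul, hf]
  rw [hc', proj_eq_zero hτ ⟨U, _, _, inferInstance, σ, hσ, rfl⟩ (Ne.symm hne), map_smul] at h1
  exact (smul_eq_zero.1 h1).resolve_left hc

/-- an injective intertwiner has an intertwining left inverse -/
lemma xind1_split {S V W : Type} [Group S] [Finite S] [AddCommGroup V] [Module ℂ V]
    [AddCommGroup W] [Module ℂ W] (τ : Representation ℂ S W) (ρ : Representation ℂ S V)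
    (T : W →ₗ[ℂ] V) (hT : Function.Injective T) (h : ∀ x w, T (τ x w) = ρ x (T w)) :
    ∃ π : V →ₗ[ℂ] W, (∀ w, π (T w) = w) ∧ ∀ x v, π (ρ x v) = τ x (π v) := by
  have := Fintype.ofFinite S
  obtain ⟨p, hp⟩ := T.exists_leftInverse_of_injective (LinearMap.ker_eq_bot.2 hT)
  have hp' : ∀ w, p (T w) = w := fun w => LinearMap.congr_fun hp w
  refine ⟨(Nat.card S : ℂ)⁻¹ • ∑ s : S, τ s ∘ₗ p ∘ₗ ρ s⁻¹, fun w => ?_, fun x v => ?_⟩
  · have e : ∀ s : S, τ s (p (ρ s⁻¹ (T w))) = w := fun s => by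
      rw [← h, hp', ← Module.End.mul_apply, ← map_mul, mul_inv_cancel, map_one,
        Module.End.one_apply]
    simp only [LinearMap.smul_apply, LinearMap.sum_apply, LinearMap.comp_apply, e,
      Finset.sum_const, Finset.card_univ]
    rw [← Nat.cast_smul_eq_nsmul ℂ, ← Nat.card_eq_fintype_card, smul_smul,
      inv_mul_cancel₀ card_ne_zero, one_smul]
  · simp only [LinearMap.smul_apply, LinearMap.sum_apply, LinearMap.comp_apply, map_smul, map_sum]
    congr 1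
    refine (Fintype.sum_equiv (Equiv.mulLeft x) _ _ fun s => ?_).symm
    have e : ρ (x * s)⁻¹ (ρ x v) = ρ s⁻¹ v := by
      rw [← Module.End.mul_apply, ← map_mul, _root_.mul_inv_rev, inv_mul_cancel_right]
    rw [Equiv.coe_mulLeft, e, map_mul, Module.End.mul_apply]

end aux

/-- Mackey's criterion -/
theorem ind_abs {G : Type} [Group G] [Fintype G] (S : Subgroup G) {I : Type} (W : I → Type)
    [∀ i, AddCommGroup (W i)] [∀ i, Module ℂ (W i)] [∀ i, FiniteDimensional ℂ (W i)]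
    (τ : ∀ i, Representation ℂ S (W i)) (hτ : ∀ i, (τ i).IsIrreducible)
    (hM : ∀ i j, ∀ t ∉ S, ∀ f : W i →ₗ[ℂ] W j,
      (∀ x y : S, t⁻¹ * x * t = y → ∀ w, τ j x (f w) = f (τ i y w)) → f = 0) :
    (∀ i, rt2_ind S.subtype (τ i).character ∈ Irr G) ∧
      ∀ i j, rt2_ind S.subtype (τ i).character = rt2_ind S.subtype (τ j).character →
        (τ i).character = (τ j).character := by
  have hι := S.subtype_injective
  have hz : ∀ i j (V : Type) [AddCommGroup V] [Module ℂ V] (ρ : Representation ℂ G V)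
      (T : W i →ₗ[ℂ] V) (π : V →ₗ[ℂ] W j), (∀ (x : S) w, T (τ i x w) = ρ x (T w)) →
      (∀ (x : S) v, π (ρ x v) = τ j x (π v)) → ∀ t ∉ S, ∀ w, π (ρ t (T w)) = 0 := by
    intro i j V _ _ ρ T π hT hπ t ht w
    have := hM i j t ht (π ∘ₗ ρ t ∘ₗ T) fun x y hxy w => by
      simp only [LinearMap.comp_apply]
      rw [← hπ, hT, ← hxy, ← Module.End.mul_apply, ← Module.End.mul_apply (ρ t), ← map_mul,
        ← map_mul, ← mul_assoc, mul_inv_cancel_left]
    exact LinearMap.congr_fun this w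
  have key : ∀ i, ∃ (V : Type) (_ : AddCommGroup V) (_ : Module ℂ V) (_ : FiniteDimensional ℂ V)
      (ρ : Representation ℂ G V) (T : W i →ₗ[ℂ] V) (π : V →ₗ[ℂ] W i), ρ.IsIrreducible ∧
      (∀ w, π (T w) = w) ∧ (∀ (x : S) w, T (τ i x w) = ρ x (T w)) ∧
      (∀ (x : S) v, π (ρ x v) = τ i x (π v)) ∧
      ρ.character = rt2_ind S.subtype (τ i).character := by
    intro i
    obtain ⟨V, _, _, _, ρ, T, hρ, hT, h⟩ := exists_over S.subtype hι (τ i) (hτ i)
    obtain ⟨π, h1, h2⟩ := xind1_split (τ i) (ρ.comp S.subtype) T hT h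
    have h2' : ∀ (x : S) v, π (ρ x v) = τ i x (π v) := h2
    have h' : ∀ (x : S) w, T (τ i x w) = ρ x (T w) := h
    obtain ⟨w, hw⟩ := ((MP_810665_al.irreducible_iff _).1 (hτ i)).1
    have hw' : T w ≠ 0 := fun e => hw (hT (e.trans (map_zero T).symm))
    obtain ⟨σ, hσ, h3, h4⟩ := rt2_cliff S.subtype hι hρ (E := T ∘ₗ π)
      (fun e => hw' (by simpa [h1] using LinearMap.congr_fun e (T w)))
      (LinearMap.ext fun v => by simp [h1])
      (fun s => LinearMap.ext fun v => by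
        simp only [Module.End.mul_apply, LinearMap.comp_apply, Subgroup.coe_subtype, h2', h'])
      (fun g hg => LinearMap.ext fun v => by
        have := hz i i V ρ T π h' h2' g (fun e => hg ⟨⟨g, e⟩, rfl⟩) (π v)
        simp only [Module.End.mul_apply, LinearMap.comp_apply, this, map_zero,
          LinearMap.zero_apply])
    refine ⟨V, _, _, inferInstance, ρ, T, π, hρ, h1, h', h2', ?_⟩
    rw [h4, xind1_char (hτ i) hσ (T.codRestrict _ fun w => ⟨T w, by simp [h1]⟩)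
      (fun s u => Subtype.ext (by rw [h3]; exact h' s u))
      (fun e => hw' (congrArg Subtype.val (LinearMap.congr_fun e w)))]
  refine ⟨fun i => ?_, fun i j hij => ?_⟩
  · obtain ⟨V, _, _, _, ρ, T, π, hρ, -, -, -, h⟩ := key i
    exact mem_Irr.2 ⟨V, _, _, inferInstance, ρ, hρ, h⟩
  obtain ⟨V, _, _, _, ρ, T, π, hρ, h1, h2, -, h4⟩ := key i
  obtain ⟨V', _, _, _, ρ', T', π', hρ', h1', -, h3', h4'⟩ := key j
  obtain ⟨e₀⟩ := MP_810665_al.equiv_of_char_eq hρ hρ' (h4.trans (hij.trans h4'.symm))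
  obtain ⟨e, he⟩ : ∃ e : V ≃ₗ[ℂ] V', ∀ g v, e (ρ g v) = ρ' g (e v) :=
    ⟨e₀.toLinearEquiv, fun g v => LinearMap.congr_fun (e₀.isIntertwining' g) v⟩
  have h5 : ∀ (x : S) w, (e.toLinearMap ∘ₗ T) (τ i x w) =
      ρ' x ((e.toLinearMap ∘ₗ T) w) := fun x w => by
    simp only [LinearMap.comp_apply, LinearEquiv.coe_coe, h2, he]
  refine xind1_char (hτ i) (hτ j) (π' ∘ₗ e.toLinearMap ∘ₗ T) (fun s u => by
    rw [LinearMap.comp_apply, h5, h3']
    rfl) fun h0 => ?_
  have h6 : ∀ w, π' ((e.toLinearMap ∘ₗ T) w) = 0 := LinearMap.congr_fun h0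
  let U : Submodule ℂ V' := ⨅ g : G, LinearMap.ker (π' ∘ₗ ρ' g)
  have mU : ∀ v, v ∈ U ↔ ∀ g, π' (ρ' g v) = 0 := fun v => by
    simp only [U, Submodule.mem_iInf, LinearMap.mem_ker, LinearMap.comp_apply]
  rcases ((MP_810665_al.irreducible_iff ρ').1 hρ').2 U (fun g v hv => (mU _).2 fun g' => by
    rw [← Module.End.mul_apply, ← map_mul]
    exact (mU v).1 hv _) with h | h
  · obtain ⟨w, hw⟩ := ((MP_810665_al.irreducible_iff _).1 (hτ i)).1
    have : (e.toLinearMap ∘ₗ T) w ∈ U := (mU _).2 fun g => by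
      by_cases hg : g ∈ S
      · rw [h3' ⟨g, hg⟩, h6, map_zero]
      · exact hz i j V' ρ' _ π' h5 h3' g hg w
    rw [h, Submodule.mem_bot, LinearMap.comp_apply, LinearEquiv.coe_coe,
      LinearEquiv.map_eq_zero_iff] at this
    exact hw (by rw [← h1 w, this, map_zero])
  · obtain ⟨w, hw⟩ := ((MP_810665_al.irreducible_iff _).1 (hτ j)).1
    have := (mU (T' w)).1 (h ▸ Submodule.mem_top) 1
    rw [map_one, Module.End.one_apply, h1'] at this
    exact hw this

end Pool.Agent.MP_8299d6_al.Up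

end
end

section

open Matrix

noncomputable section

namespace Pool.Agent.MP_8299d6_al.Up

open Pool.Agent.MP_810665_al (IrrChar)

variable {F : Type} [Field F] [Fintype F]

/-- the character of a group given by a multiplicative character of a determinant -/
def xindPhi {S : Type} [Group S] (a : S →* GLn 2 F) (μ : MulChar F ℂ) : S →* ℂˣ :=
  μ.toUnitHom.comp ((GeneralLinearGroup.det (n := Fin 2) (R := F)).comp a)

omit [Fintype F] in
lemma xindPhi_val {S : Type} [Group S] (a : S →* GLn 2 F) (μ : MulChar F ℂ) (x : S) :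
    (xindPhi a μ x : ℂ) = μ (a x).1.det := by
  simp only [xindPhi, MonoidHom.comp_apply, MulChar.coe_toUnitHom]
  rfl

/-- a common eigenvector forces dimension one -/
lemma xind_dim {G V : Type} [Group G] [AddCommGroup V] [Module ℂ V] [FiniteDimensional ℂ V]
    {ρ : Representation ℂ G V} (hρ : ρ.IsIrreducible) {v : V} (hv : v ≠ 0)
    (h : ∀ g, ∃ c : ℂ, ρ g v = c • v) : ‖ρ.character 1‖ = 1 := by
  rw [Representation.char_one, Complex.norm_natCast]
  rcases ((MP_810665_al.irreducible_iff ρ).1 hρ).2 (Submodule.span ℂ {v}) (fun g w hw => by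
    obtain ⟨c, rfl⟩ := Submodule.mem_span_singleton.1 hw
    obtain ⟨e, he⟩ := h g
    rw [map_smul, he, smul_smul]
    exact Submodule.smul_mem _ _ (Submodule.mem_span_singleton_self v)) with h1 | h1
  · exact absurd (Submodule.span_singleton_eq_bot.1 h1) hv
  · have h2 := finrank_span_singleton (K := ℂ) hv
    rw [h1, finrank_top] at h2
    exact_mod_cast h2

/-- the intertwiners of Mackey's criterion vanish -/
lemma xind_mackey (S : Subgroup (GLn 4 F)) (a d : S →* GLn 2 F)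
    (hS : (S : Set (GLn 4 F)) = P22 F) (ha : ∀ x : S, (a x).1 = blkA x.1.1)
    (hd : ∀ x : S, (d x).1 = blkD x.1.1) {V W : Type} [AddCommGroup V] [Module ℂ V]
    [AddCommGroup W] [Module ℂ W] [FiniteDimensional ℂ W] (μ μ' : MulChar F ℂ)
    (R : Representation ℂ (GLn 2 F) V) (R' : Representation ℂ (GLn 2 F) W)
    (hR' : R'.IsIrreducible) (hG : Good μ' R'.character) {t : GLn 4 F} (ht : t ∉ S)
    (f : V →ₗ[ℂ] W) (hf : ∀ x y : S, t⁻¹ * x * t = y → ∀ w,
      trTw (xindPhi a μ') (R'.comp d) x (f w) = f (trTw (xindPhi a μ) (R.comp d) y w)) :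
    f = 0 := by
  have hm : ∀ {x : GLn 4 F}, x ∈ P22 F → x ∈ S := fun hx => by
    rw [← SetLike.mem_coe, hS]; exact hx
  ext w
  by_contra hv
  rw [LinearMap.zero_apply] at hv
  have key : ∀ x ∈ P22 F, t⁻¹ * x * t ∈ P22 F → blkD (t⁻¹ * x * t).1 = 1 → ∀ b : GLn 2 F,
      blkD x.1 = b.1 → μ' (blkA x.1).det • R' b (f w) = μ (blkA (t⁻¹ * x * t).1).det • f w := by
    intro x hx hy h1 b hb
    have h2 := hf ⟨x, hm hx⟩ ⟨_, hm hy⟩ rfl w
    have e1 : d ⟨x, hm hx⟩ = b := Units.ext (by rw [hd]; exact hb)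
    have e2 : d ⟨_, hm hy⟩ = 1 := Units.ext (by rw [hd]; exact h1)
    rw [trTw_apply, trTw_apply, xindPhi_val, xindPhi_val, ha, ha, MonoidHom.comp_apply,
      MonoidHom.comp_apply, e1, e2, map_one, map_smul] at h2
    exact h2
  have ht' : t ∉ P22 F := fun h => ht (hm h)
  obtain ⟨⟨k, hk⟩, h2 | h2⟩ := P22_mackey ht'
  · have e : μ' = μ := by
      apply MulChar.ext
      intro c
      obtain ⟨x, hx, h3, h4, hy, h5, h6⟩ := h2 c
      have h7 := key x hx hy h5 1 h3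
      rw [h4, h6, map_one, Module.End.one_apply] at h7
      exact smul_left_injective ℂ hv h7
    refine hG.2.2 ⟨W, _, _, inferInstance, R', hR', rfl, R' k⁻¹ (f w), fun h0 => hv ?_,
      fun b hb => ?_⟩
    · have h3 : R' k (R' k⁻¹ (f w)) = f w := by
        rw [← Module.End.mul_apply, ← map_mul, mul_inv_cancel, map_one, Module.End.one_apply]
      rw [← h3, h0, map_zero]
    · obtain ⟨x, hx, h3, h4, hy, h5, h6⟩ := hk b hb
      have h7 := key x hx hy h5 _ h4
      rw [h3, h6, det_one, map_one, one_smul, ← e] at h7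
      rw [← map_smul, ← h7, ← Module.End.mul_apply, ← Module.End.mul_apply, ← map_mul, ← map_mul]
      congr 2
      group
  · have h3 := xind_dim hR' hv fun b => by
      obtain ⟨x, hx, h3, h4, hy, h5⟩ := h2 b
      have h7 := key x hx hy h5 b h4
      rw [h3, det_one, map_one, one_smul] at h7
      exact ⟨_, h7⟩
    exact absurd hG.2.1 (by rw [h3]; exact lt_irrefl _)

/-- irreducible parabolic induction -/
theorem ind22 : ∃ Φ : MulChar F ℂ → (GLn 2 F → ℂ) → GLn 4 F → ℂ,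
    (∀ μ τ, Good μ τ → Φ μ τ ∈ Irr (GLn 4 F) ∧
      (Fintype.card F : ℝ) ^ 4 * ‖τ 1‖ ≤ ‖Φ μ τ 1‖ ∧
        ‖Φ μ τ 1‖ ≤ 3 * (Fintype.card F : ℝ) ^ 4 * ‖τ 1‖) ∧
    ∀ μ τ μ' τ', Good μ τ → Good μ' τ' → Φ μ τ = Φ μ' τ' → μ = μ' ∧ τ = τ' := by
  classical
  obtain ⟨S, a, d, hS, ha, hd, hs⟩ := P22_subgroup F
  have hds : Function.Surjective d := fun h => (hs 1 h).imp fun _ hx => hx.2
  have hI : ∀ i : {p : MulChar F ℂ × (GLn 2 F → ℂ) // Good p.1 p.2}, i.1.2 ∈ IrrChar (GLn 2 F) :=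
    fun i => mem_Irr.1 i.2.1
  choose W i1 i2 i3 R hR hc using hI
  have hch : ∀ i, (trTw (xindPhi a i.1.1) ((R i).comp d)).character =
      fun x => i.1.1 (a x).1.det * i.1.2 (d x) := fun i => by
    funext x
    rw [trTw_char, xindPhi_val, ← hc i]
    rfl
  obtain ⟨h1, h2⟩ := ind_abs S W (fun i => trTw (xindPhi a i.1.1) ((R i).comp d))
    (fun i => trTw_irr _ ((MP_810665_al.irreducible_comp_iff d hds _).2 (hR i)))
    (fun i j t ht f hf => xind_mackey S a d hS ha hd i.1.1 j.1.1 (R i) (R j) (hR j)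
      (by rw [hc j]; exact j.2) ht f hf)
  simp only [hch] at h1 h2
  refine ⟨fun μ τ => rt2_ind S.subtype fun x => μ (a x).1.det * τ (d x), fun μ τ h => ?_,
    fun μ τ μ' τ' h h' e => ?_⟩
  · refine ⟨h1 ⟨(μ, τ), h⟩, ?_⟩
    obtain ⟨h3, h4⟩ := P22_index S hS
    have h0 : (0 : ℝ) < Nat.card S := by exact_mod_cast Nat.card_pos
    rw [rt2_ind_one _ S.subtype_injective]
    simp only [map_one, Units.val_one, det_one, one_mul]
    constructor
    · refine mul_le_mul_of_nonneg_right ?_ (norm_nonneg _)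
      rw [le_div_iff₀ h0]
      exact_mod_cast h3
    · refine mul_le_mul_of_nonneg_right ?_ (norm_nonneg _)
      rw [div_le_iff₀ h0]
      exact_mod_cast h4
  · have h3 := h2 ⟨(μ, τ), h⟩ ⟨(μ', τ'), h'⟩ e
    have h4 : τ = τ' := by
      funext g
      obtain ⟨x, hx, hx'⟩ := hs 1 g
      have h5 := congrFun h3 x
      simpa [hx, hx'] using h5
    refine ⟨MulChar.ext fun c => ?_, h4⟩
    have hu : IsUnit (diagonal ![(c : F), 1] : Mat 2 F) := by
      rw [isUnit_iff_isUnit_det]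
      simp [Fin.prod_univ_two]
    obtain ⟨x, hx, hx'⟩ := hs hu.unit 1
    have h5 := congrFun h3 x
    have h6 : τ 1 ≠ 0 := fun h0 => by
      have := h.2.1
      rw [h0, norm_zero] at this
      linarith
    simp only [hx, hx', IsUnit.unit_spec, det_diagonal, Fin.prod_univ_two, cons_val_zero,
      cons_val_one, mul_one, ← h4] at h5
    exact mul_right_cancel₀ h6 h5

end Pool.Agent.MP_8299d6_al.Up

end
end

section

open Matrix

noncomputable section

namespace Pool.Agent.MP_8299d6_al.Up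

open Pool.Agent.MP_810665_al (IrrChar)

/-- a family of large degree contributes little -/
theorem xl0_sum {X : Type} (B : Finset X) (d : X → ℝ) {p K D s : ℝ} {e m : ℕ} (hp : 1 ≤ p)
    (hK : 1 ≤ K) (hd : ∀ x ∈ B, p ^ e ≤ K * d x) (h0 : 0 ≤ s) (h2 : s ≤ 2) (hD : 0 ≤ D)
    (hB : (B.card : ℝ) ≤ D * p ^ m) (he : (m : ℝ) - e * s ≤ 2 - 3 * s) :
    ∑ x ∈ B, d x ^ (-s) ≤ D * K ^ 2 * p ^ (2 - 3 * s) := by
  have p0 : 0 < p := by linarith
  refine (Finset.sum_le_card_nsmul _ _ _ fun x hx => f0c_pow p0 hK (hd x hx) h0 h2).trans ?_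
  rw [nsmul_eq_mul]
  refine (mul_le_mul_of_nonneg_right hB (by positivity)).trans ?_
  have h4 : p ^ m * p ^ (-(e * s)) ≤ p ^ (2 - 3 * s) := by
    rw [← Real.rpow_natCast, ← Real.rpow_add p0]
    exact Real.rpow_le_rpow_of_exponent_le hp (by linarith)
  have h5 := mul_le_mul_of_nonneg_left h4 (show (0 : ℝ) ≤ D * K ^ 2 by positivity)
  linarith

/-- the family of induced characters -/
theorem xl0_fam (p : ℕ) [hp : Fact p.Prime] (h4 : 4 ≤ p) : ∃ B : Finset (GLn 4 (ZMod p) → ℂ),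
    B ⊆ Irr (GLn 4 (ZMod p)) ∧ ((p : ℝ) - 1) * ((p : ℝ) ^ 2 - 4 * p) ≤ B.card ∧
      ∀ χ ∈ B, (p : ℝ) ^ 4 * ((p : ℝ) - 1) ≤ ‖χ 1‖ ∧ ‖χ 1‖ ^ 2 ≤ 9 * (p : ℝ) ^ 11 := by
  classical
  obtain ⟨Φ, hΦ, hinj⟩ := ind22 (F := ZMod p)
  rw [ZMod.card] at hΦ
  have := Fintype.ofFinite (MulChar (ZMod p) ℂ)
  have hc : Fintype.card (MulChar (ZMod p) ℂ) = p - 1 := by
    rw [← Nat.card_eq_fintype_card, MulChar.card_eq_card_units_of_hasEnoughRootsOfUnity,
      Nat.card_eq_fintype_card, ZMod.card_units]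
  let g : MulChar (ZMod p) ℂ → Finset (GLn 2 (ZMod p) → ℂ) := fun μ =>
    (Irr (GLn 2 (ZMod p))).filter (fun τ => Good μ τ ∧ (p : ℝ) - 1 ≤ ‖τ 1‖ ∧
      ‖τ 1‖ ^ 2 ≤ (p : ℝ) ^ 3)
  have hg : ∀ μ, (p : ℝ) ^ 2 - 4 * p ≤ (g μ).card := fun μ => by
    have h := good_count p (by omega) μ
    have h' : ((p ^ 2 : ℕ) : ℝ) ≤ (((g μ).card + 4 * p : ℕ) : ℝ) := by
      refine Nat.cast_le.2 ?_
      convert h
    push_cast at h'
    linarith
  let T : Finset (Σ _ : MulChar (ZMod p) ℂ, (GLn 2 (ZMod p) → ℂ)) := Finset.univ.sigma g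
  have hT : ∀ z ∈ T, Good z.1 z.2 ∧ (p : ℝ) - 1 ≤ ‖z.2 1‖ ∧ ‖z.2 1‖ ^ 2 ≤ (p : ℝ) ^ 3 :=
    fun z hz => (Finset.mem_filter.1 (Finset.mem_sigma.1 hz).2).2
  refine ⟨T.image fun z => Φ z.1 z.2, fun χ hχ => ?_, ?_, fun χ hχ => ?_⟩
  · obtain ⟨z, hz, rfl⟩ := Finset.mem_image.1 hχ
    exact (hΦ _ _ (hT z hz).1).1
  · rw [Finset.card_image_of_injOn]
    · rw [Finset.card_sigma]
      push_cast
      refine le_trans ?_ (Finset.card_nsmul_le_sum _ _ _ fun μ _ => hg μ)
      rw [Finset.card_univ, hc, nsmul_eq_mul, Nat.cast_sub hp.out.one_le, Nat.cast_one]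
    · rintro ⟨μ, τ⟩ hz ⟨μ', τ'⟩ hz' e
      obtain ⟨e1, e2⟩ := hinj _ _ _ _ (hT _ hz).1 (hT _ hz').1 e
      dsimp only at e1 e2
      subst e1 e2
      rfl
  · obtain ⟨z, hz, rfl⟩ := Finset.mem_image.1 hχ
    obtain ⟨g1, g2, g3⟩ := hT z hz
    obtain ⟨-, k1, k2⟩ := hΦ _ _ g1
    refine ⟨le_trans (mul_le_mul_of_nonneg_left g2 (by positivity)) k1, ?_⟩
    refine (pow_le_pow_left₀ (norm_nonneg _) k2 2).trans ?_
    rw [mul_pow]
    refine (mul_le_mul_of_nonneg_left g3 (by positivity)).trans (le_of_eq (by ring))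

theorem level_zero2 : ∃ (C : ℝ) (p₀ : ℕ), ∀ (p : ℕ) [Fact p.Prime], p₀ ≤ p → ∀ s : ℝ,
    2 / 3 ≤ s → s ≤ 2 →
    Zs (GLn 4 (ZMod p)) (fun χ => ∃ x ∈ (Set.univ : Set (SLn 4 (ZMod p))),
      ¬ InKer χ (inGL 4 _ x)) s ≤ C * (p : ℝ) ^ (2 - 3 * s) := by
  classical
  obtain ⟨C, hC⟩ := card_Irr_GL4
  refine ⟨(1 + C) * 8 ^ 2 + (4 + C) * 2 ^ 2 + (8 + C) * 2 ^ 2, 577, fun p hp h577 s h1 h2 => ?_⟩
  have pb : (577 : ℝ) ≤ p := by exact_mod_cast h577
  have p0 : (0 : ℝ) < p := by linarith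
  have p1 : (1 : ℝ) ≤ p := by linarith
  have C0 : (0 : ℝ) ≤ C := Nat.cast_nonneg C
  obtain ⟨A, hA, hP, e⟩ := f0c_Zs (fun χ => ∃ x ∈ (Set.univ : Set (SLn 4 (ZMod p))),
    ¬ InKer χ (inGL 4 _ x)) s
  rw [e]
  have q3 : (2 : ℝ) ≤ (p : ℝ) ^ 3 := le_trans (by linarith) (le_self_pow₀ p1 (by norm_num))
  have key : ∀ χ ∈ A, (p : ℝ) ^ 3 ≤ 2 * ‖χ 1‖ := by
    intro χ hχ
    obtain ⟨x, -, hx⟩ := hP χ hχ
    obtain ⟨V, _, _, _, ρ, hρ, rfl⟩ := mem_Irr.1 (hA hχ)
    obtain ⟨d1, -⟩ := dichotomy (p := p) (n := 4) (a := 0) (b := 1) (by omega) (by decide) ρ hρ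
      ⟨x, fun e => hx fun g => by
        rw [Representation.character, Representation.character, map_mul, e, one_mul]⟩
    rw [Representation.char_one, Complex.norm_natCast]
    have q1 : 1 ≤ p ^ 3 := Nat.one_le_pow _ _ hp.out.pos
    have d1' : (p : ℝ) ^ 3 - 1 ≤ Module.finrank ℂ V := by exact_mod_cast d1
    linarith
  obtain ⟨B, hB, hBc, hBd⟩ := xl0_fam p (by omega)
  have hψ := ZMod.isPrimitive_stdAddChar p
  have gc := gen_count (F := ZMod p) hψ
  rw [ZMod.card] at gc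
  obtain ⟨E, hE⟩ : ∃ E, E = (Irr (GLn 4 (ZMod p))).filter
    (f0cEig (Uup 4 (ZMod p)) (psiU (ZMod.stdAddChar (N := p)))) := ⟨_, rfl⟩
  have gc' : ((p : ℝ) - 1) ^ 4 + 3 * ((p : ℝ) - 1) ^ 3 ≤ E.card := by
    have h : (p - 1) ^ 4 + 3 * (p - 1) ^ 3 ≤ E.card := by
      rw [hE]
      convert gc
    have h' := (Nat.cast_le (α := ℝ)).2 h
    push_cast [Nat.cast_sub hp.out.one_le] at h'
    exact h'
  have hEI : E ⊆ Irr (GLn 4 (ZMod p)) := hE ▸ Finset.filter_subset _ _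
  have hEd : ∀ χ ∈ E, (p : ℝ) ^ 6 ≤ 8 * ‖χ 1‖ := fun χ hχ => by
    rw [hE] at hχ
    have h := gen_deg hψ (Finset.mem_filter.1 hχ).2
    rw [ZMod.card] at h
    have h3 : ((p : ℝ) / 2) ^ 3 ≤ ((p : ℝ) - 1) ^ 3 :=
      pow_le_pow_left₀ (by positivity) (by linarith) 3
    have h4 := mul_le_mul_of_nonneg_left h3 (show (0 : ℝ) ≤ (p : ℝ) ^ 3 by positivity)
    have h5 : (p : ℝ) ^ 3 * ((p : ℝ) / 2) ^ 3 = (p : ℝ) ^ 6 / 8 := by ring
    linarith
  have hdis : Disjoint E B := Finset.disjoint_left.2 fun χ h1 h2 => by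
    have a1 := pow_le_pow_left₀ (by positivity) (hEd χ h1) 2
    have a2 := (hBd χ h2).2
    have a3 : ((p : ℝ) ^ 6) ^ 2 = p * (p : ℝ) ^ 11 := by ring
    have a4 : (0 : ℝ) < (p : ℝ) ^ 11 := by positivity
    have a5 := mul_le_mul_of_nonneg_right pb a4.le
    rw [mul_pow] at a1
    linarith
  have hI : ((Irr (GLn 4 (ZMod p))).card : ℝ) ≤ (p : ℝ) ^ 4 + C * (p : ℝ) ^ 2 := by
    exact_mod_cast hC p
  have hU : E ∪ B ⊆ Irr (GLn 4 (ZMod p)) := Finset.union_subset hEI hB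
  have hcard : ((Irr (GLn 4 (ZMod p)) \ (E ∪ B)).card : ℝ) + (E.card + B.card) =
      (Irr (GLn 4 (ZMod p))).card := by
    have h := Finset.card_sdiff_add_card_eq_card hU
    rw [Finset.card_union_of_disjoint hdis] at h
    exact_mod_cast h
  have n1 : (0 : ℝ) ≤ (Irr (GLn 4 (ZMod p)) \ (E ∪ B)).card := Nat.cast_nonneg _
  have n2 : (0 : ℝ) ≤ B.card := Nat.cast_nonneg _
  have r23 : (p : ℝ) ^ 2 ≤ (p : ℝ) ^ 3 := pow_le_pow_right₀ p1 (by norm_num)
  have r24 : (p : ℝ) ^ 2 ≤ (p : ℝ) ^ 4 := pow_le_pow_right₀ p1 (by norm_num)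
  have c23 := mul_le_mul_of_nonneg_left r23 C0
  have c24 := mul_le_mul_of_nonneg_left r24 C0
  have x1 : ((p : ℝ) - 1) ^ 4 + 3 * ((p : ℝ) - 1) ^ 3 =
      (p : ℝ) ^ 4 - (p : ℝ) ^ 3 - 3 * (p : ℝ) ^ 2 + 5 * p - 2 := by ring
  have x2 : ((p : ℝ) - 1) * ((p : ℝ) ^ 2 - 4 * p) = (p : ℝ) ^ 3 - 5 * (p : ℝ) ^ 2 + 4 * p := by
    ring
  have s1 := xl0_sum E (fun χ => ‖χ 1‖) (e := 6) (m := 4) (D := 1 + C) p1 (by norm_num) hEd
    (by linarith) h2 (by positivity) (by linarith) (by push_cast; linarith)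
  have s2 := xl0_sum B (fun χ => ‖χ 1‖) (e := 5) (m := 3) (D := 4 + C) (K := 2) p1 (by norm_num)
    (fun χ hχ => by
      have a1 := (hBd χ hχ).1
      have a2 := mul_le_mul_of_nonneg_left (show (p : ℝ) / 2 ≤ p - 1 by linarith)
        (show (0 : ℝ) ≤ (p : ℝ) ^ 4 by positivity)
      have a3 : (p : ℝ) ^ 4 * ((p : ℝ) / 2) = (p : ℝ) ^ 5 / 2 := by ring
      linarith)
    (by linarith) h2 (by positivity) (by linarith) (by push_cast; linarith)
  have s3 := xl0_sum (A \ (E ∪ B)) (fun χ => ‖χ 1‖) (e := 3) (m := 2) (D := 8 + C) (K := 2) p1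
    (by norm_num) (fun χ hχ => key χ (Finset.mem_sdiff.1 hχ).1) (by linarith) h2 (by positivity)
    (by
      have a1 : ((A \ (E ∪ B)).card : ℝ) ≤ (Irr (GLn 4 (ZMod p)) \ (E ∪ B)).card :=
        Nat.cast_le.2 (Finset.card_le_card (Finset.sdiff_subset_sdiff hA subset_rfl))
      linarith) (by push_cast; linarith)
  have hsub : A ⊆ (E ∪ B) ∪ (A \ (E ∪ B)) := by
    rw [Finset.union_sdiff_self_eq_union]
    exact Finset.subset_union_right
  refine (Finset.sum_le_sum_of_subset_of_nonneg hsub fun χ _ _ => by positivity).trans ?_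
  rw [Finset.sum_union Finset.disjoint_sdiff, Finset.sum_union hdis]
  linarith

end Pool.Agent.MP_8299d6_al.Up

end
end
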