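import Pool.Agent.Mg.X8299d6.G6efaac
import Pool.Agent.Mg.X8299d6.Gfa7afb
import Pool.Agent.Mg.X8299d6.G05aeef
import Pool.Agent.Mg.X8299d6.Gee24a7
import Pool.Agent.Mg.X8299d6.Gbd1b02
import Pool.Agent.Mg.X8299d6.Ge08027
import Pool.Agent.Mg.X8299d6.G3030d2

section

open Matrix

noncomputable section

namespace Pool.Agent.MP_8299d6_al.Up

open Pool.Agent.MP_810665_al (IrrChar)

/-- a matrix of trace zero is a sum of commutators -/
lemma xss3_tz {m : ℕ} (hm : 0 < m) {R : Type} [CommRing R] (S : AddSubgroup (Mat m R))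
    (hS : ∀ A B : Mat m R, A * B - B * A ∈ S) (M : Mat m R) (hM : M.trace = 0) : M ∈ S := by
  classical
  have e : M = ∑ i, ∑ j, (single i j (M i j) -
      if i = j then single (⟨0, hm⟩ : Fin m) (⟨0, hm⟩ : Fin m) (M i j) else 0) := by
    simp only [Finset.sum_sub_distrib, Finset.sum_ite_eq, Finset.mem_univ, if_true]
    rw [← matrix_eq_sum_single]
    have h1 : ∑ i, single (⟨0, hm⟩ : Fin m) (⟨0, hm⟩ : Fin m) (M i i) =
        single (⟨0, hm⟩ : Fin m) (⟨0, hm⟩ : Fin m) (M.trace) :=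
      (map_sum (singleAddMonoidHom (α := R) (⟨0, hm⟩ : Fin m) (⟨0, hm⟩ : Fin m))
        (fun i => M i i) Finset.univ).symm
    rw [h1, hM, single_zero, sub_zero]
  rw [e]
  refine sum_mem fun i _ => sum_mem fun j _ => ?_
  split_ifs with hij
  · subst hij
    have h1 := hS (single i ⟨0, hm⟩ (M i i)) (single ⟨0, hm⟩ i 1)
    rwa [single_mul_single_same, single_mul_single_same, mul_one, one_mul] at h1
  · have h1 := hS (single i i (M i j)) (single i j 1)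
    rwa [single_mul_single_same, single_mul_single_of_ne (h := Ne.symm hij), mul_one] at h1

lemma xss3_comm {ι : Type} {d : ι → ℕ} {K : ι → Type} [∀ i, Field (K i)] {M : Type} [Ring M]
    [Finite M] [Fintype ι] [∀ i, Fintype (K i)] {h h' : Subring M}
    {π : h →+* ∀ i, Mat (d i) (K i)} (hd : ∀ i, 0 < d i) (hπ : Function.Surjective π)
    (hle : h' ≤ h) (hs : ∀ x ∈ h, ∃ y ∈ h', x - y ∈ ss2J h π) :
    ∏ i, Fintype.card (K i) ^ (d i * d i) ≤
      Nat.card (commS h') * ∏ i, Fintype.card (K i) := by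
  classical
  obtain ⟨t, ht⟩ : ∃ t : (∀ i, Mat (d i) (K i)) →+ ∀ i, K i, ∀ x i, t x i = (x i).trace :=
    ⟨AddMonoidHom.pi fun i => (traceAddMonoidHom _ _).comp (Pi.evalAddMonoidHom _ i),
      fun _ _ => rfl⟩
  obtain ⟨S, hS⟩ : ∃ S : AddSubgroup (∀ i, Mat (d i) (K i)),
      S = ((commS h').comap h.subtype.toAddMonoidHom).map π.toAddMonoidHom := ⟨_, rfl⟩
  have hon : ∀ A, ∃ y : h, y.1 ∈ h' ∧ π y = A := by
    intro A
    obtain ⟨x, rfl⟩ := hπ A
    obtain ⟨y, hy, hxy⟩ := hs x.1 x.2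
    have h1 : π (x - ⟨y, hle hy⟩) = 0 := ss2J_coe.1 hxy
    rw [map_sub, sub_eq_zero] at h1
    exact ⟨⟨y, hle hy⟩, hy, h1.symm⟩
  have h1 : ∀ A B, A * B - B * A ∈ S := by
    intro A B
    obtain ⟨x, hx, rfl⟩ := hon A
    obtain ⟨y, hy, rfl⟩ := hon B
    rw [hS]
    refine ⟨x * y - y * x, AddSubgroup.subset_closure ⟨x.1, hx, y.1, hy, rfl⟩, ?_⟩
    show π _ = _
    rw [map_sub, map_mul, map_mul]
  have h2 : t.ker ≤ S := by
    intro A hA
    rw [← Finset.univ_sum_single A]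
    refine sum_mem fun i _ => ?_
    refine xss3_tz (hd i) (S.comap (AddMonoidHom.single (fun j => Mat (d j) (K j)) i)) ?_ (A i) ?_
    · intro X Y
      have h3 := h1 (Pi.single i X) (Pi.single i Y)
      rw [← Pi.single_mul, ← Pi.single_mul, ← Pi.single_sub] at h3
      exact h3
    · rw [← ht, (AddMonoidHom.mem_ker.1 hA)]
      rfl
  have h3 : Nat.card S ≤ Nat.card (commS h') := by
    rw [hS]
    refine (Nat.card_le_card_of_surjective _
      (π.toAddMonoidHom.addSubgroupMap_surjective _)).trans ?_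
    exact Nat.card_le_card_of_injective
      (fun x : (commS h').comap h.subtype.toAddMonoidHom => (⟨x.1.1, x.2⟩ : commS h'))
      fun x y hxy => Subtype.ext (Subtype.ext (congrArg (fun z : commS h' => z.1) hxy))
  have h4 := t.ker.card_mul_index
  have h5 : t.ker.index ≤ ∏ i, Fintype.card (K i) := by
    rw [AddSubgroup.index_ker, ← Fintype.card_pi, ← Nat.card_eq_fintype_card]
    exact Finite.card_subtype_le _
  have h6 : ∀ (m : ℕ) (R : Type) [Fintype R], Nat.card (Mat m R) = Fintype.card R ^ (m * m) := by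
    intro m R _
    show Nat.card (Fin m → Fin m → R) = _
    simp [pow_mul]
  rw [Nat.card_pi] at h4
  simp only [h6] at h4
  rw [← h4]
  exact Nat.mul_le_mul ((AddSubgroup.card_le_of_le h2).trans h3) h5

theorem ss3 (n : ℕ) (hn : 2 ≤ n) : ∃ C : ℕ, ∀ (p : ℕ) [Fact p.Prime], n < p → 3 ≤ p →
    ∀ h : Subring (Mat n (ZMod p)), h ≠ ⊤ → ∃ J : AddSubgroup (Mat n (ZMod p)),
      (∀ y ∈ J, y ∈ h) ∧ (∀ x ∈ h, ∀ y ∈ J, x * y ∈ J ∧ y * x ∈ J) ∧
      NilTo n (J : Set (Mat n (ZMod p))) {0} ∧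
      (∀ I : AddSubgroup (Mat n (ZMod p)), (∀ y ∈ I, y ∈ h) →
        (∀ x ∈ h, ∀ y ∈ I, x * y ∈ I ∧ y * x ∈ I) →
          NilTo n (I : Set (Mat n (ZMod p))) {0} → I ≤ J) ∧
      (∀ (W : Type) [AddCommGroup W] (β : h →+ h →+ W),
        (∀ x y : h, x.1 ∈ J → β x y = 0 ∧ β y x = 0) →
        (∀ x y z, β (x * y) z = β x (y * z) + β y (z * x)) →
        ∃ μ : h →+ W, (∀ x : h, x.1 ∈ J → μ x = 0) ∧ ∀ x y, β x y = μ (x * y - y * x)) ∧
      (∃ k z l : ℕ, k ≤ C * p ^ l * z ∧ p ≤ z ∧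
        z * Nat.card (J ⊔ commS h : AddSubgroup _) ≤ Nat.card h ∧
        (∀ h' : Subring (Mat n (ZMod p)), h' ≤ h → (∀ x ∈ h, ∃ y ∈ h', x - y ∈ J) →
          p ^ (3 * l) ≤ Nat.card (commS h')) ∧
        ∃ c : Mat n (ZMod p) → Fin k, ∀ x ∈ h, ∀ y ∈ h, c x = c y →
          ∃ g ∈ h, IsUnit g ∧ g * x - y * g ∈ J) := by
  obtain ⟨k0, hk0⟩ := class_count n
  refine ⟨(k0 + 1) ^ (n * n), fun p _ hnp hp3 h hh => ?_⟩
  obtain ⟨ι, _, _, d, K, _, _, _, π, hd, hπ, hnil, hmax⟩ := ss_struct n p h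
  have p1 : 1 < p := by omega
  have hK : ∀ i, ∃ f, 1 ≤ f ∧ Fintype.card (K i) = p ^ f := fun i => by
    have h1 := Module.card_eq_pow_finrank (K := ZMod p) (V := K i)
    rw [ZMod.card] at h1
    exact ⟨_, Module.finrank_pos, h1⟩
  choose f hf1 hf using hK
  have hc := ss2_card hh hπ
  simp only [hf, ← pow_mul, Finset.prod_pow_eq_pow_sum] at hc
  have hs := (Nat.pow_lt_pow_iff_right p1).1 hc
  have hdn : ∀ i, d i < n := fun i => by
    have h1 : f i * (d i * d i) ≤ ∑ j, f j * (d j * d j) :=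
      Finset.single_le_sum (f := fun j => f j * (d j * d j)) (fun _ _ => Nat.zero_le _)
        (Finset.mem_univ i)
    have h2 : d i * d i ≤ f i * (d i * d i) := Nat.le_mul_of_pos_left _ (hf1 i)
    exact Nat.mul_self_lt_mul_self_iff.1 (by omega)
  have hι : k0 ^ Fintype.card ι ≤ (k0 + 1) ^ (n * n) := by
    have h1 : ∑ _j : ι, 1 ≤ ∑ j, f j * (d j * d j) :=
      Finset.sum_le_sum fun j _ => Nat.mul_pos (hf1 j) (Nat.mul_pos (hd j) (hd j))
    rw [Finset.sum_const, Finset.card_univ, smul_eq_mul, mul_one] at h1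
    exact (Nat.pow_le_pow_left (Nat.le_succ k0) _).trans
      (Nat.pow_le_pow_right (Nat.succ_pos k0) (by omega))
  have htr := ss2_tr hd hπ
  simp only [hf, Finset.prod_pow_eq_pow_sum] at htr
  refine ⟨ss2J h π, ?_, ?_, ?_, ?_, ?_, ?_⟩
  · rintro _ ⟨x, -, rfl⟩
    exact x.2
  · rintro x hx _ ⟨y, hy, rfl⟩
    have hy' : π y = 0 := hy
    refine ⟨⟨⟨x, hx⟩ * y, ?_, rfl⟩, ⟨y * ⟨x, hx⟩, ?_, rfl⟩⟩
    · show π _ = 0
      rw [map_mul, hy', mul_zero]
    · show π _ = 0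
      rw [map_mul, hy', zero_mul]
  · intro x hx
    choose y hy hy' using fun i => ss2J_mem.1 (hx i)
    have h1 := congrArg Subtype.val (hnil y hy)
    rw [ss2_prod] at h1
    simp only [hy'] at h1
    exact h1
  · intro I h1 h2 h3 y hy
    refine ⟨⟨y, h1 y hy⟩, ?_, rfl⟩
    refine hmax (I.comap h.subtype.toAddMonoidHom) (fun x z hz => h2 x.1 x.2 z.1 hz) ?_ _ hy
    intro x hx
    apply Subtype.ext
    rw [ss2_prod]
    exact h3 (fun i => (x i).1) hx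
  · intro W _ β h1 h2
    obtain ⟨γ, hγ⟩ := ss2_desc π.toAddMonoidHom hπ β fun x y hx => h1 x y (ss2J_coe.2 hx)
    have hγ' : ∀ x y, γ (π x) (π y) = β x y := hγ
    obtain ⟨μ, hμ⟩ := cocycle_inner p hp3 d (fun i => (hdn i).trans hnp) K γ (by
      intro x y z
      obtain ⟨x, rfl⟩ := hπ x
      obtain ⟨y, rfl⟩ := hπ y
      obtain ⟨z, rfl⟩ := hπ z
      rw [← map_mul, ← map_mul, ← map_mul, hγ', hγ', hγ', h2])
    refine ⟨μ.comp π.toAddMonoidHom, fun x hx => ?_, fun x y => ?_⟩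
    · show μ (π x) = 0
      rw [ss2J_coe.1 hx, map_zero]
    · show β x y = μ (π _)
      rw [← hγ', hμ, map_sub π, map_mul, map_mul]
  · have h3 : 1 ≤ ∑ i, f i := by
      by_contra h4
      have h5 : IsEmpty ι := ⟨fun i => by
        have := Finset.single_le_sum (f := f) (fun _ _ => Nat.zero_le _) (Finset.mem_univ i)
        have := hf1 i
        omega⟩
      have h6 := congrArg Subtype.val (hnil (fun _ => 1) fun _ => Subsingleton.elim _ _)
      rw [List.ofFn_const, List.prod_replicate, one_pow] at h6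
      have h7 : (1 : Mat n (ZMod p)) ⟨0, by omega⟩ ⟨0, by omega⟩ = 0 :=
        congrFun (congrFun h6 _) _
      rw [one_apply_eq] at h7
      exact one_ne_zero h7
    refine ⟨_, p ^ (∑ i, f i), ∑ i, f i * (d i - 1), ?_, ?_, htr, ?_,
      ss2_fin hk0 (fun i => (hdn i).le) hπ hnil
      (fun x => fun (i : ι) (j : Fin (d i)) => (π x i).charpoly.coeff j)
      (fun x i => (π x i).charpoly) (fun x i => (π x i).charpoly_monic.ne_zero)
      (fun x i => by simpa using (hdn i).le) (fun x i => (π x i).aeval_self_charpoly)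
      fun x y hxy => funext fun i => ?_⟩
    · rw [Fintype.card_pi]
      simp only [Fintype.card_fun, Fintype.card_fin, hf, ← pow_mul, Finset.prod_pow_eq_pow_sum]
      rw [mul_assoc, ← pow_add, mul_comm]
      refine Nat.mul_le_mul hι (Nat.pow_le_pow_right p1.le (le_of_eq ?_))
      rw [← Finset.sum_add_distrib]
      refine Finset.sum_congr rfl fun i _ => ?_
      rw [← Nat.mul_succ, Nat.succ_eq_add_one, Nat.sub_add_cancel (hd i)]
    · exact (pow_one p).symm.le.trans (Nat.pow_le_pow_right p1.le h3)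
    · intro h' hle hs'
      have h4 := xss3_comm hd hπ hle hs'
      simp only [hf, ← pow_mul, Finset.prod_pow_eq_pow_sum] at h4
      have h5 : 3 * (∑ i, f i * (d i - 1)) + ∑ i, f i ≤ ∑ i, f i * (d i * d i) := by
        rw [Finset.mul_sum, ← Finset.sum_add_distrib]
        refine Finset.sum_le_sum fun i _ => ?_
        obtain ⟨e, he⟩ : ∃ e, d i = e + 1 := ⟨d i - 1, (Nat.sub_add_cancel (hd i)).symm⟩
        rw [he, Nat.add_sub_cancel]
        have h6 : 3 * e + 1 ≤ (e + 1) * (e + 1) := by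
          rcases Nat.eq_zero_or_pos e with h7 | h7
          · simp [h7]
          · nlinarith
        calc 3 * (f i * e) + f i = f i * (3 * e + 1) := by ring
          _ ≤ _ := Nat.mul_le_mul_left _ h6
      have h6 := (Nat.pow_le_pow_right p1.le h5).trans h4
      rw [pow_add] at h6
      exact Nat.le_of_mul_le_mul_right h6 (Nat.pow_pos (by omega))
    · exact ss2_monic (π x i).charpoly_monic (π y i).charpoly_monic (m := d i) (by simp)
        (by simp) (congrFun (congrFun hxy i))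

end Pool.Agent.MP_8299d6_al.Up

end
end

section

open Matrix

noncomputable section

namespace Pool.Agent.MP_8299d6_al.Up

open Pool.Agent.MP_810665_al (IrrChar)

variable {M : Type} [Ring M] [Fintype M] {τ : AddChar M ℂ}

lemma xbase2_cj_mem {O : Subring M} {g : Mˣ} (hg : (g : M) ∈ O) {y : M} (hy : y ∈ O) :
    cj g y ∈ O :=
  mul_mem (mul_mem hg hy) (base_inv hg)

lemma xbase2_cj_J {O : Subring M} {J : NonUnitalSubring M}
    (hid : ∀ x ∈ O, ∀ y ∈ J, x * y ∈ J ∧ y * x ∈ J) {g : Mˣ} (hg : (g : M) ∈ O) {y : M}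
    (hy : y ∈ J) : cj g y ∈ J :=
  (hid _ (base_inv hg) _ (hid _ hg _ hy).1).2

lemma xbase2_sub_cj {O : Subring M} {J : NonUnitalSubring M} (hJO : ∀ y ∈ J, y ∈ O)
    (hid : ∀ x ∈ O, ∀ y ∈ J, x * y ∈ J ∧ y * x ∈ J) {v : Mˣ} (hv : v ∈ UU J) {y : M}
    (hy : y ∈ O) : y - cj v y ∈ J := by
  have e : y - cj v y =
      -(((v : M) - 1) * (y * ((v⁻¹ : Mˣ) : M)) + y * (((v⁻¹ : Mˣ) : M) - 1)) := by
    simp only [cj]; noncomm_ring
  rw [e]
  have hv' : v⁻¹ ∈ UU J := inv_mem hv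
  exact neg_mem (add_mem (hid _ (mul_mem hy (base_UO hJO hv')) _ (mem_UU.1 hv)).2
    (hid _ hy _ (mem_UU.1 hv')).1)

omit [Fintype M] in
lemma xbase2_comm (hτ : Frob τ) {O : Subring M} {b : M} (hb : b ∈ perp τ (commS O)) {y : M}
    (hy : y ∈ O) : b * y - y * b ∈ perp τ O.toAddSubgroup := by
  intro x hx
  have h1 := hb (y * x - x * y) (AddSubgroup.subset_closure ⟨y, hy, x, hx, rfl⟩)
  have e1 : (b * y - y * b) * x = b * (y * x) + -(y * (b * x)) := by noncomm_ring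
  have e2 : b * (y * x - x * y) = b * (y * x) + -(b * x * y) := by noncomm_ring
  have a2 : τ (-(y * (b * x))) = τ (-(b * x * y)) := by
    rw [← neg_mul, hτ.comm, mul_neg]
  rw [e2, AddChar.map_add_eq_mul] at h1
  rw [e1, AddChar.map_add_eq_mul, a2, h1]

lemma xbase2_deg {J : NonUnitalSubring M} {L : M → M} {H : Subgroup Mˣ} (h : Sit τ J J L H)
    (A : M) {χ : H → ℂ} (h1 : χ ∈ Irr H) (h2 : Sup τ J L H χ ⊆ cls τ J (UU J) A) :
    (Nat.card (baseOm τ J A) : ℝ) ≤ ‖χ 1‖ ^ 2 := by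
  have a1 := h.dim_ge h1 h2
  have a2 : Nat.card (baseOm τ J A) * Nat.card (perp τ J.toAddSubgroup) ≤
      (cls τ J (UU J) A).ncard := base_lower (τ := τ) J A le_rfl
  have a3 : (0 : ℝ) < Nat.card (perp τ J.toAddSubgroup) := by exact_mod_cast Nat.card_pos
  have a4 : (Nat.card (baseOm τ J A) : ℝ) * Nat.card (perp τ J.toAddSubgroup) ≤
      (cls τ J (UU J) A).ncard := by
    exact_mod_cast a2
  have := a4.trans a1
  rw [mul_comm] at this
  exact le_of_mul_le_mul_left this a3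

lemma xbase2_pow {x w s : ℝ} (hx : 0 ≤ x) (hw : 0 < w) (hs : 0 ≤ s) (h : w ≤ x ^ 2) :
    x ^ (-s) ≤ w ^ (-s / 2) := by
  have a6 := Real.rpow_le_rpow_of_nonpos (z := -s / 2) hw h (by linarith)
  refine le_trans (le_of_eq ?_) a6
  rw [← Real.rpow_natCast, ← Real.rpow_mul hx]
  congr 1; push_cast; ring

/-- the invariant case with a weight -/
theorem base2 (O : Subring M) (J : NonUnitalSubring M) {L : M → M} {H : Subgroup Mˣ}
    (hH : ∀ g : Mˣ, g ∈ H ↔ (g : M) ∈ O) (h : Sit τ J J L H)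
    (hJO : ∀ y ∈ J, y ∈ O) (hid : ∀ x ∈ O, ∀ y ∈ J, x * y ∈ J ∧ y * x ∈ J) (A : M)
    (hA : ∀ y ∈ O, ∃ y' ∈ O, y - y' ∈ J ∧ A * y' - y' * A ∈ perp τ O.toAddSubgroup)
    {s : ℝ} (hs : 0 ≤ s) (hs2 : s ≤ 2) (κ : ℝ) (z : ℕ) (D : M → ℝ) (hD0 : ∀ B, 0 ≤ D B)
    (hZ : Zs H (fun χ => Sup τ J L H χ ⊆ cls τ J (UU J) A) s ≤
      κ * (Nat.card (baseOm τ J A) : ℝ) ^ (-s / 2))
    (hz : z * Nat.card (J.toAddSubgroup ⊔ commS O : AddSubgroup M) ≤ Nat.card O)
    (hD : ∀ B ∈ baseT J A (perp τ (J.toAddSubgroup ⊔ commS O)), κ ≤ D B * z)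
    (hM : Nat.card M ≤ 2 * Nat.card Mˣ) :
    Zs H (fun χ => Sup τ J L H χ ⊆ cls τ J (UU J) A) s ≤ (Nat.card H : ℝ) ^ (-1 - s) *
      sumOn (cls τ J (UU J) A)
        (fun B => 2 * D B * (Nat.card Mˣ : ℝ) ^ (1 + s) * ((orb B).ncard : ℝ) ^ (-1 - s / 2)) := by
  classical
  have hτ := h.frob
  set S : AddSubgroup M := J.toAddSubgroup ⊔ commS O with hS
  set w : ℕ := Nat.card (baseOm τ J A) with hw
  set p : ℕ := Nat.card (perp τ O.toAddSubgroup) with hp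
  have hw0 : 0 < w := by
    have : Nonempty (baseOm τ J A) := ⟨⟨_, 1, one_mem _, rfl⟩⟩
    exact Nat.card_pos
  have hp0 : 0 < p := Nat.card_pos
  have hH0 : 0 < Nat.card H := Nat.card_pos
  have hG0 : 0 < Nat.card Mˣ := Nat.card_pos
  have hf0 : ∀ B : M, 0 ≤
      2 * D B * (Nat.card Mˣ : ℝ) ^ (1 + s) * ((orb B).ncard : ℝ) ^ (-1 - s / 2) := by
    intro B
    have := hD0 B
    positivity
  have hY : 0 < (Nat.card H : ℝ) ^ (-1 - s) :=
    Real.rpow_pos_of_pos (by exact_mod_cast hH0) _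
  refine hZ.trans ?_
  rcases le_or_gt κ 0 with hκ | hκ
  · refine le_trans (mul_nonpos_of_nonpos_of_nonneg hκ
      (Real.rpow_nonneg (Nat.cast_nonneg _) _)) (mul_nonneg hY.le ?_)
    unfold sumOn
    exact Finset.sum_nonneg (fun B _ => hf0 B)
  have hSJ : perp τ S ≤ perp τ J.toAddSubgroup := perp_anti le_sup_left
  have hSC : perp τ S ≤ perp τ (commS O) := perp_anti le_sup_right
  have c1 := hτ.card_perp S
  have c2 : Nat.card O * p = Nat.card M := hτ.card_perp O.toAddSubgroup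
  have hzp : z * p ≤ Nat.card (perp τ S) := by
    have hS0 : 0 < Nat.card S := Nat.card_pos
    refine le_of_mul_le_mul_left ?_ hS0
    calc Nat.card S * (z * p) = z * Nat.card S * p := by ring
      _ ≤ Nat.card O * p := Nat.mul_le_mul_right _ hz
      _ = _ := by rw [c2, c1]
  have hT : w * (z * p) ≤ (baseT J A (perp τ S)).ncard :=
    (Nat.mul_le_mul_left _ hzp).trans (base_lower J A hSJ)
  have hHO : Nat.card H ≤ Nat.card O :=
    Nat.card_le_card_of_injective (fun g : H => (⟨g.1.1, (hH _).1 g.2⟩ : O)) (fun a b e =>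
      Subtype.ext (Units.ext (congrArg Subtype.val e)))
  have hp2 : p * Nat.card H ≤ 2 * Nat.card Mˣ := by
    calc p * Nat.card H ≤ p * Nat.card O := Nat.mul_le_mul_left _ hHO
      _ = Nat.card M := by rw [mul_comm, c2]
      _ ≤ _ := hM
  have hq : (Nat.card (Mˣ ⧸ H) : ℝ) = (Nat.card Mˣ : ℝ) / Nat.card H := by
    rw [Subgroup.card_eq_card_quotient_mul_card_subgroup H, Nat.cast_mul,
      mul_div_cancel_right₀ _ (by exact_mod_cast hH0.ne')]
  have ht0 : 0 < (baseT J A (perp τ S)).ncard :=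
    (Set.ncard_pos (Set.toFinite _)).2 ⟨A, 1, one_mem _, by rw [cj_one, sub_self]; exact zero_mem _⟩
  have hcard : (baseT J A (perp τ S)).ncard =
      (Finset.univ.filter (· ∈ baseT J A (perp τ S))).card := by
    rw [← Set.ncard_coe_finset]; congr 1; ext B; simp
  have key : ∀ B ∈ Finset.univ.filter (· ∈ baseT J A (perp τ S)),
      κ * (w : ℝ) ^ (-s / 2) ≤ (Nat.card H : ℝ) ^ (-1 - s) * ((baseT J A (perp τ S)).ncard *
        (2 * D B * (Nat.card Mˣ : ℝ) ^ (1 + s) * ((orb B).ncard : ℝ) ^ (-1 - s / 2))) := by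
    intro B hB
    have hBT := (Finset.mem_filter.1 hB).2
    refine (base_num (t := (baseT J A (perp τ S)).ncard) (h := Nat.card H) (G := Nat.card Mˣ)
      (p := p) (hD B hBT) hκ.le (hD0 B) (by exact_mod_cast hH0) (by exact_mod_cast hG0)
      (by exact_mod_cast hw0) (by exact_mod_cast hp0) (by exact_mod_cast hp2)
      (by exact_mod_cast hT) hs hs2).trans ?_
    refine mul_le_mul_of_nonneg_left (mul_le_mul_of_nonneg_left ?_ (Nat.cast_nonneg _)) hY.le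
    obtain ⟨u, hu, hB'⟩ := hBT
    have o1 := base_orb hτ hH h.om.unit hJO hid hA (A' := B) ⟨u, hu, hSC hB'⟩
    have o2 : 0 < (orb B).ncard :=
      (Set.ncard_pos (Set.toFinite _)).2 ⟨B, 1, (cj_one B).symm⟩
    have := hD0 B
    refine mul_le_mul_of_nonneg_left ?_ (by positivity)
    refine Real.rpow_le_rpow_of_nonpos (by exact_mod_cast o2) ?_ (by linarith)
    rw [← hq]
    exact_mod_cast o1
  have hsum := Finset.card_nsmul_le_sum _ _ _ key
  rw [← hcard, nsmul_eq_mul, ← Finset.mul_sum, ← Finset.mul_sum, mul_left_comm] at hsum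
  have ht0' : (0 : ℝ) < (baseT J A (perp τ S)).ncard := by exact_mod_cast ht0
  have hsum2 : κ * (w : ℝ) ^ (-s / 2) ≤ (Nat.card H : ℝ) ^ (-1 - s) *
      ∑ B ∈ Finset.univ.filter (· ∈ baseT J A (perp τ S)),
        2 * D B * (Nat.card Mˣ : ℝ) ^ (1 + s) * ((orb B).ncard : ℝ) ^ (-1 - s / 2) := by
    refine le_of_mul_le_mul_left ?_ ht0'
    calc _ = κ * ((baseT J A (perp τ S)).ncard * (w : ℝ) ^ (-s / 2)) := by ring
      _ ≤ _ := hsum
      _ = _ := by ring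
  refine hsum2.trans (mul_le_mul_of_nonneg_left ?_ hY.le)
  unfold sumOn
  have hsub : Finset.univ.filter (· ∈ baseT J A (perp τ S)) ⊆
      Finset.univ.filter (· ∈ cls τ J (UU J) A) := by
    intro B hB
    obtain ⟨u, hu, hB'⟩ := (Finset.mem_filter.1 hB).2
    exact Finset.mem_filter.2 ⟨Finset.mem_univ _, u, hu, hSJ hB'⟩
  exact Finset.sum_le_sum_of_subset_of_nonneg (by convert hsub) (fun B _ _ => hf0 B)

open Classical in
/-- few small characters and a bound for the number of all of them -/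
theorem base_left {J : NonUnitalSubring M} {L : M → M} {H : Subgroup Mˣ} (h : Sit τ J J L H)
    (A : M) {s : ℝ} (hs : 0 ≤ s) (k k₁ : ℕ) (r : ℝ) (hr : 0 < r) (Q : (H → ℂ) → Prop)
    (hk : ((Irr H).filter (fun χ => Sup τ J L H χ ⊆ cls τ J (UU J) A)).card ≤ k)
    (hk₁ : ((Irr H).filter (fun χ => Sup τ J L H χ ⊆ cls τ J (UU J) A ∧ Q χ)).card ≤ k₁)
    (hQ : ∀ χ ∈ Irr H, Sup τ J L H χ ⊆ cls τ J (UU J) A → ¬ Q χ →
      r ^ 2 * Nat.card (baseOm τ J A) ≤ ‖χ 1‖ ^ 2) :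
    Zs H (fun χ => Sup τ J L H χ ⊆ cls τ J (UU J) A) s ≤
      (k₁ + k * r ^ (-s)) * (Nat.card (baseOm τ J A) : ℝ) ^ (-s / 2) := by
  have hw0 : (0 : ℝ) < Nat.card (baseOm τ J A) := by
    have : Nonempty (baseOm τ J A) := ⟨⟨_, 1, one_mem _, rfl⟩⟩
    exact_mod_cast Nat.card_pos
  have hW : (0 : ℝ) ≤ (Nat.card (baseOm τ J A) : ℝ) ^ (-s / 2) := Real.rpow_nonneg hw0.le _
  have hR : (0 : ℝ) ≤ r ^ (-s) := Real.rpow_nonneg hr.le _
  unfold Zs
  rw [← Finset.sum_filter_add_sum_filter_not _ Q, add_mul]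
  refine add_le_add ?_ ?_
  · refine (Finset.sum_le_card_nsmul _ _ ((Nat.card (baseOm τ J A) : ℝ) ^ (-s / 2)) ?_).trans ?_
    · intro χ hχ
      obtain ⟨h1, h2⟩ := Finset.mem_filter.1 (Finset.mem_filter.1 hχ).1
      exact xbase2_pow (norm_nonneg _) hw0 hs (xbase2_deg h A h1 h2)
    · rw [nsmul_eq_mul, Finset.filter_filter]
      refine mul_le_mul_of_nonneg_right ?_ hW
      exact_mod_cast (by convert hk₁)
  · refine (Finset.sum_le_card_nsmul _ _
      (r ^ (-s) * (Nat.card (baseOm τ J A) : ℝ) ^ (-s / 2)) ?_).trans ?_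
    · intro χ hχ
      obtain ⟨h0, h3⟩ := Finset.mem_filter.1 hχ
      obtain ⟨h1, h2⟩ := Finset.mem_filter.1 h0
      have a := xbase2_pow (norm_nonneg _) (mul_pos (pow_pos hr 2) hw0) hs (hQ χ h1 h2 h3)
      refine a.trans (le_of_eq ?_)
      rw [Real.mul_rpow (pow_pos hr 2).le hw0.le, ← Real.rpow_natCast, ← Real.rpow_mul hr.le]
      congr 2; push_cast; ring
    · rw [nsmul_eq_mul, mul_assoc]
      refine mul_le_mul_of_nonneg_right ?_ (mul_nonneg hR hW)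
      have := (Finset.card_filter_le ((Irr H).filter
        (fun χ => Sup τ J L H χ ⊆ cls τ J (UU J) A)) (fun χ => ¬ Q χ)).trans hk
      exact_mod_cast (by convert this)

/-- the centralisers in the invariant case -/
theorem base_cent (hτ : Frob τ) (O : Subring M) (J : NonUnitalSubring M)
    (hJO : ∀ y ∈ J, y ∈ O) (hid : ∀ x ∈ O, ∀ y ∈ J, x * y ∈ J ∧ y * x ∈ J) (A : M)
    (hA : ∀ y ∈ O, ∃ y' ∈ O, y - y' ∈ J ∧ A * y' - y' * A ∈ perp τ O.toAddSubgroup)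
    (hI : ∀ B ∈ cls τ J (UU J) A, ∀ y, B * y - y * B ∈ perp τ J.toAddSubgroup → y ∈ O)
    {B : M} (hB : B ∈ baseT J A (perp τ (J.toAddSubgroup ⊔ commS O))) :
    (∀ y ∈ cent B, y ∈ O) ∧ ∀ x ∈ O, ∃ y ∈ cent B, x - y ∈ J := by
  obtain ⟨u, hu, hb⟩ := hB
  have hSJ : perp τ (J.toAddSubgroup ⊔ commS O) ≤ perp τ J.toAddSubgroup := perp_anti le_sup_left
  have hSC : perp τ (J.toAddSubgroup ⊔ commS O) ≤ perp τ (commS O) := perp_anti le_sup_right
  have hBc : B ∈ cls τ J (UU J) A := ⟨u, hu, hSJ hb⟩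
  have huO := base_UO hJO hu
  have huO' := base_UO hJO (inv_mem hu)
  refine ⟨fun y hy => hI B hBc y ?_, fun x hx => ?_⟩
  · have e : B * y = y * B := (Subring.mem_centralizer_iff.1 hy) B rfl
    rw [e, sub_self]; exact zero_mem _
  · obtain ⟨y', hy', hj, hc⟩ := hA _ (xbase2_cj_mem huO' hx)
    have hy2 : cj u y' ∈ O := xbase2_cj_mem huO hy'
    have h1 : x - cj u y' ∈ J := by
      have := xbase2_cj_J hid huO hj
      rwa [cj_sub, ← cj_mul, mul_inv_cancel, cj_one] at this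
    have h2 : B * cj u y' - cj u y' * B ∈ perp τ O.toAddSubgroup := by
      have a1 := base_cj hτ (base_ring O) hc huO
      rw [cj_sub, ← cj_mul_cj, ← cj_mul_cj] at a1
      have a2 := xbase2_comm hτ (hSC hb) hy2
      have e : B * cj u y' - cj u y' * B = (cj u A * cj u y' - cj u y' * cj u A) +
          ((B - cj u A) * cj u y' - cj u y' * (B - cj u A)) := by noncomm_ring
      rw [e]; exact add_mem a1 a2
    obtain ⟨t, ht, hc2⟩ := dbl_perp hτ J.toAddSubgroup B (cj u y')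
      (fun y hy => h2 y (hI B hBc y hy))
    refine ⟨_, hc2, ?_⟩
    have e : x - (cj u y' - t) = (x - cj u y') + t := by abel
    rw [e]; exact add_mem h1 ht

/-- the invariant passes to the stabiliser -/
theorem inv_step (hτ : Frob τ) (O O₁ : Subring M) (J : NonUnitalSubring M)
    (hJO : ∀ y ∈ J, y ∈ O) (hid : ∀ x ∈ O, ∀ y ∈ J, x * y ∈ J ∧ y * x ∈ J) (A : M)
    (hO₁ : ∀ x, x ∈ O₁ ↔ ∃ y ∈ O, A * y - y * A ∈ perp τ J.toAddSubgroup ∧ x - y ∈ J)
    (hI : ∀ B ∈ cls τ J (UU J) A, ∀ y, B * y - y * B ∈ perp τ J.toAddSubgroup → y ∈ O) :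
    ∀ B ∈ cls τ J (UU J) A, ∀ y, B * y - y * B ∈ perp τ J.toAddSubgroup → y ∈ O₁ := by
  intro B hB y hy
  have hyO := hI B hB y hy
  obtain ⟨u, hu, hb⟩ := hB
  have hI' : ∀ x ∈ O, ∀ y ∈ J.toAddSubgroup, x * y ∈ J.toAddSubgroup ∧ y * x ∈ J.toAddSubgroup :=
    hid
  have hu' : u⁻¹ ∈ UU J := inv_mem hu
  have huO' := base_UO hJO hu'
  refine (hO₁ y).2 ⟨cj u⁻¹ y, xbase2_cj_mem huO' hyO, ?_, xbase2_sub_cj hJO hid hu' hyO⟩
  have a1 : cj u A * y - y * cj u A ∈ perp τ J.toAddSubgroup := by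
    have e : cj u A * y - y * cj u A =
        (B * y - y * B) - ((B - cj u A) * y - y * (B - cj u A)) := by noncomm_ring
    rw [e]
    exact sub_mem hy (sub_mem (base_mulr hI' hb hyO) (base_mull hτ hI' hb hyO))
  have a2 := base_cj hτ hI' a1 huO'
  rwa [cj_sub, ← cj_mul_cj, ← cj_mul_cj, base_cj_inv] at a2

end Pool.Agent.MP_8299d6_al.Up

end
end

section

open Matrix

noncomputable section

namespace Pool.Agent.MP_8299d6_al.Up

open Pool.Agent.MP_810665_al (IrrChar)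

variable {M : Type} [Ring M] [Fintype M] {τ : AddChar M ℂ}
  {O O' : Subring M} {J J' : NonUnitalSubring M} {L : M → M} {H H' : Subgroup Mˣ} {A : M}

lemma xgal1_fc (hle : H' ≤ H) (hs : UU J' ≤ H') (χ : H → ℂ) (B : M) :
    fc τ J' L H' (fun u => χ (Subgroup.inclusion hle u)) B = fc τ J' L H χ B := by
  classical
  unfold fc
  refine Fintype.sum_of_injective _ (Subgroup.inclusion_injective hle) _ _ (fun u hu => ?_)
    (fun u => ?_)
  · rw [if_neg]
    exact fun hc => hu ⟨⟨u.1, hs hc⟩, rfl⟩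
  · simp only [Subgroup.coe_inclusion]

lemma xgal1_rank (h : Sit τ J' J' L H') {V : Type} [AddCommGroup V] [Module ℂ V]
    [FiniteDimensional ℂ V] (ρ : Representation ℂ H' V) {C : M} (hC : EE τ J' J' L H' ρ C ≠ 0) :
    ((cls τ J' (UU J') C).ncard : ℝ) ≤ Nat.card (perp τ J'.toAddSubgroup) *
      (Module.finrank ℂ (LinearMap.range (EE τ J' J' L H' ρ C)) : ℝ) ^ 2 := by
  have hK : Sit τ J' J' L (UU J') :=
    ⟨h.frob, h.om, h.le, le_rfl, fun g hg => h.norm g (h.sub hg), fun g hg => h.norm g (h.sub hg)⟩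
  let ρK : Representation ℂ (UU J') V := ρ.comp (Subgroup.inclusion h.sub)
  let R : Subrepresentation ρK :=
    { toSubmodule := LinearMap.range (EE τ J' J' L H' ρ C)
      apply_mem_toSubmodule := by
        rintro s _ ⟨v, rfl⟩
        have e := h.E_conj ρ (Subgroup.inclusion h.sub s) C
        rw [h.E_congr ρ (A := C) (B := cj _ C)
          ⟨s.1, s.2, by rw [Subgroup.coe_inclusion, sub_self]; exact zero_mem _⟩] at e
        exact ⟨ρ (Subgroup.inclusion h.sub s) v, (LinearMap.congr_fun e v).symm⟩ }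
  have hne : ∃ w : R.toSubmodule, w ≠ 0 := by
    by_contra hn
    refine hC (LinearMap.ext fun v => ?_)
    by_contra hv
    exact hn ⟨⟨_, v, rfl⟩, fun e => hv (congrArg Subtype.val e)⟩
  obtain ⟨S, hS⟩ := MP_810665_al.exists_irreducible_sub R.toRepresentation hne
  have h1 : S.toRepresentation.character ∈ Irr (UU J') :=
    mem_Irr.2 ⟨_, _, _, inferInstance, _, hS, rfl⟩
  have h2 : Sup τ J' L (UU J') S.toRepresentation.character ⊆ cls τ J' (UU J') C := by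
    intro B hB
    by_contra hn
    refine (hK.E_ne_zero S.toRepresentation B).2 hB (LinearMap.ext fun w => ?_)
    apply Subtype.ext
    rw [rt2_EE hK le_rfl R.toRepresentation S.toRepresentation (fun _ _ => rfl)]
    apply Subtype.ext
    rw [rt2_EE hK h.sub ρ R.toRepresentation (fun _ _ => rfl)]
    obtain ⟨v, hv⟩ := w.1.2
    rw [← hv]
    show (EE τ J' J' L H' ρ B * EE τ J' J' L H' ρ C) v = 0
    rw [h.E_mul, if_neg fun hc => hn (rt2_symm h hc), LinearMap.zero_apply]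
  refine (hK.dim_ge h1 h2).trans ?_
  rw [Representation.char_one, Complex.norm_natCast]
  have h3 : Module.finrank ℂ S.toSubmodule ≤ Module.finrank ℂ R.toSubmodule :=
    Submodule.finrank_le _
  have h4 : (Module.finrank ℂ S.toSubmodule : ℝ) ≤ Module.finrank ℂ R.toSubmodule := by
    exact_mod_cast h3
  gcongr

/-- characters that see a nontrivial character of `J' / J` are large -/
theorem Gal.large (h : Gal τ O O' J J' L H H' A) (r : ℕ)
    (hr : ∀ b ∈ perp τ J.toAddSubgroup, b ∉ perp τ J'.toAddSubgroup → ∃ g : Fin r → Mˣ,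
      (∀ i, g i ∈ H') ∧ ∀ i j, cj (g i) b - cj (g j) b ∈ perp τ J'.toAddSubgroup → i = j)
    {χ : H → ℂ} (hχ : χ ∈ Irr H) (h1 : Sup τ J L H χ ⊆ cls τ J (UU J) A)
    (h2 : ¬ Sup τ J' L H χ ⊆ cls τ J' (UU J') A) :
    (r : ℝ) ^ 2 * Nat.card (baseOm τ J A) ≤ ‖χ 1‖ ^ 2 := by
  have hsup := h.sup_le hχ
  obtain ⟨V, _, _, _, ρ, hρ, rfl⟩ := mem_Irr.1 hχ
  have hle : H' ≤ H := fun g hg => (h.hH g).2 (h.le ((h.hH' g).1 hg))
  let ρ' : Representation ℂ H' V := ρ.comp (Subgroup.inclusion hle)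
  obtain ⟨B, hB, hB'⟩ := Set.not_subset.1 h2
  obtain ⟨u, hu, hc⟩ := h1 (hsup hB)
  have hu' : u ∈ UU J' := h.leJ hu
  have hb : cj u⁻¹ (B - cj u A) ∈ perp τ J.toAddSubgroup :=
    h.sit.frob.cj_perp h.sit.norm (inv_mem (h.sit.sub hu)) hc
  set b := cj u⁻¹ (B - cj u A) with hbdef
  have hub : cj u b = B - cj u A := rt1_cj_inv u _
  have hb' : b ∉ perp τ J'.toAddSubgroup := fun e => hB' ⟨u, hu', by
    rw [← hub]
    exact h.sit.frob.cj_perp h.sit'.norm (h.sit'.sub hu') e⟩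
  have hBb : B ∈ cls τ J' (UU J') (A + b) := ⟨u, hu', by
    rw [cj_add, hub, add_sub_cancel, sub_self]
    exact zero_mem _⟩
  have hE : EE τ J' J' L H' ρ' (A + b) ≠ 0 := by
    rw [← h.sit'.E_congr ρ' hBb, h.sit'.E_ne_zero]
    show fc τ J' L H' (fun u => ρ.character (Subgroup.inclusion hle u)) B ≠ 0
    rw [xgal1_fc hle h.sit'.sub]
    exact hB
  obtain ⟨g, hg, hsep⟩ := hr b hb hb'
  have hbi : ∀ i, cj (g i) b ∈ perp τ J.toAddSubgroup := fun i =>
    h.sit.frob.cj_perp h.sit.norm (hle (hg i)) hb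
  have hEi : ∀ i, EE τ J' J' L H' ρ' (A + cj (g i) b) ≠ 0 := by
    intro i e
    have e1 := h.sit'.E_conj ρ' ⟨g i, hg i⟩ (A + b)
    rw [h.sit'.E_congr ρ' (h.conj_add (hle (hg i)) hb), e, zero_mul] at e1
    apply hE
    rw [← one_mul (EE τ J' J' L H' ρ' (A + b)), ← map_one ρ',
      ← inv_mul_cancel (⟨g i, hg i⟩ : H'), map_mul, mul_assoc, e1, mul_zero]
  have hP : (0 : ℝ) < Nat.card (perp τ J'.toAddSubgroup) := by exact_mod_cast Nat.card_pos
  have hrk : ∀ i, √(Nat.card (baseOm τ J A)) ≤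
      (Module.finrank ℂ (LinearMap.range (EE τ J' J' L H' ρ' (A + cj (g i) b))) : ℝ) := by
    intro i
    have a1 := xgal1_rank h.sit' ρ' (hEi i)
    have a2 : (Nat.card (baseOm τ J A) : ℝ) * Nat.card (perp τ J'.toAddSubgroup) ≤
        (cls τ J' (UU J') (A + cj (g i) b)).ncard := by exact_mod_cast h.card_add (hbi i)
    rw [Real.sqrt_le_left (Nat.cast_nonneg _)]
    have a3 := a2.trans a1
    rw [mul_comm] at a3
    exact le_of_mul_le_mul_left a3 hP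
  have hsum := tr_indep (Finset.univ : Finset (Fin r))
    (fun i => LinearMap.range (EE τ J' J' L H' ρ' (A + cj (g i) b)))
    (fun i => EE τ J' J' L H' ρ' (A + cj (g i) b))
    (by
      rintro i _ _ ⟨v, rfl⟩ e
      rw [← e]
      exact (LinearMap.congr_fun (h.sit'.rt1_idem ρ' (A + cj (g i) b)).eq v).symm)
    (by
      rintro i _ j _ hij _ ⟨v, rfl⟩
      show (EE τ J' J' L H' ρ' (A + cj (g i) b) * EE τ J' J' L H' ρ' (A + cj (g j) b)) v = 0
      rw [h.sit'.E_mul, if_neg fun hc => hij (hsep j i (h.sep (hbi j) (hbi i) hc)),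
        LinearMap.zero_apply])
  have h3 : (r : ℝ) * √(Nat.card (baseOm τ J A)) ≤ Module.finrank ℂ V := by
    have a1 := Finset.card_nsmul_le_sum (Finset.univ : Finset (Fin r)) _ _ fun i _ => hrk i
    rw [Finset.card_univ, Fintype.card_fin, nsmul_eq_mul] at a1
    refine a1.trans ?_
    exact_mod_cast hsum
  rw [Representation.char_one, Complex.norm_natCast,
    ← Real.sq_sqrt (Nat.cast_nonneg (Nat.card (baseOm τ J A))), ← mul_pow]
  gcongr

end Pool.Agent.MP_8299d6_al.Up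

end
end

section

open Matrix

noncomputable section

namespace Pool.Agent.MP_8299d6_al.Up

open Pool.Agent.MP_810665_al (IrrChar)

section Aux

variable {F : Type} [Field F]

/-- the standard parabolic subalgebra -/
def xgal3P (F : Type) [Field F] : Subring (Mat 4 F) where
  carrier := {x | x 0 3 = 0 ∧ x 1 3 = 0 ∧ x 2 3 = 0 ∧ x 3 0 = 0 ∧ x 3 1 = 0 ∧ x 3 2 = 0 ∧
    x 2 0 = 0 ∧ x 2 1 = 0}
  zero_mem' := by simp
  one_mem' := by simp
  add_mem' := fun {x y} hx hy => by simp_all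
  neg_mem' := fun {x} hx => by simp_all
  mul_mem' := fun {x y} hx hy => by simp_all [mul_apply, Fin.sum_univ_four]

/-- its radical -/
def xgal3R (F : Type) [Field F] : AddSubgroup (Mat 4 F) where
  carrier := {y | (∀ i j, j ≠ 2 → y i j = 0) ∧ y 2 2 = 0 ∧ y 3 2 = 0}
  zero_mem' := by simp
  add_mem' := fun {x y} hx hy =>
    ⟨fun i j h => by simp [hx.1 i j h, hy.1 i j h], by simp [hx.2, hy.2]⟩
  neg_mem' := fun {x} hx => ⟨fun i j h => by simp [hx.1 i j h], by simp [hx.2]⟩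

lemma xgal3_RP {y : Mat 4 F} (hy : y ∈ xgal3R F) : y ∈ xgal3P F :=
  ⟨hy.1 _ _ (by decide), hy.1 _ _ (by decide), hy.1 _ _ (by decide), hy.1 _ _ (by decide),
    hy.1 _ _ (by decide), hy.2.2, hy.1 _ _ (by decide), hy.1 _ _ (by decide)⟩

lemma xgal3_left (y : Mat 4 F) (hy : y ∈ xgal3R F) (x : Mat 4 F) (i j : Fin 4) :
    (y * x) i j = y i 2 * x 2 j := by
  simp [mul_apply, Fin.sum_univ_four, hy.1 i 0 (by decide), hy.1 i 1 (by decide),
    hy.1 i 3 (by decide)]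

lemma xgal3_mul {x y : Mat 4 F} (hx : x ∈ xgal3P F) (hy : y ∈ xgal3R F) :
    x * y ∈ xgal3R F ∧ y * x ∈ xgal3R F := by
  obtain ⟨a1, a2, a3, a4, a5, a6, a7, a8⟩ := hx
  refine ⟨⟨fun i j h => ?_, ?_, ?_⟩, fun i j h => ?_, ?_, ?_⟩
  · simp [mul_apply, hy.1 _ j h]
  · simp [mul_apply, Fin.sum_univ_four, a3, a7, a8, hy.2.1]
  · simp [mul_apply, Fin.sum_univ_four, a4, a5, a6, hy.2.2]
  · rw [xgal3_left y hy]
    fin_cases j <;> simp_all
  · rw [xgal3_left y hy, hy.2.1, zero_mul]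
  · rw [xgal3_left y hy, hy.2.2, zero_mul]

lemma xgal3_sq {x y : Mat 4 F} (hx : x ∈ xgal3R F) (hy : y ∈ xgal3R F) : x * y = 0 := by
  ext i j
  rw [xgal3_left x hx]
  by_cases h : j = 2
  · simp [h, hy.2.1]
  · simp [hy.1 2 j h]

lemma xgal3_tr (b : Mat 4 F) {y : Mat 4 F} (hy : y ∈ xgal3R F) :
    (b * y).trace = b 2 0 * y 0 2 + b 2 1 * y 1 2 := by
  rw [trace_mul_comm]
  simp only [trace, diag_apply, Fin.sum_univ_four, xgal3_left y hy, hy.2.1, hy.2.2]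
  ring

lemma xgal3_single (i : Fin 4) (h2 : i ≠ 2) (h3 : i ≠ 3) (x : F) :
    (single i 2 x : Mat 4 F) ∈ xgal3R F :=
  ⟨fun _ _ h => by simp [h.symm], by simp [h2], by simp [h3]⟩

lemma xgal3_two {u r : F × F} (hu : u ≠ 0) (hr : r ≠ 0) : ∃ p q s t : F, p * t - q * s ≠ 0 ∧
    u.1 * p + u.2 * s = r.1 ∧ u.1 * q + u.2 * t = r.2 := by
  obtain ⟨u0, u1⟩ := u
  obtain ⟨r0, r1⟩ := r
  by_cases h0 : u0 = 0
  · have h1 : u1 ≠ 0 := fun h => hu (by simp [h, h0])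
    by_cases h2 : r1 = 0
    · have h3 : r0 ≠ 0 := fun h => hr (by simp [h, h2])
      exact ⟨0, 1, r0 / u1, 0, by simp [h1, h3], by simp [h0]; field_simp, by simp [h0, h2]⟩
    · exact ⟨1, 0, r0 / u1, r1 / u1, by simp [h1, h2], by simp [h0]; field_simp,
        by simp [h0]; field_simp⟩
  · by_cases h2 : r0 = 0
    · have h3 : r1 ≠ 0 := fun h => hr (by simp [h, h2])
      exact ⟨-u1 / u0, r1 / u0, 1, 0, by simp [h0, h3], by simp [h2]; field_simp; ring,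
        by simp; field_simp⟩
    · exact ⟨r0 / u0, (r1 - u1) / u0, 0, 1, by simp [h0, h2], by simp; field_simp,
        by simp; field_simp; ring⟩

lemma xgal3_move (b : Mat 4 F) (hb : (b 2 0, b 2 1) ≠ 0) {r : F × F} (hr : r ≠ 0) :
    ∃ g : GLn 4 F, g.1 ∈ xgal3P F ∧ cj g b 2 0 = r.1 ∧ cj g b 2 1 = r.2 := by
  obtain ⟨p, q, s, t, hd, h1, h2⟩ := xgal3_two hb hr
  obtain ⟨d, hd'⟩ : ∃ d, d * (p * t - q * s) = 1 := ⟨_, inv_mul_cancel₀ hd⟩
  refine ⟨⟨!![d * t, -(d * q), 0, 0; -(d * s), d * p, 0, 0; 0, 0, 1, 0; 0, 0, 0, 1],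
    !![p, q, 0, 0; s, t, 0, 0; 0, 0, 1, 0; 0, 0, 0, 1], ?_, ?_⟩, ?_, ?_, ?_⟩
  · ext i j
    fin_cases i <;> fin_cases j <;> simp [mul_apply, Fin.sum_univ_four] <;>
      first | linear_combination hd' | ring
  · ext i j
    fin_cases i <;> fin_cases j <;> simp [mul_apply, Fin.sum_univ_four] <;>
      first | linear_combination hd' | ring
  · exact ⟨rfl, rfl, rfl, rfl, rfl, rfl, rfl, rfl⟩
  · rw [← h1]; simp [cj, mul_apply, Fin.sum_univ_four, vecMul, dotProduct]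
  · rw [← h2]; simp [cj, mul_apply, Fin.sum_univ_four, vecMul, dotProduct]

lemma xgal3_many [Fintype F] (b : Mat 4 F) (hb : ∃ y ∈ xgal3R F, (b * y).trace ≠ 0) :
    ∃ g : Fin (Fintype.card F ^ 2 - 1) → GLn 4 F, (∀ i, (g i).1 ∈ xgal3P F) ∧
      ∀ i j, (∀ y ∈ xgal3R F, ((cj (g i) b - cj (g j) b) * y).trace = 0) → i = j := by
  classical
  have h0 : (b 2 0, b 2 1) ≠ 0 := fun h => by
    obtain ⟨y, hy, h1⟩ := hb
    rw [Prod.mk_eq_zero] at h
    exact h1 (by rw [xgal3_tr b hy, h.1, h.2]; simp)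
  have hc : Fintype.card {r : F × F // ¬ r = 0} = Fintype.card F ^ 2 - 1 := by
    rw [Fintype.card_subtype_compl, Fintype.card_subtype_eq, Fintype.card_prod, sq]
  let E := (Fintype.equivFinOfCardEq hc).symm
  choose g h1 h2 h3 using fun i => xgal3_move b h0 (E i).2
  refine ⟨g, h1, fun i j h => E.injective (Subtype.ext (Prod.ext ?_ ?_))⟩
  · have := h _ (xgal3_single 0 (by decide) (by decide) 1)
    rw [xgal3_tr _ (xgal3_single 0 (by decide) (by decide) 1)] at this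
    simpa [h2, sub_eq_zero] using this
  · have := h _ (xgal3_single 1 (by decide) (by decide) 1)
    rw [xgal3_tr _ (xgal3_single 1 (by decide) (by decide) 1)] at this
    simpa [h3, sub_eq_zero] using this

lemma xgal3_blk {n m : ℕ} {β : Type} [Fintype β] [DecidableEq β] (E : Fin m ⊕ β ≃ Fin n)
    (K : Subgroup (GLn n F))
    (hK : ∀ (i j : Fin m) (h : E (Sum.inl i) ≠ E (Sum.inl j)) (x : F), inGL n F (el h x) ∈ K)
    (g : GLn n F) (hg : ∀ s j, g.1 (E (Sum.inr s)) j = (1 : Mat n F) (E (Sum.inr s)) j)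
    (hg' : ∀ s i, g.1 (E (Sum.inl i)) (E (Sum.inr s)) = 0) (hdet : g.1.det = 1) : g ∈ K := by
  let θ : SLn m F →* Mat n F :=
    { toFun := fun D => reindex E E (fromBlocks D.1 0 0 1)
      map_one' := by simp
      map_mul' := fun D D' => by
        simp [fromBlocks_multiply] }
  have hθ : ∀ D, θ.toHomUnits D ∈ K := by
    have := gen_field m F (K.comap θ.toHomUnits) (fun i j hij x => by
      have hne : E (Sum.inl i) ≠ E (Sum.inl j) := fun e => hij (Sum.inl_injective (E.injective e))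
      have e : θ.toHomUnits (el hij x) = inGL n F (el hne x) := by
        apply Units.ext
        show reindex E E (fromBlocks (el hij x).1 0 0 1) = (el hne x).1
        rw [SpecialLinearGroup.transvection_coe, SpecialLinearGroup.transvection_coe]
        ext r s
        obtain ⟨r, rfl⟩ := E.surjective r
        obtain ⟨s, rfl⟩ := E.surjective s
        rcases r with r | r <;> rcases s with s | s <;> simp [one_apply, single_apply]
      rw [Subgroup.mem_comap, e]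
      exact hK _ _ _ _)
    intro D
    have h2 : D ∈ K.comap θ.toHomUnits := this ▸ Subgroup.mem_top D
    exact h2
  have hN : g.1 = reindex E E (fromBlocks (g.1.submatrix E E).toBlocks₁₁ 0 0 1) := by
    ext r s
    obtain ⟨r, rfl⟩ := E.surjective r
    obtain ⟨s, rfl⟩ := E.surjective s
    rcases r with r | r <;> rcases s with s | s <;>
      simp [hg, hg', one_apply, toBlocks₁₁]
  have hD : (g.1.submatrix E E).toBlocks₁₁.det = 1 := by
    rw [hN, det_reindex_self, det_fromBlocks_zero₂₁, det_one, mul_one] at hdet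
    exact hdet
  have e : g = θ.toHomUnits ⟨_, hD⟩ := Units.ext hN
  rw [e]
  exact hθ _

/-- the standard centraliser -/
def xgal3C (x : Mat 4 F) : Prop := ∀ i, i ≠ 3 → x i 3 = 0 ∧ x 3 i = 0

lemma xgal3_elC {i j : Fin 4} (h : i ≠ j) (hi : i ≠ 3) (hj : j ≠ 3) (x : F) :
    xgal3C (inGL 4 F (el h x)).1 := fun k hk => by
  show (el h x).1 k 3 = 0 ∧ (el h x).1 3 k = 0
  rw [SpecialLinearGroup.transvection_coe]
  simp [hk, hk.symm, hi, hj]

lemma xgal3_grp (K : Subgroup (GLn 4 F)) (hn : ∀ g k : GLn 4 F, xgal3C g.1 → k ∈ K → g * k * g⁻¹ ∈ K)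
    (hR : ∀ u : GLn 4 F, u.1 - 1 ∈ xgal3R F → u ∈ K) (g : GLn 4 F) (hg : xgal3C g.1)
    (h1 : g.1.det = 1) (h2 : g.1 3 3 = 1) : g ∈ K := by
  have c0 : ∀ (i : Fin 4) (h : i ≠ 2), i ≠ 3 → ∀ x : F, inGL 4 F (el h x) ∈ K := fun i h h3 x =>
    hR _ (by
      show (el h x).1 - 1 ∈ _
      rw [SpecialLinearGroup.transvection_coe, add_sub_cancel_left]
      exact xgal3_single i h h3 x)
  have c1 : ∀ {i j k : Fin 4} (hij : i ≠ j) (hjk : j ≠ k) (hik : i ≠ k), j ≠ 3 → k ≠ 3 →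
      (∀ x : F, inGL 4 F (el hij x) ∈ K) → ∀ x : F, inGL 4 F (el hik x) ∈ K := by
    intro i j k hij hjk hik hj hk h x
    rw [← mul_one x, ← el_comm hij hjk hik, mul_assoc, mul_assoc, ← mul_assoc (el hjk 1)]
    simp only [map_mul, map_inv]
    exact mul_mem (h x) (hn _ _ (xgal3_elC hjk hj hk 1) (inv_mem (h x)))
  have c2 : ∀ {i j k : Fin 4} (hij : i ≠ j) (hjk : j ≠ k) (hik : i ≠ k), i ≠ 3 → j ≠ 3 →
      (∀ x : F, inGL 4 F (el hjk x) ∈ K) → ∀ x : F, inGL 4 F (el hik x) ∈ K := by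
    intro i j k hij hjk hik hi hj h x
    rw [← mul_one x, ← el_comm hij hjk hik]
    simp only [map_mul, map_inv]
    exact mul_mem (hn _ _ (xgal3_elC hij hi hj x) (h 1)) (inv_mem (h 1))
  have a02 := c0 0 (by decide) (by decide)
  have a12 := c0 1 (by decide) (by decide)
  have a01 := c1 (k := 1) _ (by decide) (by decide) (by decide) (by decide) a02
  have a10 := c1 (k := 0) _ (by decide) (by decide) (by decide) (by decide) a12
  have a21 := c2 (i := 2) (by decide) _ (by decide) (by decide) (by decide) a01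
  have a20 := c2 (i := 2) (by decide) _ (by decide) (by decide) (by decide) a10
  refine xgal3_blk (m := 3) (β := Fin 1) finSumFinEquiv K (fun i j h x => ?_) g (fun s j => ?_)
    (fun s i => ?_) h1
  · fin_cases i <;> fin_cases j
    exacts [absurd rfl h, a01 x, a02 x, a10 x, absurd rfl h, a12 x, a20 x, a21 x, absurd rfl h]
  · obtain rfl : s = 0 := Subsingleton.elim _ _
    show g.1 3 j = (1 : Mat 4 F) 3 j
    by_cases h : j = 3
    · rw [h, h2, one_apply_eq]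
    · rw [(hg j h).2, one_apply_ne (Ne.symm h)]
  · obtain rfl : s = 0 := Subsingleton.elim _ _
    refine (hg _ ?_).1
    fin_cases i <;> decide

lemma xgal3_33 {x y : Mat 4 F} (hx : xgal3C x) : (x * y) 3 3 = x 3 3 * y 3 3 := by
  simp [mul_apply, Fin.sum_univ_four, (hx 0 (by decide)).2, (hx 1 (by decide)).2,
    (hx 2 (by decide)).2]

lemma xgal3_trace (γ : GLn 4 F) (x : Mat 4 F) : (cj γ x).trace = x.trace := by
  rw [cj, trace_mul_comm, ← mul_assoc, Units.inv_mul, one_mul]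

lemma xgal3_cj (γ g : GLn 4 F) : cj γ (γ⁻¹ * g * γ).1 = g.1 := by simp [cj, mul_assoc]

lemma xgal3_cj' (γ g : GLn 4 F) : cj γ g.1 = (γ * g * γ⁻¹).1 := rfl

lemma xgal3_cj2 (γ g : GLn 4 F) (b : Mat 4 F) : cj γ (cj (γ⁻¹ * g * γ) b) = cj g (cj γ b) := by
  simp [cj, mul_assoc]

end Aux

/-- a parabolic subalgebra of the centraliser of an idempotent of rank one -/
theorem gal_field {F : Type} [Field F] [Fintype F] {h : Subring (Mat 4 F)} (hB : Big h) :
    ∃ (h' : Subring (Mat 4 F)) (R : AddSubgroup (Mat 4 F)), h' ≤ h ∧ (∀ y ∈ R, y ∈ h') ∧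
      (∀ x ∈ h', ∀ y ∈ R, x * y ∈ R ∧ y * x ∈ R) ∧ (∀ x ∈ R, ∀ y ∈ R, x * y = 0) ∧
      (∀ c : F, ∀ y ∈ R, c • y ∈ R) ∧
      (∀ b : Mat 4 F, (∃ y ∈ R, (b * y).trace ≠ 0) →
        ∃ g : Fin (Fintype.card F ^ 2 - 1) → GLn 4 F, (∀ i, (g i).1 ∈ h') ∧
          ∀ i j, (∀ y ∈ R, ((cj (g i) b - cj (g j) b) * y).trace = 0) → i = j) ∧
      ∀ (H : Subgroup (GLn 4 F)), (∀ g, g ∈ H ↔ g.1 ∈ h) → ∀ N : Subgroup H, N.Normal →
        (∀ u : H, u.1.1 - 1 ∈ R → u ∈ N) →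
          (∀ x y : H, x * y * x⁻¹ * y⁻¹ ∈ N) ∧ N.index ≤ Fintype.card F ^ 2 := by
  obtain ⟨γ, hγ⟩ := big_nf hB
  have hγ' : ∀ x, x ∈ h ↔ xgal3C (cjA γ x) := hγ
  have tr : ∀ x, (cjA γ x).trace = x.trace := xgal3_trace γ
  have PC : ∀ x ∈ xgal3P F, xgal3C x := fun x ⟨a1, a2, a3, a4, a5, a6, _⟩ i hi => by
    fin_cases i
    exacts [⟨a1, a4⟩, ⟨a2, a5⟩, ⟨a3, a6⟩, absurd rfl hi]
  let R : AddSubgroup (Mat 4 F) := (xgal3R F).comap (cjA γ).toRingEquiv.toRingHom.toAddMonoidHom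
  let P : Subring (Mat 4 F) := (xgal3P F).comap (cjA γ).toRingEquiv.toRingHom
  have mR : ∀ x, x ∈ R ↔ cjA γ x ∈ xgal3R F := fun _ => Iff.rfl
  have mP : ∀ x, x ∈ P ↔ cjA γ x ∈ xgal3P F := fun _ => Iff.rfl
  refine ⟨P, R, fun x hx => (hγ' x).2 (PC _ hx), fun y hy => xgal3_RP hy, fun x hx y hy => ?_,
    fun x hx y hy => ?_, fun c y hy => ?_, fun b ⟨y, hy, hb⟩ => ?_, fun H hH N hN hR => ?_⟩
  · rw [mR, mR, map_mul, map_mul]
    exact xgal3_mul hx hy
  · apply (cjA γ).injective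
    rw [map_mul, map_zero]
    exact xgal3_sq hx hy
  · rw [mR] at hy
    rw [mR, map_smul]
    exact ⟨fun i j h => by simp [hy.1 i j h], by simp [hy.2]⟩
  · obtain ⟨g, h1, h2⟩ := xgal3_many (cjA γ b) ⟨cjA γ y, hy, by rwa [← map_mul, tr]⟩
    refine ⟨fun i => γ⁻¹ * g i * γ, fun i => ?_, fun i j hij => h2 i j fun z hz => ?_⟩
    · rw [mP, cjA_apply, xgal3_cj]
      exact h1 i
    · obtain ⟨z, rfl⟩ := (cjA γ).surjective z
      have := hij z hz
      rwa [← tr, map_mul, map_sub, cjA_apply, cjA_apply γ (cj _ _), xgal3_cj2, xgal3_cj2] at this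
  · have mH : ∀ g : GLn 4 F, xgal3C g.1 → γ⁻¹ * g * γ ∈ H := fun g hg => by
      rw [hH, hγ', cjA_apply, xgal3_cj]; exact hg
    have mH' : ∀ x : H, xgal3C (cjA γ x.1.1) := fun x => (hγ' _).1 ((hH _).1 x.2)
    let f : H →* F × F :=
      { toFun := fun x => ((cjA γ x.1.1).det, cjA γ x.1.1 3 3)
        map_one' := by simp
        map_mul' := fun x y => by
          rw [Subgroup.coe_mul, Units.val_mul, map_mul, det_mul, xgal3_33 (mH' x)]; rfl }
    have hk : f.toHomUnits.ker ≤ N := fun x hx => by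
      have h1 : f x = 1 := congrArg Units.val hx
      have := xgal3_grp ((N.map H.subtype).comap (MulAut.conj γ⁻¹).toMonoidHom)
        (fun g k hg ⟨k', hk', e⟩ => ⟨_, hN.conj_mem k' hk' ⟨_, mH g hg⟩, by
          have e' : k'.1 = γ⁻¹ * k * γ⁻¹⁻¹ := e
          show γ⁻¹ * g * γ * k'.1 * (γ⁻¹ * g * γ)⁻¹ = γ⁻¹ * (g * k * g⁻¹) * γ⁻¹⁻¹
          rw [e']; group⟩)
        (fun u hu => ⟨⟨_, mH u (PC _ (by
          simpa using add_mem (xgal3_RP hu) (xgal3P F).one_mem))⟩, hR _ (by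
            rw [mR, map_sub, map_one, cjA_apply, xgal3_cj]; exact hu), by
          show γ⁻¹ * u * γ = γ⁻¹ * u * γ⁻¹⁻¹
          rw [inv_inv]⟩)
        (γ * x.1 * γ⁻¹) (mH' x) (congrArg Prod.fst h1) (congrArg Prod.snd h1)
      obtain ⟨k, hk, e⟩ := this
      have e' : k.1 = γ⁻¹ * (γ * x.1 * γ⁻¹) * γ⁻¹⁻¹ := e
      rwa [← show k = x from Subtype.ext (by rw [e']; group)]
    refine ⟨fun x y => hk ?_, ?_⟩
    · rw [MonoidHom.mem_ker, map_mul, map_mul, map_mul, map_inv, map_inv,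
        mul_inv_cancel_comm, mul_inv_cancel]
    · refine (Subgroup.index_antitone hk).trans ?_
      rw [Subgroup.index_ker, sq, ← Fintype.card_prod, ← Nat.card_eq_fintype_card]
      exact Nat.card_le_card_of_injective (fun x => x.1.1)
        fun a b e => Subtype.ext (Units.ext e)

end Pool.Agent.MP_8299d6_al.Up

end
end

section

open Matrix

noncomputable section

namespace Pool.Agent.MP_8299d6_al.Up

open Pool.Agent.MP_810665_al (IrrChar)

lemma xgal4_units {M : Type} [Ring M] [Finite M] (S : Subring M) :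
    ∃ H : Subgroup Mˣ, ∀ g, g ∈ H ↔ g.1 ∈ S := by
  refine ⟨{ carrier := {g | g.1 ∈ S}
            one_mem' := S.one_mem
            mul_mem' := fun hx hy => S.mul_mem hx hy
            inv_mem' := fun {u} hu => ?_ }, fun _ => Iff.rfl⟩
  have e : u⁻¹ = u ^ (orderOf u - 1) := by
    rw [inv_eq_iff_mul_eq_one, ← pow_succ', Nat.sub_add_cancel (orderOf_pos u), pow_orderOf_eq_one]
  show ((u⁻¹ : Mˣ) : M) ∈ S
  rw [e, Units.val_pow_eq_pow_val]
  exact S.pow_mem hu _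

lemma xgal4_tau {n N : ℕ} [NeZero N] (y : Mat n (ZMod N)) : tau n N y = 1 ↔ y.trace = 0 := by
  rw [← (ZMod.stdAddChar (N := N)).map_zero_eq_one]
  exact ZMod.injective_stdAddChar.eq_iff

section Aux

variable {n p m : ℕ} [Fact p.Prime] {ι : Mat n (ZMod p) →+ Mat n (ZMod (p ^ (m + 1)))}
  (hι : ∀ X, ι (redP n p m X) = (p : ZMod (p ^ (m + 1))) ^ m • X)

include hι

lemma xgal4_trace (B : Mat n (ZMod p)) : (ι B).trace = 0 ↔ B.trace = 0 := by
  obtain ⟨Y, rfl⟩ := redP_surj n p m B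
  rw [hι, trace_smul, smul_eq_mul, lv2_scal, AddMonoidHom.map_trace]
  exact Iff.rfl

lemma xgal4_perp {J : NonUnitalSubring (Mat n (ZMod (p ^ (m + 1))))}
    {R : AddSubgroup (Mat n (ZMod p))} (hJ : ∀ x, x ∈ J ↔ redP n p m x ∈ R) (B : Mat n (ZMod p)) :
    ι B ∈ perp (tau n (p ^ (m + 1))) J.toAddSubgroup ↔ ∀ y ∈ R, (B * y).trace = 0 := by
  constructor
  · intro h y hy
    obtain ⟨x, rfl⟩ := redP_surj n p m y
    have h1 := h x ((hJ x).2 hy)
    rwa [xgal4_tau, (lv2_mul hι B x).1, xgal4_trace hι] at h1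
  · intro h x hx
    rw [xgal4_tau, (lv2_mul hι B x).1, xgal4_trace hι]
    exact h _ ((hJ x).1 hx)

lemma xgal4_cj (g : GLn n (ZMod (p ^ (m + 1)))) (g' : GLn n (ZMod p))
    (hg : redP n p m g.1 = g'.1) (B : Mat n (ZMod p)) : cj g (ι B) = ι (cj g' B) := by
  have e : Units.map (redP n p m : Mat n (ZMod (p ^ (m + 1))) →* Mat n (ZMod p)) g = g' :=
    Units.ext hg
  have hg' : redP n p m (g⁻¹).1 = (g'⁻¹).1 := by
    rw [← e, ← map_inv]
    rfl
  rw [cj, cj, (lv2_mul hι B _).2, (lv2_mul hι _ _).1, hg, hg']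

end Aux

/-- the same data over `ℤ / p ^ (m + 1)` -/
theorem gal_ring {p : ℕ} [Fact p.Prime] (m : ℕ) (O : Subring (Mat 4 (ZMod (p ^ (m + 1)))))
    (hP : ∀ x ∈ pI 4 _ (p : ZMod (p ^ (m + 1))), x ∈ O) (hB : Big (O.map (redP 4 p m)))
    (H : Subgroup (GLn 4 (ZMod (p ^ (m + 1))))) (hH : ∀ g, g ∈ H ↔ g.1 ∈ O) :
    ∃ (O' : Subring (Mat 4 (ZMod (p ^ (m + 1)))))
      (J' : NonUnitalSubring (Mat 4 (ZMod (p ^ (m + 1)))))
      (H' : Subgroup (GLn 4 (ZMod (p ^ (m + 1))))),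
      (∀ g, g ∈ H' ↔ g.1 ∈ O') ∧ O' ≤ O ∧ pI 4 _ (p : ZMod (p ^ (m + 1))) ≤ J' ∧
      (∀ y ∈ J', y ∈ O') ∧ (∀ x ∈ O', ∀ y ∈ J', x * y ∈ J' ∧ y * x ∈ J') ∧
      (∀ x ∈ J', ∀ y ∈ J', x * y ∈ pI 4 _ (p : ZMod (p ^ (m + 1)))) ∧
      (∀ b ∈ perp (tau 4 (p ^ (m + 1))) (pI 4 _ (p : ZMod (p ^ (m + 1)))).toAddSubgroup,
        b ∉ perp (tau 4 (p ^ (m + 1))) J'.toAddSubgroup →
        ∃ g : Fin (p ^ 2 - 1) → GLn 4 (ZMod (p ^ (m + 1))), (∀ i, g i ∈ H') ∧
          ∀ i j, cj (g i) b - cj (g j) b ∈ perp (tau 4 (p ^ (m + 1))) J'.toAddSubgroup → i = j) ∧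
      ∀ N : Subgroup H, N.Normal → (∀ u : H, u.1 ∈ UU J' → u ∈ N) →
        (∀ x y : H, x * y * x⁻¹ * y⁻¹ ∈ N) ∧ N.index ≤ p ^ 2 := by
  obtain ⟨h', R, hle, hRh, hid, hsq, -, horb, hab⟩ := gal_field hB
  rw [ZMod.card] at horb hab
  set π := redP 4 p m with hπ
  have hπP : ∀ x, π x = 0 ↔ x ∈ pI 4 _ (p : ZMod (p ^ (m + 1))) := redP_eq_zero
  have hmem : ∀ x, π x ∈ O.map π → x ∈ O := by
    rintro x ⟨y, hy, hxy⟩
    have := O.add_mem (hP (x - y) ((hπP _).1 (by rw [map_sub, sub_eq_zero]; exact hxy.symm))) hy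
    rwa [sub_add_cancel] at this
  let J : NonUnitalSubring (Mat 4 (ZMod (p ^ (m + 1)))) :=
    { carrier := {x | π x ∈ R}
      zero_mem' := by simp
      add_mem' := fun hx hy => by simpa using add_mem hx hy
      neg_mem' := fun hx => by simpa using hx
      mul_mem' := fun {x y} hx hy => by simpa using (hid _ (hRh _ hx) _ hy).1 }
  have hJ : ∀ x, x ∈ J ↔ π x ∈ R := fun _ => Iff.rfl
  have hPJ : pI 4 _ (p : ZMod (p ^ (m + 1))) ≤ J := fun x hx => by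
    rw [hJ, (hπP x).2 hx]
    exact zero_mem _
  have hlift : ∀ g' : GLn 4 (ZMod p), ∃ g : GLn 4 (ZMod (p ^ (m + 1))), π g.1 = g'.1 := by
    intro g'
    obtain ⟨x, hx⟩ := redP_surj 4 p m g'.1
    obtain ⟨g, rfl⟩ := isUnit_of_redP (x := x) (hx ▸ g'.isUnit)
    exact ⟨g, hx⟩
  obtain ⟨H', hH'⟩ := xgal4_units (h'.comap π)
  refine ⟨h'.comap π, J, H', hH', fun x hx => hmem x (hle hx), hPJ, fun y hy => hRh _ hy,
    fun x hx y hy => ?_, fun x hx y hy => ?_, fun b hb hb' => ?_, fun N hN hU => ?_⟩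
  · simpa [hJ] using hid _ hx _ hy
  · rw [← hπP, map_mul]
    exact hsq _ hx _ hy
  · obtain ⟨ι, hι⟩ := lv2_iota 4 p m
    rw [perp_pI] at hb
    obtain ⟨B, rfl⟩ := (lv2_range hι b).1 ((redM_eq_zero b).2 hb)
    rw [xgal4_perp hι hJ] at hb'
    push Not at hb'
    obtain ⟨g', hg', hinj⟩ := horb B hb'
    choose g hg using fun i => hlift (g' i)
    refine ⟨g, fun i => (hH' _).2 ?_, fun i j hij => hinj i j ?_⟩
    · rw [Subring.mem_comap, hg]
      exact hg' i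
    · rwa [xgal4_cj hι _ _ (hg i), xgal4_cj hι _ _ (hg j), ← map_sub, xgal4_perp hι hJ] at hij
  · obtain ⟨K, hK⟩ := xgal4_units (O.map π)
    let φ : H →* K := ((Units.map (π : Mat 4 (ZMod (p ^ (m + 1))) →* Mat 4 (ZMod p))).comp
      H.subtype).codRestrict K (fun x => (hK _).2 ⟨x.1.1, (hH _).1 x.2, rfl⟩)
    have hφ : ∀ x : H, (φ x).1.1 = π x.1.1 := fun _ => rfl
    have hsurj : Function.Surjective φ := by
      intro y
      obtain ⟨g, hg⟩ := hlift y.1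
      refine ⟨⟨g, (hH g).2 (hmem _ ?_)⟩, Subtype.ext (Units.ext hg)⟩
      rw [hg]
      exact (hK _).1 y.2
    have hker : φ.ker ≤ N := fun u hu => hU u (by
      rw [mem_UU, hJ, map_sub, map_one, ← hφ, MonoidHom.mem_ker.1 hu]
      simp)
    have hcm : (N.map φ).comap φ = N := Subgroup.comap_map_eq_self hker
    obtain ⟨h1, h2⟩ := hab K hK (N.map φ) (hN.map φ hsurj) (fun u hu => by
      obtain ⟨v, rfl⟩ := hsurj u
      refine Subgroup.mem_map_of_mem φ (hU v ?_)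
      rw [mem_UU, hJ, map_sub, map_one, ← hφ]
      exact hu)
    refine ⟨fun x y => ?_, ?_⟩
    · rw [← hcm, Subgroup.mem_comap, map_mul, map_mul, map_mul, map_inv, map_inv]
      exact h1 _ _
    · rw [← hcm, Subgroup.index_comap_of_surjective _ hsurj]
      exact h2

end Pool.Agent.MP_8299d6_al.Up

end
end

section

open Matrix

noncomputable section

namespace Pool.Agent.MP_8299d6_al.Up

open Pool.Agent.MP_810665_al (IrrChar)

lemma chain2_wt {p : ℕ} [Fact p.Prime] {h : Subring (Mat 4 (ZMod p))} (hB : ¬ Big h)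
    {d c l : ℕ} (hd : Nat.card h = p ^ d) (hc : Nat.card (commS h) = p ^ c)
    (h1 : 3 * d ≤ 14 + 2 * c) (h2 : p ^ (3 * l) ≤ Nat.card (commS h)) :
    (p : ℝ) ^ l ≤ wt p h := by
  have hp : 1 < p := (Fact.out : p.Prime).one_lt
  have hp' : (1 : ℝ) ≤ p := by exact_mod_cast hp.le
  rw [hc, Nat.pow_le_pow_iff_right hp] at h2
  rw [wt, if_neg hB, hd, hc]
  push_cast
  rw [le_div_iff₀ (by positivity), ← pow_add, ← pow_add]
  exact pow_le_pow_right₀ hp' (by omega)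

lemma chain2_num {p : ℕ} (hp : 8 ≤ p) {C k z l : ℕ} (hl : l ≤ 2) (hk : k ≤ C * p ^ l * z)
    (hz : p ≤ z) {s : ℝ} (hs : 1 / 2 ≤ s) :
    ((p ^ 2 : ℕ) : ℝ) + k * ((p ^ 2 - 1 : ℕ) : ℝ) ^ (-s) ≤ (1 + 2 * C) * p * z := by
  have hp' : (8 : ℝ) ≤ p := by exact_mod_cast hp
  have hz' : (p : ℝ) ≤ z := by exact_mod_cast hz
  have h1 : 1 ≤ p ^ 2 := Nat.one_le_pow _ _ (by omega)
  have h2 : ((p : ℝ) / 2) ^ (2 : ℝ) ≤ ((p ^ 2 - 1 : ℕ) : ℝ) := by
    rw [Nat.cast_sub h1, Real.rpow_two]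
    push_cast
    nlinarith
  have h3 : (1 : ℝ) ≤ p / 2 := by linarith
  have h4 : ((p ^ 2 - 1 : ℕ) : ℝ) ^ (-s) ≤ 2 / p := by
    refine (Real.rpow_le_rpow_of_nonpos (by positivity) h2 (by linarith)).trans ?_
    rw [← Real.rpow_mul (by linarith)]
    refine (Real.rpow_le_rpow_of_exponent_le h3 (by linarith : 2 * -s ≤ -1)).trans ?_
    rw [Real.rpow_neg_one, inv_div]
  have h5 : (k : ℝ) ≤ C * p ^ 2 * z := by
    have : C * p ^ l * z ≤ C * p ^ 2 * z := by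
      gcongr
      omega
    exact_mod_cast hk.trans this
  have h6 : (k : ℝ) * ((p ^ 2 - 1 : ℕ) : ℝ) ^ (-s) ≤ C * p ^ 2 * z * (2 / p) :=
    mul_le_mul h5 h4 (by positivity) (by positivity)
  have h7 : (C : ℝ) * p ^ 2 * z * (2 / p) = 2 * C * p * z := by
    field_simp
  push_cast at h6 ⊢
  nlinarith

open Classical in
theorem chain2_base {p : ℕ} [Fact p.Prime] (hp : 8 ≤ p) {m : ℕ}
    {L : Mat 4 (ZMod (p ^ (m + 1))) → Mat 4 (ZMod (p ^ (m + 1)))}
    (hL : ∀ J : NonUnitalSubring (Mat 4 (ZMod (p ^ (m + 1)))), pI 4 _ (p : ZMod (p ^ (m + 1))) ≤ J →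
        NilTo 4 (J : Set (Mat 4 (ZMod (p ^ (m + 1))))) (pI 4 _ (p : ZMod (p ^ (m + 1)))) →
        OM J J L) {s : ℝ} (hs : 1 / 2 ≤ s) (hs2 : s ≤ 2)
    {O : Subring (Mat 4 (ZMod (p ^ (m + 1))))} {H : Subgroup (Mat 4 (ZMod (p ^ (m + 1))))ˣ}
    (hH : ∀ g, g ∈ H ↔ (g : Mat 4 (ZMod (p ^ (m + 1)))) ∈ O)
    (hcard : Nat.card (O.map (redP 4 p m)) ≤ p ^ 10)
    {J : NonUnitalSubring (Mat 4 (ZMod (p ^ (m + 1))))} {J' : AddSubgroup (Mat 4 (ZMod p))}
    (hJ : ∀ x, x ∈ J ↔ redP 4 p m x ∈ J') (hJ'h : ∀ y ∈ J', y ∈ O.map (redP 4 p m))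
    (hJ'id : ∀ x ∈ O.map (redP 4 p m), ∀ y ∈ J', x * y ∈ J' ∧ y * x ∈ J')
    (hJ'nil : NilTo 4 (J' : Set (Mat 4 (ZMod p))) {0})
    (S : Sit (tau 4 (p ^ (m + 1))) J J L H) (hJO : ∀ y ∈ J, y ∈ O)
    (hid : ∀ x ∈ O, ∀ y ∈ J, x * y ∈ J ∧ y * x ∈ J) {C k z l : ℕ} (hk : k ≤ C * p ^ l * z)
    (hpz : p ≤ z)
    (hz : z * Nat.card (J.toAddSubgroup ⊔ commS O : AddSubgroup _) ≤ Nat.card O)
    (hl : ∀ h' : Subring (Mat 4 (ZMod p)), h' ≤ O.map (redP 4 p m) →
      (∀ x ∈ O.map (redP 4 p m), ∃ y ∈ h', x - y ∈ J') → p ^ (3 * l) ≤ Nat.card (commS h'))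
    (A : Mat 4 (ZMod (p ^ (m + 1))))
    (hc : ((Irr H).filter (fun χ => Sup (tau 4 (p ^ (m + 1))) J L H χ ⊆
      cls (tau 4 (p ^ (m + 1))) J (UU J) A)).card ≤ k)
    (hA : ∀ y ∈ O, ∃ y' ∈ O, y - y' ∈ J ∧
      A * y' - y' * A ∈ perp (tau 4 (p ^ (m + 1))) O.toAddSubgroup)
    (hI : ∀ B ∈ cls (tau 4 (p ^ (m + 1))) J (UU J) A, ∀ y,
      B * y - y * B ∈ perp (tau 4 (p ^ (m + 1))) J.toAddSubgroup → y ∈ O) :
    Zs H (fun χ => Sup (tau 4 (p ^ (m + 1))) J L H χ ⊆ cls (tau 4 (p ^ (m + 1))) J (UU J) A) s ≤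
      (Nat.card H : ℝ) ^ (-1 - s) * sumOn (cls (tau 4 (p ^ (m + 1))) J (UU J) A)
        (fun B => 2 * ((1 + 2 * C) * wt p (sh 4 p m B)) *
          (Nat.card (Mat 4 (ZMod (p ^ (m + 1))))ˣ : ℝ) ^ (1 + s) *
            ((orb B).ncard : ℝ) ^ (-1 - s / 2)) := by
  have hτ := S.frob
  have hp1 : 1 < p := by omega
  have hD0 : ∀ B, 0 ≤ (1 + 2 * (C : ℝ)) * wt p (sh 4 p m B) := fun B =>
    mul_nonneg (by positivity) (wt_nonneg _)
  have hsh : ∀ B ∈ baseT J A (perp (tau 4 (p ^ (m + 1))) (J.toAddSubgroup ⊔ commS O)),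
      ¬ IsScal B ∧ sh 4 p m B ≤ O.map (redP 4 p m) ∧
        ∀ x ∈ O.map (redP 4 p m), ∃ y ∈ sh 4 p m B, x - y ∈ J' := by
    intro B hB
    obtain ⟨h1, h2⟩ := base_cent hτ O J hJO hid A hA hI hB
    refine ⟨?_, ?_, ?_⟩
    · rintro ⟨a, rfl⟩
      have : O.map (redP 4 p m) = ⊤ := eq_top_iff.2 (fun x _ => by
        obtain ⟨y, rfl⟩ := redP_surj 4 p m x
        exact ⟨y, h1 y (lv1_cent.2 (by simp)), rfl⟩)
      rw [this, Nat.card_congr (Subring.topEquiv).toEquiv, lv3_card_mat,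
        Nat.pow_le_pow_iff_right hp1] at hcard
      omega
    · rintro _ ⟨y, hy, rfl⟩
      exact ⟨y, h1 y hy, rfl⟩
    · rintro _ ⟨x, hx, rfl⟩
      obtain ⟨y, hy, hxy⟩ := h2 x hx
      exact ⟨_, ⟨y, hy, rfl⟩, by rw [← map_sub]; exact (hJ _).1 hxy⟩
  by_cases hB : Big (O.map (redP 4 p m))
  · have hbot := big_nil hB J' hJ'h hJ'id hJ'nil
    have hJP : J = pI 4 _ (p : ZMod (p ^ (m + 1))) := by
      ext x
      rw [hJ, hbot, AddSubgroup.mem_bot, redP_eq_zero]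
    subst hJP
    obtain ⟨O', J'', H', hH', hle, hPJ, hJO', hid', hsq, hr, hN⟩ := gal_ring m O hJO hB H hH
    have hnil : NilTo 4 (J'' : Set (Mat 4 (ZMod (p ^ (m + 1)))))
        (pI 4 _ (p : ZMod (p ^ (m + 1)))) := fun x hx => by
      rw [List.ofFn_succ, List.ofFn_succ, List.prod_cons, List.prod_cons, ← mul_assoc]
      exact (chain_pI_ideal _ (hsq _ (hx _) _ (hx _))).2
    have G : Gal (tau 4 (p ^ (m + 1))) O O' _ J'' L H H' A :=
      ⟨hH, hH', hle, hPJ, S, chain_sit hτ hH' (hL J'' hPJ hnil) hJO' hid', hJO', hid, hid', hsq, hA⟩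
    have hl2 : l ≤ 2 := by
      have := (hl _ le_rfl (fun x hx => ⟨x, hx, by simp⟩)).trans (big_comm hB)
      rw [Nat.pow_le_pow_iff_right hp1] at this
      omega
    have hr0 : (0 : ℝ) < ((p ^ 2 - 1 : ℕ) : ℝ) := by
      have : 1 < p ^ 2 := Nat.one_lt_pow (by norm_num) hp1
      exact_mod_cast (by omega : 0 < p ^ 2 - 1)
    refine base2 O _ hH S hJO hid A hA (by linarith) hs2 _ z _ hD0
      (base_left S A (by linarith) k (p ^ 2) _ hr0
        (fun χ => Sup (tau 4 (p ^ (m + 1))) J'' L H χ ⊆ cls (tau 4 (p ^ (m + 1))) J'' (UU J'') A)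
        hc (by convert G.few (p ^ 2) hN) (fun χ hχ h1 h2 => G.large _ hr hχ h1 h2)) hz
      (fun B hB' => ?_) (card_mat_big (by omega) m)
    obtain ⟨-, h2, h3⟩ := hsh B hB'
    have e : sh 4 p m B = O.map (redP 4 p m) := le_antisymm h2 (fun x hx => by
      obtain ⟨y, hy, hxy⟩ := h3 x hx
      rw [hbot, AddSubgroup.mem_bot, sub_eq_zero] at hxy
      rwa [hxy])
    rw [e, wt, if_pos hB]
    exact chain2_num hp hl2 hk hpz hs
  · refine base2 O _ hH S hJO hid A hA (by linarith) hs2 _ z _ hD0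
      (base_left S A (by linarith) k k 1 one_pos (fun _ => True) hc (by simpa using hc)
        (fun χ _ _ h2 => absurd trivial h2)) hz
      (fun B hB' => ?_) (card_mat_big (by omega) m)
    obtain ⟨h1, h2, h3⟩ := hsh B hB'
    have hnb : ¬ Big (sh 4 p m B) := fun h => hB (by
      have : sh 4 p m B = O.map (redP 4 p m) := by
        apply SetLike.coe_injective
        refine Set.Finite.eq_of_subset_of_card_le (Set.toFinite _) h2 ?_
        have := big_card h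
        exact hcard.trans (le_of_eq this.symm)
      rwa [← this])
    obtain ⟨d, c, hd, hc', h4, -, -⟩ := sh_exp m B h1
    have h5 := chain2_wt hnb hd hc' h4 (hl _ h2 h3)
    have h6 : (k : ℝ) ≤ C * p ^ l * z := by exact_mod_cast hk
    have h7 : (C : ℝ) * p ^ l * z ≤ C * wt p (sh 4 p m B) * z := by gcongr
    have h8 : 0 ≤ wt p (sh 4 p m B) * z := mul_nonneg (wt_nonneg _) (by positivity)
    rw [Real.one_rpow]
    nlinarith

lemma chain2_top {p : ℕ} [Fact p.Prime] (m : ℕ) (B : Mat 4 (ZMod (p ^ (m + 1))))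
    (hB : B ∈ NS 4 _ ((p : ZMod (p ^ (m + 1))) ^ m)) (O : Subring (Mat 4 (ZMod (p ^ (m + 1)))))
    (hO : ∀ x ∈ O, ∃ y, B * y - y * B ∈ pI 4 _ ((p : ZMod (p ^ (m + 1))) ^ m) ∧
      x - y ∈ pI 4 _ (p : ZMod (p ^ (m + 1)))) : Nat.card (O.map (redP 4 p m)) ≤ p ^ 10 := by
  rw [mem_NS_iff] at hB
  rcases m with _ | m
  · exact absurd (lv3_zero _) hB
  obtain ⟨d, c, hd, -, -, h1, -⟩ := sh_exp m _ hB
  have hle : O.map (redP 4 p (m + 1)) ≤ sh 4 p m (redM 4 p (m + 1) B) := by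
    rintro _ ⟨x, hx, rfl⟩
    obtain ⟨y, h2, h3⟩ := hO x hx
    rw [← redP_eq_zero, map_sub, sub_eq_zero] at h3
    refine ⟨redM 4 p (m + 1) y, ?_, ?_⟩
    · refine lv1_cent.2 ?_
      rw [← map_mul, ← map_mul, ← map_sub, redM_eq_zero]
      exact h2
    · rw [h3]
      ext i j
      exact DFunLike.congr_fun (ZMod.castHom_comp (dvd_pow_self p (Nat.succ_ne_zero m))
        (pow_dvd_pow p (Nat.le_succ (m + 1)))) (y i j)
  refine (Nat.card_mono (Set.toFinite _) hle).trans ?_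
  exact (le_of_eq hd).trans (Nat.pow_le_pow_right (Fact.out : p.Prime).pos h1)

theorem chain2 : ∃ C : ℝ, ∀ (p : ℕ) [Fact p.Prime], 8 ≤ p → ∀ (m : ℕ)
    (L : Mat 4 (ZMod (p ^ (m + 1))) → Mat 4 (ZMod (p ^ (m + 1)))),
    (∀ J : NonUnitalSubring (Mat 4 (ZMod (p ^ (m + 1)))), pI 4 _ (p : ZMod (p ^ (m + 1))) ≤ J →
        NilTo 4 (J : Set (Mat 4 (ZMod (p ^ (m + 1))))) (pI 4 _ (p : ZMod (p ^ (m + 1)))) →
        OM J J L) →
    ∀ s : ℝ, 1 / 2 ≤ s → s ≤ 2 →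
    Zs (⊤ : Subgroup (GLn 4 (ZMod (p ^ (m + 1)))))
      (fun χ => Sup (tau 4 (p ^ (m + 1))) (pI 4 _ (p : ZMod (p ^ (m + 1)))) L ⊤ χ
        ⊆ NS 4 _ ((p : ZMod (p ^ (m + 1))) ^ m)) s ≤
      C * sumOn (NS 4 _ ((p : ZMod (p ^ (m + 1))) ^ m))
        (fun A => wt p (sh 4 p m A) * ((orb A).ncard : ℝ) ^ (-1 - s / 2)) := by
  classical
  obtain ⟨C, hC⟩ := ss3 4 (by norm_num)
  refine ⟨2 * (1 + 2 * C), fun p _ hp m L hL s hs' hs2 => ?_⟩
  have hs : 0 ≤ s := by linarith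
  have hp1 : 1 < p := by omega
  have hτ := frob_tau 4 (p ^ (m + 1))
  set τ := tau 4 (p ^ (m + 1)) with hτe
  set P := pI 4 _ (p : ZMod (p ^ (m + 1))) with hP
  set π := redP 4 p m with hπe
  have hπP : ∀ x, π x = 0 ↔ x ∈ P := redP_eq_zero
  let f : Mat 4 (ZMod (p ^ (m + 1))) → ℝ := fun B => 2 * ((1 + 2 * C) * wt p (sh 4 p m B)) *
    (Nat.card (Mat 4 (ZMod (p ^ (m + 1))))ˣ : ℝ) ^ (1 + s) * ((orb B).ncard : ℝ) ^ (-1 - s / 2)
  have hf : ∀ B, 0 ≤ f B := fun B => by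
    have := wt_nonneg (sh 4 p m B)
    positivity
  have key : ∀ (N : ℕ) (O : Subring (Mat 4 (ZMod (p ^ (m + 1))))), Nat.card O = N →
      Nat.card (O.map π) ≤ p ^ 10 → ∀ H : Subgroup (Mat 4 (ZMod (p ^ (m + 1))))ˣ,
      (∀ g, g ∈ H ↔ (g : Mat 4 (ZMod (p ^ (m + 1)))) ∈ O) →
      ∀ I : NonUnitalSubring (Mat 4 (ZMod (p ^ (m + 1)))), P ≤ I → (∀ y ∈ I, y ∈ O) →
      (∀ x ∈ O, ∀ y ∈ I, x * y ∈ I ∧ y * x ∈ I) →
      NilTo 4 (I : Set (Mat 4 (ZMod (p ^ (m + 1))))) P → ∀ A,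
      (∀ B ∈ cls τ I (UU I) A, ∀ y, B * y - y * B ∈ perp τ I.toAddSubgroup → y ∈ O) →
      Zs H (fun χ => Sup τ I L H χ ⊆ cls τ I (UU I) A) s ≤
        (Nat.card H : ℝ) ^ (-1 - s) * sumOn (cls τ I (UU I) A) f := by
    intro N
    induction N using Nat.strong_induction_on with
    | _ N ih =>
    intro O hN hO H hH I hPI hIO hIid hInil A hInv
    have hker : ∀ x, π x = 0 → x ∈ O := fun x hx => hIO x (hPI ((hπP x).1 hx))
    have hmem : ∀ x, π x ∈ O.map π → x ∈ O := by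
      rintro x ⟨y, hy, hxy⟩
      have := O.add_mem (hker (x - y) (by rw [map_sub, sub_eq_zero]; exact hxy.symm)) hy
      rwa [sub_add_cancel] at this
    obtain ⟨J', hJ'h, hJ'id, hJ'nil, hmax, hcoc, k, z, l, hk, hpz, hz, hl, c, hc⟩ :=
      hC p (by omega) (by omega) (O.map π) (fun h => by
        rw [h, Nat.card_congr (Subring.topEquiv).toEquiv, lv3_card_mat,
          Nat.pow_le_pow_iff_right hp1] at hO
        omega)
    let J : NonUnitalSubring (Mat 4 (ZMod (p ^ (m + 1)))) :=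
      { carrier := {x | π x ∈ J'}
        zero_mem' := by simp
        add_mem' := fun hx hy => by simpa using add_mem hx hy
        neg_mem' := fun hx => by simpa using hx
        mul_mem' := fun {x y} hx hy => by simpa using (hJ'id _ (hJ'h _ hx) _ hy).1 }
    have hJ : ∀ x, x ∈ J ↔ π x ∈ J' := fun _ => Iff.rfl
    have hJO : ∀ y ∈ J, y ∈ O := fun y hy => hmem y (hJ'h _ hy)
    have hJid : ∀ x ∈ O, ∀ y ∈ J, x * y ∈ J ∧ y * x ∈ J := fun x hx y hy => by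
      simpa [hJ] using hJ'id _ ⟨x, hx, rfl⟩ _ hy
    have hPJ : P ≤ J := fun x hx => by rw [hJ, (hπP x).2 hx]; exact zero_mem _
    have hJnil : NilTo 4 (J : Set (Mat 4 (ZMod (p ^ (m + 1))))) P := fun x hx => by
      have := hJ'nil (fun i => π (x i)) hx
      refine (hπP _).1 ?_
      rw [map_list_prod, List.map_ofFn]
      exact this
    have hIJ : I ≤ J := by
      have := hmax (I.toAddSubgroup.map π.toAddMonoidHom) (by
        rintro _ ⟨y, hy, rfl⟩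
        exact ⟨y, hIO y hy, rfl⟩) (by
        rintro _ ⟨x, hx, rfl⟩ _ ⟨y, hy, rfl⟩
        exact ⟨⟨x * y, (hIid x hx y hy).1, by simp⟩, ⟨y * x, (hIid x hx y hy).2, by simp⟩⟩) (by
        intro x hx
        choose y hy hyx using hx
        have := (hπP _).2 (hInil y hy)
        rw [map_list_prod, List.map_ofFn] at this
        have e : π ∘ y = x := funext hyx
        rw [e] at this
        exact this)
      exact fun y hy => this ⟨y, hy, rfl⟩
    have SI := chain_sit hτ hH (hL I hPI hInil) hIO hIid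
    have SJ := chain_sit hτ hH (hL J hPJ hJnil) hJO hJid
    by_cases hne : ∃ χ ∈ Irr H, Sup τ I L H χ ⊆ cls τ I (UU I) A
    swap
    · have : Zs H (fun χ => Sup τ I L H χ ⊆ cls τ I (UU I) A) s = 0 :=
        Finset.sum_eq_zero (fun χ hχ => absurd ⟨χ, Finset.mem_filter.1 hχ⟩ hne)
      rw [this]
      exact mul_nonneg (by positivity) (Finset.sum_nonneg (fun B _ => hf B))
    obtain ⟨χ₀, hχ₀, hA⟩ := hne
    have hst := chain_stable SI SJ hIJ hχ₀ hA
    refine (Zs_mono (fun χ hχ h => (SJ.sup_mono SI hIJ hχ).trans h) s).trans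
      (SJ.step _ hst f hf hs (fun B hB H₁ hH₁ => ?_))
    obtain ⟨O₁, hO₁, hO₁'⟩ := stab_subring hτ O J hJO hJid SJ.om.unit B
    have hH₁' : ∀ g, g ∈ H₁ ↔ (g : Mat 4 (ZMod (p ^ (m + 1)))) ∈ O₁ := fun g => by
      rw [hH₁, hO₁', hH]
    have hle : O₁ ≤ O := fun x hx => by
      obtain ⟨y, hy, _, h⟩ := (hO₁ x).1 hx
      have := O.add_mem (hJO _ h) hy
      rwa [sub_add_cancel] at this
    have hInv₁ := inv_step hτ O O₁ J hJO hJid B hO₁ (fun B' hB' y hy => hInv B' (hst B hB hB') y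
      (perp_anti (J := I.toAddSubgroup) (J' := J.toAddSubgroup) hIJ hy))
    by_cases heq : O₁ = O
    · subst heq
      obtain ⟨A', hA', hA''⟩ := chain_central hτ π J' hJ hJ'id hJid hJO (hcoc _) B
        (fun x hx => (hO₁ x).1 hx)
      have S₁ := chain_sit hτ hH₁' (hL J hPJ hJnil) hJO hJid
      rw [← hτ.cls_eq (fun g hg => S₁.norm g (S₁.sub hg)) hA'] at hInv₁ ⊢
      refine chain2_base hp hL hs' hs2 hH₁' hO hJ hJ'h hJ'id hJ'nil S₁ hJO hJid hk hpz
        (chain_z π (redP_surj 4 p m) hker hJ hz) hl A' ?_ hA'' hInv₁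
      convert S₁.count A' k (fun g => c (π g.1)) (fun x y hxy => ?_)
      obtain ⟨_, ⟨g, hg, rfl⟩, hu, hg'⟩ := hc _ ⟨_, (hH₁' _).1 x.2, rfl⟩ _
        ⟨_, (hH₁' _).1 y.2, rfl⟩ hxy
      obtain ⟨g, rfl⟩ := isUnit_of_redP hu
      let g' : H₁ := ⟨g, (hH₁' g).2 hg⟩
      refine ⟨g', (g' * x * g'⁻¹)⁻¹ * y, ?_, by group⟩
      have h1 : (g : Mat 4 (ZMod (p ^ (m + 1)))) * x.1 - y.1 * g ∈ J := by simpa [hJ] using hg'
      have h2 := (hJid _ ((hH₁' _).1 (g' * x * g'⁻¹)⁻¹.2) _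
        (hJid _ ((hH₁' _).1 g'⁻¹.2) _ (neg_mem h1)).2).1
      rw [mem_UU]
      convert h2 using 1
      simp [g', mul_sub, sub_mul, mul_assoc]
    · refine ih (Nat.card O₁) ?_ O₁ rfl (le_trans ?_ hO) H₁ hH₁' J hPJ
        (fun y hy => (hO₁ y).2 ⟨0, O.zero_mem, by simp, by simpa using hy⟩)
        (fun x hx => hJid x (hle hx)) hJnil B hInv₁
      · rw [← hN]
        exact Set.Finite.card_lt_card (Set.toFinite _)
          (SetLike.coe_ssubset_coe.2 (lt_of_le_of_ne hle heq))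
      · exact Nat.card_mono (Set.toFinite _) (Set.image_mono hle)
  have hPnil : NilTo 4 (P : Set (Mat 4 (ZMod (p ^ (m + 1))))) P := fun x hx => by
    rw [List.ofFn_succ, List.prod_cons]
    exact (chain_pI_ideal _ (hx 0)).2
  have hPid : ∀ x ∈ (⊤ : Subring (Mat 4 (ZMod (p ^ (m + 1))))), ∀ y ∈ P, x * y ∈ P ∧ y * x ∈ P :=
    fun x _ y hy => chain_pI_ideal x hy
  have S := chain_sit hτ (O := ⊤) (H := ⊤) (by simp) (hL P le_rfl hPnil) (by simp) hPid
  refine (S.step _ ?_ f hf hs (fun B hB H₁ hH₁ => ?_)).trans (le_of_eq ?_)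
  · rintro A hA B ⟨g, _, hB⟩ ⟨c, hc⟩
    rw [perp_pI] at hB
    refine hA ⟨c, ?_⟩
    have h1 : cj g A - c • 1 ∈ pI 4 _ ((p : ZMod (p ^ (m + 1))) ^ m) := by
      have := sub_mem hc hB
      convert this using 1
      abel
    have h2 := (chain_pI_ideal (g : Mat 4 _) (chain_pI_ideal ((g⁻¹ : _ˣ) : Mat 4 _) h1).1).2
    convert h2 using 1
    simp [cj, mul_sub, sub_mul, mul_assoc]
  · obtain ⟨O₁, hO₁, hO₁'⟩ := stab_subring hτ ⊤ P (by simp) hPid S.om.unit B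
    refine key _ O₁ rfl (chain2_top m B hB O₁ (fun x hx => ?_)) H₁
      (fun g => by rw [hH₁, hO₁']; simp) P le_rfl
      (fun y hy => (hO₁ y).2 ⟨0, trivial, by simp, by simpa using hy⟩)
      (fun x _ => hPid x trivial) hPnil B
      (inv_step hτ ⊤ O₁ P (by simp) hPid B hO₁ (fun _ _ _ _ => trivial))
    obtain ⟨y, _, h1, h2⟩ := (hO₁ x).1 hx
    rw [perp_pI] at h1
    exact ⟨y, h1, h2⟩
  · have h0 : (0 : ℝ) < Nat.card (Mat 4 (ZMod (p ^ (m + 1))))ˣ := by exact_mod_cast Nat.card_pos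
    have h1 : (Nat.card (Mat 4 (ZMod (p ^ (m + 1))))ˣ : ℝ) ^ (-1 - s) *
        (Nat.card (Mat 4 (ZMod (p ^ (m + 1))))ˣ : ℝ) ^ (1 + s) = 1 := by
      rw [← Real.rpow_add h0, show -1 - s + (1 + s) = 0 by ring, Real.rpow_zero]
    rw [Subgroup.card_top]
    unfold sumOn
    rw [Finset.mul_sum, Finset.mul_sum]
    refine Finset.sum_congr rfl (fun A _ => ?_)
    simp only [f]
    linear_combination (2 * (1 + 2 * (C : ℝ)) * wt p (sh 4 p m A) *
      ((orb A).ncard : ℝ) ^ (-1 - s / 2)) * h1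

end Pool.Agent.MP_8299d6_al.Up

end
end

section

open Matrix

noncomputable section

namespace Pool.Agent.MP_8299d6_al.Up

open Pool.Agent.MP_810665_al (IrrChar)

theorem local_small2 (p : ℕ) [Fact p.Prime] {s : ℝ} (hs : 2 / 3 < s) (hs2 : s ≤ 2) :
    ∃ C : ℝ, ∀ m : ℕ, Zs (SLn 4 (ZMod (p ^ (m + 1)))) (fun _ => True) s ≤ C := by
  obtain ⟨C₁, h1⟩ := small_gl 4 p
  obtain ⟨C₂, h2⟩ := level_small2 p (σ := s / 2) (by linarith)
  have hp : (0 : ℝ) < p := by exact_mod_cast (Fact.out : p.Prime).pos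
  refine ⟨max (Nat.card (SLn 4 (ZMod (p ^ (0 + 1)))) : ℝ)
    (1 + 2 * ((2 * 4 : ℕ) : ℝ) ^ (4 : ℝ) * (|C₁| * C₂)), fun m => ?_⟩
  rcases m with _ | m
  · exact (Zs_le_card _ (by linarith)).trans (le_max_left _ _)
  refine le_trans ?_ (le_max_right _ _)
  refine (local_split s).trans (add_le_add le_rfl ?_)
  refine (transfer 4 (by omega) _ (2 * 4) (index_pow 4 (by omega) p (m + 2)) _
    (by linarith)).trans ?_
  have hq : (0 : ℝ) < (p : ℝ) ^ (m + 1 + 1) := by positivity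
  have hu : (p : ℝ) ^ (m + 1 + 1) ≤ 2 * (Nat.card (ZMod (p ^ (m + 1 + 1)))ˣ : ℝ) := by
    exact_mod_cast card_units_zmod p (m + 1)
  have e1 := local_coef (n := 4) (by omega) hs2 hq hu
  have e0 : 0 ≤ ∑ A : Mat 4 (ZMod (p ^ (m + 2))), cc A ^ (1 + s / 2) :=
    Finset.sum_nonneg (fun A _ => Real.rpow_nonneg (by unfold cc; positivity) _)
  have e2 : Zs (GLn 4 (ZMod (p ^ (m + 2)))) (fun χ => ∃ x ∈ (Set.univ : Set _),
      ¬ InKer χ (inGL 4 _ x)) s ≤ |C₁| * C₂ * (p : ℝ) ^ (m + 1 + 1) := by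
    refine (Zs_mono (fun _ _ _ => trivial) s).trans ((h1 m s (by linarith) hs2).trans ?_)
    refine (mul_le_mul_of_nonneg_right (le_abs_self C₁) e0).trans ?_
    rw [mul_assoc]
    exact mul_le_mul_of_nonneg_left (h2 (m + 1)) (abs_nonneg _)
  refine (mul_le_mul e1 e2 (Zs_nonneg _ _) (by positivity)).trans (le_of_eq ?_)
  field_simp

theorem local_big2 {s : ℝ} (hs : 2 / 3 < s) (hs2 : s ≤ 2) : ∃ (C : ℝ) (p₀ : ℕ),
    ∀ (p : ℕ) [Fact p.Prime], p₀ ≤ p → ∀ m : ℕ,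
    Zs (SLn 4 (ZMod (p ^ (m + 1)))) (fun _ => True) s ≤ 1 + C * (p : ℝ) ^ (1 - 3 * s) := by
  obtain ⟨C₀, p₀, h0⟩ := level_zero2
  obtain ⟨C₁, h1⟩ := chain2
  obtain ⟨C₂, p₂, h2⟩ := level_big2 (σ := s / 2) (by linarith)
  refine ⟨2 * ((2 * 4 : ℕ) : ℝ) ^ (4 : ℝ) * (C₀ + |C₁| * (4 * |C₂|)), max 12 (max p₀ p₂),
    fun p _ hp m => ?_⟩
  have hp3 : 12 ≤ p := (le_max_left _ _).trans hp
  have hp0 : (0 : ℝ) < p := by exact_mod_cast (Fact.out : p.Prime).pos
  have hp1 : (1 : ℝ) ≤ p := by exact_mod_cast (Fact.out : p.Prime).pos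
  obtain ⟨L, hL⟩ := om_big 4 p (by omega) hp3 m
  have hS := local_sit (by omega) hL
  refine (local_split s).trans (add_le_add le_rfl ?_)
  refine (Zs_or (Q := fun σ => (∃ x, ¬ InKer σ x) ∧ ∀ x, localRed 4 p m x = 1 → InKer σ x)
    (R := fun σ => ∃ x ∈ {x | localRed 4 p m x = 1}, ¬ InKer σ x) ?_ s).trans ?_
  · rintro σ _ ⟨x, _, hx⟩
    by_cases h : ∀ x, localRed 4 p m x = 1 → InKer σ x
    · exact Or.inl ⟨⟨x, hx⟩, h⟩
    · push Not at h
      exact Or.inr h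
  rw [mul_add, add_mul]
  refine add_le_add ?_ ?_
  · refine (Zs_le_of_surj (P' := fun σ => ∃ x ∈ (Set.univ : Set (SLn 4 (ZMod p))), ¬ InKer σ x)
      (localRed 4 p m) (localRed_surj 4 p m) (fun χ _ h => h.2)
      (fun χ _ ⟨⟨x, hx⟩, _⟩ => ⟨_, trivial, fun h => hx (local_inKer_comp _ h)⟩) s).trans ?_
    refine (transfer 4 (by omega) _ (2 * 4) (index_pow_field 4 (by omega) p) _
      (by linarith)).trans ?_
    have hu : (p : ℝ) ≤ 2 * (Nat.card (ZMod p)ˣ : ℝ) := by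
      rw [Nat.card_units, Nat.card_zmod]
      exact_mod_cast (by omega : p ≤ 2 * (p - 1))
    have e1 := local_coef (n := 4) (by omega) hs2 hp0 hu
    refine (mul_le_mul e1 (h0 p (le_trans (by simp) hp) s hs.le hs2) (Zs_nonneg _ _)
      (by positivity)).trans (le_of_eq ?_)
    rw [show (2 : ℝ) - 3 * s = 1 + (1 - 3 * s) by ring, Real.rpow_add hp0, Real.rpow_one]
    field_simp
  · refine (transfer 4 (by omega) _ (2 * 4) (index_pow 4 (by omega) p (m + 1)) _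
      (by linarith)).trans ?_
    have hq : (0 : ℝ) < (p : ℝ) ^ (m + 1) := by positivity
    have hu : (p : ℝ) ^ (m + 1) ≤ 2 * (Nat.card (ZMod (p ^ (m + 1)))ˣ : ℝ) := by
      exact_mod_cast card_units_zmod p m
    have e1 := local_coef (n := 4) (by omega) hs2 hq hu
    have e2 := (local_ns (by omega) hS s).trans (h1 p (by omega) m L hL s (by linarith) hs2)
    have hD : (Nat.card (Mat 4 (ZMod (p ^ (m + 1)))) : ℝ) ≤
        2 * Nat.card (Mat 4 (ZMod (p ^ (m + 1))))ˣ := by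
      exact_mod_cast card_mat_big (n := 4) (p := p) (by omega) m
    have e5 : (p : ℝ) ^ ((m : ℝ) + 4 - 12 * (s / 2)) ≤ (p : ℝ) ^ (m + 1) * (p : ℝ) ^ (1 - 3 * s) := by
      rw [← Real.rpow_natCast, ← Real.rpow_add hp0]
      refine Real.rpow_le_rpow_of_exponent_le hp1 ?_
      push_cast
      linarith
    have e3 : sumOn (NS 4 _ ((p : ZMod (p ^ (m + 1))) ^ m))
        (fun A => wt p (sh 4 p m A) * ((orb A).ncard : ℝ) ^ (-1 - s / 2)) ≤
        4 * (|C₂| * ((p : ℝ) ^ (m + 1) * (p : ℝ) ^ (1 - 3 * s))) := by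
      refine (local_sumOn_le _ 4 (fun A => ?_)).trans (mul_le_mul_of_nonneg_left
        ((h2 p (le_trans (by simp) hp) m).trans
          (mul_le_mul (le_abs_self _) e5 (by positivity) (abs_nonneg _))) (by norm_num))
      have := orb_rpow_le hD A (t := 1 + s / 2) (by linarith)
      rw [show -1 - s / 2 = -(1 + s / 2) by ring, mul_left_comm]
      refine mul_le_mul_of_nonneg_left (this.trans (mul_le_mul_of_nonneg_right ?_
        (Real.rpow_nonneg (by unfold cc; positivity) _))) (wt_nonneg _)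
      calc (2 : ℝ) ^ (1 + s / 2) ≤ (2 : ℝ) ^ (2 : ℝ) :=
            Real.rpow_le_rpow_of_exponent_le (by norm_num) (by linarith)
        _ = 4 := by norm_num
    have e4 : C₁ * sumOn (NS 4 _ ((p : ZMod (p ^ (m + 1))) ^ m))
        (fun A => wt p (sh 4 p m A) * ((orb A).ncard : ℝ) ^ (-1 - s / 2)) ≤
        |C₁| * (4 * (|C₂| * ((p : ℝ) ^ (m + 1) * (p : ℝ) ^ (1 - 3 * s)))) :=
      mul_le_mul (le_abs_self _) e3
        (local_sumOn_nonneg _ (fun A => mul_nonneg (wt_nonneg _) (by positivity))) (by positivity)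
    refine (mul_le_mul e1 (e2.trans e4) (Zs_nonneg _ _) (by positivity)).trans (le_of_eq ?_)
    field_simp

end Pool.Agent.MP_8299d6_al.Up

end
end

section

open Matrix

noncomputable section

namespace Pool.Agent.MP_8299d6_al.Up

open Pool.Agent.MP_810665_al (IrrChar)

open scoped ENNReal

section xlowF
variable {F : Type} [Field F]

/-- the first basis vector -/
def xlowE (F : Type) [Field F] : Fin 4 → F := Pi.single 0 1

lemma xlowE_ne : xlowE F ≠ 0 := fun e => by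
  have := congrFun e 0
  simp [xlowE] at this

lemma xlow_mul (g h : SLn 4 F) (u : Fin 4 → F) : (g * h).1 *ᵥ u = g.1 *ᵥ (h.1 *ᵥ u) := by
  rw [mulVec_mulVec]; rfl

lemma xlow_inv (g : SLn 4 F) (u : Fin 4 → F) : (g⁻¹).1 *ᵥ (g.1 *ᵥ u) = u := by
  rw [← xlow_mul, inv_mul_cancel]; exact one_mulVec u

lemma xlow_inv' (g : SLn 4 F) (u : Fin 4 → F) : g.1 *ᵥ ((g⁻¹).1 *ᵥ u) = u := by
  rw [← xlow_mul, mul_inv_cancel]; exact one_mulVec u

lemma xlow_ne (g : SLn 4 F) : g.1 *ᵥ xlowE F ≠ 0 := fun e => by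
  have := xlow_inv g (xlowE F)
  rw [e, mulVec_zero] at this
  exact xlowE_ne this.symm

lemma xlow_entry {g : SLn 4 F} {a : F} (h : g.1 *ᵥ xlowE F = a • xlowE F) : g.1 0 0 = a := by
  have := congrFun h 0
  simpa [xlowE] using this

/-- stabiliser of the line through the first basis vector -/
def xlowH (F : Type) [Field F] : Subgroup (SLn 4 F) where
  carrier := {g | ∃ a : F, g.1 *ᵥ xlowE F = a • xlowE F}
  one_mem' := ⟨1, by rw [one_smul]; exact one_mulVec _⟩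
  mul_mem' := by
    rintro g h ⟨a, ha⟩ ⟨b, hb⟩
    exact ⟨b * a, by rw [xlow_mul, hb, mulVec_smul, ha, smul_smul]⟩
  inv_mem' := by
    rintro g ⟨a, ha⟩
    have ha0 : a ≠ 0 := by
      rintro rfl
      exact xlow_ne g (by rw [ha, zero_smul])
    refine ⟨a⁻¹, ?_⟩
    have := xlow_inv g (xlowE F)
    rw [ha, mulVec_smul] at this
    rw [eq_inv_smul_iff₀ ha0, this]

lemma xlow_entry_mul {g h : SLn 4 F} (hg : g ∈ xlowH F) (hh : h ∈ xlowH F) :
    (g * h).1 0 0 = g.1 0 0 * h.1 0 0 := by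
  obtain ⟨a, ha⟩ := hg
  obtain ⟨b, hb⟩ := hh
  rw [xlow_entry ha, xlow_entry hb]
  exact xlow_entry (by rw [xlow_mul, hb, mulVec_smul, ha, smul_smul, mul_comm])

lemma xlow_ex (u : Fin 4 → F) {a : F} (ha : a ≠ 0) :
    ∃ h : SLn 4 F, h.1 *ᵥ xlowE F = a • xlowE F ∧ h.1 *ᵥ u = a • u := by
  have hd : ∀ b x d : F, det !![a, 0, 0, 0; 0, a, 0, 0; 0, 0, b, 0; 0, 0, x, d] = a * a * b * d := by
    intro b x d
    simp [det_succ_row_zero, Fin.sum_univ_succ]
    ring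
  by_cases hu : u 2 = 0
  · refine ⟨⟨!![a, 0, 0, 0; 0, a, 0, 0; 0, 0, (a ^ 3)⁻¹, 0; 0, 0, 0, a], ?_⟩, ?_, ?_⟩
    · rw [hd]; field_simp
    · ext i; fin_cases i <;> simp [xlowE]
    · ext i; fin_cases i <;> simp [mulVec, dotProduct, Fin.sum_univ_succ, hu]
  · refine ⟨⟨!![a, 0, 0, 0; 0, a, 0, 0; 0, 0, a, 0; 0, 0, (a - (a ^ 3)⁻¹) * u 3 / u 2, (a ^ 3)⁻¹],
      ?_⟩, ?_, ?_⟩
    · rw [hd]; field_simp
    · ext i; fin_cases i <;> simp [xlowE]
    · ext i; fin_cases i <;> simp [mulVec, dotProduct, Fin.sum_univ_succ]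
      field_simp
      ring

lemma xlow_conj (g : SLn 4 F) {a : F} (ha : a ≠ 0) :
    ∃ h : SLn 4 F, h.1 *ᵥ xlowE F = a • xlowE F ∧
      (g * h * g⁻¹).1 *ᵥ xlowE F = a • xlowE F := by
  obtain ⟨h, h1, h2⟩ := xlow_ex ((g⁻¹).1 *ᵥ xlowE F) ha
  exact ⟨h, h1, by rw [xlow_mul, xlow_mul, h2, mulVec_smul, xlow_inv']⟩

end xlowF

section xlowP
variable (p : ℕ) [Fact p.Prime]

/-- the congruence subgroup -/
def xlowG : Subgroup (SLn 4 ℤ) := (xlowH (ZMod p)).comap (redSL 4 p)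

/-- the character -/
def xlowC (μ : MulChar (ZMod p) ℂ) (g : SLn 4 ℤ) : ℂ := μ ((redSL 4 p g).1 0 0)

lemma xlow_isChar (μ : MulChar (ZMod p) ℂ) :
    IsChar (xlowG p) (redSL 4 p).ker (xlowC p μ) where
  le g hg := by
    change redSL 4 p g ∈ xlowH (ZMod p)
    rw [MonoidHom.mem_ker.1 hg]; exact one_mem _
  mul x hx y hy := by
    unfold xlowC
    have h := xlow_entry_mul (F := ZMod p) (g := redSL 4 p x) (h := redSL 4 p y) hx hy
    rw [map_mul, h, map_mul]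
  one x hx := by
    unfold xlowC
    rw [MonoidHom.mem_ker.1 hx]
    change μ ((1 : Mat 4 (ZMod p)) 0 0) = 1
    rw [one_apply_eq, map_one]

instance xlow_fin : (redSL 4 p).ker.FiniteIndex := by
  have : Finite (redSL 4 p).range := inferInstance
  exact Subgroup.finiteIndex_ker _

lemma xlow_index : (xlowG p).index ≤ (2 * p) ^ 3 := by
  have : Finite (Projectivization (ZMod p) (Fin 4 → ZMod p)) :=
    (Projectivization.finite_iff_of_finite _ _).2 inferInstance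
  refine (index_le_of_fun (xlowG p) (fun g => Projectivization.mk (ZMod p)
    ((redSL 4 p g).1 *ᵥ xlowE (ZMod p)) (xlow_ne _)) fun g g' e => ?_).2.trans ?_
  · obtain ⟨a, ha⟩ := (Projectivization.mk_eq_mk_iff' _ _ _ _ _).1 e.symm
    refine ⟨a, ?_⟩
    rw [map_mul, map_inv, xlow_mul, ← ha, mulVec_smul, xlow_inv]
  · rw [Projectivization.card_of_finrank (ZMod p) _ (n := 4) (by simp), Nat.card_zmod]
    have hp : 1 ≤ p := (Fact.out : p.Prime).one_le
    simp only [Finset.sum_range_succ, Finset.range_zero, Finset.sum_empty]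
    have h1 : p ^ 0 ≤ p ^ 3 := Nat.pow_le_pow_right hp (by norm_num)
    have h2 : p ^ 1 ≤ p ^ 3 := Nat.pow_le_pow_right hp (by norm_num)
    have h3 : p ^ 2 ≤ p ^ 3 := Nat.pow_le_pow_right hp (by norm_num)
    rw [mul_pow]
    omega

lemma xlow_lift (g : SLn 4 ℤ) {a : ZMod p} (ha : a ≠ 0) :
    ∃ h ∈ xlowG p, g * h * g⁻¹ ∈ xlowG p ∧ ∀ μ : MulChar (ZMod p) ℂ,
      xlowC p μ h = μ a ∧ xlowC p μ (g * h * g⁻¹) = μ a := by
  obtain ⟨h, h1, h2⟩ := xlow_conj (redSL 4 p g) ha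
  obtain ⟨h, rfl⟩ := redSL_surj 4 p h
  rw [← map_inv, ← map_mul, ← map_mul] at h2
  refine ⟨h, ⟨a, h1⟩, ⟨a, h2⟩, fun μ => ⟨?_, ?_⟩⟩
  · unfold xlowC; rw [xlow_entry h1]
  · unfold xlowC; rw [xlow_entry h2]

lemma xlow_el {i j : Fin 4} (hij : i ≠ j) : el hij (1 : ℤ) ^ p ∈ (redSL 4 p).ker := by
  rw [MonoidHom.mem_ker, el_pow, map_el]
  simp

lemma xlow_ker {V : Type} [AddCommGroup V] [Module ℂ V] {ρ : Representation ℂ (SLn 4 ℤ) V}
    (hρ : ρ.IsIrreducible) {μ : MulChar (ZMod p) ℂ} {v : V} (hv : v ≠ 0)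
    (he : ∀ h ∈ xlowG p, ρ h v = xlowC p μ h • v) {i j : Fin 4} (hij : i ≠ j) :
    ρ (el hij (1 : ℤ)) ^ p = 1 := by
  rw [← map_pow]
  refine core_triv hρ (xlow_isChar p μ) hv he _ ?_
  rw [Subgroup.normalCore_eq_self]
  exact xlow_el p hij

lemma xlow_card : Nat.card {μ : MulChar (ZMod p) ℂ // μ ≠ 1} = p - 2 := by
  classical
  have := Fintype.ofFinite (MulChar (ZMod p) ℂ)
  have hc : Fintype.card (MulChar (ZMod p) ℂ) = p - 1 := by
    rw [← Nat.card_eq_fintype_card, MulChar.card_eq_card_units_of_hasEnoughRootsOfUnity,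
      Nat.card_eq_fintype_card, ZMod.card_units]
  rw [Nat.card_eq_fintype_card, Fintype.card_subtype_compl, hc, Fintype.card_subtype_eq]
  omega

end xlowP

lemma xlow_same {V : Type} [AddCommGroup V] [Module ℂ V] {ρ : Representation ℂ (SLn 4 ℤ) V}
    (hρ : ρ.IsIrreducible) (p : ℕ) [Fact p.Prime] {μ μ' : MulChar (ZMod p) ℂ} {v v' : V}
    (hv : v ≠ 0) (hv' : v' ≠ 0) (he : ∀ h ∈ xlowG p, ρ h v = xlowC p μ h • v)
    (he' : ∀ h ∈ xlowG p, ρ h v' = xlowC p μ' h • v') : μ = μ' := by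
  obtain ⟨g, hg⟩ := intertwine hρ (xlow_isChar p μ') hv hv' he he'
  refine MulChar.ext fun a => ?_
  obtain ⟨h, h1, h2, h3⟩ := xlow_lift p g a.ne_zero
  rw [← (h3 μ).1, ← (h3 μ').2]
  exact hg h h1 h2

lemma xlow_diff {V : Type} [AddCommGroup V] [Module ℂ V] {ρ : Representation ℂ (SLn 4 ℤ) V}
    (hρ : ρ.IsIrreducible) (p q : ℕ) [Fact p.Prime] [Fact q.Prime] (hpq : p ≠ q)
    {μ : MulChar (ZMod p) ℂ} {μ' : MulChar (ZMod q) ℂ} {v v' : V}
    (hv : v ≠ 0) (hv' : v' ≠ 0) (he : ∀ h ∈ xlowG p, ρ h v = xlowC p μ h • v)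
    (he' : ∀ h ∈ xlowG q, ρ h v' = xlowC q μ' h • v') : μ = 1 := by
  have hker : ρ.ker = ⊤ := gen_int 4 _ fun i j hij => by
    rw [MonoidHom.mem_ker]
    have h1 := xlow_ker p hρ hv he hij
    have h2 := xlow_ker q hρ hv' he' hij
    have h3 := pow_gcd_eq_one.2 ⟨h1, h2⟩
    rwa [(Nat.coprime_primes Fact.out Fact.out).2 hpq, pow_one] at h3
  refine MulChar.ext fun a => ?_
  obtain ⟨h, h1, -, h3⟩ := xlow_lift p 1 a.ne_zero
  have h4 := he h h1
  have h5 : ρ h = 1 := MonoidHom.mem_ker.1 (hker ▸ Subgroup.mem_top h)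
  rw [h5, (h3 μ).1, Module.End.one_apply] at h4
  rw [MulChar.one_apply_coe]
  exact smul_left_injective ℂ hv (h4.symm.trans (one_smul ℂ v).symm)

lemma xlow_pow (m : ℕ) : (((m ^ 3 : ℕ) : ℝ≥0∞)) ^ (-(2 / 3) : ℝ) = ((m : ℝ≥0∞) ^ 2)⁻¹ := by
  rw [Nat.cast_pow, ← ENNReal.rpow_natCast, ← ENNReal.rpow_mul, ← ENNReal.rpow_natCast,
    ← ENNReal.rpow_neg]
  norm_num

lemma xlow_div : ∑' p : Nat.Primes, ((p.1 - 2 : ℕ) : ℝ≥0∞) *
    (((2 * p.1) ^ 3 : ℕ) : ℝ≥0∞) ^ (-(2 / 3) : ℝ) = ⊤ := by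
  by_contra hne
  simp only [xlow_pow] at hne
  have h1 := ENNReal.summable_toReal hne
  have h2 : Summable fun p : Nat.Primes => 2 * (1 / (p.1 : ℝ) ^ 2) :=
    ((Real.summable_one_div_nat_pow.2 one_lt_two).comp_injective Subtype.val_injective).mul_left 2
  refine Nat.Primes.not_summable_one_div (((h1.mul_left 4).add h2).congr fun p => ?_)
  have hp : (p.1 : ℝ) ≠ 0 := Nat.cast_ne_zero.2 p.2.ne_zero
  rw [ENNReal.toReal_mul, ENNReal.toReal_inv, ENNReal.toReal_pow, ENNReal.toReal_natCast,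
    ENNReal.toReal_natCast, Nat.cast_sub p.2.two_le]
  push_cast
  field_simp
  ring

/-- index set -/
abbrev xlowJ : Type := Σ p : Nat.Primes, {μ : MulChar (ZMod p.1) ℂ // μ ≠ 1}

theorem zeta_low : repZeta (SLn 4 ℤ) (2 / 3) = ⊤ := by
  have key : ∀ j : xlowJ, ∃ n : ℕ, n + 1 ≤ (2 * j.1.1) ^ 3 ∧ ∃ σ : IrrRep (SLn 4 ℤ) (n + 1), ∃ v,
      v ≠ 0 ∧ ∀ h ∈ @xlowG j.1.1 ⟨j.1.2⟩, σ.1 h v = xlowC j.1.1 j.2.1 h • v := fun j => by
    have : Fact j.1.1.Prime := ⟨j.1.2⟩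
    obtain ⟨n, hn, h⟩ := exists_irr (xlow_isChar j.1.1 j.2.1)
    exact ⟨n, hn.trans (xlow_index _), h⟩
  choose n hn σ v hv he using key
  have h := repZeta_ge n (fun j => (2 * j.1.1) ^ 3) (fun _ => 1) σ hn (fun _ => one_ne_zero)
    (fun _ _ _ => rfl) (fun j => ?_) (s := 2 / 3) (by norm_num)
  · rw [eq_top_iff]
    refine le_trans (le_of_eq ?_) h
    rw [← xlow_div, ENNReal.tsum_sigma']
    refine tsum_congr fun p => ?_
    have : Fact p.1.Prime := ⟨p.2⟩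
    simp only [ENNReal.tsum_const, Nat.cast_one, inv_one, one_mul]
    rw [ENat.card_eq_coe_natCard, xlow_card]
    simp
  · rw [Nat.cast_one, Set.encard_le_one_iff]
    suffices H : ∀ j', Nonempty ((σ j').1.Equiv (σ j).1) → j' = j from
      fun a b ha hb => (H a ha).trans (H b hb).symm
    rintro j' ⟨e⟩
    obtain ⟨p, μ⟩ := j
    obtain ⟨q, μ'⟩ := j'
    have : Fact p.1.Prime := ⟨p.2⟩
    have : Fact q.1.Prime := ⟨q.2⟩
    have hw : e (v ⟨q, μ'⟩) ≠ 0 := fun e0 => hv _ (e.toLinearEquiv.map_eq_zero_iff.1 e0)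
    have hw' : ∀ h ∈ xlowG q.1, (σ ⟨p, μ⟩).1 h (e (v ⟨q, μ'⟩)) =
        xlowC q.1 μ'.1 h • e (v ⟨q, μ'⟩) := fun h hh => by
      rw [← equiv_apply e, he ⟨q, μ'⟩ h hh]
      exact map_smul e.toLinearEquiv _ _
    by_cases hpq : p = q
    · subst hpq
      have h1 : μ'.1 = μ.1 := xlow_same (σ ⟨p, μ⟩).2 p.1 hw (hv ⟨p, μ⟩) hw' (he ⟨p, μ⟩)
      exact congrArg (Sigma.mk p) (Subtype.ext h1)
    · have h1 : μ.1 = 1 := xlow_diff (σ ⟨p, μ⟩).2 p.1 q.1 (fun e => hpq (Subtype.ext e))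
        (hv ⟨p, μ⟩) hw (he ⟨p, μ⟩) hw'
      exact absurd h1 μ.2

end Pool.Agent.MP_8299d6_al.Up

end
end

section

open Matrix

noncomputable section

namespace Pool.Agent.MP_8299d6_al.Up

open Pool.Agent.MP_810665_al (IrrChar)

theorem main_int2 {s : ℝ} (hs : 2 / 3 < s) (hs2 : s ≤ 2) : repZeta (SLn 4 ℤ) s < ⊤ := by
  classical
  obtain ⟨C, p₀, hbig⟩ := local_big2 hs hs2
  have hsm : ∀ p : ℕ, ∃ D : ℝ, 0 ≤ D ∧ ∀ (_ : Fact p.Prime) (m : ℕ),
      Zs (SLn 4 (ZMod (p ^ (m + 1)))) (fun _ => True) s ≤ D := by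
    intro p
    by_cases hp : p.Prime
    · have : Fact p.Prime := ⟨hp⟩
      obtain ⟨D, hD⟩ := local_small2 p hs hs2
      exact ⟨|D|, abs_nonneg _, fun _ m => (hD m).trans (le_abs_self _)⟩
    · exact ⟨0, le_rfl, fun h => absurd h.out hp⟩
  choose D hD0 hD using hsm
  have hsum : Summable (fun p : ℕ => (if p < p₀ then D p else 0) + |C| * (p : ℝ) ^ (1 - 3 * s)) := by
    refine Summable.add ?_ (Summable.mul_left _ (Real.summable_nat_rpow.2 (by linarith)))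
    refine summable_of_ne_finset_zero (s := Finset.range p₀) (fun p hp => ?_)
    rw [if_neg (by simpa using hp)]
  obtain ⟨E, hE⟩ := euler 4 s _ (fun p => add_nonneg (by split_ifs; exacts [hD0 p, le_rfl])
    (by positivity)) hsum (fun p hp m => by
      have h0 : 0 ≤ |C| * (p : ℝ) ^ (1 - 3 * s) := by positivity
      split_ifs with h
      · linarith [hD p hp m]
      · have := hbig p (by omega) m
        have h2 : C * (p : ℝ) ^ (1 - 3 * s) ≤ |C| * (p : ℝ) ^ (1 - 3 * s) :=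
          mul_le_mul_of_nonneg_right (le_abs_self _) (by positivity)
        linarith)
  exact zeta_lt_top2 (by linarith) E hE

theorem main2 (Γ : Subgroup (SLn 4 ℚ))
    (hΓ : Γ.Commensurable (SpecialLinearGroup.map (Int.castRingHom ℚ)).range) :
    abscissa Γ = ((2 / 3 : ℝ) : EReal) := by
  have hinj : Function.Injective
      (SpecialLinearGroup.map (Int.castRingHom ℚ) : SLn 4 ℤ →* SLn 4 ℚ) := by
    intro x y h
    ext i j
    have := congrArg (fun g : SLn 4 ℚ => g.1 i j) h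
    simpa using this
  have key : ∀ s : ℝ, 2 / 3 < s → s ≤ 2 → abscissa Γ ≤ (s : EReal) := by
    intro s hs hs2
    refine sInf_le ⟨s, ?_, rfl⟩
    refine zeta_comm Γ _ hΓ (by linarith) ?_
    rw [← zeta_congr (MonoidHom.ofInjective hinj)]
    exact main_int2 hs hs2
  refine le_antisymm ?_ (le_abscissa ?_)
  · by_contra hlt
    push Not at hlt
    obtain ⟨t, ht1, ht2⟩ := EReal.lt_iff_exists_real_btwn.1 hlt
    have ht : (2 / 3 : ℝ) < t := by exact_mod_cast ht1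
    have := key (min t 2) (lt_min ht (by norm_num)) (min_le_right _ _)
    have h3 : ((min t 2 : ℝ) : EReal) ≤ (t : EReal) := by exact_mod_cast min_le_left t 2
    exact absurd (this.trans h3) (not_le.2 ht2)
  · by_contra hne
    have := zeta_comm _ Γ hΓ.symm (s := 2 / 3) (by norm_num) (lt_top_iff_ne_top.2 hne)
    rw [← zeta_congr (MonoidHom.ofInjective hinj), zeta_low] at this
    exact lt_irrefl _ this

end Pool.Agent.MP_8299d6_al.Up

end
end
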